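import Pool.Agent.MP_9ab903_nt.TH.P3

set_option autoImplicit false

open NumberField IsDedekindDomain
open CM27 CMT NAB CF TWR
open scoped Classical

namespace TH

/-! ## [TH-P4a] the local cubic Hilbert symbol (file TH/P4a.lean)

`T v x y` = cubic symbol of `x ^ ord(y) y ^ (- ord(x))` (tame symbol up to sign, and `-1` is a cube); at the places above `3` it is only used for
`x` admissible (`AdG`: up to cubes `1 - λ³ τ`, `τ` integral above `3`): then `3 ∣ ord x`, so `T v x y = (x / v) ^ ord(y)`.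
Bilinearity: `x ^ (a + b) ..`, the two factors have `Cd`. (`3 ∤ v`: `x ^ ord(y) y ^ (- ord(x))` has order `0`.)
`T_steinberg`, `a + b = 1`: `v ∤ 3`: if `ord a > 0` then `b ≡ 1`, `T = (b / v) ^ (- ord a) = 1` (`cs_of_lt`), same for `ord b > 0`; if `ord a < 0` then
`ord b = ord a = - n`, the element is `(a / b) ^ (- n)` and `a / b = - 1 + 1 / b`, so `- a / b ≡ 1`. `v ∣ 3`, `a` admissible: if `ord a ≠ 0`: `3 ∣ ord b`
(`ord a > 0`: `ord b = 0`; `ord a < 0`: `ord b = ord a`). If `ord a = 0`: `b = 1 - a`; `a u³ = 1 - λ³ τ`, `u` a unit at `v`. If `ord b = 0` fine;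
otherwise `a ≡ 1 mod v`, so `u³ ≡ 1`, `u ≡ 1 mod v`; hypothesis `UL`: `λ` is a uniformiser at `v`, so `v(u - 1) ≤ v(λ)`, `u³ ≡ 1 mod λ³`, `b = 1 - a ≡ 0 mod λ³`;
`ord b = 3` fine; `ord b > 3`: `a ≡ 1 mod λ⁴`, `(a / v) = 1` (`cs_of_lt_three`). -/

section
variable {F : Type} [Field F] [NumberField F] (e : Eis →+* 𝓞 F) (v : HeightOneSpectrum (𝓞 F))

/-- integral above `3` -/
def I3 (τ : F) : Prop := ∀ v : HeightOneSpectrum (𝓞 F), (3 : 𝓞 F) ∈ v.asIdeal → v.valuation F τ ≤ 1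

/-- admissible: up to cubes congruent to `1` modulo `λ³` -/
def AdG (x : F) : Prop := ∃ u τ : F, u ≠ 0 ∧ x * u ^ 3 = 1 - ((e la : 𝓞 F) : F) ^ 3 * τ ∧ I3 τ

/-- `λ` is unramified in `F` -/
def UL : Prop := ∀ v : HeightOneSpectrum (𝓞 F), (3 : 𝓞 F) ∈ v.asIdeal → e la ∉ v.asIdeal ^ 2

/-- the local symbol -/
noncomputable def T (x y : F) : Eis := cs e v (x ^ (-od v y) * y ^ (od v x))

theorem p4a_od_zpow (x : F) (n : ℤ) : od v (x ^ n) = n * od v x := by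
  rw [od, map_zpow₀, WithZero.log_zpow, zsmul_eq_mul]
  rfl

theorem p4a_od_one : od v (1 : F) = 0 := by
  rw [od, map_one, WithZero.log_one]

theorem p4a_od_of_val_one {x : F} (h : v.valuation F x = 1) : od v x = 0 := by
  rw [od, h, WithZero.log_one]

theorem I3.int (a : 𝓞 F) : I3 (a : F) := fun v _ => v.valuation_le_one a

theorem I3.add {x y : F} (hx : I3 x) (hy : I3 y) : I3 (x + y) := fun v hv =>
  (Valuation.map_add _ _ _).trans (max_le (hx v hv) (hy v hv))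

theorem I3.mul {x y : F} (hx : I3 x) (hy : I3 y) : I3 (x * y) := fun v hv => by
  rw [map_mul]
  exact mul_le_one' (hx v hv) (hy v hv)

theorem I3.neg {x : F} (hx : I3 x) : I3 (-x) := fun v hv => by
  rw [Valuation.map_neg]
  exact hx v hv

theorem p4a_I3_zero : I3 (0 : F) := fun v _ => by rw [map_zero]; exact zero_le

theorem AdG.mul {x y : F} (hx : AdG e x) (hy : AdG e y) : AdG e (x * y) := by
  obtain ⟨u, τ, hu, h1, h2⟩ := hx
  obtain ⟨u', τ', hu', h1', h2'⟩ := hy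
  refine ⟨u * u', τ + τ' + -(((e la ^ 3 : 𝓞 F) : F) * (τ * τ')), mul_ne_zero hu hu', ?_,
    (h2.add h2').add ((I3.int _).mul (h2.mul h2')).neg⟩
  have e1 : ((e la ^ 3 : 𝓞 F) : F) = ((e la : 𝓞 F) : F) ^ 3 := map_pow (algebraMap (𝓞 F) F) _ _
  rw [e1]
  calc x * y * (u * u') ^ 3 = (x * u ^ 3) * (y * u' ^ 3) := by ring
    _ = (1 - ((e la : 𝓞 F) : F) ^ 3 * τ) * (1 - ((e la : 𝓞 F) : F) ^ 3 * τ') := by rw [h1, h1']
    _ = _ := by ring

theorem AdG_cube {u : F} (hu : u ≠ 0) : AdG e (u ^ 3) :=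
  ⟨u⁻¹, 0, inv_ne_zero hu, by field_simp; ring, p4a_I3_zero⟩

theorem AdG_one : AdG e (1 : F) := ⟨1, 0, one_ne_zero, by ring, p4a_I3_zero⟩

theorem AdG.neg {x : F} (hx : AdG e x) : AdG e (-x) := by
  obtain ⟨u, τ, hu, h1, h2⟩ := hx
  exact ⟨-u, τ, neg_ne_zero.2 hu, by rw [← h1]; ring, h2⟩

theorem p4a_la_lt {v : HeightOneSpectrum (𝓞 F)} (h3 : (3 : 𝓞 F) ∈ v.asIdeal) :
    v.valuation F ((e la : 𝓞 F) : F) < 1 := (val_lt_iff _ v).2 ((three_mem_iff e v).1 h3)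

/-- `1 - λ³ τ` is a unit -/
theorem p4a_val_one_sub {v : HeightOneSpectrum (𝓞 F)} (h3 : (3 : 𝓞 F) ∈ v.asIdeal) {τ : F}
    (hτ : v.valuation F τ ≤ 1) : v.valuation F (1 - ((e la : 𝓞 F) : F) ^ 3 * τ) = 1 := by
  have h1 : v.valuation F (((e la : 𝓞 F) : F) ^ 3 * τ) < v.valuation F (1 : F) := by
    rw [map_mul, map_pow, map_one]
    calc v.valuation F ((e la : 𝓞 F) : F) ^ 3 * v.valuation F τ
        ≤ v.valuation F ((e la : 𝓞 F) : F) ^ 3 * 1 := mul_le_mul_right hτ _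
      _ < 1 := by
          rw [mul_one]
          exact pow_lt_one₀ zero_le (p4a_la_lt e h3) three_ne_zero
  rw [Valuation.map_sub_eq_of_lt_left _ h1, map_one]

theorem p4a_exists_three : ∃ w : HeightOneSpectrum (𝓞 F), (3 : 𝓞 F) ∈ w.asIdeal := by
  have h1 : Ideal.span {(3 : 𝓞 F)} ≠ ⊤ := by
    intro h
    have h2 : Ideal.absNorm (Ideal.span {((3 : ℕ) : 𝓞 F)}) = 1 := by
      rw [Ideal.absNorm_eq_one_iff]
      exact_mod_cast h
    rw [Ideal.absNorm_span_natCast] at h2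
    have h3 : 0 < Module.finrank ℤ (𝓞 F) := Module.finrank_pos
    have h4 := (Nat.pow_eq_one.1 h2)
    omega
  obtain ⟨P, hPm, hP⟩ := Ideal.exists_le_maximal _ h1
  have h2 : (3 : 𝓞 F) ∈ P := hP (Ideal.mem_span_singleton_self 3)
  refine ⟨⟨P, hPm.isPrime, ?_⟩, h2⟩
  rintro rfl
  rw [Ideal.mem_bot] at h2
  exact (OfNat.ofNat_ne_zero 3 : (3 : 𝓞 F) ≠ 0) h2

theorem AdG.ne_zero {x : F} (hx : AdG e x) : x ≠ 0 := by
  obtain ⟨v, hv⟩ := p4a_exists_three (F := F)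
  obtain ⟨u, τ, hu, h1, h2⟩ := hx
  rintro rfl
  rw [zero_mul] at h1
  have h3 := p4a_val_one_sub e hv (h2 v hv)
  rw [← h1, map_zero] at h3
  exact zero_ne_one h3

theorem AdG.inv {x : F} (hx : AdG e x) : AdG e x⁻¹ := by
  have hx0 := hx.ne_zero
  have h := hx.mul e hx
  obtain ⟨u, τ, hu, h1, h2⟩ := h
  refine ⟨x * u, τ, mul_ne_zero hx0 hu, ?_, h2⟩
  rw [← h1]
  field_simp

theorem AdG_one_sub {τ : F} (h : I3 τ) : AdG e (1 - ((e la : 𝓞 F) : F) ^ 3 * τ) :=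
  ⟨1, τ, one_ne_zero, by ring, h⟩

theorem AdG_of_dvd {a : 𝓞 F} (h : e la ^ 3 ∣ a - 1) : AdG e (a : F) := by
  obtain ⟨c, hc⟩ := h
  refine ⟨1, ((-c : 𝓞 F) : F), one_ne_zero, ?_, I3.int _⟩
  have h1 : a = 1 - e la ^ 3 * (-c) := by linear_combination hc
  have h2 : (a : F) = 1 - ((e la : 𝓞 F) : F) ^ 3 * ((-c : 𝓞 F) : F) := by
    conv_lhs => rw [h1]
    change algebraMap (𝓞 F) F (1 - e la ^ 3 * -c) = _
    rw [map_sub, map_mul, map_one, map_pow]
  rw [h2]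
  ring

theorem AdG.cd {x : F} (hx : AdG e x) (h3 : (3 : 𝓞 F) ∈ v.asIdeal) : Cd e v x := by
  have hx0 := hx.ne_zero
  obtain ⟨u, τ, hu, h1, h2⟩ := hx
  exact ⟨hx0, Or.inr ⟨h3, u, τ, hu, h1, h2 v h3⟩⟩

/-- the element is in the domain of the symbol -/
theorem T_cd {x y : F} (hx : x ≠ 0) (hy : y ≠ 0) (h : (3 : 𝓞 F) ∉ v.asIdeal ∨ AdG e x) :
    Cd e v (x ^ (-od v y) * y ^ (od v x)) := by
  by_cases h3 : (3 : 𝓞 F) ∈ v.asIdeal
  · have had := h.resolve_left (fun h => h h3)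
    have hc := had.cd e v h3
    obtain ⟨k, hk⟩ := hc.t3 e v
    have e1 : y ^ (od v x) = (y ^ k) ^ 3 := by
      rw [hk, ← zpow_natCast, ← zpow_mul]
      congr 1
      push_cast
      ring
    rw [e1]
    exact (hc.zpow e v _).mul_cube e v (zpow_ne_zero _ hy)
  · refine ⟨mul_ne_zero (zpow_ne_zero _ hx) (zpow_ne_zero _ hy), Or.inl ⟨h3, ?_⟩⟩
    rw [t3, od_mul v (zpow_ne_zero _ hx) (zpow_ne_zero _ hy), p4a_od_zpow, p4a_od_zpow]
    have e1 : -od v y * od v x + od v x * od v y = 0 := by ring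
    rw [e1]
    exact dvd_zero _

theorem T_pow_three {x y : F} (hx : x ≠ 0) (hy : y ≠ 0) (h : (3 : 𝓞 F) ∉ v.asIdeal ∨ AdG e x) :
    T e v x y ^ 3 = 1 := cs_pow_three e v (T_cd e v hx hy h)

theorem T_mul_right {x y z : F} (hx : x ≠ 0) (hy : y ≠ 0) (hz : z ≠ 0)
    (h : (3 : 𝓞 F) ∉ v.asIdeal ∨ AdG e x) : T e v x (y * z) = T e v x y * T e v x z := by
  have e1 : x ^ (-od v (y * z)) * (y * z) ^ (od v x) =
      (x ^ (-od v y) * y ^ (od v x)) * (x ^ (-od v z) * z ^ (od v x)) := by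
    rw [od_mul v hy hz, neg_add, zpow_add₀ hx, mul_zpow]
    ring
  rw [T, T, T, e1, cs_mul e v (T_cd e v hx hy h) (T_cd e v hx hz h)]

theorem T_mul_left {x x' y : F} (hx : x ≠ 0) (hx' : x' ≠ 0) (hy : y ≠ 0)
    (h : (3 : 𝓞 F) ∉ v.asIdeal ∨ (AdG e x ∧ AdG e x')) :
    T e v (x * x') y = T e v x y * T e v x' y := by
  have e1 : (x * x') ^ (-od v y) * y ^ (od v (x * x')) =
      (x ^ (-od v y) * y ^ (od v x)) * (x' ^ (-od v y) * y ^ (od v x')) := by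
    rw [od_mul v hx hx', zpow_add₀ hy, mul_zpow]
    ring
  rw [T, T, T, e1, cs_mul e v (T_cd e v hx hy (h.imp_right (fun h => h.1)))
    (T_cd e v hx' hy (h.imp_right (fun h => h.2)))]

theorem T_cube_right {x y s : F} (hx : x ≠ 0) (hy : y ≠ 0) (hs : s ≠ 0) :
    T e v x (y * s ^ 3) = T e v x y := by
  have e1 : x ^ (-od v (y * s ^ 3)) * (y * s ^ 3) ^ (od v x) =
      (x ^ (-od v y) * y ^ (od v x)) * (x ^ (-od v s) * s ^ (od v x)) ^ 3 := by
    have e2 : (x ^ (-od v s)) ^ 3 = x ^ (-(3 * od v s)) := by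
      rw [← zpow_natCast, ← zpow_mul]
      congr 1
      push_cast
      ring
    have e3 : (s ^ 3) ^ (od v x) = (s ^ (od v x)) ^ 3 := by
      rw [← zpow_natCast, ← zpow_natCast, ← zpow_mul, ← zpow_mul, mul_comm]
    have e4 : od v (y * s ^ 3) = od v y + 3 * od v s := by
      rw [od_mul v hy (pow_ne_zero 3 hs), od_pow]
      push_cast
      ring
    rw [e4, neg_add, zpow_add₀ hx, mul_zpow, mul_pow, e2, e3]
    ring
  rw [T, T, e1, cs_mul_cube e v _ (mul_ne_zero (zpow_ne_zero _ hx) (zpow_ne_zero _ hs))]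

theorem T_cube_left {x y s : F} (hx : x ≠ 0) (hy : y ≠ 0) (hs : s ≠ 0) :
    T e v (x * s ^ 3) y = T e v x y := by
  have e1 : (x * s ^ 3) ^ (-od v y) * y ^ (od v (x * s ^ 3)) =
      (x ^ (-od v y) * y ^ (od v x)) * (s ^ (-od v y) * y ^ (od v s)) ^ 3 := by
    have e2 : (y ^ (od v s)) ^ 3 = y ^ (3 * od v s) := by
      rw [← zpow_natCast, ← zpow_mul]
      congr 1
      push_cast
      ring
    have e3 : (s ^ 3) ^ (-od v y) = (s ^ (-od v y)) ^ 3 := by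
      rw [← zpow_natCast, ← zpow_natCast, ← zpow_mul, ← zpow_mul, mul_comm]
    have e4 : od v (x * s ^ 3) = od v x + 3 * od v s := by
      rw [od_mul v hx (pow_ne_zero 3 hs), od_pow]
      push_cast
      ring
    rw [e4, zpow_add₀ hy, mul_zpow, mul_pow, e2, e3]
    ring
  rw [T, T, e1, cs_mul_cube e v _ (mul_ne_zero (zpow_ne_zero _ hs) (zpow_ne_zero _ hy))]

theorem T_antisymm {x y : F} (hx : x ≠ 0) (hy : y ≠ 0) (h : (3 : 𝓞 F) ∉ v.asIdeal) :
    T e v x y * T e v y x = 1 := by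
  rw [T, T, ← cs_mul e v (T_cd e v hx hy (Or.inl h)) (T_cd e v hy hx (Or.inl h))]
  have e1 : x ^ (-od v y) * y ^ (od v x) * (y ^ (-od v x) * x ^ (od v y)) = 1 := by
    rw [zpow_neg, zpow_neg]
    have h1 := zpow_ne_zero (od v y) hx
    have h2 := zpow_ne_zero (od v x) hy
    field_simp
  rw [e1, cs_one]

theorem T_neg_self {x : F} (hx : x ≠ 0) (h : (3 : 𝓞 F) ∉ v.asIdeal ∨ AdG e x) :
    T e v x (-x) = 1 := by
  have e1 : x ^ (-od v (-x)) * (-x) ^ (od v x) = ((-1 : F) ^ (od v x)) ^ 3 := by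
    have e2 : (-x) ^ (od v x) = (-1 : F) ^ (od v x) * x ^ (od v x) := by
      rw [← mul_zpow, neg_one_mul]
    have e3 : ((-1 : F) ^ (od v x)) ^ 3 = (-1 : F) ^ (od v x) := by
      rw [← zpow_natCast, ← zpow_mul, mul_comm, zpow_mul]
      norm_num
    rw [od_neg, e2, e3, zpow_neg]
    have h1 := zpow_ne_zero (od v x) hx
    field_simp
  rw [T, e1, cs_cube e v (zpow_ne_zero _ (neg_ne_zero.2 one_ne_zero))]

theorem T_units {x y : F} (hx : v.valuation F x = 1) (hy : v.valuation F y = 1) :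
    T e v x y = 1 := by
  rw [T, p4a_od_of_val_one v hx, p4a_od_of_val_one v hy, neg_zero, zpow_zero, zpow_zero, mul_one,
    cs_one]

/-- the symbol for `x` with a defined symbol -/
theorem T_of_cd {x y : F} (hx : Cd e v x) (hy : y ≠ 0) (n : ℕ) (hn : od v y = -(n : ℤ)) :
    T e v x y = cs e v x ^ n := by
  obtain ⟨k, hk⟩ := hx.t3 e v
  have e1 : x ^ (-od v y) * y ^ (od v x) = x ^ n * (y ^ k) ^ 3 := by
    rw [hk, hn, neg_neg, zpow_natCast, ← zpow_natCast (y ^ k) 3, ← zpow_mul]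
    congr 2
    push_cast
    ring
  rw [T, e1, cs_mul_cube e v _ (zpow_ne_zero _ hy), cs_pow e v hx]

/-- the symbol for `y ≡ 1` -/
theorem T_of_one {x y : F} (hx : x ≠ 0) (h3 : (3 : 𝓞 F) ∉ v.asIdeal)
    (hy : v.valuation F (y - 1) < 1) : T e v x y = 1 := by
  have hy1 : v.valuation F y = 1 := by
    have e1 : y = 1 + (y - 1) := by ring
    rw [e1, Valuation.map_add_eq_of_lt_left _ (by rw [map_one]; exact hy), map_one]
  have hy0 : y ≠ 0 := by
    rintro rfl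
    rw [map_zero] at hy1
    exact zero_ne_one hy1
  have hod := p4a_od_of_val_one v hy1
  have hcd : Cd e v y := ⟨hy0, Or.inl ⟨h3, by rw [t3, hod]; exact dvd_zero _⟩⟩
  have hcs := cs_of_lt e v h3 hy
  rw [T, hod, neg_zero, zpow_zero, one_mul]
  rcases Int.eq_nat_or_neg (od v x) with ⟨n, h | h⟩
  · rw [h, zpow_natCast, cs_pow e v hcd, hcs, one_pow]
  · rw [h, zpow_neg, zpow_natCast]
    have h4 := cs_inv e v (hcd.pow e v n)
    rw [cs_pow e v hcd, hcs, one_pow, mul_one] at h4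
    exact h4

end

end TH
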