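import Pool.Agent.MP_9ab903_nt.TH.C1a
import Pool.Agent.MP_9ab903_nt.TH.P4a
import Pool.Agent.MP_9ab903_nt.NAB.B1

/-!
# [NG3-C15] ray classes with representatives prime to `6`; `Unr3` from unramifiedness at `λ`

* `ray_classes6`: as `ray_classes` (NAB/B1, `hm2 : IsCoprime m 2`, representatives prime to `2`), with `6` in place of `2` (`exists_inv` there is general).
* `unr3_of`: `UL (eF F hw)` (TH/P4a): `λ ∉ v²` for the primes `v` above `3`. Then `discr F = 3^(r+1) k`, `3 ∤ k`. Mathlib: the different: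
  `differentIdeal ℤ (𝓞 F) = differentIdeal (𝓞 KK) (𝓞 F) * (differentIdeal ℤ (𝓞 KK)).map` (`differentIdeal_eq_differentIdeal_mul_differentIdeal`),
  `absNorm (differentIdeal ℤ (𝓞 F)) = |discr F|` (`NumberField.absNorm_differentIdeal`), `differentIdeal ℤ (𝓞 KK)` has norm `|discr KK| = 3`, so it is the prime `(λ)` and its
  image in `𝓞 F` has norm `3^(r+1)`; a prime `P` above `λ` does not divide `differentIdeal (𝓞 KK) (𝓞 F)` (`not_dvd_differentIdeal_iff` /
  `Algebra.IsUnramifiedAt` from `e = 1` and separable residue extension, finite fields), so `3 ∤ absNorm (differentIdeal (𝓞 KK) (𝓞 F))`.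
  (`NAB/LL.lean` `odd_discr_unr` is the analogous statement for `2`.)
-/

set_option autoImplicit false

open NumberField IsDedekindDomain MeasureTheory Set
open CM27 CMT CF NAB NG
open scoped ComplexConjugate Classical Matrix

namespace TH

open RayAux in
theorem ray_classes6 (F : Type) [Field F] [NumberField F] (m : 𝓞 F) (hm0 : m ≠ 0)
    (hm1 : ¬ IsUnit m) (hm6 : IsCoprime m 6) : ∃ C : Finset (Ideal (𝓞 F)),
    (∀ c ∈ C, c ≠ 0 ∧ IsCoprime c (Ideal.span {m}) ∧ IsCoprime c (Ideal.span {(6 : 𝓞 F)})) ∧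
    ∀ u : 𝓞 F, IsCoprime u m → ∀ I : Ideal (𝓞 F), I ≠ 0 → IsCoprime I (Ideal.span {m}) →
      ∃! c : Ideal (𝓞 F), c ∈ C ∧ ∃ g : 𝓞 F, g ≠ 0 ∧ m ∣ g - u ∧ I * c = Ideal.span {g} := by
  have : Finite (𝓞 F ⧸ Ideal.span {m}) := by
    apply Ideal.finiteQuotientOfFreeOfNeBot
    rw [Ne, Ideal.span_singleton_eq_bot]
    exact hm0
  let X := {I : Ideal (𝓞 F) // I ≠ 0 ∧ IsCoprime I (Ideal.span {m})}
  obtain ⟨f, hf⟩ : ∃ f : X → ClassGroup (𝓞 F) × (𝓞 F ⧸ Ideal.span {m}),
      ∀ I J : X, f I = f J → Rel m I.1 J.1 := finite_classes m hm0 hm1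
  let r : Setoid X := ⟨fun I J => Rel m I.1 J.1, ⟨fun I => Rel.refl m I.1, Rel.symm, Rel.trans⟩⟩
  have : Finite (Quotient r) := by
    refine Finite.of_injective (fun q : Quotient r => f q.out) ?_
    intro p q hpq
    have h1 := hf _ _ hpq
    rw [← Quotient.out_eq p, ← Quotient.out_eq q]
    exact Quotient.sound h1
  have hodd : ∀ q : Quotient r, ∃ J : X, (Quotient.mk r J) = q ∧
      IsCoprime J.1 (Ideal.span {(6 : 𝓞 F)}) := by
    intro q
    obtain ⟨J, h1, h2, h3, h4⟩ := exists_odd hm0 hm1 (by norm_num) hm6 q.out.2.1 q.out.2.2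
    refine ⟨⟨J, h2, h3⟩, ?_, h4⟩
    rw [← Quotient.out_eq q]
    exact Quotient.sound (Rel.symm h1)
  choose c hc1 hc2 using hodd
  have := Fintype.ofFinite (Quotient r)
  refine ⟨Finset.univ.image (fun q => (c q).1), ?_, ?_⟩
  · intro I hI
    rw [Finset.mem_image] at hI
    obtain ⟨q, -, rfl⟩ := hI
    exact ⟨(c q).2.1, (c q).2.2, hc2 q⟩
  · intro u hu I hI0 hI
    have hu0 : u ≠ 0 := ne_zero_of_cop hm1 hu
    obtain ⟨u', hu', -⟩ := exists_inv hu (isCoprime_one_right (x := m))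
    have hspan : ∀ x : 𝓞 F, x ≠ 0 → Ideal.span {x} ≠ (0 : Ideal (𝓞 F)) := by
      intro x hx
      rw [Ne, Ideal.zero_eq_bot, Ideal.span_singleton_eq_bot]
      exact hx
    -- existence
    obtain ⟨a, L, h1, h2, h3, h4, h5, -⟩ := exists_L (n := (1 : 𝓞 F)) hm0 hm1 one_ne_zero
      isCoprime_one_right hI0 hI
    let J : X := ⟨Ideal.span {u} * L, mul_ne_zero (hspan u hu0) h4,
      IsCoprime.mul_left ((Ideal.isCoprime_span_singleton_iff _ _).2 hu) h5⟩
    have hJ : Rel m (c (Quotient.mk r J)).1 J.1 := Quotient.exact (hc1 (Quotient.mk r J))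
    obtain ⟨g, g', k1, k2, k3, k4, k5⟩ := hJ
    have h6 : Ideal.span {g} * (I * (c (Quotient.mk r J)).1) = Ideal.span {g' * u * a} := by
      rw [← Ideal.span_singleton_mul_span_singleton, ← Ideal.span_singleton_mul_span_singleton, h2,
        mul_left_comm, k5]
      simp only [J]
      ring
    have h7 : g ∣ g' * u * a := by
      rw [← Ideal.span_singleton_le_span_singleton, ← h6]
      exact Ideal.mul_le_left
    obtain ⟨h, hh⟩ := h7
    have h8 : I * (c (Quotient.mk r J)).1 = Ideal.span {h} := by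
      rw [hh, ← Ideal.span_singleton_mul_span_singleton] at h6
      exact mul_left_cancel₀ (hspan g k1) h6
    have h9 : h ≠ 0 := by
      rintro rfl
      rw [mul_zero] at hh
      exact mul_ne_zero (mul_ne_zero k2 hu0) h3 hh
    have h10 : m ∣ h - u := by
      obtain ⟨x1, hx1⟩ := k3
      obtain ⟨x2, hx2⟩ := k4
      obtain ⟨x3, hx3⟩ := h1
      -- g h = g' u a ; g = 1 + m x1 ; g' = 1 + m x2; a = 1 + m x3
      refine ⟨-x1 * h + x2 * u * a + u * x3, ?_⟩
      linear_combination (-h) * hx1 + (u * a) * hx2 + u * hx3 - hh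
    refine ⟨(c (Quotient.mk r J)).1, ⟨Finset.mem_image_of_mem _ (Finset.mem_univ _), h, h9, h10,
      h8⟩, ?_⟩
    rintro c' ⟨hc', g2, l1, l2, l3⟩
    rw [Finset.mem_image] at hc'
    obtain ⟨q, -, rfl⟩ := hc'
    have h11 : Ideal.span {h} * (c q).1 = Ideal.span {g2} * (c (Quotient.mk r J)).1 := by
      apply mul_left_cancel₀ hI0
      rw [mul_left_comm, l3, mul_left_comm, h8]
      ring
    have h12 : m ∣ u' * h - 1 := by
      obtain ⟨x, hx⟩ := h10
      obtain ⟨y, hy⟩ := hu'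
      exact ⟨u' * x + y, by linear_combination u' * hx + hy⟩
    have h13 : m ∣ u' * g2 - 1 := by
      obtain ⟨x, hx⟩ := l2
      obtain ⟨y, hy⟩ := hu'
      exact ⟨u' * x + y, by linear_combination u' * hx + hy⟩
    have h14 : Rel m (c q).1 (c (Quotient.mk r J)).1 := by
      refine ⟨u' * h, u' * g2, ne_zero_of_cop hm1 (cop_of_dvd h12),
        ne_zero_of_cop hm1 (cop_of_dvd h13), h12, h13, ?_⟩
      rw [← Ideal.span_singleton_mul_span_singleton, ← Ideal.span_singleton_mul_span_singleton,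
        mul_assoc, h11, mul_assoc]
    have h15 : q = Quotient.mk r J := by
      rw [← hc1 q, ← hc1 (Quotient.mk r J)]
      exact Quotient.sound h14
    rw [h15]


theorem c15_discr_KK : (discr KK).natAbs = 3 := by
  have : Fact (Nat.Prime 3) := ⟨Nat.prime_three⟩
  rw [IsCyclotomicExtension.Rat.discr_prime 3 KK]
  norm_num

theorem c15_under (φ : Eis ≃+* 𝓞 KK) (v : Ideal (𝓞 KK)) (hv : v.IsPrime)
    (h3 : (3 : 𝓞 KK) ∈ v) : φ la ∈ v := by
  have h1 : (3 : 𝓞 KK) = φ (-om ^ 2) * φ la ^ 2 := by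
    rw [← map_pow, ← map_mul, ← three_eq, map_ofNat]
  rw [h1] at h3
  have hu : IsUnit (φ (-om ^ 2)) := by
    have h2 : IsUnit (-om ^ 2) := by
      refine IsUnit.of_mul_eq_one (-om) ?_
      decide
    exact h2.map φ
  rcases hv.mem_or_mem h3 with h | h
  · exact absurd (Ideal.eq_top_of_isUnit_mem _ h hu) hv.ne_top
  · exact hv.mem_of_pow_mem 2 h

theorem unr3_of {r : ℕ} (F : IntermediateField ℚ ℂ) [NumberField F] (hw : w ∈ F)
    (hrank : Module.finrank ℚ F = 2 * (r + 1))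
    (hul : UL (eF F hw)) : Unr3 F r := by
  letI := algK F hw
  haveI := d2_finite F hw
  haveI := d2_tower F hw
  have h2 := d2_finrank_KK
  have h3 : Module.finrank KK F = r + 1 := by
    have h := d2_finrank F hw
    rw [hrank] at h
    omega
  have h4 := NumberField.natAbs_discr_eq_absNorm_differentIdeal_mul_natAbs_discr_pow KK (𝓞 KK) F
    (𝓞 F)
  rw [h3, c15_discr_KK] at h4
  have h5 : ¬ 3 ∣ Ideal.absNorm (differentIdeal (𝓞 KK) (𝓞 F)) := by
    intro h
    obtain ⟨P, hP, h6, h7⟩ := Ideal.exists_isMaximal_dvd_of_dvd_absNorm' Nat.prime_three _ h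
    refine not_dvd_differentIdeal_iff.2 ?_ h7
    have h8 : (3 : 𝓞 F) ∈ P := by
      have h9 : (3 : ℤ) ∈ P.under ℤ := by
        rw [h6]
        exact Ideal.mem_span_singleton_self _
      rw [Ideal.under_def, Ideal.mem_comap, map_ofNat] at h9
      exact h9
    have hP0 : P ≠ ⊥ := by
      rintro rfl
      rw [Ideal.mem_bot] at h8
      exact (by norm_num : (3 : 𝓞 F) ≠ 0) h8
    have hv3 : (3 : 𝓞 KK) ∈ P.under (𝓞 KK) := by
      change algebraMap (𝓞 KK) (𝓞 F) 3 ∈ P
      rwa [map_ofNat]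
    have hv0 : P.under (𝓞 KK) ≠ ⊥ := by
      intro h
      rw [h, Ideal.mem_bot] at hv3
      exact (by norm_num : (3 : 𝓞 KK) ≠ 0) hv3
    refine Ideal.ramificationIdx_eq_one_iff.1 ?_
    rw [← Ideal.ramificationIdx'_eq_ramificationIdx (P.under (𝓞 KK)) P hv0]
    by_contra hne
    rw [← ne_eq, Ideal.ramificationIdx'_ne_one_iff Ideal.map_comap_le] at hne
    obtain ⟨φ, hφ⟩ := exists_KK
    have h10 := c15_under φ (P.under (𝓞 KK)) inferInstance hv3
    have h11 : algebraMap (𝓞 KK) (𝓞 F) (φ la) = eF F hw la := by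
      apply RingOfIntegers.ext
      apply Subtype.ext
      rw [eF_apply, ← hφ]
      rfl
    refine hul ⟨P, hP.isPrime, hP0⟩ h8 ?_
    rw [← h11]
    exact hne (Ideal.mem_map_of_mem _ h10)
  rcases Int.natAbs_eq (discr F) with h | h
  · refine ⟨(Ideal.absNorm (differentIdeal (𝓞 KK) (𝓞 F)) : ℤ), ?_, ?_⟩
    · rw [h, h4]
      push_cast
      ring
    · exact_mod_cast h5
  · refine ⟨-(Ideal.absNorm (differentIdeal (𝓞 KK) (𝓞 F)) : ℤ), ?_, ?_⟩
    · rw [h, h4]
      push_cast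
      ring
    · rw [dvd_neg]
      exact_mod_cast h5

end TH
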