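import Pool.Agent.MP_9ab903_nt.TH.B0a

set_option autoImplicit false

open NumberField IsDedekindDomain
open CM27 CMT NAB CF TWR
open scoped Classical

namespace TH

/-! ## [TH-B0] the Hecke character on ideals (file TH/B0.lean)

As the second half of `NAB/EU5.lean` (`three_induction`, `psi_primary`, `psi_relNorm`, `psi_absNorm`, ..), with `π` in place of `3`. `Ps_span`: by `Ps_relNorm`
`φ (Ps (g)) ~ N_{F/K} g` (`Ideal.relNorm_singleton` or as in EU5), `a` with `emb a = N g`, `Ps = ε a`. -/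

section
variable {F : Type} [Field F] [NumberField F] (e : Eis →+* 𝓞 F)

theorem Ps_mul (I J : Ideal (𝓞 F)) : Ps e (I * J) = Ps e I * Ps e J := by
  rw [Ps, Ps, Ps, cm_mul]

theorem Ps_one : Ps e 1 = 1 := by
  rw [Ps, cm_one]

theorem Ps_bot : Ps e 0 = 0 := by
  rw [Ps, cm_zero]

theorem Ps_prime (v : HeightOneSpectrum (𝓞 F)) : Ps e v.asIdeal = psv e v := by
  rw [Ps, cm_prime]

theorem b0_coprime_iff (v : HeightOneSpectrum (𝓞 F)) (x : 𝓞 F) :
    IsCoprime v.asIdeal (Ideal.span {x}) ↔ x ∉ v.asIdeal := by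
  rw [Ideal.isCoprime_iff_sup_eq]
  constructor
  · intro h hx
    have h4 : Ideal.span {x} ≤ v.asIdeal := by
      rwa [Ideal.span_singleton_le_iff_mem]
    rw [sup_eq_left.2 h4] at h
    exact v.isPrime.ne_top h
  · intro hx
    have hmax : v.asIdeal.IsMaximal := v.isMaximal
    by_contra hne
    have h1 := hmax.eq_of_le hne le_sup_left
    apply hx
    rw [h1]
    exact Ideal.mem_sup_right (Ideal.mem_span_singleton_self x)

/-- ideals prime to an element -/
theorem b0_induction (x : 𝓞 F) {P : Ideal (𝓞 F) → Prop} (h1 : P 1)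
    (h2 : ∀ (v : HeightOneSpectrum (𝓞 F)) (I : Ideal (𝓞 F)), I ≠ 0 → x ∉ v.asIdeal →
      IsCoprime I (Ideal.span {x}) → P I → P (v.asIdeal * I))
    (I : Ideal (𝓞 F)) (hI : I ≠ 0) (hc : IsCoprime I (Ideal.span {x})) : P I := by
  refine ideal_induction (P := fun I => IsCoprime I (Ideal.span {x}) → P I) ?_ ?_ I hI hc
  · intro _
    exact h1
  · intro v I hI ih hc
    have hc1 : IsCoprime v.asIdeal (Ideal.span {x}) := hc.of_mul_left_left
    have hc2 : IsCoprime I (Ideal.span {x}) := hc.of_mul_left_right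
    exact h2 v I hI ((b0_coprime_iff v x).1 hc1) hc2 (ih hc2)

theorem Ps_eq_zero (I : Ideal (𝓞 F)) (h : ¬ IsCoprime I (Ideal.span {e p7})) : Ps e I = 0 := by
  by_cases hI : I = 0
  · rw [hI, Ps_bot]
  refine ideal_induction (P := fun I => ¬ IsCoprime I (Ideal.span {e p7}) → Ps e I = 0)
    ?_ ?_ I hI h
  · intro h1
    exact absurd isCoprime_one_left h1
  · intro v I _ ih h1
    rw [Ps_mul, Ps_prime]
    by_cases h2 : e p7 ∈ v.asIdeal
    · rw [psv_p7 e v h2, zero_mul]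
    · rw [ih, mul_zero]
      intro h3
      exact h1 (((b0_coprime_iff v _).2 h2).mul_left h3)

theorem Ps_one_mod (I : Ideal (𝓞 F)) (hI : I ≠ 0) (hc : IsCoprime I (Ideal.span {e p7})) :
    p7 ∣ Ps e I - 1 := by
  refine b0_induction (e p7) (P := fun I => p7 ∣ Ps e I - 1) ?_ ?_ I hI hc
  · rw [Ps_one, sub_self]
    exact dvd_zero _
  · intro v I _ h3 _ ih
    rw [Ps_mul, Ps_prime]
    have h4 : psv e v * Ps e I - 1 = (psv e v - 1) * Ps e I + (Ps e I - 1) := by ring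
    rw [h4]
    exact dvd_add (Dvd.dvd.mul_right (psv_one_mod e v h3) _) ih

theorem Ps_norm (I : Ideal (𝓞 F)) (hI : I ≠ 0) (hc : IsCoprime I (Ideal.span {e p7})) :
    (Ps e I).norm.natAbs = Ideal.absNorm I := by
  refine b0_induction (e p7) (P := fun I => (Ps e I).norm.natAbs = Ideal.absNorm I) ?_ ?_ I hI hc
  · rw [Ps_one, map_one, map_one]
    rfl
  · intro v I _ h3 _ ih
    rw [Ps_mul, Ps_prime, map_mul, map_mul, Int.natAbs_mul, ih, psv_norm e v h3, nv,
      Ideal.absNorm_apply v.asIdeal, Submodule.cardQuot_apply]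

theorem Ps_norm_le (I : Ideal (𝓞 F)) (hI : I ≠ 0) :
    ‖emb (Ps e I)‖ ^ 2 ≤ Ideal.absNorm I := by
  by_cases hc : IsCoprime I (Ideal.span {e p7})
  · rw [norm_emb_sq, ← Ps_norm e I hI hc, Nat.cast_natAbs, abs_of_nonneg (norm_nonneg' _)]
  · rw [Ps_eq_zero e I hc, map_zero, norm_zero, zero_pow two_ne_zero]
    exact Nat.cast_nonneg _

end

section
variable (F : IntermediateField ℚ ℂ) [NumberField F] (hw : w ∈ F)

theorem b0_psv_relNorm (φ : Eis ≃+* 𝓞 KK) (hφ : ∀ a, (((φ a : 𝓞 KK) : KK) : ℂ) = emb a)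
    (v : HeightOneSpectrum (𝓞 F)) (h7 : eF F hw p7 ∉ v.asIdeal) :
    letI := algK F hw
    Ideal.relNorm (𝓞 KK) v.asIdeal = Ideal.span {φ (psv (eF F hw) v)} := by
  letI := algK F hw
  haveI := d2_tower F hw
  haveI := d2_finite F hw
  obtain ⟨b, f, -, hb, hv, -, hn, hx⟩ := psv_spec (eF F hw) v h7
  have halg : ∀ a : Eis, algebraMap (𝓞 KK) (𝓞 F) (φ a) = eF F hw a := by
    intro a
    ext
    exact hφ a
  have hunder : v.asIdeal.under (𝓞 KK) = Ideal.span {φ b} := by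
    ext x
    rw [Ideal.mem_span_singleton, Ideal.under_def, Ideal.mem_comap]
    have h0 := halg (φ.symm x)
    rw [φ.apply_symm_apply] at h0
    rw [h0, comap_prime (eF F hw) v hb hv]
    constructor
    · rintro ⟨c, hc⟩
      exact ⟨φ c, by rw [← map_mul, ← hc, φ.apply_symm_apply]⟩
    · rintro ⟨c, hc⟩
      exact ⟨φ.symm c, by rw [hc, map_mul, φ.symm_apply_apply]⟩
  haveI := v.isMaximal
  have hmax : (v.asIdeal.under (𝓞 KK)).IsMaximal :=
    Ideal.IsMaximal.under (𝓞 KK) v.asIdeal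
  have hlies : v.asIdeal.LiesOver (v.asIdeal.under (𝓞 KK)) := ⟨rfl⟩
  have h1 := Ideal.relNorm_eq_pow_of_isMaximal v.asIdeal (v.asIdeal.under (𝓞 KK))
  have h4 := Ideal.absNorm_relNorm (R := 𝓞 KK) (S := 𝓞 F) v.asIdeal
  rw [h1, hunder, map_pow, card_KK F hw φ] at h4
  have h5 : Ideal.absNorm v.asIdeal = nv v := by
    rw [nv, Ideal.absNorm_apply, Submodule.cardQuot_apply]
  rw [h5, hn] at h4
  have h6 := Nat.pow_right_injective (b0a_one_lt hb) h4
  rw [h1, hunder, hx, h6, Ideal.span_singleton_pow, map_pow]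

theorem Ps_relNorm (φ : Eis ≃+* 𝓞 KK) (hφ : ∀ a, (((φ a : 𝓞 KK) : KK) : ℂ) = emb a)
    (I : Ideal (𝓞 F)) (hI : I ≠ 0) (hc : IsCoprime I (Ideal.span {eF F hw p7})) :
    letI := algK F hw
    Ideal.relNorm (𝓞 KK) I = Ideal.span {φ (Ps (eF F hw) I)} := by
  letI := algK F hw
  haveI := d2_tower F hw
  haveI := d2_finite F hw
  refine b0_induction (eF F hw p7)
    (P := fun I => Ideal.relNorm (𝓞 KK) I = Ideal.span {φ (Ps (eF F hw) I)}) ?_ ?_ I hI hc
  · rw [Ps_one, map_one, map_one, Ideal.span_singleton_one, Ideal.one_eq_top]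
  · intro v I _ h3 _ ih
    rw [map_mul, ih, b0_psv_relNorm F hw φ hφ v h3, Ideal.span_singleton_mul_span_singleton,
      Ps_mul, Ps_prime, map_mul]

theorem b0_assoc (φ : Eis ≃+* 𝓞 KK) (hφ : ∀ a, (((φ a : 𝓞 KK) : KK) : ℂ) = emb a)
    (g : 𝓞 F) (hg : g ≠ 0)
    (hc : IsCoprime (Ideal.span {g}) (Ideal.span {eF F hw p7})) :
    letI := algK F hw
    haveI := d2_tower F hw
    haveI := d2_finite F hw
    Associated (φ.symm (Algebra.intNorm (𝓞 KK) (𝓞 F) g)) (Ps (eF F hw) (Ideal.span {g})) := by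
  letI := algK F hw
  haveI := d2_tower F hw
  haveI := d2_finite F hw
  have hI : Ideal.span {g} ≠ 0 := by
    rw [Ne, Ideal.zero_eq_bot, Ideal.span_singleton_eq_bot]
    exact hg
  have h1 := Ps_relNorm F hw φ hφ (Ideal.span {g}) hI hc
  rw [Ideal.relNorm_singleton, Ideal.span_singleton_eq_span_singleton] at h1
  have h4 := h1.map (φ.symm : 𝓞 KK →* Eis)
  simpa using h4

theorem b0_emb_norm (φ : Eis ≃+* 𝓞 KK) (hφ : ∀ a, (((φ a : 𝓞 KK) : KK) : ℂ) = emb a)
    (g : 𝓞 F) :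
    letI := algK F hw
    haveI := d2_tower F hw
    haveI := d2_finite F hw
    emb (φ.symm (Algebra.intNorm (𝓞 KK) (𝓞 F) g)) = ((Algebra.norm KK (g : F) : KK) : ℂ) := by
  letI := algK F hw
  haveI := d2_tower F hw
  haveI := d2_finite F hw
  rw [← hφ, φ.apply_symm_apply]
  have h3 := Algebra.algebraMap_intNorm (A := 𝓞 KK) (K := KK) (L := F) (B := 𝓞 F) g
  exact congrArg (fun t : KK => (t : ℂ)) h3

/-- principal ideals: the generator of the norm which is `≡ 1 mod π` -/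
theorem Ps_span (g : 𝓞 F) (hg : g ≠ 0)
    (hc : IsCoprime (Ideal.span {g}) (Ideal.span {eF F hw p7})) :
    letI := algK F hw
    ∃ a ε : Eis, emb a = ((Algebra.norm KK (g : F) : KK) : ℂ) ∧ ε ^ 6 = 1 ∧ p7 ∣ ε * a - 1 ∧
      Ps (eF F hw) (Ideal.span {g}) = ε * a := by
  letI := algK F hw
  haveI := d2_tower F hw
  haveI := d2_finite F hw
  obtain ⟨φ, hφ⟩ := exists_KK
  have hI : Ideal.span {g} ≠ 0 := by
    rw [Ne, Ideal.zero_eq_bot, Ideal.span_singleton_eq_bot]
    exact hg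
  obtain ⟨u, hu⟩ := b0_assoc F hw φ hφ g hg hc
  refine ⟨φ.symm (Algebra.intNorm (𝓞 KK) (𝓞 F) g), u, b0_emb_norm F hw φ hφ g,
    (unit_iff _).1 u.isUnit, ?_, ?_⟩
  · rw [mul_comm, hu]
    exact Ps_one_mod _ _ hI hc
  · rw [mul_comm, hu]

theorem b0_norm_mod {A B : Type*} [CommRing A] [CommRing B] [Algebra A B] [Module.Free A B]
    [Module.Finite A B] (π : A) (h : B) :
    π ∣ Algebra.norm A (1 + algebraMap A B π * h) - 1 := by
  rw [← Ideal.mem_span_singleton, ← Ideal.Quotient.eq, map_one]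
  let b := Module.Free.chooseBasis A B
  rw [Algebra.norm_eq_matrix_det b, RingHom.map_det]
  have h1 : (Ideal.Quotient.mk (Ideal.span {π})).mapMatrix
      (Algebra.leftMulMatrix b (1 + algebraMap A B π * h)) = 1 := by
    rw [map_add, map_one, map_mul, AlgHom.commutes, map_add, map_one, map_mul]
    have h2 : (Ideal.Quotient.mk (Ideal.span {π})).mapMatrix
        (algebraMap A (Matrix (Module.Free.ChooseBasisIndex A B)
          (Module.Free.ChooseBasisIndex A B) A) π) = 0 := by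
      ext i j
      rw [RingHom.mapMatrix_apply, Matrix.map_apply, Matrix.algebraMap_matrix_apply,
        Matrix.zero_apply]
      split_ifs
      · exact Ideal.Quotient.eq_zero_iff_mem.2 (Ideal.mem_span_singleton_self π)
      · exact map_zero _
    rw [h2, zero_mul, add_zero]
  rw [h1, Matrix.det_one]

/-- `g ≡ 1 mod π`: the norm itself -/
theorem Ps_span_one (g : 𝓞 F) (hg : g ≠ 0) (h7 : eF F hw p7 ∣ g - 1) :
    letI := algK F hw
    emb (Ps (eF F hw) (Ideal.span {g})) = ((Algebra.norm KK (g : F) : KK) : ℂ) := by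
  letI := algK F hw
  haveI := d2_tower F hw
  haveI := d2_finite F hw
  haveI := eis_isDomain
  haveI := eis_pid
  obtain ⟨φ, hφ⟩ := exists_KK
  obtain ⟨h, hh⟩ := h7
  have hc : IsCoprime (Ideal.span {g}) (Ideal.span {eF F hw p7}) := by
    rw [Ideal.isCoprime_span_singleton_iff]
    exact ⟨1, -h, by linear_combination hh⟩
  obtain ⟨u, hu⟩ := b0_assoc F hw φ hφ g hg hc
  have hI : Ideal.span {g} ≠ 0 := by
    rw [Ne, Ideal.zero_eq_bot, Ideal.span_singleton_eq_bot]
    exact hg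
  have halg : algebraMap (𝓞 KK) (𝓞 F) (φ p7) = eF F hw p7 := by
    ext
    exact hφ p7
  haveI : IsPrincipalIdealRing (𝓞 KK) := IsPrincipalIdealRing.of_surjective φ φ.surjective
  haveI : Module.Finite (𝓞 KK) (𝓞 F) := inferInstance
  haveI : Module.Free (𝓞 KK) (𝓞 F) := Module.free_of_finite_type_torsion_free'
  have h1 : φ p7 ∣ Algebra.intNorm (𝓞 KK) (𝓞 F) g - 1 := by
    rw [Algebra.intNorm_eq_norm]
    have h2 : g = 1 + algebraMap (𝓞 KK) (𝓞 F) (φ p7) * h := by
      rw [halg]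
      linear_combination hh
    rw [h2]
    exact b0_norm_mod _ _
  have h3 : p7 ∣ φ.symm (Algebra.intNorm (𝓞 KK) (𝓞 F) g) - 1 := by
    have h4 := map_dvd φ.symm h1
    rw [φ.symm_apply_apply, map_sub, map_one] at h4
    exact h4
  rw [← assoc7 ⟨u, hu⟩ h3 (Ps_one_mod _ _ hI hc)]
  exact b0_emb_norm F hw φ hφ g

end

end TH
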