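import Pool.Agent.MP_9ab903_nt.TH.Defs
import Pool.Agent.MP_ae0bd0_nt.CM.B5

/-! ## [TH-B1e] the number of points of `Ep` in characteristic `2` (file TH/B1e.lean)

`k ∋ o`, `o² + o + 1 = 0`, characteristic `2`, `|k| = 4^f`. The equation is `y² + o² y = (x + o)³ + 1` (`2 + o = o`, `(x + o)³ + 1 = x³ + o x² + o² x`, `1 + o = o²`). All points are
nonsingular (`a₃ = o² ≠ 0`). `f = 1`: `k = {0, 1, o, o²}`: `X = x + o`; `X = 0`: `y² + o² y = 1` has no solution in `k`; `X ≠ 0`: `X³ = 1`, `y ∈ {0, o²}`: `6` affine points, `7` points.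
`3 ∣ f`, `f` odd: `o²` is a cube `t³` in `k` (`(4^f - 1)/3` is divisible by `3`), `y = o² Y`: `o (Y² + Y) = X³ + 1`, i.e. `Y² + Y = (t X)³ + o²`. `#{Y : Y² + Y = c}` is `1 + (-1)^{Tr c}` (2 or 0);
`Tr_{k/𝔽₂}(o²) = f = 1`, so the number of solutions of `Y² + Y = X³ + o²` and of `Y² + Y = X³` add up to `2 |k|`; `Y² + Y = X³` has `|k| + 2 · 2^f` affine points for odd `f`
(`CM27.local_data` for `p = 2`, or `CF.pts_inert`/`card_E_prime`, `b = -2`; `E k : y² + y = x³`), so the affine number of points is `|k| - 2 · 2^f`. (Avoid the trace: `c` is of the form `Y² + Y` iff `∑_{i<2f} c^(2^i) = 0`,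
additive; for `c = o²` the sum is `f (o² + o) = 1`.) -/

set_option autoImplicit false

open CM27
open scoped Classical ComplexConjugate

namespace TH

section
variable {k : Type} [Field k]

theorem b1e_cube {o : k} (ho : o ^ 2 + o + 1 = 0) : o ^ 3 = 1 := by
  linear_combination (o - 1) * ho

theorem b1e_ne {o : k} (ho : o ^ 2 + o + 1 = 0) : o ≠ 0 := by
  rintro rfl; simp at ho

theorem b1e_nonsing (h2 : (2 : k) = 0) {o : k} (ho : o ^ 2 + o + 1 = 0) (x y : k) :
    (Ep o).toAffine.Nonsingular x y ↔ y ^ 2 + o ^ 2 * y = (x + o) ^ 3 + 1 := by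
  have hΔ : (Ep o).toAffine.Δ ≠ 0 := by
    have h1 : (Ep o).Δ = o ^ 8 := by
      simp only [Ep, WeierstrassCurve.Δ, WeierstrassCurve.b₂, WeierstrassCurve.b₄,
        WeierstrassCurve.b₆, WeierstrassCurve.b₈]
      linear_combination (-8 * (2 + o) ^ 2 * ((2 + o) * o ^ 4 - (1 + o) ^ 2) - 32 * (1 + o) ^ 3 -
        14 * o ^ 8 + 36 * (2 + o) * (1 + o) * o ^ 4) * h2
    rw [h1]
    exact pow_ne_zero _ (b1e_ne ho)
  rw [← WeierstrassCurve.Affine.equation_iff_nonsingular_of_Δ_ne_zero hΔ,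
    WeierstrassCurve.Affine.equation_iff]
  simp only [Ep]
  constructor
  · intro h
    linear_combination h - ((o - 1) * x ^ 2 - 2 * (o + 1) * x + 1) * h2 - (3 * x + (o - 1)) * ho
  · intro h
    linear_combination h + ((o - 1) * x ^ 2 - 2 * (o + 1) * x + 1) * h2 + (3 * x + (o - 1)) * ho

/-- `Ep` in terms of the affine curve `y² + o² y = X³ + 1` -/
theorem b1e_card_Ep [Finite k] (h2 : (2 : k) = 0) {o : k} (ho : o ^ 2 + o + 1 = 0) :
    Nat.card (Ep o).toAffine.Point =
      Nat.card {p : k × k // p.2 ^ 2 + o ^ 2 * p.2 = p.1 ^ 3 + 1} + 1 := by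
  have e : {xy : k × k // (Ep o).toAffine.Nonsingular xy.1 xy.2} ≃
      {p : k × k // p.2 ^ 2 + o ^ 2 * p.2 = p.1 ^ 3 + 1} :=
    { toFun := fun p => ⟨(p.1.1 + o, p.1.2), (b1e_nonsing h2 ho _ _).1 p.2⟩
      invFun := fun p => ⟨(p.1.1 - o, p.1.2), (b1e_nonsing h2 ho _ _).2
        (by simp only [sub_add_cancel]; exact p.2)⟩
      left_inv := fun p => by
        apply Subtype.ext; apply Prod.ext <;> simp
      right_inv := fun p => by
        apply Subtype.ext; apply Prod.ext <;> simp }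
  have h1 : Nat.card (Ep o).toAffine.Point =
      Nat.card (Option {p : k × k // p.2 ^ 2 + o ^ 2 * p.2 = p.1 ^ 3 + 1}) :=
    Nat.card_congr ((WeierstrassCurve.Affine.nonsingularPointEquiv (Ep o).toAffine).trans
      (Equiv.optionCongr e))
  rw [h1, Finite.card_option]

/-- the affine curve `Y² + Y = X³ + o²` -/
theorem b1e_twist [Finite k] {o t : k} (ho : o ^ 2 + o + 1 = 0) (ht : t ^ 3 = o ^ 2) :
    Nat.card {p : k × k // p.2 ^ 2 + o ^ 2 * p.2 = p.1 ^ 3 + 1} =
      Nat.card {p : k × k // p.2 ^ 2 + p.2 = p.1 ^ 3 + o ^ 2} := by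
  have h3 := b1e_cube ho
  have h0 := b1e_ne ho
  have ht0 : t ≠ 0 := by
    rintro rfl
    rw [zero_pow (by norm_num)] at ht
    exact pow_ne_zero 2 h0 ht.symm
  refine Nat.card_congr
    { toFun := fun p => ⟨(t * p.1.1, o * p.1.2), ?_⟩
      invFun := fun p => ⟨(t⁻¹ * p.1.1, o ^ 2 * p.1.2), ?_⟩
      left_inv := fun p => ?_
      right_inv := fun p => ?_ }
  · have hp := p.2
    simp only
    rw [mul_pow, mul_pow, ht]
    linear_combination (o ^ 2) * hp - (p.1.2 * o) * h3
  · have hp := p.2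
    simp only
    rw [mul_pow t⁻¹, inv_pow, ht]
    have h4 : (o ^ 2)⁻¹ = o := inv_eq_of_mul_eq_one_right (by rw [← h3]; ring)
    rw [h4]
    linear_combination o * hp + (o * p.1.2 ^ 2 + o * p.1.2 + 1) * h3
  · apply Subtype.ext
    apply Prod.ext
    · simp [ht0]
    · simp only
      rw [← mul_assoc]
      have : o ^ 2 * o = 1 := by rw [← h3]; ring
      rw [this, one_mul]
  · apply Subtype.ext
    apply Prod.ext
    · simp [ht0]
    · simp only
      rw [← mul_assoc]
      have : o * o ^ 2 = 1 := by rw [← h3]; ring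
      rw [this, one_mul]

/-- no solution of `Y² + Y = o²` -/
theorem b1e_no_sol [Finite k] (h2 : (2 : k) = 0) {o : k} (ho : o ^ 2 + o + 1 = 0) {f : ℕ}
    (hodd : Odd f) (hk : Nat.card k = 4 ^ f) (Y : k) : Y ^ 2 + Y ≠ o ^ 2 := by
  intro hY
  have := Fintype.ofFinite k
  have h4 : Y ^ 4 = Y + 1 := by
    linear_combination (Y ^ 2 + o ^ 2 - Y + 1) * hY + (o * (o - 1) + 1) * ho -
      (1 + o ^ 2 * Y + Y) * h2
  have h16 : Y ^ 16 = Y := by
    have h5 : Y ^ 16 = (Y ^ 4) ^ 4 := by ring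
    rw [h5, h4]
    linear_combination h4 + (2 * Y ^ 3 + 3 * Y ^ 2 + 2 * Y + 1) * h2
  have hm : ∀ m : ℕ, Y ^ (16 ^ m) = Y := by
    intro m
    induction m with
    | zero => simp
    | succ m ih => rw [pow_succ, pow_mul, ih, h16]
  obtain ⟨m, rfl⟩ := hodd
  have h6 : Y ^ (4 ^ (2 * m + 1)) = Y + 1 := by
    rw [pow_succ, pow_mul 4, pow_mul Y]
    norm_num
    rw [hm, h4]
  have h7 : Y ^ (4 ^ (2 * m + 1)) = Y := by
    rw [← hk, Nat.card_eq_fintype_card, FiniteField.pow_card]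
  rw [h7] at h6
  exact one_ne_zero (α := k) (by linear_combination - h6)

/-- `Y ↦ Y² + Y` -/
theorem b1e_as_two [Fintype k] (h2 : (2 : k) = 0) (Z : k) :
    (Finset.univ.filter (fun Y : k => Y ^ 2 + Y = Z ^ 2 + Z)).card = 2 := by
  have h1 : Finset.univ.filter (fun Y : k => Y ^ 2 + Y = Z ^ 2 + Z) = {Z, Z + 1} := by
    ext Y
    simp only [Finset.mem_filter, Finset.mem_univ, true_and, Finset.mem_insert,
      Finset.mem_singleton]
    constructor
    · intro h
      have h3 : (Y - Z) * (Y - (Z + 1)) = 0 := by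
        linear_combination h - (Y * Z + Y - Z ^ 2 - Z) * h2
      rcases mul_eq_zero.1 h3 with h4 | h4
      · exact Or.inl (sub_eq_zero.1 h4)
      · exact Or.inr (sub_eq_zero.1 h4)
    · rintro (rfl | rfl)
      · rfl
      · linear_combination (Z + 1) * h2
  rw [h1, Finset.card_pair]
  intro h
  exact one_ne_zero (α := k) (by linear_combination - h)

theorem b1e_as [Fintype k] (h2 : (2 : k) = 0) {a : k} (ha : ∀ Y : k, Y ^ 2 + Y ≠ a) (c : k) :
    (Finset.univ.filter (fun Y : k => Y ^ 2 + Y = c)).card +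
      (Finset.univ.filter (fun Y : k => Y ^ 2 + Y = c + a)).card = 2 := by
  set g : k → k := fun Y => Y ^ 2 + Y with hg
  set I : Finset k := Finset.univ.image g with hI
  have hcard : Fintype.card k = I.card * 2 := by
    rw [← Finset.card_univ, Finset.card_eq_sum_card_image g Finset.univ, ← hI,
      Finset.sum_const_nat (m := 2)]
    intro b hb
    obtain ⟨Z, -, rfl⟩ := Finset.mem_image.1 hb
    exact b1e_as_two h2 Z
  set J : Finset k := I.image (fun x => x + a) with hJ
  have hJc : J.card = I.card := Finset.card_image_of_injective _ (add_left_injective a)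
  have hdisj : Disjoint I J := by
    rw [Finset.disjoint_left]
    intro x hx hx'
    obtain ⟨Y, -, rfl⟩ := Finset.mem_image.1 hx
    obtain ⟨z, hz, hz'⟩ := Finset.mem_image.1 hx'
    obtain ⟨Z, -, rfl⟩ := Finset.mem_image.1 hz
    simp only [hg] at hz'
    exact ha (Y - Z) (by linear_combination -hz' + (Z * (Z - Y)) * h2)
  have huniv : I ∪ J = Finset.univ := by
    apply Finset.eq_univ_of_card
    rw [Finset.card_union_of_disjoint hdisj, hJc, hcard]
    ring
  have hzero : ∀ x : k, x ∉ I → (Finset.univ.filter (fun Y : k => Y ^ 2 + Y = x)).card = 0 := by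
    intro x hx
    rw [Finset.card_eq_zero, Finset.filter_eq_empty_iff]
    intro Y _ hY
    exact hx (Finset.mem_image.2 ⟨Y, Finset.mem_univ _, hY⟩)
  have htwo : ∀ x : k, x ∈ I → (Finset.univ.filter (fun Y : k => Y ^ 2 + Y = x)).card = 2 := by
    intro x hx
    obtain ⟨Z, -, rfl⟩ := Finset.mem_image.1 hx
    exact b1e_as_two h2 Z
  by_cases hc : c ∈ I
  · have hc' : c + a ∉ I := by
      intro h
      exact Finset.disjoint_left.1 hdisj h (Finset.mem_image.2 ⟨c, hc, rfl⟩)
    rw [htwo c hc, hzero _ hc']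
  · have hc' : c ∈ J := by
      have := Finset.mem_univ c
      rw [← huniv, Finset.mem_union] at this
      exact this.resolve_left hc
    obtain ⟨i, hi, rfl⟩ := Finset.mem_image.1 hc'
    have hc'' : i + a + a ∈ I := by
      have : i + a + a = i := by linear_combination a * h2
      rw [this]; exact hi
    rw [hzero _ hc, htwo _ hc'']

theorem b1e_sum [Fintype k] (h2 : (2 : k) = 0) {a : k} (ha : ∀ Y : k, Y ^ 2 + Y ≠ a) :
    Nat.card {p : k × k // p.2 ^ 2 + p.2 = p.1 ^ 3} +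
      Nat.card {p : k × k // p.2 ^ 2 + p.2 = p.1 ^ 3 + a} = 2 * Nat.card k := by
  have e : ∀ b : k, Nat.card {p : k × k // p.2 ^ 2 + p.2 = p.1 ^ 3 + b} =
      ∑ X : k, (Finset.univ.filter (fun Y : k => Y ^ 2 + Y = X ^ 3 + b)).card := by
    intro b
    have e1 : {p : k × k // p.2 ^ 2 + p.2 = p.1 ^ 3 + b} ≃
        (Σ X : k, {Y : k // Y ^ 2 + Y = X ^ 3 + b}) :=
      { toFun := fun p => ⟨p.1.1, p.1.2, p.2⟩
        invFun := fun p => ⟨(p.1, p.2.1), p.2.2⟩
        left_inv := fun p => rfl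
        right_inv := fun p => rfl }
    rw [Nat.card_congr e1, Nat.card_eq_fintype_card, Fintype.card_sigma]
    refine Finset.sum_congr rfl fun X _ => ?_
    rw [Fintype.card_subtype]
  have e0 := e 0
  simp only [add_zero] at e0
  rw [e0, e a, ← Finset.sum_add_distrib, Finset.sum_congr rfl (fun X _ => b1e_as h2 ha (X ^ 3)),
    Finset.sum_const, Finset.card_univ, Nat.card_eq_fintype_card, smul_eq_mul, mul_comm]

end

theorem b1e_cuberoot (k : Type) [Field k] [Finite k] {u : k} (hu : u ^ 3 = 1) {f : ℕ}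
    (h3 : 3 ∣ f) (hk : Nat.card k = 4 ^ f) : ∃ t : k, t ^ 3 = u := by
  have := Fintype.ofFinite k
  have hu0 : u ≠ 0 := by
    rintro rfl
    rw [zero_pow (by norm_num)] at hu
    exact zero_ne_one hu
  obtain ⟨g, hg⟩ := IsCyclic.exists_generator (α := kˣ)
  have h1 : orderOf g = Nat.card kˣ := orderOf_eq_card_of_forall_mem_zpowers hg
  have h2 : Nat.card kˣ = Nat.card k - 1 := by
    rw [Nat.card_eq_fintype_card, Nat.card_eq_fintype_card, Fintype.card_units]
  obtain ⟨m, hm⟩ : ∃ m : ℕ, g ^ m = Units.mk0 u hu0 := by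
    have hk' := mem_powers_iff_mem_zpowers.2 (hg (Units.mk0 u hu0))
    exact (Submonoid.mem_powers_iff _ _).1 hk'
  have h9 : 9 ∣ orderOf g := by
    rw [h1, h2, hk]
    obtain ⟨j, rfl⟩ := h3
    have h4 : (64 - 1 : ℕ) ∣ 64 ^ j - 1 := by simpa using Nat.sub_dvd_pow_sub_pow 64 1 j
    rw [pow_mul]
    exact (by norm_num : (9 : ℕ) ∣ 64 - 1).trans h4
  have h5 : orderOf g ∣ m * 3 := by
    apply orderOf_dvd_of_pow_eq_one
    rw [pow_mul, hm]
    apply Units.ext
    simpa using hu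
  have h6 : 3 ∣ m := by
    have := h9.trans h5
    omega
  obtain ⟨j, rfl⟩ := h6
  refine ⟨((g ^ j : kˣ) : k), ?_⟩
  rw [← Units.val_pow_eq_pow_val, ← pow_mul, mul_comm, hm]
  rfl

theorem b1e_card_E (k : Type) [Field k] [Finite k] {f : ℕ} (hodd : Odd f)
    (hk : Nat.card k = 4 ^ f) : (Nat.card (E k).toAffine.Point : ℤ) = 4 ^ f + 1 + 2 * 2 ^ f := by
  have := Fintype.ofFinite k
  have hk2 : Nat.card k = 2 ^ (2 * f) := by rw [hk, pow_mul]; norm_num
  have hq : Nat.card k % 3 = 1 := by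
    rw [hk, Nat.pow_mod]; simp
  obtain ⟨χ, hχ⟩ := exists_chi k hq
  obtain ⟨b, hb, hbn, hJ⟩ := jacobi_primary k hq χ hχ
  rw [hk2] at hbn
  obtain ⟨-, hbe⟩ := eq_neg_pow 2 Nat.prime_two (by norm_num) (2 * f) b hb
    (by rw [hbn]; push_cast; rfl)
  have key : (Nat.card (E k).toAffine.Point : ℂ) = 4 ^ f + 1 + 2 * 2 ^ f := by
    rw [card_jacobi k hq χ hχ, hJ, hk, hbe, Nat.mul_div_cancel_left f (by norm_num),
      hodd.neg_pow]
    simp only [map_pow, map_neg, map_natCast]
    push_cast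
    simp
    ring
  exact_mod_cast key

theorem b1e_card_E_affine (k : Type) [Field k] [Finite k] (h3 : (3 : k) ≠ 0) :
    Nat.card (E k).toAffine.Point = Nat.card {p : k × k // p.2 ^ 2 + p.2 = p.1 ^ 3} + 1 := by
  have e : {xy : k × k // (E k).toAffine.Nonsingular xy.1 xy.2} ≃
      {p : k × k // p.2 ^ 2 + p.2 = p.1 ^ 3} :=
    Equiv.subtypeEquivRight fun p => b1_nonsingular_iff k h3 _ _
  have h1 : Nat.card (E k).toAffine.Point =
      Nat.card (Option {p : k × k // p.2 ^ 2 + p.2 = p.1 ^ 3}) :=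
    Nat.card_congr ((WeierstrassCurve.Affine.nonsingularPointEquiv (E k).toAffine).trans
      (Equiv.optionCongr e))
  rw [h1, Finite.card_option]

theorem card_Ep_two_one (k : Type) [Field k] [Finite k] (h2 : (2 : k) = 0) (o : k)
    (ho : o ^ 2 + o + 1 = 0) (hk : Nat.card k = 4) : Nat.card (Ep o).toAffine.Point = 7 := by
  have := Fintype.ofFinite k
  have h0 := b1e_ne ho
  have hc : Fintype.card k = 4 := by rw [← Nat.card_eq_fintype_card, hk]
  have h4 : ∀ x : k, x ^ 4 = x := by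
    intro x
    have := FiniteField.pow_card x
    rwa [hc] at this
  rw [b1e_card_Ep h2 ho, Nat.card_eq_fintype_card, Fintype.card_subtype]
  have e : Finset.univ.filter (fun p : k × k => p.2 ^ 2 + o ^ 2 * p.2 = p.1 ^ 3 + 1) =
      (Finset.univ.erase (0 : k)) ×ˢ ({0, o ^ 2} : Finset k) := by
    ext ⟨x, y⟩
    simp only [Finset.mem_filter, Finset.mem_univ, true_and, Finset.mem_product,
      Finset.mem_erase, and_true, Finset.mem_insert, Finset.mem_singleton]
    have hx3 : x ≠ 0 → x ^ 3 = 1 := by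
      intro hx
      apply mul_left_cancel₀ hx
      rw [mul_one, ← pow_succ', h4]
    constructor
    · intro h
      have hx : x ≠ 0 := by
        rintro rfl
        rw [zero_pow (by norm_num), zero_add] at h
        have hy := h4 y
        apply h0
        have h9 : o ^ 2 = 0 := by
          have h3 := b1e_cube ho
          linear_combination -hy + (y ^ 2 + 1 - o ^ 2 * y + o ^ 4) * h + ho +
            (o - (o ^ 3 + 1) * y) * h3 - (y + o ^ 2 * y) * h2
        exact pow_eq_zero_iff (two_ne_zero) |>.1 h9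
      refine ⟨hx, ?_⟩
      have h5 : y * (y - o ^ 2) = 0 := by
        linear_combination h + hx3 hx + (1 - o ^ 2 * y) * h2
      rcases mul_eq_zero.1 h5 with h6 | h6
      · exact Or.inl h6
      · exact Or.inr (sub_eq_zero.1 h6)
    · rintro ⟨hx, rfl | rfl⟩
      · rw [hx3 hx]; linear_combination -h2
      · rw [hx3 hx]; linear_combination (o ^ 4 - 1) * h2
  rw [e, Finset.card_product, Finset.card_erase_of_mem (Finset.mem_univ _), Finset.card_univ, hc,
    Finset.card_pair (pow_ne_zero 2 h0).symm]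

theorem card_Ep_two (k : Type) [Field k] [Finite k] (h2 : (2 : k) = 0) (o : k)
    (ho : o ^ 2 + o + 1 = 0) (f : ℕ) (h3 : 3 ∣ f) (hodd : Odd f) (hk : Nat.card k = 4 ^ f) :
    (Nat.card (Ep o).toAffine.Point : ℤ) = 4 ^ f + 1 - 2 * 2 ^ f := by
  have := Fintype.ofFinite k
  have hc := b1e_cube ho
  obtain ⟨t, ht⟩ := b1e_cuberoot k (u := o ^ 2) (by rw [← pow_mul, mul_comm, pow_mul, hc, one_pow])
    h3 hk
  have h3' : (3 : k) ≠ 0 := by
    intro h
    exact one_ne_zero (α := k) (by linear_combination h - h2)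
  have e1 := b1e_card_Ep h2 ho
  rw [b1e_twist ho ht] at e1
  have e2 := b1e_sum h2 (b1e_no_sol h2 ho hodd hk)
  have e3 := b1e_card_E_affine k h3'
  have e4 := b1e_card_E k hodd hk
  rw [hk] at e2
  rw [e3] at e4
  rw [e1]
  have e5 : ((Nat.card {p : k × k // p.2 ^ 2 + p.2 = p.1 ^ 3} : ℕ) : ℤ) +
      (Nat.card {p : k × k // p.2 ^ 2 + p.2 = p.1 ^ 3 + o ^ 2} : ℕ) = 2 * 4 ^ f := by
    exact_mod_cast e2
  push_cast at e4 ⊢
  linarith

end TH
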