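import Pool.Agent.MP_9ab903_nt.TH.Defs

set_option autoImplicit false

open CM27
open scoped Classical ComplexConjugate

namespace TH

/-! ## [TH-B1f] the number of points of `Ep` in characteristic `3` (file TH/B1f.lean)

Here `o = 1`: `y² + y = x³ - x`, i.e. `Y² = x³ - x + 1`, `Y = y - 1`; nonsingular (`Δ = 1`, or `∂_x = -1 ≠ 0`). `|k| = 3`: `x³ - x = 0`: `7` points. `3 ∣ f`, `f` odd: `1 = s³ - s` is solvable in `k`
(the image of `s ↦ s³ - s` is the kernel of `x ↦ ∑_{i<f} x^(3^i)`, and `f · 1 = 0`; counting: the kernel of `s ↦ s³ - s` has three elements and the sum has degree `3^(f-1)`), so the curve is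
`Y² = X³ - X`, `X = x + s`. `-1` is not a square in `k` (`|k| = 3^f ≡ 3 mod 4`), so `∑_X ρ(X³ - X) = 0` (`X ↦ -X`), and there are `|k| + 1` points. -/

theorem b1f_three (k : Type) [Field k] [Finite k] (f : ℕ) (hk : Nat.card k = 3 ^ f) :
    (3 : k) = 0 := by
  have : Fintype k := Fintype.ofFinite k
  have h1 : ((3 ^ f : ℕ) : k) = 0 := by
    rw [← hk, Nat.card_eq_fintype_card]
    exact FiniteField.cast_card_eq_zero k
  rw [Nat.cast_pow] at h1
  have h2 := eq_zero_of_pow_eq_zero h1
  exact_mod_cast h2

theorem b1f_ns (k : Type) [Field k] (h3 : (3 : k) = 0) (x y : k) :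
    (Ep (1 : k)).toAffine.Nonsingular x y ↔ y ^ 2 + y = x ^ 3 - x := by
  have hΔ : (Ep (1 : k)).toAffine.Δ ≠ 0 := by
    have h1 : (Ep (1 : k)).Δ = 1 := by
      simp only [Ep, WeierstrassCurve.Δ, WeierstrassCurve.b₂, WeierstrassCurve.b₄,
        WeierstrassCurve.b₆, WeierstrassCurve.b₈]
      linear_combination (12 : k) * h3
    have h2 : (Ep (1 : k)).toAffine.Δ = 1 := h1
    rw [h2]
    exact one_ne_zero
  rw [← WeierstrassCurve.Affine.equation_iff_nonsingular_of_Δ_ne_zero hΔ,
    WeierstrassCurve.Affine.equation_iff]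
  simp only [Ep]
  constructor
  · intro h
    linear_combination h + (x ^ 2 + x) * h3
  · intro h
    linear_combination h - (x ^ 2 + x) * h3

theorem b1f_opt (k : Type) [Field k] [Finite k] :
    Nat.card (Ep (1 : k)).toAffine.Point =
      Nat.card {xy : k × k // (Ep (1 : k)).toAffine.Nonsingular xy.1 xy.2} + 1 := by
  rw [Nat.card_congr (WeierstrassCurve.Affine.nonsingularPointEquiv (Ep (1 : k)).toAffine)]
  exact Finite.card_option

/-- `1 = s³ - s` is solvable if `3` divides the degree -/
theorem b1f_root (k : Type) [Field k] [Finite k] (f : ℕ) (h3f : 3 ∣ f)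
    (hk : Nat.card k = 3 ^ f) : ∃ s : k, s ^ 3 - s = 1 := by
  have : Fintype k := Fintype.ofFinite k
  have h3 : (3 : k) = 0 := b1f_three k f hk
  have hck : CharP k 3 := (CharP.charP_iff_prime_eq_zero Nat.prime_three).2 (by exact_mod_cast h3)
  have hcK : CharP (AlgebraicClosure k) 3 :=
    charP_of_injective_algebraMap (algebraMap k (AlgebraicClosure k)).injective 3
  have hf3 : Fact (Nat.Prime 3) := ⟨Nat.prime_three⟩
  have hcE : ExpChar (AlgebraicClosure k) 3 := ExpChar.prime Nat.prime_three
  obtain ⟨r, hr⟩ : ∃ r : AlgebraicClosure k, r ^ 3 - r - 1 = 0 := by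
    have hd : (Polynomial.X ^ 3 - Polynomial.X - 1 : Polynomial (AlgebraicClosure k)).degree ≠ 0 := by
      have : (Polynomial.X ^ 3 - Polynomial.X - 1 : Polynomial (AlgebraicClosure k)).degree = 3 := by
        compute_degree!
      rw [this]
      decide
    obtain ⟨r, hr⟩ := IsAlgClosed.exists_root _ hd
    refine ⟨r, ?_⟩
    rw [Polynomial.IsRoot.def] at hr
    simpa using hr
  have hit : ∀ i : ℕ, r ^ 3 ^ i = r + (i : AlgebraicClosure k) := by
    intro i
    induction i with
    | zero => simp
    | succ i ih =>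
      rw [pow_succ, pow_mul, ih]
      have h1 : (r + (i : AlgebraicClosure k)) ^ 3 = frobenius (AlgebraicClosure k) 3
          (r + (i : AlgebraicClosure k)) := rfl
      rw [h1, map_add, map_natCast, frobenius_def]
      push_cast
      linear_combination hr
  have hcard : Fintype.card k = 3 ^ f := by rw [← hk, Nat.card_eq_fintype_card]
  have hrq : r ^ Fintype.card k = r := by
    rw [hcard, hit f]
    have : ((f : ℕ) : AlgebraicClosure k) = 0 := (CharP.cast_eq_zero_iff _ 3 f).2 h3f
    rw [this, add_zero]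
  have hq1 : 1 < Fintype.card k := Fintype.one_lt_card
  have hroots : ((Polynomial.X ^ Fintype.card k - Polynomial.X : Polynomial k).map
      (algebraMap k (AlgebraicClosure k))).roots =
      (Finset.univ.val : Multiset k).map (algebraMap k (AlgebraicClosure k)) := by
    have hs : (Polynomial.X ^ Fintype.card k - Polynomial.X : Polynomial k).Splits := by
      rw [Polynomial.splits_iff_card_roots, FiniteField.roots_X_pow_card_sub_X,
        FiniteField.X_pow_card_sub_X_natDegree_eq k hq1]
      rfl
    rw [hs.roots_map, FiniteField.roots_X_pow_card_sub_X]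
  have hmem : r ∈ ((Polynomial.X ^ Fintype.card k - Polynomial.X : Polynomial k).map
      (algebraMap k (AlgebraicClosure k))).roots := by
    rw [Polynomial.mem_roots']
    constructor
    · rw [Polynomial.map_ne_zero_iff (algebraMap k (AlgebraicClosure k)).injective]
      exact FiniteField.X_pow_card_sub_X_ne_zero k hq1
    · rw [Polynomial.IsRoot.def]
      simp [hrq]
  rw [hroots, Multiset.mem_map] at hmem
  obtain ⟨s, _, hs⟩ := hmem
  refine ⟨s, ?_⟩
  apply (algebraMap k (AlgebraicClosure k)).injective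
  rw [map_sub, map_pow, map_one, hs]
  linear_combination hr

theorem card_Ep_three_one (k : Type) [Field k] [Finite k] (hk : Nat.card k = 3) :
    Nat.card (Ep (1 : k)).toAffine.Point = 7 := by
  have : Fintype k := Fintype.ofFinite k
  have h3 : (3 : k) = 0 := b1f_three k 1 (by rw [hk]; norm_num)
  have hcard : Fintype.card k = 3 := by rw [← hk, Nat.card_eq_fintype_card]
  rw [b1f_opt]
  have hx : ∀ x : k, x ^ 3 = x := by
    intro x
    have := FiniteField.pow_card x
    rwa [hcard] at this
  have hset : ∀ xy : k × k, (Ep (1 : k)).toAffine.Nonsingular xy.1 xy.2 ↔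
      xy ∈ (Finset.univ : Finset k) ×ˢ ({0, -1} : Finset k) := by
    intro xy
    rw [b1f_ns k h3, hx, sub_self, Finset.mem_product, Finset.mem_insert, Finset.mem_singleton]
    constructor
    · intro h
      refine ⟨Finset.mem_univ _, ?_⟩
      have h1 : xy.2 * (xy.2 + 1) = 0 := by linear_combination h
      rcases mul_eq_zero.1 h1 with h2 | h2
      · exact Or.inl h2
      · exact Or.inr (eq_neg_of_add_eq_zero_left h2)
    · rintro ⟨_, h | h⟩
      · rw [h]; ring
      · rw [h]; ring
  have h01 : (0 : k) ≠ -1 := by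
    intro h
    have : (1 : k) = 0 := by linear_combination h
    exact one_ne_zero this
  have h4 : Nat.card {xy : k × k // (Ep (1 : k)).toAffine.Nonsingular xy.1 xy.2} =
      ((Finset.univ : Finset k) ×ˢ ({0, -1} : Finset k)).card := by
    rw [Nat.card_congr (Equiv.subtypeEquivRight hset), Nat.card_eq_fintype_card,
      Fintype.card_coe]
  rw [h4, Finset.card_product, Finset.card_univ, hcard, Finset.card_pair h01]

theorem card_Ep_three (k : Type) [Field k] [Finite k] (f : ℕ) (h3 : 3 ∣ f) (hodd : Odd f)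
    (hk : Nat.card k = 3 ^ f) :
    (Nat.card (Ep (1 : k)).toAffine.Point : ℤ) = 3 ^ f + 1 := by
  have : Fintype k := Fintype.ofFinite k
  have h3k : (3 : k) = 0 := b1f_three k f hk
  obtain ⟨s, hs⟩ := b1f_root k f h3 hk
  have hcard : Fintype.card k = 3 ^ f := by rw [← hk, Nat.card_eq_fintype_card]
  have hchar : ringChar k ≠ 2 := by
    intro h
    have h1 := ringChar.Nat.cast_ringChar (R := k)
    rw [h] at h1
    have h2 : (2 : k) = 0 := by exact_mod_cast h1
    have : (1 : k) = 0 := by linear_combination h3k - h2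
    exact one_ne_zero this
  have key : ∀ X y : k, (y - 1) ^ 2 - (X ^ 3 - X) = y ^ 2 + y - ((X - s) ^ 3 - (X - s)) := by
    intro X y
    linear_combination -hs + (-y - s * X ^ 2 + s ^ 2 * X) * h3k
  have e1 : {xy : k × k // (Ep (1 : k)).toAffine.Nonsingular xy.1 xy.2} ≃
      (Σ x : k, {Y : k | Y ^ 2 = x ^ 3 - x}) :=
    { toFun := fun p => ⟨p.1.1 + s, ⟨p.1.2 - 1, by
        have h1 := (b1f_ns k h3k _ _).1 p.2
        have h4 := key (p.1.1 + s) p.1.2
        rw [add_sub_cancel_right, h1, sub_self] at h4
        exact sub_eq_zero.1 h4⟩⟩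
      invFun := fun q => ⟨(q.1 - s, q.2.1 + 1), by
        rw [b1f_ns k h3k]
        have h1 : q.2.1 ^ 2 = _ := q.2.2
        have h4 := key q.1 (q.2.1 + 1)
        rw [add_sub_cancel_right, h1, sub_self] at h4
        exact sub_eq_zero.1 h4.symm⟩
      left_inv := fun p => by
        apply Subtype.ext
        apply Prod.ext
        · simp
        · simp
      right_inv := fun q => by
        rcases q with ⟨x, Y, hY⟩
        exact Sigma.subtype_ext (by simp) (by simp) }
  rw [b1f_opt, Nat.card_congr e1, Nat.card_sigma]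
  push_cast
  have h5 : ∀ x : k, ((Nat.card {Y : k | Y ^ 2 = x ^ 3 - x} : ℕ) : ℤ) =
      quadraticChar k (x ^ 3 - x) + 1 := by
    intro x
    rw [← quadraticChar_card_sqrts hchar, Nat.card_eq_card_toFinset]
  have hneg : quadraticChar k (-1) = -1 := by
    rw [quadraticChar_neg_one_iff_not_isSquare, FiniteField.isSquare_neg_one_iff, hcard, not_not]
    obtain ⟨j, hj⟩ := hodd
    rw [hj, pow_add, pow_mul, Nat.mul_mod, Nat.pow_mod]
    norm_num
  have hsum : ∑ x : k, quadraticChar k (x ^ 3 - x) = 0 := by
    have h6 : ∑ x : k, quadraticChar k (x ^ 3 - x) =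
        ∑ x : k, quadraticChar k ((-x) ^ 3 - (-x)) :=
      (Equiv.sum_comp (Equiv.neg k) fun x => quadraticChar k (x ^ 3 - x)).symm
    have h7 : ∀ x : k, quadraticChar k ((-x) ^ 3 - (-x)) = -quadraticChar k (x ^ 3 - x) := by
      intro x
      have : (-x) ^ 3 - (-x) = -1 * (x ^ 3 - x) := by ring
      rw [this, map_mul, hneg]
      ring
    rw [Finset.sum_congr rfl fun x _ => h7 x, Finset.sum_neg_distrib] at h6
    linarith
  rw [Finset.sum_congr rfl fun x _ => h5 x, Finset.sum_add_distrib, hsum]
  simp only [Finset.sum_const, Finset.card_univ, nsmul_eq_mul, mul_one, hcard]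
  push_cast
  ring

end TH
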