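import Pool.Agent.MP_9ab903_nt.TH.B1d
import Pool.Agent.MP_9ab903_nt.TH.B1e
import Pool.Agent.MP_9ab903_nt.TH.B1f

set_option autoImplicit false

open NumberField IsDedekindDomain
open CM27 CMT NAB CF TWR
open scoped Classical ComplexConjugate

namespace TH

/-! ## [TH-B1] the number of points of `Ep` over the residue fields (file TH/B1.lean)

`b ∤ 6`: `card_Ep_gen`. `b ∣ 2`: `b = 2 ω` (associated to `2` and `≡ 1 mod π`), `r om = o` with `2 = 0`, norm `4`, `emb b ^ f = 2^f ω^f`: `f = 1`: `-2` (trace), `3 ∣ f`: `2 · 2^f`.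
`b ∣ 3`: `b = ω² λ = - 2 - ω`, norm `3`, `r om = 1`; `b³ = - 3 ω λ · ..`: trace of `b` is `-3`, `b³ = λ³` and the trace of `b^(3 m)`, `m` odd, is `0` (`λ³ = -3 ω λ = -3 (ω - ω²)` is purely
imaginary). `f = 3^i` is odd and `1` or divisible by `3`. -/

private theorem b1_dvd7 (x : Eis) (h : p7 ∣ x) : (7 : ℤ) ∣ x.re - 3 * x.im := by
  obtain ⟨c, rfl⟩ := h
  refine ⟨-c.im, ?_⟩
  simp only [p7, QuadraticAlgebra.re_mul, QuadraticAlgebra.im_mul]
  ring

private theorem b1_not_unit (b : Eis) (hb : Prime b) : b.norm ≠ 1 := by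
  intro h
  apply hb.not_isUnit
  refine IsUnit.of_mul_eq_one (star b) ?_
  rw [← QuadraticAlgebra.algebraMap_norm_eq_mul_star, h, map_one]

private theorem b1_cases (b : Eis) (hb : Prime b) (h7 : p7 ∣ b - 1) (hn : b.norm ≤ 4) :
    b = ⟨0, 2⟩ ∨ b = ⟨-2, -1⟩ := by
  have h1 := b1_dvd7 _ h7
  have h2 := b1_not_unit b hb
  rw [norm_eq] at hn h2
  simp only [QuadraticAlgebra.re_sub, QuadraticAlgebra.im_sub, QuadraticAlgebra.re_one,
    QuadraticAlgebra.im_one] at h1
  obtain ⟨x, y⟩ := b
  simp only at hn h1 h2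
  have hx1 : x ≤ 2 := by nlinarith [sq_nonneg (x - 2 * y)]
  have hx2 : -2 ≤ x := by nlinarith [sq_nonneg (x - 2 * y)]
  have hy1 : y ≤ 2 := by nlinarith [sq_nonneg (y - 2 * x)]
  have hy2 : -2 ≤ y := by nlinarith [sq_nonneg (y - 2 * x)]
  interval_cases x <;> interval_cases y <;> first | (exfalso; omega) | simp

private theorem b1_w3 : w ^ 3 = 1 := by
  linear_combination (w - 1) * w_sq

private theorem b1_wc : conj w = -1 - w := by
  apply Complex.ext
  · simp only [Complex.conj_re, Complex.sub_re, Complex.neg_re, Complex.one_re, w_re]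
    norm_num
  · simp only [Complex.conj_im, Complex.sub_im, Complex.neg_im, Complex.one_im, w_im]
    ring

private theorem b1_norm (b c : Eis) (n : ℤ) (h : (algebraMap ℤ Eis n) = b * c) : b.norm ∣ n ^ 2 := by
  have h1 := congrArg QuadraticAlgebra.norm h
  rw [map_mul] at h1
  have h2 : (algebraMap ℤ Eis n).norm = n ^ 2 := by
    rw [norm_eq]
    simp
  rw [h2] at h1
  exact ⟨_, h1⟩

/-- **the number of points** -/
theorem card_Ep (b : Eis) (hb : Prime b) (h7 : p7 ∣ b - 1) (k : Type) [Field k] [Finite k]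
    (r : Eis →+* k) (hr : r b = 0) (f i : ℕ) (hf : f = 3 ^ i)
    (hk : Nat.card k = b.norm.natAbs ^ f) :
    (Nat.card (Ep (r om)).toAffine.Point : ℂ) = (b.norm.natAbs : ℂ) ^ f + 1 -
      (emb b ^ f + conj (emb b) ^ f) := by
  have hf0 : 0 < f := by rw [hf]; positivity
  have hodd : Odd f := by rw [hf]; exact Odd.pow (by decide)
  have ho : (r om) ^ 2 + r om + 1 = 0 := by
    rw [← map_pow, ← map_add, ← map_one r, ← map_add, om_quad, map_zero]
  have hf3 : f = 1 ∨ ∃ m, Odd m ∧ f = 3 * m := by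
    rcases i with _ | i
    · exact Or.inl (by rw [hf]; norm_num)
    · exact Or.inr ⟨3 ^ i, Odd.pow (by decide), by rw [hf]; ring⟩
  by_cases h2 : b ∣ 2
  · have hn4 : b.norm ∣ 4 := by
      obtain ⟨c, hc⟩ := h2
      have := b1_norm b c 2 (by rw [← hc]; simp)
      simpa using this
    have hb2 : b = ⟨0, 2⟩ := by
      rcases b1_cases b hb h7 (Int.le_of_dvd (by norm_num) hn4) with h | h
      · exact h
      · exfalso
        rw [h, norm_eq] at hn4
        norm_num at hn4
    have hnb : b.norm.natAbs = 4 := by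
      rw [hb2, norm_eq]
      norm_num
    rw [hnb] at hk ⊢
    have h20 : (2 : k) = 0 := by
      have h3 : (2 : Eis) = b * om ^ 2 := by
        rw [hb2]; decide
      have h4 : r 2 = 0 := by rw [h3, map_mul, hr, zero_mul]
      rwa [map_ofNat] at h4
    have he : emb b = 2 * w := by
      rw [hb2, emb_apply]
      push_cast
      ring
    rw [he, map_mul, b1_wc]
    rcases hf3 with h1 | ⟨m, hm, h1⟩
    · rw [h1, pow_one] at hk
      rw [card_Ep_two_one k h20 (r om) ho hk, h1]
      have h5 : conj (2 : ℂ) = 2 := map_ofNat (starRingEnd ℂ) 2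
      rw [h5]
      push_cast
      ring
    · have h4 := card_Ep_two k h20 (r om) ho f ⟨m, h1⟩ hodd hk
      have h6 : (Nat.card (Ep (r om)).toAffine.Point : ℂ) = 4 ^ f + 1 - 2 * 2 ^ f := by
        exact_mod_cast congrArg (Int.cast : ℤ → ℂ) h4
      have h5 : conj (2 : ℂ) = 2 := map_ofNat (starRingEnd ℂ) 2
      have h7 : w ^ f = 1 := by rw [h1, pow_mul, b1_w3, one_pow]
      have h8 : (-1 - w) ^ f = 1 := by
        rw [← b1_wc, ← map_pow, h7, map_one]
      rw [h6, h5, mul_pow, mul_pow, h7, h8]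
      push_cast
      ring
  by_cases h3 : b ∣ 3
  · have hla : b ∣ la := by
      rw [three_eq] at h3
      rcases hb.dvd_or_dvd h3 with h | h
      · exfalso
        rw [dvd_neg] at h
        have h4 := hb.dvd_of_dvd_pow h
        exact hb.not_isUnit (isUnit_of_dvd_one (om_cube ▸ dvd_pow h4 (by norm_num)))
      · exact hb.dvd_of_dvd_pow h
    have hn3 : b.norm ∣ 3 := by
      obtain ⟨c, hc⟩ := hla
      have h4 := congrArg QuadraticAlgebra.norm hc
      rw [map_mul] at h4
      have h5 : la.norm = 3 := by rw [norm_eq]; decide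
      rw [h5] at h4
      exact ⟨_, h4⟩
    have hb2 : b = ⟨-2, -1⟩ := by
      rcases b1_cases b hb h7 ((Int.le_of_dvd (by norm_num) hn3).trans (by norm_num)) with h | h
      · exfalso
        rw [h, norm_eq] at hn3
        norm_num at hn3
      · exact h
    have hnb : b.norm.natAbs = 3 := by
      rw [hb2, norm_eq]
      norm_num
    rw [hnb] at hk ⊢
    have h30 : (3 : k) = 0 := by
      obtain ⟨c, hc⟩ := h3
      have h4 : r 3 = 0 := by rw [hc, map_mul, hr, zero_mul]
      rwa [map_ofNat] at h4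
    have hom : r om = 1 := by
      have h4 : b = -2 - om := by rw [hb2]; decide
      rw [h4, map_sub, map_neg, map_ofNat] at hr
      linear_combination -hr - h30
    rw [hom]
    have he : emb b = -2 - w := by
      rw [hb2, emb_apply]
      push_cast
      ring
    have hc : conj (emb b) = -1 + w := by
      rw [he, map_sub, map_neg, b1_wc, map_ofNat]
      ring
    rw [hc, he]
    rcases hf3 with h1 | ⟨m, hm, h1⟩
    · rw [h1, pow_one] at hk
      rw [card_Ep_three_one k hk, h1]
      push_cast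
      ring
    · have h4 := card_Ep_three k f ⟨m, h1⟩ hodd hk
      have h6 : (Nat.card (Ep (1 : k)).toAffine.Point : ℂ) = 3 ^ f + 1 := by
        exact_mod_cast congrArg (Int.cast : ℤ → ℂ) h4
      have h7 : (-2 - w) ^ 3 = -((-1 + w) ^ 3) := by
        linear_combination (-9 : ℂ) * w_sq
      have h8 : (-2 - w) ^ f = -((-1 + w) ^ f) := by
        rw [h1, pow_mul, pow_mul, h7, hm.neg_pow]
      rw [h6, h8]
      push_cast
      ring
  exact card_Ep_gen b hb h2 h3 h7 k r hr f hf0 hk

end TH
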