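import Pool.Agent.MP_9ab903_nt.TH.BDefs
import Pool.Agent.MP_9ab903_nt.NAB.EU5

set_option autoImplicit false

open NumberField IsDedekindDomain
open CM27 CMT NAB CF TWR
open scoped Classical

namespace TH

/-! ## [TH-B0a] the Hecke character at the primes (file TH/B0a.lean)

As `NAB/EU5.lean`, with `≡ 1 mod π` (`π = p7 = 3 + ω`, norm `7`) in place of primary. The six units of `ℤ[ω]` are `± ω^j`, they map bijectively to `(ℤ[ω]/π)ˣ = 𝔽₇ˣ`
(`ω ↦ 4`). `e⁻¹(v)` is a nonzero prime ideal of the principal ideal domain `ℤ[ω]` (`eis_pid`), generated by `b`; the residue field of `v` is a finite extension of the field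
`ℤ[ω]/b` with `|N b|` elements (`p4_card`), so `nv v = |N b| ^ f` (`Module.card_eq_pow_finrank`). -/

/-! ### elementary facts on `ℤ[ω]` -/

theorem b0a_dvd_iff (x : Eis) : p7 ∣ x ↔ (7 : ℤ) ∣ x.re + 4 * x.im := by
  constructor
  · rintro ⟨y, rfl⟩
    rw [QuadraticAlgebra.re_mul, QuadraticAlgebra.im_mul]
    simp only [p7]
    exact ⟨y.re + y.im, by ring⟩
  · rintro ⟨k, hk⟩
    refine ⟨⟨2 * k - x.im, x.im - k⟩, ?_⟩
    ext
    · rw [QuadraticAlgebra.re_mul]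
      simp only [p7]
      linarith
    · rw [QuadraticAlgebra.im_mul]
      simp only [p7]
      ring

theorem b0a_p7_norm : p7.norm = 7 := by decide

theorem b0a_unit_cases {u : Eis} (hu : IsUnit u) :
    u = 1 ∨ u = -1 ∨ u = om ∨ u = -om ∨ u = om ^ 2 ∨ u = -om ^ 2 := by
  rw [eis_isUnit_iff, norm_eq] at hu
  have h1 : u.im ^ 2 ≤ 1 := by nlinarith [sq_nonneg (2 * u.re - u.im)]
  have h2 : u.re ^ 2 ≤ 1 := by nlinarith [sq_nonneg (2 * u.im - u.re)]
  have h3 : -1 ≤ u.im ∧ u.im ≤ 1 := abs_le.1 (by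
    rw [← sq_le_one_iff_abs_le_one]; exact h1)
  have h4 : -1 ≤ u.re ∧ u.re ≤ 1 := abs_le.1 (by
    rw [← sq_le_one_iff_abs_le_one]; exact h2)
  obtain ⟨x, y⟩ := u
  simp only at hu h3 h4
  obtain ⟨h5, h6⟩ := h3
  obtain ⟨h7, h8⟩ := h4
  interval_cases x <;> interval_cases y <;> first | (exfalso; norm_num at hu; done) | decide

section
variable {F : Type} [Field F] [NumberField F] (e : Eis →+* 𝓞 F) (v : HeightOneSpectrum (𝓞 F))

theorem p7_prime : Prime p7 :=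
  a3_prime_of_norm 7 (by norm_num) p7 (by rw [b0a_p7_norm]; rfl)

theorem unit_iff (u : Eis) : IsUnit u ↔ u ^ 6 = 1 := by
  constructor
  · intro h
    rcases b0a_unit_cases h with h | h | h | h | h | h <;> subst h <;> decide
  · intro h
    exact IsUnit.of_pow_eq_one h (by norm_num)

theorem unit7 {u : Eis} (hu : IsUnit u) (h : p7 ∣ u - 1) : u = 1 := by
  rw [b0a_dvd_iff] at h
  rcases b0a_unit_cases hu with h1 | h1 | h1 | h1 | h1 | h1
  · exact h1
  all_goals (exfalso; subst h1; revert h; decide)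

theorem exists_unit7 {a : Eis} (h : ¬ p7 ∣ a) : ∃ ε : Eis, ε ^ 6 = 1 ∧ p7 ∣ ε * a - 1 := by
  rw [b0a_dvd_iff] at h
  have h1 : (a.re + 4 * a.im) % 7 = 1 ∨ (a.re + 4 * a.im) % 7 = 2 ∨ (a.re + 4 * a.im) % 7 = 3 ∨
    (a.re + 4 * a.im) % 7 = 4 ∨ (a.re + 4 * a.im) % 7 = 5 ∨ (a.re + 4 * a.im) % 7 = 6 := by omega
  have key : ∀ ε : Eis, ε ^ 6 = 1 →
      (7 : ℤ) ∣ (ε.re * a.re - ε.im * a.im) + 4 * (ε.re * a.im + ε.im * a.re - ε.im * a.im) - 1 →
      ∃ ε : Eis, ε ^ 6 = 1 ∧ p7 ∣ ε * a - 1 := by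
    intro ε h2 h3
    refine ⟨ε, h2, ?_⟩
    rw [b0a_dvd_iff, QuadraticAlgebra.re_sub, QuadraticAlgebra.im_sub, QuadraticAlgebra.re_mul,
      QuadraticAlgebra.im_mul, QuadraticAlgebra.re_one, QuadraticAlgebra.im_one]
    obtain ⟨k, hk⟩ := h3
    exact ⟨k, by linarith⟩
  rcases h1 with h1 | h1 | h1 | h1 | h1 | h1
  · exact key 1 (by decide) (by
      have e1 : (1 : Eis).re = 1 := rfl
      have e2 : (1 : Eis).im = 0 := rfl
      rw [e1, e2]; omega)
  · exact key ⟨0, 1⟩ (by decide) (by simp only; omega)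
  · exact key ⟨1, 1⟩ (by decide) (by simp only; omega)
  · exact key ⟨-1, -1⟩ (by decide) (by simp only; omega)
  · exact key ⟨0, -1⟩ (by decide) (by simp only; omega)
  · exact key ⟨-1, 0⟩ (by decide) (by simp only; omega)

theorem assoc7 {a b : Eis} (h : Associated a b) (ha : p7 ∣ a - 1) (hb : p7 ∣ b - 1) : a = b := by
  obtain ⟨u, hu⟩ := h
  have h1 : p7 ∣ (u : Eis) - 1 := by
    have h2 : (u : Eis) - 1 = (b - 1) - (a - 1) * u := by rw [← hu]; ring
    rw [h2]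
    exact dvd_sub hb (Dvd.dvd.mul_right ha _)
  have h3 := unit7 u.isUnit h1
  rw [← hu, h3, mul_one]

theorem comap_prime {b : Eis} (hb : Prime b) (hv : e b ∈ v.asIdeal) (a : Eis) :
    e a ∈ v.asIdeal ↔ b ∣ a := by
  haveI := eis_isDomain
  haveI := eis_pid
  constructor
  · intro h
    by_contra hd
    obtain ⟨x, y, hxy⟩ := hb.irreducible.coprime_iff_not_dvd.2 hd
    apply v.isPrime.ne_top
    rw [Ideal.eq_top_iff_one, ← map_one e, ← hxy, map_add, map_mul, map_mul]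
    exact Ideal.add_mem _ (Ideal.mul_mem_left _ _ hv) (Ideal.mul_mem_left _ _ h)
  · rintro ⟨c, rfl⟩
    rw [map_mul]
    exact Ideal.mul_mem_right _ _ hv

theorem exists_below : ∃ b : Eis, Prime b ∧ e b ∈ v.asIdeal := by
  haveI := eis_isDomain
  haveI := eis_pid
  haveI := v.isPrime
  have h1 : (v.asIdeal.comap e).IsPrime := Ideal.IsPrime.comap e
  obtain ⟨b, hb⟩ := IsPrincipalIdealRing.principal (v.asIdeal.comap e)
  have hb' : v.asIdeal.comap e = Ideal.span {b} := hb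
  have hmem : e b ∈ v.asIdeal := by
    have : b ∈ v.asIdeal.comap e := by rw [hb']; exact Ideal.mem_span_singleton_self b
    exact this
  have hb0 : b ≠ 0 := by
    rintro rfl
    have h2 : ((Ideal.absNorm v.asIdeal : ℕ) : Eis) ∈ v.asIdeal.comap e := by
      rw [Ideal.mem_comap, map_natCast]
      exact Ideal.absNorm_mem v.asIdeal
    rw [hb', Ideal.mem_span_singleton, zero_dvd_iff] at h2
    have h3 : Ideal.absNorm v.asIdeal ≠ 0 := by
      rw [Ne, Ideal.absNorm_eq_zero_iff]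
      exact v.ne_bot
    apply h3
    have h4 := congrArg emb h2
    rw [map_natCast, map_zero] at h4
    exact_mod_cast h4
  refine ⟨b, ?_, hmem⟩
  rw [← Ideal.span_singleton_prime hb0, ← hb']
  exact h1

theorem nv_pow {b : Eis} (hb : Prime b) (hv : e b ∈ v.asIdeal) :
    ∃ f : ℕ, 0 < f ∧ nv v = b.norm.natAbs ^ f := by
  haveI := eis_isDomain
  haveI := eis_pid
  haveI hmax : (Ideal.span {b}).IsMaximal :=
    PrincipalIdealRing.isMaximal_of_irreducible hb.irreducible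
  letI : Field (Eis ⧸ Ideal.span {b}) := Ideal.Quotient.field _
  haveI := v.isMaximal
  letI : Field (𝓞 F ⧸ v.asIdeal) := Ideal.Quotient.field _
  let φ : (Eis ⧸ Ideal.span {b}) →+* (𝓞 F ⧸ v.asIdeal) :=
    Ideal.quotientMap v.asIdeal e (by
      rw [Ideal.span_singleton_le_iff_mem]
      exact hv)
  letI : Algebra (Eis ⧸ Ideal.span {b}) (𝓞 F ⧸ v.asIdeal) := φ.toAlgebra
  haveI : Finite (𝓞 F ⧸ v.asIdeal) := Ideal.finiteQuotientOfFreeOfNeBot _ v.ne_bot
  haveI : Finite (Eis ⧸ Ideal.span {b}) := Finite.of_injective φ φ.injective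
  letI : Fintype (𝓞 F ⧸ v.asIdeal) := Fintype.ofFinite _
  letI : Fintype (Eis ⧸ Ideal.span {b}) := Fintype.ofFinite _
  haveI : Module.Finite (Eis ⧸ Ideal.span {b}) (𝓞 F ⧸ v.asIdeal) := Module.Finite.of_finite
  refine ⟨Module.finrank (Eis ⧸ Ideal.span {b}) (𝓞 F ⧸ v.asIdeal), Module.finrank_pos, ?_⟩
  rw [nv, ← p4_card b, Nat.card_eq_fintype_card, Nat.card_eq_fintype_card]
  exact Module.card_eq_pow_finrank

theorem b0a_one_lt {b : Eis} (hb : Prime b) : 1 < b.norm.natAbs := by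
  by_contra hlt
  push Not at hlt
  interval_cases hN : b.norm.natAbs
  · apply hb.ne_zero
    rw [Int.natAbs_eq_zero] at hN
    by_contra h0
    exact (a1_norm_pos h0).ne' hN
  · apply hb.not_unit
    rw [eis_isUnit_iff]
    have := norm_nonneg' b
    omega

theorem psv_eq {b : Eis} {f : ℕ} (h7 : p7 ∣ b - 1) (hb : Prime b) (hv : e b ∈ v.asIdeal)
    (hf : 0 < f) (hn : nv v = b.norm.natAbs ^ f) : psv e v = b ^ f := by
  haveI := eis_isDomain
  haveI := eis_pid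
  have hex : ∃ x : Eis, ∃ (b : Eis) (f : ℕ), p7 ∣ b - 1 ∧ Prime b ∧ e b ∈ v.asIdeal ∧ 0 < f ∧
    nv v = b.norm.natAbs ^ f ∧ x = b ^ f := ⟨b ^ f, b, f, h7, hb, hv, hf, hn, rfl⟩
  rw [psv, dif_pos hex]
  obtain ⟨b', f', h7', hb', hv', hf', hn', hx⟩ := hex.choose_spec
  rw [hx]
  have h1 : b = b' := by
    have h2 : b ∣ b' := (comap_prime e v hb hv b').1 hv'
    exact assoc7 (hb.associated_of_dvd hb' h2) h7 h7'
  subst h1
  congr 1
  rw [hn] at hn'
  exact (Nat.pow_right_injective (b0a_one_lt hb) hn').symm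

theorem psv_p7 (h : e p7 ∈ v.asIdeal) : psv e v = 0 := by
  rw [psv, dif_neg]
  rintro ⟨x, b, f, h7, hb, hv, -⟩
  have h1 : p7 ∣ b := (comap_prime e v p7_prime h b).1 hv
  apply p7_prime.not_unit
  rw [isUnit_iff_dvd_one]
  have h2 : (1 : Eis) = b - (b - 1) := by ring
  rw [h2]
  exact dvd_sub h1 h7

theorem psv_spec (h : e p7 ∉ v.asIdeal) : ∃ (b : Eis) (f : ℕ), p7 ∣ b - 1 ∧ Prime b ∧
    e b ∈ v.asIdeal ∧ 0 < f ∧ nv v = b.norm.natAbs ^ f ∧ psv e v = b ^ f := by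
  haveI := eis_isDomain
  haveI := eis_pid
  obtain ⟨b₀, hb₀, hv₀⟩ := exists_below e v
  have h1 : ¬ p7 ∣ b₀ := by
    intro h1
    have h2 := p7_prime.associated_of_dvd hb₀ h1
    apply h
    rw [comap_prime e v hb₀ hv₀]
    exact h2.symm.dvd
  obtain ⟨ε, hε, h7⟩ := exists_unit7 h1
  have hu : IsUnit ε := (unit_iff ε).2 hε
  have hb : Prime (ε * b₀) := by
    have h3 : Associated b₀ (ε * b₀) := by
      obtain ⟨u, rfl⟩ := hu
      exact ⟨u, mul_comm _ _⟩
    exact h3.prime hb₀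
  have hv : e (ε * b₀) ∈ v.asIdeal := by
    rw [map_mul]
    exact Ideal.mul_mem_left _ _ hv₀
  obtain ⟨f, hf, hn⟩ := nv_pow e v hb hv
  exact ⟨ε * b₀, f, h7, hb, hv, hf, hn, psv_eq e v h7 hb hv hf hn⟩

theorem psv_one_mod (h : e p7 ∉ v.asIdeal) : p7 ∣ psv e v - 1 := by
  obtain ⟨b, f, h7, -, -, -, -, hx⟩ := psv_spec e v h
  rw [hx]
  have := sub_dvd_pow_sub_pow b 1 f
  rw [one_pow] at this
  exact h7.trans this

theorem psv_norm (h : e p7 ∉ v.asIdeal) : (psv e v).norm.natAbs = nv v := by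
  obtain ⟨b, f, -, -, -, -, hn, hx⟩ := psv_spec e v h
  rw [hx, hn, map_pow, Int.natAbs_pow]

end

end TH
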