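import Pool.Agent.MP_9ab903_nt.TH.Defs
import Pool.Agent.MP_9ab903_nt.CF.D2
import Pool.Agent.MP_9ab903_nt.FinalDefs3

/-!
# [NG3] The class of fields and the curve over them
-/

set_option autoImplicit false

open NumberField IsDedekindDomain
open CM27 CMT NAB CF
open scoped Classical

namespace TH

/-- `F / K` is ramified at most at the primes modulo which `d` is not a square. -/
def UnrN (K F : Type) [Field K] [Field F] [Algebra K F] (d : 𝓞 K) : Prop :=
  ∀ (v : HeightOneSpectrum (𝓞 K)) (P : HeightOneSpectrum (𝓞 F)), P.asIdeal.LiesOver v.asIdeal →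
    (∃ x : 𝓞 K, x ^ 2 - d ∈ v.asIdeal) → P.asIdeal.ramificationIdx (𝓞 K) = 1

/-- `ω - 4` in `ℚ(ω)` -/
noncomputable def dK : 𝓞 KK := eF KK d2_w_mem dd

/-- `F` is contained in a Galois extension `M` of `K = ℚ(ω)` of degree a power of three which is
ramified only at primes modulo which `ω - 4` is not a square. -/
def TT (F : IntermediateField ℚ ℂ) [NumberField F] (hw : w ∈ F) : Prop :=
  letI := algK F hw
  ∃ (M : Type) (_ : Field M) (_ : NumberField M) (_ : Algebra F M) (_ : Algebra KK M)
    (_ : IsScalarTower KK F M) (_ : IsGalois KK M) (m : ℕ), Module.finrank KK M = 3 ^ m ∧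
    UnrN KK M dK

/-- the curve `y² + ω² y = x³ + (2 + ω) x² + (1 + ω) x` over `F ∋ ω` -/
noncomputable def EpF (F : IntermediateField ℚ ℂ) (hw : w ∈ F) : WeierstrassCurve F :=
  Ep (⟨w, hw⟩ : F)

/-- `y² = x³ + 48 (4 - ω)` -/
noncomputable def D' : ℂ := 48 * (4 - w)


end TH
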