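import Pool.Agent.MP_9ab903_nt.TH.P4a
import Pool.Agent.MP_9ab903_nt.TH.TD
import Pool.Agent.MP_9ab903_nt.TH.B0a
import Pool.Agent.MP_9ab903_nt.NAB.QR6

set_option autoImplicit false

open NumberField IsDedekindDomain
open CM27 CMT NAB CF TWR
open scoped Classical

namespace TH

/-! ## [TH-B4] arithmetic of the fields of the class (file TH/B4.lean)

`M / K` Galois of degree `3^m`: `e f g = 3^m` at every prime, so the residue degrees over `K` of the primes of `M` are powers of `3`, and those of `F` divide them (`F / K` need not be Galois;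
tower of residue fields or of `nv`: `nv P = nv v ^ f₁`, `nv v = (N b) ^ f`, `f f₁` a power of three). `ω - 4 = - λ π ≡ 0² mod λ, π` and `ω - 4 ≡ (ω²)² mod 2`: `λ, π, 2` are unramified in `M`, hence in `F`
(compare `TWR.odd_val_gen`, `NAB.odd_discr_unr`, `Ideal.ramificationIdx_tower`). -/

/-- arithmetic of the fields of the class -/
structure Ar (F : Type) [Field F] [NumberField F] (e : Eis →+* 𝓞 F) : Prop where
  deg : ∀ (v : HeightOneSpectrum (𝓞 F)) (b : Eis) (f : ℕ), Prime b → e b ∈ v.asIdeal →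
    nv v = b.norm.natAbs ^ f → ∃ i : ℕ, f = 3 ^ i
  ul : UL e
  u7 : ∀ v : HeightOneSpectrum (𝓞 F), e p7 ∈ v.asIdeal → e p7 ∉ v.asIdeal ^ 2
  u2 : ∀ v : HeightOneSpectrum (𝓞 F), (2 : 𝓞 F) ∈ v.asIdeal → (2 : 𝓞 F) ∉ v.asIdeal ^ 2

theorem b4_coe (F : IntermediateField ℚ ℂ) [NumberField F] (hw : w ∈ F) (a : Eis) :
    letI := algK F hw
    algebraMap (𝓞 KK) (𝓞 F) (eF KK d2_w_mem a) = eF F hw a := by
  apply RingOfIntegers.ext
  apply Subtype.ext
  rfl

theorem b4_surj (y : 𝓞 KK) : ∃ a : Eis, eF KK d2_w_mem a = y := by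
  obtain ⟨φ, hφ⟩ := exists_KK
  refine ⟨φ.symm y, ?_⟩
  apply RingOfIntegers.ext
  apply Subtype.ext
  have h := hφ (φ.symm y)
  rw [RingEquiv.apply_symm_apply] at h
  rw [eF_apply, h]

/-- the ideal of `KK` above `b` -/
theorem b4_und (v : HeightOneSpectrum (𝓞 KK)) {b : Eis} (hb : Prime b)
    (hv : eF KK d2_w_mem b ∈ v.asIdeal) (y : 𝓞 KK) (hy : y ∈ v.asIdeal) :
    ∃ c : Eis, y = eF KK d2_w_mem b * eF KK d2_w_mem c := by
  obtain ⟨a, rfl⟩ := b4_surj y
  obtain ⟨c, hc⟩ := (comap_prime (eF KK d2_w_mem) v hb hv a).1 hy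
  exact ⟨c, by rw [hc, map_mul]⟩

theorem b4_nv (v : HeightOneSpectrum (𝓞 KK)) {b : Eis} (hb : Prime b)
    (hv : eF KK d2_w_mem b ∈ v.asIdeal) : nv v = b.norm.natAbs := by
  obtain ⟨φ, hφ⟩ := exists_KK
  have hφe : ∀ a : Eis, φ a = eF KK d2_w_mem a := by
    intro a
    apply RingOfIntegers.ext
    apply Subtype.ext
    rw [hφ, eF_apply]
  have h1 : v.asIdeal = (Ideal.span {b}).map (φ : Eis →+* 𝓞 KK) := by
    rw [Ideal.map_span, Set.image_singleton]
    apply le_antisymm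
    · intro y hy
      obtain ⟨c, hc⟩ := b4_und v hb hv y hy
      rw [hc, Ideal.mem_span_singleton]
      refine Dvd.intro (eF KK d2_w_mem c) ?_
      rw [RingEquiv.coe_toRingHom, hφe]
    · rw [Ideal.span_singleton_le_iff_mem, RingEquiv.coe_toRingHom, hφe]
      exact hv
  rw [nv, ← p4_card]
  exact (Nat.card_congr (Ideal.quotientEquiv _ _ φ h1).toEquiv).symm

theorem b4_lt {b : Eis} (hb : Prime b) : 1 < b.norm.natAbs := by
  rcases Nat.lt_or_ge 1 b.norm.natAbs with h | h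
  · exact h
  · exfalso
    have h1 : b.norm.natAbs = 0 ∨ b.norm.natAbs = 1 := by omega
    have h2 := norm_nonneg' b
    rcases h1 with h1 | h1
    · have h3 : b.norm = 0 := by omega
      have h4 : (emb b) = 0 := by
        rw [← Complex.normSq_eq_zero, normSq_emb, h3, Int.cast_zero]
      exact hb.ne_zero (emb_injective (by rw [h4, map_zero]))
    · have h3 : b.norm = 1 := by omega
      exact hb.not_isUnit ((eis_isUnit_iff b).2 h3)

theorem b4_two_prime : Prime (2 : Eis) := by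
  have h := a3_prime_inert 2 Nat.prime_two (by norm_num)
  exact_mod_cast h

theorem b4_la_prime : Prime la := a3_prime_of_norm 3 Nat.prime_three la (by decide)

/-- the tower -/
theorem b4_tower (F : IntermediateField ℚ ℂ) [NumberField F] (hw : w ∈ F) (hT : TT F hw)
    (v : HeightOneSpectrum (𝓞 F)) :
    letI := algK F hw
    ((∃ x : 𝓞 KK, x ^ 2 - dK ∈ (und KK v).asIdeal) → v.asIdeal.ramificationIdx (𝓞 KK) = 1) ∧
      ∃ i : ℕ, v.asIdeal.inertiaDeg (𝓞 KK) = 3 ^ i := by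
  let := algK F hw
  obtain ⟨M, _, _, _, _, _, _, m, hm, hu⟩ := hT
  have := v.isMaximal
  obtain ⟨Q, hQm, hQ⟩ := Ideal.exists_maximal_ideal_liesOver_of_isIntegral
    (S := 𝓞 M) v.asIdeal
  have hQ0 : Q ≠ ⊥ := Ideal.ne_bot_of_liesOver_of_ne_bot v.ne_bot Q
  let W : HeightOneSpectrum (𝓞 M) := ⟨Q, hQm.isPrime, hQ0⟩
  have hWP : W.asIdeal.LiesOver v.asIdeal := hQ
  have hvu : v.asIdeal.LiesOver (und KK v).asIdeal := ⟨rfl⟩
  have hWv : W.asIdeal.LiesOver (und KK v).asIdeal :=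
    Ideal.LiesOver.trans W.asIdeal v.asIdeal (und KK v).asIdeal
  refine ⟨fun hx => ?_, ?_⟩
  · have h1 := hu (und KK v) W hWv hx
    have h2 : v.asIdeal.ramificationIdx (𝓞 KK) ∣ W.asIdeal.ramificationIdx (𝓞 KK) :=
      Ideal.ramificationIdx_below_dvd (R := 𝓞 KK) v.asIdeal W.asIdeal
    rw [h1] at h2
    exact Nat.dvd_one.1 h2
  · have hmx := (und KK v).isMaximal
    have hQp : W.asIdeal.IsPrime := W.isPrime
    have h3 := Ideal.ncard_primesOver_mul_ramificationIdxIn_mul_inertiaDegIn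
      (und KK v).asIdeal (𝓞 M) (M ≃ₐ[KK] M)
    rw [Ideal.inertiaDegIn_eq_inertiaDeg (und KK v).asIdeal W.asIdeal (M ≃ₐ[KK] M),
      IsGalois.card_aut_eq_finrank, hm] at h3
    rw [← mul_assoc] at h3
    have h4 : W.asIdeal.inertiaDeg (𝓞 KK) ∣ 3 ^ m := Dvd.intro_left _ h3
    have h5 : v.asIdeal.inertiaDeg (𝓞 KK) ∣ 3 ^ m :=
      (Ideal.inertiaDeg_below_dvd (R := 𝓞 KK) v.asIdeal W.asIdeal).trans h4
    obtain ⟨i, -, hi⟩ := (Nat.dvd_prime_pow Nat.prime_three).1 h5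
    exact ⟨i, hi⟩

theorem dK_sq (v : HeightOneSpectrum (𝓞 KK)) (h : eF KK d2_w_mem (2 * la * p7) ∈ v.asIdeal) :
    ∃ x : 𝓞 KK, x ^ 2 - dK ∈ v.asIdeal := by
  have h1 : eF KK d2_w_mem 2 * eF KK d2_w_mem la * eF KK d2_w_mem p7 ∈ v.asIdeal := by
    rw [← map_mul, ← map_mul]
    exact h
  have hd : dK = -(eF KK d2_w_mem la * eF KK d2_w_mem p7) := by
    rw [dK, dd_eq, map_neg, map_mul]
  rcases v.isPrime.mem_or_mem h1 with h2 | h2
  · rcases v.isPrime.mem_or_mem h2 with h3 | h3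
    · refine ⟨eF KK d2_w_mem (om ^ 2), ?_⟩
      have e1 : eF KK d2_w_mem (om ^ 2) ^ 2 - dK = eF KK d2_w_mem 2 * eF KK d2_w_mem 2 := by
        rw [dK, ← map_pow, ← map_sub, ← map_mul]
        congr 1
      rw [e1]
      exact Ideal.mul_mem_right _ _ h3
    · refine ⟨0, ?_⟩
      rw [hd, zero_pow two_ne_zero, zero_sub, neg_neg]
      exact Ideal.mul_mem_right _ _ h3
  · refine ⟨0, ?_⟩
    rw [hd, zero_pow two_ne_zero, zero_sub, neg_neg]
    exact Ideal.mul_mem_left _ _ h2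

/-- an element of `ℤ[ω]` prime modulo which `ω - 4` is a square is unramified -/
theorem unram_of_sq (F : IntermediateField ℚ ℂ) [NumberField F] (hw : w ∈ F) (hT : TT F hw)
    (b : Eis) (hb : Prime b) (hs : ∃ x : Eis, b ∣ x ^ 2 - dd) (v : HeightOneSpectrum (𝓞 F))
    (hv : eF F hw b ∈ v.asIdeal) : eF F hw b ∉ v.asIdeal ^ 2 := by
  let := algK F hw
  have hbu : eF KK d2_w_mem b ∈ (und KK v).asIdeal := by
    rw [mem_und, b4_coe]
    exact hv
  have h1 : v.asIdeal.ramificationIdx (𝓞 KK) = 1 := by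
    refine (b4_tower F hw hT v).1 ?_
    obtain ⟨x, c, hc⟩ := hs
    refine ⟨eF KK d2_w_mem x, ?_⟩
    rw [dK, ← map_pow, ← map_sub, hc, map_mul]
    exact Ideal.mul_mem_right _ _ hbu
  intro hb2
  have hlies : v.asIdeal.LiesOver (und KK v).asIdeal := ⟨rfl⟩
  have h2 := Ideal.ramificationIdx'_eq_ramificationIdx (und KK v).asIdeal v.asIdeal (und KK v).ne_bot
  rw [h1] at h2
  have hle : ∀ I : Ideal (𝓞 F), eF F hw b ∈ I →
      (und KK v).asIdeal.map (algebraMap (𝓞 KK) (𝓞 F)) ≤ I := by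
    intro I hI
    rw [Ideal.map_le_iff_le_comap]
    intro y hy
    obtain ⟨c, hc⟩ := b4_und (und KK v) hb hbu y hy
    rw [Ideal.mem_comap, hc, map_mul, b4_coe]
    exact Ideal.mul_mem_right _ _ hI
  exact (Ideal.ramificationIdx'_ne_one_iff (hle _ hv)).2 (hle _ hb2) h2

theorem TT.deg (F : IntermediateField ℚ ℂ) [NumberField F] (hw : w ∈ F) (hT : TT F hw)
    (v : HeightOneSpectrum (𝓞 F)) (b : Eis) (f : ℕ) (hb : Prime b) (hv : eF F hw b ∈ v.asIdeal)
    (hf : nv v = b.norm.natAbs ^ f) : ∃ i : ℕ, f = 3 ^ i := by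
  let := algK F hw
  have hbu : eF KK d2_w_mem b ∈ (und KK v).asIdeal := by
    rw [mem_und, b4_coe]
    exact hv
  obtain ⟨i, hi⟩ := (b4_tower F hw hT v).2
  refine ⟨i, ?_⟩
  have := v.isMaximal
  have := (und KK v).isMaximal
  have hlies : v.asIdeal.LiesOver (und KK v).asIdeal := ⟨rfl⟩
  have h1 := Ideal.cardQuot_pow_inertiaDeg (und KK v).asIdeal v.asIdeal
  rw [Submodule.cardQuot_apply, Submodule.cardQuot_apply] at h1
  have h2 : nv (und KK v) ^ v.asIdeal.inertiaDeg (𝓞 KK) = nv v := h1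
  rw [b4_nv (und KK v) hb hbu, hf, hi] at h2
  exact (Nat.pow_right_injective (b4_lt hb) h2).symm

theorem TT.ar (F : IntermediateField ℚ ℂ) [NumberField F] (hw : w ∈ F) (hT : TT F hw) :
    Ar F (eF F hw) := by
  refine ⟨fun v b f hb hv hf => TT.deg F hw hT v b f hb hv hf, fun v h3 => ?_, fun v h7 => ?_,
    fun v h2 => ?_⟩
  · refine unram_of_sq F hw hT la b4_la_prime ⟨0, ?_⟩ v ((three_mem_iff (eF F hw) v).1 h3)
    rw [dd_eq, zero_pow two_ne_zero, zero_sub, neg_neg]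
    exact Dvd.intro _ rfl
  · refine unram_of_sq F hw hT p7 p7_prime ⟨0, ?_⟩ v h7
    rw [dd_eq, zero_pow two_ne_zero, zero_sub, neg_neg]
    exact Dvd.intro_left _ rfl
  · have h4 := unram_of_sq F hw hT 2 b4_two_prime ⟨om ^ 2, 2, by decide⟩ v (by
      rw [map_ofNat]
      exact h2)
    rwa [map_ofNat] at h4

end TH
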