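import Pool.Agent.MP_9ab903_nt.TH.B2a
import Pool.Agent.MP_9ab903_nt.TH.B1
import Pool.Agent.MP_9ab903_nt.TH.B0
import Pool.Agent.MP_9ab903_nt.TH.B4
import Pool.Agent.MP_9ab903_nt.NAB.EU3

set_option autoImplicit false

open NumberField IsDedekindDomain
open CM27 CMT NAB CF TWR
open scoped Classical ComplexConjugate

namespace TH

/-! ## [TH-B2] `L(Ep / F, s)` as the product of two Hecke `L`-series (file TH/B2.lean)

`NAB.LCW_eq_IL` (compare the proof of `NAB.LCW_lam` in EU6): at `v ∤ π` `localPoly_Ep_good`, the residue field of the completion is isomorphic to `𝓞 F / v` (as in EU4 / EU6), `card_Ep` with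
`r = residue ∘ e`, `b, f` from `psv_spec`, `f` a power of three by `Ar.deg`; `a = ψ + conj ψ`, `|k| = ψ conj ψ`. At `v ∣ π`: `3 + ω` is a uniformiser of the completion (`Ar.u7`, compare `RF.e2_irred`),
`psv = 0`. -/

theorem b2_irred (K : Type) [Field K] [NumberField K] (v : HeightOneSpectrum (𝓞 K)) (r : 𝓞 K)
    (hr : v.intValuation r = WithZero.exp (-1 : ℤ)) :
    Irreducible (algebraMap (𝓞 K) (v.adicCompletionIntegers K) r) := by
  have hv := c3_val K v r
  have hlt : ∀ x : WithZero (Multiplicative ℤ), x < 1 → x ≤ WithZero.exp (-1 : ℤ) := by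
    intro x hx
    rcases eq_or_ne x 0 with h0 | h0
    · rw [h0]; exact zero_le
    · rw [← WithZero.exp_zero] at hx
      rw [← WithZero.log_le_iff_le_exp h0]
      have h1 := (WithZero.log_lt_iff_lt_exp h0).2 hx
      omega
  refine ⟨?_, ?_⟩
  · rw [HeightOneSpectrum.adicCompletionIntegers.isUnit_iff_valued_eq_one, hv, hr,
      ← WithZero.exp_zero, WithZero.exp_inj]
    norm_num
  · intro a b hab
    by_contra hcon
    push Not at hcon
    obtain ⟨ha, hb⟩ := hcon
    rw [← mem_nonunits_iff, ← IsLocalRing.mem_maximalIdeal, c3_mem_max] at ha hb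
    have h4 : Valued.v ((a * b : v.adicCompletionIntegers K) : v.adicCompletion K) =
        Valued.v (a : v.adicCompletion K) * Valued.v (b : v.adicCompletion K) := by
      rw [← map_mul]; rfl
    have h5 : Valued.v ((a * b : v.adicCompletionIntegers K) : v.adicCompletion K) ≤
        WithZero.exp (-1 : ℤ) * WithZero.exp (-1 : ℤ) := by
      rw [h4]
      exact mul_le_mul' (hlt _ ha) (hlt _ hb)
    rw [← hab, hv, hr, ← WithZero.exp_add, WithZero.exp_le_exp] at h5
    norm_num at h5

theorem b2_val {K : Type} [Field K] [NumberField K] (v : HeightOneSpectrum (𝓞 K)) (r : 𝓞 K)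
    (h1 : r ∈ v.asIdeal) (h2 : r ∉ v.asIdeal ^ 2) :
    v.intValuation r = WithZero.exp (-1 : ℤ) := by
  apply le_antisymm
  · have h3 := (v.intValuation_le_pow_iff_mem r 1).2 (by rw [pow_one]; exact h1)
    simpa using h3
  · by_contra hcon
    apply h2
    rw [← v.intValuation_le_pow_iff_mem]
    push Not at hcon
    rcases eq_or_ne (v.intValuation r) 0 with h0 | h0
    · rw [h0]; exact zero_le
    · rw [← WithZero.log_lt_iff_lt_exp h0] at hcon
      rw [← WithZero.log_le_iff_le_exp h0]
      push_cast
      omega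

theorem LCW_Ep (F : Type) [Field F] [NumberField F] (e : Eis →+* 𝓞 F) (hA : Ar F e) :
    LCW F (Ep ((e om : 𝓞 F) : F)) =
      IL F (fun I => emb (Ps e I)) * IL F (fun I => conj (emb (Ps e I))) := by
  refine LCW_eq_IL F _ (fun I => emb (Ps e I)) (fun I => conj (emb (Ps e I)))
    (by simp only [Ps_one, map_one]) (by simp only [Ps_one, map_one])
    (fun I J => by simp only [Ps_mul, map_mul]) (fun I J => by simp only [Ps_mul, map_mul]) ?_
  intro v
  have hbc : (Ep ((e om : 𝓞 F) : F)).baseChange (v.adicCompletion F) =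
      Ep (algebraMap (v.adicCompletionIntegers F) (v.adicCompletion F)
        (algebraMap (𝓞 F) (v.adicCompletionIntegers F) (e om))) := by
    rw [WeierstrassCurve.baseChange, Ep_map]
    rfl
  have ho : (algebraMap (𝓞 F) (v.adicCompletionIntegers F) (e om)) ^ 2 +
      algebraMap (𝓞 F) (v.adicCompletionIntegers F) (e om) + 1 = 0 := by
    rw [← map_pow, ← map_add, ← map_pow, ← map_add, ← map_one (algebraMap (𝓞 F)
      (v.adicCompletionIntegers F)), ← map_add, ← map_one e, ← map_add, om_quad, map_zero, map_zero]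
  have h7 : 3 + algebraMap (𝓞 F) (v.adicCompletionIntegers F) (e om) =
      algebraMap (𝓞 F) (v.adicCompletionIntegers F) (e p7) := by
    have h1 : p7 = 3 + om := by decide
    rw [h1, map_add, map_add, map_ofNat, map_ofNat]
  rw [hbc]
  by_cases hv : e p7 ∈ v.asIdeal
  · refine ⟨0, 0, ?_, ?_, ?_⟩
    · rw [localPoly_Ep_bad (v.adicCompletionIntegers F) (v.adicCompletion F) _ ho (by
        rw [h7]
        exact b2_irred F v _ (b2_val v _ hv (hA.u7 v hv)))]
      simp
    · rw [Ps_prime, psv_p7 e v hv]
      simp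
    · rw [Ps_prime, psv_p7 e v hv]
      simp
  · obtain ⟨hc, hfin⟩ := card_residue F v
    obtain ⟨b, f, hb7, hb, hvb, hf, hcard, hpsi⟩ := psv_spec e v hv
    obtain ⟨i, hi⟩ := hA.deg v b f hb hvb hcard
    have hunit : IsUnit (3 + algebraMap (𝓞 F) (v.adicCompletionIntegers F) (e om)) := by
      rw [h7]
      exact isUnit_completion' F v _ hv
    have hcq : Nat.card (IsLocalRing.ResidueField (v.adicCompletionIntegers F)) =
        b.norm.natAbs ^ f := by
      rw [hc]
      exact hcard
    have hr : ((IsLocalRing.residue (v.adicCompletionIntegers F)).comp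
        ((algebraMap (𝓞 F) (v.adicCompletionIntegers F)).comp e)) b = 0 := by
      have h1 : e b ∈ RingHom.ker ((IsLocalRing.residue (v.adicCompletionIntegers F)).comp
          (algebraMap (𝓞 F) (v.adicCompletionIntegers F))) := by
        rw [(residue_completion F v).2]
        exact hvb
      exact h1
    have h5 := card_Ep b hb hb7 (IsLocalRing.ResidueField (v.adicCompletionIntegers F))
      ((IsLocalRing.residue (v.adicCompletionIntegers F)).comp
        ((algebraMap (𝓞 F) (v.adicCompletionIntegers F)).comp e)) hr f i hi hcq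
    have h6 : ((IsLocalRing.residue (v.adicCompletionIntegers F)).comp
        ((algebraMap (𝓞 F) (v.adicCompletionIntegers F)).comp e)) om =
        IsLocalRing.residue (v.adicCompletionIntegers F)
          (algebraMap (𝓞 F) (v.adicCompletionIntegers F) (e om)) := rfl
    rw [h6] at h5
    refine ⟨_, _, localPoly_Ep_good (v.adicCompletionIntegers F) (v.adicCompletion F) _ ho hunit,
      ?_, ?_⟩
    · rw [Int.cast_sub, Int.cast_add, Int.cast_natCast, Int.cast_one, Int.cast_natCast, h5,
        Ps_prime, hpsi, hcq, map_pow, map_pow]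
      push_cast
      ring
    · have h8 : emb b * conj (emb b) = ((b.norm.natAbs : ℕ) : ℂ) := by
        rw [Complex.mul_conj, normSq_emb, Nat.cast_natAbs, abs_of_nonneg (CM27.norm_nonneg' _)]
        push_cast
        rfl
      rw [Ps_prime, hpsi, hcq, map_pow, map_pow, ← mul_pow, h8, Int.cast_natCast, Nat.cast_pow]

theorem LCW_EpF (F : IntermediateField ℚ ℂ) [NumberField F] (hw : w ∈ F) (hT : TT F hw) :
    LCW F (EpF F hw) = IL F (fun I => emb (Ps (eF F hw) I)) *
      IL F (fun I => conj (emb (Ps (eF F hw) I))) := by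
  have h := LCW_Ep F (eF F hw) (TT.ar F hw hT)
  have h1 : EpF F hw = Ep ((eF F hw om : 𝓞 F) : F) := by
    rw [EpF]
    congr 1
    apply Subtype.ext
    change w = emb om
    rw [emb_apply]
    simp [om]
  rw [h1]
  exact h

end TH
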