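import Pool.Agent.MP_9ab903_nt.TH.P15b

set_option autoImplicit false

open NumberField IsDedekindDomain
open CM27 CMT NAB CF TWR
open scoped Classical ComplexConjugate

namespace TH

/-! ## [TH-P15] the product formula over `ℚ(ω)` (file TH/P15.lean)

(1) `cc_prime_pair`: `b, b'` primary primes. If one of them is associated to a rational prime `ℓ ≡ 2 mod 3` (primary: `b = -ℓ`): `cc_rat`, `cc_neg_*`, `cc_antisymm`,
`cc_self`. Otherwise `b star b = p`, `b' star b' = p'` are rational primes `≡ 1 mod 3`. `p ≠ p'`: `c(b, b') c(b, star b') = c(b, p') = 1` (`cc_rat`), and the same with `star b`;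
`c(star b, star b') = star c(b, b')` (`cc_primes`, `cs_pv_star`). So `star c(b, b') = c(star b, star b') = c(star b, b')⁻¹ = c(b', star b) = c(b', b)⁻¹ = c(b, b')`
(`c(b', b) c(b', star b) = c(b', p) = 1`), so `c² = 1` (`c star c = 1`), `c = 1`. `p = p'`: `b' = b` (`cc_self`) or `b' = star b`: `a = b + star b` is a rational integer
`≡ 2 mod 3` not divisible by `b`; Steinberg for `b / a + star b / a = 1` gives `c(b, star b) = c(b, a) c(a, star b) c(a, a)⁻¹ = 1`.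
(2) `cc_one_mod`: `x, y ≡ 1 mod 3`: induction on the factorisation (`exists_primary`, the unit is `≡ ± 1 mod 3`, i.e. it is `1`).
(3) `cc_om_mod`: `x = 1 + λ² s`: `c(x, ω) ω^s = 1`: multiplicative in `x`, for primes `cc_om` and `(N x - 1)/3 ≡ s mod λ` (`λ² = -3 ω`,
`N(1 + λ² s) = 1 + Tr(λ² s) + 9 N s`, `Tr(λ² s)/3 = - Tr(ω s) ≡ s mod λ`).
(4) `cc_la_mod`: `X = 1 + λ³ t`: `c(X, λ) = ω^t`: Steinberg for `4 X` and `1 - 4 X = ω² λ² η`, `η = 1 - 4 ω λ t` (`3 = - ω² λ²`):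
`1 = c(4X, ω)² c(4X, λ)² c(4X, η)`, `η = ω^t η'` with `η' ≡ 1 mod λ²`, `c(4X, η') = 1`, `4 X = 1 + λ² s`, `s ≡ - 1 mod λ`, so `c(4X, ω) = ω`,
`c(4X, λ)² = ω^(-2 - t)`, `c(4X, λ) = ω^(2 + t)`; the same for `X = 1`: `c(4, λ) = ω²`; so `c(X, λ) = ω^t`.
(5) `PF_KK`: `x` admissible: up to a cube `x = kk X`, `X = 1 - λ³ τ`, `τ : ℤ[ω]` (clear denominators: multiply by `± n³`, `n` prime to `λ`);
`y = kk y₁ / kk y₂`, `y_i = ± ω^i λ^j y'`, `y' ≡ 1 mod 3`. `HH x y = cc x y · T_λ(x, y)`, `T_λ(x, y) = cs_λ(x)^(ord_λ y)`, `cs_λ(1 - λ³ τ) = ω^τ` (`cs_one_sub`, `tv v t = t` for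
`nv = 3`), `cc(X, λ) = ω^(-τ)`. -/

theorem p15_kk_mul (x y : Eis) : kk (x * y) = kk x * kk y := by simp only [kk, map_mul]

theorem p15_kk_pow (x : Eis) (n : ℕ) : kk (x ^ n) = kk x ^ n := by simp only [kk, map_pow]

theorem p15_kk_one : kk 1 = 1 := by simp only [kk, map_one]

theorem p15_kk_add (x y : Eis) : kk (x + y) = kk x + kk y := by simp only [kk, map_add]

theorem p15_kk_sub (x y : Eis) : kk (x - y) = kk x - kk y := by simp only [kk, map_sub]

theorem p15_kk_neg (x : Eis) : kk (-x) = -kk x := by simp only [kk, map_neg]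

theorem p15_kk_X (τ : Eis) : kk (1 - la ^ 3 * τ) = 1 - kk la ^ 3 * kk τ := by
  rw [p15_kk_sub, p15_kk_one, p15_kk_mul, p15_kk_pow]

theorem p15_la_one : ¬ la ∣ (1 : Eis) := fun h => la_prime.not_isUnit (isUnit_of_dvd_one h)

/-- elements prime to `λ` are `± 1` modulo `λ` -/
theorem p15_pm (n : Eis) (h : ¬ la ∣ n) : la ∣ n - 1 ∨ la ∣ n + 1 := by
  have h3 := p15a_la_dvd_three
  have hn : n = ((n.re + n.im : ℤ) : Eis) - (n.im : Eis) * la := by
    ext
    · simp [la]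
    · simp [la]
  have hdvd : ∀ m : ℤ, (3 : ℤ) ∣ m → la ∣ (m : Eis) := fun m hm =>
    h3.trans (p15a_three_dvd hm)
  have h0 : (n.re + n.im) % 3 = 0 ∨ (n.re + n.im) % 3 = 1 ∨ (n.re + n.im) % 3 = 2 := by omega
  rcases h0 with h0 | h0 | h0
  · exfalso
    apply h
    rw [hn]
    exact dvd_sub (hdvd _ (Int.dvd_of_emod_eq_zero h0)) (Dvd.intro_left _ rfl)
  · left
    have e : n - 1 = ((n.re + n.im - 1 : ℤ) : Eis) - (n.im : Eis) * la := by
      conv_lhs => rw [hn]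
      push_cast
      ring
    rw [e]
    exact dvd_sub (hdvd _ (by omega)) (Dvd.intro_left _ rfl)
  · right
    have e : n + 1 = ((n.re + n.im + 1 : ℤ) : Eis) - (n.im : Eis) * la := by
      conv_lhs => rw [hn]
      push_cast
      ring
    rw [e]
    exact dvd_sub (hdvd _ (by omega)) (Dvd.intro_left _ rfl)

theorem p15_frac (x : KK) : ∃ a b : Eis, b ≠ 0 ∧ x = kk a * (kk b)⁻¹ := by
  obtain ⟨a, b, hb, hab⟩ := IsFractionRing.div_surjective (A := 𝓞 KK) x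
  obtain ⟨a', rfl⟩ := eK_bij.2 a
  obtain ⟨b', rfl⟩ := eK_bij.2 b
  refine ⟨a', b', ?_, ?_⟩
  · rintro rfl
    have := nonZeroDivisors.ne_zero hb
    rw [map_zero] at this
    exact this rfl
  · rw [← hab, div_eq_mul_inv]

theorem p15_dec {a : Eis} (ha : a ≠ 0) : ∃ (i : ℕ) (a' : Eis), ¬ la ∣ a' ∧ a = la ^ i * a' := by
  have := eis_isDomain
  have := eis_pid
  exact WfDvdMonoid.max_power_factor ha la_prime.irreducible

/-- elements integral at `λ` -/
theorem p15_int {τ : KK} (h : (pv la la_prime).valuation KK τ ≤ 1) :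
    ∃ α n : Eis, la ∣ n - 1 ∧ τ * kk n = kk α := by
  suffices h' : ∃ α n : Eis, ¬ la ∣ n ∧ τ * kk n = kk α by
    obtain ⟨α, n, hn, e⟩ := h'
    rcases p15_pm n hn with h1 | h1
    · exact ⟨α, n, h1, e⟩
    · refine ⟨-α, -n, ?_, ?_⟩
      · rw [← dvd_neg]
        have : -(-n - 1) = n + 1 := by ring
        rwa [this]
      · rw [p15_kk_neg, p15_kk_neg, mul_neg, e]
  obtain ⟨a, b, hb, rfl⟩ := p15_frac τ
  by_cases ha : a = 0
  · refine ⟨0, 1, p15_la_one, ?_⟩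
    rw [ha]
    simp [kk]
  obtain ⟨i, a', ha', rfl⟩ := p15_dec ha
  obtain ⟨j, b', hb', rfl⟩ := p15_dec hb
  have ha0 : a' ≠ 0 := by
    rintro rfl
    exact ha' (dvd_zero _)
  have hb0 : b' ≠ 0 := by
    rintro rfl
    exact hb' (dvd_zero _)
  have hla0 : la ≠ 0 := la_prime.ne_zero
  have hka := kk_ne ha0
  have hkb := kk_ne hb0
  have hkl := kk_ne hla0
  have hne : kk (la ^ i * a') * (kk (la ^ j * b'))⁻¹ ≠ 0 := mul_ne_zero (kk_ne ha) (inv_ne_zero (kk_ne hb))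
  have hod : od (pv la la_prime) (kk (la ^ i * a') * (kk (la ^ j * b'))⁻¹) = -(i : ℤ) + j := by
    rw [od_mul _ (kk_ne ha) (inv_ne_zero (kk_ne hb)), od_inv, p15_kk_mul, p15_kk_mul,
      od_mul _ (by rw [p15_kk_pow]; exact pow_ne_zero _ hkl) hka,
      od_mul _ (by rw [p15_kk_pow]; exact pow_ne_zero _ hkl) hkb, p15_kk_pow, p15_kk_pow, od_pow,
      od_pow, od_pv_self, od_pv_zero la la_prime ha', od_pv_zero la la_prime hb']
    ring
  rw [val_eq_exp _ hne, hod, ← WithZero.exp_zero, WithZero.exp_le_exp] at h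
  have hij : j ≤ i := by omega
  refine ⟨la ^ (i - j) * a', b', hb', ?_⟩
  obtain ⟨k, rfl⟩ := Nat.exists_eq_add_of_le hij
  rw [Nat.add_sub_cancel_left, p15_kk_mul, p15_kk_mul, p15_kk_mul, p15_kk_pow, p15_kk_pow,
    p15_kk_pow, pow_add]
  field_simp

/-- integral representatives of the admissible elements -/
theorem AdG_KK {x : KK} (hx : AdG eK x) : ∃ (u : KK) (τ : Eis), u ≠ 0 ∧
    x * u ^ 3 = kk (1 - la ^ 3 * τ) := by
  obtain ⟨u, τ, hu, hxu, hτ⟩ := hx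
  obtain ⟨α, n, hn, hα⟩ := p15_int (hτ (pv la la_prime) ((three_mem_KK _).2 rfl))
  obtain ⟨m, hm⟩ := hn
  have hn0 : n ≠ 0 := by
    rintro rfl
    apply p15_la_one
    refine ⟨-m, ?_⟩
    rw [mul_neg, ← hm]
    ring
  have hn1 : n = 1 + la * m := by
    rw [← hm]
    ring
  have hcube : n ^ 3 = 1 + la ^ 3 * (m ^ 3 - om ^ 2 * m - om ^ 2 * la * m ^ 2) := by
    rw [hn1]
    have h3 := three_eq
    linear_combination (la * m + la ^ 2 * m ^ 2) * h3
  refine ⟨u * kk n, n ^ 2 * α - (m ^ 3 - om ^ 2 * m - om ^ 2 * la * m ^ 2), mul_ne_zero hu (kk_ne hn0), ?_⟩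
  have e1 : x * (u * kk n) ^ 3 = kk n ^ 3 - kk la ^ 3 * (kk n ^ 2 * (τ * kk n)) := by
    have : x * (u * kk n) ^ 3 = (x * u ^ 3) * kk n ^ 3 := by ring
    rw [this, hxu]
    ring
  rw [e1, hα]
  have e2 : (1 - la ^ 3 * (n ^ 2 * α - (m ^ 3 - om ^ 2 * m - om ^ 2 * la * m ^ 2)) : Eis) =
      n ^ 3 - la ^ 3 * (n ^ 2 * α) := by
    rw [hcube]
    ring
  rw [e2, p15_kk_sub, p15_kk_pow, p15_kk_mul, p15_kk_mul, p15_kk_pow, p15_kk_pow]

theorem p15_X_ne (τ : Eis) : (1 - la ^ 3 * τ : Eis) ≠ 0 := by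
  intro h
  apply p15_la_one
  rw [sub_eq_zero] at h
  rw [h]
  exact Dvd.intro (la ^ 2 * τ) (by ring)

theorem p15_tv (t : 𝓞 KK) : tv (pv la la_prime) t = t := by
  unfold tv
  have h : nv (pv la la_prime) = 3 := by
    rw [nv_pv, la_norm]
    rfl
  have h1 : Nat.log 3 3 = 1 := by
    rw [Nat.log_eq_iff] <;> norm_num
  rw [h, h1]
  simp

theorem p15_cd (τ : Eis) : Cd eK (pv la la_prime) (kk (1 - la ^ 3 * τ)) := by
  have h3 : (3 : 𝓞 KK) ∈ (pv la la_prime).asIdeal := (three_mem_KK _).2 rfl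
  refine ⟨kk_ne (p15_X_ne τ), Or.inr ⟨h3, 1, kk τ, one_ne_zero, ?_, ?_⟩⟩
  · rw [p15_kk_X]
    ring
  · exact (pv la la_prime).valuation_le_one _

/-- the symbol at `λ` -/
theorem T_la (τ : Eis) (j : ℕ) (hj : la ∣ τ - j) (y : KK) (hy : y ≠ 0) (n : ℕ)
    (hn : od (pv la la_prime) y = -(n : ℤ)) :
    T eK (pv la la_prime) (kk (1 - la ^ 3 * τ)) y = om ^ (j * n) := by
  have h3 : (3 : 𝓞 KK) ∈ (pv la la_prime).asIdeal := (three_mem_KK _).2 rfl
  have hcs : cs eK (pv la la_prime) (kk (1 - la ^ 3 * τ)) = om ^ j := by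
    rw [p15_kk_X]
    refine cs_one_sub eK (pv la la_prime) h3 (t := eK τ) ?_ ?_
    · rw [sub_self, map_zero]
      exact zero_lt_one
    · rw [p15_tv]
      have : eK τ - (j : 𝓞 KK) = eK (τ - j) := by rw [map_sub, map_natCast]
      rw [this, mem_pv]
      exact hj
  rw [T_of_cd eK (pv la la_prime) (p15_cd τ) hy n hn, hcs, pow_mul]

/-- the units of `ℤ[ω]` -/
theorem p15_units {u : Eis} (hu : IsUnit u) : ∃ k : ℕ, u = om ^ k ∨ u = -om ^ k := by
  rw [eis_isUnit_iff, norm_eq] at hu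
  have b1 : u.im ^ 2 ≤ 1 := by nlinarith [sq_nonneg (2 * u.re - u.im)]
  have b2 : u.re ^ 2 ≤ 1 := by nlinarith [sq_nonneg (2 * u.im - u.re)]
  have b3 : u.im ≤ 1 := by nlinarith
  have b4 : -1 ≤ u.im := by nlinarith
  have b5 : u.re ≤ 1 := by nlinarith
  have b6 : -1 ≤ u.re := by nlinarith
  obtain ⟨a, b⟩ := u
  simp only at hu b3 b4 b5 b6
  interval_cases a <;> interval_cases b <;> first
    | (exfalso; revert hu; norm_num; done)
    | exact ⟨0, Or.inl (by decide)⟩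
    | exact ⟨0, Or.inr (by decide)⟩
    | exact ⟨1, Or.inl (by decide)⟩
    | exact ⟨1, Or.inr (by decide)⟩
    | exact ⟨2, Or.inl (by decide)⟩
    | exact ⟨2, Or.inr (by decide)⟩

theorem p15_adg (τ : Eis) : AdG eK (kk (1 - la ^ 3 * τ)) := by
  rw [p15_kk_X]
  exact AdG_one_sub eK (I3.int (eK τ))

theorem p15_split (τ : Eis) {y : KK} (hy : y ≠ 0) : HH eK (kk (1 - la ^ 3 * τ)) y =
    cc eK (kk (1 - la ^ 3 * τ)) y * T eK (pv la la_prime) (kk (1 - la ^ 3 * τ)) y :=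
  HH_eq_cc_one eK (kk_ne (p15_X_ne τ)) hy _ three_mem_KK

theorem p15_la_int {m : ℕ} (h : la ∣ (m : Eis)) : 3 ∣ m := by
  obtain ⟨c, hc⟩ := h
  have h1 := congrArg (fun z : Eis => QuadraticAlgebra.norm z) hc
  simp only [map_mul, la_norm, i4_norm_natCast] at h1
  have h2 : (3 : ℤ) ∣ (m : ℤ) ^ 2 := Dvd.intro _ h1.symm
  have h3 := Int.prime_three.dvd_of_dvd_pow h2
  exact_mod_cast h3

/-- `y = ω` -/
theorem p15_om (τ : Eis) : HH eK (kk (1 - la ^ 3 * τ)) (kk om) = 1 := by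
  have hom : om ≠ 0 := by decide
  have hlo : ¬ la ∣ om := by
    intro h
    apply p15_la_one
    have : (1 : Eis) = om * om ^ 2 := by decide
    rw [this]
    exact h.mul_right _
  rw [p15_split τ (kk_ne hom)]
  obtain ⟨j, hj⟩ := exists_mod_la τ
  rw [T_la τ j hj (kk om) (kk_ne hom) 0 (by rw [od_pv_zero la la_prime hlo]; simp), mul_zero, pow_zero,
    mul_one]
  have h1 := cc_om_mod (-(la * τ)) 0 (by
    rw [Nat.cast_zero, sub_zero, dvd_neg]
    exact Dvd.intro _ rfl)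
  rw [pow_zero, mul_one] at h1
  have e : (1 + la ^ 2 * -(la * τ) : Eis) = 1 - la ^ 3 * τ := by ring
  rwa [e] at h1

/-- `y = λ` -/
theorem p15_la (τ : Eis) : HH eK (kk (1 - la ^ 3 * τ)) (kk la) = 1 := by
  rw [p15_split τ (kk_ne la_prime.ne_zero)]
  obtain ⟨j, hj⟩ := exists_mod_la τ
  obtain ⟨j', hj'⟩ := exists_mod_la (-τ)
  rw [T_la τ j hj (kk la) (kk_ne la_prime.ne_zero) 1 (by rw [od_pv_self la la_prime]; simp), mul_one]
  have h1 := cc_la_mod (-τ) j' hj'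
  have e : (1 + la ^ 3 * -τ : Eis) = 1 - la ^ 3 * τ := by ring
  rw [e] at h1
  rw [h1, ← pow_add]
  have h2 : la ∣ ((j' + j : ℕ) : Eis) := by
    have h3 := dvd_add hj hj'
    have e3 : (τ - j + (-τ - j') : Eis) = -((j' + j : ℕ) : Eis) := by
      push_cast
      ring
    rw [e3, dvd_neg] at h3
    exact h3
  obtain ⟨k, hk⟩ := p15_la_int h2
  rw [hk, pow_mul, om_cube, one_pow]

/-- `y` primary -/
theorem p15_prim (τ : Eis) (p : Eis) (hp : Primary p) : HH eK (kk (1 - la ^ 3 * τ)) (kk p) = 1 := by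
  have hp0 := p15a_primary_ne hp
  have hlp : ¬ la ∣ p := by
    intro h
    apply p15_la_one
    have h1 : la ∣ p - 1 := p15a_la_dvd_three.trans hp
    have := dvd_sub h h1
    rwa [sub_sub_cancel] at this
  rw [p15_split τ (kk_ne hp0)]
  obtain ⟨j, hj⟩ := exists_mod_la τ
  rw [T_la τ j hj (kk p) (kk_ne hp0) 0 (by rw [od_pv_zero la la_prime hlp]; simp), mul_zero, pow_zero,
    mul_one]
  apply cc_one_mod _ _ _ hp
  unfold Primary
  have h3 := three_eq
  have e : (1 - la ^ 3 * τ - 1 : Eis) = 3 * (om * la * τ) := by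
    have ho := om_cube
    linear_combination (-(om * la * τ)) * h3 + la ^ 3 * τ * ho
  rw [e]
  exact Dvd.intro _ rfl

theorem p15_star_la : star la = -om ^ 2 * la := by decide

/-- `y` integral -/
theorem p15_eis (τ : Eis) (y : Eis) (hy : y ≠ 0) : HH eK (kk (1 - la ^ 3 * τ)) (kk y) = 1 := by
  have hA := p15_adg τ
  have hom : om ≠ 0 := by decide
  have hmul : ∀ a b : Eis, a ≠ 0 → b ≠ 0 → HH eK (kk (1 - la ^ 3 * τ)) (kk a) = 1 →
      HH eK (kk (1 - la ^ 3 * τ)) (kk b) = 1 → HH eK (kk (1 - la ^ 3 * τ)) (kk (a * b)) = 1 := by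
    intro a b ha hb h1 h2
    rw [p15_kk_mul, HH_mul_right eK hA (kk_ne ha) (kk_ne hb), h1, h2, one_mul]
  have hpow : ∀ a : Eis, a ≠ 0 → HH eK (kk (1 - la ^ 3 * τ)) (kk a) = 1 → ∀ n : ℕ,
      HH eK (kk (1 - la ^ 3 * τ)) (kk (a ^ n)) = 1 := by
    have := eis_isDomain
    intro a ha h1 n
    induction n with
    | zero => rw [pow_zero, p15_kk_one]; exact HH_one_right eK _
    | succ n ih => rw [pow_succ]; exact hmul _ _ (pow_ne_zero n ha) ha ih h1
  have hneg : HH eK (kk (1 - la ^ 3 * τ)) (kk (-1)) = 1 := by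
    have h1 := HH_cube_right (e := eK) (x := kk (1 - la ^ 3 * τ)) (y := 1) (s := -1) hA.ne_zero
      one_ne_zero (neg_ne_zero.2 one_ne_zero)
    have h2 : (1 : KK) * (-1) ^ 3 = kk (-1) := by
      rw [p15_kk_neg, p15_kk_one]
      norm_num
    rw [h2] at h1
    rw [h1]
    exact HH_one_right eK _
  have hunit : ∀ u : Eis, IsUnit u → HH eK (kk (1 - la ^ 3 * τ)) (kk u) = 1 := by
    have := eis_isDomain
    intro u hu
    obtain ⟨k, rfl | rfl⟩ := p15_units hu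
    · exact hpow om hom (p15_om τ) k
    · have e : -om ^ k = (-1 : Eis) * om ^ k := by ring
      rw [e]
      exact hmul _ _ (neg_ne_zero.2 one_ne_zero) (pow_ne_zero k hom) hneg (hpow om hom (p15_om τ) k)
  have := eis_isDomain
  obtain ⟨i, y', hy', rfl⟩ := p15_dec hy
  have hy0 : y' ≠ 0 := right_ne_zero_of_mul hy
  refine hmul _ _ (pow_ne_zero i la_prime.ne_zero) hy0 (hpow la la_prime.ne_zero (p15_la τ) i) ?_
  have h3 : ¬ (3 : ℤ) ∣ y'.norm := by
    intro h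
    have h4 : la ∣ ((y'.norm : ℤ) : Eis) := p15a_la_dvd_three.trans (p15a_three_dvd h)
    rw [← i4_mul_star] at h4
    rcases la_prime.dvd_or_dvd h4 with h5 | h5
    · exact hy' h5
    · have h6 := p15a_star_dvd h5
      rw [star_star, p15_star_la] at h6
      exact hy' ((Dvd.intro_left _ rfl).trans h6)
  obtain ⟨u, hu, hp⟩ := CM27.exists_primary y' h3
  obtain ⟨w, hw⟩ := hu
  have e : y' = ((w⁻¹ : Eisˣ) : Eis) * (u * y') := by
    rw [← hw, ← mul_assoc, Units.inv_mul, one_mul]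
  rw [e]
  exact hmul _ _ (w⁻¹).ne_zero (p15a_primary_ne hp) (hunit _ (w⁻¹).isUnit) (p15_prim τ _ hp)

/-- (5) **The product formula over `ℚ(ω)`.** -/
theorem PF_KK : PF eK := by
  intro x y hx hy
  obtain ⟨u, τ, hu, hxu⟩ := AdG_KK hx
  have hx0 := hx.ne_zero
  rw [← HH_cube_left (e := eK) hx0 hy hu, hxu]
  obtain ⟨a, b, hb, rfl⟩ := p15_frac y
  have hA := p15_adg τ
  have ha : a ≠ 0 := by
    rintro rfl
    apply hy
    simp [kk]
  have hkb := kk_ne hb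
  have h1 := p15_eis τ a ha
  have h2 := p15_eis τ b hb
  have h3 := HH_mul_right eK hA hkb (inv_ne_zero hkb)
  rw [mul_inv_cancel₀ hkb, HH_one_right, h2, one_mul] at h3
  rw [HH_mul_right eK hA (kk_ne ha) (inv_ne_zero hkb), h1, ← h3, one_mul]

end TH
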