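import Pool.Agent.MP_9ab903_nt.TH.Defs
import Pool.Agent.MP_ae0bd0_nt.CM.B5
import Pool.Agent.MP_ae0bd0_nt.B3.Z2

set_option autoImplicit false

open CM27
open scoped ComplexConjugate

namespace TH

/-! ## [TH-B1b] the Jacobi sum over an extension of the residue field (file TH/B1b.lean)

`b` primary prime, `r : ℤ[ω] → k` with `r b = 0`, `|k| = (N b)^f`. `χ` = the cubic character of `k` with `r ζ = a ^ ((|k| - 1)/3)` when `χ a = emb ζ` (the image of `r` contains the cube roots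
of unity of `k`; `kˣ` cyclic; or: take any character of order three and, if necessary, its inverse). `J(χ, χ) = - emb B`, `B` primary of norm `|k|` (`CM27.jacobi_primary`).
`b ∣ B`: `r(-B) = ∑_a (a (1 - a)) ^ ((|k| - 1)/3) = 0` (`b4_sum_pow`, degree `< |k| - 1`; compare the proof of `jacobi_split`). If `N b = p ≡ 1 mod 3` then `star b ∤ B`
(`CM27.jacobi_split` with `a = b`), and `B` divides a power of `p = b star b` (its norm is `p^f`), so `B ~ b^f`, and both are primary: `B = b^f`. If `b = - p`, `p ≡ 2 mod 3` (norm `p²`) then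
`N B = p^(2f)` gives `B ~ p^f` and `B = (-p)^f`. -/

theorem b1b_ker (b : Eis) (hb : Prime b) {k : Type} [Field k] (r : Eis →+* k) (hr : r b = 0)
    {x : Eis} (hx : r x = 0) : b ∣ x := by
  have := eis_isDomain
  have := eis_pid
  by_contra h
  have h1 : IsCoprime b x := (Irreducible.coprime_iff_not_dvd hb.irreducible).2 h
  obtain ⟨u, v, huv⟩ := h1
  have h2 := congrArg r huv
  rw [map_add, map_mul, map_mul, hr, hx, mul_zero, mul_zero, add_zero, map_one] at h2
  exact one_ne_zero h2.symm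

theorem b1b_om_ne (b : Eis) (hb : Prime b) (h3 : ¬ b ∣ 3) {k : Type} [Field k]
    (r : Eis →+* k) (hr : r b = 0) : r om ≠ 1 := by
  intro h
  have h1 : r la = 0 := by rw [la_eq, map_sub, map_one, h, sub_self]
  have h2 := b1b_ker b hb r hr h1
  apply h3
  rw [three_eq]
  exact Dvd.dvd.mul_left (h2.trans (dvd_pow_self la two_ne_zero)) _

theorem b1b_cube_cases {ζ : Eis} (h : ζ ^ 3 = 1) : ζ = 1 ∨ ζ = om ∨ ζ = om ^ 2 := by
  have := eis_isDomain
  have h1 : (ζ - 1) * ((ζ - om) * (ζ - om ^ 2)) = 0 := by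
    have h2 := om_cube
    have h4 := om_quad
    linear_combination h + (-ζ ^ 2 + ζ) * h4 + (ζ - 1) * h2
  rcases mul_eq_zero.1 h1 with h2 | h2
  · exact Or.inl (sub_eq_zero.1 h2)
  · rcases mul_eq_zero.1 h2 with h4 | h4
    · exact Or.inr (Or.inl (sub_eq_zero.1 h4))
    · exact Or.inr (Or.inr (sub_eq_zero.1 h4))

theorem b1b_emb_om : emb om = w := by
  rw [emb_apply]
  simp [om]

/-- the two primitive cube roots of unity -/
theorem b1b_roots {R : Type*} [CommRing R] [IsDomain R] {z o : R} (hz : z ^ 3 = 1) (hz1 : z ≠ 1)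
    (ho : o ^ 3 = 1) (ho1 : o ≠ 1) : z = o ∨ z = o ^ 2 := by
  have h1 : z ^ 2 + z + 1 = 0 := by
    have h2 : (z - 1) * (z ^ 2 + z + 1) = 0 := by linear_combination hz
    exact (mul_eq_zero.1 h2).resolve_left (sub_ne_zero.2 hz1)
  have h3 : o ^ 2 + o + 1 = 0 := by
    have h2 : (o - 1) * (o ^ 2 + o + 1) = 0 := by linear_combination ho
    exact (mul_eq_zero.1 h2).resolve_left (sub_ne_zero.2 ho1)
  have h4 : (z - o) * (z - o ^ 2) = 0 := by linear_combination h1 - z * h3 + ho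
  rcases mul_eq_zero.1 h4 with h5 | h5
  · exact Or.inl (sub_eq_zero.1 h5)
  · exact Or.inr (sub_eq_zero.1 h5)

/-- the cubic character -/
theorem b1b_chi (b : Eis) (hb : Prime b) (h3 : ¬ b ∣ 3) (k : Type) [Field k] [Fintype k]
    (r : Eis →+* k) (hr : r b = 0) (m : ℕ) (hm : 0 < m) (hk : Nat.card k = 3 * m + 1) :
    ∃ χ : MulChar k ℂ, orderOf χ = 3 ∧
      ∀ x : k, x ≠ 0 → ∃ n : ℕ, χ x = emb (om ^ n) ∧ x ^ m = r (om ^ n) := by
  obtain ⟨χ₀, hχ₀⟩ := exists_chi k (by omega : Nat.card k % 3 = 1)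
  obtain ⟨t, ht⟩ := IsCyclic.exists_generator (α := kˣ)
  have hto : orderOf t = 3 * m := by
    rw [orderOf_eq_card_of_forall_mem_zpowers ht, Nat.card_units, hk]
    omega
  have htp : ∀ x : kˣ, ∃ n : ℕ, t ^ n = x := by
    intro x
    have := mem_powers_iff_mem_zpowers.2 (ht x)
    exact this
  have hro := b1b_om_ne b hb h3 r hr
  have hro3 : r om ^ 3 = 1 := by rw [← map_pow, om_cube, map_one]
  -- the value of the power map at the generator
  have hg3 : ((t : k) ^ m) ^ 3 = 1 := by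
    have h4 : (t ^ m) ^ 3 = 1 := by
      rw [← pow_mul, ← orderOf_dvd_iff_pow_eq_one, hto, mul_comm m 3]
    have h5 := congrArg Units.val h4
    push_cast at h5
    exact h5
  have hg1 : (t : k) ^ m ≠ 1 := by
    intro h4
    have h5 : t ^ m = 1 := by
      apply Units.ext
      push_cast
      exact h4
    rw [← orderOf_dvd_iff_pow_eq_one, hto] at h5
    have := Nat.le_of_dvd hm h5
    omega
  -- the value of the character at the generator
  have hz3 : χ₀ (t : k) ^ 3 = 1 := by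
    have h4 : χ₀ ^ 3 = 1 := by rw [← hχ₀]; exact pow_orderOf_eq_one χ₀
    have h5 : (χ₀ ^ 3) (t : k) = 1 := by rw [h4]; exact MulChar.one_apply_coe t
    rwa [MulChar.pow_apply_coe] at h5
  have hz1 : χ₀ (t : k) ≠ 1 := by
    intro h4
    have h5 : χ₀ = 1 := by
      apply MulChar.ext
      intro x
      obtain ⟨n, rfl⟩ := htp x
      rw [MulChar.one_apply_coe]
      push_cast
      rw [map_pow, h4, one_pow]
    rw [h5, orderOf_one] at hχ₀
    omega
  -- a character with matching value at the generator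
  obtain ⟨χ, hχ, i, hi1, hi2⟩ : ∃ χ : MulChar k ℂ, orderOf χ = 3 ∧ ∃ i : ℕ,
      χ (t : k) = emb (om ^ i) ∧ (t : k) ^ m = r (om ^ i) := by
    have hinv : χ₀⁻¹ (t : k) = χ₀ (t : k) ^ 2 := by
      have h4 : χ₀⁻¹ = χ₀ ^ 2 := by
        have h5 : χ₀ ^ 2 * χ₀ = 1 := by
          rw [← pow_succ]
          have h6 := pow_orderOf_eq_one χ₀
          rwa [hχ₀] at h6
        exact inv_eq_of_mul_eq_one_left h5
      rw [h4, MulChar.pow_apply_coe]
    have hoi : orderOf χ₀⁻¹ = 3 := by rw [orderOf_inv, hχ₀]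
    rcases b1b_roots hg3 hg1 hro3 hro with h4 | h4 <;>
      rcases b1b_roots hz3 hz1 b3_w_cube b3_w_ne_one with h5 | h5
    · exact ⟨χ₀, hχ₀, 1, by rw [pow_one, b1b_emb_om, h5], by rw [pow_one, h4]⟩
    · refine ⟨χ₀⁻¹, hoi, 1, ?_, by rw [pow_one, h4]⟩
      rw [hinv, h5, pow_one, b1b_emb_om]
      linear_combination w * b3_w_cube
    · refine ⟨χ₀⁻¹, hoi, 2, ?_, by rw [map_pow, h4]⟩
      rw [hinv, h5, map_pow, b1b_emb_om]
    · exact ⟨χ₀, hχ₀, 2, by rw [map_pow, b1b_emb_om, h5], by rw [map_pow, h4]⟩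
  refine ⟨χ, hχ, fun x hx => ?_⟩
  obtain ⟨n, hn⟩ := htp (Units.mk0 x hx)
  have hxn : x = (t : k) ^ n := by
    have h4 := congrArg Units.val hn
    push_cast at h4
    exact h4.symm
  refine ⟨i * n, ?_, ?_⟩
  · rw [hxn, map_pow, hi1, ← map_pow, ← pow_mul]
  · rw [hxn, ← pow_mul, mul_comm n m, pow_mul, hi2, ← map_pow, ← pow_mul]

theorem b1b_sum (k : Type) [Field k] [Fintype k] (m : ℕ) (hm : 0 < m)
    (hk : Fintype.card k = 3 * m + 1) : ∑ x : k, x ^ m * (1 - x) ^ m = 0 := by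
  have h1 : ∀ x : k, x ^ m * (1 - x) ^ m =
      ∑ j ∈ Finset.range (m + 1), ((-1) ^ j * (m.choose j : k)) * x ^ (m + j) := by
    intro x
    have h2 : (1 - x) ^ m = (-x + 1) ^ m := by congr 1; ring
    rw [h2, add_pow, Finset.mul_sum]
    apply Finset.sum_congr rfl
    intro j _
    rw [one_pow, neg_pow, pow_add]
    ring
  simp_rw [h1]
  rw [Finset.sum_comm]
  simp_rw [← Finset.mul_sum]
  refine Finset.sum_eq_zero fun j hj => ?_
  rw [Finset.mem_range] at hj
  rw [FiniteField.sum_pow_lt_card_sub_one k (m + j) (by omega), mul_zero]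

theorem b1b_norm_cases (b : Eis) (hb : Prime b) (hp : Primary b) :
    (∃ p : ℕ, p.Prime ∧ p % 3 = 1 ∧ b.norm = p) ∨
      ∃ p : ℕ, p.Prime ∧ p % 3 = 2 ∧ b = -(p : Eis) := by
  rcases CMT.td5_classify b hb with ⟨p, h1, h2⟩ | ⟨q, h1, h2, v, h4, h5⟩
  · left
    refine ⟨p, h1, ?_, h2⟩
    have h6 := a3_primary_norm hp
    rw [h2] at h6
    omega
  · right
    refine ⟨q, h1, h2, ?_⟩
    have hprim : Primary (-(q : Eis)) := by
      rw [primary_iff, QuadraticAlgebra.re_neg, QuadraticAlgebra.im_neg,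
        QuadraticAlgebra.re_natCast, QuadraticAlgebra.im_natCast]
      constructor <;> omega
    have h6 : b = -v * -(q : Eis) := by rw [h5]; ring
    have h7 := primary_unique (-(q : Eis)) (-v) hprim h4.neg (by rw [← h6]; exact hp)
    rw [h6, h7, one_mul]

theorem jacobi_pow (b : Eis) (hb : Prime b) (h3 : ¬ b ∣ 3) (hp : Primary b) (k : Type) [Field k]
    [Fintype k] (r : Eis →+* k) (hr : r b = 0) (f : ℕ) (hf : 0 < f)
    (hk : Nat.card k = b.norm.natAbs ^ f) :
    ∃ χ : MulChar k ℂ, orderOf χ = 3 ∧ jacobiSum χ χ = -emb (b ^ f) ∧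
      ∀ (a : k) (ζ : Eis), a ≠ 0 → ζ ^ 3 = 1 → a ^ ((Nat.card k - 1) / 3) = r ζ → χ a = emb ζ := by
  have hnorm0 : 0 ≤ b.norm := norm_nonneg' b
  have hcast : ((b.norm.natAbs : ℕ) : ℤ) = b.norm := by
    rw [Int.natCast_natAbs, abs_of_nonneg hnorm0]
  have hmod : b.norm.natAbs % 3 = 1 := by
    have h4 := a3_primary_norm hp
    omega
  have hq3 : Nat.card k % 3 = 1 := by
    rw [hk, Nat.pow_mod, hmod, one_pow, Nat.one_mod]
  have hq1 : 1 < Nat.card k := Finite.one_lt_card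
  obtain ⟨m, hm⟩ : ∃ m, Nat.card k = 3 * m + 1 := ⟨Nat.card k / 3, by omega⟩
  have hm0 : 0 < m := by omega
  have hm' : (Nat.card k - 1) / 3 = m := by omega
  obtain ⟨χ, hχ, hval⟩ := b1b_chi b hb h3 k r hr m hm0 hm
  obtain ⟨B, hB, hBn, hJ⟩ := jacobi_primary k hq3 χ hχ
  -- `r B = 0`
  have hlift : ∀ x : k, ∃ c : Eis, emb c = χ x ∧ r c = x ^ m := by
    intro x
    by_cases hx : x = 0
    · subst hx
      refine ⟨0, ?_, ?_⟩
      · rw [map_zero, MulChar.map_zero]
      · rw [map_zero, zero_pow hm0.ne']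
    · obtain ⟨n, h1, h2⟩ := hval x hx
      exact ⟨om ^ n, h1.symm, h2.symm⟩
  choose c hc1 hc2 using hlift
  have hBc : B = - ∑ x : k, c x * c (1 - x) := by
    apply emb_injective
    rw [map_neg, map_sum]
    have h4 : jacobiSum χ χ = ∑ x : k, emb (c x * c (1 - x)) := by
      rw [jacobiSum]
      apply Finset.sum_congr rfl
      intro x _
      rw [map_mul, hc1, hc1]
    rw [← h4, hJ, neg_neg]
  have hrB : r B = 0 := by
    rw [hBc, map_neg, map_sum]
    have h4 : ∑ x : k, r (c x * c (1 - x)) = ∑ x : k, x ^ m * (1 - x) ^ m := by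
      apply Finset.sum_congr rfl
      intro x _
      rw [map_mul, hc2, hc2]
    rw [h4, b1b_sum k m hm0 (by rw [← Nat.card_eq_fintype_card]; exact hm), neg_zero]
  have hbB : b ∣ B := b1b_ker b hb r hr hrB
  -- `B = b ^ f`
  have hBb : B = b ^ f := by
    rcases b1b_norm_cases b hb hp with ⟨p, hpp, hp1, hn⟩ | ⟨p, hpp, hp2, hbp⟩
    · have hkp : Nat.card k = p ^ f := by
        rw [hk, hn, Int.natAbs_natCast]
      obtain ⟨i, hi, hBi⟩ := eq_pow_mul_pow p hpp b hp hn f B hB (by rw [hBn, hkp]; push_cast; rfl)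
      have hsp := jacobi_split p f hpp hp1 hf k hkp χ hχ b B hn hJ
      have hfi : f - i = 0 := by
        by_contra h4
        exact hsp ⟨hbB, by rw [hBi]; exact Dvd.dvd.mul_left (dvd_pow_self _ h4) _⟩
      have hfi' : i = f := by omega
      rw [hBi, hfi, pow_zero, mul_one, hfi']
    · have hn : b.norm = (p : ℤ) ^ 2 := by
        rw [hbp, norm_eq, QuadraticAlgebra.re_neg, QuadraticAlgebra.im_neg,
          QuadraticAlgebra.re_natCast, QuadraticAlgebra.im_natCast]
        ring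
      have hkp : (Nat.card k : ℤ) = (p : ℤ) ^ (2 * f) := by
        rw [hk, Nat.cast_pow, hcast, hn, ← pow_mul]
      obtain ⟨-, hBe⟩ := eq_neg_pow p hpp hp2 (2 * f) B hB (by rw [hBn, hkp])
      rw [hBe, Nat.mul_div_cancel_left f (by norm_num), hbp]
  refine ⟨χ, hχ, by rw [hJ, hBb], ?_⟩
  intro a ζ ha hζ haζ
  rw [hm'] at haζ
  obtain ⟨n, h1, h2⟩ := hval a ha
  rw [h1]
  congr 1
  -- `ζ = om ^ n`
  have hro := b1b_om_ne b hb h3 r hr
  have hro3 : r om ^ 3 = 1 := by rw [← map_pow, om_cube, map_one]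
  have hom3 : (om ^ n) ^ 3 = 1 := by rw [← pow_mul, mul_comm, pow_mul, om_cube, one_pow]
  have hξ3 : (ζ * (om ^ n) ^ 2) ^ 3 = 1 := by
    rw [mul_pow, hζ, one_mul, ← pow_mul, mul_comm 2 3, pow_mul, hom3, one_pow]
  have hrξ : r (ζ * (om ^ n) ^ 2) = 1 := by
    rw [map_mul, ← haζ, h2, map_pow r _ 2, ← pow_succ', ← map_pow, hom3, map_one]
  have hξ : ζ * (om ^ n) ^ 2 = 1 := by
    rcases b1b_cube_cases hξ3 with h4 | h4 | h4
    · exact h4
    · rw [h4] at hrξ
      exact absurd hrξ hro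
    · rw [h4, map_pow] at hrξ
      exfalso
      apply hro
      have h5 : r om ^ 3 = r om ^ 2 * r om := pow_succ _ _
      rw [hro3, hrξ, one_mul] at h5
      exact h5.symm
  calc om ^ n = (ζ * (om ^ n) ^ 2) * om ^ n := by rw [hξ, one_mul]
    _ = ζ * (om ^ n) ^ 3 := by ring
    _ = ζ := by rw [hom3, mul_one]

end TH
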