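import Pool.Agent.MP_9ab903_nt.TH.P15
import Pool.Agent.MP_9ab903_nt.TH.B0a
import Pool.Agent.MP_9ab903_nt.NAB.QR16

/-! ## [TH-B1c] the quadratic and the cubic symbol of `D' = 48 (4 - ω)` (file TH/B1c.lean)

`b` primary prime, not dividing `2`, `3`, `π`. `4 D' = 192 (4 - ω) = (- 4 λ)³ · (ω² π)` and `ω² π = 1 + 3 ω²` is a primary prime: `(4 D' / b)_3 = (ω² π / b)_3 = (b / π)_3`
(`cc_primes`, `cc_one_mod`) `≡ b² mod π` (`cs_pv`, `(7 - 1)/3 = 2`). `D' = (4 λ)² γ`, `γ = ω² (ω - 4) = 1 - 4 ω²`: quadratic reciprocity in `ℤ[ω]` (`NAB.RA_KK` with `q = eK γ`, `x = eK b`,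
`Adm`: `u = 1`, `Xg`, `chi` = completely multiplicative, `symb` at the places prime to `2`: square or not modulo the place): `(γ / b) = (b / γ) = (b / λ)(b / π)`,
`γ = - ω² λ π`, `b ≡ 1 mod λ`, `(b / π) ≡ b³ mod π`. (`(D'/b) = s` with `b ∣ D'^((N b - 1)/2) - s`.) Hence `s ζ b ≡ b⁶ ≡ 1 mod π`. -/

set_option autoImplicit false

open NumberField IsDedekindDomain
open CM27 CMT NAB CF TWR
open scoped Classical

namespace TH

theorem b1c_p7_norm : p7.norm = 7 := by decide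

theorem b1c_la_dvd_three : la ∣ 3 := by
  rw [three_eq]
  exact Dvd.dvd.mul_left (dvd_pow_self _ two_ne_zero) _

/-- Euler's criterion in `ℤ[ω]` -/
theorem b1c_euler (b : Eis) (hb : Prime b) (h2 : ¬ b ∣ 2) (a : Eis) (ha : ¬ b ∣ a) :
    ∃ s : ℤ, (s = 1 ∨ s = -1) ∧ symb (kk a) (pv b hb) = s ∧
      b ∣ a ^ (b.norm.natAbs / 2) - (s : Eis) := by
  have := (pv b hb).isMaximal
  let _ : Field (𝓞 KK ⧸ (pv b hb).asIdeal) := Ideal.Quotient.field (pv b hb).asIdeal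
  have := finite_quot (pv b hb)
  have h2' : (2 : 𝓞 KK) ∉ (pv b hb).asIdeal := by
    intro h
    apply h2
    rw [← mem_pv b hb, map_ofNat]
    exact h
  have ha' : eK a ∉ (pv b hb).asIdeal := fun h => ha ((mem_pv b hb a).1 h)
  have h2k : (2 : 𝓞 KK ⧸ (pv b hb).asIdeal) ≠ 0 := fun h3 => h2' ((two_quot _).1 h3)
  have hak : Ideal.Quotient.mk (pv b hb).asIdeal (eK a) ≠ 0 :=
    fun h3 => ha' (Ideal.Quotient.eq_zero_iff_mem.1 h3)
  have hcard : Nat.card (𝓞 KK ⧸ (pv b hb).asIdeal) = b.norm.natAbs := nv_pv b hb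
  have hs : symb (kk a) (pv b hb) =
      if IsSquare (Ideal.Quotient.mk (pv b hb).asIdeal (eK a)) then 1 else -1 :=
    symb_odd (eK a) (pv b hb) h2' ha'
  have h3 := isSquare_iff_pow (𝓞 KK ⧸ (pv b hb).asIdeal) h2k _ hak
  have h4 := pow_dichotomy (𝓞 KK ⧸ (pv b hb).asIdeal) h2k _ hak
  rw [hcard] at h3 h4
  by_cases h5 : IsSquare (Ideal.Quotient.mk (pv b hb).asIdeal (eK a))
  · refine ⟨1, Or.inl rfl, by rw [hs, if_pos h5], ?_⟩
    rw [← mem_pv b hb, map_sub, map_pow, ← Ideal.Quotient.eq_zero_iff_mem, map_sub, map_pow,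
      h3.1 h5]
    simp
  · refine ⟨-1, Or.inr rfl, by rw [hs, if_neg h5], ?_⟩
    rw [← mem_pv b hb, map_sub, map_pow, ← Ideal.Quotient.eq_zero_iff_mem, map_sub, map_pow,
      h4.resolve_left (fun h => h5 (h3.2 h))]
    simp

/-- Fermat's little theorem in `ℤ[ω]` -/
theorem b1c_fermat (b : Eis) (hb : Prime b) (a : Eis) (ha : ¬ b ∣ a) :
    b ∣ a ^ (b.norm.natAbs - 1) - 1 := by
  have ha' : eK a ∉ (pv b hb).asIdeal := fun h => ha ((mem_pv b hb a).1 h)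
  have h := pow_nv_sub_one (pv b hb) ha'
  rw [nv_pv] at h
  rw [← mem_pv b hb, map_sub, map_pow, map_one]
  exact h

theorem b1c_not_dvd_la {b : Eis} (h3 : ¬ b ∣ 3) : ¬ b ∣ la :=
  fun h => h3 (h.trans b1c_la_dvd_three)

/-- powers of `4 λ`: `(4 λ) ^ (N b - 1) ≡ 1` -/
theorem b1c_four_la (b : Eis) (hb : Prime b) (h2 : ¬ b ∣ 2) (h3 : ¬ b ∣ 3) :
    ¬ b ∣ 4 * la := by
  intro h
  rcases hb.dvd_or_dvd h with h4 | h4
  · have h5 : (4 : Eis) = 2 * 2 := by norm_num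
    rw [h5] at h4
    rcases hb.dvd_or_dvd h4 with h6 | h6 <;> exact h2 h6
  · exact b1c_not_dvd_la h3 h4

theorem b1c_norm_mod (b : Eis) (hb : Prime b) (h3 : ¬ b ∣ 3) : b.norm.natAbs % 3 = 1 := by
  have h := nv_mod eK (pv b hb) (by
    intro h
    apply h3
    rw [← mem_pv b hb, map_ofNat]
    exact h)
  rwa [nv_pv] at h

theorem b1c_norm_odd (b : Eis) (hb : Prime b) (h2 : ¬ b ∣ 2) : Odd b.norm.natAbs := by
  have := (pv b hb).isMaximal
  let _ : Field (𝓞 KK ⧸ (pv b hb).asIdeal) := Ideal.Quotient.field (pv b hb).asIdeal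
  have := finite_quot (pv b hb)
  have h2' : (2 : 𝓞 KK) ∉ (pv b hb).asIdeal := by
    intro h
    apply h2
    rw [← mem_pv b hb, map_ofNat]
    exact h
  have h2k : (2 : 𝓞 KK ⧸ (pv b hb).asIdeal) ≠ 0 := fun h3 => h2' ((two_quot _).1 h3)
  have h := odd_card (𝓞 KK ⧸ (pv b hb).asIdeal) h2k
  have hcard : Nat.card (𝓞 KK ⧸ (pv b hb).asIdeal) = b.norm.natAbs := nv_pv b hb
  rwa [hcard] at h

theorem b1c_qq : om ^ 2 * p7 = 1 + 3 * om ^ 2 := by decide

theorem b1c_four_D : 4 * (48 * (4 - om)) = (-(4 * la)) ^ 3 * (om ^ 2 * p7) := by decide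

theorem b1c_D : 48 * (4 - om) = (4 * la) ^ 2 * (1 - 4 * om ^ 2) := by decide

theorem b1c_ga : 1 - 4 * om ^ 2 = -om ^ 2 * (la * p7) := by decide

theorem b1c_om_unit : IsUnit om := IsUnit.of_mul_eq_one (om ^ 2) (by
  rw [← om_cube]; ring)

/-- cubic part -/
theorem cub_val (b : Eis) (hb : Prime b) (h2 : ¬ b ∣ 2) (h3 : ¬ b ∣ 3) (h7 : ¬ b ∣ p7)
    (hp : Primary b) : ∃ ζ : Eis, ζ ^ 3 = 1 ∧ p7 ∣ b ^ 2 - ζ ∧
      b ∣ (4 * (48 * (4 - om))) ^ ((b.norm.natAbs - 1) / 3) - ζ := by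
  set q : Eis := om ^ 2 * p7 with hq
  have hassoc : Associated p7 q := by
    refine ⟨b1c_om_unit.unit ^ 2, ?_⟩
    rw [hq, Units.val_pow_eq_pow_val, IsUnit.unit_spec]
    ring
  have hqp : Prime q := hassoc.prime p7_prime
  have hqprim : Primary q := ⟨om ^ 2, by rw [hq, b1c_qq]; ring⟩
  have hqn : q.norm.natAbs = 7 := by decide
  have hbq : ¬ b ∣ q := fun h => h7 (h.trans hassoc.symm.dvd)
  have hdom := eis_isDomain
  have hqb : ¬ q ∣ b := by
    intro h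
    exact hbq ((hqp.associated_of_dvd hb h).symm.dvd)
  have hq3 : ¬ q ∣ 3 := by
    rintro ⟨c, hc⟩
    have h := congrArg (fun x : Eis => x.norm) hc
    have h9 : (3 : Eis).norm = 9 := by decide
    have hq7 : q.norm = 7 := by decide
    simp only [map_mul, h9, hq7] at h
    omega
  set ζ : Eis := cs eK (pv b hb) (kk q) with hζ
  have h1 := cs_pv b hb h3 hbq
  have h4 : cc eK (kk b) (kk q) = 1 := cc_one_mod b q hp hqprim
  have h5 := cc_primes hb hqp h3 hq3 hbq hqb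
  rw [h4, one_mul] at h5
  have h6 := cs_pv q hqp hq3 hqb
  rw [← h5, hqn] at h6
  have hζ3 : ζ ^ 3 = 1 := by
    refine cs_pow_three eK (pv b hb) ⟨kk_ne hqp.ne_zero, Or.inl ⟨?_, ?_⟩⟩
    · intro h
      apply h3
      rw [← mem_pv b hb, map_ofNat]
      exact h
    · exact t3_unit (pv b hb) (fun h => hbq ((mem_pv b hb q).1 h))
  refine ⟨ζ, hζ3, ?_, ?_⟩
  · exact hassoc.dvd.trans (by simpa using h6)
  · have h7 : (4 * (48 * (4 - om))) ^ ((b.norm.natAbs - 1) / 3) - ζ =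
        ((-(4 * la)) ^ (b.norm.natAbs - 1) - 1) * q ^ ((b.norm.natAbs - 1) / 3) +
          (q ^ ((b.norm.natAbs - 1) / 3) - ζ) := by
      have h8 : b.norm.natAbs - 1 = 3 * ((b.norm.natAbs - 1) / 3) := by
        have := b1c_norm_mod b hb h3
        omega
      rw [b1c_four_D, mul_pow, ← pow_mul, ← h8]
      ring
    rw [h7]
    refine dvd_add (Dvd.dvd.mul_right ?_ _) h1
    apply b1c_fermat b hb
    rw [dvd_neg]
    exact b1c_four_la b hb h2 h3

/-- quadratic part -/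
theorem quad_val (b : Eis) (hb : Prime b) (h2 : ¬ b ∣ 2) (h3 : ¬ b ∣ 3) (h7 : ¬ b ∣ p7)
    (hp : Primary b) : ∃ s : Eis, (s = 1 ∨ s = -1) ∧ p7 ∣ b ^ 3 - s ∧
      b ∣ (48 * (4 - om)) ^ ((b.norm.natAbs - 1) / 2) - s := by
  have hdom := eis_isDomain
  set γ : Eis := 1 - 4 * om ^ 2 with hγ
  have hγ0 : γ ≠ 0 := by decide
  have hb0 : b ≠ 0 := hb.ne_zero
  have hbla : ¬ b ∣ la := b1c_not_dvd_la h3
  have hlab : ¬ la ∣ b := fun h => hbla (la_prime.associated_of_dvd hb h).symm.dvd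
  have hp7b : ¬ p7 ∣ b := fun h => h7 (p7_prime.associated_of_dvd hb h).symm.dvd
  have hbγ : ¬ b ∣ γ := by
    rw [hγ, b1c_ga]
    intro h
    rcases hb.dvd_or_dvd h with h4 | h4
    · exact hb.not_isUnit (isUnit_of_dvd_unit h4 (b1c_om_unit.pow 2).neg)
    · rcases hb.dvd_or_dvd h4 with h5 | h5
      · exact hbla h5
      · exact h7 h5
  have hcop : Cop (eK γ) (eK b) := by
    intro v hv hv'
    obtain ⟨c, hc, rfl⟩ := exists_pv v
    rw [mem_pv] at hv hv'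
    exact hbγ ((hc.associated_of_dvd hb hv').symm.dvd.trans hv)
  have hadm : Adm (eK γ) := ⟨1, eK (om ^ 2), one_ne_zero, by
    rw [one_pow, mul_one, hγ, map_sub, map_one, map_mul, map_ofNat]⟩
  have hinj : Function.Injective eK := eK_bij.1
  have hne : ∀ {a : Eis}, a ≠ 0 → eK a ≠ 0 := fun ha h => ha (hinj (by rw [h, map_zero]))
  have hRA := RA_KK (eK γ) (eK b) (hne hγ0) (hne hb0) hcop hadm (Or.inl trivial)
  -- the two symbols
  obtain ⟨s, hs, hs1, hs2⟩ := b1c_euler b hb h2 γ hbγ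
  have hp72 : ¬ p7 ∣ 2 := by
    rintro ⟨c, hc⟩
    have h := congrArg (fun x : Eis => x.norm) hc
    have h9 : (2 : Eis).norm = 4 := by decide
    have hq7 : p7.norm = 7 := by decide
    simp only [map_mul, h9, hq7] at h
    omega
  have hla2 : ¬ la ∣ 2 := by
    rintro ⟨c, hc⟩
    have h := congrArg (fun x : Eis => x.norm) hc
    have h9 : (2 : Eis).norm = 4 := by decide
    have hq7 : la.norm = 3 := by decide
    simp only [map_mul, h9, hq7] at h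
    omega
  obtain ⟨s', hs', hs1', hs2'⟩ := b1c_euler p7 p7_prime hp72 b hp7b
  have hla1 : symb (kk b) (pv la la_prime) = 1 := by
    have h4 : (2 : 𝓞 KK) ∉ (pv la la_prime).asIdeal := by
      intro h
      apply hla2
      rw [← mem_pv la la_prime, map_ofNat]
      exact h
    have h5 : eK b ∉ (pv la la_prime).asIdeal := fun h => hlab ((mem_pv la la_prime b).1 h)
    have h6 : eK b - 1 ∈ (pv la la_prime).asIdeal := by
      have h7 : la ∣ b - 1 := b1c_la_dvd_three.trans hp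
      rw [← mem_pv la la_prime, map_sub, map_one] at h7
      exact h7
    have h7 := symb_congr_odd (eK b) 1 (pv la la_prime) h4 h5 h6
    have h8 := symb_square (1 : 𝓞 KK) one_ne_zero (pv la la_prime)
    rw [one_pow] at h8
    exact h7.trans h8
  have hX1 : Xg (eK γ) (eK b) = s := (cm_prime _ (pv b hb)).trans hs1
  have hX2 : Xg (eK b) (eK γ) = s' := by
    rw [hγ, b1c_ga, map_mul, map_mul, Xg_mul_right, Xg_mul_right,
      Xg_unit _ _ (((b1c_om_unit.pow 2).neg).map eK), one_mul]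
    have h4 : Xg (eK b) (eK la) = 1 := (cm_prime _ (pv la la_prime)).trans hla1
    have h5 : Xg (eK b) (eK p7) = s' := (cm_prime _ (pv p7 p7_prime)).trans hs1'
    rw [h4, h5, one_mul]
  have hss : s = s' := by rw [← hX1, ← hX2, hRA]
  refine ⟨(s : Eis), ?_, ?_, ?_⟩
  · rcases hs with rfl | rfl
    · left; norm_num
    · right; norm_num
  · rw [hss]
    simpa [b1c_p7_norm] using hs2'
  · have hodd := b1c_norm_odd b hb h2
    have h8 : b.norm.natAbs - 1 = 2 * ((b.norm.natAbs - 1) / 2) := by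
      rw [Nat.odd_iff] at hodd
      omega
    have h9 : (b.norm.natAbs - 1) / 2 = b.norm.natAbs / 2 := by
      rw [Nat.odd_iff] at hodd
      omega
    have h10 : (48 * (4 - om)) ^ ((b.norm.natAbs - 1) / 2) - (s : Eis) =
        ((4 * la) ^ (b.norm.natAbs - 1) - 1) * γ ^ ((b.norm.natAbs - 1) / 2) +
          (γ ^ ((b.norm.natAbs - 1) / 2) - (s : Eis)) := by
      rw [b1c_D, mul_pow, ← pow_mul, ← h8]
      ring
    rw [h10]
    refine dvd_add (Dvd.dvd.mul_right ?_ _) ?_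
    · exact b1c_fermat b hb _ (b1c_four_la b hb h2 h3)
    · rw [h9]
      exact hs2

theorem psi_val (b : Eis) (hb : Prime b) (h2 : ¬ b ∣ 2) (h3 : ¬ b ∣ 3) (h7 : ¬ b ∣ p7)
    (hp : Primary b) : ∃ s ζ : Eis, (s = 1 ∨ s = -1) ∧ ζ ^ 3 = 1 ∧ p7 ∣ s * ζ * b - 1 ∧
      b ∣ (48 * (4 - om)) ^ ((b.norm.natAbs - 1) / 2) - s ∧
      b ∣ (4 * (48 * (4 - om))) ^ ((b.norm.natAbs - 1) / 3) - ζ := by
  obtain ⟨s, hs, hs1, hs2⟩ := quad_val b hb h2 h3 h7 hp
  obtain ⟨ζ, hζ, hζ1, hζ2⟩ := cub_val b hb h2 h3 h7 hp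
  refine ⟨s, ζ, hs, hζ, ?_, hs2, hζ2⟩
  obtain ⟨c, hc⟩ := hs1
  obtain ⟨d, hd⟩ := hζ1
  have hss : s ^ 2 = 1 := by rcases hs with rfl | rfl <;> ring
  refine ⟨(b ^ 3 + s) * c - c * ζ * b - b ^ 3 * b * d, ?_⟩
  linear_combination (b ^ 3 + s - ζ * b) * hc - b ^ 3 * b * hd + hss

end TH
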