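import Pool.Agent.MP_9ab903_nt.TH.P13
import Pool.Agent.MP_ae0bd0_nt.B3.Z3
import Pool.Agent.MP_ae0bd0_nt.B3.Z4

set_option autoImplicit false

open NumberField IsDedekindDomain
open CM27 CMT NAB CF TWR
open scoped Classical ComplexConjugate

namespace TH

/-! ## [TH-P14a] the cubic residue character and rational reciprocity (file TH/P14a.lean)

`b` prime and primary (`b ≡ 1 mod 3`), `k = ℤ[ω] / b`, `q = N b` elements, `q ≡ 1 mod 3`. `χ_b(a) = emb (cs_b a)` is a multiplicative character of order `3`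
(`a ^ ((q - 1)/3)` with values in the cube roots of unity of `k`, a cyclic group of order `q - 1`). By `CM27.jacobi_primary`, `J(χ, χ) = - emb b'` with `b'` primary of norm `q`.
`b ∣ b'`: in `ℤ[ω] / b`: `- b' ≡ ∑_a (a (1 - a)) ^ ((q - 1)/3) = 0` (degree `2 (q-1)/3 < q - 1`, `FiniteField.sum_pow_lt_card_sub_one`), here all the values `χ(a)` are in the
image of `emb` and `emb` is injective. So `b' = b u`, `N u = 1`, `u` a unit `≡ 1 mod 3`, `u = 1`.
`cc_rat`: `BS3.recip_split`, `BS3.recip_inert`: `χ_b(ℓ) = kap ℓ b`; `ℓ ≡ 2 mod 3`: `ℓ` is prime in `ℤ[ω]`, `kap ℓ b = emb (cs_ℓ(b))` (`BS3.kap_eq`, `IsCub`), use `cc_primes`.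
`ℓ ≡ 1 mod 3`: `ℓ = β star β`, `kap ℓ b = emb (cs_β(b) cs_(star β)(b))`: with `k = (ℓ-1)/3`: `b ^ k ≡ e (star b) ^ k` modulo `β` and modulo `star β`
(`star b ^ k ≡ star (cs_(star β) b) mod β` by conjugation, and `z star z = 1` for cube roots of unity); `cc_primes` for `β` and `star β`, `cc_mul_right`. -/

theorem p14a_mod {b : Eis} (hb : Prime b) (h3 : ¬ b ∣ 3) : b.norm.natAbs % 3 = 1 := by
  have h := nv_mod eK (pv b hb) (p13_three h3)
  rwa [nv_pv] at h

theorem p14a_card (k : Type) [Field k] (r : Eis →+* k) (hr : Function.Surjective r)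
    (b : Eis) (hk : ∀ a, r a = 0 ↔ b ∣ a) : Nat.card k = b.norm.natAbs := by
  rw [← p4_card b]
  have h1 : Ideal.span {b} = RingHom.ker r := by
    ext x
    rw [Ideal.mem_span_singleton, RingHom.mem_ker, hk]
  refine (Nat.card_congr ((Ideal.quotEquivOfEq h1).trans
    (RingHom.quotientKerEquivOfSurjective hr)).toEquiv).symm

section
variable {k : Type} [Field k] {r : Eis →+* k} {b : Eis} {hb : Prime b}

theorem p14a_r (h3 : ¬ b ∣ 3) (hk : ∀ a, r a = 0 ↔ b ∣ a) {a : Eis} (ha : ¬ b ∣ a) :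
    r (cs eK (pv b hb) (kk a)) = r a ^ ((b.norm.natAbs - 1) / 3) := by
  have h := (hk _).2 (cs_pv b hb h3 ha)
  rw [map_sub, map_pow, sub_eq_zero] at h
  exact h.symm

theorem p14a_congr (h3 : ¬ b ∣ 3) (hk : ∀ a, r a = 0 ↔ b ∣ a) {a a' : Eis} (ha : ¬ b ∣ a)
    (h : r a = r a') : cs eK (pv b hb) (kk a') = cs eK (pv b hb) (kk a) := by
  have ha' : ¬ b ∣ a' := by
    rw [← hk, ← h, hk]
    exact ha
  refine cs_pv_eq b hb h3 ha' (cs_pow_three eK _ (p13_cd h3 ha)) ?_
  rw [← hk, map_sub, map_pow, ← h, p14a_r h3 hk ha, sub_self]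

theorem p14a_mul (h3 : ¬ b ∣ 3) {a a' : Eis} (ha : ¬ b ∣ a) (ha' : ¬ b ∣ a') :
    cs eK (pv b hb) (kk (a * a')) = cs eK (pv b hb) (kk a) * cs eK (pv b hb) (kk a') := by
  have h : kk (a * a') = kk a * kk a' := by
    change ((eK (a * a') : 𝓞 KK) : KK) = _
    rw [map_mul eK]
    exact map_mul (algebraMap (𝓞 KK) KK) _ _
  rw [h, cs_mul eK _ (p13_cd h3 ha) (p13_cd h3 ha')]

theorem p14a_one : cs eK (pv b hb) (kk 1) = 1 := by
  have h : kk 1 = 1 := by
    change ((eK 1 : 𝓞 KK) : KK) = _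
    rw [map_one eK]
    exact map_one (algebraMap (𝓞 KK) KK)
  rw [h, cs_one]

end

/-- a finite field `k` with a surjection `ℤ[ω] → k` with kernel `b`: the cubic residue character and its Jacobi sum -/
theorem exists_chi (k : Type) [Field k] [Fintype k] (r : Eis →+* k) (hr : Function.Surjective r)
    (b : Eis) (hb : Prime b) (h3 : ¬ b ∣ 3) (hp : Primary b) (hk : ∀ a, r a = 0 ↔ b ∣ a) :
    ∃ χ : MulChar k ℂ, orderOf χ = 3 ∧
      (∀ a : Eis, ¬ b ∣ a → χ (r a) = emb (cs eK (pv b hb) (kk a))) ∧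
      jacobiSum χ χ = -emb b := by
  have hcard := p14a_card k r hr b hk
  have hmod := p14a_mod hb h3
  have hq : 1 < Nat.card k := Finite.one_lt_card
  set m : ℕ := (b.norm.natAbs - 1) / 3 with hm
  have hm3 : 3 * m = Nat.card k - 1 := by omega
  have hm0 : 0 < m := by omega
  -- the values
  set s : k → Eis := Function.surjInv hr with hs
  have hrs : ∀ x, r (s x) = x := Function.surjInv_eq hr
  have hbs : ∀ {x : k}, x ≠ 0 → ¬ b ∣ s x := by
    intro x hx h
    rw [← hk, hrs] at h
    exact hx h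
  set c : k → Eis := fun x => if x = 0 then 0 else cs eK (pv b hb) (kk (s x)) with hc
  have hc0 : c 0 = 0 := by simp only [hc, if_pos rfl]
  have hcne : ∀ {x : k}, x ≠ 0 → c x = cs eK (pv b hb) (kk (s x)) := by
    intro x hx
    simp only [hc, if_neg hx]
  have hcr : ∀ a : Eis, ¬ b ∣ a → c (r a) = cs eK (pv b hb) (kk a) := by
    intro a ha
    have h0 : r a ≠ 0 := fun h => ha ((hk a).1 h)
    rw [hcne h0]
    exact p14a_congr h3 hk ha (hrs _).symm
  have hc1 : c 1 = 1 := by
    have h1 : ¬ b ∣ 1 := fun h => hb.not_isUnit (isUnit_of_dvd_one h)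
    have h2 := hcr 1 h1
    rw [map_one] at h2
    rw [h2, p14a_one]
  have hcm : ∀ x y, c (x * y) = c x * c y := by
    intro x y
    by_cases hx : x = 0
    · rw [hx, zero_mul, hc0, zero_mul]
    by_cases hy : y = 0
    · rw [hy, mul_zero, hc0, mul_zero]
    have h1 : ¬ b ∣ s x * s y := by
      intro h
      rcases hb.dvd_or_dvd h with h | h
      · exact hbs hx h
      · exact hbs hy h
    have h2 := hcr _ h1
    rw [map_mul, hrs, hrs] at h2
    rw [h2, p14a_mul h3 (hbs hx) (hbs hy), hcne hx, hcne hy]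
  have hcp : ∀ x, r (c x) = x ^ m := by
    intro x
    by_cases hx : x = 0
    · rw [hx, hc0, map_zero, zero_pow hm0.ne']
    · rw [hcne hx, p14a_r h3 hk (hbs hx), hrs]
  have hc3 : ∀ {x : k}, x ≠ 0 → c x ^ 3 = 1 := by
    intro x hx
    rw [hcne hx, cs_pow_three eK _ (p13_cd h3 (hbs hx))]
  -- the character
  let χ : MulChar k ℂ :=
    { toFun := fun x => emb (c x)
      map_one' := by rw [hc1, map_one]
      map_mul' := fun x y => by rw [hcm, map_mul]
      map_nonunit' := fun x hx => by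
        have hx0 : x = 0 := by
          by_contra h
          exact hx (isUnit_iff_ne_zero.2 h)
        rw [hx0]
        change emb (c 0) = 0
        rw [hc0, map_zero] }
  have hχ : ∀ x, χ x = emb (c x) := fun x => rfl
  have hord : orderOf χ = 3 := by
    refine orderOf_eq_prime ?_ ?_
    · ext x
      rw [MulChar.pow_apply_coe, hχ, ← map_pow, hc3 x.ne_zero, map_one, MulChar.one_apply_coe]
    · intro h1
      obtain ⟨g, hg⟩ := IsCyclic.exists_ofOrder_eq_natCard (α := kˣ)
      have h2 : c g = 1 := by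
        apply emb_injective
        rw [← hχ, h1, MulChar.one_apply_coe, map_one]
      have h3' := hcp g
      rw [h2, map_one] at h3'
      have h4 : g ^ m = 1 := by
        apply Units.ext
        rw [Units.val_pow_eq_pow_val, ← h3', Units.val_one]
      have h5 := orderOf_dvd_of_pow_eq_one h4
      rw [hg, Nat.card_units, ← hm3] at h5
      have h6 := Nat.le_of_dvd hm0 h5
      omega
  refine ⟨χ, hord, fun a ha => ?_, ?_⟩
  · rw [hχ, hcr a ha]
  obtain ⟨b', hb'1, hb'2, hb'3⟩ := jacobi_primary k (by rw [hcard]; exact hmod) χ hord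
  -- the Jacobi sum modulo `b`
  have hJ : -b' = ∑ x : k, c x * c (1 - x) := by
    apply emb_injective
    rw [map_neg, ← hb'3, jacobiSum, map_sum]
    refine Finset.sum_congr rfl fun x _ => ?_
    rw [hχ, hχ, map_mul]
  have hJ2 : r b' = 0 := by
    have h1 := congrArg r hJ
    rw [map_neg, map_sum] at h1
    have h2 : ∑ x : k, r (c x * c (1 - x)) = 0 := by
      have h5 : ∀ x : k, r (c x * c (1 - x)) =
          ∑ j ∈ Finset.range (m + 1), ((-1) ^ j * (m.choose j : k)) * x ^ (m + j) := by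
        intro x
        rw [map_mul, hcp, hcp, sub_eq_add_neg, add_comm, add_pow, Finset.mul_sum]
        refine Finset.sum_congr rfl fun j _ => ?_
        rw [one_pow, neg_pow, pow_add]
        ring
      rw [Finset.sum_congr rfl fun x _ => h5 x, Finset.sum_comm]
      refine Finset.sum_eq_zero fun j hj => ?_
      rw [← Finset.mul_sum, FiniteField.sum_pow_lt_card_sub_one k (m + j) ?_, mul_zero]
      rw [← Nat.card_eq_fintype_card, ← hm3]
      have := Finset.mem_range.1 hj
      omega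
    rw [h2, neg_eq_zero] at h1
    exact h1
  obtain ⟨d, hd⟩ := (hk b').1 hJ2
  have hN : d.norm = 1 := by
    have h1 : b.norm * d.norm = b.norm := by
      rw [← map_mul, ← hd, hb'2, hcard, Int.natAbs_of_nonneg (norm_nonneg' b)]
    have h2 : b.norm ≠ 0 := by
      intro h0
      rw [h0] at hmod
      simp at hmod
    exact mul_left_cancel₀ h2 (by rw [h1, mul_one])
  have hd1 : d = 1 := primary_unique b d hp ((eis_isUnit_iff d).2 hN) (by rw [mul_comm, ← hd]; exact hb'1)
  rw [hb'3, hd, hd1, mul_one]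

theorem exists_residue (b : Eis) (hb : Prime b) : ∃ (k : Type) (_ : Field k) (_ : Fintype k)
    (r : Eis →+* k), Function.Surjective r ∧ (∀ a, r a = 0 ↔ b ∣ a) ∧
    Nat.card k = b.norm.natAbs := by
  have := eis_isDomain
  have := eis_pid
  have hp : (Ideal.span {b} : Ideal Eis).IsPrime := (Ideal.span_singleton_prime hb.ne_zero).2 hb
  have hmax : (Ideal.span {b} : Ideal Eis).IsMaximal :=
    PrincipalIdealRing.isMaximal_of_irreducible hb.irreducible
  have hne : b.norm.natAbs ≠ 0 := by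
    rw [Int.natAbs_ne_zero]
    exact (a1_norm_pos hb.ne_zero).ne'
  have hfin : Finite (Eis ⧸ Ideal.span {b}) := by
    rw [← p4_card b] at hne
    exact Nat.finite_of_card_ne_zero hne
  refine ⟨Eis ⧸ Ideal.span {b}, Ideal.Quotient.field _, Fintype.ofFinite _,
    Ideal.Quotient.mk _, Ideal.Quotient.mk_surjective, fun a => ?_, p4_card b⟩
  rw [Ideal.Quotient.eq_zero_iff_mem, Ideal.mem_span_singleton]

/-- primary primes: a normal form of the primes prime to `3` -/
theorem exists_primary (b : Eis) (hb : Prime b) (h3 : ¬ b ∣ 3) :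
    ∃ b' : Eis, Prime b' ∧ Primary b' ∧ Associated b b' := by
  have hmod := p14a_mod hb h3
  obtain ⟨u, hu, hu2⟩ := CM27.exists_primary b (by omega)
  have h1 : Associated b (u * b) := ⟨hu.unit, by rw [IsUnit.unit_spec, mul_comm]⟩
  exact ⟨u * b, h1.prime hb, hu2, h1⟩

end TH
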