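import Pool.Agent.MP_9ab903_nt.TH.C0
import Pool.Agent.MP_9ab903_nt.NAB.A10

/-!
# [NG3-C2a], [NG3-C2] multiplication by `λ = 1 - ω` on `y² = 4 x³ + 1` and `E1`

Coordinates `xw`, `yw` (`weq : y² = 4x³ + 1`), `xw (w z) = w xw z`, `yw (w z) = yw z` (`xw_w`, `yw_w`, AN/A4).  `add_x`, `add_y` (AN/A4) for
`(ω z, λ z)`: `ω z + λ z = z`, and `x(z) ≠ x(ωz) = ω x(z)` iff `x(z) ≠ 0`.

* `xw_ne`: if `xw z = 0` then `pt (w z) = pt z` (same coordinates; `pt_of_not_mem`, or both `.some` equal), so `z - w z = λ z ∈ O` (`pt_eq_iff`).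
* `xw_la`: `add_x (w z) (λ z)`: `x(λz) = (2y / (λx))² / 4 - x - ωx = y²/(λ²x²) + ω² x = (x³ + 1)/(λ² x²)` (`ω²λ² = -3`).
* `yw_la`: `add_y (w z) (λ z)`: `y(λz) = -(y + (2y/(λx)) (x(λz) - x)) = y (x³ - 2)/(λ³ x³)`.
* `xw_two'`, `yw_two'`: `x(2z) = -2x + (3x²/y)² = (x⁴ - 2x)/y²`, `y(2z) = (2x⁶ + 10x³ - 1)/y³` (in AN there is `xw_two`; or `pt_add`/`a7_pt_zsmul` and the
  duplication formula; or `add_x`, `add_y` for `z + z` replaced by a limit: not needed).
* `E1_w`: in `E1 z = π ∫ Tk 1 u z du`: `conj (w z + w a) = conj w · conj (z + a)`, `|w| = 1`, reindex `a ↦ w a` (`a1_om`, `a1_emb_mul`): `E1 (w z) = conj w · E1 z`,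
  `conj w = w²`. `E1_unit`: the units are `± w^i`, `E1_neg`.
* `E1_la` (odd order, prime to `λ`): `D z = E1 (λz) + ω²λ E1 z - OmC · slope z`, `slope z = y/(λx)`. `E1_two` at `z` and `λz`, `lam_eq`:
  `D (2z) - 2 D z = OmC (lx (λz) + ω²λ lx z - slope (2z) + 2 slope z) = 0` by the identity (multiply by `λxy(x³-2)`, `t = x³`):
  `2t² + 10t - 1 - 2(4t+1)(t-2) = 3(t+1)² - 9t(t-2)` (`ω²λ² = -3`). Then `D (2^k z) = 2^k D z`, `2^k z = z + a` (`a10_data`), `D` is periodic: `D z = 0`.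
-/

set_option autoImplicit false

open NumberField IsDedekindDomain MeasureTheory Set
open CM27 CMT CF NAB NG
open scoped ComplexConjugate Classical Matrix

namespace TH

theorem emb_la : emb la = 1 - w := by
  rw [emb_apply, la]
  push_cast
  ring

theorem w_cube : w ^ 3 = 1 := by
  exact a1_w3

theorem w_quad : w ^ 2 + w + 1 = 0 := by
  have h := w_sq
  linear_combination h

theorem la_sq : w ^ 2 * emb la ^ 2 = -3 := by
  rw [emb_la]
  have h3 := w_cube
  have h := w_quad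
  linear_combination (w - 2) * h3 + h

/-- a torsion point of order prime to `3` -/
theorem la_not_mem (N : ℕ) (hN : ¬ 3 ∣ N) (z : ℂ) (hz : (N : ℂ) * z ∈ Set.range emb)
    (hz0 : z ∉ Set.range emb) : emb la * z ∉ Set.range emb := by
  rintro ⟨a, ha⟩
  have h1 : Nat.Coprime N 3 := (Nat.Coprime.symm ((Nat.Prime.coprime_iff_not_dvd Nat.prime_three).2 hN))
  apply a9_cop N 3 h1 z hz hz0
  refine ⟨-(om ^ 2 * la) * a, ?_⟩
  have h2 := la_sq
  have h3 : emb om = w := a1_emb_om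
  rw [map_mul, ha, map_neg, map_mul, map_pow, h3]
  push_cast
  linear_combination (-z) * h2

theorem c2a_off (z : ℂ) (hz : emb la * z ∉ Set.range emb) : z ∉ Set.range emb := by
  rintro ⟨a, rfl⟩
  exact hz ⟨la * a, map_mul _ _ _⟩

theorem c2a_w_ne : (1 : ℂ) - w ≠ 0 := by
  intro h
  have h1 : w = 1 := by linear_combination -h
  have h2 := w_quad
  rw [h1] at h2
  norm_num at h2

theorem xw_ne (z : ℂ) (hz : emb la * z ∉ Set.range emb) : xw z ≠ 0 := by
  intro h0
  have hz1 : z ∉ Set.range emb := c2a_off z hz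
  have hwz : w * z ∉ Set.range emb := fun h => hz1 ((a6_mem_w z).1 h)
  obtain ⟨p1, p2⟩ := pt_of_not_mem z hz1
  obtain ⟨p3, p4⟩ := pt_of_not_mem (w * z) hwz
  have h1 : pt z = pt (w * z) := by
    rw [p2, p4]
    exact a4_some_congr _ _ (by rw [xw_w, h0, mul_zero]) (by rw [yw_w])
  have h2 := (pt_eq_iff z (w * z)).1 h1
  apply hz
  rw [emb_la]
  have h3 : (1 - w) * z = z - w * z := by ring
  rw [h3]
  exact h2

theorem xw_la (z : ℂ) (hz : emb la * z ∉ Set.range emb) :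
    xw (emb la * z) = (xw z ^ 3 + 1) / (emb la ^ 2 * xw z ^ 2) := by
  have hz1 : z ∉ Set.range emb := c2a_off z hz
  have hwz : w * z ∉ Set.range emb := fun h => hz1 ((a6_mem_w z).1 h)
  have hx0 := xw_ne z hz
  have h1w := c2a_w_ne
  have hsum : w * z + emb la * z = z := by
    rw [emb_la]
    ring
  have hx : xw (w * z + emb la * z) ≠ xw (w * z) := by
    rw [hsum, xw_w]
    intro h
    apply mul_ne_zero h1w hx0
    linear_combination h
  have hw := weq z hz1
  have hq := w_quad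
  have h := add_x (w * z) (emb la * z) hwz hz (by rw [hsum]; exact hz1) hx
  rw [hsum, xw_w, yw_w] at h
  rw [← h, emb_la]
  have e1 : xw z - w * xw z = (1 - w) * xw z := by ring
  rw [e1]
  field_simp
  linear_combination 4 * hw + (4 * xw z ^ 3 * (2 - w)) * hq

theorem yw_la (z : ℂ) (hz : emb la * z ∉ Set.range emb) :
    yw (emb la * z) = yw z * (xw z ^ 3 - 2) / (emb la ^ 3 * xw z ^ 3) := by
  have hz1 : z ∉ Set.range emb := c2a_off z hz
  have hwz : w * z ∉ Set.range emb := fun h => hz1 ((a6_mem_w z).1 h)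
  have hx0 := xw_ne z hz
  have h1w := c2a_w_ne
  have hsum : w * z + emb la * z = z := by
    rw [emb_la]
    ring
  have hx : xw (w * z + emb la * z) ≠ xw (w * z) := by
    rw [hsum, xw_w]
    intro h
    apply mul_ne_zero h1w hx0
    linear_combination h
  have hw := weq z hz1
  have hq := w_quad
  have hxl := xw_la z hz
  have h := add_y (w * z) (emb la * z) hwz hz (by rw [hsum]; exact hz1) hx
  rw [hsum, xw_w, yw_w] at h
  rw [← h, hxl, emb_la]
  have e1 : xw z - w * xw z = (1 - w) * xw z := by ring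
  rw [e1]
  field_simp
  linear_combination (yw z * xw z ^ 3 * (w - 2)) * hq

theorem xw_two' (z : ℂ) (hz : Off z) : xw (2 * z) = -2 * xw z + lx z ^ 2 := by
  have h2z : 2 * z ∉ Set.range emb := hz
  have hz1 : z ∉ Set.range emb := by
    rintro ⟨a, ha⟩
    exact h2z ⟨2 * a, by rw [map_mul, ha, map_ofNat]⟩
  have hy : yw z ≠ 0 := fun h => h2z ((yw_eq_zero_iff z hz1).1 h)
  have hw := weq z hz1
  have h := xw_two z hz
  rw [← hw] at h
  rw [lx]
  have h3 : xw (2 * z) = xw z * (xw z ^ 3 - 2) / yw z ^ 2 := by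
    rw [eq_div_iff (pow_ne_zero 2 hy)]
    exact h
  rw [h3]
  field_simp
  linear_combination (2 * xw z) * hw

theorem yw_two' (z : ℂ) (hz : Off z) :
    yw (2 * z) = (2 * xw z ^ 6 + 10 * xw z ^ 3 - 1) / yw z ^ 3 := by
  have h2z : 2 * z ∉ Set.range emb := hz
  have hz1 : z ∉ Set.range emb := by
    rintro ⟨a, ha⟩
    exact h2z ⟨2 * a, by rw [map_mul, ha, map_ofNat]⟩
  have hy : yw z ≠ 0 := fun h => h2z ((yw_eq_zero_iff z hz1).1 h)
  have hw := weq z hz1
  obtain ⟨p1, p2⟩ := pt_of_not_mem z hz1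
  obtain ⟨p3, p4⟩ := pt_of_not_mem (2 * z) h2z
  have h1 : pt (2 * z) = pt z + pt z := by rw [two_mul, pt_add]
  have hne : (yw z - 1) / 2 ≠ (E ℂ).toAffine.negY (xw z) ((yw z - 1) / 2) := by
    rw [a4_negY]
    intro h
    apply hy
    linear_combination h
  rw [p2, p4, WeierstrassCurve.Affine.Point.add_self_of_Y_ne hne,
    WeierstrassCurve.Affine.Point.some.injEq] at h1
  have h2 := h1.2
  have h2' := h1.1
  rw [WeierstrassCurve.Affine.slope_of_Y_ne rfl hne, a4_negY] at h2 h2'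
  have h3 : (3 * xw z ^ 2 + 2 * 0 * xw z + 0 - 0 * ((yw z - 1) / 2)) /
      ((yw z - 1) / 2 - (-((yw z - 1) / 2) - 1)) = 3 * xw z ^ 2 / yw z := by
    congr 1
    · ring
    · ring
  simp only [WeierstrassCurve.Affine.addY, WeierstrassCurve.Affine.negAddY,
    WeierstrassCurve.Affine.negY, WeierstrassCurve.Affine.addX, E] at h2
  simp only [WeierstrassCurve.Affine.addX, E] at h2'
  rw [h3] at h2
  rw [eq_div_iff (pow_ne_zero 3 hy)]
  have h5 : yw (2 * z) = 1 + 2 * ((yw (2 * z) - 1) / 2) := by ring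
  rw [h5, h2]
  field_simp
  linear_combination (-(yw z) ^ 2 + 14 * xw z ^ 3 - 1) * hw

end TH
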