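import Pool.Agent.MP_9ab903_nt.TH.G2
import Pool.Agent.MP_9ab903_nt.NGX.E

/-! ## [NG3-G] part 3: fields of the class of every nilpotency class -/

set_option autoImplicit false

open NumberField IsDedekindDomain Polynomial
open CM27 CMT CF NAB NGX TH
open scoped Classical commutatorElement

namespace THG

theorem isIntegral_of_cube {F : Type} [Field F] {x : F} (h : IsIntegral ℤ (x ^ 3)) :
    IsIntegral ℤ x := IsIntegral.of_pow (by norm_num) h

section
variable (F M : Type) [Field F] [NumberField F] [Field M]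
  [NumberField M] [Algebra KK F] [Algebra F M] [Algebra KK M] [IsScalarTower KK F M]
  [IsGalois KK F] [IsGalois KK M]

/-- the nilpotency class grows -/
theorem class_step3 (d : 𝓞 F) (s : M) (hs : s ^ 3 = algebraMap F M (d : F))
    (hd : ∀ τ : F ≃ₐ[KK] F, τ ≠ 1 → ∀ y : 𝓞 F, d * act KK F τ d ^ 2 ≠ y ^ 3) (c : ℕ)
    (hc : (⊤ : Subgroup (F ≃ₐ[KK] F)).lowerCentralSeries c ≠ ⊥) :
    (⊤ : Subgroup (M ≃ₐ[KK] M)).lowerCentralSeries (c + 1) ≠ ⊥ := by
  have hfK : FiniteDimensional KK M := Module.Finite.of_restrictScalars_finite ℚ KK M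
  have hfF : FiniteDimensional F M := Module.Finite.of_restrictScalars_finite KK F M
  have hgF : IsGalois F M := IsGalois.tower_top_of_isGalois KK F M
  obtain ⟨φ, hφ⟩ := exists_KK
  obtain ⟨g, hg, hg1⟩ := (Subgroup.ne_bot_iff_exists_ne_one).1 hc |>.elim fun a ha =>
    (⟨a.1, a.2, fun h => ha (Subtype.ext h)⟩ :
      ∃ g ∈ (⊤ : Subgroup (F ≃ₐ[KK] F)).lowerCentralSeries c, g ≠ 1)
  have hsurj := AlgEquiv.restrictNormalHom_surjective (F := KK) (K₁ := F) M
  have hmap : (⊤ : Subgroup (F ≃ₐ[KK] F)).lowerCentralSeries c =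
      ((⊤ : Subgroup (M ≃ₐ[KK] M)).lowerCentralSeries c).map (AlgEquiv.restrictNormalHom F) := by
    rw [Subgroup.map_lowerCentralSeries, Subgroup.map_top_of_surjective _ hsurj]
  rw [hmap] at hg
  obtain ⟨γ, hγ, hγg⟩ := hg
  have hres : ∀ x : F, γ⁻¹ (algebraMap F M x) = algebraMap F M (g⁻¹ x) := by
    intro x
    have h1 : AlgEquiv.restrictNormalHom F γ⁻¹ = g⁻¹ := by rw [map_inv, hγg]
    rw [← h1]
    exact (AlgEquiv.restrictNormal_commutes γ⁻¹ F x).symm
  set s' : M := γ⁻¹ s with hs'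
  have hs'3 : s' ^ 3 = algebraMap F M (g⁻¹ (d : F)) := by
    rw [hs', ← map_pow, hs, hres]
  have hginv : g⁻¹ ≠ 1 := fun h => hg1 (inv_eq_one.1 h)
  -- the product is not in `F`
  have hnot : s * s' ^ 2 ∉ Set.range (algebraMap F M) := by
    rintro ⟨x, hx⟩
    have h1 : x ^ 3 = (d : F) * g⁻¹ (d : F) ^ 2 := by
      apply (algebraMap F M).injective
      rw [map_pow, hx, map_mul, map_pow, ← hs, ← hs'3]
      ring
    have h2 : IsIntegral ℤ x := by
      have h3 : IsIntegral ℤ (x ^ 3) := by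
        rw [h1]
        exact (d * act KK F g⁻¹ d ^ 2).isIntegral_coe
      exact isIntegral_of_cube h3
    apply hd g⁻¹ hginv ⟨x, h2⟩
    apply RingOfIntegers.ext
    exact h1.symm
  rw [IsGalois.mem_range_algebraMap_iff_fixed] at hnot
  push Not at hnot
  obtain ⟨a, ha⟩ := hnot
  set a' : M ≃ₐ[KK] M := a.restrictScalars KK with ha'
  have hcomm : ⁅γ, a'⁆ ∈ (⊤ : Subgroup (M ≃ₐ[KK] M)).lowerCentralSeries (c + 1) := by
    rw [Subgroup.lowerCentralSeries_succ]
    exact Subgroup.commutator_mem_commutator hγ (Subgroup.mem_top _)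
  intro hbot
  rw [hbot, Subgroup.mem_bot, commutatorElement_eq_one_iff_mul_comm] at hcomm
  apply ha
  -- `ω` in `M`
  set W : M := algebraMap KK M ((φ om : 𝓞 KK) : KK) with hW
  have hWq : W ^ 2 + W + 1 = 0 := by
    have e : om ^ 2 + om + 1 = 0 := om_quad
    have h1 := congrArg (fun t : Eis => algebraMap KK M ((φ t : 𝓞 KK) : KK)) e
    simpa [hW] using h1
  have hW3 : W ^ 3 = 1 := by linear_combination (W - 1) * hWq
  have hγW : γ⁻¹ W = W := γ⁻¹.commutes _
  have hpm : a s = s ∨ a s = W * s ∨ a s = W ^ 2 * s := by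
    apply cube_eq_iff _ _ _ hWq
    rw [← map_pow, hs, a.commutes]
  have hcomm' : γ⁻¹ * a' = a' * γ⁻¹ := by
    rw [inv_mul_eq_iff_eq_mul, ← mul_assoc, hcomm, mul_assoc, mul_inv_cancel, mul_one]
  have h1 : a s' = γ⁻¹ (a s) := by
    have := congrArg (fun t : M ≃ₐ[KK] M => t s) hcomm'
    exact this.symm
  rw [map_mul, map_pow, h1]
  rcases hpm with h2 | h2 | h2
  · rw [h2]
  · rw [h2, map_mul, hγW, ← hs']
    linear_combination s * s' ^ 2 * hW3
  · rw [h2, map_mul, map_pow, hγW, ← hs']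
    linear_combination s * s' ^ 2 * (W ^ 3 + 1) * hW3

end

/-- **Fields of the class of every nilpotency class.** -/
theorem exists_class3 (c : ℕ) :
    ∃ (F : Type) (_ : Field F) (_ : NumberField F) (_ : Algebra KK F) (_ : IsGalois KK F) (n : ℕ),
      Module.finrank KK F = 3 ^ n ∧ UnrN KK F dK ∧
      (⊤ : Subgroup (F ≃ₐ[KK] F)).lowerCentralSeries c ≠ ⊥ := by
  obtain ⟨φ, hφ⟩ := exists_KK
  have hom : (φ om) ^ 2 + φ om + 1 = 0 := by
    rw [← map_pow, ← map_add, ← map_one φ, ← map_add, om_quad, map_zero]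
  induction c with
  | zero =>
    obtain ⟨d, h4, hgood, hsq, -⟩ := exists_delta3 KK φ hφ 0 (by rw [Module.finrank_self, pow_zero])
    have hu : UnrN KK KK dK := by
      intro v P hP _
      exact ram_one_of_inertia KK KK v P hP fun σ _ => Subsingleton.elim _ _
    obtain ⟨M, _, _, iFM, iKM, iT, _, m, hm, huM, s, hs⟩ := exists_closure3 KK KK (φ om) hom dK 0
      (by rw [Module.finrank_self, pow_zero]) hu d h4 hgood
    have key : ∀ x : KK, @algebraMap KK M _ _ iKM x = @algebraMap KK M _ _ iFM x := fun x =>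
      @IsScalarTower.algebraMap_apply KK KK M _ _ _ _ iFM iKM iT x
    rw [← key] at hs
    clear key iT
    clear iFM
    refine ⟨M, inferInstance, inferInstance, inferInstance, inferInstance, m, hm, huM, ?_⟩
    intro hbot
    have hfK : FiniteDimensional KK M := Module.Finite.of_restrictScalars_finite ℚ KK M
    have h1 : ∀ σ : M ≃ₐ[KK] M, σ = 1 := by
      intro σ
      rw [Subgroup.lowerCentralSeries_zero] at hbot
      have h2 : σ ∈ (⊤ : Subgroup (M ≃ₐ[KK] M)) := Subgroup.mem_top σ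
      rwa [hbot, Subgroup.mem_bot] at h2
    have h2 : s ∈ Set.range (algebraMap KK M) := by
      rw [IsGalois.mem_range_algebraMap_iff_fixed]
      intro σ
      rw [h1 σ]
      rfl
    obtain ⟨x, hx⟩ := h2
    have h3 : algebraMap KK M (x ^ 3) = algebraMap KK M (d : KK) := by
      rw [map_pow, hx, hs]
    have h4' : x ^ 3 = (d : KK) := (algebraMap KK M).injective h3
    have h5 : IsIntegral ℤ x := by
      have h6 : IsIntegral ℤ (x ^ 3) := by
        rw [h4']
        exact d.isIntegral_coe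
      exact isIntegral_of_cube h6
    apply hsq ⟨x, h5⟩
    apply RingOfIntegers.ext
    exact h4'.symm
  | succ c ih =>
    obtain ⟨F, _, _, _, _, n, hn, hu, hc⟩ := ih
    obtain ⟨d, h4, hgood, -, hd⟩ := exists_delta3 F φ hφ n hn
    obtain ⟨M, _, _, _, _, _, _, m, hm, huM, s, hs⟩ :=
      exists_closure3 KK F (φ om) hom dK n hn hu d h4 hgood
    exact ⟨M, inferInstance, inferInstance, inferInstance, inferInstance, m, hm, huM,
      class_step3 F M d s hs hd c hc⟩

/-- `M / ℚ(ω)` is Galois of degree a power of `3`, ramified only at primes modulo which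
`ω - 4` is not a square. -/
def TM (M : IntermediateField ℚ ℂ) [NumberField M] (hw : w ∈ M) : Prop :=
  letI := algK M hw
  IsGalois KK M ∧ (∃ n : ℕ, Module.finrank KK M = 3 ^ n) ∧ UnrN KK M dK

/-- **Subfields of `ℂ` in the class, Galois over `ℚ(ω)`, with Galois group of arbitrarily large
nilpotency class.** -/
theorem exists_TM (c : ℕ) : ∃ (F : IntermediateField ℚ ℂ) (_ : NumberField F) (hw : w ∈ F),
    letI := algK F hw
    TM F hw ∧ (⊤ : Subgroup (F ≃ₐ[KK] F)).lowerCentralSeries c ≠ ⊥ := by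
  obtain ⟨φ, -⟩ := exists_KK
  obtain ⟨M, _, _, _, _, n, hn, hu, hc⟩ := exists_class3 c
  have hfin : FiniteDimensional KK M := Module.Finite.of_restrictScalars_finite ℚ KK M
  let ι : M →ₐ[KK] ℂ := IsAlgClosed.lift
  let F : IntermediateField ℚ ℂ := ι.fieldRange.restrictScalars ℚ
  have hmemF : ∀ x : M, ι x ∈ F := fun x => ⟨x, rfl⟩
  have hw : w ∈ F := by
    have h1 := hmemF (algebraMap KK M ⟨w, d2_w_mem⟩)
    rw [ι.commutes] at h1
    exact h1
  letI := algK F hw
  let f : M →ₐ[KK] F := { toRingHom := (ι : M →+* ℂ).codRestrict F hmemF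
                          commutes' := fun x => Subtype.ext (ι.commutes x) }
  have hf : Function.Bijective f := by
    refine ⟨f.toRingHom.injective, ?_⟩
    rintro ⟨_, x, rfl⟩
    exact ⟨x, rfl⟩
  let e : M ≃ₐ[KK] F := AlgEquiv.ofBijective f hf
  have hfinF : FiniteDimensional KK F := Module.Finite.equiv e.toLinearEquiv
  have hST : IsScalarTower ℚ KK F := IsScalarTower.of_algebraMap_eq' (Subsingleton.elim _ _)
  have hnf : NumberField F :=
    { to_finiteDimensional := Module.Finite.trans KK F }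
  refine ⟨F, hnf, hw, ⟨IsGalois.of_algEquiv e, ⟨n, ?_⟩, ?_⟩, ?_⟩
  · rw [← hn]
    exact e.toLinearEquiv.finrank_eq.symm
  · letI algFM : Algebra F M := (e.symm : F →+* M).toAlgebra
    have hT : IsScalarTower KK F M := IsScalarTower.of_algebraMap_eq fun x => by
      exact (e.symm.commutes x).symm
    exact unrN_sub KK F M dK hu
  · intro hbot
    apply hc
    have h1 := Subgroup.map_lowerCentralSeries (⊤ : Subgroup (F ≃ₐ[KK] F))
      (AlgEquiv.autCongr e.symm : (F ≃ₐ[KK] F) ≃* (M ≃ₐ[KK] M)).toMonoidHom c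
    rw [hbot, Subgroup.map_bot, Subgroup.map_top_of_surjective _ (MulEquiv.surjective _)] at h1
    exact h1.symm

/-- a member of the class -/
theorem TM.tt {M F : IntermediateField ℚ ℂ} [NumberField M] [NumberField F] {hw : w ∈ M}
    (h : TM M hw) (hwF : w ∈ F) (hFM : F ≤ M) : TT F hwF := by
  obtain ⟨h1, ⟨n, h2⟩, h3⟩ := h
  letI := algK F hwF
  letI := algK M hw
  letI algFM : Algebra F M := (IntermediateField.inclusion hFM : F →+* M).toAlgebra
  have hT : IsScalarTower KK F M := IsScalarTower.of_algebraMap_eq fun x => rfl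
  exact ⟨M, inferInstance, inferInstance, inferInstance, inferInstance, inferInstance, h1, n, h2, h3⟩

theorem nilpotent_TM {M : IntermediateField ℚ ℂ} [NumberField M] {hw : w ∈ M} (h : TM M hw) :
    letI := algK M hw
    Group.IsNilpotent (M ≃ₐ[KK] M) := by
  letI := algK M hw
  haveI := h.1
  haveI : FiniteDimensional KK M := Module.Finite.of_restrictScalars_finite ℚ KK M
  obtain ⟨n, hn⟩ := h.2.1
  haveI : Fact (Nat.Prime 3) := ⟨Nat.prime_three⟩
  have hp : IsPGroup 3 (M ≃ₐ[KK] M) := by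
    rw [IsPGroup.iff_card]
    exact ⟨n, by rw [IsGalois.card_aut_eq_finrank, hn]⟩
  exact hp.isNilpotent

/-- **For every `c` there are infinitely many fields `M` of the class whose Galois group over `ℚ(ω)`
has nilpotency class greater than `c`.** -/
theorem infinite_TM (c : ℕ) : {M : IntermediateField ℚ ℂ | ∃ (_ : NumberField M) (hw : w ∈ M),
    letI := algK M hw
    TM M hw ∧ c < Group.nilpotencyClass (M ≃ₐ[KK] M)}.Infinite := by
  intro hfin
  -- a bound for the class
  have hbd : ∀ s : Set (IntermediateField ℚ ℂ), s.Finite →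
      (∀ M ∈ s, ∃ (_ : NumberField M) (hw : w ∈ M), letI := algK M hw; TM M hw) →
      ∃ C : ℕ, ∀ M ∈ s, ∀ hw : w ∈ M,
        letI := algK M hw; (⊤ : Subgroup (M ≃ₐ[KK] M)).lowerCentralSeries C = ⊥ := by
    intro s hs
    induction s, hs using Set.Finite.induction_on with
    | empty => exact fun _ => ⟨0, fun M hM => absurd hM (Set.notMem_empty M)⟩
    | @insert M s _ _ ih =>
      intro h
      obtain ⟨C, hC⟩ := ih fun M hM => h M (Set.mem_insert_of_mem _ hM)
      obtain ⟨hN, hw, hM⟩ := h M (Set.mem_insert _ _)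
      letI := algK M hw
      haveI := nilpotent_TM hM
      refine ⟨max C (Group.nilpotencyClass (M ≃ₐ[KK] M)), ?_⟩
      intro M' hM' hw'
      rcases Set.mem_insert_iff.1 hM' with rfl | hM'
      · rw [Subgroup.lowerCentralSeries_eq_bot_iff_nilpotencyClass_le]
        exact le_max_right _ _
      · exact bot_unique ((Subgroup.lowerCentralSeries_antitone _ (le_max_left _ _)).trans
          (hC M' hM' hw').le)
  obtain ⟨C, hC⟩ := hbd _ hfin fun M hM => by
    obtain ⟨h1, h2, h3, -⟩ := hM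
    exact ⟨h1, h2, h3⟩
  obtain ⟨M, hN, hw, hM, h⟩ := exists_TM (max C c)
  letI := algK M hw
  haveI := nilpotent_TM hM
  have h1 : max C c < Group.nilpotencyClass (M ≃ₐ[KK] M) := by
    rw [Ne, Subgroup.lowerCentralSeries_eq_bot_iff_nilpotencyClass_le, not_le] at h
    exact h
  have h2 := hC M ⟨hN, hw, hM, (le_max_right _ _).trans_lt h1⟩ hw
  apply h
  exact bot_unique ((Subgroup.lowerCentralSeries_antitone _ (le_max_left _ _)).trans h2.le)

end THG
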