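import Pool.Agent.MP_9ab903_nt.TH.Defs
import Pool.Agent.MP_ae0bd0_nt.B3.Z5

set_option autoImplicit false

open CM27
open scoped ComplexConjugate

namespace TH

/-! ## [TH-B1a] the number of points of `y² = x³ + D` in terms of Jacobi sums (file TH/B1a.lean)

`k` finite, `|k| = q ≡ 1 mod 3`, characteristic `≠ 2`. `#E = 1 + ∑_x (1 + ρ(x³ + D)) = q + 1 + ∑_u (1 + χ(u) + conj χ(u)) ρ(u + D)` (`b2_count`: the number of cube roots of `u`),
`∑ ρ(u + D) = 0`; `∑_u χ(u) ρ(u + D)`, `u = - D v`: `= χ(D) ρ(D) J(χ, ρ)` (`χ(-1) = 1`); `J(χ, ρ) = χ(4) J(χ, χ)`: `J(χ,χ) = ∑_x χ(x (1 - x))`,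
`4 x (1 - x) = 1 - (1 - 2x)²`, so `χ(4) J(χ,χ) = ∑_t χ(1 - t²) = ∑_u χ(1 - u)(1 + ρ(u)) = J(χ, ρ)`. Compare `B3/Z5.lean` (`z5_nonsingular_iff`, `z5_card`, `z5_sq`, `z5_sum`). -/

/-- the curve `y² = x³ + D` -/
def Wd {R : Type*} [CommRing R] (D : R) : WeierstrassCurve R := ⟨0, 0, 0, 0, D⟩

theorem nonsingular_Wd (k : Type) [Field k] (h2 : (2 : k) ≠ 0) (h3 : (3 : k) ≠ 0) (D : k)
    (hD : D ≠ 0) (x y : k) : (Wd D).toAffine.Nonsingular x y ↔ y ^ 2 = x ^ 3 + D := by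
  have hΔ : (Wd D).toAffine.Δ ≠ 0 := by
    have h1 : (Wd D).Δ = -(2 ^ 4 * 3 ^ 3 * D ^ 2) := by
      simp only [Wd, WeierstrassCurve.Δ, WeierstrassCurve.b₂, WeierstrassCurve.b₄,
        WeierstrassCurve.b₆, WeierstrassCurve.b₈]
      ring
    rw [h1]
    exact neg_ne_zero.2 (mul_ne_zero (mul_ne_zero (pow_ne_zero _ h2) (pow_ne_zero _ h3))
      (pow_ne_zero _ hD))
  rw [← WeierstrassCurve.Affine.equation_iff_nonsingular_of_Δ_ne_zero hΔ,
    WeierstrassCurve.Affine.equation_iff]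
  simp [Wd]

/-- the number of affine points -/
theorem b1a_card (k : Type) [Field k] [Fintype k] [DecidableEq k] (h2 : (2 : k) ≠ 0)
    (h3 : (3 : k) ≠ 0) (D : k) (hD : D ≠ 0) :
    Nat.card (Wd D).toAffine.Point =
      (∑ x : k, (Finset.univ.filter (fun y : k => y ^ 2 = x ^ 3 + D)).card) + 1 := by
  have e : {xy : k × k // (Wd D).toAffine.Nonsingular xy.1 xy.2} ≃
      (Σ x : k, {y : k // y ^ 2 = x ^ 3 + D}) :=
    { toFun := fun p => ⟨p.1.1, p.1.2, (nonsingular_Wd k h2 h3 D hD _ _).1 p.2⟩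
      invFun := fun p => ⟨(p.1, p.2.1), (nonsingular_Wd k h2 h3 D hD _ _).2 p.2.2⟩
      left_inv := fun p => rfl
      right_inv := fun p => rfl }
  have h1 : Nat.card (Wd D).toAffine.Point =
      Nat.card (Option (Σ x : k, {y : k // y ^ 2 = x ^ 3 + D})) :=
    Nat.card_congr ((WeierstrassCurve.Affine.nonsingularPointEquiv (Wd D).toAffine).trans
      (Equiv.optionCongr e))
  rw [h1, Finite.card_option, Nat.card_eq_fintype_card, Fintype.card_sigma]
  congr 1
  refine Finset.sum_congr rfl fun x _ => ?_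
  rw [Fintype.card_subtype]

section
variable {k : Type} [Field k] [Fintype k] [DecidableEq k]

omit [Fintype k] [DecidableEq k] in
theorem b1a_ringChar (h2 : (2 : k) ≠ 0) : ringChar k ≠ 2 := by
  intro h4
  apply h2
  have := ringChar.Nat.cast_ringChar (R := k)
  rw [h4] at this
  exact_mod_cast this

theorem b1a_neg_one {χ : MulChar k ℂ} (hχ : orderOf χ = 3) : χ (-1) = 1 := by
  have h2 := b2_pow_three hχ (t := (-1 : k)) (by simp)
  rw [← map_pow] at h2
  have h3 : (-1 : k) ^ 3 = -1 := by ring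
  rwa [h3] at h2

omit [DecidableEq k] in
theorem b1a_sum_zero {χ : MulChar k ℂ} (hχ : orderOf χ = 3) : ∑ v : k, χ (1 - v) = 0 := by
  have h1 : χ ≠ 1 := by
    rintro rfl
    rw [orderOf_one] at hχ
    norm_num at hχ
  have h2 := MulChar.sum_eq_zero_of_ne_one h1
  rw [← h2]
  exact Equiv.sum_comp (Equiv.subLeft (1 : k)) fun x => χ x

/-- `J(χ, ρ) = χ(4) J(χ, χ)` -/
theorem b1a_jacobi (h2 : (2 : k) ≠ 0) {χ : MulChar k ℂ} (hχ : orderOf χ = 3) :
    ∑ v : k, χ v * ((quadraticChar k (1 - v) : ℤ) : ℂ) = χ 4 * jacobiSum χ χ := by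
  have hrc := b1a_ringChar h2
  let e : k ≃ k :=
    { toFun := fun t => 1 - 2 * t
      invFun := fun y => (1 - y) / 2
      left_inv := fun t => by field_simp; ring
      right_inv := fun y => by field_simp; ring }
  have h3 : χ 4 * jacobiSum χ χ = ∑ t : k, χ (1 - t ^ 2) := by
    rw [← Equiv.sum_comp e, jacobiSum, Finset.mul_sum]
    refine Finset.sum_congr rfl fun t _ => ?_
    rw [← map_mul, ← map_mul]
    congr 1
    change 4 * (t * (1 - t)) = 1 - (1 - 2 * t) ^ 2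
    ring
  have h4 : ∑ t : k, χ (1 - t ^ 2) =
      ∑ v : k, (((Finset.univ.filter (fun t : k => t ^ 2 = v)).card : ℕ) : ℂ) * χ (1 - v) := by
    rw [← Finset.sum_fiberwise (Finset.univ : Finset k) (fun t : k => t ^ 2)
      (fun t => χ (1 - t ^ 2))]
    refine Finset.sum_congr rfl fun v _ => ?_
    rw [← nsmul_eq_mul, ← Finset.sum_const]
    refine Finset.sum_congr rfl fun t ht => ?_
    rw [(Finset.mem_filter.1 ht).2]
  have h5 : ∀ v : k, (((Finset.univ.filter (fun t : k => t ^ 2 = v)).card : ℕ) : ℂ) =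
      ((quadraticChar k v : ℤ) : ℂ) + 1 := by
    intro v
    have h6 : ((Finset.univ.filter (fun t : k => t ^ 2 = v)).card : ℤ) =
        quadraticChar k v + 1 := by
      rw [← quadraticChar_card_sqrts hrc]
      congr 2
      ext y
      simp
    have h7 := congrArg (fun z : ℤ => (z : ℂ)) h6
    simpa using h7
  have h6 : ∑ v : k, (((Finset.univ.filter (fun t : k => t ^ 2 = v)).card : ℕ) : ℂ) * χ (1 - v) =
      ∑ v : k, (((quadraticChar k v : ℤ) : ℂ) * χ (1 - v) + χ (1 - v)) := by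
    refine Finset.sum_congr rfl fun v _ => ?_
    rw [h5 v, add_mul, one_mul]
  have h7 : ∑ v : k, χ v * ((quadraticChar k (1 - v) : ℤ) : ℂ) =
      ∑ v : k, ((quadraticChar k v : ℤ) : ℂ) * χ (1 - v) := by
    rw [← Equiv.sum_comp (Equiv.subLeft (1 : k))]
    refine Finset.sum_congr rfl fun v _ => ?_
    rw [Equiv.subLeft_apply, sub_sub_cancel, mul_comm]
  rw [h3, h4, h6, Finset.sum_add_distrib, b1a_sum_zero hχ, add_zero, h7]

/-- `∑ χ(u) ρ(u + D) = ρ(D) χ(4 D) J(χ, χ)` -/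
theorem b1a_twist (h2 : (2 : k) ≠ 0) {χ : MulChar k ℂ} (hχ : orderOf χ = 3) (D : k)
    (hD : D ≠ 0) : ∑ u : k, χ u * ((quadraticChar k (u + D) : ℤ) : ℂ) =
      ((quadraticChar k D : ℤ) : ℂ) * (χ (4 * D) * jacobiSum χ χ) := by
  have hD' : (-D) ≠ 0 := neg_ne_zero.2 hD
  rw [map_mul, mul_comm (χ 4) (χ D), mul_assoc (χ D), ← b1a_jacobi h2 hχ,
    ← Equiv.sum_comp (Equiv.mulLeft₀ (-D) hD'), Finset.mul_sum, Finset.mul_sum]
  refine Finset.sum_congr rfl fun v _ => ?_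
  have h3 : -D * v + D = D * (1 - v) := by ring
  have h4 : -D * v = -1 * (D * v) := by ring
  show χ (-D * v) * ((quadraticChar k (-D * v + D) : ℤ) : ℂ) = _
  rw [h3, h4, map_mul, map_mul, map_mul, b1a_neg_one hχ, Int.cast_mul]
  ring

end

theorem card_Wd (k : Type) [Field k] [Fintype k] [DecidableEq k] (h : Nat.card k % 3 = 1)
    (h2 : (2 : k) ≠ 0) (D : k) (hD : D ≠ 0) (χ : MulChar k ℂ) (hχ : orderOf χ = 3) :
    (Nat.card (Wd D).toAffine.Point : ℂ) = Nat.card k + 1 +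
      ((quadraticChar k D : ℤ) : ℂ) * (χ (4 * D) * jacobiSum χ χ +
        conj (χ (4 * D) * jacobiSum χ χ)) := by
  have h3 : (3 : k) ≠ 0 := b1_three_ne_zero k (by rw [h]; norm_num)
  have hrc := b1a_ringChar h2
  have hB := BS3.z5_sq k hrc D
  have hB' := congrArg (fun z : ℤ => (z : ℂ)) hB
  simp only [Int.cast_natCast, Int.cast_add, Int.cast_sum] at hB'
  -- the sum of the quadratic character
  have h4 : ∑ x : k, ((quadraticChar k (x ^ 3 + D) : ℤ) : ℂ) =
      ∑ u : k, (((Finset.univ.filter (fun x : k => x ^ 3 = u)).card : ℕ) : ℂ) *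
        ((quadraticChar k (u + D) : ℤ) : ℂ) := by
    rw [← Finset.sum_fiberwise (Finset.univ : Finset k) (fun x : k => x ^ 3)
      (fun x => ((quadraticChar k (x ^ 3 + D) : ℤ) : ℂ))]
    refine Finset.sum_congr rfl fun v _ => ?_
    rw [← nsmul_eq_mul, ← Finset.sum_const]
    refine Finset.sum_congr rfl fun t ht => ?_
    rw [(Finset.mem_filter.1 ht).2]
  have h5 : ∑ u : k, ((quadraticChar k (u + D) : ℤ) : ℂ) = 0 := by
    have h6 : ∑ u : k, ((quadraticChar k (u + D) : ℤ) : ℂ) =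
        ∑ u : k, ((quadraticChar k u : ℤ) : ℂ) :=
      Equiv.sum_comp (Equiv.addRight D) fun u => ((quadraticChar k u : ℤ) : ℂ)
    rw [h6, ← Int.cast_sum, quadraticChar_sum_zero hrc, Int.cast_zero]
  have h6 : ∑ x : k, ((quadraticChar k (x ^ 3 + D) : ℤ) : ℂ) =
      ((quadraticChar k D : ℤ) : ℂ) * (χ (4 * D) * jacobiSum χ χ +
        conj (χ (4 * D) * jacobiSum χ χ)) := by
    have h7 := b1a_twist h2 hχ D hD
    have h8 : ∑ u : k, conj (χ u) * ((quadraticChar k (u + D) : ℤ) : ℂ) =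
        ((quadraticChar k D : ℤ) : ℂ) * conj (χ (4 * D) * jacobiSum χ χ) := by
      have h9 := congrArg (starRingEnd ℂ) h7
      rw [map_sum, map_mul (starRingEnd ℂ), map_intCast] at h9
      rw [← h9]
      refine Finset.sum_congr rfl fun u _ => ?_
      rw [map_mul, map_intCast]
    have h10 : ∑ u : k, (((Finset.univ.filter (fun x : k => x ^ 3 = u)).card : ℕ) : ℂ) *
        ((quadraticChar k (u + D) : ℤ) : ℂ) =
        ∑ u : k, (((quadraticChar k (u + D) : ℤ) : ℂ) +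
          (χ u * ((quadraticChar k (u + D) : ℤ) : ℂ) +
            conj (χ u) * ((quadraticChar k (u + D) : ℤ) : ℂ))) := by
      refine Finset.sum_congr rfl fun u _ => ?_
      rw [b2_count h hχ u, add_mul, one_mul, add_mul]
    rw [h4, h10, Finset.sum_add_distrib, Finset.sum_add_distrib, h5, h7, h8]
    ring
  rw [h6] at hB'
  rw [b1a_card k h2 h3 D hD]
  push_cast
  push_cast at hB'
  rw [hB', Nat.card_eq_fintype_card]
  ring

end TH
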