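import Pool.Agent.MP_9ab903_nt.TH.B1a
import Pool.Agent.MP_9ab903_nt.TH.B1b
import Pool.Agent.MP_9ab903_nt.TH.B1c
import Pool.Agent.MP_9ab903_nt.NT.V1

set_option autoImplicit false

open NumberField IsDedekindDomain
open CM27 CMT NAB CF TWR
open scoped Classical ComplexConjugate

namespace TH

/-! ## [TH-B1d] the number of points of `Ep` in characteristic `≠ 2, 3` (file TH/B1d.lean)

`Ep_Wd`: the change of variables `x' = 4 λ² x + 4 λ`, `y' = 8 λ³ (y + ω²/2)` transforms `Ep` into `y'² = x'³ + D'`, `D' = 48 (4 - ω)` (`λ = 1 - ω`, `4 λ = 4 λ² / λ`).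
`card_Ep_gen`: `b` any prime with `b ≡ 1 mod π`, not dividing `6`; `b₀ = u b` the primary associate (`exists_primary`). By `card_Wd`, `jacobi_pow` (for `b₀`):
`#Ep(k) = |k| + 1 - (ψ + conj ψ)`, `ψ = ρ(D') χ(4 D') b₀^f`. For `a = r α`, `α : ℤ[ω]` prime to `b`: `a ^ ((q^f - 1)/3) = (a ^ ((q - 1)/3)) ^ (1 + q + ..+ q^(f-1))` and
`1 + q + .. ≡ f mod 3`, so `χ(a) = emb ζ^f`; for the quadratic character the same modulo `2` (`quadraticChar k a = a ^ ((q^f-1)/2)`). So `ψ = emb (s ζ b₀)^f` (`psi_val`) and `s ζ b₀` is associated to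
`b` and `≡ 1 mod π`, so it is `b` (`assoc7`). -/

theorem Ep_Wd (K : Type) [Field K] (h6 : (6 : K) ≠ 0) (o : K) (ho : o ^ 2 + o + 1 = 0) :
    ∃ C : WeierstrassCurve.VariableChange K, C • Ep o = Wd (48 * (4 - o)) := by
  have h2 : (2 : K) ≠ 0 := by
    intro h
    apply h6
    have h' : (6 : K) = 2 * 3 := by norm_num
    rw [h', h, zero_mul]
  have h3 : (3 : K) ≠ 0 := by
    intro h
    apply h6
    have h' : (6 : K) = 2 * 3 := by norm_num
    rw [h', h, mul_zero]
  have h1 : (1 - o : K) ≠ 0 := by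
    intro h
    apply h3
    have ho1 : o = 1 := by linear_combination -h
    rw [ho1] at ho
    linear_combination ho
  have hu : (2 * (1 - o) : K) ≠ 0 := mul_ne_zero h2 h1
  refine ⟨⟨⟨(2 * (1 - o))⁻¹, 2 * (1 - o), inv_mul_cancel₀ hu, mul_inv_cancel₀ hu⟩,
    -(2 + o) / 3, 0, -o ^ 2 / 2⟩, ?_⟩
  ext
  · rw [WeierstrassCurve.variableChange_a₁]
    simp [Ep, Wd]
  · rw [WeierstrassCurve.variableChange_a₂]
    change (2 * (1 - o)) ^ 2 * ((2 + o) - 0 * 0 + 3 * (-(2 + o) / 3) - 0 ^ 2) = 0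
    field_simp
    ring
  · rw [WeierstrassCurve.variableChange_a₃]
    change (2 * (1 - o)) ^ 3 * (o ^ 2 + (-(2 + o) / 3) * 0 + 2 * (-o ^ 2 / 2)) = 0
    field_simp
    ring
  · rw [WeierstrassCurve.variableChange_a₄]
    change (2 * (1 - o)) ^ 4 * ((1 + o) - 0 * o ^ 2 + 2 * (-(2 + o) / 3) * (2 + o) -
      (-o ^ 2 / 2 + (-(2 + o) / 3) * 0) * 0 + 3 * (-(2 + o) / 3) ^ 2 - 2 * 0 * (-o ^ 2 / 2)) = 0
    field_simp
    linear_combination (-(16 * (1 - o) ^ 4)) * ho
  · rw [WeierstrassCurve.variableChange_a₆]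
    change (2 * (1 - o)) ^ 6 * (0 + (-(2 + o) / 3) * (1 + o) + (-(2 + o) / 3) ^ 2 * (2 + o) +
      (-(2 + o) / 3) ^ 3 - (-o ^ 2 / 2) * o ^ 2 - (-o ^ 2 / 2) ^ 2 -
        (-(2 + o) / 3) * (-o ^ 2 / 2) * 0) = 48 * (4 - o)
    field_simp
    linear_combination (-5312 + 7184 * o - 2448 * o ^ 2 - 6080 * o ^ 3 + 12992 * o ^ 4 -
      13536 * o ^ 5 + 8368 * o ^ 6 - 2896 * o ^ 7 + 432 * o ^ 8) * ho

theorem b1d_pow {R : Type*} [CommMonoid R] (x t : R) (q m : ℕ) (hq0 : 0 < q)
    (hm : 0 < m) (hq : m ∣ q - 1) (h : x ^ ((q - 1) / m) = t) (ht : t ^ m = 1) (f : ℕ) :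
    m ∣ q ^ f - 1 ∧ x ^ ((q ^ f - 1) / m) = t ^ f := by
  obtain ⟨c, hc⟩ := hq
  have hq1 : q = m * c + 1 := by omega
  have hc1 : (q - 1) / m = c := by rw [hc, Nat.mul_div_cancel_left _ hm]
  rw [hc1] at h
  induction f with
  | zero => simp
  | succ n ih =>
    obtain ⟨⟨d, hd⟩, ih2⟩ := ih
    rw [hd, Nat.mul_div_cancel_left _ hm] at ih2
    have hpos : 0 < q ^ n := pow_pos hq0 n
    have hqn : q ^ n = m * d + 1 := by omega
    have h3 : q ^ (n + 1) - 1 = m * (d * q + c) := by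
      have h4 : q ^ (n + 1) = m * (d * q + c) + 1 := by
        rw [pow_succ, hqn]
        calc (m * d + 1) * q = m * d * q + q := by ring
          _ = m * d * q + (m * c + 1) := by rw [← hq1]
          _ = m * (d * q + c) + 1 := by ring
      omega
    refine ⟨⟨_, h3⟩, ?_⟩
    rw [h3, Nat.mul_div_cancel_left _ hm, pow_add, pow_mul, ih2, h]
    have h5 : t ^ q = t := by
      rw [hq1, pow_succ, pow_mul, ht, one_pow, one_mul]
    rw [← pow_mul, mul_comm n q, pow_mul, h5, ← pow_succ]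

theorem b1d_int (k : Type) [Field k] (h2 : (2 : k) ≠ 0) (x y : ℤ) (hx : x = 1 ∨ x = -1)
    (hy : y = 1 ∨ y = -1) (h : (x : k) = y) : x = y := by
  rcases hx with rfl | rfl <;> rcases hy with rfl | rfl
  · rfl
  · exfalso
    apply h2
    push_cast at h
    linear_combination h
  · exfalso
    apply h2
    push_cast at h
    linear_combination -h
  · rfl

theorem card_Ep_gen (b : Eis) (hb : Prime b) (h2 : ¬ b ∣ 2) (h3 : ¬ b ∣ 3) (h7 : p7 ∣ b - 1)
    (k : Type) [Field k] [Finite k] (r : Eis →+* k) (hr : r b = 0) (f : ℕ) (hf : 0 < f)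
    (hk : Nat.card k = b.norm.natAbs ^ f) :
    (Nat.card (Ep (r om)).toAffine.Point : ℂ) = (b.norm.natAbs : ℂ) ^ f + 1 -
      (emb b ^ f + conj (emb b) ^ f) := by
  have := eis_isDomain
  have := eis_pid
  have := Fintype.ofFinite k
  obtain ⟨b0, hb0, hp0, hass⟩ := TH.exists_primary b hb h3
  have h20 : ¬ b0 ∣ 2 := fun h => h2 (hass.dvd.trans h)
  have h30 : ¬ b0 ∣ 3 := fun h => h3 (hass.dvd.trans h)
  have h7' : ¬ b0 ∣ p7 := by
    intro h
    have h1 : Associated b0 p7 := hb0.associated_of_dvd p7_prime h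
    have h3 : p7 ∣ b := h1.symm.dvd.trans hass.symm.dvd
    have h4 : p7 ∣ 1 := by
      have h5 := dvd_sub h3 h7
      rwa [sub_sub_cancel] at h5
    exact p7_prime.not_isUnit (isUnit_of_dvd_one h4)
  have hr0 : r b0 = 0 := by
    obtain ⟨u, hu⟩ := hass
    rw [← hu, map_mul, hr, zero_mul]
  have hn : b0.norm = b.norm := by
    obtain ⟨u, hu⟩ := hass
    rw [← hu, map_mul, (eis_isUnit_iff _).1 u.isUnit, mul_one]
  have hk0 : Nat.card k = b0.norm.natAbs ^ f := by rw [hn]; exact hk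
  have hker : ∀ a, r a = 0 → b0 ∣ a := by
    intro a ha
    by_contra hna
    obtain ⟨x, y, hxy⟩ := (hb0.irreducible.coprime_iff_not_dvd.2 hna)
    have h1 := congrArg r hxy
    rw [map_add, map_mul, map_mul, hr0, ha, mul_zero, mul_zero, map_one, add_zero] at h1
    exact zero_ne_one h1
  obtain ⟨χ, hχ3, hJ, hχ⟩ := jacobi_pow b0 hb0 h30 hp0 k r hr0 f hf hk0
  obtain ⟨s, ζ, hs, hζ, hsz, hsq, hcu⟩ := psi_val b0 hb0 h20 h30 h7' hp0
  have hb0s : s * ζ * b0 = b := by
    have hsu : IsUnit s := by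
      rcases hs with rfl | rfl
      · exact isUnit_one
      · exact isUnit_one.neg
    have hζu : IsUnit ζ := IsUnit.of_pow_eq_one hζ three_ne_zero
    refine assoc7 ?_ hsz h7
    exact (associated_unit_mul_left b0 (s * ζ) (hsu.mul hζu)).trans hass.symm
  -- the element `D`
  set D : k := r (48 * (4 - om)) with hD
  have hDeq : D = 48 * (4 - r om) := by
    rw [hD, map_mul, map_sub, map_ofNat, map_ofNat]
  have h4om : (4 - om : Eis) = la * p7 := by decide
  have hla : ¬ b0 ∣ la := by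
    intro h
    apply h30
    rw [three_eq]
    exact Dvd.dvd.mul_left (dvd_pow h two_ne_zero) _
  have h48 : ¬ b0 ∣ (48 * (4 - om) : Eis) := by
    intro h
    rcases hb0.dvd_or_dvd h with h1 | h1
    · have e : (48 : Eis) = 2 ^ 4 * 3 := by norm_num
      rw [e] at h1
      rcases hb0.dvd_or_dvd h1 with h5 | h5
      · exact h20 (hb0.dvd_of_dvd_pow h5)
      · exact h30 h5
    · rw [h4om] at h1
      rcases hb0.dvd_or_dvd h1 with h5 | h5
      · exact hla h5
      · exact h7' h5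
  have hD0 : D ≠ 0 := fun h => h48 (hker _ h)
  have hk2 : (2 : k) ≠ 0 := by
    intro h
    apply h20
    apply hker
    rw [map_ofNat]
    exact h
  have hk3 : (3 : k) ≠ 0 := by
    intro h
    apply h30
    apply hker
    rw [map_ofNat]
    exact h
  have h6 : (6 : k) ≠ 0 := by
    have e : (6 : k) = 2 * 3 := by norm_num
    rw [e]
    exact mul_ne_zero hk2 hk3
  have ho : (r om) ^ 2 + r om + 1 = 0 := by
    rw [← map_pow, ← map_one r, ← map_add, ← map_add, om_quad, map_zero]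
  obtain ⟨C, hC⟩ := Ep_Wd k h6 (r om) ho
  -- the cardinality `q`
  set q : ℕ := b0.norm.natAbs with hq
  have hq3 : q % 3 = 1 := by
    have h1 := a3_primary_norm hp0
    have h2 := norm_nonneg' b0
    omega
  have hq0 : 0 < q := by omega
  have hchar : ringChar k ≠ 2 := by
    intro h
    apply hk2
    have := ringChar.Nat.cast_ringChar (R := k)
    rw [h] at this
    exact_mod_cast this
  have hodd : Nat.card k % 2 = 1 := by
    rw [Nat.card_eq_fintype_card]
    exact FiniteField.odd_card_of_char_ne_two hchar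
  have hq2 : q % 2 = 1 := by
    rw [hk0] at hodd
    rcases Nat.mod_two_eq_zero_or_one q with h | h
    · exfalso
      have h1 : 2 ∣ q ^ f := dvd_pow (Nat.dvd_of_mod_eq_zero h) hf.ne'
      omega
    · exact h
  have hcub := b1d_pow (r (4 * (48 * (4 - om)))) (r ζ) q 3 hq0 (by norm_num) (by omega)
    (by
      rw [← map_pow, ← sub_eq_zero, ← map_sub]
      obtain ⟨c, hc⟩ := hcu
      rw [hc, map_mul, hr0, zero_mul])
    (by rw [← map_pow, hζ, map_one]) f
  have hs2 : s ^ 2 = 1 := by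
    rcases hs with rfl | rfl
    · exact one_pow 2
    · exact neg_one_sq
  have hqua := b1d_pow D (r s) q 2 hq0 (by norm_num) (by omega)
    (by
      rw [hD, ← map_pow, ← sub_eq_zero, ← map_sub]
      obtain ⟨c, hc⟩ := hsq
      rw [hc, map_mul, hr0, zero_mul])
    (by rw [← map_pow, hs2, map_one]) f
  have hk3' : Nat.card k % 3 = 1 := by
    rw [hk0]
    have h1 : 3 ∣ q ^ f - 1 := hcub.1
    have h2 : 0 < q ^ f := pow_pos hq0 f
    omega
  have hχD : χ (4 * D) = emb (ζ ^ f) := by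
    have h4D : 4 * D = r (4 * (48 * (4 - om))) := by
      rw [hD, map_mul r 4, map_ofNat]
    apply hχ
    · have h4 : (4 : k) = 2 * 2 := by norm_num
      rw [h4]
      exact mul_ne_zero (mul_ne_zero hk2 hk2) hD0
    · rw [← pow_mul, mul_comm, pow_mul, hζ, one_pow]
    · rw [h4D, hk0, hcub.2, map_pow]
  -- the quadratic character
  obtain ⟨ε, hε, hsε⟩ : ∃ ε : ℤ, (ε = 1 ∨ ε = -1) ∧ s = (ε : Eis) := by
    rcases hs with rfl | rfl
    · exact ⟨1, Or.inl rfl, by simp⟩
    · exact ⟨-1, Or.inr rfl, by simp⟩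
  have hεf : ε ^ f = 1 ∨ ε ^ f = -1 := by
    rcases hε with rfl | rfl
    · exact Or.inl (one_pow f)
    · exact neg_one_pow_eq_or ℤ f
  have hqc : quadraticChar k D = ε ^ f := by
    apply b1d_int k hk2 _ _ (quadraticChar_dichotomy hD0) hεf
    rw [quadraticChar_eq_pow_of_char_ne_two' hchar D]
    have h1 : Fintype.card k / 2 = (q ^ f - 1) / 2 := by
      rw [← Nat.card_eq_fintype_card, hk0]
      rw [hk0] at hodd
      omega
    rw [h1, hqua.2, hsε, map_intCast]
    push_cast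
    rfl
  have hcard : Nat.card (Ep (r om)).toAffine.Point = Nat.card (Wd D).toAffine.Point := by
    rw [hDeq, ← hC]
    exact (Nat.card_congr (VC63.vcEquiv (Ep (r om)) C).toEquiv).symm
  rw [hcard, card_Wd k hk3' hk2 D hD0 χ hχ3, hqc, hχD, hJ, hk, ← hb0s]
  have he : conj (emb s) = emb s := by
    rw [hsε, map_intCast, map_intCast]
  have hes : ((ε ^ f : ℤ) : ℂ) = emb s ^ f := by
    rw [hsε, map_intCast]
    push_cast
    rfl
  rw [hes]
  simp only [map_mul, map_neg, map_pow, he, mul_pow]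
  have hn' : (s * ζ * b0).norm = b0.norm := by rw [hb0s, hn]
  push_cast
  ring

end TH
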