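import Pool.Agent.MP_9ab903_nt.TH.Defs
import Pool.Agent.MP_9ab903_nt.GE.E2

set_option autoImplicit false

open NumberField IsDedekindDomain
open CM27 CMT NAB CF
open scoped Classical

namespace TH

/-! ## [TH-B2a] the discriminant and the local polynomials of `Ep` (file TH/B2a.lean)

`b₂ = 4 (2 + o)`, `b₄ = 2 (1 + o)`, `b₆ = o⁴ = o`, `b₈ = b₂ b₆ - ...`; all identities modulo `o² + o + 1`: `linear_combination (..) * ho`. `GE.localPoly_good`, `GE.localPoly_add` (with `C = 1`,
`n = 2`). -/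

theorem Ep_map {R S : Type} [CommRing R] [CommRing S] (f : R →+* S) (o : R) :
    (Ep o).map f = Ep (f o) := by
  ext
  all_goals simp only [Ep, WeierstrassCurve.map_a₁, WeierstrassCurve.map_a₂,
    WeierstrassCurve.map_a₃, WeierstrassCurve.map_a₄, WeierstrassCurve.map_a₆, map_zero, map_add,
    map_one, map_pow]
  exact congrArg (· + f o) (map_ofNat f 2)

theorem Ep_Δ {R : Type} [CommRing R] (o : R) (ho : o ^ 2 + o + 1 = 0) :
    (Ep o).Δ = o * (3 + o) ^ 2 := by
  simp only [WeierstrassCurve.Δ, WeierstrassCurve.b₂, WeierstrassCurve.b₄, WeierstrassCurve.b₆,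
    WeierstrassCurve.b₈, Ep]
  linear_combination (-9 * o + 19 * o ^ 2 + 21 * o ^ 3 - 8 * o ^ 4 + 11 * o ^ 5 - 27 * o ^ 6) * ho

theorem Ep_c₄ {R : Type} [CommRing R] (o : R) (ho : o ^ 2 + o + 1 = 0) : (Ep o).c₄ = 0 := by
  simp only [WeierstrassCurve.c₄, WeierstrassCurve.b₂, WeierstrassCurve.b₄, Ep]
  linear_combination 16 * ho

variable (A : Type) [CommRing A] [IsDomain A] [IsDiscreteValuationRing A] (K : Type) [Field K]
  [Algebra A K] [IsFractionRing A K] (o : A) (ho : o ^ 2 + o + 1 = 0)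

include ho

theorem localPoly_Ep_good [Finite (IsLocalRing.ResidueField A)] (h : IsUnit (3 + o)) :
    (Ep (algebraMap A K o)).localPolynomial A =
      1 - Polynomial.C ((Nat.card (IsLocalRing.ResidueField A) : ℤ) + 1 -
        Nat.card (Ep (IsLocalRing.residue A o)).toAffine.Point) * Polynomial.X
      + Polynomial.C (Nat.card (IsLocalRing.ResidueField A) : ℤ) * Polynomial.X ^ 2 := by
  have hou : IsUnit o := IsUnit.of_mul_eq_one (-(o + 1)) (by linear_combination -ho)
  have hΔ : IsUnit (Ep o).Δ := by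
    rw [Ep_Δ o ho]
    exact hou.mul (h.pow 2)
  have h1 := GE.localPoly_good A (K := K) (Ep o) hΔ 1
  rw [one_smul, Ep_map, Ep_map] at h1
  exact h1

theorem localPoly_Ep_bad (h : Irreducible (3 + o)) :
    (Ep (algebraMap A K o)).localPolynomial A = 1 := by
  have hou : IsUnit o := IsUnit.of_mul_eq_one (-(o + 1)) (by linear_combination -ho)
  have h1 := GE.localPoly_add A (K := K) (Ep o) 2 (by norm_num) (by norm_num) (3 + o) o h hou
    (Ep_Δ o ho) (by rw [Ep_c₄ o ho]; exact not_isUnit_zero) 1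
  rw [one_smul, Ep_map] at h1
  exact h1

end TH
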