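import Pool.Agent.MP_9ab903_nt.TH.P1
import Pool.Agent.MP_9ab903_nt.NAB.EDefs

/-!
# [NG3] the Hecke character of `Ep` and the cubic characters: definitions
-/

set_option autoImplicit false

open NumberField IsDedekindDomain
open CM27 CMT NAB CF TWR
open scoped Classical

namespace TH

section
variable {F : Type} [Field F] [NumberField F] (e : Eis →+* 𝓞 F)

/-- The generator `≡ 1 mod π` of the norm to `ℤ[ω]` of a prime of `F` not above `π`; `0` above `π`. -/
noncomputable def psv (v : HeightOneSpectrum (𝓞 F)) : Eis :=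
  if h : ∃ x : Eis, ∃ (b : Eis) (f : ℕ), p7 ∣ b - 1 ∧ Prime b ∧ e b ∈ v.asIdeal ∧ 0 < f ∧
    nv v = b.norm.natAbs ^ f ∧ x = b ^ f then h.choose else 0

/-- The generator `≡ 1 mod π` of the norm of an ideal of `F` to `ℤ[ω]`; `0` if `I` is not prime to `π`. -/
noncomputable def Ps (I : Ideal (𝓞 F)) : Eis := cm (psv e) I

/-- The cubic character `I ↦ (d / I)_3` (`0` if it is not defined at a prime factor of `I`). -/
noncomputable def chi3 (d : F) (I : Ideal (𝓞 F)) : Eis := cm (fun v => cs e v d) I

end

end TH
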