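import Pool.Agent.MP_9ab903_nt.TH.P5
import Pool.Agent.MP_9ab903_nt.TH.BDefs
import Pool.Agent.MP_9ab903_nt.TWR.PG1

set_option autoImplicit false

open NumberField IsDedekindDomain
open CM27 CMT NAB CF TWR
open scoped Classical

namespace TH

/-! ## [TH-P16] the cubic character is trivial on the ray (file TH/P16.lean)

As `TWR/PG1.lean` (`cnt`, `od_int`, `cm_span`, `cnt_support` are there). At the places with `3 ∣ ord_v d` (`Cd e v d`: for `v ∣ 3` from `AdG`):
`T_v(d, g) = cs_v(d) ^ cnt v g` (`T_of_cd`); at the other places (`v ∤ 3` then, `t3_of_La`) `g ≡ 1`, `T_v(d, g) = 1` (`T_of_one`), `cnt v g = 0`. -/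

section
variable {F : Type} [Field F] [NumberField F] (e : Eis →+* 𝓞 F)

theorem chi3_mul (d : F) (I J : Ideal (𝓞 F)) : chi3 e d (I * J) = chi3 e d I * chi3 e d J := by
  exact cm_mul _ I J

theorem chi3_one (d : F) : chi3 e d 1 = 1 := by
  exact cm_one _

theorem chi3_prime (d : F) (v : HeightOneSpectrum (𝓞 F)) : chi3 e d v.asIdeal = cs e v d := by
  exact cm_prime _ v

/-- the symbol is defined away from the ramified places -/
theorem AdG.cd_of_t3 {d : F} (hd : AdG e d) {v : HeightOneSpectrum (𝓞 F)} (h : t3 v d) :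
    Cd e v d := by
  by_cases h3 : (3 : 𝓞 F) ∈ v.asIdeal
  · exact hd.cd e v h3
  · exact ⟨hd.ne_zero e, Or.inl ⟨h3, h⟩⟩

/-- the ramified places are prime to `3` -/
theorem AdG.not_three {d : F} (hd : AdG e d) {v : HeightOneSpectrum (𝓞 F)} (h : ¬ t3 v d) :
    (3 : 𝓞 F) ∉ v.asIdeal := by
  intro h3
  exact h ((hd.cd e v h3).t3 e v)

omit [NumberField F] in
theorem p16_not_mem {v : HeightOneSpectrum (𝓞 F)} {m : 𝓞 F}
    (h : IsCoprime v.asIdeal (Ideal.span {m})) : m ∉ v.asIdeal := by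
  intro hm
  rw [Ideal.isCoprime_iff_sup_eq] at h
  apply v.isPrime.ne_top
  rw [eq_top_iff, ← h]
  exact sup_le le_rfl ((Ideal.span_singleton_le_iff_mem _).2 hm)

theorem p16_prin_pow (I : Ideal (𝓞 F)) (hI : I ≠ 0) :
    ∃ (n : ℕ) (g : 𝓞 F), n ≠ 0 ∧ I ^ n = Ideal.span {g} := by
  have h1 : ClassGroup.mk0 (⟨I, mem_nonZeroDivisors_iff_ne_zero.2 hI⟩ :
      nonZeroDivisors (Ideal (𝓞 F))) ^ Fintype.card (ClassGroup (𝓞 F)) = 1 := pow_card_eq_one
  rw [← map_pow] at h1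
  have h2 := (ClassGroup.mk0_eq_one_iff
    ((⟨I, mem_nonZeroDivisors_iff_ne_zero.2 hI⟩ : nonZeroDivisors (Ideal (𝓞 F))) ^
      Fintype.card (ClassGroup (𝓞 F))).2).1 h1
  obtain ⟨g, hg⟩ := h2.principal
  refine ⟨Fintype.card (ClassGroup (𝓞 F)), g, Fintype.card_ne_zero, ?_⟩
  exact hg

theorem p16_finite {d : F} (hd : d ≠ 0) :
    {v : HeightOneSpectrum (𝓞 F) | ¬ t3 v d}.Finite := by
  obtain ⟨a, b, hb, hab⟩ := IsFractionRing.div_surjective (A := 𝓞 F) d
  have hb0 : b ≠ 0 := nonZeroDivisors.ne_zero hb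
  have ha0 : a ≠ 0 := by
    rintro rfl
    rw [map_zero, zero_div] at hab
    exact hd hab.symm
  refine ((finite_primes a ha0).union (finite_primes b hb0)).subset fun v hv => ?_
  by_contra hcon
  rw [Set.mem_union, not_or] at hcon
  apply hv
  have h1 : v.valuation F d = 1 := by
    rw [← hab, map_div₀]
    have ha1 := val_unit a v hcon.1
    have hb1 := val_unit b v hcon.2
    rw [ha1, hb1, div_one]
  rw [t3, od, h1, WithZero.log_one]
  exact dvd_zero _

/-- the values of the character -/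
theorem chi3_pow_three {d : F} (hd : AdG e d) {m : 𝓞 F}
    (hm : ∀ v : HeightOneSpectrum (𝓞 F), ¬ t3 v d → m ∈ v.asIdeal) {I : Ideal (𝓞 F)} (hI : I ≠ 0)
    (hc : IsCoprime I (Ideal.span {m})) : chi3 e d I ^ 3 = 1 := by
  refine ideal_induction (P := fun I => IsCoprime I (Ideal.span {m}) → chi3 e d I ^ 3 = 1)
    ?_ ?_ I hI hc
  · intro _
    rw [chi3_one, one_pow]
  · intro v J _ ih hJ
    have h1 : m ∉ v.asIdeal := p16_not_mem (IsCoprime.of_mul_left_left hJ)
    have h2 : t3 v d := by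
      by_contra h
      exact h1 (hm v h)
    rw [chi3_mul, mul_pow, ih (IsCoprime.of_mul_left_right hJ), mul_one, chi3_prime]
    exact cs_pow_three e v (hd.cd_of_t3 e h2)

/-- the zeros of the character -/
theorem chi3_zero {d : F} (hd : AdG e d) {I : Ideal (𝓞 F)} (v : HeightOneSpectrum (𝓞 F))
    (hv : ¬ t3 v d) (hI : I ≤ v.asIdeal) : chi3 e d I = 0 := by
  obtain ⟨J, rfl⟩ := Ideal.dvd_iff_le.2 hI
  rw [chi3_mul, chi3_prime, (cs_eq_zero e v).2 (fun h => hv (h.t3 e v)), zero_mul]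

theorem HH_ray3 {d : F} {g : 𝓞 F} (hd : AdG e d) (hg : g ≠ 0)
    (h : ∀ v : HeightOneSpectrum (𝓞 F), ¬ t3 v d → g - 1 ∈ v.asIdeal) :
    HH e d (g : F) = chi3 e d (Ideal.span {g}) := by
  rw [chi3, cm_span _ hg, HH]
  refine finprod_congr fun v => ?_
  have hgF : (g : F) ≠ 0 := RingOfIntegers.coe_ne_zero_iff.2 hg
  by_cases h1 : t3 v d
  · exact T_of_cd e v (hd.cd_of_t3 e h1) hgF (cnt v g) (od_int v hg)
  · have h2 := h v h1
    have h3 := hd.not_three e h1
    have h4 : g ∉ v.asIdeal := by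
      intro h4
      apply v.isPrime.ne_top
      rw [Ideal.eq_top_iff_one]
      have h5 := Ideal.sub_mem _ h4 h2
      rwa [sub_sub_cancel] at h5
    have h6 : v.valuation F ((g : F) - 1) < 1 := by
      have h7 := (val_lt_iff (g - 1) v).2 h2
      have h8 : algebraMap (𝓞 F) F (g - 1) = algebraMap (𝓞 F) F g - 1 := by
        rw [map_sub, map_one]
      have h9 : (((g - 1 : 𝓞 F) : 𝓞 F) : F) = (g : F) - 1 := h8
      rwa [h9] at h7
    rw [T_of_one e v (hd.ne_zero e) h3 h6, cnt_zero v h4, pow_zero]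

/-- **the character is trivial on the ray** -/
theorem chi3_ray (hP : PF e) {d : F} {g m : 𝓞 F} (hd : AdG e d) (hg : g ≠ 0)
    (hm : ∀ v : HeightOneSpectrum (𝓞 F), ¬ t3 v d → m ∈ v.asIdeal) (hgm : m ∣ g - 1) :
    chi3 e d (Ideal.span {g}) = 1 := by
  rw [← HH_ray3 e hd hg]
  · exact hP d (g : F) hd (RingOfIntegers.coe_ne_zero_iff.2 hg)
  · intro v hv
    obtain ⟨c, hc⟩ := hgm
    rw [hc]
    exact Ideal.mul_mem_right _ _ (hm v hv)

/-- a modulus -/
theorem exists_mod3 {d : F} (hd : AdG e d) : ∃ m : 𝓞 F, m ≠ 0 ∧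
    (∀ v : HeightOneSpectrum (𝓞 F), m ∈ v.asIdeal ↔ (e p7 ∈ v.asIdeal ∨ ¬ t3 v d)) ∧
    e p7 ∣ m := by
  choose n g hn hg using fun v : HeightOneSpectrum (𝓞 F) => p16_prin_pow v.asIdeal v.ne_bot
  set T := (p16_finite (hd.ne_zero e)).toFinset with hT
  have hTm : ∀ v, v ∈ T ↔ ¬ t3 v d := fun v => by rw [hT, Set.Finite.mem_toFinset]; rfl
  have hgm : ∀ v u : HeightOneSpectrum (𝓞 F), g v ∈ u.asIdeal ↔ u = v := by
    intro v u
    constructor
    · intro h
      have h1 : v.asIdeal ^ n v ≤ u.asIdeal := by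
        rw [hg v, Ideal.span_singleton_le_iff_mem]
        exact h
      have h2 : v.asIdeal ≤ u.asIdeal := u.isPrime.le_of_pow_le h1
      exact (HeightOneSpectrum.ext (v.isMaximal.eq_of_le u.isPrime.ne_top h2)).symm
    · rintro rfl
      have h1 : g u ∈ u.asIdeal ^ n u := by
        rw [hg u]
        exact Ideal.mem_span_singleton_self _
      exact Ideal.pow_le_self (hn u) h1
  have hg0 : ∀ v, g v ≠ 0 := by
    intro v h0
    have h1 := hg v
    rw [h0, Ideal.span_singleton_eq_bot.2 rfl] at h1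
    exact pow_ne_zero (n v) v.ne_bot h1
  have hp0 : e p7 ≠ 0 := by
    intro h0
    have h7 : (p7 * ⟨2, -1⟩ : Eis) = 7 := by decide
    have h8 : e p7 * e ⟨2, -1⟩ = 7 := by
      rw [← map_mul, h7, map_ofNat]
    rw [h0, zero_mul] at h8
    exact (by norm_num : (7 : 𝓞 F) ≠ 0) h8.symm
  have hmem : ∀ v : HeightOneSpectrum (𝓞 F), e p7 * ∏ u ∈ T, g u ∈ v.asIdeal ↔
      (e p7 ∈ v.asIdeal ∨ ¬ t3 v d) := by
    intro v
    rw [v.isPrime.mul_mem_iff_mem_or_mem, v.isPrime.prod_mem_iff]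
    constructor
    · rintro (h | ⟨u, hu, h⟩)
      · exact Or.inl h
      · rw [hgm] at h
        rw [h]
        exact Or.inr ((hTm u).1 hu)
    · rintro (h | h)
      · exact Or.inl h
      · exact Or.inr ⟨v, (hTm v).2 h, (hgm v v).2 rfl⟩
  exact ⟨e p7 * ∏ v ∈ T, g v, mul_ne_zero hp0 (Finset.prod_ne_zero_iff.2 fun v _ => hg0 v), hmem,
    dvd_mul_right _ _⟩

end

end TH
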