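import Pool.Agent.MP_9ab903_nt.TH.P17
import Pool.Agent.MP_9ab903_nt.TH.P16
import Pool.Agent.MP_9ab903_nt.TH.B0
import Pool.Agent.MP_9ab903_nt.NAB.EU3

set_option autoImplicit false

open NumberField IsDedekindDomain ArithmeticFunction
open CM27 CMT NAB CF TWR
open scoped Classical ComplexConjugate

namespace TH

/-! ## [TH-B3] the `L`-series in a cubic step (file TH/B3.lean)

`psv_up`: from `psv_spec` for `und k w`, `psv_eq`. `step_local`: for each place `v` of `k`: `∏_{w ∣ v} (1 - g(psv w) X^(d w)) = ∏_{j<3} (1 - g(psv v · (cs_v d)^j) X^(d v))`: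
split: `cs = 1`, three places with the same `psv` and `d` (`kum_split`); inert (`kum_inert`): `cs` is a primitive cube root of unity, `psv w = psv v ^ 3`, `d w = 3 d v`; ramified (`kum_ram`, `w ∤ 3`
by `UL`): `cs = 0` (`cs_eq_zero`), `psv w = psv v`, one place. `IL_step`: both sides are multiplicative (`isMultiplicative_IL`), compare the local series (`loc_IL`, `loc_mul`, `CF.ar_uniq`) as in the
proof of `NAB.LCW_eq_IL`; the product over the places of `F` above `p` is grouped over the places of `k` (`Finset.prod_fiberwise` / `Cyc.above`). -/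

section
variable {k F : Type} [Field k] [NumberField k] [Field F] [NumberField F] [Algebra k F]
  (e : Eis →+* 𝓞 k)

theorem psv_up (w : HeightOneSpectrum (𝓞 F)) (g : ℕ) (hg : 0 < g)
    (h : nv w = nv (und k w) ^ g) : psv (eu k F e) w = psv e (und k w) ^ g := by
  by_cases h7 : e p7 ∈ (und k w).asIdeal
  · have h7' : (eu k F e) p7 ∈ w.asIdeal := by
      rw [mem_und] at h7
      exact h7
    rw [psv_p7 _ _ h7', psv_p7 _ _ h7, zero_pow hg.ne']
  · obtain ⟨b, f, hb7, hb, hbv, hf, hn, hP⟩ := psv_spec e (und k w) h7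
    have hbw : (eu k F e) b ∈ w.asIdeal := by
      rw [mem_und] at hbv
      exact hbv
    rw [psv_eq (eu k F e) w hb7 hb hbw (Nat.mul_pos hf hg) (by rw [h, hn, pow_mul]), hP, pow_mul]

variable (S : Cyc k F) {d : k} {δ : F} (hd : d ≠ 0) (h3 : δ ^ 3 = algebraMap k F d)
  (hs : sF S δ = ((eu k F e om : 𝓞 F) : F) * δ) (hA : AdG e d) (hU : UL (eu k F e))

/-- the algebraic identity at the inert places -/
theorem b3_alg (P z : ℂ) (hz : 1 + z + z ^ 2 = 0) (Y : PowerSeries ℂ) :
    (1 - PowerSeries.C P * Y) * (1 - PowerSeries.C (z * P) * Y) *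
      (1 - PowerSeries.C (z ^ 2 * P) * Y) = 1 - PowerSeries.C (P ^ 3) * Y ^ 3 := by
  have h1 : 1 + PowerSeries.C z + PowerSeries.C z ^ 2 = (0 : PowerSeries ℂ) := by
    have := congrArg (PowerSeries.C (R := ℂ)) hz
    rwa [map_add, map_add, map_one, map_pow, _root_.map_zero] at this
  have h2 : PowerSeries.C z ^ 3 = (1 : PowerSeries ℂ) := by
    linear_combination (PowerSeries.C z - 1) * h1
  simp only [map_mul, map_pow]
  linear_combination (-PowerSeries.C P * Y + PowerSeries.C P ^ 2 * Y ^ 2 * PowerSeries.C z) * h1 -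
    PowerSeries.C P ^ 3 * Y ^ 3 * h2

theorem b3_absNorm {K : Type} [Field K] [NumberField K] (v : HeightOneSpectrum (𝓞 K)) :
    Ideal.absNorm v.asIdeal = nv v := by
  rw [Ideal.absNorm_apply, Submodule.cardQuot_apply]
  rfl

include hd h3 hs hA hU in
/-- the local identity -/
theorem b3_local (g : Eis →+* ℂ) (w₀ : HeightOneSpectrum (𝓞 F))
    (p : ℕ) (hp : p.Prime) (S₀ : Finset (HeightOneSpectrum (𝓞 F)))
    (hS₀ : ∀ w, w ∈ S₀ ↔ und k w = und k w₀)
    (dF : HeightOneSpectrum (𝓞 F) → ℕ) (dk : ℕ)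
    (hdF : ∀ w ∈ S₀, nv w = p ^ dF w) (hdk : nv (und k w₀) = p ^ dk) :
    ∏ w ∈ S₀, (1 - PowerSeries.C (g (psv (eu k F e) w)) * PowerSeries.X ^ dF w) =
      (1 - PowerSeries.C (g (psv e (und k w₀))) * PowerSeries.X ^ dk) *
      (1 - PowerSeries.C (g (cs e (und k w₀) d * psv e (und k w₀))) * PowerSeries.X ^ dk) *
      (1 - PowerSeries.C (g (cs e (und k w₀) d ^ 2 * psv e (und k w₀))) *
        PowerSeries.X ^ dk) := by
  have hinj : ∀ a b : ℕ, p ^ a = p ^ b → a = b := fun a b h => Nat.pow_right_injective hp.two_le h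
  have hw₀ : w₀ ∈ S₀ := (hS₀ w₀).2 rfl
  rcases kinds S w₀ with ⟨k1, k2, k3⟩ | ⟨k1, k2, k3, k4⟩ | ⟨k1, k2, k3, k4⟩
  · -- split
    obtain ⟨n1, n2⟩ := S.sw_ne k1
    have hset : S₀ = {w₀, S.sw w₀, S.sw (S.sw w₀)} := by
      ext w
      rw [hS₀, Finset.mem_insert, Finset.mem_insert, Finset.mem_singleton]
      constructor
      · intro h
        exact S.above _ _ h
      · rintro (h | h | h)
        · rw [h]
        · rw [h, S.und_sw]
        · rw [h, S.und_sw, S.und_sw]
    have hfac : ∀ w ∈ S₀, nv w = nv (und k w) →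
        (1 - PowerSeries.C (g (psv (eu k F e) w)) * PowerSeries.X ^ dF w : PowerSeries ℂ) =
        1 - PowerSeries.C (g (psv e (und k w₀))) * PowerSeries.X ^ dk := by
      intro w hw hn
      have hu := (hS₀ w).1 hw
      have e1 : psv (eu k F e) w = psv e (und k w₀) := by
        rw [psv_up e w 1 one_pos (by rw [pow_one]; exact hn), pow_one, hu]
      have e2 : dF w = dk := by
        apply hinj
        rw [← hdF w hw, ← hdk, hn, hu]
      rw [e1, e2]
    have hn1 : nv (S.sw w₀) = nv (und k (S.sw w₀)) := by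
      rcases kinds S (S.sw w₀) with ⟨a, b, c⟩ | ⟨a, b, c, _⟩ | ⟨a, b, c, _⟩
      · exact b
      · exact absurd a n2
      · exact absurd a n2
    have n3 : S.sw (S.sw (S.sw w₀)) ≠ S.sw (S.sw w₀) := by
      rw [S.sw_three]
      exact n1.symm
    have hn2 : nv (S.sw (S.sw w₀)) = nv (und k (S.sw (S.sw w₀))) := by
      rcases kinds S (S.sw (S.sw w₀)) with ⟨a, b, c⟩ | ⟨a, b, c, _⟩ | ⟨a, b, c, _⟩
      · exact b
      · exact absurd a n3
      · exact absurd a n3
    have m1 : S.sw w₀ ∈ S₀ := by rw [hset]; simp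
    have m2 : S.sw (S.sw w₀) ∈ S₀ := by rw [hset]; simp
    have hcs : cs e (und k w₀) d = 1 := kum_split S e hd h3 hs hA w₀ k1
    rw [hcs, one_mul, one_pow, one_mul]
    have f0 := hfac w₀ hw₀ k2
    have f1 := hfac _ m1 hn1
    have f2 := hfac _ m2 hn2
    rw [hset, Finset.prod_insert, Finset.prod_insert, Finset.prod_singleton, f0, f1, f2, mul_assoc]
    · rw [Finset.mem_singleton]
      exact n2.symm
    · rw [Finset.mem_insert, Finset.mem_singleton, not_or]
      exact ⟨k1.symm, n1.symm⟩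
  · -- ramified
    have hset : S₀ = {w₀} := by
      ext w
      rw [hS₀, Finset.mem_singleton]
      constructor
      · intro h
        rcases S.above _ _ h with h1 | h1 | h1
        · exact h1
        · rw [h1, k1]
        · rw [h1, k1, k1]
      · intro h
        rw [h]
    have hw3 : (3 : 𝓞 F) ∉ w₀.asIdeal := by
      intro h3w
      have h3v : (3 : 𝓞 k) ∈ (und k w₀).asIdeal := (three_und w₀).2 h3w
      have hla : e la ∈ (und k w₀).asIdeal := (three_mem_iff e _).1 h3v
      have h5 : algebraMap (𝓞 k) (𝓞 F) (e la) ∈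
          Ideal.map (algebraMap (𝓞 k) (𝓞 F)) (und k w₀).asIdeal := Ideal.mem_map_of_mem _ hla
      rw [k3] at h5
      exact hU w₀ h3w (Ideal.pow_le_pow_right (by norm_num) h5)
    have hcs : cs e (und k w₀) d = 0 := by
      rw [cs_eq_zero]
      intro hc
      exact kum_ram S e hd h3 hs w₀ hw3 k1 k2 k4 hc.t3
    have e1 : psv (eu k F e) w₀ = psv e (und k w₀) := by
      rw [psv_up e w₀ 1 one_pos (by rw [pow_one]; exact k2), pow_one]
    have e2 : dF w₀ = dk := by
      apply hinj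
      rw [← hdF w₀ hw₀, ← hdk, k2]
    rw [hset, Finset.prod_singleton, hcs, e1, e2, zero_pow two_ne_zero, zero_mul,
      _root_.map_zero, _root_.map_zero, zero_mul, sub_zero, mul_one, mul_one]
  · -- inert
    have hset : S₀ = {w₀} := by
      ext w
      rw [hS₀, Finset.mem_singleton]
      constructor
      · intro h
        rcases S.above _ _ h with h1 | h1 | h1
        · exact h1
        · rw [h1, k1]
        · rw [h1, k1, k1]
      · intro h
        rw [h]
    have e1 : psv (eu k F e) w₀ = psv e (und k w₀) ^ 3 := psv_up e w₀ 3 (by norm_num) k2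
    have e2 : dF w₀ = dk * 3 := by
      apply hinj
      rw [← hdF w₀ hw₀, k2, hdk, pow_mul]
    obtain ⟨hz1, hz3⟩ := kum_inert S e hd h3 hs hA w₀ k1 k2
    have hz : 1 + cs e (und k w₀) d + cs e (und k w₀) d ^ 2 = 0 := by
      rcases cube_one_cases hz3 with h | h | h
      · exact absurd h hz1
      · rw [h]
        linear_combination om_quad
      · rw [h]
        have h4 : (om : Eis) ^ 4 = om := by
          have : (om : Eis) ^ 4 = om ^ 3 * om := by ring
          rw [this, om_cube, one_mul]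
        have h5 : (om ^ 2 : Eis) ^ 2 = om := by
          rw [← pow_mul]
          exact h4
        rw [h5]
        linear_combination om_quad
    have hgz : 1 + g (cs e (und k w₀) d) + g (cs e (und k w₀) d) ^ 2 = 0 := by
      have := congrArg g hz
      rwa [map_add, map_add, map_one, map_pow, _root_.map_zero] at this
    have e3 : g (psv e (und k w₀) ^ 3) = g (psv e (und k w₀)) ^ 3 := map_pow g _ _
    have e4 : g (cs e (und k w₀) d * psv e (und k w₀)) =
        g (cs e (und k w₀) d) * g (psv e (und k w₀)) := map_mul g _ _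
    have e5 : g (cs e (und k w₀) d ^ 2 * psv e (und k w₀)) =
        g (cs e (und k w₀) d) ^ 2 * g (psv e (und k w₀)) := by rw [map_mul g, map_pow g]
    rw [hset, Finset.prod_singleton, e1, e2, e3, e4, e5, pow_mul]
    exact (b3_alg _ _ hgz _).symm

include hd h3 hs hA hU in
/-- **the step identity** (`g` is `emb` or its complex conjugate) -/
theorem IL_step (g : Eis →+* ℂ) :
    IL F (fun I => g (Ps (eu k F e) I)) =
      IL k (fun I => g (Ps e I)) * IL k (fun I => g (chi3 e d I * Ps e I)) *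
        IL k (fun I => g (chi3 e d I ^ 2 * Ps e I)) := by
  have m0F : ∀ I J, g (Ps (eu k F e) (I * J)) = g (Ps (eu k F e) I) * g (Ps (eu k F e) J) :=
    fun I J => by rw [Ps_mul, map_mul]
  have o0F : g (Ps (eu k F e) 1) = 1 := by rw [Ps_one, map_one]
  have m0 : ∀ I J, g (Ps e (I * J)) = g (Ps e I) * g (Ps e J) :=
    fun I J => by rw [Ps_mul, map_mul]
  have o0 : g (Ps e 1) = 1 := by rw [Ps_one, map_one]
  have m1 : ∀ I J, g (chi3 e d (I * J) * Ps e (I * J)) =
      g (chi3 e d I * Ps e I) * g (chi3 e d J * Ps e J) := fun I J => by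
    rw [chi3_mul, Ps_mul, ← map_mul]
    congr 1
    ring
  have o1 : g (chi3 e d 1 * Ps e 1) = 1 := by rw [chi3_one, Ps_one, one_mul, map_one]
  have m2 : ∀ I J, g (chi3 e d (I * J) ^ 2 * Ps e (I * J)) =
      g (chi3 e d I ^ 2 * Ps e I) * g (chi3 e d J ^ 2 * Ps e J) := fun I J => by
    rw [chi3_mul, Ps_mul, ← map_mul]
    congr 1
    ring
  have o2 : g (chi3 e d 1 ^ 2 * Ps e 1) = 1 := by
    rw [chi3_one, Ps_one, one_pow, one_mul, map_one]
  rw [ArithmeticFunction.IsMultiplicative.eq_iff_eq_on_prime_powers _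
    (isMultiplicative_IL F _ o0F m0F) _
    (((isMultiplicative_IL k _ o0 m0).mul (isMultiplicative_IL k _ o1 m1)).mul
      (isMultiplicative_IL k _ o2 m2))]
  intro p i hp
  rw [← coeff_loc, ← coeff_loc]
  congr 1
  have hfinF : {v : HeightOneSpectrum (𝓞 F) | (p : 𝓞 F) ∈ v.asIdeal}.Finite := by
    have h30 : Ideal.span {(p : 𝓞 F)} ≠ 0 := by
      rw [Ne, Ideal.zero_eq_bot, Ideal.span_singleton_eq_bot]
      exact_mod_cast hp.ne_zero
    refine (Ideal.finite_factors h30).subset ?_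
    intro v hv
    exact Ideal.dvd_span_singleton.2 hv
  have hfink : {v : HeightOneSpectrum (𝓞 k) | (p : 𝓞 k) ∈ v.asIdeal}.Finite := by
    have h30 : Ideal.span {(p : 𝓞 k)} ≠ 0 := by
      rw [Ne, Ideal.zero_eq_bot, Ideal.span_singleton_eq_bot]
      exact_mod_cast hp.ne_zero
    refine (Ideal.finite_factors h30).subset ?_
    intro v hv
    exact Ideal.dvd_span_singleton.2 hv
  set SF := hfinF.toFinset with hSF
  set Sk := hfink.toFinset with hSk
  have memF : ∀ v : HeightOneSpectrum (𝓞 F), v ∈ SF ↔ (p : 𝓞 F) ∈ v.asIdeal := fun v => by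
    simp [hSF]
  have memk : ∀ v : HeightOneSpectrum (𝓞 k), v ∈ Sk ↔ (p : 𝓞 k) ∈ v.asIdeal := fun v => by
    simp [hSk]
  have hund : ∀ w : HeightOneSpectrum (𝓞 F), und k w ∈ Sk ↔ w ∈ SF := by
    intro w
    rw [memk, memF, mem_und, map_natCast]
  have hdF : ∀ v : HeightOneSpectrum (𝓞 F), ∃ n : ℕ, v ∈ SF → 0 < n ∧ nv v = p ^ n := by
    intro v
    by_cases hv : v ∈ SF
    · obtain ⟨n, h1, h2⟩ := CF.ar_card F v p hp ((memF v).1 hv)
      exact ⟨n, fun _ => ⟨h1, h2⟩⟩
    · exact ⟨0, fun h => absurd h hv⟩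
  choose dF hdF using hdF
  have hdk : ∀ v : HeightOneSpectrum (𝓞 k), ∃ n : ℕ, v ∈ Sk → 0 < n ∧ nv v = p ^ n := by
    intro v
    by_cases hv : v ∈ Sk
    · obtain ⟨n, h1, h2⟩ := CF.ar_card k v p hp ((memk v).1 hv)
      exact ⟨n, fun _ => ⟨h1, h2⟩⟩
    · exact ⟨0, fun h => absurd h hv⟩
  choose dk hdk using hdk
  have aF : ∀ v ∈ SF, 0 < dF v ∧ Ideal.absNorm v.asIdeal = p ^ dF v := fun v hv =>
    ⟨(hdF v hv).1, by rw [b3_absNorm]; exact (hdF v hv).2⟩
  have ak : ∀ v ∈ Sk, 0 < dk v ∧ Ideal.absNorm v.asIdeal = p ^ dk v := fun v hv =>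
    ⟨(hdk v hv).1, by rw [b3_absNorm]; exact (hdk v hv).2⟩
  have LF := loc_IL F (fun I => g (Ps (eu k F e) I)) o0F m0F hp SF memF dF aF
  have L0 := loc_IL k (fun I => g (Ps e I)) o0 m0 hp Sk memk dk ak
  have L1 := loc_IL k (fun I => g (chi3 e d I * Ps e I)) o1 m1 hp Sk memk dk ak
  have L2 := loc_IL k (fun I => g (chi3 e d I ^ 2 * Ps e I)) o2 m2 hp Sk memk dk ak
  simp only [Ps_prime, chi3_prime] at LF L0 L1 L2
  rw [loc_mul hp, loc_mul hp]
  refine CF.ar_uniq LF ?_
  have key : ∏ w ∈ SF, (1 - PowerSeries.C (g (psv (eu k F e) w)) * PowerSeries.X ^ dF w :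
        PowerSeries ℂ) =
      (∏ v ∈ Sk, (1 - PowerSeries.C (g (psv e v)) * PowerSeries.X ^ dk v)) *
      (∏ v ∈ Sk, (1 - PowerSeries.C (g (cs e v d * psv e v)) * PowerSeries.X ^ dk v)) *
      (∏ v ∈ Sk, (1 - PowerSeries.C (g (cs e v d ^ 2 * psv e v)) * PowerSeries.X ^ dk v)) := by
    rw [← Finset.prod_fiberwise_of_maps_to (s := SF) (t := Sk) (g := fun w => und k w)
      (fun w hw => (hund w).2 hw), ← Finset.prod_mul_distrib, ← Finset.prod_mul_distrib]
    refine Finset.prod_congr rfl fun v hv => ?_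
    obtain ⟨w₀, hw₀⟩ := exists_above (F := F) v
    rw [← hw₀] at hv ⊢
    have hwF : w₀ ∈ SF := (hund w₀).1 hv
    refine b3_local e S hd h3 hs hA hU g w₀ p hp _ ?_ dF (dk (und k w₀)) ?_ (hdk _ hv).2
    · intro w
      rw [Finset.mem_filter]
      constructor
      · exact fun h => h.2
      · intro h
        refine ⟨?_, h⟩
        rw [← hund, h]
        exact hv
    · intro w hw
      exact (hdF w (Finset.mem_filter.1 hw).1).2
  rw [key]
  linear_combination (loc p (IL k fun I => g (chi3 e d I * Ps e I)) *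
      (∏ v ∈ Sk, (1 - PowerSeries.C (g (cs e v d * psv e v)) * PowerSeries.X ^ dk v)) *
      (loc p (IL k fun I => g (chi3 e d I ^ 2 * Ps e I)) *
      (∏ v ∈ Sk, (1 - PowerSeries.C (g (cs e v d ^ 2 * psv e v)) * PowerSeries.X ^ dk v)))) * L0 +
    (loc p (IL k fun I => g (chi3 e d I ^ 2 * Ps e I)) *
      (∏ v ∈ Sk, (1 - PowerSeries.C (g (cs e v d ^ 2 * psv e v)) * PowerSeries.X ^ dk v))) * L1 +
    L2

end

end TH
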