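import Pool.Agent.MP_9ab903_nt.TH.B0
import Pool.Agent.MP_9ab903_nt.TH.B4
import Pool.Agent.MP_9ab903_nt.TH.B1c
import Pool.Agent.MP_9ab903_nt.TH.P16

set_option autoImplicit false

open NumberField IsDedekindDomain
open CM27 CMT NAB CF TWR
open scoped Classical

namespace TH

/-! ## [TH-B5] the Hecke character at the primes modulo which `ω - 4` is not a square (file TH/B5.lean)

`b ≡ 1 mod π`, prime, not dividing `6`, and `ω - 4` not a square modulo `b`. Write `b = ε b₀`, `b₀` primary; `b₀ ≡ 1 mod λ`, units: `ω ≡ 1 mod λ`, so `b ≡ ± 1 mod λ`, `b ≡ ± 1` according to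
`ε = ± ω^j`, i.e. `b ≡ 1 mod λ` iff `ε³ = 1` iff `b₀³ ≡ 1 mod π` (`b ≡ 1 mod π`: `b₀³ = ε⁻³`), iff `(D'/b₀) = 1` (`quad_val` in B1c: `b₀³ ≡ s mod π`, `D'^((N b - 1)/2) ≡ s mod b`), and
`D' = 48 (4 - ω) = (4 λ)² ω² (ω - 4)` is a square modulo `b` iff `ω - 4` is. So `b ≡ -1 mod λ`, `psv = b^f ≡ -1` for odd `f`. In the residue field of `v`: `ω - 4` is not a square modulo `v`
implies that it is not a square modulo `b` and that `f` is odd. -/

theorem b5_euler {R : Type*} [CommRing R] (k : Type*) [Field k] [Fintype k] (r : R →+* k)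
    (hr : Function.Surjective r) (h2 : r 2 ≠ 0) {a : R} (ha : r a ≠ 0) :
    ((∃ x, r (x ^ 2 - a) = 0) ↔ r (a ^ ((Nat.card k - 1) / 2) - 1) = 0) ∧ Nat.card k % 2 = 1 ∧
      r (a ^ (Nat.card k - 1) - 1) = 0 := by
  have hc : ringChar k ≠ 2 := by
    intro h
    apply h2
    rw [map_ofNat]
    have := ringChar.Nat.cast_ringChar (R := k)
    rw [h] at this
    exact_mod_cast this
  have hodd := FiniteField.odd_card_of_char_ne_two hc
  rw [Nat.card_eq_fintype_card]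
  have e : (Fintype.card k - 1) / 2 = Fintype.card k / 2 := by omega
  refine ⟨?_, hodd, ?_⟩
  · rw [e, map_sub, map_pow, map_one, sub_eq_zero, ← FiniteField.isSquare_iff hc ha]
    constructor
    · rintro ⟨x, hx⟩
      rw [map_sub, map_pow, sub_eq_zero] at hx
      exact ⟨r x, by rw [← hx, sq]⟩
    · rintro ⟨y, hy⟩
      obtain ⟨x, rfl⟩ := hr y
      exact ⟨x, by rw [map_sub, map_pow, hy, sq, sub_self]⟩
  · rw [map_sub, map_pow, map_one, FiniteField.pow_card_sub_one_eq_one (r a) ha, sub_self]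

theorem b5_eis {b : Eis} (hb : Prime b) (h2 : ¬ b ∣ 2) {a : Eis} (ha : ¬ b ∣ a) :
    ((∃ x, b ∣ x ^ 2 - a) ↔ b ∣ a ^ ((b.norm.natAbs - 1) / 2) - 1) ∧ b.norm.natAbs % 2 = 1 ∧
      b ∣ a ^ (b.norm.natAbs - 1) - 1 := by
  obtain ⟨k, _, _, r, hr, hk, hc⟩ := exists_residue b hb
  have h := b5_euler k r hr (a := a) (fun h => h2 ((hk 2).1 h)) (fun h => ha ((hk a).1 h))
  rw [hc] at h
  simpa only [hk] using h

theorem b5_v {F : Type} [Field F] [NumberField F] (v : HeightOneSpectrum (𝓞 F))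
    (h2 : (2 : 𝓞 F) ∉ v.asIdeal) {a : 𝓞 F} (ha : a ∉ v.asIdeal) :
    (∃ x : 𝓞 F, x ^ 2 - a ∈ v.asIdeal) ↔ a ^ ((nv v - 1) / 2) - 1 ∈ v.asIdeal := by
  have hmax := v.isMaximal
  let _ : Field (𝓞 F ⧸ v.asIdeal) := Ideal.Quotient.field v.asIdeal
  have hfin : Finite (𝓞 F ⧸ v.asIdeal) := Ring.HasFiniteQuotients.finiteQuotient v.ne_bot
  let _ : Fintype (𝓞 F ⧸ v.asIdeal) := Fintype.ofFinite _
  have h := (b5_euler (𝓞 F ⧸ v.asIdeal) (Ideal.Quotient.mk v.asIdeal) Ideal.Quotient.mk_surjective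
    (a := a) (fun h => h2 (Ideal.Quotient.eq_zero_iff_mem.1 h))
    (fun h => ha (Ideal.Quotient.eq_zero_iff_mem.1 h))).1
  simp only [Ideal.Quotient.eq_zero_iff_mem] at h
  exact h

theorem b5_p7_two : ¬ p7 ∣ 2 := by
  intro h
  have h1 := map_dvd QuadraticAlgebra.norm h
  have h2 : p7.norm = 7 := by decide
  have h3 : (2 : Eis).norm = 4 := by decide
  rw [h2, h3] at h1
  omega

theorem b5_la_cube {u : Eis} (h : u ^ 3 = 1) : la ∣ u - 1 := by
  rcases cube_one_cases h with rfl | rfl | rfl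
  · simp
  · exact ⟨-1, by rw [la_eq]; ring⟩
  · exact ⟨-(1 + om), by rw [la_eq]; ring⟩

theorem b5_three {b : Eis} (h3 : ¬ b ∣ 3) : ¬ b ∣ la := by
  intro h
  apply h3
  rw [three_eq]
  exact dvd_mul_of_dvd_right (dvd_pow h two_ne_zero) _

theorem b5_p7 {b : Eis} (hb : Prime b) (h7 : p7 ∣ b - 1) : ¬ b ∣ p7 := by
  have hdom := eis_isDomain
  intro h
  have h1 : Associated b p7 := hb.associated_of_dvd p7_prime h
  have h2 : p7 ∣ b := h1.dvd'
  apply p7_prime.not_isUnit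
  rw [isUnit_iff_dvd_one]
  have h3 : (1 : Eis) = b - (b - 1) := by ring
  rw [h3]
  exact dvd_sub h2 h7

theorem b5_dd {b : Eis} (hb : Prime b) (h7 : ¬ b ∣ p7) (h3 : ¬ b ∣ 3) : ¬ b ∣ dd := by
  rw [dd_eq, dvd_neg]
  intro h
  rcases hb.dvd_or_dvd h with h | h
  · exact b5_three h3 h
  · exact h7 h

theorem b5_key {b : Eis} (hb : Prime b) (h7 : p7 ∣ b - 1) (h2 : ¬ b ∣ 2) (h3 : ¬ b ∣ 3) :
    (la ∣ b - 1 ∧ ∃ x : Eis, b ∣ x ^ 2 - dd) ∨ (la ∣ b + 1 ∧ ¬ ∃ x : Eis, b ∣ x ^ 2 - dd) := by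
  have hdom := eis_isDomain
  obtain ⟨b0, hb0, hp0, hass⟩ := exists_primary b hb h3
  have hbp : ¬ b ∣ p7 := b5_p7 hb h7
  obtain ⟨u, hu⟩ := hass.symm
  have hu6 : (u : Eis) ^ 6 = 1 := (unit_iff _).1 u.isUnit
  have hb0d : ∀ a, b0 ∣ a → b ∣ a := fun a h => hass.dvd.trans h
  obtain ⟨s, hs1, hs2, hs3⟩ := quad_val b0 hb0 (fun h => h2 (hb0d _ h)) (fun h => h3 (hb0d _ h))
    (fun h => hbp (hb0d _ h)) hp0
  have hn : b0.norm = b.norm := by
    rw [← hu, map_mul, (eis_isUnit_iff _).1 u.isUnit, mul_one]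
  rw [hn] at hs3
  have hs4 := hb0d _ hs3
  have hD : (48 * (4 - om) : Eis) = (4 * la * om) ^ 2 * dd := by decide
  have hla := b5_three h3
  have h4 : ¬ b ∣ 4 * la * om := by
    intro h
    rcases hb.dvd_or_dvd h with h | h
    · rcases hb.dvd_or_dvd h with h | h
      · have e : (4 : Eis) = 2 * 2 := by decide
        rw [e] at h
        rcases hb.dvd_or_dvd h with h | h
        · exact h2 h
        · exact h2 h
      · exact hla h
    · apply hb.not_isUnit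
      rw [isUnit_iff_dvd_one]
      exact h.trans ⟨om ^ 2, by decide⟩
  have hdd := b5_dd hb hbp h3
  obtain ⟨hE, hodd, -⟩ := b5_eis hb h2 hdd
  obtain ⟨-, -, hF⟩ := b5_eis hb h2 h4
  set N := b.norm.natAbs with hN
  have hs5 : b ∣ dd ^ ((N - 1) / 2) - s := by
    have e1 : (48 * (4 - om) : Eis) ^ ((N - 1) / 2) = (4 * la * om) ^ (N - 1) * dd ^ ((N - 1) / 2) := by
      rw [hD, mul_pow, ← pow_mul]
      congr 2
      omega
    have e2 : dd ^ ((N - 1) / 2) - s = (48 * (4 - om) : Eis) ^ ((N - 1) / 2) - s -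
        ((4 * la * om) ^ (N - 1) - 1) * dd ^ ((N - 1) / 2) := by
      rw [e1]
      ring
    rw [e2]
    exact dvd_sub hs4 (dvd_mul_of_dvd_left hF _)
  have hsv : (s = 1 → ∃ x : Eis, b ∣ x ^ 2 - dd) ∧ (s = -1 → ¬ ∃ x : Eis, b ∣ x ^ 2 - dd) := by
    constructor
    · rintro rfl
      exact hE.2 hs5
    · rintro rfl h
      have h8 := hE.1 h
      apply h2
      have e3 : (2 : Eis) = (dd ^ ((N - 1) / 2) - -1) - (dd ^ ((N - 1) / 2) - 1) := by ring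
      rw [e3]
      exact dvd_sub hs5 h8
  have hb3 : p7 ∣ b ^ 3 - 1 := by
    have e4 : b ^ 3 - 1 = (b - 1) * (b ^ 2 + b + 1) := by ring
    rw [e4]
    exact dvd_mul_of_dvd_left h7 _
  have hla0 : la ∣ b0 - 1 := by
    refine dvd_trans ?_ hp0
    rw [three_eq]
    exact dvd_mul_of_dvd_right (dvd_pow_self _ two_ne_zero) _
  have hu3 : (u : Eis) ^ 3 = 1 ∨ (u : Eis) ^ 3 = -1 := by
    have e5 : ((u : Eis) ^ 3 - 1) * ((u : Eis) ^ 3 + 1) = 0 := by
      have e6 : ((u : Eis) ^ 3 - 1) * ((u : Eis) ^ 3 + 1) = (u : Eis) ^ 6 - 1 := by ring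
      rw [e6, hu6, sub_self]
    rcases mul_eq_zero.1 e5 with h | h
    · exact Or.inl (sub_eq_zero.1 h)
    · exact Or.inr (eq_neg_of_add_eq_zero_left h)
  rcases hu3 with hu3 | hu3
  · left
    have hs' : s = 1 := by
      rcases hs1 with h | h
      · exact h
      · exfalso
        apply b5_p7_two
        have e7 : (2 : Eis) = (b0 ^ 3 - s) - (b ^ 3 - 1) := by
          rw [← hu, mul_pow, hu3, h]
          ring
        rw [e7]
        exact dvd_sub hs2 hb3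
    refine ⟨?_, hsv.1 hs'⟩
    have e8 : b - 1 = (b0 - 1) * u + (u - 1) := by rw [← hu]; ring
    rw [e8]
    exact dvd_add (dvd_mul_of_dvd_left hla0 _) (b5_la_cube hu3)
  · right
    have hs' : s = -1 := by
      rcases hs1 with h | h
      · exfalso
        apply b5_p7_two
        have e7 : (2 : Eis) = -(b0 ^ 3 - s) - (b ^ 3 - 1) := by
          rw [← hu, mul_pow, hu3, h]
          ring
        rw [e7]
        exact dvd_sub (dvd_neg.2 hs2) hb3
      · exact h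
    refine ⟨?_, hsv.2 hs'⟩
    have e8 : b + 1 = (b0 - 1) * u - ((-(u : Eis)) - 1) := by rw [← hu]; ring
    rw [e8]
    refine dvd_sub (dvd_mul_of_dvd_left hla0 _) (b5_la_cube ?_)
    have e9 : (-(u : Eis)) ^ 3 = -((u : Eis) ^ 3) := by ring
    rw [e9, hu3, neg_neg]

/-- the prime elements -/
theorem mod_la_of_nonsq {b : Eis} (hb : Prime b) (h7 : p7 ∣ b - 1) (h2 : ¬ b ∣ 2) (h3 : ¬ b ∣ 3)
    (hs : ¬ ∃ x : Eis, b ∣ x ^ 2 - dd) : la ∣ b + 1 := by
  rcases b5_key hb h7 h2 h3 with h | h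
  · exact absurd h.2 hs
  · exact h.1

theorem mod_la_of_sq {b : Eis} (hb : Prime b) (h7 : p7 ∣ b - 1) (h2 : ¬ b ∣ 2) (h3 : ¬ b ∣ 3)
    (hs : ∃ x : Eis, b ∣ x ^ 2 - dd) : la ∣ b - 1 := by
  rcases b5_key hb h7 h2 h3 with h | h
  · exact h.1
  · exact absurd hs h.2

theorem b5_geom (q f : ℕ) (hq : q % 2 = 1) (hf : f % 2 = 1) :
    ∃ S : ℕ, (q ^ f - 1) / 2 = ((q - 1) / 2) * (2 * S + 1) := by
  obtain ⟨c, rfl⟩ : ∃ c, q = 2 * c + 1 := ⟨q / 2, by omega⟩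
  have key : ∀ f : ℕ, ∃ S : ℕ, (2 * c + 1) ^ f = 2 * c * (2 * S + f) + 1 := by
    intro f
    induction f with
    | zero => exact ⟨0, by simp⟩
    | succ f ih =>
      obtain ⟨S, hS⟩ := ih
      refine ⟨S + c * (2 * S + f), ?_⟩
      rw [pow_succ, hS]
      ring
  obtain ⟨S, hS⟩ := key f
  refine ⟨S + f / 2, ?_⟩
  rw [hS]
  have e1 : 2 * (S + f / 2) + 1 = 2 * S + f := by omega
  rw [e1]
  have e2 : (2 * c + 1 - 1) / 2 = c := by omega
  have e3 : 2 * c * (2 * S + f) + 1 - 1 = 2 * (c * (2 * S + f)) := by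
    rw [Nat.add_sub_cancel]
    ring
  rw [e2, e3, Nat.mul_div_cancel_left _ (by norm_num)]

theorem b5_geom_even (q f : ℕ) (hq : q % 2 = 1) (hf : f % 2 = 0) :
    ∃ S : ℕ, (q ^ f - 1) / 2 = (q - 1) * S := by
  obtain ⟨c, rfl⟩ : ∃ c, q = 2 * c + 1 := ⟨q / 2, by omega⟩
  have key : ∀ f : ℕ, ∃ S : ℕ, (2 * c + 1) ^ f = 2 * c * (2 * S + f) + 1 := by
    intro f
    induction f with
    | zero => exact ⟨0, by simp⟩
    | succ f ih =>
      obtain ⟨S, hS⟩ := ih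
      refine ⟨S + c * (2 * S + f), ?_⟩
      rw [pow_succ, hS]
      ring
  obtain ⟨S, hS⟩ := key f
  refine ⟨S + f / 2, ?_⟩
  rw [hS, Nat.add_sub_cancel]
  obtain ⟨g, rfl⟩ : ∃ g, f = 2 * g := ⟨f / 2, by omega⟩
  have e1 : 2 * g / 2 = g := by omega
  have e2 : 2 * c * (2 * S + 2 * g) = 2 * (2 * c * (S + g)) := by ring
  rw [e1, e2, Nat.mul_div_cancel_left _ (by norm_num), Nat.add_sub_cancel]

theorem psv_nonsq {F : Type} [Field F] [NumberField F] (e : Eis →+* 𝓞 F)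
    (v : HeightOneSpectrum (𝓞 F)) (h7 : e (6 * p7) ∉ v.asIdeal)
    (hd : ¬ ∃ x : 𝓞 F, x ^ 2 - e dd ∈ v.asIdeal) : la ∣ psv e v + 1 := by
  have h7' : e p7 ∉ v.asIdeal := by
    intro h
    apply h7
    rw [map_mul]
    exact Ideal.mul_mem_left _ _ h
  obtain ⟨b, f, hb7, hb, hbv, hf, hn, hps⟩ := psv_spec e v h7'
  have hcm := comap_prime e v hb hbv
  have h6 : ¬ b ∣ 6 := by
    intro h
    apply h7
    rw [hcm]
    exact dvd_mul_of_dvd_left h _
  have h2 : ¬ b ∣ 2 := fun h => h6 (h.trans ⟨3, by decide⟩)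
  have h3 : ¬ b ∣ 3 := fun h => h6 (h.trans ⟨2, by decide⟩)
  have hs : ¬ ∃ x : Eis, b ∣ x ^ 2 - dd := by
    rintro ⟨x, hx⟩
    apply hd
    refine ⟨e x, ?_⟩
    rw [← map_pow, ← map_sub, hcm]
    exact hx
  have hdd : ¬ b ∣ dd := b5_dd hb (b5_p7 hb hb7) h3
  have hdv : e dd ∉ v.asIdeal := fun h => hdd ((hcm _).1 h)
  have h2v : (2 : 𝓞 F) ∉ v.asIdeal := by
    have := hcm 2
    rw [map_ofNat] at this
    rw [this]
    exact h2
  have hla := mod_la_of_nonsq hb hb7 h2 h3 hs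
  obtain ⟨-, hodd, hF⟩ := b5_eis hb h2 hdd
  have hfo : f % 2 = 1 := by
    by_contra hfe
    obtain ⟨S, hS⟩ := b5_geom_even b.norm.natAbs f hodd (by omega)
    apply hd
    rw [b5_v v h2v hdv, hn, hS, pow_mul, ← map_pow, ← map_pow, ← map_one e, ← map_sub, hcm]
    refine hF.trans ?_
    have := sub_dvd_pow_sub_pow (dd ^ (b.norm.natAbs - 1)) 1 S
    rwa [one_pow] at this
  rw [hps]
  obtain ⟨g, rfl⟩ : ∃ g, f = 2 * g + 1 := ⟨f / 2, by omega⟩
  refine hla.trans ?_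
  have := Odd.add_dvd_pow_add_pow b 1 (⟨g, rfl⟩ : Odd (2 * g + 1))
  rwa [one_pow] at this

/-- the places of `F` above the ramified places of a field of the class: `ω - 4` is not a square modulo them -/
theorem nonsq_up {F : Type} [Field F] [NumberField F] (e : Eis →+* 𝓞 F) (hA : Ar F e)
    (v : HeightOneSpectrum (𝓞 F)) {b : Eis} (hb : Prime b) (hv : e b ∈ v.asIdeal)
    (hs : ¬ ∃ x : Eis, b ∣ x ^ 2 - dd) : ¬ ∃ x : 𝓞 F, x ^ 2 - e dd ∈ v.asIdeal := by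
  have hcm := comap_prime e v hb hv
  have hdd : ¬ b ∣ dd := by
    intro h
    apply hs
    refine ⟨0, ?_⟩
    have e1 : (0 : Eis) ^ 2 - dd = -dd := by ring
    rw [e1, dvd_neg]
    exact h
  have h2 : ¬ b ∣ 2 := by
    intro h
    apply hs
    refine ⟨om ^ 2, h.trans ?_⟩
    exact ⟨2, by decide⟩
  have hdv : e dd ∉ v.asIdeal := fun h => hdd ((hcm _).1 h)
  have h2v : (2 : 𝓞 F) ∉ v.asIdeal := by
    have := hcm 2
    rw [map_ofNat] at this
    rw [this]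
    exact h2
  obtain ⟨f, hf, hn⟩ := nv_pow e v hb hv
  obtain ⟨i, hi⟩ := hA.deg v b f hb hv hn
  obtain ⟨hE, hodd, hF⟩ := b5_eis hb h2 hdd
  have hfo : f % 2 = 1 := by
    rw [hi]
    exact Nat.odd_iff.1 (Odd.pow (by decide))
  obtain ⟨S, hS⟩ := b5_geom b.norm.natAbs f hodd hfo
  -- `dd ^ ((N b - 1) / 2) ≡ - 1`
  have hm1 : b ∣ dd ^ ((b.norm.natAbs - 1) / 2) + 1 := by
    have e2 : (dd ^ ((b.norm.natAbs - 1) / 2) + 1) * (dd ^ ((b.norm.natAbs - 1) / 2) - 1) =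
        dd ^ (b.norm.natAbs - 1) - 1 := by
      have e3 : dd ^ (b.norm.natAbs - 1) = dd ^ ((b.norm.natAbs - 1) / 2) * dd ^ ((b.norm.natAbs - 1) / 2) := by
        rw [← pow_add]
        congr 1
        omega
      rw [e3]
      ring
    rw [← e2] at hF
    rcases hb.dvd_or_dvd hF with h | h
    · exact h
    · exact absurd (hE.2 h) hs
  rw [b5_v v h2v hdv, hn, hS, pow_mul, ← map_pow, ← map_pow, ← map_one e, ← map_sub, hcm]
  intro h
  apply h2
  have h5 := Odd.add_dvd_pow_add_pow (dd ^ ((b.norm.natAbs - 1) / 2)) 1 (⟨S, rfl⟩ : Odd (2 * S + 1))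
  rw [one_pow] at h5
  have e4 : (2 : Eis) = ((dd ^ ((b.norm.natAbs - 1) / 2)) ^ (2 * S + 1) + 1) -
      ((dd ^ ((b.norm.natAbs - 1) / 2)) ^ (2 * S + 1) - 1) := by ring
  rw [e4]
  exact dvd_sub (hm1.trans h5) h

end TH
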