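import Pool.Agent.MP_9ab903_nt.TH.TD
import Pool.Agent.MP_9ab903_nt.TH.BDefs
import Pool.Agent.MP_9ab903_nt.NG.HDefs
import Pool.Agent.MP_9ab903_nt.NG.G11
import Pool.Agent.MP_9ab903_nt.NAB.EDefs

/-!
# [NG3] block C (the value of the `L`-series at `s = 1`, `λ = 1 - ω` in place of `2`): definitions

The Hecke character is `Ps (eF F hw)` (TH/BDefs.lean). Everything is parallel to `NG/HDefs.lean`, `NG/G11.lean`, `NAB/EDefs.lean`: modulo `π = p7` instead of modulo `3`, at `λ = la` instead of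
`2`, normalised by `Omp = E1 (1/π)` instead of `OmC`.
-/

set_option autoImplicit false

open NumberField IsDedekindDomain MeasureTheory Set
open CM27 CMT CF NAB NG
open scoped ComplexConjugate Classical Matrix

namespace TH

/-! ### Eisenstein integers modulo `π` -/

/-- `a ≡ 1 mod π` -/
def Pr7 (a : Eis) : Prop := p7 ∣ a - 1

/-- The unit `ε` with `ε u ≡ 1 mod π` (`1` if `π ∣ u`). -/
noncomputable def ep (u : Eis) : Eis :=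
  if h : ∃ e : Eis, IsUnit e ∧ Pr7 (e * u) then h.choose else 1

/-- The period `E1 (1 / π)`. -/
noncomputable def Omp : ℂ := E1 (1 / emb p7)

/-! ### The core data -/

/-- `Good`, and the values at `x` of the linear forms are not in `ℤ[ω]`. -/
structure Good3 {n : ℕ} (w x : Fin n → ℂ) (A : Me n) : Prop where
  good : Good w x A
  gx : ∀ (i : Fin n) (m : Fin n → Eis), (NG.cm A *ᵥ (x + em m)) i ∉ Set.range emb

/-- Core data. -/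
structure CD3 (r : ℕ) where
  x : Fin (r + 1) → ℂ
  w : Fin (r + 1) → ℂ
  M : Fin r → Me (r + 1)
  L : Mc (r + 1)
  ε : Fin r → Fin (r + 1) → ℂ
  N : ℕ
  c : Eis
  W : Fin (r + 1) → Eis
  hN : Nat.Coprime N 6
  hx : (fun i => (N : ℂ) * x i) ∈ Lz (r + 1)
  hx0 : x ∉ Lz (r + 1)
  hc : Prime c
  hcN : ¬ c ∣ 6 * (N : Eis)
  hcbig : ((2 * (r + 1)) ^ (4 * (r + 1)) : ℕ) < c.norm.natAbs
  hW : ∃ i, ¬ c ∣ W i
  hw : ∀ i, w i = 2 * emb (W i) / (emb c * (Complex.I * (√3 : ℝ)))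
  hdet : ∀ i, (M i).det = 1
  hcomm : ∀ i j, M i * M j = M j * M i
  hM3 : ∀ i a b, la ∣ (M i - 1) a b
  hMx : ∀ i, ∃ m : Fin (r + 1) → Eis, NG.cm (M i) *ᵥ x = x + em m
  hMw : ∀ i, ∀ m : Fin (r + 1) → Eis, ch w (NG.cm (M i) *ᵥ (x + em m)) = ch w (x + em m)
  hL : L.det ≠ 0
  hLM : ∀ i j, L j ᵥ* NG.cm (M i) = ε i j • L j
  hJ : JE (fun i j => ‖ε i j‖ ^ 2) ≠ 0

/-! ### Fields -/

section
variable {r : ℕ} (F : IntermediateField ℚ ℂ) [NumberField F] (hw : w ∈ F)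

/-- `F / ℚ(ω)` is unramified at `λ`: the exact power of `3` dividing the discriminant is `3 ^ (r + 1)`, `[F : ℚ] = 2 (r + 1)`. -/
def Unr3 (r : ℕ) : Prop := ∃ k : ℤ, NumberField.discr F = 3 ^ (r + 1) * k ∧ ¬ (3 : ℤ) ∣ k

/-- Coordinates of the lattice `m b` and of the set `{g ∈ b | g ≡ 1 mod m}`. -/
structure LD3 (s : Fin (r + 1) → F →+* ℂ) (m : 𝓞 F) (e : Fin r → (𝓞 F)ˣ) (b : Ideal (𝓞 F)) (N : ℕ)
    (δ : ℂ) where
  L : Mc (r + 1)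
  M : Fin r → Me (r + 1)
  x : Fin (r + 1) → ℂ
  hL : L.det ≠ 0
  hM : ∀ i, (M i).det = 1
  hcomm : ∀ i j, M i * M j = M j * M i
  hLM : ∀ i j, L j ᵥ* NG.cm (M i) = s j ((e i : 𝓞 F) : F) • L j
  hM3 : (∀ i, eF F hw la ∣ (e i : 𝓞 F) - 1) → ∀ i a b, la ∣ (M i - 1) a b
  hx : (fun i => (N : ℂ) * x i) ∈ Lz (r + 1)
  hx0 : x ∉ Lz (r + 1)
  hMx : ∀ i, ∃ t : Fin (r + 1) → Eis, NG.cm (M i) *ᵥ x = x + em t
  lat : ∀ g : 𝓞 F, g ∈ Ideal.span {m} * b ↔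
    ∃ t : Fin (r + 1) → Eis, ∀ j, s j (g : F) = L j ⬝ᵥ em t
  bij : ∀ u : Eis, ∃ φ : (Fin (r + 1) → Eis) ≃ {g : 𝓞 F // g ∈ b ∧ m ∣ g - eF F hw u}, ∀ t j,
    s j ((φ t : 𝓞 F) : F) = L j ⬝ᵥ ((fun i => emb u * x i) + em t)
  val : ∀ A : ValuationSubring ℂ, A.valuation 3 < 1 → A.valuation L.det = 1
  gal : ∀ σ : ℂ ≃+* ℂ, σ w = w → σ L.det * δ = L.det * σ δ

/-- Cubic (or trivial) ray class characters modulo `m`, with values in `{0, 1, ω, ω²}`. -/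
structure IsRC3 (m : 𝓞 F) (χ : Ideal (𝓞 F) → ℂ) : Prop where
  mul : ∀ I J, χ (I * J) = χ I * χ J
  zero : ∀ I, ¬ IsCoprime I (Ideal.span {m}) → χ I = 0
  cub : ∀ I, I ≠ 0 → IsCoprime I (Ideal.span {m}) → χ I ^ 3 = 1
  one : ∀ g : 𝓞 F, g ≠ 0 → m ∣ g - 1 → χ (Ideal.span {g}) = 1

/-- Smoothing primes of arbitrarily large norm. -/
def Smooth3 : Prop := ∀ B : ℕ, ∃ (Q : Ideal (𝓞 F)) (c : Eis), Q.IsPrime ∧ Q ≠ ⊥ ∧ Prime c ∧
  eF F hw c ∈ Q ∧ B < c.norm.natAbs ∧ ¬ la ∣ Ps (eF F hw) Q - 1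

/-- The data common to all ideal classes. -/
structure HD3 (r : ℕ) where
  s : Fin (r + 1) → F →+* ℂ
  hs : IsS F hw s
  m : 𝓞 F
  hm0 : m ≠ 0
  h7 : eF F hw p7 ∣ m
  hm6 : IsCoprime m 6
  Q : Ideal (𝓞 F)
  hQ : Q.IsPrime
  hQ0 : Q ≠ ⊥
  hQm : IsCoprime Q (Ideal.span {m})
  hQ6 : IsCoprime Q (Ideal.span {(6 : 𝓞 F)})
  c : Eis
  hc : Prime c
  hcQ : eF F hw c ∈ Q
  e : Fin r → (𝓞 F)ˣ
  he : IsB F s ((Ideal.span {m} ⊓ Q) ⊓ Ideal.span {eF F hw la}) e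
  q : ℕ
  η : Fin q → (𝓞 F)ˣ
  hη : IsRep F m e q η
  δ : ℂ
  hδ : IsDel F hw s δ

/-- The function of `s` attached to an ideal `b` and an additive character. -/
noncomputable def AA3 {F : IntermediateField ℚ ℂ} [NumberField F] {hw : w ∈ F} (H : HD3 F hw r)
    {b : Ideal (𝓞 F)} {N : ℕ} (D : LD3 F hw H.s H.m H.e b N H.δ) (v : Fin (r + 1) → ℂ) (u : Eis)
    (s : ℂ) : ℂ :=
  (Real.pi : ℂ) ^ ((r + 1 : ℂ) * s) * (Complex.Gamma s ^ (r + 1))⁻¹ * (JE (ab F H.s H.e) : ℂ)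
    * TI v (fun i => emb u * D.x i) D.L (ab F H.s H.e) (s - 1)

/-- The normalised value at `s = 1`. -/
noncomputable def VV3 {F : IntermediateField ℚ ℂ} [NumberField F] {hw : w ∈ F} (H : HD3 F hw r)
    {b : Ideal (𝓞 F)} {N : ℕ} (D : LD3 F hw H.s H.m H.e b N H.δ) (v : Fin (r + 1) → ℂ) (u : Eis) :
    ℂ :=
  (Real.pi : ℂ) ^ (r + 1) * D.L.det * (JE (ab F H.s H.e) : ℂ)
    * TI v (fun i => emb u * D.x i) D.L (ab F H.s H.e) 0 / Omp ^ (r + 1)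

/-- `Φ` is the entire continuation of the `L`-series of `χ conj ψ'`, `ψ' = Ps (eF F hw)`. -/
structure IsL3 (χ : Ideal (𝓞 F) → ℂ) (Φ : ℂ → ℂ) : Prop where
  diff : Differentiable ℂ Φ
  sum : ∀ s : ℂ, 3 / 2 < s.re → HasSum (fun I : Ideal (𝓞 F) =>
          χ I * conj (emb (Ps (eF F hw) I)) * (Ideal.absNorm I : ℂ) ^ (-s)) (Φ s)

end

end TH
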