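import Pool.Agent.MP_9ab903_nt.TH.C1b
import Pool.Agent.MP_9ab903_nt.NG.H0

/-!
# [NG3-C1] norms of elements congruent to an Eisenstein integer modulo `π` (port of `s_psi`, `s_unit`, `NG/H0.lean`)
-/

set_option autoImplicit false

open NumberField IsDedekindDomain MeasureTheory Set
open CM27 CMT CF NAB NG
open scoped ComplexConjugate Classical Matrix

namespace TH

/-! ### norms of elements congruent to an Eisenstein integer modulo `π` (compare `s_psi`, `s_unit` in `NG/H0.lean`) -/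

section
variable {r : ℕ} (F : IntermediateField ℚ ℂ) [NumberField F] (hw : w ∈ F)
  (s : Fin (r + 1) → F →+* ℂ) (hs : IsS F hw s)

include hs

/-- The norm of `g ≡ u mod π`, `u ∈ ℤ[ω]` prime to `π`. Proof as `s_psi`: `∏ s_j g = emb a`, `a ≡ u ^ (r + 1) mod π` (the norm from `𝓞 F` to `ℤ[ω]` is
compatible with reduction modulo `π`), so `ep u ^ (r + 1) * a ≡ 1 mod π` generates the norm of `(g)`: `ps_span` for `g` times the unit
`eF (ep u)` (norm `ep u ^ (r + 1)`) or directly. -/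
theorem s_ps (g : 𝓞 F) (u : Eis) (hu : ¬ p7 ∣ u) (hg : eF F hw p7 ∣ g - eF F hw u) :
    emb (Ps (eF F hw) (Ideal.span {g})) = emb (ep u) ^ (r + 1) * ∏ j, s j (g : F) := by
  letI := algK F hw
  haveI := d2_tower F hw
  haveI := d2_finite F hw
  haveI := eis_isDomain
  haveI := eis_pid
  obtain ⟨c₁, hc₁⟩ := hg
  obtain ⟨c₂, hc₂⟩ := ep_spec u hu
  -- the element `g' = ε g ≡ 1 mod π`
  obtain ⟨g', hg'⟩ : ∃ g', g' = eF F hw (ep u) * g := ⟨_, rfl⟩
  obtain ⟨c, hc⟩ : ∃ c, c = eF F hw (ep u) * c₁ + eF F hw c₂ := ⟨_, rfl⟩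
  have hc₃ : g' = 1 + eF F hw p7 * c := by
    have h := congrArg (eF F hw) hc₂
    rw [map_sub, map_one, map_mul, map_mul] at h
    rw [hg', hc]
    linear_combination (eF F hw (ep u)) * hc₁ + h
  obtain ⟨φ, hφ⟩ := exists_KK
  have hpid : IsPrincipalIdealRing (𝓞 KK) :=
    IsPrincipalIdealRing.of_surjective (φ : Eis →+* 𝓞 KK) φ.surjective
  have hfree : Module.Free (𝓞 KK) (𝓞 F) := inferInstance
  have halg : ∀ a : Eis, algebraMap (𝓞 KK) (𝓞 F) (φ a) = eF F hw a := by
    intro a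
    apply RingOfIntegers.ext
    apply Subtype.ext
    exact hφ a
  have h3 := Algebra.algebraMap_intNorm (A := 𝓞 KK) (K := KK) (L := F) (B := 𝓞 F) g'
  obtain ⟨a, ha⟩ : ∃ a, a = φ.symm (Algebra.intNorm (𝓞 KK) (𝓞 F) g') := ⟨_, rfl⟩
  have h5 : emb a = ∏ j, s j (g' : F) := by
    rw [ha, ← hφ, φ.apply_symm_apply, ← s_norm F hw s hs (g' : F)]
    exact congrArg (fun t : KK => (t : ℂ)) h3
  have h6 : Algebra.intNorm (𝓞 KK) (𝓞 F) g' = φ a := by rw [ha, φ.apply_symm_apply]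
  have hap : Pr7 a := by
    obtain ⟨t, ht⟩ := Algebra.norm_one_add_smul (A := 𝓞 KK) (B := 𝓞 F) (φ p7) c
    have h7 : g' = 1 + (φ p7 : 𝓞 KK) • c := by
      rw [hc₃, Algebra.smul_def, halg]
    rw [← h7, ← Algebra.intNorm_eq_norm, h6] at ht
    have h8 := congrArg φ.symm ht
    rw [φ.symm_apply_apply] at h8
    refine ⟨φ.symm (Algebra.trace (𝓞 KK) (𝓞 F) c) + p7 * φ.symm t, ?_⟩
    rw [h8]
    simp only [map_add, map_mul, map_one, map_pow, φ.symm_apply_apply]
    ring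
  have hg0 : g' ≠ 0 := by
    intro h0
    rw [h0] at h5
    have h1 : a = 0 := by
      apply emb_injective
      rw [h5, _root_.map_zero emb]
      exact Finset.prod_eq_zero (Finset.mem_univ 0) (by simp)
    exact Pr7_not_dvd hap (h1 ▸ dvd_zero p7)
  have hcop : IsCoprime (Ideal.span {g'}) (Ideal.span {eF F hw p7}) := by
    rw [Ideal.isCoprime_span_singleton_iff]
    refine ⟨1, -c, ?_⟩
    rw [hc₃]
    ring
  have hspan : Ideal.span {g} = Ideal.span {g'} := by
    rw [Ideal.span_singleton_eq_span_singleton, hg']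
    have hu : IsUnit (eF F hw (ep u)) := (ep_unit u).map (eF F hw)
    exact (associated_unit_mul_left g _ hu).symm
  have hx : ((Algebra.norm KK (g' : F) : KK) : ℂ) = emb a := by
    rw [s_norm F hw s hs (g' : F), h5]
  rw [hspan, ps_span F hw g' hg0 hcop a hap hx, h5]
  have hmul : ∀ j, s j (g' : F) = emb (ep u) * s j (g : F) := by
    intro j
    rw [hg', ← s_eF F hw s hs j (ep u), ← map_mul]
    rfl
  simp only [hmul, Finset.prod_mul_distrib, Finset.prod_const, Finset.card_univ, Fintype.card_fin]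

/-- Units congruent to `1` modulo `π` have norm `1`. -/
theorem s_unit7 (u : (𝓞 F)ˣ) (h7 : eF F hw p7 ∣ (u : 𝓞 F) - 1) :
    ∏ j, s j ((u : 𝓞 F) : F) = 1 := by
  have hp : Pr7 1 := ⟨0, by simp⟩
  have hn : ¬ p7 ∣ 1 := Pr7_not_dvd hp
  have h1 := s_ps F hw s hs (u : 𝓞 F) 1 hn (by rw [map_one]; exact h7)
  have h2 := s_ps F hw s hs 1 1 hn (by rw [map_one]; simp)
  have h4 : Ideal.span {(u : 𝓞 F)} = Ideal.span {(1 : 𝓞 F)} := by
    rw [Ideal.span_singleton_eq_span_singleton]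
    exact (associated_one_iff_isUnit.2 u.isUnit)
  rw [ep_of_Pr7 hp, map_one, one_pow, one_mul] at h1 h2
  rw [← h1, h4, h2]
  refine Finset.prod_eq_one fun j _ => ?_
  exact map_one (s j)

end

end TH
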