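import Pool.Agent.MP_9ab903_nt.TH.C9
import Pool.Agent.MP_9ab903_nt.NG.H5

/-!
# [NG3-C10] smoothed sums (port of `NG/H5.lean`)

`unsmooth3`, `smooth3`, `AA3_orbit`: word for word `unsmooth`, `smooth`, `AA_orbit` with `H : HD3`, `unfold3` in place of `unfold` (the constant
`emb (ep u) ^ (r+1)` is carried along), `ez e k ≡ 1 mod Q` because `e` generates units `≡ 1` modulo `(m) ⊓ Q ⊓ (λ)`.
The general lemmas `h5_congr`, `h5_G`, `h5_ch_zero`, `h5_ez_zero`, `h5_ez_sub` are used from `NG`.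
-/

set_option autoImplicit false

open NumberField IsDedekindDomain MeasureTheory Set
open CM27 CMT CF NAB NG
open scoped ComplexConjugate Classical Matrix

namespace TH

variable {r : ℕ} {F : IntermediateField ℚ ℂ} [NumberField F] {hw : w ∈ F}

theorem H_q_ne (H : HD3 F hw r) : (H.q : ℂ) ≠ 0 := by
  obtain ⟨p, -, -⟩ := H.hη.uniq 1 (one_mem _)
  have := p.1.pos
  exact_mod_cast this.ne'

theorem c10_congr {ι : Type} {f g : ι → ℂ} {a : ℂ} (h : ∀ i, f i = g i) (hf : HasSum f a) :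
    HasSum g a := by
  have : f = g := funext h
  rwa [← this]

theorem c10_G (m : 𝓞 F) (b : Ideal (𝓞 F)) (u : 𝓞 F) : ∃ G : Cl F m b u → 𝓞 F,
    ∀ I, G I ≠ 0 ∧ m ∣ G I - u ∧ (I : Ideal (𝓞 F)) * b = Ideal.span {G I} := by
  have h : ∀ I : Cl F m b u, ∃ g : 𝓞 F, g ≠ 0 ∧ m ∣ g - u ∧ (I : Ideal (𝓞 F)) * b = Ideal.span {g} :=
    fun I => I.2.2
  choose G hG using h
  exact ⟨G, hG⟩

theorem c10_ch_zero (y : Fin (r + 1) → ℂ) : ch 0 y = 1 := by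
  simp [ch]

theorem c10_ez_zero (e : Fin r → (𝓞 F)ˣ) : ez F e 0 = 1 := by
  simp [ez]

theorem c10_ez_sub (e : Fin r → (𝓞 F)ˣ) (k l : Fin r → ℤ) :
    ez F e (k - l) * ez F e l = ez F e k := by
  unfold ez
  rw [← Finset.prod_mul_distrib]
  refine Finset.prod_congr rfl fun i _ => ?_
  rw [Pi.sub_apply, ← zpow_add]
  congr 1
  ring

/-- `ez e k ≡ 1 mod Q`. -/
theorem c10_ez_mem (H : HD3 F hw r) (k : Fin r → ℤ) :
    ez F H.e k ∈ UM F ((Ideal.span {H.m} ⊓ H.Q) ⊓ Ideal.span {eF F hw la}) :=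
  Subgroup.prod_mem _ fun i _ => Subgroup.zpow_mem _ (H.he.mem i) _

theorem c10_ez_mk (H : HD3 F hw r) (k : Fin r → ℤ) (g : 𝓞 F) :
    Ideal.Quotient.mk H.Q (((ez F H.e k : (𝓞 F)ˣ) : 𝓞 F) * g) = Ideal.Quotient.mk H.Q g := by
  rw [map_mul]
  have h1 : ((ez F H.e k : (𝓞 F)ˣ) : 𝓞 F) - 1 ∈ H.Q := (c10_ez_mem H k).1.2
  have h2 : Ideal.Quotient.mk H.Q ((ez F H.e k : (𝓞 F)ˣ) : 𝓞 F) = 1 := by
    rw [← map_one (Ideal.Quotient.mk H.Q), Ideal.Quotient.eq]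
    exact h1
  rw [h2, one_mul]


theorem unsmooth3 (H : HD3 F hw r) (b : Ideal (𝓞 F)) (hb0 : b ≠ 0)
    (hbm : IsCoprime b (Ideal.span {H.m})) (N : ℕ) (D : LD3 F hw H.s H.m H.e b N H.δ) (u : Eis)
    (hu : IsCoprime (eF F hw u) H.m) (s : ℂ) (hs : 3 / 2 < s.re) :
    HasSum (fun I : Cl F H.m b (eF F hw u) =>
        (emb (ep u) ^ (r + 1) * conj (emb (Ps (eF F hw) (I : Ideal (𝓞 F))) * emb (Ps (eF F hw) b)))
        * ((Ideal.absNorm (I : Ideal (𝓞 F)) : ℂ) * (Ideal.absNorm b : ℂ)) ^ (-s))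
      ((H.q : ℂ)⁻¹ * AA3 H D 0 u s) := by
  obtain ⟨G, hG⟩ := c10_G H.m b (eF F hw u)
  have h := unfold3 H b hb0 hbm N D u hu 0 (fun _ => 1) (fun g _ y _ => c10_ch_zero y)
    (fun _ _ _ => rfl) G hG s hs
  have h2 := h.prod_fiberwise (g := fun I : Cl F H.m b (eF F hw u) => (H.q : ℂ) *
    ((emb (ep u) ^ (r + 1) * conj (emb (Ps (eF F hw) (I : Ideal (𝓞 F))) * emb (Ps (eF F hw) b)))
        * ((Ideal.absNorm (I : Ideal (𝓞 F)) : ℂ) * (Ideal.absNorm b : ℂ)) ^ (-s))) (by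
    intro I
    have h3 := hasSum_fintype (fun _ : Fin H.q =>
      (emb (ep u) ^ (r + 1) * conj (emb (Ps (eF F hw) (I : Ideal (𝓞 F))) * emb (Ps (eF F hw) b)))
        * ((Ideal.absNorm (I : Ideal (𝓞 F)) : ℂ) * (Ideal.absNorm b : ℂ)) ^ (-s))
    rw [Finset.sum_const, Finset.card_univ, Fintype.card_fin, nsmul_eq_mul] at h3
    refine c10_congr (fun j => ?_) h3
    rw [one_mul])
  have h4 := h2.mul_left ((H.q : ℂ)⁻¹)
  refine c10_congr (fun I => ?_) h4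
  rw [← mul_assoc, inv_mul_cancel₀ (H_q_ne H), one_mul]

/-- the terms without the character -/
noncomputable def c10_t (H : HD3 F hw r) (b : Ideal (𝓞 F)) (u : Eis) (s : ℂ)
    (I : Cl F H.m b (eF F hw u)) : ℂ :=
  (emb (ep u) ^ (r + 1) * conj (emb (Ps (eF F hw) (I : Ideal (𝓞 F))) * emb (Ps (eF F hw) b)))
        * ((Ideal.absNorm (I : Ideal (𝓞 F)) : ℂ) * (Ideal.absNorm b : ℂ)) ^ (-s)

variable (H : HD3 F hw r) [Fintype (𝓞 F ⧸ H.Q)ˣ] (ψ : AddChar (𝓞 F ⧸ H.Q) ℂ) (hψ : ψ ≠ 1)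

include hψ

/-- the character sum -/
theorem c10_sum (x : 𝓞 F ⧸ H.Q) : ∑ a : (𝓞 F ⧸ H.Q)ˣ, ψ ((a : 𝓞 F ⧸ H.Q) * x) =
    (Ideal.absNorm H.Q : ℂ) * (if x = 0 then 1 else 0) - 1 := by
  have hmax : H.Q.IsMaximal := H.hQ.isMaximal H.hQ0
  let _ : Field (𝓞 F ⧸ H.Q) := Ideal.Quotient.field H.Q
  have hfin : Finite (𝓞 F ⧸ H.Q) := Ideal.finiteQuotientOfFreeOfNeBot H.Q H.hQ0
  let _ := Fintype.ofFinite (𝓞 F ⧸ H.Q)
  have hprim : ψ.IsPrimitive := AddChar.IsPrimitive.of_ne_one hψ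
  have h1 := AddChar.sum_mulShift x hprim
  rw [Fintype.sum_eq_add_sum_subtype_ne _ 0, zero_mul, AddChar.map_zero_eq_one] at h1
  have h2 : ∑ i : {i : 𝓞 F ⧸ H.Q // i ≠ 0}, ψ ((i : 𝓞 F ⧸ H.Q) * x) =
      ∑ a : (𝓞 F ⧸ H.Q)ˣ, ψ ((a : 𝓞 F ⧸ H.Q) * x) :=
    (Equiv.sum_comp unitsEquivNeZero
      (fun i : {i : 𝓞 F ⧸ H.Q // i ≠ 0} => ψ ((i : 𝓞 F ⧸ H.Q) * x))).symm
  rw [h2] at h1
  have h3 : (Fintype.card (𝓞 F ⧸ H.Q) : ℂ) = (Ideal.absNorm H.Q : ℂ) := by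
    rw [Ideal.absNorm_apply, Submodule.cardQuot_apply, Nat.card_eq_fintype_card]
  rw [← h3]
  split_ifs at h1 ⊢ with h
  · linear_combination h1
  · linear_combination h1

theorem smooth3 (b : Ideal (𝓞 F)) (hb0 : b ≠ 0)
    (hbm : IsCoprime b (Ideal.span {H.m})) (hbQ : IsCoprime b H.Q) (N : ℕ)
    (D : LD3 F hw H.s H.m H.e b N H.δ) (v : (𝓞 F ⧸ H.Q)ˣ → Fin (r + 1) → ℂ)
    (hv : ∀ a (g : 𝓞 F) (y : Fin (r + 1) → ℂ), (∀ j, H.s j (g : F) = D.L j ⬝ᵥ y) →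
      ch (v a) y = ψ ((a : 𝓞 F ⧸ H.Q) * Ideal.Quotient.mk H.Q g)) (u : Eis)
    (hu : IsCoprime (eF F hw u) H.m) (s : ℂ) (hs : 3 / 2 < s.re) :
    HasSum (fun I : Cl F H.m b (eF F hw u) =>
        ((Ideal.absNorm H.Q : ℂ) * (if H.Q ∣ (I : Ideal (𝓞 F)) then 1 else 0) - 1)
        * ((emb (ep u) ^ (r + 1) * conj (emb (Ps (eF F hw) (I : Ideal (𝓞 F))) * emb (Ps (eF F hw) b)))
        * ((Ideal.absNorm (I : Ideal (𝓞 F)) : ℂ) * (Ideal.absNorm b : ℂ)) ^ (-s)))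
      ((H.q : ℂ)⁻¹ * ∑ a, AA3 H D (v a) u s) := by
  obtain ⟨G, hG⟩ := c10_G H.m b (eF F hw u)
  have hmax : H.Q.IsMaximal := H.hQ.isMaximal H.hQ0
  -- the sum over `a`
  have h1 : ∀ a : (𝓞 F ⧸ H.Q)ˣ, HasSum (fun p : Cl F H.m b (eF F hw u) × Fin H.q =>
      ψ ((a : 𝓞 F ⧸ H.Q) * Ideal.Quotient.mk H.Q (((H.η p.2 : (𝓞 F)ˣ) : 𝓞 F) * G p.1))
        * c10_t H b u s p.1) (AA3 H D (v a) u s) := by
    intro a
    have h := unfold3 H b hb0 hbm N D u hu (v a)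
      (fun g => ψ ((a : 𝓞 F ⧸ H.Q) * Ideal.Quotient.mk H.Q g)) (fun g _ y hy => hv a g y hy)
      (fun g _ k => by
        show ψ _ = ψ _
        rw [c10_ez_mk]) G hG s hs
    refine c10_congr (fun p => ?_) h
    rw [c10_t, mul_assoc]
  have h2 := hasSum_sum (s := Finset.univ) (fun a _ => h1 a)
  have h3 : ∀ p : Cl F H.m b (eF F hw u) × Fin H.q,
      ∑ a : (𝓞 F ⧸ H.Q)ˣ, ψ ((a : 𝓞 F ⧸ H.Q) *
        Ideal.Quotient.mk H.Q (((H.η p.2 : (𝓞 F)ˣ) : 𝓞 F) * G p.1)) * c10_t H b u s p.1 =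
      ((Ideal.absNorm H.Q : ℂ) * (if H.Q ∣ (p.1 : Ideal (𝓞 F)) then 1 else 0) - 1)
        * c10_t H b u s p.1 := by
    intro p
    rw [← Finset.sum_mul, c10_sum H ψ hψ]
    congr 3
    rw [map_mul]
    have hη : IsUnit (Ideal.Quotient.mk H.Q ((H.η p.2 : (𝓞 F)ˣ) : 𝓞 F)) :=
      (H.η p.2).isUnit.map _
    have e1 : (Ideal.Quotient.mk H.Q ((H.η p.2 : (𝓞 F)ˣ) : 𝓞 F) *
        Ideal.Quotient.mk H.Q (G p.1) = 0) ↔ H.Q ∣ (p.1 : Ideal (𝓞 F)) := by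
      rw [hη.mul_right_eq_zero, Ideal.Quotient.eq_zero_iff_mem]
      have e2 : G p.1 ∈ H.Q ↔ H.Q ∣ (p.1 : Ideal (𝓞 F)) * b := by
        rw [(hG p.1).2.2, Ideal.dvd_span_singleton]
      rw [e2]
      constructor
      · intro h
        rcases ((Ideal.prime_of_isPrime H.hQ0 H.hQ).dvd_mul).1 h with h | h
        · exact h
        · exfalso
          have h5 : IsUnit H.Q := hbQ.isUnit_of_dvd' h dvd_rfl
          rw [Ideal.isUnit_iff] at h5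
          exact H.hQ.ne_top h5
      · intro h
        exact Dvd.dvd.mul_right h b
    simp only [e1]
  simp only [h3] at h2
  have h4 := h2.prod_fiberwise (g := fun I : Cl F H.m b (eF F hw u) => (H.q : ℂ) *
    (((Ideal.absNorm H.Q : ℂ) * (if H.Q ∣ (I : Ideal (𝓞 F)) then 1 else 0) - 1)
        * c10_t H b u s I)) (by
    intro I
    have h3 := hasSum_fintype (fun j : Fin H.q =>
      ((Ideal.absNorm H.Q : ℂ) * (if H.Q ∣ (I : Ideal (𝓞 F)) then 1 else 0) - 1)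
        * c10_t H b u s I)
    rw [Finset.sum_const, Finset.card_univ, Fintype.card_fin, nsmul_eq_mul] at h3
    exact h3)
  have h5 := h4.mul_left ((H.q : ℂ)⁻¹)
  refine c10_congr (fun I => ?_) h5
  rw [← mul_assoc, inv_mul_cancel₀ (H_q_ne H), one_mul]
  rfl

theorem AA3_orbit (b : Ideal (𝓞 F)) (hb0 : b ≠ 0)
    (hbm : IsCoprime b (Ideal.span {H.m})) (N : ℕ)
    (D : LD3 F hw H.s H.m H.e b N H.δ) (v : (𝓞 F ⧸ H.Q)ˣ → Fin (r + 1) → ℂ)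
    (hv : ∀ a (g : 𝓞 F) (y : Fin (r + 1) → ℂ), (∀ j, H.s j (g : F) = D.L j ⬝ᵥ y) →
      ch (v a) y = ψ ((a : 𝓞 F ⧸ H.Q) * Ideal.Quotient.mk H.Q g)) (u : Eis)
    (hu : IsCoprime (eF F hw u) H.m) (huN : IsCoprime u (N : Eis))
    (a h : (𝓞 F ⧸ H.Q)ˣ) (hh : h ∈ HH F H.m H.Q) : AA3 H D (v (a * h)) u = AA3 H D (v a) u := by
  obtain ⟨G, hG⟩ := c10_G H.m b (eF F hw u)
  obtain ⟨w0, hw0, rfl⟩ := hh
  -- the permutation
  have h1 : ∀ j : Fin H.q, ∃ p : Fin H.q × (Fin r → ℤ), w0 * H.η j = ez F H.e p.2 * H.η p.1 :=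
    fun j => (H.hη.uniq (w0 * H.η j) (mul_mem hw0 (H.hη.mem j))).exists
  choose P hP using h1
  have hinj : Function.Injective (fun j => (P j).1) := by
    intro i j hij
    simp only at hij
    have e1 : H.η i = ez F H.e ((P i).2 - (P j).2) * H.η j := by
      have e2 := hP i
      have e3 := hP j
      rw [hij] at e2
      have e4 : w0 * H.η i = w0 * (ez F H.e ((P i).2 - (P j).2) * H.η j) := by
        rw [mul_left_comm, e3, e2, ← mul_assoc, c10_ez_sub]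
      exact mul_left_cancel e4
    obtain ⟨p, -, hp⟩ := H.hη.uniq (H.η i) (H.hη.mem i)
    have e5 := hp (i, 0) (by show H.η i = ez F H.e 0 * H.η i; rw [c10_ez_zero, one_mul])
    have e6 := hp (j, (P i).2 - (P j).2) e1
    have := e5.trans e6.symm
    exact congrArg Prod.fst this
  let σ : Fin H.q ≃ Fin H.q := Equiv.ofBijective _ (Finite.injective_iff_bijective.1 hinj)
  have h2 : ∀ s : ℂ, 3 / 2 < s.re → ∀ a : (𝓞 F ⧸ H.Q)ˣ, HasSum (fun p : Cl F H.m b (eF F hw u) × Fin H.q =>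
      ψ ((a : 𝓞 F ⧸ H.Q) * Ideal.Quotient.mk H.Q (((H.η p.2 : (𝓞 F)ˣ) : 𝓞 F) * G p.1))
        * c10_t H b u s p.1) (AA3 H D (v a) u s) := by
    intro s hs a
    have h := unfold3 H b hb0 hbm N D u hu (v a)
      (fun g => ψ ((a : 𝓞 F ⧸ H.Q) * Ideal.Quotient.mk H.Q g)) (fun g _ y hy => hv a g y hy)
      (fun g _ k => by
        show ψ _ = ψ _
        rw [c10_ez_mk]) G hG s hs
    refine c10_congr (fun p => ?_) h
    rw [c10_t, mul_assoc]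
  set h := Units.map (Ideal.Quotient.mk H.Q : 𝓞 F →* 𝓞 F ⧸ H.Q) w0 with hdef
  have h3 : ∀ s : ℂ, 3 / 2 < s.re → AA3 H D (v (a * h)) u s = AA3 H D (v a) u s := by
    intro s hs
    have e1 := h2 s hs (a * h)
    have e2 := (Equiv.hasSum_iff (Equiv.prodCongr (Equiv.refl _) σ)).2 (h2 s hs a)
    refine e1.unique (c10_congr (fun p => ?_) e2)
    obtain ⟨I, j⟩ := p
    show ψ ((a : 𝓞 F ⧸ H.Q) * Ideal.Quotient.mk H.Q
        (((H.η (P j).1 : (𝓞 F)ˣ) : 𝓞 F) * G I)) * c10_t H b u s I =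
      ψ (((a * h : (𝓞 F ⧸ H.Q)ˣ) : 𝓞 F ⧸ H.Q) * Ideal.Quotient.mk H.Q
        (((H.η j : (𝓞 F)ˣ) : 𝓞 F) * G I)) * c10_t H b u s I
    have e4 : ((w0 : (𝓞 F)ˣ) : 𝓞 F) * ((H.η j : (𝓞 F)ˣ) : 𝓞 F) =
        ((ez F H.e (P j).2 : (𝓞 F)ˣ) : 𝓞 F) * ((H.η (P j).1 : (𝓞 F)ˣ) : 𝓞 F) := by
      rw [← Units.val_mul, ← Units.val_mul, hP j]
    have e5 : Ideal.Quotient.mk H.Q (((w0 : (𝓞 F)ˣ) : 𝓞 F) *
        (((H.η j : (𝓞 F)ˣ) : 𝓞 F) * G I)) =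
        Ideal.Quotient.mk H.Q (((H.η (P j).1 : (𝓞 F)ˣ) : 𝓞 F) * G I) := by
      rw [← mul_assoc, e4, mul_assoc, c10_ez_mk]
    rw [← e5, map_mul (Ideal.Quotient.mk H.Q) ((w0 : (𝓞 F)ˣ) : 𝓞 F), Units.val_mul, mul_assoc]
    rfl
  -- the identity theorem
  have hd1 := AA3_entire H b N D (v (a * h)) u huN
  have hd2 := AA3_entire H b N D (v a) u huN
  have ha1 : AnalyticOnNhd ℂ (AA3 H D (v (a * h)) u) univ :=
    fun z _ => hd1.analyticAt z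
  have ha2 : AnalyticOnNhd ℂ (AA3 H D (v a) u) univ := fun z _ => hd2.analyticAt z
  refine ha1.eq_of_eventuallyEq ha2 (z₀ := 2) ?_
  have hopen : IsOpen {s : ℂ | 3 / 2 < s.re} := isOpen_lt continuous_const Complex.continuous_re
  exact Filter.eventually_of_mem (hopen.mem_nhds (by norm_num)) fun s hs => h3 s hs

end TH
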