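import Pool.Agent.MP_9ab903_nt.TH.C3
import Pool.Agent.MP_9ab903_nt.NG.G7

/-!
# [NG3-C5] `Psi` at `λ` (port of the end of `NG/G7.lean`)

`Psi_eq` (NG/G7): `Psi w x A = det A · (det A)⁻¹ ^ n · ∑_{m₀ ∈ R} ∏_i Xi (g7_z x A m₀ i) (g7_th w A i)`, `g7_z x A m₀ i = (A (x + m₀))_i / det A`,
`g7_th w A i = (w ᵥ* adj A)_i`, `N · g7_th ∈ Dl` (`g7_th_mem`), `N norm(det A) · g7_z ∈ O` (`g7_z_mem`).

* `g7_pow2`: `2^j (A (x + m₀))_i / det A ∉ O`: otherwise `2^j y ∈ O` for `y = (A (x + m₀))_i`; `N y ∈ O` and `N` is odd, so `y ∈ O`: contradiction to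
  `Good3.gx`.
* `Psi_val3`: the valuation of `emb (det A)` is `1` (`val_not_la`), `Xi_val3` with `N₁ = N · norm(det A)` (prime to `3`: `λ ∤ det A`) and `N₂ = N`.
* `Psi_gal3`: copy of `Psi_gal`, with `Xi_gal3` in place of `Xi_gal` (and `N₂ > 0` in place of `Odd N₂`); the normalisation is by `OmC`. The set `R` of
  representatives is moved by `u` (`g7_coset_u`: needs `u` prime to `det A`: `norm(det A) ∣ N₂`).
* `Good3_u`: `Good` by `g7_good`; the new condition: if `(A (u x + m))_i ∈ O` multiply by `a` with `a u + c N = 1`.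
-/

set_option autoImplicit false

open scoped ComplexConjugate Matrix
open MeasureTheory Set Filter Topology
open CM27 NAB NG

namespace TH

variable {n : ℕ}

theorem pow2_not_mem (w x : Fin n → ℂ) (A : Me n) (hA : Good3 w x A) (N : ℕ) (hN : Odd N)
    (hx : (fun i => (N : ℂ) * x i) ∈ Lz n) (m₀ : Fin n → Eis) (i : Fin n) (j : ℕ) :
    (2 : ℂ) ^ j * g7_z x A m₀ i ∉ Set.range emb := by
  rintro ⟨b, hb⟩
  have hd' := g7_emb_ne hA.good.det
  obtain ⟨k, hk⟩ := hx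
  have h1 : (N : ℂ) * (NG.cm A *ᵥ (x + em m₀)) i = emb ((A *ᵥ (k + (N : Eis) • m₀)) i) := by
    have h2 : (N : ℂ) • (x + em m₀) = em (k + (N : Eis) • m₀) := by
      rw [em_add, hk, smul_add]
      congr 1
      ext j
      show (N : ℂ) * emb (m₀ j) = emb (((N : Eis) • m₀) j)
      rw [Pi.smul_apply, smul_eq_mul, map_mul, map_natCast]
    have h3 : NG.cm A *ᵥ em (k + (N : Eis) • m₀) = em (A *ᵥ (k + (N : Eis) • m₀)) :=
      cm_mulVec _ _
    have h4 := congrFun h3 i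
    rw [← h2, Matrix.mulVec_smul, Pi.smul_apply, smul_eq_mul] at h4
    exact h4
  have h2 : (2 : ℂ) ^ j * (NG.cm A *ᵥ (x + em m₀)) i = emb (A.det * b) := by
    rw [map_mul, hb, g7_z]
    field_simp
  have hcop : IsCoprime ((N : ℤ)) ((2 : ℤ) ^ j) := by
    have h3 : Nat.Coprime N (2 ^ j) := (Nat.coprime_two_right.2 hN).pow_right j
    have h4 := Nat.isCoprime_iff_coprime.2 h3
    push_cast at h4
    exact h4
  obtain ⟨p, q, hpq⟩ := hcop
  have hpq' : (p : ℂ) * (N : ℂ) + (q : ℂ) * (2 : ℂ) ^ j = 1 := by exact_mod_cast hpq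
  apply hA.gx i m₀
  refine ⟨(p : Eis) * (A *ᵥ (k + (N : Eis) • m₀)) i + (q : Eis) * (A.det * b), ?_⟩
  rw [map_add, map_mul, map_mul, ← h1, ← h2, map_intCast, map_intCast]
  linear_combination ((NG.cm A *ᵥ (x + em m₀)) i) * hpq'

theorem Good3_u (w x : Fin n → ℂ) (A : Me n) (hA : Good3 w x A) (N : ℕ)
    (hx : (fun i => (N : ℂ) * x i) ∈ Lz n) (hw : ∀ i, (N : ℂ) * w i ∈ Dl) (u a c : Eis)
    (hu : a * u + c * (N : Eis) = 1) (v a' c' : Eis) (hv : a' * v + c' * (N : Eis) = 1) :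
    Good3 (fun i => emb v * w i) (fun i => emb u * x i) A := by
  refine ⟨g7_good w x A hA.good N hx hw u a c hu v a' c' hv, ?_⟩
  rintro i m ⟨b, hb⟩
  have he : emb a * emb u + emb c * (N : ℂ) = 1 := by
    have := congrArg emb hu
    rwa [map_add, map_mul, map_mul, map_natCast, map_one] at this
  obtain ⟨k, hk⟩ := hx
  refine hA.gx i (a • m - c • k) ⟨a * b, ?_⟩
  have h1 : x + em (a • m - c • k) = emb a • ((fun i => emb u * x i) + em m) := by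
    ext j
    have h2 : emb (k j) = (N : ℂ) * x j := congrFun hk j
    show x j + emb ((a • m - c • k) j) = emb a * (emb u * x j + emb (m j))
    rw [Pi.sub_apply, Pi.smul_apply, Pi.smul_apply, smul_eq_mul, smul_eq_mul, map_sub, map_mul,
      map_mul, h2]
    linear_combination (-x j) * he
  rw [h1, Matrix.mulVec_smul, Pi.smul_apply, smul_eq_mul, ← hb, map_mul]

theorem c5_Psi (hn : 1 ≤ n) (w x : Fin n → ℂ) (A : Me n) (hA : Good w x A) (C : ℂ)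
    (R : Finset (Fin n → Eis)) (hR : ∀ m : Fin n → Eis, ∃! p : (Fin n → Eis) × (Fin n → Eis),
      p.1 ∈ R ∧ m = p.1 + A.adjugate *ᵥ p.2) :
    Psi w x A / C ^ n = emb A.det * (emb A.det)⁻¹ ^ n * ∑ m₀ ∈ R, ∏ i,
      (Xi (g7_z x A m₀ i) (g7_th w A i) / C) := by
  rw [Psi_eq hn w x A hA R hR, mul_div_assoc, Finset.sum_div]
  congr 1
  refine Finset.sum_congr rfl fun m₀ _ => ?_
  rw [Finset.prod_div_distrib, Finset.prod_const, Finset.card_univ, Fintype.card_fin]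
  rfl

theorem Psi_val3 (hn : 1 ≤ n) (w x : Fin n → ℂ) (A : Me n) (hA : Good3 w x A)
    (hdet : ¬ la ∣ A.det) (N : ℕ) (hN : Nat.Coprime N 6) (hx : (fun i => (N : ℂ) * x i) ∈ Lz n)
    (hw : ∀ i, (N : ℂ) * w i ∈ Dl) (V : ValuationSubring ℂ) (hV : V.valuation 3 < 1) :
    V.valuation (Psi w x A / Omp ^ n) ≤ 1 := by
  have hN2 : Odd N := by
    rw [← Nat.coprime_two_right]
    exact hN.coprime_dvd_right ⟨3, rfl⟩
  have hN3 : ¬ 3 ∣ N := by
    intro h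
    have h1 : 3 ∣ Nat.gcd N 6 := Nat.dvd_gcd h ⟨2, rfl⟩
    rw [hN.gcd_eq_one] at h1
    omega
  have hd3 : ¬ 3 ∣ A.det.norm.natAbs := by
    intro h
    apply hdet
    rw [la_dvd_iff]
    exact Int.natCast_dvd.2 h
  obtain ⟨R, hR⟩ := g7_coset_ex A hA.good.det
  rw [c5_Psi hn w x A hA.good Omp R hR]
  have hu := val_not_la V hV A.det hdet
  rw [map_mul, map_mul, map_pow, map_inv₀, hu, inv_one, one_pow, one_mul, one_mul]
  refine Valuation.map_sum_le _ fun m₀ _ => ?_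
  rw [map_prod]
  refine Finset.prod_le_one' fun i _ => ?_
  refine Xi_val3 V hV (N * A.det.norm.natAbs) N ?_ hN _ _ (g7_z_mem x A hA.good.det m₀ N hx i)
    (pow2_not_mem w x A hA N hN2 hx m₀ i) (g7_th_mem w A N hw i)
  intro h
  rcases (Nat.prime_three.dvd_mul).1 h with h | h
  · exact hN3 h
  · exact hd3 h

theorem Psi_gal3 (hn : 1 ≤ n) (w x : Fin n → ℂ) (A : Me n) (hA : Good3 w x A) (N : ℕ)
    (hN : Odd N) (hx : (fun i => (N : ℂ) * x i) ∈ Lz n) (hw : ∀ i, (N : ℂ) * w i ∈ Dl)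
    (N₂ : ℕ) (hN₂ : 0 < N₂) (hd : (N * A.det.norm.natAbs) ^ 2 ∣ N₂) (σ : ℂ ≃+* ℂ)
    (hσ : σ CM27.w = CM27.w) (u : Eis) (hu : IsCoprime u (N₂ : Eis))
    (hσu : ∀ c : Eis, ptMap (σ : ℂ →+* ℂ) (pt (emb c / N₂)) = pt (emb (c * u) / N₂))
    (k : ℕ) (hσζ : ∀ ζ : ℂ, ζ ^ N₂ = 1 → σ ζ = ζ ^ k) (v : Eis) (hv : IsCoprime v (N₂ : Eis))
    (huv : (N₂ : Eis) ∣ v * u - k) :
    σ (Psi w x A / OmC ^ n)
      = Psi (fun i => emb v * w i) (fun i => emb u * x i) A / OmC ^ n := by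
  classical
  obtain ⟨R, hR⟩ := g7_coset_ex A hA.good.det
  have hdvd : N * A.det.norm.natAbs ∣ N₂ := (Dvd.intro_left _ (pow_succ _ 1).symm).trans hd
  have hN2 : (N : Eis) ∣ (N₂ : Eis) := Nat.cast_dvd_cast ((Nat.dvd_mul_right _ _).trans hdvd)
  have hd2 : A.det ∣ (N₂ : Eis) := by
    refine dvd_trans ⟨star A.det, g7_natAbs A.det⟩ (Nat.cast_dvd_cast
      ((Nat.dvd_mul_left A.det.norm.natAbs N).trans hdvd))
  obtain ⟨a, c, hac⟩ := IsCoprime.of_isCoprime_of_dvd_right hu hN2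
  obtain ⟨av, cv, hacv⟩ := IsCoprime.of_isCoprime_of_dvd_right hv hN2
  obtain ⟨a', c', hac'⟩ := IsCoprime.of_isCoprime_of_dvd_right hu hd2
  obtain ⟨hinj, hsurj⟩ := g7_coset_u A R hR u a' c' hac'
  have hR' : ∀ m : Fin n → Eis, ∃! p : (Fin n → Eis) × (Fin n → Eis),
      p.1 ∈ R.image (fun m => u • m) ∧ m = p.1 + A.adjugate *ᵥ p.2 := by
    intro m
    obtain ⟨r, hr, t, ht⟩ := hsurj m
    refine ⟨(u • r, t), ⟨Finset.mem_image_of_mem _ hr, ht⟩, ?_⟩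
    rintro ⟨q, t'⟩ ⟨h1, h2⟩
    obtain ⟨r', hr', rfl⟩ := Finset.mem_image.1 h1
    obtain ⟨h3, h4⟩ := hinj r' hr' r hr t' t (h2.symm.trans ht)
    rw [h3, h4]
  rw [g7_Psi hn w x A hA.good R hR,
    g7_Psi hn _ _ A (g7_good w x A hA.good N hx hw u a c hac v av cv hacv) _ hR']
  rw [Finset.sum_image (by
    intro r hr r' hr' h
    exact (hinj r hr r' hr' 0 0 (by rw [show u • r = u • r' from h])).1)]
  rw [map_mul, map_mul, map_pow, map_inv₀, a11b_sig σ hσ, map_sum]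
  congr 1
  refine Finset.sum_congr rfl fun m₀ _ => ?_
  rw [map_prod]
  refine Finset.prod_congr rfl fun i _ => ?_
  rw [g7_z_smul, g7_th_smul]
  exact Xi_gal3 σ hσ N₂ hN₂ u hu hσu k hσζ v huv (N * A.det.norm.natAbs) hd _ _
    (g7_z_mem x A hA.good.det m₀ N hx i) (pow2_not_mem w x A hA N hN hx m₀ i)
    (g7_th_mem' w A N _ hw i)

end TH
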