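import Pool.Agent.MP_9ab903_nt.TH.C4
import Pool.Agent.MP_9ab903_nt.TH.C5
import Pool.Agent.MP_9ab903_nt.NG.G12

/-!
# [NG3-C6] the core theorem for `CD3` (port of `NG/G12.lean`)

`core_eq3` does not use `hN, hcN, hcbig, hM2` of the core data: the proofs of `g12phi`, `g12act`, .., `g12_core_eq`, `core_eq` (for `r = 0`: `g13_core`)
are copied with `CD` replaced by `CD3` (or: build from `D : CD3 r` the needed facts; the lemmas of G12 that do not mention `D` are used from `NG`).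
`core_val3`: as `core_val` with `exists_ell3`, `Psi_val3`. `g12N D = D.N * norm c` is prime to `6` (`c ∤ 6 N`, `c` prime: `c ∣ norm c`; if `2 ∣ norm c` then
`c` is associated to `2`; if `3 ∣ norm c` then `la ∣ c`).
`core_gal3`: as `core_gal` with `exists_ell3`, `Psi_gal3`, the twisted data `g12D` (`CD3`), `Good3_u` (or `g12_Good`); normalised by `OmC`;
`N₂ = ∏ (g12N D · norm det)²` is positive and not divisible by `3`.
-/

set_option autoImplicit false

open scoped ComplexConjugate Matrix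
open MeasureTheory Set Filter Topology
open CM27 NAB NG

namespace TH

set_option linter.unusedSectionVars false

variable {r : ℕ}

theorem c6_MP_det (D : CD3 r) (g : Finset (Fin r)) : (MP D.M g).det = 1 := by
  induction g using Finset.induction_on with
  | empty => rw [MP_empty, Matrix.det_one]
  | insert i g hi ih => rw [MP_insert D.M D.hcomm g i hi, Matrix.det_mul, ih, D.hdet, one_mul]

/-- one generator -/
noncomputable def c6phi (D : CD3 r) (i : Fin r) (P : g12X r) : g12X r :=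
  ⟨(NG.cm (D.M i))ᴴ * P.1 * NG.cm (D.M i), PD_conj P.2 (g12_cm_det_ne (D.hdet i))⟩

/-- the action of a set of generators -/
noncomputable def c6act (D : CD3 r) (g : Finset (Fin r)) (P : g12X r) : g12X r :=
  ⟨(NG.cm (MP D.M g))ᴴ * P.1 * NG.cm (MP D.M g), PD_conj P.2 (g12_cm_det_ne (c6_MP_det D g))⟩

theorem c6act_empty (D : CD3 r) (P : g12X r) : c6act D ∅ P = P := by
  apply Subtype.ext
  show (NG.cm (MP D.M ∅))ᴴ * P.1 * NG.cm (MP D.M ∅) = P.1
  rw [MP_empty, g12_cm_one, Matrix.conjTranspose_one, Matrix.one_mul, Matrix.mul_one]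

theorem c6act_insert (D : CD3 r) (i : Fin r) (g : Finset (Fin r)) (P : g12X r) (hi : i ∉ g) :
    c6act D (insert i g) P = c6phi D i (c6act D g P) := by
  apply Subtype.ext
  show (NG.cm (MP D.M (insert i g)))ᴴ * P.1 * NG.cm (MP D.M (insert i g))
    = (NG.cm (D.M i))ᴴ * ((NG.cm (MP D.M g))ᴴ * P.1 * NG.cm (MP D.M g)) * NG.cm (D.M i)
  rw [MP_insert D.M D.hcomm g i hi, cm_mul, Matrix.conjTranspose_mul]
  simp only [Matrix.mul_assoc]

/-- the cocycle on positive definite forms -/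
noncomputable def c6f (D : CD3 r) (P : Fin (r + 1) → g12X r) : ℂ := SS D.w D.x fun k => (P k).1

theorem c6f_inv (D : CD3 r) (i : Fin r) (v : Fin (r + 1) → g12X r) :
    c6f D (fun k => c6phi D i (v k)) = c6f D v :=
  SS_equiv D.w D.x (D.M i) (D.hdet i) (D.hMx i) (D.hMw i) (fun k => (v k).1)

theorem c6f_alt (D : CD3 r) (v : Fin (r + 1) → g12X r) (i j : Fin (r + 1)) (hij : i ≠ j)
    (h : v i = v j) : c6f D v = 0 :=
  SS_eq_zero D.w D.x (fun k => (v k).1) i j hij (congrArg Subtype.val h)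

theorem c6f_coc (D : CD3 r) (v : Fin (r + 2) → g12X r) :
    ∑ j : Fin (r + 2), (-1 : ℂ) ^ (j : ℕ) * c6f D (fun i => v (j.succAbove i)) = 0 :=
  SS_cocycle (by omega) D.w D.x D.hx0 (fun k => (v k).1) (fun k => (v k).2)

theorem c6_diag_conj (D : CD3 r) (i : Fin r) (b : Fin (r + 1) → ℝ) :
    (NG.cm (D.M i))ᴴ * g12diag D.L b * NG.cm (D.M i)
      = g12diag D.L ((fun j => ‖D.ε i j‖ ^ 2) * b) := by
  unfold g12diag
  rw [Matrix.mul_sum, Matrix.sum_mul]
  refine Finset.sum_congr rfl fun j _ => ?_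
  rw [Matrix.mul_smul, Matrix.smul_mul, sq_conj, D.hLM, sq_smul, smul_smul, Pi.mul_apply]
  congr 1
  push_cast
  ring

theorem c6_act_diag (D : CD3 r) (g : Finset (Fin r)) :
    (NG.cm (MP D.M g))ᴴ * g12diag D.L 1 * NG.cm (MP D.M g)
      = g12diag D.L (∏ i ∈ g, fun j => ‖D.ε i j‖ ^ 2) := by
  induction g using Finset.induction_on with
  | empty =>
    rw [MP_empty, g12_cm_one, Matrix.conjTranspose_one, Matrix.one_mul, Matrix.mul_one,
      Finset.prod_empty]
  | insert i g hi ih =>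
    rw [Finset.prod_insert hi, ← c6_diag_conj, ← ih, MP_insert D.M D.hcomm g i hi, cm_mul,
      Matrix.conjTranspose_mul]
    simp only [Matrix.mul_assoc]

theorem c6_eps_ne (D : CD3 r) (i : Fin r) (j : Fin (r + 1)) : D.ε i j ≠ 0 := by
  intro h
  have h1 := prod_eps D.L D.hL (D.M i) (D.hdet i) (D.ε i) (D.hLM i)
  rw [Finset.prod_eq_zero (Finset.mem_univ j) h] at h1
  exact zero_ne_one h1

theorem c6_E_pos (D : CD3 r) (i : Fin r) (j : Fin (r + 1)) : 0 < ‖D.ε i j‖ ^ 2 := by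
  have := norm_pos_iff.2 (c6_eps_ne D i j)
  positivity

theorem c6_E_prod (D : CD3 r) (i : Fin r) : ∏ j, ‖D.ε i j‖ ^ 2 = 1 := by
  rw [Finset.prod_pow, ← norm_prod,
    prod_eps D.L D.hL (D.M i) (D.hdet i) (D.ε i) (D.hLM i), norm_one, one_pow]

/-- the density integral -/
noncomputable def c6F (D : CD3 r) (P : Fin (r + 1) → Fin (r + 1) → ℝ) : ℂ :=
  ((Matrix.of P).det : ℂ) * ∫ a in qd (r + 1), ThD D.w D.x D.L (∑ i, a i • P i)

theorem c6_SS_diag (D : CD3 r) (P : Fin (r + 1) → Fin (r + 1) → ℝ) :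
    SS D.w D.x (fun i => g12diag D.L (P i)) = (Real.pi : ℂ) ^ (r + 1) * D.L.det * c6F D P := by
  have h := SS_diag D.w D.x D.L (Matrix.of P)
  unfold g12diag c6F
  simp only [Matrix.of_apply] at h
  rw [h]
  have h2 : ∀ a : Fin (r + 1) → ℝ, (∑ i, a i • (Matrix.of P) i) = ∑ i, a i • P i := fun a => rfl
  simp only [h2]
  ring

theorem c6_torus (D : CD3 r) :
    ∑ π : Equiv.Perm (Fin r), ((Equiv.Perm.sign π : ℤ) : ℂ)
        * c6F D (fun k => ∏ i ∈ Finset.univ \ JJ π k, fun j => ‖D.ε i j‖ ^ 2)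
      = (-1) ^ r * (JE (fun i j => ‖D.ε i j‖ ^ 2) : ℂ)
        * TI D.w D.x D.L (fun i j => ‖D.ε i j‖ ^ 2) 0 := by
  have h := TD (fun i j => ‖D.ε i j‖ ^ 2) (c6_E_pos D) (c6_E_prod D) D.hJ
    (ThD D.w D.x D.L) (ThD_cont D.w D.x D.L D.hL)
    (fun i b _ => ThD_inv D.w D.x D.L D.hL (D.M i) (D.hdet i) (D.hMx i) (D.hMw i) (D.ε i)
      (D.hLM i) b)
    (fun K hK hKc => by
      obtain ⟨C, κ, hC, hκ, h⟩ := ThD_bound (by omega) D.w D.x D.hx0 D.L D.hL K hK hKc
      refine ⟨C, κ, hκ, fun p hp σ hσ => (h p hp σ hσ).trans ?_⟩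
      apply mul_le_mul_of_nonneg_left _ hC.le
      apply Real.exp_le_exp.2
      have : 0 < 1 / σ := by positivity
      nlinarith)
    (c6F D) (fun P _ => rfl)
    (fun P hP => by
      have h1 := SS_cocycle (by omega) D.w D.x D.hx0 (fun k => g12diag D.L (P k))
        (fun k => g12diag_PD D.L D.hL (P k) (hP k))
      have h2 : (Real.pi : ℂ) ^ (r + 1) * D.L.det ≠ 0 := by
        apply mul_ne_zero _ D.hL
        apply pow_ne_zero
        exact_mod_cast Real.pi_ne_zero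
      have h3 : ∀ j : Fin (r + 2), (-1 : ℂ) ^ (j : ℕ)
          * SS D.w D.x (fun i => g12diag D.L (P (j.succAbove i)))
          = (Real.pi : ℂ) ^ (r + 1) * D.L.det * ((-1 : ℂ) ^ (j : ℕ)
            * c6F D (fun i => P (j.succAbove i))) := by
        intro j
        rw [c6_SS_diag D (fun i => P (j.succAbove i))]
        ring
      rw [Finset.sum_congr rfl fun j _ => h3 j, ← Finset.mul_sum] at h1
      exact (mul_eq_zero.1 h1).resolve_left h2)
  rw [h]
  congr 1
  unfold TI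
  refine setIntegral_congr_fun measurableSet_Icc fun t _ => ?_
  refine setIntegral_congr_fun measurableSet_Ioi fun σ _ => ?_
  simp only [mul_zero, zero_add, Complex.cpow_natCast]

theorem c6_const (D : CD3 r) (h : g12X r) (hh : h.1 = g12diag D.L 1) :
    FF (c6act D) (c6f D) (fun _ => h)
      = (Real.pi : ℂ) ^ (r + 1) * D.L.det * (JE (fun i j => ‖D.ε i j‖ ^ 2) : ℂ)
        * TI D.w D.x D.L (fun i j => ‖D.ε i j‖ ^ 2) 0 := by
  rw [FF_const (c6f D) (c6phi D) (c6act D) (c6act_empty D) (fun i g x hi =>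
    c6act_insert D i g x hi) (c6f_alt D) h]
  have h1 : ∀ π : Equiv.Perm (Fin r), ((Equiv.Perm.sign π : ℤ) : ℂ)
      * c6f D (fun k => c6act D (Finset.univ \ JJ π k) h)
      = (Real.pi : ℂ) ^ (r + 1) * D.L.det * (((Equiv.Perm.sign π : ℤ) : ℂ)
        * c6F D (fun k => ∏ i ∈ Finset.univ \ JJ π k, fun j => ‖D.ε i j‖ ^ 2)) := by
    intro π
    have h2 : c6f D (fun k => c6act D (Finset.univ \ JJ π k) h)
        = SS D.w D.x (fun k => g12diag D.L (∏ i ∈ Finset.univ \ JJ π k,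
          fun j => ‖D.ε i j‖ ^ 2)) := by
      unfold c6f
      congr 1
      funext k
      show (NG.cm (MP D.M (Finset.univ \ JJ π k)))ᴴ * h.1 * NG.cm (MP D.M (Finset.univ \ JJ π k)) = _
      rw [hh]
      exact c6_act_diag D _
    rw [h2, c6_SS_diag]
    ring
  rw [Finset.sum_congr rfl fun π _ => h1 π, ← Finset.mul_sum, c6_torus]
  have h3 : ((-1 : ℂ) ^ r) * (-1) ^ r = 1 := by
    rw [← mul_pow]; norm_num
  linear_combination ((Real.pi : ℂ) ^ (r + 1) * D.L.det * (JE (fun i j => ‖D.ε i j‖ ^ 2) : ℂ)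
        * TI D.w D.x D.L (fun i j => ‖D.ε i j‖ ^ 2) 0) * h3

theorem c6_core (D : CD3 0) (A : Me 1) (hA : A.det ≠ 0) :
    (Real.pi : ℂ) ^ (0 + 1) * D.L.det * (JE (fun i j => ‖D.ε i j‖ ^ 2) : ℂ)
        * TI D.w D.x D.L (fun i j => ‖D.ε i j‖ ^ 2) 0 = Psi D.w D.x A := by
  have hl0 : D.L 0 0 ≠ 0 := by
    have h := D.hL
    rwa [Matrix.det_fin_one] at h
  have ha0 : emb (A 0 0) ≠ 0 := by
    have h1 := (cm_det A)
    rw [Matrix.det_fin_one] at h1
    intro h
    apply hA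
    apply emb_injective
    rw [← h1, _root_.map_zero]
    exact h
  set p : ℝ := ‖emb (A 0 0)‖ ^ 2 / ‖D.L 0 0‖ ^ 2 with hp
  have hp0 : 0 < p := by
    have h1 : 0 < ‖emb (A 0 0)‖ := norm_pos_iff.2 ha0
    have h2 : 0 < ‖D.L 0 0‖ := norm_pos_iff.2 hl0
    positivity
  -- the diagonal form
  have hsq : (fun i : Fin 1 => NG.sq (NG.cm A i))
      = fun i => ∑ j, ((((Matrix.of fun _ _ => p : Matrix (Fin 1) (Fin 1) ℝ)) i j : ℝ) : ℂ) • NG.sq (D.L j) := by
    funext i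
    rw [Fin.sum_univ_one]
    ext a b
    have ea : a = 0 := Subsingleton.elim _ _
    have eb : b = 0 := Subsingleton.elim _ _
    have ei : i = 0 := Subsingleton.elim _ _
    subst ea eb ei
    have e1 : ∀ l : Fin 1 → ℂ, NG.sq l 0 0 = ((‖l 0‖ ^ 2 : ℝ) : ℂ) := by
      intro l
      rw [NG.sq, Matrix.vecMulVec_apply]
      rw [Pi.star_apply, RCLike.star_def, Complex.conj_mul']
      push_cast
      rfl
    rw [Matrix.smul_apply, e1, e1, smul_eq_mul, ← Complex.ofReal_mul]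
    congr 1
    have e2 : NG.cm A 0 0 = emb (A 0 0) := rfl
    rw [e2, Matrix.of_apply, hp]
    have h2 : ‖D.L 0 0‖ ^ 2 ≠ 0 := pow_ne_zero _ (norm_ne_zero_iff.2 hl0)
    field_simp
  have hbd := ThD_bound le_rfl D.w D.x D.hx0 D.L D.hL {(fun _ => 1 : Fin 1 → ℝ)}
    (by
      intro a ha
      rw [mem_singleton_iff.1 ha]
      intro i
      exact one_pos) isCompact_singleton
  obtain ⟨C, κ, hC, hκ, hb⟩ := hbd
  set g : ℝ → ℂ := fun σ => ThD D.w D.x D.L (σ • (fun _ => 1 : Fin 1 → ℝ)) with hg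
  have hgb : ∀ σ : ℝ, 0 < σ → ‖g σ‖ ≤ C * Real.exp (-(κ * σ)) := by
    intro σ hσ
    refine (hb _ rfl σ hσ).trans ?_
    apply mul_le_mul_of_nonneg_left _ hC.le
    apply Real.exp_le_exp.2
    have h1 : 0 < 1 / σ := by positivity
    have h2 : κ * σ ≤ κ * (σ + 1 / σ) := mul_le_mul_of_nonneg_left (by linarith) hκ.le
    linarith
  have hgc : ContinuousOn g (Ioi 0) := by
    refine (ThD_cont D.w D.x D.L D.hL).comp (by fun_prop) ?_
    intro σ hσ i
    simpa using hσ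
  have hcomb : ∀ a : Fin 1 → ℝ, (∑ i, a i • (Matrix.of fun _ _ => p : Matrix (Fin 1) (Fin 1) ℝ) i)
      = (p * ∑ i, a i) • (fun _ => 1 : Fin 1 → ℝ) := by
    intro a
    funext j
    simp only [Fin.sum_univ_one, Pi.smul_apply, smul_eq_mul, Matrix.of_apply, mul_one]
    ring
  have hint : ∫ a in qd 1, ThD D.w D.x D.L
      (∑ i, a i • (Matrix.of fun _ _ => p : Matrix (Fin 1) (Fin 1) ℝ) i)
      = (p : ℂ)⁻¹ * ∫ σ in Ioi (0 : ℝ), g σ := by
    have h1 := simplex_int (r := 0) (fun σ => g (p * σ))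
      (hgc.comp (by fun_prop) (fun σ hσ => mul_pos hp0 hσ)) C (κ * p) (by positivity) (by
        intro σ hσ
        refine (hgb (p * σ) (mul_pos hp0 hσ)).trans (le_of_eq ?_)
        congr 2
        ring)
    have h2 : ∫ a in qd 1, ThD D.w D.x D.L
        (∑ i, a i • (Matrix.of fun _ _ => p : Matrix (Fin 1) (Fin 1) ℝ) i)
        = ∫ a in qd (0 + 1), g (p * ∑ i, a i) := by
      congr 1
      funext a
      rw [hcomb]
    rw [h2, h1]
    have h3 := integral_comp_mul_left_Ioi g 0 hp0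
    simp only [mul_zero] at h3
    simp only [Nat.factorial_zero, Nat.cast_one, div_one, pow_zero, one_mul]
    rw [h3]
    simp
  have hTI : TI D.w D.x D.L (fun i j => ‖D.ε i j‖ ^ 2) 0 = ∫ σ in Ioi (0 : ℝ), g σ := by
    have hin : ∀ t : Fin 0 → ℝ, (∫ σ in Ioi (0 : ℝ), (σ : ℂ) ^ (((0 : ℕ) + 1 : ℂ) * 0 + (0 : ℕ))
        * ThD D.w D.x D.L (σ • Ex (fun i j => ‖D.ε i j‖ ^ 2) t)) = ∫ σ in Ioi (0 : ℝ), g σ := by
      intro t
      apply setIntegral_congr_fun measurableSet_Ioi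
      intro σ hσ
      have e1 : Ex (fun i j => ‖D.ε i j‖ ^ 2) t = (fun _ => 1 : Fin 1 → ℝ) := by
        funext j
        simp [Ex]
      simp only [e1]
      simp [hg]
    rw [TI]
    simp only [hin]
    rw [setIntegral_const]
    have hv : (volume : Measure (Fin 0 → ℝ)).real (Icc 0 1) = 1 := by
      rw [Measure.real, Real.volume_Icc_pi]
      simp
    rw [hv, one_smul]
  have hJE : JE (fun i j => ‖D.ε i j‖ ^ 2) = 1 := by
    rw [JE, Matrix.det_fin_one]
    rfl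
  rw [Psi, hsq, SS_diag, hint, hTI, hJE, Matrix.det_fin_one (Matrix.of _)]
  have hpC : (p : ℂ) ≠ 0 := by exact_mod_cast hp0.ne'
  rw [Matrix.of_apply]
  field_simp
  push_cast
  ring

theorem c6_core_eq (hr : 1 ≤ r) (D : CD3 r) (l : Finset (Fin r) → Fin (r + 1) → Eis)
    (hl : ∀ (π : Equiv.Perm (Fin r)) (g : Finset (Fin r)), Good D.w D.x (Af D.M l π g)) :
    (Real.pi : ℂ) ^ (r + 1) * D.L.det * (JE (fun i j => ‖D.ε i j‖ ^ 2) : ℂ)
        * TI D.w D.x D.L (fun i j => ‖D.ε i j‖ ^ 2) 0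
      = ∑ π : Equiv.Perm (Fin r), ∑ g : Finset (Fin r), ((Equiv.Perm.sign π : ℤ) : ℂ)
          * (-1) ^ g.card * Psi D.w D.x (Af D.M l π g) := by
  classical
  set h : g12X r := ⟨g12diag D.L 1, g12diag_PD D.L D.hL 1 (fun _ => one_pos)⟩ with hh
  -- the family at height τ
  let Pt : ℝ → Finset (Fin r) → g12X r := fun τ J =>
    if hτ : 0 ≤ τ then ⟨(τ : ℂ) • NG.sq (NG.em (l J)) + h.1, PD_add_sq h.2 (NG.em (l J)) hτ⟩ else h
  have h1 : ∀ τ : ℝ, FF (c6act D) (c6f D) (Pt τ)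
      = (Real.pi : ℂ) ^ (r + 1) * D.L.det * (JE (fun i j => ‖D.ε i j‖ ^ 2) : ℂ)
        * TI D.w D.x D.L (fun i j => ‖D.ε i j‖ ^ 2) 0 := by
    intro τ
    rw [← c6_const D h rfl]
    exact FF_eq (c6f D) (c6phi D) (c6act D) (c6act_empty D) (fun i g x hi =>
      c6act_insert D i g x hi) (c6f_inv D) (c6f_coc D) _ _
  have h2 : Tendsto (fun τ : ℝ => FF (c6act D) (c6f D) (Pt τ)) atTop
      (𝓝 (∑ π : Equiv.Perm (Fin r), ∑ g : Finset (Fin r), ((Equiv.Perm.sign π : ℤ) : ℂ)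
          * (-1) ^ g.card * Psi D.w D.x (Af D.M l π g))) := by
    unfold FF
    refine tendsto_finsetSum _ fun π _ => tendsto_finsetSum _ fun g _ => ?_
    refine Tendsto.const_mul _ ?_
    have h3 := SS_lim (by omega) D.w D.x (Af D.M l π g) (hl π g)
      (fun k => (c6act D (g \ JJ π k) h).1) (fun k => (c6act D (g \ JJ π k) h).2)
    refine h3.congr' ?_
    filter_upwards [eventually_ge_atTop (0 : ℝ)] with τ hτ
    unfold c6f
    congr 1
    funext k
    show _ = (NG.cm (MP D.M (g \ JJ π k)))ᴴ * (Pt τ (JJ π k)).1 * NG.cm (MP D.M (g \ JJ π k))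
    have h4 : (Pt τ (JJ π k)).1 = (τ : ℂ) • NG.sq (NG.em (l (JJ π k))) + h.1 := by
      simp only [Pt, hτ, dif_pos]
    rw [h4, Matrix.mul_add, Matrix.add_mul, Matrix.mul_smul, Matrix.smul_mul, sq_conj,
      ← g12_em_vecMul]
    rfl
  have h3 : Tendsto (fun τ : ℝ => FF (c6act D) (c6f D) (Pt τ)) atTop
      (𝓝 ((Real.pi : ℂ) ^ (r + 1) * D.L.det * (JE (fun i j => ‖D.ε i j‖ ^ 2) : ℂ)
        * TI D.w D.x D.L (fun i j => ‖D.ε i j‖ ^ 2) 0)) :=
    tendsto_const_nhds.congr fun τ => (h1 τ).symm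
  exact tendsto_nhds_unique h3 h2


/-- `norm c` is odd -/
theorem c6_norm_odd (D : CD3 r) : Odd D.c.norm.natAbs := by
  by_contra hodd
  rw [Nat.not_odd_iff_even] at hodd
  have h1 : Even (D.c.norm) := by
    rcases hodd with ⟨k, hk⟩
    rw [← Int.natAbs_even]
    exact ⟨k, hk⟩
  -- both coordinates are even
  rw [norm_eq] at h1
  have h2 : Even D.c.re ∧ Even D.c.im := by
    rcases Int.even_or_odd D.c.re with ha | ha <;> rcases Int.even_or_odd D.c.im with hb | hb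
    · exact ⟨ha, hb⟩
    · exfalso
      have : Odd (D.c.re ^ 2 - D.c.re * D.c.im + D.c.im ^ 2) := by
        have h3 : Even (D.c.re ^ 2) := ha.pow_of_ne_zero two_ne_zero
        have h4 : Even (D.c.re * D.c.im) := ha.mul_right _
        have h5 : Odd (D.c.im ^ 2) := hb.pow
        exact (h3.sub h4).add_odd h5
      exact (Int.not_even_iff_odd.2 this) h1
    · exfalso
      have : Odd (D.c.re ^ 2 - D.c.re * D.c.im + D.c.im ^ 2) := by
        have h3 : Odd (D.c.re ^ 2) := ha.pow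
        have h4 : Even (D.c.re * D.c.im) := hb.mul_left _
        have h5 : Even (D.c.im ^ 2) := hb.pow_of_ne_zero two_ne_zero
        exact (h3.sub_even h4).add_even h5
      exact (Int.not_even_iff_odd.2 this) h1
    · exfalso
      have : Odd (D.c.re ^ 2 - D.c.re * D.c.im + D.c.im ^ 2) := by
        have h3 : Odd (D.c.re ^ 2) := ha.pow
        have h4 : Odd (D.c.re * D.c.im) := ha.mul hb
        have h5 : Odd (D.c.im ^ 2) := hb.pow
        exact (h3.sub_odd h4).add_odd h5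
      exact (Int.not_even_iff_odd.2 this) h1
  obtain ⟨⟨a, ha⟩, ⟨b, hb⟩⟩ := h2
  -- `c = 2 d`, `c` prime
  have h3 : D.c = 2 * (⟨a, b⟩ : Eis) := by
    have h31 : (2 : Eis).re = 2 := rfl
    have h32 : (2 : Eis).im = 0 := rfl
    ext
    · simp only [QuadraticAlgebra.re_mul, h31, h32]; rw [ha]; ring
    · simp only [QuadraticAlgebra.im_mul, h31, h32]; rw [hb]; ring
  have h4 : D.c ∣ 2 ∨ D.c ∣ (⟨a, b⟩ : Eis) := D.hc.dvd_or_dvd (h3 ▸ dvd_refl _)
  rcases h4 with h4 | h4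
  · have h26 : (2 : Eis) ∣ 6 := ⟨3, by norm_num⟩
    exact D.hcN ((h4.trans h26).mul_right _)
  · obtain ⟨d, hd⟩ := h4
    have h5 : D.c * (1 - 2 * d) = 0 := by
      rw [mul_sub, mul_one]
      have : D.c * (2 * d) = 2 * (D.c * d) := by ring
      rw [this, ← hd, ← h3, sub_self]
    have h6 : (1 : Eis) - 2 * d = 0 := by
      have h61 := congrArg emb h5
      rw [map_mul, map_zero] at h61
      rcases mul_eq_zero.1 h61 with h | h
      · exact absurd (emb_injective (h.trans (map_zero emb).symm)) D.hc.ne_zero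
      · exact emb_injective (h.trans (map_zero emb).symm)
    have h7 := congrArg QuadraticAlgebra.re h6
    have h31 : (2 : Eis).re = 2 := rfl
    have h32 : (2 : Eis).im = 0 := rfl
    simp only [QuadraticAlgebra.re_sub, QuadraticAlgebra.re_mul, h31, h32,
      QuadraticAlgebra.re_one, QuadraticAlgebra.re_zero] at h7
    omega

/-- The common level. -/
noncomputable def c6N (D : CD3 r) : ℕ := D.N * D.c.norm.natAbs

/-- `norm c` is prime to `3` -/
theorem c6_norm_three (D : CD3 r) : ¬ 3 ∣ D.c.norm.natAbs := by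
  intro h
  have h1 : (3 : ℤ) ∣ D.c.norm := by
    have h2 : ((3 : ℕ) : ℤ) ∣ ((D.c.norm.natAbs : ℕ) : ℤ) := Int.natCast_dvd_natCast.2 h
    rw [Int.dvd_natAbs] at h2
    exact_mod_cast h2
  have h2 : la ∣ D.c := (la_dvd_iff _).2 h1
  have h3 : D.c ∣ la := by
    obtain ⟨d, hd⟩ := h2
    have h50 : D.c ∣ la * d := by rw [← hd]
    rcases D.hc.dvd_or_dvd h50 with h5 | h5
    · exact h5
    · exfalso
      obtain ⟨e, he⟩ := h5
      have h6 : emb D.c * (emb la * emb e - 1) = 0 := by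
        have h7 := congrArg emb hd
        rw [he, map_mul, map_mul] at h7
        linear_combination -h7
      rcases mul_eq_zero.1 h6 with h7 | h7
      · exact D.hc.ne_zero (emb_injective (h7.trans (map_zero emb).symm))
      · apply laP.not_isUnit
        apply IsUnit.of_mul_eq_one e
        apply emb_injective
        rw [map_mul, map_one]
        linear_combination h7
  have h4 : la ∣ (3 : Eis) := (dvd_pow_self la two_ne_zero).trans la_dvd_three.1
  have h36 : (3 : Eis) ∣ 6 := ⟨2, by norm_num⟩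
  exact D.hcN (((h3.trans h4).trans h36).mul_right _)

theorem c6N_cop (D : CD3 r) : Nat.Coprime (c6N D) 6 := by
  have h1 : Nat.Coprime D.c.norm.natAbs 2 := Nat.coprime_two_right.2 (c6_norm_odd D)
  have h2 : Nat.Coprime D.c.norm.natAbs 3 :=
    ((Nat.Prime.coprime_iff_not_dvd Nat.prime_three).2 (c6_norm_three D)).symm
  have h3 : Nat.Coprime D.c.norm.natAbs (2 * 3) := Nat.Coprime.mul_right h1 h2
  exact Nat.Coprime.mul_left D.hN h3

theorem c6N_odd (D : CD3 r) : Odd (c6N D) :=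
  Nat.coprime_two_right.1 ((c6N_cop D).coprime_dvd_right (by norm_num))

theorem c6N_x (D : CD3 r) : (fun i => ((c6N D : ℕ) : ℂ) * D.x i) ∈ Lz (r + 1) :=
  g12_Lz_nat D.N D.hx _ (Dvd.intro _ rfl)

theorem c6N_w (D : CD3 r) (i : Fin (r + 1)) : ((c6N D : ℕ) : ℂ) * D.w i ∈ Dl := by
  have h1 : ((D.c.norm.natAbs : ℕ) : ℂ) * D.w i ∈ Dl := by
    rw [Dl_iff]
    refine ⟨star D.c * D.W i, ?_⟩
    have h2 := congrArg emb (g12_nat_mul_norm D.c)
    rw [map_natCast, map_mul] at h2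
    have h3 : emb D.c ≠ 0 := by
      intro h
      exact D.hc.ne_zero (emb_injective (h.trans (map_zero emb).symm))
    have h4 : (Complex.I * ((√3 : ℝ) : ℂ)) ≠ 0 := by
      apply mul_ne_zero Complex.I_ne_zero
      have : (0 : ℝ) < √3 := by positivity
      exact_mod_cast this.ne'
    rw [D.hw, h2, map_mul]
    field_simp
  have h2 := g12_Dl_nat _ h1 (c6N D) (Dvd.intro_left _ rfl)
  exact h2

section twist

variable (D : CD3 r) (N' : ℕ) (hN' : c6N D ∣ N') (u v : Eis) (k : ℕ)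
  (hu : IsCoprime u (N' : Eis)) (hv : IsCoprime v (N' : Eis)) (huv : (N' : Eis) ∣ v * u - k)

include hN' hu in
theorem c6_ux {a b : Eis} (hab : a * u + b * (N' : Eis) = 1) :
    ∃ m : Fin (r + 1) → Eis, (fun i => emb a * (emb u * D.x i)) = D.x + NG.em m := by
  obtain ⟨m, hm⟩ := g12_Lz_nat _ (c6N_x D) N' hN'
  refine ⟨fun i => -(b * m i), ?_⟩
  funext i
  have h1 := congrFun hm i
  have h2 := congrArg emb hab
  simp only [map_add, map_mul, map_one, map_natCast] at h2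
  simp only [NG.em] at h1
  simp only [Pi.add_apply, NG.em, map_neg, map_mul]
  rw [h1]
  linear_combination (D.x i) * h2

include hN' hu in
theorem c6_ux0 : (fun i => emb u * D.x i) ∉ Lz (r + 1) := by
  obtain ⟨a, b, hab⟩ := hu
  intro h
  obtain ⟨m, hm⟩ := c6_ux D N' hN' u ⟨a, b, hab⟩ hab
  have h1 := g12_Lz_mul h a
  have h1' : (D.x + NG.em m) ∈ Lz (r + 1) := hm ▸ h1
  have h2 := g12_Lz_add h1' (g12_Lz_mul (n := r + 1) ⟨m, rfl⟩ (-1))
  apply D.hx0
  convert h2 using 1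
  funext i
  simp only [Pi.add_apply, map_neg, map_one]
  ring

include hN' hv in
theorem c6_cv : ¬ D.c ∣ v := by
  intro h
  obtain ⟨a, b, hab⟩ := hv
  have h1 : D.c ∣ (N' : Eis) := by
    have h2 : D.c ∣ ((c6N D : ℕ) : Eis) := by
      unfold c6N
      rw [Nat.cast_mul]
      exact (g12_dvd_norm D.c).mul_left _
    exact h2.trans (by exact_mod_cast (Nat.cast_dvd_cast (α := Eis) hN'))
  have h3 : D.c ∣ 1 := by
    rw [← hab]
    exact dvd_add (h.mul_left _) (h1.mul_left _)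
  exact D.hc.not_isUnit (isUnit_of_dvd_one h3)

/-- `Re (w · (M - 1) m) ∈ ℤ` for integral `m` -/
theorem c6_wM (i : Fin r) (m : Fin (r + 1) → Eis) :
    ∃ k : ℤ, (D.w ⬝ᵥ (NG.cm (D.M i) *ᵥ NG.em m - NG.em m)).re = k := by
  obtain ⟨k1, hk1⟩ := g12_ch_eq.1 (D.hMw i m)
  obtain ⟨k0, hk0⟩ := g12_ch_eq.1 (D.hMw i 0)
  refine ⟨k1 - k0, ?_⟩
  have h0 : NG.em (0 : Fin (r + 1) → Eis) = 0 := by
    funext j; simp [NG.em]
  rw [h0, add_zero] at hk0
  have h : NG.cm (D.M i) *ᵥ NG.em m - NG.em m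
      = (NG.cm (D.M i) *ᵥ (D.x + NG.em m) - (D.x + NG.em m)) - (NG.cm (D.M i) *ᵥ D.x - D.x) := by
    rw [Matrix.mulVec_add]; abel
  rw [h, dotProduct_sub, Complex.sub_re, hk1, hk0]
  push_cast
  ring

theorem c6_wx (i : Fin r) : ∃ k : ℤ, (D.w ⬝ᵥ (NG.cm (D.M i) *ᵥ D.x - D.x)).re = k := by
  obtain ⟨k0, hk0⟩ := g12_ch_eq.1 (D.hMw i 0)
  have h0 : NG.em (0 : Fin (r + 1) → Eis) = 0 := by
    funext j; simp [NG.em]
  rw [h0, add_zero] at hk0
  exact ⟨k0, hk0⟩

include hN' hu huv in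
theorem c6_hMw (i : Fin r) (m : Fin (r + 1) → Eis) :
    ch (fun i => emb v * D.w i) (NG.cm (D.M i) *ᵥ ((fun i => emb u * D.x i) + NG.em m))
      = ch (fun i => emb v * D.w i) ((fun i => emb u * D.x i) + NG.em m) := by
  rw [g12_ch_eq]
  obtain ⟨b, hb⟩ := huv
  obtain ⟨m', hm'⟩ := g12_Lz_nat _ (c6N_x D) N' hN'
  obtain ⟨k1, hk1⟩ := c6_wx D i
  obtain ⟨k2, hk2⟩ := c6_wM D i (fun i => b * m' i + v * m i)
  refine ⟨k * k1 + k2, ?_⟩
  have h1 : (fun i => emb v * D.w i) = emb v • D.w := by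
    funext j; simp only [Pi.smul_apply, smul_eq_mul]
  have h2 : emb v • ((fun i => emb u * D.x i) + NG.em m)
      = (k : ℂ) • D.x + NG.em (fun i => b * m' i + v * m i) := by
    funext j
    have h3 := congrFun hm' j
    simp only [NG.em] at h3
    have h4 := congrArg emb hb
    simp only [map_sub, map_mul, map_natCast] at h4
    simp only [Pi.smul_apply, Pi.add_apply, smul_eq_mul, NG.em, map_add, map_mul]
    rw [h3]
    linear_combination (D.x j) * h4
  have h5 : (emb v • D.w) ⬝ᵥ (NG.cm (D.M i) *ᵥ ((fun i => emb u * D.x i) + NG.em m)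
        - ((fun i => emb u * D.x i) + NG.em m))
      = D.w ⬝ᵥ ((k : ℂ) • (NG.cm (D.M i) *ᵥ D.x - D.x)
        + (NG.cm (D.M i) *ᵥ NG.em (fun i => b * m' i + v * m i) - NG.em (fun i => b * m' i + v * m i))) := by
    rw [smul_dotProduct, ← dotProduct_smul, smul_sub, ← Matrix.mulVec_smul, h2,
      Matrix.mulVec_add, Matrix.mulVec_smul, smul_sub]
    congr 1
    abel
  rw [h1, h5, dotProduct_add, dotProduct_smul, Complex.add_re, hk2, smul_eq_mul,
    ← Complex.ofReal_natCast, Complex.re_ofReal_mul, hk1]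
  push_cast
  ring

/-- The twisted core data. -/
noncomputable def c6D : CD3 r where
  x := fun i => emb u * D.x i
  w := fun i => emb v * D.w i
  M := D.M
  L := D.L
  ε := D.ε
  N := D.N
  c := D.c
  W := fun i => v * D.W i
  hN := D.hN
  hx := by
    have h := g12_Lz_mul D.hx u
    convert h using 1
    funext i
    ring
  hx0 := c6_ux0 D N' hN' u hu
  hc := D.hc
  hcN := D.hcN
  hcbig := D.hcbig
  hW := by
    obtain ⟨i, hi⟩ := D.hW
    refine ⟨i, fun h => ?_⟩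
    rcases D.hc.dvd_or_dvd h with h | h
    · exact c6_cv D N' hN' v hv h
    · exact hi h
  hw := fun i => by
    rw [D.hw, map_mul]; ring
  hdet := D.hdet
  hcomm := D.hcomm
  hM3 := D.hM3
  hMx := fun i => by
    obtain ⟨m, hm⟩ := D.hMx i
    refine ⟨fun j => u * m j, ?_⟩
    have h1 : (fun i => emb u * D.x i) = emb u • D.x := by
      funext j; simp only [Pi.smul_apply, smul_eq_mul]
    rw [h1, Matrix.mulVec_smul, hm]
    funext j
    simp only [Pi.smul_apply, Pi.add_apply, smul_eq_mul, NG.em, map_mul]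
    ring
  hMw := c6_hMw D N' hN' u v k hu huv
  hL := D.hL
  hLM := D.hLM
  hJ := D.hJ


end twist

theorem core_eq3 (D : CD3 r) (l : Finset (Fin r) → Fin (r + 1) → Eis)
    (hl : ∀ (π : Equiv.Perm (Fin r)) (g : Finset (Fin r)), Good D.w D.x (Af D.M l π g)) :
    (Real.pi : ℂ) ^ (r + 1) * D.L.det * (JE (fun i j => ‖D.ε i j‖ ^ 2) : ℂ)
        * TI D.w D.x D.L (fun i j => ‖D.ε i j‖ ^ 2) 0
      = ∑ π : Equiv.Perm (Fin r), ∑ g : Finset (Fin r), ((Equiv.Perm.sign π : ℤ) : ℂ)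
          * (-1) ^ g.card * Psi D.w D.x (Af D.M l π g) := by
  rcases r with _ | r
  · rw [c6_core D (Af D.M l 1 ∅) (hl 1 ∅).det]
    have h1 : (Finset.univ : Finset (Finset (Fin 0))) = {∅} := by decide
    rw [Fintype.sum_unique, h1, Finset.sum_singleton]
    have h2 : (default : Equiv.Perm (Fin 0)) = 1 := Subsingleton.elim _ _
    rw [h2]
    simp
  · exact c6_core_eq (Nat.le_add_left 1 r) D l hl

theorem core_val3 (D : CD3 r) (V : ValuationSubring ℂ) (hV : V.valuation 3 < 1) :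
    V.valuation ((Real.pi : ℂ) ^ (r + 1) * D.L.det * (JE (fun i j => ‖D.ε i j‖ ^ 2) : ℂ)
        * TI D.w D.x D.L (fun i j => ‖D.ε i j‖ ^ 2) 0 / Omp ^ (r + 1)) ≤ 1 := by
  obtain ⟨l, hl⟩ := exists_ell3 D
  rw [core_eq3 D l (fun π g => (hl π g).1.good), Finset.sum_div]
  refine V.valuation.map_sum_le fun π _ => ?_
  rw [Finset.sum_div]
  refine V.valuation.map_sum_le fun g _ => ?_
  rw [mul_div_assoc, map_mul, map_mul]
  have h1 : V.valuation (((Equiv.Perm.sign π : ℤ) : ℂ)) ≤ 1 := by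
    apply g12_val_one
    rcases Int.units_eq_one_or (Equiv.Perm.sign π) with h | h <;> rw [h] <;> norm_num
  have h2 : V.valuation ((-1 : ℂ) ^ g.card) ≤ 1 := by
    apply g12_val_one
    exact neg_one_pow_eq_or ℂ _
  have h3 := Psi_val3 (by omega) D.w D.x (Af D.M l π g) (hl π g).1 (hl π g).2 (c6N D)
    (c6N_cop D) (c6N_x D) (c6N_w D) V hV
  exact mul_le_one' (mul_le_one' h1 h2) h3

theorem core_gal3 (D : CD3 r) : ∃ N₂ : ℕ, ¬ 3 ∣ N₂ ∧ ∀ N' : ℕ, N₂ ∣ N' → ¬ 3 ∣ N' →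
    ∀ σ : ℂ ≃+* ℂ, σ CM27.w = CM27.w → ∀ u : Eis, IsCoprime u (N' : Eis) →
    (∀ c : Eis, ptMap (σ : ℂ →+* ℂ) (pt (emb c / N')) = pt (emb (c * u) / N')) →
    ∀ k : ℕ, (∀ ζ : ℂ, ζ ^ N' = 1 → σ ζ = ζ ^ k) → ∀ v : Eis, IsCoprime v (N' : Eis) →
    (N' : Eis) ∣ v * u - k →
    σ ((Real.pi : ℂ) ^ (r + 1) * D.L.det * (JE (fun i j => ‖D.ε i j‖ ^ 2) : ℂ)
        * TI D.w D.x D.L (fun i j => ‖D.ε i j‖ ^ 2) 0 / OmC ^ (r + 1))
      = (Real.pi : ℂ) ^ (r + 1) * D.L.det * (JE (fun i j => ‖D.ε i j‖ ^ 2) : ℂ)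
        * TI (fun i => emb v * D.w i) (fun i => emb u * D.x i) D.L
          (fun i j => ‖D.ε i j‖ ^ 2) 0 / OmC ^ (r + 1) := by
  classical
  obtain ⟨l, hl⟩ := exists_ell3 D
  have h3c : ∀ (π : Equiv.Perm (Fin r)) (g : Finset (Fin r)),
      ¬ 3 ∣ (c6N D * (Af D.M l π g).det.norm.natAbs) ^ 2 := by
    intro π g h
    have h1 := Nat.prime_three.dvd_of_dvd_pow h
    rcases (Nat.Prime.dvd_mul Nat.prime_three).1 h1 with h2 | h2
    · have h3 : Nat.Coprime (c6N D) 3 := (c6N_cop D).coprime_dvd_right (by norm_num)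
      exact (Nat.Prime.coprime_iff_not_dvd Nat.prime_three).1 h3.symm h2
    · apply (hl π g).2
      rw [la_dvd_iff]
      have h3 : ((3 : ℕ) : ℤ) ∣ (((Af D.M l π g).det.norm.natAbs : ℕ) : ℤ) :=
        Int.natCast_dvd_natCast.2 h2
      rw [Int.dvd_natAbs] at h3
      exact_mod_cast h3
  refine ⟨∏ π : Equiv.Perm (Fin r), ∏ g : Finset (Fin r),
    (c6N D * (Af D.M l π g).det.norm.natAbs) ^ 2, ?_, ?_⟩
  · have hmul : ∀ a b : ℕ, ¬ 3 ∣ a → ¬ 3 ∣ b → ¬ 3 ∣ a * b := by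
      intro a b ha hb h
      rcases (Nat.Prime.dvd_mul Nat.prime_three).1 h with h | h
      · exact ha h
      · exact hb h
    refine Finset.prod_induction _ (fun a => ¬ 3 ∣ a) hmul (by norm_num) fun π _ => ?_
    exact Finset.prod_induction _ (fun a => ¬ 3 ∣ a) hmul (by norm_num) fun g _ => h3c π g
  · intro N' hd hodd σ hσ u hu hσu k hσζ v hv huv
    have hN0 : 0 < N' := Nat.pos_of_ne_zero fun h => hodd (h ▸ dvd_zero 3)
    have hdvd : ∀ (π : Equiv.Perm (Fin r)) (g : Finset (Fin r)),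
        (c6N D * (Af D.M l π g).det.norm.natAbs) ^ 2 ∣ N' := by
      intro π g
      refine dvd_trans ?_ hd
      exact (Finset.dvd_prod_of_mem (fun g : Finset (Fin r) =>
        (c6N D * (Af D.M l π g).det.norm.natAbs) ^ 2) (Finset.mem_univ g)).trans
        (Finset.dvd_prod_of_mem (fun π : Equiv.Perm (Fin r) => ∏ g : Finset (Fin r),
          (c6N D * (Af D.M l π g).det.norm.natAbs) ^ 2) (Finset.mem_univ π))
    have hN' : c6N D ∣ N' :=
      ((Dvd.intro _ rfl : c6N D ∣ c6N D * (Af D.M l 1 ∅).det.norm.natAbs).trans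
        (dvd_pow_self _ two_ne_zero)).trans (hdvd 1 ∅)
    have hgood : ∀ (π : Equiv.Perm (Fin r)) (g : Finset (Fin r)),
        Good (fun i => emb v * D.w i) (fun i => emb u * D.x i) (Af D.M l π g) := by
      intro π g
      obtain ⟨a, b, hab⟩ := hu
      obtain ⟨a', b', hab'⟩ := hv
      obtain ⟨m, hm⟩ := hN'
      refine (Good3_u D.w D.x _ (hl π g).1 (c6N D) (c6N_x D) (c6N_w D) u a (b * (m : Eis)) ?_
        v a' (b' * (m : Eis)) ?_).good
      · rw [← hab, hm]; push_cast; ring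
      · rw [← hab', hm]; push_cast; ring
    have h1 := core_eq3 (c6D D N' hN' u v k hu hv huv) l hgood
    have h2 : (Real.pi : ℂ) ^ (r + 1) * D.L.det * (JE (fun i j => ‖D.ε i j‖ ^ 2) : ℂ)
        * TI (fun i => emb v * D.w i) (fun i => emb u * D.x i) D.L
          (fun i j => ‖D.ε i j‖ ^ 2) 0
        = ∑ π : Equiv.Perm (Fin r), ∑ g : Finset (Fin r), ((Equiv.Perm.sign π : ℤ) : ℂ)
          * (-1) ^ g.card * Psi (fun i => emb v * D.w i) (fun i => emb u * D.x i)
            (Af D.M l π g) := h1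
    rw [h2, core_eq3 D l (fun π g => (hl π g).1.good), Finset.sum_div, Finset.sum_div, map_sum]
    refine Finset.sum_congr rfl fun π _ => ?_
    rw [Finset.sum_div, Finset.sum_div, map_sum]
    refine Finset.sum_congr rfl fun g _ => ?_
    rw [mul_div_assoc, mul_div_assoc, map_mul, map_mul, map_pow, map_neg, map_one, map_intCast]
    congr 1
    exact Psi_gal3 (by omega) D.w D.x (Af D.M l π g) (hl π g).1 (c6N D) (c6N_odd D) (c6N_x D)
      (c6N_w D) N' hN0 (hdvd π g) σ hσ u hu hσu k hσζ v hv huv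

end TH
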