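import Pool.Agent.MP_9ab903_nt.TH.C7
import Pool.Agent.MP_9ab903_nt.NG.H3

/-!
# [NG3-C8] the coordinates of the lattice `m b` (port of `exists_LD`, `NG/H3.lean`)

As `exists_LD` with `2 ↦ la`: `hM3`: `e_i - 1 = λ f`, `f m b ⊆ m b`; `hM`: norm `1` from `he.norm`; `hx0`: `g₀ ∉ m b` as `m` is not a unit (`π ∣ m`: `eF p7` is not a
unit: its norm is a power of `7`); `val`: `det L = emb D δ`, `norm D = absNorm (m b)` prime to `3` (`m`, `b` prime to `6`; compare `h3_odd`), `del_val3`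
(`val_not_la`/`val_nat3` of C3 or directly); `gal`: `emb D` is fixed. `h3_prime6`: the norm of an ideal prime to `6` is prime to `6`.
-/

set_option autoImplicit false

open NumberField IsDedekindDomain MeasureTheory Set
open CM27 CMT CF NAB NG
open scoped ComplexConjugate Classical Matrix

namespace TH

variable {r : ℕ} (F : IntermediateField ℚ ℂ) [NumberField F] (hw : w ∈ F)

/-- elements of norm prime to `6` are units at `3` -/
theorem c8_val (A : ValuationSubring ℂ) (hA : A.valuation 3 < 1) (D : Eis)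
    (h : Nat.Coprime D.norm.natAbs 6) : A.valuation (emb D) = 1 := by
  have h3 : IsCoprime D.norm (3 : ℤ) := by
    rw [Int.isCoprime_iff_nat_coprime]
    exact Nat.Coprime.coprime_dvd_right (show 3 ∣ 6 by norm_num) h
  obtain ⟨p, q, hpq⟩ := h3
  have hint : ∀ k : ℤ, A.valuation (k : ℂ) ≤ 1 := by
    intro k
    rw [ValuationSubring.valuation_le_one_iff]
    exact intCast_mem A k
  have h2 : A.valuation ((q : ℂ) * 3) < 1 := by
    rw [map_mul]
    calc A.valuation (q : ℂ) * A.valuation (3 : ℂ) ≤ 1 * A.valuation (3 : ℂ) :=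
          mul_le_mul' (hint q) le_rfl
      _ < 1 := by rw [one_mul]; exact hA
  have h4 : A.valuation ((p : ℂ) * (D.norm : ℂ)) = 1 := by
    have e1 : (p : ℂ) * (D.norm : ℂ) = 1 - (q : ℂ) * 3 := by
      have e2 : ((p * D.norm + q * 3 : ℤ) : ℂ) = ((1 : ℤ) : ℂ) := by rw [hpq]
      push_cast at e2
      linear_combination e2
    rw [e1, Valuation.map_sub_eq_of_lt_left]
    · exact map_one A.valuation
    · rw [map_one A.valuation]; exact h2
  have h5 : A.valuation ((D.norm : ℤ) : ℂ) = 1 := by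
    apply le_antisymm (hint _)
    rw [map_mul] at h4
    calc (1 : _) = A.valuation (p : ℂ) * A.valuation ((D.norm : ℤ) : ℂ) := h4.symm
      _ ≤ 1 * A.valuation ((D.norm : ℤ) : ℂ) := mul_le_mul' (hint p) le_rfl
      _ = _ := one_mul _
  have h6 : A.valuation (emb D) * A.valuation (emb (star D)) = 1 := by
    rw [← map_mul, ← map_mul, a3_mul_star, map_intCast]
    exact h5
  apply le_antisymm (g4_int A D)
  calc (1 : _) = A.valuation (emb D) * A.valuation (emb (star D)) := h6.symm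
    _ ≤ A.valuation (emb D) * 1 := mul_le_mul' le_rfl (g4_int A _)
    _ = A.valuation (emb D) := mul_one _


omit hw in
theorem norm_coprime_six (I : Ideal (𝓞 F)) (hI : I ≠ ⊥)
    (h : IsCoprime I (Ideal.span {(6 : 𝓞 F)})) : Nat.Coprime (Ideal.absNorm I) 6 := by
  by_contra hn
  obtain ⟨p, hp, h1, h2⟩ := Nat.Prime.not_coprime_iff_dvd.1 hn
  obtain ⟨P, hP, hPp, hPI⟩ := Ideal.exists_isMaximal_dvd_of_dvd_absNorm' hp I h1
  have h3 : (p : 𝓞 F) ∈ P := by
    have h4 : (p : ℤ) ∈ P.under ℤ := by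
      rw [hPp]
      exact Ideal.mem_span_singleton_self _
    have h5 := Ideal.mem_comap.1 h4
    simpa using h5
  have h6 : (6 : 𝓞 F) ∈ P := by
    obtain ⟨k, hk⟩ := h2
    have h7 : (6 : 𝓞 F) = (p : 𝓞 F) * (k : 𝓞 F) := by
      exact_mod_cast congrArg (Nat.cast : ℕ → 𝓞 F) hk
    rw [h7]
    exact P.mul_mem_right _ h3
  apply hP.ne_top
  rw [← top_le_iff, ← Ideal.isCoprime_iff_sup_eq.1 h]
  exact sup_le (Ideal.le_of_dvd hPI) ((Ideal.span_singleton_le_iff_mem _).2 h6)

theorem p7_not_unit (m : 𝓞 F) (h7 : eF F hw p7 ∣ m) : ¬ IsUnit m := by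
  intro hu
  have h1 : IsUnit (eF F hw p7) := isUnit_of_dvd_unit h7 hu
  obtain ⟨y, hy⟩ := h1.exists_right_inv
  have h2 : emb p7 * ((y : F) : ℂ) = 1 := congrArg (fun x : 𝓞 F => ((x : F) : ℂ)) hy
  have h3 : IsIntegral ℤ ((y : F) : ℂ) := map_isIntegral_int (algebraMap F ℂ) y.isIntegral_coe
  have h4 : IsIntegral ℤ (conj ((y : F) : ℂ)) := map_isIntegral_int (starRingEnd ℂ) h3
  have h5 : emb (star p7) * conj ((y : F) : ℂ) = 1 := by
    have h := congrArg (starRingEnd ℂ) h2
    rw [map_mul, map_one, ← CM27.emb_star] at h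
    exact h
  have h6 : emb p7 * emb (star p7) = 7 := by
    rw [← map_mul, p7_mul_star, map_ofNat]
  have h8 : ((y : F) : ℂ) * conj ((y : F) : ℂ) = algebraMap ℚ ℂ (1 / 7) := by
    have h9 : (7 : ℂ) * (((y : F) : ℂ) * conj ((y : F) : ℂ)) = 1 := by
      rw [← h6]
      linear_combination (emb (star p7) * conj ((y : F) : ℂ)) * h2 + h5
    rw [map_div₀, map_one, map_ofNat, eq_div_iff (by norm_num)]
    linear_combination h9
  have h9 : IsIntegral ℤ (algebraMap ℚ ℂ (1 / 7)) := by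
    rw [← h8]
    exact h3.mul h4
  have h10 : IsIntegral ℤ (1 / 7 : ℚ) :=
    (isIntegral_algebraMap_iff (algebraMap ℚ ℂ).injective).1 h9
  obtain ⟨k, hk⟩ := IsIntegrallyClosed.isIntegral_iff.1 h10
  have h11 : (k : ℚ) * 7 = 1 := by
    have h12 : (k : ℚ) = 1 / 7 := hk
    rw [h12]
    norm_num
  have h12 : k * 7 = 1 := by exact_mod_cast h11
  omega

theorem exists_LD3 (s : Fin (r + 1) → F →+* ℂ) (hs : IsS F hw s) (δ : ℂ) (hδ : IsDel F hw s δ)
    (hun : Unr3 F r) (m : 𝓞 F) (hm0 : m ≠ 0) (h7 : eF F hw p7 ∣ m)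
    (hm6 : IsCoprime m 6) (𝔫 : Ideal (𝓞 F)) (h𝔫 : 𝔫 ≤ Ideal.span {m}) (e : Fin r → (𝓞 F)ˣ)
    (he : IsB F s 𝔫 e) (b : Ideal (𝓞 F)) (hb0 : b ≠ 0) (hbm : IsCoprime b (Ideal.span {m}))
    (hb6 : IsCoprime b (Ideal.span {(6 : 𝓞 F)})) (N : ℕ)
    (hN : Ideal.absNorm (Ideal.span {m} * b) ∣ N) : Nonempty (LD3 F hw s m e b N δ) := by
  set I : Ideal (𝓞 F) := Ideal.span {m} * b with hI
  have hI0 : I ≠ ⊥ := by
    rw [hI, Ne, ← Ideal.zero_eq_bot, mul_eq_zero, not_or]
    refine ⟨?_, hb0⟩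
    rw [Ideal.zero_eq_bot, Ideal.span_singleton_eq_bot]
    exact hm0
  have hIc : ∀ g ∈ I, g ∈ b := fun g hg => Ideal.mul_le_right hg
  have hIm : ∀ g ∈ I, m ∣ g := fun g hg => Ideal.mem_span_singleton.1 (Ideal.mul_le_left hg)
  have hI6 : IsCoprime I (Ideal.span {(6 : 𝓞 F)}) := by
    rw [hI]
    refine IsCoprime.mul_left ?_ hb6
    rw [Ideal.isCoprime_span_singleton_iff]
    exact hm6
  obtain ⟨θ, D, hmem, hdet, hnorm⟩ := ideal_basis F hw s hs δ hδ I hI0
  set L : Mc (r + 1) := Matrix.of fun j i => s j (θ i : F) with hLdef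
  have habs0 : Ideal.absNorm I ≠ 0 := by
    rw [Ne, Ideal.absNorm_eq_zero_iff]
    exact hI0
  have hD0 : emb D ≠ 0 := by
    intro h
    have h1 := norm_emb_sq D
    rw [h, norm_zero] at h1
    have h2 : D.norm = 0 := by
      have : (D.norm : ℝ) = 0 := by rw [← h1]; norm_num
      exact_mod_cast this
    rw [h2] at hnorm
    exact habs0 hnorm.symm
  have hL0 : L.det ≠ 0 := by
    rw [hdet]
    exact mul_ne_zero hD0 hδ.ne
  have hLu : IsUnit L.det := isUnit_iff_ne_zero.2 hL0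
  -- uniqueness of coordinates in `ℂ^(r+1)`
  have huniq : ∀ y z : Fin (r + 1) → ℂ, (∀ j, L j ⬝ᵥ y = L j ⬝ᵥ z) → y = z := by
    intro y z h
    have h1 : L *ᵥ (y - z) = 0 := by
      rw [Matrix.mulVec_sub, sub_eq_zero]
      funext j
      exact h j
    exact sub_eq_zero.1 (Matrix.eq_zero_of_mulVec_eq_zero hL0 h1)
  have hlin : ∀ (a : Fin (r + 1) → Eis) (j : Fin (r + 1)),
      h3_s F s j (∑ i, eF F hw (a i) * θ i) = L j ⬝ᵥ NG.em a := fun a j => h3_lin F hw s hs θ a j
  have hθI : ∀ k, θ k ∈ I := by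
    intro k
    rw [hmem]
    refine ⟨Pi.single k 1, ?_⟩
    rw [Finset.sum_eq_single k]
    · rw [Pi.single_eq_same, map_one, one_mul]
    · intro i _ hik
      rw [Pi.single_eq_of_ne hik, map_zero, zero_mul]
    · intro h
      exact absurd (Finset.mem_univ k) h
  -- elements of `I`
  have hII : ∀ g ∈ I, ∃ t : Fin (r + 1) → Eis, ∀ j, h3_s F s j g = L j ⬝ᵥ NG.em t := by
    intro g hg
    obtain ⟨t, ht⟩ := (hmem g).1 hg
    exact ⟨t, fun j => by rw [ht, hlin]⟩
  have hII' : ∀ (g : 𝓞 F) (t : Fin (r + 1) → Eis), (∀ j, h3_s F s j g = L j ⬝ᵥ NG.em t) →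
      g = ∑ i, eF F hw (t i) * θ i := by
    intro g t h
    apply h3_s_inj F s 0
    rw [h 0, hlin]
  -- the matrices of the units
  have hMex : ∀ i : Fin r, ∃ A : Me (r + 1), ∀ k, ((e i : 𝓞 F)) * θ k = ∑ l, eF F hw (A l k) * θ l := by
    intro i
    have h1 : ∀ k, ∃ t : Fin (r + 1) → Eis, ((e i : 𝓞 F)) * θ k = ∑ l, eF F hw (t l) * θ l :=
      fun k => (hmem _).1 (I.mul_mem_left _ (hθI k))
    choose t ht using h1
    exact ⟨Matrix.of fun l k => t k l, fun k => ht k⟩
  choose M hM using hMex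
  have hLM : ∀ i j, L j ᵥ* NG.cm (M i) = s j ((e i : 𝓞 F) : F) • L j := by
    intro i j
    funext k
    have h1 := congrArg (h3_s F s j) (hM i k)
    rw [map_mul, hlin (fun l => M i l k) j] at h1
    exact h1.symm
  have hLM' : ∀ i, L * NG.cm (M i) = Matrix.diagonal (fun j => s j ((e i : 𝓞 F) : F)) * L := by
    intro i
    ext j k
    have h1 := congrFun (hLM i j) k
    rw [Matrix.diagonal_mul]
    exact h1
  have hMv : ∀ i j (v : Fin (r + 1) → ℂ), L j ⬝ᵥ (NG.cm (M i) *ᵥ v) =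
      s j ((e i : 𝓞 F) : F) * (L j ⬝ᵥ v) := by
    intro i j v
    rw [Matrix.dotProduct_mulVec, hLM, smul_dotProduct, smul_eq_mul]
  have hMdet : ∀ i, (M i).det = 1 := by
    intro i
    apply emb_injective
    rw [← NG.cm_det, map_one]
    have h1 := congrArg Matrix.det (hLM' i)
    rw [Matrix.det_mul, Matrix.det_mul, Matrix.det_diagonal, he.norm i, one_mul] at h1
    exact mul_left_cancel₀ hL0 (by rw [h1, mul_one])
  have hcm : Function.Injective (NG.cm : Me (r + 1) → Mc (r + 1)) := by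
    intro A B h
    ext1 i j
    have := congrFun (congrFun h i) j
    exact emb_injective this
  have hcomm : ∀ i j, M i * M j = M j * M i := by
    intro i j
    apply hcm
    rw [NG.cm_mul, NG.cm_mul]
    have h1 : L * (NG.cm (M i) * NG.cm (M j)) = L * (NG.cm (M j) * NG.cm (M i)) := by
      rw [← Matrix.mul_assoc, ← Matrix.mul_assoc, hLM', hLM', Matrix.mul_assoc, Matrix.mul_assoc,
        hLM', hLM', ← Matrix.mul_assoc, ← Matrix.mul_assoc, Matrix.diagonal_mul_diagonal,
        Matrix.diagonal_mul_diagonal]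
      congr 2
      funext k
      exact mul_comm _ _
    have h2 : L⁻¹ * (L * (NG.cm (M i) * NG.cm (M j))) = L⁻¹ * (L * (NG.cm (M j) * NG.cm (M i))) := by rw [h1]
    rwa [← Matrix.mul_assoc, ← Matrix.mul_assoc L⁻¹, Matrix.nonsing_inv_mul _ hLu, Matrix.one_mul,
      Matrix.one_mul] at h2
  have hM3 : (∀ i, eF F hw la ∣ (e i : 𝓞 F) - 1) → ∀ i a b, la ∣ (M i - 1) a b := by
    intro h2 i l k
    obtain ⟨f, hf⟩ := h2 i
    obtain ⟨t, ht⟩ := (hmem (f * θ k)).1 (I.mul_mem_left _ (hθI k))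
    have h3 : (fun l => (M i - 1) l k) = fun l => la * t l := by
      refine del_uniq F hw s hs θ hL0 _ _ ?_
      have e1 : ∑ l, eF F hw (la * t l) * θ l = eF F hw la * (f * θ k) := by
        rw [ht, Finset.mul_sum]
        refine Finset.sum_congr rfl fun l _ => ?_
        rw [map_mul]
        ring
      have e2 : ∑ l, eF F hw ((M i - 1) l k) * θ l = (e i : 𝓞 F) * θ k - θ k := by
        have e3 : ∀ l, eF F hw ((M i - 1) l k) * θ l =
            eF F hw (M i l k) * θ l - (if l = k then θ l else 0) := by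
          intro l
          rw [Matrix.sub_apply, map_sub, Matrix.one_apply]
          split_ifs with h
          · rw [map_one]; ring
          · rw [map_zero]; ring
        rw [Finset.sum_congr rfl fun l _ => e3 l, Finset.sum_sub_distrib, ← hM i k,
          Finset.sum_ite_eq' Finset.univ k, if_pos (Finset.mem_univ k)]
      rw [e1, e2]
      linear_combination (θ k) * hf
    exact ⟨t l, congrFun h3 l⟩
  -- the base point
  obtain ⟨g0, hg0, j0, hj, hgj⟩ := Ideal.isCoprime_iff_exists.1 hbm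
  have hj' : m ∣ j0 := Ideal.mem_span_singleton.1 hj
  have hg1 : m ∣ g0 - 1 := by
    have : g0 - 1 = -j0 := by linear_combination hgj
    rw [this]
    exact (dvd_neg).2 hj'
  set x : Fin (r + 1) → ℂ := L⁻¹ *ᵥ (fun j => h3_s F s j g0) with hxdef
  have hLx : ∀ j, L j ⬝ᵥ x = h3_s F s j g0 := by
    intro j
    have h1 : L *ᵥ x = fun j => h3_s F s j g0 := by
      rw [hxdef, Matrix.mulVec_mulVec, Matrix.mul_nonsing_inv _ hLu, Matrix.one_mulVec]
    exact congrFun h1 j
  have hxN : (fun i => (N : ℂ) * x i) ∈ Lz (r + 1) := by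
    have hNI : (N : 𝓞 F) * g0 ∈ I := by
      refine I.mul_mem_right _ ?_
      obtain ⟨k, hk⟩ := hN
      rw [hk, Nat.cast_mul]
      exact I.mul_mem_right _ (Ideal.absNorm_mem I)
    obtain ⟨t, ht⟩ := hII _ hNI
    refine ⟨t, huniq _ _ fun j => ?_⟩
    have e1 : (fun i => (N : ℂ) * x i) = (N : ℂ) • x := rfl
    rw [← ht j, e1, dotProduct_smul, hLx, map_mul, map_natCast, smul_eq_mul]
  have hx0 : x ∉ Lz (r + 1) := by
    rintro ⟨t, ht⟩
    have hg0I : g0 ∈ I := by
      rw [hmem]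
      refine ⟨t, hII' g0 t fun j => ?_⟩
      rw [← hLx, ht]
    have hm1 : m ∣ 1 := by
      have : (1 : 𝓞 F) = g0 - (g0 - 1) := by ring
      rw [this]
      exact dvd_sub (hIm _ hg0I) hg1
    exact p7_not_unit F hw m h7 (isUnit_of_dvd_one hm1)
  have hMx : ∀ i, ∃ t : Fin (r + 1) → Eis, NG.cm (M i) *ᵥ x = x + em t := by
    intro i
    have hNI : ((e i : 𝓞 F) - 1) * g0 ∈ I := by
      rw [hI]
      exact Ideal.mul_mem_mul (h𝔫 (he.mem i)) hg0
    obtain ⟨t, ht⟩ := hII _ hNI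
    refine ⟨t, huniq _ _ fun j => ?_⟩
    rw [hMv, dotProduct_add, ← ht j, hLx, map_mul, map_sub, map_one]
    have : s j ((e i : 𝓞 F) : F) = h3_s F s j (e i : 𝓞 F) := rfl
    rw [this]
    ring
  refine ⟨{ L := L, M := M, x := x, hL := hL0, hM := hMdet, hcomm := hcomm, hLM := hLM, hM3 := hM3,
            hx := hxN, hx0 := hx0, hMx := hMx, lat := ?_, bij := ?_, val := ?_, gal := ?_ }⟩
  · intro g
    constructor
    · intro hg
      exact hII g hg
    · rintro ⟨t, ht⟩
      rw [← hI, hmem]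
      exact ⟨t, hII' g t ht⟩
  · intro u
    have hmemf : ∀ t : Fin (r + 1) → Eis, ∑ i, eF F hw (t i) * θ i ∈ I := fun t => (hmem _).2 ⟨t, rfl⟩
    let f : (Fin (r + 1) → Eis) → {g : 𝓞 F // g ∈ b ∧ m ∣ g - eF F hw u} := fun t =>
      ⟨eF F hw u * g0 + ∑ i, eF F hw (t i) * θ i, by
        refine ⟨add_mem (b.mul_mem_left _ hg0) (hIc _ (hmemf t)), ?_⟩
        have : eF F hw u * g0 + ∑ i, eF F hw (t i) * θ i - eF F hw u =
          eF F hw u * (g0 - 1) + ∑ i, eF F hw (t i) * θ i := by ring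
        rw [this]
        exact dvd_add (Dvd.dvd.mul_left hg1 _) (hIm _ (hmemf t))⟩
    have hf1 : ∀ (t : Fin (r + 1) → Eis) (j : Fin (r + 1)),
        s j ((f t : 𝓞 F) : F) = L j ⬝ᵥ ((fun i => emb u * x i) + em t) := by
      intro t j
      have e1 : (fun i => emb u * x i) = emb u • x := rfl
      rw [dotProduct_add, e1, dotProduct_smul, hLx, ← hlin]
      show h3_s F s j (eF F hw u * g0 + ∑ i, eF F hw (t i) * θ i) = _
      rw [map_add, map_mul, smul_eq_mul]
      congr 2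
      exact s_eF F hw s hs j u
    have hinj : Function.Injective f := by
      intro t t' htt
      have h1 : em t = em t' := by
        apply huniq
        intro j
        have e1 := hf1 t j
        rw [htt, hf1, dotProduct_add, dotProduct_add] at e1
        exact (add_left_cancel e1).symm
      funext i
      exact emb_injective (congrFun h1 i)
    have hsurj : Function.Surjective f := by
      rintro ⟨g, hgc, hgm⟩
      have hgI : g - eF F hw u * g0 ∈ I := by
        rw [hI, Ideal.mul_eq_inf_of_isCoprime hbm.symm]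
        refine ⟨Ideal.mem_span_singleton.2 ?_, sub_mem hgc (b.mul_mem_left _ hg0)⟩
        have : g - eF F hw u * g0 = (g - eF F hw u) - eF F hw u * (g0 - 1) := by ring
        rw [this]
        exact dvd_sub hgm (Dvd.dvd.mul_left hg1 _)
      obtain ⟨t, ht⟩ := (hmem _).1 hgI
      refine ⟨t, Subtype.ext ?_⟩
      show eF F hw u * g0 + ∑ i, eF F hw (t i) * θ i = g
      rw [← ht]
      ring
    exact ⟨Equiv.ofBijective f ⟨hinj, hsurj⟩, fun t j => hf1 t j⟩
  · intro A hA
    rw [hdet, map_mul, del_val3 F hw s hs hun δ hδ A hA, mul_one]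
    refine c8_val A hA D ?_
    have h1 := norm_coprime_six F I hI0 hI6
    rw [← hnorm] at h1
    exact h1
  · intro σ hσ
    have hσe : ∀ a : Eis, σ (emb a) = emb a := by
      intro a
      rw [emb_apply, map_add, map_mul, map_intCast, map_intCast, hσ]
    rw [hdet, map_mul, hσe]
    ring

end TH
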