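import Pool.Agent.MP_9ab903_nt.TH.C10
import Pool.Agent.MP_9ab903_nt.TH.C8
import Pool.Agent.MP_9ab903_nt.TH.C6
import Pool.Agent.MP_9ab903_nt.NG.H6a

/-!
# [NG3-C11] integrality and Galois action for one ideal class (port of `NG/H6a.lean`)

Core data `CD3 r` from `D : LD3` (`h6a_CD3`, as `h6a_CD`): `N` prime to `6`, `c ∤ 6N`, `hM3`: `e_i ≡ 1 mod λ`. `VV3_val` = `core_val3`. `VV3_gal`: `core_gal3` (normalised by
`OmC`); `VV3 = VV_OmC · (OmC/Omp)^(r+1)`; `σ (Omp/OmC) = emb (ep u) (Omp/OmC)` (`Omp_gal`, `7 ∣ N'`), so `σ (OmC/Omp)^(r+1) = emb (ep u)^(-(r+1)) (OmC/Omp)^(r+1)`.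
`exists_v3`: as `exists_v` (`exists_W`, H2b). General lemmas `h6a_k`, `h6a_dual` from `NG`.
`7 ∣ N₂` is part of the conclusion (multiply the level of `core_gal3` by `7`).
-/

set_option autoImplicit false

open NumberField IsDedekindDomain MeasureTheory Set
open CM27 CMT CF NAB NG
open scoped ComplexConjugate Classical Matrix

namespace TH

theorem c11_norm (c : Eis) (hc : Prime c) (h : ¬ c ∣ 3) : ¬ 3 ∣ c.norm.natAbs := by
  intro h3
  have := eis_isDomain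
  have h1 : (3 : ℤ) ∣ c.norm := Int.natCast_dvd.2 h3
  have h2 : la ∣ c := (la_dvd_iff c).2 h1
  have h4 : Associated la c := (laP.dvd_prime_iff_associated hc).1 h2
  apply h
  refine h4.symm.dvd.trans ?_
  rw [three_eq]
  exact Dvd.intro_left (-om ^ 2 * la) (by ring)

/-- `σ (OmC / Omp)` -/
theorem c11_om (σ : ℂ ≃+* ℂ) (e X Y Om1 Om2 : ℂ) (n : ℕ) (he : e ≠ 0) (h1 : Om1 ≠ 0)
    (h2 : Om2 ≠ 0) (hσ : σ (Om2 / Om1) = e * (Om2 / Om1)) (hX : σ (X / Om1 ^ n) = Y / Om1 ^ n) :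
    σ (X / Om2 ^ n) * e ^ n = Y / Om2 ^ n := by
  have e1 : X / Om2 ^ n = X / Om1 ^ n * ((Om2 / Om1)⁻¹) ^ n := by
    rw [inv_pow, div_pow]
    field_simp
  rw [e1, map_mul, hX, map_pow, map_inv₀, hσ, mul_inv, mul_pow, inv_pow, inv_pow, div_pow]
  field_simp

variable {r : ℕ} {F : IntermediateField ℚ ℂ} [NumberField F] {hw : w ∈ F}
variable (H : HD3 F hw r) [Fintype (𝓞 F ⧸ H.Q)ˣ]
  (ψ : AddChar (𝓞 F ⧸ H.Q) ℂ) (hψ : ψ ≠ 1)
  (b : Ideal (𝓞 F)) (hb0 : b ≠ 0) (hbm : IsCoprime b (Ideal.span {H.m})) (hbQ : IsCoprime b H.Q)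
  (N : ℕ) (hN : Nat.Coprime N 6) (hcN : ¬ H.c ∣ 6 * (N : Eis))
  (hcbig : ((2 * (r + 1)) ^ (4 * (r + 1)) : ℕ) < H.c.norm.natAbs)
  (D : LD3 F hw H.s H.m H.e b N H.δ)

/-- The additive characters. -/
theorem exists_v3 : ∃ v : (𝓞 F ⧸ H.Q)ˣ → Fin (r + 1) → ℂ,
    (∀ a, ∃ W : Fin (r + 1) → Eis, v a = wc H.c W) ∧
    ∀ a (g : 𝓞 F) (y : Fin (r + 1) → ℂ), (∀ j, H.s j (g : F) = D.L j ⬝ᵥ y) →
      ch (v a) y = ψ ((a : 𝓞 F ⧸ H.Q) * Ideal.Quotient.mk H.Q g) := by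
  have hlat : ∀ t : Fin (r + 1) → Eis, ∃ g : 𝓞 F, ∀ j, H.s j (g : F) = D.L j ⬝ᵥ NG.em t := by
    intro t
    obtain ⟨φ, hφ⟩ := D.bij 0
    refine ⟨φ t, fun j => ?_⟩
    rw [hφ t j]
    congr 1
    ext i
    simp
  have key : ∀ a : (𝓞 F ⧸ H.Q)ˣ, ∃ W : Fin (r + 1) → Eis, ∀ (g : 𝓞 F) (y : Fin (r + 1) → ℂ),
      (∀ j, H.s j (g : F) = D.L j ⬝ᵥ y) → ch (wc H.c W) y =
        ψ ((a : 𝓞 F ⧸ H.Q) * Ideal.Quotient.mk H.Q g) := by
    intro a
    let χ : AddChar (𝓞 F) ℂ :=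
      { toFun := fun g => ψ ((a : 𝓞 F ⧸ H.Q) * Ideal.Quotient.mk H.Q g)
        map_zero_eq_one' := by rw [map_zero, mul_zero, AddChar.map_zero_eq_one]
        map_add_eq_mul' := by
          intro g h
          rw [map_add, mul_add, AddChar.map_add_eq_mul] }
    exact exists_W F hw H.s H.hs H.δ H.hδ D.L D.hL hlat H.c H.hc.1 χ (by
      intro g
      show ψ ((a : 𝓞 F ⧸ H.Q) * Ideal.Quotient.mk H.Q (eF F hw H.c * g)) = 1
      rw [map_mul (Ideal.Quotient.mk H.Q), Ideal.Quotient.eq_zero_iff_mem.2 H.hcQ, zero_mul, mul_zero,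
        AddChar.map_zero_eq_one])
  choose W hW using key
  exact ⟨fun a => wc H.c (W a), fun a => ⟨W a, rfl⟩, fun a g y h => hW a g y h⟩

variable (v : (𝓞 F ⧸ H.Q)ˣ → Fin (r + 1) → ℂ)
  (hvW : ∀ a, ∃ W : Fin (r + 1) → Eis, v a = wc H.c W)
  (hv : ∀ a (g : 𝓞 F) (y : Fin (r + 1) → ℂ), (∀ j, H.s j (g : F) = D.L j ⬝ᵥ y) →
      ch (v a) y = ψ ((a : 𝓞 F ⧸ H.Q) * Ideal.Quotient.mk H.Q g))

include hψ hb0 hbm hbQ hN hcN hcbig hvW hv

omit [Fintype (𝓞 F ⧸ H.Q)ˣ] in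
theorem c11_CD3 (a : (𝓞 F ⧸ H.Q)ˣ) : ∃ C : CD3 r, C.x = D.x ∧ C.w = v a ∧ C.L = D.L ∧
    C.ε = fun i j => H.s j ((H.e i : 𝓞 F) : F) := by
  obtain ⟨W, hW⟩ := hvW a
  have hmem : ∀ i, ((H.e i : 𝓞 F) - 1 ∈ H.Q) ∧ eF F hw la ∣ (H.e i : 𝓞 F) - 1 := by
    intro i
    have h1 : (H.e i : 𝓞 F) - 1 ∈ (Ideal.span {H.m} ⊓ H.Q) ⊓ Ideal.span {eF F hw la} := H.he.mem i
    exact ⟨h1.1.2, Ideal.mem_span_singleton.1 h1.2⟩
  have c1 : ∃ i, ¬ H.c ∣ W i := by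
    by_contra hcon
    have hcon : ∀ i, H.c ∣ W i := fun i => by_contra fun h => hcon ⟨i, h⟩
    apply hψ
    have hcop : IsCoprime (Ideal.span {H.m} * b) H.Q := IsCoprime.mul_left H.hQm.symm hbQ
    obtain ⟨i, hi, q, hq, hiq⟩ := Ideal.isCoprime_iff_exists.1 hcop
    ext y
    obtain ⟨g, hg⟩ := Ideal.Quotient.mk_surjective (((a⁻¹ : (𝓞 F ⧸ H.Q)ˣ) : 𝓞 F ⧸ H.Q) * y)
    have h1 : Ideal.Quotient.mk H.Q (g * i) = ((a⁻¹ : (𝓞 F ⧸ H.Q)ˣ) : 𝓞 F ⧸ H.Q) * y := by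
      rw [← hg, ← sub_eq_zero, ← map_sub, Ideal.Quotient.eq_zero_iff_mem]
      have h2 : g * i - g = -(g * q) := by linear_combination g * hiq
      rw [h2]
      exact H.Q.neg_mem (H.Q.mul_mem_left _ hq)
    obtain ⟨t, ht⟩ := (D.lat (g * i)).1 (Ideal.mul_mem_left _ _ hi)
    have h3 := hv a (g * i) (NG.em t) ht
    rw [hW, h6a_dual H.c H.hc.1 W hcon t, h1, ← mul_assoc, Units.mul_inv, one_mul] at h3
    rw [← h3]
    rfl
  have c2 : ∀ i, v a i = 2 * emb (W i) / (emb H.c * (Complex.I * (√3 : ℝ))) := by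
    intro i
    rw [hW]
    rfl
  have c3 : ∀ i, ∀ m : Fin (r + 1) → Eis,
      ch (v a) (NG.cm (D.M i) *ᵥ (D.x + NG.em m)) = ch (v a) (D.x + NG.em m) := by
    intro i m
    obtain ⟨φ, hφ⟩ := D.bij 1
    have h1 : ∀ j, H.s j (((φ m : 𝓞 F)) : F) = D.L j ⬝ᵥ (D.x + NG.em m) := by
      intro j
      rw [hφ m j]
      congr 1
      ext k
      simp
    have h2 : ∀ j, H.s j ((((H.e i : 𝓞 F) * (φ m : 𝓞 F) : 𝓞 F)) : F) =
        D.L j ⬝ᵥ (NG.cm (D.M i) *ᵥ (D.x + NG.em m)) := by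
      intro j
      have h3 : (((H.e i : 𝓞 F) * (φ m : 𝓞 F) : 𝓞 F) : F) = ((H.e i : 𝓞 F) : F) * ((φ m : 𝓞 F) : F) := by
        push_cast
        rfl
      rw [h3, map_mul, h1 j, Matrix.dotProduct_mulVec, D.hLM i j, smul_dotProduct, smul_eq_mul]
    rw [hv a _ _ h1, hv a _ _ h2]
    congr 1
    rw [map_mul]
    have h4 : Ideal.Quotient.mk H.Q (H.e i : 𝓞 F) = 1 := by
      rw [← sub_eq_zero, ← map_one (Ideal.Quotient.mk H.Q), ← map_sub,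
        Ideal.Quotient.eq_zero_iff_mem]
      exact (hmem i).1
    rw [h4, one_mul]
  let C : CD3 r :=
    { x := D.x
      w := v a
      M := D.M
      L := D.L
      ε := fun i j => H.s j ((H.e i : 𝓞 F) : F)
      N := N
      c := H.c
      W := W
      hN := hN
      hx := D.hx
      hx0 := D.hx0
      hc := H.hc
      hcN := hcN
      hcbig := hcbig
      hW := c1
      hw := c2
      hdet := D.hM
      hcomm := D.hcomm
      hM3 := D.hM3 fun i => (hmem i).2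
      hMx := D.hMx
      hMw := c3
      hL := D.hL
      hLM := D.hLM
      hJ := H.he.pos.ne' }
  exact ⟨C, rfl, rfl, rfl, rfl⟩


theorem VV3_val (A : ValuationSubring ℂ) (hA : A.valuation 3 < 1) (a : (𝓞 F ⧸ H.Q)ˣ) :
    A.valuation (VV3 H D (v a) 1) ≤ 1 := by
  obtain ⟨C, hCx, hCw, hCL, hCε⟩ := c11_CD3 H ψ hψ b hb0 hbm hbQ N hN hcN hcbig D v hvW hv a
  have h1 := core_val3 C A hA
  rw [hCx, hCw, hCL, hCε] at h1
  have h2 : (fun i => emb 1 * D.x i) = D.x := by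
    ext i
    rw [map_one, one_mul]
  unfold VV3
  rw [h2]
  exact h1

theorem VV3_gal : ∃ N₂ : ℕ, ¬ 3 ∣ N₂ ∧ 7 ∣ N₂ ∧ ∀ N' : ℕ, N₂ ∣ N' → ¬ 3 ∣ N' →
    ∀ σ : ℂ ≃+* ℂ, σ CM27.w = CM27.w → ∀ u : Eis, IsCoprime u (N' : Eis) →
    (∀ c : Eis, ptMap (σ : ℂ →+* ℂ) (pt (emb c / N')) = pt (emb (c * u) / N')) →
      σ (∑ a, VV3 H D (v a) 1) * emb (ep u) ^ (r + 1) = ∑ a, VV3 H D (v a) u := by
  have hCD := fun a => c11_CD3 H ψ hψ b hb0 hbm hbQ N hN hcN hcbig D v hvW hv a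
  choose C hCx hCw hCL hCε using hCD
  choose N₂ hN₂ hgal using fun a => core_gal3 (C a)
  have hc3 : ¬ 3 ∣ H.c.norm.natAbs := by
    refine c11_norm H.c H.hc fun h => hcN ?_
    have h1 : (6 * (N : Eis)) = 3 * (2 * (N : Eis)) := by ring
    rw [h1]
    exact h.mul_right _
  refine ⟨(∏ a, N₂ a) * H.c.norm.natAbs * 7, ?_, Nat.dvd_mul_left _ _,
    fun N' hN' hN'o σ hσ u hu hσu => ?_⟩
  · intro h
    rcases (Nat.prime_three.dvd_mul).1 h with h | h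
    · rcases (Nat.prime_three.dvd_mul).1 h with h | h
      · obtain ⟨a, _, ha⟩ := (Nat.prime_three.prime.dvd_finset_prod_iff _).1 h
        exact hN₂ a ha
      · exact hc3 h
    · norm_num at h
  have h7N : 7 ∣ N' := (Nat.dvd_mul_left _ _).trans hN'
  have hN'' : (∏ a, N₂ a) * H.c.norm.natAbs ∣ N' := (Nat.dvd_mul_right _ _).trans hN'
  have hN0 : N' ≠ 0 := by
    rintro rfl
    exact hN'o (dvd_zero 3)
  have hOm := Omp_gal σ hσ N' (Nat.pos_of_ne_zero hN0) h7N u hu hσu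
  obtain ⟨k, hk, hσζ⟩ := h6a_k σ N' hN0
  obtain ⟨u', z, huz⟩ := hu
  have hkc : IsCoprime (k : Eis) (N' : Eis) := by
    have := Nat.isCoprime_iff_coprime.2 hk
    exact_mod_cast this.map (Int.castRingHom Eis)
  have hu'c : IsCoprime u' (N' : Eis) := ⟨u, z, by rw [mul_comm u u']; exact huz⟩
  have hv₀ : IsCoprime ((k : Eis) * u') (N' : Eis) := IsCoprime.mul_left hkc hu'c
  have huv : (N' : Eis) ∣ (k : Eis) * u' * u - k := ⟨-(k * z), by linear_combination (k : Eis) * huz⟩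
  set v₀ : Eis := (k : Eis) * u' with hv₀def
  -- the unit
  have hcN' : H.c ∣ (N' : Eis) := by
    refine dvd_trans (h2b_norm_dvd H.c) ?_
    exact Nat.cast_dvd_cast ((Nat.dvd_mul_left _ _).trans hN'')
  obtain ⟨p, q, hpq⟩ := IsCoprime.of_isCoprime_of_dvd_right hv₀ hcN'
  have hunit : Ideal.Quotient.mk H.Q (eF F hw p) * Ideal.Quotient.mk H.Q (eF F hw v₀) = 1 := by
    have h1 := congrArg (fun z => Ideal.Quotient.mk H.Q (eF F hw z)) hpq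
    simp only [map_add, map_mul, map_one] at h1
    rw [Ideal.Quotient.eq_zero_iff_mem.2 H.hcQ, mul_zero, add_zero] at h1
    exact h1
  let vb : (𝓞 F ⧸ H.Q)ˣ := ⟨Ideal.Quotient.mk H.Q (eF F hw v₀), Ideal.Quotient.mk H.Q (eF F hw p),
    by rw [mul_comm]; exact hunit, hunit⟩
  have hone : ∀ a, σ (VV3 H D (v a) 1) * emb (ep u) ^ (r + 1) = VV3 H D (v (a * vb)) u := by
    intro a
    have h1 := hgal a N' (((Finset.dvd_prod_of_mem N₂ (Finset.mem_univ a)).trans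
      (Nat.dvd_mul_right _ _)).trans hN'') hN'o σ hσ u ⟨u', z, huz⟩ hσu k hσζ v₀ hv₀ huv
    rw [hCx, hCw, hCL, hCε] at h1
    have h2 : (fun i => emb 1 * D.x i) = D.x := by
      ext i
      rw [map_one, one_mul]
    have h3 : σ (VV3 H D (v a) 1) * emb (ep u) ^ (r + 1) =
        VV3 H D (fun i => emb v₀ * v a i) u := by
      unfold VV3
      rw [h2]
      exact c11_om σ _ _ _ OmC Omp (r + 1)
        (fun h0 => (ep_unit u).ne_zero (emb_injective (h0.trans (map_zero emb).symm)))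
        OmC_ne Omp_ne hOm h1
    rw [h3]
    refine (AA3_congr H b N D _ _ u fun g _ y hy => ?_).2
    have h4 : ch (fun i => emb v₀ * v a i) y = ch (v a) (emb v₀ • y) := by
      unfold ch
      have h5 : (fun i => emb v₀ * v a i) ⬝ᵥ y = v a ⬝ᵥ (emb v₀ • y) := by
        have h6 : (fun i => emb v₀ * v a i) = emb v₀ • v a := rfl
        rw [h6, smul_dotProduct, dotProduct_smul]
      rw [h5]
    rw [h4, hv (a * vb) g y hy]
    have h7 := hv a (eF F hw v₀ * g) (emb v₀ • y) (by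
      intro j
      have h8 : ((eF F hw v₀ * g : 𝓞 F) : F) = ((eF F hw v₀ : 𝓞 F) : F) * (g : F) := by
        push_cast
        rfl
      rw [h8, map_mul, s_eF F hw H.s H.hs, hy j, dotProduct_smul, smul_eq_mul])
    rw [h7, map_mul (Ideal.Quotient.mk H.Q), ← mul_assoc]
    rfl
  rw [map_sum, Finset.sum_mul, Finset.sum_congr rfl fun a _ => hone a]
  exact Equiv.sum_comp (Equiv.mulRight vb) fun a => VV3 H D (v a) u

end TH
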