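import Pool.Agent.MP_9ab903_nt.TH.C12a
import Pool.Agent.MP_9ab903_nt.TH.C15

/-!
# [NG3-C12a], [NG3-C12] the `L`-series: entire, value at `s = 1`, Galois action (port of `NG/H6b.lean`)

`T b u = q⁻¹ emb (ps b) (∑_a VV3 (v a) u) (emb (ep u) ^ (r+1))⁻¹ / det L_b`.
For `I ∈ Cl m b u`: `χ(I) χ(b) = χ((u))`, so `χ(I) = χ((u)) χ(b)²` (`χ(b)³ = 1`): `h6b_chi3`, `h6b_hasSum3` have `χ b ^ 2` in place of `χ b`.
(`h6b_ident`, `h6b_mult`, `h6b_dvd`, `h6b_cop`, `h6b_cpow` are general.) `G`, `S` functions: `(conj (emb (ps b)))⁻¹ (absNorm b)^s (emb (ep u)^(r+1))⁻¹ (q⁻¹ AA3 ..)`;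
at `s = 1`: `absNorm b / conj (emb (ps b)) = emb (ps b)` (`ps_mul_conj`) and `VV3 = AA3 1 · det L / Omp^(r+1)`.
Integrality: `AA3_orbit`, `sum_val` (NG/H1b), `index_factor3`, `rep_card`, `VV3_val`, `LD3.val`. Galois: `VV3_gal`, `LD3.gal`.
Main theorem: `C` from `ray_classes` (NAB/B1) with representatives prime to `6 m` (as in NG), `N = 7 N0 ∏_{b ∈ C} absNorm (m b)` for the coordinates
(prime to `6`), `(Q, c)` from `Smooth3` with a large bound: `c ∤ 6N`, `Q` prime to `m`, `6`, `b`. The final `N` (called `Nf` here) is the product of `N` and all the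
`N₂`: not divisible by `3` (it may be even), divisible by `7`, by `N0` and with `m ∣ Nf`.
-/

set_option autoImplicit false
set_option linter.unusedSectionVars false

open NumberField IsDedekindDomain MeasureTheory Set
open CM27 CMT CF NAB NG
open scoped ComplexConjugate Classical Matrix

namespace TH

/-! ### all ideal classes -/

section
variable {r : ℕ} {F : IntermediateField ℚ ℂ} [NumberField F] {hw : w ∈ F}

theorem c12_le (H : HD3 F hw r) :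
    ((Ideal.span {H.m} ⊓ H.Q) ⊓ Ideal.span {eF F hw la}) ≤ Ideal.span {H.m} :=
  inf_le_left.trans inf_le_left

theorem c12_main (hun : Unr3 F r) (H : HD3 F hw r)
    (C : Finset (Ideal (𝓞 F)))
    (hC : ∀ b ∈ C, b ≠ 0 ∧ IsCoprime b (Ideal.span {H.m}) ∧
      IsCoprime b (Ideal.span {(6 : 𝓞 F)}) ∧ IsCoprime b H.Q)
    (hray : ∀ u : 𝓞 F, IsCoprime u H.m → ∀ I : Ideal (𝓞 F), I ≠ 0 →
      IsCoprime I (Ideal.span {H.m}) →
      ∃! c : Ideal (𝓞 F), c ∈ C ∧ ∃ g : 𝓞 F, g ≠ 0 ∧ H.m ∣ g - u ∧ I * c = Ideal.span {g})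
    (hm1 : ¬ IsUnit H.m)
    (N : ℕ) (hN : Nat.Coprime N 6) (hNc : ∀ b ∈ C, Ideal.absNorm (Ideal.span {H.m} * b) ∣ N)
    (hmN : H.m ∣ (N : 𝓞 F)) (hcN : ¬ H.c ∣ 6 * (N : Eis))
    (hcbig : ((2 * (r + 1)) ^ (4 * (r + 1)) : ℕ) < H.c.norm.natAbs) :
    ∃ (T : Ideal (𝓞 F) → Eis → ℂ) (N₂ : ℕ), (¬ 3 ∣ N₂) ∧ 7 ∣ N₂ ∧
      (∀ A : ValuationSubring ℂ, A.valuation 3 < 1 → ∀ b ∈ C, A.valuation (T b 1) ≤ 1) ∧
      (∀ N' : ℕ, N₂ ∣ N' → ¬ 3 ∣ N' → ∀ σ : ℂ ≃+* ℂ, σ w = w → ∀ u : Eis,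
        IsCoprime u (N' : Eis) →
        (∀ c : Eis, ptMap (σ : ℂ →+* ℂ) (pt (emb c / N')) = pt (emb (c * u) / N')) →
        ∀ b ∈ C, σ (T b 1) * σ H.δ = T b u * H.δ) ∧
      ∀ χ : Ideal (𝓞 F) → ℂ, IsRC3 F H.m χ → ∃ Φ : ℂ → ℂ, Differentiable ℂ Φ ∧
        (∀ s : ℂ, 3 / 2 < s.re → HasSum (fun I : Ideal (𝓞 F) =>
          χ I * conj (emb (Ps (eF F hw) I)) * (Ideal.absNorm I : ℂ) ^ (-s)) (Φ s)) ∧
        ∀ u : Eis, IsCoprime u (N : Eis) →
          (χ H.Q * conj (emb (Ps (eF F hw) H.Q)) - 1) * Φ 1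
            = Omp ^ (r + 1) * χ (Ideal.span {eF F hw u}) * ∑ b ∈ C, χ b ^ 2 * T b u := by
  have : Finite (𝓞 F ⧸ H.Q) := Ideal.finiteQuotientOfFreeOfNeBot H.Q H.hQ0
  let _ : Fintype (𝓞 F ⧸ H.Q)ˣ := Fintype.ofFinite _
  have : Nontrivial (𝓞 F ⧸ H.Q) := Ideal.Quotient.nontrivial_iff.2 H.hQ.ne_top
  obtain ⟨ψ, hψ1⟩ := (AddChar.exists_apply_ne_zero (a := (1 : 𝓞 F ⧸ H.Q))).2 one_ne_zero
  have hψ : ψ ≠ 1 := by
    rintro rfl
    exact hψ1 rfl
  have hD : ∀ b ∈ C, Nonempty (LD3 F hw H.s H.m H.e b N H.δ) := fun b hb =>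
    exists_LD3 F hw H.s H.hs H.δ H.hδ hun H.m H.hm0 H.h7 H.hm6 _ (c12_le H) H.e H.he b
      (hC b hb).1 (hC b hb).2.1 (hC b hb).2.2.1 N (hNc b hb)
  obtain ⟨D⟩ : Nonempty (∀ b, b ∈ C → LD3 F hw H.s H.m H.e b N H.δ) :=
    ⟨fun b hb => (hD b hb).some⟩
  have hv : ∀ b (hb : b ∈ C), ∃ v : (𝓞 F ⧸ H.Q)ˣ → Fin (r + 1) → ℂ,
      (∀ a, ∃ W : Fin (r + 1) → Eis, v a = wc H.c W) ∧
      ∀ a (g : 𝓞 F) (y : Fin (r + 1) → ℂ), (∀ j, H.s j (g : F) = (D b hb).L j ⬝ᵥ y) →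
        ch (v a) y = ψ ((a : 𝓞 F ⧸ H.Q) * Ideal.Quotient.mk H.Q g) := by
    intro b hb
    exact exists_v3 H ψ b N (D b hb)
  choose v hvW hvψ using hv
  have hg : ∀ b (hb : b ∈ C), ∃ N₂ : ℕ, ¬ 3 ∣ N₂ ∧ 7 ∣ N₂ ∧ ∀ N' : ℕ, N₂ ∣ N' → ¬ 3 ∣ N' →
      ∀ σ : ℂ ≃+* ℂ, σ CM27.w = CM27.w → ∀ u : Eis, IsCoprime u (N' : Eis) →
      (∀ c : Eis, ptMap (σ : ℂ →+* ℂ) (pt (emb c / N')) = pt (emb (c * u) / N')) →
      σ (Tc3 H (D b hb) (v b hb) 1) * σ H.δ = Tc3 H (D b hb) (v b hb) u * H.δ := by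
    intro b hb
    exact T3_gal H (D b hb) (v b hb) ψ hψ (hC b hb).1 (hC b hb).2.1 (hC b hb).2.2.2 hN hcN
      hcbig (hvW b hb) (hvψ b hb)
  choose n₂ hn₂ hn7 hgal using hg
  have hcop : ∀ u : Eis, IsCoprime u (N : Eis) → IsCoprime (eF F hw u) H.m := by
    intro u hu
    have h5 := hu.map (eF F hw)
    rw [map_natCast] at h5
    exact h5.of_isCoprime_of_dvd_right hmN
  let T : Ideal (𝓞 F) → Eis → ℂ := fun b u =>
    if h : b ∈ C then Tc3 H (D b h) (v b h) u else 0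
  let G : Ideal (𝓞 F) → ℂ → ℂ := fun b s => if h : b ∈ C then G3 H (D b h) 1 s else 0
  let S : Ideal (𝓞 F) → Eis → ℂ → ℂ := fun b u s =>
    if h : b ∈ C then S3 H (D b h) (v b h) u s else 0
  have hT : ∀ b (h : b ∈ C) u, T b u = Tc3 H (D b h) (v b h) u := fun b h u => dif_pos h
  have hG : ∀ b (h : b ∈ C) s, G b s = G3 H (D b h) 1 s := fun b h s => dif_pos h
  have hS : ∀ b (h : b ∈ C) u s, S b u s = S3 H (D b h) (v b h) u s :=
    fun b h u s => dif_pos h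
  have hp3 : Prime 3 := Nat.prime_iff.1 Nat.prime_three
  refine ⟨T, 7 * ∏ b ∈ C.attach, n₂ b.1 b.2, ?_, dvd_mul_right _ _, ?_, ?_, ?_⟩
  · intro h
    rcases hp3.dvd_or_dvd h with h | h
    · exact absurd h (by decide)
    · obtain ⟨b, -, hb⟩ := (hp3.dvd_finsetProd_iff _).1 h
      exact hn₂ b.1 b.2 hb
  · intro A hA b hb
    rw [hT b hb]
    exact T3_val H (D b hb) (v b hb) hun ψ hψ (hC b hb).1 (hC b hb).2.1 (hC b hb).2.2.2
      hN hcN hcbig (hvW b hb) (hvψ b hb) A hA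
  · intro N' hd hN' σ hσ u hu hσu b hb
    rw [hT b hb, hT b hb]
    refine hgal b hb N' (dvd_trans ?_ hd) hN' σ hσ u hu hσu
    refine Dvd.dvd.mul_left ?_ _
    exact Finset.dvd_prod_of_mem (fun b : {x // x ∈ C} => n₂ b.1 b.2) (Finset.mem_attach C ⟨b, hb⟩)
  · intro χ hχ
    have h1c : IsCoprime (1 : Eis) (N : Eis) := isCoprime_one_left
    -- the unsmoothed function
    obtain ⟨Φ, hΦ⟩ : ∃ Φ : ℂ → ℂ, ∀ s, Φ s =
      χ (Ideal.span {eF F hw 1}) * ∑ b ∈ C, χ b ^ 2 * G b s := ⟨_, fun s => rfl⟩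
    have hΦd : Differentiable ℂ Φ := by
      have e : Φ = fun s => χ (Ideal.span {eF F hw 1}) * ∑ b ∈ C, χ b ^ 2 * G b s :=
        funext hΦ
      rw [e]
      apply Differentiable.const_mul
      apply Differentiable.fun_sum
      intro b hb
      apply Differentiable.const_mul
      have h5 : G b = G3 H (D b hb) 1 := funext fun s => hG b hb s
      rw [h5]
      exact G3_diff H (D b hb) (hC b hb).1 1 h1c
    have hΦs : ∀ s : ℂ, 3 / 2 < s.re → HasSum (fun I : Ideal (𝓞 F) =>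
          χ I * (conj (emb (Ps (eF F hw) I)) * (Ideal.absNorm I : ℂ) ^ (-s))) (Φ s) := by
      intro s hs'
      rw [hΦ]
      exact h6b_hasSum3 F H.m hm1 χ hχ C (fun b hb => ⟨(hC b hb).1, (hC b hb).2.1⟩) (eF F hw 1)
        (hcop 1 h1c) (hray _ (hcop 1 h1c))
        (fun I => conj (emb (Ps (eF F hw) I)) * (Ideal.absNorm I : ℂ) ^ (-s)) (by
          show conj (emb (Ps (eF F hw) 0)) * (Ideal.absNorm (0 : Ideal (𝓞 F)) : ℂ) ^ (-s) = 0
          rw [Ps_bot, map_zero, map_zero, zero_mul]) (fun b => G b s) (by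
          intro b hb
          show HasSum _ (G b s)
          rw [hG b hb]
          exact sumG3 H (D b hb) (hC b hb).1 (hC b hb).2.1 1 (hcop 1 h1c) s hs')
    refine ⟨Φ, hΦd, ?_, ?_⟩
    · intro s hs'
      refine (hΦs s hs').congr_fun ?_
      intro I
      rw [mul_assoc]
    · intro u hu
      -- the smoothed function
      have hSd : Differentiable ℂ (fun s =>
          χ (Ideal.span {eF F hw u}) * ∑ b ∈ C, χ b ^ 2 * S b u s) := by
        apply Differentiable.const_mul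
        apply Differentiable.fun_sum
        intro b hb
        apply Differentiable.const_mul
        have h5 : S b u = S3 H (D b hb) (v b hb) u := funext fun s => hS b hb u s
        rw [h5]
        exact S3_diff H (D b hb) (v b hb) (hC b hb).1 u hu
      have hQn : (Ideal.absNorm H.Q : ℂ) ≠ 0 := by
        rw [Nat.cast_ne_zero]
        intro h
        exact H.hQ0 (Ideal.absNorm_eq_zero_iff.1 h)
      have hRd : Differentiable ℂ (fun s => ((Ideal.absNorm H.Q : ℂ) *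
          (χ H.Q * conj (emb (Ps (eF F hw) H.Q)) * (Ideal.absNorm H.Q : ℂ) ^ (-s)) - 1)
            * Φ s) := by
        have h1 : Differentiable ℂ (fun s : ℂ => (Ideal.absNorm H.Q : ℂ) ^ (-s)) := by
          apply Differentiable.const_cpow differentiable_id.neg
          left
          exact hQn
        exact (((h1.const_mul _).const_mul _).sub_const 1).mul hΦd
      have hS1 : ∀ s : ℂ, 3 / 2 < s.re → HasSum (fun I : Ideal (𝓞 F) =>
          χ I * (((Ideal.absNorm H.Q : ℂ) * (if H.Q ∣ I then 1 else 0) - 1) *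
            (conj (emb (Ps (eF F hw) I)) * (Ideal.absNorm I : ℂ) ^ (-s))))
          (χ (Ideal.span {eF F hw u}) * ∑ b ∈ C, χ b ^ 2 * S b u s) := by
        intro s hs'
        exact h6b_hasSum3 F H.m hm1 χ hχ C (fun b hb => ⟨(hC b hb).1, (hC b hb).2.1⟩) (eF F hw u)
          (hcop u hu) (hray _ (hcop u hu))
          (fun I => ((Ideal.absNorm H.Q : ℂ) * (if H.Q ∣ I then 1 else 0) - 1) *
            (conj (emb (Ps (eF F hw) I)) * (Ideal.absNorm I : ℂ) ^ (-s))) (by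
            show _ * (conj (emb (Ps (eF F hw) 0)) *
              (Ideal.absNorm (0 : Ideal (𝓞 F)) : ℂ) ^ (-s)) = 0
            rw [Ps_bot, map_zero, map_zero, zero_mul, mul_zero]) (fun b => S b u s) (by
            intro b hb
            show HasSum _ (S b u s)
            rw [hS b hb]
            exact sumS3 H (D b hb) (v b hb) ψ hψ (hC b hb).1 (hC b hb).2.1 (hC b hb).2.2.2
              (hvψ b hb) u (hcop u hu) s hs')
      have hS2 : ∀ s : ℂ, 3 / 2 < s.re → HasSum (fun I : Ideal (𝓞 F) =>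
          χ I * (((Ideal.absNorm H.Q : ℂ) * (if H.Q ∣ I then 1 else 0) - 1) *
            (conj (emb (Ps (eF F hw) I)) * (Ideal.absNorm I : ℂ) ^ (-s))))
          (((Ideal.absNorm H.Q : ℂ) *
          (χ H.Q * conj (emb (Ps (eF F hw) H.Q)) * (Ideal.absNorm H.Q : ℂ) ^ (-s)) - 1)
            * Φ s) := by
        intro s hs'
        have h1 := h6b_mult F H.Q H.hQ0 _ (fun I : Ideal (𝓞 F) =>
          χ I * (conj (emb (Ps (eF F hw) I)) * (Ideal.absNorm I : ℂ) ^ (-s)))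
          (χ H.Q * conj (emb (Ps (eF F hw) H.Q)) * (Ideal.absNorm H.Q : ℂ) ^ (-s)) (Φ s)
          (hΦs s hs') (by
            intro I
            have e1 : Ps (eF F hw) (H.Q * I) = Ps (eF F hw) H.Q * Ps (eF F hw) I := Ps_mul _ _ _
            rw [hχ.mul, e1, map_mul, map_mul, map_mul, Nat.cast_mul,
              Complex.natCast_mul_natCast_cpow]
            ring)
        have h2 := (h1.mul_left (Ideal.absNorm H.Q : ℂ)).sub (hΦs s hs')
        have e : ((Ideal.absNorm H.Q : ℂ) *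
          (χ H.Q * conj (emb (Ps (eF F hw) H.Q)) * (Ideal.absNorm H.Q : ℂ) ^ (-s)) - 1) * Φ s =
          (Ideal.absNorm H.Q : ℂ) *
          (χ H.Q * conj (emb (Ps (eF F hw) H.Q)) * (Ideal.absNorm H.Q : ℂ) ^ (-s) * Φ s)
            - Φ s := by
          ring
        rw [e]
        refine h2.congr_fun ?_
        intro I
        split_ifs <;> ring
      have h5 := h6b_ident _ _ hSd hRd (fun s hs' => (hS1 s hs').unique (hS2 s hs'))
      have h6 : χ (Ideal.span {eF F hw u}) * ∑ b ∈ C, χ b ^ 2 * S b u 1 =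
          ((Ideal.absNorm H.Q : ℂ) *
          (χ H.Q * conj (emb (Ps (eF F hw) H.Q)) * (Ideal.absNorm H.Q : ℂ) ^ (-1 : ℂ)) - 1)
            * Φ 1 :=
        congrFun h5 1
      have h7 : ∑ b ∈ C, χ b ^ 2 * S b u 1 = Omp ^ (r + 1) * ∑ b ∈ C, χ b ^ 2 * T b u := by
        rw [Finset.mul_sum]
        apply Finset.sum_congr rfl
        intro b hb
        rw [hS b hb, hT b hb, S3_one H (D b hb) (v b hb) (hC b hb).1 (hC b hb).2.1]
        ring
      have h8 : (Ideal.absNorm H.Q : ℂ) *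
          (χ H.Q * conj (emb (Ps (eF F hw) H.Q)) * (Ideal.absNorm H.Q : ℂ) ^ (-1 : ℂ)) =
          χ H.Q * conj (emb (Ps (eF F hw) H.Q)) := by
        rw [Complex.cpow_neg_one]
        field_simp
      rw [h8, h7] at h6
      rw [← h6]
      ring

end

theorem c12_la_ne (F : IntermediateField ℚ ℂ) [NumberField F] (hw : w ∈ F) :
    eF F hw la ≠ 0 := by
  intro h
  have h1 : eF F hw (-om ^ 2 * la ^ 2) = 0 := by
    rw [map_mul, map_pow, h]
    ring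
  rw [← three_eq, map_ofNat] at h1
  have h3 : ((3 : ℕ) : 𝓞 F) ≠ 0 := Nat.cast_ne_zero.2 (by norm_num)
  exact h3 h1

variable {r : ℕ} (F : IntermediateField ℚ ℂ) [NumberField F] (hw : w ∈ F)

theorem hecke_final3 (hrank : Module.finrank ℚ F = 2 * (r + 1))
    (hun : Unr3 F r) (hsm : Smooth3 F hw)
    (m : 𝓞 F) (hm0 : m ≠ 0) (h7 : eF F hw p7 ∣ m) (hm6 : IsCoprime m 6) (N0 : ℕ)
    (hN0 : Nat.Coprime N0 6) :
    ∃ (C : Finset (Ideal (𝓞 F))) (N : ℕ) (T : Ideal (𝓞 F) → Eis → ℂ) (δ : ℂ) (Q : Ideal (𝓞 F)),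
      ¬ 3 ∣ N ∧ 7 ∣ N ∧ N0 ∣ N ∧ m ∣ (N : 𝓞 F) ∧
      |(NumberField.discr F : ℝ)| = 3 ^ (r + 1) * ‖δ‖ ^ 4 ∧ δ ≠ 0 ∧
      (∃ s : Fin (r + 1) → F →+* ℂ, IsS F hw s ∧ IsDel F hw s δ) ∧
      (∀ b ∈ C, b ≠ 0 ∧ IsCoprime b (Ideal.span {m})) ∧
      Q ≠ 0 ∧ IsCoprime Q (Ideal.span {m}) ∧ ¬ la ∣ Ps (eF F hw) Q - 1 ∧
      (∀ A : ValuationSubring ℂ, A.valuation 3 < 1 → ∀ b ∈ C, A.valuation (T b 1) ≤ 1) ∧
      (∀ σ : ℂ ≃+* ℂ, σ w = w → ∀ u : Eis, IsCoprime u (N : Eis) →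
        (∀ c : Eis, ptMap (σ : ℂ →+* ℂ) (pt (emb c / N)) = pt (emb (c * u) / N)) →
        ∀ b ∈ C, σ (T b 1) * σ δ = T b u * δ) ∧
      ∀ χ : Ideal (𝓞 F) → ℂ, IsRC3 F m χ → ∃ Φ : ℂ → ℂ, Differentiable ℂ Φ ∧
        (∀ s : ℂ, 3 / 2 < s.re → HasSum (fun I : Ideal (𝓞 F) =>
          χ I * conj (emb (Ps (eF F hw) I)) * (Ideal.absNorm I : ℂ) ^ (-s)) (Φ s)) ∧
        ∀ u : Eis, IsCoprime u (N : Eis) →
          (χ Q * conj (emb (Ps (eF F hw) Q)) - 1) * Φ 1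
            = Omp ^ (r + 1) * χ (Ideal.span {eF F hw u}) * ∑ b ∈ C, χ b ^ 2 * T b u := by
  obtain ⟨s, hs⟩ := exists_s F hw hrank
  obtain ⟨δ, hδ⟩ := exists_del F hw s hs
  obtain ⟨hdisc, -⟩ := del_disc F hw s hs δ hδ
  have hm1 : ¬ IsUnit m := p7_not_unit F hw m h7
  obtain ⟨C, hC, hray⟩ := ray_classes6 F m hm0 hm1 hm6
  have hmI : IsCoprime (Ideal.span {m}) (Ideal.span {(6 : 𝓞 F)}) := by
    rw [Ideal.isCoprime_span_singleton_iff]
    exact hm6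
  have hmne : Ideal.span {m} ≠ 0 := by
    rw [Ne, Ideal.zero_eq_bot, Ideal.span_singleton_eq_bot]
    exact hm0
  obtain ⟨N, hN⟩ : ∃ N : ℕ, N = 7 * N0 * ∏ c ∈ C, Ideal.absNorm (Ideal.span {m} * c) :=
    ⟨_, rfl⟩
  have hNcop : Nat.Coprime N 6 := by
    rw [hN]
    apply Nat.Coprime.mul_left ((by decide : Nat.Coprime 7 6).mul_left hN0)
    apply Nat.Coprime.prod_left
    intro c hc
    exact norm_coprime_six F _ (mul_ne_zero hmne (hC c hc).1)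
      (IsCoprime.mul_left hmI (hC c hc).2.2)
  have hN7 : 7 ∣ N := by
    rw [hN]
    exact Dvd.dvd.mul_right (dvd_mul_right _ _) _
  have hNN0 : N0 ∣ N := by
    rw [hN]
    exact Dvd.dvd.mul_right (dvd_mul_left _ _) _
  have hNc : ∀ c ∈ C, Ideal.absNorm (Ideal.span {m} * c) ∣ N := by
    intro c hc
    rw [hN]
    exact Dvd.dvd.mul_left (Finset.dvd_prod_of_mem _ hc) _
  obtain ⟨c₀, hc₀⟩ : ∃ c₀, c₀ ∈ C := by
    obtain ⟨c, hc, -⟩ := hray 1 isCoprime_one_left 1 one_ne_zero isCoprime_one_left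
    exact ⟨c, hc.1⟩
  have hmN : m ∣ (N : 𝓞 F) := (h6b_dvd F m c₀ N (hNc c₀ hc₀)).1
  -- the smoothing prime
  obtain ⟨Q, c, hQ, hQ0, hc, hcQ, hcB, hQ2⟩ := hsm (36 * N ^ 2 + (2 * (r + 1)) ^ (4 * (r + 1)))
  have hN0' : N ≠ 0 := by
    rintro h
    rw [h] at hNcop
    exact absurd hNcop (by decide)
  have hcN : ¬ c ∣ 6 * (N : Eis) := by
    rintro ⟨k, hk⟩
    have h1 := congrArg (fun x : Eis => x.norm) hk
    simp only [map_mul] at h1
    have e2 : (6 : Eis).norm = 36 := by decide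
    have hN' : (N : Eis).norm = (N : ℤ) ^ 2 := QuadraticAlgebra.norm_natCast N
    rw [e2, hN'] at h1
    have h5 : c.norm ∣ 36 * (N : ℤ) ^ 2 := ⟨_, h1⟩
    have h6 := Int.natAbs_dvd_natAbs.2 h5
    have h7 : (36 * (N : ℤ) ^ 2).natAbs = 36 * N ^ 2 := by
      rw [Int.natAbs_mul, Int.natAbs_pow, Int.natAbs_natCast]
      rfl
    rw [h7] at h6
    have h8 := Nat.le_of_dvd (by positivity) h6
    omega
  have hcbig : ((2 * (r + 1)) ^ (4 * (r + 1)) : ℕ) < c.norm.natAbs := by omega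
  have hcop6 : IsCoprime c (6 * (N : Eis)) := by
    have := eis_isDomain
    have := eis_pid
    exact (Irreducible.coprime_iff_not_dvd hc.irreducible).2 hcN
  have hc6 : IsCoprime c 6 := hcop6.of_mul_right_left
  have hcN' : IsCoprime c (N : Eis) := hcop6.of_mul_right_right
  have hQm : IsCoprime Q (Ideal.span {m}) := (h6b_cop F hw Q hQ hQ0 c hcQ (N : Eis) hcN' _ (by
    rw [map_natCast]
    exact Ideal.mem_span_singleton.2 hmN)).symm
  have hQ6' : IsCoprime Q (Ideal.span {(6 : 𝓞 F)}) := (h6b_cop F hw Q hQ hQ0 c hcQ 6 hc6 _ (by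
    rw [map_ofNat]
    exact Ideal.mem_span_singleton_self _)).symm
  have hbQ : ∀ b ∈ C, IsCoprime b Q := fun b hb =>
    h6b_cop F hw Q hQ hQ0 c hcQ (N : Eis) hcN' b (by
      rw [map_natCast]
      exact (h6b_dvd F m b N (hNc b hb)).2)
  have hm𝔫 : ((Ideal.span {m} ⊓ Q) ⊓ Ideal.span {eF F hw la}) ≤ Ideal.span {m} :=
    inf_le_left.trans inf_le_left
  have h0 : ((Ideal.span {m} ⊓ Q) ⊓ Ideal.span {eF F hw la}) ≠ ⊥ := by
    have h2 : Ideal.span {eF F hw la} ≠ ⊥ := by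
      rw [Ne, Ideal.span_singleton_eq_bot]
      exact c12_la_ne F hw
    intro hbot
    have h3 : (Ideal.span {m} * Q) * Ideal.span {eF F hw la} ≤ ⊥ := by
      rw [← hbot]
      exact (Ideal.mul_le_inf).trans (inf_le_inf_right _ Ideal.mul_le_inf)
    exact mul_ne_zero (mul_ne_zero hmne hQ0) h2 (le_bot_iff.1 h3)
  obtain ⟨e, he⟩ := exists_basis7 F hw s hs _ h0
    (hm𝔫.trans (Ideal.span_singleton_le_span_singleton.2 h7))
  obtain ⟨η, hη⟩ := exists_rep F s m hm0 _ h0 hm𝔫 e he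
  obtain ⟨T, N₂, hN₂, hN₂7, hTv, hTg, hχ⟩ := c12_main hun
    { s := s, hs := hs, m := m, hm0 := hm0, h7 := h7, hm6 := hm6, Q := Q, hQ := hQ, hQ0 := hQ0,
      hQm := hQm, hQ6 := hQ6', c := c, hc := hc, hcQ := hcQ, e := e, he := he, q := _, η := η,
      hη := hη, δ := δ, hδ := hδ } C
    (fun b hb => ⟨(hC b hb).1, (hC b hb).2.1, (hC b hb).2.2, hbQ b hb⟩) (fun u hu => hray u hu)
    hm1 N hNcop hNc hmN hcN hcbig
  have hN3 : ¬ 3 ∣ N * N₂ := by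
    intro h
    rcases (Nat.prime_iff.1 Nat.prime_three).dvd_or_dvd h with h | h
    · have h1 : 3 ∣ Nat.gcd N 6 := Nat.dvd_gcd h (by decide)
      rw [Nat.Coprime] at hNcop
      rw [hNcop] at h1
      exact absurd h1 (by decide)
    · exact hN₂ h
  refine ⟨C, N * N₂, T, δ, Q, hN3, hN7.mul_right _, hNN0.mul_right _, ?_, hdisc, hδ.ne,
    ⟨s, hs, hδ⟩, fun b hb => ⟨(hC b hb).1, (hC b hb).2.1⟩, hQ0, hQm, hQ2, hTv, ?_, ?_⟩
  · rw [Nat.cast_mul]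
    exact hmN.mul_right _
  · intro σ hσ u hu hσu b hb
    exact hTg (N * N₂) (dvd_mul_left _ _) hN3 σ hσ u hu hσu b hb
  · intro χ hχ'
    obtain ⟨Φ, hΦ, hΦs, hΦu⟩ := hχ χ hχ'
    refine ⟨Φ, hΦ, hΦs, fun u hu => hΦu u ?_⟩
    rw [Nat.cast_mul] at hu
    exact hu.of_mul_right_left

end TH
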