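import Pool.Agent.MP_9ab903_nt.TH.C0
import Pool.Agent.MP_9ab903_nt.TH.B0a

/-!
# [NG3-C1a] Eisenstein integers modulo `π = p7`

`ℤ[ω]/π = 𝔽₇` via `ω ↦ 4` (`φ₇ : Eis →+* ZMod 7`, `φ₇ a = a.re + 4 a.im`; `π ∣ a ↔ φ₇ a = 0`: `a = (a.re + 4 a.im) + a.im (ω - 4)`,
`7 = π · star π`, `ω - 4 = - (λ π)` (`dd_eq`): all explicit). The six units `± 1, ± ω, ± ω²` (`eis_isUnit_iff`, norm 1) map to the six nonzero classes
`± 1, ± 4, ± 2` (B0a: `p7_prime`, `unit_iff`, `unit7`, `exists_unit7`, `assoc7`), so for `π ∤ u` there is exactly one unit `ε` with `ε u ≡ 1 mod π`. `star π = 2 - ω` (norm 7), `π ∤ star π`.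
-/

set_option autoImplicit false

open NumberField IsDedekindDomain MeasureTheory Set
open CM27 CMT CF NAB NG
open scoped ComplexConjugate Classical Matrix

namespace TH

/-! ### the unit `ep` -/

theorem c1a_re_mul (a b : Eis) : (a * b).re = a.re * b.re - a.im * b.im := by
  simp only [QuadraticAlgebra.re_mul]; ring

theorem c1a_im_mul (a b : Eis) : (a * b).im = a.re * b.im + a.im * b.re - a.im * b.im := by
  simp only [QuadraticAlgebra.im_mul]; ring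

theorem c1a_dvd_p7 (a : Eis) : p7 ∣ a ↔ (7 : ℤ) ∣ a.re + 4 * a.im := by
  constructor
  · rintro ⟨c, rfl⟩
    rw [c1a_re_mul, c1a_im_mul]
    refine ⟨c.re + c.im, ?_⟩
    show 3 * c.re - 1 * c.im + 4 * (3 * c.im + 1 * c.re - 1 * c.im) = 7 * (c.re + c.im)
    ring
  · rintro ⟨k, hk⟩
    refine ⟨⟨2 * k - a.im, a.im - k⟩, ?_⟩
    ext
    · rw [c1a_re_mul]
      show a.re = 3 * (2 * k - a.im) - 1 * (a.im - k)
      linarith
    · rw [c1a_im_mul]
      show a.im = 3 * (a.im - k) + 1 * (2 * k - a.im) - 1 * (a.im - k)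
      ring

theorem c1a_dvd_la (a : Eis) : la ∣ a ↔ (3 : ℤ) ∣ a.re + a.im := by
  constructor
  · rintro ⟨c, rfl⟩
    rw [c1a_re_mul, c1a_im_mul]
    refine ⟨c.im, ?_⟩
    show 1 * c.re - -1 * c.im + (1 * c.im + -1 * c.re - -1 * c.im) = 3 * c.im
    ring
  · rintro ⟨k, hk⟩
    refine ⟨⟨a.re - k, k⟩, ?_⟩
    ext
    · rw [c1a_re_mul]
      show a.re = 1 * (a.re - k) - -1 * k
      ring
    · rw [c1a_im_mul]
      show a.im = 1 * k + -1 * (a.re - k) - -1 * k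
      linarith

theorem p7_norm : p7.norm = 7 := by
  rw [norm_eq]
  show (3 : ℤ) ^ 2 - 3 * 1 + 1 ^ 2 = 7
  norm_num

theorem laP : Prime la := by
  refine ⟨?_, ?_, ?_⟩
  · intro h
    have h1 : la.re = (0 : Eis).re := by rw [h]
    have h2 : (1 : ℤ) = 0 := h1
    omega
  · intro h
    rw [eis_isUnit_iff, norm_eq] at h
    have h2 : (1 : ℤ) ^ 2 - 1 * -1 + (-1) ^ 2 = 1 := h
    norm_num at h2
  · intro a b h
    rw [c1a_dvd_la, c1a_re_mul, c1a_im_mul] at h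
    rw [c1a_dvd_la, c1a_dvd_la]
    have h1 : (3 : ℤ) ∣ (a.re + a.im) * (b.re + b.im) := by
      have h2 : (a.re + a.im) * (b.re + b.im) =
          (a.re * b.re - a.im * b.im + (a.re * b.im + a.im * b.re - a.im * b.im))
            + 3 * (a.im * b.im) := by ring
      rw [h2]
      exact dvd_add h (dvd_mul_right _ _)
    exact Int.prime_three.dvd_mul.1 h1

/-- `π ∤ λ` etc. -/
theorem p7_not_dvd_la : ¬ p7 ∣ la := by
  rw [c1a_dvd_p7]
  show ¬ (7 : ℤ) ∣ 1 + 4 * -1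
  norm_num

theorem Pr7_mul {a b : Eis} (ha : Pr7 a) (hb : Pr7 b) : Pr7 (a * b) := by
  have h : a * b - 1 = (a - 1) * b + (b - 1) := by ring
  rw [Pr7, h]
  exact dvd_add (Dvd.dvd.mul_right ha b) hb

theorem c1a_Pr7_one : Pr7 1 := by
  rw [Pr7, sub_self]
  exact dvd_zero _

theorem Pr7_pow {a : Eis} (ha : Pr7 a) (n : ℕ) : Pr7 (a ^ n) := by
  induction n with
  | zero => rw [pow_zero]; exact c1a_Pr7_one
  | succ n ih => rw [pow_succ]; exact Pr7_mul ih ha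

theorem c1a_not_dvd_one : ¬ p7 ∣ (1 : Eis) := by
  rw [c1a_dvd_p7]
  show ¬ (7 : ℤ) ∣ 1 + 4 * 0
  norm_num

theorem Pr7_not_dvd {a : Eis} (ha : Pr7 a) : ¬ p7 ∣ a := by
  intro h
  apply c1a_not_dvd_one
  have h1 := dvd_sub h ha
  rwa [sub_sub_cancel] at h1

theorem ep_unit (u : Eis) : IsUnit (ep u) := by
  rw [ep]
  split_ifs with h
  · exact h.choose_spec.1
  · exact isUnit_one

theorem c1a_exists {u : Eis} (h : ¬ p7 ∣ u) : ∃ e : Eis, IsUnit e ∧ Pr7 (e * u) := by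
  obtain ⟨ε, h1, h2⟩ := exists_unit7 h
  exact ⟨ε, (unit_iff ε).2 h1, h2⟩

theorem ep_spec (u : Eis) (h : ¬ p7 ∣ u) : Pr7 (ep u * u) := by
  have h1 := c1a_exists h
  rw [ep, dif_pos h1]
  exact h1.choose_spec.2

theorem ep_uniq (e u : Eis) (he : IsUnit e) (h : Pr7 (e * u)) : ep u = e := by
  have := eis_isDomain
  have hu : ¬ p7 ∣ u := fun h1 => Pr7_not_dvd h (Dvd.dvd.mul_left h1 e)
  have hu0 : u ≠ 0 := by
    rintro rfl
    exact hu (dvd_zero _)
  have h2 : Associated (ep u * u) (e * u) := by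
    have h3 : Associated (ep u * u) u := associated_unit_mul_left u (ep u) (ep_unit u)
    have h4 : Associated (e * u) u := associated_unit_mul_left u e he
    exact h3.trans h4.symm
  have h5 := assoc7 h2 (ep_spec u hu) h
  exact mul_right_cancel₀ hu0 h5

theorem ep_of_Pr7 {u : Eis} (h : Pr7 u) : ep u = 1 :=
  ep_uniq 1 u isUnit_one (by rwa [one_mul])

theorem ep_mul (a b : Eis) (ha : ¬ p7 ∣ a) (hb : ¬ p7 ∣ b) : ep (a * b) = ep a * ep b := by
  refine ep_uniq _ _ ((ep_unit a).mul (ep_unit b)) ?_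
  have h : ep a * ep b * (a * b) = (ep a * a) * (ep b * b) := by ring
  rw [h]
  exact Pr7_mul (ep_spec a ha) (ep_spec b hb)

theorem ep_pow (a : Eis) (ha : ¬ p7 ∣ a) (n : ℕ) : ep (a ^ n) = ep a ^ n := by
  refine ep_uniq _ _ ((ep_unit a).pow n) ?_
  rw [← mul_pow]
  exact Pr7_pow (ep_spec a ha) n

theorem c1a_ep_of_dvd {u : Eis} (h : p7 ∣ u) : ep u = 1 := by
  rw [ep, dif_neg]
  rintro ⟨e, -, he⟩
  exact Pr7_not_dvd he (Dvd.dvd.mul_left h e)

theorem ep_congr (a b : Eis) (h : p7 ∣ a - b) : ep a = ep b := by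
  by_cases hb : p7 ∣ b
  · have ha : p7 ∣ a := by
      have h1 := dvd_add h hb
      rwa [sub_add_cancel] at h1
    rw [c1a_ep_of_dvd ha, c1a_ep_of_dvd hb]
  · refine ep_uniq _ _ (ep_unit b) ?_
    have h1 : ep b * a - 1 = ep b * (a - b) + (ep b * b - 1) := by ring
    rw [Pr7, h1]
    exact dvd_add (Dvd.dvd.mul_left h _) (ep_spec b hb)

/-- Associated elements `≡ 1 mod π` are equal. -/
theorem Pr7_eq {a b : Eis} (ha : Pr7 a) (hb : Pr7 b) (h : Associated a b) : a = b :=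
  assoc7 h ha hb

theorem p7_not_dvd_star : ¬ p7 ∣ star p7 := by
  rw [c1a_dvd_p7]
  show ¬ (7 : ℤ) ∣ (3 + -1 * 1) + 4 * -1
  norm_num

theorem p7_mul_star : p7 * star p7 = 7 := by
  decide

theorem la_dvd_star (a : Eis) : la ∣ star a ↔ la ∣ a := by
  rw [c1a_dvd_la, c1a_dvd_la]
  have h1 : (star a).re = a.re + -1 * a.im := rfl
  have h2 : (star a).im = -a.im := rfl
  rw [h1, h2]
  omega

theorem la_dvd_three : la ^ 2 ∣ 3 ∧ (3 : Eis) ∣ la ^ 2 := by
  constructor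
  · exact ⟨-om ^ 2, by decide⟩
  · exact ⟨-om, by decide⟩

theorem la_dvd_iff (a : Eis) : la ∣ a ↔ (3 : ℤ) ∣ a.norm := by
  rw [c1a_dvd_la, norm_eq]
  have h : a.re ^ 2 - a.re * a.im + a.im ^ 2 =
      (a.re + a.im) ^ 2 + 3 * (-(a.re * a.im)) := by ring
  rw [h, Int.dvd_add_left (dvd_mul_right _ _)]
  constructor
  · intro h1
    exact Dvd.dvd.pow h1 two_ne_zero
  · intro h1
    exact Int.prime_three.dvd_of_dvd_pow h1

/-- the classes modulo `λ` -/
theorem la_cases (a : Eis) : la ∣ a ∨ la ∣ a - 1 ∨ la ∣ a + 1 := by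
  rw [c1a_dvd_la, c1a_dvd_la, c1a_dvd_la]
  have h1 : (a - 1).re = a.re - 1 := rfl
  have h2 : (a - 1).im = a.im - 0 := rfl
  have h3 : (a + 1).re = a.re + 1 := rfl
  have h4 : (a + 1).im = a.im + 0 := rfl
  rw [h1, h2, h3, h4]
  omega

end TH
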