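import Pool.Agent.MP_9ab903_nt.TH.C2a
import Pool.Agent.MP_9ab903_nt.TH.C1a
import Pool.Agent.MP_9ab903_nt.NG.G2b

/-!
# [NG3-C3a], [NG3-C3b], [NG3-C3] the values `xw, yw, lx, E1` at torsion points are `λ`-adically controlled; Galois action

`A` a valuation ring of `ℂ` with `A.valuation 3 < 1`; `l = A.valuation (emb la) < 1`, `l² = A.valuation 3` (`3 = -ω²λ²`, `ω` a unit),
`A.valuation 2 = 1` (`2 = 3 - 1`). `z ∉ O`, `N z ∈ O`, `3 ∤ N`; then `λ^k z ∉ O` for all `k` and `λ^k z = z + a` for some `k ≥ 1` (`λ` is invertible modulo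
`N`: a finite ring).

* `xw_val`: let `r³ = -1/4` (`v r = 1`), `x = λ X + r`. By `xw_la` the number `X'` of `λ z` is
  `X' = (X³ + ωλ r X² - λ r² X - ω²/4) / (λ X + r)²`.
  If `v X > 1` then `v X' > v X` (cases `v(λX) < 1`: `v X' = (v X)³`; `v(λX) > 1`: `v X' = v X / l²`; `v(λX) = 1`: `v X' ≥ (v X)³`): impossible by
  periodicity. So `v X ≤ 1`: `A.valuation (xw z - r) ≤ l`, `A.valuation (xw z) = 1`.
* `yw_val_le`: `y² = 4x³ + 1 = λ³ (4X³ - 4ω²λ r X² - 4ω² r² X)`: `v(y)² ≤ l³`.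
* `lx_val_le`: `Off z`: `lx² = x(2z) + 2x(z) = 3r + λ (X₂ + 2X)`: `v(lx)² ≤ l`. And `lx = 3x²/y`: `v(y)² = l⁴ / v(lx)² ≥ l³`; so for odd order
  `v(y)² = l³` exactly.
* `E1_val_la` (`N` prime to `6`): `f k = E1 (λ^k z)/OmC`, `f (k+1) = μ f k + slo (λ^k z)`, `μ = -ω²λ`, `v(slo)² = l³/l² = l` (`E1_la`); `a10_rec`:
  `(1 - μ^k) f 0 = ∑ μ^(k-1-i) slo (λ^i z)`: `v(f)² ≤ l`, and then `f 1 = μ f 0 + slo z`: `v(μ f 0)² ≤ l³ < l = v(slo z)²`, so `v(f 1)² = l`; apply it to
  `z' = λ^(k-1) z`, `λ z' = z` mod `O`.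
* `E1_val_le` (`3 ∤ N`, no `2^j z` in `O`): induction on the power of `2` in `N`: `2 E1 z / OmC = E1 (2z)/OmC - lx z` (`E1_two`, `lam_eq`), `v 2 = 1`,
  `lx_val_le`.
* `Omp`: `N = 7`, `z = 1/π` (`7/π = star π ∈ O`): `v(Omp/OmC)² = l`. So `v(E1 z/Omp) = 1` resp. `≤ 1`.
* `Xi_val3`: as `Xi_val` (NG/G2b) with `Xi_dist` for `M = N₂` (`N₂ θ ∈ Dl`, `3 ∤ N₂`): the points `(z + a)/M` satisfy the hypotheses of `E1_val_le`.
* `gal_fix'`: `gal_fix` (AN/A7) without the part about `3`.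
* `E1_gal3`: induction on the power of `2` in `N` from `E1_gal` (NAB/A10): `E1 z = (E1 (2z) - lam z)/2`; `lx (emb u * z) = σ (lx z)`: `a10_lx` (check that its
  proof only uses `N ≠ 0`; otherwise copy it; `Off z` because `2z ∉ O`). For `2^j z` and odd part `N'` of `N`: `hσu` for `N'` follows from `hσu` for `N`.
* `Xi_gal3`: as `Xi_gal` (NG/G2b).
* `Omp_gal`: `E1_gal` for `N` odd, or `E1_gal3`, at `z = 1/π` (`7 ∣ N`): `σ (Omp/OmC) = E1 (u/π)/OmC`, `ep u * u = 1 + π t`, so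
  `E1 (emb (ep u) * (u/π)) = E1 (1/π + t) = Omp` and `E1_unit`: `E1 (u/π) = emb (ep u) * Omp`.
-/

set_option autoImplicit false

open NumberField IsDedekindDomain MeasureTheory Set
open CM27 CMT CF NAB NG
open scoped ComplexConjugate Classical Matrix

namespace TH

theorem c3a_alg (l W X ρ : ℂ) (hW : W = 1 - l) (hq : l ^ 2 - 3 * l + 3 = 0)
    (hρ : ρ ^ 3 = -1 / 4) : (l * X + ρ) ^ 3 + 1 - ρ * l ^ 2 * (l * X + ρ) ^ 2 =
      l ^ 3 * (X ^ 3 + W * l * ρ * X ^ 2 - l * ρ ^ 2 * X - W ^ 2 / 4) := by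
  subst hW
  linear_combination ((l ^ 3 + l ^ 2) * X ^ 2 * ρ + (l ^ 2 + l) * X * ρ ^ 2 +
    (l ^ 3 + l ^ 2 + l + 1) / 4) * hq + (1 - l ^ 2) * hρ

theorem c3a_q : emb la ^ 2 - 3 * emb la + 3 = 0 := by
  rw [emb_la]
  linear_combination w_quad

theorem c3a_ne : emb la ≠ 0 := by
  intro h
  have h1 := la_sq
  rw [h] at h1
  norm_num at h1

/-- `λ` is invertible modulo `N` -/
theorem c3a_period (N : ℕ) (hN : ¬ 3 ∣ N) : ∃ k : ℕ, 0 < k ∧ (N : Eis) ∣ la ^ k - 1 := by
  have hN0 : (N : Eis) ≠ 0 := by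
    intro h
    have h1 := congrArg emb h
    rw [map_natCast, map_zero, Nat.cast_eq_zero] at h1
    exact hN (h1 ▸ dvd_zero 3)
  have hdom := eis_isDomain
  have hfin : Finite (Eis ⧸ Ideal.span {(N : Eis)}) := by
    apply Ideal.finiteQuotientOfFreeOfNeBot
    rwa [Ne, Ideal.span_singleton_eq_bot]
  have hcop : IsCoprime (3 : ℤ) (N : ℤ) := by
    have h1 := Nat.isCoprime_iff_coprime.2 ((Nat.Prime.coprime_iff_not_dvd Nat.prime_three).2 hN)
    exact_mod_cast h1
  obtain ⟨u, v, huv⟩ := hcop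
  have h3 : (3 : Eis) = -om ^ 2 * la ^ 2 := three_eq
  have h4 : ((u * 3 + v * N : ℤ) : Eis) = 1 := by rw [huv]; simp
  push_cast at h4
  have hunit : IsUnit (Ideal.Quotient.mk (Ideal.span {(N : Eis)}) la) := by
    refine IsUnit.of_mul_eq_one (Ideal.Quotient.mk _ (-(u : Eis) * om ^ 2 * la)) ?_
    rw [← map_mul, ← map_one (Ideal.Quotient.mk (Ideal.span {(N : Eis)})), Ideal.Quotient.eq,
      Ideal.mem_span_singleton]
    refine ⟨-(v : Eis), ?_⟩
    linear_combination h4 - (u : Eis) * h3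
  obtain ⟨U, hU⟩ := hunit
  refine ⟨orderOf U, orderOf_pos U, ?_⟩
  rw [← Ideal.mem_span_singleton, ← Ideal.Quotient.eq, map_pow, ← hU, map_one, ← Units.val_pow_eq_pow_val,
    pow_orderOf_eq_one, Units.val_one]

section
variable (A : ValuationSubring ℂ)

theorem c3a_val_w : A.valuation w = 1 := by
  have h1 := i1_val_w A
  have h2 : A.valuation w * (A.valuation w * A.valuation w) = 1 := by
    rw [← map_mul, ← map_mul]
    have h3 : w * (w * w) = 1 := by linear_combination w_cube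
    rw [h3, map_one]
  refine le_antisymm h1 ?_
  rw [← h2]
  exact mul_le_of_le_one_right' (mul_le_one' h1 h1)

variable (hA : A.valuation 3 < 1)
include hA

theorem val_la : A.valuation (emb la) < 1 ∧ A.valuation (emb la) ^ 2 = A.valuation 3 := by
  have h1 : A.valuation (emb la) ^ 2 = A.valuation 3 := by
    have h2 := congrArg A.valuation la_sq
    rw [map_mul, map_pow, map_pow, c3a_val_w, one_pow, one_mul, Valuation.map_neg] at h2
    exact h2
  refine ⟨?_, h1⟩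
  rw [← h1] at hA
  by_contra h
  rw [not_lt] at h
  exact absurd hA (not_lt.2 (one_le_pow₀ h))

theorem val_two3 : A.valuation 2 = 1 := by
  have h1 : (2 : ℂ) = 3 - 1 := by norm_num
  rw [h1]
  have h2 : A.valuation 3 < A.valuation 1 := by rw [map_one]; exact hA
  rw [Valuation.map_sub_eq_of_lt_right _ h2, map_one]

theorem c3a_val_int (n : ℤ) (hn : ¬ (3 : ℤ) ∣ n) : A.valuation (n : ℂ) = 1 := by
  refine le_antisymm (i1_val_int A n) ?_
  by_contra hlt
  rw [not_le] at hlt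
  have hcop : IsCoprime (3 : ℤ) n := (Int.prime_three.coprime_iff_not_dvd).2 hn
  obtain ⟨u, v, huv⟩ := hcop
  have h1 : ((u * 3 + v * n : ℤ) : ℂ) = 1 := by rw [huv]; simp
  push_cast at h1
  have h2 : A.valuation ((u : ℂ) * 3 + v * n) < 1 := by
    apply Valuation.map_add_lt
    · rw [map_mul]
      calc A.valuation (u : ℂ) * A.valuation 3 ≤ 1 * A.valuation 3 := by
            gcongr
            exact i1_val_int A _
        _ < 1 := by rw [one_mul]; exact hA
    · rw [map_mul]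
      calc A.valuation (v : ℂ) * A.valuation (n : ℂ) ≤ 1 * A.valuation (n : ℂ) := by
            gcongr
            exact i1_val_int A _
        _ < 1 := by rw [one_mul]; exact hlt
  rw [h1, map_one] at h2
  exact lt_irrefl _ h2

/-- elements of `ℤ[ω]` not divisible by `λ` are units -/
theorem val_not_la (a : Eis) (ha : ¬ la ∣ a) : A.valuation (emb a) = 1 := by
  obtain ⟨hl1, hl2⟩ := val_la A hA
  have h1 : emb a = ((a.re + a.im : ℤ) : ℂ) - (a.im : ℂ) * emb la := by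
    rw [emb_apply, emb_la]
    push_cast
    ring
  have h3 : ¬ (3 : ℤ) ∣ a.re + a.im := by
    rintro ⟨k, hk⟩
    apply ha
    refine ⟨(k : Eis) * (-om ^ 2 * la) - (a.im : Eis), ?_⟩
    apply emb_injective
    have h4 : ((a.re : ℂ) + a.im) = 3 * k := by exact_mod_cast hk
    have h5 := la_sq
    have h6 : emb om = w := a1_emb_om
    rw [map_mul, map_sub, map_mul, map_mul, map_neg, map_pow, map_intCast, map_intCast, h6, h1]
    push_cast
    linear_combination h4 + (k : ℂ) * h5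
  have h4 : A.valuation ((a.re + a.im : ℤ) : ℂ) = 1 := c3a_val_int A hA _ h3
  rw [h1, Valuation.map_sub_eq_of_lt_left, h4]
  rw [h4, map_mul]
  calc A.valuation (a.im : ℂ) * A.valuation (emb la) ≤ 1 * A.valuation (emb la) := by
        gcongr
        exact i1_val_int A _
    _ < 1 := by rw [one_mul]; exact hl1

theorem val_nat3 (n : ℕ) (hn : ¬ 3 ∣ n) : A.valuation (n : ℂ) = 1 := by
  have h1 := c3a_val_int A hA (n : ℤ) (by exact_mod_cast hn)
  push_cast at h1
  exact h1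

theorem c3a_val_rho (ρ : ℂ) (hρ : ρ ^ 3 = -1 / 4) : A.valuation ρ = 1 := by
  have h1 := congrArg A.valuation hρ
  have h2 : (-1 / 4 : ℂ) = -(1 / (2 * 2)) := by norm_num
  rw [h2, Valuation.map_neg, map_div₀, map_mul, val_two3 A hA, map_one, map_pow] at h1
  simp only [mul_one, div_one] at h1
  exact (pow_eq_one_iff_of_nonneg zero_le three_ne_zero).1 h1

theorem c3a_step (X X' ρ : ℂ) (hρ : ρ ^ 3 = -1 / 4)
    (h : X' * (emb la * X + ρ) ^ 2 =
      X ^ 3 + w * emb la * ρ * X ^ 2 - emb la * ρ ^ 2 * X - w ^ 2 / 4)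
    (hV : 1 < A.valuation X) : A.valuation X < A.valuation X' := by
  obtain ⟨hl1, -⟩ := val_la A hA
  have hvρ := c3a_val_rho A hA ρ hρ
  have hvw := c3a_val_w A
  have hlV : A.valuation (emb la) < A.valuation X := hl1.trans hV
  have hV0 : 0 < A.valuation X := lt_trans zero_lt_one hV
  have hV2 : 1 < A.valuation X ^ 2 := one_lt_pow₀ hV two_ne_zero
  have hnum : A.valuation (X ^ 3 + w * emb la * ρ * X ^ 2 - emb la * ρ ^ 2 * X - w ^ 2 / 4) =
      A.valuation X ^ 3 := by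
    have e1 : X ^ 3 + w * emb la * ρ * X ^ 2 - emb la * ρ ^ 2 * X - w ^ 2 / 4 =
        X ^ 3 + (w * emb la * ρ * X ^ 2 - emb la * ρ ^ 2 * X - w ^ 2 / (2 * 2)) := by ring
    rw [e1, Valuation.map_add_eq_of_lt_left, map_pow]
    rw [map_pow]
    apply Valuation.map_sub_lt
    · apply Valuation.map_sub_lt
      · rw [map_mul, map_mul, map_mul, hvw, hvρ, one_mul, mul_one, map_pow, pow_succ' _ 2]
        exact mul_lt_mul_of_pos_right hlV (pow_pos hV0 2)
      · rw [map_mul, map_mul, map_pow, hvρ, one_pow, mul_one, pow_succ]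
        exact mul_lt_mul_of_pos_right (hl1.trans hV2) hV0
    · rw [map_div₀, map_pow, hvw, map_mul, val_two3 A hA, one_pow, mul_one, div_one]
      exact one_lt_pow₀ hV three_ne_zero
  have hD : A.valuation (emb la * X + ρ) < A.valuation X := by
    apply Valuation.map_add_lt
    · rw [map_mul]
      calc A.valuation (emb la) * A.valuation X < 1 * A.valuation X :=
            mul_lt_mul_of_pos_right hl1 hV0
        _ = A.valuation X := one_mul _
    · rw [hvρ]
      exact hV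
  by_contra hcon
  rw [not_lt] at hcon
  have h1 := congrArg A.valuation h
  rw [hnum, map_mul, map_pow] at h1
  have h2 : A.valuation (emb la * X + ρ) ^ 2 < A.valuation X ^ 2 :=
    pow_lt_pow_left₀ hD zero_le two_ne_zero
  have h3 : A.valuation X' * A.valuation (emb la * X + ρ) ^ 2 < A.valuation X ^ 3 := by
    calc A.valuation X' * A.valuation (emb la * X + ρ) ^ 2 ≤
          A.valuation X * A.valuation (emb la * X + ρ) ^ 2 := by gcongr
      _ < A.valuation X * A.valuation X ^ 2 := mul_lt_mul_of_pos_left h2 hV0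
      _ = A.valuation X ^ 3 := (pow_succ' _ 2).symm
  rw [h1] at h3
  exact lt_irrefl _ h3

theorem xw_val (N : ℕ) (hN : ¬ 3 ∣ N) (z : ℂ) (hz : (N : ℂ) * z ∈ Set.range emb)
    (hz0 : z ∉ Set.range emb) (ρ : ℂ) (hρ : ρ ^ 3 = -1 / 4) :
    A.valuation (xw z - ρ) ≤ A.valuation (emb la) ∧ A.valuation (xw z) = 1 := by
  obtain ⟨hl1, hl2⟩ := val_la A hA
  have hl0 := c3a_ne
  have hpts : ∀ k : ℕ, (N : ℂ) * (emb la ^ k * z) ∈ Set.range emb ∧
      emb la ^ k * z ∉ Set.range emb := by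
    intro k
    induction k with
    | zero => rw [pow_zero, one_mul]; exact ⟨hz, hz0⟩
    | succ k ih =>
      have e : emb la ^ (k + 1) * z = emb la * (emb la ^ k * z) := by rw [pow_succ']; ring
      rw [e]
      refine ⟨?_, la_not_mem N hN _ ih.1 ih.2⟩
      obtain ⟨c, hc⟩ := ih.1
      exact ⟨la * c, by rw [map_mul, hc]; ring⟩
  have hstep : ∀ k : ℕ, 1 < A.valuation ((xw (emb la ^ k * z) - ρ) / emb la) →
      A.valuation ((xw (emb la ^ k * z) - ρ) / emb la) <
        A.valuation ((xw (emb la ^ (k + 1) * z) - ρ) / emb la) := by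
    intro k hk
    have e : emb la ^ (k + 1) * z = emb la * (emb la ^ k * z) := by rw [pow_succ']; ring
    have h1 := (hpts (k + 1)).2
    rw [e] at h1 ⊢
    have hx0 := xw_ne _ h1
    have hxl := xw_la _ h1
    have e2 : emb la * ((xw (emb la ^ k * z) - ρ) / emb la) + ρ = xw (emb la ^ k * z) := by
      rw [mul_div_cancel₀ _ hl0]
      ring
    refine c3a_step A hA _ _ ρ hρ ?_ hk
    have h2 := c3a_alg (emb la) w ((xw (emb la ^ k * z) - ρ) / emb la) ρ
      (by rw [emb_la]; ring) c3a_q hρ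
    rw [e2] at h2 ⊢
    rw [hxl]
    have h3 : emb la ^ 3 ≠ 0 := pow_ne_zero 3 hl0
    apply mul_left_cancel₀ h3
    rw [← h2]
    field_simp
  have hX : A.valuation ((xw z - ρ) / emb la) ≤ 1 := by
    by_contra hlt
    rw [not_le] at hlt
    have hmono : ∀ k : ℕ, A.valuation ((xw z - ρ) / emb la) <
        A.valuation ((xw (emb la ^ (k + 1) * z) - ρ) / emb la) := by
      intro k
      induction k with
      | zero =>
        have h1 := hstep 0
        rw [pow_zero, one_mul] at h1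
        exact h1 hlt
      | succ k ih => exact ih.trans (hstep (k + 1) (hlt.trans ih))
    obtain ⟨k, hk, t, ht⟩ := c3a_period N hN
    obtain ⟨k', rfl⟩ : ∃ k', k = k' + 1 := ⟨k - 1, by omega⟩
    have h1 := hmono k'
    obtain ⟨c, hc⟩ := hz
    have h2 : emb la ^ (k' + 1) * z = z + emb (t * c) := by
      have h3 := congrArg emb ht
      rw [map_sub, map_pow, map_one, map_mul, map_natCast] at h3
      rw [map_mul, hc]
      linear_combination z * h3
    rw [h2, xw_add] at h1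
    exact lt_irrefl _ h1
  have hle : A.valuation (xw z - ρ) ≤ A.valuation (emb la) := by
    have h1 : xw z - ρ = (xw z - ρ) / emb la * emb la := by rw [div_mul_cancel₀ _ hl0]
    rw [h1, map_mul]
    exact mul_le_of_le_one_left' hX
  refine ⟨hle, ?_⟩
  have h1 : xw z = ρ + (xw z - ρ) := by ring
  have hvρ := c3a_val_rho A hA ρ hρ
  rw [h1, Valuation.map_add_eq_of_lt_left, hvρ]
  rw [hvρ]
  exact lt_of_le_of_lt hle hl1

theorem yw_val_le (N : ℕ) (hN : ¬ 3 ∣ N) (z : ℂ) (hz : (N : ℂ) * z ∈ Set.range emb)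
    (hz0 : z ∉ Set.range emb) : A.valuation (yw z) ^ 2 ≤ A.valuation (emb la) ^ 3 := by
  obtain ⟨hl1, hl2⟩ := val_la A hA
  obtain ⟨ρ, hρ⟩ := IsAlgClosed.exists_pow_nat_eq (-1 / 4 : ℂ) (n := 3) (by norm_num)
  obtain ⟨h1, h2⟩ := xw_val A hA N hN z hz hz0 ρ hρ
  have hvρ := c3a_val_rho A hA ρ hρ
  have hw := weq z hz0
  have e1 : yw z ^ 2 = 2 * 2 * ((xw z - ρ) * ((xw z - ρ) ^ 2 + 3 * (ρ * xw z))) := by
    linear_combination hw + 4 * hρ
  have h3 : A.valuation ((xw z - ρ) ^ 2 + 3 * (ρ * xw z)) ≤ A.valuation (emb la) ^ 2 := by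
    refine (Valuation.map_add _ _ _).trans (max_le ?_ ?_)
    · rw [map_pow]
      exact pow_le_pow_left' h1 2
    · rw [map_mul, map_mul, hvρ, h2, one_mul, mul_one, hl2]
  rw [← map_pow, e1, map_mul, map_mul, map_mul, val_two3 A hA, one_mul, one_mul, pow_succ' _ 2]
  exact mul_le_mul' h1 h3

theorem lx_val_le (N : ℕ) (hN : ¬ 3 ∣ N) (z : ℂ) (hz : (N : ℂ) * z ∈ Set.range emb)
    (hz0 : Off z) : A.valuation (lx z) ^ 2 ≤ A.valuation (emb la) := by
  obtain ⟨hl1, hl2⟩ := val_la A hA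
  obtain ⟨ρ, hρ⟩ := IsAlgClosed.exists_pow_nat_eq (-1 / 4 : ℂ) (n := 3) (by norm_num)
  have hz1 : z ∉ Set.range emb := by
    rintro ⟨a, ha⟩
    exact hz0 ⟨2 * a, by rw [map_mul, ha, map_ofNat]⟩
  have hz2 : (N : ℂ) * (2 * z) ∈ Set.range emb := by
    have h := a9_mul_mem N z hz 2
    push_cast at h
    exact h
  obtain ⟨h1, h2⟩ := xw_val A hA N hN z hz hz1 ρ hρ
  obtain ⟨h3, h4⟩ := xw_val A hA N hN (2 * z) hz2 hz0 ρ hρ
  have hvρ := c3a_val_rho A hA ρ hρ
  have e1 : lx z ^ 2 = (xw (2 * z) - ρ) + 2 * (xw z - ρ) + 3 * ρ := by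
    rw [xw_two' z hz0]
    ring
  rw [← map_pow, e1]
  refine (Valuation.map_add _ _ _).trans (max_le ((Valuation.map_add _ _ _).trans
    (max_le h3 ?_)) ?_)
  · rw [map_mul, val_two3 A hA, one_mul]
    exact h1
  · rw [map_mul, hvρ, mul_one, ← hl2, pow_two]
    exact mul_le_of_le_one_right' hl1.le

theorem yw_val_eq (N : ℕ) (hN : Nat.Coprime N 6) (z : ℂ) (hz : (N : ℂ) * z ∈ Set.range emb)
    (hz0 : z ∉ Set.range emb) : A.valuation (yw z) ^ 2 = A.valuation (emb la) ^ 3 := by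
  have hodd : Odd N := by
    rw [Nat.odd_iff]
    by_contra h
    have h2 : 2 ∣ N := by omega
    have h3 := Nat.dvd_gcd h2 (by norm_num : 2 ∣ 6)
    rw [hN] at h3
    omega
  have h3N : ¬ 3 ∣ N := by
    intro h
    have h3 := Nat.dvd_gcd h (by norm_num : 3 ∣ 6)
    rw [hN] at h3
    omega
  obtain ⟨hl1, hl2⟩ := val_la A hA
  obtain ⟨ρ, hρ⟩ := IsAlgClosed.exists_pow_nat_eq (-1 / 4 : ℂ) (n := 3) (by norm_num)
  obtain ⟨h1, h2⟩ := xw_val A hA N h3N z hz hz0 ρ hρ
  have hoff := off_of_odd N hodd z hz hz0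
  have hy0 : yw z ≠ 0 := fun h => hoff ((yw_eq_zero_iff z hz0).1 h)
  refine le_antisymm (yw_val_le A hA N h3N z hz hz0) ?_
  have h4 := lx_val_le A hA N h3N z hz hoff
  have e1 : yw z ^ 2 * lx z ^ 2 = 3 ^ 2 * xw z ^ 4 := by
    rw [lx]
    field_simp
  have h5 := congrArg A.valuation e1
  rw [map_mul, map_mul, map_pow, map_pow, map_pow, map_pow, h2, one_pow, mul_one, ← hl2] at h5
  have hlpos : 0 < A.valuation (emb la) := by
    rw [zero_lt_iff]
    exact (Valuation.ne_zero_iff _).2 c3a_ne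
  by_contra hcon
  rw [not_le] at hcon
  have h6 : A.valuation (yw z) ^ 2 * A.valuation (lx z) ^ 2 <
      A.valuation (emb la) ^ 3 * A.valuation (emb la) := by
    calc A.valuation (yw z) ^ 2 * A.valuation (lx z) ^ 2 ≤
          A.valuation (yw z) ^ 2 * A.valuation (emb la) := by gcongr
      _ < A.valuation (emb la) ^ 3 * A.valuation (emb la) := mul_lt_mul_of_pos_right hcon hlpos
  rw [h5, ← pow_mul, ← pow_succ] at h6
  exact lt_irrefl _ h6

end

end TH
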