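import Pool.Agent.MP_9ab903_nt.TH.C1a
import Pool.Agent.MP_9ab903_nt.NG.H1b
import Pool.Agent.MP_9ab903_nt.NG.H2a

/-!
# [NG3-C7a], [NG3-C7b], [NG3-C7] unit groups and the discriminant at `λ`

* `torsion_eq_one7`: a root of unity `ζ ≡ 1 mod π` of `F` is `1`, if no prime of `F` above `π` is ramified over `ℚ(ω)`... not needed in this form:
  we use the modulus `m` with `π ∣ m`. PROOF without ramification: suppose `ζ ≠ 1`; replacing `ζ` by a power we may assume that `ζ` has prime order `ℓ`;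
  `∏_{0<i<ℓ} (1 - ζ^i) = ℓ` and each factor is divisible by `π`, so `π^(ℓ-1) ∣ ℓ` in `𝓞 F`, norms to `ℤ[ω]`.. : `π ∣ ℓ` in `ℤ[ω]` (`ℓ` rational,
  `𝓞 F ∩ ℚ(ω) = ℤ[ω]`), so `ℓ = 7` and `π^6 ∣ 7 = π · star π`, `π^5 ∣ star π` in `𝓞 F`, hence in `ℤ[ω]` (an element of `ℚ(ω)` integral over `ℤ`):
  impossible (`π ∤ star π`).
* `exists_basis7`: as `exists_basis` (NG/H1a) with `h1a_basis`, `h1a_rank`, `h1a_fin`, `h1a_ne`, `h1a_flip`, `h1a_zero`; torsion freeness from
  `torsion_eq_one7`, norms `1` from `s_unit7` (TH/C1).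
* `radical_la`: `Unr3`: `del_disc`: `|discr F| = 3^(r+1) ‖δ‖⁴`, `δ² = emb a`, so `3 ∤ norm a`, `λ ∤ a`. Let `λ ∣ x³` in `𝓞 F`. For every `y` the element `z = x y`
  satisfies `λ ∣ z³`; its trace to `ℤ[ω]`, `t z = trace (matrix of z in the basis θ)`, satisfies `t (z³) ≡ (t z)³ mod λ` (matrices over the field
  `ℤ[ω]/λ = 𝔽₃`, `ω ↦ 1`: `ZMod.trace_pow_card` / `FiniteField.trace_pow_card`), so `λ ∣ t (x y)` for all `y`; with `x = ∑ x_i θ_i` and the Gram matrix
  `t (θ_i θ_j) = Θᵀ Θ`, determinant `δ² = emb a` prime to `λ`: all `x_i` are divisible by `λ`. (Or: `𝓞 F / λ` is reduced by the theory of the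
  different/discriminant of Mathlib, whatever is easier.)
* `index_factor3`: as `index_factor` (NG/H1b): the quotient `UM (m ⊓ Q) / UM (m ⊓ Q ⊓ (λ))` has no element of order `3`: `u³ ≡ 1 mod λ` gives
  `(u - 1)³ = (u³ - 1) - 3u(u-1)·.. ∈ (λ)`, so `u ≡ 1 mod λ` by `radical_la`.
* `del_val3`: `|discr F| = 3^(r+1) ‖δ‖⁴`, `δ² = emb a`: `norm a = k` up to sign, `3 ∤ norm a`, so `A.valuation (δ²) = 1` (`a` divides `norm a`).
* `unr_unram`: `Unr3 F r` from '`F/ℚ(ω)` is unramified at `λ`': different/discriminant tower formula (Mathlib: `absNorm_differentIdeal`,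
  `differentIdeal_eq_differentIdeal_mul_differentIdeal`, `not_dvd_differentIdeal_iff`, ..; compare how `¬ 2 ∣ discr` is obtained in `CF`, `NGX`, `TWQ`).
-/

set_option autoImplicit false

open NumberField IsDedekindDomain MeasureTheory Set
open CM27 CMT CF NAB NG
open scoped ComplexConjugate Classical Matrix

namespace TH

variable {r : ℕ} (F : IntermediateField ℚ ℂ) [NumberField F] (hw : w ∈ F)

/-- reduction modulo `λ` -/
def c7b_red : Eis →+* ZMod 3 where
  toFun a := ((a.re + a.im : ℤ) : ZMod 3)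
  map_one' := by
    rw [QuadraticAlgebra.re_one, QuadraticAlgebra.im_one]
    decide
  map_zero' := by
    rw [QuadraticAlgebra.re_zero, QuadraticAlgebra.im_zero]
    decide
  map_add' a b := by
    rw [QuadraticAlgebra.re_add, QuadraticAlgebra.im_add]
    push_cast
    ring
  map_mul' a b := by
    rw [QuadraticAlgebra.re_mul, QuadraticAlgebra.im_mul]
    have h3 : (3 : ZMod 3) = 0 := by decide
    push_cast
    linear_combination (-(a.im : ZMod 3) * (b.im : ZMod 3)) * h3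

theorem c7b_red_iff (a : Eis) : c7b_red a = 0 ↔ la ∣ a := by
  have h1 : c7b_red a = ((a.re + a.im : ℤ) : ZMod 3) := rfl
  have h2 : a.norm = (a.re + a.im) ^ 2 - 3 * (a.re * a.im) := by
    rw [QuadraticAlgebra.norm_def]
    ring
  rw [h1, la_dvd_iff, h2]
  have h3 : ((a.re + a.im : ℤ) : ZMod 3) = 0 ↔ (3 : ℤ) ∣ a.re + a.im :=
    ZMod.intCast_zmod_eq_zero_iff_dvd _ 3
  rw [h3]
  constructor
  · intro h
    exact dvd_sub (h.trans (Dvd.intro_left _ (by ring : (a.re + a.im) * (a.re + a.im) = _)))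
      (dvd_mul_right _ _)
  · intro h
    have h4 : (3 : ℤ) ∣ (a.re + a.im) ^ 2 := by
      have h5 := dvd_add h (dvd_mul_right (3 : ℤ) (a.re * a.im))
      rwa [sub_add_cancel] at h5
    exact Int.prime_three.dvd_of_dvd_pow h4

/-- the trace of a matrix modulo `λ` -/
theorem c7b_trace_cube {ι : Type*} [Fintype ι] [DecidableEq ι] (A : Matrix ι ι Eis)
    (h : la ∣ (A ^ 3).trace) : la ∣ A.trace := by
  have h1 : ∀ B : Matrix ι ι Eis, c7b_red B.trace = (B.map c7b_red).trace := by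
    intro B
    simp [Matrix.trace]
  have h2 : (A ^ 3).map c7b_red = (A.map c7b_red) ^ 3 := Matrix.map_pow A c7b_red 3
  have : Fact (Nat.Prime 3) := ⟨Nat.prime_three⟩
  have h3 : (c7b_red A.trace) ^ 3 = 0 := by
    rw [h1, ← ZMod.trace_pow_card, ← h2, ← h1]
    exact (c7b_red_iff _).2 h
  exact (c7b_red_iff _).1 (pow_eq_zero_iff (three_ne_zero) |>.1 h3)

omit hw in
theorem c7b_exists_basis (hw : w ∈ F) (hrank : Module.finrank ℚ F = 2 * (r + 1))
    (hun : Unr3 F r) : letI : Algebra Eis (𝓞 F) := (eF F hw).toAlgebra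
    ∃ b : Module.Basis (Fin (r + 1)) Eis (𝓞 F), ¬ la ∣ (Algebra.traceMatrix Eis b).det := by
  let _ : Algebra Eis (𝓞 F) := (eF F hw).toAlgebra
  have hsm : ∀ (a : Eis) (x : 𝓞 F), a • x = eF F hw a * x := fun a x => Algebra.smul_def a x
  obtain ⟨s, hs⟩ := exists_s F hw hrank
  obtain ⟨θ, h1, h2⟩ := h2a_basis F hw hrank
  have hli : LinearIndependent Eis θ := by
    rw [Fintype.linearIndependent_iff]
    intro a ha i
    have h3 := h2 a (by
      simp only [hsm] at ha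
      exact ha)
    rw [h3]
    rfl
  let b : Module.Basis (Fin (r + 1)) Eis (𝓞 F) := Module.Basis.mk hli (by
    intro g _
    obtain ⟨a, ha⟩ := h1 g
    rw [ha]
    refine Submodule.sum_mem _ fun i _ => ?_
    rw [← hsm]
    exact Submodule.smul_mem _ _ (Submodule.subset_span ⟨i, rfl⟩))
  have hb : ∀ i, b i = θ i := fun i => Module.Basis.mk_apply hli _ i
  refine ⟨b, ?_⟩
  set S : Matrix (Fin (r + 1)) (Fin (r + 1)) ℂ := Matrix.of fun j i => s j (θ i : F) with hS
  have hdisc : |(NumberField.discr F : ℝ)| = 3 ^ (r + 1) * ‖S.det‖ ^ 4 :=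
    h2a_disc F hw s hs θ h1 h2
  have hS0 : S.det ≠ 0 := by
    intro h0
    rw [h0, norm_zero, zero_pow (by norm_num), mul_zero, abs_eq_zero] at hdisc
    exact NumberField.discr_ne_zero F (by exact_mod_cast hdisc)
  have hSu : IsUnit S.det := isUnit_iff_ne_zero.2 hS0
  -- the trace
  have htr : ∀ z : 𝓞 F, emb (Algebra.trace Eis (𝓞 F) z) = ∑ j, s j (z : F) := by
    intro z
    set A := Algebra.leftMulMatrix b z with hA
    have h3 : ∀ k, z * θ k = ∑ l, eF F hw (A l k) * θ l := by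
      intro k
      have h4 := b.sum_repr (z * b k)
      rw [hb k] at h4
      conv_lhs => rw [← h4]
      refine Finset.sum_congr rfl fun l _ => ?_
      rw [hsm, hb l, hA, Algebra.leftMulMatrix_eq_repr_mul, hb k]
    have h4 : Matrix.diagonal (fun j => s j (z : F)) * S = S * A.map emb := by
      ext j k
      rw [Matrix.diagonal_mul, Matrix.mul_apply]
      have h5 := congrArg (fun x : 𝓞 F => s j (x : F)) (h3 k)
      have h6 : ((∑ l, eF F hw (A l k) * θ l : 𝓞 F) : F) =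
          ∑ l, ((eF F hw (A l k) : 𝓞 F) : F) * (θ l : F) := by
        push_cast
        rfl
      simp only [h6] at h5
      rw [map_sum] at h5
      have h7 : s j (((z * θ k : 𝓞 F)) : F) = s j (z : F) * s j (θ k : F) := by
        rw [← map_mul]
        rfl
      rw [h7] at h5
      refine h5.trans (Finset.sum_congr rfl fun l _ => ?_)
      rw [map_mul, s_eF F hw s hs, mul_comm]
      rfl
    have h5 : (A.map emb).trace = ∑ j, s j (z : F) := by
      have h6 : A.map emb = S⁻¹ * (S * A.map emb) := by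
        rw [← Matrix.mul_assoc, Matrix.nonsing_inv_mul _ hSu, Matrix.one_mul]
      rw [h6, ← h4, Matrix.trace_mul_comm, Matrix.mul_assoc, Matrix.mul_nonsing_inv _ hSu,
        Matrix.mul_one, Matrix.trace_diagonal]
    rw [Algebra.trace_eq_matrix_trace b, ← h5]
    simp [Matrix.trace, hA]
  have hT : (Algebra.traceMatrix Eis b).map emb = S.transpose * S := by
    ext i k
    rw [Matrix.map_apply, Algebra.traceMatrix_apply, Algebra.traceForm_apply, htr, Matrix.mul_apply]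
    refine Finset.sum_congr rfl fun j _ => ?_
    rw [hb, hb, Matrix.transpose_apply]
    show s j ((θ i * θ k : 𝓞 F) : F) = s j (θ i : F) * s j (θ k : F)
    rw [← map_mul]
    rfl
  have hdet : emb (Algebra.traceMatrix Eis b).det = S.det ^ 2 := by
    have h3 : emb (Algebra.traceMatrix Eis b).det = ((Algebra.traceMatrix Eis b).map emb).det :=
      RingHom.map_det emb _
    rw [h3, hT, Matrix.det_mul, Matrix.det_transpose, pow_two]
  obtain ⟨k, hk, hk3⟩ := hun
  rw [la_dvd_iff]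
  intro h3
  apply hk3
  have h4 : |NumberField.discr F| = 3 ^ (r + 1) * (Algebra.traceMatrix Eis b).det.norm := by
    have h5 : ‖S.det‖ ^ 4 = ((Algebra.traceMatrix Eis b).det.norm : ℝ) := by
      rw [← norm_emb_sq, hdet, norm_pow]
      ring
    rw [h5] at hdisc
    exact_mod_cast hdisc
  rw [hk, abs_mul, abs_of_nonneg (by positivity : (0 : ℤ) ≤ 3 ^ (r + 1))] at h4
  have h5 : |k| = (Algebra.traceMatrix Eis b).det.norm :=
    mul_left_cancel₀ (by positivity) h4
  rw [← dvd_abs, h5]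
  exact h3

omit [NumberField F] in
theorem c7b_la_ne : eF F hw la ≠ 0 := by
  intro h
  have h1 : emb la = 0 := congrArg (fun x : 𝓞 F => ((x : F) : ℂ)) h
  have h2 : la = 0 := emb_injective (h1.trans (_root_.map_zero emb).symm)
  have h3 : la ≠ 0 := by decide
  exact h3 h2

omit [NumberField F] in
theorem c7b_la_three : eF F hw la ∣ (3 : 𝓞 F) := by
  have h1 : la ∣ (3 : Eis) := (dvd_pow_self la two_ne_zero).trans la_dvd_three.1
  have h2 := map_dvd (eF F hw) h1
  rwa [map_ofNat] at h2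


theorem radical_la (hrank : Module.finrank ℚ F = 2 * (r + 1)) (hun : Unr3 F r) (x : 𝓞 F)
    (h : eF F hw la ∣ x ^ 3) : eF F hw la ∣ x := by
  let _ : Algebra Eis (𝓞 F) := (eF F hw).toAlgebra
  have hsm : ∀ (a : Eis) (x : 𝓞 F), a • x = eF F hw a * x := fun a x => Algebra.smul_def a x
  obtain ⟨b, hb⟩ := c7b_exists_basis F hw hrank hun
  have h1 : ∀ y : 𝓞 F, la ∣ Algebra.trace Eis (𝓞 F) (x * y) := by
    intro y
    rw [Algebra.trace_eq_matrix_trace b]
    apply c7b_trace_cube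
    rw [← map_pow, ← Algebra.trace_eq_matrix_trace b, mul_pow]
    obtain ⟨t, ht⟩ := h
    rw [ht]
    have h2 : eF F hw la * t * y ^ 3 = la • (t * y ^ 3) := by
      rw [hsm]; ring
    rw [h2, map_smul, smul_eq_mul]
    exact dvd_mul_right _ _
  set T := Algebra.traceMatrix Eis b with hT
  set T2 := T.map c7b_red with hT2
  have hdet2 : T2.det ≠ 0 := by
    have h2 : T2.det = c7b_red T.det := (RingHom.map_det c7b_red T).symm
    rw [h2]
    intro h0
    exact hb ((c7b_red_iff _).1 h0)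
  have hmul : T2 *ᵥ (fun i => c7b_red (b.repr x i)) = 0 := by
    funext j
    have h2 := h1 (b j)
    have h3 : Algebra.trace Eis (𝓞 F) (x * b j) = ∑ i, b.repr x i * T j i := by
      conv_lhs => rw [← b.sum_repr x]
      rw [Finset.sum_mul, map_sum]
      refine Finset.sum_congr rfl fun i _ => ?_
      rw [smul_mul_assoc, map_smul, smul_eq_mul, hT, Algebra.traceMatrix_apply,
        Algebra.traceForm_apply, mul_comm (b j)]
    rw [h3] at h2
    have h4 := (c7b_red_iff _).2 h2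
    rw [map_sum] at h4
    rw [Matrix.mulVec, dotProduct, Pi.zero_apply]
    rw [← h4]
    refine Finset.sum_congr rfl fun i _ => ?_
    rw [map_mul, mul_comm]
    rfl
  have : Fact (Nat.Prime 3) := ⟨Nat.prime_three⟩
  have hz := Matrix.eq_zero_of_mulVec_eq_zero hdet2 hmul
  have hdvd : ∀ i, la ∣ b.repr x i := fun i => (c7b_red_iff _).1 (congrFun hz i)
  choose c hc using hdvd
  refine ⟨∑ i, c i • b i, ?_⟩
  conv_lhs => rw [← b.sum_repr x]
  rw [Finset.mul_sum]
  refine Finset.sum_congr rfl fun i _ => ?_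
  rw [hc i, mul_smul, hsm]

theorem index_factor3 (hrank : Module.finrank ℚ F = 2 * (r + 1)) (hun : Unr3 F r) (m : 𝓞 F)
    (hm0 : m ≠ 0) (Q : Ideal (𝓞 F)) (hQ0 : Q ≠ ⊥) : ∃ q₂ : ℕ, ¬ 3 ∣ q₂ ∧
    (UM F ((Ideal.span {m} ⊓ Q) ⊓ Ideal.span {eF F hw la})).relIndex (UM F (Ideal.span {m}))
      = Nat.card (HH F m Q) * q₂ := by
  have hm1 : (Ideal.span {m} : Ideal (𝓞 F)) ≠ ⊥ := by
    rwa [Ne, Ideal.span_singleton_eq_bot]
  have h2 : (Ideal.span {eF F hw la} : Ideal (𝓞 F)) ≠ ⊥ := by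
    rw [Ne, Ideal.span_singleton_eq_bot]
    exact c7b_la_ne F hw
  have hinf : ∀ I J : Ideal (𝓞 F), I ≠ ⊥ → J ≠ ⊥ → I ⊓ J ≠ ⊥ := by
    intro I J hI hJ h
    have h3 : I * J ≤ I ⊓ J := Ideal.mul_le_inf
    rw [h, le_bot_iff, Ideal.mul_eq_bot] at h3
    rcases h3 with h3 | h3
    · exact hI h3
    · exact hJ h3
  set 𝔫 := (Ideal.span {m} ⊓ Q) ⊓ Ideal.span {eF F hw la} with h𝔫
  have h𝔫0 : 𝔫 ≠ ⊥ := hinf _ _ (hinf _ _ hm1 hQ0) h2
  have hle1 : UM F 𝔫 ≤ UM F (Ideal.span {m} ⊓ Q) := by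
    rw [h𝔫, h1b_inf]
    exact inf_le_left
  have hle2 : UM F (Ideal.span {m} ⊓ Q) ≤ UM F (Ideal.span {m}) := by
    rw [h1b_inf]
    exact inf_le_left
  refine ⟨(UM F 𝔫).relIndex (UM F (Ideal.span {m} ⊓ Q)), ?_, ?_⟩
  · intro hev
    set K := UM F (Ideal.span {m} ⊓ Q) with hK
    set N := (UM F 𝔫).subgroupOf K with hN
    have hidx : (UM F 𝔫).relIndex K = Nat.card (K ⧸ N) := rfl
    have hfin : Finite (K ⧸ N) := by
      apply Nat.finite_of_card_ne_zero
      rw [← hidx]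
      exact h1b_relIndex_ne F 𝔫 h𝔫0 K
    have hdvd : 3 ∣ Nat.card (K ⧸ N) := by
      rw [← hidx]
      exact hev
    have : Fact (Nat.Prime 3) := ⟨Nat.prime_three⟩
    obtain ⟨g, hg⟩ := exists_prime_orderOf_dvd_card' 3 hdvd
    obtain ⟨u, rfl⟩ := QuotientGroup.mk_surjective g
    have hg2 : ((u ^ 3 : K) : K ⧸ N) = 1 := by
      have := pow_orderOf_eq_one (u : K ⧸ N)
      rw [hg] at this
      exact this
    rw [QuotientGroup.eq_one_iff] at hg2
    have h3 : ((u : (𝓞 F)ˣ) ^ 3 : (𝓞 F)ˣ) ∈ UM F 𝔫 := by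
      have := Subgroup.mem_subgroupOf.1 hg2
      simpa using this
    have h4 : (((u : (𝓞 F)ˣ) ^ 3 : (𝓞 F)ˣ) : 𝓞 F) - 1 ∈ 𝔫 := h3
    have h5 : eF F hw la ∣ (((u : (𝓞 F)ˣ) : 𝓞 F) - 1) ^ 3 := by
      have h6 : (((u : (𝓞 F)ˣ) ^ 3 : (𝓞 F)ˣ) : 𝓞 F) - 1 ∈ Ideal.span {eF F hw la} :=
        (Submodule.mem_inf.1 h4).2
      rw [Ideal.mem_span_singleton] at h6
      have e1 : (((u : (𝓞 F)ˣ) : 𝓞 F) - 1) ^ 3 = ((((u : (𝓞 F)ˣ) ^ 3 : (𝓞 F)ˣ) : 𝓞 F) - 1) -
          3 * (((u : (𝓞 F)ˣ) : 𝓞 F) * (((u : (𝓞 F)ˣ) : 𝓞 F) - 1)) := by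
        push_cast
        ring
      rw [e1]
      exact dvd_sub h6 (Dvd.dvd.mul_right (c7b_la_three F hw) _)
    have h7 := radical_la F hw hrank hun _ h5
    have h8 : (u : (𝓞 F)ˣ) ∈ UM F 𝔫 := by
      show ((u : (𝓞 F)ˣ) : 𝓞 F) - 1 ∈ 𝔫
      exact Submodule.mem_inf.2 ⟨u.2, Ideal.mem_span_singleton.2 h7⟩
    have h9 : (u : K ⧸ N) = 1 := by
      rw [QuotientGroup.eq_one_iff]
      exact Subgroup.mem_subgroupOf.2 h8
    rw [h9, orderOf_one] at hg
    norm_num at hg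
  · have h3 : (UM F (Ideal.span {m} ⊓ Q)).relIndex (UM F (Ideal.span {m})) =
        Nat.card (HH F m Q) := by
      rw [h1b_inf, inf_comm, Subgroup.inf_relIndex_right, ← h1b_ker F Q, Subgroup.relIndex_ker]
      rfl
    rw [← Subgroup.relIndex_mul_relIndex _ _ _ hle1 hle2, h3, mul_comm]

end TH
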