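import Pool.Agent.MP_9ab903_nt.TH.C7a
import Pool.Agent.MP_9ab903_nt.TH.C7b
import Pool.Agent.MP_9ab903_nt.TH.C3a

/-!
# [NG3-C7a], [NG3-C7b], [NG3-C7] unit groups and the discriminant at `λ`

* `torsion_eq_one7`: a root of unity `ζ ≡ 1 mod π` of `F` is `1`, if no prime of `F` above `π` is ramified over `ℚ(ω)`... not needed in this form:
  we use the modulus `m` with `π ∣ m`. PROOF without ramification: suppose `ζ ≠ 1`; replacing `ζ` by a power we may assume that `ζ` has prime order `ℓ`;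
  `∏_{0<i<ℓ} (1 - ζ^i) = ℓ` and each factor is divisible by `π`, so `π^(ℓ-1) ∣ ℓ` in `𝓞 F`, norms to `ℤ[ω]`.. : `π ∣ ℓ` in `ℤ[ω]` (`ℓ` rational,
  `𝓞 F ∩ ℚ(ω) = ℤ[ω]`), so `ℓ = 7` and `π^6 ∣ 7 = π · star π`, `π^5 ∣ star π` in `𝓞 F`, hence in `ℤ[ω]` (an element of `ℚ(ω)` integral over `ℤ`):
  impossible (`π ∤ star π`).
* `exists_basis7`: as `exists_basis` (NG/H1a) with `h1a_basis`, `h1a_rank`, `h1a_fin`, `h1a_ne`, `h1a_flip`, `h1a_zero`; torsion freeness from
  `torsion_eq_one7`, norms `1` from `s_unit7` (TH/C1).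
* `radical_la`: `Unr3`: `del_disc`: `|discr F| = 3^(r+1) ‖δ‖⁴`, `δ² = emb a`, so `3 ∤ norm a`, `λ ∤ a`. Let `λ ∣ x³` in `𝓞 F`. For every `y` the element `z = x y`
  satisfies `λ ∣ z³`; its trace to `ℤ[ω]`, `t z = trace (matrix of z in the basis θ)`, satisfies `t (z³) ≡ (t z)³ mod λ` (matrices over the field
  `ℤ[ω]/λ = 𝔽₃`, `ω ↦ 1`: `ZMod.trace_pow_card` / `FiniteField.trace_pow_card`), so `λ ∣ t (x y)` for all `y`; with `x = ∑ x_i θ_i` and the Gram matrix
  `t (θ_i θ_j) = Θᵀ Θ`, determinant `δ² = emb a` prime to `λ`: all `x_i` are divisible by `λ`. (Or: `𝓞 F / λ` is reduced by the theory of the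
  different/discriminant of Mathlib, whatever is easier.)
* `index_factor3`: as `index_factor` (NG/H1b): the quotient `UM (m ⊓ Q) / UM (m ⊓ Q ⊓ (λ))` has no element of order `3`: `u³ ≡ 1 mod λ` gives
  `(u - 1)³ = (u³ - 1) - 3u(u-1)·.. ∈ (λ)`, so `u ≡ 1 mod λ` by `radical_la`.
* `del_val3`: `|discr F| = 3^(r+1) ‖δ‖⁴`, `δ² = emb a`: `norm a = k` up to sign, `3 ∤ norm a`, so `A.valuation (δ²) = 1` (`a` divides `norm a`).
* `unr_unram`: `Unr3 F r` from '`F/ℚ(ω)` is unramified at `λ`': different/discriminant tower formula (Mathlib: `absNorm_differentIdeal`,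
  `differentIdeal_eq_differentIdeal_mul_differentIdeal`, `not_dvd_differentIdeal_iff`, ..; compare how `¬ 2 ∣ discr` is obtained in `CF`, `NGX`, `TWQ`).
-/

set_option autoImplicit false

open NumberField IsDedekindDomain MeasureTheory Set
open CM27 CMT CF NAB NG
open scoped ComplexConjugate Classical Matrix

namespace TH

variable {r : ℕ} (F : IntermediateField ℚ ℂ) [NumberField F] (hw : w ∈ F)

theorem del_val3 (s : Fin (r + 1) → F →+* ℂ) (hs : IsS F hw s) (hun : Unr3 F r) (δ : ℂ)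
    (hδ : IsDel F hw s δ) (A : ValuationSubring ℂ) (hA : A.valuation 3 < 1) :
    A.valuation δ = 1 := by
  obtain ⟨h1, a, ha⟩ := del_disc F hw s hs δ hδ
  obtain ⟨k, hk, hk3⟩ := hun
  have h2 : |k| = a.norm := by
    have h3 : ‖δ‖ ^ 4 = (a.norm : ℝ) := by
      rw [← norm_emb_sq, ha, norm_pow]
      ring
    rw [h3, hk] at h1
    push_cast at h1
    rw [abs_mul, abs_of_pos (by positivity : (0 : ℝ) < 3 ^ (r + 1))] at h1
    have h4 := mul_left_cancel₀ (by positivity : (3 : ℝ) ^ (r + 1) ≠ 0) h1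
    exact_mod_cast h4
  have h3 : ¬ la ∣ a := by
    intro h4
    apply hk3
    rw [← dvd_abs, h2]
    exact (la_dvd_iff a).1 h4
  have h5 := val_not_la A hA a h3
  rw [ha, map_pow] at h5
  rcases pow_eq_one_iff.1 h5 with h6 | h6
  · exact h6
  · norm_num at h6

end TH
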