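import Pool.Agent.MP_9ab903_nt.TH.C11
import Pool.Agent.MP_9ab903_nt.TH.C7
import Pool.Agent.MP_9ab903_nt.NG.H6b

/-!
# [NG3-C12a], [NG3-C12] the `L`-series: entire, value at `s = 1`, Galois action (port of `NG/H6b.lean`)

`T b u = q⁻¹ emb (ps b) (∑_a VV3 (v a) u) (emb (ep u) ^ (r+1))⁻¹ / det L_b`.
For `I ∈ Cl m b u`: `χ(I) χ(b) = χ((u))`, so `χ(I) = χ((u)) χ(b)²` (`χ(b)³ = 1`): `h6b_chi3`, `h6b_hasSum3` have `χ b ^ 2` in place of `χ b`.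
(`h6b_ident`, `h6b_mult`, `h6b_dvd`, `h6b_cop`, `h6b_cpow` are general.) `G`, `S` functions: `(conj (emb (ps b)))⁻¹ (absNorm b)^s (emb (ep u)^(r+1))⁻¹ (q⁻¹ AA3 ..)`;
at `s = 1`: `absNorm b / conj (emb (ps b)) = emb (ps b)` (`ps_mul_conj`) and `VV3 = AA3 1 · det L / Omp^(r+1)`.
Integrality: `AA3_orbit`, `sum_val` (NG/H1b), `index_factor3`, `rep_card`, `VV3_val`, `LD3.val`. Galois: `VV3_gal`, `LD3.gal`.
Main theorem: `C` from `ray_classes` (NAB/B1) with representatives prime to `6 m` (as in NG), `N = 7 N0 ∏_{b ∈ C} absNorm (m b)` for the coordinates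
(prime to `6`), `(Q, c)` from `Smooth3` with a large bound: `c ∤ 6N`, `Q` prime to `m`, `6`, `b`. The final `N` (called `Nf` here) is the product of `N` and all the
`N₂`: not divisible by `3` (it may be even), divisible by `7`, by `N0` and with `m ∣ Nf`.
-/

set_option autoImplicit false
set_option linter.unusedSectionVars false

open NumberField IsDedekindDomain MeasureTheory Set
open CM27 CMT CF NAB NG
open scoped ComplexConjugate Classical Matrix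

namespace TH

/-- the values of the character -/
theorem h6b_chi3 (F : IntermediateField ℚ ℂ) [NumberField F]
    (m : 𝓞 F) (hm1 : ¬ IsUnit m) (χ : Ideal (𝓞 F) → ℂ) (hχ : IsRC3 F m χ) (u : 𝓞 F)
    (hu : IsCoprime u m) (c : Ideal (𝓞 F)) (hc : c ≠ 0) (hcm : IsCoprime c (Ideal.span {m}))
    (I : Ideal (𝓞 F)) (hI : I ∈ Cl F m c u) : χ I = χ (Ideal.span {u}) * χ c ^ 2 := by
  obtain ⟨hI0, g, hg0, hgu, hIc⟩ := hI
  obtain ⟨u', a, hu'⟩ := hu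
  have hne : ∀ z : 𝓞 F, m ∣ z - 1 → z ≠ 0 := by
    rintro z hz rfl
    apply hm1
    rw [zero_sub, dvd_neg] at hz
    exact isUnit_of_dvd_one hz
  have h1 : m ∣ u * u' - 1 := ⟨-a, by linear_combination hu'⟩
  have h2 : m ∣ g * u' - 1 := by
    have e : g * u' - 1 = (g - u) * u' + (u * u' - 1) := by ring
    rw [e]
    exact dvd_add (hgu.mul_right _) h1
  have h3 := hχ.one _ (hne _ h1) h1
  have h4 := hχ.one _ (hne _ h2) h2
  rw [← Ideal.span_singleton_mul_span_singleton, hχ.mul] at h3 h4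
  have h5 : χ (Ideal.span {u'}) ≠ 0 := by
    intro h
    rw [h, mul_zero] at h3
    exact zero_ne_one h3
  have h6 : χ (Ideal.span {g}) = χ (Ideal.span {u}) := mul_right_cancel₀ h5 (h4.trans h3.symm)
  rw [← hIc, hχ.mul] at h6
  have h7 : χ c ^ 3 = 1 := hχ.cub c hc hcm
  calc χ I = χ I * χ c ^ 3 := by rw [h7, mul_one]
    _ = (χ I * χ c) * χ c ^ 2 := by ring
    _ = _ := by rw [h6]

theorem h6b_hasSum3 (F : IntermediateField ℚ ℂ) [NumberField F]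
    (m : 𝓞 F) (hm1 : ¬ IsUnit m) (χ : Ideal (𝓞 F) → ℂ) (hχ : IsRC3 F m χ)
    (C : Finset (Ideal (𝓞 F))) (hC : ∀ c ∈ C, c ≠ 0 ∧ IsCoprime c (Ideal.span {m}))
    (u : 𝓞 F) (hu : IsCoprime u m)
    (hray : ∀ I : Ideal (𝓞 F), I ≠ 0 → IsCoprime I (Ideal.span {m}) →
      ∃! c : Ideal (𝓞 F), c ∈ C ∧ ∃ g : 𝓞 F, g ≠ 0 ∧ m ∣ g - u ∧ I * c = Ideal.span {g})
    (f : Ideal (𝓞 F) → ℂ) (hf0 : f 0 = 0) (G : Ideal (𝓞 F) → ℂ)
    (hG : ∀ c ∈ C, HasSum (fun I : Cl F m c u => f I) (G c)) :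
    HasSum (fun I : Ideal (𝓞 F) => χ I * f I)
      (χ (Ideal.span {u}) * ∑ c ∈ C, χ c ^ 2 * G c) := by
  have h1 : ∀ c ∈ C, HasSum ((Cl F m c u).indicator fun I : Ideal (𝓞 F) => χ I * f I)
      (χ (Ideal.span {u}) * (χ c ^ 2 * G c)) := by
    intro c hc
    rw [← hasSum_subtype_iff_indicator]
    have h2 := (hG c hc).mul_left (χ (Ideal.span {u}) * χ c ^ 2)
    rw [mul_assoc] at h2
    refine h2.congr_fun ?_
    intro I
    have h3 := h6b_chi3 F m hm1 χ hχ u hu c (hC c hc).1 (hC c hc).2 I I.2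
    change χ (I : Ideal (𝓞 F)) * f I = _
    rw [h3]
  have h2 := hasSum_sum h1
  rw [← Finset.mul_sum] at h2
  refine h2.congr_fun ?_
  intro I
  by_cases hI : I ≠ 0 ∧ IsCoprime I (Ideal.span {m})
  · obtain ⟨c, ⟨hcC, hcI⟩, huniq⟩ := hray I hI.1 hI.2
    rw [Finset.sum_eq_single c]
    · rw [Set.indicator_of_mem]
      exact ⟨hI.1, hcI⟩
    · intro c' hc' hne
      rw [Set.indicator_of_notMem]
      intro h3
      exact hne (huniq c' ⟨hc', h3.2⟩)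
    · intro h3
      exact absurd hcC h3
  · have h3 : χ I * f I = 0 := by
      by_cases hI0 : I = 0
      · rw [hI0, hf0, mul_zero]
      · rw [hχ.zero I (fun h => hI ⟨hI0, h⟩), zero_mul]
    rw [h3, Finset.sum_eq_zero]
    intro c _
    rw [Set.indicator_apply]
    split_ifs
    · exact h3
    · rfl

/-! ### one ideal class -/

variable {r : ℕ} {F : IntermediateField ℚ ℂ} [NumberField F] {hw : w ∈ F}
variable (H : HD3 F hw r) {b : Ideal (𝓞 F)} {N : ℕ} (D : LD3 F hw H.s H.m H.e b N H.δ)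

theorem h6b_VV3 (v : Fin (r + 1) → ℂ) (u : Eis) :
    VV3 H D v u = AA3 H D v u 1 * D.L.det / Omp ^ (r + 1) := by
  unfold VV3 AA3
  have h6 : (Real.pi : ℂ) ^ ((r + 1 : ℂ) * 1) = (Real.pi : ℂ) ^ (r + 1) := by
    rw [← Complex.cpow_natCast]
    congr 1
    push_cast
    ring
  rw [h6, Complex.Gamma_one, one_pow, inv_one, sub_self]
  ring

variable [Fintype (𝓞 F ⧸ H.Q)ˣ] (v : (𝓞 F ⧸ H.Q)ˣ → Fin (r + 1) → ℂ)

/-- the numbers `T b u` -/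
noncomputable def Tc3 (u : Eis) : ℂ :=
  (H.q : ℂ)⁻¹ * emb (Ps (eF F hw) b) * ((∑ a, VV3 H D (v a) u) * (emb (ep u) ^ (r + 1))⁻¹) / D.L.det

/-- the entire functions, unsmoothed -/
noncomputable def G3 (u : Eis) (s : ℂ) : ℂ :=
  (conj (emb (Ps (eF F hw) b)))⁻¹ * (Ideal.absNorm b : ℂ) ^ s *
    ((emb (ep u) ^ (r + 1))⁻¹ * ((H.q : ℂ)⁻¹ * AA3 H D 0 u s))

/-- the entire functions, smoothed -/
noncomputable def S3 (u : Eis) (s : ℂ) : ℂ :=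
  (conj (emb (Ps (eF F hw) b)))⁻¹ * (Ideal.absNorm b : ℂ) ^ s *
    ((emb (ep u) ^ (r + 1))⁻¹ * ((H.q : ℂ)⁻¹ * ∑ a, AA3 H D (v a) u s))

theorem c12a_ep (u : Eis) : emb (ep u) ^ (r + 1) ≠ 0 := by
  have h : IsUnit (emb (ep u) ^ (r + 1)) := ((ep_unit u).map emb).pow _
  exact h.ne_zero

theorem c12a_ep1 : (emb (ep 1) ^ (r + 1))⁻¹ = (1 : ℂ) := by
  rw [ep_of_Pr7 (show Pr7 1 by unfold Pr7; rw [sub_self]; exact dvd_zero _), map_one, one_pow,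
    inv_one]

theorem c12a_norm_diff (hb0 : b ≠ 0) :
    Differentiable ℂ (fun s : ℂ => (Ideal.absNorm b : ℂ) ^ s) := by
  apply Differentiable.const_cpow differentiable_id
  left
  rw [Nat.cast_ne_zero]
  intro h
  exact hb0 (Ideal.absNorm_eq_zero_iff.1 h)

theorem G3_diff (hb0 : b ≠ 0) (u : Eis) (hu : IsCoprime u (N : Eis)) :
    Differentiable ℂ (G3 H D u) := by
  have h1 := c12a_norm_diff (b := b) hb0
  exact (h1.const_mul _).mul (((AA3_entire H b N D 0 u hu).const_mul _).const_mul _)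

theorem S3_diff (hb0 : b ≠ 0) (u : Eis) (hu : IsCoprime u (N : Eis)) :
    Differentiable ℂ (S3 H D v u) := by
  have h1 := c12a_norm_diff (b := b) hb0
  have h2 : Differentiable ℂ (fun s : ℂ => ∑ a, AA3 H D (v a) u s) :=
    Differentiable.fun_sum fun a _ => AA3_entire H b N D (v a) u hu
  exact (h1.const_mul _).mul ((h2.const_mul _).const_mul _)

omit [Fintype (𝓞 F ⧸ H.Q)ˣ] in
theorem c12a_cop7 (hbm : IsCoprime b (Ideal.span {H.m})) :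
    IsCoprime b (Ideal.span {eF F hw p7}) := by
  refine hbm.of_isCoprime_of_dvd_right ?_
  rw [Ideal.dvd_span_singleton, Ideal.mem_span_singleton]
  exact H.h7

omit [Fintype (𝓞 F ⧸ H.Q)ˣ] in
theorem c12a_ne (hb0 : b ≠ 0) (hbm : IsCoprime b (Ideal.span {H.m})) :
    (Ideal.absNorm b : ℂ) ≠ 0 ∧ conj (emb (Ps (eF F hw) b)) ≠ 0 := by
  have h1 := ps_mul_conj F hw b hb0 (c12a_cop7 H hbm)
  have h2 : (Ideal.absNorm b : ℂ) ≠ 0 := by
    rw [Nat.cast_ne_zero]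
    intro h
    exact hb0 (Ideal.absNorm_eq_zero_iff.1 h)
  refine ⟨h2, fun h => ?_⟩
  rw [h, mul_zero] at h1
  exact h2 h1.symm

theorem S3_one (hb0 : b ≠ 0) (hbm : IsCoprime b (Ideal.span {H.m})) (u : Eis) :
    S3 H D v u 1 = Omp ^ (r + 1) * Tc3 H D v u := by
  have h1 := ps_mul_conj F hw b hb0 (c12a_cop7 H hbm)
  obtain ⟨h2, h3⟩ := c12a_ne H hb0 hbm
  have h4 := Omp_ne
  have h5 := D.hL
  have h6 := c12a_ep (r := r) u
  rw [S3, Tc3, Complex.cpow_one, ← h1]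
  simp only [h6b_VV3]
  rw [← Finset.sum_div, ← Finset.sum_mul]
  field_simp

theorem sumG3 (hb0 : b ≠ 0) (hbm : IsCoprime b (Ideal.span {H.m})) (u : Eis)
    (hu : IsCoprime (eF F hw u) H.m) (s : ℂ) (hs : 3 / 2 < s.re) :
    HasSum (fun I : Cl F H.m b (eF F hw u) =>
      conj (emb (Ps (eF F hw) (I : Ideal (𝓞 F)))) * (Ideal.absNorm (I : Ideal (𝓞 F)) : ℂ) ^ (-s))
      (G3 H D u s) := by
  obtain ⟨h2, h3⟩ := c12a_ne H hb0 hbm
  have h6 := c12a_ep (r := r) u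
  have h := ((unsmooth3 H b hb0 hbm N D u hu s hs).mul_left (emb (ep u) ^ (r + 1))⁻¹).mul_left
    ((conj (emb (Ps (eF F hw) b)))⁻¹ * (Ideal.absNorm b : ℂ) ^ s)
  refine h.congr_fun ?_
  intro I
  rw [map_mul, ← h6b_cpow (Ideal.absNorm (I : Ideal (𝓞 F))) (Ideal.absNorm b) h2 s]
  field_simp

theorem sumS3 (ψ : AddChar (𝓞 F ⧸ H.Q) ℂ) (hψ : ψ ≠ 1)
    (hb0 : b ≠ 0) (hbm : IsCoprime b (Ideal.span {H.m})) (hbQ : IsCoprime b H.Q)
    (hv : ∀ a (g : 𝓞 F) (y : Fin (r + 1) → ℂ), (∀ j, H.s j (g : F) = D.L j ⬝ᵥ y) →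
      ch (v a) y = ψ ((a : 𝓞 F ⧸ H.Q) * Ideal.Quotient.mk H.Q g)) (u : Eis)
    (hu : IsCoprime (eF F hw u) H.m) (s : ℂ) (hs : 3 / 2 < s.re) :
    HasSum (fun I : Cl F H.m b (eF F hw u) =>
      ((Ideal.absNorm H.Q : ℂ) * (if H.Q ∣ (I : Ideal (𝓞 F)) then 1 else 0) - 1) *
      (conj (emb (Ps (eF F hw) (I : Ideal (𝓞 F)))) * (Ideal.absNorm (I : Ideal (𝓞 F)) : ℂ) ^ (-s)))
      (S3 H D v u s) := by
  obtain ⟨h2, h3⟩ := c12a_ne H hb0 hbm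
  have h6 := c12a_ep (r := r) u
  have h := ((smooth3 H ψ hψ b hb0 hbm hbQ N D v hv u hu s hs).mul_left
    (emb (ep u) ^ (r + 1))⁻¹).mul_left
    ((conj (emb (Ps (eF F hw) b)))⁻¹ * (Ideal.absNorm b : ℂ) ^ s)
  refine h.congr_fun ?_
  intro I
  rw [map_mul, ← h6b_cpow (Ideal.absNorm (I : Ideal (𝓞 F))) (Ideal.absNorm b) h2 s]
  field_simp

theorem T3_val (hun : Unr3 F r)
    (ψ : AddChar (𝓞 F ⧸ H.Q) ℂ) (hψ : ψ ≠ 1)
    (hb0 : b ≠ 0) (hbm : IsCoprime b (Ideal.span {H.m})) (hbQ : IsCoprime b H.Q)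
    (hN : Nat.Coprime N 6) (hcN : ¬ H.c ∣ 6 * (N : Eis))
    (hcbig : ((2 * (r + 1)) ^ (4 * (r + 1)) : ℕ) < H.c.norm.natAbs)
    (hvW : ∀ a, ∃ W : Fin (r + 1) → Eis, v a = wc H.c W)
    (hv : ∀ a (g : 𝓞 F) (y : Fin (r + 1) → ℂ), (∀ j, H.s j (g : F) = D.L j ⬝ᵥ y) →
      ch (v a) y = ψ ((a : 𝓞 F ⧸ H.Q) * Ideal.Quotient.mk H.Q g))
    (A : ValuationSubring ℂ) (hA : A.valuation 3 < 1) : A.valuation (Tc3 H D v 1) ≤ 1 := by
  have hm𝔫 : ((Ideal.span {H.m} ⊓ H.Q) ⊓ Ideal.span {eF F hw la}) ≤ Ideal.span {H.m} :=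
    inf_le_left.trans inf_le_left
  have hla : eF F hw la ≠ 0 := by
    intro h
    have h1 := congrArg (fun z : 𝓞 F => ((z : F) : ℂ)) h
    simp only [eF_apply] at h1
    have h2 : emb la = 0 := by
      rw [h1]
      simp
    have h3 := (val_la A hA).2
    rw [h2, map_zero, zero_pow two_ne_zero] at h3
    exact three_ne_zero ((Valuation.zero_iff _).1 h3.symm)
  have h0 : ((Ideal.span {H.m} ⊓ H.Q) ⊓ Ideal.span {eF F hw la}) ≠ ⊥ := by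
    have h1 : Ideal.span {H.m} ≠ ⊥ := by
      rw [Ne, Ideal.span_singleton_eq_bot]; exact H.hm0
    have h2 : Ideal.span {eF F hw la} ≠ ⊥ := by
      rw [Ne, Ideal.span_singleton_eq_bot]; exact hla
    intro hbot
    have h3 : (Ideal.span {H.m} * H.Q) * Ideal.span {eF F hw la} ≤ ⊥ := by
      rw [← hbot]
      exact (Ideal.mul_le_inf).trans (inf_le_inf_right _ Ideal.mul_le_inf)
    exact mul_ne_zero (mul_ne_zero h1 H.hQ0) h2 (le_bot_iff.1 h3)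
  obtain ⟨q₂, hq₂, hidx⟩ := index_factor3 F hw H.hs.rank hun H.m H.hm0 H.Q H.hQ0
  have hq := rep_card F H.s H.m H.hm0 _ h0 hm𝔫 H.e H.he H.q H.η H.hη
  rw [hidx] at hq
  have hu1 : IsCoprime (eF F hw 1) H.m := by rw [map_one]; exact isCoprime_one_left
  have hsum := sum_val (HH F H.m H.Q) (fun a => VV3 H D (v a) 1) (fun g h hh => by
      simp only [h6b_VV3]
      rw [AA3_orbit H ψ hψ b hb0 hbm N D v hv 1 hu1 isCoprime_one_left g h hh]) A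
    (fun a => VV3_val H ψ hψ b hb0 hbm hbQ N hN hcN hcbig D v hvW hv A hA a)
  have e : Tc3 H D v 1 = (q₂ : ℂ)⁻¹ * emb (Ps (eF F hw) b) *
      ((Nat.card (HH F H.m H.Q) : ℂ)⁻¹ * ∑ a, VV3 H D (v a) 1) / D.L.det := by
    rw [Tc3, hq, c12a_ep1]
    push_cast
    rw [mul_inv]
    ring
  rw [e, map_div₀, D.val A hA, div_one, map_mul, map_mul, map_inv₀, val_nat3 A hA q₂ hq₂, inv_one,
    one_mul]
  exact mul_le_one₀ (val_emb A _) zero_le hsum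

theorem T3_gal
    (ψ : AddChar (𝓞 F ⧸ H.Q) ℂ) (hψ : ψ ≠ 1)
    (hb0 : b ≠ 0) (hbm : IsCoprime b (Ideal.span {H.m})) (hbQ : IsCoprime b H.Q)
    (hN : Nat.Coprime N 6) (hcN : ¬ H.c ∣ 6 * (N : Eis))
    (hcbig : ((2 * (r + 1)) ^ (4 * (r + 1)) : ℕ) < H.c.norm.natAbs)
    (hvW : ∀ a, ∃ W : Fin (r + 1) → Eis, v a = wc H.c W)
    (hv : ∀ a (g : 𝓞 F) (y : Fin (r + 1) → ℂ), (∀ j, H.s j (g : F) = D.L j ⬝ᵥ y) →
      ch (v a) y = ψ ((a : 𝓞 F ⧸ H.Q) * Ideal.Quotient.mk H.Q g)) :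
    ∃ N₂ : ℕ, ¬ 3 ∣ N₂ ∧ 7 ∣ N₂ ∧ ∀ N' : ℕ, N₂ ∣ N' → ¬ 3 ∣ N' →
    ∀ σ : ℂ ≃+* ℂ, σ CM27.w = CM27.w → ∀ u : Eis, IsCoprime u (N' : Eis) →
    (∀ c : Eis, ptMap (σ : ℂ →+* ℂ) (pt (emb c / N')) = pt (emb (c * u) / N')) →
      σ (Tc3 H D v 1) * σ H.δ = Tc3 H D v u * H.δ := by
  obtain ⟨N₂, hN₂, h7, hgal⟩ := VV3_gal H ψ hψ b hb0 hbm hbQ N hN hcN hcbig D v hvW hv
  refine ⟨N₂, hN₂, h7, fun N' hd hN' σ hσ u hu hσu => ?_⟩
  have h1 := hgal N' hd hN' σ hσ u hu hσu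
  have h2 := D.gal σ hσ
  have h3 : σ D.L.det ≠ 0 := by
    rw [Ne, map_eq_zero_iff σ σ.injective]
    exact D.hL
  have h6 := c12a_ep (r := r) u
  have hemb : σ (emb (Ps (eF F hw) b)) = emb (Ps (eF F hw) b) := by
    rw [emb_apply, map_add, map_mul, map_intCast, map_intCast, hσ]
  have h8 : (∑ a, VV3 H D (v a) u) * (emb (ep u) ^ (r + 1))⁻¹ = σ (∑ a, VV3 H D (v a) 1) := by
    rw [← h1, mul_inv_cancel_right₀ h6]
  rw [Tc3, Tc3, c12a_ep1, mul_one, h8, map_div₀, map_mul, map_mul, map_inv₀, map_natCast, hemb]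
  rw [div_mul_eq_mul_div, div_mul_eq_mul_div, div_eq_div_iff h3 D.hL]
  linear_combination (-((H.q : ℂ)⁻¹ * emb (Ps (eF F hw) b) * σ (∑ a, VV3 H D (v a) 1))) * h2

end TH
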