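import Pool.Agent.MP_9ab903_nt.TH.C12

/-!
# [NG3-C13] the congruence modulo `λ` (port of `NG/H7.lean`)

`L3_unique`: as `h7_unique`. `value_unit3`: `hecke_final3` for the modulus `m`; `κ = conj (emb (ps Q))`, `y_χ = (χ(Q) κ - 1) Φ_χ(1)/Omp^n = ∑_b χ(b)² T b 1` (`u = 1`,
`χ((1)) = 1`). For `A` with `A.valuation 3 < 1`: values of `χ` at ideals prime to `m` are cube roots of unity, `≡ 1` modulo the maximal ideal
(`(ζ - 1)³ ≡ ζ³ - 1 = 0 mod 3`), `κ` is `emb` of `star (ps Q)`, `¬ λ ∣ ps Q - 1` implies `¬ λ ∣ star (ps Q) - 1` (`star λ ~ λ`): `χ(Q) κ - 1` is a unit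
(`val_not_la`). `y_χ - y_χ' = ∑ (χ(b)² - χ'(b)²) T b 1` has valuation `< 1`. So `Φ_χ'(1)/Omp^n` unit ⇒ `y_χ'` unit ⇒ `y_χ` unit ⇒ `Φ_χ(1)/Omp^n` unit.
Galois: `σ` fixes `w`, so it fixes the values of `χ` and `κ`: `σ (y_χ) σ δ = ∑ χ(b)² T b u δ = χ((u))⁻¹ y_χ δ`, and `σ (y_χ) = (χ(Q) κ - 1) σ (Φ(1)/Omp^n)`
with the same factor; `Omp^n` is part of the quotient. `χ((u)) ≠ 0` as `u` is prime to `N` and `m ∣ N`.
-/

set_option autoImplicit false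

open NumberField IsDedekindDomain MeasureTheory Set
open CM27 CMT CF NAB NG
open scoped ComplexConjugate Classical Matrix

namespace TH

theorem L3_unique {F : IntermediateField ℚ ℂ} [NumberField F] {hw : w ∈ F} {χ : Ideal (𝓞 F) → ℂ}
    {Φ Φ' : ℂ → ℂ} (h : IsL3 F hw χ Φ) (h' : IsL3 F hw χ Φ') : Φ = Φ' := by
  have h1 : AnalyticOnNhd ℂ Φ Set.univ :=
    Complex.analyticOnNhd_univ_iff_differentiable.2 h.diff
  have h2 : AnalyticOnNhd ℂ Φ' Set.univ :=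
    Complex.analyticOnNhd_univ_iff_differentiable.2 h'.diff
  have hev : Φ =ᶠ[nhds 2] Φ' := by
    have hopen : IsOpen {s : ℂ | 3 / 2 < s.re} := isOpen_lt continuous_const Complex.continuous_re
    filter_upwards [hopen.mem_nhds (show (2 : ℂ) ∈ {s : ℂ | 3 / 2 < s.re} by
      change (3 / 2 : ℝ) < (2 : ℂ).re
      norm_num)] with s hs
    exact (h.sum s hs).unique (h'.sum s hs)
  exact h1.eq_of_eventuallyEq h2 hev

theorem c13_w2 : w ^ 2 + w + 1 = 0 := by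
  linear_combination w_sq

theorem c13_om : emb om = w := by simp [emb_apply, om]

/-- a cube root of unity in `ℂ` is `emb k` with `k ≡ 1 mod λ` -/
theorem c13_root (z : ℂ) (hz : z ^ 3 = 1) : ∃ k : Eis, z = emb k ∧ la ∣ k - 1 := by
  have hw2 := c13_w2
  have hom := c13_om
  have h1 : (z - 1) * ((z - w) * (z + 1 + w)) = 0 := by
    linear_combination hz - (z - 1) * hw2
  rcases mul_eq_zero.1 h1 with h | h
  · refine ⟨1, ?_, ?_⟩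
    · rw [map_one]; linear_combination h
    · rw [sub_self]; exact dvd_zero _
  · rcases mul_eq_zero.1 h with h | h
    · refine ⟨om, ?_, -1, by decide⟩
      rw [hom]; linear_combination h
    · refine ⟨om ^ 2, ?_, -(1 + om), by decide⟩
      rw [map_pow, hom]; linear_combination h - hw2

/-- cube roots of unity are fixed by the automorphisms fixing `w` -/
theorem c13_fix (σ : ℂ ≃+* ℂ) (hσ : σ w = w) (a : Eis) : σ (emb a) = emb a := by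
  rw [emb_apply, map_add, map_mul, map_intCast, map_intCast, hσ]

/-- cube roots of unity are `1` modulo the maximal ideal -/
theorem c13_val (A : ValuationSubring ℂ) (hA : A.valuation 3 < 1) (z : ℂ) (hz : z ^ 3 = 1) :
    A.valuation z = 1 ∧ A.valuation (z - 1) < 1 := by
  have h1 : A.valuation z = 1 := by
    have h2 := congrArg A.valuation hz
    rw [map_pow, map_one] at h2
    exact (pow_eq_one_iff.1 h2).resolve_right (by norm_num)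
  refine ⟨h1, ?_⟩
  by_cases h0 : z = 1
  · rw [h0, sub_self, _root_.map_zero]; exact zero_lt_one
  · have h2 : (z - 1) ^ 2 = -(3 * z) := by
      have h3 : z - 1 ≠ 0 := sub_ne_zero.2 h0
      apply mul_left_cancel₀ h3
      linear_combination hz
    have h3 := congrArg A.valuation h2
    rw [map_pow, Valuation.map_neg, map_mul, h1, mul_one] at h3
    by_contra h4
    rw [not_lt] at h4
    have h5 : (1 : A.ValueGroup) ≤ A.valuation (z - 1) ^ 2 := one_le_pow₀ h4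
    rw [h3] at h5
    exact absurd hA (not_lt.2 h5)

/-- `z conj x - 1` is `emb` of an element not divisible by `λ` -/
theorem c13_emb (x : Eis) (hx : ¬ la ∣ x - 1) (z : ℂ) (hz : z ^ 3 = 1) :
    ∃ y : Eis, ¬ la ∣ y ∧ z * conj (emb x) - 1 = emb y := by
  obtain ⟨k, rfl, ⟨c, hc⟩⟩ := c13_root z hz
  refine ⟨k * star x - 1, ?_, ?_⟩
  · intro ⟨d, hd⟩
    apply hx
    rw [← la_dvd_star, star_sub, star_one]
    exact ⟨d - c * star x, by linear_combination hd - star x * hc⟩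
  · rw [map_sub, map_mul, map_one, CM27.emb_star]

theorem c13_unit (x : Eis) (hx : ¬ la ∣ x - 1) (z : ℂ) (hz : z ^ 3 = 1)
    (A : ValuationSubring ℂ) (hA : A.valuation 3 < 1) :
    A.valuation (z * conj (emb x) - 1) = 1 := by
  obtain ⟨y, hy, h⟩ := c13_emb x hx z hz
  rw [h]
  exact val_not_la A hA y hy

theorem c13_ne (x : Eis) (hx : ¬ la ∣ x - 1) (z : ℂ) (hz : z ^ 3 = 1) :
    z * conj (emb x) - 1 ≠ 0 := by
  obtain ⟨y, hy, h⟩ := c13_emb x hx z hz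
  rw [h]
  intro h0
  apply hy
  have h1 : y = 0 := by
    apply emb_injective
    rw [h0, map_zero]
  rw [h1]; exact dvd_zero _

theorem c13_sigma (x : Eis) (hx : ¬ la ∣ x - 1) (z : ℂ) (hz : z ^ 3 = 1)
    (σ : ℂ ≃+* ℂ) (hσ : σ w = w) :
    σ (z * conj (emb x) - 1) = z * conj (emb x) - 1 := by
  obtain ⟨y, hy, h⟩ := c13_emb x hx z hz
  rw [h, c13_fix σ hσ]

theorem c13_zfix (z : ℂ) (hz : z ^ 3 = 1) (σ : ℂ ≃+* ℂ) (hσ : σ w = w) : σ z = z := by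
  obtain ⟨k, rfl, _⟩ := c13_root z hz
  exact c13_fix σ hσ k

theorem c13_one {F : IntermediateField ℚ ℂ} [NumberField F] {hw : w ∈ F} {m : 𝓞 F}
    {χ : Ideal (𝓞 F) → ℂ} (hχ : IsRC3 F m χ) : χ (Ideal.span {eF F hw 1}) = 1 := by
  rw [map_one]
  exact hχ.one 1 one_ne_zero (by rw [sub_self]; exact dvd_zero _)

/-- the Galois action, from the data of `hecke_final3` -/
theorem c13_gal {F : IntermediateField ℚ ℂ} [NumberField F] (hw : w ∈ F) {m : 𝓞 F} {r : ℕ}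
    {χ : Ideal (𝓞 F) → ℂ} (hχ : IsRC3 F m χ) {C : Finset (Ideal (𝓞 F))} {N : ℕ}
    {T : Ideal (𝓞 F) → Eis → ℂ} {δ : ℂ} {Q : Ideal (𝓞 F)}
    (hC : ∀ b ∈ C, b ≠ 0 ∧ IsCoprime b (Ideal.span {m}))
    (hQ0 : Q ≠ 0) (hQm : IsCoprime Q (Ideal.span {m})) (hQ2 : ¬ la ∣ Ps (eF F hw) Q - 1)
    (hTgal : ∀ σ : ℂ ≃+* ℂ, σ w = w → ∀ u : Eis, IsCoprime u (N : Eis) →
        (∀ c : Eis, ptMap (σ : ℂ →+* ℂ) (pt (emb c / N)) = pt (emb (c * u) / N)) →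
        ∀ b ∈ C, σ (T b 1) * σ δ = T b u * δ) {Φ : ℂ → ℂ}
    (hΦv : ∀ u : Eis, IsCoprime u (N : Eis) →
          (χ Q * conj (emb (Ps (eF F hw) Q)) - 1) * Φ 1
            = Omp ^ (r + 1) * χ (Ideal.span {eF F hw u}) * ∑ b ∈ C, χ b ^ 2 * T b u)
    (σ : ℂ ≃+* ℂ) (hσ : σ w = w) (u : Eis) (hu : IsCoprime u (N : Eis))
    (hpt : ∀ c : Eis, ptMap (σ : ℂ →+* ℂ) (pt (emb c / N)) = pt (emb (c * u) / N)) :
      χ (Ideal.span {eF F hw u}) * (σ (Φ 1 / Omp ^ (r + 1)) * σ δ)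
        = (Φ 1 / Omp ^ (r + 1)) * δ := by
  have hO : Omp ^ (r + 1) ≠ 0 := pow_ne_zero _ Omp_ne
  have e1 := hΦv 1 isCoprime_one_left
  rw [c13_one hχ, mul_one] at e1
  have hK0 := c13_ne _ hQ2 _ (hχ.cub Q hQ0 hQm)
  have hσK := c13_sigma _ hQ2 _ (hχ.cub Q hQ0 hQm) σ hσ
  set K : ℂ := χ Q * conj (emb (Ps (eF F hw) Q)) - 1 with hK
  have f1 : K * (Φ 1 / Omp ^ (r + 1)) = ∑ b ∈ C, χ b ^ 2 * T b 1 := by
    rw [← mul_div_assoc, e1, mul_div_cancel_left₀ _ hO]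
  have e3 := hΦv u hu
  have f3 : K * (Φ 1 / Omp ^ (r + 1)) =
      χ (Ideal.span {eF F hw u}) * ∑ b ∈ C, χ b ^ 2 * T b u := by
    rw [← mul_div_assoc, e3, mul_assoc, mul_div_cancel_left₀ _ hO]
  have f4 : K * σ (Φ 1 / Omp ^ (r + 1)) * σ δ = (∑ b ∈ C, χ b ^ 2 * T b u) * δ := by
    have h1 : K * σ (Φ 1 / Omp ^ (r + 1)) = ∑ b ∈ C, χ b ^ 2 * σ (T b 1) := by
      have h2 := congrArg σ f1
      rw [map_mul, hσK, map_sum] at h2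
      rw [h2]
      refine Finset.sum_congr rfl fun b hb => ?_
      obtain ⟨hb0, hbm⟩ := hC b hb
      rw [map_mul, map_pow, c13_zfix (χ b) (hχ.cub b hb0 hbm) σ hσ]
    rw [h1, Finset.sum_mul, Finset.sum_mul]
    refine Finset.sum_congr rfl fun b hb => ?_
    rw [mul_assoc, hTgal σ hσ u hu hpt b hb, mul_assoc]
  apply mul_left_cancel₀ hK0
  calc K * (χ (Ideal.span {eF F hw u}) * (σ (Φ 1 / Omp ^ (r + 1)) * σ δ))
      = χ (Ideal.span {eF F hw u}) * (K * σ (Φ 1 / Omp ^ (r + 1)) * σ δ) := by ring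
    _ = (χ (Ideal.span {eF F hw u}) * ∑ b ∈ C, χ b ^ 2 * T b u) * δ := by rw [f4]; ring
    _ = K * (Φ 1 / Omp ^ (r + 1) * δ) := by rw [← f3]; ring

variable {r : ℕ} (F : IntermediateField ℚ ℂ) [NumberField F] (hw : w ∈ F)

theorem value_unit3 (hrank : Module.finrank ℚ F = 2 * (r + 1))
    (hun : Unr3 F r) (hsm : Smooth3 F hw)
    (m : 𝓞 F) (hm0 : m ≠ 0) (h7 : eF F hw p7 ∣ m) (hm6 : IsCoprime m 6)
    (χ' : Ideal (𝓞 F) → ℂ) (hχ' : IsRC3 F m χ') (Φ' : ℂ → ℂ) (hΦ' : IsL3 F hw χ' Φ')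
    (hbase : ∀ A : ValuationSubring ℂ, A.valuation 3 < 1 → A.valuation (Φ' 1 / Omp ^ (r + 1)) = 1)
    (χ : Ideal (𝓞 F) → ℂ) (hχ : IsRC3 F m χ) (N0 : ℕ) (hN0 : Nat.Coprime N0 6) :
    ∃ (Φ : ℂ → ℂ) (N : ℕ) (δ : ℂ), IsL3 F hw χ Φ ∧
    (∀ A : ValuationSubring ℂ, A.valuation 3 < 1 → A.valuation (Φ 1 / Omp ^ (r + 1)) = 1) ∧
    ¬ 3 ∣ N ∧ 7 ∣ N ∧ N0 ∣ N ∧ m ∣ (N : 𝓞 F) ∧
    |(NumberField.discr F : ℝ)| = 3 ^ (r + 1) * ‖δ‖ ^ 4 ∧ δ ≠ 0 ∧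
    (∃ s : Fin (r + 1) → F →+* ℂ, IsS F hw s ∧ IsDel F hw s δ) ∧
    ∀ σ : ℂ ≃+* ℂ, σ w = w → ∀ u : Eis, IsCoprime u (N : Eis) →
      (∀ c : Eis, ptMap (σ : ℂ →+* ℂ) (pt (emb c / N)) = pt (emb (c * u) / N)) →
      χ (Ideal.span {eF F hw u}) * (σ (Φ 1 / Omp ^ (r + 1)) * σ δ)
        = (Φ 1 / Omp ^ (r + 1)) * δ := by
  obtain ⟨C, N, T, δ, Q, hN3, hN7, hNN0, hmN, hdis, hδ, hS, hC, hQ0, hQm, hQ2, hTint, hTgal,
    hall⟩ := hecke_final3 F hw hrank hun hsm m hm0 h7 hm6 N0 hN0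
  obtain ⟨Φ, hΦd, hΦs, hΦv⟩ := hall χ hχ
  obtain ⟨Φ₁, hΦ₁d, hΦ₁s, hΦ₁v⟩ := hall χ' hχ'
  have hΦ₁ : Φ₁ = Φ' := L3_unique ⟨hΦ₁d, hΦ₁s⟩ hΦ'
  subst hΦ₁
  have hO : Omp ^ (r + 1) ≠ 0 := pow_ne_zero _ Omp_ne
  have hc1 : IsCoprime (1 : Eis) (N : Eis) := isCoprime_one_left
  have e1 := hΦv 1 hc1
  have e2 := hΦ₁v 1 hc1
  rw [c13_one hχ, mul_one] at e1
  rw [c13_one hχ', mul_one] at e2
  refine ⟨Φ, N, δ, ⟨hΦd, hΦs⟩, ?_, hN3, hN7, hNN0, hmN, hdis, hδ, hS,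
    fun σ hσ u hu hpt => c13_gal hw hχ hC hQ0 hQm hQ2 hTgal hΦv σ hσ u hu hpt⟩
  intro A hA
  have v1 := c13_unit _ hQ2 _ (hχ.cub Q hQ0 hQm) A hA
  have v2 := c13_unit _ hQ2 _ (hχ'.cub Q hQ0 hQm) A hA
  set K : ℂ := χ Q * conj (emb (Ps (eF F hw) Q)) - 1 with hK
  set K' : ℂ := χ' Q * conj (emb (Ps (eF F hw) Q)) - 1 with hK'
  have f1 : K * (Φ 1 / Omp ^ (r + 1)) = ∑ b ∈ C, χ b ^ 2 * T b 1 := by
    rw [← mul_div_assoc, e1, mul_div_cancel_left₀ _ hO]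
  have f2 : K' * (Φ₁ 1 / Omp ^ (r + 1)) = ∑ b ∈ C, χ' b ^ 2 * T b 1 := by
    rw [← mul_div_assoc, e2, mul_div_cancel_left₀ _ hO]
  have v3 : A.valuation (∑ b ∈ C, χ' b ^ 2 * T b 1) = 1 := by
    rw [← f2, map_mul, v2, hbase A hA, mul_one]
  have v4 : A.valuation (∑ b ∈ C, (χ b ^ 2 - χ' b ^ 2) * T b 1) < 1 := by
    refine A.valuation.map_sum_lt one_ne_zero ?_
    intro b hb
    obtain ⟨hb0, hbm⟩ := hC b hb
    rw [map_mul]
    have h5 : A.valuation (χ b ^ 2 - χ' b ^ 2) < 1 := by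
      have h6 := (c13_val A hA (χ b ^ 2) (by
        rw [← pow_mul, mul_comm, pow_mul, hχ.cub b hb0 hbm, one_pow])).2
      have h7 := (c13_val A hA (χ' b ^ 2) (by
        rw [← pow_mul, mul_comm, pow_mul, hχ'.cub b hb0 hbm, one_pow])).2
      have h8 : χ b ^ 2 - χ' b ^ 2 = (χ b ^ 2 - 1) - (χ' b ^ 2 - 1) := by ring
      rw [h8]
      exact A.valuation.map_sub_lt h6 h7
    calc A.valuation (χ b ^ 2 - χ' b ^ 2) * A.valuation (T b 1)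
        ≤ A.valuation (χ b ^ 2 - χ' b ^ 2) * 1 := by gcongr; exact hTint A hA b hb
      _ < 1 := by rw [mul_one]; exact h5
  have e3 : ∑ b ∈ C, χ b ^ 2 * T b 1 = ∑ b ∈ C, (χ b ^ 2 - χ' b ^ 2) * T b 1 +
      ∑ b ∈ C, χ' b ^ 2 * T b 1 := by
    rw [← Finset.sum_add_distrib]
    refine Finset.sum_congr rfl fun b _ => ?_
    ring
  have v5 : A.valuation (∑ b ∈ C, χ b ^ 2 * T b 1) = 1 := by
    rw [e3, Valuation.map_add_eq_of_lt_right, v3]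
    rw [v3]; exact v4
  rw [← f1, map_mul, v1, one_mul] at v5
  exact v5

/-- The trivial character: existence of the entire continuation without hypothesis on the value (directly from `hecke_final3`), with the Galois
action. `χ₁ I = 1` if `I` is prime to `m`, `0` otherwise. -/
theorem value_exists3 (hrank : Module.finrank ℚ F = 2 * (r + 1))
    (hun : Unr3 F r) (hsm : Smooth3 F hw)
    (m : 𝓞 F) (hm0 : m ≠ 0) (h7 : eF F hw p7 ∣ m) (hm6 : IsCoprime m 6)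
    (χ : Ideal (𝓞 F) → ℂ) (hχ : IsRC3 F m χ) :
    ∃ (Φ : ℂ → ℂ) (N : ℕ) (δ : ℂ), IsL3 F hw χ Φ ∧ ¬ 3 ∣ N ∧ 7 ∣ N ∧ m ∣ (N : 𝓞 F) ∧
    |(NumberField.discr F : ℝ)| = 3 ^ (r + 1) * ‖δ‖ ^ 4 ∧ δ ≠ 0 ∧
    (∃ s : Fin (r + 1) → F →+* ℂ, IsS F hw s ∧ IsDel F hw s δ) ∧
    ∀ σ : ℂ ≃+* ℂ, σ w = w → ∀ u : Eis, IsCoprime u (N : Eis) →
      (∀ c : Eis, ptMap (σ : ℂ →+* ℂ) (pt (emb c / N)) = pt (emb (c * u) / N)) →
      χ (Ideal.span {eF F hw u}) * (σ (Φ 1 / Omp ^ (r + 1)) * σ δ)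
        = (Φ 1 / Omp ^ (r + 1)) * δ := by
  obtain ⟨C, N, T, δ, Q, hN3, hN7, hNN0, hmN, hdis, hδ, hS, hC, hQ0, hQm, hQ2, hTint, hTgal,
    hall⟩ := hecke_final3 F hw hrank hun hsm m hm0 h7 hm6 1 (Nat.coprime_one_left 6)
  obtain ⟨Φ, hΦd, hΦs, hΦv⟩ := hall χ hχ
  exact ⟨Φ, N, δ, ⟨hΦd, hΦs⟩, hN3, hN7, hmN, hdis, hδ, hS,
    fun σ hσ u hu hpt => c13_gal hw hχ hC hQ0 hQm hQ2 hTgal hΦv σ hσ u hu hpt⟩

end TH
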