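import Pool.Agent.MP_9ab903_nt.TH.C1a
import Pool.Agent.MP_9ab903_nt.TH.B0

/-!
# [NG3-C14] smoothing primes

`Smooth3 F` if all residue degrees of `F` over `ℚ(ω)` are odd. Given `B`: `n` the product of `7` and of the `k ≤ B` prime to `3`, `t = 1 + n ^ 2`:
`t ≡ 1 mod π n`, `t ≡ -1 mod λ`. By induction on the factorisation an element `a` with `λ ∣ ep a * a + 1` has a prime divisor `b`, `b ≡ 1 mod π`, `b ≡ -1 mod λ`;
for `a = t` its norm is `> B`, as `b` divides its norm. `Q` above `b` (lying over), `Ps (eF F hw) Q = b ^ f ≡ -1 mod λ` and `λ ∤ -2`.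
-/

set_option autoImplicit false

open NumberField IsDedekindDomain MeasureTheory Set
open CM27 CMT CF NAB NG
open scoped ComplexConjugate Classical Matrix

namespace TH

theorem c14_not_dvd_one : ¬ la ∣ (1 : Eis) := by
  rw [la_dvd_iff]
  simp

theorem c14_not_dvd_two : ¬ la ∣ (2 : Eis) := by
  rw [la_dvd_iff]
  have h : (2 : Eis).norm = 4 := by decide
  rw [h]
  omega

theorem c14_exists (a : Eis) (ha : a ≠ 0) (h7 : ¬ p7 ∣ a) (hl : la ∣ ep a * a + 1) :
    ∃ b : Eis, Prime b ∧ Pr7 b ∧ la ∣ b + 1 ∧ b ∣ a := by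
  have := eis_isDomain
  have := eis_pid
  revert ha h7 hl
  refine UniqueFactorizationMonoid.induction_on_prime
    (P := fun a => a ≠ 0 → ¬ p7 ∣ a → la ∣ ep a * a + 1 →
      ∃ b : Eis, Prime b ∧ Pr7 b ∧ la ∣ b + 1 ∧ b ∣ a) a ?_ ?_ ?_
  · intro h
    exact absurd rfl h
  · intro x hx _ h7 hl
    exfalso
    have h1 : ep x * x = 1 := by
      refine Pr7_eq (ep_spec x h7) ?_ ?_
      · show p7 ∣ 1 - 1
        rw [sub_self]
        exact dvd_zero _
      · exact associated_one_iff_isUnit.2 ((ep_unit x).mul hx)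
    rw [h1] at hl
    apply c14_not_dvd_two
    have h2 : (1 : Eis) + 1 = 2 := by norm_num
    rwa [h2] at hl
  · intro a p ha hp ih hpa h7 hl
    have h7p : ¬ p7 ∣ p := fun h => h7 (h.mul_right _)
    have h7a : ¬ p7 ∣ a := fun h => h7 (h.mul_left _)
    have hep : ep (p * a) * (p * a) = (ep p * p) * (ep a * a) := by
      rw [ep_mul p a h7p h7a]
      ring
    rw [hep] at hl
    rcases la_cases (ep p * p) with h | h | h
    · exfalso
      apply c14_not_dvd_one
      have h1 := dvd_sub hl (h.mul_right (ep a * a))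
      have h2 : ep p * p * (ep a * a) + 1 - ep p * p * (ep a * a) = 1 := by ring
      rwa [h2] at h1
    · have h1 : la ∣ ep a * a + 1 := by
        have h2 := dvd_sub hl (h.mul_right (ep a * a))
        have h3 : ep p * p * (ep a * a) + 1 - (ep p * p - 1) * (ep a * a) = ep a * a + 1 := by
          ring
        rwa [h3] at h2
      obtain ⟨b, hb1, hb2, hb3, hb4⟩ := ih ha h7a h1
      exact ⟨b, hb1, hb2, hb3, hb4.mul_left _⟩
    · have hass : Associated p (ep p * p) := by
        have h1 : Associated (1 * p) (ep p * p) :=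
          (Associated.mul_right (associated_one_iff_isUnit.2 (ep_unit p)).symm p)
        rwa [one_mul] at h1
      refine ⟨ep p * p, hass.prime hp, ep_spec p h7p, h, ?_⟩
      exact (hass.symm.dvd).trans (dvd_mul_right _ _)

/-- primes `b ≡ 1 mod π`, `b ≡ -1 mod λ` of large norm -/
theorem exists_large_prime (B : ℕ) : ∃ b : Eis, Prime b ∧ Pr7 b ∧ la ∣ b + 1 ∧ B < b.norm.natAbs := by
  set P : ℕ := ∏ k ∈ (Finset.range (B + 1)).filter (fun k => ¬ 3 ∣ k), k with hP
  have hP3 : ¬ 3 ∣ P := by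
    rw [hP]
    refine Finset.prod_induction _ (fun k => ¬ 3 ∣ k) ?_ (by norm_num)
      (fun k hk => (Finset.mem_filter.1 hk).2)
    intro a b ha hb h
    rcases (Nat.prime_three.dvd_mul).1 h with h | h
    · exact ha h
    · exact hb h
  have hN3 : ¬ 3 ∣ 7 * P := by
    intro h
    rcases (Nat.prime_three.dvd_mul).1 h with h | h
    · omega
    · exact hP3 h
  have hN2 : 3 ∣ (7 * P) ^ 2 + 2 := by
    have h1 : (7 * P) % 3 = 1 ∨ (7 * P) % 3 = 2 := by omega
    apply Nat.dvd_of_mod_eq_zero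
    rcases h1 with h1 | h1 <;> simp [Nat.add_mod, Nat.pow_mod, h1]
  set t : Eis := 1 + ((7 * P : ℕ) : Eis) ^ 2 with ht
  have h7t : Pr7 t := by
    have h1 : p7 ∣ (7 : Eis) := ⟨star p7, p7_mul_star.symm⟩
    have h2 : t - 1 = 7 * ((P : Eis) * ((7 * P : ℕ) : Eis)) := by
      rw [ht]
      push_cast
      ring
    show p7 ∣ t - 1
    rw [h2]
    exact h1.mul_right _
  have hlt : la ∣ t + 1 := by
    have h1 : la ∣ (3 : Eis) := (dvd_pow_self la two_ne_zero).trans la_dvd_three.1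
    obtain ⟨k, hk⟩ := hN2
    have h2 : t + 1 = 3 * (k : Eis) := by
      have h3 : (((7 * P) ^ 2 + 2 : ℕ) : Eis) = ((3 * k : ℕ) : Eis) := by rw [hk]
      push_cast at h3
      rw [ht]
      push_cast
      linear_combination h3
    rw [h2]
    exact h1.mul_right _
  have ht0 : t ≠ 0 := by
    intro h0
    apply c14_not_dvd_one
    rw [h0, zero_add] at hlt
    exact hlt
  have hep : ep t = 1 := ep_of_Pr7 h7t
  obtain ⟨b, hb, hb7, hbl, hbt⟩ := c14_exists t ht0 (Pr7_not_dvd h7t) (by rw [hep, one_mul]; exact hlt)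
  refine ⟨b, hb, hb7, hbl, ?_⟩
  by_contra hcon
  push Not at hcon
  set l : ℕ := b.norm.natAbs with hl
  have hbl' : b ∣ (l : Eis) := by
    refine ⟨star b, ?_⟩
    rw [a3_mul_star]
    have h1 : ((l : ℕ) : ℤ) = b.norm := Int.natAbs_of_nonneg (norm_nonneg' _)
    rw [← h1]
    simp
  have hl3 : ¬ 3 ∣ l := by
    intro h
    apply c14_not_dvd_one
    have h1 : la ∣ b := by
      rw [la_dvd_iff, ← Int.natAbs_of_nonneg (norm_nonneg' b)]
      exact_mod_cast h
    have h2 := dvd_sub hbl h1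
    have h3 : b + 1 - b = 1 := by ring
    rwa [h3] at h2
  have hlP : l ∣ P := by
    rw [hP]
    exact Finset.dvd_prod_of_mem (fun k => k)
      (Finset.mem_filter.2 ⟨Finset.mem_range.2 (by omega), hl3⟩)
  have hbN : b ∣ ((7 * P : ℕ) : Eis) :=
    hbl'.trans (Nat.cast_dvd_cast (α := Eis) (hlP.trans (Dvd.intro_left 7 rfl)))
  apply hb.not_isUnit
  apply isUnit_of_dvd_one
  have h2 : (1 : Eis) = t - ((7 * P : ℕ) : Eis) ^ 2 := by rw [ht]; ring
  rw [h2]
  exact dvd_sub hbt (hbN.trans (dvd_pow_self _ two_ne_zero))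

theorem c14_above (F : IntermediateField ℚ ℂ) [NumberField F] (hw : w ∈ F) (b : Eis)
    (hb : Prime b) : ∃ v : HeightOneSpectrum (𝓞 F), eF F hw b ∈ v.asIdeal := by
  have := eis_isDomain
  have := eis_pid
  let _ : Algebra Eis (𝓞 F) := (eF F hw).toAlgebra
  have : Algebra.IsIntegral Eis (𝓞 F) := by
    refine ⟨fun x => ?_⟩
    have h1 : IsIntegral ℤ x := Algebra.IsIntegral.isIntegral x
    exact h1.tower_top
  have hinj : Function.Injective (eF F hw) := by
    intro x y hxy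
    apply emb_injective
    rw [← eF_apply F hw x, ← eF_apply F hw y, hxy]
  have hp : (Ideal.span {b} : Ideal Eis).IsPrime := (Ideal.span_singleton_prime hb.ne_zero).2 hb
  have hm : (Ideal.span {b} : Ideal Eis).IsMaximal := by
    refine hp.isMaximal ?_
    rw [Ne, Ideal.span_singleton_eq_bot]
    exact hb.ne_zero
  obtain ⟨Q, hQ, hQb⟩ := Ideal.exists_ideal_over_maximal_of_isIntegral (S := 𝓞 F)
    (Ideal.span {b} : Ideal Eis) (by
      have h1 : RingHom.ker (algebraMap Eis (𝓞 F)) = ⊥ :=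
        (RingHom.injective_iff_ker_eq_bot _).1 hinj
      rw [h1]
      exact bot_le)
  have hbQ : eF F hw b ∈ Q := by
    have h1 : b ∈ Ideal.comap (algebraMap Eis (𝓞 F)) Q := by
      rw [hQb]
      exact Ideal.mem_span_singleton_self b
    exact h1
  refine ⟨⟨Q, hQ.isPrime, ?_⟩, hbQ⟩
  intro h0
  rw [h0, Ideal.mem_bot] at hbQ
  apply hb.ne_zero
  apply hinj
  rw [hbQ, _root_.map_zero]

theorem smooth3_of_deg (F : IntermediateField ℚ ℂ) [NumberField F] (hw : w ∈ F)
    (hdeg : ∀ (v : HeightOneSpectrum (𝓞 F)) (b : Eis) (f : ℕ), Prime b → eF F hw b ∈ v.asIdeal →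
      nv v = b.norm.natAbs ^ f → Odd f) : Smooth3 F hw := by
  intro B
  obtain ⟨b, hb, hb7, hbl, hB⟩ := exists_large_prime B
  obtain ⟨v, hv⟩ := c14_above F hw b hb
  obtain ⟨f, hf, hn⟩ := nv_pow (eF F hw) v hb hv
  have hodd : Odd f := hdeg v b f hb hv hn
  refine ⟨v.asIdeal, b, v.isPrime, v.ne_bot, hb, hv, hB, ?_⟩
  rw [Ps_prime, psv_eq (eF F hw) v hb7 hb hv hf hn]
  intro h
  apply c14_not_dvd_two
  have h1 : b + 1 ∣ b ^ f + 1 := by
    have h2 := hodd.add_dvd_pow_add_pow b 1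
    rwa [one_pow] at h2
  have h3 := dvd_sub (hbl.trans h1) h
  have h4 : b ^ f + 1 - (b ^ f - 1) = 2 := by ring
  rwa [h4] at h3

end TH
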