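import Pool.Agent.MP_9ab903_nt.TH.C1a
import Pool.Agent.MP_9ab903_nt.TH.B0
import Pool.Agent.MP_9ab903_nt.NAB.EU5

/-!
# [NG3-C1b] the Hecke character `Ps (eF F hw)`: complements to TH/B0

* `psv_inertia`: as `psi_under`, `psi_data` (NAB/EU5.lean): the prime `v₀` of `𝓞 KK` below `v` is generated by `φ b`, `b` prime; normalise `b ≡ 1 mod π` (`exists_unit7`);
  `relNorm v = v₀ ^ f`, `f = v.asIdeal.inertiaDeg (𝓞 KK)`, `nv v = norm b ^ f`, and `psv_eq`.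
* `ps_mul_conj`: `Ps_norm`; `ps_span`: `Ps_span` (or `Ps_relNorm`) and uniqueness of the unit (`ε a ≡ 1`, `a = x ≡ 1 mod π` gives `ε = 1`, `unit7`).
-/

set_option autoImplicit false

open NumberField IsDedekindDomain MeasureTheory Set
open CM27 CMT CF NAB NG
open scoped ComplexConjugate Classical Matrix

namespace TH

variable (F : IntermediateField ℚ ℂ) [NumberField F] (hw : w ∈ F)

/-- the residue degree over `ℚ(ω)` -/
theorem psv_inertia (φ : Eis ≃+* 𝓞 KK) (hφ : ∀ a, (((φ a : 𝓞 KK) : KK) : ℂ) = emb a)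
    (v : HeightOneSpectrum (𝓞 F)) (h7 : eF F hw p7 ∉ v.asIdeal) :
    letI := algK F hw
    ∃ b : Eis, Pr7 b ∧ Prime b ∧ eF F hw b ∈ v.asIdeal ∧
      v.asIdeal.under (𝓞 KK) = Ideal.span {φ b} ∧
      0 < v.asIdeal.inertiaDeg (𝓞 KK) ∧
      nv v = b.norm.natAbs ^ v.asIdeal.inertiaDeg (𝓞 KK) ∧
      psv (eF F hw) v = b ^ v.asIdeal.inertiaDeg (𝓞 KK) := by
  letI := algK F hw
  haveI := d2_tower F hw
  haveI := d2_finite F hw
  have := eis_isDomain
  obtain ⟨b₀, hb₀, hv₀⟩ := exists_below (eF F hw) v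
  have h70 : ¬ p7 ∣ b₀ := by
    intro h
    apply h7
    rw [comap_prime (eF F hw) v hb₀ hv₀]
    exact ((p7_prime.dvd_prime_iff_associated hb₀).1 h).symm.dvd
  obtain ⟨ε, hε, hε7⟩ := exists_unit7 h70
  have hεu : IsUnit ε := (unit_iff ε).2 hε
  have hass : Associated (ε * b₀) b₀ := associated_unit_mul_left b₀ ε hεu
  have hb : Prime (ε * b₀) := hass.symm.prime hb₀
  have hv : eF F hw (ε * b₀) ∈ v.asIdeal := by
    rw [map_mul]
    exact Ideal.mul_mem_left _ _ hv₀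
  have halg : ∀ a : Eis, algebraMap (𝓞 KK) (𝓞 F) (φ a) = eF F hw a := by
    intro a
    ext
    exact hφ a
  have hunder : v.asIdeal.under (𝓞 KK) = Ideal.span {φ (ε * b₀)} := by
    ext x
    rw [Ideal.mem_span_singleton, Ideal.under_def, Ideal.mem_comap]
    have h1 := comap_prime (eF F hw) v hb hv (φ.symm x)
    rw [← halg, φ.apply_symm_apply] at h1
    rw [h1]
    constructor
    · rintro ⟨c, hc⟩
      exact ⟨φ c, by rw [← map_mul, ← hc, φ.apply_symm_apply]⟩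
    · rintro ⟨c, hc⟩
      exact ⟨φ.symm c, by rw [hc, map_mul, φ.symm_apply_apply]⟩
  haveI := v.isMaximal
  have hmax : (v.asIdeal.under (𝓞 KK)).IsMaximal :=
    Ideal.IsMaximal.under (𝓞 KK) v.asIdeal
  have hlies : v.asIdeal.LiesOver (v.asIdeal.under (𝓞 KK)) := ⟨rfl⟩
  have h1 := Ideal.relNorm_eq_pow_of_isMaximal v.asIdeal (v.asIdeal.under (𝓞 KK))
  have h2 : 0 < v.asIdeal.inertiaDeg (𝓞 KK) := Ideal.inertiaDeg_pos _ _
  have h4 := Ideal.absNorm_relNorm (R := 𝓞 KK) (S := 𝓞 F) v.asIdeal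
  rw [h1, hunder, map_pow, card_KK F hw φ (ε * b₀)] at h4
  have h5 : nv v = (ε * b₀).norm.natAbs ^ v.asIdeal.inertiaDeg (𝓞 KK) := by
    rw [h4, Ideal.absNorm_apply, Submodule.cardQuot_apply]
    rfl
  exact ⟨ε * b₀, hε7, hb, hv, hunder, h2, h5, psv_eq (eF F hw) v hε7 hb hv h2 h5⟩

theorem ps_mul_conj (I : Ideal (𝓞 F)) (hI : I ≠ 0)
    (hc : IsCoprime I (Ideal.span {eF F hw p7})) :
    emb (Ps (eF F hw) I) * conj (emb (Ps (eF F hw) I)) = (Ideal.absNorm I : ℂ) := by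
  rw [Complex.mul_conj, normSq_emb, ← Ps_norm (eF F hw) I hI hc, Nat.cast_natAbs, abs_of_nonneg
    (norm_nonneg' _)]
  push_cast
  rfl

/-- `ψ'((g)) = N(g)` if `N(g) ≡ 1 mod π` -/
theorem ps_span (g : 𝓞 F) (hg : g ≠ 0)
    (hc : IsCoprime (Ideal.span {g}) (Ideal.span {eF F hw p7})) (x : Eis) (hx : Pr7 x)
    (hxg : letI := algK F hw; ((Algebra.norm KK (g : F) : KK) : ℂ) = emb x) :
    Ps (eF F hw) (Ideal.span {g}) = x := by
  letI := algK F hw
  obtain ⟨a, ε, h1, h2, h3, h4⟩ := Ps_span F hw g hg hc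
  have h5 : a = x := emb_injective (h1.trans hxg)
  subst h5
  have h6 : ep a = ε := ep_uniq ε a ((unit_iff ε).2 h2) h3
  rw [ep_of_Pr7 hx] at h6
  rw [h4, ← h6, one_mul]

end TH
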