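import Pool.Agent.MP_9ab903_nt.TH.C2
import Pool.Agent.MP_9ab903_nt.TH.C3a

/-!
# [NG3-C3a], [NG3-C3b], [NG3-C3] the values `xw, yw, lx, E1` at torsion points are `λ`-adically controlled; Galois action

`A` a valuation ring of `ℂ` with `A.valuation 3 < 1`; `l = A.valuation (emb la) < 1`, `l² = A.valuation 3` (`3 = -ω²λ²`, `ω` a unit),
`A.valuation 2 = 1` (`2 = 3 - 1`). `z ∉ O`, `N z ∈ O`, `3 ∤ N`; then `λ^k z ∉ O` for all `k` and `λ^k z = z + a` for some `k ≥ 1` (`λ` is invertible modulo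
`N`: a finite ring).

* `xw_val`: let `r³ = -1/4` (`v r = 1`), `x = λ X + r`. By `xw_la` the number `X'` of `λ z` is
  `X' = (X³ + ωλ r X² - λ r² X - ω²/4) / (λ X + r)²`.
  If `v X > 1` then `v X' > v X` (cases `v(λX) < 1`: `v X' = (v X)³`; `v(λX) > 1`: `v X' = v X / l²`; `v(λX) = 1`: `v X' ≥ (v X)³`): impossible by
  periodicity. So `v X ≤ 1`: `A.valuation (xw z - r) ≤ l`, `A.valuation (xw z) = 1`.
* `yw_val_le`: `y² = 4x³ + 1 = λ³ (4X³ - 4ω²λ r X² - 4ω² r² X)`: `v(y)² ≤ l³`.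
* `lx_val_le`: `Off z`: `lx² = x(2z) + 2x(z) = 3r + λ (X₂ + 2X)`: `v(lx)² ≤ l`. And `lx = 3x²/y`: `v(y)² = l⁴ / v(lx)² ≥ l³`; so for odd order
  `v(y)² = l³` exactly.
* `E1_val_la` (`N` prime to `6`): `f k = E1 (λ^k z)/OmC`, `f (k+1) = μ f k + slo (λ^k z)`, `μ = -ω²λ`, `v(slo)² = l³/l² = l` (`E1_la`); `a10_rec`:
  `(1 - μ^k) f 0 = ∑ μ^(k-1-i) slo (λ^i z)`: `v(f)² ≤ l`, and then `f 1 = μ f 0 + slo z`: `v(μ f 0)² ≤ l³ < l = v(slo z)²`, so `v(f 1)² = l`; apply it to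
  `z' = λ^(k-1) z`, `λ z' = z` mod `O`.
* `E1_val_le` (`3 ∤ N`, no `2^j z` in `O`): induction on the power of `2` in `N`: `2 E1 z / OmC = E1 (2z)/OmC - lx z` (`E1_two`, `lam_eq`), `v 2 = 1`,
  `lx_val_le`.
* `Omp`: `N = 7`, `z = 1/π` (`7/π = star π ∈ O`): `v(Omp/OmC)² = l`. So `v(E1 z/Omp) = 1` resp. `≤ 1`.
* `Xi_val3`: as `Xi_val` (NG/G2b) with `Xi_dist` for `M = N₂` (`N₂ θ ∈ Dl`, `3 ∤ N₂`): the points `(z + a)/M` satisfy the hypotheses of `E1_val_le`.
* `gal_fix'`: `gal_fix` (AN/A7) without the part about `3`.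
* `E1_gal3`: induction on the power of `2` in `N` from `E1_gal` (NAB/A10): `E1 z = (E1 (2z) - lam z)/2`; `lx (emb u * z) = σ (lx z)`: `a10_lx` (check that its
  proof only uses `N ≠ 0`; otherwise copy it; `Off z` because `2z ∉ O`). For `2^j z` and odd part `N'` of `N`: `hσu` for `N'` follows from `hσu` for `N`.
* `Xi_gal3`: as `Xi_gal` (NG/G2b).
* `Omp_gal`: `E1_gal` for `N` odd, or `E1_gal3`, at `z = 1/π` (`7 ∣ N`): `σ (Omp/OmC) = E1 (u/π)/OmC`, `ep u * u = 1 + π t`, so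
  `E1 (emb (ep u) * (u/π)) = E1 (1/π + t) = Omp` and `E1_unit`: `E1 (u/π) = emb (ep u) * Omp`.
-/

set_option autoImplicit false

open NumberField IsDedekindDomain MeasureTheory Set
open CM27 CMT CF NAB NG
open scoped ComplexConjugate Classical Matrix

namespace TH

theorem c3b_exists_val : ∃ A : ValuationSubring ℂ, A.valuation 3 < 1 := by
  classical
  set R : Subring ℂ := (Int.castRingHom ℂ).range with hR
  let three : R := ⟨3, ⟨3, by simp⟩⟩
  have hI : (Ideal.span {three} : Ideal R) ≠ ⊤ := by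
    rw [Ne, Ideal.eq_top_iff_one, Ideal.mem_span_singleton']
    rintro ⟨⟨a, n, hn⟩, ha⟩
    have h1 := congrArg Subtype.val ha
    simp only [Subring.coe_mul, Subring.coe_one, three] at h1
    rw [← hn] at h1
    simp only [eq_intCast] at h1
    have h2 : n * 3 = 1 := by exact_mod_cast h1
    omega
  obtain ⟨B, -, hB⟩ := Ideal.image_subset_nonunits_valuationSubring _ hI
  refine ⟨B, ?_⟩
  have h2 : (3 : ℂ) ∈ B.nonunits := hB ⟨three, Ideal.mem_span_singleton_self three, rfl⟩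
  exact (ValuationSubring.mem_nonunits_iff B).1 h2

theorem c3b_la_pow : emb la ^ 12 = 729 := by
  have h1 := la_sq
  have h2 := w_cube
  have h3 : emb la ^ 2 = -3 * w := by
    calc emb la ^ 2 = w * (w ^ 2 * emb la ^ 2) := by
          rw [← mul_assoc, ← pow_succ', h2, one_mul]
      _ = -3 * w := by rw [h1]; ring
  calc emb la ^ 12 = (emb la ^ 2) ^ 6 := by ring
    _ = 729 * (w ^ 3) ^ 2 := by rw [h3]; ring
    _ = 729 := by rw [h2]; ring

theorem c3b_N0 {N : ℕ} (hN : ¬ 3 ∣ N) : 0 < N := by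
  rcases Nat.eq_zero_or_pos N with h | h
  · exact absurd (h ▸ dvd_zero 3) hN
  · exact h

/-- multiplication by a power of `λ` is trivial on the torsion points of order `N` -/
theorem c3b_period (N : ℕ) (hN : ¬ 3 ∣ N) (z : ℂ) (hz : (N : ℂ) * z ∈ Set.range emb) :
    ∃ K : ℕ, 0 < K ∧ ∃ a : Eis, emb la ^ K * z = z + emb a := by
  have hN0 := c3b_N0 hN
  have hcop : Nat.Coprime 3 N := (Nat.Prime.coprime_iff_not_dvd Nat.prime_three).2 hN
  refine ⟨12 * N.totient, by have := Nat.totient_pos.2 hN0; omega, ?_⟩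
  have hmod : (3 ^ 6) ^ N.totient ≡ 1 [MOD N] := Nat.ModEq.pow_totient (hcop.pow_left 6)
  have h1 : 1 ≤ (3 ^ 6) ^ N.totient := Nat.one_le_pow _ _ (by norm_num)
  have hdvd : N ∣ (3 ^ 6) ^ N.totient - 1 := (Nat.modEq_iff_dvd' h1).mp hmod.symm
  obtain ⟨t, ht⟩ := hdvd
  obtain ⟨c, hc⟩ := hz
  refine ⟨(t : Eis) * c, ?_⟩
  have h2 : (((3 ^ 6) ^ N.totient : ℕ) : ℂ) = N * t + 1 := by
    have : (3 ^ 6) ^ N.totient = N * t + 1 := by omega
    rw [this]; push_cast; ring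
  have h3 : emb la ^ (12 * N.totient) = N * t + 1 := by
    rw [pow_mul, c3b_la_pow, ← h2]
    push_cast
    norm_num
  rw [h3, map_mul, hc, map_natCast]
  ring

theorem c3b_pow_mem (N : ℕ) (hN : ¬ 3 ∣ N) (z : ℂ) (hz : (N : ℂ) * z ∈ Set.range emb)
    (hz0 : z ∉ Set.range emb) (i : ℕ) :
    (N : ℂ) * (emb la ^ i * z) ∈ Set.range emb ∧ emb la ^ i * z ∉ Set.range emb := by
  induction i with
  | zero => rw [pow_zero, one_mul]; exact ⟨hz, hz0⟩
  | succ i ih =>
    have e : emb la ^ (i + 1) * z = emb la * (emb la ^ i * z) := by rw [pow_succ']; ring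
    rw [e]
    refine ⟨?_, la_not_mem N hN _ ih.1 ih.2⟩
    obtain ⟨c, hc⟩ := ih.1
    refine ⟨la * c, ?_⟩
    rw [map_mul, hc]
    ring

theorem c3b_cop {N : ℕ} (hN : Nat.Coprime N 6) : ¬ 3 ∣ N := by
  intro h
  have h1 : 3 ∣ Nat.gcd N 6 := Nat.dvd_gcd h (by norm_num)
  rw [hN] at h1
  norm_num at h1

section
variable (A : ValuationSubring ℂ) (hA : A.valuation 3 < 1)
include hA

omit hA in
theorem c3b_la_ne : A.valuation (emb la) ≠ 0 := by
  rw [Valuation.ne_zero_iff, emb_la]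
  intro h
  have h1 : w = 1 := (sub_eq_zero.1 h).symm
  have h2 := w_quad
  rw [h1] at h2
  norm_num at h2

theorem c3b_slo (N : ℕ) (hN : Nat.Coprime N 6) (z : ℂ) (hz : (N : ℂ) * z ∈ Set.range emb)
    (hz0 : z ∉ Set.range emb) : A.valuation (slo z) ^ 2 = A.valuation (emb la) := by
  obtain ⟨ρ, hρ⟩ := IsAlgClosed.exists_pow_nat_eq (-1 / 4 : ℂ) (n := 3) (by norm_num)
  have h1 := (xw_val A hA N (c3b_cop hN) z hz hz0 ρ hρ).2
  have h2 := yw_val_eq A hA N hN z hz hz0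
  have h3 := c3b_la_ne A
  rw [slo, map_div₀, map_mul, h1, mul_one, div_pow, h2, pow_succ, mul_div_assoc, mul_comm,
    div_mul_cancel₀ _ (pow_ne_zero 2 h3)]

omit hA in
theorem c3b_sq_le {x y : A.ValueGroup} (h : x ^ 2 ≤ y ^ 2) : x ≤ y := by
  by_contra hlt
  push Not at hlt
  exact absurd h (not_le_of_gt (pow_lt_pow_left₀ hlt zero_le two_ne_zero))

omit hA in
theorem c3b_sq_inj {x y : A.ValueGroup} (h : x ^ 2 = y ^ 2) : x = y :=
  le_antisymm (c3b_sq_le A h.le) (c3b_sq_le A h.ge)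

theorem c3b_le (N : ℕ) (hN : Nat.Coprime N 6) (z : ℂ) (hz : (N : ℂ) * z ∈ Set.range emb)
    (hz0 : z ∉ Set.range emb) : A.valuation (E1 z / OmC) ≤ A.valuation (slo z) := by
  have hN3 := c3b_cop hN
  obtain ⟨K, hK, a, ha⟩ := c3b_period N hN3 z hz
  have hmem := c3b_pow_mem N hN3 z hz hz0
  have hl := (val_la A hA).1
  have hvw : A.valuation (w ^ 2) ≤ 1 := by
    rw [map_pow]
    exact pow_le_one' (i1_val_w A) 2
  have hμ : A.valuation (-(w ^ 2 * emb la)) < 1 := by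
    rw [Valuation.map_neg, map_mul]
    exact lt_of_le_of_lt (mul_le_of_le_one_left' hvw) hl
  have h2 := a10_rec (-(w ^ 2 * emb la)) (fun i => E1 (emb la ^ i * z) / OmC)
    (fun i => slo (emb la ^ i * z)) (by
    intro i
    have h3 := E1_la N hN _ (hmem i).1 (hmem i).2
    have e : emb la ^ (i + 1) * z = emb la * (emb la ^ i * z) := by rw [pow_succ']; ring
    have h0 := OmC_ne
    show E1 (emb la ^ (i + 1) * z) / OmC = -(w ^ 2 * emb la) * (E1 (emb la ^ i * z) / OmC) +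
      slo (emb la ^ i * z)
    rw [e, h3]
    field_simp) K
  simp only [ha, E1_per, pow_zero, one_mul] at h2
  have h3 : (1 - (-(w ^ 2 * emb la)) ^ K) * (E1 z / OmC) =
      ∑ i ∈ Finset.range K, (-(w ^ 2 * emb la)) ^ (K - 1 - i) * slo (emb la ^ i * z) := by
    linear_combination h2
  have h4 : A.valuation (1 - (-(w ^ 2 * emb la)) ^ K) = 1 := by
    have h5 : A.valuation ((-(w ^ 2 * emb la)) ^ K) < 1 := by
      rw [map_pow]
      exact pow_lt_one₀ zero_le hμ hK.ne'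
    exact Valuation.map_one_sub_of_lt _ h5
  have h6 : A.valuation (E1 z / OmC) = A.valuation (∑ i ∈ Finset.range K,
      (-(w ^ 2 * emb la)) ^ (K - 1 - i) * slo (emb la ^ i * z)) := by
    rw [← h3, map_mul, h4, one_mul]
  rw [h6]
  apply Valuation.map_sum_le
  intro i _
  have h7 : A.valuation (slo (emb la ^ i * z)) = A.valuation (slo z) := c3b_sq_inj A (by
    rw [c3b_slo A hA N hN _ (hmem i).1 (hmem i).2, c3b_slo A hA N hN z hz hz0])
  rw [map_mul, h7, map_pow]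
  exact mul_le_of_le_one_left' (pow_le_one' hμ.le _)

end

section
variable (A : ValuationSubring ℂ) (hA : A.valuation 3 < 1)
include hA

theorem E1_val_la (N : ℕ) (hN : Nat.Coprime N 6) (z : ℂ) (hz : (N : ℂ) * z ∈ Set.range emb)
    (hz0 : z ∉ Set.range emb) : A.valuation (E1 z / OmC) ^ 2 = A.valuation (emb la) := by
  have hN3 := c3b_cop hN
  obtain ⟨K, hK, a, ha⟩ := c3b_period N hN3 z hz
  have hmem := c3b_pow_mem N hN3 z hz hz0 (K - 1)
  have hl := (val_la A hA).1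
  have h0 := OmC_ne
  set z' := emb la ^ (K - 1) * z with hz'
  have h1 : E1 z = -(w ^ 2 * emb la) * E1 z' + OmC * slo z' := by
    rw [← E1_la N hN z' hmem.1 hmem.2, hz']
    have e : emb la * (emb la ^ (K - 1) * z) = z + emb a := by
      rw [← ha, ← mul_assoc, ← pow_succ', Nat.sub_add_cancel hK]
    rw [e, E1_per]
  have h2 : E1 z / OmC = -(w ^ 2 * emb la) * (E1 z' / OmC) + slo z' := by
    rw [h1]
    field_simp
  have hvw : A.valuation (w ^ 2) ≤ 1 := by
    rw [map_pow]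
    exact pow_le_one' (i1_val_w A) 2
  have hμ : A.valuation (-(w ^ 2 * emb la)) < 1 := by
    rw [Valuation.map_neg, map_mul]
    exact lt_of_le_of_lt (mul_le_of_le_one_left' hvw) hl
  have h3 := c3b_le A hA N hN z' hmem.1 hmem.2
  have h4 := c3b_slo A hA N hN z' hmem.1 hmem.2
  have h5 : A.valuation (slo z') ≠ 0 := by
    intro h
    rw [h, zero_pow two_ne_zero] at h4
    exact c3b_la_ne A h4.symm
  have h6 : A.valuation (-(w ^ 2 * emb la) * (E1 z' / OmC)) < A.valuation (slo z') := by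
    rw [map_mul]
    calc A.valuation (-(w ^ 2 * emb la)) * A.valuation (E1 z' / OmC)
        ≤ A.valuation (-(w ^ 2 * emb la)) * A.valuation (slo z') := mul_le_mul_right h3 _
      _ < 1 * A.valuation (slo z') := mul_lt_mul_of_pos_right hμ (zero_lt_iff.2 h5)
      _ = _ := one_mul _
  rw [h2, Valuation.map_add_eq_of_lt_right _ h6, h4]

theorem c3b_ind (N' : ℕ) (hN' : Nat.Coprime N' 6) (m : ℕ) : ∀ z : ℂ,
    ((2 ^ m * N' : ℕ) : ℂ) * z ∈ Set.range emb → (∀ j : ℕ, (2 : ℂ) ^ j * z ∉ Set.range emb) →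
    A.valuation (E1 z / OmC) ^ 2 ≤ A.valuation (emb la) := by
  induction m with
  | zero =>
    intro z hz hz0
    rw [pow_zero, one_mul] at hz
    have h0 := hz0 0
    rw [pow_zero, one_mul] at h0
    exact (E1_val_la A hA N' hN' z hz h0).le
  | succ m ih =>
    intro z hz hz0
    have hoff : Off z := by
      have h1 := hz0 1
      rwa [pow_one] at h1
    have h1 := ih (2 * z) (by
      have e : ((2 ^ m * N' : ℕ) : ℂ) * (2 * z) = ((2 ^ (m + 1) * N' : ℕ) : ℂ) * z := by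
        push_cast
        ring
      rw [e]
      exact hz) (fun j => by
      have e : (2 : ℂ) ^ j * (2 * z) = 2 ^ (j + 1) * z := by ring
      rw [e]
      exact hz0 (j + 1))
    have hN3 : ¬ 3 ∣ 2 ^ (m + 1) * N' := by
      intro h
      rcases (Nat.Prime.dvd_mul Nat.prime_three).1 h with h2 | h2
      · have := Nat.Prime.dvd_of_dvd_pow Nat.prime_three h2
        omega
      · exact c3b_cop hN' h2
    have h2 := lx_val_le A hA _ hN3 z hz hoff
    have h3 := E1_two z hoff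
    rw [lam_eq z hoff] at h3
    have h0 := OmC_ne
    have h4 : 2 * (E1 z / OmC) = E1 (2 * z) / OmC - lx z := by
      have h5 : E1 (2 * z) = 2 * E1 z + OmC * lx z := by linear_combination h3
      rw [h5]
      field_simp
      ring
    have h5 : A.valuation (E1 z / OmC) = A.valuation (E1 (2 * z) / OmC - lx z) := by
      rw [← h4, map_mul, val_two3 A hA, one_mul]
    rw [h5]
    rcases le_max_iff.1 (Valuation.map_sub A.valuation (E1 (2 * z) / OmC) (lx z)) with h6 | h6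
    · exact (pow_le_pow_left₀ zero_le h6 2).trans h1
    · exact (pow_le_pow_left₀ zero_le h6 2).trans h2

theorem E1_val_la_le (N : ℕ) (hN : ¬ 3 ∣ N) (z : ℂ) (hz : (N : ℂ) * z ∈ Set.range emb)
    (hz0 : ∀ j : ℕ, (2 : ℂ) ^ j * z ∉ Set.range emb) :
    A.valuation (E1 z / OmC) ^ 2 ≤ A.valuation (emb la) := by
  obtain ⟨m, N', hodd, rfl⟩ := Nat.exists_eq_two_pow_mul_odd (c3b_N0 hN).ne'
  have hN' : Nat.Coprime N' 6 := by
    have h2 : Nat.Coprime N' 2 := Nat.coprime_two_right.2 hodd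
    have h3 : Nat.Coprime N' 3 := ((Nat.Prime.coprime_iff_not_dvd Nat.prime_three).2
      fun h => hN (h.mul_left _)).symm
    exact Nat.Coprime.mul_right h2 h3
  exact c3b_ind A hA N' hN' m z hz hz0

theorem Omp_val : A.valuation (Omp / OmC) ^ 2 = A.valuation (emb la) := by
  have h1 : emb p7 * emb (star p7) = 7 := by
    rw [← map_mul, p7_mul_star, map_ofNat]
  have h2 : emb p7 ≠ 0 := by
    intro h
    rw [h, zero_mul] at h1
    norm_num at h1
  refine E1_val_la A hA 7 (by norm_num) (1 / emb p7) ?_ ?_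
  · refine ⟨star p7, ?_⟩
    rw [Nat.cast_ofNat, ← h1]
    field_simp
  · rintro ⟨a, ha⟩
    have h3 : emb (p7 * a) = emb 1 := by
      rw [map_mul, ha, map_one]
      field_simp
    have h4 : p7 * a = 1 := emb_injective h3
    have h5 := congrArg QuadraticAlgebra.norm h4
    rw [map_mul, map_one, p7_norm] at h5
    omega

/-- `E1 z` is a unit times the period -/
theorem E1_val3 (N : ℕ) (hN : Nat.Coprime N 6) (z : ℂ) (hz : (N : ℂ) * z ∈ Set.range emb)
    (hz0 : z ∉ Set.range emb) : A.valuation (E1 z / Omp) = 1 := by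
  have h1 := E1_val_la A hA N hN z hz hz0
  have h2 := Omp_val A hA
  have h3 : A.valuation (E1 z / OmC) = A.valuation (Omp / OmC) := c3b_sq_inj A (h1.trans h2.symm)
  have h4 : A.valuation (Omp / OmC) ≠ 0 := by
    intro h
    rw [h, zero_pow two_ne_zero] at h2
    exact c3b_la_ne A h2.symm
  have h0 := OmC_ne
  have e : E1 z / Omp = (E1 z / OmC) / (Omp / OmC) := by
    rw [div_div_div_cancel_right₀ h0]
  rw [e, map_div₀, h3, div_self h4]

theorem E1_val3_le (N : ℕ) (hN : ¬ 3 ∣ N) (z : ℂ) (hz : (N : ℂ) * z ∈ Set.range emb)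
    (hz0 : ∀ j : ℕ, (2 : ℂ) ^ j * z ∉ Set.range emb) : A.valuation (E1 z / Omp) ≤ 1 := by
  have h1 := E1_val_la_le A hA N hN z hz hz0
  have h2 := Omp_val A hA
  have h3 : A.valuation (E1 z / OmC) ≤ A.valuation (Omp / OmC) := c3b_sq_le A (h1.trans h2.ge)
  have h4 : A.valuation (Omp / OmC) ≠ 0 := by
    intro h
    rw [h, zero_pow two_ne_zero] at h2
    exact c3b_la_ne A h2.symm
  have h0 := OmC_ne
  have e : E1 z / Omp = (E1 z / OmC) / (Omp / OmC) := by
    rw [div_div_div_cancel_right₀ h0]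
  rw [e, map_div₀]
  exact div_le_one_of_le₀ h3 zero_le

/-- `N₁` may be even, `θ` has odd order. -/
theorem Xi_val3 (N₁ N₂ : ℕ) (hN₁ : ¬ 3 ∣ N₁) (hN₂ : Nat.Coprime N₂ 6) (z θ : ℂ)
    (hz : (N₁ : ℂ) * z ∈ Set.range emb) (hz0 : ∀ j : ℕ, (2 : ℂ) ^ j * z ∉ Set.range emb)
    (hθ : (N₂ : ℂ) * θ ∈ Dl) : A.valuation (Xi z θ / Omp) ≤ 1 := by
  have hN₂3 := c3b_cop hN₂
  have hN₂0 := c3b_N0 hN₂3
  have hN₁0 := c3b_N0 hN₁
  have hN₂' : (N₂ : ℂ) ≠ 0 := by exact_mod_cast hN₂0.ne'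
  have hz1 : z ∉ Set.range emb := by
    have h := hz0 0
    rwa [pow_zero, one_mul] at h
  have hoff := g2b_off N₂ hN₂0 z hz1
  have hzN : ((N₁ * N₂ : ℕ) : ℂ) * z ∈ Set.range emb := by
    obtain ⟨c, hc⟩ := hz
    refine ⟨N₂ * c, ?_⟩
    rw [map_mul, map_natCast, hc]
    push_cast
    ring
  have hθN : ((N₁ * N₂ : ℕ) : ℂ) * θ ∈ Dl := by
    have h := g2b_Dl_mul hθ (N₁ : Eis)
    rw [map_natCast] at h
    convert h using 1
    push_cast
    ring
  rw [Xi_dist N₂ hN₂0 θ z hθ hz1 hoff, mul_div_assoc, Finset.sum_div, map_mul]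
  have h1 : A.valuation (1 / (N₂ : ℂ)) = 1 := by
    rw [map_div₀, map_one, val_nat3 A hA N₂ hN₂3, div_one]
  rw [h1, one_mul]
  apply Valuation.map_sum_le
  intro i _
  rw [Finset.sum_div]
  apply Valuation.map_sum_le
  intro j _
  rw [mul_div_assoc, map_mul]
  refine mul_le_one' ?_ ?_
  · exact g2b_val_root A _ ((N₁ * N₂) ^ 2) (pow_ne_zero _ (mul_pos hN₁0 hN₂0).ne')
      (g2b_root (N₁ * N₂) θ z hzN hθN _)
  · refine E1_val3_le A hA (N₁ * N₂) ?_ _ ?_ ?_
    · intro h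
      rcases (Nat.Prime.dvd_mul Nat.prime_three).1 h with h2 | h2
      · exact hN₁ h2
      · exact hN₂3 h2
    · obtain ⟨c, hc⟩ := hz
      refine ⟨c + N₁ * ⟨(i : ℤ), (j : ℤ)⟩, ?_⟩
      rw [map_add, map_mul, map_natCast, hc]
      push_cast
      field_simp
    · rintro k ⟨c, hc⟩
      refine hz0 k ⟨N₂ * c - 2 ^ k * ⟨(i : ℤ), (j : ℤ)⟩, ?_⟩
      rw [map_sub, map_mul, map_mul, map_natCast, hc, map_pow, map_ofNat]
      field_simp
      ring

end

theorem Omp_ne : Omp ≠ 0 := by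
  obtain ⟨A, hA⟩ := c3b_exists_val
  intro h
  have h2 := Omp_val A hA
  rw [h, zero_div, map_zero, zero_pow two_ne_zero] at h2
  exact c3b_la_ne A h2.symm

end TH
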