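import Pool.Agent.MP_9ab903_nt.TH.C0

/-!
# [NG3] blocks D, E: definitions
-/

set_option autoImplicit false

open NumberField IsDedekindDomain MeasureTheory Set
open CM27 CMT CF NAB NG
open scoped ComplexConjugate Classical Matrix

namespace TH

section
variable (F : IntermediateField ℚ ℂ) [NumberField F] (hw : w ∈ F)

/-- `Φ` is the entire continuation of `Λ_F(s) = ∑ conj ψ'(I) N(I)^(-s)`. -/
structure IsLam (Φ : ℂ → ℂ) : Prop where
  diff : Differentiable ℂ Φ
  sum : ∀ s : ℂ, 3 / 2 < s.re → HasSum (fun I : Ideal (𝓞 F) =>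
          conj (emb (Ps (eF F hw) I)) * (Ideal.absNorm I : ℂ) ^ (-s)) (Φ s)

/-- `Λ_F(1)` is a unit at `3` times the `n`-th power of the period. -/
def UN (n : ℕ) : Prop := ∃ Φ : ℂ → ℂ, IsLam F hw Φ ∧
  ∀ A : ValuationSubring ℂ, A.valuation 3 < 1 → A.valuation (Φ 1 / Omp ^ n) = 1

omit hw in
/-- The principal character modulo `m`. -/
noncomputable def chi1 (m : 𝓞 F) (I : Ideal (𝓞 F)) : ℂ :=
  if I ≠ 0 ∧ IsCoprime I (Ideal.span {m}) then 1 else 0

end

end TH
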