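import Pool.Agent.MP_9ab903_nt.TH.C16a
import Pool.Agent.MP_9ab903_nt.TH.E0
import Pool.Agent.MP_9ab903_nt.TH.C1b
import Pool.Agent.MP_9ab903_nt.TH.C3b

/-!
# [NG3-C16a], [NG3-C16] the base: `Λ_K(1) = E1 (1/π) / π`, `K = ℚ(ω)`

* `E1_series`: for `z ∉ ℤ[ω]` there is an entire `Φ` with `Φ s = ∑_{a ∈ ℤ[ω]} conj (z + a) |z + a|^(-2s)` for `Re s > 3/2` and `Φ 1 = E1 z`. (`Φ s = π^s/Γ(s) ∫_0^∞ u^(s-1) Tk 1 u z du`;
  either from `unfold_abs` (NG/H4b) and `TI_entire` (NG/G10) with `r = 0`, `w = 0`, `L = 1`, `JE = 1`: `TI` for `r = 0` is the integral over `σ` of `ThD`, and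
  `ThD 0 x 1 (σ) = Tk 1 σ (x 0)`; or from the theta functions of `NAB/A2c.lean` (`Tk_int`, decay at `0` and `∞`) as there.)
* `base_sum`: `I ↦ Ps (eF KK d2_w_mem) I`, the ideals of `𝓞 KK` prime to `π` are `(b)` with a unique `b ≡ 1 mod π`, `b = 1 + π a = π (1/π + a)`: so
  `∑_I conj (ps I) N(I)^(-s) = ∑_a conj (π (z₀ + a)) |π (z₀ + a)|^(-2s)`, `z₀ = 1/π`; `= conj π |π|^(-2s) Φ s`, at `s = 1`: `Φ(1)/π`.
  (`Ps (eF KK d2_w_mem) (b) = b`: `ps_span`, the norm from `KK` to `KK` is the identity; every ideal is principal: `𝓞 KK ≃ Eis`, `d2`.)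
* `UN_base`: `A.valuation (Omp/emb p7/Omp^1) = 1` since `λ ∤ π` (`val_not_la`).
-/

set_option autoImplicit false

open NumberField IsDedekindDomain MeasureTheory Set
open CM27 CMT CF NAB NG
open scoped ComplexConjugate Classical Matrix

namespace TH

private theorem c16_norm (x : KK) : letI := algK KK d2_w_mem; Algebra.norm KK x = x := by
  let _ := algK KK d2_w_mem
  have := d2_finite KK d2_w_mem
  have h1 : algebraMap KK KK x = x := rfl
  have h2 := Algebra.norm_algebraMap (R := KK) (S := KK) x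
  have h3 := d2_finrank KK d2_w_mem
  rw [d2_finrank_KK] at h3
  have h4 := Nat.eq_of_mul_eq_mul_left two_pos (h3.trans (mul_one 2).symm)
  rw [h4, pow_one, h1] at h2
  exact h2

private theorem c16_coe (a : Eis) : (((eF KK d2_w_mem a : 𝓞 KK) : KK) : ℂ) = emb a := rfl

private theorem c16_inj : Function.Injective (eF KK d2_w_mem) := by
  intro a b hab
  apply emb_injective
  have := congrArg (fun x : 𝓞 KK => ((x : KK) : ℂ)) hab
  exact this

private theorem c16_surj : Function.Surjective (eF KK d2_w_mem) := by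
  intro x
  obtain ⟨φ, hφ⟩ := exists_KK
  obtain ⟨a, ha⟩ := φ.surjective x
  refine ⟨a, ?_⟩
  apply RingOfIntegers.ext
  apply Subtype.ext
  rw [c16_coe, ← hφ, ha]

private theorem c16_cop (a : Eis) : IsCoprime (Ideal.span {eF KK d2_w_mem (1 + p7 * a)})
    (Ideal.span {eF KK d2_w_mem p7}) := by
  rw [Ideal.isCoprime_span_singleton_iff]
  refine ⟨1, -eF KK d2_w_mem a, ?_⟩
  rw [map_add, map_mul, map_one]
  ring

private theorem c16_one_add_ne (a : Eis) : 1 + p7 * a ≠ 0 := by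
  intro h
  refine p7_prime.not_isUnit (IsUnit.of_mul_eq_one (-a) ?_)
  linear_combination -h

private theorem c16_ne (a : Eis) : eF KK d2_w_mem (1 + p7 * a) ≠ 0 := by
  intro h
  exact c16_one_add_ne a (c16_inj (h.trans (map_zero _).symm))

private theorem c16_Ps (a : Eis) :
    Ps (eF KK d2_w_mem) (Ideal.span {eF KK d2_w_mem (1 + p7 * a)}) = 1 + p7 * a := by
  refine ps_span KK d2_w_mem _ (c16_ne a) (c16_cop a) _ ⟨a, by ring⟩ ?_
  have h := c16_norm ((eF KK d2_w_mem (1 + p7 * a) : 𝓞 KK) : KK)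
  exact (congrArg (fun x : KK => (x : ℂ)) h).trans (c16_coe _)

private theorem c16_absNorm (a : Eis) :
    (Ideal.absNorm (Ideal.span {eF KK d2_w_mem (1 + p7 * a)}) : ℂ) =
      ((‖emb (1 + p7 * a)‖ ^ 2 : ℝ) : ℂ) := by
  have h := ps_mul_conj KK d2_w_mem (Ideal.span {eF KK d2_w_mem (1 + p7 * a)})
    (by
      rw [Ideal.zero_eq_bot, Ne, Ideal.span_singleton_eq_bot]
      exact c16_ne a) (c16_cop a)
  rw [c16_Ps] at h
  rw [← h, Complex.mul_conj']
  push_cast
  rfl

private theorem c16_p7_ne : emb p7 ≠ 0 := by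
  intro h
  exact p7_prime.ne_zero (emb_injective (h.trans (map_zero _).symm))

private theorem c16_emb (a : Eis) : emb (1 + p7 * a) = emb p7 * (1 / emb p7 + emb a) := by
  rw [map_add, map_mul, map_one, mul_add, mul_one_div_cancel c16_p7_ne]

private theorem c16_z0 : (1 / emb p7) ∉ Set.range emb := by
  rintro ⟨a, ha⟩
  refine p7_prime.not_isUnit (IsUnit.of_mul_eq_one a (emb_injective ?_))
  rw [map_mul, ha, map_one, mul_one_div_cancel c16_p7_ne]

private theorem c16_ginj : Function.Injective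
    (fun a : Eis => Ideal.span {eF KK d2_w_mem (1 + p7 * a)}) := by
  intro a b hab
  have h1 : Ideal.span {eF KK d2_w_mem (1 + p7 * a)} =
      Ideal.span {eF KK d2_w_mem (1 + p7 * b)} := hab
  have h2 : 1 + p7 * a = 1 + p7 * b := by
    rw [← c16_Ps a, ← c16_Ps b, h1]
  have h3 := congrArg emb (add_left_cancel h2)
  rw [map_mul, map_mul] at h3
  exact emb_injective (mul_left_cancel₀ c16_p7_ne h3)

private theorem c16_range (I : Ideal (𝓞 KK))
    (hI : I ∉ Set.range (fun a : Eis => Ideal.span {eF KK d2_w_mem (1 + p7 * a)})) :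
    Ps (eF KK d2_w_mem) I = 0 := by
  by_cases h0 : I = 0
  · rw [h0]
    exact Ps_bot _
  by_cases hc : IsCoprime I (Ideal.span {eF KK d2_w_mem p7})
  swap
  · exact Ps_eq_zero _ _ hc
  exfalso
  have := eis_pid
  have : IsPrincipalIdealRing (𝓞 KK) :=
    IsPrincipalIdealRing.of_surjective (eF KK d2_w_mem) c16_surj
  obtain ⟨x, hx⟩ := IsPrincipalIdealRing.principal I
  obtain ⟨b, rfl⟩ := c16_surj x
  rw [Ideal.submodule_span_eq] at hx
  have hb : ¬ p7 ∣ b := by
    rintro ⟨t, rfl⟩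
    rw [hx, Ideal.isCoprime_span_singleton_iff] at hc
    obtain ⟨u, v, huv⟩ := hc
    obtain ⟨u, rfl⟩ := c16_surj u
    obtain ⟨v, rfl⟩ := c16_surj v
    have h1 : u * (p7 * t) + v * p7 = 1 := c16_inj (by
      rw [map_add, map_mul, map_mul _ v p7, map_one]
      exact huv)
    exact p7_prime.not_isUnit (IsUnit.of_mul_eq_one (u * t + v) (by linear_combination h1))
  obtain ⟨ε, hε, t, ht⟩ := exists_unit7 hb
  refine hI ⟨t, ?_⟩
  have h1 : 1 + p7 * t = ε * b := by linear_combination -ht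
  have h2 : IsUnit (eF KK d2_w_mem ε) := ((unit_iff ε).2 hε).map _
  simp only
  rw [h1, hx, map_mul, Ideal.span_singleton_mul_left_unit h2]

theorem base_value : ∃ Φ : ℂ → ℂ, IsLam KK d2_w_mem Φ ∧ Φ 1 = Omp / emb p7 := by
  obtain ⟨Φ, hd, hs, h1⟩ := E1_series (1 / emb p7) c16_z0
  have hp : 0 < ‖emb p7‖ ^ 2 := by
    have := norm_pos_iff.2 c16_p7_ne
    positivity
  refine ⟨fun s => conj (emb p7) * ((‖emb p7‖ ^ 2 : ℝ) : ℂ) ^ (-s) * Φ s, ⟨?_, ?_⟩, ?_⟩
  · have h3 : Differentiable ℂ fun s : ℂ => ((‖emb p7‖ ^ 2 : ℝ) : ℂ) ^ (-s) := by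
      intro s
      refine DifferentiableAt.const_cpow (by fun_prop) (Or.inl ?_)
      exact_mod_cast hp.ne'
    exact (h3.const_mul _).mul hd
  · intro s hs'
    rw [← c16_ginj.hasSum_iff]
    · have h4 := (hs s hs').mul_left (conj (emb p7) * ((‖emb p7‖ ^ 2 : ℝ) : ℂ) ^ (-s))
      have e : ((fun I : Ideal (𝓞 KK) => conj (emb (Ps (eF KK d2_w_mem) I)) *
          (Ideal.absNorm I : ℂ) ^ (-s)) ∘
          fun a : Eis => Ideal.span {eF KK d2_w_mem (1 + p7 * a)}) =
          fun a : Eis => conj (emb p7) * ((‖emb p7‖ ^ 2 : ℝ) : ℂ) ^ (-s) *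
            (conj (1 / emb p7 + emb a) * ((‖1 / emb p7 + emb a‖ ^ 2 : ℝ) : ℂ) ^ (-s)) := by
        funext a
        simp only [Function.comp_apply]
        rw [c16_Ps, c16_absNorm, c16_emb, norm_mul, mul_pow, Complex.ofReal_mul,
          Complex.mul_cpow_ofReal_nonneg (by positivity) (by positivity), map_mul]
        ring
      rw [e]
      exact h4
    · intro I hI
      rw [c16_range I hI, map_zero, map_zero, zero_mul]
  · have h5 : ((‖emb p7‖ ^ 2 : ℝ) : ℂ) = emb p7 * conj (emb p7) := by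
      rw [Complex.mul_conj']
      push_cast
      rfl
    have h6 : conj (emb p7) ≠ 0 := by
      intro h
      exact c16_p7_ne ((map_eq_zero _).1 h)
    simp only [h1]
    rw [Complex.cpow_neg_one, h5, Omp, mul_inv]
    have h7 := c16_p7_ne
    field_simp

theorem UN_base : UN KK d2_w_mem 1 := by
  obtain ⟨Φ, hΦ, h1⟩ := base_value
  refine ⟨Φ, hΦ, fun A hA => ?_⟩
  have hw1 : A.valuation w = 1 := by
    have h2 : A.valuation w ^ 3 = 1 := by rw [← map_pow, w_cube, map_one]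
    exact (pow_eq_one_iff.1 h2).resolve_right (by norm_num)
  have hp : A.valuation (emb p7) = 1 := by
    have h3 : emb p7 = 3 + w := by
      rw [emb_apply]
      simp [p7]
    rw [h3, Valuation.map_add_eq_of_lt_right _ (by rw [hw1]; exact hA), hw1]
  rw [h1, pow_one, div_right_comm, div_self Omp_ne, map_div₀, hp, map_one, div_one]

end TH
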