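import Pool.Agent.MP_9ab903_nt.TH.C0
import Pool.Agent.MP_9ab903_nt.NG.H4b

/-!
# [NG3-C16a], [NG3-C16] the base: `Λ_K(1) = E1 (1/π) / π`, `K = ℚ(ω)`

* `E1_series`: for `z ∉ ℤ[ω]` there is an entire `Φ` with `Φ s = ∑_{a ∈ ℤ[ω]} conj (z + a) |z + a|^(-2s)` for `Re s > 3/2` and `Φ 1 = E1 z`. (`Φ s = π^s/Γ(s) ∫_0^∞ u^(s-1) Tk 1 u z du`;
  either from `unfold_abs` (NG/H4b) and `TI_entire` (NG/G10) with `r = 0`, `w = 0`, `L = 1`, `JE = 1`: `TI` for `r = 0` is the integral over `σ` of `ThD`, and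
  `ThD 0 x 1 (σ) = Tk 1 σ (x 0)`; or from the theta functions of `NAB/A2c.lean` (`Tk_int`, decay at `0` and `∞`) as there.)
* `base_sum`: `I ↦ Ps (eF KK d2_w_mem) I`, the ideals of `𝓞 KK` prime to `π` are `(b)` with a unique `b ≡ 1 mod π`, `b = 1 + π a = π (1/π + a)`: so
  `∑_I conj (ps I) N(I)^(-s) = ∑_a conj (π (z₀ + a)) |π (z₀ + a)|^(-2s)`, `z₀ = 1/π`; `= conj π |π|^(-2s) Φ s`, at `s = 1`: `Φ(1)/π`.
  (`Ps (eF KK d2_w_mem) (b) = b`: `ps_span`, the norm from `KK` to `KK` is the identity; every ideal is principal: `𝓞 KK ≃ Eis`, `d2`.)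
* `UN_base`: `A.valuation (Omp/emb p7/Omp^1) = 1` since `λ ∤ π` (`val_not_la`).
-/

set_option autoImplicit false

open NumberField IsDedekindDomain MeasureTheory Set
open CM27 CMT CF NAB NG
open scoped ComplexConjugate Classical Matrix

namespace TH

noncomputable def c16a_e : (Fin (0 + 1) → Eis) ≃ Eis := Equiv.funUnique (Fin 1) Eis

theorem c16a_sum (z : ℂ) (t : ℝ) (ht : 2 < t) :
    Summable fun a : Eis => ‖z + emb a‖ ^ (-t) := by
  have h1 : Summable fun a : Eis => 2 ^ t * ‖emb a‖ ^ (-t) := (summable_norm t ht).mul_left _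
  refine Summable.of_norm_bounded_eventually h1 ?_
  filter_upwards [g2b_eventually_large (max (2 * ‖z‖) 1)] with a ha
  have ha1 : 1 ≤ ‖emb a‖ := (le_max_right _ _).trans ha
  have ha2 : 2 * ‖z‖ ≤ ‖emb a‖ := (le_max_left _ _).trans ha
  have h2 : ‖emb a‖ / 2 ≤ ‖z + emb a‖ := by
    have h3 : ‖emb a‖ ≤ ‖z + emb a‖ + ‖z‖ := by
      calc ‖emb a‖ = ‖(z + emb a) - z‖ := by rw [add_sub_cancel_left]
        _ ≤ _ := norm_sub_le _ _
    linarith
  rw [Real.norm_of_nonneg (by positivity)]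
  calc ‖z + emb a‖ ^ (-t) ≤ (‖emb a‖ / 2) ^ (-t) :=
        Real.rpow_le_rpow_of_nonpos (by positivity) h2 (by linarith)
    _ = 2 ^ t * ‖emb a‖ ^ (-t) := by
        rw [Real.div_rpow (by positivity) (by norm_num), Real.rpow_neg (by norm_num : (0:ℝ) ≤ 2),
          div_inv_eq_mul, mul_comm]

theorem c16a_dot (v : Fin (0 + 1) → ℂ) (j : Fin (0 + 1)) : (1 : Mc (0 + 1)) j ⬝ᵥ v = v 0 := by
  have hj : j = 0 := Subsingleton.elim (α := Fin 1) _ _
  subst hj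
  simp [dotProduct]

theorem c16a_ThD (z : ℂ) (b : Fin (0 + 1) → ℝ) :
    ThD 0 (fun _ => z) (1 : Mc (0 + 1)) b = Tk 1 (b 0) z := by
  rw [ThD, NG.th, Tk, ← c16a_e.symm.tsum_eq]
  refine tsum_congr fun a => ?_
  have h1 : ch (0 : Fin (0 + 1) → ℂ) ((fun _ => z) +
      NG.em (c16a_e.symm a)) = 1 := by
    simp [ch]
  have h2 : ∀ j : Fin (0 + 1), (((fun _ => z) +
      NG.em (c16a_e.symm a) : Fin (0 + 1) → ℂ)) j = z + emb a := by
    intro j
    rfl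
  have h3 : hq (∑ j, (b j : ℂ) • NG.sq ((1 : Mc (0 + 1)) j)) ((fun _ => z) +
      NG.em (c16a_e.symm a)) = b 0 * ‖z + emb a‖ ^ 2 := by
    rw [hq_sum, Fin.sum_univ_one, hq_sq, c16a_dot, h2]
  have h4 : (∏ j, conj ((1 : Mc (0 + 1)) j ⬝ᵥ ((fun _ => z) +
      NG.em (c16a_e.symm a)))) = conj (z + emb a) := by
    rw [Fin.prod_univ_one, c16a_dot, h2]
  rw [h1, h3, h4, one_mul, pow_one, mul_assoc]

theorem c16a_JE : JE (fun (_ : Fin 0) (_ : Fin (0 + 1)) => ‖(1 : ℂ)‖ ^ 2) = 1 := by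
  simp [JE]

theorem c16a_TI (z : ℂ) : TI 0 (fun _ => z) (1 : Mc (0 + 1))
    (fun (_ : Fin 0) (_ : Fin (0 + 1)) => ‖(1 : ℂ)‖ ^ 2) 0 = ∫ u in Ioi (0 : ℝ), Tk 1 u z := by
  have h1 : ∀ t : Fin 0 → ℝ, (∫ σ in Ioi (0 : ℝ),
      (σ : ℂ) ^ ((((0 : ℕ) : ℂ) + 1) * 0 + ((0 : ℕ) : ℂ)) * ThD 0 (fun _ => z) (1 : Mc (0 + 1))
        (σ • Ex (fun (_ : Fin 0) (_ : Fin (0 + 1)) => ‖(1 : ℂ)‖ ^ 2) t)) =
      ∫ u in Ioi (0 : ℝ), Tk 1 u z := by
    intro t
    refine setIntegral_congr_fun measurableSet_Ioi fun σ _ => ?_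
    simp only [c16a_ThD]
    rw [mul_zero, zero_add, Nat.cast_zero, Complex.cpow_zero, one_mul]
    congr 1
    simp [Ex]
  rw [TI]
  simp only [h1]
  have h2 : (Icc (0 : Fin 0 → ℝ) 1) = Set.univ := by
    ext t
    simp only [mem_Icc, mem_univ, iff_true]
    exact ⟨fun i => i.elim0, fun i => i.elim0⟩
  rw [h2, Measure.restrict_univ, Measure.volume_pi_eq_dirac (fun _ => 0), integral_dirac]

theorem E1_series (z : ℂ) (hz : z ∉ Set.range emb) : ∃ Φ : ℂ → ℂ, Differentiable ℂ Φ ∧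
    (∀ s : ℂ, 3 / 2 < s.re → HasSum (fun a : Eis =>
      conj (z + emb a) * ((‖z + emb a‖ ^ 2 : ℝ) : ℂ) ^ (-s)) (Φ s)) ∧ Φ 1 = E1 z := by
  have hne : ∀ a : Eis, z + emb a ≠ 0 := by
    intro a h
    exact hz ⟨-a, by rw [map_neg]; linear_combination -h⟩
  have hx : (fun _ => z : Fin (0 + 1) → ℂ) ∉ Lz (0 + 1) := by
    rintro ⟨m, hm⟩
    exact hz ⟨m 0, congrFun hm 0⟩
  refine ⟨fun s => (Real.pi : ℂ) ^ (((0 : ℕ) + 1 : ℂ) * s) * (Complex.Gamma s ^ (0 + 1))⁻¹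
        * (JE (fun (_ : Fin 0) (_ : Fin (0 + 1)) => ‖(1 : ℂ)‖ ^ 2) : ℂ) *
        TI 0 (fun _ => z) (1 : Mc (0 + 1))
          (fun (_ : Fin 0) (_ : Fin (0 + 1)) => ‖(1 : ℂ)‖ ^ 2) (s - 1), ?_, ?_, ?_⟩
  · have h1 : Differentiable ℂ (TI 0 (fun _ => z) (1 : Mc (0 + 1))
          (fun (_ : Fin 0) (_ : Fin (0 + 1)) => ‖(1 : ℂ)‖ ^ 2)) :=
      TI_entire _ _ hx _ (by simp) _ (fun i => i.elim0)
    have h2 : Differentiable ℂ fun s : ℂ => (Complex.Gamma s ^ (0 + 1))⁻¹ := by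
      simpa using Complex.differentiable_one_div_Gamma
    have h3 : Differentiable ℂ fun s : ℂ => (Real.pi : ℂ) ^ (((0 : ℕ) + 1 : ℂ) * s) := by
      intro s
      refine DifferentiableAt.const_cpow (by fun_prop) (Or.inl ?_)
      exact_mod_cast Real.pi_pos.ne'
    exact ((h3.mul h2).mul_const _).mul (h1.comp (differentiable_id.sub_const 1))
  · intro s hs
    have h := unfold_abs (r := 0) 0 (fun _ => z) (1 : Mc (0 + 1)) (by simp)
      (fun (_ : Fin 0) (_ : Fin (0 + 1)) => (1 : ℂ)) (fun i => i.elim0)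
      (by rw [c16a_JE]; exact one_pos) (ι := Eis) (fun a _ => z + emb a) (fun a _ => hne a)
      (fun _ => 1) ((Equiv.prodUnique Eis (Fin 0 → ℤ)).trans
        c16a_e.symm)
      (by
        intro a k j
        rw [c16a_dot, Finset.univ_eq_empty, Finset.prod_empty, one_mul]
        rfl)
      (by
        intro a k
        simp [ch]) s (by linarith)
      (by
        have h1 := c16a_sum z (2 * s.re - 1) (by linarith)
        refine h1.congr fun a => ?_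
        rw [Fin.prod_univ_one]
        congr 1
        ring)
    have e : (fun a : Eis => conj (z + emb a) * ((‖z + emb a‖ ^ 2 : ℝ) : ℂ) ^ (-s)) =
        fun a : Eis => 1 * conj (∏ _j : Fin (0 + 1), (z + emb a)) *
          ((∏ _j : Fin (0 + 1), ‖z + emb a‖ ^ 2 : ℝ) : ℂ) ^ (-s) := by
      funext a
      rw [Fin.prod_univ_one, Fin.prod_univ_one, one_mul]
    rw [e]
    exact h
  · have h0 : (1 : ℂ) - 1 = 0 := sub_self 1
    rw [E1]
    simp only [h0, c16a_TI, c16a_JE]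
    rw [Complex.Gamma_one]
    simp

end TH
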