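import Pool.Agent.MP_9ab903_nt.TH.C2
import Pool.Agent.MP_9ab903_nt.TH.C1

/-!
# [NG3-C17] the absolute value of the period `Omp = E1 (1/π)`

`z₀ = 1/π`, `2 z₀ = ω² z₀ + 1` (`2 - ω² = 3 + ω = π`). `E1 (2 z₀) = E1 (ω² z₀) = ω E1 z₀` (`E1_w` twice: `w^4 = w`) and `E1_two`, `lam_eq`: `(ω - 2) E1 z₀ = OmC lx z₀`,
`lx = 3x²/y`, `x = xw z₀`, `y = yw z₀`. `xw (2z₀) = ω² x` and `xw_two'`: `lx² = (2 + ω²) x = λ x`, so `9 x⁴ = λ x y²`, `x ≠ 0` (`xw_ne`): `9 x³ = λ y² = λ (4x³ + 1)` (`weq`),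
`x³ (5 + 4ω) = λ`. Norms: `|x|⁶ = 3/21 = 1/7`, `|y|² = 9|x|³/√3`, `|E1 z₀/OmC|² = 9|x|⁴/(7|y|²) = √3 |x|/7`. So `‖Omp/OmC‖⁴ = 3 |x|²/49`,
`‖Omp/OmC‖^12 = 27 |x|⁶ / 7⁶ = 27/7⁷`.
-/

set_option autoImplicit false

open NumberField IsDedekindDomain MeasureTheory Set
open CM27 CMT CF NAB NG
open scoped ComplexConjugate Classical Matrix

namespace TH

theorem c17_mem (a : Eis) (h : ¬ (7 : ℤ) ∣ a.norm) : emb a * (1 / emb p7) ∉ Set.range emb := by
  rintro ⟨b, hb⟩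
  have hp : emb p7 ≠ 0 := by
    intro h0
    rw [h0, div_zero, mul_zero] at hb
    have h1 : p7 = 0 := emb_injective (by rw [h0, map_zero])
    exact absurd h1 (by decide)
  have h1 : emb (b * p7) = emb a := by
    rw [map_mul, hb]
    field_simp
  have h2 : b * p7 = a := emb_injective h1
  apply h
  rw [← h2, map_mul]
  have h3 : p7.norm = 7 := by rw [CM27.norm_eq]; norm_num [p7]
  rw [h3]
  exact dvd_mul_left _ _

theorem c17_norm (a : Eis) : ‖emb a‖ ^ 2 = ((a.norm : ℤ) : ℝ) := by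
  rw [← Complex.normSq_eq_norm_sq, normSq_emb]

theorem norm_OmC : ‖OmC‖ = Om := by
  rw [OmC, norm_mul, Complex.norm_I, one_mul, Complex.norm_real, Real.norm_eq_abs,
    abs_of_pos Om_pos]

theorem Omp_norm : ‖Omp‖ ^ 12 * 7 ^ 7 = 27 * Om ^ 12 := by
  have hp : emb p7 ≠ 0 := by
    intro h0
    have h1 : p7 = 0 := emb_injective (by rw [h0, map_zero])
    exact absurd h1 (by decide)
  have hp7 : emb p7 = 3 + w := by
    rw [emb_apply]
    simp [p7]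
  have hw2 : w ^ 2 = -1 - w := by linear_combination w_quad
  set z : ℂ := 1 / emb p7 with hz
  have hoff : Off z := by
    have h := c17_mem 2 (by
      rw [show (2 : Eis) = ⟨2, 0⟩ from by decide, CM27.norm_eq]
      norm_num)
    rw [map_ofNat] at h
    exact h
  have hz0 : z ∉ Set.range emb := by
    have h := c17_mem 1 (by rw [map_one]; norm_num)
    rw [map_one, one_mul] at h
    exact h
  have hla : emb la * z ∉ Set.range emb := c17_mem la (by rw [CM27.norm_eq]; norm_num [la])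
  have h2z : 2 * z = w * (w * z) + emb 1 := by
    rw [map_one, hz, hp7]
    rw [hp7] at hp
    field_simp
    linear_combination -hw2
  have hE : E1 (2 * z) = w ^ 2 * (w ^ 2 * E1 z) := by
    rw [h2z, E1_per, E1_w, E1_w]
  have hX : xw (2 * z) = w * (w * xw z) := by
    rw [h2z, xw_add, xw_w, xw_w]
  have h1 := E1_two z hoff
  rw [hE, CM27.lam_eq z hoff] at h1
  have h2 := xw_two' z hoff
  rw [hX] at h2
  have hy : yw z ≠ 0 := b1_yw_ne hoff
  have hx : xw z ≠ 0 := xw_ne z hla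
  have hweq := weq z hz0
  set x := xw z with hxd
  set y := yw z with hyd
  have h3 : lx z ^ 2 = (1 - w) * x := by linear_combination (-1 : ℂ) * h2 + x * hw2
  have h4 : lx z ^ 2 * y ^ 2 = 9 * x ^ 4 := by
    rw [lx, ← hxd, ← hyd]
    field_simp
    ring
  have h5 : x ^ 3 * (5 + 4 * w) = 1 - w := by
    have h6 : x * (x ^ 3 * (5 + 4 * w)) = x * (1 - w) := by
      rw [h3, hweq] at h4
      linear_combination (-1 : ℂ) * h4
    exact mul_left_cancel₀ hx h6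
  have h6 : (w - 2) * E1 z = OmC * lx z := by
    have hw4 : w ^ 2 * w ^ 2 = w := by linear_combination w * w_cube
    linear_combination h1 - E1 z * hw4
  have n1 : ‖(5 : ℂ) + 4 * w‖ ^ 2 = 21 := by
    have h := c17_norm ⟨5, 4⟩
    rw [CM27.norm_eq, emb_apply] at h
    norm_num at h
    exact h
  have n2 : ‖1 - w‖ ^ 2 = 3 := by
    have h := c17_norm la
    rw [CM27.norm_eq, emb_la] at h
    norm_num [la] at h
    exact h
  have n3 : ‖w - 2‖ ^ 2 = 7 := by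
    have h := c17_norm ⟨-2, 1⟩
    rw [CM27.norm_eq, emb_apply] at h
    norm_num at h
    rw [show w - 2 = -2 + w by ring]
    exact h
  have n4 : ‖x‖ ^ 6 * 21 = 3 := by
    have h := congrArg (fun t : ℂ => ‖t‖ ^ 2) h5
    simp only [norm_mul, norm_pow, mul_pow] at h
    rw [n1, n2, ← pow_mul] at h
    exact h
  have n5 : ‖E1 z‖ ^ 2 * 7 = Om ^ 2 * ‖lx z‖ ^ 2 := by
    have h := congrArg (fun t : ℂ => ‖t‖ ^ 2) h6
    simp only [norm_mul, mul_pow] at h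
    rw [n3, norm_OmC] at h
    linear_combination h
  have n6 : ‖lx z‖ ^ 2 = ‖1 - w‖ * ‖x‖ := by
    have h := congrArg (fun t : ℂ => ‖t‖) h3
    simp only [norm_mul, norm_pow] at h
    exact h
  have n7 : ‖E1 z‖ ^ 4 * 49 = Om ^ 4 * (3 * ‖x‖ ^ 2) := by
    calc ‖E1 z‖ ^ 4 * 49 = (‖E1 z‖ ^ 2 * 7) ^ 2 := by ring
      _ = Om ^ 4 * (‖1 - w‖ ^ 2 * ‖x‖ ^ 2) := by rw [n5, n6]; ring
      _ = Om ^ 4 * (3 * ‖x‖ ^ 2) := by rw [n2]
  have n8 : ‖x‖ ^ 6 * 7 = 1 := by linarith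
  change ‖E1 z‖ ^ 12 * 7 ^ 7 = 27 * Om ^ 12
  calc ‖E1 z‖ ^ 12 * 7 ^ 7 = (‖E1 z‖ ^ 4 * 49) ^ 3 * 7 := by ring
    _ = 27 * Om ^ 12 * (‖x‖ ^ 6 * 7) := by rw [n7]; ring
    _ = 27 * Om ^ 12 := by rw [n8, mul_one]

end TH
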