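import Pool.Agent.MP_9ab903_nt.TH.C2a

/-!
# [NG3-C2a], [NG3-C2] multiplication by `λ = 1 - ω` on `y² = 4 x³ + 1` and `E1`

Coordinates `xw`, `yw` (`weq : y² = 4x³ + 1`), `xw (w z) = w xw z`, `yw (w z) = yw z` (`xw_w`, `yw_w`, AN/A4).  `add_x`, `add_y` (AN/A4) for
`(ω z, λ z)`: `ω z + λ z = z`, and `x(z) ≠ x(ωz) = ω x(z)` iff `x(z) ≠ 0`.

* `xw_ne`: if `xw z = 0` then `pt (w z) = pt z` (same coordinates; `pt_of_not_mem`, or both `.some` equal), so `z - w z = λ z ∈ O` (`pt_eq_iff`).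
* `xw_la`: `add_x (w z) (λ z)`: `x(λz) = (2y / (λx))² / 4 - x - ωx = y²/(λ²x²) + ω² x = (x³ + 1)/(λ² x²)` (`ω²λ² = -3`).
* `yw_la`: `add_y (w z) (λ z)`: `y(λz) = -(y + (2y/(λx)) (x(λz) - x)) = y (x³ - 2)/(λ³ x³)`.
* `xw_two'`, `yw_two'`: `x(2z) = -2x + (3x²/y)² = (x⁴ - 2x)/y²`, `y(2z) = (2x⁶ + 10x³ - 1)/y³` (in AN there is `xw_two`; or `pt_add`/`a7_pt_zsmul` and the
  duplication formula; or `add_x`, `add_y` for `z + z` replaced by a limit: not needed).
* `E1_w`: in `E1 z = π ∫ Tk 1 u z du`: `conj (w z + w a) = conj w · conj (z + a)`, `|w| = 1`, reindex `a ↦ w a` (`a1_om`, `a1_emb_mul`): `E1 (w z) = conj w · E1 z`,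
  `conj w = w²`. `E1_unit`: the units are `± w^i`, `E1_neg`.
* `E1_la` (odd order, prime to `λ`): `D z = E1 (λz) + ω²λ E1 z - OmC · slope z`, `slope z = y/(λx)`. `E1_two` at `z` and `λz`, `lam_eq`:
  `D (2z) - 2 D z = OmC (lx (λz) + ω²λ lx z - slope (2z) + 2 slope z) = 0` by the identity (multiply by `λxy(x³-2)`, `t = x³`):
  `2t² + 10t - 1 - 2(4t+1)(t-2) = 3(t+1)² - 9t(t-2)` (`ω²λ² = -3`). Then `D (2^k z) = 2^k D z`, `2^k z = z + a` (`a10_data`), `D` is periodic: `D z = 0`.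
-/

set_option autoImplicit false

open NumberField IsDedekindDomain MeasureTheory Set
open CM27 CMT CF NAB NG
open scoped ComplexConjugate Classical Matrix

namespace TH

theorem c2_conj (e : Eis) (he : IsUnit e) : emb e * conj (emb e) = 1 := by
  rw [Complex.mul_conj, Complex.normSq_eq_norm_sq, A9_norm_unit he]
  norm_num

theorem c2_norm (e : Eis) (he : IsUnit e) : ‖emb e‖ = 1 := by
  have h := A9_norm_unit he
  have h0 := norm_nonneg (emb e)
  nlinarith

/-- multiplication by a unit -/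
theorem c2_unit (e : Eis) (he : IsUnit e) (z : ℂ) : E1 (emb e * z) = conj (emb e) * E1 z := by
  obtain ⟨u, rfl⟩ := he
  have hT : ∀ s : ℝ, Tk 1 s (emb (u : Eis) * z) = conj (emb (u : Eis)) * Tk 1 s z := by
    intro s
    unfold Tk
    rw [← tsum_mul_left, ← (Units.mulLeft u).tsum_eq]
    apply tsum_congr
    intro a
    have h1 : emb (u : Eis) * z + emb ((Units.mulLeft u) a) = emb (u : Eis) * (z + emb a) := by
      rw [Units.mulLeft_apply, map_mul]
      ring
    rw [h1, norm_mul, c2_norm _ u.isUnit, one_mul, pow_one, pow_one, map_mul]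
    ring
  unfold E1
  simp only [hT]
  rw [integral_const_mul]
  ring

theorem E1_w (z : ℂ) : E1 (w * z) = w ^ 2 * E1 z := by
  have h1 : IsUnit om := ⟨⟨om, om ^ 2, by decide, by decide⟩, rfl⟩
  have h2 : emb om = w := a1_emb_om
  have h3 := c2_unit om h1 z
  rw [h2] at h3
  rw [h3]
  have h4 := c2_conj om h1
  rw [h2] at h4
  have h5 := w_cube
  congr 1
  have hw0 := a1_w_ne
  apply mul_left_cancel₀ hw0
  rw [h4, ← h5]
  ring

theorem E1_unit (e : Eis) (he : IsUnit e) (z : ℂ) : emb e * E1 (emb e * z) = E1 z := by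
  rw [c2_unit e he, ← mul_assoc, c2_conj e he, one_mul]

/-- the slope `y / (λ x)` -/
noncomputable def slo (z : ℂ) : ℂ := yw z / (emb la * xw z)

/-- the difference -/
noncomputable def c2_D (z : ℂ) : ℂ := E1 (emb la * z) + w ^ 2 * emb la * E1 z - OmC * slo z

theorem c2_D_per (z : ℂ) (a : Eis) : c2_D (z + emb a) = c2_D z := by
  unfold c2_D slo
  rw [mul_add, ← map_mul, E1_per, E1_per, xw_add, yw_add]

theorem c2_two (N : ℕ) (hN : Odd N) (h3 : ¬ 3 ∣ N) (z : ℂ) (hz : (N : ℂ) * z ∈ Set.range emb)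
    (hz0 : z ∉ Set.range emb) : c2_D (2 * z) = 2 * c2_D z := by
  have hla0 := la_not_mem N h3 z hz hz0
  have hlaN : (N : ℂ) * (emb la * z) ∈ Set.range emb := by
    obtain ⟨c, hc⟩ := hz
    exact ⟨la * c, by rw [map_mul, hc]; ring⟩
  have hoff := off_of_odd N hN z hz hz0
  have hoffl := off_of_odd N hN _ hlaN hla0
  have hx0 := xw_ne z hla0
  have hy0 : yw z ≠ 0 := fun h => hoff ((yw_eq_zero_iff z hz0).1 h)
  have hyl0 : yw (emb la * z) ≠ 0 := fun h => hoffl ((yw_eq_zero_iff _ hla0).1 h)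
  have hxl := xw_la z hla0
  have hyl := yw_la z hla0
  have hx2 := xw_two' z hoff
  have hy2 := yw_two' z hoff
  have hw := weq z hz0
  have hl0 : emb la ≠ 0 := by
    intro h
    have h1 := la_sq
    rw [h] at h1
    norm_num at h1
  have ht : xw z ^ 3 - 2 ≠ 0 := by
    intro h
    apply hyl0
    rw [hyl, h, mul_zero, zero_div]
  have e1 := E1_two z hoff
  have e2 := E1_two (emb la * z) hoffl
  rw [lam_eq _ hoff] at e1
  rw [lam_eq _ hoffl] at e2
  have e3 : emb la * (2 * z) = 2 * (emb la * z) := by ring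
  have hls := la_sq
  have key : lx (emb la * z) + w ^ 2 * emb la * lx z - slo (2 * z) + 2 * slo z = 0 := by
    have k1 : lx (emb la * z) = 3 * (xw z ^ 3 + 1) ^ 2 / (emb la * xw z * yw z * (xw z ^ 3 - 2)) := by
      rw [lx, hxl, hyl]
      field_simp
    have k2 : w ^ 2 * emb la * lx z = -9 * xw z ^ 2 / (emb la * yw z) := by
      rw [lx]
      field_simp
      linear_combination 3 * hls
    have k3 : xw (2 * z) = xw z * (xw z ^ 3 - 2) / yw z ^ 2 := by
      rw [hx2, lx]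
      field_simp
      linear_combination (-2) * hw
    have k4 : slo (2 * z) = (2 * xw z ^ 6 + 10 * xw z ^ 3 - 1) /
        (emb la * yw z * xw z * (xw z ^ 3 - 2)) := by
      rw [slo, k3, hy2]
      field_simp
    rw [k1, k2, k4, slo]
    field_simp
    linear_combination (2 * (xw z ^ 3 - 2)) * hw
  unfold c2_D
  rw [e3]
  linear_combination e2 + (w ^ 2 * emb la) * e1 + OmC * key

theorem E1_la (N : ℕ) (hN : Nat.Coprime N 6) (z : ℂ) (hz : (N : ℂ) * z ∈ Set.range emb)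
    (hz0 : z ∉ Set.range emb) :
    E1 (emb la * z) = -(w ^ 2 * emb la) * E1 z + OmC * slo z := by
  have hodd : Odd N := by
    rw [Nat.odd_iff]
    by_contra h
    have h2 : 2 ∣ N := by omega
    have h3 := Nat.dvd_gcd h2 (by norm_num : 2 ∣ 6)
    rw [hN] at h3
    omega
  have h3N : ¬ 3 ∣ N := by
    intro h
    have h3 := Nat.dvd_gcd h (by norm_num : 3 ∣ 6)
    rw [hN] at h3
    omega
  obtain ⟨hd, a, ha⟩ := a10_data N hodd z hz hz0
  have hD : ∀ i : ℕ, c2_D ((2 : ℂ) ^ i * z) = 2 ^ i * c2_D z := by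
    intro i
    induction i with
    | zero => rw [pow_zero, one_mul, one_mul]
    | succ i ih =>
      have e : (2 : ℂ) ^ (i + 1) * z = 2 * ((2 : ℂ) ^ i * z) := by rw [pow_succ']; ring
      rw [e, c2_two N hodd h3N _ (hd i).1 (hd i).2.1, ih, pow_succ']
      ring
  have h1 := hD N.totient
  rw [ha, c2_D_per] at h1
  have h2 : c2_D z = 0 := by
    have h5 : (1 - (2 : ℂ) ^ N.totient) ≠ 0 := by
      obtain ⟨k, hk⟩ : ∃ k, N.totient = k + 1 := ⟨N.totient - 1, by have := a10_tot N hodd; omega⟩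
      rw [hk]
      intro h6
      have h7 : ((1 - 2 ^ (k + 1) : ℤ) : ℂ) = 0 := by push_cast; exact h6
      have h8 : (1 - 2 ^ (k + 1) : ℤ) = 0 := by exact_mod_cast h7
      have h9 : (2 : ℤ) ^ (k + 1) = 2 * 2 ^ k := by rw [pow_succ]; ring
      omega
    apply mul_left_cancel₀ h5
    rw [mul_zero]
    linear_combination h1
  unfold c2_D at h2
  linear_combination h2

end TH
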