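import Pool.Agent.MP_9ab903_nt.TH.C3b

/-!
# [NG3-C3a], [NG3-C3b], [NG3-C3] the values `xw, yw, lx, E1` at torsion points are `λ`-adically controlled; Galois action

`A` a valuation ring of `ℂ` with `A.valuation 3 < 1`; `l = A.valuation (emb la) < 1`, `l² = A.valuation 3` (`3 = -ω²λ²`, `ω` a unit),
`A.valuation 2 = 1` (`2 = 3 - 1`). `z ∉ O`, `N z ∈ O`, `3 ∤ N`; then `λ^k z ∉ O` for all `k` and `λ^k z = z + a` for some `k ≥ 1` (`λ` is invertible modulo
`N`: a finite ring).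

* `xw_val`: let `r³ = -1/4` (`v r = 1`), `x = λ X + r`. By `xw_la` the number `X'` of `λ z` is
  `X' = (X³ + ωλ r X² - λ r² X - ω²/4) / (λ X + r)²`.
  If `v X > 1` then `v X' > v X` (cases `v(λX) < 1`: `v X' = (v X)³`; `v(λX) > 1`: `v X' = v X / l²`; `v(λX) = 1`: `v X' ≥ (v X)³`): impossible by
  periodicity. So `v X ≤ 1`: `A.valuation (xw z - r) ≤ l`, `A.valuation (xw z) = 1`.
* `yw_val_le`: `y² = 4x³ + 1 = λ³ (4X³ - 4ω²λ r X² - 4ω² r² X)`: `v(y)² ≤ l³`.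
* `lx_val_le`: `Off z`: `lx² = x(2z) + 2x(z) = 3r + λ (X₂ + 2X)`: `v(lx)² ≤ l`. And `lx = 3x²/y`: `v(y)² = l⁴ / v(lx)² ≥ l³`; so for odd order
  `v(y)² = l³` exactly.
* `E1_val_la` (`N` prime to `6`): `f k = E1 (λ^k z)/OmC`, `f (k+1) = μ f k + slo (λ^k z)`, `μ = -ω²λ`, `v(slo)² = l³/l² = l` (`E1_la`); `a10_rec`:
  `(1 - μ^k) f 0 = ∑ μ^(k-1-i) slo (λ^i z)`: `v(f)² ≤ l`, and then `f 1 = μ f 0 + slo z`: `v(μ f 0)² ≤ l³ < l = v(slo z)²`, so `v(f 1)² = l`; apply it to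
  `z' = λ^(k-1) z`, `λ z' = z` mod `O`.
* `E1_val_le` (`3 ∤ N`, no `2^j z` in `O`): induction on the power of `2` in `N`: `2 E1 z / OmC = E1 (2z)/OmC - lx z` (`E1_two`, `lam_eq`), `v 2 = 1`,
  `lx_val_le`.
* `Omp`: `N = 7`, `z = 1/π` (`7/π = star π ∈ O`): `v(Omp/OmC)² = l`. So `v(E1 z/Omp) = 1` resp. `≤ 1`.
* `Xi_val3`: as `Xi_val` (NG/G2b) with `Xi_dist` for `M = N₂` (`N₂ θ ∈ Dl`, `3 ∤ N₂`): the points `(z + a)/M` satisfy the hypotheses of `E1_val_le`.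
* `gal_fix'`: `gal_fix` (AN/A7) without the part about `3`.
* `E1_gal3`: induction on the power of `2` in `N` from `E1_gal` (NAB/A10): `E1 z = (E1 (2z) - lam z)/2`; `lx (emb u * z) = σ (lx z)`: `a10_lx` (check that its
  proof only uses `N ≠ 0`; otherwise copy it; `Off z` because `2z ∉ O`). For `2^j z` and odd part `N'` of `N`: `hσu` for `N'` follows from `hσu` for `N`.
* `Xi_gal3`: as `Xi_gal` (NG/G2b).
* `Omp_gal`: `E1_gal` for `N` odd, or `E1_gal3`, at `z = 1/π` (`7 ∣ N`): `σ (Omp/OmC) = E1 (u/π)/OmC`, `ep u * u = 1 + π t`, so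
  `E1 (emb (ep u) * (u/π)) = E1 (1/π + t) = Omp` and `E1_unit`: `E1 (u/π) = emb (ep u) * Omp`.
-/

set_option autoImplicit false

open NumberField IsDedekindDomain MeasureTheory Set
open CM27 CMT CF NAB NG
open scoped ComplexConjugate Classical Matrix

namespace TH

/-! ### Galois action -/

theorem gal_fix' (N : ℕ) (hN : 0 < N) (σ : ℂ ≃+* ℂ) (hσ : σ w = w) :
    ∃ u : Eis, IsCoprime u (N : Eis) ∧
      ∀ c : Eis, ptMap (σ : ℂ →+* ℂ) (pt (emb c / N)) = pt (emb (c * u) / N) := by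
  have hσ' : σ.symm w = w := by
    rw [RingEquiv.symm_apply_eq]; exact hσ.symm
  obtain ⟨u, hu⟩ := a7_hom N hN (σ : ℂ →+* ℂ) hσ
  obtain ⟨u', hu'⟩ := a7_hom N hN (σ.symm : ℂ →+* ℂ) hσ'
  refine ⟨u, ?_, hu⟩
  have h0 : (N : Eis) ∣ u * u' - 1 := by
    apply a7_dvd N hN
    have h1 := hu' 1
    have h2 := congrArg (ptMap (σ : ℂ →+* ℂ)) h1
    rw [hu, ptMap_comp] at h2
    have h4 : (σ : ℂ →+* ℂ).comp (σ.symm : ℂ →+* ℂ) = RingHom.id ℂ := by
      ext x
      simp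
    rw [h4, ptMap_id] at h2
    rw [h2]
    congr 3
    ring
  obtain ⟨t, ht⟩ := h0
  exact ⟨u', -t, by linear_combination ht⟩

theorem c3_lx (σ : ℂ ≃+* ℂ) (N : ℕ) (hN : 0 < N) (u : Eis)
    (hσu : ∀ c : Eis, ptMap (σ : ℂ →+* ℂ) (pt (emb c / N)) = pt (emb (c * u) / N)) (z : ℂ)
    (hz : (N : ℂ) * z ∈ Set.range emb) (hoff : Off z) : σ (lx z) = lx (emb u * z) := by
  obtain ⟨c, hc⟩ := hz
  have hN0 : (N : ℂ) ≠ 0 := by exact_mod_cast hN.ne'
  have e : z = emb c / N := by rw [hc]; field_simp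
  have e2 : emb u * z = emb (c * u) / N := by rw [map_mul, hc]; field_simp
  have h1 := hσu c
  rw [← e, ← e2] at h1
  exact lx_ptMap (σ : ℂ →+* ℂ) z (emb u * z) hoff h1

theorem c3_E1_eq (z : ℂ) (hz : Off z) : E1 z / OmC = (E1 (2 * z) / OmC - lx z) / 2 := by
  have h3 := E1_two z hz
  rw [CM27.lam_eq z hz] at h3
  have h0 := OmC_ne
  have h4 : E1 (2 * z) = 2 * E1 z + OmC * lx z := by linear_combination h3
  rw [h4]
  field_simp
  ring

theorem c3_E1 (σ : ℂ ≃+* ℂ) (hσ : σ w = w) (N : ℕ) (hN : 0 < N) (u : Eis)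
    (hu : IsCoprime u (N : Eis))
    (hσu : ∀ c : Eis, ptMap (σ : ℂ →+* ℂ) (pt (emb c / N)) = pt (emb (c * u) / N))
    (N' : ℕ) (hN' : Odd N') (t : ℕ) (ht : N = t * N') (k : ℕ) : ∀ z : ℂ,
    (N : ℂ) * z ∈ Set.range emb → (∀ j : ℕ, (2 : ℂ) ^ j * z ∉ Set.range emb) →
    (N' : ℂ) * ((2 : ℂ) ^ k * z) ∈ Set.range emb →
    σ (E1 z / OmC) = E1 (emb u * z) / OmC := by
  have ht0 : (t : ℂ) ≠ 0 := by
    intro h
    have h' : t = 0 := by exact_mod_cast h
    rw [h', zero_mul] at ht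
    omega
  have hN'0 : (N' : ℂ) ≠ 0 := by
    have := hN'.pos
    exact_mod_cast this.ne'
  induction k with
  | zero =>
    intro z _ hz0 hk
    rw [pow_zero, one_mul] at hk
    have h0 := hz0 0
    rw [pow_zero, one_mul] at h0
    refine E1_gal σ hσ N' hN' u (hu.of_isCoprime_of_dvd_right ?_) ?_ z hk h0
    · exact ⟨(t : Eis), by rw [ht]; push_cast; ring⟩
    · intro c
      have h1 := hσu (t * c)
      have e1 : emb ((t : Eis) * c) / (N : ℂ) = emb c / N' := by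
        rw [map_mul, map_natCast, ht]
        push_cast
        field_simp
      have e2 : emb ((t : Eis) * c * u) / (N : ℂ) = emb (c * u) / N' := by
        rw [map_mul, map_mul, map_mul, map_natCast, ht]
        push_cast
        field_simp
      rw [e1, e2] at h1
      exact h1
  | succ k ih =>
    intro z hz hz0 hk
    have hoff : Off z := by
      have := hz0 1
      rw [pow_one] at this
      exact this
    have h2z : (N : ℂ) * (2 * z) ∈ Set.range emb := by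
      obtain ⟨c, hc⟩ := hz
      exact ⟨2 * c, by rw [map_mul, hc, map_ofNat]; ring⟩
    have h2z0 : ∀ j : ℕ, (2 : ℂ) ^ j * (2 * z) ∉ Set.range emb := by
      intro j
      have := hz0 (j + 1)
      rw [pow_succ, mul_assoc] at this
      exact this
    have hk' : (N' : ℂ) * ((2 : ℂ) ^ k * (2 * z)) ∈ Set.range emb := by
      have e : (N' : ℂ) * ((2 : ℂ) ^ k * (2 * z)) = (N' : ℂ) * ((2 : ℂ) ^ (k + 1) * z) := by
        rw [pow_succ]; ring
      rw [e]
      exact hk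
    have h1 := ih (2 * z) h2z h2z0 hk'
    have h2 := a10_u N u hu (2 * z) h2z hoff
    have hoff' : Off (emb u * z) := by
      have := h2.2
      intro h
      apply this
      rw [show emb u * (2 * z) = 2 * (emb u * z) by ring]
      exact h
    rw [c3_E1_eq z hoff, c3_E1_eq (emb u * z) hoff', map_div₀, map_sub, h1,
      c3_lx σ N hN u hσu z hz hoff, map_ofNat, show emb u * (2 * z) = 2 * (emb u * z) by ring]

theorem E1_gal3 (σ : ℂ ≃+* ℂ) (hσ : σ w = w) (N : ℕ) (hN : 0 < N) (u : Eis)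
    (hu : IsCoprime u (N : Eis))
    (hσu : ∀ c : Eis, ptMap (σ : ℂ →+* ℂ) (pt (emb c / N)) = pt (emb (c * u) / N)) (z : ℂ)
    (hz : (N : ℂ) * z ∈ Set.range emb) (hz0 : ∀ j : ℕ, (2 : ℂ) ^ j * z ∉ Set.range emb) :
    σ (E1 z / OmC) = E1 (emb u * z) / OmC := by
  obtain ⟨k, N', hN', h⟩ := Nat.exists_eq_two_pow_mul_odd hN.ne'
  refine c3_E1 σ hσ N hN u hu hσu N' hN' (2 ^ k) h k z hz hz0 ?_
  rw [h] at hz
  push_cast at hz
  rw [show (N' : ℂ) * ((2 : ℂ) ^ k * z) = 2 ^ k * (N' : ℂ) * z by ring]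
  exact hz

theorem Xi_gal3 (σ : ℂ ≃+* ℂ) (hσ : σ w = w) (N : ℕ) (hN : 0 < N) (u : Eis)
    (hu : IsCoprime u (N : Eis))
    (hσu : ∀ c : Eis, ptMap (σ : ℂ →+* ℂ) (pt (emb c / N)) = pt (emb (c * u) / N))
    (k : ℕ) (hσζ : ∀ ζ : ℂ, ζ ^ N = 1 → σ ζ = ζ ^ k) (v : Eis) (huv : (N : Eis) ∣ v * u - k)
    (N₁ : ℕ) (hN₁ : N₁ ^ 2 ∣ N) (z θ : ℂ)
    (hz : (N₁ : ℂ) * z ∈ Set.range emb) (hz0 : ∀ j : ℕ, (2 : ℂ) ^ j * z ∉ Set.range emb)
    (hθ : (N₁ : ℂ) * θ ∈ Dl) :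
    σ (Xi z θ / OmC) = Xi (emb u * z) (emb v * θ) / OmC := by
  have hN1 : 0 < N₁ := by
    rcases Nat.eq_zero_or_pos N₁ with h | h
    · subst h
      rw [zero_pow two_ne_zero, zero_dvd_iff] at hN₁
      omega
    · exact h
  have hN10 : (N₁ : ℂ) ≠ 0 := by exact_mod_cast hN1.ne'
  have hz00 : z ∉ Set.range emb := by
    have := hz0 0
    rw [pow_zero, one_mul] at this
    exact this
  obtain ⟨t, ht⟩ := hN₁
  have hdvd : ((N₁ : ℕ) : Eis) ∣ (N : Eis) := ⟨(N₁ * t : ℕ), by rw [ht]; push_cast; ring⟩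
  have hu1 : IsCoprime u (N₁ : Eis) := hu.of_isCoprime_of_dvd_right hdvd
  obtain ⟨hz', hz0'⟩ := a10_u N₁ u hu1 z hz hz00
  have hθ' : (N₁ : ℂ) * (emb v * θ) ∈ Dl := by
    have h1 := g2b_Dl_mul hθ v
    convert h1 using 1
    ring
  have hoff := g2b_off N₁ hN1 z hz00
  have hoff' := g2b_off N₁ hN1 _ hz0'
  rw [Xi_dist N₁ hN1 θ z hθ hz00 hoff,
    Xi_dist N₁ hN1 (emb v * θ) (emb u * z) hθ' hz0' hoff']
  rw [mul_div_assoc, mul_div_assoc, map_mul, map_div₀, map_one, map_natCast]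
  congr 1
  -- the function on classes
  set F : Eis → ℂ := fun a => Complex.exp (2 * Real.pi * Complex.I *
    (((emb v * θ * (emb u * z + emb a)).re : ℝ) : ℂ)) * E1 ((emb u * z + emb a) / N₁)
    with hFdef
  have hF : ∀ a c : Eis, F (a + N₁ * c) = F a := by
    intro a c
    have h1 : emb u * z + emb (a + N₁ * c) = emb u * z + emb a + N₁ * emb c := by
      rw [map_add, map_mul, map_natCast]; ring
    have h2 : (emb u * z + emb a + N₁ * emb c) / N₁ = (emb u * z + emb a) / N₁ + emb c := by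
      field_simp
    simp only [hFdef]
    rw [h1, g2b_exp_add hθ', h2, E1_per]
  rw [← g2b_perm N₁ hN1 u hu1 F hF, Finset.sum_div, map_sum, Finset.sum_div]
  refine Finset.sum_congr rfl fun i _ => ?_
  rw [Finset.sum_div, map_sum, Finset.sum_div]
  refine Finset.sum_congr rfl fun j _ => ?_
  set a : Eis := ⟨(i : ℤ), (j : ℤ)⟩ with ha
  simp only [hFdef]
  have e1 : emb u * z + emb (u * a) = emb u * (z + emb a) := by rw [map_mul]; ring
  have hroot := g2b_root N₁ θ z hz hθ a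
  have hrootN : Complex.exp (2 * Real.pi * Complex.I * (((θ * (z + emb a)).re : ℝ) : ℂ)) ^ N = 1 := by
    rw [ht, pow_mul, hroot, one_pow]
  have hE := E1_gal3 σ hσ N hN u hu hσu ((z + emb a) / N₁) (by
    obtain ⟨c, hc⟩ := hz
    refine ⟨t * (c + N₁ * a), ?_⟩
    rw [map_mul, map_add, map_mul, map_natCast, map_natCast, hc, ht]
    push_cast
    field_simp) (by
    rintro l ⟨c, hc⟩
    apply hz0 l
    refine ⟨N₁ * c - 2 ^ l * a, ?_⟩
    rw [map_sub, map_mul, map_mul, map_pow, map_natCast, map_ofNat, hc]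
    field_simp
    ring)
  rw [e1, mul_div_assoc, map_mul, hσζ _ hrootN, hE, mul_div_assoc]
  have e2 : emb u * ((z + emb a) / N₁) = emb u * (z + emb a) / N₁ := by ring
  rw [e2]
  congr 1
  rw [← Complex.exp_nat_mul]
  obtain ⟨c', hc'⟩ := huv
  have huv' : emb v * emb u = (k : ℂ) + (N : ℂ) * emb c' := by
    have h := congrArg emb hc'
    rw [map_sub, map_mul, map_mul, map_natCast, map_natCast] at h
    linear_combination h
  obtain ⟨c, hc⟩ := hz
  obtain ⟨l, hl⟩ := hθ ((t : Eis) * c' * (c + N₁ * a))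
  have h1 : emb v * θ * (emb u * (z + emb a)) = ((k : ℝ) : ℂ) * (θ * (z + emb a))
      + (N₁ : ℂ) * θ * emb ((t : Eis) * c' * (c + N₁ * a)) := by
    rw [map_mul, map_mul, map_add, map_mul, map_natCast, map_natCast, hc, ht] at *
    push_cast at huv' ⊢
    linear_combination (θ * (z + emb a)) * huv'
  rw [h1, Complex.add_re, Complex.re_ofReal_mul, hl]
  push_cast
  have h3 : (2 : ℂ) * Real.pi * Complex.I * ((k : ℂ) * (((θ * (z + emb a)).re : ℝ) : ℂ) + (l : ℂ))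
      = (k : ℂ) * (2 * Real.pi * Complex.I * (((θ * (z + emb a)).re : ℝ) : ℂ))
        + (l : ℂ) * (2 * Real.pi * Complex.I) := by ring
  rw [h3, Complex.exp_add, Complex.exp_int_mul_two_pi_mul_I, mul_one]

theorem c3_p7_ne : emb p7 ≠ 0 := by
  intro h
  have h1 : p7 = 0 := emb_injective (by rw [h, map_zero])
  exact absurd h1 (by decide)

theorem c3_pow2 (j : ℕ) : (2 : ℂ) ^ j * (1 / emb p7) ∉ Set.range emb := by
  rintro ⟨c, hc⟩
  have h0 := c3_p7_ne
  have h1 : p7 * c = 2 ^ j := by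
    apply emb_injective
    rw [map_mul, map_pow, map_ofNat, hc]
    field_simp
  have h2 : p7.norm * c.norm = (2 : Eis).norm ^ j := by
    rw [← map_mul, ← map_pow, h1]
  rw [p7_norm] at h2
  have h3 : ((2 : Eis).norm) = 4 := by decide
  rw [h3] at h2
  have h4 : (7 : ℤ) ∣ 4 ^ j := ⟨_, h2.symm⟩
  have h5 : (7 : ℤ) ∣ 4 := (show Prime (7 : ℤ) by norm_num).dvd_of_dvd_pow h4
  omega

theorem Omp_gal (σ : ℂ ≃+* ℂ) (hσ : σ w = w) (N : ℕ) (hN : 0 < N) (h7 : 7 ∣ N) (u : Eis)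
    (hu : IsCoprime u (N : Eis))
    (hσu : ∀ c : Eis, ptMap (σ : ℂ →+* ℂ) (pt (emb c / N)) = pt (emb (c * u) / N)) :
    σ (Omp / OmC) = emb (ep u) * (Omp / OmC) := by
  have h0 := c3_p7_ne
  have hs : emb p7 * emb (star p7) = 7 := by
    rw [← map_mul, p7_mul_star, map_ofNat]
  obtain ⟨m, hm⟩ := h7
  have hz : (N : ℂ) * (1 / emb p7) ∈ Set.range emb := by
    refine ⟨m * star p7, ?_⟩
    rw [map_mul, map_natCast, hm]
    push_cast
    rw [← hs]
    field_simp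
  have h1 := E1_gal3 σ hσ N hN u hu hσu (1 / emb p7) hz c3_pow2
  have hnd : ¬ p7 ∣ u := by
    intro hd
    have h2 : p7 ∣ (N : Eis) := by
      refine ⟨star p7 * m, ?_⟩
      rw [← mul_assoc, p7_mul_star, hm]
      push_cast
      rfl
    exact p7_prime.not_isUnit (hu.isUnit_of_dvd' hd h2)
  obtain ⟨t, ht⟩ := ep_spec u hnd
  have h3 := E1_unit (ep u) (ep_unit u) (emb u * (1 / emb p7))
  have h4 : emb (ep u) * (emb u * (1 / emb p7)) = 1 / emb p7 + emb t := by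
    have h5 := congrArg emb ht
    rw [map_sub, map_mul, map_mul, map_one] at h5
    field_simp
    linear_combination h5
  rw [h4, E1_per] at h3
  rw [Omp, h1, ← h3, mul_div_assoc]

end TH
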