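import Pool.Agent.MP_9ab903_nt.TH.C1
import Pool.Agent.MP_9ab903_nt.NG.G11

/-!
# [NG3-C4] generic choice of the cusps (port of `NG/G11.lean`, `exists_ell`)

Copy the second half of `NG/G11.lean` (everything that mentions `D : CD r`; `MP`, `Af`, `JJ`, `g11_red`, `g11_PM`, `g11_eval`, `g11_deg`, `g11_perm`,
`g11_numeric`, `g11_det_one_updateRow`, `g11_Dl`, `g11_list`, ... do not mention it and are used from `NG`) with `CD` replaced by `CD3` and `2` by `la`:

* `g11_MP_det`, `g11_MP_x`, `g11_MP_two` (now: `g11_red la (MP D.M g) = 1` from `hM3`), `g11_det_two` (now: `ℓ_J ≡ e_{|J|} mod λ` gives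
  `Af ≡ 1 mod λ`, so `la ∣ det - 1`, hence `¬ la ∣ det`).
* `g11_xq`: there are a prime `q ∣ N` of `ℤ[ω]` and `k` with `y = k x ∉ L`, `q y ∈ L`; `IsCoprime q la`, `IsCoprime q D.c` (`N` is prime to `6`, `c ∤ 6N`).
  NEW: the conclusion is `em l ⬝ᵥ (D.x + em m) ∉ Set.range emb` instead of `≠ 0` (same proof: if `l · (x + m) ∈ O` then `l · x ∈ O`, `l · y ∈ O`, `q ∣ l · Y`).
* `g11_crt` for `q, c, la` (pairwise coprime; the proof of `g11_crt` is general: `IsCoprime`), `g11_generic` (unchanged, modulo `c`).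
* `Good`: as in `exists_ell`; `Good.gx` follows from the new condition (`0 = emb 0`); the `i`-th coordinate of `cm (Af ..) *ᵥ (x + em m)` is
  `em (l_J) ⬝ᵥ (cm (MP ..) *ᵥ (x + em m)) = em l_J ⬝ᵥ (x + em m')` (`g11_MP_x`).
-/

set_option autoImplicit false

open scoped ComplexConjugate Matrix
open MeasureTheory Set Filter Topology
open CM27 NAB NG

namespace TH

variable {r : ℕ}

theorem c4_la_three : la ∣ (3 : Eis) := by
  rw [three_eq]
  exact Dvd.intro_left (-om ^ 2 * la) (by ring)

theorem c4_la_one : ¬ la ∣ (1 : Eis) := by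
  rintro ⟨b, hb⟩
  have h := congrArg (fun z : Eis => QuadraticAlgebra.norm z) hb
  simp only [map_mul, map_one] at h
  have h3 : la.norm = 3 := by decide
  rw [h3] at h
  omega

theorem c4_MP_det (D : CD3 r) (g : Finset (Fin r)) : (MP D.M g).det = 1 := by
  induction g using Finset.induction_on with
  | empty => rw [MP_empty, Matrix.det_one]
  | insert i g hi ih => rw [MP_insert D.M D.hcomm g i hi, Matrix.det_mul, ih, D.hdet, mul_one]

theorem c4_MP_x (D : CD3 r) (g : Finset (Fin r)) : ∀ m : Fin (r + 1) → Eis,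
    ∃ m' : Fin (r + 1) → Eis, NG.cm (MP D.M g) *ᵥ (D.x + NG.em m) = D.x + NG.em m' := by
  induction g using Finset.induction_on with
  | empty =>
    intro m
    refine ⟨m, ?_⟩
    have h1 : NG.cm (1 : Me (r + 1)) = 1 := by
      unfold NG.cm
      rw [Matrix.map_one emb (map_zero emb) (map_one emb)]
    rw [MP_empty, h1, Matrix.one_mulVec]
  | insert i g hi ih =>
    intro m
    obtain ⟨m0, hm0⟩ := D.hMx i
    obtain ⟨m', hm'⟩ := ih (m0 + D.M i *ᵥ m)
    refine ⟨m', ?_⟩
    rw [MP_insert D.M D.hcomm g i hi, NG.cm_mul, ← Matrix.mulVec_mulVec, Matrix.mulVec_add, hm0,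
      NG.cm_mulVec, add_assoc, ← em_add, hm']

theorem c4_MP_la (D : CD3 r) (g : Finset (Fin r)) : g11_red la (MP D.M g) = 1 := by
  induction g using Finset.induction_on with
  | empty => rw [MP_empty, map_one]
  | insert i g hi ih =>
    rw [MP_insert D.M D.hcomm g i hi, map_mul, ih, one_mul]
    have h1 : g11_red la (D.M i - 1) = 0 := by
      ext a b
      exact (g11_mk_zero la).2 (D.hM3 i a b)
    rw [map_sub, map_one, sub_eq_zero] at h1
    exact h1

theorem c4_det_la (D : CD3 r) (l : Finset (Fin r) → Fin (r + 1) → Eis)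
    (hl : ∀ J i, la ∣ l J i - (if i = g11_idx J then 1 else 0))
    (π : Equiv.Perm (Fin r)) (g : Finset (Fin r)) : ¬ la ∣ (Af D.M l π g).det := by
  suffices h : la ∣ (Af D.M l π g).det - 1 by
    intro h0
    have h1 := dvd_sub h0 h
    rw [sub_sub_cancel] at h1
    exact c4_la_one h1
  rw [← g11_mk_eq, map_one, RingHom.map_det]
  have h1 : (Ideal.Quotient.mk (Ideal.span {la})).mapMatrix (Af D.M l π g) = 1 := by
    ext k j
    rw [RingHom.mapMatrix_apply, Matrix.map_apply]
    change Ideal.Quotient.mk (Ideal.span {la}) ((l (JJ π k) ᵥ* MP D.M (g \ JJ π k)) j) = _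
    have h2 := c4_MP_la D (g \ JJ π k)
    have h3 : ∀ a b, Ideal.Quotient.mk (Ideal.span {la}) (MP D.M (g \ JJ π k) a b) =
        (1 : Matrix (Fin (r + 1)) (Fin (r + 1)) (Eis ⧸ Ideal.span {la})) a b := by
      intro a b
      exact congrFun (congrFun h2 a) b
    have h4 : ∀ a, Ideal.Quotient.mk (Ideal.span {la}) (l (JJ π k) a) =
        if a = k then 1 else 0 := by
      intro a
      have h5 := hl (JJ π k) a
      rw [g11_idx_JJ, ← g11_mk_eq] at h5
      rw [h5]
      split_ifs <;> simp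
    simp only [Matrix.vecMul, dotProduct, map_sum, map_mul, h3, h4]
    simp
  rw [h1, Matrix.det_one]

/-- the part at `x` -/
theorem c4_xq (D : CD3 r) : ∃ (q : Eis) (Y : Fin (r + 1) → Eis), IsCoprime q la ∧
    IsCoprime q D.c ∧ (∃ i, ¬ q ∣ Y i) ∧ ∀ l : Fin (r + 1) → Eis, ¬ q ∣ l ⬝ᵥ Y →
      ∀ m : Fin (r + 1) → Eis, NG.em l ⬝ᵥ (D.x + NG.em m) ∉ Set.range emb := by
  have := eis_isDomain
  have := eis_pid
  let I : Ideal Eis :=
    { carrier := {a | ∃ m : Fin (r + 1) → Eis, emb a • D.x = NG.em m}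
      zero_mem' := ⟨0, by
        funext i
        simp [NG.em]⟩
      add_mem' := by
        rintro a b ⟨m, hm⟩ ⟨m', hm'⟩
        refine ⟨m + m', ?_⟩
        rw [map_add, add_smul, hm, hm', em_add]
      smul_mem' := by
        rintro a b ⟨m, hm⟩
        refine ⟨fun i => a * m i, ?_⟩
        rw [smul_eq_mul, map_mul, mul_smul, hm]
        funext i
        simp [NG.em] }
  have hI : ∀ a, a ∈ I ↔ ∃ m : Fin (r + 1) → Eis, emb a • D.x = NG.em m := fun a => Iff.rfl
  obtain ⟨f, hf⟩ := (IsPrincipalIdealRing.principal I).principal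
  have hf' : ∀ a, a ∈ I ↔ f ∣ a := by
    intro a
    rw [hf]
    exact Ideal.mem_span_singleton
  have hN0 : D.N ≠ 0 := by
    rintro h
    have := D.hN
    rw [h] at this
    exact absurd this (by decide)
  have hNI : f ∣ (D.N : Eis) := by
    rw [← hf', hI]
    obtain ⟨m, hm⟩ := D.hx
    refine ⟨m, ?_⟩
    rw [hm]
    funext i
    simp
  have hf0 : f ≠ 0 := by
    rintro rfl
    have h1 := zero_dvd_iff.1 hNI
    have h2 := congrArg QuadraticAlgebra.re h1
    simp at h2
    exact hN0 h2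
  have hfu : ¬ IsUnit f := by
    intro hu
    have h1 : (1 : Eis) ∈ I := (hf' 1).2 hu.dvd
    obtain ⟨m, hm⟩ := (hI 1).1 h1
    rw [map_one, one_smul] at hm
    exact D.hx0 ⟨m, hm.symm⟩
  obtain ⟨q, hq, k, hk⟩ := WfDvdMonoid.exists_irreducible_factor hfu hf0
  have hq0 : q ≠ 0 := hq.ne_zero
  have hkI : k ∉ I := by
    intro h
    obtain ⟨b, hb⟩ := (hf' k).1 h
    have hk0 : k ≠ 0 := by
      rintro rfl
      rw [mul_zero] at hk
      exact hf0 hk
    apply hq.not_isUnit
    have h1 : q * b = 1 := by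
      apply mul_right_cancel₀ hk0
      rw [one_mul]
      conv_rhs => rw [hb, hk]
      ring
    exact IsUnit.of_mul_eq_one b h1
  have hqk : q * k ∈ I := (hf' _).2 (by rw [hk])
  obtain ⟨Y, hY⟩ := (hI _).1 hqk
  have hqN : q ∣ (D.N : Eis) := (Dvd.intro k hk.symm).trans hNI
  have hN2 : IsCoprime (D.N : Eis) la := by
    have h1 : IsCoprime (D.N : ℤ) (6 : ℤ) := by
      have := Nat.isCoprime_iff_coprime.2 D.hN
      exact_mod_cast this
    have h2 := h1.map (Int.castRingHom Eis)
    have h3 : la ∣ (Int.castRingHom Eis) 6 := by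
      have e : (Int.castRingHom Eis) 6 = 3 * 2 := by
        rw [map_ofNat]
        norm_num
      rw [e]
      exact c4_la_three.mul_right 2
    have h4 := h2.of_isCoprime_of_dvd_right h3
    have h5 : (Int.castRingHom Eis) (D.N : ℤ) = (D.N : Eis) := map_natCast _ _
    rwa [h5] at h4
  have hcq : ¬ D.c ∣ q := fun h => D.hcN ((h.trans hqN).trans (Dvd.intro_left 6 rfl))
  refine ⟨q, Y, hN2.of_isCoprime_of_dvd_left hqN,
    ((Prime.coprime_iff_not_dvd D.hc).2 hcq).symm, ?_, ?_⟩
  · by_contra hcon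
    push Not at hcon
    choose Z hZ using hcon
    apply hkI
    rw [hI]
    refine ⟨Z, ?_⟩
    have hqe : emb q ≠ 0 := fun h0 => hq0 (emb_injective (h0.trans (map_zero emb).symm))
    have h1 : emb q • (emb k • D.x) = emb q • NG.em Z := by
      rw [← mul_smul, ← map_mul, hY]
      funext i
      simp only [NG.em, Pi.smul_apply, smul_eq_mul]
      rw [hZ i, map_mul]
    exact smul_right_injective _ hqe h1
  · rintro l hl m ⟨t, h0⟩
    apply hl
    rw [dotProduct_add] at h0
    have h1 : NG.em l ⬝ᵥ NG.em m = emb (l ⬝ᵥ m) := by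
      simp only [dotProduct, NG.em, map_sum, map_mul]
    have h2 : NG.em l ⬝ᵥ NG.em Y = emb (l ⬝ᵥ Y) := by
      simp only [dotProduct, NG.em, map_sum, map_mul]
    have h3 : emb (l ⬝ᵥ Y) = emb (q * k * (t - l ⬝ᵥ m)) := by
      have e : emb (q * k * (t - l ⬝ᵥ m)) = emb (q * k) * (emb t - NG.em l ⬝ᵥ NG.em m) := by
        rw [map_mul, map_sub, h1]
      rw [← h2, ← hY, dotProduct_smul, smul_eq_mul, e]
      linear_combination -emb (q * k) * h0
    have h4 := emb_injective h3
    rw [h4]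
    exact (Dvd.intro k rfl).mul_right _

/-- Chinese remainder theorem -/
theorem c4_crt {p q c : Eis} (h2q : IsCoprime q p) (hqc : IsCoprime q c) (h2c : IsCoprime c p)
    (a b d : Eis) : ∃ l : Eis, p ∣ l - a ∧ q ∣ l - b ∧ c ∣ l - d := by
  obtain ⟨u1, v1, h1⟩ := (h2q.symm.mul_right h2c.symm : IsCoprime p (q * c))
  obtain ⟨u2, v2, h2⟩ := (h2q.mul_right hqc : IsCoprime q (p * c))
  obtain ⟨u3, v3, h3⟩ := (h2c.mul_right hqc.symm : IsCoprime c (p * q))
  refine ⟨v1 * (q * c) * a + v2 * (p * c) * b + v3 * (p * q) * d, ?_, ?_, ?_⟩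
  · refine ⟨-(u1 * a) + v2 * c * b + v3 * q * d, ?_⟩
    linear_combination a * h1
  · refine ⟨v1 * c * a - u2 * b + v3 * p * d, ?_⟩
    linear_combination b * h2
  · refine ⟨v1 * q * a + v2 * p * b - u3 * d, ?_⟩
    linear_combination d * h3

/-- the generic choice modulo `c` -/
theorem c4_generic (D : CD3 r) : ∃ lc : Finset (Fin r) → Fin (r + 1) → Eis,
    ∀ l : Finset (Fin r) → Fin (r + 1) → Eis, (∀ J i, D.c ∣ l J i - lc J i) →
      ∀ (π : Equiv.Perm (Fin r)) (g : Finset (Fin r)) (j : Fin (r + 1)),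
        ¬ D.c ∣ ((Af D.M l π g).updateRow j D.W).det := by
  classical
  have := eis_isDomain
  have hpr : (Ideal.span {D.c}).IsPrime := (Ideal.span_singleton_prime D.hc.ne_zero).2 D.hc
  have hdom : IsDomain (Eis ⧸ Ideal.span {D.c}) := Ideal.Quotient.isDomain _
  set mk := Ideal.Quotient.mk (Ideal.span {D.c}) with hmk
  let N : Equiv.Perm (Fin r) → Finset (Fin r) → Fin (r + 1) →
      Matrix (Fin (r + 1)) (Fin (r + 1)) (Eis ⧸ Ideal.span {D.c}) :=
    fun π g k => mk.mapMatrix (MP D.M (g \ JJ π k))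
  let pd : Equiv.Perm (Fin r) → Finset (Fin r) → Fin (r + 1) →
      MvPolynomial (Finset (Fin r) × Fin (r + 1)) (Eis ⧸ Ideal.span {D.c}) :=
    fun π g j => (g11_PM (N π g) (JJ π) j (fun l => mk (D.W l))).det
  -- each factor is nonzero
  have hpd : ∀ π g j, pd π g j ≠ 0 := by
    intro π g j h0
    obtain ⟨i0, hi0⟩ := D.hW
    let s : Equiv.Perm (Fin (r + 1)) := Equiv.swap j i0
    let x0 : Finset (Fin r) × Fin (r + 1) → Eis ⧸ Ideal.span {D.c} := fun p =>
      mk (((Pi.single (s (g11_idx p.1)) 1 : Fin (r + 1) → Eis) ᵥ*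
        (MP D.M (g \ p.1)).adjugate) p.2)
    have h1 := g11_eval (N π g) (JJ π) j (fun l => mk (D.W l)) x0
    change MvPolynomial.eval x0 (pd π g j) = _ at h1
    rw [h0, map_zero] at h1
    have h2 : (Matrix.of fun k l => ((fun i => x0 (JJ π k, i)) ᵥ* N π g k) l) =
        (Matrix.of fun k l => if l = s k then (1 : Eis ⧸ Ideal.span {D.c}) else 0) := by
      ext k l
      rw [Matrix.of_apply, Matrix.of_apply]
      have h3 : ((fun i => x0 (JJ π k, i)) ᵥ* N π g k) l =
          mk ((((Pi.single (s k) 1 : Fin (r + 1) → Eis) ᵥ*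
            (MP D.M (g \ JJ π k)).adjugate) ᵥ* MP D.M (g \ JJ π k)) l) := by
        simp only [Matrix.vecMul, dotProduct, map_sum, map_mul, x0, N, g11_idx_JJ,
          RingHom.mapMatrix_apply, Matrix.map_apply]
      rw [h3, Matrix.vecMul_vecMul, Matrix.adjugate_mul, c4_MP_det, one_smul, Matrix.vecMul_one,
        Pi.single_apply]
      split_ifs <;> simp
    rw [h2, g11_perm] at h1
    have h4 : s j = i0 := Equiv.swap_apply_left j i0
    rw [h4] at h1
    have h5 : mk (D.W i0) ≠ 0 := fun h => hi0 ((g11_mk_zero D.c).1 h)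
    rcases mul_eq_zero.1 h1.symm with h6 | h6
    · rcases Int.units_eq_one_or (Equiv.Perm.sign s) with h | h
      · rw [h] at h6
        simp at h6
      · rw [h] at h6
        simp at h6
    · exact h5 h6
  set P : MvPolynomial (Finset (Fin r) × Fin (r + 1)) (Eis ⧸ Ideal.span {D.c}) :=
    ∏ π : Equiv.Perm (Fin r), ∏ g : Finset (Fin r), ∏ j : Fin (r + 1), pd π g j with hP
  have hP0 : P ≠ 0 := by
    rw [hP]
    exact Finset.prod_ne_zero_iff.2 fun π _ => Finset.prod_ne_zero_iff.2 fun g _ =>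
      Finset.prod_ne_zero_iff.2 fun j _ => hpd π g j
  have hPdeg : P.totalDegree ≤ (2 * (r + 1)) ^ (2 * (r + 1)) := by
    refine le_trans ?_ (g11_numeric r)
    rw [hP]
    refine (MvPolynomial.totalDegree_finset_prod _ _).trans ?_
    have h1 : ∀ π : Equiv.Perm (Fin r), (∏ g : Finset (Fin r), ∏ j : Fin (r + 1),
        pd π g j).totalDegree ≤ 2 ^ r * ((r + 1) * (r + 1)) := by
      intro π
      refine (MvPolynomial.totalDegree_finset_prod _ _).trans ?_
      have h2 : ∀ g : Finset (Fin r), (∏ j : Fin (r + 1), pd π g j).totalDegree ≤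
          (r + 1) * (r + 1) := by
        intro g
        refine (MvPolynomial.totalDegree_finset_prod _ _).trans ?_
        refine (Finset.sum_le_sum fun j _ => g11_deg _ _ _ _).trans ?_
        simp
      refine (Finset.sum_le_sum fun g _ => h2 g).trans ?_
      simp
    refine (Finset.sum_le_sum fun π _ => h1 π).trans ?_
    simp [Fintype.card_perm]
  -- the set of values
  let S : Finset (Eis ⧸ Ideal.span {D.c}) :=
    (Finset.range ((2 * (r + 1)) ^ (2 * (r + 1)) + 1)).image fun k : ℕ => mk (k : Eis)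
  have hS : S.card = (2 * (r + 1)) ^ (2 * (r + 1)) + 1 := by
    rw [Finset.card_image_of_injOn, Finset.card_range]
    have key : ∀ a b : ℕ, a < b → b < (2 * (r + 1)) ^ (2 * (r + 1)) + 1 →
        mk (a : Eis) = mk (b : Eis) → False := by
      intro a b hab hb h
      have h1 : D.c ∣ (((b - a : ℕ)) : Eis) := by
        rw [Nat.cast_sub hab.le]
        exact (g11_mk_eq D.c).1 h.symm
      obtain ⟨t, ht⟩ := h1
      have h2 : (((b - a : ℕ)) : Eis).norm = D.c.norm * t.norm := by
        rw [ht, map_mul]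
      have h3 : (((b - a : ℕ)) : Eis).norm = ((b - a : ℕ) : ℤ) ^ 2 := by
        rw [norm_eq]
        simp
      rw [h3] at h2
      have h4 : (b - a) ^ 2 = D.c.norm.natAbs * t.norm.natAbs := by
        have h5 := congrArg Int.natAbs h2
        rw [Int.natAbs_mul, Int.natAbs_pow, Int.natAbs_natCast] at h5
        exact h5
      have h5 : t.norm.natAbs ≠ 0 := by
        intro h0
        rw [h0, mul_zero] at h4
        have : b - a = 0 := by
          rcases Nat.eq_zero_or_pos (b - a) with h | h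
          · exact h
          · have : 0 < (b - a) ^ 2 := by positivity
            omega
        omega
      have h6 : D.c.norm.natAbs ≤ (b - a) ^ 2 := by
        rw [h4]
        exact Nat.le_mul_of_pos_right _ (Nat.pos_of_ne_zero h5)
      have h7 := D.hcbig
      have h8 : (b - a) ^ 2 ≤ ((2 * (r + 1)) ^ (2 * (r + 1))) ^ 2 :=
        Nat.pow_le_pow_left (by omega) 2
      rw [← pow_mul, show 2 * (r + 1) * 2 = 4 * (r + 1) by ring] at h8
      omega
    intro a ha b hb h
    rw [Finset.coe_range, Set.mem_Iio] at ha hb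
    rcases lt_trichotomy a b with hab | hab | hab
    · exact (key a b hab hb h).elim
    · exact hab
    · exact (key b a hab ha h.symm).elim
  have hex : ∃ x : Finset (Fin r) × Fin (r + 1) → Eis ⧸ Ideal.span {D.c},
      MvPolynomial.eval x P ≠ 0 := by
    by_contra hcon
    push Not at hcon
    refine hP0 (MvPolynomial.eq_zero_of_eval_zero_at_prod_finset P (fun _ => S) (fun i => ?_)
      (fun x _ => hcon x))
    rw [hS]
    exact Nat.lt_succ_of_le ((MvPolynomial.degreeOf_le_totalDegree P i).trans hPdeg)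
  obtain ⟨x, hx⟩ := hex
  have hx' : ∀ π g j, MvPolynomial.eval x (pd π g j) ≠ 0 := by
    intro π g j h0
    apply hx
    rw [hP, map_prod]
    refine Finset.prod_eq_zero (Finset.mem_univ π) ?_
    rw [map_prod]
    refine Finset.prod_eq_zero (Finset.mem_univ g) ?_
    rw [map_prod]
    exact Finset.prod_eq_zero (Finset.mem_univ j) h0
  choose lc hlc using fun p : Finset (Fin r) × Fin (r + 1) =>
    Ideal.Quotient.mk_surjective (x p)
  refine ⟨fun J i => lc (J, i), fun l hl π g j hdvd => ?_⟩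
  apply hx' π g j
  have h1 := g11_eval (N π g) (JJ π) j (fun l => mk (D.W l)) x
  change MvPolynomial.eval x (pd π g j) = _ at h1
  rw [h1]
  have h2 : mk ((Af D.M l π g).updateRow j D.W).det = 0 := (g11_mk_zero D.c).2 hdvd
  rw [RingHom.map_det] at h2
  rw [← h2]
  congr 1
  ext k a
  rw [RingHom.mapMatrix_apply, Matrix.map_apply]
  by_cases hk : k = j
  · subst hk
    simp
  · rw [Matrix.updateRow_ne hk, Matrix.updateRow_ne hk, Matrix.of_apply]
    change _ = mk ((l (JJ π k) ᵥ* MP D.M (g \ JJ π k)) a)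
    have h3 : ∀ i, mk (l (JJ π k) i) = x (JJ π k, i) := by
      intro i
      rw [← hlc (JJ π k, i)]
      exact (g11_mk_eq D.c).2 (hl (JJ π k) i)
    simp only [Matrix.vecMul, dotProduct, map_sum, map_mul, h3, N, RingHom.mapMatrix_apply,
      Matrix.map_apply]

theorem exists_ell3 (D : CD3 r) : ∃ l : Finset (Fin r) → Fin (r + 1) → Eis,
    ∀ (π : Equiv.Perm (Fin r)) (g : Finset (Fin r)),
      Good3 D.w D.x (Af D.M l π g) ∧ ¬ la ∣ (Af D.M l π g).det := by
  classical
  have := eis_isDomain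
  have := eis_pid
  obtain ⟨q, Y, hq2, hqc, ⟨i0, hi0⟩, hY⟩ := c4_xq D
  obtain ⟨lc, hlc⟩ := c4_generic D
  have hc2 : IsCoprime D.c la := by
    rw [Prime.coprime_iff_not_dvd D.hc]
    intro h
    apply D.hcN
    have h1 : (6 * (D.N : Eis)) = 3 * (2 * (D.N : Eis)) := by ring
    rw [h1]
    exact (h.trans c4_la_three).mul_right _
  choose l hl2 hlq hlc' using fun (J : Finset (Fin r)) (i : Fin (r + 1)) =>
    c4_crt hq2 hqc hc2 (if i = g11_idx J then 1 else 0) (if i = i0 then 1 else 0) (lc J i)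
  refine ⟨l, fun π g => ?_⟩
  have hodd := c4_det_la D l hl2 π g
  have hgx : ∀ (i : Fin (r + 1)) (m : Fin (r + 1) → Eis),
      (NG.cm (Af D.M l π g) *ᵥ (D.x + NG.em m)) i ∉ Set.range emb := by
    intro k m
    obtain ⟨m', hm'⟩ := c4_MP_x D (g \ JJ π k) m
    have h1 : (NG.cm (Af D.M l π g) *ᵥ (D.x + NG.em m)) k =
        NG.em (l (JJ π k)) ⬝ᵥ (D.x + NG.em m') := by
      rw [← hm']
      rw [Matrix.dotProduct_mulVec]
      change (fun j => emb ((l (JJ π k) ᵥ* MP D.M (g \ JJ π k)) j)) ⬝ᵥ (D.x + NG.em m) = _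
      congr 1
      funext j
      simp only [Matrix.vecMul, dotProduct, map_sum, map_mul, NG.em, NG.cm, Matrix.map_apply]
    rw [h1]
    refine hY _ ?_ m'
    intro hdvd
    apply hi0
    have h2 : q ∣ l (JJ π k) ⬝ᵥ Y - Y i0 := by
      have h3 : l (JJ π k) ⬝ᵥ Y - Y i0 =
          ∑ i, (l (JJ π k) i - if i = i0 then 1 else 0) * Y i := by
        simp only [dotProduct, sub_mul, Finset.sum_sub_distrib, ite_mul, one_mul, zero_mul,
          Finset.sum_ite_eq', Finset.mem_univ, if_true]
      rw [h3]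
      exact Finset.dvd_sum fun i _ => (hlq (JJ π k) i).mul_right _
    have h4 : Y i0 = l (JJ π k) ⬝ᵥ Y - (l (JJ π k) ⬝ᵥ Y - Y i0) := by ring
    rw [h4]
    exact dvd_sub hdvd h2
  refine ⟨⟨⟨?_, ?_, ?_⟩, hgx⟩, hodd⟩
  · intro h0
    rw [h0] at hodd
    exact hodd (dvd_zero _)
  · intro k m h0
    exact hgx k m ⟨0, by rw [h0, map_zero]⟩
  · intro j hD
    apply hlc l hlc' π g j
    apply g11_Dl D.hc.ne_zero
    have h1 : (D.w ᵥ* NG.cm (Af D.M l π g).adjugate) j =
        2 * emb ((Af D.M l π g).updateRow j D.W).det / (emb D.c * (Complex.I * (√3 : ℝ))) := by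
      have h2 : ((Af D.M l π g).updateRow j D.W).det =
          ∑ i, D.W i * (Af D.M l π g).adjugate i j := by
        rw [← Matrix.cramer_transpose_apply, Matrix.cramer_eq_adjugate_mulVec,
          ← Matrix.adjugate_transpose]
        simp only [Matrix.mulVec, dotProduct, Matrix.transpose_apply]
        exact Finset.sum_congr rfl fun i _ => mul_comm _ _
      rw [h2]
      simp only [Matrix.vecMul, dotProduct, map_sum, map_mul, NG.cm, Matrix.map_apply, D.hw,
        Finset.mul_sum, Finset.sum_div]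
      refine Finset.sum_congr rfl fun i _ => ?_
      ring
    rw [← h1]
    exact hD

end TH
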