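import Pool.Agent.MP_9ab903_nt.TH.C1
import Pool.Agent.MP_9ab903_nt.NG.H1a

/-!
# [NG3-C7a], [NG3-C7b], [NG3-C7] unit groups and the discriminant at `λ`

* `torsion_eq_one7`: a root of unity `ζ ≡ 1 mod π` of `F` is `1`, if no prime of `F` above `π` is ramified over `ℚ(ω)`... not needed in this form:
  we use the modulus `m` with `π ∣ m`. PROOF without ramification: suppose `ζ ≠ 1`; replacing `ζ` by a power we may assume that `ζ` has prime order `ℓ`;
  `∏_{0<i<ℓ} (1 - ζ^i) = ℓ` and each factor is divisible by `π`, so `π^(ℓ-1) ∣ ℓ` in `𝓞 F`, norms to `ℤ[ω]`.. : `π ∣ ℓ` in `ℤ[ω]` (`ℓ` rational,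
  `𝓞 F ∩ ℚ(ω) = ℤ[ω]`), so `ℓ = 7` and `π^6 ∣ 7 = π · star π`, `π^5 ∣ star π` in `𝓞 F`, hence in `ℤ[ω]` (an element of `ℚ(ω)` integral over `ℤ`):
  impossible (`π ∤ star π`).
* `exists_basis7`: as `exists_basis` (NG/H1a) with `h1a_basis`, `h1a_rank`, `h1a_fin`, `h1a_ne`, `h1a_flip`, `h1a_zero`; torsion freeness from
  `torsion_eq_one7`, norms `1` from `s_unit7` (TH/C1).
* `radical_la`: `Unr3`: `del_disc`: `|discr F| = 3^(r+1) ‖δ‖⁴`, `δ² = emb a`, so `3 ∤ norm a`, `λ ∤ a`. Let `λ ∣ x³` in `𝓞 F`. For every `y` the element `z = x y`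
  satisfies `λ ∣ z³`; its trace to `ℤ[ω]`, `t z = trace (matrix of z in the basis θ)`, satisfies `t (z³) ≡ (t z)³ mod λ` (matrices over the field
  `ℤ[ω]/λ = 𝔽₃`, `ω ↦ 1`: `ZMod.trace_pow_card` / `FiniteField.trace_pow_card`), so `λ ∣ t (x y)` for all `y`; with `x = ∑ x_i θ_i` and the Gram matrix
  `t (θ_i θ_j) = Θᵀ Θ`, determinant `δ² = emb a` prime to `λ`: all `x_i` are divisible by `λ`. (Or: `𝓞 F / λ` is reduced by the theory of the
  different/discriminant of Mathlib, whatever is easier.)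
* `index_factor3`: as `index_factor` (NG/H1b): the quotient `UM (m ⊓ Q) / UM (m ⊓ Q ⊓ (λ))` has no element of order `3`: `u³ ≡ 1 mod λ` gives
  `(u - 1)³ = (u³ - 1) - 3u(u-1)·.. ∈ (λ)`, so `u ≡ 1 mod λ` by `radical_la`.
* `del_val3`: `|discr F| = 3^(r+1) ‖δ‖⁴`, `δ² = emb a`: `norm a = k` up to sign, `3 ∤ norm a`, so `A.valuation (δ²) = 1` (`a` divides `norm a`).
* `unr_unram`: `Unr3 F r` from '`F/ℚ(ω)` is unramified at `λ`': different/discriminant tower formula (Mathlib: `absNorm_differentIdeal`,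
  `differentIdeal_eq_differentIdeal_mul_differentIdeal`, `not_dvd_differentIdeal_iff`, ..; compare how `¬ 2 ∣ discr` is obtained in `CF`, `NGX`, `TWQ`).
-/

set_option autoImplicit false

open NumberField IsDedekindDomain MeasureTheory Set
open CM27 CMT CF NAB NG
open scoped ComplexConjugate Classical Matrix

namespace TH

variable {r : ℕ} (F : IntermediateField ℚ ℂ) [NumberField F] (hw : w ∈ F)

omit [NumberField F] in
theorem c7a_not_unit : ¬ IsUnit (eF F hw p7) := by
  intro h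
  obtain ⟨x, hx⟩ := h.exists_right_inv
  have h1 : emb p7 * ((x : F) : ℂ) = 1 := by
    have h2 := congrArg (fun z : 𝓞 F => ((z : F) : ℂ)) hx
    simpa [eF_apply] using h2
  have hi : IsIntegral ℤ ((x : F) : ℂ) := map_isIntegral_int F.val (RingOfIntegers.isIntegral_coe x)
  have hc : IsIntegral ℤ (conj ((x : F) : ℂ)) := map_isIntegral_int (starRingEnd ℂ) hi
  have h3 : emb (star p7) * conj ((x : F) : ℂ) = 1 := by
    rw [CM27.emb_star, ← map_mul, h1, map_one]
  have h4 : (7 : ℂ) * (((x : F) : ℂ) * conj ((x : F) : ℂ)) = 1 := by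
    have h5 : (7 : ℂ) = emb p7 * emb (star p7) := by
      rw [← map_mul, p7_mul_star, map_ofNat]
    rw [h5]
    linear_combination emb (star p7) * conj ((x : F) : ℂ) * h1 + h3
  have h5 : IsIntegral ℤ ((x : F) * conj ((x : F) : ℂ) : ℂ) := hi.mul hc
  have h6 : ((x : F) : ℂ) * conj ((x : F) : ℂ) = algebraMap ℚ ℂ (1 / 7) := by
    have h7 : ((x : F) : ℂ) * conj ((x : F) : ℂ) = 1 / 7 := by
      rw [eq_div_iff (by norm_num)]
      linear_combination h4
    rw [h7]
    simp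
  rw [h6, isIntegral_algebraMap_iff (algebraMap ℚ ℂ).injective] at h5
  obtain ⟨n, hn⟩ := IsIntegrallyClosed.isIntegral_iff.1 h5
  have h8 : ((7 * n : ℤ) : ℚ) = 1 := by
    push_cast
    rw [eq_intCast] at hn
    rw [hn]
    norm_num
  have h9 : (7 * n : ℤ) = 1 := by exact_mod_cast h8
  omega

omit [NumberField F] in
theorem c7a_dvd {b : Eis} (h : eF F hw p7 ∣ eF F hw b) : p7 ∣ b := by
  have := eis_isDomain
  have := eis_pid
  by_contra hcon
  obtain ⟨u, v, huv⟩ := (Irreducible.coprime_iff_not_dvd p7_prime.irreducible).2 hcon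
  apply c7a_not_unit F hw
  apply isUnit_of_dvd_one
  have h1 : eF F hw u * eF F hw p7 + eF F hw v * eF F hw b = 1 := by
    rw [← map_mul, ← map_mul, ← map_add, huv, map_one]
  rw [← h1]
  exact dvd_add (Dvd.intro_left _ rfl) (h.mul_left _)

theorem c7a_nat (l : ℕ) (hl : l.Prime) (h : p7 ∣ (l : Eis)) : l = 7 := by
  by_contra hne
  have h1 : Nat.Coprime l 7 := (Nat.coprime_primes hl (by norm_num)).2 hne
  have h2 : IsCoprime (l : ℤ) (7 : ℤ) := by exact_mod_cast Nat.isCoprime_iff_coprime.2 h1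
  obtain ⟨a, b, hab⟩ := h2
  have h3 : ((a : Eis)) * (l : Eis) + (b : Eis) * 7 = 1 := by
    have := congrArg (fun z : ℤ => (z : Eis)) hab
    push_cast at this
    exact this
  apply p7_prime.not_isUnit
  apply isUnit_of_dvd_one
  rw [← h3]
  exact dvd_add (h.mul_left _) ((Dvd.intro _ p7_mul_star).mul_left _)

omit [NumberField F] in
theorem c7a_seven (π ρ a : 𝓞 F) (hπ : π ≠ 0) (h7 : π * ρ = 7)
    (h : ∑ i ∈ Finset.range 7, (1 + π * a) ^ i = 0) : π ∣ ρ := by
  have h1 : π * (ρ * (1 + 3 * (π * a) + 5 * (π * a) ^ 2 + 5 * (π * a) ^ 3 + 3 * (π * a) ^ 4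
      + (π * a) ^ 5) + π ^ 5 * a ^ 6) = 0 := by
    rw [← h]
    simp only [Finset.sum_range_succ, Finset.sum_range_zero]
    linear_combination (1 + 3 * (π * a) + 5 * (π * a) ^ 2 + 5 * (π * a) ^ 3 + 3 * (π * a) ^ 4
      + (π * a) ^ 5) * h7
  have h2 := (mul_eq_zero.1 h1).resolve_left hπ
  refine ⟨-(π ^ 4 * a ^ 6 + ρ * a * (3 + 5 * (π * a) + 5 * (π * a) ^ 2 + 3 * (π * a) ^ 3
      + (π * a) ^ 4)), ?_⟩
  linear_combination h2

theorem torsion_eq_one7 (u : (𝓞 F)ˣ) (hu : u ∈ NumberField.Units.torsion F)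
    (h7 : eF F hw p7 ∣ (u : 𝓞 F) - 1) : u = 1 := by
  by_contra hne
  have hfin : IsOfFinOrder u := hu
  have ho : orderOf u ≠ 1 := fun h => hne (orderOf_eq_one_iff.1 h)
  have hl : (orderOf u).minFac.Prime := Nat.minFac_prime ho
  have hord : orderOf (u ^ (orderOf u / (orderOf u).minFac)) = (orderOf u).minFac :=
    orderOf_pow_orderOf_div hfin.orderOf_pos.ne' (Nat.minFac_dvd _)
  set l := (orderOf u).minFac with hldef
  set k := orderOf u / l with hkdef
  have hv1 : u ^ k ≠ 1 := by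
    intro h
    rw [h, orderOf_one] at hord
    exact hl.one_lt.ne hord
  have hvl : (u ^ k) ^ l = 1 := by
    conv_lhs => rw [← hord]
    exact pow_orderOf_eq_one _
  have hx1 : eF F hw p7 ∣ ((u ^ k : (𝓞 F)ˣ) : 𝓞 F) - 1 := by
    have h1 := sub_dvd_pow_sub_pow (u : 𝓞 F) 1 k
    rw [one_pow] at h1
    rw [Units.val_pow_eq_pow_val]
    exact h7.trans h1
  have hxl : ((u ^ k : (𝓞 F)ˣ) : 𝓞 F) ^ l = 1 := by
    rw [← Units.val_pow_eq_pow_val, hvl, Units.val_one]
  have hxne : ((u ^ k : (𝓞 F)ˣ) : 𝓞 F) - 1 ≠ 0 := fun h => hv1 (Units.ext (sub_eq_zero.1 h))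
  generalize ((u ^ k : (𝓞 F)ˣ) : 𝓞 F) = x at hx1 hxl hxne
  have hsum : ∑ i ∈ Finset.range l, x ^ i = 0 := by
    have h1 := geom_sum_mul x l
    rw [hxl, sub_self] at h1
    exact (mul_eq_zero.1 h1).resolve_right hxne
  have hl7 : l = 7 := by
    apply c7a_nat l hl
    apply c7a_dvd F hw
    rw [map_natCast]
    have h1 : (l : 𝓞 F) = - ∑ i ∈ Finset.range l, (x ^ i - 1) := by
      rw [Finset.sum_sub_distrib, hsum]
      simp
    rw [h1]
    refine (dvd_neg).2 (Finset.dvd_sum fun i _ => hx1.trans ?_)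
    have h2 := sub_dvd_pow_sub_pow x 1 i
    rwa [one_pow] at h2
  rw [hl7] at hsum
  obtain ⟨a, ha⟩ := hx1
  have hx : x = 1 + eF F hw p7 * a := by
    rw [← ha]
    ring
  rw [hx] at hsum
  have hπ : eF F hw p7 ≠ 0 := by
    intro h
    apply hxne
    rw [ha, h, zero_mul]
  have h8 : eF F hw p7 * eF F hw (star p7) = 7 := by
    rw [← map_mul, p7_mul_star, map_ofNat]
  exact p7_not_dvd_star (c7a_dvd F hw (c7a_seven F _ _ a hπ h8 hsum))

theorem exists_basis7 (s : Fin (r + 1) → F →+* ℂ) (hs : IsS F hw s) (𝔫 : Ideal (𝓞 F)) (h0 : 𝔫 ≠ ⊥)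
    (h7 : 𝔫 ≤ Ideal.span {eF F hw p7}) : ∃ e : Fin r → (𝓞 F)ˣ, IsB F s 𝔫 e := by
  have hr : Units.rank F = r := h1a_rank F hs.rank (h1a_cx F hw)
  subst hr
  have h7' : ∀ u ∈ UM F 𝔫, eF F hw p7 ∣ (u : 𝓞 F) - 1 := fun u hu =>
    Ideal.mem_span_singleton.1 (h7 hu)
  obtain ⟨e, heH, hgen, hmax⟩ := h1a_basis F (UM F 𝔫) (h1a_fin F 𝔫 h0)
    (fun u hu ht => torsion_eq_one7 F hw u ht (h7' u hu))
  have hn : ∀ u ∈ UM F 𝔫, ∏ j, s j ((u : 𝓞 F) : F) = 1 := fun u hu =>
    s_unit7 F hw s hs u (h7' u hu)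
  have hne := h1a_ne F hw s hs e (fun i => hn _ (heH i)) hmax
  rcases lt_or_gt_of_ne hne with hneg | hpos
  · have hr0 : 0 < Units.rank F := by
      by_contra hcon
      have hr1 : Units.rank F = 0 := by omega
      have : JE (ab F s e) = 1 := h1a_zero hr1 _
      linarith
    let i0 : Fin (Units.rank F) := ⟨0, hr0⟩
    let e' := Function.update e i0 (e i0)⁻¹
    have heH' : ∀ i, e' i ∈ UM F 𝔫 := by
      intro i
      by_cases hi : i = i0
      · subst hi
        change Function.update e i0 (e i0)⁻¹ i0 ∈ _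
        rw [Function.update_self]
        exact (UM F 𝔫).inv_mem (heH _)
      · change Function.update e i0 (e i0)⁻¹ i ∈ _
        rw [Function.update_of_ne hi]
        exact heH i
    let fl : (Fin (Units.rank F) → ℤ) → (Fin (Units.rank F) → ℤ) := fun k =>
      Function.update k i0 (- k i0)
    have hfl : ∀ k, fl (fl k) = k := by
      intro k
      simp [fl]
    have hez : ∀ k, ez F e' k = ez F e (fl k) := by
      intro k
      rw [ez, ez]
      refine Finset.prod_congr rfl fun i _ => ?_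
      by_cases hi : i = i0
      · subst hi
        change (Function.update e i0 (e i0)⁻¹ i0) ^ k i0 = e i0 ^ (Function.update k i0 (- k i0) i0)
        rw [Function.update_self, Function.update_self, inv_zpow, zpow_neg]
      · change (Function.update e i0 (e i0)⁻¹ i) ^ k i = e i ^ (Function.update k i0 (- k i0) i)
        rw [Function.update_of_ne hi, Function.update_of_ne hi]
    refine ⟨e', heH', fun i => hn _ (heH' i), ?_, ?_⟩
    · change 0 < JE (ab F s (Function.update e i0 (e i0)⁻¹))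
      rw [h1a_flip]
      linarith
    · intro u hu
      obtain ⟨k, hk, huniq⟩ := hgen u hu
      refine ⟨fl k, ?_, ?_⟩
      · change u = ez F e' (fl k)
        rw [hez, hfl]
        exact hk
      · intro k' hk'
        have h5 : fl k' = k := huniq _ (by
          change u = ez F e (fl k')
          rw [← hez]
          exact hk')
        rw [← h5, hfl]
  · exact ⟨e, heH, fun i => hn _ (heH i), hpos, hgen⟩

end TH
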