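import Pool.Agent.MP_9ab903_nt.TH.C9a
import Pool.Agent.MP_9ab903_nt.TH.C1
import Pool.Agent.MP_9ab903_nt.NG.H4d

/-!
# [NG3-C9a], [NG3-C9] unfolding for an ideal class (port of `NG/H4c.lean`, `NG/H4d.lean`)

* `T_equiv7`: as `T_equiv` (NG/H4c); `3 ∣ m` was only used to see that `g ≠ 0`: here `m` is not a unit (`hmu`).
* `unfold3`: as `unfold` (NG/H4d): `unfold_abs`, `∏_i s_i (η_j G_I) = ∏_i s_i (G_I)` (`s_unit7`: `η_j ≡ 1 mod m`, `π ∣ m`),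
  `emb (Ps (eF F hw) (I b)) = emb (ep u)^(r+1) ∏_i s_i (G_I)` (`s_ps`: `G_I ≡ u mod π`), so `conj (∏_i s_i G_I) = emb (ep u)^(r+1) · conj (emb (ps I) emb (ps b))`
  (`ep u` is a unit: `conj (emb e) = (emb e)⁻¹`). THIS IS THE ONLY NEW FEATURE: the factor `emb (ep u) ^ (r+1)`.
* `AA3_entire`, `AA3_congr`: as `AA_entire`, `AA_congr`.
-/

set_option autoImplicit false

open NumberField IsDedekindDomain MeasureTheory Set
open CM27 CMT CF NAB NG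
open scoped ComplexConjugate Classical Matrix

namespace TH

variable {r : ℕ} {F : IntermediateField ℚ ℂ} [NumberField F] {hw : w ∈ F}

omit [NumberField F] in
theorem c9_ez (s : F →+* ℂ) (e : Fin r → (𝓞 F)ˣ) (k : Fin r → ℤ) :
    s (((ez F e k : (𝓞 F)ˣ) : 𝓞 F) : F) = ∏ l, s ((e l : 𝓞 F) : F) ^ k l := by
  have h1 : (Units.map ((s.comp (algebraMap (𝓞 F) F) : 𝓞 F →+* ℂ) : 𝓞 F →* ℂ)) (ez F e k)
      = ∏ l, (Units.map ((s.comp (algebraMap (𝓞 F) F) : 𝓞 F →+* ℂ) : 𝓞 F →* ℂ)) (e l) ^ k l := by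
    rw [ez, map_prod]
    exact Finset.prod_congr rfl fun l _ => map_zpow _ _ _
  have h2 := congrArg (fun x : ℂˣ => (x : ℂ)) h1
  simp only [Units.coe_prod, Units.val_zpow_eq_zpow_val] at h2
  exact h2

omit [NumberField F] in
theorem c9_unit_ne (s : F →+* ℂ) (e : (𝓞 F)ˣ) : s ((e : 𝓞 F) : F) ≠ 0 := by
  rw [map_ne_zero]
  intro h
  exact e.ne_zero (by exact_mod_cast h)

theorem c9_unit_norm {a : Eis} (h : IsUnit a) : ‖emb a‖ = 1 := by
  have h1 : a ^ 6 = 1 := (unit_iff a).1 h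
  have h2 : ‖emb a‖ ^ 6 = 1 := by
    rw [← norm_pow, ← map_pow, h1, map_one, norm_one]
  exact (pow_eq_one_iff_of_nonneg (norm_nonneg _) (by norm_num)).1 h2

theorem c9_unit_conj {a : Eis} (h : IsUnit a) : emb a * conj (emb a) = 1 := by
  rw [Complex.mul_conj, Complex.normSq_eq_norm_sq, c9_unit_norm h]
  norm_num

theorem c9_p7_norm : ‖emb p7‖ ^ 2 = 7 := by
  rw [← Complex.normSq_eq_norm_sq, normSq_emb, p7_norm]
  norm_num

theorem c9_p7_unit (H : HD3 F hw r) : ¬ IsUnit (eF F hw p7) := by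
  intro h
  have h1 := s_absNorm F hw H.s H.hs (eF F hw p7)
  rw [Ideal.span_singleton_eq_top.2 h, Ideal.absNorm_top] at h1
  have h2 : ∀ j, ‖H.s j ((eF F hw p7 : 𝓞 F) : F)‖ = ‖emb p7‖ := fun j => by
    rw [s_eF F hw H.s H.hs j p7]
  rw [Finset.prod_congr rfl fun j _ => h2 j, Finset.prod_const, Finset.card_univ, Fintype.card_fin,
    ← pow_mul, mul_comm (r + 1) 2, pow_mul, c9_p7_norm] at h1
  have h3 : (1 : ℝ) < 7 ^ (r + 1) := one_lt_pow₀ (by norm_num) (by omega)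
  push_cast at h1
  linarith

theorem c9_m_unit (H : HD3 F hw r) : ¬ IsUnit H.m := fun h =>
  c9_p7_unit H (isUnit_of_dvd_unit H.h7 h)

theorem c9_not_dvd (H : HD3 F hw r) (u : Eis) (hu : IsCoprime (eF F hw u) H.m) : ¬ p7 ∣ u := by
  intro h
  have h1 : eF F hw p7 ∣ eF F hw u := map_dvd _ h
  exact c9_p7_unit H (hu.isUnit_of_dvd' h1 H.h7)

omit [NumberField F] in
theorem c9_dvd7 (H : HD3 F hw r) (p : Fin H.q) :
    eF F hw p7 ∣ ((H.η p : (𝓞 F)ˣ) : 𝓞 F) - 1 := by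
  have h1 : ((H.η p : (𝓞 F)ˣ) : 𝓞 F) - 1 ∈ Ideal.span {H.m} := H.hη.mem p
  exact H.h7.trans (Ideal.mem_span_singleton.1 h1)

theorem c9_prod (H : HD3 F hw r) (p : Fin H.q) (g : 𝓞 F) :
    ∏ j, H.s j (((((H.η p : (𝓞 F)ˣ) : 𝓞 F) * g : 𝓞 F)) : F) = ∏ j, H.s j (g : F) := by
  have h1 : ∀ j, H.s j (((((H.η p : (𝓞 F)ˣ) : 𝓞 F) * g : 𝓞 F)) : F) =
      H.s j (((H.η p : (𝓞 F)ˣ) : 𝓞 F) : F) * H.s j (g : F) := by
    intro j
    rw [← map_mul]
    rfl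
  rw [Finset.prod_congr rfl fun j _ => h1 j, Finset.prod_mul_distrib,
    s_unit7 F hw H.s H.hs (H.η p) (c9_dvd7 H p), one_mul]

theorem c9_prod_norm (H : HD3 F hw r) (p : Fin H.q) (g : 𝓞 F) :
    ∏ j, ‖H.s j (((((H.η p : (𝓞 F)ˣ) : 𝓞 F) * g : 𝓞 F)) : F)‖ = ∏ j, ‖H.s j (g : F)‖ := by
  rw [← norm_prod, ← norm_prod, c9_prod]

theorem c9_summable (H : HD3 F hw r) (b : Ideal (𝓞 F)) (hb0 : b ≠ 0) (u : Eis)
    (G : Cl F H.m b (eF F hw u) → 𝓞 F)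
    (hG : ∀ I, G I ≠ 0 ∧ H.m ∣ G I - eF F hw u ∧ (I : Ideal (𝓞 F)) * b = Ideal.span {G I})
    (s : ℂ) (hs : 3 / 2 < s.re) :
    Summable fun I : Cl F H.m b (eF F hw u) => (∏ j, ‖H.s j (G I : F)‖) ^ (1 - 2 * s.re) := by
  have hNc : Ideal.absNorm b ≠ 0 := fun h => hb0 (Ideal.absNorm_eq_zero_iff.1 h)
  have hNcR : (0 : ℝ) < Ideal.absNorm b := by exact_mod_cast Nat.pos_of_ne_zero hNc
  have hNI : ∀ I : Cl F H.m b (eF F hw u), (0 : ℝ) < Ideal.absNorm (I : Ideal (𝓞 F)) := by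
    intro I
    have h1 : Ideal.absNorm (I : Ideal (𝓞 F)) ≠ 0 :=
      fun h => I.2.1 (Ideal.absNorm_eq_zero_iff.1 h)
    exact_mod_cast Nat.pos_of_ne_zero h1
  have hnorm : ∀ I : Cl F H.m b (eF F hw u),
      (Ideal.absNorm (I : Ideal (𝓞 F)) : ℝ) * Ideal.absNorm b =
      (∏ j, ‖H.s j (G I : F)‖) ^ 2 := by
    intro I
    obtain ⟨g1, g2, g3⟩ := hG I
    rw [← s_absNorm F hw H.s H.hs (G I), ← g3, map_mul]
    push_cast
    rfl
  have h1 := (summable_norm F (s.re - 1 / 2) (by linarith)).comp_injective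
    (Subtype.val_injective (p := fun I => I ∈ Cl F H.m b (eF F hw u)))
  have h2 := h1.mul_right ((Ideal.absNorm b : ℝ) ^ (-(s.re - 1 / 2)))
  refine h2.congr ?_
  intro I
  have hpos : 0 ≤ ∏ j, ‖H.s j (G I : F)‖ := Finset.prod_nonneg fun j _ => norm_nonneg _
  rw [Function.comp_apply, if_neg I.2.1, ← Real.mul_rpow (hNI I).le hNcR.le, hnorm I,
    ← Real.rpow_natCast, ← Real.rpow_mul hpos]
  congr 1
  push_cast
  ring

theorem unfold3 (H : HD3 F hw r) (b : Ideal (𝓞 F)) (hb0 : b ≠ 0)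
    (hbm : IsCoprime b (Ideal.span {H.m})) (N : ℕ) (D : LD3 F hw H.s H.m H.e b N H.δ) (u : Eis)
    (hu : IsCoprime (eF F hw u) H.m) (v : Fin (r + 1) → ℂ) (χ : 𝓞 F → ℂ)
    (hχ : ∀ g ∈ b, ∀ y, (∀ j, H.s j (g : F) = D.L j ⬝ᵥ y) → ch v y = χ g)
    (hχe : ∀ g ∈ b, ∀ k, χ (((ez F H.e k : (𝓞 F)ˣ) : 𝓞 F) * g) = χ g)
    (G : Cl F H.m b (eF F hw u) → 𝓞 F)
    (hG : ∀ I, G I ≠ 0 ∧ H.m ∣ G I - eF F hw u ∧ (I : Ideal (𝓞 F)) * b = Ideal.span {G I})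
    (s : ℂ) (hs : 3 / 2 < s.re) :
    HasSum (fun p : Cl F H.m b (eF F hw u) × Fin H.q =>
        χ (((H.η p.2 : (𝓞 F)ˣ) : 𝓞 F) * G p.1)
        * (emb (ep u) ^ (r + 1) * conj (emb (Ps (eF F hw) (p.1 : Ideal (𝓞 F))) * emb (Ps (eF F hw) b)))
        * ((Ideal.absNorm (p.1 : Ideal (𝓞 F)) : ℂ) * (Ideal.absNorm b : ℂ)) ^ (-s))
      (AA3 H D v u s) := by
  have hp7 : ¬ p7 ∣ u := c9_not_dvd H u hu
  have hee : emb (ep u) ^ (r + 1) * conj (emb (ep u) ^ (r + 1)) = 1 := by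
    rw [map_pow, ← mul_pow, c9_unit_conj (ep_unit u), one_pow]
  obtain ⟨ψ, hψ⟩ := T_equiv7 F H.s H.m (c9_m_unit H) _ (inf_le_left.trans inf_le_left) H.e H.he
    H.q H.η H.hη b hb0 (eF F hw u) hu G hG
  obtain ⟨φ, hφ⟩ := D.bij u
  have hGb : ∀ I, G I ∈ b := by
    intro I
    have h1 : G I ∈ (I : Ideal (𝓞 F)) * b := by
      rw [(hG I).2.2]
      exact Ideal.mem_span_singleton_self _
    exact Ideal.mul_le_right h1
  have hnorm : ∀ I : Cl F H.m b (eF F hw u),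
      (Ideal.absNorm (I : Ideal (𝓞 F)) : ℝ) * Ideal.absNorm b =
      (∏ j, ‖H.s j (G I : F)‖) ^ 2 := by
    intro I
    obtain ⟨g1, g2, g3⟩ := hG I
    rw [← s_absNorm F hw H.s H.hs (G I), ← g3, map_mul]
    push_cast
    rfl
  have hpsi : ∀ I : Cl F H.m b (eF F hw u),
      emb (Ps (eF F hw) (I : Ideal (𝓞 F))) * emb (Ps (eF F hw) b) =
      emb (ep u) ^ (r + 1) * ∏ j, H.s j (G I : F) := by
    intro I
    obtain ⟨g1, g2, g3⟩ := hG I
    rw [← s_ps F hw H.s H.hs (G I) u hp7 (H.h7.trans g2), ← g3, Ps, Ps, Ps, NAB.cm_mul, map_mul]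
  have hsumI := c9_summable H b hb0 u G hG s hs
  have hsum : Summable fun p : Cl F H.m b (eF F hw u) × Fin H.q =>
      (∏ j, ‖H.s j (((((H.η p.2 : (𝓞 F)ˣ) : 𝓞 F) * G p.1 : 𝓞 F)) : F)‖) ^ (1 - 2 * s.re) := by
    have h1 : (fun p : Cl F H.m b (eF F hw u) × Fin H.q =>
      (∏ j, ‖H.s j (((((H.η p.2 : (𝓞 F)ˣ) : 𝓞 F) * G p.1 : 𝓞 F)) : F)‖) ^ (1 - 2 * s.re)) =
      fun p => (∏ j, ‖H.s j (G p.1 : F)‖) ^ (1 - 2 * s.re) := by
      funext p
      rw [c9_prod_norm]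
    rw [h1, summable_prod_of_nonneg]
    · refine ⟨fun I => (hasSum_fintype _).summable, ?_⟩
      simp only [tsum_fintype, Finset.sum_const, nsmul_eq_mul]
      exact hsumI.mul_left _
    · intro p
      exact Real.rpow_nonneg (Finset.prod_nonneg fun j _ => norm_nonneg _) _
  have key := unfold_abs v (fun i => emb u * D.x i) D.L D.hL
    (fun i j => H.s j ((H.e i : 𝓞 F) : F)) H.he.norm H.he.pos
    (fun (p : Cl F H.m b (eF F hw u) × Fin H.q) j =>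
      H.s j (((((H.η p.2 : (𝓞 F)ˣ) : 𝓞 F) * G p.1 : 𝓞 F)) : F)) ?_
    (fun p => χ (((H.η p.2 : (𝓞 F)ˣ) : 𝓞 F) * G p.1)) (ψ.trans φ.symm) ?_ ?_ s (by linarith) hsum
  · refine key.congr_fun ?_
    rintro ⟨I, p⟩
    simp only
    rw [c9_prod, hpsi I, map_mul, ← mul_assoc (emb (ep u) ^ (r + 1)), hee, one_mul]
    congr 2
    rw [Finset.prod_pow, c9_prod_norm, ← hnorm I]
    push_cast
    rfl
  · rintro ⟨I, p⟩ j
    simp only
    rw [map_ne_zero]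
    have h1 : ((H.η p : (𝓞 F)ˣ) : 𝓞 F) * G I ≠ 0 := mul_ne_zero (Units.ne_zero _) (hG I).1
    exact_mod_cast h1
  · rintro ⟨I, p⟩ k j
    have h1 := hφ (φ.symm (ψ ((I, p), k))) j
    rw [φ.apply_symm_apply, hψ (I, p) k] at h1
    rw [Equiv.trans_apply, ← h1, ← c9_ez, ← map_mul]
    congr 1
    push_cast
    ring
  · rintro ⟨I, p⟩ k
    have h1 := fun j => hφ (φ.symm (ψ ((I, p), k))) j
    rw [φ.apply_symm_apply] at h1
    have h2 := hχ _ (ψ ((I, p), k)).2.1 _ h1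
    rw [Equiv.trans_apply, h2, hψ (I, p) k, mul_assoc]
    exact hχe _ (b.mul_mem_left _ (hGb I)) k


theorem AA3_entire (H : HD3 F hw r) (b : Ideal (𝓞 F)) (N : ℕ)
    (D : LD3 F hw H.s H.m H.e b N H.δ) (v : Fin (r + 1) → ℂ) (u : Eis)
    (hu : IsCoprime u (N : Eis)) : Differentiable ℂ (AA3 H D v u) := by
  have hx : (fun i => emb u * D.x i) ∉ Lz (r + 1) := by
    rintro ⟨t, ht⟩
    obtain ⟨t', ht'⟩ := D.hx
    obtain ⟨a, b', hab⟩ := hu
    apply D.hx0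
    refine ⟨fun i => a * t i + b' * t' i, ?_⟩
    funext i
    have h1 := congrFun ht i
    have h2 := congrFun ht' i
    simp only [NG.em] at h1 h2 ⊢
    rw [map_add, map_mul, map_mul, h1, h2]
    have h3 := congrArg emb hab
    rw [map_add, map_mul, map_mul, map_one, map_natCast] at h3
    linear_combination (D.x i) * h3
  have hT := TI_entire v (fun i => emb u * D.x i) hx D.L D.hL (ab F H.s H.e) (by
    intro i j
    have h1 := c9_unit_ne (H.s j) (H.e i)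
    have h2 : 0 < ‖H.s j ((H.e i : 𝓞 F) : F)‖ := norm_pos_iff.2 h1
    exact pow_pos h2 2)
  have hG : Differentiable ℂ fun s : ℂ => (Complex.Gamma s ^ (r + 1))⁻¹ := by
    have h1 : (fun s : ℂ => (Complex.Gamma s ^ (r + 1))⁻¹) =
        fun s : ℂ => ((Complex.Gamma s)⁻¹) ^ (r + 1) := by
      funext s
      rw [inv_pow]
    rw [h1]
    exact Complex.differentiable_one_div_Gamma.pow _
  have hπ : Differentiable ℂ fun s : ℂ => (Real.pi : ℂ) ^ ((r + 1 : ℂ) * s) := by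
    have h1 : Differentiable ℂ fun s : ℂ => (r + 1 : ℂ) * s := by fun_prop
    exact h1.const_cpow (Or.inl (by exact_mod_cast Real.pi_ne_zero))
  have hT2 : Differentiable ℂ fun s : ℂ =>
      TI v (fun i => emb u * D.x i) D.L (ab F H.s H.e) (s - 1) :=
    hT.comp (differentiable_id.sub_const 1)
  exact ((hπ.mul hG).mul_const _).mul hT2


/-- `AA3` and `VV3` only depend on the additive character. -/
theorem AA3_congr (H : HD3 F hw r) (b : Ideal (𝓞 F)) (N : ℕ)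
    (D : LD3 F hw H.s H.m H.e b N H.δ) (v v' : Fin (r + 1) → ℂ) (u : Eis)
    (h : ∀ g ∈ b, ∀ y, (∀ j, H.s j (g : F) = D.L j ⬝ᵥ y) → ch v y = ch v' y) :
    AA3 H D v u = AA3 H D v' u ∧ VV3 H D v u = VV3 H D v' u := by
  obtain ⟨φ, hφ⟩ := D.bij u
  have h1 : ∀ t, ch v ((fun i => emb u * D.x i) + NG.em t) =
      ch v' ((fun i => emb u * D.x i) + NG.em t) :=
    fun t => h _ (φ t).2.1 _ (hφ t)
  have h2 : ThD v (fun i => emb u * D.x i) D.L = ThD v' (fun i => emb u * D.x i) D.L := by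
    funext c
    unfold ThD NG.th
    simp_rw [h1]
  have h3 : TI v (fun i => emb u * D.x i) D.L = TI v' (fun i => emb u * D.x i) D.L := by
    funext E s
    unfold TI
    rw [h2]
  refine ⟨?_, ?_⟩
  · funext s
    unfold AA3
    rw [h3]
  · unfold VV3
    rw [h3]


end TH
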