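import Pool.Agent.MP_9ab903_nt.TH.C0
import Pool.Agent.MP_9ab903_nt.NG.H4c

/-!
# [NG3-C9a], [NG3-C9] unfolding for an ideal class (port of `NG/H4c.lean`, `NG/H4d.lean`)

* `T_equiv7`: as `T_equiv` (NG/H4c); `3 ∣ m` was only used to see that `g ≠ 0`: here `m` is not a unit (`hmu`).
* `unfold3`: as `unfold` (NG/H4d): `unfold_abs`, `∏_i s_i (η_j G_I) = ∏_i s_i (G_I)` (`s_unit7`: `η_j ≡ 1 mod m`, `π ∣ m`),
  `emb (Ps (eF F hw) (I b)) = emb (ep u)^(r+1) ∏_i s_i (G_I)` (`s_ps`: `G_I ≡ u mod π`), so `conj (∏_i s_i G_I) = emb (ep u)^(r+1) · conj (emb (ps I) emb (ps b))`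
  (`ep u` is a unit: `conj (emb e) = (emb e)⁻¹`). THIS IS THE ONLY NEW FEATURE: the factor `emb (ep u) ^ (r+1)`.
* `AA3_entire`, `AA3_congr`: as `AA_entire`, `AA_congr`.
-/

set_option autoImplicit false

open NumberField IsDedekindDomain MeasureTheory Set
open CM27 CMT CF NAB NG
open scoped ComplexConjugate Classical Matrix

namespace TH

theorem T_equiv7 {r : ℕ} (F : IntermediateField ℚ ℂ) [NumberField F]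
    (s : Fin (r + 1) → F →+* ℂ) (m : 𝓞 F) (hmu : ¬ IsUnit m) (𝔫 : Ideal (𝓞 F))
    (h𝔫 : 𝔫 ≤ Ideal.span {m}) (e : Fin r → (𝓞 F)ˣ) (he : IsB F s 𝔫 e) (q : ℕ)
    (η : Fin q → (𝓞 F)ˣ) (hη : IsRep F m e q η) (b : Ideal (𝓞 F)) (hb0 : b ≠ 0) (u : 𝓞 F)
    (hu : IsCoprime u m) (G : Cl F m b u → 𝓞 F)
    (hG : ∀ I, G I ≠ 0 ∧ m ∣ G I - u ∧ (I : Ideal (𝓞 F)) * b = Ideal.span {G I}) :
    ∃ ψ : (Cl F m b u × Fin q) × (Fin r → ℤ) ≃ {g : 𝓞 F // g ∈ b ∧ m ∣ g - u},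
      ∀ p k, ((ψ (p, k) : {g : 𝓞 F // g ∈ b ∧ m ∣ g - u}) : 𝓞 F)
        = ((ez F e k : (𝓞 F)ˣ) : 𝓞 F) * ((η p.2 : (𝓞 F)ˣ) : 𝓞 F) * G p.1 := by
  have hv : ∀ (j : Fin q) (k : Fin r → ℤ), m ∣ ((ez F e k * η j : (𝓞 F)ˣ) : 𝓞 F) - 1 := by
    intro j k
    rw [← h4c_mem_iff]
    exact Subgroup.mul_mem _ (h𝔫 (h4c_ez_mem F 𝔫 e he.mem k)) (hη.mem j)
  have hmem : ∀ (p : Cl F m b u × Fin q) (k : Fin r → ℤ),
      ((ez F e k : (𝓞 F)ˣ) : 𝓞 F) * ((η p.2 : (𝓞 F)ˣ) : 𝓞 F) * G p.1 ∈ b ∧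
      m ∣ ((ez F e k : (𝓞 F)ˣ) : 𝓞 F) * ((η p.2 : (𝓞 F)ˣ) : 𝓞 F) * G p.1 - u := fun p k =>
    ⟨b4c_mem1 F b p.1 _ _ (hG p.1).2.2, b4c_mem2 F m _ _ u (hG p.1).2.1 (hv p.2 k)⟩
  let Φ : (Cl F m b u × Fin q) × (Fin r → ℤ) → {g : 𝓞 F // g ∈ b ∧ m ∣ g - u} :=
    fun p => ⟨((ez F e p.2 : (𝓞 F)ˣ) : 𝓞 F) * ((η p.1.2 : (𝓞 F)ˣ) : 𝓞 F) * G p.1.1,
      hmem p.1 p.2⟩
  have hinj : Function.Injective Φ := by
    rintro ⟨⟨I, i⟩, k⟩ ⟨⟨J, j⟩, l⟩ h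
    have h1 : ((ez F e k * η i : (𝓞 F)ˣ) : 𝓞 F) * G I = ((ez F e l * η j : (𝓞 F)ˣ) : 𝓞 F) * G J :=
      congrArg Subtype.val h
    have h4 : I = J := Subtype.ext (b4c_inj1 F b hb0 I J _ _ _ _ h1 (hG I).2.2 (hG J).2.2)
    subst h4
    have h5 : ez F e k * η i = ez F e l * η j := Units.ext (mul_right_cancel₀ (hG I).1 h1)
    obtain ⟨p, -, hp⟩ := hη.uniq (ez F e k * η i) ((h4c_mem_iff F m _).2 (hv i k))
    have h6 := hp (i, k) rfl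
    have h7 := hp (j, l) h5
    have h8 : (i, k) = (j, l) := h6.trans h7.symm
    rw [Prod.mk.injEq] at h8
    rw [h8.1, h8.2]
  have hsurj : Function.Surjective Φ := by
    rintro ⟨g, hgc, hgm⟩
    have hg0 : g ≠ 0 := by
      rintro rfl
      rw [zero_sub, dvd_neg] at hgm
      exact hmu ((hu.symm.isUnit_of_dvd' (dvd_refl m) hgm))
    obtain ⟨I, hI0, hIc⟩ := b4c_ideal F b g hg0 hgc
    let J : Cl F m b u := ⟨I, hI0, g, hg0, hgm, hIc⟩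
    have h2 : Ideal.span {G J} = Ideal.span {g} := by
      rw [← (hG J).2.2, ← hIc]
    rw [Ideal.span_singleton_eq_span_singleton] at h2
    obtain ⟨ε, hε⟩ := h2
    obtain ⟨p, hp, -⟩ := hη.uniq ε
      ((h4c_mem_iff F m _).2 (b4c_unit F m u g (G J) hu hgm (hG J).2.1 ε hε))
    refine ⟨((J, p.1), p.2), Subtype.ext ?_⟩
    change ((ez F e p.2 * η p.1 : (𝓞 F)ˣ) : 𝓞 F) * G J = g
    rw [← hp, mul_comm, hε]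
  exact ⟨Equiv.ofBijective Φ ⟨hinj, hsurj⟩, fun p k => rfl⟩

end TH
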