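import Pool.Agent.MP_9ab903_nt.TWR.PF1
import Pool.Agent.MP_9ab903_nt.CF.L2

/-!
# [NG3] The 3-part of the Birch and Swinnerton-Dyer formula over 3-power extensions of `ℚ(ω)`: definitions

Notation: `om = ω`, `la = λ = 1 - ω` (the prime above `3`, `3 = - ω² λ²`), `p7 = π = 3 + ω` (norm `7`),
`dd = ω - 4 = - λ π`.  The curve `Ep : y² + ω² y = x³ + (2 + ω) x² + (1 + ω) x` over `ℚ(ω)` has
discriminant `ω π²`, `j = 0`, the rational point `(0, 0)` of order `7`, and is isomorphic to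
`y² = x³ + 48 (4 - ω)`.
-/

set_option autoImplicit false

open NumberField IsDedekindDomain
open CM27 CMT NAB CF
open scoped Classical

namespace TH

/-- `ω` -/
def om : Eis := ⟨0, 1⟩

/-- `λ = 1 - ω` -/
def la : Eis := ⟨1, -1⟩

/-- `π = 3 + ω`, of norm `7` -/
def p7 : Eis := ⟨3, 1⟩

/-- `ω - 4` -/
def dd : Eis := ⟨-4, 1⟩

/-- The curve `y² + o² y = x³ + (2 + o) x² + (1 + o) x`. -/
def Ep {R : Type*} [CommRing R] (o : R) : WeierstrassCurve R := ⟨0, 2 + o, o ^ 2, 1 + o, 0⟩

theorem om_sq : om ^ 2 = -1 - om := by decide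
theorem om_cube : om ^ 3 = 1 := by decide
theorem om_quad : om ^ 2 + om + 1 = 0 := by decide
theorem la_eq : la = 1 - om := by decide
theorem three_eq : (3 : Eis) = -om ^ 2 * la ^ 2 := by decide
theorem dd_eq : dd = -(la * p7) := by decide

end TH
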