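import Pool.Agent.MP_9ab903_nt.TH.TD
import Pool.Agent.MP_9ab903_nt.TWR.T1

/-!
# [NG3-E1] a subfield of index three, `p`-group argument (file TH/E1.lean)

Compare `exists_index_two` (TWR/T1.lean). `G = Gal(M/K)` is a `3`-group, `H = Gal(M/F)` (as the subgroup fixing the image `E` of `F` in `M`) is a proper subgroup because
`[F : K] ≠ 1`. `G` is nilpotent (`IsPGroup.isNilpotent`), so `H` is a proper subgroup of its normaliser (`normalizerCondition_of_isNilpotent`,
`Group.isNilpotent..`); the quotient `N(H)/H` is a nontrivial `3`-group, it has an element of order `3` (Cauchy, `exists_prime_orderOf_dvd_card`); let `H'` be the preimage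
in `N(H)` of the subgroup it generates: `H ⊴ H'`, `[H' : H] = 3`. `L' = fixedField H' ⊆ E`, `L = L'.comap` of `F → M`. `[F : L] = [H' : H] = 3`. Galois: `M/L'` is Galois with group
`H'` (`IntermediateField.fixingSubgroup_fixedField`) and `E` corresponds to the normal subgroup `H` of `H'` (`IsGalois.of_fixedField_normal_subgroup` or: every automorphism of
`M` in `H'` maps `E` into `E`, so `E/L'` is normal: `Normal` from stability under `Gal(M/L')`), separable in characteristic zero; transport to `F/L`.
-/

set_option autoImplicit false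

open NumberField IsDedekindDomain
open CM27 CMT CF NAB
open scoped Classical

namespace TH

theorem e1_normal {G : Type} [Group G] [Finite G] (H H₀ : Subgroup G) (hle : H ≤ H₀) (a : ℕ)
    (ha : Nat.card H = 3 ^ a) (ha' : Nat.card H₀ = 3 ^ (a + 1)) (g h : G) (hg : g ∈ H₀)
    (hh : h ∈ H) : g⁻¹ * h * g ∈ H := by
  have hidx : (H.subgroupOf H₀).index = (Nat.card H₀).minFac := by
    rw [ha', Nat.pow_minFac (Nat.succ_ne_zero a), Nat.prime_three.minFac_eq]
    have h1 : Nat.card (H.subgroupOf H₀) = 3 ^ a := by
      rw [← ha]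
      exact Nat.card_congr (Subgroup.subgroupOfEquivOfLe hle).toEquiv
    have h2 := (H.subgroupOf H₀).index_mul_card
    rw [h1, ha', pow_succ, mul_comm] at h2
    exact Nat.eq_of_mul_eq_mul_left (by positivity) h2
  have hn : (H.subgroupOf H₀).Normal := Subgroup.normal_of_index_eq_minFac_card hidx
  have h1 : (⟨h, hle hh⟩ : H₀) ∈ H.subgroupOf H₀ := hh
  have h2 := hn.conj_mem _ h1 (⟨g, hg⟩ : H₀)⁻¹
  rw [Subgroup.mem_subgroupOf] at h2
  simpa using h2

theorem exists_index_three (K F M : Type) [Field K] [NumberField K] [Field F] [NumberField F]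
    [Field M] [NumberField M] [Algebra K F] [Algebra F M] [Algebra K M] [IsScalarTower K F M]
    [IsGalois K M] (m : ℕ) (hm : Module.finrank K M = 3 ^ m) (hne : Module.finrank K F ≠ 1) :
    ∃ L : IntermediateField K F, Module.finrank L F = 3 ∧ IsGalois L F := by
  have : FiniteDimensional K M := Module.Finite.of_restrictScalars_finite ℚ K M
  have : FiniteDimensional K F := Module.Finite.of_restrictScalars_finite ℚ K F
  have : Fact (Nat.Prime 3) := ⟨Nat.prime_three⟩
  let f : F →ₐ[K] M := IsScalarTower.toAlgHom K F M
  set H : Subgroup (M ≃ₐ[K] M) := f.fieldRange.fixingSubgroup with hH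
  have hfE : Module.finrank K f.fieldRange = Module.finrank K F :=
    (AlgEquiv.ofInjectiveField f).toLinearEquiv.finrank_eq.symm
  have hG : Nat.card (M ≃ₐ[K] M) = 3 ^ m := by rw [IsGalois.card_aut_eq_finrank, hm]
  have hcardH : Nat.card H = Module.finrank f.fieldRange M :=
    IsGalois.card_fixingSubgroup_eq_finrank _
  have htow : Module.finrank K F * Nat.card H = 3 ^ m := by
    rw [hcardH, ← hfE, Module.finrank_mul_finrank, hm]
  obtain ⟨a, ham, ha⟩ := (Nat.dvd_prime_pow Nat.prime_three).1 (Dvd.intro_left _ htow)
  have hF0 : 0 < Module.finrank K F := Module.finrank_pos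
  have ham' : a < m := by
    rcases ham.lt_or_eq with h | h
    · exact h
    · exfalso
      rw [ha, h] at htow
      apply hne
      have h2 : 0 < 3 ^ m := by positivity
      exact Nat.eq_of_mul_eq_mul_right h2 (by rw [htow, one_mul])
  obtain ⟨H₀, hH₀, hle⟩ := Sylow.exists_subgroup_card_pow_succ (G := M ≃ₐ[K] M) (p := 3) (n := a)
    (by rw [hG]; exact pow_dvd_pow 3 ham') (H := H) ha
  set L' : IntermediateField K M := IntermediateField.fixedField H₀ with hL'
  have hEH : IntermediateField.fixedField H = f.fieldRange :=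
    IsGalois.fixedField_fixingSubgroup _
  have hL'E : L' ≤ f.fieldRange := by
    rw [← hEH]
    exact IntermediateField.fixedField_antitone hle
  have hcard : Module.finrank L' M = 3 ^ (a + 1) := by
    rw [hL', IntermediateField.finrank_fixedField_eq_card, hH₀]
  have hmap : (L'.comap f).map f = L' := by
    apply le_antisymm
    · rintro _ ⟨x, hx, rfl⟩
      exact hx
    · intro x hx
      obtain ⟨y, rfl⟩ := hL'E hx
      exact ⟨y, hx, rfl⟩
  have h2 : Module.finrank K (L'.comap f) = Module.finrank K L' := by
    exact ((L'.comap f).equivMap f).toLinearEquiv.finrank_eq.trans (by rw [hmap])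
  have h3 : Module.finrank K L' * 3 ^ (a + 1) = 3 ^ m := by
    rw [← hcard, Module.finrank_mul_finrank, hm]
  have hrank : Module.finrank K F = 3 * Module.finrank K (L'.comap f) := by
    rw [h2]
    have h4 : Module.finrank K F * 3 ^ a = Module.finrank K L' * 3 ^ (a + 1) := by
      rw [h3, ← ha, htow]
    have h5 : 0 < 3 ^ a := by positivity
    apply Nat.eq_of_mul_eq_mul_right h5
    rw [h4, pow_succ]
    ring
  refine ⟨L'.comap f, ?_, ?_⟩
  · have h4 : Module.finrank K (L'.comap f) * Module.finrank (L'.comap f) F = Module.finrank K F :=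
      Module.finrank_mul_finrank _ _ _
    rw [hrank, mul_comm 3] at h4
    exact Nat.eq_of_mul_eq_mul_left Module.finrank_pos h4
  · have hfin : FiniteDimensional (L'.comap f) F :=
      Module.Finite.of_restrictScalars_finite K _ _
    have hnM : Normal (L'.comap f) M := by
      have h5 : IsGalois (L'.comap f) M := IsGalois.tower_top_of_isGalois K (L'.comap f) M
      infer_instance
    let fL : F →ₐ[L'.comap f] M := IsScalarTower.toAlgHom (L'.comap f) F M
    have hffL : ∀ x : M, x ∈ fL.fieldRange ↔ x ∈ f.fieldRange := fun x => Iff.rfl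
    have hnE : Normal (L'.comap f) fL.fieldRange := by
      rw [IntermediateField.normal_iff_forall_map_le]
      intro σ
      rintro _ ⟨x, hx, rfl⟩
      have hbij : Function.Bijective σ := Algebra.IsAlgebraic.algHom_bijective σ
      let g : M ≃ₐ[K] M := AlgEquiv.restrictScalars K (AlgEquiv.ofBijective σ hbij)
      have hgσ : ∀ y, g y = σ y := fun y => rfl
      have hgH : g ∈ H₀ := by
        rw [← IntermediateField.fixingSubgroup_fixedField H₀, IntermediateField.mem_fixingSubgroup_iff]
        intro y hy
        obtain ⟨z, rfl⟩ := hL'E hy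
        rw [hgσ]
        exact σ.commutes (⟨z, hy⟩ : L'.comap f)
      show σ x ∈ fL.fieldRange
      rw [hffL, ← hEH, IntermediateField.mem_fixedField_iff]
      intro h hh
      have h6 := e1_normal H H₀ hle a ha hH₀ g h hgH hh
      have h7 : x ∈ IntermediateField.fixedField H := by
        rw [hEH]
        exact hx
      rw [IntermediateField.mem_fixedField_iff] at h7
      have h8 := congrArg g (h7 _ h6)
      rw [AlgEquiv.mul_apply, AlgEquiv.mul_apply, ← AlgEquiv.mul_apply g g⁻¹, mul_inv_cancel,
        AlgEquiv.one_apply] at h8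
      exact h8
    let e : F ≃ₐ[L'.comap f] fL.fieldRange := AlgEquiv.ofInjectiveField fL
    have hnF : Normal (L'.comap f) F := Normal.of_algEquiv e.symm
    exact ⟨⟩

end TH
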