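import Pool.Agent.MP_9ab903_nt.TH.P17a

set_option autoImplicit false

open NumberField IsDedekindDomain
open CM27 CMT NAB CF TWR
open scoped Classical

namespace TH

/-! ## [TH-P17] the Kummer generator of a cyclic cubic extension unramified above `3` (file TH/P17.lean)

`F / k` cyclic cubic, `λ` a uniformiser at all places of `F` above `3` (`UL (eu k F e)`).
`exists_tr_unit`: for every place `v` of `k` above `3` there is `θ_v ∈ 𝓞 F` with `Tr θ_v ∉ v`: the places `w` above `v` are all split or inert (`not_ram_three` in P8; here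
directly from `kinds` and `UL`: `e = 3` would give `e la ∈ w³`); split: `θ ≡ 1 mod w`, `θ ≡ 0 mod σw, σ²w`; inert: the trace of the residue field extension is onto
(`σ` acts on the residue field as a generator of its Galois group over the residue field of `v`: `frob3`). Chinese remainder theorem: `θ` with `Tr θ ≡ 1 mod v` for all `v ∣ 3`
(multiply the `θ_v` by idempotent elements of `𝓞 k`).
`exists_kummer`: `δ = θ + ω² σθ + ω σ²θ`, `σ δ = σθ + ω² σ²θ + ω θ = ω δ`, `δ ≡ Tr θ ≡ 1` modulo all `w ∣ 3` (`ω ≡ 1`), i.e. `λ ∣ δ - 1` (`UL`), so `δ ≠ 0`, `δ = 1 - λ s`,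
`δ³ = 1 - λ³ (s³ - ω² s + ω² λ s²)`; `d = δ³` is fixed by `σ`, `d ∈ 𝓞 k`, `λ³ ∣ d - 1` in `𝓞 F`, hence in `𝓞 k` ((d-1)/λ³ is integral over and in `k`). -/

/-- cubes in a finite field -/
theorem p17_cube {K : Type*} [Field K] [Finite K] {m : ℕ} (hm : Nat.card K = 3 * m + 1) {x : K}
    (hx : x ≠ 0) (h : x ^ m = 1) : ∃ y : K, y ^ 3 = x := by
  have hm0 : 0 < m := by
    rcases Nat.eq_zero_or_pos m with h0 | h0
    · have := Finite.one_lt_card (α := K)
      omega
    · exact h0
  obtain ⟨g, hg⟩ := IsCyclic.exists_generator (α := Kˣ)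
  have hord : orderOf g = 3 * m := by
    rw [orderOf_eq_card_of_forall_mem_zpowers hg, Nat.card_units, hm]
    omega
  obtain ⟨n, hn⟩ := mem_powers_iff_mem_zpowers.2 (hg (Units.mk0 x hx))
  have hn' : g ^ n = Units.mk0 x hx := hn
  have h1 : g ^ (n * m) = 1 := by
    rw [pow_mul, hn']
    ext
    rw [Units.val_pow_eq_pow_val, Units.val_mk0, Units.val_one]
    exact h
  have h2 := orderOf_dvd_of_pow_eq_one h1
  rw [hord] at h2
  have h3 : 3 ∣ n := Nat.dvd_of_mul_dvd_mul_right hm0 h2
  obtain ⟨l, rfl⟩ := h3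
  refine ⟨((g ^ l : Kˣ) : K), ?_⟩
  rw [← Units.val_pow_eq_pow_val, ← pow_mul, mul_comm l 3, hn']
  rfl

section
variable {k F : Type} [Field k] [NumberField k] [Field F] [NumberField F] [Algebra k F]
  (S : Cyc k F) (e : Eis →+* 𝓞 k)

theorem p17_val_int {F : Type} [Field F] [NumberField F] (w : HeightOneSpectrum (𝓞 F)) (a : 𝓞 F) :
    w.valuation F (a : F) ≤ 1 := w.valuation_le_one a

include e in
/-- cubes modulo `v` -/
theorem p17_cube_mod (v : HeightOneSpectrum (𝓞 k)) (h3 : (3 : 𝓞 k) ∉ v.asIdeal) {a : 𝓞 k}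
    (ha : a ∉ v.asIdeal) (h : a ^ ((nv v - 1) / 3) - 1 ∈ v.asIdeal) :
    ∃ b : 𝓞 k, a - b ^ 3 ∈ v.asIdeal := by
  have := finite_quot v
  have := v.isMaximal
  let _ : Field (𝓞 k ⧸ v.asIdeal) := Ideal.Quotient.field v.asIdeal
  have hq := nv_mod e v h3
  have hcard : Nat.card (𝓞 k ⧸ v.asIdeal) = 3 * ((nv v - 1) / 3) + 1 := by
    change nv v = _
    omega
  have hx : Ideal.Quotient.mk v.asIdeal a ≠ 0 := by
    rwa [Ne, Ideal.Quotient.eq_zero_iff_mem]
  have hx1 : Ideal.Quotient.mk v.asIdeal a ^ ((nv v - 1) / 3) = 1 := by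
    rw [← map_pow, ← map_one (Ideal.Quotient.mk v.asIdeal), Ideal.Quotient.eq]
    exact h
  obtain ⟨y, hy⟩ := p17_cube hcard hx hx1
  obtain ⟨b, rfl⟩ := Ideal.Quotient.mk_surjective y
  refine ⟨b, ?_⟩
  rw [← Ideal.Quotient.eq, map_pow]
  exact hy.symm

/-- elements congruent to elements of `k` are fixed modulo `w` -/
theorem p17_fix (w : HeightOneSpectrum (𝓞 F)) (hsw : S.sw w = w) {y : F} {c : k}
    (h : w.valuation F (y - algebraMap k F c) < 1) : w.valuation F (sF S y - y) < 1 := by
  have e1 : sF S y - y = sF S (y - algebraMap k F c) - (y - algebraMap k F c) := by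
    rw [map_sub, sF_map]
    ring
  rw [e1]
  refine (Valuation.map_sub _ _ _).trans_lt (max_lt ?_ h)
  rw [val_sF, hsw]
  exact h

theorem p17_om_quad : ((eu k F e om : 𝓞 F) : F) ^ 2 + ((eu k F e om : 𝓞 F) : F) + 1 = 0 := by
  have h : eu k F e om ^ 2 + eu k F e om + 1 = 0 := by
    rw [← map_pow, ← map_add, ← map_one (eu k F e), ← map_add, om_quad, map_zero]
  have h2 := congrArg (fun z : 𝓞 F => (z : F)) h
  simpa using h2

theorem p17_la : ((eu k F e la : 𝓞 F) : F) = 1 - ((eu k F e om : 𝓞 F) : F) := by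
  rw [la_eq, map_sub, map_one]
  rfl

/-- the contradiction at the places prime to `3` -/
theorem p17_contra (w : HeightOneSpectrum (𝓞 F)) (hw3 : (3 : 𝓞 F) ∉ w.asIdeal) {y : F}
    (hy : w.valuation F y = 1) (hsy : sF S y = ((eu k F e om : 𝓞 F) : F) * y)
    (h : w.valuation F (sF S y - y) < 1) : False := by
  apply hw3
  rw [three_mem_iff (eu k F e), ← val_lt_iff]
  have e1 : sF S y - y = -(((eu k F e la : 𝓞 F) : F) * y) := by
    rw [hsy, p17_la]
    ring
  rw [e1, Valuation.map_neg, map_mul, hy, mul_one] at h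
  exact h

variable {d : k} {δ : F} (hd : d ≠ 0) (h3 : δ ^ 3 = algebraMap k F d)
  (hs : sF S δ = ((eu k F e om : 𝓞 F) : F) * δ)

include hd h3 in
theorem p17_ne : δ ≠ 0 := by
  rintro rfl
  rw [zero_pow three_ne_zero] at h3
  exact hd ((map_eq_zero_iff _ (algebraMap k F).injective).1 h3.symm)

include hd h3 hs in
/-- ramified places (not above `3`) -/
theorem kum_ram (w : HeightOneSpectrum (𝓞 F)) (hw3 : (3 : 𝓞 F) ∉ w.asIdeal) (hsw : S.sw w = w)
    (hc : nv w = nv (und k w))
    (hv : ∀ x : k, w.valuation F (algebraMap k F x) = (und k w).valuation k x ^ 3) :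
    ¬ t3 (und k w) d := by
  rintro ⟨m, hm⟩
  have hδ0 : δ ≠ 0 := p17_ne hd h3
  obtain ⟨c, hc1⟩ := (und k w).valuation_surjective k (WithZero.exp m)
  have hc0 : c ≠ 0 := by
    rintro rfl
    rw [map_zero] at hc1
    exact WithZero.exp_ne_zero hc1.symm
  have hcF : algebraMap k F c ≠ 0 := (map_ne_zero_iff _ (algebraMap k F).injective).2 hc0
  have hval : w.valuation F δ = w.valuation F (algebraMap k F c) := by
    have h1 : w.valuation F δ ^ 3 = w.valuation F (algebraMap k F c) ^ 3 := by
      rw [← map_pow, h3, hv, hv, ← pow_mul, hc1, val_eq_exp _ hd, hm]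
      rw [← WithZero.exp_nsmul, ← WithZero.exp_nsmul]
      congr 1
      simp
      ring
    exact (pow_left_inj₀ zero_le zero_le three_ne_zero).1 h1
  set y : F := δ / algebraMap k F c with hy
  have hy1 : w.valuation F y = 1 := by
    rw [hy, map_div₀, hval]
    exact div_self (val_ne w hcF)
  have hsy : sF S y = ((eu k F e om : 𝓞 F) : F) * y := by
    rw [hy, map_div₀, hs, sF_map]
    ring
  obtain ⟨b, hb⟩ := approx_int y w hy1.le
  obtain ⟨r, hr⟩ := rmap_surjective w hc (Ideal.Quotient.mk _ b)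
  obtain ⟨r, rfl⟩ := Ideal.Quotient.mk_surjective r
  rw [rmap_mk, Ideal.Quotient.eq] at hr
  refine p17_contra S e w hw3 hy1 hsy (p17_fix S w hsw (c := (r : k)) ?_)
  have e1 : y - algebraMap k F (r : k) = (y - b) -
      ((algebraMap (𝓞 k) (𝓞 F) r - b : 𝓞 F) : F) := by
    change _ = (y - b) - (algebraMap (𝓞 F) F (algebraMap (𝓞 k) (𝓞 F) r - b))
    rw [map_sub]
    change y - algebraMap k F (r : k) = (y - b) - (algebraMap k F (r : k) - b)
    ring
  rw [e1]
  exact (Valuation.map_sub _ _ _).trans_lt (max_lt hb ((val_lt_iff _ w).2 hr))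

include h3 in
theorem p17_unr (w : HeightOneSpectrum (𝓞 F))
    (hv : ∀ x : k, w.valuation F (algebraMap k F x) = (und k w).valuation k x) :
    t3 (und k w) d := by
  refine ⟨od w δ, ?_⟩
  have h1 := od_pow w δ 3
  rw [h3] at h1
  have h2 : od w (algebraMap k F d) = od (und k w) d := by rw [od, od, hv]
  rw [h2] at h1
  rw [h1]
  rfl

include hd h3 hs in
/-- split and inert places: the order of `d` is divisible by three -/
theorem kum_unr (w : HeightOneSpectrum (𝓞 F))
    (hv : ∀ x : k, w.valuation F (algebraMap k F x) = (und k w).valuation k x) :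
    t3 (und k w) d :=
  p17_unr h3 w hv

include hd h3 in
theorem p17_cd (hA : AdG e d) (w : HeightOneSpectrum (𝓞 F))
    (hv : ∀ x : k, w.valuation F (algebraMap k F x) = (und k w).valuation k x) :
    Cd e (und k w) d := by
  by_cases h : (3 : 𝓞 k) ∈ (und k w).asIdeal
  · exact hA.cd e (und k w) h
  · exact ⟨hd, Or.inl ⟨h, p17_unr h3 w hv⟩⟩

include hd h3 hs in
/-- split places: the symbol is `1` -/
theorem kum_split (hA : AdG e d) (w : HeightOneSpectrum (𝓞 F)) (hsw : S.sw w ≠ w) :
    cs e (und k w) d = 1 := by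
  rcases kinds S w with ⟨-, hc, hv⟩ | ⟨h, -⟩ | ⟨h, -⟩
  · obtain ⟨-, h2⟩ := cs_deg1 e w hc (p17_cd e hd h3 hA w hv)
    rw [← h2, ← h3]
    exact cs_cube (eu k F e) w (p17_ne hd h3)
  · exact absurd h hsw
  · exact absurd h hsw

theorem p17_om_pow {j : ℕ} (h : om ^ j = 1) : 3 ∣ j := by
  have h1 : om ^ j = om ^ (j % 3) := by
    conv_lhs => rw [← Nat.div_add_mod j 3, pow_add, pow_mul, om_cube, one_pow, one_mul]
  rw [h1] at h
  have h2 : j % 3 < 3 := Nat.mod_lt _ (by norm_num)
  rcases Nat.eq_zero_or_pos (j % 3) with h4 | h4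
  · exact Nat.dvd_of_mod_eq_zero h4
  · exfalso
    have h5 : j % 3 = 1 ∨ j % 3 = 2 := by omega
    rcases h5 with h5 | h5
    · rw [h5] at h
      revert h
      decide
    · rw [h5] at h
      revert h
      decide

include hd h3 hs in
/-- inert places: the symbol is not `1` -/
theorem kum_inert (hA : AdG e d) (w : HeightOneSpectrum (𝓞 F)) (hsw : S.sw w = w)
    (hc : nv w = nv (und k w) ^ 3) :
    cs e (und k w) d ≠ 1 ∧ cs e (und k w) d ^ 3 = 1 := by
  have hδ0 : δ ≠ 0 := p17_ne hd h3
  have hv : ∀ x : k, w.valuation F (algebraMap k F x) = (und k w).valuation k x := by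
    rcases kinds S w with ⟨h, -⟩ | ⟨-, hc', -⟩ | ⟨-, -, -, hv⟩
    · exact absurd hsw h
    · exfalso
      have h1 : 1 < nv (und k w) := by
        have := finite_quot (und k w)
        have := (und k w).isMaximal
        let _ : Field (𝓞 k ⧸ (und k w).asIdeal) := Ideal.Quotient.field (und k w).asIdeal
        exact Finite.one_lt_card
      rw [hc'] at hc
      have h2 : nv (und k w) ^ 1 < nv (und k w) ^ 3 := Nat.pow_lt_pow_right h1 (by norm_num)
      rw [pow_one] at h2
      omega
    · exact hv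
  have hcd := p17_cd e hd h3 hA w hv
  refine ⟨fun h1 => ?_, cs_pow_three e _ hcd⟩
  have hcs := cs_spec e _ hcd
  rw [h1] at hcs
  obtain ⟨-, u, hu, hh⟩ := hcs
  have huF : algebraMap k F u ≠ 0 := (map_ne_zero_iff _ (algebraMap k F).injective).2 hu
  set o : F := ((eu k F e om : 𝓞 F) : F) with ho
  have hoq : o ^ 2 + o + 1 = 0 := p17_om_quad e
  have ho3 : o ^ 3 = 1 := by linear_combination (o - 1) * hoq
  have hok : o = algebraMap k F ((e om : 𝓞 k) : k) := rfl
  have hsη : sF S (δ * algebraMap k F u) = o * (δ * algebraMap k F u) := by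
    rw [map_mul, hs, sF_map]
    ring
  have hη3 : (δ * algebraMap k F u) ^ 3 = algebraMap k F (d * u ^ 3) := by
    rw [mul_pow, h3, map_mul, map_pow]
  rcases hh with ⟨h3v, a, ha, hau, hae⟩ | ⟨h3v, τ, t, j, hτ, htτ, htj, hj⟩
  · have hw3 : (3 : 𝓞 F) ∉ w.asIdeal := fun h => h3v ((three_und w).2 h)
    rw [map_one] at hae
    obtain ⟨b, hb⟩ := p17_cube_mod e (und k w) h3v ha hae
    set η : F := δ * algebraMap k F u with hη
    have hη1 : w.valuation F η = 1 := by
      have h4 : w.valuation F η ^ 3 = 1 := by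
        rw [← map_pow, hη3, hau, hv]
        exact val_unit a _ ha
      exact (pow_left_inj₀ zero_le zero_le three_ne_zero).1 (by rw [h4, one_pow])
    set B : F := algebraMap k F (b : k) with hB
    have hprod : w.valuation F ((η - B) * (η - o * B) * (η - o ^ 2 * B)) < 1 := by
      have e1 : (η - B) * (η - o * B) * (η - o ^ 2 * B) = η ^ 3 - B ^ 3 := by
        linear_combination (-(η ^ 2 * B) + η * B ^ 2 * o) * hoq - B ^ 3 * ho3
      have e2 : η ^ 3 - B ^ 3 = algebraMap k F ((a - b ^ 3 : 𝓞 k) : k) := by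
        rw [hη3, hau, hB, ← map_pow, ← map_sub]
        rfl
      rw [e1, e2, hv]
      exact (val_lt_iff _ _).2 hb
    have hcase : w.valuation F (η - B) < 1 ∨ w.valuation F (η - o * B) < 1 ∨
        w.valuation F (η - o ^ 2 * B) < 1 := by
      by_contra hcon
      push Not at hcon
      rw [map_mul, map_mul] at hprod
      exact absurd hprod (not_lt.2 (one_le_mul (one_le_mul hcon.1 hcon.2.1) hcon.2.2))
    rcases hcase with h5 | h5 | h5
    · exact p17_contra S e w hw3 hη1 hsη (p17_fix S w hsw h5)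
    · refine p17_contra S e w hw3 hη1 hsη (p17_fix S w hsw (c := ((e om : 𝓞 k) : k) * (b : k)) ?_)
      rw [map_mul]
      exact h5
    · refine p17_contra S e w hw3 hη1 hsη
        (p17_fix S w hsw (c := ((e om : 𝓞 k) : k) ^ 2 * (b : k)) ?_)
      rw [map_mul, map_pow]
      exact h5
  · have hw3 : (3 : 𝓞 F) ∈ w.asIdeal := (three_und w).1 h3v
    have h3j := p17_om_pow hj.symm
    have htv : tv (und k w) t ∈ (und k w).asIdeal := by
      have h5 : (j : 𝓞 k) ∈ (und k w).asIdeal := by
        obtain ⟨l, rfl⟩ := h3j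
        push_cast
        exact Ideal.mul_mem_right _ _ h3v
      have h6 := Ideal.add_mem _ htj h5
      rwa [sub_add_cancel] at h6
    obtain ⟨s, hs'⟩ := (as_iff3 (und k w) h3v t).2 htv
    set L : F := ((eu k F e la : 𝓞 F) : F) with hL
    have hLo : L = 1 - o := p17_la e
    have hLk : L = algebraMap k F ((e la : 𝓞 k) : k) := rfl
    have hLlt : w.valuation F L < 1 := by
      rw [hL, val_lt_iff, ← three_mem_iff]
      exact hw3
    have hL0 : L ≠ 0 := by
      rw [hLk, Ne, map_eq_zero_iff _ (algebraMap k F).injective]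
      intro h0
      have h5 : (e la : 𝓞 k) = 0 := RingOfIntegers.coe_eq_zero_iff.1 h0
      have h6 : (3 : 𝓞 k) = 0 := by
        have := congrArg e three_eq
        rw [map_mul, map_pow e la, h5, map_ofNat] at this
        rw [this]; ring
      have h7 := congrArg (fun z : 𝓞 k => (z : k)) h6
      simp at h7
    set σ : F := algebraMap k F (s : k) with hσ
    have hσ1 : w.valuation F σ ≤ 1 := by
      rw [hσ, hv]
      exact p17_val_int _ s
    have ho1 : w.valuation F o ≤ 1 := p17_val_int w _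
    set D : F := 1 - L * σ with hD
    have hD1 : w.valuation F D = 1 := by
      have h5 : w.valuation F (L * σ) < w.valuation F (1 : F) := by
        rw [map_mul, map_one]
        exact mul_lt_one_of_lt_of_le hLlt hσ1
      rw [hD, Valuation.map_sub_eq_of_lt_left _ h5, map_one]
    have hD0 : D ≠ 0 := by
      intro h0
      rw [h0, map_zero] at hD1
      exact zero_ne_one hD1
    set y : F := (1 - δ * algebraMap k F u / D) / L with hy
    have hηy : δ * algebraMap k F u = D * (1 - L * y) := by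
      rw [hy]
      field_simp
      ring
    have hsD : sF S D = D := by
      have : D = algebraMap k F (1 - ((e la : 𝓞 k) : k) * (s : k)) := by
        rw [map_sub, map_one, map_mul]
        rfl
      rw [this, sF_map]
    have hsL : sF S L = L := by rw [hLk, sF_map]
    have hsy : sF S y = 1 + o * y := by
      have h5 := hsη
      rw [hηy, map_mul, hsD, map_sub, map_one, map_mul, hsL] at h5
      have h6 : D * (L * (sF S y - (1 + o * y))) = 0 := by
        rw [hLo] at h5 ⊢
        linear_combination -h5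
      have h7 := (mul_eq_zero.1 ((mul_eq_zero.1 h6).resolve_left hD0)).resolve_left hL0
      exact sub_eq_zero.1 h7
    have hY : w.valuation F (y * (1 - y) * (o ^ 2 + y)) < 1 := by
      have e1 : D ^ 3 * (y * (1 - y) * (o ^ 2 + y)) =
          algebraMap k F ((s ^ 3 - s - t : 𝓞 k) : k) - algebraMap k F (τ - t) +
            L * ((1 + o) * σ + o ^ 2 * σ ^ 2) := by
        have e2 : algebraMap k F ((s ^ 3 - s - t : 𝓞 k) : k) =
            σ ^ 3 - σ - algebraMap k F (t : k) := by
          rw [hσ, ← map_pow, ← map_sub, ← map_sub]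
          rfl
        have e3 : (D * (1 - L * y)) ^ 3 = 1 - L ^ 3 * algebraMap k F τ := by
          rw [← hηy, hη3, hτ, map_sub, map_one, map_mul, map_pow]
          rfl
        rw [e2, map_sub]
        have e4 : L ^ 3 * (D ^ 3 * (y * (1 - y) * (o ^ 2 + y))) =
            L ^ 3 * (σ ^ 3 - σ - algebraMap k F (t : k) -
              (algebraMap k F τ - algebraMap k F (t : k)) +
              L * ((1 + o) * σ + o ^ 2 * σ ^ 2)) := by
          have ha : (1 - L * y) ^ 3 = 1 + L ^ 3 * (y * (1 - y) * (o ^ 2 + y)) := by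
            rw [hLo]
            linear_combination (-(o ^ 3 * y ^ 2) + o ^ 3 * y + 4 * o ^ 2 * y ^ 2 - 4 * o ^ 2 * y
              - 5 * o * y ^ 2 + 6 * o * y + 2 * y ^ 2 - 3 * y) * hoq
          have hb : D ^ 3 = 1 - L ^ 3 * (σ ^ 3 - o ^ 2 * σ + o ^ 2 * L * σ ^ 2) := by
            rw [hD, hLo]
            linear_combination (o ^ 4 * σ ^ 2 - 5 * o ^ 3 * σ ^ 2 + o ^ 3 * σ + 10 * o ^ 2 * σ ^ 2
              - 4 * o ^ 2 * σ - 9 * o * σ ^ 2 + 6 * o * σ + 3 * σ ^ 2 - 3 * σ) * hoq
          linear_combination (-D ^ 3) * ha + e3 - hb - L ^ 3 * σ * (1 + o) * hLo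
        exact mul_left_cancel₀ (pow_ne_zero 3 hL0) e4
      have h5 : w.valuation F (D ^ 3 * (y * (1 - y) * (o ^ 2 + y))) < 1 := by
        rw [e1]
        refine (Valuation.map_add _ _ _).trans_lt (max_lt
          ((Valuation.map_sub _ _ _).trans_lt (max_lt ?_ ?_)) ?_)
        · rw [hv]
          exact (val_lt_iff _ _).2 hs'
        · rw [hv]
          exact htτ
        · rw [map_mul]
          refine mul_lt_one_of_lt_of_le hLlt ?_
          refine (Valuation.map_add _ _ _).trans (max_le ?_ ?_)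
          · rw [map_mul]
            refine mul_le_one' ((Valuation.map_add _ _ _).trans (max_le ?_ ho1)) hσ1
            rw [map_one]
          · rw [map_mul, map_pow, map_pow]
            exact mul_le_one' (pow_le_one' ho1 _) (pow_le_one' hσ1 _)
      rwa [map_mul, map_pow, hD1, one_pow, one_mul] at h5
    have hcase : w.valuation F (y - 0) < 1 ∨ w.valuation F (y - 1) < 1 ∨
        w.valuation F (y - (-o ^ 2)) < 1 := by
      by_contra hcon
      push Not at hcon
      obtain ⟨h5, h6, h7⟩ := hcon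
      rw [map_mul, map_mul] at hY
      rw [sub_zero] at h5
      have h6' : 1 ≤ w.valuation F (1 - y) := by rwa [Valuation.map_sub_swap]
      have h7' : 1 ≤ w.valuation F (o ^ 2 + y) := by
        have e5 : y - (-o ^ 2) = o ^ 2 + y := by ring
        rwa [e5] at h7
      exact absurd hY (not_lt.2 (one_le_mul (one_le_mul h5 h6') h7'))
    have hfin : ∀ c : k, w.valuation F (algebraMap k F c) ≤ 1 →
        w.valuation F (y - algebraMap k F c) < 1 → False := by
      intro c hc1 hc2
      have h5 := p17_fix S w hsw hc2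
      have hy1 : w.valuation F y ≤ 1 := by
        have e5 : y = (y - algebraMap k F c) + algebraMap k F c := by ring
        rw [e5]
        exact (Valuation.map_add _ _ _).trans (max_le hc2.le hc1)
      have e6 : sF S y - y = 1 - L * y := by rw [hsy, hLo]; ring
      have h6 : w.valuation F (L * y) < w.valuation F (1 : F) := by
        rw [map_mul, map_one]
        exact mul_lt_one_of_lt_of_le hLlt hy1
      rw [e6, Valuation.map_sub_eq_of_lt_left _ h6, map_one] at h5
      exact lt_irrefl _ h5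
    rcases hcase with h5 | h5 | h5
    · refine hfin 0 ?_ ?_
      · rw [map_zero, map_zero]; exact zero_le
      · rw [map_zero]; exact h5
    · refine hfin 1 ?_ ?_
      · rw [map_one, map_one]
      · rw [map_one]; exact h5
    · refine hfin (-((e om : 𝓞 k) : k) ^ 2) ?_ ?_
      · rw [map_neg, Valuation.map_neg, map_pow, map_pow]
        exact pow_le_one' ho1 _
      · rw [map_neg, map_pow]; exact h5

end

end TH
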