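import Pool.Agent.MP_9ab903_nt.TH.E2a
import Pool.Agent.MP_9ab903_nt.TH.P17
import Pool.Agent.MP_9ab903_nt.TH.B5

/-!
# [NG3-E2a], [NG3-E2] the tower (files TH/E2a.lean, E2.lean)
-/

set_option autoImplicit false

open NumberField IsDedekindDomain
open CM27 CMT CF NAB TWR
open scoped Classical

namespace TH

/-- the condition on the ramification passes to subfields -/
theorem e2_unrN_sub (K F M : Type) [Field K] [NumberField K] [Field F] [NumberField F] [Field M]
    [NumberField M] [Algebra K F] [Algebra F M] [Algebra K M] [IsScalarTower K F M] (e : 𝓞 K)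
    (hu : UnrN K M e) : UnrN K F e := by
  intro v P hP hx
  have := P.isMaximal
  obtain ⟨Q, hQm, hQ⟩ := Ideal.exists_maximal_ideal_liesOver_of_isIntegral
    (S := 𝓞 M) P.asIdeal
  have hQ0 : Q ≠ ⊥ := Ideal.ne_bot_of_liesOver_of_ne_bot P.ne_bot Q
  let W : HeightOneSpectrum (𝓞 M) := ⟨Q, hQm.isPrime, hQ0⟩
  have hWP : W.asIdeal.LiesOver P.asIdeal := hQ
  have hWv : W.asIdeal.LiesOver v.asIdeal := Ideal.LiesOver.trans W.asIdeal P.asIdeal v.asIdeal
  have h1 := hu v W hWv hx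
  have h2 : P.asIdeal.ramificationIdx (𝓞 K) ∣ W.asIdeal.ramificationIdx (𝓞 K) :=
    Ideal.ramificationIdx_below_dvd (R := 𝓞 K) P.asIdeal W.asIdeal
  rw [h1] at h2
  exact Nat.dvd_one.1 h2

/-- the ramification index over `K` is not `1` at the ramified places of a cubic step -/
theorem e2_ram (K k F : Type) [Field K] [NumberField K] [Field k] [NumberField k] [Field F]
    [NumberField F] [Algebra K k] [Algebra k F] [Algebra K F] [IsScalarTower K k F]
    (W : HeightOneSpectrum (𝓞 F))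
    (h : Ideal.map (algebraMap (𝓞 k) (𝓞 F)) (und k W).asIdeal = W.asIdeal ^ 3) :
    W.asIdeal.ramificationIdx (𝓞 K) ≠ 1 := by
  have hWp := W.isPrime
  have hkp := (und k W).isPrime
  have hlies : W.asIdeal.LiesOver (und k W).asIdeal := ⟨rfl⟩
  have h1 := Ideal.ramificationIdx_tower (R := 𝓞 K) (und k W).asIdeal W.asIdeal
  intro h2
  rw [h2] at h1
  have h3 : W.asIdeal.ramificationIdx (𝓞 k) = 1 := Nat.eq_one_of_mul_eq_one_left h1.symm
  have hne : W.asIdeal.under (𝓞 k) ≠ ⊥ := (und k W).ne_bot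
  have h4 : (W.asIdeal.under (𝓞 k)).ramificationIdx' W.asIdeal = 1 := by
    rw [Ideal.ramificationIdx'_eq_ramificationIdx (W.asIdeal.under (𝓞 k)) W.asIdeal hne, h3]
  refine (Ideal.ramificationIdx'_ne_one_iff ?_).2 ?_ h4
  · exact Ideal.map_comap_le
  · have h5 : Ideal.map (algebraMap (𝓞 k) (𝓞 F)) (W.asIdeal.under (𝓞 k)) = W.asIdeal ^ 3 := h
    rw [h5]
    exact Ideal.pow_le_pow_right (by norm_num)

/-- a place of `ℚ(ω)` is generated by a prime element -/
theorem e2_gen (φ : Eis ≃+* 𝓞 KK) (v : HeightOneSpectrum (𝓞 KK)) :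
    ∃ b : Eis, Prime b ∧ v.asIdeal = Ideal.span {φ b} := by
  haveI := KK_pid
  obtain ⟨c, hc⟩ := (IsPrincipalIdealRing.principal v.asIdeal).principal
  obtain ⟨b, rfl⟩ := φ.surjective c
  have hc' : v.asIdeal = Ideal.span {φ b} := hc
  refine ⟨b, ?_, hc'⟩
  have h0 : φ b ≠ 0 := by
    intro h
    apply v.ne_bot
    rw [hc', h, Ideal.span_singleton_eq_bot]
  have h1 : Prime (φ b) := by
    rw [← Ideal.span_singleton_prime h0, ← hc']
    exact v.isPrime
  exact (MulEquiv.prime_iff φ.toMulEquiv).1 h1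

section
variable {k F : IntermediateField ℚ ℂ} [NumberField k] [NumberField F] [Algebra k F]
  (hal : ∀ x : k, ((algebraMap k F x : F) : ℂ) = (x : ℂ)) (hwk : w ∈ k) (hw : w ∈ F)

include hal in
theorem step_nonsq (hTk : TT k hwk) (hT : TT F hw) (S : Cyc k F) {d : k} {δ : F} (hd : d ≠ 0)
    (h3 : δ ^ 3 = algebraMap k F d) (hs : sF S δ = ((eF F hw om : 𝓞 F) : F) * δ)
    (v : HeightOneSpectrum (𝓞 k)) (hv : ¬ t3 v d) :
    (¬ ∃ x : 𝓞 k, x ^ 2 - eF k hwk dd ∈ v.asIdeal) ∧ eF k hwk (6 * p7) ∉ v.asIdeal := by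
  have first : ¬ ∃ x : 𝓞 k, x ^ 2 - eF k hwk dd ∈ v.asIdeal := by
    obtain ⟨W, hW⟩ := exists_above (F := F) v
    have hs' : sF S δ = ((eu k F (eF k hwk) om : 𝓞 F) : F) * δ := by
      rw [eu_eq hal hwk hw]
      exact hs
    have hmap : Ideal.map (algebraMap (𝓞 k) (𝓞 F)) (und k W).asIdeal = W.asIdeal ^ 3 := by
      rcases kinds S W with h | h | h
      · exact absurd (hW ▸ kum_unr S (eF k hwk) hd h3 hs' W h.2.2) hv
      · exact h.2.2.1
      · exact absurd (hW ▸ kum_unr S (eF k hwk) hd h3 hs' W h.2.2.2) hv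
    letI := algK k hwk
    letI := algK F hw
    haveI hST : IsScalarTower KK k F := IsScalarTower.of_algebraMap_eq fun x => by
      apply Subtype.ext
      rw [hal]
      rfl
    obtain ⟨M, _, _, _, _, _, _, m, hm, hu⟩ := hT
    have huF : UnrN KK F dK := e2_unrN_sub KK F M dK hu
    obtain ⟨φ, hφ⟩ := exists_KK
    obtain ⟨b, hb, hvb⟩ := e2_gen φ (und KK W)
    have hdK : dK = φ dd := by
      apply RingOfIntegers.ext
      apply Subtype.ext
      rw [hφ, dK, eF_apply]
    have hns : ¬ ∃ x : Eis, b ∣ x ^ 2 - dd := by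
      rintro ⟨x, hx⟩
      apply e2_ram KK k F W hmap
      refine huF (und KK W) W ⟨rfl⟩ ⟨φ x, ?_⟩
      rw [hvb, Ideal.mem_span_singleton, hdK, ← map_pow, ← map_sub]
      exact map_dvd φ hx
    refine nonsq_up (eF k hwk) (TT.ar k hwk hTk) v hb ?_ hns
    have h5 : φ b ∈ (und KK W).asIdeal := by
      rw [hvb]
      exact Ideal.mem_span_singleton_self _
    rw [mem_und] at h5
    rw [← hW, mem_und]
    have h6 : algebraMap (𝓞 k) (𝓞 F) (eF k hwk b) = algebraMap (𝓞 KK) (𝓞 F) (φ b) := by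
      apply RingOfIntegers.ext
      apply Subtype.ext
      have e1 : ((((algebraMap (𝓞 k) (𝓞 F) (eF k hwk b) : 𝓞 F) : F)) : ℂ) = emb b :=
        (hal _).trans (eF_apply k hwk b)
      have e2 : ((((algebraMap (𝓞 KK) (𝓞 F) (φ b) : 𝓞 F) : F)) : ℂ) = emb b := hφ b
      rw [e1, e2]
    rw [h6]
    exact h5
  refine ⟨first, fun h6 => first ?_⟩
  have e6 : (6 * p7 : Eis) = 2 * (-om ^ 2 * la * (la * p7)) := by decide
  have e7 : (la * p7 : Eis) = 0 ^ 2 - dd := by decide
  have e4 : (2 : Eis) * 2 = (om ^ 2) ^ 2 - dd := by decide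
  rw [e6, map_mul] at h6
  rcases v.isPrime.mem_or_mem h6 with h | h
  · refine ⟨eF k hwk (om ^ 2), ?_⟩
    rw [← map_pow, ← map_sub, ← e4, map_mul]
    exact Ideal.mul_mem_left _ _ h
  · rw [map_mul] at h
    rcases v.isPrime.mem_or_mem h with h | h
    · rw [map_mul] at h
      rcases v.isPrime.mem_or_mem h with h | h
      · exfalso
        apply v.isPrime.ne_top
        rw [Ideal.eq_top_iff_one]
        have e : (1 : Eis) = -om ^ 2 * (-om) := by decide
        rw [← map_one (eF k hwk), e, map_mul]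
        exact Ideal.mul_mem_right _ _ h
      · refine ⟨eF k hwk 0, ?_⟩
        rw [← map_pow, ← map_sub, ← e7, map_mul]
        exact Ideal.mul_mem_right _ _ h
    · refine ⟨eF k hwk 0, ?_⟩
      rw [← map_pow, ← map_sub, ← e7]
      exact h

end

end TH
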