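import Pool.Agent.MP_9ab903_nt.TH.P6

set_option autoImplicit false

open NumberField IsDedekindDomain
open CM27 CMT NAB CF TWR
open scoped Classical

namespace TH

/-! ## [TH-P7a] the cubic symbol in a cyclic cubic extension, local part (file TH/P7a.lean)

`eu e = io ∘ e : ℤ[ω] → 𝓞 F`. Compare `NAB/QR9`, `TWR/PF6`.
Degree one (`nv w = nv (und k w)`), `x ∈ k`: `v ∤ 3`: `x u³ = a`, the same `a`; `v ∣ 3`: the same `τ, t` (`tv` is the same sum; in the case `3 ∣ v` the
valuation `w(τ - t) < 1` iff `v(τ - t) < 1`). For `Cd` at `w` and ramified `w` (then `v ∤ 3` if `F / k` is unramified above `3`) use `hx : Cd` at `v`.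
Inert, `y ∈ F` with `Cd` at `w`: `sg` acts on the residue field as `x ↦ x ^ (q ^ i)`, `q = nv v`, `i = 1` or `2` (as `NAB.frob`: the automorphism induced by `sg` is
nontrivial of order `3` on the residue field, because `w` is inert), so `N(a) ≡ a ^ (1 + q + q²)`, `(q³ - 1)/3 = (1 + q + q²) (q - 1)/3`; above `3`:
`N(1 - λ³ τ) ≡ 1 - λ³ Tr τ mod λ⁴` and `∑_{i<3f} t^(3^i) = ∑_{i<f} (t + t^q + t^(q²))^(3^i)` modulo `w`. `Cd` of the norm: the valuation of the norm at `v` is
`w(y)³`, the norm of `1 - λ³ τ`. Ramified, `w² ∤ ..`: `σ y / y ≡ ζ` with `ζ` a cube root of unity (`σ` acts trivially on the residue field, `y = ϖ^n y₀`, `σ ϖ / ϖ` is a unit,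
its class `ζ` satisfies `ζ · σζ · σ²ζ = 1`, i.e. `ζ³ = 1`), so `N y ≡ y³` (`w(N y - y³) < w(y³)`) -- `T_ram` below. -/

section
variable {k F : Type} [Field k] [NumberField k] [Field F] [NumberField F] [Algebra k F]

/-- the embedding of `ℤ[ω]` into the larger ring of integers -/
noncomputable abbrev eu (k F : Type) [Field k] [NumberField k] [Field F] [NumberField F]
    [Algebra k F] (e : Eis →+* 𝓞 k) : Eis →+* 𝓞 F := (algebraMap (𝓞 k) (𝓞 F)).comp e

variable (S : Cyc k F) (e : Eis →+* 𝓞 k) (w : HeightOneSpectrum (𝓞 F))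

theorem three_und : (3 : 𝓞 k) ∈ (und k w).asIdeal ↔ (3 : 𝓞 F) ∈ w.asIdeal := by
  rw [mem_und, map_ofNat]

theorem p7a_three_sw : (3 : 𝓞 F) ∈ (S.sw w).asIdeal ↔ (3 : 𝓞 F) ∈ w.asIdeal := by
  rw [S.mem_sw, map_ofNat]

theorem p7a_alg_ne {x : k} (hx : x ≠ 0) : algebraMap k F x ≠ 0 :=
  (map_ne_zero_iff _ (algebraMap k F).injective).2 hx

theorem p7a_norm_ne {x : F} (hx : x ≠ 0) : Algebra.norm k x ≠ 0 := by
  have : FiniteDimensional k F := Module.Finite.of_restrictScalars_finite ℚ k F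
  rwa [Ne, Algebra.norm_eq_zero_iff]

theorem p7a_sF_ne {x : F} (hx : x ≠ 0) : sF S x ≠ 0 := fun h =>
  hx ((map_eq_zero_iff (sF S) (sF S).injective).1 h)

theorem p7a_io_coe (x : 𝓞 k) : ((algebraMap (𝓞 k) (𝓞 F) x : 𝓞 F) : F) = algebraMap k F (x : k) := rfl

/-- the valuation above is a power of the valuation below -/
theorem p7a_val_alg_pow : ∃ e : ℕ, e ≠ 0 ∧ ∀ x : k,
    w.valuation F (algebraMap k F x) = (und k w).valuation k x ^ e := by
  have : w.asIdeal.LiesOver (und k w).asIdeal := ⟨rfl⟩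
  have hval := fun x : k => HeightOneSpectrum.valuation_liesOver F (und k w) w x
  exact ⟨_, Ideal.IsDedekindDomain.ramificationIdx'_ne_zero_of_liesOver w.asIdeal (und k w).ne_bot,
    fun x => (hval x).symm⟩

theorem p7a_val_alg_le {x : k} :
    w.valuation F (algebraMap k F x) ≤ 1 ↔ (und k w).valuation k x ≤ 1 := by
  obtain ⟨e, he, h⟩ := p7a_val_alg_pow (k := k) w
  rw [h]
  exact pow_le_one_iff he

theorem p7a_val_alg_lt {x : k} :
    w.valuation F (algebraMap k F x) < 1 ↔ (und k w).valuation k x < 1 := by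
  obtain ⟨e, he, h⟩ := p7a_val_alg_pow (k := k) w
  rw [h]
  exact pow_lt_one_iff he

theorem p7a_nv_sw : nv (S.sw w) = nv w := by
  unfold nv
  apply Nat.card_congr
  exact (Ideal.quotientEquiv (S.sw w).asIdeal w.asIdeal S.sg (by
    change w.asIdeal = Ideal.map (S.sg : 𝓞 F →+* 𝓞 F) (Ideal.comap S.sg w.asIdeal)
    exact (Ideal.map_comap_of_surjective _ S.sg.surjective _).symm)).toEquiv

theorem I3.alg {τ : k} (h : I3 τ) : I3 (algebraMap k F τ) := fun w hw =>
  (p7a_val_alg_le w).2 (h (und k w) ((three_und w).2 hw))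

theorem I3.of_alg {τ : k} (h : I3 (algebraMap k F τ)) : I3 τ := by
  intro v hv
  obtain ⟨w, rfl⟩ := exists_above (F := F) v
  exact (p7a_val_alg_le w).1 (h w ((three_und w).1 hv))

theorem I3.conj {τ : F} (h : I3 τ) : I3 (sF S τ) := by
  intro w hw
  rw [val_sF]
  exact h _ ((p7a_three_sw S w).2 hw)

theorem AdG.alg {x : k} (h : AdG e x) : AdG (eu k F e) (algebraMap k F x) := by
  obtain ⟨u, τ, hu, h1, h2⟩ := h
  refine ⟨algebraMap k F u, algebraMap k F τ, p7a_alg_ne hu, ?_, h2.alg⟩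
  have h3 : ((eu k F e la : 𝓞 F) : F) = algebraMap k F ((e la : 𝓞 k) : k) := rfl
  rw [← map_pow, ← map_mul, h1, map_sub, map_mul, map_one, map_pow, h3]

include S in
theorem AdG.norm {x : F} (h : AdG (eu k F e) x) : AdG e (Algebra.norm k x) := by
  obtain ⟨u, τ, hu, h1, h2⟩ := h
  obtain ⟨t, ht⟩ : ∃ t : k, algebraMap k F t = τ + sF S τ + sF S (sF S τ) :=
    ⟨_, tr_sF S τ⟩
  obtain ⟨r, hr⟩ : ∃ r : k, algebraMap k F r =
      τ * sF S τ + τ * sF S (sF S τ) + sF S τ * sF S (sF S τ) := by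
    apply fixed_sF S
    rw [map_add, map_add, map_mul, map_mul, map_mul, sF_cub]
    ring
  have h3 : ((eu k F e la : 𝓞 F) : F) = algebraMap k F ((e la : 𝓞 k) : k) := rfl
  have hc1 := h2.conj S
  have hc2 := hc1.conj S
  refine ⟨Algebra.norm k u, t - ((e la : 𝓞 k) : k) ^ 3 * r
    + ((e la : 𝓞 k) : k) ^ 6 * Algebra.norm k τ, p7a_norm_ne hu, ?_, ?_⟩
  · apply (algebraMap k F).injective
    rw [← map_pow (Algebra.norm k), ← map_mul (Algebra.norm k), h1, norm_sF S, h3]
    rw [map_sub (sF S), map_one (sF S), map_mul (sF S), map_pow (sF S), sF_map, map_sub (sF S),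
      map_one (sF S), map_mul (sF S), map_pow (sF S), sF_map]
    rw [map_sub, map_mul, map_add, map_sub, map_mul, map_mul, map_one, map_pow, map_pow, ht, hr,
      norm_sF S]
    ring
  · have hI1 : I3 t := by
      apply I3.of_alg (F := F)
      rw [ht]
      exact (h2.add hc1).add hc2
    have hI2 : I3 r := by
      apply I3.of_alg (F := F)
      rw [hr]
      exact ((h2.mul hc1).add (h2.mul hc2)).add (hc1.mul hc2)
    have hI3 : I3 (Algebra.norm k τ) := by
      apply I3.of_alg (F := F)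
      rw [norm_sF S]
      exact (h2.mul hc1).mul hc2
    have hl : I3 ((e la : 𝓞 k) : k) := I3.int _
    have hl3 : I3 (((e la : 𝓞 k) : k) ^ 3) := by
      have := (hl.mul hl).mul hl
      have e1 : ((e la : 𝓞 k) : k) ^ 3 = ((e la : 𝓞 k) : k) * ((e la : 𝓞 k) : k) * ((e la : 𝓞 k) : k) := by
        ring
      rw [e1]
      exact this
    have hl6 : I3 (((e la : 𝓞 k) : k) ^ 6) := by
      have := hl3.mul hl3
      have e1 : ((e la : 𝓞 k) : k) ^ 6 = ((e la : 𝓞 k) : k) ^ 3 * ((e la : 𝓞 k) : k) ^ 3 := by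
        ring
      rw [e1]
      exact this
    have e2 : t - ((e la : 𝓞 k) : k) ^ 3 * r + ((e la : 𝓞 k) : k) ^ 6 * Algebra.norm k τ
        = t + -(((e la : 𝓞 k) : k) ^ 3 * r) + ((e la : 𝓞 k) : k) ^ 6 * Algebra.norm k τ := by
      ring
    rw [e2]
    exact (hI1.add (hl3.mul hI2).neg).add (hl6.mul hI3)

theorem UL.of_alg (h : UL (eu k F e)) : UL e := by
  intro v hv hmem
  obtain ⟨w, rfl⟩ := exists_above (F := F) v
  apply h w ((three_und w).1 hv)
  have h1 : algebraMap (𝓞 k) (𝓞 F) (e la) ∈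
      Ideal.map (algebraMap (𝓞 k) (𝓞 F)) ((und k w).asIdeal ^ 2) := Ideal.mem_map_of_mem _ hmem
  rw [Ideal.map_pow] at h1
  refine Ideal.pow_right_mono ?_ 2 h1
  rw [Ideal.map_le_iff_le_comap]
  exact le_rfl

theorem p7a_tv_sw (t : 𝓞 F) : tv w (S.sg t) = S.sg (tv (S.sw w) t) := by
  unfold tv
  rw [p7a_nv_sw S w, map_sum]
  apply Finset.sum_congr rfl
  intro i _
  rw [map_pow]

theorem p7a_IsCs_sF {x : F} {ζ : Eis} (h : IsCs (eu k F e) (S.sw w) x ζ) :
    IsCs (eu k F e) w (sF S x) ζ := by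
  obtain ⟨hζ, u, hu, h1⟩ := h
  refine ⟨hζ, sF S u, p7a_sF_ne S hu, ?_⟩
  rcases h1 with ⟨h3, a, ha, hxa, hmem⟩ | ⟨h3, τ, t, j, hxτ, hτt, htj, hj⟩
  · left
    refine ⟨fun h => h3 ((p7a_three_sw S w).2 h), S.sg a, ha, ?_, ?_⟩
    · rw [← map_pow, ← map_mul, hxa, sF_coe]
    · rw [S.mem_sw, map_sub, map_pow, p7a_nv_sw S w] at hmem
      have h4 : S.sg (eu k F e ζ) = eu k F e ζ := S.fix _
      rwa [h4] at hmem
  · right
    refine ⟨(p7a_three_sw S w).1 h3, sF S τ, S.sg t, j, ?_, ?_, ?_, hj⟩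
    · have h4 : sF S ((eu k F e la : 𝓞 F) : F) = ((eu k F e la : 𝓞 F) : F) := by
        rw [sF_coe]
        congr 1
        exact S.fix _
      rw [← map_pow, ← map_mul, hxτ, map_sub, map_mul, map_pow, map_one, h4]
    · rw [← sF_coe, ← map_sub, val_sF]
      exact hτt
    · rw [p7a_tv_sw]
      rw [S.mem_sw, map_sub, map_natCast] at htj
      exact htj

/-- the symbol of the conjugate -/
theorem cs_sF (x : F) : cs (eu k F e) w (sF S x) = cs (eu k F e) (S.sw w) x := by
  by_cases h : ∃ ζ, IsCs (eu k F e) (S.sw w) x ζ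
  · obtain ⟨ζ, hζ⟩ := h
    rw [cs_of _ _ hζ, cs_of _ _ (p7a_IsCs_sF S e w hζ)]
  · have h' : ¬ ∃ ζ, IsCs (eu k F e) w (sF S x) ζ := by
      rintro ⟨ζ, hζ⟩
      apply h
      refine ⟨ζ, ?_⟩
      rw [← S.sw_three w] at hζ
      have h1 := p7a_IsCs_sF S e (S.sw (S.sw w)) hζ
      have h2 := p7a_IsCs_sF S e (S.sw w) h1
      rwa [sF_cub] at h2
    unfold cs
    rw [dif_neg h, dif_neg h']

theorem T_sF (x y : F) : T (eu k F e) w (sF S x) (sF S y) = T (eu k F e) (S.sw w) x y := by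
  have hod : ∀ z : F, od w (sF S z) = od (S.sw w) z := by
    intro z
    rw [od, od, val_sF]
  unfold T
  rw [hod, hod, ← map_zpow₀, ← map_zpow₀, ← map_mul, cs_sF]

/-- places of degree one, elements of `k` -/
theorem cs_deg1 (h : nv w = nv (und k w)) {x : k} (hx : Cd e (und k w) x) :
    Cd (eu k F e) w (algebraMap k F x) ∧
      cs (eu k F e) w (algebraMap k F x) = cs e (und k w) x := by
  have hspec := cs_spec e (und k w) hx
  have hI : IsCs (eu k F e) w (algebraMap k F x) (cs e (und k w) x) := by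
    obtain ⟨hζ, u, hu, h1⟩ := hspec
    refine ⟨hζ, algebraMap k F u, p7a_alg_ne hu, ?_⟩
    rcases h1 with ⟨h3, a, ha, hxa, hmem⟩ | ⟨h3, τ, t, j, hxτ, hτt, htj, hj⟩
    · left
      refine ⟨fun h => h3 ((three_und w).2 h), algebraMap (𝓞 k) (𝓞 F) a, ha, ?_, ?_⟩
      · rw [← map_pow, ← map_mul, hxa]
        rfl
      · rw [mem_und, map_sub, map_pow, ← h] at hmem
        exact hmem
    · right
      refine ⟨(three_und w).1 h3, algebraMap k F τ, algebraMap (𝓞 k) (𝓞 F) t, j, ?_, ?_, ?_, hj⟩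
      · have h4 : ((eu k F e la : 𝓞 F) : F) = algebraMap k F ((e la : 𝓞 k) : k) := rfl
        rw [← map_pow, ← map_mul, hxτ, map_sub, map_mul, map_pow, map_one, h4]
      · rw [p7a_io_coe, ← map_sub]
        exact (p7a_val_alg_lt w).2 hτt
      · have h5 : tv w (algebraMap (𝓞 k) (𝓞 F) t) = algebraMap (𝓞 k) (𝓞 F) (tv (und k w) t) := by
          unfold tv
          rw [h, map_sum]
          apply Finset.sum_congr rfl
          intro i _
          rw [map_pow]
        rw [h5]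
        rw [mem_und, map_sub, map_natCast] at htj
        exact htj
  refine ⟨?_, cs_of _ _ hI⟩
  by_cases h3 : (3 : 𝓞 F) ∈ w.asIdeal
  · have h4 := La_of_IsCs (eu k F e) w h3 hI
    exact ⟨h4.1, Or.inr ⟨h3, h4.2⟩⟩
  · have h4 := t3_of_IsCs (eu k F e) w h3 hI
    exact ⟨h4.1, Or.inl ⟨h3, h4.2⟩⟩

/-- split places -/
theorem T_split (h : nv w = nv (und k w))
    (hv : ∀ x : k, w.valuation F (algebraMap k F x) = (und k w).valuation k x) {x z : k}
    (hx : x ≠ 0) (hz : z ≠ 0) (hc : (3 : 𝓞 F) ∉ w.asIdeal ∨ AdG e x) :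
    T (eu k F e) w (algebraMap k F x) (algebraMap k F z) = T e (und k w) x z := by
  have hod : ∀ y : k, od w (algebraMap k F y) = od (und k w) y := by
    intro y
    rw [od, od, hv]
  unfold T
  rw [hod, hod, ← map_zpow₀, ← map_zpow₀, ← map_mul]
  apply (cs_deg1 e w h _).2
  apply T_cd e (und k w) hx hz
  rcases hc with hc | hc
  · left
    intro h3
    exact hc ((three_und w).1 h3)
  · right
    exact hc

/-- the order of the norm at a split place -/
theorem od_norm_split (h : S.sw w ≠ w) {y : F} (hy : y ≠ 0) :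
    od (und k w) (Algebra.norm k y) = od w y + od (S.sw w) y + od (S.sw (S.sw w)) y := by
  have hv : ∀ x : k, w.valuation F (algebraMap k F x) = (und k w).valuation k x := by
    rcases kinds S w with h1 | h1 | h1
    · exact h1.2.2
    · exact absurd h1.1 h
    · exact absurd h1.1 h
  have hod : ∀ z : F, ∀ w' : HeightOneSpectrum (𝓞 F), od w' (sF S z) = od (S.sw w') z := by
    intro z w'
    rw [od, od, val_sF]
  have h1 : od (und k w) (Algebra.norm k y) = od w (algebraMap k F (Algebra.norm k y)) := by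
    rw [od, od, hv]
  have hy1 := p7a_sF_ne S hy
  have hy2 := p7a_sF_ne S hy1
  rw [h1, norm_sF S, od_mul w (mul_ne_zero hy hy1) hy2, od_mul w hy hy1, hod, hod, hod]

end

end TH
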