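import Pool.Agent.MP_9ab903_nt.TH.E1
import Pool.Agent.MP_9ab903_nt.TH.P7a

/-!
# [NG3-E2a], [NG3-E2] the tower (files TH/E2a.lean, E2.lean)

* `exists_step3`: as `exists_step` (TWR/T1.lean) with `exists_index_three` and `exists_Cyc` (TH/P6a). `TT F₀`: the same `M` (`Algebra F₀ M` through `F`).
* `step_nonsq`: let `v` be a place of `F₀` at which the order of `d` is not divisible by `3`. Choose a place `W` of `F` above `v` (`exists_above`). If the valuations agree
  (`∀ x, W.valuation F (algebraMap x) = v.valuation x`) then `kum_unr` gives `t3 v d`: contradiction; so `W` is ramified over `v` (`kinds` in TH/P6/P6a: valuation cubed), and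
  `v.asIdeal.map ≤ W.asIdeal ^ 2`, the ramification index of `W` over `v` is not `1`. Let `P` be a place of `M` above `W`, `v₀` the place of `KK` below. The ramification index of
  `P` over `v₀` is a multiple of that of `W` over `v` (`Ideal.ramificationIdx_tower`), so it is not `1`, and `UnrN` gives: no `x : 𝓞 KK` with `x² - dK ∈ v₀`. With `v₀ = (φ b)`, `b` prime:
  no `x : ℤ[ω]` with `b ∣ x² - dd`; `nonsq_up` (TH/B5, `TT.ar` for `F₀`) gives the claim for `v`. The second claim: modulo `π`, `λ` and `2` the number `ω - 4` is a square: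
  `ω - 4 = - λ π`, `ω - 4 ≡ (ω²)² mod 2`; `e (6 π) = e 6 e π`, `6 = 2 · 3`, `3 = - ω² λ²`.
-/

set_option autoImplicit false

open NumberField IsDedekindDomain
open CM27 CMT CF NAB TWR
open scoped Classical

namespace TH

theorem exists_step3 (F : IntermediateField ℚ ℂ) [NumberField F] (hw : w ∈ F) (hT : TT F hw)
    (hne : Module.finrank ℚ F ≠ 2) :
    ∃ (F₀ : IntermediateField ℚ ℂ) (_ : NumberField F₀) (hw₀ : w ∈ F₀) (_ : Algebra F₀ F),
      (∀ x : F₀, ((algebraMap F₀ F x : F) : ℂ) = (x : ℂ)) ∧ TT F₀ hw₀ ∧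
      Module.finrank ℚ F = 3 * Module.finrank ℚ F₀ ∧ IsGalois F₀ F ∧ Nonempty (Cyc F₀ F) := by
  letI := algK F hw
  have hST : IsScalarTower ℚ KK F := IsScalarTower.of_algebraMap_eq' (Subsingleton.elim _ _)
  have hKF : FiniteDimensional KK F := Module.Finite.of_restrictScalars_finite ℚ KK F
  obtain ⟨M, _, _, _, _, _, _, m, hm, hu⟩ := hT
  have hKKF : Module.finrank ℚ F = 2 * Module.finrank KK F := by
    rw [← d2_finrank_KK, Module.finrank_mul_finrank]
  obtain ⟨L, hL, hLG⟩ := exists_index_three KK F M m hm (by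
    intro h
    rw [h] at hKKF
    exact hne hKKF)
  -- the field `F₀`
  set L₀ : IntermediateField ℚ F := L.restrictScalars ℚ with hL₀
  set F₀ : IntermediateField ℚ ℂ := IntermediateField.lift L₀ with hF₀
  have hle : F₀ ≤ F := IntermediateField.lift_le L₀
  have hmem : ∀ x : F, (x : ℂ) ∈ F₀ ↔ x ∈ L := fun x => IntermediateField.mem_lift x
  have hw₀ : w ∈ F₀ := by
    have h1 : (⟨w, hw⟩ : F) ∈ L := by
      have h2 : (⟨w, hw⟩ : F) = algebraMap KK F ⟨w, d2_w_mem⟩ := rfl
      rw [h2]
      exact L.algebraMap_mem _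
    exact (hmem ⟨w, hw⟩).2 h1
  have hfin : FiniteDimensional ℚ F₀ :=
    Module.Finite.of_injective (IntermediateField.inclusion hle).toLinearMap
      (IntermediateField.inclusion_injective hle)
  have hnf : NumberField F₀ := ⟨⟩
  have hrank0 : Module.finrank ℚ F₀ = Module.finrank ℚ L := by
    have h1 : Module.finrank ℚ F₀ = Module.finrank ℚ L₀ :=
      (IntermediateField.liftAlgEquiv L₀).toLinearEquiv.finrank_eq.symm
    exact h1
  have hrank : Module.finrank ℚ F = 3 * Module.finrank ℚ F₀ := by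
    have h1 : Module.finrank ℚ L * Module.finrank L F = Module.finrank ℚ F :=
      Module.finrank_mul_finrank _ _ _
    rw [hrank0, ← h1, hL, mul_comm]
  letI algFF : Algebra F₀ F := (IntermediateField.inclusion hle).toRingHom.toAlgebra
  have hST2 : IsScalarTower ℚ F₀ F := IsScalarTower.of_algebraMap_eq' (Subsingleton.elim _ _)
  have hfin2 : FiniteDimensional F₀ F := Module.Finite.of_restrictScalars_finite ℚ F₀ F
  have hrank2 : Module.finrank F₀ F = 3 := by
    have h1 : Module.finrank ℚ F₀ * Module.finrank F₀ F = Module.finrank ℚ F :=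
      Module.finrank_mul_finrank _ _ _
    rw [hrank, mul_comm 3] at h1
    exact Nat.eq_of_mul_eq_mul_left Module.finrank_pos h1
  -- `F₀` is isomorphic to `L`
  have hgal : IsGalois F₀ F := by
    let e : L ≃+* F₀ := ((IntermediateField.liftAlgEquiv L₀ : L₀ ≃ₐ[ℚ] F₀) : L₀ ≃+* F₀)
    refine IsGalois.of_equiv_equiv (F := L) (E := F) (f := e) (g := RingEquiv.refl F) ?_
    ext x
    rfl
  letI algKF₀ := algK F₀ hw₀
  have hST3 : IsScalarTower KK F₀ F := IsScalarTower.of_algebraMap_eq fun x => rfl
  letI algF₀M : Algebra F₀ M := ((algebraMap F M).comp (algebraMap F₀ F)).toAlgebra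
  have hST4 : IsScalarTower F₀ F M := IsScalarTower.of_algebraMap_eq fun x => rfl
  have hST5 : IsScalarTower KK F₀ M := IsScalarTower.of_algebraMap_eq fun x => by
    rw [IsScalarTower.algebraMap_apply KK F M]
    rfl
  refine ⟨F₀, hnf, hw₀, algFF, fun x => rfl, ?_, hrank, hgal, exists_Cyc F₀ F hrank2⟩
  exact ⟨M, inferInstance, inferInstance, inferInstance, inferInstance, inferInstance,
    inferInstance, m, hm, hu⟩

section
variable {k F : IntermediateField ℚ ℂ} [NumberField k] [NumberField F] [Algebra k F]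
  (hal : ∀ x : k, ((algebraMap k F x : F) : ℂ) = (x : ℂ)) (hwk : w ∈ k) (hw : w ∈ F)

include hal in
theorem eu_eq : eu k F (eF k hwk) = eF F hw := by
  apply RingHom.ext
  intro a
  apply RingOfIntegers.ext
  apply Subtype.ext
  have h1 : (((eu k F (eF k hwk) a : 𝓞 F) : F) : ℂ) =
      ((algebraMap k F ((eF k hwk a : 𝓞 k) : k) : F) : ℂ) := rfl
  rw [h1, hal, eF_apply, eF_apply]

end

end TH
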