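import Pool.Agent.MP_9ab903_nt.TH.E0
import Pool.Agent.MP_9ab903_nt.TH.P16

/-!
# [NG3-E3] the ray class characters (file TH/E3.lean)

`chd F hw m d I = emb (chi3 (eF F hw) d I)` for `I` prime to `m`, `0` otherwise. `chd_RC`: `chi3_mul`, `chi3_pow_three`, `chi3_ray` (TH/P16). `I J` is prime to `m` iff `I` and `J` are.
`exists_mod`: `exists_mod3`, and `m` is prime to `6`: a place `v` with `6 ∈ v` and `m ∈ v` satisfies `e p7 ∈ v` (impossible: `7 = p7 · star p7 ∈ v`, `6 ∈ v`) or `¬ t3 v d`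
(excluded by `h6`).
-/

set_option autoImplicit false

open NumberField IsDedekindDomain
open CM27 CMT CF NAB TWR
open scoped Classical ComplexConjugate

namespace TH

theorem e3_cop {F : Type} [Field F] [NumberField F] (m g : 𝓞 F) (hg : m ∣ g - 1) :
    IsCoprime (Ideal.span {g}) (Ideal.span {m}) := by
  obtain ⟨k, hk⟩ := hg
  rw [Ideal.isCoprime_span_singleton_iff]
  exact ⟨1, -k, by linear_combination hk⟩

theorem e3_place {F : Type} [Field F] [NumberField F] {I : Ideal (𝓞 F)} (hI : I ≠ 0) {m : 𝓞 F}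
    (h : ¬ IsCoprime I (Ideal.span {m})) :
    ∃ v : HeightOneSpectrum (𝓞 F), I ≤ v.asIdeal ∧ m ∈ v.asIdeal := by
  rw [Ideal.isCoprime_iff_sup_eq] at h
  obtain ⟨P, hPm, hP⟩ := Ideal.exists_le_maximal _ h
  have h1 : I ≤ P := le_sup_left.trans hP
  refine ⟨⟨P, hPm.isPrime, fun hb => hI (le_bot_iff.mp (hb ▸ h1))⟩, h1, ?_⟩
  exact hP (Ideal.mem_sup_right (Ideal.mem_span_singleton_self m))

theorem e3_Ps_zero {F : Type} [Field F] [NumberField F] (e : Eis →+* 𝓞 F)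
    {v : HeightOneSpectrum (𝓞 F)} (hv : e p7 ∈ v.asIdeal) {I : Ideal (𝓞 F)}
    (hI : I ≤ v.asIdeal) : Ps e I = 0 := by
  obtain ⟨J, rfl⟩ := Ideal.dvd_iff_le.mpr hI
  have h0 : psv e v = 0 := by
    rw [psv, dif_neg]
    rintro ⟨x, b, f, h7, hb, hbv, _⟩
    obtain ⟨c, hc⟩ := h7
    apply v.isPrime.ne_top
    rw [Ideal.eq_top_iff_one]
    have h1 : (1 : 𝓞 F) = e b - e p7 * e c := by
      rw [← map_mul, ← hc, map_sub, map_one]
      ring
    rw [h1]
    exact Ideal.sub_mem _ hbv (Ideal.mul_mem_right _ _ hv)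
  rw [Ps, cm_mul, cm_prime, h0, zero_mul]

theorem e3_p7_star : p7 * star p7 = 7 := by decide

theorem e3_p7 (F : IntermediateField ℚ ℂ) [NumberField F] (hw : w ∈ F) :
    ¬ IsUnit (eF F hw p7) := by
  intro h
  obtain ⟨y, hy⟩ := h.exists_right_inv
  have h1 : emb p7 * (((y : 𝓞 F) : F) : ℂ) = 1 := by
    have h2 := congrArg (fun t : 𝓞 F => (((t : 𝓞 F) : F) : ℂ)) hy
    simpa [eF_apply] using h2
  set z : ℂ := (((y : 𝓞 F) : F) : ℂ) with hz
  have hzi : IsIntegral ℤ z := by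
    have h2 : IsIntegral ℤ ((y : 𝓞 F) : F) := RingOfIntegers.isIntegral_coe y
    exact h2.map (algebraMap F ℂ).toIntAlgHom
  have hzc : IsIntegral ℤ (conj z) := hzi.map (starRingEnd ℂ).toIntAlgHom
  have h3 : IsIntegral ℤ (z * conj z) := hzi.mul hzc
  have h4 : emb p7 * conj (emb p7) = 7 := by
    rw [← CM27.emb_star, ← map_mul, e3_p7_star]
    exact map_ofNat emb 7
  have h5 : z * conj z = (((1 / 7 : ℚ) : ℚ) : ℂ) := by
    have h6 : conj (emb p7) * conj z = 1 := by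
      rw [← map_mul, h1, map_one]
    have h7 : (7 : ℂ) * (z * conj z) = 1 := by
      rw [← h4]
      linear_combination (conj (emb p7) * conj z) * h1 + h6
    push_cast
    linear_combination h7 / 7
  rw [h5] at h3
  have h6 : IsIntegral ℤ (1 / 7 : ℚ) := by
    have h7 := (isIntegral_algebraMap_iff (R := ℤ) (A := ℚ) (B := ℂ)
      (algebraMap ℚ ℂ).injective (x := (1 / 7 : ℚ))).mp
    exact h7 h3
  obtain ⟨n, hn⟩ := IsIntegrallyClosed.isIntegral_iff.mp h6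
  have h7 : (7 : ℚ) * (n : ℚ) = 1 := by
    have h8 : (algebraMap ℤ ℚ) n = (n : ℚ) := rfl
    rw [← h8, hn]
    norm_num
  have h8 : (7 : ℤ) * n = 1 := by exact_mod_cast h7
  omega

/-- the ray class character of `d` modulo `m` -/
noncomputable def chd (F : IntermediateField ℚ ℂ) [NumberField F] (hw : w ∈ F) (m : 𝓞 F) (d : F)
    (I : Ideal (𝓞 F)) : ℂ :=
  if IsCoprime I (Ideal.span {m}) then emb (chi3 (eF F hw) d I) else 0

section
variable {F : IntermediateField ℚ ℂ} [NumberField F] {hw : w ∈ F}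

theorem chi1_RC (m : 𝓞 F) (hm : ¬ IsUnit m) : IsRC3 F m (chi1 F m) := by
  refine ⟨?_, ?_, ?_, ?_⟩
  · intro I J
    unfold chi1
    by_cases h1 : I ≠ 0 ∧ IsCoprime I (Ideal.span {m})
    · by_cases h2 : J ≠ 0 ∧ IsCoprime J (Ideal.span {m})
      · rw [if_pos h1, if_pos h2, if_pos ⟨mul_ne_zero h1.1 h2.1, h1.2.mul_left h2.2⟩, one_mul]
      · rw [if_neg h2, mul_zero, if_neg]
        rintro ⟨h3, h4⟩
        exact h2 ⟨right_ne_zero_of_mul h3, IsCoprime.of_mul_left_right h4⟩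
    · rw [if_neg h1, zero_mul, if_neg]
      rintro ⟨h3, h4⟩
      exact h1 ⟨left_ne_zero_of_mul h3, IsCoprime.of_mul_left_left h4⟩
  · intro I hI
    exact if_neg fun h => hI h.2
  · intro I hI hc
    rw [chi1, if_pos ⟨hI, hc⟩, one_pow]
  · intro g hg hg1
    refine if_pos ⟨?_, e3_cop m g hg1⟩
    intro h
    exact hg (Ideal.span_singleton_eq_bot.mp h)

theorem IsRC3.sq {m : 𝓞 F} {χ : Ideal (𝓞 F) → ℂ} (h : IsRC3 F m χ) :
    IsRC3 F m (fun I => χ I ^ 2) := by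
  refine ⟨?_, ?_, ?_, ?_⟩
  · intro I J
    show χ (I * J) ^ 2 = χ I ^ 2 * χ J ^ 2
    rw [h.mul, mul_pow]
  · intro I hI
    show χ I ^ 2 = 0
    rw [h.zero I hI]
    norm_num
  · intro I hI hc
    show (χ I ^ 2) ^ 3 = 1
    rw [← pow_mul, mul_comm, pow_mul, h.cub I hI hc, one_pow]
  · intro g hg hg1
    show χ (Ideal.span {g}) ^ 2 = 1
    rw [h.one g hg hg1, one_pow]

theorem IsRC3.norm_le {m : 𝓞 F} (hm : ¬ IsUnit m) {χ : Ideal (𝓞 F) → ℂ} (h : IsRC3 F m χ)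
    (I : Ideal (𝓞 F)) : ‖χ I‖ ≤ 1 := by
  by_cases hc : IsCoprime I (Ideal.span {m})
  · have hI : I ≠ 0 := by
      rintro rfl
      apply hm
      rw [Ideal.isCoprime_iff_sup_eq] at hc
      have h1 : (0 : Ideal (𝓞 F)) = ⊥ := rfl
      rw [h1, bot_sup_eq] at hc
      exact Ideal.span_singleton_eq_top.mp hc
    have h1 := h.cub I hI hc
    have h2 : ‖χ I‖ ^ 3 = 1 := by rw [← norm_pow, h1, norm_one]
    by_contra h3
    rw [not_le] at h3
    have h4 := one_lt_pow₀ h3 (three_ne_zero)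
    rw [h2] at h4
    exact lt_irrefl _ h4
  · rw [h.zero I hc, norm_zero]
    exact zero_le_one

theorem chd_RC (hP : PF (eF F hw)) {d : F} (hd : AdG (eF F hw) d) (hd0 : d ≠ 0) {m : 𝓞 F}
    (hmu : ¬ IsUnit m) (hm : ∀ v : HeightOneSpectrum (𝓞 F), ¬ t3 v d → m ∈ v.asIdeal) :
    IsRC3 F m (chd F hw m d) := by
  refine ⟨?_, ?_, ?_, ?_⟩
  · intro I J
    by_cases h1 : IsCoprime I (Ideal.span {m})
    · by_cases h2 : IsCoprime J (Ideal.span {m})
      · rw [chd, chd, chd, if_pos h1, if_pos h2, if_pos (h1.mul_left h2), chi3_mul, map_mul]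
      · rw [chd, chd, chd, if_neg h2, if_neg (fun h3 => h2 (IsCoprime.of_mul_left_right h3)),
          mul_zero]
    · rw [chd, chd, chd, if_neg h1, if_neg (fun h3 => h1 (IsCoprime.of_mul_left_left h3)),
        zero_mul]
  · intro I hI
    exact if_neg hI
  · intro I hI hc
    rw [chd, if_pos hc, ← map_pow, chi3_pow_three _ hd hm hI hc, map_one]
  · intro g hg hg1
    rw [chd, if_pos (e3_cop m g hg1), chi3_ray _ hP hd hg hm hg1, map_one]

/-- the modulus -/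
theorem exists_mod {d : F} (hd : AdG (eF F hw) d) (hd0 : d ≠ 0)
    (h6 : ∀ v : HeightOneSpectrum (𝓞 F), ¬ t3 v d → eF F hw (6 * p7) ∉ v.asIdeal) :
    ∃ m : 𝓞 F, m ≠ 0 ∧ ¬ IsUnit m ∧ eF F hw p7 ∣ m ∧ IsCoprime m 6 ∧
      ∀ v : HeightOneSpectrum (𝓞 F), m ∈ v.asIdeal ↔ (eF F hw p7 ∈ v.asIdeal ∨ ¬ t3 v d) := by
  obtain ⟨m, hm0, hm, hm7⟩ := exists_mod3 (eF F hw) hd
  refine ⟨m, hm0, ?_, hm7, ?_, hm⟩
  · intro h
    exact e3_p7 F hw (isUnit_of_dvd_unit hm7 h)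
  · refine isCoprime_of_cop _ _ ?_ (fun h => hm0 h.1)
    intro v hv h6v
    rcases (hm v).mp hv with h | h
    · apply v.isPrime.ne_top
      rw [Ideal.eq_top_iff_one]
      have h7 : (7 : 𝓞 F) ∈ v.asIdeal := by
        have h8 : eF F hw p7 * eF F hw (star p7) = 7 := by
          rw [← map_mul, e3_p7_star]
          exact map_ofNat _ 7
        rw [← h8]
        exact Ideal.mul_mem_right _ _ h
      have h9 : (1 : 𝓞 F) = 7 - 6 := by norm_num
      rw [h9]
      exact Ideal.sub_mem _ h7 h6v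
    · apply h6 v h
      rw [map_mul]
      have h8 : eF F hw 6 = 6 := map_ofNat _ 6
      rw [h8]
      exact Ideal.mul_mem_right _ _ h6v

/-- `χ Ps` is the product of the two completely multiplicative functions for ALL ideals -/
theorem chd_mul_Ps {d : F} (hd : AdG (eF F hw) d) (hd0 : d ≠ 0) {m : 𝓞 F}
    (hm : ∀ v : HeightOneSpectrum (𝓞 F), m ∈ v.asIdeal ↔ (eF F hw p7 ∈ v.asIdeal ∨ ¬ t3 v d))
    (I : Ideal (𝓞 F)) (hI : I ≠ 0) :
    chd F hw m d I * conj (emb (Ps (eF F hw) I)) =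
      emb (chi3 (eF F hw) d I) * conj (emb (Ps (eF F hw) I)) := by
  by_cases hc : IsCoprime I (Ideal.span {m})
  · rw [chd, if_pos hc]
  · rw [chd, if_neg hc, zero_mul]
    obtain ⟨v, hIv, hmv⟩ := e3_place hI hc
    rcases (hm v).mp hmv with h | h
    · rw [e3_Ps_zero (eF F hw) h hIv, map_zero, map_zero, mul_zero]
    · rw [chi3_zero (eF F hw) hd v h hIv, map_zero, zero_mul]

end

end TH
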