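import Pool.Agent.MP_9ab903_nt.TH.E3
import Pool.Agent.MP_9ab903_nt.TH.C1b
import Pool.Agent.MP_9ab903_nt.TH.C3a
import Pool.Agent.MP_9ab903_nt.NAB.BV3

/-!
# [NG3-E4] sums over ideals and Dirichlet series; removing Euler factors (file TH/E4.lean)

`LSeries_IL` (NAB/BV2): for `‖g I‖² ≤ N I`: `LSeries (IL F g) s = ∑' I, itm F g s I`; `Ps_norm_le` (TH/B0). The term `I = 0` of the sums in `IsLam`, `IsL3` is `0` (`Ps_bot`).
`IsLam.LS`, `IsL3.LS`: from `HasSum.tsum_eq`; `of_LS`: from `summable_itm` and `LSeries_IL`.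
`base_unit3`: let `h v = conj (emb (psv (eF F hw) v))`, `cm h I = conj (emb (Ps I))` (`cm_map`), `T` = the finite set of the places containing `m`. `summable_kill` (NAB/BV3):
`∑ cm (kill F T h) I (N I)^(-s) = ∏_{v ∈ T} (1 - h v (N v)^(-s)) ∑ cm h I (N I)^(-s)`, and `cm (kill F T h) I = chi1 F m I · conj (emb (Ps I))`. So
`Φ' s = ∏_{v ∈ T} (1 - h v (N v)^(-s)) Φ s`; at `s = 1`: for `v ∣ π`: `h v = 0`; otherwise `N v = emb (psv v) conj (emb (psv v))` (`ps_mul_conj`), so the factor is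
`(emb (psv v) - 1) / emb (psv v)`, and `psv v ≡ -1 mod λ`: `psv v` and `psv v - 1 ≡ -2` are prime to `λ`: units at `3` (`val_not_la`, TH/C3a).
-/

set_option autoImplicit false

open NumberField IsDedekindDomain ArithmeticFunction
open CM27 CMT CF NAB TWR
open scoped Classical ComplexConjugate

namespace TH

section
variable {F : IntermediateField ℚ ℂ} [NumberField F] {hw : w ∈ F}

theorem e4_itm (g : Ideal (𝓞 F) → ℂ) (g0 : g 0 = 0) (s : ℂ) :
    (fun I : Ideal (𝓞 F) => g I * (Ideal.absNorm I : ℂ) ^ (-s)) = itm F g s := by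
  funext I
  rw [itm]
  split_ifs with h
  · rw [h, g0, zero_mul]
  · rfl

theorem e4_norm (I : Ideal (𝓞 F)) (hI : I ≠ 0) :
    ‖conj (emb (Ps (eF F hw) I))‖ ^ 2 ≤ Ideal.absNorm I := by
  rw [RCLike.norm_conj]
  exact Ps_norm_le (eF F hw) I hI

theorem e4_zero : conj (emb (Ps (eF F hw) 0)) = 0 := by
  rw [Ps_bot, _root_.map_zero, _root_.map_zero]

theorem IsLam.LS {Φ : ℂ → ℂ} (h : IsLam F hw Φ) (s : ℂ) (hs : 3 / 2 < s.re) :
    Φ s = LSeries (fun n => IL F (fun I => conj (emb (Ps (eF F hw) I))) n) s := by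
  rw [LSeries_IL F _ e4_norm s hs, ← e4_itm _ e4_zero s]
  exact (h.sum s hs).tsum_eq.symm

theorem IsLam.of_LS {Φ : ℂ → ℂ} (hd : Differentiable ℂ Φ) (h : ∀ s : ℂ, 3 / 2 < s.re →
    Φ s = LSeries (fun n => IL F (fun I => conj (emb (Ps (eF F hw) I))) n) s) :
    IsLam F hw Φ := by
  refine ⟨hd, fun s hs => ?_⟩
  rw [h s hs, LSeries_IL F _ e4_norm s hs]
  have h1 := (summable_itm F _ (e4_norm (hw := hw)) s hs).hasSum
  rw [e4_itm _ e4_zero s]
  exact h1

theorem IsLam.unique {Φ Φ' : ℂ → ℂ} (h : IsLam F hw Φ) (h' : IsLam F hw Φ') : Φ = Φ' := by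
  have h1 : AnalyticOnNhd ℂ Φ Set.univ := fun z _ => h.diff.analyticAt z
  have h2 : AnalyticOnNhd ℂ Φ' Set.univ := fun z _ => h'.diff.analyticAt z
  refine AnalyticOnNhd.eq_of_eventuallyEq (z₀ := 2) h1 h2 ?_
  have h3 : {s : ℂ | 3 / 2 < s.re} ∈ nhds (2 : ℂ) := by
    refine (isOpen_lt continuous_const Complex.continuous_re).mem_nhds ?_
    show (3 / 2 : ℝ) < (2 : ℂ).re
    norm_num
  filter_upwards [h3] with s hs
  rw [h.LS s hs, h'.LS s hs]

theorem e4_norm_chi {m : 𝓞 F} (hmu : ¬ IsUnit m) {χ : Ideal (𝓞 F) → ℂ} (hχ : IsRC3 F m χ)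
    (I : Ideal (𝓞 F)) (hI : I ≠ 0) :
    ‖χ I * conj (emb (Ps (eF F hw) I))‖ ^ 2 ≤ Ideal.absNorm I := by
  rw [norm_mul, mul_pow]
  have h1 := hχ.norm_le hmu I
  have h2 := e4_norm (hw := hw) I hI
  have h3 : ‖χ I‖ ^ 2 ≤ 1 := pow_le_one₀ (norm_nonneg _) h1
  exact (mul_le_of_le_one_left (by positivity) h3).trans h2

theorem IsL3.LS {m : 𝓞 F} (hmu : ¬ IsUnit m) {χ : Ideal (𝓞 F) → ℂ} (hχ : IsRC3 F m χ)
    {Φ : ℂ → ℂ} (h : IsL3 F hw χ Φ) (s : ℂ) (hs : 3 / 2 < s.re) :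
    Φ s = LSeries (fun n => IL F (fun I => χ I * conj (emb (Ps (eF F hw) I))) n) s := by
  rw [LSeries_IL F _ (e4_norm_chi hmu hχ) s hs, ← e4_itm _ (by rw [e4_zero, mul_zero]) s]
  exact (h.sum s hs).tsum_eq.symm

/-- the principal character modulo `π` gives `Λ_F` -/
theorem isLam_of_chi1 {Φ : ℂ → ℂ} (h : IsL3 F hw (chi1 F (eF F hw p7)) Φ) : IsLam F hw Φ := by
  refine ⟨h.diff, fun s hs => ?_⟩
  refine (h.sum s hs).congr_fun fun I => ?_
  congr 1
  rw [chi1]
  split_ifs with h1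
  · rw [one_mul]
  · rw [zero_mul]
    by_cases hI : I = 0
    · rw [hI, e4_zero]
    · rw [Ps_eq_zero (eF F hw) I (fun h2 => h1 ⟨hI, h2⟩), _root_.map_zero, _root_.map_zero]

theorem e4_cm (I : Ideal (𝓞 F)) :
    cm (fun v => conj (emb (psv (eF F hw) v))) I = conj (emb (Ps (eF F hw) I)) := by
  have h := cm_map (F := F) (((starRingEnd ℂ).comp emb : Eis →+* ℂ).toMonoidWithZeroHom)
    (psv (eF F hw)) I
  exact h.symm

theorem e4_kill (m : 𝓞 F) (T : Finset (HeightOneSpectrum (𝓞 F)))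
    (hT : ∀ v : HeightOneSpectrum (𝓞 F), v ∈ T ↔ m ∈ v.asIdeal) (I : Ideal (𝓞 F)) :
    cm (kill F T (fun v => conj (emb (psv (eF F hw) v)))) I =
      chi1 F m I * conj (emb (Ps (eF F hw) I)) := by
  have h := cm_unique (fun I : Ideal (𝓞 F) => chi1 F m I * conj (emb (Ps (eF F hw) I)))
    (by rw [e4_zero, mul_zero]) (by
      have h1 : chi1 F m 1 = 1 := by
        rw [chi1, if_pos ⟨one_ne_zero, isCoprime_one_left⟩]
      rw [h1, Ps_one, map_one, map_one, mul_one]) (by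
      intro I J
      have h1 : chi1 F m (I * J) = chi1 F m I * chi1 F m J := by
        by_cases hI : I ≠ 0 ∧ IsCoprime I (Ideal.span {m})
        · by_cases hJ : J ≠ 0 ∧ IsCoprime J (Ideal.span {m})
          · rw [chi1, chi1, chi1, if_pos hI, if_pos hJ,
              if_pos ⟨mul_ne_zero hI.1 hJ.1, hI.2.mul_left hJ.2⟩, one_mul]
          · rw [chi1, chi1, chi1, if_neg hJ, mul_zero, if_neg]
            rintro ⟨h2, h3⟩
            exact hJ ⟨right_ne_zero_of_mul h2, h3.of_mul_left_right⟩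
        · rw [chi1, chi1, chi1, if_neg hI, zero_mul, if_neg]
          rintro ⟨h2, h3⟩
          exact hI ⟨left_ne_zero_of_mul h2, h3.of_mul_left_left⟩
      rw [h1, Ps_mul, map_mul, map_mul]
      ring)
  rw [congrFun h I]
  congr 1
  funext v
  rw [kill, Ps_prime, chi1]
  have h1 : IsCoprime v.asIdeal (Ideal.span {m}) ↔ m ∉ v.asIdeal := by
    rw [Ideal.isCoprime_iff_sup_eq]
    constructor
    · intro h2 h3
      have h4 : v.asIdeal ⊔ Ideal.span {m} = v.asIdeal := by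
        rw [sup_eq_left, Ideal.span_singleton_le_iff_mem]
        exact h3
      rw [h4] at h2
      exact v.isPrime.ne_top h2
    · intro h2
      have h3 : v.asIdeal < v.asIdeal ⊔ Ideal.span {m} := by
        refine lt_of_le_of_ne le_sup_left ?_
        intro h4
        apply h2
        rw [h4]
        exact Ideal.mem_sup_right (Ideal.mem_span_singleton_self m)
      exact v.isMaximal.1.2 _ h3
  by_cases h2 : m ∈ v.asIdeal
  · rw [if_pos ((hT v).2 h2), if_neg (fun h3 => (h1.1 h3.2) h2), zero_mul]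
  · rw [if_neg (fun h3 => h2 ((hT v).1 h3)), if_pos ⟨v.ne_bot, h1.2 h2⟩, one_mul]

theorem e4_factor (v : HeightOneSpectrum (𝓞 F))
    (hv : eF F hw p7 ∈ v.asIdeal ∨ la ∣ psv (eF F hw) v + 1) (A : ValuationSubring ℂ)
    (hA : A.valuation 3 < 1) :
    A.valuation (1 - conj (emb (psv (eF F hw) v)) * (Ideal.absNorm v.asIdeal : ℂ) ^ (-(1 : ℂ))) =
      1 := by
  by_cases h7 : eF F hw p7 ∈ v.asIdeal
  · rw [psv_p7 (eF F hw) v h7, _root_.map_zero, _root_.map_zero, zero_mul, sub_zero, map_one]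
  · have hla : la ∣ psv (eF F hw) v + 1 := hv.resolve_left h7
    have hc : IsCoprime v.asIdeal (Ideal.span {eF F hw p7}) := by
      rw [Ideal.isCoprime_iff_sup_eq]
      have h3 : v.asIdeal < v.asIdeal ⊔ Ideal.span {eF F hw p7} := by
        refine lt_of_le_of_ne le_sup_left ?_
        intro h4
        apply h7
        rw [h4]
        exact Ideal.mem_sup_right (Ideal.mem_span_singleton_self _)
      exact v.isMaximal.1.2 _ h3
    have hN := ps_mul_conj F hw v.asIdeal v.ne_bot hc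
    rw [Ps_prime] at hN
    set a : Eis := psv (eF F hw) v with ha
    have hN0 : (Ideal.absNorm v.asIdeal : ℂ) ≠ 0 := by
      exact_mod_cast absNorm_ne_zero F v.ne_bot
    have ha0 : emb a ≠ 0 := by
      intro h
      rw [h, zero_mul] at hN
      exact hN0 hN.symm
    have hca0 : conj (emb a) ≠ 0 := by
      intro h
      rw [h, mul_zero] at hN
      exact hN0 hN.symm
    have h1 : ¬ la ∣ (1 : Eis) := by
      rw [la_dvd_iff]
      simp
    have h2 : ¬ la ∣ (2 : Eis) := by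
      rw [la_dvd_iff]
      have h : (2 : Eis).norm = 4 := by decide
      rw [h]
      omega
    have ha1 : ¬ la ∣ a := by
      intro h
      apply h1
      have h3 := dvd_sub hla h
      have h4 : a + 1 - a = 1 := by ring
      rwa [h4] at h3
    have ha2 : ¬ la ∣ a - 1 := by
      intro h
      apply h2
      have h3 := dvd_sub hla h
      have h4 : a + 1 - (a - 1) = 2 := by ring
      rwa [h4] at h3
    have h5 : 1 - conj (emb a) * (Ideal.absNorm v.asIdeal : ℂ) ^ (-(1 : ℂ)) =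
        emb (a - 1) / emb a := by
      rw [Complex.cpow_neg_one, ← hN, map_sub, map_one]
      field_simp
    rw [h5, map_div₀, val_not_la A hA a ha1, val_not_la A hA (a - 1) ha2, div_one]

theorem base_unit3 {n : ℕ} (hU : UN F hw n) (m : 𝓞 F) (hm0 : m ≠ 0) (h7 : eF F hw p7 ∣ m)
    (hns : ∀ v : HeightOneSpectrum (𝓞 F), m ∈ v.asIdeal →
      eF F hw p7 ∈ v.asIdeal ∨ la ∣ psv (eF F hw) v + 1) :
    ∃ Φ' : ℂ → ℂ, IsL3 F hw (chi1 F m) Φ' ∧
      ∀ A : ValuationSubring ℂ, A.valuation 3 < 1 → A.valuation (Φ' 1 / Omp ^ n) = 1 := by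
  obtain ⟨Φ, hΦ, hval⟩ := hU
  have hfin : {v : HeightOneSpectrum (𝓞 F) | v.asIdeal ∣ Ideal.span {m}}.Finite :=
    Ideal.finite_factors (by
      rw [Ne, Ideal.zero_eq_bot, Ideal.span_singleton_eq_bot]
      exact hm0)
  set T : Finset (HeightOneSpectrum (𝓞 F)) := hfin.toFinset with hTdef
  have hT : ∀ v : HeightOneSpectrum (𝓞 F), v ∈ T ↔ m ∈ v.asIdeal := by
    intro v
    rw [hTdef, Set.Finite.mem_toFinset, Set.mem_ofPred_eq, Ideal.dvd_span_singleton]
  set h : HeightOneSpectrum (𝓞 F) → ℂ := fun v => conj (emb (psv (eF F hw) v)) with hh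
  have hN0 : ∀ v : HeightOneSpectrum (𝓞 F), (Ideal.absNorm v.asIdeal : ℂ) ≠ 0 := fun v => by
    exact_mod_cast absNorm_ne_zero F v.ne_bot
  refine ⟨fun s => (∏ v ∈ T, (1 - h v * (Ideal.absNorm v.asIdeal : ℂ) ^ (-s))) * Φ s, ⟨?_, ?_⟩, ?_⟩
  · refine Differentiable.mul ?_ hΦ.diff
    refine Differentiable.fun_finsetProd fun v _ => ?_
    refine (differentiable_const _).sub ((differentiable_const _).mul ?_)
    exact differentiable_neg.const_cpow (Or.inl (hN0 v))
  · intro s hs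
    have hcm : (cm h : Ideal (𝓞 F) → ℂ) = fun I => conj (emb (Ps (eF F hw) I)) :=
      funext fun I => e4_cm I
    have hsum : Summable (itm F (cm h) s) := by
      rw [hcm]
      exact summable_itm F _ e4_norm s hs
    have h1 := summable_kill F h s hsum T
    have h2 : ∑' I, itm F (cm h) s I = Φ s := by
      rw [hcm, ← e4_itm _ e4_zero s]
      exact (hΦ.sum s hs).tsum_eq
    rw [h2] at h1
    have h3 : (cm (kill F T h) : Ideal (𝓞 F) → ℂ) =
        fun I => chi1 F m I * conj (emb (Ps (eF F hw) I)) := funext fun I => e4_kill m T hT I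
    rw [h3, ← e4_itm _ (by rw [e4_zero, mul_zero]) s] at h1
    exact h1
  · intro A hA
    have h1 : A.valuation (∏ v ∈ T, (1 - h v * (Ideal.absNorm v.asIdeal : ℂ) ^ (-(1 : ℂ)))) = 1 := by
      rw [map_prod]
      refine Finset.prod_eq_one fun v hv => ?_
      exact e4_factor v (hns v ((hT v).1 hv)) A hA
    show A.valuation ((∏ v ∈ T, (1 - h v * (Ideal.absNorm v.asIdeal : ℂ) ^ (-(1 : ℂ)))) * Φ 1 /
      Omp ^ n) = 1
    rw [mul_div_assoc, map_mul, h1, hval A hA, one_mul]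

end

end TH
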