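import Pool.Agent.MP_9ab903_nt.TH.E5a
import Pool.Agent.MP_9ab903_nt.TH.E2
import Pool.Agent.MP_9ab903_nt.TH.C13
import Pool.Agent.MP_9ab903_nt.TH.C14
import Pool.Agent.MP_9ab903_nt.TH.C15

/-!
# [NG3-E5a], [NG3-E5] the induction step for the value (files TH/E5a.lean, E5.lean)

`F/k` cyclic cubic. `UL (eF F hw)`, `UL (eF k hwk)`, `deg` from `TT.ar` (TH/B4); `eu_eq`. `exists_kummer` (TH/P17a): `d : 𝓞 k`, `δ : 𝓞 F`, `δ³ = d`, `λ³ ∣ d - 1`: `AdG` with `u = 1`.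
`step_nonsq`, `psv_nonsq` (TH/B5): `la ∣ psv v + 1` for `¬ t3 v d`. `exists_mod` (E3): `m`. `base_unit3` (E4): the unit value for `chi1 k m`. `Unr3 k r` (`unr3_of`), `Smooth3 k`
(`smooth3_of_deg`, `3 ^ i` is odd). `value_unit3` (C13) for `χ' = chi1 k m` and `χ = chd k hwk m d` resp. `χ²` (`chd_RC`, `IsRC3.sq`), `N0 = 1`: entire `Φ₁`, `Φ₂` with unit
values. Let `Φ₀` be the function of `UN k`. `Φ = Φ₀ Φ₁ Φ₂`: `IL_step` (TH/B3) for the ring homomorphism `g = conj ∘ emb`: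
`IL F (conj Ps_F) = IL k (conj Ps) * IL k (conj χ_d conj Ps) * IL k (conj χ_d² conj Ps)`, and `conj (emb ζ) = emb ζ ^ 2` for `ζ³ = 1` or `ζ = 0`, so the last two are the series of
`χ²` and `χ⁴ = χ` (`chd_mul_Ps`); `LSeries` of a product (`ArithmeticFunction.LSeries_mul'`, summability: `LSeriesSummable_IL`); `IsLam.of_LS`. Value: `Omp^(3(r+1)) = Omp^(r+1) Omp^(r+1) Omp^(r+1)`.
-/

set_option autoImplicit false

open NumberField IsDedekindDomain ArithmeticFunction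
open CM27 CMT CF NAB TWR
open scoped Classical ComplexConjugate

namespace TH

section
variable {k F : IntermediateField ℚ ℂ} [NumberField k] [NumberField F] [Algebra k F]
  (hal : ∀ x : k, ((algebraMap k F x : F) : ℂ) = (x : ℂ)) (hwk : w ∈ k) (hw : w ∈ F)

include hal in
theorem UN_step (hTk : TT k hwk) (hT : TT F hw) (r : ℕ)
    (hrank : Module.finrank ℚ k = 2 * (r + 1)) (S : Cyc k F) (hP : PF (eF k hwk))
    (hU : UN k hwk (r + 1)) : UN F hw (3 * (r + 1)) := by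
  have hAk := TT.ar k hwk hTk
  have hAF := TT.ar F hw hT
  have heu : eu k F (eF k hwk) = eF F hw := eu_eq hal hwk hw
  have hULF : UL (eu k F (eF k hwk)) := by rw [heu]; exact hAF.ul
  obtain ⟨d, δ, hd0, hδ0, hd1, hδ1, hδ3, hsg⟩ := exists_kummer S (eF k hwk) hULF
  rw [heu] at hsg
  have hdk : (d : k) ≠ 0 := by
    rw [Ne, RingOfIntegers.coe_eq_zero_iff]
    exact hd0
  have h3 : (δ : F) ^ 3 = algebraMap k F (d : k) := by
    have h := congrArg (algebraMap (𝓞 F) F) hδ3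
    rw [map_pow, ← IsScalarTower.algebraMap_apply (𝓞 k) (𝓞 F) F d,
      IsScalarTower.algebraMap_apply (𝓞 k) k F d] at h
    exact h
  have hs : sF S (δ : F) = ((eF F hw om : 𝓞 F) : F) * (δ : F) := by
    rw [sF_coe, hsg]
    exact map_mul (algebraMap (𝓞 F) F) _ _
  have hA : AdG (eF k hwk) (d : k) := AdG_of_dvd (eF k hwk) hd1
  have hnon := step_nonsq hal hwk hw hTk hT S hdk h3 hs
  obtain ⟨m, hm0, hmu, h7, hm6, hm⟩ := exists_mod hA hdk (fun v hv => (hnon v hv).2)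
  obtain ⟨Φ', hΦ', hΦ'v⟩ := base_unit3 hU m hm0 h7 (fun v hv => by
    rcases (hm v).1 hv with h | h
    · exact Or.inl h
    · exact Or.inr (psv_nonsq (eF k hwk) v (hnon v h).2 (hnon v h).1))
  have hun : Unr3 k r := unr3_of k hwk hrank hAk.ul
  have hsm : Smooth3 k hwk := smooth3_of_deg k hwk (fun v b f hb hv hf => by
    obtain ⟨i, rfl⟩ := hAk.deg v b f hb hv hf
    exact Odd.pow (by decide))
  have hχd := chd_RC hP hA hdk hmu (fun v hv => (hm v).2 (Or.inr hv))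
  obtain ⟨Φ₁, N₁, δ₁, h₁, h₁v, -⟩ := value_unit3 k hwk hrank hun hsm m hm0 h7 hm6 (chi1 k m)
    (chi1_RC m hmu) Φ' hΦ' hΦ'v (chd k hwk m d) hχd 1 (by norm_num)
  obtain ⟨Φ₂, N₂, δ₂, h₂, h₂v, -⟩ := value_unit3 k hwk hrank hun hsm m hm0 h7 hm6 (chi1 k m)
    (chi1_RC m hmu) Φ' hΦ' hΦ'v (fun I => chd k hwk m d I ^ 2) hχd.sq 1 (by norm_num)
  obtain ⟨Φ₀, h₀, h₀v⟩ := hU
  refine ⟨fun s => Φ₀ s * Φ₁ s * Φ₂ s,
    lam_step hal hwk hw S hAF.ul hdk h3 hs hA hmu hm h₀ h₁ h₂, fun A hA3 => ?_⟩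
  have he : Φ₀ 1 * Φ₁ 1 * Φ₂ 1 / Omp ^ (3 * (r + 1)) =
      (Φ₀ 1 / Omp ^ (r + 1)) * (Φ₁ 1 / Omp ^ (r + 1)) * (Φ₂ 1 / Omp ^ (r + 1)) := by
    rw [div_mul_div_comm, div_mul_div_comm]
    congr 1
    ring
  rw [he, map_mul, map_mul, h₀v A hA3, h₁v A hA3, h₂v A hA3, one_mul, one_mul]

end

end TH
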