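import Pool.Agent.MP_9ab903_nt.TH.E2a
import Pool.Agent.MP_9ab903_nt.TH.E4
import Pool.Agent.MP_9ab903_nt.TH.B3

/-!
# [NG3-E5a], [NG3-E5] the induction step for the value (files TH/E5a.lean, E5.lean)

`F/k` cyclic cubic. `UL (eF F hw)`, `UL (eF k hwk)`, `deg` from `TT.ar` (TH/B4); `eu_eq`. `exists_kummer` (TH/P17a): `d : 𝓞 k`, `δ : 𝓞 F`, `δ³ = d`, `λ³ ∣ d - 1`: `AdG` with `u = 1`.
`step_nonsq`, `psv_nonsq` (TH/B5): `la ∣ psv v + 1` for `¬ t3 v d`. `exists_mod` (E3): `m`. `base_unit3` (E4): the unit value for `chi1 k m`. `Unr3 k r` (`unr3_of`), `Smooth3 k`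
(`smooth3_of_deg`, `3 ^ i` is odd). `value_unit3` (C13) for `χ' = chi1 k m` and `χ = chd k hwk m d` resp. `χ²` (`chd_RC`, `IsRC3.sq`), `N0 = 1`: entire `Φ₁`, `Φ₂` with unit
values. Let `Φ₀` be the function of `UN k`. `Φ = Φ₀ Φ₁ Φ₂`: `IL_step` (TH/B3) for the ring homomorphism `g = conj ∘ emb`:
`IL F (conj Ps_F) = IL k (conj Ps) * IL k (conj χ_d conj Ps) * IL k (conj χ_d² conj Ps)`, and `conj (emb ζ) = emb ζ ^ 2` for `ζ³ = 1` or `ζ = 0`, so the last two are the series of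
`χ²` and `χ⁴ = χ` (`chd_mul_Ps`); `LSeries` of a product (`ArithmeticFunction.LSeries_mul'`, summability: `LSeriesSummable_IL`); `IsLam.of_LS`. Value: `Omp^(3(r+1)) = Omp^(r+1) Omp^(r+1) Omp^(r+1)`.
-/

set_option autoImplicit false

open NumberField IsDedekindDomain ArithmeticFunction
open CM27 CMT CF NAB TWR
open scoped Classical ComplexConjugate

namespace TH

theorem e5a_IL_congr {F : Type} [Field F] [NumberField F] {f f' : Ideal (𝓞 F) → ℂ}
    (h : ∀ I, I ≠ 0 → f I = f' I) : IL F f = IL F f' := by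
  ext n
  rw [IL_apply, IL_apply]
  refine Finset.sum_congr rfl fun I hI => ?_
  rw [mem_idn] at hI
  apply h
  rintro rfl
  apply hI.1
  rw [← hI.2]
  exact Ideal.absNorm_bot

theorem e5a_chi_cases {F : Type} [Field F] [NumberField F] (e : Eis →+* 𝓞 F) {d : F}
    (hA : AdG e d) {m : 𝓞 F}
    (hm : ∀ v : HeightOneSpectrum (𝓞 F), m ∈ v.asIdeal ↔ (e p7 ∈ v.asIdeal ∨ ¬ t3 v d))
    {I : Ideal (𝓞 F)} (hI : I ≠ 0) (hc : IsCoprime I (Ideal.span {m})) :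
    emb (chi3 e d I) ^ 3 = 1 ∧ conj (emb (chi3 e d I)) = emb (chi3 e d I) ^ 2 := by
  have h1 := chi3_pow_three e hA (fun v hv => (hm v).mpr (Or.inr hv)) hI hc
  have h2 : emb (chi3 e d I) ^ 3 = 1 := by rw [← map_pow, h1, map_one]
  refine ⟨h2, ?_⟩
  have h3 : ‖emb (chi3 e d I)‖ = 1 := by
    have h4 : ‖emb (chi3 e d I)‖ ^ 3 = 1 := by rw [← norm_pow, h2, norm_one]
    exact (pow_eq_one_iff_of_nonneg (norm_nonneg _) (by norm_num)).mp h4
  have h4 : emb (chi3 e d I) * conj (emb (chi3 e d I)) = 1 := by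
    rw [Complex.mul_conj, Complex.normSq_eq_norm_sq, h3]
    norm_num
  have h5 : emb (chi3 e d I) ≠ 0 := by
    intro h6
    rw [h6, zero_mul] at h4
    exact zero_ne_one h4
  apply mul_left_cancel₀ h5
  rw [h4, ← h2]
  ring

theorem e5a_norm_le {F : IntermediateField ℚ ℂ} [NumberField F] {hw : w ∈ F} {d : F}
    (hA : AdG (eF F hw) d) {m : 𝓞 F}
    (hm : ∀ v : HeightOneSpectrum (𝓞 F), m ∈ v.asIdeal ↔ (eF F hw p7 ∈ v.asIdeal ∨ ¬ t3 v d))
    (I : Ideal (𝓞 F)) : ‖chd F hw m d I‖ ≤ 1 := by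
  by_cases hI : I = 0
  · subst hI
    rw [chd]
    split_ifs
    · rw [chi3, cm_zero, _root_.map_zero, norm_zero]
      exact zero_le_one
    · rw [norm_zero]
      exact zero_le_one
  · by_cases hc : IsCoprime I (Ideal.span {m})
    · rw [chd, if_pos hc]
      have h1 := (e5a_chi_cases (eF F hw) hA hm hI hc).1
      have h4 : ‖emb (chi3 (eF F hw) d I)‖ ^ 3 = 1 := by rw [← norm_pow, h1, norm_one]
      exact le_of_eq ((pow_eq_one_iff_of_nonneg (norm_nonneg _) (by norm_num)).mp h4)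
    · rw [chd, if_neg hc, norm_zero]
      exact zero_le_one

theorem e5a_bound {F : IntermediateField ℚ ℂ} [NumberField F] {hw : w ∈ F}
    {χ : Ideal (𝓞 F) → ℂ} (hχ : ∀ I, ‖χ I‖ ≤ 1) (I : Ideal (𝓞 F)) (hI : I ≠ 0) :
    ‖χ I * conj (emb (Ps (eF F hw) I))‖ ^ 2 ≤ Ideal.absNorm I := by
  have h1 := Ps_norm_le (eF F hw) I hI
  rw [norm_mul, Complex.norm_conj, mul_pow]
  have h2 : ‖χ I‖ ^ 2 ≤ 1 := pow_le_one₀ (norm_nonneg _) (hχ I)
  calc ‖χ I‖ ^ 2 * ‖emb (Ps (eF F hw) I)‖ ^ 2 ≤ 1 * ‖emb (Ps (eF F hw) I)‖ ^ 2 :=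
        mul_le_mul_of_nonneg_right h2 (sq_nonneg _)
    _ ≤ Ideal.absNorm I := by rw [one_mul]; exact h1

theorem e5a_LS {F : IntermediateField ℚ ℂ} [NumberField F] {hw : w ∈ F}
    {χ : Ideal (𝓞 F) → ℂ} (hχ : ∀ I, ‖χ I‖ ≤ 1) {Φ : ℂ → ℂ} (h : IsL3 F hw χ Φ) (s : ℂ)
    (hs : 3 / 2 < s.re) :
    Φ s = LSeries (fun n => IL F (fun I => χ I * conj (emb (Ps (eF F hw) I))) n) s := by
  rw [LSeries_IL F _ (e5a_bound hχ) s hs, ← (h.sum s hs).tsum_eq]
  refine tsum_congr fun I => ?_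
  rw [itm]
  split_ifs with hI
  · subst hI
    rw [Ps_bot, _root_.map_zero, _root_.map_zero, mul_zero, zero_mul]
  · rfl


section
variable {k F : IntermediateField ℚ ℂ} [NumberField k] [NumberField F] [Algebra k F]
  (hal : ∀ x : k, ((algebraMap k F x : F) : ℂ) = (x : ℂ)) (hwk : w ∈ k) (hw : w ∈ F)

include hal in
/-- the step identity for the functions -/
theorem lam_step (S : Cyc k F) (hU : UL (eF F hw)) {d : k} {δ : F} (hd : d ≠ 0)
    (h3 : δ ^ 3 = algebraMap k F d) (hs : sF S δ = ((eF F hw om : 𝓞 F) : F) * δ)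
    (hA : AdG (eF k hwk) d) {m : 𝓞 k} (hmu : ¬ IsUnit m)
    (hm : ∀ v : HeightOneSpectrum (𝓞 k), m ∈ v.asIdeal ↔ (eF k hwk p7 ∈ v.asIdeal ∨ ¬ t3 v d))
    {Φ₀ Φ₁ Φ₂ : ℂ → ℂ} (h₀ : IsLam k hwk Φ₀) (h₁ : IsL3 k hwk (chd k hwk m d) Φ₁)
    (h₂ : IsL3 k hwk (fun I => chd k hwk m d I ^ 2) Φ₂) :
    IsLam F hw (fun s => Φ₀ s * Φ₁ s * Φ₂ s) := by
  apply IsLam.of_LS ((h₀.diff.mul h₁.diff).mul h₂.diff)
  intro s hsr
  have hU' : UL (eu k F (eF k hwk)) := by rw [eu_eq hal hwk hw]; exact hU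
  have hs' : sF S δ = ((eu k F (eF k hwk) om : 𝓞 F) : F) * δ := by
    rw [eu_eq hal hwk hw]; exact hs
  have hst := IL_step (eF k hwk) S hd h3 hs' hA hU' ((starRingEnd ℂ).comp emb)
  rw [eu_eq hal hwk hw] at hst
  simp only [RingHom.coe_comp, Function.comp_apply] at hst
  have hn1 : ∀ I, ‖chd k hwk m d I‖ ≤ 1 := e5a_norm_le hA hm
  have hn2 : ∀ I, ‖chd k hwk m d I ^ 2‖ ≤ 1 := fun I => by
    rw [norm_pow]
    exact pow_le_one₀ (norm_nonneg _) (hn1 I)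
  -- the second factor
  have hf2 : IL k (fun I => conj (emb (chi3 (eF k hwk) d I * Ps (eF k hwk) I))) =
      IL k (fun I => chd k hwk m d I ^ 2 * conj (emb (Ps (eF k hwk) I))) := by
    apply e5a_IL_congr
    intro I hI
    rw [map_mul, map_mul]
    by_cases hc : IsCoprime I (Ideal.span {m})
    · rw [chd, if_pos hc, (e5a_chi_cases (eF k hwk) hA hm hI hc).2]
    · have h5 := chd_mul_Ps hA hd hm I hI
      rw [chd, if_neg hc, zero_mul] at h5
      rw [chd, if_neg hc]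
      rcases mul_eq_zero.mp h5.symm with h6 | h6
      · rw [h6, _root_.map_zero]; ring
      · rw [h6]; ring
  -- the third factor
  have hf3 : IL k (fun I => conj (emb (chi3 (eF k hwk) d I ^ 2 * Ps (eF k hwk) I))) =
      IL k (fun I => chd k hwk m d I * conj (emb (Ps (eF k hwk) I))) := by
    apply e5a_IL_congr
    intro I hI
    rw [map_mul, map_mul, map_pow, map_pow]
    by_cases hc : IsCoprime I (Ideal.span {m})
    · obtain ⟨h5, h6⟩ := e5a_chi_cases (eF k hwk) hA hm hI hc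
      rw [chd, if_pos hc, h6]
      linear_combination (emb (chi3 (eF k hwk) d I) * conj (emb (Ps (eF k hwk) I))) * h5
    · have h5 := chd_mul_Ps hA hd hm I hI
      rw [chd, if_neg hc, zero_mul] at h5
      rw [chd, if_neg hc]
      rcases mul_eq_zero.mp h5.symm with h6 | h6
      · rw [h6, _root_.map_zero]; ring
      · rw [h6]; ring
  rw [hf2, hf3] at hst
  have hb0 : ∀ I : Ideal (𝓞 k), I ≠ 0 → ‖conj (emb (Ps (eF k hwk) I))‖ ^ 2 ≤ Ideal.absNorm I := by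
    intro I hI
    rw [Complex.norm_conj]
    exact Ps_norm_le (eF k hwk) I hI
  have hs0 := LSeriesSummable_IL k (fun I => conj (emb (Ps (eF k hwk) I))) hb0 s hsr
  have hs2 := LSeriesSummable_IL k (fun I => chd k hwk m d I ^ 2 * conj (emb (Ps (eF k hwk) I)))
    (e5a_bound hn2) s hsr
  have hs1 := LSeriesSummable_IL k (fun I => chd k hwk m d I * conj (emb (Ps (eF k hwk) I)))
    (e5a_bound hn1) s hsr
  have hL := ArithmeticFunction.LSeries_mul' (ArithmeticFunction.LSeriesSummable_mul hs0 hs2) hs1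
  rw [ArithmeticFunction.LSeries_mul' hs0 hs2, ← h₀.LS s hsr, ← e5a_LS hn2 h₂ s hsr,
    ← e5a_LS hn1 h₁ s hsr] at hL
  rw [hst, hL]
  show Φ₀ s * Φ₁ s * Φ₂ s = Φ₀ s * Φ₂ s * Φ₁ s
  ring

end

end TH
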