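import Pool.Agent.MP_9ab903_nt.TH.P11a

/-! ## [TH-P11] the product formula in a cubic extension (file TH/P11.lean)

`X = 1 - λ³ τ ∉ k`, so `τ ∉ k`. `φ z = Tr (z / ((τ - σ τ)(τ - σ² τ))) ∈ k` satisfies `φ 1 = φ τ = 0`, `φ τ² = 1`, `φ τ³ = Tr τ`, and an element `z` with
`φ z = 0` is in `k + k τ`: `z ∈ k + k τ` iff `φ z = 0` (Lagrange interpolation; `1, τ, τ²` is a basis of `F / k`). For `z ≠ 0`: `φ(z τ) - φ(z) τ` times `z` is in `k + k τ`.
`v(φ z) ≤ max_{w ∣ v} w(z) / w((τ - σ τ)(τ - σ² τ))`.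
**Step 3**: `y ≡ 1 mod λ⁴` above `3`. Choose `K ≥ 4` with `w(λ)^K < w((τ - στ)(τ - σ²τ))` for all `w ∣ 3`, and (by `cube_approx` for `(1 + λ^K τ²) / y`) `c` with
`y' = y c³ ≡ 1 + λ^K τ² mod λ^(3K)`. Then `φ(y') = λ^K (1 + small)`, `φ(y' τ) = λ^K (Tr τ + small)`, `φ(y'⁻¹) = - λ^K (1 + small)`, `φ(y'⁻¹ τ) = - λ^K (Tr τ + small)` (small: `v < 1`), so
`z₁ = - φ(y' τ) / φ(y')`, `z₂ = - φ(y'⁻¹ τ) / φ(y'⁻¹)` are integral above `3`, `y' (z₁ + τ) ∈ k + k τ` and it is a multiple (by an element of `k`) of `z₂ + τ`: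
indeed `y' (z₁ + τ) = a + b τ`, and `φ(y'⁻¹ (a + b τ)) = 0` gives `a φ(y'⁻¹) + b φ(y'⁻¹ τ) = 0`. Hence `y' = κ (z₂ + τ) / (z₁ + τ)`, `κ ∈ k`: `Or_add`, `Or_alg`. -/

set_option autoImplicit false

open NumberField IsDedekindDomain
open CM27 CMT NAB CF TWR
open scoped Classical

namespace TH

section
variable {k F : Type} [Field k] [NumberField k] [Field F] [NumberField F] [Algebra k F]
  (S : Cyc k F) (e : Eis →+* 𝓞 k)

/-- the denominator -/
noncomputable def p11E (τ : F) : F := (τ - sF S τ) * (τ - sF S (sF S τ))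

theorem p11_E_ne {τ : F} (hτ : sF S τ ≠ τ) : p11E S τ ≠ 0 := by
  refine mul_ne_zero (fun h => hτ (sub_eq_zero.1 h).symm) (fun h => hτ ?_)
  have h1 := congrArg (sF S) (sub_eq_zero.1 h)
  rw [sF_cub] at h1
  exact h1

theorem p11_exists_K {E : F} (hE : E ≠ 0) : ∃ K : ℕ, 4 ≤ K ∧
    ∀ w : HeightOneSpectrum (𝓞 F), (3 : 𝓞 F) ∈ w.asIdeal →
      WithZero.exp (-(K : ℤ) + 1) ≤ w.valuation F E := by
  have hfin := (finite_three (F := F)).image (fun w => (-od w E).toNat)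
  obtain ⟨B, hB⟩ := hfin.bddAbove
  refine ⟨B + 4, by omega, ?_⟩
  intro w hw
  have h1 : (-od w E).toNat ≤ B := hB ⟨w, hw, rfl⟩
  rw [val_eq_exp w hE, WithZero.exp_le_exp]
  push_cast
  omega

include S in
theorem p11_ph_bound (hU : UL (eu k F e)) {τ : F} {K : ℕ}
    (hK : ∀ w : HeightOneSpectrum (𝓞 F), (3 : 𝓞 F) ∈ w.asIdeal →
      WithZero.exp (-(K : ℤ) + 1) ≤ w.valuation F (p11E S τ))
    (v : HeightOneSpectrum (𝓞 k)) (h3 : (3 : 𝓞 k) ∈ v.asIdeal) (n : ℤ) (z : F)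
    (hz : ∀ w : HeightOneSpectrum (𝓞 F), (3 : 𝓞 F) ∈ w.asIdeal →
      w.valuation F z ≤ WithZero.exp (-n)) :
    v.valuation k (ph S τ z) ≤ WithZero.exp (-n + K - 1) := by
  have hw3 : ∀ w : HeightOneSpectrum (𝓞 F), und k w = v → (3 : 𝓞 F) ∈ w.asIdeal := by
    intro w hw
    rw [← three_und (k := k), hw]
    exact h3
  unfold ph
  apply val_trace v
  · intro w hw x
    have h1 := not_ram_three S e hU w (hw3 w hw) x
    rw [hw] at h1
    exact h1
  · intro w hw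
    have h1 := hK w (hw3 w hw)
    have h2 := hz w (hw3 w hw)
    have h3 : 0 < w.valuation F (p11E S τ) := lt_of_lt_of_le WithZero.exp_pos h1
    change w.valuation F (z / p11E S τ) ≤ _
    rw [map_div₀, div_le_iff₀ h3]
    calc w.valuation F z ≤ WithZero.exp (-n) := h2
      _ = WithZero.exp (-n + K - 1) * WithZero.exp (-(K : ℤ) + 1) := by
          rw [← WithZero.exp_add]
          congr 1
          ring
      _ ≤ _ := mul_le_mul_right h1 _

theorem p11_exists_three : ∃ v : HeightOneSpectrum (𝓞 F), (3 : 𝓞 F) ∈ v.asIdeal := by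
  have h1 : ¬ IsUnit (3 : 𝓞 F) := by
    intro h
    have h2 := h.map (Algebra.norm ℤ : 𝓞 F →* ℤ)
    have h3 : Algebra.norm ℤ (3 : 𝓞 F) = 3 ^ Module.finrank ℤ (𝓞 F) := by
      have h4 := Algebra.norm_algebraMap (R := ℤ) (S := 𝓞 F) (3 : ℤ)
      rw [map_ofNat] at h4
      exact h4
    rw [h3, Int.isUnit_iff] at h2
    have h5 : Module.finrank ℤ (𝓞 F) ≠ 0 := by
      rw [RingOfIntegers.rank]
      exact Module.finrank_pos.ne'
    have h6 : (3 : ℤ) ∣ 3 ^ Module.finrank ℤ (𝓞 F) := dvd_pow_self _ h5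
    rcases h2 with h2 | h2
    · rw [h2] at h6
      norm_num at h6
    · rw [h2] at h6
      norm_num at h6
  have h2 : Ideal.span {(3 : 𝓞 F)} ≠ ⊤ := by
    rw [Ne, Ideal.span_singleton_eq_top]
    exact h1
  obtain ⟨M, hM, hle⟩ := Ideal.exists_le_maximal _ h2
  have h3 : (3 : 𝓞 F) ∈ M := hle (Ideal.mem_span_singleton_self _)
  refine ⟨⟨M, hM.isPrime, ?_⟩, h3⟩
  rintro rfl
  rw [Ideal.mem_bot] at h3
  exact (by norm_num : (3 : 𝓞 F) ≠ 0) h3

include S in
/-- **Step 3.** -/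
theorem step3 (hU : UL (eu k F e)) (hP : PF e) {τ : F} (hτ : I3 τ) (hτk : sF S τ ≠ τ) {y : F}
    (hy : ∀ w : HeightOneSpectrum (𝓞 F), (3 : 𝓞 F) ∈ w.asIdeal →
      w.valuation F (y - 1) ≤ w.valuation F (lF (eu k F e)) ^ 4) :
    Or (eu k F e) (1 - lF (eu k F e) ^ 3 * τ) y := by
  have hUk : UL e := UL.of_alg e hU
  obtain ⟨K, hK4, hK⟩ := p11_exists_K (p11_E_ne S hτk)
  set lk : k := lF e with hlk
  set l : F := lF (eu k F e) with hl
  have hlal : l = algebraMap k F lk := rfl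
  have hlne : l ≠ 0 := lF_ne _
  have hlkne : lk ≠ 0 := lF_ne _
  have hvl : ∀ w : HeightOneSpectrum (𝓞 F), (3 : 𝓞 F) ∈ w.asIdeal → ∀ n : ℕ,
      w.valuation F l ^ n = WithZero.exp (-(n : ℤ)) := by
    intro w hw n
    rw [hl, val_lF _ hU hw, ← WithZero.exp_nsmul]
    congr 1
    simp
  have hvlk : ∀ v : HeightOneSpectrum (𝓞 k), (3 : 𝓞 k) ∈ v.asIdeal → ∀ n : ℕ,
      v.valuation k (lk ^ n) = WithZero.exp (-(n : ℤ)) := by
    intro v hv n
    rw [map_pow, hlk, val_lF _ hUk hv, ← WithZero.exp_nsmul]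
    congr 1
    simp
  -- bounds at the places above `3`
  have hexp1 : ∀ n : ℕ, (WithZero.exp (-(n : ℤ)) : WithZero (Multiplicative ℤ)) ≤ 1 := by
    intro n
    rw [← WithZero.exp_zero, WithZero.exp_le_exp]
    omega
  have hτ2 : ∀ w : HeightOneSpectrum (𝓞 F), (3 : 𝓞 F) ∈ w.asIdeal →
      w.valuation F (l ^ K * τ ^ 2) ≤ WithZero.exp (-(K : ℤ)) := by
    intro w hw
    rw [map_mul, map_pow, hvl w hw, map_pow]
    calc _ ≤ WithZero.exp (-(K : ℤ)) * 1 := mul_le_mul_right (pow_le_one' (hτ w hw) 2) _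
      _ = _ := mul_one _
  have hlt1 : ∀ n : ℕ, 0 < n → (WithZero.exp (-(n : ℤ)) : WithZero (Multiplicative ℤ)) < 1 := by
    intro n hn
    rw [← WithZero.exp_zero, WithZero.exp_lt_exp]
    omega
  set A : F := 1 + l ^ K * τ ^ 2 with hA
  have hA1 : ∀ w : HeightOneSpectrum (𝓞 F), (3 : 𝓞 F) ∈ w.asIdeal → w.valuation F A = 1 := by
    intro w hw
    rw [hA]
    exact Valuation.map_one_add_of_lt _ ((hτ2 w hw).trans_lt (hlt1 K (by omega)))
  obtain ⟨w₀, hw₀⟩ := p11_exists_three (F := F)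
  have hAne : A ≠ 0 := by
    intro h
    have := hA1 w₀ hw₀
    rw [h, map_zero] at this
    exact zero_ne_one this
  -- the cube
  obtain ⟨c, hc, hcz⟩ := cube_approx (eu k F e) hU (y / A) (by
    intro w hw
    have h1 : y / A - 1 = (y - 1 - l ^ K * τ ^ 2) / A := by
      rw [hA]
      rw [hA] at hAne
      field_simp
      ring
    rw [h1, map_div₀, hA1 w hw, div_one]
    refine (Valuation.map_sub _ _ _).trans (max_le (hy w hw) ((hτ2 w hw).trans ?_))
    change _ ≤ w.valuation F l ^ 4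
    rw [hvl w hw, WithZero.exp_le_exp]
    omega) (3 * K)
  set Y : F := y * c ^ 3 with hY
  set δ : F := Y - A with hδ
  have hδv : ∀ w : HeightOneSpectrum (𝓞 F), (3 : 𝓞 F) ∈ w.asIdeal →
      w.valuation F δ ≤ WithZero.exp (-((3 * K : ℕ) : ℤ)) := by
    intro w hw
    have h1 : δ = (y / A * c ^ 3 - 1) * A := by
      rw [hδ, hY]
      field_simp
    rw [h1, map_mul, hA1 w hw, mul_one]
    have h2 := hcz w hw
    change _ ≤ w.valuation F l ^ (3 * K) at h2
    rw [hvl w hw] at h2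
    exact h2
  have hYv : ∀ w : HeightOneSpectrum (𝓞 F), (3 : 𝓞 F) ∈ w.asIdeal → w.valuation F Y = 1 := by
    intro w hw
    have h1 : Y = A + δ := by rw [hδ]; ring
    rw [h1, Valuation.map_add_eq_of_lt_left _ ?_, hA1 w hw]
    rw [hA1 w hw]
    exact (hδv w hw).trans_lt (hlt1 _ (by omega))
  have hYne : Y ≠ 0 := by
    intro h
    have := hYv w₀ hw₀
    rw [h, map_zero] at this
    exact zero_ne_one this
  have hyne : y ≠ 0 := by
    intro h
    apply hYne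
    rw [hY, h, zero_mul]
  set δ' : F := Y⁻¹ - 1 + l ^ K * τ ^ 2 with hδ'
  have hδ'v : ∀ w : HeightOneSpectrum (𝓞 F), (3 : 𝓞 F) ∈ w.asIdeal →
      w.valuation F δ' ≤ WithZero.exp (-((2 * K : ℕ) : ℤ)) := by
    intro w hw
    have h1 : δ' = Y⁻¹ * ((l ^ K * τ ^ 2) * (l ^ K * τ ^ 2) - δ * (1 - l ^ K * τ ^ 2)) := by
      have h2 : Y⁻¹ * Y = 1 := inv_mul_cancel₀ hYne
      rw [hδ', hδ, hA]
      linear_combination (1 - l ^ K * τ ^ 2) * h2
    rw [h1, map_mul, map_inv₀, hYv w hw, inv_one, one_mul]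
    refine (Valuation.map_sub _ _ _).trans (max_le ?_ ?_)
    · rw [map_mul]
      calc _ ≤ WithZero.exp (-(K : ℤ)) * WithZero.exp (-(K : ℤ)) :=
            mul_le_mul' (hτ2 w hw) (hτ2 w hw)
        _ = _ := by
            rw [← WithZero.exp_add]
            congr 1
            push_cast
            ring
    · rw [map_mul]
      have h3 : w.valuation F (1 - l ^ K * τ ^ 2) ≤ 1 := by
        refine (Valuation.map_sub _ _ _).trans (max_le (by rw [map_one]) ?_)
        exact (hτ2 w hw).trans (hexp1 K)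
      calc _ ≤ WithZero.exp (-((3 * K : ℕ) : ℤ)) * 1 := mul_le_mul' (hδv w hw) h3
        _ ≤ _ := by
            rw [mul_one, WithZero.exp_le_exp]
            push_cast
            omega
  have htr : ∀ v : HeightOneSpectrum (𝓞 k), (3 : 𝓞 k) ∈ v.asIdeal →
      v.valuation k (Algebra.trace k F τ) ≤ 1 := by
    intro v hv
    have hw3 : ∀ w : HeightOneSpectrum (𝓞 F), und k w = v → (3 : 𝓞 F) ∈ w.asIdeal := by
      intro w hw
      rw [← three_und (k := k), hw]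
      exact hv
    apply val_trace v
    · intro w hw x
      have h1 := not_ram_three S e hU w (hw3 w hw) x
      rw [hw] at h1
      exact h1
    · intro w hw
      exact hτ w (hw3 w hw)
  -- general evaluation: elements `± l ^ K τ ^ 2 + small`
  have hph : ∀ (ε : k) (δ₀ : F) (v : HeightOneSpectrum (𝓞 k)), (3 : 𝓞 k) ∈ v.asIdeal →
      v.valuation k ε = 1 →
      (∀ w : HeightOneSpectrum (𝓞 F), (3 : 𝓞 F) ∈ w.asIdeal →
        w.valuation F δ₀ ≤ WithZero.exp (-((2 * K : ℕ) : ℤ))) →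
      v.valuation k (ph S τ (1 + algebraMap k F (ε * lk ^ K) * τ ^ 2 + δ₀)) =
        WithZero.exp (-(K : ℤ)) ∧
      v.valuation k (ph S τ ((1 + algebraMap k F (ε * lk ^ K) * τ ^ 2 + δ₀) * τ)) ≤
        WithZero.exp (-(K : ℤ)) := by
    intro ε δ₀ v hv hε hδ₀
    have e1 : ph S τ (1 + algebraMap k F (ε * lk ^ K) * τ ^ 2 + δ₀) = ε * lk ^ K + ph S τ δ₀ := by
      rw [ph_add, ph_add, ph_smul, ph_one S hτk, ph_sq S hτk]
      ring
    have e2 : ph S τ ((1 + algebraMap k F (ε * lk ^ K) * τ ^ 2 + δ₀) * τ) =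
        ε * lk ^ K * Algebra.trace k F τ + ph S τ (δ₀ * τ) := by
      have h1 : (1 + algebraMap k F (ε * lk ^ K) * τ ^ 2 + δ₀) * τ =
          τ + algebraMap k F (ε * lk ^ K) * τ ^ 3 + δ₀ * τ := by ring
      rw [h1, ph_add, ph_add, ph_smul, ph_tau S hτk, ph_cube S hτk]
      ring
    have b0 : v.valuation k (ε * lk ^ K) = WithZero.exp (-(K : ℤ)) := by
      rw [map_mul, hε, one_mul, hvlk v hv]
    have b1 : v.valuation k (ph S τ δ₀) ≤ WithZero.exp (-(K : ℤ) - 1) := by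
      have h1 := p11_ph_bound S e hU hK v hv ((2 * K : ℕ) : ℤ) δ₀ hδ₀
      have h2 : -((2 * K : ℕ) : ℤ) + K - 1 = -(K : ℤ) - 1 := by
        push_cast
        ring
      rwa [h2] at h1
    have b2 : v.valuation k (ph S τ (δ₀ * τ)) ≤ WithZero.exp (-(K : ℤ) - 1) := by
      have h1 := p11_ph_bound S e hU hK v hv ((2 * K : ℕ) : ℤ) (δ₀ * τ) (by
        intro w hw
        rw [map_mul]
        calc _ ≤ WithZero.exp (-((2 * K : ℕ) : ℤ)) * 1 := mul_le_mul' (hδ₀ w hw) (hτ w hw)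
          _ = _ := mul_one _)
      have h2 : -((2 * K : ℕ) : ℤ) + K - 1 = -(K : ℤ) - 1 := by
        push_cast
        ring
      rwa [h2] at h1
    have hlt : (WithZero.exp (-(K : ℤ) - 1) : WithZero (Multiplicative ℤ)) < WithZero.exp (-(K : ℤ)) := by
      rw [WithZero.exp_lt_exp]
      omega
    constructor
    · rw [e1, Valuation.map_add_eq_of_lt_left _ (by rw [b0]; exact b1.trans_lt hlt), b0]
    · rw [e2]
      refine (Valuation.map_add _ _ _).trans (max_le ?_ (b2.trans hlt.le))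
      rw [map_mul, b0]
      calc _ ≤ WithZero.exp (-(K : ℤ)) * 1 := mul_le_mul_right (htr v hv) _
        _ = _ := mul_one _
  -- the two elements
  have hYe : Y = 1 + algebraMap k F (1 * lk ^ K) * τ ^ 2 + δ := by
    rw [one_mul, map_pow, ← hlal, hδ, hA]
    ring
  have hYe' : Y⁻¹ = 1 + algebraMap k F (-1 * lk ^ K) * τ ^ 2 + δ' := by
    rw [map_mul, map_neg, map_one, map_pow, ← hlal, hδ']
    ring
  have h1 : ∀ v : HeightOneSpectrum (𝓞 k), (3 : 𝓞 k) ∈ v.asIdeal →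
      v.valuation k (ph S τ Y) = WithZero.exp (-(K : ℤ)) ∧
      v.valuation k (ph S τ (Y * τ)) ≤ WithZero.exp (-(K : ℤ)) := by
    intro v hv
    have h := hph 1 δ v hv (map_one _) (fun w hw => (hδv w hw).trans (by
      rw [WithZero.exp_le_exp]
      push_cast
      omega))
    rw [← hYe] at h
    exact h
  have h2 : ∀ v : HeightOneSpectrum (𝓞 k), (3 : 𝓞 k) ∈ v.asIdeal →
      v.valuation k (ph S τ Y⁻¹) = WithZero.exp (-(K : ℤ)) ∧
      v.valuation k (ph S τ (Y⁻¹ * τ)) ≤ WithZero.exp (-(K : ℤ)) := by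
    intro v hv
    have h := hph (-1) δ' v hv (by rw [Valuation.map_neg, map_one]) hδ'v
    rw [← hYe'] at h
    exact h
  obtain ⟨v₀, hv₀⟩ := p11_exists_three (F := k)
  have hp1 : ph S τ Y ≠ 0 := by
    intro h
    have := (h1 v₀ hv₀).1
    rw [h, map_zero] at this
    exact WithZero.exp_ne_zero this.symm
  have hp2 : ph S τ Y⁻¹ ≠ 0 := by
    intro h
    have := (h2 v₀ hv₀).1
    rw [h, map_zero] at this
    exact WithZero.exp_ne_zero this.symm
  set z₁ : k := -(ph S τ (Y * τ) / ph S τ Y) with hz₁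
  set z₂ : k := -(ph S τ (Y⁻¹ * τ) / ph S τ Y⁻¹) with hz₂
  have hI1 : I3 z₁ := by
    intro v hv
    rw [hz₁, Valuation.map_neg, map_div₀, (h1 v hv).1]
    rw [div_le_iff₀ WithZero.exp_pos, one_mul]
    exact (h1 v hv).2
  have hI2 : I3 z₂ := by
    intro v hv
    rw [hz₂, Valuation.map_neg, map_div₀, (h2 v hv).1]
    rw [div_le_iff₀ WithZero.exp_pos, one_mul]
    exact (h2 v hv).2
  have hne : ∀ z : k, algebraMap k F z + τ ≠ 0 := by
    intro z h
    apply hτk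
    have h3 : τ = algebraMap k F (-z) := by
      rw [map_neg]
      linear_combination h
    rw [h3, sF_map]
  -- `Y (z₁ + τ) ∈ k + k τ`
  have hzero : ph S τ (Y * (algebraMap k F z₁ + τ)) = 0 := by
    have h3 : Y * (algebraMap k F z₁ + τ) = algebraMap k F z₁ * Y + Y * τ := by ring
    rw [h3, ph_add, ph_smul, hz₁]
    field_simp
    ring
  obtain ⟨a, b, hab⟩ := ph_zero S hτk hzero
  have hab2 : algebraMap k F z₁ + τ = algebraMap k F a * Y⁻¹ + algebraMap k F b * (Y⁻¹ * τ) := by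
    have h3 : algebraMap k F z₁ + τ = Y⁻¹ * (Y * (algebraMap k F z₁ + τ)) := by
      rw [← mul_assoc, inv_mul_cancel₀ hYne, one_mul]
    rw [h3, hab]
    ring
  have hzero2 : a * ph S τ Y⁻¹ + b * ph S τ (Y⁻¹ * τ) = 0 := by
    rw [← ph_smul, ← ph_smul, ← ph_add, ← hab2, ph_add, ph_tau S hτk]
    have h3 : algebraMap k F z₁ = algebraMap k F z₁ * 1 := (mul_one _).symm
    rw [h3, ph_smul, ph_one S hτk]
    ring
  have ha : a = b * z₂ := by
    have h3 : a = -(b * ph S τ (Y⁻¹ * τ)) / ph S τ Y⁻¹ := by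
      rw [eq_div_iff hp2]
      linear_combination hzero2
    rw [hz₂]
    rw [h3]
    ring
  have hfac : Y * (algebraMap k F z₁ + τ) = algebraMap k F b * (algebraMap k F z₂ + τ) := by
    rw [hab, ha, map_mul]
    ring
  have hb : b ≠ 0 := by
    intro h
    rw [h, map_zero, zero_mul] at hfac
    exact mul_ne_zero hYne (hne z₁) hfac
  have hX : AdG (eu k F e) (1 - l ^ 3 * τ) := AdG_one_sub (eu k F e) hτ
  have o1 := Or_add S e hU hP hτ hI1 (hne z₁)
  have o2 := Or_add S e hU hP hτ hI2 (hne z₂)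
  have o3 := Or_alg S e hU hP hX hb
  have o4 : Or (eu k F e) (1 - l ^ 3 * τ) (Y * (algebraMap k F z₁ + τ)) := by
    rw [hfac]
    exact Or.mul (eu k F e) hX o3 o2
  have o5 := Or.of_mul (eu k F e) hX o4 o1
  exact Or.of_mul (eu k F e) hX o5 (Or_cube (eu k F e) hX hc)

include S in
/-- **The product formula in a cyclic cubic extension.** -/
theorem PF_ext (hU : UL (eu k F e)) (hP : PF e) : PF (eu k F e) := by
  intro x y hx hy
  obtain ⟨u, τ, hu, h1, h2⟩ := hx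
  have hx0 : x ≠ 0 := by
    have h3 : AdG (eu k F e) x := ⟨u, τ, hu, h1, h2⟩
    exact h3.ne_zero
  rw [← HH_cube_left (eu k F e) hx0 hy hu, h1]
  have hX : AdG (eu k F e) (1 - lF (eu k F e) ^ 3 * τ) := AdG_one_sub (eu k F e) h2
  by_cases hτ : sF S τ = τ
  · obtain ⟨t, ht⟩ := fixed_sF S τ hτ
    have ht3 : I3 t := by
      apply I3.of_alg (F := F)
      rw [ht]
      exact h2
    have h3 := Or_of_alg S e hU hP (AdG_one_sub e ht3) hy
    have h4 : algebraMap k F (1 - lF e ^ 3 * t) = 1 - lF (eu k F e) ^ 3 * τ := by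
      rw [map_sub, map_one, map_mul, map_pow, ht]
      rfl
    rw [h4] at h3
    exact h3.2
  · obtain ⟨h, o1, hb⟩ := step1b S e hU hP h2 hy
    obtain ⟨h', o2, hb'⟩ := step2 S e hU hP h2 hb
    have o3 := step3 S e hU hP h2 hτ hb'
    have o4 := Or.of_mul (eu k F e) hX o3 o2
    exact (Or.of_mul (eu k F e) hX o4 o1).2

end

end TH
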