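import Pool.Agent.MP_9ab903_nt.TH.E5
import Pool.Agent.MP_9ab903_nt.TH.C16
import Pool.Agent.MP_9ab903_nt.TH.P11
import Pool.Agent.MP_9ab903_nt.TH.P15

/-!
# [NG3-E6] the induction (file TH/E6.lean)

Strong induction on `[F : ℚ]`. If `[F : ℚ] = 2`: `KK ≤ F` (`KK_le`) and equal degrees, so `F = KK` (`IntermediateField.eq_of_le_of_finrank_eq`): `PF_KK` (TH/P15; `eK = eF KK d2_w_mem`),
`UN_base` (C16). Otherwise `exists_step3` (E2), the induction hypothesis for `F₀`, `PF_ext` (TH/P11, `eu_eq`, `UL` from `TT.ar`), `UN_step` (E5).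
-/

set_option autoImplicit false

open NumberField IsDedekindDomain
open CM27 CMT CF NAB TWR
open scoped Classical ComplexConjugate

namespace TH

theorem e6_main (n : ℕ) : ∀ (F : IntermediateField ℚ ℂ) [NumberField F] (hw : w ∈ F),
    TT F hw → Module.finrank ℚ F = n →
    ∃ j : ℕ, Module.finrank ℚ F = 2 * 3 ^ j ∧ PF (eF F hw) ∧ UN F hw (3 ^ j) := by
  induction n using Nat.strong_induction_on with
  | _ n ih =>
    intro F _ hw hT hn
    by_cases h2 : Module.finrank ℚ F = 2
    · have hfin : FiniteDimensional ℚ F := inferInstance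
      have hF : KK = F := by
        apply IntermediateField.eq_of_le_of_finrank_eq (KK_le F hw)
        rw [d2_finrank_KK, h2]
      subst hF
      exact ⟨0, by rw [h2, pow_zero, mul_one], PF_KK, UN_base⟩
    · obtain ⟨k, hnk, hwk, halg, hal, hTk, hrank, hgal, ⟨S⟩⟩ := exists_step3 F hw hT h2
      have hpos : 0 < Module.finrank ℚ k := Module.finrank_pos
      obtain ⟨j, hj, hP, hU⟩ := ih (Module.finrank ℚ k) (by omega) k hwk hTk rfl
      have hpos3 : 0 < 3 ^ j := by positivity
      obtain ⟨r, hr⟩ : ∃ r : ℕ, 3 ^ j = r + 1 := ⟨3 ^ j - 1, by omega⟩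
      have heu := eu_eq hal hwk hw
      have hUL : UL (eu k F (eF k hwk)) := by
        rw [heu]
        exact (TT.ar F hw hT).ul
      refine ⟨j + 1, ?_, ?_, ?_⟩
      · rw [hrank, hj, pow_succ]
        ring
      · have h1 := PF_ext S (eF k hwk) hUL hP
        rwa [heu] at h1
      · have h1 := UN_step hal hwk hw hTk hT r (by rw [hj, hr]) S hP (by rwa [← hr])
        rw [← hr] at h1
        rw [pow_succ, mul_comm]
        exact h1

theorem main3 (F : IntermediateField ℚ ℂ) [NumberField F] (hw : w ∈ F) (hT : TT F hw) :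
    ∃ j : ℕ, Module.finrank ℚ F = 2 * 3 ^ j ∧ PF (eF F hw) ∧ UN F hw (3 ^ j) :=
  e6_main _ F hw hT rfl

end TH
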