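import Pool.Agent.MP_9ab903_nt.TH.C13
import Pool.Agent.MP_9ab903_nt.TH.C3
import Pool.Agent.MP_9ab903_nt.TH.E4
import Pool.Agent.MP_9ab903_nt.NG.H8

/-!
# [NG3-E7] rationality of the value (file TH/E7.lean)

As `NG/H8.lean` (`value_rat`), simpler. `value_exists3` (C13) for `m = eF p7`, `χ = chi1 F m` (`chi1_RC`): `Φ`, `N`, `δ`; `isLam_of_chi1`, `IsLam.unique`: `Φ` is the function of `UN`.
`t = Φ 1 / Omp^(r+1)`, `τ = t δ`. For `σ` with `σ w = w` take `u` from `gal_fix'` (C3) for `N` (`N > 0` because `3 ∤ N`): `u` is prime to `N`, `7 ∣ N`, so `(u)` is prime to `(π)` and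
`chi1 ((u)) = 1`: `σ τ = τ`. `c2_rat` (NAB/C2): `τ conj τ = q` rational, `q = ‖τ‖² > 0` (`Φ 1 ≠ 0` since the valuation of `t` is `1` for some `A` above `3`; such `A` exists: see
`NG/H8` / `NAB/C2` for the existence of a valuation ring of `ℂ` above `2`, the same for `3`, or `T3`, `CF3` files). `|discr F| = 3^(r+1) ‖δ‖⁴`, so `√|discr F| = √3^(r+1) ‖δ‖²`.
`padicValRat 3 q = 0`: `A.valuation τ = 1` (`UN`, `del_val3` C7), `A.valuation (conj τ) = 1` (apply the former to the pullback of `A` under conjugation, as `c2_conj_val`), so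
`A.valuation q = 1` for a valuation ring above `3`; a rational number with valuation `1` at such an `A` is a `3`-adic unit.
-/

set_option autoImplicit false

open NumberField IsDedekindDomain
open CM27 CMT CF NAB TWR
open scoped Classical ComplexConjugate

namespace TH

theorem exists_A3 : ∃ A : ValuationSubring ℂ, A.valuation 3 < 1 := by
  classical
  set R : Subring ℂ := (Int.castRingHom ℂ).range with hR
  let three : R := ⟨3, ⟨3, by simp⟩⟩
  have hI : (Ideal.span {three} : Ideal R) ≠ ⊤ := by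
    rw [Ne, Ideal.eq_top_iff_one, Ideal.mem_span_singleton']
    rintro ⟨⟨a, n, hn⟩, ha⟩
    have h1 := congrArg Subtype.val ha
    simp only [Subring.coe_mul, Subring.coe_one, three] at h1
    rw [← hn] at h1
    simp only [eq_intCast] at h1
    have h2 : n * 3 = 1 := by exact_mod_cast h1
    omega
  obtain ⟨B, -, hB⟩ := Ideal.image_subset_nonunits_valuationSubring _ hI
  refine ⟨B, ?_⟩
  have h2 : (3 : ℂ) ∈ B.nonunits := hB ⟨three, Ideal.mem_span_singleton_self three, rfl⟩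
  exact (ValuationSubring.mem_nonunits_iff B).1 h2

private theorem e7_val_int3 (A : ValuationSubring ℂ) (h3 : A.valuation 3 < 1) (n : ℤ) (hn : ¬ 3 ∣ n) :
    A.valuation (n : ℂ) = 1 := by
  refine le_antisymm (i1_val_int A n) ?_
  by_contra h
  push Not at h
  have hcop : IsCoprime n 3 := by
    have h1 : IsCoprime (3 : ℤ) n := (Int.isCoprime_iff_gcd_eq_one).2 (by
      have hp : Nat.Prime 3 := Nat.prime_three
      have h2 : ¬ 3 ∣ n.natAbs := fun hd => hn (by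
        have := Int.natCast_dvd_natCast.2 hd
        rw [Int.dvd_natAbs] at this
        exact_mod_cast this)
      have h3 := (Nat.Prime.coprime_iff_not_dvd hp).2 h2
      simpa [Int.gcd] using h3)
    exact h1.symm
  obtain ⟨a, b, hab⟩ := hcop
  have h4 : (1 : ℂ) = a * n + b * 3 := by
    have := congrArg (Int.cast : ℤ → ℂ) hab
    push_cast at this
    exact this.symm
  have h5 : A.valuation (1 : ℂ) < 1 := by
    rw [h4]
    refine Valuation.map_add_lt _ ?_ ?_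
    · rw [map_mul]
      calc A.valuation (a : ℂ) * A.valuation (n : ℂ) ≤ 1 * A.valuation (n : ℂ) :=
            mul_le_mul_left (i1_val_int A a) _
        _ < 1 := by rw [one_mul]; exact h
    · rw [map_mul]
      calc A.valuation (b : ℂ) * A.valuation 3 ≤ 1 * A.valuation 3 :=
            mul_le_mul_left (i1_val_int A b) _
        _ < 1 := by rw [one_mul]; exact h3
  rw [map_one] at h5
  exact lt_irrefl _ h5

private theorem e7_val_three (A : ValuationSubring ℂ) (hA : A.valuation 3 < 1) (n : ℤ)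
    (hn : (3 : ℤ) ∣ n) : A.valuation (n : ℂ) < 1 := by
  obtain ⟨k, rfl⟩ := hn
  push_cast
  rw [map_mul]
  calc A.valuation 3 * A.valuation (k : ℂ) ≤ A.valuation 3 * 1 :=
        mul_le_mul_right (i1_val_int A k) _
    _ < 1 := by rw [mul_one]; exact hA

theorem rat_unit3 (q : ℚ) (hq : q ≠ 0) (A : ValuationSubring ℂ) (hA : A.valuation 3 < 1)
    (h : A.valuation (q : ℂ) = 1) : padicValRat 3 q = 0 := by
  have hd : (q.den : ℂ) ≠ 0 := by exact_mod_cast q.den_nz
  have hq : (q : ℂ) * ((q.den : ℤ) : ℂ) = ((q.num : ℤ) : ℂ) := by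
    have : (q : ℚ) * q.den = q.num := Rat.mul_den_eq_num q
    exact_mod_cast congrArg (Rat.cast : ℚ → ℂ) this
  have hv := congrArg A.valuation hq
  rw [map_mul, h, one_mul] at hv
  have hco : Nat.Coprime q.num.natAbs q.den := q.reduced
  have h1 : ¬ (3 : ℤ) ∣ q.num := by
    intro h2
    have h3 := e7_val_three A hA q.num h2
    have h4 : ¬ (3 : ℤ) ∣ (q.den : ℤ) := by
      intro h5
      have h6 : 3 ∣ q.num.natAbs := Int.natAbs_dvd_natAbs.2 h2
      have h7 : 3 ∣ q.den := by exact_mod_cast h5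
      have := Nat.dvd_gcd h6 h7
      rw [hco] at this
      omega
    have h5 : A.valuation ((q.den : ℤ) : ℂ) = 1 := e7_val_int3 A hA _ h4
    rw [← hv, h5] at h3
    exact lt_irrefl _ h3
  have h2 : ¬ (3 : ℤ) ∣ (q.den : ℤ) := by
    intro h5
    have h3 := e7_val_three A hA (q.den : ℤ) h5
    have h6 : A.valuation ((q.num : ℤ) : ℂ) = 1 := e7_val_int3 A hA _ h1
    rw [hv, h6] at h3
    exact lt_irrefl _ h3
  rw [padicValRat]
  rw [padicValInt.eq_zero_of_not_dvd (by exact_mod_cast h1),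
    padicValNat.eq_zero_of_not_dvd (by exact_mod_cast h2)]
  simp

theorem conj_val3 (t : ℂ)
    (h : ∀ A : ValuationSubring ℂ, A.valuation 3 < 1 → A.valuation t = 1)
    (A : ValuationSubring ℂ) (hA : A.valuation 3 < 1) : A.valuation (conj t) = 1 := by
  set B : ValuationSubring ℂ := A.comap (starRingEnd ℂ) with hB
  have hval : ∀ z : ℂ, B.valuation z ≤ 1 ↔ A.valuation (conj z) ≤ 1 := by
    intro z
    rw [ValuationSubring.valuation_le_one_iff, ValuationSubring.valuation_le_one_iff, hB,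
      ValuationSubring.mem_comap]
  have hval2 : ∀ z : ℂ, z ≠ 0 → (1 ≤ B.valuation z ↔ 1 ≤ A.valuation (conj z)) := by
    intro z hz
    have h1 := hval z⁻¹
    rw [map_inv₀, map_inv₀, map_inv₀] at h1
    have e1 : (B.valuation z)⁻¹ ≤ 1 ↔ 1 ≤ B.valuation z :=
      inv_le_one₀ (zero_lt_iff.2 ((Valuation.ne_zero_iff _).2 hz))
    have e2 : (A.valuation (conj z))⁻¹ ≤ 1 ↔ 1 ≤ A.valuation (conj z) :=
      inv_le_one₀ (zero_lt_iff.2 ((Valuation.ne_zero_iff _).2 ((map_ne_zero _).2 hz)))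
    rw [← e1, ← e2]
    exact h1
  have hB2 : B.valuation 3 < 1 := by
    rw [lt_iff_not_ge, hval2 3 three_ne_zero, not_le]
    rwa [map_ofNat]
  have h1 := h B hB2
  have ht : t ≠ 0 := by
    rintro rfl
    rw [_root_.map_zero] at h1
    exact zero_ne_one h1
  apply le_antisymm
  · rw [← hval]; exact h1.le
  · rw [← hval2 t ht]; exact h1.ge

private theorem e7_not_unit (F : IntermediateField ℚ ℂ) [NumberField F] (hw : w ∈ F) :
    ¬ IsUnit (eF F hw p7) := by
  intro h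
  obtain ⟨u, hu⟩ := h.exists_right_inv
  have h1 : emb p7 * ((u : F) : ℂ) = 1 := congrArg (fun x : 𝓞 F => ((x : F) : ℂ)) hu
  have h2 : IsIntegral ℤ ((u : F) : ℂ) :=
    (RingOfIntegers.isIntegral_coe u).map (algebraMap F ℂ).toIntAlgHom
  have h3 : ((u : F) : ℂ) = (emb p7)⁻¹ := eq_inv_of_mul_eq_one_right h1
  have h4 : ((u : F) : ℂ) ∈ KK := by
    rw [h3]
    exact inv_mem (d2_emb_mem p7)
  have h5 : IsIntegral ℤ (⟨((u : F) : ℂ), h4⟩ : KK) := by
    rw [← isIntegral_algHom_iff (algebraMap KK ℂ).toIntAlgHom (algebraMap KK ℂ).injective]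
    exact h2
  obtain ⟨φ, hφ⟩ := exists_KK
  obtain ⟨a, ha⟩ := φ.surjective ⟨⟨((u : F) : ℂ), h4⟩, h5⟩
  have h6 : emb a = ((u : F) : ℂ) := by
    rw [← hφ, ha]
    rfl
  refine p7_prime.not_isUnit (IsUnit.of_mul_eq_one a (emb_injective ?_))
  rw [map_mul, h6, h1, map_one]

theorem value_rat3 (F : IntermediateField ℚ ℂ) [NumberField F] (hw : w ∈ F) (r : ℕ)
    (hrank : Module.finrank ℚ F = 2 * (r + 1)) (hun : Unr3 F r) (hsm : Smooth3 F hw)
    (hU : UN F hw (r + 1)) :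
    ∃ Φ : ℂ → ℂ, IsLam F hw Φ ∧ Φ 1 ≠ 0 ∧ ∃ q : ℚ, 0 < q ∧ padicValRat 3 q = 0 ∧
      ‖Φ 1‖ ^ 2 * √|(discr F : ℝ)| = q * (√3 ^ (r + 1) * ‖Omp‖ ^ (2 * (r + 1))) := by
  obtain ⟨Φu, hΦu, hUv⟩ := hU
  have hm0 : eF F hw p7 ≠ 0 := by
    intro h
    have h1 : emb p7 = 0 := congrArg (fun x : 𝓞 F => ((x : F) : ℂ)) h
    exact p7_prime.ne_zero (emb_injective (h1.trans (map_zero _).symm))
  have hmu : ¬ IsUnit (eF F hw p7) := e7_not_unit F hw
  have hm6 : IsCoprime (eF F hw p7) 6 := by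
    refine ⟨eF F hw (star p7), -1, ?_⟩
    rw [mul_comm, ← map_mul, p7_mul_star, map_ofNat]
    norm_num
  obtain ⟨Φ, N, δ, hΦ, hN3, hN7, -, hdis, hδ, ⟨s, hs, hsδ⟩, hσ⟩ :=
    value_exists3 F hw hrank hun hsm _ hm0 (dvd_refl _) hm6 _ (chi1_RC _ hmu)
  have hLam : IsLam F hw Φ := isLam_of_chi1 hΦ
  have hΦΦ : Φ = Φu := hLam.unique hΦu
  subst hΦΦ
  obtain ⟨t, ht⟩ : ∃ t, t = Φ 1 / Omp ^ (r + 1) := ⟨_, rfl⟩
  rw [← ht] at hσ
  obtain ⟨A, hA⟩ := exists_A3
  have hval : ∀ A : ValuationSubring ℂ, A.valuation 3 < 1 → A.valuation (t * δ) = 1 := by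
    intro A hA
    rw [map_mul, ht, hUv A hA, del_val3 F hw s hs hun δ hsδ A hA, one_mul]
  have ht0 : t ≠ 0 := by
    intro h0
    have h1 := hval A hA
    rw [h0, zero_mul, _root_.map_zero] at h1
    exact zero_ne_one h1
  have hOmp := Omp_ne
  have hΦ0 : Φ 1 ≠ 0 := by
    intro h0
    rw [h0, zero_div] at ht
    exact ht0 ht
  have hNpos : 0 < N := by
    rcases Nat.eq_zero_or_pos N with h | h
    · exact absurd (h ▸ dvd_zero 3) hN3
    · exact h
  have hp7N : p7 ∣ (N : Eis) := by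
    obtain ⟨k, rfl⟩ := hN7
    refine ⟨star p7 * k, ?_⟩
    rw [← mul_assoc, p7_mul_star]
    push_cast
    rfl
  have hfix : ∀ σ : ℂ ≃+* ℂ, σ w = w → σ (t * δ) = t * δ := by
    intro σ hσw
    obtain ⟨u, hu1, hu2⟩ := gal_fix' N hNpos σ hσw
    have e1 := hσ σ hσw u hu1 hu2
    have hc : IsCoprime (eF F hw u) (eF F hw p7) :=
      (hu1.of_isCoprime_of_dvd_right hp7N).map (eF F hw)
    have e2 : chi1 F (eF F hw p7) (Ideal.span {eF F hw u}) = 1 := by
      unfold chi1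
      rw [if_pos]
      refine ⟨?_, (Ideal.isCoprime_span_singleton_iff _ _).2 hc⟩
      rw [Ideal.zero_eq_bot, Ne, Ideal.span_singleton_eq_bot]
      intro h0
      rw [h0, isCoprime_zero_left] at hc
      exact hmu hc
    rw [e2, one_mul] at e1
    rw [map_mul, e1]
  obtain ⟨q, hq⟩ := c2_rat (t * δ) hfix
  have hq2 : (q : ℝ) = ‖t‖ ^ 2 * ‖δ‖ ^ 2 := by
    have h1 : ((q : ℝ) : ℂ) = ((‖t * δ‖ ^ 2 : ℝ) : ℂ) := by
      rw [← Complex.normSq_eq_norm_sq, ← Complex.mul_conj, ← hq]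
      norm_num
    have h2 : (q : ℝ) = ‖t * δ‖ ^ 2 := by exact_mod_cast h1
    rw [h2, norm_mul]
    ring
  have h3k : (3 : ℝ) ^ (r + 1) = (√3 ^ (r + 1)) ^ 2 := by
    rw [← pow_mul, mul_comm (r + 1) 2, pow_mul, Real.sq_sqrt (by norm_num)]
  have hδn : √|(discr F : ℝ)| = √3 ^ (r + 1) * ‖δ‖ ^ 2 := by
    rw [hdis, h3k]
    have : (√3 ^ (r + 1)) ^ 2 * ‖δ‖ ^ 4 = (√3 ^ (r + 1) * ‖δ‖ ^ 2) ^ 2 := by ring
    rw [this, Real.sqrt_sq (by positivity)]
  have hΦn : ‖Φ 1‖ ^ 2 = ‖t‖ ^ 2 * ‖Omp‖ ^ (2 * (r + 1)) := by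
    have h1 : Φ 1 = t * Omp ^ (r + 1) := by
      rw [ht, div_mul_cancel₀]
      exact pow_ne_zero _ hOmp
    rw [h1, norm_mul, norm_pow, mul_pow, ← pow_mul, mul_comm (r + 1) 2]
  have hqpos : 0 < q := by
    have h1 : (0 : ℝ) < q := by
      rw [hq2]
      have := norm_pos_iff.2 ht0
      have := norm_pos_iff.2 hδ
      positivity
    exact_mod_cast h1
  have hvq : A.valuation ((q : ℚ) : ℂ) = 1 := by
    rw [hq, map_mul, hval A hA, conj_val3 _ hval A hA, one_mul]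
  refine ⟨Φ, hLam, hΦ0, q, hqpos, rat_unit3 q hqpos.ne' A hA hvq, ?_⟩
  rw [hΦn, hδn, hq2]
  ring

end TH
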