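import Pool.Agent.MP_9ab903_nt.TH.E6
import Pool.Agent.MP_9ab903_nt.TH.E7
import Pool.Agent.MP_9ab903_nt.TH.B2
import Pool.Agent.MP_9ab903_nt.NAB.Fin

/-!
# [NG3-E8] the analytic half (file TH/E8.lean)

`n = 3^j = r + 1`. `main3` (E6), `value_rat3` (E7) with `Unr3`, `Smooth3` from `TT.ar` (`unr3_of`, `smooth3_of_deg`). `L s = Φ s · conj (Φ (conj s))`; `LCW_EpF` (TH/B2):
`LCW F (EpF F hw) = IL F (emb Ps) * IL F (conj emb Ps)`; as in `NAB.analytic_d` (NAB/Fin.lean): `(LFunction k : ℂ) = LCW F W k` (`rfl`), `LSeriesSummable_IL`,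
`ArithmeticFunction.LSeries_mul'`, `LSeries_conj`. `L 1 = ‖Φ 1‖²`.
-/

set_option autoImplicit false

open NumberField IsDedekindDomain
open CM27 CMT CF NAB TWR
open scoped Classical ComplexConjugate

namespace TH

theorem analytic3 (F : IntermediateField ℚ ℂ) [NumberField F] (hw : w ∈ F) (hT : TT F hw) :
    ∃ (n : ℕ) (L : ℂ → ℂ), Module.finrank ℚ F = 2 * n ∧ 0 < n ∧
      SBSD2.IsEntireLSeries (EpF F hw) L ∧ L 1 ≠ 0 ∧
      ∃ q : ℚ, 0 < q ∧ padicValRat 3 q = 0 ∧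
        L 1 * ((√|(discr F : ℝ)| : ℝ) : ℂ) = q * (((√3 * ‖Omp‖ ^ 2) ^ n : ℝ) : ℂ) := by
  obtain ⟨j, hj, -, hU⟩ := main3 F hw hT
  obtain ⟨r, hr⟩ := Nat.exists_eq_succ_of_ne_zero (n := 3 ^ j) (by positivity)
  rw [hr, Nat.succ_eq_add_one] at hj hU
  have hA := TT.ar F hw hT
  have hun : Unr3 F r := unr3_of F hw hj hA.ul
  have hsm : Smooth3 F hw := smooth3_of_deg F hw (fun v b f hb hv hf => by
    obtain ⟨i, rfl⟩ := hA.deg v b f hb hv hf
    exact Odd.pow (by decide))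
  obtain ⟨Φ, hL, hΦ1, q, hq, vq, eq⟩ := value_rat3 F hw r hj hun hsm hU
  obtain ⟨g, hg⟩ : ∃ g : Ideal (𝓞 F) → ℂ, g = fun I => emb (Ps (eF F hw) I) := ⟨_, rfl⟩
  have hlam : ∀ I : Ideal (𝓞 F), I ≠ 0 → ‖g I‖ ^ 2 ≤ Ideal.absNorm I := by
    intro I hI
    rw [hg]
    exact Ps_norm_le (eF F hw) I hI
  have hlam' : ∀ I : Ideal (𝓞 F), I ≠ 0 → ‖conj (g I)‖ ^ 2 ≤ Ideal.absNorm I := by
    intro I hI
    rw [Complex.norm_conj]
    exact hlam I hI
  have hs : ∀ s : ℂ, 3 / 2 < s.re →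
      Φ s = LSeries (fun n => IL F (fun I => conj (g I)) n) s := by
    intro s h5
    rw [hg]
    exact hL.LS s h5
  have cc : Differentiable ℂ (fun s => conj (Φ (conj s))) :=
    fun s => differentiableAt_conj_conj_iff.2 (hL.diff (conj s))
  have hLf : (fun k => ((EpF F hw).LFunction k : ℂ)) =
      fun k => (IL F g * IL F (fun I => conj (g I))) k := by
    have h6 := LCW_EpF F hw hT
    rw [hg, ← h6]
    rfl
  have hL1 : Φ 1 * conj (Φ (conj 1)) = ((‖Φ 1‖ ^ 2 : ℝ) : ℂ) := by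
    rw [map_one, Complex.mul_conj, Complex.normSq_eq_norm_sq]
  have hΦ2 : ‖Φ 1‖ ^ 2 ≠ 0 := pow_ne_zero _ (norm_ne_zero_iff.2 hΦ1)
  refine ⟨r + 1, fun s => Φ s * conj (Φ (conj s)), hj, Nat.succ_pos r,
    ⟨hL.diff.mul cc, ?_⟩, ?_, q, hq, vq, ?_⟩
  · intro s h5
    have t1 := LSeriesSummable_IL F _ hlam s h5
    have t2 := LSeriesSummable_IL F _ hlam' s h5
    have t3 : (EpF F hw).LSeries s = LSeries (fun k => ((EpF F hw).LFunction k : ℂ)) s := rfl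
    rw [t3, hLf]
    refine ⟨ArithmeticFunction.LSeriesSummable_mul t1 t2, ?_⟩
    change Φ s * conj (Φ (conj s)) = _
    rw [ArithmeticFunction.LSeries_mul' t1 t2, hs s h5, hs (conj s) (by
      rw [Complex.conj_re]; exact h5), NAB.LSeries_conj, NAB.LSeries_conj, Complex.conj_conj, Complex.conj_conj,
      mul_comm]
  · change Φ 1 * conj (Φ (conj 1)) ≠ 0
    rw [hL1]
    exact_mod_cast hΦ2
  · change Φ 1 * conj (Φ (conj 1)) * _ = _
    rw [hL1]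
    have h6 : ‖Φ 1‖ ^ 2 * √|(discr F : ℝ)| = q * (√3 * ‖Omp‖ ^ 2) ^ (r + 1) := by
      rw [eq, mul_pow, ← pow_mul]
    have h7 := congrArg (fun t : ℝ => (t : ℂ)) h6
    push_cast at h7 ⊢
    exact h7

end TH
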