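import Pool.Agent.MP_9ab903_nt.S3.S16
import Pool.Agent.MP_9ab903_nt.SB.CO

/-!
# [NG3-F0] The descent by the isogeny of degree 3 over a field containing `ω`: definitions

The curve `W k : y² = x³ + k` over a field `K`, the isogeny `iso : W k → W (-27 k)` of degree `3`
with kernel `x = 0` and the functions attached to it.  All of this is the material of
`MP_9ab903_nt/S3` and `MP_ae0bd0_nt/B3` with the integers `k, δ, e` replaced by elements of the
field: `k`, `k'`, ... are elements of fields `K`, `L`, ..., and a homomorphism `f : K →+* L` with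
`h : f k = k'` gives the map `ptW f h` from the points of `W k` to the points of `W k'`.
-/

set_option autoImplicit false

open NumberField IsDedekindDomain
open scoped Classical

namespace THF

/-- The Weierstrass curve `y² = x³ + k`. -/
def W {K : Type} [Field K] (k : K) : WeierstrassCurve K := ⟨0, 0, 0, 0, k⟩

/-- `K(√d)` -/
abbrev Q2 {K : Type} [Field K] (d : K) := QuadraticAlgebra K d 0

/-- The property that `d` is not a square. -/
abbrev NonSq {K : Type} [Field K] (d : K) : Prop := ∀ r : K, r ^ 2 ≠ d + 0 * r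

theorem nonSq_iff {K : Type} [Field K] (d : K) : NonSq d ↔ ∀ r : K, r ^ 2 ≠ d := by
  simp [NonSq]

theorem W_map {K L : Type} [Field K] [Field L] (f : K →+* L) {k : K} {k' : L} (h : f k = k') :
    (W k).map f = W k' := by
  simp [W, WeierstrassCurve.map, h]

/-- The map on points induced by a homomorphism of fields. -/
def ptW {K L : Type} [Field K] [Field L] (f : K →+* L) {k : K} {k' : L} (h : f k = k') :
    (W k).toAffine.Point → (W k').toAffine.Point
  | .zero => .zero
  | .some x y hxy => .some (f x) (f y) (by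
      have h1 := (WeierstrassCurve.Affine.map_nonsingular (W k).toAffine f.injective x y).2 hxy
      have h2 : ((W k).toAffine.map f) = (W k').toAffine := W_map f h
      rwa [h2] at h1)

theorem W_equation {K : Type} [Field K] {k : K} (x y : K) :
    (W k).toAffine.Equation x y ↔ y ^ 2 = x ^ 3 + k := by
  rw [WeierstrassCurve.Affine.equation_iff]
  simp [W]

theorem W_nonsingular {K : Type} [Field K] [CharZero K] {k : K} (hk : k ≠ 0) (x y : K) :
    (W k).toAffine.Nonsingular x y ↔ y ^ 2 = x ^ 3 + k := by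
  rw [← W_equation]
  refine ⟨fun h => h.1, fun h => ?_⟩
  rw [WeierstrassCurve.Affine.nonsingular_iff]
  refine ⟨h, ?_⟩
  rw [W_equation] at h
  simp only [W]
  by_contra hcon
  push Not at hcon
  obtain ⟨h1, h2⟩ := hcon
  have hx : x = 0 := by
    have : (3 : K) * x ^ 2 = 0 := by
      have := h1
      linear_combination -this
    rcases mul_eq_zero.1 this with h3 | h3
    · exact absurd h3 (by norm_num)
    · exact pow_eq_zero_iff (two_ne_zero) |>.1 h3
  have hy : y = 0 := by
    have : (2 : K) * y = 0 := by linear_combination h2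
    rcases mul_eq_zero.1 this with h3 | h3
    · exact absurd h3 (by norm_num)
    · exact h3
  rw [hx, hy] at h
  exact hk (by linear_combination -h)

/-- The map `K(√d) → L(√d')` induced by `f : K → L`, `f d = d'`. -/
def mapQ {K L : Type} [Field K] [Field L] (f : K →+* L) {d : K} {d' : L} (h : f d = d') :
    Q2 d →+* Q2 d' where
  toFun z := ⟨f z.re, f z.im⟩
  map_one' := by ext <;> simp [QuadraticAlgebra.re_one, QuadraticAlgebra.im_one]
  map_mul' a b := by ext <;> simp [h]
  map_zero' := by ext <;> simp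
  map_add' a b := by ext <;> simp

theorem mapQ_apply {K L : Type} [Field K] [Field L] (f : K →+* L) {d : K} {d' : L} (h : f d = d')
    (z : Q2 d) : mapQ f h z = ⟨f z.re, f z.im⟩ := rfl

theorem mapQ_mapQ {K L M : Type} [Field K] [Field L] [Field M] (f : K →+* L) (g : L →+* M)
    {d : K} {d' : L} {d'' : M} (h : f d = d') (h' : g d' = d'') (z : Q2 d) :
    mapQ g h' (mapQ f h z) = mapQ (g.comp f) (by rw [RingHom.comp_apply, h, h']) z := rfl

theorem mapQ_injective {K L : Type} [Field K] [Field L] (f : K →+* L) {d : K} {d' : L}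
    (h : f d = d') : Function.Injective (mapQ f h : Q2 d → Q2 d') := by
  intro a b hab
  rw [mapQ_apply, mapQ_apply] at hab
  have h1 := congrArg QuadraticAlgebra.re hab
  have h2 := congrArg QuadraticAlgebra.im hab
  exact QuadraticAlgebra.ext (f.injective h1) (f.injective h2)

theorem norm_mapQ {K L : Type} [Field K] [Field L] (f : K →+* L) {d : K} {d' : L} (h : f d = d')
    (z : Q2 d) : (mapQ f h z).norm = f z.norm := by
  rw [QuadraticAlgebra.norm_def, QuadraticAlgebra.norm_def, mapQ_apply]
  simp only [map_sub, map_add, map_mul, map_zero, h]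

theorem isUnit_iff_norm {K : Type} [Field K] {d : K} (z : Q2 d) : IsUnit z ↔ z.norm ≠ 0 := by
  rw [QuadraticAlgebra.isUnit_iff_norm_isUnit, isUnit_iff_ne_zero]

/-- The descent map `P = (x, y) ↦ y - c √D` on the curve `y² = x³ + D c²`. -/
def zq {K : Type} [Field K] (D c : K) {k : K} : (W k).toAffine.Point → Q2 D
  | .zero => 1
  | .some _ y _ => ⟨y, -c⟩

theorem zq_ptW {K L : Type} [Field K] [Field L] (f : K →+* L) {D c k : K} {D' c' k' : L}
    (hD : f D = D') (hc : f c = c') (hk : f k = k') (P : (W k).toAffine.Point) :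
    zq D' c' (ptW f hk P) = mapQ f hD (zq D c P) := by
  rcases P with _ | ⟨x, y, h⟩
  · exact (map_one _).symm
  · change (⟨f y, -c'⟩ : Q2 D') = ⟨f y, f (-c)⟩
    rw [map_neg, hc]

/-- a square root of `D` gives a ring homomorphism from `K(√D)` -/
def lift2 {K L : Type} [Field K] [Field L] (ψ : K →+* L) {D : K} {D' : L} (h : ψ D = D') (s : L)
    (hs : s * s = D') : Q2 D →+* L where
  toFun z := ψ z.re + ψ z.im * s
  map_one' := by
    change ψ (1 : Q2 D).re + ψ (1 : Q2 D).im * s = 1
    rw [QuadraticAlgebra.re_one, QuadraticAlgebra.im_one, map_one, map_zero, zero_mul, add_zero]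
  map_zero' := by
    change ψ (0 : Q2 D).re + ψ (0 : Q2 D).im * s = 0
    rw [QuadraticAlgebra.re_zero, QuadraticAlgebra.im_zero, map_zero, zero_mul, add_zero]
  map_add' := by
    intro z z'
    simp only [QuadraticAlgebra.re_add, QuadraticAlgebra.im_add, map_add]
    ring
  map_mul' := by
    intro z z'
    simp only [QuadraticAlgebra.re_mul, QuadraticAlgebra.im_mul, map_add, map_mul,
      zero_mul, add_zero, h]
    linear_combination (-(ψ z.im * ψ z'.im)) * hs

theorem lift2_apply {K L : Type} [Field K] [Field L] (ψ : K →+* L) {D : K} {D' : L} (h : ψ D = D')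
    (s : L) (hs : s * s = D') (z : Q2 D) : lift2 ψ h s hs z = ψ z.re + ψ z.im * s := rfl

/-- The data of a descent by the isogeny of degree `3`: `-3 k = δ e²`, `k ≠ 0`. -/
structure Dat {K : Type} [Field K] (k δ e : K) : Prop where
  eq : -3 * k = δ * e ^ 2
  ne : k ≠ 0

theorem Dat.map {K L : Type} [Field K] [Field L] {k δ e : K} (h : Dat k δ e) (f : K →+* L) :
    Dat (f k) (f δ) (f e) where
  eq := by rw [← map_pow, ← map_mul, ← h.eq, map_mul, map_neg, map_ofNat]
  ne := (map_ne_zero f).2 h.ne

theorem Dat.e_ne {K : Type} [Field K] [CharZero K] {k δ e : K} (h : Dat k δ e) : e ≠ 0 := by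
  rintro rfl
  have h1 := h.eq
  have h2 : (3 : K) * k = 0 := by linear_combination -h1
  exact h.ne ((mul_eq_zero.1 h2).resolve_left three_ne_zero)

theorem Dat.d_ne {K : Type} [Field K] [CharZero K] {k δ e : K} (h : Dat k δ e) : δ ≠ 0 := by
  rintro rfl
  have h1 := h.eq
  have h2 : (3 : K) * k = 0 := by linear_combination -h1
  exact h.ne ((mul_eq_zero.1 h2).resolve_left three_ne_zero)

theorem n27_ne {K : Type} [Field K] [CharZero K] {k : K} (hk : k ≠ 0) : -27 * k ≠ 0 :=
  mul_ne_zero (by norm_num) hk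

theorem iso_nonsing {K : Type} [Field K] [CharZero K] {k : K} (hk : k ≠ 0) {x y : K}
    (h : (W k).toAffine.Nonsingular x y) (hx : x ≠ 0) :
    (W (-27 * k)).toAffine.Nonsingular ((x ^ 3 + 4 * k) / x ^ 2) (y * (x ^ 3 - 8 * k) / x ^ 3) := by
  have h1 := (W_nonsingular hk x y).1 h
  rw [W_nonsingular (n27_ne hk)]
  field_simp
  linear_combination (x ^ 3 - 8 * k) ^ 2 * h1

/-- The isogeny `W k → W (-27 k)` of degree `3` with kernel `x = 0`. -/
noncomputable def iso {K : Type} [Field K] [CharZero K] {k : K} (hk : k ≠ 0) :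
    (W k).toAffine.Point → (W (-27 * k)).toAffine.Point
  | .zero => .zero
  | .some x y h => if hx : x = 0 then .zero else
      .some ((x ^ 3 + 4 * k) / x ^ 2) (y * (x ^ 3 - 8 * k) / x ^ 3) (iso_nonsing hk h hx)

/-- The kernel of `iso`. -/
def Ker {K : Type} [Field K] {k : K} : (W k).toAffine.Point → Prop
  | .zero => True
  | .some x _ _ => x = 0

theorem scal_nonsing {K : Type} [Field K] {k k' : K} (u : K) (hu : u ≠ 0)
    (h : k' = u ^ 6 * k) {x y : K} (hxy : (W k).toAffine.Nonsingular x y) :
    (W k').toAffine.Nonsingular (u ^ 2 * x) (u ^ 3 * y) := by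
  rw [WeierstrassCurve.Affine.nonsingular_iff] at hxy ⊢
  rw [W_equation] at hxy ⊢
  obtain ⟨h1, h2⟩ := hxy
  refine ⟨?_, ?_⟩
  · rw [h]
    linear_combination u ^ 6 * h1
  · simp only [W] at h2 ⊢
    rcases h2 with h2 | h2
    · left
      intro h3
      apply h2
      have h4 : u ^ 4 ≠ 0 := pow_ne_zero 4 hu
      apply mul_left_cancel₀ h4
      linear_combination h3
    · right
      intro h3
      apply h2
      have h4 : u ^ 3 ≠ 0 := pow_ne_zero 3 hu
      apply mul_left_cancel₀ h4
      linear_combination h3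

/-- The isomorphism `(x, y) ↦ (u² x, u³ y)`, `W k → W (u⁶ k)`. -/
def scal {K : Type} [Field K] {k k' : K} (u : K) (hu : u ≠ 0) (h : k' = u ^ 6 * k) :
    (W k).toAffine.Point → (W k').toAffine.Point
  | .zero => .zero
  | .some x y hxy => .some (u ^ 2 * x) (u ^ 3 * y) (scal_nonsing u hu h hxy)

/-- The function `ρ : W k (K) → K(√δ)` with `ρ(P)³ = zq δ (3 e) (iso P)`. -/
noncomputable def rho {K : Type} [Field K] (δ e : K) {k : K} : (W k).toAffine.Point → Q2 δ
  | .zero => 1
  | .some x y _ => if x = 0 then ⟨-1 / 2, -3 * y / (2 * δ * e)⟩ else ⟨y / x, -e / x⟩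

/-- The local condition at an extension `L` of `F`: the class of `z` is the class of a point of
`W (-27 k)` (the second alternative occurs only if `δ` is a square in `L`). -/
def LocCond {F : Type} [Field F] (k δ e : F) (z : Q2 δ) (L : Type) [Field L] [Algebra F L] : Prop :=
  (∃ (P : (W (-27 * algebraMap F L k)).toAffine.Point) (u : Q2 (algebraMap F L δ)), IsUnit u ∧
    mapQ (algebraMap F L) rfl z = zq (algebraMap F L δ) (3 * algebraMap F L e) P * u ^ 3) ∨
  ∃ (s g : L) (hs : s * s = algebraMap F L δ), g ≠ 0 ∧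
    lift2 (algebraMap F L) rfl s hs z = 6 * algebraMap F L e * s * g ^ 3

/-- `z` is, modulo cubes, of the form `a + b √δ` with `w a = 1`, `w b < 1`. -/
def InU {F : Type} [Field F] {δ : F} (w : Valuation F (WithZero (Multiplicative ℤ)))
    (z : Q2 δ) : Prop :=
  ∃ (u : Q2 δ) (a b : F), IsUnit u ∧ z * u ^ 3 = ⟨a, b⟩ ∧ w a = 1 ∧ w b < 1

instance charZeroQ2 {K : Type} [Field K] [CharZero K] {d : K} [Fact (NonSq d)] :
    CharZero (Q2 d) := charZero_of_injective_algebraMap (algebraMap K (Q2 d)).injective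

/-- `F(√δ)` is a number field. -/
instance numberFieldQ2 {F : Type} [Field F] [NumberField F] {δ : F} [Fact (NonSq δ)] :
    NumberField (Q2 δ) where
  to_charZero := charZeroQ2
  to_finiteDimensional := by
    have h1 : Module.Finite F (QuadraticAlgebra F δ 0) := inferInstance
    exact Module.Finite.trans F (Q2 δ)

theorem algebraMap_Q2 {F : Type} [Field F] {δ : F} (x : F) :
    algebraMap F (Q2 δ) x = ⟨x, 0⟩ := rfl

/-- The elements of `F(√δ)` which satisfy the conditions of a Selmer element outside the places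
with bad ramification. -/
structure Good3 {F : Type} [Field F] [NumberField F] {δ : F} [Fact (NonSq δ)] (z : Q2 δ) :
    Prop where
  ne : z ≠ 0
  norm : ∃ n : F, z.norm = n ^ 3
  val : ∀ P : HeightOneSpectrum (𝓞 (Q2 δ)),
    P.valuation (Q2 δ) (algebraMap F (Q2 δ) (6 * δ)) = 1 → ∃ g, P.valuation (Q2 δ) z = g ^ 3
  three : ∀ v : HeightOneSpectrum (𝓞 F), v.valuation F δ = WithZero.exp (-1) →
    v.valuation F 3 = WithZero.exp (-2) → InU (v.valuation F) z

theorem gal_comm {F L : Type} [Field F] [Field L] [Algebra F L] (σ : L ≃ₐ[F] L) (k : F) :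
    (σ : L →+* L) (algebraMap F L k) = algebraMap F L k := σ.commutes k

theorem alg_comm {F L M : Type} [Field F] [Field L] [Algebra F L] [Field M] [Algebra F M]
    (ι : L →ₐ[F] M) (k : F) : (ι : L →+* M) (algebraMap F L k) = algebraMap F M k := ι.commutes k

/-- locally constant crossed homomorphisms -/
structure Coc (F L : Type) [Field F] [Field L] [Algebra F L] (k : F)
    (c : (L ≃ₐ[F] L) → (W (algebraMap F L k)).toAffine.Point) : Prop where
  loc : IsLocallyConstant c
  crossed : ∀ σ τ : L ≃ₐ[F] L, c (σ * τ) = c σ + ptW (σ : L →+* L) (gal_comm σ k) (c τ)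

theorem tau_comm (F Fv Lv : Type) [Field F] [Field Fv] [Algebra F Fv] [Field Lv] [Algebra Fv Lv]
    [Algebra F Lv] [IsScalarTower F Fv Lv] (τ : Lv ≃ₐ[Fv] Lv) (k : F) :
    (τ : Lv →+* Lv) (algebraMap F Lv k) = algebraMap F Lv k := by
  rw [IsScalarTower.algebraMap_apply F Fv Lv]
  exact τ.commutes _

/-- The crossed homomorphism `c` becomes principal over the extension `Fv` of `F` (with algebraic
closure `Lv`), for every embedding. -/
def LocTriv {F L : Type} [Field F] [Field L] [Algebra F L] {k : F}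
    (c : (L ≃ₐ[F] L) → (W (algebraMap F L k)).toAffine.Point) (Fv Lv : Type) [Field Fv]
    [Algebra F Fv] [Field Lv] [Algebra Fv Lv] [Algebra F Lv] [IsScalarTower F Fv Lv] : Prop :=
  ∀ ι : L →ₐ[F] Lv, ∃ Q : (W (algebraMap F Lv k)).toAffine.Point,
    ∀ (τ : Lv ≃ₐ[Fv] Lv) (σ : L ≃ₐ[F] L), (∀ x, ι (σ x) = τ (ι x)) →
      ptW (ι : L →+* Lv) (alg_comm ι k) (c σ) =
        ptW (τ : Lv →+* Lv) (tau_comm F Fv Lv τ k) Q - Q

end THF
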