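import Pool.Agent.MP_9ab903_nt.TH.F9
import Pool.Agent.MP_9ab903_nt.TH.F6
import Pool.Agent.MP_9ab903_nt.TH.F4

/-!
# [NG3-F10] The local conditions
-/

set_option autoImplicit false

open NumberField IsDedekindDomain
open scoped Classical

namespace THF

theorem mapQ_congr {K L : Type} [Field K] [Field L] {f g : K →+* L} (h : f = g) {d : K} {d' : L}
    (hd : f d = d') (hd' : g d = d') (z : Q2 d) : mapQ f hd z = mapQ g hd' z := by
  subst h; rfl

theorem s10_norm {K : Type} [Field K] {δ : K} (a b : K) :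
    (⟨a, b⟩ : Q2 δ).norm = a ^ 2 - δ * b ^ 2 := by
  rw [QuadraticAlgebra.norm_def]
  ring

theorem s10_iso_ker {K : Type} [Field K] [CharZero K] {k : K} (hk : k ≠ 0)
    (B T : (W k).toAffine.Point) (hT : Ker T) : iso hk (B + T) = iso hk B := by
  rw [iso_add, (iso_eq_zero hk T).2 hT, add_zero]

theorem locCond_core {F L : Type} [Field F] [CharZero F] [Field L]
    [Algebra F L] [IsAlgClosure F L] {k δ e : F} (hd : Dat k δ e)
    (c : (L ≃ₐ[F] L) → (W (algebraMap F L k)).toAffine.Point)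
    (hK : ∀ σ, Ker (c σ)) (S : Q2 (algebraMap F L δ)) (hS : IsUnit S)
    (h : ∀ σ : L ≃ₐ[F] L, mapQ (σ : L →+* L) (gal_comm σ δ) S =
      rho (algebraMap F L δ) (algebraMap F L e) (c σ) * S)
    (z : Q2 δ) (hz : mapQ (algebraMap F L) rfl z = S ^ 3) (Fv Lv : Type) [Field Fv] [Algebra F Fv]
    [Field Lv] [Algebra Fv Lv] [IsAlgClosure Fv Lv]
    (ι : L →+* Lv) (hι : ∀ x : F, ι (algebraMap F L x) = algebraMap Fv Lv (algebraMap F Fv x))
    (Q : (W (algebraMap Fv Lv (algebraMap F Fv k))).toAffine.Point)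
    (hQ : ∀ (τ : Lv ≃ₐ[Fv] Lv), ∃ (σ : L ≃ₐ[F] L), (∀ x, ι (σ x) = τ (ι x)) ∧
      ptW ι (hι k) (c σ) = ptW (τ : Lv →+* Lv) (gal_comm τ _) Q - Q) : LocCond k δ e z Fv := by
  have : CharZero Fv := charZero_of_injective_algebraMap (algebraMap F Fv).injective
  have : CharZero Lv := charZero_of_injective_algebraMap (algebraMap Fv Lv).injective
  have : CharZero L := charZero_of_injective_algebraMap (algebraMap F L).injective
  have : IsGalois F L := inferInstance
  have : IsGalois Fv Lv := inferInstance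
  have hdL : Dat (algebraMap F L k) (algebraMap F L δ) (algebraMap F L e) := hd.map _
  have hdv : Dat (algebraMap F Fv k) (algebraMap F Fv δ) (algebraMap F Fv e) := hd.map _
  have hdw : Dat (algebraMap Fv Lv (algebraMap F Fv k)) (algebraMap Fv Lv (algebraMap F Fv δ))
    (algebraMap Fv Lv (algebraMap F Fv e)) := hdv.map _
  set SS : Q2 (algebraMap Fv Lv (algebraMap F Fv δ)) := mapQ ι (hι δ) S with hSS
  have hSSu : IsUnit SS := hS.map (mapQ ι (hι δ))
  set β : Q2 (algebraMap Fv Lv (algebraMap F Fv δ)) :=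
    rho (algebraMap Fv Lv (algebraMap F Fv δ)) (algebraMap Fv Lv (algebraMap F Fv e)) Q with hβ
  -- the basic facts
  have hT : ∀ τ : Lv ≃ₐ[Fv] Lv, ∃ T : (W (algebraMap Fv Lv (algebraMap F Fv k))).toAffine.Point,
      Ker T ∧ ptW (τ : Lv →+* Lv) (gal_comm τ _) Q = Q + T ∧
      mapQ (τ : Lv →+* Lv) (gal_comm τ _) SS =
        rho (algebraMap Fv Lv (algebraMap F Fv δ)) (algebraMap Fv Lv (algebraMap F Fv e)) T * SS ∧
      mapQ (τ : Lv →+* Lv) (gal_comm τ _) β =
        β * rho (algebraMap Fv Lv (algebraMap F Fv δ)) (algebraMap Fv Lv (algebraMap F Fv e)) T := by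
    intro τ
    obtain ⟨σ, hσ, hτQ0⟩ := hQ τ
    have hK' : Ker (ptW ι (hι k) (c σ)) := (ker_ptW _ _ _).2 (hK σ)
    have hτQ : ptW (τ : Lv →+* Lv) (gal_comm τ _) Q = Q + ptW ι (hι k) (c σ) := by
      rw [hτQ0]; abel
    refine ⟨ptW ι (hι k) (c σ), hK', hτQ, ?_, ?_⟩
    · have hcomp : (τ : Lv →+* Lv).comp ι =
          ι.comp ((σ : L ≃ₐ[F] L) : L →+* L) := by
        ext x
        exact (hσ x).symm
      rw [hSS, mapQ_mapQ, rho_ptW ι (hι δ) (hι e) (hι k), ← map_mul, ← h σ, mapQ_mapQ]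
      exact mapQ_congr hcomp _ _ S
    · rw [hβ, ← rho_ptW (τ : Lv →+* Lv) (gal_comm τ _) (gal_comm τ _) (gal_comm τ _), hτQ,
        rho_add hdw _ _ hK']
  have hTu : ∀ T : (W (algebraMap Fv Lv (algebraMap F Fv k))).toAffine.Point, Ker T →
      IsUnit (rho (algebraMap Fv Lv (algebraMap F Fv δ)) (algebraMap Fv Lv (algebraMap F Fv e)) T)
      := by
    intro T hT
    exact IsUnit.of_pow_eq_one (rho_ker_cube hdw T hT) (by norm_num)
  have hzmap : mapQ (algebraMap Fv Lv) rfl (mapQ (algebraMap F Fv) rfl z) = SS ^ 3 := by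
    have hcomp : (algebraMap Fv Lv).comp (algebraMap F Fv) = ι.comp (algebraMap F L) := by
      ext x
      exact (hι x).symm
    rw [mapQ_mapQ, hSS, ← map_pow, ← hz, mapQ_mapQ]
    exact mapQ_congr hcomp _ _ z
  by_cases hβu : IsUnit β
  · left
    obtain ⟨b, hb⟩ := hβu
    set U : Q2 (algebraMap Fv Lv (algebraMap F Fv δ)) :=
      SS * ((b⁻¹ : (Q2 (algebraMap Fv Lv (algebraMap F Fv δ)))ˣ) :
        Q2 (algebraMap Fv Lv (algebraMap F Fv δ))) with hU
    have hUb : U * β = SS := by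
      rw [hU, ← hb, mul_assoc, Units.inv_mul, mul_one]
    have hfix : ∀ τ : Lv ≃ₐ[Fv] Lv, mapQ (τ : Lv →+* Lv) (gal_comm τ _) U = U := by
      intro τ
      obtain ⟨T, hTK, -, hTS, hTβ⟩ := hT τ
      have hu : IsUnit (β * rho (algebraMap Fv Lv (algebraMap F Fv δ))
          (algebraMap Fv Lv (algebraMap F Fv e)) T) :=
        (hb ▸ b.isUnit : IsUnit β).mul (hTu T hTK)
      have e1 : mapQ (τ : Lv →+* Lv) (gal_comm τ _) U *
          (β * rho (algebraMap Fv Lv (algebraMap F Fv δ))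
            (algebraMap Fv Lv (algebraMap F Fv e)) T) =
          U * (β * rho (algebraMap Fv Lv (algebraMap F Fv δ))
            (algebraMap Fv Lv (algebraMap F Fv e)) T) := by
        rw [← hTβ, ← map_mul, hUb, hTS, hTβ, ← mul_assoc, hUb, mul_comm]
      exact hu.mul_left_injective e1
    obtain ⟨u, hu⟩ := fixed_mapQ Fv Lv U hfix
    have hfixB : ∀ τ : Lv ≃ₐ[Fv] Lv,
        ptW (τ : Lv →+* Lv) (gal_comm τ (-27 * algebraMap F Fv k))
          (ptW (RingHom.id Lv) (n27_map (algebraMap Fv Lv) rfl).symm (iso hdw.ne Q)) =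
        ptW (RingHom.id Lv) (n27_map (algebraMap Fv Lv) rfl).symm (iso hdw.ne Q) := by
      intro τ
      obtain ⟨T, hTK, hTQ, -, -⟩ := hT τ
      have h1 : ptW (τ : Lv →+* Lv) (n27_map _ (gal_comm τ _)) (iso hdw.ne Q) =
          iso hdw.ne Q := by
        rw [← iso_ptW (τ : Lv →+* Lv) (gal_comm τ _) hdw.ne hdw.ne, hTQ,
          s10_iso_ker hdw.ne Q T hTK]
      rw [ptW_comp]
      conv_rhs => rw [← h1, ptW_comp]
      exact ptW_congr (by ext x; simp) _ _ _
    obtain ⟨P, hP⟩ := fixed_ptW Fv Lv _ hfixB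
    refine ⟨P, u, ?_, ?_⟩
    · rw [isUnit_iff_norm]
      intro h0
      have h1 : U.norm = 0 := by rw [← hu, norm_mapQ, h0, map_zero]
      have h2 : IsUnit U := hSSu.mul (Units.isUnit _)
      exact (isUnit_iff_norm U).1 h2 h1
    · apply mapQ_injective (algebraMap Fv Lv) rfl
      have h3 : algebraMap Fv Lv (3 * algebraMap F Fv e) =
          3 * algebraMap Fv Lv (algebraMap F Fv e) := by rw [map_mul, map_ofNat]
      have h4 : zq (algebraMap Fv Lv (algebraMap F Fv δ))
          (algebraMap Fv Lv (3 * algebraMap F Fv e))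
          (ptW (algebraMap Fv Lv) rfl P) =
          zq (algebraMap Fv Lv (algebraMap F Fv δ)) (3 * algebraMap Fv Lv (algebraMap F Fv e))
            (iso hdw.ne Q) := by
        rw [hP]
        exact zq_ptW (RingHom.id Lv) (D := algebraMap Fv Lv (algebraMap F Fv δ))
          (D' := algebraMap Fv Lv (algebraMap F Fv δ))
          (c := 3 * algebraMap Fv Lv (algebraMap F Fv e)) rfl h3.symm _ _
      rw [hzmap, map_mul, map_pow, ← zq_ptW (algebraMap Fv Lv) rfl rfl rfl P, h4, hu,
        ← rho_cube hdw, ← hβ, ← mul_pow, mul_comm β, hUb]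
  · right
    have hnorm : β.norm = 0 := by
      by_contra hcon
      exact hβu ((isUnit_iff_norm β).2 hcon)
    have heL : algebraMap Fv Lv (algebraMap F Fv e) ≠ 0 := hdw.e_ne
    have hkL : algebraMap Fv Lv (algebraMap F Fv k) ≠ 0 := hdw.ne
    -- the coordinates of `Q`
    obtain ⟨x, y, hxy, hQe⟩ : ∃ x y, ∃ hxy :
        (W (algebraMap Fv Lv (algebraMap F Fv k))).toAffine.Nonsingular x y,
        Q = .some x y hxy := by
      rcases hQc : Q with _ | ⟨x, y, hxy⟩
      · exfalso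
        rw [hβ, hQc] at hnorm
        have h1 : (rho (algebraMap Fv Lv (algebraMap F Fv δ)) (algebraMap Fv Lv (algebraMap F Fv e))
          (WeierstrassCurve.Affine.Point.zero :
            (W (algebraMap Fv Lv (algebraMap F Fv k))).toAffine.Point)) = 1 := rfl
        rw [h1, map_one] at hnorm
        exact one_ne_zero hnorm
      · exact ⟨x, y, hxy, rfl⟩
    have hx : x ≠ 0 := by
      intro hx
      have hKQ : Ker Q := by rw [hQe]; exact hx
      have := rho_ker_norm hdw Q hKQ
      rw [← hβ, hnorm] at this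
      exact zero_ne_one this
    have heq : y ^ 2 = x ^ 3 + algebraMap Fv Lv (algebraMap F Fv k) :=
      (W_nonsingular hdw.ne x y).1 hxy
    have hβe : β = ⟨y / x, -algebraMap Fv Lv (algebraMap F Fv e) / x⟩ := by
      rw [hβ, hQe]
      show (if x = 0 then _ else _) = _
      rw [if_neg hx]
    have hde : (-3 : Lv) * algebraMap Fv Lv (algebraMap F Fv k) =
        algebraMap Fv Lv (algebraMap F Fv δ) * algebraMap Fv Lv (algebraMap F Fv e) ^ 2 := hdw.eq
    have hy2 : y ^ 2 =
        algebraMap Fv Lv (algebraMap F Fv δ) * algebraMap Fv Lv (algebraMap F Fv e) ^ 2 := by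
      rw [hβe, s10_norm] at hnorm
      field_simp at hnorm
      linear_combination hnorm
    have hx3 : x ^ 3 = -4 * algebraMap Fv Lv (algebraMap F Fv k) := by
      linear_combination -heq + hy2 - hde
    have hy0 : y ≠ 0 := by
      intro hy
      rw [hy, ← hde] at hy2
      apply hkL
      have : (3 : Lv) * algebraMap Fv Lv (algebraMap F Fv k) = 0 := by linear_combination hy2
      rcases mul_eq_zero.1 this with h3 | h3
      · exact absurd h3 (by norm_num)
      · exact h3
    have hiso : ∃ hns, iso hdw.ne Q = .some 0 (3 * y) hns := by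
      have h1 : iso hdw.ne Q = .some ((x ^ 3 + 4 * algebraMap Fv Lv (algebraMap F Fv k)) / x ^ 2)
          (y * (x ^ 3 - 8 * algebraMap Fv Lv (algebraMap F Fv k)) / x ^ 3)
          (iso_nonsing hdw.ne hxy hx) := by
        rw [hQe]
        show (if hx : x = 0 then _ else _) = _
        rw [dif_neg hx]
      have h2 : (x ^ 3 + 4 * algebraMap Fv Lv (algebraMap F Fv k)) / x ^ 2 = 0 := by
        rw [hx3]; simp
      have h3 : y * (x ^ 3 - 8 * algebraMap Fv Lv (algebraMap F Fv k)) / x ^ 3 = 3 * y := by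
        rw [hx3]; field_simp; ring
      have hns := iso_nonsing hdw.ne hxy hx
      rw [h2, h3] at hns
      refine ⟨hns, ?_⟩
      rw [h1, WeierstrassCurve.Affine.Point.some.injEq]
      exact ⟨h2, h3⟩
    obtain ⟨hns, hiso⟩ := hiso
    have hyfix : ∀ τ : Lv ≃ₐ[Fv] Lv, τ y = y := by
      intro τ
      obtain ⟨T, hTK, hTQ, -, -⟩ := hT τ
      have h1 : ptW (τ : Lv →+* Lv) (n27_map _ (gal_comm τ _)) (iso hdw.ne Q) =
          iso hdw.ne Q := by
        rw [← iso_ptW (τ : Lv →+* Lv) (gal_comm τ _) hdw.ne hdw.ne, hTQ,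
          s10_iso_ker hdw.ne Q T hTK]
      rw [hiso] at h1
      simp only [ptW, WeierstrassCurve.Affine.Point.some.injEq] at h1
      have h2 : τ (3 * y) = 3 * y := h1.2
      rw [map_mul, map_ofNat] at h2
      exact mul_left_cancel₀ (by norm_num) h2
    obtain ⟨y0, hy0'⟩ := (InfiniteGalois.mem_range_algebraMap_iff_fixed y).2 hyfix
    have heF : algebraMap F Fv e ≠ 0 := hdv.e_ne
    set s : Fv := -y0 / algebraMap F Fv e with hs
    set s' : Lv := algebraMap Fv Lv s with hs'
    have hys : y = -algebraMap Fv Lv (algebraMap F Fv e) * s' := by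
      rw [hs', hs, map_div₀, map_neg, hy0']
      field_simp
    have hs'2 : s' * s' = algebraMap Fv Lv (algebraMap F Fv δ) := by
      rw [hys] at hy2
      have h1 : algebraMap Fv Lv (algebraMap F Fv e) ^ 2 * (s' * s') =
        algebraMap Fv Lv (algebraMap F Fv e) ^ 2 * algebraMap Fv Lv (algebraMap F Fv δ) := by
        linear_combination hy2
      exact mul_left_cancel₀ (pow_ne_zero 2 heL) h1
    have hs2 : s * s = algebraMap F Fv δ := by
      apply (algebraMap Fv Lv).injective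
      rw [map_mul]
      exact hs'2
    let ev : Q2 (algebraMap Fv Lv (algebraMap F Fv δ)) →+* Lv :=
      lift2 (RingHom.id Lv) rfl s' hs'2
    have hev : ∀ a, ev a = a.re + a.im * s' := fun a => rfl
    have hτev : ∀ (τ : Lv ≃ₐ[Fv] Lv) (a : Q2 (algebraMap Fv Lv (algebraMap F Fv δ))),
        τ (ev a) = ev (mapQ (τ : Lv →+* Lv) (gal_comm τ _) a) := by
      intro τ a
      rw [hev, hev, map_add, map_mul, hs', τ.commutes]
      rfl
    have hevβ : ev β = 2 * y / x := by
      rw [hev, hβe]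
      show y / x + -algebraMap Fv Lv (algebraMap F Fv e) / x * s' = 2 * y / x
      rw [hys]
      field_simp
      ring
    have hevβ0 : ev β ≠ 0 := by
      rw [hevβ]
      exact div_ne_zero (mul_ne_zero two_ne_zero hy0) hx
    have hevS0 : ev SS ≠ 0 := (hSSu.map ev).ne_zero
    have hgfix : ∀ τ : Lv ≃ₐ[Fv] Lv, τ (ev SS / ev β) = ev SS / ev β := by
      intro τ
      obtain ⟨T, hTK, -, hTS, hTβ⟩ := hT τ
      have h1 : ev (rho (algebraMap Fv Lv (algebraMap F Fv δ))
        (algebraMap Fv Lv (algebraMap F Fv e)) T) ≠ 0 := ((hTu T hTK).map ev).ne_zero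
      rw [map_div₀, hτev, hτev, hTS, hTβ, map_mul, map_mul]
      field_simp
    obtain ⟨g1, hg1⟩ := (InfiniteGalois.mem_range_algebraMap_iff_fixed _).2 hgfix
    have hg10 : g1 ≠ 0 := by
      intro h0
      rw [h0, map_zero] at hg1
      exact (div_ne_zero hevS0 hevβ0) hg1.symm
    refine ⟨s, -g1, hs2, neg_ne_zero.2 hg10, ?_⟩
    apply (algebraMap Fv Lv).injective
    have h1 : algebraMap Fv Lv (lift2 (algebraMap F Fv) rfl s hs2 z) = ev SS ^ 3 := by
      rw [← map_pow, ← hzmap, hev, lift2_apply, map_add, map_mul]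
      rfl
    have h2 : ev SS ^ 3 = algebraMap Fv Lv g1 ^ 3 *
        (-6 * algebraMap Fv Lv (algebraMap F Fv e) * s') := by
      have h3 : ev SS = algebraMap Fv Lv g1 * ev β := by
        rw [hg1]; field_simp
      rw [h3, mul_pow, ← map_pow ev β, hβ, rho_cube hdw, hiso]
      congr 1
      show (3 * y) + (-(3 * algebraMap Fv Lv (algebraMap F Fv e))) * s' = _
      rw [hys]
      ring
    rw [h1, h2]
    simp only [map_mul, map_pow, map_neg, map_ofNat]
    rw [← hs']
    ring

theorem locCond {F L : Type} [Field F] [CharZero F] [Field L]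
    [Algebra F L] [IsAlgClosure F L] {k δ e : F} (hd : Dat k δ e)
    (c : (L ≃ₐ[F] L) → (W (algebraMap F L k)).toAffine.Point)
    (hK : ∀ σ, Ker (c σ)) (S : Q2 (algebraMap F L δ)) (hS : IsUnit S)
    (h : ∀ σ : L ≃ₐ[F] L, mapQ (σ : L →+* L) (gal_comm σ δ) S =
      rho (algebraMap F L δ) (algebraMap F L e) (c σ) * S)
    (z : Q2 δ) (hz : mapQ (algebraMap F L) rfl z = S ^ 3) (Fv Lv : Type) [Field Fv] [Algebra F Fv]
    [Field Lv] [Algebra Fv Lv] [IsAlgClosure Fv Lv] [Algebra F Lv] [IsScalarTower F Fv Lv]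
    (ι : L →ₐ[F] Lv) (Q : (W (algebraMap F Lv k)).toAffine.Point)
    (hQ : ∀ (τ : Lv ≃ₐ[Fv] Lv) (σ : L ≃ₐ[F] L), (∀ x, ι (σ x) = τ (ι x)) →
      ptW (ι : L →+* Lv) (alg_comm ι k) (c σ) =
        ptW (τ : Lv →+* Lv) (tau_comm F Fv Lv τ k) Q - Q) : LocCond k δ e z Fv := by
  have hkv : RingHom.id Lv (algebraMap F Lv k) = algebraMap Fv Lv (algebraMap F Fv k) :=
    IsScalarTower.algebraMap_apply F Fv Lv k
  have hι : ∀ x : F, (ι : L →+* Lv) (algebraMap F L x) =
      algebraMap Fv Lv (algebraMap F Fv x) := fun x => by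
    rw [alg_comm ι x]
    exact IsScalarTower.algebraMap_apply F Fv Lv x
  -- restriction of automorphisms
  have hres : ∀ τ : Lv ≃ₐ[Fv] Lv, ∃ σ : L ≃ₐ[F] L, ∀ x, ι (σ x) = τ (ι x) := by
    intro τ
    let _ : Algebra L Lv := (ι : L →+* Lv).toAlgebra
    have : IsScalarTower F L Lv := IsScalarTower.of_algebraMap_eq' (by
      ext x
      show algebraMap F Lv x = ι (algebraMap F L x)
      rw [ι.commutes])
    have : CharZero L := charZero_of_injective_algebraMap (algebraMap F L).injective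
    have : Normal F L := inferInstance
    refine ⟨(τ.restrictScalars F).restrictNormal L, fun x => ?_⟩
    exact AlgEquiv.restrictNormal_commutes (τ.restrictScalars F) L x
  refine locCond_core hd c hK S hS h z hz Fv Lv (ι : L →+* Lv) hι
    (ptW (RingHom.id Lv) hkv Q) (fun τ => ?_)
  obtain ⟨σ, hσ⟩ := hres τ
  refine ⟨σ, hσ, ?_⟩
  have h1 := hQ τ σ hσ
  have h2 := congrArg (ptW (RingHom.id Lv) hkv) h1
  have hcv : CharZero Fv := charZero_of_injective_algebraMap (algebraMap F Fv).injective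
  have hclv : CharZero Lv := charZero_of_injective_algebraMap (algebraMap Fv Lv).injective
  rw [ptW_sub, ptW_comp, ptW_comp] at h2
  rw [ptW_comp]
  refine Eq.trans (ptW_congr (by ext x; simp) _ _ _) (h2.trans ?_)
  congr 1

end THF
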