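import Pool.Agent.MP_9ab903_nt.TH.F9
import Pool.Agent.MP_9ab903_nt.TH.F6

/-!
# [NG3-F11] A trivial class comes from a coboundary
-/

set_option autoImplicit false

open NumberField IsDedekindDomain
open scoped Classical

namespace THF

theorem trivial_core {F L : Type} [Field F] [CharZero F] [Field L]
    [Algebra F L] [IsAlgClosure F L] {k δ e : F} (hd : Dat k δ e)
    (c : (L ≃ₐ[F] L) → (W (algebraMap F L k)).toAffine.Point) (hK : ∀ σ, Ker (c σ))
    (S : Q2 (algebraMap F L δ)) (hS : IsUnit S)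
    (h : ∀ σ : L ≃ₐ[F] L, mapQ (σ : L →+* L) (gal_comm σ δ) S =
      rho (algebraMap F L δ) (algebraMap F L e) (c σ) * S) (t : Q2 δ)
    (ht : mapQ (algebraMap F L) rfl t ^ 3 = S ^ 3)
    (hn : S.norm = (mapQ (algebraMap F L) (d' := algebraMap F L δ) rfl t).norm) :
    ∃ T : (W (algebraMap F L k)).toAffine.Point, ∀ σ : L ≃ₐ[F] L,
      c σ = ptW (σ : L →+* L) (gal_comm σ k) T - T := by
  have : CharZero L := charZero_of_injective_algebraMap (algebraMap F L).injective
  have hdL : Dat (algebraMap F L k) (algebraMap F L δ) (algebraMap F L e) := hd.map _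
  have hu : IsUnit (mapQ (algebraMap F L) (d' := algebraMap F L δ) rfl t) := by
    have h1 : IsUnit (mapQ (algebraMap F L) (d' := algebraMap F L δ) rfl t ^ 3) := by
      rw [ht]
      exact hS.pow 3
    exact (isUnit_pow_iff three_ne_zero).1 h1
  obtain ⟨w, hw⟩ := hu
  have he : (S * ↑w⁻¹ : Q2 (algebraMap F L δ)) * mapQ (algebraMap F L) rfl t = S := by
    rw [← hw, mul_assoc, Units.inv_mul, mul_one]
  set a : Q2 (algebraMap F L δ) := S * ↑w⁻¹ with hadef
  have ha3 : a ^ 3 = 1 := by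
    have h3 : a ^ 3 * mapQ (algebraMap F L) rfl t ^ 3 =
        1 * mapQ (algebraMap F L) rfl t ^ 3 := by
      rw [← mul_pow, he, one_mul, ht]
    have hu2 : IsUnit (mapQ (algebraMap F L) (d' := algebraMap F L δ) rfl t ^ 3) := by
      rw [← hw]
      exact w.isUnit.pow 3
    exact hu2.mul_right_cancel h3
  have hσa : ∀ σ : L ≃ₐ[F] L, mapQ (σ : L →+* L) (gal_comm σ δ) a =
      rho (algebraMap F L δ) (algebraMap F L e) (c σ) * a := by
    intro σ
    have h1 : mapQ (σ : L →+* L) (gal_comm σ δ) (mapQ (algebraMap F L) rfl t) =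
        mapQ (algebraMap F L) rfl t := by
      rw [mapQ_mapQ, mapQ_apply, mapQ_apply, RingHom.comp_apply, RingHom.comp_apply, gal_comm,
        gal_comm]
    have h4 : mapQ (σ : L →+* L) (gal_comm σ δ) a * mapQ (algebraMap F L) rfl t =
        rho (algebraMap F L δ) (algebraMap F L e) (c σ) * a * mapQ (algebraMap F L) rfl t := by
      rw [mul_assoc, he, ← h σ]
      conv_lhs => rw [← h1]
      rw [← map_mul, he]
    exact (hw ▸ w.isUnit :
      IsUnit (mapQ (algebraMap F L) (d' := algebraMap F L δ) rfl t)).mul_right_cancel h4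
  have hn1 : a.norm = 1 := by
    have h1 := congrArg QuadraticAlgebra.norm he
    rw [map_mul, hn] at h1
    have h2 : (mapQ (algebraMap F L) (d' := algebraMap F L δ) rfl t).norm ≠ 0 :=
      (isUnit_iff_norm _).1 (hw ▸ w.isUnit)
    exact mul_right_cancel₀ h2 (by rw [h1, one_mul])
  obtain ⟨T, hT, hTa⟩ := exists_ker hdL a ha3 hn1
  refine ⟨T, fun σ => ?_⟩
  rw [eq_sub_iff_add_eq]
  have h1 := hσa σ
  rw [← hTa, ← rho_ptW (σ : L →+* L) (gal_comm σ δ) (gal_comm σ e) (gal_comm σ k),
    ← rho_add hdL _ _ hT] at h1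
  exact (rho_ker_inj hdL _ _ ((ker_ptW _ _ _).2 hT) (ker_add hdL.ne _ _ (hK σ) hT) h1).symm

/-- If the class of the cocycle `c` is trivial, `c` is principal (`F` contains the cube roots of
unity: `z = t³` with `t` replaced by `ω^i t`, so that the norms agree). -/
theorem trivial_of_cube {F L : Type} [Field F] [CharZero F] [Field L]
    [Algebra F L] [IsAlgClosure F L] (o : F) (ho : o ^ 2 + o + 1 = 0) {k δ e : F}
    (hd : Dat k δ e)
    (c : (L ≃ₐ[F] L) → (W (algebraMap F L k)).toAffine.Point) (hK : ∀ σ, Ker (c σ))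
    (S : Q2 (algebraMap F L δ)) (hS : IsUnit S)
    (h : ∀ σ : L ≃ₐ[F] L, mapQ (σ : L →+* L) (gal_comm σ δ) S =
      rho (algebraMap F L δ) (algebraMap F L e) (c σ) * S) (t : Q2 δ)
    (ht : mapQ (algebraMap F L) rfl t ^ 3 = S ^ 3) :
    ∃ T : (W (algebraMap F L k)).toAffine.Point, ∀ σ : L ≃ₐ[F] L,
      c σ = ptW (σ : L →+* L) (gal_comm σ k) T - T := by
  have ho3 : o ^ 3 = 1 := by linear_combination (o - 1) * ho
  -- the quotient of the norms is a cube root of unity
  have hm : (mapQ (algebraMap F L) (d' := algebraMap F L δ) rfl t).norm ≠ 0 := by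
    have h1 : IsUnit (mapQ (algebraMap F L) (d' := algebraMap F L δ) rfl t ^ 3) := by
      rw [ht]
      exact hS.pow 3
    exact (isUnit_iff_norm _).1 ((isUnit_pow_iff three_ne_zero).1 h1)
  have hn3 : S.norm ^ 3 = (mapQ (algebraMap F L) (d' := algebraMap F L δ) rfl t).norm ^ 3 := by
    rw [← map_pow, ← map_pow, ht]
  set m := (mapQ (algebraMap F L) (d' := algebraMap F L δ) rfl t).norm with hmdef
  have hoL : algebraMap F L o ^ 2 + algebraMap F L o + 1 = 0 := by
    rw [← map_pow, ← map_add, ← map_one (algebraMap F L), ← map_add, ho, map_zero]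
  have hc3 : (S.norm - m) * ((S.norm - algebraMap F L o * m) *
      (S.norm - algebraMap F L o ^ 2 * m)) = 0 := by
    linear_combination hn3 - (m * S.norm ^ 2 - (algebraMap F L o) * m ^ 2 * S.norm +
      (algebraMap F L o - 1) * m ^ 3) * hoL
  have hnc : ∀ x : F, (mapQ (algebraMap F L) (d' := algebraMap F L δ) rfl
      ((⟨x, 0⟩ : Q2 δ) * t)).norm = algebraMap F L x ^ 2 * m := by
    intro x
    rw [map_mul, map_mul, ← hmdef, mapQ_apply, QuadraticAlgebra.norm_def]
    simp only [map_zero]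
    ring
  have hcc : ∀ x : F, x ^ 3 = 1 →
      mapQ (algebraMap F L) rfl ((⟨x, 0⟩ : Q2 δ) * t) ^ 3 = S ^ 3 := by
    intro x hx
    have h1 : (⟨x, 0⟩ : Q2 δ) ^ 3 = 1 := by
      have h2 : (⟨x, 0⟩ : Q2 δ) = algebraMap F (Q2 δ) x := rfl
      rw [h2, ← map_pow, hx, map_one]
    rw [← map_pow, mul_pow, h1, one_mul, map_pow, ht]
  rcases mul_eq_zero.1 hc3 with h1 | h1
  · exact trivial_core hd c hK S hS h t ht (sub_eq_zero.1 h1)
  · rcases mul_eq_zero.1 h1 with h1 | h1
    · have h5 := hcc (o ^ 2) (by rw [← pow_mul, mul_comm 2 3, pow_mul, ho3, one_pow])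
      refine trivial_core hd c hK S hS h _ h5 ?_
      have h4 : algebraMap F L (o ^ 2) ^ 2 = algebraMap F L o := by
        rw [map_pow]
        linear_combination (algebraMap F L o ^ 2 - algebraMap F L o) * hoL
      rw [hnc, h4]
      exact sub_eq_zero.1 h1
    · have h5 := hcc o ho3
      refine trivial_core hd c hK S hS h _ h5 ?_
      rw [hnc]
      exact sub_eq_zero.1 h1

end THF
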