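import Pool.Agent.MP_9ab903_nt.TH.F1

/-!
# [NG3-F2] the isogeny iso is additive (port of S3/S2)
-/

set_option autoImplicit false

open NumberField IsDedekindDomain
open scoped Classical

namespace THF

/-! ## [SB3-S2] the isogeny `iso` is additive (file S2.lean; uses S1) -/

theorem iso_zero {K : Type} [Field K] [CharZero K] {k : K} (hk : k ≠ 0) :
    iso hk (0 : (W k).toAffine.Point) = 0 := rfl

theorem s2_iso_some {K : Type} [Field K] [CharZero K] {k : K} (hk : k ≠ 0) {x y : K}
    (h : (W k).toAffine.Nonsingular x y) (hx : x ≠ 0) :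
    iso hk (WeierstrassCurve.Affine.Point.some x y h) =
      .some ((x ^ 3 + 4 * k) / x ^ 2) (y * (x ^ 3 - 8 * k) / x ^ 3) (iso_nonsing hk h hx) := by
  simp only [iso, dif_neg hx]

theorem s2_iso_some_zero {K : Type} [Field K] [CharZero K] {k : K} (hk : k ≠ 0) {x y : K}
    (h : (W k).toAffine.Nonsingular x y) (hx : x = 0) :
    iso hk (WeierstrassCurve.Affine.Point.some x y h) = 0 := by
  simp only [iso, dif_pos hx]
  rfl

theorem iso_eq_zero {K : Type} [Field K] [CharZero K] {k : K} (hk : k ≠ 0)
    (P : (W k).toAffine.Point) : iso hk P = 0 ↔ Ker P := by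
  cases P with
  | zero => exact ⟨fun _ => trivial, fun _ => rfl⟩
  | some x y h =>
    by_cases hx : x = 0
    · exact ⟨fun _ => hx, fun _ => s2_iso_some_zero hk h hx⟩
    · rw [s2_iso_some hk h hx]
      exact ⟨fun h1 => absurd h1 (WeierstrassCurve.Affine.Point.some_ne_zero _),
        fun h1 => absurd h1 hx⟩

theorem n27_map {K L : Type} [Field K] [Field L] (f : K →+* L) {k : K} {k' : L} (h : f k = k') :
    f (-27 * k) = -27 * k' := by
  rw [map_mul, h, map_neg, map_ofNat]

theorem iso_ptW {K L : Type} [Field K] [CharZero K] [Field L] [CharZero L] (f : K →+* L) {k : K}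
    {k' : L} (h : f k = k') (hk : k ≠ 0) (hk' : k' ≠ 0) (P : (W k).toAffine.Point) :
    iso hk' (ptW f h P) = ptW f (n27_map f h) (iso hk P) := by
  cases P with
  | zero => rfl
  | some x y h =>
    by_cases hx : x = 0
    · rw [s2_iso_some_zero hk h hx]
      exact s2_iso_some_zero hk' _ (by rw [hx, map_zero])
    · have hx' : f x ≠ 0 := fun h1 => hx (f.injective (by rw [h1, map_zero]))
      rw [s2_iso_some hk h hx]
      simp only [ptW]
      rw [s2_iso_some hk' _ hx', WeierstrassCurve.Affine.Point.some.injEq]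
      rename_i h0
      constructor
      · simp only [map_div₀, map_add, map_mul, map_pow, map_ofNat, h0]
      · simp only [map_div₀, map_sub, map_mul, map_pow, map_ofNat, h0]

theorem s2_scal_zero {K : Type} [Field K] {k k' : K} (u : K) (hu : u ≠ 0)
    (h : k' = u ^ 6 * k) : scal u hu h (0 : (W k).toAffine.Point) = 0 := rfl

/-- If `o² + o + 1 = 0`, `θ = 1 + 2 o` (so `θ² = -3`), then `iso P = scal_θ (o² P' - o P')`: with
`[o^2](x, y) = (o^4 x, o^6 y) = (o x, y)` and `[o](x, y) = (o² x, o³ y) = (o² x, y)`,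
`iso P = scal θ ([o²] P - [o] P)`. -/
theorem iso_eq_scal {K : Type} [Field K] [CharZero K] {k : K} (hk : k ≠ 0) (o : K)
    (ho : o ^ 2 + o + 1 = 0) (ho0 : o ≠ 0) (ho2 : o ^ 2 ≠ 0) (h1 : k = o ^ 6 * k)
    (h2 : k = (o ^ 2) ^ 6 * k) (hth : 1 + 2 * o ≠ 0)
    (h3 : -27 * k = (1 + 2 * o) ^ 6 * k) (P : (W k).toAffine.Point) :
    iso hk P = scal (1 + 2 * o) hth h3 (scal (o ^ 2) ho2 h2 P - scal o ho0 h1 P) := by
  have ho3 : o ^ 3 = 1 := by linear_combination (o - 1) * ho
  cases P with
  | zero =>
    have h4 : scal (o ^ 2) ho2 h2 (WeierstrassCurve.Affine.Point.zero : (W k).toAffine.Point) = 0 := rfl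
    have h5 : scal o ho0 h1 (WeierstrassCurve.Affine.Point.zero : (W k).toAffine.Point) = 0 := rfl
    rw [h4, h5, sub_zero]
    rfl
  | some x y h =>
    have e1 : (o ^ 2) ^ 2 * x = o * x := by linear_combination o * x * ho3
    have e2 : (o ^ 2) ^ 3 * y = y := by linear_combination (o ^ 3 + 1) * y * ho3
    have e3 : o ^ 3 * y = y := by linear_combination y * ho3
    by_cases hx : x = 0
    · rw [s2_iso_some_zero hk h hx]
      have h4 : scal (o ^ 2) ho2 h2 (WeierstrassCurve.Affine.Point.some x y h) =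
          scal o ho0 h1 (WeierstrassCurve.Affine.Point.some x y h) := by
        simp only [scal, WeierstrassCurve.Affine.Point.some.injEq]
        exact ⟨by rw [hx, mul_zero, mul_zero], by rw [e2, e3]⟩
      rw [h4, sub_self]
      rfl
    · have heq := (W_nonsingular hk x y).1 h
      have hne : o * x ≠ o ^ 2 * x := by
        intro h4
        apply hth
        have h5 : x * (1 + 2 * o) = 0 := by linear_combination h4 + x * ho
        exact (mul_eq_zero.1 h5).resolve_left hx
      rw [s2_iso_some hk h hx]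
      have hAB : ∀ (hA : (W k).toAffine.Nonsingular (o * x) y)
          (hB : (W k).toAffine.Nonsingular (o ^ 2 * x) y),
          (WeierstrassCurve.Affine.Point.some (o * x) y hA -
            WeierstrassCurve.Affine.Point.some (o ^ 2 * x) y hB) =
          WeierstrassCurve.Affine.Point.some (o * x) y hA +
            WeierstrassCurve.Affine.Point.some (o ^ 2 * x)
              ((W k).toAffine.negY (o ^ 2 * x) y)
              ((WeierstrassCurve.Affine.nonsingular_neg ..).2 hB) := by
        intro hA hB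
        rw [← WeierstrassCurve.Affine.Point.neg_some]
        exact sub_eq_add_neg _ _
      simp only [scal, e1, e2, e3]
      rw [hAB, WeierstrassCurve.Affine.Point.add_some (fun h4 => hne h4.1)]
      simp only [WeierstrassCurve.Affine.Point.some.injEq]
      have hd : o * x - o ^ 2 * x = x * (1 + 2 * o) := by linear_combination -x * ho
      have hth2 : (1 + 2 * o) ^ 2 = -3 := by linear_combination 4 * ho
      have hs : (W k).toAffine.slope (o * x) (o ^ 2 * x) y
          ((W k).toAffine.negY (o ^ 2 * x) y) = 2 * y / (x * (1 + 2 * o)) := by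
        rw [WeierstrassCurve.Affine.slope_of_X_ne hne, hd]
        congr 1
        simp only [WeierstrassCurve.Affine.negY, W]
        ring
      rw [hs]
      have hX : (1 + 2 * o) ^ 2 * (W k).toAffine.addX (o * x) (o ^ 2 * x)
          (2 * y / (x * (1 + 2 * o))) = (x ^ 3 + 4 * k) / x ^ 2 := by
        have h4 : (W k).toAffine.addX (o * x) (o ^ 2 * x) (2 * y / (x * (1 + 2 * o))) =
            (2 * y / (x * (1 + 2 * o))) ^ 2 - o * x - o ^ 2 * x := by
          simp only [WeierstrassCurve.Affine.addX, W]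
          ring
        have h5 : (1 + 2 * o) ^ 2 * (2 * y / (x * (1 + 2 * o))) ^ 2 = 4 * y ^ 2 / x ^ 2 := by
          field_simp
          ring
        rw [h4]
        have h6 : (1 + 2 * o) ^ 2 * ((2 * y / (x * (1 + 2 * o))) ^ 2 - o * x - o ^ 2 * x) =
            4 * y ^ 2 / x ^ 2 - 3 * x := by
          linear_combination h5 + (-o * x - o ^ 2 * x) * hth2 + 3 * x * ho
        rw [h6]
        field_simp
        linear_combination 4 * heq
      have hY : (1 + 2 * o) ^ 3 * (W k).toAffine.addY (o * x) (o ^ 2 * x) y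
          (2 * y / (x * (1 + 2 * o))) = y * (x ^ 3 - 8 * k) / x ^ 3 := by
        have h4 : (W k).toAffine.addY (o * x) (o ^ 2 * x) y (2 * y / (x * (1 + 2 * o))) =
            -(2 * y / (x * (1 + 2 * o)) * ((W k).toAffine.addX (o * x) (o ^ 2 * x)
              (2 * y / (x * (1 + 2 * o))) - o * x) + y) := by
          simp only [WeierstrassCurve.Affine.addY, WeierstrassCurve.Affine.negAddY,
            WeierstrassCurve.Affine.negY, W]
          ring
        have h5 : (1 + 2 * o) * (2 * y / (x * (1 + 2 * o))) = 2 * y / x := by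
          field_simp
        rw [h4]
        have h6 : (1 + 2 * o) ^ 3 * -(2 * y / (x * (1 + 2 * o)) *
            ((W k).toAffine.addX (o * x) (o ^ 2 * x) (2 * y / (x * (1 + 2 * o))) - o * x) + y) =
            -(2 * y / x * ((x ^ 3 + 4 * k) / x ^ 2 + 3 * o * x) - 3 * (1 + 2 * o) * y) := by
          rw [← hX]
          linear_combination (-(1 + 2 * o) ^ 2 * ((W k).toAffine.addX (o * x) (o ^ 2 * x)
            (2 * y / (x * (1 + 2 * o))) - o * x)) * h5 + (2 * y / x * (o * x) -
            (1 + 2 * o) * y) * hth2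
        rw [h6]
        field_simp
        ring
      exact ⟨hX.symm, hY.symm⟩

theorem s2_exists_omega (K : Type) [Field K] [CharZero K] [IsAlgClosed K] :
    ∃ o : K, o ^ 2 + o + 1 = 0 := by
  obtain ⟨s, hs⟩ := IsAlgClosed.exists_pow_nat_eq (-3 : K) (n := 2) (by norm_num)
  refine ⟨(-1 + s) / 2, ?_⟩
  field_simp
  linear_combination hs

theorem s2_iso_add_closed {K : Type} [Field K] [CharZero K] [IsAlgClosed K] {k : K} (hk : k ≠ 0)
    (P Q : (W k).toAffine.Point) : iso hk (P + Q) = iso hk P + iso hk Q := by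
  obtain ⟨o, ho⟩ := s2_exists_omega K
  have ho3 : o ^ 3 = 1 := by linear_combination (o - 1) * ho
  have ho0 : o ≠ 0 := by
    rintro rfl
    norm_num at ho
  have ho2 : o ^ 2 ≠ 0 := pow_ne_zero 2 ho0
  have hth2 : (1 + 2 * o) ^ 2 = -3 := by linear_combination 4 * ho
  have hth : 1 + 2 * o ≠ 0 := by
    intro h
    rw [h] at hth2
    norm_num at hth2
  have h1 : k = o ^ 6 * k := by linear_combination (-(o ^ 3) - 1) * k * ho3
  have h2 : k = (o ^ 2) ^ 6 * k := by
    linear_combination (-(o ^ 9) - o ^ 6 - o ^ 3 - 1) * k * ho3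
  have h3 : -27 * k = (1 + 2 * o) ^ 6 * k := by
    linear_combination (-((1 + 2 * o) ^ 4) + 3 * (1 + 2 * o) ^ 2 - 9) * k * hth2
  rw [iso_eq_scal hk o ho ho0 ho2 h1 h2 hth h3 (P + Q), iso_eq_scal hk o ho ho0 ho2 h1 h2 hth h3 P,
    iso_eq_scal hk o ho ho0 ho2 h1 h2 hth h3 Q, scal_add (o ^ 2) ho2 h2, scal_add o ho0 h1,
    add_sub_add_comm, scal_add]

theorem iso_add {K : Type} [Field K] [CharZero K] {k : K} (hk : k ≠ 0)
    (P Q : (W k).toAffine.Point) : iso hk (P + Q) = iso hk P + iso hk Q := by
  have : CharZero (AlgebraicClosure K) := charZero_of_injective_algebraMap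
    (algebraMap K (AlgebraicClosure K)).injective
  have hk' : algebraMap K (AlgebraicClosure K) k ≠ 0 := (map_ne_zero _).2 hk
  apply ptW_injective (algebraMap K (AlgebraicClosure K)) (n27_map _ rfl)
  rw [ptW_add, ← iso_ptW _ rfl hk hk', ← iso_ptW _ rfl hk hk', ← iso_ptW _ rfl hk hk', ptW_add,
    s2_iso_add_closed]

theorem iso_sub {K : Type} [Field K] [CharZero K] {k : K} (hk : k ≠ 0)
    (P Q : (W k).toAffine.Point) : iso hk (P - Q) = iso hk P - iso hk Q := by
  apply eq_sub_of_add_eq
  rw [← iso_add, sub_add_cancel]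

end THF
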