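import Pool.Agent.MP_9ab903_nt.TH.F2

/-!
# [NG3-F3] the composite of iso with itself (port of S3/S3)
-/

set_option autoImplicit false

open NumberField IsDedekindDomain
open scoped Classical

namespace THF

/-! ## [SB3-S3] the composite of `iso` with itself is multiplication by 3 (file S3.lean; uses S1,
S2) -/

theorem s3_congr {K : Type} [Field K] {k k' : K} {u v : K} (huv : u = v) (hu : u ≠ 0) (hv : v ≠ 0)
    (h : k' = u ^ 6 * k) (h' : k' = v ^ 6 * k) (P : (W k).toAffine.Point) :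
    scal u hu h P = scal v hv h' P := by
  subst huv; rfl

theorem s3_sub {K : Type} [Field K] [CharZero K] {k k' : K} (u : K) (hu : u ≠ 0)
    (h : k' = u ^ 6 * k) (P Q : (W k).toAffine.Point) :
    scal u hu h (P - Q) = scal u hu h P - scal u hu h Q :=
  map_sub (AddMonoidHom.mk' (scal u hu h) (scal_add u hu h)) P Q

theorem s3_neg {K : Type} [Field K] [CharZero K] {k k' : K} (u : K) (hu : u ≠ 0)
    (h : k' = u ^ 6 * k) (P : (W k).toAffine.Point) :
    scal u hu h (-P) = -scal u hu h P :=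
  map_neg (AddMonoidHom.mk' (scal u hu h) (scal_add u hu h)) P

theorem s3_cast {K : Type} [Field K] (k : K) :
    -27 * (-27 * k) = (3 : K) ^ 6 * k := by
  ring

theorem s3_core {K : Type} [Field K] [CharZero K] {k : K} (hk : k ≠ 0) (hk' : -27 * k ≠ 0)
    (o : K) (ho : o ^ 2 + o + 1 = 0)
    (h3 : (3 : K) ≠ 0) (h : -27 * (-27 * k) = (3 : K) ^ 6 * k)
    (P : (W k).toAffine.Point) :
    iso hk' (iso hk P) = scal (3 : K) h3 h (3 • P) := by
  have ho3 : o ^ 3 = 1 := by linear_combination (o - 1) * ho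
  have ho0 : o ≠ 0 := by
    rintro rfl
    norm_num at ho
  have ho2 : o ^ 2 ≠ 0 := pow_ne_zero 2 ho0
  have ho6 : o ^ 6 = 1 := by linear_combination (o ^ 3 + 1) * ho3
  have ho12 : (o ^ 2) ^ 6 = 1 := by linear_combination (o ^ 6 + 1) * ho6
  have h1 : ∀ j : K, j = o ^ 6 * j := fun j => by rw [ho6, one_mul]
  have h2 : ∀ j : K, j = (o ^ 2) ^ 6 * j := fun j => by rw [ho12, one_mul]
  have hth2 : (1 + 2 * o) * (1 + 2 * o) = -3 := by linear_combination 4 * ho
  have hth : 1 + 2 * o ≠ 0 := by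
    intro h0
    rw [h0] at hth2
    apply h3
    linear_combination hth2
  have hth6 : (1 + 2 * o) ^ 6 = -27 := by
    have : (1 + 2 * o) ^ 6 = ((1 + 2 * o) * (1 + 2 * o)) ^ 3 := by ring
    rw [this, hth2]; norm_num
  have hS : ∀ j : K, -27 * j = (1 + 2 * o) ^ 6 * j := fun j => by
    rw [hth6]
  rw [iso_eq_scal hk' o ho ho0 ho2 (h1 _) (h2 _) hth (hS _),
    iso_eq_scal hk o ho ho0 ho2 (h1 _) (h2 _) hth (hS _)]
  -- commute
  have hc2 : ∀ X : (W k).toAffine.Point,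
      scal (k := -27 * k) (k' := -27 * k) (o ^ 2) ho2 (h2 _) (scal (1 + 2 * o) hth (hS k) X) =
        scal (1 + 2 * o) hth (hS k) (scal (k' := k) (o ^ 2) ho2 (h2 _) X) := by
    intro X
    have e1 : -27 * k = (o ^ 2 * (1 + 2 * o)) ^ 6 * k := by
      rw [mul_pow, ho12, one_mul]; exact hS k
    have e2 : -27 * k = ((1 + 2 * o) * o ^ 2) ^ 6 * k := by
      rw [mul_pow, ho12, mul_one]; exact hS k
    rw [scal_scal (1 + 2 * o) (o ^ 2) hth ho2 (hS k) (h2 _) (mul_ne_zero ho2 hth) e1,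
      scal_scal (o ^ 2) (1 + 2 * o) ho2 hth (h2 _) (hS k) (mul_ne_zero hth ho2) e2]
    exact s3_congr (mul_comm _ _) _ _ _ _ _
  have hc1 : ∀ X : (W k).toAffine.Point,
      scal (k := -27 * k) (k' := -27 * k) o ho0 (h1 _) (scal (1 + 2 * o) hth (hS k) X) =
        scal (1 + 2 * o) hth (hS k) (scal (k' := k) o ho0 (h1 _) X) := by
    intro X
    have e1 : -27 * k = (o * (1 + 2 * o)) ^ 6 * k := by
      rw [mul_pow, ho6, one_mul]; exact hS k
    have e2 : -27 * k = ((1 + 2 * o) * o) ^ 6 * k := by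
      rw [mul_pow, ho6, mul_one]; exact hS k
    rw [scal_scal (1 + 2 * o) o hth ho0 (hS k) (h1 _) (mul_ne_zero ho0 hth) e1,
      scal_scal o (1 + 2 * o) ho0 hth (h1 _) (hS k) (mul_ne_zero hth ho0) e2]
    exact s3_congr (mul_comm _ _) _ _ _ _ _
  rw [hc2, hc1, ← s3_sub]
  -- the products of the two endomorphisms
  have hid : k = (1 : K) ^ 6 * k := by rw [one_pow, one_mul]
  have haa : ∀ X : (W k).toAffine.Point, scal (k' := k) (o ^ 2) ho2 (h2 _)
      (scal (k' := k) (o ^ 2) ho2 (h2 _) X) = scal (k' := k) o ho0 (h1 _) X := by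
    intro X
    have e0 : o ^ 2 * o ^ 2 = o := by linear_combination o * ho3
    rw [scal_scal (o ^ 2) (o ^ 2) ho2 ho2 (h2 _) (h2 _) (mul_ne_zero ho2 ho2)
      (by rw [e0]; exact h1 k)]
    exact s3_congr e0 _ _ _ _ _
  have hbb : ∀ X : (W k).toAffine.Point, scal (k' := k) o ho0 (h1 _)
      (scal (k' := k) o ho0 (h1 _) X) = scal (k' := k) (o ^ 2) ho2 (h2 _) X := by
    intro X
    have e0 : o * o = o ^ 2 := by ring
    rw [scal_scal o o ho0 ho0 (h1 _) (h1 _) (mul_ne_zero ho0 ho0) (by rw [e0]; exact h2 k)]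
    exact s3_congr e0 _ _ _ _ _
  have hab : ∀ X : (W k).toAffine.Point, scal (k' := k) (o ^ 2) ho2 (h2 _)
      (scal (k' := k) o ho0 (h1 _) X) = X := by
    intro X
    have e0 : o ^ 2 * o = 1 := by linear_combination ho3
    rw [scal_scal o (o ^ 2) ho0 ho2 (h1 _) (h2 _) (mul_ne_zero ho2 ho0) (by rw [e0]; exact hid),
      s3_congr e0 _ one_ne_zero _ hid, scal_one]
  have hba : ∀ X : (W k).toAffine.Point, scal (k' := k) o ho0 (h1 _)
      (scal (k' := k) (o ^ 2) ho2 (h2 _) X) = X := by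
    intro X
    have e0 : o * o ^ 2 = 1 := by linear_combination ho3
    rw [scal_scal (o ^ 2) o ho2 ho0 (h2 _) (h1 _) (mul_ne_zero ho0 ho2) (by rw [e0]; exact hid),
      s3_congr e0 _ one_ne_zero _ hid, scal_one]
  have hom := scal_omega hk o ho ho0 ho2 (h1 k) (h2 k) P
  rw [s3_sub (o ^ 2), s3_sub o, haa, hab, hba, hbb]
  have harg : scal (k' := k) o ho0 (h1 k) P - P - (P - scal (k' := k) (o ^ 2) ho2 (h2 k) P) =
      -(3 • P) := by
    have : scal (k' := k) o ho0 (h1 k) P + scal (k' := k) (o ^ 2) ho2 (h2 k) P = -P := by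
      rw [eq_neg_iff_add_eq_zero, ← hom]
      abel
    calc scal (k' := k) o ho0 (h1 k) P - P - (P - scal (k' := k) (o ^ 2) ho2 (h2 k) P)
        = (scal (k' := k) o ho0 (h1 k) P + scal (k' := k) (o ^ 2) ho2 (h2 k) P) - 2 • P := by
          abel
      _ = -(3 • P) := by rw [this]; abel
  rw [harg]
  have hmm : -27 * (-27 * k) = (-3 : K) ^ 6 * k := by
    rw [h]; ring
  have e3 : -27 * (-27 * k) = ((1 + 2 * o) * (1 + 2 * o)) ^ 6 * k := by
    rw [hth2]; exact hmm
  rw [scal_scal (1 + 2 * o) (1 + 2 * o) hth hth (hS k) (hS _) (mul_ne_zero hth hth) e3,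
    s3_congr hth2 _ (neg_ne_zero.2 h3) _ hmm, scal_neg 3 h3 h, s3_neg, neg_neg]

theorem iso_iso {K : Type} [Field K] [CharZero K] {k : K} (hk : k ≠ 0) (hk' : -27 * k ≠ 0)
    (h3 : (3 : K) ≠ 0) (h : -27 * (-27 * k) = (3 : K) ^ 6 * k) (P : (W k).toAffine.Point) :
    iso hk' (iso hk P) = scal (3 : K) h3 h (3 • P) := by
  let L := AlgebraicClosure K
  let f : K →+* L := algebraMap K L
  have : CharZero L := charZero_of_injective_algebraMap f.injective
  have h3L : (3 : L) ≠ 0 := by norm_num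
  have hf3 : f 3 = 3 := map_ofNat f 3
  have hkL : f k ≠ 0 := (map_ne_zero f).2 hk
  have hkL' : -27 * f k ≠ 0 := n27_ne hkL
  have hL : -27 * (-27 * f k) = (3 : L) ^ 6 * f k := s3_cast _
  obtain ⟨s, hs⟩ := IsAlgClosed.exists_pow_nat_eq (-3 : L) two_pos
  have ho : ((-1 + s) / 2) ^ 2 + (-1 + s) / 2 + 1 = 0 := by
    linear_combination (1 / 4 : L) * hs
  have hcore := s3_core hkL hkL' ((-1 + s) / 2) ho h3L hL (ptW f rfl P)
  apply ptW_injective f (n27_map f (n27_map f rfl))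
  rw [← iso_ptW f (n27_map f rfl) hk' hkL', ← iso_ptW f rfl hk hkL, hcore]
  rw [← scal_ptW f rfl (n27_map f (n27_map f rfl)) 3 3 hf3 h3 h h3L hL, ptW_nsmul]

end THF
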