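import Pool.Agent.MP_9ab903_nt.TH.F2

/-!
# [NG3-F5] the function rho (port of S3/S5)
-/

set_option autoImplicit false

open NumberField IsDedekindDomain
open scoped Classical

namespace THF

/-! ## [SB3-S5] the function `ρ` (file S5.lean) -/

theorem s5_cube {K : Type} [Field K] {δ : K} (a b : K) :
    (⟨a, b⟩ : Q2 δ) ^ 3 = ⟨a ^ 3 + 3 * δ * a * b ^ 2, 3 * a ^ 2 * b + δ * b ^ 3⟩ := by
  rw [pow_succ, pow_succ, pow_one]
  ext
  · simp only [QuadraticAlgebra.re_mul, QuadraticAlgebra.im_mul]
    ring
  · simp only [QuadraticAlgebra.re_mul, QuadraticAlgebra.im_mul]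
    ring

theorem s5_one {K : Type} [Field K] {δ : K} : (1 : Q2 δ) = ⟨1, 0⟩ := by
  ext
  · exact QuadraticAlgebra.re_one
  · exact QuadraticAlgebra.im_one

theorem s5_casts {K : Type} [Field K] [CharZero K] {k δ e : K} (hd : Dat k δ e) :
    δ * e ^ 2 = -3 * k ∧ δ ≠ 0 ∧ e ≠ 0 ∧ k ≠ 0 :=
  ⟨hd.eq.symm, hd.d_ne, hd.e_ne, hd.ne⟩

/-- `δ b² = -3/4` -/
theorem s5_b {K : Type} [Field K] [CharZero K] {k δ e : K} (hd : Dat k δ e) {y : K}
    (hy : y ^ 2 = k) : δ * (-3 * y / (2 * δ * e)) ^ 2 = -3 / 4 := by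
  obtain ⟨h1, h2, h3, h4⟩ := s5_casts hd
  have h5 : δ * (-3 * y / (2 * δ * e)) ^ 2 = 9 * y ^ 2 / (4 * (δ * e ^ 2)) := by
    field_simp
    ring
  rw [h5, h1, hy]
  field_simp
  norm_num

theorem rho_cube {K : Type} [Field K] [CharZero K] {k δ e : K} (hd : Dat k δ e)
    (P : (W k).toAffine.Point) : rho δ e P ^ 3 = zq δ (3 * e) (iso hd.ne P) := by
  obtain ⟨h1, h2, h3, h4⟩ := s5_casts hd
  cases P with
  | zero => simp only [rho, iso, zq, one_pow]
  | some x y h =>
    have hy := (W_nonsingular hd.ne x y).1 h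
    by_cases hx : x = 0
    · have hy' : y ^ 2 = k := by rw [hy, hx]; ring
      have hb := s5_b hd hy'
      simp only [rho, iso, if_pos hx, dif_pos hx, zq]
      rw [s5_cube, s5_one]
      ext
      · show (-1 / 2 : K) ^ 3 + 3 * δ * (-1 / 2) * (-3 * y / (2 * δ * e)) ^ 2 = 1
        linear_combination (-3 / 2) * hb
      · show 3 * (-1 / 2 : K) ^ 2 * (-3 * y / (2 * δ * e)) + δ * (-3 * y / (2 * δ * e)) ^ 3 = 0
        linear_combination (-3 * y / (2 * δ * e)) * hb
    · simp only [rho, iso, if_neg hx, dif_neg hx, zq]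
      rw [s5_cube]
      ext
      · show (y / x) ^ 3 + 3 * δ * (y / x) * (-e / x) ^ 2 = y * (x ^ 3 - 8 * k) / x ^ 3
        field_simp
        linear_combination y * hy + 3 * y * h1
      · show 3 * (y / x) ^ 2 * (-e / x) + δ * (-e / x) ^ 3 = -(3 * e)
        field_simp
        linear_combination -3 * hy - h1

theorem rho_ptW {K L : Type} [Field K] [Field L] (f : K →+* L) {δ e k : K} {δ' e' k' : L}
    (hδ : f δ = δ') (he : f e = e') (hk : f k = k') (P : (W k).toAffine.Point) :
    rho δ' e' (ptW f hk P) = mapQ f hδ (rho δ e P) := by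
  cases P with
  | zero => simp only [rho, ptW, map_one]
  | some x y h =>
    by_cases hx : x = 0
    · have hx' : f x = 0 := by rw [hx, map_zero]
      simp only [rho, ptW, if_pos hx, if_pos hx']
      rw [mapQ_apply]
      simp only [map_div₀, map_mul, map_neg, map_one, map_ofNat, hδ, he]
    · have hx' : f x ≠ 0 := by rw [Ne, map_eq_zero]; exact hx
      simp only [rho, ptW, if_neg hx, if_neg hx']
      rw [mapQ_apply]
      simp only [map_div₀, map_neg, he]

theorem ker_ptW {K L : Type} [Field K] [Field L] (f : K →+* L) {k : K} {k' : L} (hk : f k = k')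
    (P : (W k).toAffine.Point) : Ker (ptW f hk P) ↔ Ker P := by
  cases P with
  | zero => simp only [Ker, ptW]
  | some x y h => simp only [Ker, ptW, map_eq_zero]

theorem rho_ker_cube {K : Type} [Field K] [CharZero K] {k δ e : K} (hd : Dat k δ e)
    (T : (W k).toAffine.Point) (hT : Ker T) : rho δ e T ^ 3 = 1 := by
  rw [rho_cube hd]
  cases T with
  | zero => simp only [iso, zq]
  | some x y h =>
    have hx : x = 0 := hT
    simp only [iso, dif_pos hx, zq]

theorem rho_ker_norm {K : Type} [Field K] [CharZero K] {k δ e : K} (hd : Dat k δ e)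
    (T : (W k).toAffine.Point) (hT : Ker T) : (rho δ e T).norm = 1 := by
  cases T with
  | zero => simp only [rho]; exact QuadraticAlgebra.norm_one
  | some x y h =>
    have hx : x = 0 := hT
    have hy := (W_nonsingular hd.ne x y).1 h
    have hy' : y ^ 2 = k := by rw [hy, hx]; ring
    have hb := s5_b hd hy'
    simp only [rho, if_pos hx]
    rw [QuadraticAlgebra.norm_def]
    show (-1 / 2 : K) * (-1 / 2) + 0 * (-1 / 2) * (-3 * y / (2 * δ * e)) -
      δ * (-3 * y / (2 * δ * e)) * (-3 * y / (2 * δ * e)) = 1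
    linear_combination -hb

theorem rho_ker_inj {K : Type} [Field K] [CharZero K] {k δ e : K} (hd : Dat k δ e)
    (T T' : (W k).toAffine.Point) (hT : Ker T) (hT' : Ker T') (h : rho δ e T = rho δ e T') :
    T = T' := by
  obtain ⟨h1, h2, h3, h4⟩ := s5_casts hd
  cases T with
  | zero =>
    cases T' with
    | zero => rfl
    | some x' y' h' =>
      have hx' : x' = 0 := hT'
      simp only [rho, if_pos hx', s5_one] at h
      have h5 := congrArg QuadraticAlgebra.re h
      norm_num at h5
  | some x y h' =>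
    have hx : x = 0 := hT
    cases T' with
    | zero =>
      simp only [rho, if_pos hx, s5_one] at h
      have h5 := congrArg QuadraticAlgebra.re h
      norm_num at h5
    | some x' y' h'' =>
      have hx' : x' = 0 := hT'
      simp only [rho, if_pos hx, if_pos hx'] at h
      have h5 : -3 * y / (2 * δ * e) = -3 * y' / (2 * δ * e) := congrArg QuadraticAlgebra.im h
      have h6 : y = y' := by
        field_simp at h5
        linear_combination -h5
      subst hx hx' h6
      rfl

/-- A cube root of unity of norm one is the value of `ρ` at a point of the kernel. -/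
theorem exists_ker {K : Type} [Field K] [CharZero K] {k δ e : K} (hd : Dat k δ e)
    (a : Q2 δ) (h3 : a ^ 3 = 1) (hn : a.norm = 1) :
    ∃ T : (W k).toAffine.Point, Ker T ∧ rho δ e T = a := by
  obtain ⟨h1, h2, h3', h4⟩ := s5_casts hd
  obtain ⟨p, q⟩ := a
  rw [s5_cube, s5_one] at h3
  have e1 : p ^ 3 + 3 * δ * p * q ^ 2 = 1 := congrArg QuadraticAlgebra.re h3
  have e2 : 3 * p ^ 2 * q + δ * q ^ 3 = 0 := congrArg QuadraticAlgebra.im h3
  rw [QuadraticAlgebra.norm_def] at hn
  have e3 : p * p + 0 * p * q - δ * q * q = 1 := hn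
  have e4 : (p - 1) * (2 * p + 1) ^ 2 = 0 := by
    linear_combination e1 + 3 * p * e3
  have e5 : q * (4 * p ^ 2 - 1) = 0 := by
    linear_combination e2 + q * e3
  rcases mul_eq_zero.1 e4 with h | h
  · have hp : p = 1 := by linear_combination h
    have hq : q = 0 := by
      have h6 : (3 : K) * q = 0 := by rw [hp] at e5; linear_combination e5
      exact (mul_eq_zero.1 h6).resolve_left (by norm_num)
    refine ⟨.zero, trivial, ?_⟩
    simp only [rho, s5_one, hp, hq]
  · have hp : p = -1 / 2 := by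
      have h6 := pow_eq_zero_iff (two_ne_zero) |>.1 h
      linear_combination h6 / 2
    have hy : (-2 * δ * e * q / 3) ^ 2 = k := by
      rw [hp] at e3
      linear_combination (4 / 9 * δ * q ^ 2) * h1 + (4 / 3 * k) * e3
    refine ⟨.some 0 (-2 * δ * e * q / 3) ((W_nonsingular hd.ne _ _).2 (by rw [hy]; ring)), rfl, ?_⟩
    simp only [rho, if_true]
    ext
    · exact hp.symm
    · show -3 * (-2 * δ * e * q / 3) / (2 * δ * e) = q
      field_simp

end THF
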