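import Pool.Agent.MP_9ab903_nt.TH.F5

/-!
# [NG3-F9] the class in `F(√δ)` (port of S3/S9)
-/

set_option autoImplicit false

open NumberField IsDedekindDomain
open scoped Classical

namespace THF

theorem fixed_mapQ (F L : Type) [Field F] [Field L] [Algebra F L] [IsGalois F L] {δ : F}
    (z : Q2 (algebraMap F L δ))
    (h : ∀ σ : L ≃ₐ[F] L, mapQ (σ : L →+* L) (gal_comm σ δ) z = z) :
    ∃ z0 : Q2 δ, mapQ (algebraMap F L) rfl z0 = z := by
  have key : ∀ σ : L ≃ₐ[F] L, σ z.re = z.re ∧ σ z.im = z.im := by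
    intro σ
    have h1 := h σ
    rw [mapQ_apply] at h1
    exact ⟨congrArg QuadraticAlgebra.re h1, congrArg QuadraticAlgebra.im h1⟩
  obtain ⟨a0, ha⟩ := (InfiniteGalois.mem_range_algebraMap_iff_fixed (k := F) z.re).2
    (fun σ => (key σ).1)
  obtain ⟨b0, hb⟩ := (InfiniteGalois.mem_range_algebraMap_iff_fixed (k := F) z.im).2
    (fun σ => (key σ).2)
  refine ⟨⟨a0, b0⟩, ?_⟩
  rw [mapQ_apply]
  exact QuadraticAlgebra.ext ha hb

/-- a point fixed by the Galois group is defined over the base field -/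
theorem fixed_ptW (F L : Type) [Field F] [Field L] [Algebra F L] [IsGalois F L] {k : F}
    (P : (W (algebraMap F L k)).toAffine.Point)
    (h : ∀ σ : L ≃ₐ[F] L, ptW (σ : L →+* L) (gal_comm σ k) P = P) :
    ∃ P0 : (W k).toAffine.Point, ptW (algebraMap F L) rfl P0 = P := by
  rcases P with _ | ⟨x, y, hxy⟩
  · exact ⟨0, rfl⟩
  · have hx : ∀ σ : L ≃ₐ[F] L, σ x = x ∧ σ y = y := by
      intro σ
      have h1 := h σ
      simp only [ptW, WeierstrassCurve.Affine.Point.some.injEq] at h1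
      exact h1
    obtain ⟨x0, hx0⟩ := (InfiniteGalois.mem_range_algebraMap_iff_fixed (k := F) x).2
      fun σ => (hx σ).1
    obtain ⟨y0, hy0⟩ := (InfiniteGalois.mem_range_algebraMap_iff_fixed (k := F) y).2
      fun σ => (hx σ).2
    have hns : (W k).toAffine.Nonsingular x0 y0 := by
      have h2 : ((W k).toAffine.map (algebraMap F L)) = (W (algebraMap F L k)).toAffine :=
        W_map _ rfl
      rw [← WeierstrassCurve.Affine.map_nonsingular (W k).toAffine
        (algebraMap F L).injective x0 y0, h2, hx0, hy0]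
      exact hxy
    refine ⟨.some x0 y0 hns, ?_⟩
    simp only [ptW, WeierstrassCurve.Affine.Point.some.injEq]
    exact ⟨hx0, hy0⟩

theorem exists_class {F L : Type} [Field F] [CharZero F] [Field L]
    [Algebra F L] [IsAlgClosure F L] {k δ e : F} (hd : Dat k δ e)
    (c : (L ≃ₐ[F] L) → (W (algebraMap F L k)).toAffine.Point)
    (hK : ∀ σ, Ker (c σ)) (S : Q2 (algebraMap F L δ)) (hS : IsUnit S)
    (h : ∀ σ : L ≃ₐ[F] L, mapQ (σ : L →+* L) (gal_comm σ δ) S =
      rho (algebraMap F L δ) (algebraMap F L e) (c σ) * S) :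
    ∃ z : Q2 δ, z ≠ 0 ∧ (∃ n : F, z.norm = n ^ 3) ∧ mapQ (algebraMap F L) rfl z = S ^ 3 := by
  have hchar : CharZero L := charZero_of_injective_algebraMap (algebraMap F L).injective
  have halg : Algebra.IsAlgebraic F L := IsAlgClosure.isAlgebraic
  have hnormal : Normal F L := IsAlgClosure.normal F L
  have hgal : IsGalois F L := ⟨⟩
  have hdL := hd.map (algebraMap F L)
  obtain ⟨z, hz⟩ := fixed_mapQ F L (S ^ 3) (fun σ => by
    rw [map_pow, h σ, mul_pow, rho_ker_cube hdL _ (hK σ), one_mul])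
  obtain ⟨n, hn⟩ := (InfiniteGalois.mem_range_algebraMap_iff_fixed (k := F) S.norm).2
    (fun σ => by
      have h1 := norm_mapQ (σ : L →+* L) (gal_comm σ δ) S
      rw [h σ, map_mul, rho_ker_norm hdL _ (hK σ), one_mul] at h1
      exact h1.symm)
  refine ⟨z, ?_, ⟨n, ?_⟩, hz⟩
  · rintro rfl
    rw [map_zero] at hz
    have h1 : (S ^ 3).norm ≠ 0 := (isUnit_iff_norm _).1 (hS.pow 3)
    apply h1
    rw [← hz, QuadraticAlgebra.norm_zero]
  · apply (algebraMap F L).injective
    rw [← norm_mapQ (algebraMap F L) rfl, hz, map_pow, map_pow, hn]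

end THF
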