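import Pool.Agent.MP_9ab903_nt.RS.TA5
import Pool.Agent.MP_9ab903_nt.TH.Defs
import Pool.Agent.MP_9ab903_nt.CF3.K5

/-!
# [NG3-FA] The archimedean periods of `Ep o`
-/

set_option autoImplicit false

open NumberField IsDedekindDomain
open CM27 CMT
open scoped Classical

namespace THF

theorem fa_re_im (o : ℂ) (ho : o ^ 2 + o + 1 = 0) : o.re = -1 / 2 ∧ o.im ^ 2 = 3 / 4 := by
  have h1 := congrArg Complex.re ho
  have h2 := congrArg Complex.im ho
  simp only [pow_two, Complex.add_re, Complex.mul_re, Complex.one_re, Complex.zero_re,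
    Complex.add_im, Complex.mul_im, Complex.one_im, Complex.zero_im] at h1 h2
  have h3 : o.im * (2 * o.re + 1) = 0 := by linarith
  rcases mul_eq_zero.1 h3 with h4 | h4
  · exfalso
    rw [h4] at h1
    nlinarith [sq_nonneg (2 * o.re + 1)]
  · have h5 : o.re = -1 / 2 := by linarith
    refine ⟨h5, ?_⟩
    rw [h5] at h1
    nlinarith

theorem fa_norm (o : ℂ) (ho : o ^ 2 + o + 1 = 0) : ‖o - 4‖ ^ 2 = 21 := by
  obtain ⟨h1, h2⟩ := fa_re_im o ho
  rw [← Complex.normSq_eq_norm_sq, Complex.normSq_apply]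
  have e1 : (o - 4 : ℂ).re = o.re - 4 := by simp
  have e2 : (o - 4 : ℂ).im = o.im := by simp
  rw [e1, e2, h1]
  nlinarith

/-- [FA1] PROOF. `SBSD.cubic (Ep o) x = 4 x³ + b₂ x² + 2 b₄ x + b₆ = 4 (x + 1/λ)³ + c`, `λ = 1 - o`,
`c = o - 4 / λ³` (`3 = (2 + o) λ`, `3 = (1 + o) λ²`; `b₂ = 4 (2 + o)`, `b₄ = 2 (1 + o)`, `b₆ = o⁴ = o`).
By translation (`MeasureTheory.integral_add_right_eq_self` or `integral_sub_right_eq_self`) the area is
that of `Wt ε`, `4 ε + 1 = c = δ³` (`δ` a cube root in `ℂ`: `IsAlgClosed.exists_pow_nat_eq`); `2 area =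
OmCC / ‖δ‖` (`CMT.complexArea_Wt`, MP_dfae13_nt/T/J6.lean), `OmCC = √3 * Om ^ 2` (`OmCC_eq`, used in RS/TA5.lean).
`λ³ = -3 (1 + 2 o)`, `c = -(3 o + 2) / (3 (1 + 2 o))`; `‖3 o + 2‖² = 7`, `‖1 + 2 o‖² = 3`
(`o = (-1 ± √-3)/2`, or: `o + conj o = -1`, `o * conj o = 1`), so `‖δ‖⁶ = ‖c‖² = 7 / 27`, and
`(√3 Om² / ‖δ‖)⁶ = 27 Om¹² * 27 / 7`. -/
theorem area_Ep (o : ℂ) (ho : o ^ 2 + o + 1 = 0) :
    0 < 2 * SBSD.complexArea (TH.Ep o) ∧
      7 * (2 * SBSD.complexArea (TH.Ep o)) ^ 6 = 729 * Om ^ 12 := by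
  have hO := Om_pos
  have hn1 := fa_norm o ho
  have h32 : (o - 4 : ℂ) ≠ 0 := by
    intro h
    rw [h, norm_zero] at hn1
    norm_num at hn1
  set c : ℂ := (o - 4) / 9 with hc
  have hc0 : c ≠ 0 := div_ne_zero h32 (by norm_num)
  have hcn : ‖c‖ ^ 2 = 7 / 27 := by
    rw [hc, norm_div, div_pow, hn1, Complex.norm_ofNat]
    norm_num
  obtain ⟨δ, hδ⟩ := IsAlgClosed.exists_pow_nat_eq c (n := 3) (by norm_num)
  have hδ0 : δ ≠ 0 := by
    rintro rfl
    apply hc0
    rw [← hδ]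
    ring
  have hδn : ‖δ‖ ^ 6 = 7 / 27 := by
    rw [← hcn, ← hδ, norm_pow]
    ring
  have h1 := complexArea_Wt ((c - 1) / 4) δ hδ0 (by rw [hδ]; ring)
  have h2 : SBSD.complexArea (TH.Ep o) = SBSD.complexArea (Wt ((c - 1) / 4)) := by
    unfold SBSD.complexArea
    have h3 := MeasureTheory.integral_add_right_eq_self (μ := MeasureTheory.volume)
      (fun x : ℂ => 2 / ‖SBSD.cubic (Wt ((c - 1) / 4)) x‖) ((2 + o) / 3)
    rw [← h3]
    have h4 : ∀ x : ℂ, SBSD.cubic (TH.Ep o) x =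
        SBSD.cubic (Wt ((c - 1) / 4)) (x + (2 + o) / 3) := by
      intro x
      simp only [SBSD.cubic, TH.Ep, Wt, WeierstrassCurve.b₂, WeierstrassCurve.b₄,
        WeierstrassCurve.b₆, hc]
      linear_combination (o ^ 2 - o - (4 / 27) * (o + 5) - 4 / 3 * x) * ho
    simp only [h4]
  have hOm : OmCC = √3 * Om ^ 2 := OmCC_eq
  have hn : (0 : ℝ) < ‖δ‖ := norm_pos_iff.2 hδ0
  rw [h2, h1, hOm]
  refine ⟨by positivity, ?_⟩
  have h3 : (√3 : ℝ) ^ 6 = 27 := by
    have : (√3 : ℝ) ^ 6 = ((√3 : ℝ) ^ 2) ^ 3 := by ring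
    rw [this, Real.sq_sqrt (by norm_num)]
    norm_num
  rw [div_pow, mul_pow, h3, hδn]
  ring

/-- [FA2] PROOF. All places of `F` are complex (as in `CF.arch_tw`, CF3/K5.lean); `archPeriod` at `v` is
`2 * complexArea (Ep (v.embedding o))` (`(Ep o).map f = Ep (f o)`), which is `c` by FA1 (both are
positive with the same sixth power). There are `n` places: `finrank = 2 * nrComplexPlaces`
(`InfinitePlace.card_add_two_mul_card_eq_rank`). -/
theorem arch_Ep {F : Type} [Field F] [NumberField F] (o : F) (ho : o ^ 2 + o + 1 = 0) (c : ℝ)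
    (hc : 0 < c) (hc6 : 7 * c ^ 6 = 729 * Om ^ 12) (n : ℕ) (hn : Module.finrank ℚ F = 2 * n) :
    ∏ v : InfinitePlace F, SBSD.archPeriod (TH.Ep o) v = c ^ n := by
  have hreal : ∀ v : InfinitePlace F, ¬ v.IsReal := by
    intro v hv
    have h1 : (InfinitePlace.embedding_of_isReal hv) o ^ 2 +
        (InfinitePlace.embedding_of_isReal hv) o + 1 = 0 := by
      rw [← map_pow, ← map_add, ← map_one (InfinitePlace.embedding_of_isReal hv), ← map_add, ho,
        map_zero]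
    nlinarith [sq_nonneg (2 * (InfinitePlace.embedding_of_isReal hv) o + 1)]
  have harch : ∀ v : InfinitePlace F, SBSD.archPeriod (TH.Ep o) v = c := by
    intro v
    have hv : (v.embedding o) ^ 2 + v.embedding o + 1 = 0 := by
      rw [← map_pow, ← map_add, ← map_one v.embedding, ← map_add, ho, map_zero]
    have hmap : (TH.Ep o).map v.embedding = TH.Ep (v.embedding o) := by
      have h2 : v.embedding 2 = 2 := map_ofNat _ 2
      ext <;> simp [TH.Ep, WeierstrassCurve.map, h2]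
    obtain ⟨h1, h2⟩ := area_Ep _ hv
    unfold SBSD.archPeriod
    rw [dif_neg (hreal v), hmap]
    have h3 : (2 * SBSD.complexArea (TH.Ep (v.embedding o))) ^ 6 = c ^ 6 := by linarith
    exact (pow_left_inj₀ h1.le hc.le (by norm_num)).1 h3
  have hcard : Fintype.card (InfinitePlace F) = n := by
    have h1 := InfinitePlace.card_add_two_mul_card_eq_rank F
    have h2 : InfinitePlace.nrRealPlaces F = 0 := by
      rw [InfinitePlace.nrRealPlaces, Fintype.card_eq_zero_iff]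
      exact ⟨fun v => hreal v.1 v.2⟩
    have h3 := InfinitePlace.card_eq_nrRealPlaces_add_nrComplexPlaces F
    omega
  simp only [harch]
  rw [Finset.prod_const, Finset.card_univ, hcard]

end THF
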