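import Pool.Agent.MP_9ab903_nt.TH.F0
import Pool.Agent.MP_ae0bd0_nt.B3.Q9

/-!
# [NG3-FB1] `ω - 4` is not a square in `K = ℚ(ω)` and in the extensions of odd degree
-/

set_option autoImplicit false

open NumberField IsDedekindDomain
open scoped Classical

namespace THF

/-- the unit `θ = (ω² + √(ω - 4)) / 2` of `K(√(ω - 4))`; `θ² - ω² θ + 1 = 0`, norm `1` -/
noncomputable def theta {F : Type} [Field F] (o : F) : Q2 (o - 4) := ⟨o ^ 2 / 2, 1 / 2⟩

/-- [FB1a] PROOF. `θ² = ((ω⁴ + (ω - 4)) / 4, ω² / 2)`, `ω⁴ = ω`, `(2 ω - 4)/4 - ω⁴ / 2 + 1 = 0`. -/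
theorem theta_quad {F : Type} [Field F] [CharZero F] (o : F) (ho : o ^ 2 + o + 1 = 0) :
    theta o ^ 2 - algebraMap F (Q2 (o - 4)) (o ^ 2) * theta o + 1 = 0 := by
  have h3 : o ^ 3 = 1 := by linear_combination (o - 1) * ho
  rw [algebraMap_Q2]
  apply QuadraticAlgebra.ext
  · rw [pow_two]
    simp only [theta, QuadraticAlgebra.re_add, QuadraticAlgebra.re_sub, QuadraticAlgebra.re_mul,
      QuadraticAlgebra.re_one, QuadraticAlgebra.re_zero]
    linear_combination (-(1 / 4) * o) * h3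
  · rw [pow_two]
    simp only [theta, QuadraticAlgebra.im_add, QuadraticAlgebra.im_sub, QuadraticAlgebra.im_mul,
      QuadraticAlgebra.im_one, QuadraticAlgebra.im_zero]
    ring

theorem theta_norm {F : Type} [Field F] [CharZero F] (o : F) (ho : o ^ 2 + o + 1 = 0) :
    (theta o).norm = 1 := by
  have h3 : o ^ 3 = 1 := by linear_combination (o - 1) * ho
  rw [QuadraticAlgebra.norm_def]
  simp only [theta]
  linear_combination ((1 / 4) * o) * h3

theorem mapQ_theta {K L : Type} [Field K] [Field L] (f : K →+* L) (o : K) {o' : L} (h : f o = o')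
    (h' : f (o - 4) = o' - 4) : mapQ f h' (theta o) = theta o' := by
  rw [mapQ_apply]
  simp only [theta, map_div₀, map_pow, h, map_ofNat, map_one]

theorem fb1_finrank (K : Type) [Field K] [NumberField K] [IsCyclotomicExtension {3} ℚ K] :
    Module.finrank ℚ K = 2 ^ 1 := by
  rw [IsCyclotomicExtension.Rat.finrank 3 K, Nat.totient_prime (by norm_num)]
  norm_num

/-- [FB1b] PROOF. An element of `K` is `a + b o`, `a b ∈ ℚ` (`finrank ℚ K = 2`, see
`CMT.i8_finrank`; `o ∉ ℚ`). `(a + b o)² = (a² - b²) + (2 a b - b²) o = -4 + o` gives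
`a² - b² = -4`, `b (2 a - b) = 1`, hence `21 = N(o - 4) = (a² - a b + b²)²`, which is impossible as
`21` is not a square in `ℚ`. -/
theorem base_nonsq (K : Type) [Field K] [NumberField K] [IsCyclotomicExtension {3} ℚ K] (o : K)
    (ho : o ^ 2 + o + 1 = 0) : NonSq (o - 4) := by
  rw [nonSq_iff]
  intro r hr
  have hfr : Module.finrank ℚ K = 2 := by
    rw [fb1_finrank K]
    norm_num
  have hrat : ∀ q : ℚ, (q : K) ≠ o := by
    intro q hq
    rw [← hq] at ho
    have h1 : q ^ 2 + q + 1 = 0 := by exact_mod_cast ho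
    nlinarith [sq_nonneg (q + 1 / 2)]
  have hind : ∀ s t : ℚ, (s : K) + (t : K) * o = 0 → s = 0 ∧ t = 0 := by
    intro s t h
    by_cases ht : t = 0
    · subst ht
      rw [Rat.cast_zero, zero_mul, add_zero, Rat.cast_eq_zero] at h
      exact ⟨h, rfl⟩
    · exfalso
      apply hrat (-s / t)
      have ht' : (t : K) ≠ 0 := by exact_mod_cast ht
      rw [Rat.cast_div, Rat.cast_neg, div_eq_iff ht']
      linear_combination -h
  have hli : LinearIndependent ℚ ![(1 : K), o] := by
    rw [LinearIndependent.pair_iff]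
    intro s t h
    apply hind
    rw [Rat.smul_def, Rat.smul_def, mul_one] at h
    exact h
  have hspan := hli.span_eq_top_of_card_eq_finrank (by rw [hfr]; rfl)
  have hr1 : r ∈ Submodule.span ℚ (Set.range ![(1 : K), o]) := hspan ▸ Submodule.mem_top
  rw [Matrix.range_cons, Matrix.range_cons, Matrix.range_empty, Set.union_empty,
    Set.singleton_union, Submodule.mem_span_pair] at hr1
  obtain ⟨a, b, hab⟩ := hr1
  rw [Rat.smul_def, Rat.smul_def, mul_one] at hab
  have h1 := hind (a ^ 2 - b ^ 2 + 4) (2 * a * b - b ^ 2 - 1) (by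
    push_cast
    rw [← hab] at hr
    linear_combination hr - (b : K) ^ 2 * ho)
  have h2 : (a ^ 2 - a * b + b ^ 2) * (a ^ 2 - a * b + b ^ 2) = ((21 : ℕ) : ℚ) := by
    push_cast
    have e1 : a ^ 2 - b ^ 2 = -4 := by linear_combination h1.1
    have e2 : 2 * a * b - b ^ 2 = 1 := by linear_combination h1.2
    have e3 : (a ^ 2 - a * b + b ^ 2) * (a ^ 2 - a * b + b ^ 2) =
        (a ^ 2 - b ^ 2) ^ 2 - (a ^ 2 - b ^ 2) * (2 * a * b - b ^ 2) + (2 * a * b - b ^ 2) ^ 2 := by
      ring
    rw [e3, e1, e2]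
    norm_num
  have h3 : IsSquare ((21 : ℕ) : ℚ) := ⟨_, h2.symm⟩
  rw [Rat.isSquare_natCast_iff] at h3
  obtain ⟨n, hn⟩ := h3
  have h4 : n < 5 := by
    by_contra hcon
    rw [not_lt] at hcon
    have := Nat.mul_le_mul hcon hcon
    omega
  interval_cases n <;> omega

/-- [FB1c] PROOF. If `r² = δ` in `M` and `r ∉ K`, then `K(r)` has degree `2` over `K`
(`minpoly K r = X² - δ`) and `2 ∣ 3 ^ m` (`IntermediateField.finrank_mul_finrank` or
`minpoly.natDegree_dvd`). -/
theorem nonSq_up {K M : Type} [Field K] [NumberField K] [Field M] [NumberField M] [Algebra K M]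
    (m : ℕ) (hm : Module.finrank K M = 3 ^ m) (δ : K) (h : NonSq δ) :
    NonSq (algebraMap K M δ) := by
  rw [nonSq_iff] at h ⊢
  intro r hr
  have hirr : Irreducible (Polynomial.X ^ 2 - Polynomial.C δ : Polynomial K) := by
    apply X_pow_sub_C_irreducible_of_prime Nat.prime_two
    intro s hs
    exact h s hs
  have hmin := minpoly.eq_of_irreducible_of_monic hirr (x := r) (by
    rw [map_sub, map_pow, Polynomial.aeval_X, Polynomial.aeval_C, hr, sub_self])
    (Polynomial.monic_X_pow_sub_C δ two_ne_zero)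
  have hdeg : (minpoly K r).natDegree = 2 := by
    rw [← hmin]
    exact Polynomial.natDegree_X_pow_sub_C
  have hdvd := minpoly.degree_dvd (K := K) (Algebra.IsIntegral.isIntegral r)
  rw [hdeg, hm] at hdvd
  have h5 := (Nat.prime_two).dvd_of_dvd_pow hdvd
  omega

/-- [FB1d] `K = ℚ(ω)` contains no primitive ninth root of unity. PROOF. `c ^ 3 = o ^ i`, `i = 1, 2`:
`c` is a primitive ninth root of unity (`orderOf c = 9`), so `finrank ℚ ℚ(c) = φ 9 = 6` divides
`finrank ℚ K = 2`. Or: `IsPrimitiveRoot.totient_le_degree_minpoly`. -/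
theorem no_ninth (K : Type) [Field K] [NumberField K] [IsCyclotomicExtension {3} ℚ K] (o : K)
    (ho : o ^ 2 + o + 1 = 0) (i : ℕ) (hi : i = 1 ∨ i = 2) (c : K) : c ^ 3 ≠ o ^ i := by
  intro hc
  have h3 : o ^ 3 = 1 := by linear_combination (o - 1) * ho
  have ho1 : o ≠ 1 := by
    rintro rfl
    norm_num at ho
  have ho2 : o ^ 2 ≠ 1 := by
    intro h
    apply ho1
    calc o = o ^ 2 * o := by rw [h, one_mul]
      _ = 1 := by rw [← pow_succ, h3]
  have hc3 : ¬ c ^ 3 ^ 1 = 1 := by
    rw [pow_one, hc]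
    rcases hi with rfl | rfl
    · rwa [pow_one]
    · exact ho2
  have hc9 : c ^ 3 ^ (1 + 1) = 1 := by
    have e : 3 ^ (1 + 1) = 3 * 3 := by norm_num
    rw [e, pow_mul, hc, ← pow_mul, mul_comm, pow_mul, h3, one_pow]
  haveI : Fact (Nat.Prime 3) := ⟨Nat.prime_three⟩
  have hord := orderOf_eq_prime_pow hc3 hc9
  have hprim := IsPrimitiveRoot.orderOf c
  rw [hord] at hprim
  have hcyc := Polynomial.cyclotomic_eq_minpoly_rat hprim (by norm_num)
  have hdeg : (minpoly ℚ c).natDegree = 6 := by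
    rw [← hcyc, Polynomial.natDegree_cyclotomic]
    decide
  have hdvd := minpoly.degree_dvd (K := ℚ) (Algebra.IsIntegral.isIntegral c)
  rw [hdeg, fb1_finrank K] at hdvd
  omega

/-- [FB1e] PROOF. `Module.finrank ℚ K = 2` (`CMT.i8_finrank`), `Module.finrank K (Q2 _) = 2`
(`QuadraticAlgebra.finrank_eq_two`). -/
theorem base_finrank (K : Type) [Field K] [NumberField K] [IsCyclotomicExtension {3} ℚ K] (o : K)
    [Fact (NonSq (o - 4))] : Module.finrank ℚ (Q2 (o - 4)) = 4 := by
  rw [← Module.finrank_mul_finrank ℚ K (Q2 (o - 4)), fb1_finrank K,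
    QuadraticAlgebra.finrank_eq_two]
  norm_num

end THF
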