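import Pool.Agent.MP_9ab903_nt.TH.FB2c

/-!
# [NG3-FB2] The class number of `K(√(ω - 4))` (discriminant `189`) is one
-/

set_option autoImplicit false

open NumberField IsDedekindDomain
open scoped Classical

namespace THF

section
variable (K : Type) [Field K] [NumberField K] [IsCyclotomicExtension {3} ℚ K] (o : K)
  (ho : o ^ 2 + o + 1 = 0) [Fact (NonSq (o - 4))]

include ho in
theorem fb2_root : (algebraMap K (Q2 (o - 4)) o) ^ 2 + algebraMap K (Q2 (o - 4)) o + 1 = 0 := by
  rw [← map_pow, ← map_add, ← map_one (algebraMap K (Q2 (o - 4))), ← map_add, ho, map_zero]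

include ho in
/-- [FB2b] no real places. PROOF. `ω` is not real: an embedding into `ℝ` would give `x² + x + 1 = 0`
with `x` real. Then `nrComplexPlaces = 2` from `card_add_two_mul_card_eq_rank`. -/
theorem base_places : InfinitePlace.nrRealPlaces (Q2 (o - 4)) = 0 ∧
    InfinitePlace.nrComplexPlaces (Q2 (o - 4)) = 2 := by
  have h1 : InfinitePlace.nrRealPlaces (Q2 (o - 4)) = 0 := by
    rw [← InfinitePlace.card_real_embeddings, Fintype.card_eq_zero_iff]
    refine ⟨fun φ => ?_⟩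
    obtain ⟨φ, hφ⟩ := φ
    have h2 := congrArg φ (fb2_root K o ho)
    rw [map_add, map_add, map_pow, map_one, map_zero] at h2
    have h3 : (starRingEnd ℂ) (φ (algebraMap K (Q2 (o - 4)) o)) =
        φ (algebraMap K (Q2 (o - 4)) o) := RingHom.congr_fun hφ _
    obtain ⟨r, hr⟩ := Complex.conj_eq_iff_real.1 h3
    rw [hr] at h2
    have h4 : r ^ 2 + r + 1 = 0 := by exact_mod_cast h2
    nlinarith [sq_nonneg (r + 1 / 2)]
  refine ⟨h1, ?_⟩
  have h2 := InfinitePlace.card_add_two_mul_card_eq_rank (Q2 (o - 4))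
  rw [h1, base_finrank K o] at h2
  omega

include ho in
/-- [FB2d] there is no ideal of norm `2`. PROOF. The quotient would be the field with two elements,
which contains no root of `x² + x + 1` (the image of `ω`). -/
theorem base_no_two (I : Ideal (𝓞 (Q2 (o - 4)))) : Ideal.absNorm I ≠ 2 := by
  intro hI
  rw [Ideal.absNorm_apply, Submodule.cardQuot_apply] at hI
  have hint : IsIntegral ℤ (algebraMap K (Q2 (o - 4)) o) := by
    refine ⟨Polynomial.X ^ 2 + Polynomial.X + 1, ?_, ?_⟩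
    · monicity!
    · have := fb2_root K o ho
      simpa [Polynomial.eval₂_add, Polynomial.eval₂_pow] using this
  let w : 𝓞 (Q2 (o - 4)) := ⟨_, hint⟩
  have hw : w ^ 2 + w + 1 = 0 := by
    apply RingOfIntegers.ext
    exact fb2_root K o ho
  have h1 := (Nat.card_eq_two_iff' (0 : 𝓞 (Q2 (o - 4)) ⧸ I)).1 hI
  obtain ⟨y, hy, huniq⟩ := h1
  have hone : (1 : 𝓞 (Q2 (o - 4)) ⧸ I) ≠ 0 := by
    intro h
    apply hy
    have : y = 1 * y := (one_mul y).symm
    rw [this, h, zero_mul]
  have h2 : ∀ z : 𝓞 (Q2 (o - 4)) ⧸ I, z ≠ 0 → z = 1 := fun z hz =>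
    (huniq z hz).trans (huniq 1 hone).symm
  set v : 𝓞 (Q2 (o - 4)) ⧸ I := Ideal.Quotient.mk I w with hv
  have hv1 : v ^ 2 + v + 1 = 0 := by
    rw [hv, ← map_pow, ← map_add, ← map_one (Ideal.Quotient.mk I), ← map_add, hw, map_zero]
  have hv0 : v ≠ 0 := by
    intro h
    rw [h] at hv1
    apply hone
    simpa using hv1
  have hv2 := h2 v hv0
  rw [hv2] at hv1
  have h3 : (1 + 1 : 𝓞 (Q2 (o - 4)) ⧸ I) = 0 := by
    by_contra h
    have := h2 _ h
    apply hone
    linear_combination this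
  apply hone
  linear_combination hv1 - h3

include ho in
/-- [FB2e] PROOF. Minkowski: by `NumberField.exists_ideal_in_class_of_norm_le` every ideal class
contains an ideal `I ≠ 0` with `absNorm I ≤ (4/π)² * (4!/4⁴) * √|discr| ≤ 2.0894..` (`√189 < 13.748`,
`π > 3.14`), hence `absNorm I ≤ 2`, so `absNorm I = 1` and `I = ⊤`
(`RingOfIntegers.isPrincipalIdealRing_of_abs_discr_lt` has the stronger hypothesis
`|discr| < (2 (π/4)² 4⁴/4!)² = 173.2..`, which is not satisfied; so one needs FB2d; see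
`isPrincipalIdealRing_of_isPrincipal_of_norm_le...` in
`Mathlib.NumberTheory.NumberField.ClassNumber`). -/
theorem base_pid : IsPrincipalIdealRing (𝓞 (Q2 (o - 4))) := by
  apply RingOfIntegers.isPrincipalIdealRing_of_isPrincipal_of_norm_le
  intro I hI
  rw [(base_places K o ho).2, base_finrank K o] at hI
  have hd := base_discr K o ho
  have hsq : Real.sqrt |(discr (Q2 (o - 4)) : ℝ)| ≤ 14 := by
    rw [show (14 : ℝ) = Real.sqrt 196 by
      rw [show (196 : ℝ) = 14 ^ 2 by norm_num, Real.sqrt_sq (by norm_num)]]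
    exact Real.sqrt_le_sqrt (hd.trans (by norm_num))
  have hpi : (3.14 : ℝ) < Real.pi := Real.pi_gt_d2
  have h1 : (4 / Real.pi) ≤ 1.28 := by
    rw [div_le_iff₀ Real.pi_pos]
    nlinarith
  have h2 : (4 / Real.pi) ^ 2 ≤ 1.64 := by
    have h0 : 0 ≤ 4 / Real.pi := by positivity
    nlinarith
  have h3 : ((Ideal.absNorm (I : Ideal (𝓞 (Q2 (o - 4)))) : ℕ) : ℝ) < 3 := by
    refine lt_of_le_of_lt hI ?_
    have e1 : ((Nat.factorial 4 : ℕ) : ℝ) / ((4 : ℕ) : ℝ) ^ 4 = 0.09375 := by
      norm_num [Nat.factorial]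
    rw [e1]
    have h4 : 0 ≤ Real.sqrt |(discr (Q2 (o - 4)) : ℝ)| := Real.sqrt_nonneg _
    calc (4 / Real.pi) ^ 2 * (0.09375 * Real.sqrt |(discr (Q2 (o - 4)) : ℝ)|)
        ≤ 1.64 * (0.09375 * 14) := by
          apply mul_le_mul h2 _ (by positivity) (by norm_num)
          linarith
      _ < 3 := by norm_num
  have h4 : Ideal.absNorm (I : Ideal (𝓞 (Q2 (o - 4)))) < 3 := by exact_mod_cast h3
  have h5 := base_no_two K o ho (I : Ideal (𝓞 (Q2 (o - 4))))
  have h6 := Ideal.absNorm_ne_zero_of_nonZeroDivisors I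
  have h7 : Ideal.absNorm (I : Ideal (𝓞 (Q2 (o - 4)))) = 1 := by omega
  rw [Ideal.absNorm_eq_one_iff.1 h7]
  exact top_isPrincipal

end

end THF
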