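import Pool.Agent.MP_9ab903_nt.TH.FB1

/-!
# [NG3-FB2c] The discriminant of `K(√(ω - 4))`
-/

set_option autoImplicit false

open NumberField IsDedekindDomain
open scoped Classical

namespace THF

section
variable (K : Type) [Field K] [NumberField K] [IsCyclotomicExtension {3} ℚ K] (o : K)
  (ho : o ^ 2 + o + 1 = 0) [Fact (NonSq (o - 4))]

omit [Fact (NonSq (o - 4))] in
include ho in
theorem fb2c_tro : Algebra.trace ℚ K o = -1 := by
  have ho3 : o ^ 3 = 1 := by linear_combination (o - 1) * ho
  have ho1 : o ≠ 1 := by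
    intro h
    rw [h] at ho
    norm_num at ho
  have hprim : IsPrimitiveRoot o 3 := by
    have h1 : orderOf o = 3 := orderOf_eq_prime ho3 ho1
    rw [← h1]
    exact IsPrimitiveRoot.orderOf o
  have h := (hprim.powerBasis ℚ).trace_gen_eq_nextCoeff_minpoly
  rw [IsPrimitiveRoot.powerBasis_gen,
    ← hprim.minpoly_eq_cyclotomic_of_irreducible (Polynomial.cyclotomic.irreducible_rat
      (by norm_num)), Polynomial.cyclotomic_three] at h
  rw [h]
  have h2 : (Polynomial.X ^ 2 + Polynomial.X + 1 : Polynomial ℚ).natDegree = 2 := by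
    compute_degree!
  rw [Polynomial.nextCoeff_of_natDegree_pos (by rw [h2]; norm_num), h2]
  simp [Polynomial.coeff_X, Polynomial.coeff_one]

theorem fb2c_tr1 : Algebra.trace ℚ K (1 : K) = 2 := by
  have h := Algebra.trace_algebraMap (R := ℚ) (S := K) 1
  rw [map_one, IsCyclotomicExtension.Rat.finrank 3 K, Nat.totient_prime (by norm_num)] at h
  rw [h]
  norm_num

omit [IsCyclotomicExtension {3} ℚ K] in
theorem fb2c_trA (y : K) : Algebra.trace ℚ (Q2 (o - 4)) (algebraMap K (Q2 (o - 4)) y) =
    2 * Algebra.trace ℚ K y := by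
  rw [← Algebra.trace_trace (S := K), Algebra.trace_algebraMap,
    QuadraticAlgebra.finrank_eq_two, map_nsmul]
  simp

include ho in
theorem fb2c_trL (x : Q2 (o - 4)) (a b : ℚ) (h : 2 * x.re = (a : K) + (b : K) * o) :
    Algebra.trace ℚ (Q2 (o - 4)) x = 2 * a - b := by
  set e : Q2 (o - 4) ≃ₐ[ℚ] Q2 (o - 4) := AlgEquiv.ofRingEquiv (f := starRingAut) (fun q => by
    simp) with he
  have h1 := Algebra.trace_eq_of_algEquiv e x
  have h2 : e x = star x := rfl
  rw [h2] at h1
  have h3 : x + star x = algebraMap K (Q2 (o - 4)) (2 * x.re) := by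
    ext
    · simp [two_mul]
    · simp
  have h4 := congrArg (Algebra.trace ℚ (Q2 (o - 4))) h3
  rw [map_add, h1, fb2c_trA, h] at h4
  have h5 : Algebra.trace ℚ K ((a : K) + (b : K) * o) = 2 * a - b := by
    have e1 : (a : K) + (b : K) * o = a • (1 : K) + b • o := by
      rw [Rat.smul_def, Rat.smul_def, mul_one]
    rw [e1, map_add, map_smul, map_smul, fb2c_tr1, fb2c_tro K o ho]
    simp only [smul_eq_mul]
    ring
  rw [h5] at h4
  linarith

include ho in
theorem fb2c_discr : Algebra.discr ℚ (![1, algebraMap K (Q2 (o - 4)) o, theta o,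
    algebraMap K (Q2 (o - 4)) o * theta o] : Fin 4 → Q2 (o - 4)) = 189 := by
  have ho3 : o ^ 3 = 1 := by linear_combination (o - 1) * ho
  have t11 : Algebra.trace ℚ (Q2 (o - 4)) (1 * 1) = 4 := by
    rw [fb2c_trL K o ho _ 2 0 (by
      rw [mul_one, QuadraticAlgebra.re_one]
      push_cast
      ring)]
    norm_num
  have t12 : Algebra.trace ℚ (Q2 (o - 4)) (1 * algebraMap K (Q2 (o - 4)) o) = -2 := by
    rw [fb2c_trL K o ho _ 0 2 (by simp)]
    norm_num
  have t13 : Algebra.trace ℚ (Q2 (o - 4)) (1 * theta o) = -1 := by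
    rw [fb2c_trL K o ho _ (-1) (-1) (by
      simp only [theta, one_mul]
      push_cast
      linear_combination ho)]
    norm_num
  have t14 : Algebra.trace ℚ (Q2 (o - 4)) (1 * (algebraMap K (Q2 (o - 4)) o * theta o)) = 2 := by
    rw [fb2c_trL K o ho _ 1 0 (by
      simp [theta]
      linear_combination ho3)]
    norm_num
  have t22 : Algebra.trace ℚ (Q2 (o - 4)) (algebraMap K (Q2 (o - 4)) o *
      algebraMap K (Q2 (o - 4)) o) = -2 := by
    rw [fb2c_trL K o ho _ (-2) (-2) (by
      simp
      linear_combination 2 * ho)]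
    norm_num
  have t23 : Algebra.trace ℚ (Q2 (o - 4)) (algebraMap K (Q2 (o - 4)) o * theta o) = 2 := by
    rw [← one_mul (algebraMap K (Q2 (o - 4)) o * theta o), t14]
  have t24 : Algebra.trace ℚ (Q2 (o - 4)) (algebraMap K (Q2 (o - 4)) o *
      (algebraMap K (Q2 (o - 4)) o * theta o)) = -1 := by
    rw [fb2c_trL K o ho _ 0 1 (by
      simp [theta]
      linear_combination o * ho3)]
    norm_num
  have t33 : Algebra.trace ℚ (Q2 (o - 4)) (theta o * theta o) = -5 := by
    rw [fb2c_trL K o ho _ (-2) 1 (by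
      simp [theta]
      linear_combination (o / 2) * ho3)]
    norm_num
  have t34 : Algebra.trace ℚ (Q2 (o - 4)) (theta o * (algebraMap K (Q2 (o - 4)) o * theta o)) =
      1 := by
    rw [fb2c_trL K o ho _ (-1) (-3) (by
      simp [theta]
      linear_combination (o ^ 2 / 2) * ho3 + ho)]
    norm_num
  have t44 : Algebra.trace ℚ (Q2 (o - 4)) (algebraMap K (Q2 (o - 4)) o * theta o *
      (algebraMap K (Q2 (o - 4)) o * theta o)) = 4 := by
    rw [fb2c_trL K o ho _ 3 2 (by
      simp [theta]
      linear_combination (o ^ 3 / 2 + 1) * ho3 - 2 * ho)]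
    norm_num
  rw [Algebra.discr_def]
  have hM : Algebra.traceMatrix ℚ (![1, algebraMap K (Q2 (o - 4)) o, theta o,
      algebraMap K (Q2 (o - 4)) o * theta o] : Fin 4 → Q2 (o - 4)) =
      !![4, -2, -1, 2; -2, -2, 2, -1; -1, 2, -5, 1; 2, -1, 1, 4] := by
    ext i j
    fin_cases i <;> fin_cases j <;>
      simp only [Algebra.traceMatrix_apply, Algebra.traceForm_apply]
    · exact t11
    · exact t12
    · exact t13
    · exact t14
    · exact (congrArg _ (mul_comm _ _)).trans t12
    · exact t22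
    · exact t23
    · exact t24
    · exact (congrArg _ (mul_comm _ _)).trans t13
    · exact (congrArg _ (mul_comm _ _)).trans t23
    · exact t33
    · exact t34
    · exact (congrArg _ (mul_comm _ _)).trans t14
    · exact (congrArg _ (mul_comm _ _)).trans t24
    · exact (congrArg _ (mul_comm _ _)).trans t34
    · exact t44
  rw [hM, Matrix.det_succ_row_zero]
  simp [Fin.sum_univ_succ, Matrix.det_fin_three, Fin.succAbove, Matrix.submatrix]
  norm_num

include ho in
/-- [FB2c] `|disc| ≤ 189`. PROOF. The elements `1, ω, θ, ω θ` (`θ² - ω² θ + 1 = 0`) are integral and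
form a basis `b` of `Q2 (o - 4)` over `ℚ`, `Algebra.discr ℚ b = 189` (the determinant of the matrix
of traces; `Tr(θ) = Tr_{K/ℚ}(ω²) = -1`, ...: the matrix `(Tr (b i * b j))` has integer entries).
Hence `189 = index² * discr` (`Algebra.discr_of_matrix_vecMul` with the integral matrix which
expresses `b` by an integral basis; cf. `BS3.q8a_abs_discr` in `MP_ae0bd0_nt/B3/Q8a.lean`), so
`|discr| ≤ 189`. An alternative for the computation of the discriminant of `b`: it is the product
`disc(K)^2 * N_{K/ℚ}(disc (θ))`, `disc (X² - ω² X + 1) = ω⁴ - 4 = ω - 4`,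
`3² * 21 = 189`; but the explicit `4 × 4` determinant is simpler (traces: `Tr 1 = 4`, `Tr ω = -2`,
`Tr θ = Tr_{K/ℚ} ω² = -1`, `Tr(ω θ) = Tr_{K/ℚ}(ω³) = 2`, `θ² = ω² θ - 1`, ...). -/
theorem base_discr : |(discr (Q2 (o - 4)) : ℝ)| ≤ 189 := by
  have hd := fb2c_discr K o ho
  set L := Q2 (o - 4) with hL
  have hfin : Module.finrank ℚ L = 4 := base_finrank K o
  set b := integralBasis L with hb
  have hcard : Fintype.card (Module.Free.ChooseBasisIndex ℤ (𝓞 L)) = Fintype.card (Fin 4) := by
    rw [← Module.finrank_eq_card_basis b, hfin, Fintype.card_fin]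
  set e := Fintype.equivOfCardEq hcard with he
  set b' := b.reindex e with hb'
  set b0 : Fin 4 → L := ![1, algebraMap K L o, theta o, algebraMap K L o * theta o] with hb0
  have h1 : Algebra.discr ℚ b0 = (b'.toMatrix b0).det ^ 2 * Algebra.discr ℚ b' := by
    rw [← Algebra.discr_of_matrix_vecMul, Module.Basis.toMatrix_map_vecMul]
  have h2' : Algebra.discr ℚ b' = (discr L : ℚ) := by
    rw [coe_discr, hb', Module.Basis.coe_reindex, Algebra.discr_reindex]
  have hoi : IsIntegral ℤ (algebraMap K L o) := by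
    have h : IsIntegral ℤ o := by
      refine ⟨Polynomial.X ^ 2 + Polynomial.X + 1, by monicity!, ?_⟩
      simpa using ho
    exact h.algebraMap
  have hthi : IsIntegral ℤ (theta o : L) := by
    have h := theta_quad o ho
    have h3 : IsIntegral ℤ (algebraMap K L (o ^ 2)) := by
      rw [map_pow]
      exact hoi.pow 2
    have h4 : IsIntegral (integralClosure ℤ L) (theta o : L) := by
      refine ⟨Polynomial.X ^ 2 - Polynomial.C (⟨algebraMap K L (o ^ 2), h3⟩ :
        integralClosure ℤ L) * Polynomial.X + 1, by monicity!, ?_⟩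
      simp only [Polynomial.eval₂_add, Polynomial.eval₂_sub, Polynomial.eval₂_mul,
        Polynomial.eval₂_pow, Polynomial.eval₂_X, Polynomial.eval₂_C, Polynomial.eval₂_one]
      exact h
    exact isIntegral_trans _ h4
  have h3 : ∃ Q : Matrix (Fin 4) (Fin 4) ℤ,
      b'.toMatrix b0 = Q.map (Int.castRingHom ℚ) := by
    have hint : ∀ j, IsIntegral ℤ (b0 j) := by
      intro j
      fin_cases j
      · exact isIntegral_one
      · exact hoi
      · exact hthi
      · exact hoi.mul hthi
    have hint' : ∀ j, ∃ x : 𝓞 L, algebraMap (𝓞 L) L x = b0 j := fun j =>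
      ⟨⟨b0 j, hint j⟩, rfl⟩
    choose x hx using hint'
    refine ⟨Matrix.of fun i j => (RingOfIntegers.basis L).repr (x j) (e.symm i), ?_⟩
    ext i j
    rw [Module.Basis.toMatrix_apply, Matrix.map_apply, Matrix.of_apply, hb',
      Module.Basis.repr_reindex_apply, ← hx j]
    exact integralBasis_repr_apply L (x j) (e.symm i)
  obtain ⟨Q, hQ⟩ := h3
  rw [hd, h2', hQ, show (Q.map (Int.castRingHom ℚ)).det = ((Q.det : ℤ) : ℚ) from
    (RingHom.map_det (Int.castRingHom ℚ) Q).symm] at h1
  have h4 : (189 : ℤ) = Q.det ^ 2 * discr L := by exact_mod_cast h1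
  have h5 : Q.det ≠ 0 := by
    intro h0
    rw [h0] at h4
    norm_num at h4
  have h6 : 1 ≤ Q.det ^ 2 := by
    have := sq_pos_of_pos (abs_pos.2 h5)
    rw [sq_abs] at this
    omega
  have h7 : (189 : ℤ) = Q.det ^ 2 * |discr L| := by
    have := congrArg abs h4
    rwa [abs_mul (Q.det ^ 2), abs_of_nonneg (sq_nonneg Q.det)] at this
  have h8 : |discr L| ≤ 189 := by nlinarith [abs_nonneg (discr L)]
  have h9 : ((|discr L| : ℤ) : ℝ) ≤ 189 := by exact_mod_cast h8
  rwa [Int.cast_abs] at h9

end

end THF
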