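import Pool.Agent.MP_9ab903_nt.TH.FB3a

/-!
# [NG3-FB3] The units of `K(√(ω - 4))` modulo cubes
-/

set_option autoImplicit false

open NumberField IsDedekindDomain
open scoped Classical

namespace THF

theorem fb3_om (K : Type) [Field K] [NumberField K] [IsCyclotomicExtension {3} ℚ K] :
    ∃ om : 𝓞 K, om ^ 2 + om + 1 = 0 ∧ ∀ a : 𝓞 K, ∃ m n : ℤ, a = m + n * om := by
  have hζ : IsPrimitiveRoot (IsCyclotomicExtension.zeta 3 ℚ K) 3 :=
    IsCyclotomicExtension.zeta_spec 3 ℚ K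
  have h1 := hζ.toInteger_isPrimitiveRoot
  have h2 : hζ.toInteger ^ 2 + hζ.toInteger + 1 = 0 := by
    have h3 : (hζ.toInteger - 1) * (hζ.toInteger ^ 2 + hζ.toInteger + 1) = 0 := by
      have h4 := h1.pow_eq_one
      linear_combination h4
    rcases mul_eq_zero.1 h3 with h | h
    · exact absurd (sub_eq_zero.1 h) (h1.ne_one (by norm_num))
    · exact h
  refine ⟨hζ.toInteger, h2, fun a => ?_⟩
  have ha : a ∈ Algebra.adjoin ℤ {hζ.toInteger} := by
    rw [IsCyclotomicExtension.Rat.adjoin_singleton_eq_top hζ]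
    trivial
  induction ha using Algebra.adjoin_induction with
  | mem x hx =>
    rw [Set.mem_singleton_iff] at hx
    exact ⟨0, 1, by rw [hx]; push_cast; ring⟩
  | algebraMap r => exact ⟨r, 0, by simp⟩
  | add x y _ _ hx hy =>
    obtain ⟨m, n, rfl⟩ := hx
    obtain ⟨m', n', rfl⟩ := hy
    exact ⟨m + m', n + n', by push_cast; ring⟩
  | mul x y _ _ hx hy =>
    obtain ⟨m, n, rfl⟩ := hx
    obtain ⟨m', n', rfl⟩ := hy
    refine ⟨m * m' - n * n', m * n' + n * m' - n * n', ?_⟩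
    push_cast
    linear_combination (n * n' : 𝓞 K) * h2

/-- the integers of `K = ℚ(ω)` in terms of a given root `o` -/
theorem fb3_basis (K : Type) [Field K] [NumberField K] [IsCyclotomicExtension {3} ℚ K] (o : K)
    (ho : o ^ 2 + o + 1 = 0) (x : K) (hx : IsIntegral ℤ x) : ∃ a b : ℤ, x = a + b * o := by
  obtain ⟨om, hom, hbas⟩ := fb3_om K
  obtain ⟨m, n, hmn⟩ := hbas ⟨x, hx⟩
  have h1 : x = m + n * (om : K) := by
    have h0 : algebraMap (𝓞 K) K ⟨x, hx⟩ = x := rfl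
    rw [← h0, hmn, map_add, map_mul, map_intCast, map_intCast]
  have h2 : (om : K) ^ 2 + om + 1 = 0 := by
    have h0 := congrArg (algebraMap (𝓞 K) K) hom
    rwa [map_add, map_add, map_pow, map_one, map_zero] at h0
  have h3 : ((om : K) - o) * (om + 1 + o) = 0 := by
    linear_combination h2 - ho
  rcases mul_eq_zero.1 h3 with h | h
  · exact ⟨m, n, by rw [h1, sub_eq_zero.1 h]⟩
  · refine ⟨m - n, -n, ?_⟩
    rw [h1]
    push_cast
    linear_combination (n : K) * h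

theorem fb3_indep {K : Type} [Field K] [CharZero K] {o : K} (ho : o ^ 2 + o + 1 = 0) {m n : ℤ}
    (h : (m : K) + n * o = 0) : n = 0 := by
  have h1 : ((m ^ 2 - m * n + n ^ 2 : ℤ) : K) = 0 := by
    push_cast
    linear_combination (m - n * o - n : K) * h + (n : K) ^ 2 * ho
  have h2 : m ^ 2 - m * n + n ^ 2 = 0 := by exact_mod_cast h1
  nlinarith [sq_nonneg (2 * m - n), sq_nonneg n, mul_self_nonneg n]

theorem fb3_pow_three {K : Type} [Field K] {o : K} (ho : o ^ 2 + o + 1 = 0) : o ^ 3 = 1 := by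
  linear_combination (o - 1) * ho

theorem fb3_pow_mod {K : Type} [Field K] {o : K} (ho : o ^ 2 + o + 1 = 0) (n : ℕ) :
    o ^ n = o ^ (n % 3) := by
  conv_lhs => rw [← Nat.div_add_mod n 3]
  rw [pow_add, pow_mul, fb3_pow_three ho, one_pow, one_mul]

/-- an `i` with `ω ^ i` a cube is divisible by `3` -/
theorem fb3_mod (K : Type) [Field K] [NumberField K] [IsCyclotomicExtension {3} ℚ K] (o : K)
    (ho : o ^ 2 + o + 1 = 0) {i : ℕ} {c : K} (h : c ^ 3 = o ^ i) : i % 3 = 0 := by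
  have h1 : c ^ 3 = o ^ (i % 3) := by rw [h]; exact fb3_pow_mod ho i
  have h2 : i % 3 = 0 ∨ i % 3 = 1 ∨ i % 3 = 2 := by omega
  rcases h2 with h2 | h2
  · exact h2
  · exact absurd h1 (no_ninth K o ho (i % 3) h2 c)

/-- no solution of the trace equations -/
theorem fb3_trace (K : Type) [Field K] [NumberField K] [IsCyclotomicExtension {3} ℚ K] (o : K)
    (ho : o ^ 2 + o + 1 = 0) (t : K) (e : ℤ) (he : ¬ (3 : ℤ) ∣ e) (f : ℤ)
    (h : t ^ 3 - 3 * t = f + e * o) : False := by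
  have hoI : IsIntegral ℤ o := by
    refine ⟨Polynomial.X ^ 2 + Polynomial.X + 1, by monicity!, ?_⟩
    simpa [Polynomial.eval₂_add, Polynomial.eval₂_pow] using ho
  have hrhs : IsIntegral ℤ ((f : K) + e * o) := by
    have h1 : IsIntegral ℤ (f : K) := by
      have := isIntegral_algebraMap (R := ℤ) (A := K) (x := f)
      simpa using this
    have h2 : IsIntegral ℤ (e : K) := by
      have := isIntegral_algebraMap (R := ℤ) (A := K) (x := e)
      simpa using this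
    exact h1.add (h2.mul hoI)
  have hint : IsIntegral ℤ t := by
    let c : 𝓞 K := ⟨_, hrhs⟩
    have hc : algebraMap (𝓞 K) K c = f + e * o := rfl
    have h3 : IsIntegral (𝓞 K) t := by
      refine ⟨Polynomial.X ^ 3 - Polynomial.C 3 * Polynomial.X - Polynomial.C c, by monicity!, ?_⟩
      simp only [Polynomial.eval₂_sub, Polynomial.eval₂_mul, Polynomial.eval₂_pow,
        Polynomial.eval₂_X, Polynomial.eval₂_C, hc, map_ofNat, Polynomial.eval₂_ofNat]
      rw [h, sub_self]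
    exact isIntegral_trans (R := ℤ) (A := 𝓞 K) t h3
  obtain ⟨a, b, rfl⟩ := fb3_basis K o ho t hint
  have h4 : ((a ^ 3 + b ^ 3 - 3 * a * b ^ 2 - 3 * a - f : ℤ) : K) +
      ((3 * (a ^ 2 * b - a * b ^ 2 - b) - e : ℤ) : K) * o = 0 := by
    push_cast
    linear_combination h - ((b : K) ^ 3 * (o - 1) + 3 * a * b ^ 2) * ho
  have h5 := fb3_indep ho h4
  apply he
  exact ⟨a ^ 2 * b - a * b ^ 2 - b, by linarith⟩

section
variable (K : Type) [Field K] [NumberField K] [IsCyclotomicExtension {3} ℚ K] (o : K)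
  (ho : o ^ 2 + o + 1 = 0) [Fact (NonSq (o - 4))]

include ho in
/-- [FB3b] `θ` is not `ω ^ i` times a cube. PROOF. Suppose `θ = ω ^ i s³` (or `θ² = ω ^ i s³`; then
`θ = ω ^ (2 i) (s² / θ)³`). Norms: `1 = ω ^ (2 i) N(s)³`, so `i = 0` mod `3` by `no_ninth` and we may
take `i = 0`. Let `s = x + y √δ`, `δ = ω - 4`, `N(s)³ = 1`. Let `v` be the place of `K` above `3`;
`v(δ) = exp (-1)`, `v(3) = exp (-2)` (`-δ = λ π`). `x² - δ y²` is a root of unity, so `v x = 1` and
`v y ≤ 1` (the valuations of `x²` and `δ y²` are different), and the `√δ`-coordinate of `s³`,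
`3 x² y + δ y³`, has valuation `< 1`, but the one of `θ` is `1/2`. -/
theorem theta_not_cube (i j : ℕ) (hj : j = 1 ∨ j = 2) (s : Q2 (o - 4)) :
    theta o ^ j ≠ algebraMap K (Q2 (o - 4)) (o ^ i) * s ^ 3 := by
  intro h
  have h3 : o ^ 3 = 1 := fb3_pow_three ho
  have hN := congrArg QuadraticAlgebra.norm h
  rw [map_pow QuadraticAlgebra.norm, map_mul QuadraticAlgebra.norm,
    map_pow QuadraticAlgebra.norm s, theta_norm o ho, one_pow,
    QuadraticAlgebra.norm_algebraMap] at hN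
  have hc : s.norm ^ 3 = o ^ i := by
    have h5 : (o ^ i) ^ 3 = 1 := by rw [← pow_mul, mul_comm, pow_mul, h3, one_pow]
    have h6 : s.norm ^ 3 = (o ^ i) ^ 3 * s.norm ^ 3 := by rw [h5, one_mul]
    rw [h6]
    linear_combination (-(o ^ i)) * hN
  have hi : o ^ i = 1 := by
    rw [fb3_pow_mod ho i, fb3_mod K o ho hc, pow_zero]
  rw [hi] at hc h
  rw [map_one, one_mul] at h
  set c := s.norm with hcdef
  set s' : Q2 (o - 4) := algebraMap K (Q2 (o - 4)) c * s with hs'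
  have hs3 : s' ^ 3 = theta o ^ j := by
    rw [hs', mul_pow, ← map_pow, hc, map_one, one_mul, h]
  have hn' : s'.norm = 1 := by
    rw [hs', map_mul, QuadraticAlgebra.norm_algebraMap, ← hcdef]
    linear_combination hc
  rw [QuadraticAlgebra.norm_def] at hn'
  have hre := congrArg QuadraticAlgebra.re hs3
  have e1 : (s' ^ 3).re = s'.re ^ 3 + 3 * (o - 4) * s'.re * s'.im ^ 2 := by
    rw [pow_succ, pow_two]
    simp only [QuadraticAlgebra.re_mul, QuadraticAlgebra.im_mul]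
    ring
  rw [e1] at hre
  rcases hj with rfl | rfl
  · rw [pow_one] at hre
    have e2 : (theta o).re = o ^ 2 / 2 := rfl
    rw [e2] at hre
    refine fb3_trace K o ho (2 * s'.re) (-1) (by decide) (-1) ?_
    push_cast
    linear_combination 2 * hre + 6 * s'.re * hn' + ho
  · have e2 : (theta o ^ 2).re = (o - 2) / 2 := by
      rw [pow_two]
      have : (theta o * theta o).re = (o ^ 2 / 2) * (o ^ 2 / 2) + (o - 4) * ((1 / 2) * (1 / 2)) := by
        have e3 : (theta o).re = o ^ 2 / 2 := rfl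
        have e4 : (theta o).im = 1 / 2 := rfl
        simp only [QuadraticAlgebra.re_mul, e3, e4]
        ring
      rw [this]
      linear_combination (o / 4) * h3
    rw [e2] at hre
    refine fb3_trace K o ho (2 * s'.re) 1 (by decide) (-2) ?_
    push_cast
    linear_combination 2 * hre + 6 * s'.re * hn'

include ho in
theorem fb3_unit_o : ∃ w : (𝓞 (Q2 (o - 4)))ˣ,
    ((w : 𝓞 (Q2 (o - 4))) : Q2 (o - 4)) = algebraMap K (Q2 (o - 4)) o := by
  have h3 : (algebraMap K (Q2 (o - 4)) o) ^ 3 = 1 := by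
    rw [← map_pow, fb3_pow_three ho, map_one]
  have hint : IsIntegral ℤ (algebraMap K (Q2 (o - 4)) o) := by
    refine ⟨Polynomial.X ^ 3 - 1, by monicity!, ?_⟩
    simp [Polynomial.eval₂_sub, Polynomial.eval₂_pow, h3]
  let x : 𝓞 (Q2 (o - 4)) := ⟨_, hint⟩
  have hx : x ^ 2 * x = 1 := by
    apply RingOfIntegers.ext
    have : (algebraMap K (Q2 (o - 4)) o) ^ 2 * (algebraMap K (Q2 (o - 4)) o) = 1 := by
      rw [← pow_succ, h3]
    exact this
  exact ⟨⟨x, x ^ 2, by rw [mul_comm]; exact hx, hx⟩, rfl⟩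

include ho in
theorem fb3_unit_theta : ∃ w : (𝓞 (Q2 (o - 4)))ˣ,
    ((w : 𝓞 (Q2 (o - 4))) : Q2 (o - 4)) = theta o := by
  have hq := theta_quad o ho
  obtain ⟨w, hw⟩ := fb3_unit_o K o ho
  have hwI : IsIntegral ℤ (algebraMap K (Q2 (o - 4)) (o ^ 2)) := by
    rw [map_pow, ← hw, ← map_pow]
    exact RingOfIntegers.isIntegral_coe _
  let c : 𝓞 (Q2 (o - 4)) := ⟨_, hwI⟩
  have hc : algebraMap (𝓞 (Q2 (o - 4))) (Q2 (o - 4)) c = algebraMap K (Q2 (o - 4)) (o ^ 2) := rfl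
  have h3 : IsIntegral (𝓞 (Q2 (o - 4))) (theta o) := by
    refine ⟨Polynomial.X ^ 2 - Polynomial.C c * Polynomial.X + 1, by monicity!, ?_⟩
    simp only [Polynomial.eval₂_sub, Polynomial.eval₂_add, Polynomial.eval₂_mul,
      Polynomial.eval₂_pow, Polynomial.eval₂_X, Polynomial.eval₂_C, hc, Polynomial.eval₂_one]
    exact hq
  have hint : IsIntegral ℤ (theta o) := isIntegral_trans (R := ℤ) (A := 𝓞 (Q2 (o - 4))) _ h3
  let x : 𝓞 (Q2 (o - 4)) := ⟨_, hint⟩
  have hx : x * (c - x) = 1 := by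
    apply RingOfIntegers.ext
    have : theta o * (algebraMap K (Q2 (o - 4)) (o ^ 2) - theta o) = 1 := by
      linear_combination -hq
    exact this
  exact ⟨⟨x, c - x, hx, by rw [mul_comm]; exact hx⟩, rfl⟩

include ho in
theorem fb3_cases {i j i' j' : ℕ} (hi : i < 3) (hj : j < 3) (hi' : i' < 3) (hj' : j' < 3)
    (c : Q2 (o - 4)) (hc0 : c ≠ 0)
    (h : algebraMap K (Q2 (o - 4)) (o ^ i') * theta o ^ j' =
      algebraMap K (Q2 (o - 4)) (o ^ i) * theta o ^ j * c ^ 3) : i = i' ∧ j = j' := by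
  have h3 : o ^ 3 = 1 := fb3_pow_three ho
  have hth0 : theta o ≠ 0 := by
    intro h0
    have := theta_norm o ho
    rw [h0, QuadraticAlgebra.norm_def] at this
    simp at this
  have ho0 : o ≠ 0 := by
    rintro rfl
    norm_num at ho
  have hmul : ∀ n : ℕ, o ^ n * o ^ (2 * n) = 1 := fun n => by
    rw [← pow_add, show n + 2 * n = 3 * n by ring, pow_mul, h3, one_pow]
  set A := algebraMap K (Q2 (o - 4)) with hA
  rcases lt_trichotomy j j' with hlt | rfl | hlt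
  · exfalso
    apply theta_not_cube K o ho (i + 2 * i') (j' - j) (by omega) c
    have e1 : theta o ^ j' = theta o ^ j * theta o ^ (j' - j) := by
      rw [← pow_add]; congr 1; omega
    have e2 : A (o ^ i') * A (o ^ (2 * i')) = 1 := by rw [← map_mul, hmul, map_one]
    rw [e1] at h
    apply mul_left_cancel₀ (pow_ne_zero j hth0)
    rw [← hA, pow_add, map_mul]
    linear_combination (A (o ^ (2 * i'))) * h - (theta o ^ j * theta o ^ (j' - j)) * e2
  · refine ⟨?_, rfl⟩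
    have h4 : A (o ^ i') = A (o ^ i) * c ^ 3 := by
      apply mul_right_cancel₀ (pow_ne_zero j hth0)
      linear_combination h
    have e2 : A (o ^ i) * A (o ^ (2 * i)) = 1 := by rw [← map_mul, hmul, map_one]
    have h5 : c ^ 3 = A (o ^ (i' + 2 * i)) := by
      rw [pow_add, map_mul]
      linear_combination (-(c ^ 3)) * e2 - A (o ^ (2 * i)) * h4
    have h6 := congrArg QuadraticAlgebra.norm h5
    rw [hA, map_pow QuadraticAlgebra.norm, QuadraticAlgebra.norm_algebraMap, ← pow_mul] at h6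
    have h7 := fb3_mod K o ho h6
    omega
  · exfalso
    apply theta_not_cube K o ho (i' + 2 * i) (j - j') (by omega) c⁻¹
    have e1 : theta o ^ j = theta o ^ j' * theta o ^ (j - j') := by
      rw [← pow_add]; congr 1; omega
    have e2 : A (o ^ i) * A (o ^ (2 * i)) = 1 := by rw [← map_mul, hmul, map_one]
    rw [e1] at h
    have hcc : c ^ 3 * (c⁻¹) ^ 3 = 1 := by rw [← mul_pow, mul_inv_cancel₀ hc0, one_pow]
    apply mul_left_cancel₀ (pow_ne_zero j' hth0)
    rw [← hA, pow_add, map_mul]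
    linear_combination (-(A (o ^ (2 * i)) * (c⁻¹) ^ 3)) * h -
      (theta o ^ j' * theta o ^ (j - j') * (c ^ 3 * (c⁻¹) ^ 3)) * e2 -
      (theta o ^ j' * theta o ^ (j - j')) * hcc

include ho in
/-- [FB3c] PROOF. The group `A = (𝓞 L)ˣ / cubes` has at most `9` elements by `units_gen`, and the `9`
classes of `ω ^ i θ ^ j`, `i, j < 3`, are different by `theta_not_cube` and `no_ninth` (for `j = 0`:
`ω ^ i = s³` has the norm `ω ^ (2 i) = N(s)³`). A subset with `9` elements of a set with at most `9`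
elements is everything. Use `Finite.injective_iff_surjective`/`Finset.card` for the map
`(i, j) ↦ ω ^ i θ ^ j` from `Fin 3 × Fin 3` to `A`, which is injective, and the surjection
`Fin 3 × Fin 3 → A`, `(i, j) ↦ a ^ i b ^ j`. -/
theorem base_units (u : (𝓞 (Q2 (o - 4)))ˣ) : ∃ (i j : ℕ) (s : Q2 (o - 4)), i < 3 ∧ j < 3 ∧
    ((u : 𝓞 (Q2 (o - 4))) : Q2 (o - 4)) =
      algebraMap K (Q2 (o - 4)) (o ^ i) * theta o ^ j * s ^ 3 := by
  obtain ⟨w, hw⟩ := fb3_unit_o K o ho
  obtain ⟨th, hth⟩ := fb3_unit_theta K o ho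
  obtain ⟨a, b, hab⟩ := units_gen K o ho
  let C : Subgroup (𝓞 (Q2 (o - 4)))ˣ := (powMonoidHom 3 : (𝓞 (Q2 (o - 4)))ˣ →* _).range
  let g : Fin 3 × Fin 3 → (𝓞 (Q2 (o - 4)))ˣ ⧸ C := fun y => QuotientGroup.mk (a ^ (y.1 : ℕ) * b ^ (y.2 : ℕ))
  let f : Fin 3 × Fin 3 → (𝓞 (Q2 (o - 4)))ˣ ⧸ C := fun y => QuotientGroup.mk (w ^ (y.1 : ℕ) * th ^ (y.2 : ℕ))
  have hg : Function.Surjective g := by
    intro x
    obtain ⟨v, rfl⟩ := QuotientGroup.mk_surjective x
    obtain ⟨i, j, s, hi, hj, hv⟩ := hab v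
    refine ⟨(⟨i, hi⟩, ⟨j, hj⟩), ?_⟩
    apply QuotientGroup.eq.2
    refine ⟨s, ?_⟩
    change s ^ 3 = (a ^ i * b ^ j)⁻¹ * v
    rw [hv, inv_mul_cancel_left]
  have hf : Function.Injective f := by
    rintro ⟨⟨i, hi⟩, ⟨j, hj⟩⟩ ⟨⟨i', hi'⟩, ⟨j', hj'⟩⟩ h
    obtain ⟨c, hc⟩ := QuotientGroup.eq.1 h
    change c ^ 3 = (w ^ i * th ^ j)⁻¹ * (w ^ i' * th ^ j') at hc
    have h1 : w ^ i' * th ^ j' = w ^ i * th ^ j * c ^ 3 := by
      rw [hc, mul_inv_cancel_left]
    have h2 := congrArg (fun x : (𝓞 (Q2 (o - 4)))ˣ => ((x : 𝓞 (Q2 (o - 4))) : Q2 (o - 4))) h1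
    simp only [Units.val_mul, Units.val_pow_eq_pow_val, map_mul, map_pow, hw, hth] at h2
    have hcc := fb3_cases K o ho hi hj hi' hj'
      (((c : 𝓞 (Q2 (o - 4))) : Q2 (o - 4))) (by
        have := (Units.map (algebraMap (𝓞 (Q2 (o - 4))) (Q2 (o - 4))).toMonoidHom c).ne_zero
        exact this) (by rw [map_pow, map_pow]; exact h2)
    obtain ⟨rfl, rfl⟩ := hcc
    rfl
  have : Finite ((𝓞 (Q2 (o - 4)))ˣ ⧸ C) := Finite.of_surjective g hg
  have hcard : Nat.card ((𝓞 (Q2 (o - 4)))ˣ ⧸ C) ≤ Nat.card (Fin 3 × Fin 3) :=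
    Nat.card_le_card_of_surjective g hg
  obtain ⟨⟨⟨i, hi⟩, ⟨j, hj⟩⟩, hij⟩ := (hf.bijective_of_nat_card_le hcard).2 (QuotientGroup.mk u)
  obtain ⟨c, hc⟩ := QuotientGroup.eq.1 hij
  change c ^ 3 = (w ^ i * th ^ j)⁻¹ * u at hc
  have h1 : u = w ^ i * th ^ j * c ^ 3 := by
    rw [hc, mul_inv_cancel_left]
  refine ⟨i, j, ((c : 𝓞 (Q2 (o - 4))) : Q2 (o - 4)), hi, hj, ?_⟩
  have h2 := congrArg (fun x : (𝓞 (Q2 (o - 4)))ˣ => ((x : 𝓞 (Q2 (o - 4))) : Q2 (o - 4))) h1
  simp only [Units.val_mul, Units.val_pow_eq_pow_val, map_mul, map_pow, hw, hth] at h2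
  rw [map_pow]
  exact h2

include ho in
/-- [FB3d] PROOF. `BS3.unit_mul_cube` (with `base_pid`): `z = u s³`; `base_units`: `u = ω ^ i θ ^ j t³`;
the norm `ω ^ (2 i) N(s t)³ = n³`, so `i = 0` by `no_ninth` (`2 i = 2, 4`, `ω ^ 4 = ω`). -/
theorem base_class (z : Q2 (o - 4)) (hz : z ≠ 0) (hn : ∃ n : K, z.norm = n ^ 3)
    (hv : ∀ v : HeightOneSpectrum (𝓞 (Q2 (o - 4))), ∃ g, v.valuation (Q2 (o - 4)) z = g ^ 3) :
    ∃ (j : ℕ) (s : Q2 (o - 4)), j < 3 ∧ s ≠ 0 ∧ z = theta o ^ j * s ^ 3 := by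
  have := base_pid K o ho
  obtain ⟨u, s, hs, hu⟩ := BS3.unit_mul_cube z hz hv
  obtain ⟨i, j, t, hi, hj, ht⟩ := base_units K o ho u
  obtain ⟨n, hn⟩ := hn
  have h3 : o ^ 3 = 1 := fb3_pow_three ho
  have hz2 : z = algebraMap K (Q2 (o - 4)) (o ^ i) * theta o ^ j * (t * s) ^ 3 := by
    rw [hu, ht, mul_pow]
    ring
  have ht0 : t * s ≠ 0 := by
    intro h0
    rw [h0] at hz2
    apply hz
    rw [hz2]
    ring
  have hN := congrArg QuadraticAlgebra.norm hz2
  rw [map_mul QuadraticAlgebra.norm, map_mul QuadraticAlgebra.norm, map_pow QuadraticAlgebra.norm,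
    map_pow QuadraticAlgebra.norm, theta_norm o ho, one_pow, mul_one,
    QuadraticAlgebra.norm_algebraMap, hn] at hN
  have hm0 : (t * s).norm ≠ 0 := (isUnit_iff_norm _).1 (isUnit_iff_ne_zero.2 ht0)
  have h5 : (n / (t * s).norm) ^ 3 = o ^ (i * 2) := by
    rw [div_pow, hN, pow_mul]
    field_simp
  have h6 := fb3_mod K o ho h5
  have hi0 : i = 0 := by omega
  refine ⟨j, t * s, hj, ht0, ?_⟩
  rw [hz2, hi0, pow_zero, map_one, one_mul]

end

end THF
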