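import Pool.Agent.MP_9ab903_nt.TH.FB2

/-!
# [NG3-FB3a] The units of `K(√(ω - 4))`: generators modulo cubes
-/

set_option autoImplicit false

open NumberField IsDedekindDomain
open scoped Classical

namespace THF

section
variable (K : Type) [Field K] [NumberField K] [IsCyclotomicExtension {3} ℚ K] (o : K)
  (ho : o ^ 2 + o + 1 = 0) [Fact (NonSq (o - 4))]

include ho in
/-- [FB3a] the group of units modulo cubes has at most `9` elements. PROOF. The unit rank is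
`2 - 1 = 1` (`NumberField.Units.rank`, `base_places`); every unit is `ζ * ε ^ n`, `ζ` a root of unity,
`ε` the fundamental unit (`NumberField.Units.exist_unique_eq_mul_prod`), the group of roots of unity
is cyclic with generator `ζ₀`; so every unit is `ζ₀ ^ i * ε ^ j * u ^ 3` with `i, j < 3`. -/
theorem units_gen : ∃ a b : (𝓞 (Q2 (o - 4)))ˣ, ∀ u : (𝓞 (Q2 (o - 4)))ˣ,
    ∃ (i j : ℕ) (s : (𝓞 (Q2 (o - 4)))ˣ), i < 3 ∧ j < 3 ∧ u = a ^ i * b ^ j * s ^ 3 := by
  have hrank : NumberField.Units.rank (Q2 (o - 4)) = 1 := by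
    obtain ⟨h1, h2⟩ := base_places K o ho
    have h3 := InfinitePlace.card_eq_nrRealPlaces_add_nrComplexPlaces (Q2 (o - 4))
    rw [h1, h2] at h3
    unfold NumberField.Units.rank
    rw [h3]
  have hsub : ∀ i j : Fin (NumberField.Units.rank (Q2 (o - 4))), i = j := by
    intro i j
    apply Fin.ext
    have h1 := i.isLt
    have h2 := j.isLt
    omega
  obtain ⟨g, hg⟩ := IsCyclic.exists_generator (α := NumberField.Units.torsion (Q2 (o - 4)))
  let i0 : Fin (NumberField.Units.rank (Q2 (o - 4))) := ⟨0, by omega⟩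
  refine ⟨(g : (𝓞 (Q2 (o - 4)))ˣ), NumberField.Units.fundSystem (Q2 (o - 4)) i0, fun u => ?_⟩
  obtain ⟨⟨ζ, e⟩, hu, -⟩ := NumberField.Units.exist_unique_eq_mul_prod (Q2 (o - 4)) u
  obtain ⟨n, hn⟩ := Subgroup.mem_zpowers_iff.1 (hg ζ)
  have hprod : ∏ i, NumberField.Units.fundSystem (Q2 (o - 4)) i ^ (e i) =
      NumberField.Units.fundSystem (Q2 (o - 4)) i0 ^ (e i0) :=
    Fintype.prod_eq_single i0 fun j hj => absurd (hsub j i0) hj
  have hζ : (ζ : (𝓞 (Q2 (o - 4)))ˣ) = (g : (𝓞 (Q2 (o - 4)))ˣ) ^ n := by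
    rw [← hn]
    rfl
  have key : ∀ (x : (𝓞 (Q2 (o - 4)))ˣ) (m : ℤ), x ^ m = x ^ (m % 3).toNat * (x ^ (m / 3)) ^ 3 := by
    intro x m
    have h1 : (x ^ (m / 3)) ^ 3 = x ^ (m / 3 * 3) := by
      rw [zpow_mul]
      norm_cast
    have h2 : x ^ (m % 3).toNat = x ^ (m % 3) := by
      rw [← zpow_natCast, Int.toNat_of_nonneg (Int.emod_nonneg _ (by norm_num))]
    rw [h1, h2, ← zpow_add]
    congr 1
    have := Int.emod_add_mul_ediv m 3
    omega
  refine ⟨(n % 3).toNat, (e i0 % 3).toNat,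
    (g : (𝓞 (Q2 (o - 4)))ˣ) ^ (n / 3) *
      NumberField.Units.fundSystem (Q2 (o - 4)) i0 ^ (e i0 / 3), by omega, by omega, ?_⟩
  rw [hu]
  simp only
  rw [hprod, hζ, key (g : (𝓞 (Q2 (o - 4)))ˣ) n,
    key (NumberField.Units.fundSystem (Q2 (o - 4)) i0) (e i0), mul_pow]
  exact mul_mul_mul_comm _ _ _ _

end

end THF
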