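import Pool.Agent.MP_9ab903_nt.TH.FB4a

/-!
# [NG3-FB4c] The prime 2: the primes of `K = ℚ(ω)` which do not split in `K(√(ω - 4))`
-/

set_option autoImplicit false

open NumberField IsDedekindDomain
open scoped Classical

namespace THF

theorem fb4c_om (K : Type) [Field K] [NumberField K] [IsCyclotomicExtension {3} ℚ K] :
    ∃ om : 𝓞 K, om ^ 2 + om + 1 = 0 ∧ ∀ a : 𝓞 K, ∃ m n : ℤ, a = m + n * om := by
  have hζ : IsPrimitiveRoot (IsCyclotomicExtension.zeta 3 ℚ K) 3 :=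
    IsCyclotomicExtension.zeta_spec 3 ℚ K
  have h1 := hζ.toInteger_isPrimitiveRoot
  have h2 : hζ.toInteger ^ 2 + hζ.toInteger + 1 = 0 := by
    have h3 : (hζ.toInteger - 1) * (hζ.toInteger ^ 2 + hζ.toInteger + 1) = 0 := by
      have h4 := h1.pow_eq_one
      linear_combination h4
    rcases mul_eq_zero.1 h3 with h | h
    · exact absurd (sub_eq_zero.1 h) (h1.ne_one (by norm_num))
    · exact h
  refine ⟨hζ.toInteger, h2, fun a => ?_⟩
  have ha : a ∈ Algebra.adjoin ℤ {hζ.toInteger} := by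
    rw [IsCyclotomicExtension.Rat.adjoin_singleton_eq_top hζ]
    trivial
  induction ha using Algebra.adjoin_induction with
  | mem x hx =>
    rw [Set.mem_singleton_iff] at hx
    exact ⟨0, 1, by rw [hx]; push_cast; ring⟩
  | algebraMap r => exact ⟨r, 0, by simp⟩
  | add x y _ _ hx hy =>
    obtain ⟨m, n, rfl⟩ := hx
    obtain ⟨m', n', rfl⟩ := hy
    exact ⟨m + m', n + n', by push_cast; ring⟩
  | mul x y _ _ hx hy =>
    obtain ⟨m, n, rfl⟩ := hx
    obtain ⟨m', n', rfl⟩ := hy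
    refine ⟨m * m' - n * n', m * n' + n * m' - n * n', ?_⟩
    push_cast
    linear_combination (n * n' : 𝓞 K) * h2

/-- the integers of `K = ℚ(ω)` in terms of a given root `o` -/
theorem fb4c_basis (K : Type) [Field K] [NumberField K] [IsCyclotomicExtension {3} ℚ K] (o : K)
    (ho : o ^ 2 + o + 1 = 0) (x : K) (hx : IsIntegral ℤ x) : ∃ a b : ℤ, x = a + b * o := by
  obtain ⟨om, hom, hbas⟩ := fb4c_om K
  obtain ⟨m, n, hmn⟩ := hbas ⟨x, hx⟩
  have h1 : x = m + n * (om : K) := by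
    have h0 : algebraMap (𝓞 K) K ⟨x, hx⟩ = x := rfl
    rw [← h0, hmn, map_add, map_mul, map_intCast, map_intCast]
  have h2 : (om : K) ^ 2 + om + 1 = 0 := by
    have h0 := congrArg (algebraMap (𝓞 K) K) hom
    rwa [map_add, map_add, map_pow, map_one, map_zero] at h0
  have h3 : ((om : K) - o) * (om + 1 + o) = 0 := by
    linear_combination h2 - ho
  rcases mul_eq_zero.1 h3 with h | h
  · exact ⟨m, n, by rw [h1, sub_eq_zero.1 h]⟩
  · refine ⟨m - n, -n, ?_⟩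
    rw [h1]
    push_cast
    linear_combination (n : K) * h

/-- the parity of the norm -/
theorem fb4c_odd (a b : ℤ) : ∃ k : ℤ,
    (a ^ 2 - b ^ 2 - b + a + 1) ^ 2 - (a ^ 2 - b ^ 2 - b + a + 1) * (2 * a * b - b ^ 2 + a) +
      (2 * a * b - b ^ 2 + a) ^ 2 = 2 * k + 1 := by
  obtain ⟨c, hc⟩ := Int.even_mul_succ_self a
  obtain ⟨d, hd⟩ := Int.even_mul_succ_self b
  have h1 : a ^ 2 - b ^ 2 - b + a + 1 = 2 * (c - d) + 1 := by linear_combination hc - hd
  rw [h1]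
  generalize 2 * a * b - b ^ 2 + a = B
  generalize c - d = A
  obtain ⟨f, hf⟩ := Int.even_mul_pred_self B
  refine ⟨2 * A ^ 2 + 2 * A - A * B + f, ?_⟩
  linear_combination hf

section
variable (K : Type) [Field K] [NumberField K] [IsCyclotomicExtension {3} ℚ K] (o : K)
  (ho : o ^ 2 + o + 1 = 0) [Fact (NonSq (o - 4))]

omit [IsCyclotomicExtension {3} ℚ K] in
include ho in
theorem fb4c_theta_int : IsIntegral ℤ (theta o) := by
  have h1 := theta_quad o ho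
  set w := algebraMap K (Q2 (o - 4)) (o ^ 2) with hw
  have hw2 : w ^ 2 + w + 1 = 0 := by
    rw [hw, ← map_pow, ← map_one (algebraMap K (Q2 (o - 4))), ← map_add, ← map_add]
    have : (o ^ 2) ^ 2 + o ^ 2 + 1 = 0 := by linear_combination (o ^ 2 - o + 1) * ho
    rw [this, map_zero]
  refine ⟨Polynomial.X ^ 4 + Polynomial.X ^ 3 + 3 * Polynomial.X ^ 2 + Polynomial.X + 1, ?_, ?_⟩
  · monicity!
  · simp only [Polynomial.eval₂_add, Polynomial.eval₂_mul, Polynomial.eval₂_pow,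
      Polynomial.eval₂_X, Polynomial.eval₂_one, Polynomial.eval₂_ofNat]
    linear_combination (theta o ^ 2 + 1 + theta o + w * theta o) * h1 + theta o ^ 2 * hw2

theorem fb4c_om_int {F : Type} [Field F] (x : F) (hx : x ^ 2 + x + 1 = 0) : IsIntegral ℤ x := by
  refine ⟨Polynomial.X ^ 2 + Polynomial.X + 1, ?_, ?_⟩
  · monicity!
  · simp only [Polynomial.eval₂_add, Polynomial.eval₂_pow,
      Polynomial.eval₂_X, Polynomial.eval₂_one]
    exact hx

include ho in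
theorem fb4c_same (P : HeightOneSpectrum (𝓞 (Q2 (o - 4)))) (h : (2 : 𝓞 (Q2 (o - 4))) ∈ P.asIdeal)
    (e : 𝓞 (Q2 (o - 4)) ≃+* 𝓞 (Q2 (o - 4)))
    (he : ∀ x : 𝓞 (Q2 (o - 4)), ((e x : 𝓞 (Q2 (o - 4))) : Q2 (o - 4)) =
      fb4a_conj (o - 4) (x : Q2 (o - 4))) :
    CM27.coPr (𝓞 (Q2 (o - 4))) e P = P := by
  by_contra hne
  set P' := CM27.coPr (𝓞 (Q2 (o - 4))) e P with hP'
  have hmem : ∀ x, x ∈ P'.asIdeal ↔ e x ∈ P.asIdeal := by
    intro x
    have := CM27.co_mem_pow (𝓞 (Q2 (o - 4))) e P 1 x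
    rwa [pow_one, pow_one] at this
  have hnle : ¬ P'.asIdeal ≤ P.asIdeal := by
    intro hle
    exact hne (HeightOneSpectrum.ext (P'.isMaximal.eq_of_le P.isPrime.ne_top hle))
  obtain ⟨c, hc', hc⟩ := Set.not_subset.1 hnle
  obtain ⟨d, i, hi, hdi⟩ := P.isMaximal.exists_inv hc
  -- every integer is congruent to an integer of `K`
  obtain ⟨oI, hoI⟩ : ∃ oI : 𝓞 (Q2 (o - 4)), (oI : Q2 (o - 4)) = algebraMap K (Q2 (o - 4)) o := by
    refine ⟨⟨algebraMap K (Q2 (o - 4)) o, fb4c_om_int _ ?_⟩, rfl⟩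
    rw [← map_pow, ← map_one (algebraMap K (Q2 (o - 4))), ← map_add, ← map_add, ho, map_zero]
  have hoI2 : oI ^ 2 + oI + 1 = 0 := by
    apply RingOfIntegers.ext
    simp only [map_add, map_pow, map_one, map_zero, hoI]
    rw [← map_pow, ← map_one (algebraMap K (Q2 (o - 4))), ← map_add, ← map_add, ho, map_zero]
  have key : ∀ y : 𝓞 (Q2 (o - 4)), ∃ a b : ℤ,
      y - ((a : 𝓞 (Q2 (o - 4))) + b * oI) ∈ P.asIdeal := by
    intro y
    obtain ⟨t, ht⟩ : ∃ t, t = y * (d * c) + e (y * (d * c)) := ⟨_, rfl⟩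
    have h1 : t - y ∈ P.asIdeal := by
      have h2 : e (y * (d * c)) ∈ P.asIdeal := (hmem _).1
        (Ideal.mul_mem_left _ _ (Ideal.mul_mem_left _ _ hc'))
      have h3 : t - y = e (y * (d * c)) - y * i := by
        rw [ht]
        linear_combination y * hdi
      rw [h3]
      exact Ideal.sub_mem _ h2 (Ideal.mul_mem_left _ _ hi)
    have h4 : ((t : 𝓞 (Q2 (o - 4))) : Q2 (o - 4)).im = 0 := by
      have h9 : ((t : 𝓞 (Q2 (o - 4))) : Q2 (o - 4)) =
          ((y * (d * c) : 𝓞 (Q2 (o - 4))) : Q2 (o - 4)) +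
            ((e (y * (d * c)) : 𝓞 (Q2 (o - 4))) : Q2 (o - 4)) := by
        rw [ht]
        exact map_add (algebraMap (𝓞 (Q2 (o - 4))) (Q2 (o - 4))) _ _
      rw [h9, he, fb4a_conj_apply, QuadraticAlgebra.im_add]
      exact add_neg_cancel _
    have h5 : ((t : 𝓞 (Q2 (o - 4))) : Q2 (o - 4)) =
        algebraMap K (Q2 (o - 4)) ((t : 𝓞 (Q2 (o - 4))) : Q2 (o - 4)).re := by
      ext
      · simp [QuadraticAlgebra.algebraMap_re]
      · rw [h4]
        simp [QuadraticAlgebra.algebraMap_im]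
    have h6 : IsIntegral ℤ ((t : 𝓞 (Q2 (o - 4))) : Q2 (o - 4)).re := by
      have h7 : IsIntegral ℤ ((t : 𝓞 (Q2 (o - 4))) : Q2 (o - 4)) := RingOfIntegers.isIntegral_coe t
      rw [h5] at h7
      exact (isIntegral_algebraMap_iff (algebraMap K (Q2 (o - 4))).injective).1 h7
    obtain ⟨a, b, hab⟩ := fb4c_basis K o ho _ h6
    refine ⟨a, b, ?_⟩
    have h8 : t = (a : 𝓞 (Q2 (o - 4))) + b * oI := by
      apply RingOfIntegers.ext
      rw [h5, hab]
      simp only [map_add, map_mul, map_intCast, hoI]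
    have h9 : y - ((a : 𝓞 (Q2 (o - 4))) + b * oI) = -(t - y) := by
      rw [h8]
      ring
    rw [h9]
    exact (Ideal.neg_mem_iff _).2 h1
  obtain ⟨a, b, hab⟩ := key ⟨theta o, fb4c_theta_int K o ho⟩
  set th : 𝓞 (Q2 (o - 4)) := ⟨theta o, fb4c_theta_int K o ho⟩ with hth
  have hquad : th ^ 2 - oI ^ 2 * th + 1 = 0 := by
    apply RingOfIntegers.ext
    have h9 : (algebraMap (𝓞 (Q2 (o - 4))) (Q2 (o - 4))) th = theta o := rfl
    simp only [map_add, map_sub, map_mul, map_pow, map_one, map_zero, hoI, h9]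
    rw [← map_pow]
    exact theta_quad o ho
  set s : 𝓞 (Q2 (o - 4)) := (a : 𝓞 (Q2 (o - 4))) + b * oI with hs
  have hsP : s ^ 2 - oI ^ 2 * s + 1 ∈ P.asIdeal := by
    have h10 : s ^ 2 - oI ^ 2 * s + 1 = (oI ^ 2 - th - s) * (th - s) := by
      linear_combination hquad
    rw [h10]
    exact Ideal.mul_mem_left _ _ hab
  obtain ⟨k, hk⟩ := fb4c_odd a b
  have hN : (2 * k + 1 : 𝓞 (Q2 (o - 4))) ∈ P.asIdeal := by
    have hk' := congrArg (fun z : ℤ => (z : 𝓞 (Q2 (o - 4)))) hk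
    push_cast at hk'
    have h11 : (2 * k + 1 : 𝓞 (Q2 (o - 4))) =
        ((a ^ 2 - b ^ 2 - b + a + 1) - (2 * a * b - b ^ 2 + a) - (2 * a * b - b ^ 2 + a) * oI) *
          (s ^ 2 - oI ^ 2 * s + 1) := by
      rw [← hk', hs]
      linear_combination ((2 * a * b - b ^ 2 + a) ^ 2 -
        ((a ^ 2 - b ^ 2 - b + a + 1) - (2 * a * b - b ^ 2 + a) - (2 * a * b - b ^ 2 + a) * oI) *
          (b ^ 2 - a - b * oI + b) : 𝓞 (Q2 (o - 4))) * hoI2
    rw [h11]
    exact Ideal.mul_mem_left _ _ hsP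
  have h1 : (1 : 𝓞 (Q2 (o - 4))) ∈ P.asIdeal := by
    have h12 : (1 : 𝓞 (Q2 (o - 4))) = (2 * k + 1) - k * 2 := by ring
    rw [h12]
    exact Ideal.sub_mem _ hN (Ideal.mul_mem_left _ _ h)
  exact P.isPrime.ne_top ((Ideal.eq_top_iff_one _).2 h1)

include ho in
/-- [FB4e] the prime `2` is inert. PROOF. If `P' ≠ P`, then `𝓞 L / P` is the residue field of `K` at `2`,
with `4` elements, and contains a root of `X² - ω² X + 1` (`theta_quad`; `θ` is integral), where `ω` is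
a root of `x² + x + 1`. But in a field `k` with `4` elements (`t⁴ = t` for all `t`) with `w² + w + 1 = 0`:
`t² + w² t + 1 = 0` is impossible: `t ∈ {0, 1, w, w²}` and the values are
`1`, `w²`, `w²` + ... : `t = 1`: `w² ≠ 0`; `t = w`: `w² + w³ + 1 = w² ≠ 0`; `t = w²`: `w⁴ + w⁴ + 1 = 1`. -/
theorem nonsplit_two (P : HeightOneSpectrum (𝓞 (Q2 (o - 4)))) (h : (2 : 𝓞 (Q2 (o - 4))) ∈ P.asIdeal)
    (z : Q2 (o - 4)) : P.valuation (Q2 (o - 4)) ⟨z.re, -z.im⟩ = P.valuation (Q2 (o - 4)) z := by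
  obtain ⟨e, he⟩ : ∃ e : 𝓞 (Q2 (o - 4)) ≃+* 𝓞 (Q2 (o - 4)),
      ∀ x : 𝓞 (Q2 (o - 4)), ((e x : 𝓞 (Q2 (o - 4))) : Q2 (o - 4)) =
        fb4a_conj (o - 4) (x : Q2 (o - 4)) :=
    ⟨RingOfIntegers.mapRingEquiv (fb4a_conj (o - 4)), fun x => rfl⟩
  have h1 := fb4c_same K o ho P h e he
  obtain ⟨r, s, hs, rfl⟩ := IsFractionRing.div_surjective (A := 𝓞 (Q2 (o - 4))) z
  rw [← fb4a_conj_apply, map_div₀ (fb4a_conj (o - 4)), map_div₀, map_div₀, ← he, ← he,
    HeightOneSpectrum.valuation_of_algebraMap,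
    HeightOneSpectrum.valuation_of_algebraMap, HeightOneSpectrum.valuation_of_algebraMap,
    HeightOneSpectrum.valuation_of_algebraMap, ← CM27.co_intValuation, ← CM27.co_intValuation, h1]

end

end THF
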