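import Pool.Agent.MP_9ab903_nt.TH.FB4b
import Pool.Agent.MP_9ab903_nt.TH.FB4c

/-!
# [NG3-FB4] The primes of `K = ℚ(ω)` which do not split in `K(√(ω - 4))`
-/

set_option autoImplicit false

open NumberField IsDedekindDomain
open scoped Classical

namespace THF

section
variable (K : Type) [Field K] [NumberField K] [IsCyclotomicExtension {3} ℚ K] (o : K)
  (ho : o ^ 2 + o + 1 = 0) [Fact (NonSq (o - 4))] (d : 𝓞 K) (hd : (d : K) = o - 4)

include ho hd in
/-- **[FB4] summary.** PROOF. `cube_of_conj` and FB4c, FB4d, FB4e. -/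
theorem cube_nonsplit (z : Q2 (o - 4)) (hz : z ≠ 0) (r : K) (hN : z.norm = r ^ 3)
    (P : HeightOneSpectrum (𝓞 (Q2 (o - 4)))) (v : HeightOneSpectrum (𝓞 K))
    (hv : v.asIdeal = P.asIdeal.under (𝓞 K))
    (h : (2 : 𝓞 K) ∈ v.asIdeal ∨ d ∈ v.asIdeal ∨ ¬ ∃ x : 𝓞 K, x ^ 2 - d ∈ v.asIdeal) :
    ∃ g, P.valuation (Q2 (o - 4)) z = g ^ 3 := by
  refine cube_of_conj P (fun z => ?_) z hz r hN
  rcases h with h | h | h
  · refine nonsplit_two K o ho P ?_ z
    rw [hv, Ideal.under_def, Ideal.mem_comap, map_ofNat] at h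
    exact h
  · exact nonsplit_dvd K o ho d hd P v hv h z
  · exact nonsplit_nonsq K o d hd P v hv h z

end

end THF
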