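import Pool.Agent.MP_9ab903_nt.TH.FB1

/-!
# [NG3-FB4a] The conjugate primes: primes of `K = ℚ(ω)` which do not split in `K(√(ω - 4))`
-/

set_option autoImplicit false

open NumberField IsDedekindDomain
open scoped Classical

namespace THF

section
variable {K : Type} [Field K] [NumberField K] {o : K} [Fact (NonSq (o - 4))]

/-- the conjugation of `K(√δ)` -/
def fb4a_conj {F : Type} [Field F] (d : F) : Q2 d ≃+* Q2 d where
  toFun z := ⟨z.re, -z.im⟩
  invFun z := ⟨z.re, -z.im⟩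
  left_inv z := by ext <;> simp
  right_inv z := by ext <;> simp
  map_mul' a b := by
    ext
    · simp
    · simp
      ring
  map_add' a b := by
    ext
    · simp
    · simp
      ring

theorem fb4a_conj_apply {F : Type} [Field F] (d : F) (z : Q2 d) :
    fb4a_conj d z = ⟨z.re, -z.im⟩ := rfl

theorem fb4a_mul_conj {F : Type} [Field F] (d : F) (z : Q2 d) :
    z * (⟨z.re, -z.im⟩ : Q2 d) = algebraMap F (Q2 d) z.norm := by
  rw [QuadraticAlgebra.norm_def]
  ext
  · simp [QuadraticAlgebra.algebraMap_re]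
    ring
  · simp [QuadraticAlgebra.algebraMap_im]
    ring

/-- [FB4a] the conjugate prime. PROOF. `CM27.exists_conj` for the automorphism `star` of
`Q2 (o - 4)`, `a + b √δ ↦ a - b √δ` (as a ring isomorphism); `z * star z = N(z)`. -/
theorem exists_conj_prime (P : HeightOneSpectrum (𝓞 (Q2 (o - 4)))) :
    ∃ P' : HeightOneSpectrum (𝓞 (Q2 (o - 4))), ∀ z : Q2 (o - 4),
      P'.valuation (Q2 (o - 4)) z = P.valuation (Q2 (o - 4)) ⟨z.re, -z.im⟩ := by
  obtain ⟨v', h1, _, _⟩ := CM27.exists_conj (Q2 (o - 4)) (fb4a_conj (o - 4)) P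
  exact ⟨v', fun z => h1 z⟩

/-- [FB4b] PROOF. With `w = P.valuation`, `w' = P'.valuation` the conjugate valuation (FB4a): if
`w' = w` for all elements, then `w(z)² = w(z) w(star z) = w(N z) = w(r)³`, so `w z = (w r / w z)³`
(`z ≠ 0`, `r ≠ 0`). -/
theorem cube_of_conj (P : HeightOneSpectrum (𝓞 (Q2 (o - 4))))
    (h : ∀ z : Q2 (o - 4), P.valuation (Q2 (o - 4)) ⟨z.re, -z.im⟩ = P.valuation (Q2 (o - 4)) z)
    (z : Q2 (o - 4)) (hz : z ≠ 0) (r : K) (hN : z.norm = r ^ 3) :
    ∃ g, P.valuation (Q2 (o - 4)) z = g ^ 3 := by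
  have h1 := fb4a_mul_conj (o - 4) z
  rw [hN, map_pow] at h1
  have h2 := congrArg (P.valuation (Q2 (o - 4))) h1
  rw [map_mul, h z, map_pow] at h2
  have hwz : P.valuation (Q2 (o - 4)) z ≠ 0 := (Valuation.ne_zero_iff _).2 hz
  set a := P.valuation (Q2 (o - 4)) z with ha
  set b := P.valuation (Q2 (o - 4)) (algebraMap K (Q2 (o - 4)) r) with hb
  have hb0 : b ≠ 0 := by
    intro h0
    rw [h0, zero_pow three_ne_zero] at h2
    exact hwz (mul_self_eq_zero.1 h2)
  refine ⟨a / b, ?_⟩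
  rw [div_pow, eq_div_iff (pow_ne_zero 3 hb0), ← h2, pow_three]

end

end THF
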