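import Pool.Agent.MP_9ab903_nt.TH.FB4a

/-!
# [NG3-FB4b] The primes of `K = ℚ(ω)` which do not split in `K(√(ω - 4))`
-/

set_option autoImplicit false

open NumberField IsDedekindDomain
open scoped Classical

namespace THF

open WithZero

/-! ### helper lemmas -/

section
variable {K : Type} [Field K] [NumberField K] {δ : K} [Fact (NonSq δ)]

/-- the conjugation `a + b √δ ↦ a - b √δ` as a ring homomorphism -/
def fb4b_star : Q2 δ →+* Q2 δ where
  toFun z := ⟨z.re, -z.im⟩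
  map_one' := by ext <;> simp [QuadraticAlgebra.re_one, QuadraticAlgebra.im_one]
  map_mul' a b := by
    ext
    · simp
    · simp
      ring
  map_zero' := by ext <;> simp
  map_add' a b := by
    ext
    · simp
    · simp
      ring

theorem fb4b_star_apply (z : Q2 δ) : fb4b_star z = ⟨z.re, -z.im⟩ := rfl

theorem fb4b_exists {R : Type} [CommRing R] [IsDedekindDomain R] (P P' : HeightOneSpectrum R)
    (h : P' ≠ P) : ∃ a : R, a ∈ P'.asIdeal ∧ a ∉ P.asIdeal := by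
  by_contra hcon
  push Not at hcon
  have hle : P'.asIdeal ≤ P.asIdeal := hcon
  exact h (HeightOneSpectrum.ext (P'.isMaximal.eq_of_le P.isPrime.ne_top hle))

/-- `t, u ∈ 𝓞 K` with `t ∉ P`, `u² ≡ δ t²` modulo `P`, if `P` is split -/
theorem fb4b_split (d : 𝓞 K) (hd : (d : K) = δ) (P P' : HeightOneSpectrum (𝓞 (Q2 δ)))
    (h : P' ≠ P) (hP : ∀ z : Q2 δ, P'.valuation (Q2 δ) z = P.valuation (Q2 δ) ⟨z.re, -z.im⟩) :
    ∃ t u : 𝓞 K, algebraMap (𝓞 K) (𝓞 (Q2 δ)) t ∉ P.asIdeal ∧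
      algebraMap (𝓞 K) (𝓞 (Q2 δ)) (u ^ 2 - d * t ^ 2) ∈ P.asIdeal := by
  obtain ⟨a, ha', ha⟩ := fb4b_exists P P' h
  have hci : IsIntegral ℤ (fb4b_star (a : Q2 δ)) :=
    IsIntegral.map (fb4b_star (δ := δ)).toIntAlgHom a.isIntegral_coe
  obtain ⟨c, hc⟩ : ∃ c : 𝓞 (Q2 δ), (c : Q2 δ) = fb4b_star (a : Q2 δ) := ⟨⟨_, hci⟩, rfl⟩
  have hs0 : (⟨0, 1⟩ : Q2 δ) * ⟨0, 1⟩ = algebraMap K (Q2 δ) (d : K) := by
    rw [hd, algebraMap_Q2]
    ext <;> simp
  have hsi : IsIntegral ℤ (⟨0, 1⟩ : Q2 δ) := by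
    apply IsIntegral.of_pow (n := 2) (by norm_num)
    rw [sq, hs0]
    exact (d.isIntegral_coe).map (Algebra.ofId K (Q2 δ)).toRingHom.toIntAlgHom
  obtain ⟨s, hs⟩ : ∃ s : 𝓞 (Q2 δ), (s : Q2 δ) = ⟨0, 1⟩ := ⟨⟨_, hsi⟩, rfl⟩
  have h1 : ((a + c : 𝓞 (Q2 δ)) : Q2 δ) = algebraMap K (Q2 δ) (2 * (a : Q2 δ).re) := by
    have e : ((a + c : 𝓞 (Q2 δ)) : Q2 δ) = (a : Q2 δ) + (c : Q2 δ) := rfl
    rw [e, hc, fb4b_star_apply, algebraMap_Q2]
    ext
    · simp only [QuadraticAlgebra.re_add]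
      ring
    · simp only [QuadraticAlgebra.im_add]
      ring
  have h2 : ((s * (a - c) : 𝓞 (Q2 δ)) : Q2 δ) = algebraMap K (Q2 δ) (2 * (a : Q2 δ).im * δ) := by
    have e : ((s * (a - c) : 𝓞 (Q2 δ)) : Q2 δ) = (s : Q2 δ) * ((a : Q2 δ) - (c : Q2 δ)) := rfl
    rw [e, hc, fb4b_star_apply, algebraMap_Q2, hs]
    ext
    · simp only [QuadraticAlgebra.re_mul, QuadraticAlgebra.re_sub, QuadraticAlgebra.im_sub]
      ring
    · simp only [QuadraticAlgebra.im_mul, QuadraticAlgebra.re_sub, QuadraticAlgebra.im_sub]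
      ring
  have hinj : Function.Injective (algebraMap K (Q2 δ)) := (algebraMap K (Q2 δ)).injective
  have ht : IsIntegral ℤ (2 * (a : Q2 δ).re) := by
    rw [← isIntegral_algebraMap_iff hinj, ← h1]
    exact RingOfIntegers.isIntegral_coe _
  have hu : IsIntegral ℤ (2 * (a : Q2 δ).im * δ) := by
    rw [← isIntegral_algebraMap_iff hinj, ← h2]
    exact RingOfIntegers.isIntegral_coe _
  obtain ⟨t, ht⟩ : ∃ t : 𝓞 K, (t : K) = 2 * (a : Q2 δ).re := ⟨⟨_, ht⟩, rfl⟩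
  obtain ⟨u, hu⟩ : ∃ u : 𝓞 K, (u : K) = 2 * (a : Q2 δ).im * δ := ⟨⟨_, hu⟩, rfl⟩
  have h3 : algebraMap (𝓞 K) (𝓞 (Q2 δ)) t = a + c := by
    apply RingOfIntegers.ext
    rw [h1, ← ht]
    rfl
  have h4 : algebraMap (𝓞 K) (𝓞 (Q2 δ)) u = s * (a - c) := by
    apply RingOfIntegers.ext
    rw [h2, ← hu]
    rfl
  have h5 : algebraMap (𝓞 K) (𝓞 (Q2 δ)) d = s * s := by
    apply RingOfIntegers.ext
    have e : ((s * s : 𝓞 (Q2 δ)) : Q2 δ) = (s : Q2 δ) * (s : Q2 δ) := rfl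
    rw [e, hs, hs0]
    rfl
  have hcP : c ∈ P.asIdeal := by
    rw [← HeightOneSpectrum.valuation_lt_one_iff_mem (K := Q2 δ)]
    have h6 : P.valuation (Q2 δ) (c : Q2 δ) = P'.valuation (Q2 δ) (a : Q2 δ) := by
      rw [hP, hc, fb4b_star_apply]
    have h7 : P'.valuation (Q2 δ) (a : Q2 δ) < 1 :=
      (HeightOneSpectrum.valuation_lt_one_iff_mem P' a).2 ha'
    rw [← h6] at h7
    exact h7
  refine ⟨t, u, ?_, ?_⟩
  · rw [h3]
    intro hac
    exact ha ((Submodule.add_mem_iff_left _ hcP).1 hac)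
  · have h6 : algebraMap (𝓞 K) (𝓞 (Q2 δ)) (u ^ 2 - d * t ^ 2) = (-4 * s * s * a) * c := by
      rw [map_sub, map_mul, map_pow, map_pow, h3, h4, h5]
      ring
    rw [h6]
    exact Ideal.mul_mem_left _ _ hcP

/-- an element whose norm has valuation `exp (-1)`, if `P` is split -/
theorem fb4b_unif (P P' : HeightOneSpectrum (𝓞 (Q2 δ)))
    (h : P' ≠ P) (hP : ∀ z : Q2 δ, P'.valuation (Q2 δ) z = P.valuation (Q2 δ) ⟨z.re, -z.im⟩) :
    ∃ x : K, P.valuation (Q2 δ) (algebraMap K (Q2 δ) x) = exp (-1 : ℤ) := by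
  obtain ⟨p, hp⟩ := P.intValuation_exists_uniformizer
  have hcop : IsCoprime (P.asIdeal ^ 2) P'.asIdeal := by
    apply IsCoprime.pow_left
    rw [Ideal.isCoprime_iff_sup_eq]
    exact P.isMaximal.coprime_of_ne P'.isMaximal fun h1 => h (HeightOneSpectrum.ext h1.symm)
  obtain ⟨x, hx, y, hy, hxy⟩ := Ideal.isCoprime_iff_exists.1 hcop
  have hb1 : P.intValuation (p * y + x) = exp (-1 : ℤ) := by
    have h1 : p * y + x = p + x * (1 - p) := by linear_combination p * hxy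
    have h2 : P.intValuation (x * (1 - p)) ≤ exp (-((2 : ℕ) : ℤ)) :=
      (P.intValuation_le_pow_iff_mem _ 2).2 (Ideal.mul_mem_right _ _ hx)
    have h3 : P.intValuation (x * (1 - p)) < P.intValuation p := by
      refine lt_of_le_of_lt h2 ?_
      rw [hp, exp_lt_exp]
      norm_num
    rw [h1, Valuation.map_add_eq_of_lt_left _ h3, hp]
  have hb2 : P'.valuation (Q2 δ) ((p * y + x : 𝓞 (Q2 δ)) : Q2 δ) = 1 := by
    rw [HeightOneSpectrum.valuation_eq_one_iff_notMem]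
    intro h1
    have h2 : x ∈ P'.asIdeal := (Submodule.add_mem_iff_right _ (Ideal.mul_mem_left _ p hy)).1 h1
    have h3 : (1 : 𝓞 (Q2 δ)) ∈ P'.asIdeal := by
      rw [← hxy]
      exact Submodule.add_mem _ h2 hy
    exact P'.isPrime.ne_top ((Ideal.eq_top_iff_one _).2 h3)
  refine ⟨((p * y + x : 𝓞 (Q2 δ)) : Q2 δ).norm, ?_⟩
  obtain ⟨b, hb⟩ : ∃ b, b = ((p * y + x : 𝓞 (Q2 δ)) : Q2 δ) := ⟨_, rfl⟩
  have h1 : algebraMap K (Q2 δ) b.norm = b * ⟨b.re, -b.im⟩ := by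
    rw [algebraMap_Q2]
    ext
    · simp [QuadraticAlgebra.norm_def, QuadraticAlgebra.re_mul]
      ring
    · simp [QuadraticAlgebra.im_mul]
      ring
  rw [← hb] at hb2 ⊢
  rw [h1, map_mul, ← hP, hb2, mul_one, hb]
  exact (HeightOneSpectrum.valuation_of_algebraMap P _).trans hb1

end

section
variable {K : Type} [Field K] [NumberField K] [IsCyclotomicExtension {3} ℚ K] {o : K}
  (ho : o ^ 2 + o + 1 = 0)

include ho

theorem fb4b_prim : IsPrimitiveRoot o 3 := by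
  have h3 : o ^ 3 = 1 := by linear_combination (o - 1) * ho
  have h1 : o ≠ 1 := by
    rintro rfl
    norm_num at ho
  have : Fact (Nat.Prime 3) := ⟨Nat.prime_three⟩
  have h5 := IsPrimitiveRoot.orderOf o
  rwa [orderOf_eq_prime h3 h1] at h5

theorem fb4b_norm : Algebra.norm ℚ (o - 4) = 21 := by
  have hζ := fb4b_prim ho
  have hirr : Irreducible (Polynomial.cyclotomic 3 ℚ) :=
    Polynomial.cyclotomic.irreducible_rat (by norm_num)
  set B := hζ.powerBasis ℚ with hB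
  have hgen : B.gen = o := hζ.powerBasis_gen ℚ
  have h1 : Algebra.norm ℚ (4 - o) = 21 := by
    rw [Algebra.norm_eq_matrix_det B.basis]
    have h2 := charpoly_leftMulMatrix B
    rw [hgen, ← hζ.minpoly_eq_cyclotomic_of_irreducible hirr] at h2
    have h3 := Matrix.eval_charpoly (Algebra.leftMulMatrix B.basis o) (4 : ℚ)
    rw [h2] at h3
    have h4 : Algebra.leftMulMatrix B.basis (4 - o) =
        Matrix.scalar _ (4 : ℚ) - Algebra.leftMulMatrix B.basis o := by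
      rw [map_sub, map_ofNat]
      rfl
    rw [h4, ← h3, Polynomial.cyclotomic_three]
    norm_num
  have h2 : o - 4 = algebraMap ℚ K (-1) * (4 - o) := by
    rw [map_neg, map_one]
    ring
  have h3 : Module.finrank ℚ K = 2 := by
    rw [IsCyclotomicExtension.finrank K hirr]
    rfl
  rw [h2, map_mul, Algebra.norm_algebraMap, h1, h3]
  norm_num

theorem fb4b_val (d : 𝓞 K) (hd : (d : K) = o - 4) (v : HeightOneSpectrum (𝓞 K))
    (h : d ∈ v.asIdeal) : v.valuation K (o - 4) = exp (-1 : ℤ) := by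
  have hN : Algebra.norm ℤ d = 21 := by
    have h1 := Algebra.coe_norm_int d
    rw [hd, fb4b_norm ho] at h1
    exact_mod_cast h1
  have h2 : d ∉ v.asIdeal ^ 2 := by
    intro hcon
    have h3 : v.asIdeal ^ 2 ∣ Ideal.span {d} := Ideal.dvd_span_singleton.2 hcon
    have h4 := Ideal.absNorm_dvd_absNorm_of_le (Ideal.le_of_dvd h3)
    rw [map_pow, Ideal.absNorm_span_singleton, hN] at h4
    have h5 : Ideal.absNorm v.asIdeal ≠ 1 := by
      rw [Ne, Ideal.absNorm_eq_one_iff]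
      exact v.isPrime.ne_top
    have h6 : Ideal.absNorm v.asIdeal ^ 2 ≤ 21 := Nat.le_of_dvd (by norm_num) h4
    have h7 : Ideal.absNorm v.asIdeal ≤ 4 := by nlinarith
    change Ideal.absNorm v.asIdeal ^ 2 ∣ 21 at h4
    interval_cases (Ideal.absNorm v.asIdeal) <;> revert h4 <;> simp_all
  have hd0 : d ≠ 0 := by
    rintro rfl
    exact h2 (Submodule.zero_mem _)
  rw [← hd]
  have h3 : v.valuation K (d : K) = v.intValuation d := v.valuation_of_algebraMap d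
  rw [h3]
  have h4 : v.intValuation d ≤ exp (-((1 : ℕ) : ℤ)) := by
    rw [v.intValuation_le_pow_iff_mem, pow_one]
    exact h
  have h5 : ¬ v.intValuation d ≤ exp (-((2 : ℕ) : ℤ)) := by
    rw [v.intValuation_le_pow_iff_mem]
    exact h2
  rw [v.intValuation_if_neg hd0] at h4 h5 ⊢
  rw [exp_le_exp] at h4 h5
  congr 1
  push_cast at h4 h5
  omega

end


section
variable (K : Type) [Field K] [NumberField K] [IsCyclotomicExtension {3} ℚ K] (o : K)
  (ho : o ^ 2 + o + 1 = 0) [Fact (NonSq (o - 4))] (d : 𝓞 K) (hd : (d : K) = o - 4)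

include hd in
/-- [FB4c] the prime `v` of `K` is not split in `K(√δ)`, `δ = ω - 4`, if `δ` is not a square modulo `v`.
PROOF. Let `P` above `v`, `P'` its conjugate, `s = √δ`. Suppose `P' ≠ P`. The number of primes above
`v` times `e f` is `2` (`Q2 / K` is Galois of degree `2`;
`Ideal.ncard_primesOver_mul_ramificationIdxIn_mul_inertiaDegIn`), so `f = 1`: the map
`𝓞 K / v → 𝓞 L / P` is bijective and there is `x ∈ 𝓞 K` with `x - s ∈ P`, `x² - δ ∈ P ∩ K = v`,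
contradiction. (Alternative without the formula: choose `a ∈ P' \ P`, hence `star a ∈ P \ P'`; let
`a = α + β s`, `α, β ∈ K`, `v(β) = ...`; `a ≡ a + star a = 2 α` and `s (a - star a) = 2 β δ` are in `K` and
`s ≡ 2 β δ / 2 α` modulo `P`.) -/
theorem nonsplit_nonsq (P : HeightOneSpectrum (𝓞 (Q2 (o - 4)))) (v : HeightOneSpectrum (𝓞 K))
    (hv : v.asIdeal = P.asIdeal.under (𝓞 K)) (h : ¬ ∃ x : 𝓞 K, x ^ 2 - d ∈ v.asIdeal)
    (z : Q2 (o - 4)) : P.valuation (Q2 (o - 4)) ⟨z.re, -z.im⟩ = P.valuation (Q2 (o - 4)) z := by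
  obtain ⟨P', hP'⟩ := exists_conj_prime P
  by_cases hPP : P' = P
  · rw [← hP', hPP]
  · exfalso
    obtain ⟨t, u, ht, hu⟩ := fb4b_split d hd P P' hPP hP'
    have ht' : t ∉ v.asIdeal := by
      rw [hv]
      exact ht
    have hu' : u ^ 2 - d * t ^ 2 ∈ v.asIdeal := by
      rw [hv]
      exact hu
    obtain ⟨t', ht1⟩ : ∃ t', t * t' - 1 ∈ v.asIdeal := by
      have := v.isMaximal
      have h1 : Ideal.Quotient.mk v.asIdeal t ≠ 0 := by
        rw [Ne, Ideal.Quotient.eq_zero_iff_mem]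
        exact ht'
      obtain ⟨y, hy⟩ := Ideal.Quotient.exists_inv h1
      obtain ⟨y, rfl⟩ := Ideal.Quotient.mk_surjective y
      refine ⟨y, ?_⟩
      rw [← Ideal.Quotient.eq_zero_iff_mem, map_sub, map_mul, hy, map_one, sub_self]
    refine h ⟨u * t', ?_⟩
    have h2 : (u * t') ^ 2 - d = (u ^ 2 - d * t ^ 2) * t' ^ 2 + d * (t * t' + 1) * (t * t' - 1) := by
      ring
    rw [h2]
    exact Ideal.add_mem _ (Ideal.mul_mem_right _ _ hu') (Ideal.mul_mem_left _ _ ht1)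

include ho hd in
/-- [FB4d] the primes `λ` and `π` (`-δ = λ π`) are ramified. PROOF. `v(δ) = exp (-1)`: `N(δ) = 21` is
squarefree. If `P' ≠ P` then `e = 1`, `P(δ) = v(δ) = exp (-1)`, but `P(δ) = P(s)²`. -/
theorem nonsplit_dvd (P : HeightOneSpectrum (𝓞 (Q2 (o - 4)))) (v : HeightOneSpectrum (𝓞 K))
    (hv : v.asIdeal = P.asIdeal.under (𝓞 K)) (h : d ∈ v.asIdeal)
    (z : Q2 (o - 4)) : P.valuation (Q2 (o - 4)) ⟨z.re, -z.im⟩ = P.valuation (Q2 (o - 4)) z := by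
  obtain ⟨P', hP'⟩ := exists_conj_prime P
  by_cases hPP : P' = P
  · rw [← hP', hPP]
  · exfalso
    have hlo : P.asIdeal.LiesOver v.asIdeal := ⟨hv⟩
    obtain ⟨x, hx⟩ := fb4b_unif P P' hPP hP'
    have h1 := HeightOneSpectrum.valuation_liesOver (K := K) (Q2 (o - 4)) v P x
    rw [hx] at h1
    obtain ⟨e, he⟩ : ∃ e, e = v.asIdeal.ramificationIdx' P.asIdeal := ⟨_, rfl⟩
    have hx0 : v.valuation K x ≠ 0 := by
      intro h0
      rw [h0] at h1
      rcases Nat.eq_zero_or_pos e with h2 | h2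
      · rw [← he, h2, pow_zero] at h1
        have h3 : exp (0 : ℤ) = exp (-1 : ℤ) := h1
        rw [exp_inj] at h3
        omega
      · rw [← he, zero_pow (by omega)] at h1
        exact exp_ne_zero h1.symm
    obtain ⟨k, hk⟩ : ∃ k : ℤ, v.valuation K x = exp k := ⟨log (v.valuation K x), (exp_log hx0).symm⟩
    have he1 : e = 1 := by
      rw [hk, ← he, ← exp_nsmul, exp_inj, nsmul_eq_mul] at h1
      have h2 : (e : ℤ) ∣ 1 := ⟨-k, by linear_combination h1⟩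
      have h3 := Int.natAbs_dvd_natAbs.2 h2
      simpa using h3
    have h2 := HeightOneSpectrum.valuation_liesOver (K := K) (Q2 (o - 4)) v P (o - 4)
    rw [← he, he1, pow_one, fb4b_val ho d hd v h] at h2
    have h3 : algebraMap K (Q2 (o - 4)) (o - 4) = ⟨0, 1⟩ ^ 2 := by
      rw [algebraMap_Q2, sq]
      ext <;> simp
    rw [h3, map_pow] at h2
    obtain ⟨y, hy⟩ : ∃ y, y = P.valuation (Q2 (o - 4)) ⟨0, 1⟩ := ⟨_, rfl⟩
    rw [← hy] at h2
    have hy0 : y ≠ 0 := by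
      rintro h0
      rw [h0, zero_pow two_ne_zero] at h2
      exact exp_ne_zero h2
    rw [← exp_log hy0, ← exp_nsmul, exp_inj, nsmul_eq_mul] at h2
    push_cast at h2
    omega

end

end THF
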