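import Pool.Agent.MP_9ab903_nt.TH.F0

/-!
# [NG3-FD] Descent of invariant classes modulo cubes (the base field contains `ω`)
-/

set_option autoImplicit false

open NumberField IsDedekindDomain
open scoped Classical

namespace THF

theorem fd_comm {K M : Type} [Field K] [Field M] [Algebra K M] (σ : M ≃ₐ[K] M) (δ : K) :
    (σ : M →+* M) (algebraMap K M δ) = algebraMap K M δ := σ.commutes δ

theorem fd_alg {M : Type} [Field M] (o : M) (ho : o ^ 2 + o + 1 = 0) (δ : M) :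
    (algebraMap M (Q2 δ) o) ^ 2 + algebraMap M (Q2 δ) o + 1 = 0 := by
  rw [← map_pow, ← map_add, ← map_one (algebraMap M (Q2 δ)), ← map_add, ho, map_zero]

/-- [FDa] the action of `ω` on the norm. PROOF. `N(a) = a²` for `a` in the field. -/
theorem cube_unique {M : Type} [Field M] [CharZero M] (o : M) (ho : o ^ 2 + o + 1 = 0) {δ : M}
    [Fact (NonSq δ)] (u v : Q2 δ) (hv : v ≠ 0) (h3 : u ^ 3 = v ^ 3) (hN : u.norm = v.norm) :
    u = v := by
  -- `(u - v) (u - o v) (u - o² v) = 0`; if `u = o v` then `N u = o² N v`, `N v ≠ 0`, `o² ≠ 1`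
  have hO := fd_alg o ho δ
  set O : Q2 δ := algebraMap M (Q2 δ) o with hOdef
  have hv' : v.norm ≠ 0 := fun h => hv (QuadraticAlgebra.norm_eq_zero_iff_eq_zero.1 h)
  have hfac : (u - v) * ((u - O * v) * (u - O ^ 2 * v)) = 0 := by
    have e1 : (u - v) * ((u - O * v) * (u - O ^ 2 * v)) =
      u ^ 3 - v ^ 3 + (O ^ 2 + O + 1) * (-(u ^ 2 * v) + O * u * v ^ 2 - (O - 1) * v ^ 3) := by ring
    rw [e1, h3, hO]
    ring
  have ho1 : o ≠ 1 := by
    rintro rfl
    have h : (3 : M) = 0 := by linear_combination ho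
    exact absurd h (by norm_num)
  have ho3 : o ^ 3 = 1 := by linear_combination (o - 1) * ho
  rcases mul_eq_zero.1 hfac with h | h
  · exact sub_eq_zero.1 h
  · exfalso
    rcases mul_eq_zero.1 h with h | h
    · have h1 : u.norm = o ^ 2 * v.norm := by
        rw [sub_eq_zero.1 h, map_mul, hOdef, QuadraticAlgebra.norm_algebraMap]
      rw [hN] at h1
      have h2 : o ^ 2 = 1 := by
        have h3 : (o ^ 2 - 1) * v.norm = 0 := by linear_combination -h1
        rcases mul_eq_zero.1 h3 with h4 | h4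
        · exact sub_eq_zero.1 h4
        · exact absurd h4 hv'
      apply ho1
      calc o = o ^ 3 * (o ^ 2) ^ 2 * o ^ 0 * (o ^ 3) ^ 0 / o ^ 6 * 1 := by
            have h6 : o ≠ 0 := by
              rintro rfl
              simp at h2
            field_simp
        _ = 1 := by
            have h7 : o ^ 6 = 1 := by
              calc o ^ 6 = (o ^ 3) ^ 2 := by ring
                _ = 1 := by rw [ho3]; ring
            rw [ho3, h2, h7]
            norm_num
    · have h1 : u.norm = (o ^ 2) ^ 2 * v.norm := by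
        rw [sub_eq_zero.1 h, map_mul, hOdef, ← map_pow, QuadraticAlgebra.norm_algebraMap]
      rw [hN] at h1
      have h2 : o = 1 := by
        have h3 : (o - 1) * v.norm = 0 := by
          have h4 : (o ^ 2) ^ 2 = o := by
            calc (o ^ 2) ^ 2 = o ^ 3 * o := by ring
              _ = o := by rw [ho3, one_mul]
          rw [h4] at h1
          linear_combination -h1
        rcases mul_eq_zero.1 h3 with h4 | h4
        · exact sub_eq_zero.1 h4
        · exact absurd h4 hv'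
      exact ho1 h2

/-- [FDb] PROOF. `N(u)³ = x³` gives `N u = o ^ i x`; replace `u` by `o ^ i u`: `N(o ^ i u) = o ^ (3 i) x`
(`i = 0, 1, 2`). -/
theorem exists_norm_eq {M : Type} [Field M] [CharZero M] (o : M) (ho : o ^ 2 + o + 1 = 0) {δ : M}
    (u : Q2 δ) (x : M) (h : u.norm ^ 3 = x ^ 3) :
    ∃ u' : Q2 δ, u' ^ 3 = u ^ 3 ∧ u'.norm = x := by
  have ho3 : o ^ 3 = 1 := by linear_combination (o - 1) * ho
  have hO3 : (algebraMap M (Q2 δ) o) ^ 3 = 1 := by
    rw [← map_pow, ho3, map_one]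
  have hfac : (u.norm - x) * ((u.norm - o * x) * (u.norm - o ^ 2 * x)) = 0 := by
    have e1 : (u.norm - x) * ((u.norm - o * x) * (u.norm - o ^ 2 * x)) =
      u.norm ^ 3 - x ^ 3 + (o ^ 2 + o + 1) *
        (-(u.norm ^ 2 * x) + o * u.norm * x ^ 2 - (o - 1) * x ^ 3) := by ring
    rw [e1, h, ho]
    ring
  rcases mul_eq_zero.1 hfac with h1 | h1
  · exact ⟨u, rfl, sub_eq_zero.1 h1⟩
  · rcases mul_eq_zero.1 h1 with h1 | h1
    · refine ⟨algebraMap M (Q2 δ) o * u, by rw [mul_pow, hO3, one_mul], ?_⟩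
      rw [map_mul, QuadraticAlgebra.norm_algebraMap, sub_eq_zero.1 h1]
      linear_combination x * ho3
    · refine ⟨algebraMap M (Q2 δ) (o ^ 2) * u, ?_, ?_⟩
      · rw [mul_pow, map_pow, ← pow_mul, pow_mul', hO3, one_pow, one_mul]
      · rw [map_mul, QuadraticAlgebra.norm_algebraMap, sub_eq_zero.1 h1]
        linear_combination x * (o ^ 3 + 1) * ho3

/-- [FDc] PROOF. Port of `CF.descend_gal` (`MP_9ab903_nt/CF/SG1.lean`; there for squares): `hinv` and
`hN` give `N(u σ)³ = (σ y / y)³`, so by FDb we may choose `u σ` with `z^σ = z (u σ)³`,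
`N(u σ) = σ y / y`; by uniqueness (FDa) `u (σ τ) = u σ * σ (u τ)`; linear independence of the
automorphisms gives `θ ≠ 0` with `u σ * σ θ = θ`; `t = θ`, `z θ³` is fixed by all `σ`, and
`y * N θ` is fixed too: `σ (y N θ) = σ y * N θ / N (u σ) = y N θ`; `N z₀ = (y N θ)³`. -/
theorem descend_gal {K M : Type} [Field K] [CharZero K] [Field M] [CharZero M] [Algebra K M]
    [FiniteDimensional K M] [IsGalois K M] (o : K) (ho : o ^ 2 + o + 1 = 0) (δ : K)
    [Fact (NonSq (algebraMap K M δ))] (z : Q2 (algebraMap K M δ)) (hz : z ≠ 0) (y : M)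
    (hN : z.norm = y ^ 3)
    (hinv : ∀ σ : M ≃ₐ[K] M, ∃ u : Q2 (algebraMap K M δ),
      mapQ (σ : M →+* M) (σ.commutes δ) z = z * u ^ 3) :
    ∃ t : Q2 (algebraMap K M δ), t ≠ 0 ∧ ∃ z0 : Q2 δ,
      mapQ (algebraMap K M) rfl z0 = z * t ^ 3 ∧ ∃ r : K, z0.norm = r ^ 3 := by
  have hinv' : ∀ σ : M ≃ₐ[K] M, ∃ u : Q2 (algebraMap K M δ),
      mapQ (σ : M →+* M) (fd_comm σ δ) z = z * u ^ 3 := hinv
  clear hinv
  have hzn : z.norm ≠ 0 := fun h => hz (QuadraticAlgebra.norm_eq_zero_iff_eq_zero.1 h)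
  have hy : y ≠ 0 := by
    rintro rfl
    rw [hN] at hzn
    simp at hzn
  have hoM : (algebraMap K M o) ^ 2 + algebraMap K M o + 1 = 0 := by
    rw [← map_pow, ← map_add, ← map_one (algebraMap K M), ← map_add, ho, map_zero]
  have hcomp : ∀ (σ τ : M ≃ₐ[K] M) (x : Q2 (algebraMap K M δ)),
      mapQ (σ : M →+* M) (fd_comm σ δ) (mapQ (τ : M →+* M) (fd_comm τ δ) x) =
      mapQ ((σ * τ : M ≃ₐ[K] M) : M →+* M) (fd_comm (σ * τ) δ) x := by
    intro σ τ x
    rfl
  have hex : ∀ σ : M ≃ₐ[K] M, ∃ u : Q2 (algebraMap K M δ),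
      mapQ (σ : M →+* M) (fd_comm σ δ) z = z * u ^ 3 ∧ u.norm = σ y / y := by
    intro σ
    obtain ⟨u, hu⟩ := hinv' σ
    have h1 : (mapQ (σ : M →+* M) (fd_comm σ δ) z).norm = σ y ^ 3 := by
      rw [norm_mapQ, hN, map_pow]
      rfl
    rw [hu, map_mul, map_pow, hN] at h1
    have h2 : u.norm ^ 3 = (σ y / y) ^ 3 := by
      rw [div_pow, eq_div_iff (pow_ne_zero 3 hy)]
      linear_combination h1
    obtain ⟨u', hu', hn⟩ := exists_norm_eq (algebraMap K M o) hoM u _ h2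
    exact ⟨u', by rw [hu, hu'], hn⟩
  choose u hu1 hu2 using hex
  have hσy : ∀ σ : M ≃ₐ[K] M, σ y ≠ 0 := fun σ => (map_ne_zero_iff σ σ.injective).mpr hy
  have hu0 : ∀ σ, (u σ).norm ≠ 0 := by
    intro σ
    rw [hu2]
    exact div_ne_zero (hσy σ) hy
  have hune : ∀ σ, u σ ≠ 0 := by
    intro σ h
    apply hu0 σ
    rw [h]
    exact QuadraticAlgebra.norm_zero
  have hcoc : ∀ σ τ, u (σ * τ) = u σ * mapQ (σ : M →+* M) (fd_comm σ δ) (u τ) := by
    intro σ τ
    have hnorm : (u σ * mapQ (σ : M →+* M) (fd_comm σ δ) (u τ)).norm = (u (σ * τ)).norm := by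
      rw [map_mul, norm_mapQ, hu2, hu2, hu2]
      have h1 : (σ : M →+* M) (τ y / y) = σ (τ y) / σ y := map_div₀ σ _ _
      have h2 : (σ * τ) y = σ (τ y) := rfl
      have h3 : σ y ≠ 0 := hσy σ
      rw [h1, h2]
      field_simp
    refine cube_unique (algebraMap K M o) hoM _ _ ?_ ?_ hnorm.symm
    · intro h
      apply hu0 (σ * τ)
      rw [← hnorm, h]
      exact QuadraticAlgebra.norm_zero
    · have h1 := hu1 (σ * τ)
      rw [← hcomp, hu1 τ, map_mul, map_pow, hu1 σ] at h1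
      have h2 : z * (u (σ * τ) ^ 3) =
          z * (u σ * mapQ (σ : M →+* M) (fd_comm σ δ) (u τ)) ^ 3 := by
        rw [← h1]
        ring
      exact mul_left_cancel₀ hz h2
  have hinj : Function.Injective (fun σ : M ≃ₐ[K] M =>
      ((mapQ (σ : M →+* M) (fd_comm σ δ) :
        Q2 (algebraMap K M δ) →+* Q2 (algebraMap K M δ)) :
        Q2 (algebraMap K M δ) →* Q2 (algebraMap K M δ))) := by
    intro σ τ h
    apply AlgEquiv.ext
    intro a
    have h1 := DFunLike.congr_fun h (⟨a, 0⟩ : Q2 (algebraMap K M δ))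
    change mapQ (σ : M →+* M) (fd_comm σ δ) (⟨a, 0⟩ : Q2 (algebraMap K M δ)) =
      mapQ (τ : M →+* M) (fd_comm τ δ) (⟨a, 0⟩ : Q2 (algebraMap K M δ)) at h1
    exact congrArg QuadraticAlgebra.re h1
  have hli := (linearIndependent_monoidHom (Q2 (algebraMap K M δ)) (Q2 (algebraMap K M δ))).comp _
    hinj
  obtain ⟨c, hc⟩ : ∃ c : Q2 (algebraMap K M δ),
      ∑ τ : M ≃ₐ[K] M, u τ * mapQ (τ : M →+* M) (fd_comm τ δ) c ≠ 0 := by
    by_contra hcon
    push Not at hcon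
    refine hune 1 (Fintype.linearIndependent_iff.mp hli u ?_ 1)
    funext c
    rw [Finset.sum_apply]
    exact hcon c
  set θ := ∑ τ : M ≃ₐ[K] M, u τ * mapQ (τ : M →+* M) (fd_comm τ δ) c with hθ
  have hσθ : ∀ σ : M ≃ₐ[K] M, u σ * mapQ (σ : M →+* M) (fd_comm σ δ) θ = θ := by
    intro σ
    rw [hθ, map_sum, Finset.mul_sum]
    rw [← Equiv.sum_comp (Equiv.mulLeft σ)
      (fun τ : M ≃ₐ[K] M => u τ * mapQ (τ : M →+* M) (fd_comm τ δ) c)]
    refine Finset.sum_congr rfl fun τ _ => ?_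
    rw [map_mul, hcomp, Equiv.coe_mulLeft, hcoc]
    ring
  have hfix : ∀ σ : M ≃ₐ[K] M, mapQ (σ : M →+* M) (fd_comm σ δ) (z * θ ^ 3) = z * θ ^ 3 := by
    intro σ
    rw [map_mul, map_pow, hu1]
    have h1 := hσθ σ
    calc z * u σ ^ 3 * mapQ (σ : M →+* M) (fd_comm σ δ) θ ^ 3 =
        z * (u σ * mapQ (σ : M →+* M) (fd_comm σ δ) θ) ^ 3 := by ring
      _ = z * θ ^ 3 := by rw [h1]
  have hrat : ∀ x : M, (∀ σ : M ≃ₐ[K] M, σ x = x) → ∃ q : K, algebraMap K M q = x := by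
    intro x hx
    exact (IsGalois.mem_range_algebraMap_iff_fixed x).mpr hx
  obtain ⟨a0, ha0⟩ := hrat (z * θ ^ 3).re fun σ => congrArg QuadraticAlgebra.re (hfix σ)
  obtain ⟨b0, hb0⟩ := hrat (z * θ ^ 3).im fun σ => congrArg QuadraticAlgebra.im (hfix σ)
  have hz0 : mapQ (algebraMap K M) rfl (⟨a0, b0⟩ : Q2 δ) = z * θ ^ 3 := by
    rw [mapQ_apply]
    exact QuadraticAlgebra.ext ha0 hb0
  have hyfix : ∀ σ : M ≃ₐ[K] M, σ (y * θ.norm) = y * θ.norm := by
    intro σ
    have h1 := congrArg QuadraticAlgebra.norm (hσθ σ)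
    rw [map_mul, norm_mapQ, hu2] at h1
    have h2 : σ y / y * σ θ.norm = θ.norm := h1
    rw [map_mul]
    rw [div_mul_eq_mul_div, div_eq_iff hy] at h2
    rw [h2]
    ring
  obtain ⟨r, hr⟩ := hrat (y * θ.norm) hyfix
  refine ⟨θ, hc, ⟨a0, b0⟩, hz0, r, ?_⟩
  apply (algebraMap K M).injective
  rw [← norm_mapQ (algebraMap K M) (rfl : algebraMap K M δ = algebraMap K M δ), hz0, map_mul,
    map_pow, map_pow, hN, hr]
  ring

/-- [FDd] restriction is injective. PROOF. By FDb we may assume `N t = n` (`N(t)³ = n³`). For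
`σ : M ≃ₐ[F] M`, `(σ t)³ = σ (t³) = t³` and `N(σ t) = σ (N t) = σ n = n = N t`, so `σ t = t` by FDa, and
`t` comes from `Q2 δ` (both coordinates are fixed). -/
theorem cube_down {F M : Type} [Field F] [CharZero F] [Field M] [CharZero M] [Algebra F M]
    [IsGalois F M] (o : F) (ho : o ^ 2 + o + 1 = 0) (δ : F)
    [Fact (NonSq (algebraMap F M δ))] (z : Q2 δ) (hz : z ≠ 0) (hN : ∃ n : F, z.norm = n ^ 3)
    (t : Q2 (algebraMap F M δ)) (ht : mapQ (algebraMap F M) rfl z = t ^ 3) :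
    ∃ t0 : Q2 δ, z = t0 ^ 3 := by
  obtain ⟨n, hn⟩ := hN
  have hoM : (algebraMap F M o) ^ 2 + algebraMap F M o + 1 = 0 := by
    rw [← map_pow, ← map_add, ← map_one (algebraMap F M), ← map_add, ho, map_zero]
  have h1 : t.norm ^ 3 = (algebraMap F M n) ^ 3 := by
    rw [← map_pow QuadraticAlgebra.norm, ← ht, norm_mapQ, hn, map_pow]
  obtain ⟨s, hs3, hsn⟩ := exists_norm_eq (algebraMap F M o) hoM t _ h1
  have hs : mapQ (algebraMap F M) rfl z = s ^ 3 := by rw [ht, hs3]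
  have hs0 : s ≠ 0 := by
    rintro rfl
    rw [zero_pow (by norm_num)] at hs
    apply hz
    apply mapQ_injective (algebraMap F M) (rfl : algebraMap F M δ = algebraMap F M δ)
    rw [hs, map_zero]
  have hfix : ∀ σ : M ≃ₐ[F] M, mapQ (σ : M →+* M) (fd_comm σ δ) s = s := by
    intro σ
    refine cube_unique (algebraMap F M o) hoM _ _ hs0 ?_ ?_
    · rw [← map_pow, ← hs]
      rw [mapQ_apply, mapQ_apply]
      exact QuadraticAlgebra.ext (σ.commutes _) (σ.commutes _)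
    · rw [norm_mapQ, hsn]
      exact σ.commutes n
  have hrat : ∀ x : M, (∀ σ : M ≃ₐ[F] M, σ x = x) → ∃ q : F, algebraMap F M q = x := by
    intro x hx
    exact (InfiniteGalois.mem_range_algebraMap_iff_fixed x).mpr hx
  obtain ⟨a0, ha0⟩ := hrat s.re fun σ => congrArg QuadraticAlgebra.re (hfix σ)
  obtain ⟨b0, hb0⟩ := hrat s.im fun σ => congrArg QuadraticAlgebra.im (hfix σ)
  refine ⟨⟨a0, b0⟩, ?_⟩
  apply mapQ_injective (algebraMap F M) (rfl : algebraMap F M δ = algebraMap F M δ)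
  rw [hs, map_pow]
  congr 1
  rw [mapQ_apply]
  exact (QuadraticAlgebra.ext ha0 hb0).symm

end THF
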