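import Pool.Agent.MP_9ab903_nt.TH.FH
import Pool.Agent.MP_9ab903_nt.T3.T3

/-!
# [NG3-FE1] `y² + o² y = x³ + (2 + o) x² + (1 + o) x` is isomorphic to `y² = x³ + 48 (4 - o)`
-/

set_option autoImplicit false

open NumberField IsDedekindDomain
open scoped Classical

namespace THF

theorem om_la {L : Type} [Field L] [CharZero L] {o : L} (ho : o ^ 2 + o + 1 = 0) : 1 - o ≠ 0 := by
  intro h
  have h1 : (3 : L) = 0 := by linear_combination ho + (o + 2) * h
  exact three_ne_zero h1

theorem fe1_four {L : Type} [Field L] [CharZero L] {o : L} (ho : o ^ 2 + o + 1 = 0) :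
    48 * (4 - o) ≠ 0 := by
  intro h
  have h1 : (48 * 21 : L) = 0 := by linear_combination 48 * ho + (o + 5) * h
  norm_num at h1

theorem fe1_iff {L : Type} [Field L] [CharZero L] {o : L} (ho : o ^ 2 + o + 1 = 0) (x y : L) :
    (TH.Ep o).toAffine.Equation x y ↔
      (8 * (1 - o) ^ 3 * y + 4 * (1 - o) ^ 3 * o ^ 2) ^ 2 =
        (4 * (1 - o) ^ 2 * x + 4 * (1 - o)) ^ 3 + 48 * (4 - o) := by
  rw [WeierstrassCurve.Affine.equation_iff]
  simp only [TH.Ep]
  have key : (8 * (1 - o) ^ 3 * y + 4 * (1 - o) ^ 3 * o ^ 2) ^ 2 -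
      ((4 * (1 - o) ^ 2 * x + 4 * (1 - o)) ^ 3 + 48 * (4 - o)) =
      64 * (1 - o) ^ 6 * (y ^ 2 + 0 * x * y + o ^ 2 * y -
        (x ^ 3 + (2 + o) * x ^ 2 + (1 + o) * x + 0)) := by
    linear_combination (16 * o ^ 8 + (-112) * o ^ 7 + 336 * o ^ 6 + 64 * o ^ 5 * x ^ 2 +
      64 * o ^ 5 * x + (-544) * o ^ 5 + (-320) * o ^ 4 * x ^ 2 + (-384) * o ^ 4 * x +
      448 * o ^ 4 + 640 * o ^ 3 * x ^ 2 + 896 * o ^ 3 * x + (-640) * o ^ 2 * x ^ 2 +
      (-1024) * o ^ 2 * x + (-432) * o ^ 2 + 320 * o * x ^ 2 + 576 * o * x + 496 * o +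
      (-64) * x ^ 2 + (-128) * x + (-256)) * ho
  constructor
  · intro h
    rw [← sub_eq_zero, key, sub_eq_zero.2 h, mul_zero]
  · intro h
    have h1 := sub_eq_zero.2 h
    rw [key] at h1
    have h2 : (64 * (1 - o) ^ 6 : L) ≠ 0 :=
      mul_ne_zero (by norm_num) (pow_ne_zero _ (om_la ho))
    exact sub_eq_zero.1 ((mul_eq_zero.1 h1).resolve_left h2)

/-- [FE1a] `(x, y) ↦ (4 λ² x + 4 λ, 8 λ³ y + 4 λ³ o²)`, `λ = 1 - o`. PROOF. If
`y² + o² y = x³ + (2 + o) x² + (1 + o) x` then `Y² - X³ - 48 (4 - o) = 0` for these `X`, `Y`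
(`λ² = -3 o`, `λ³ = -3 - 6 o`, `λ⁶ = -27`: `linear_combination` with `ho`); `W_nonsingular`
(F0). -/
theorem eE_nonsing {L : Type} [Field L] [CharZero L] {o : L} (ho : o ^ 2 + o + 1 = 0) {x y : L}
    (h : (TH.Ep o).toAffine.Nonsingular x y) :
    (W (48 * (4 - o))).toAffine.Nonsingular (4 * (1 - o) ^ 2 * x + 4 * (1 - o))
      (8 * (1 - o) ^ 3 * y + 4 * (1 - o) ^ 3 * o ^ 2) := by
  rw [W_nonsingular (fe1_four ho)]
  exact (fe1_iff ho x y).1 h.1

/-- The map on points. -/
def eFun {L : Type} [Field L] [CharZero L] {o : L} (ho : o ^ 2 + o + 1 = 0) :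
    (TH.Ep o).toAffine.Point → (W (48 * (4 - o))).toAffine.Point
  | .zero => .zero
  | .some _ _ h => .some _ _ (eE_nonsing ho h)

/-- the change of variables -/
noncomputable def fe1_T {L : Type} [Field L] [CharZero L] {o : L} (ho : o ^ 2 + o + 1 = 0) :
    WeierstrassCurve.VariableChange L :=
  ⟨Units.mk0 (2 * (1 - o)) (mul_ne_zero two_ne_zero (om_la ho)), 4 * (1 - o), 0,
    4 * (1 - o) ^ 3 * o ^ 2⟩

theorem fe1_smul {L : Type} [Field L] [CharZero L] {o : L} (ho : o ^ 2 + o + 1 = 0) :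
    TH.Ep o = fe1_T ho • W (48 * (4 - o)) := by
  have hl := om_la ho
  have hu : ((fe1_T ho).u : L) ≠ 0 := (fe1_T ho).u.ne_zero
  obtain ⟨h1, h2, h3, h4, h6⟩ := SB3.t3_rel (fe1_T ho) (W (48 * (4 - o)))
  have eu : ((fe1_T ho).u : L) = 2 * (1 - o) := rfl
  have er : (fe1_T ho).r = 4 * (1 - o) := rfl
  have es : (fe1_T ho).s = 0 := rfl
  have et : (fe1_T ho).t = 4 * (1 - o) ^ 3 * o ^ 2 := rfl
  have w1 : (W (48 * (4 - o))).a₁ = 0 := rfl
  have w2 : (W (48 * (4 - o))).a₂ = 0 := rfl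
  have w3 : (W (48 * (4 - o))).a₃ = 0 := rfl
  have w4 : (W (48 * (4 - o))).a₄ = 0 := rfl
  have w6 : (W (48 * (4 - o))).a₆ = 48 * (4 - o) := rfl
  rw [es, w1] at h1
  rw [es, w1, w2, er] at h2
  rw [w1, w3, et] at h3
  rw [es, w1, w2, w3, w4, er, et] at h4
  rw [w1, w2, w3, w4, w6, er, et] at h6
  rw [eu] at h1 h2 h3 h4 h6 hu
  ext
  · apply mul_left_cancel₀ hu
    rw [h1]
    show 2 * (1 - o) * 0 = _
    ring
  · apply mul_left_cancel₀ (pow_ne_zero 2 hu)
    rw [h2]
    show (2 * (1 - o)) ^ 2 * (2 + o) = _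
    linear_combination (4 * o + (-4)) * ho
  · apply mul_left_cancel₀ (pow_ne_zero 3 hu)
    rw [h3]
    show (2 * (1 - o)) ^ 3 * o ^ 2 = _
    ring
  · apply mul_left_cancel₀ (pow_ne_zero 4 hu)
    rw [h4]
    show (2 * (1 - o)) ^ 4 * (1 + o) = _
    linear_combination (16 * o ^ 3 + (-64) * o ^ 2 + 80 * o + (-32)) * ho
  · apply mul_left_cancel₀ (pow_ne_zero 6 hu)
    rw [h6]
    show (2 * (1 - o)) ^ 6 * 0 = _
    linear_combination (16 * o ^ 8 + (-112) * o ^ 7 + 336 * o ^ 6 + (-544) * o ^ 5 +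
      448 * o ^ 4 + (-432) * o ^ 2 + 496 * o + (-256)) * ho

theorem fe1_eq {L : Type} [Field L] [CharZero L] {o : L} (ho : o ^ 2 + o + 1 = 0)
    (P : (TH.Ep o).toAffine.Point) :
    eFun ho P = SB3.vc (fe1_T ho) (W (48 * (4 - o))) (CM27.trEq (fe1_smul ho) P) := by
  rcases P with _ | ⟨x, y, h⟩
  · have h0 : (WeierstrassCurve.Affine.Point.zero : (TH.Ep o).toAffine.Point) = 0 := rfl
    rw [h0, map_zero]
    rfl
  · rw [CM27.trEq_some]
    show WeierstrassCurve.Affine.Point.some _ _ _ = WeierstrassCurve.Affine.Point.some _ _ _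
    rw [WeierstrassCurve.Affine.Point.some.injEq]
    have eu : ((fe1_T ho).u : L) = 2 * (1 - o) := rfl
    have er : (fe1_T ho).r = 4 * (1 - o) := rfl
    have es : (fe1_T ho).s = 0 := rfl
    have et : (fe1_T ho).t = 4 * (1 - o) ^ 3 * o ^ 2 := rfl
    rw [eu, er, es, et]
    constructor <;> ring

/-- [FE1b] PROOF. `SB3.vc_add` (`MP_9ab903_nt/T3/T3.lean`): `vc T V : (T • V).toAffine.Point → V.toAffine.Point`
for a variable change `T`; `(TH.Ep o) = T • W (48 (4 - o))` for `T = (u, r, s, t) =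
(2 λ, 4 λ, 0, 4 λ³ o²)` (check the coefficients of `T • W _`: `a₁ = 0`, `a₂ = 3 r / u²`,
`a₃ = 2 t / u³`, `a₄ = 3 r² / u⁴`, `a₆ = (k + r³ - t²) / u⁶`), and `eFun` is `vc T` transported
along this equality. Or directly from the addition formulas as in F1 (`scal_add`). -/
theorem eFun_add {L : Type} [Field L] [CharZero L] {o : L} (ho : o ^ 2 + o + 1 = 0)
    (P Q : (TH.Ep o).toAffine.Point) : eFun ho (P + Q) = eFun ho P + eFun ho Q := by
  rw [fe1_eq, fe1_eq, fe1_eq, map_add, SB3.vc_add]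

/-- [FE1c] PROOF. The inverse on coordinates: `x = (X - 4 λ) / (4 λ²)`,
`y = (Y - 4 λ³ o²) / (8 λ³)`; nonsingular as the equation holds and the discriminant of `Ep o` is
not zero (or `WeierstrassCurve.Affine.Nonsingular` of the variable change: `SB3.vc` bijective). -/
theorem eFun_bijective {L : Type} [Field L] [CharZero L] {o : L} (ho : o ^ 2 + o + 1 = 0) :
    Function.Bijective (eFun ho) := by
  have hl := om_la ho
  constructor
  · intro P Q h
    rcases P with _ | ⟨x, y, h1⟩ <;> rcases Q with _ | ⟨x', y', h2⟩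
    · rfl
    · exact absurd h (by simp [eFun])
    · exact absurd h (by simp [eFun])
    · simp only [eFun, WeierstrassCurve.Affine.Point.some.injEq] at h
      obtain ⟨h3, h4⟩ := h
      have hx : x = x' := by
        have h5 : (4 * (1 - o) ^ 2) * x = (4 * (1 - o) ^ 2) * x' := by linear_combination h3
        exact mul_left_cancel₀ (mul_ne_zero (by norm_num) (pow_ne_zero _ hl)) h5
      have hy : y = y' := by
        have h5 : (8 * (1 - o) ^ 3) * y = (8 * (1 - o) ^ 3) * y' := by linear_combination h4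
        exact mul_left_cancel₀ (mul_ne_zero (by norm_num) (pow_ne_zero _ hl)) h5
      rw [WeierstrassCurve.Affine.Point.some.injEq]
      exact ⟨hx, hy⟩
  · intro Q
    rcases Q with _ | ⟨X, Y, h⟩
    · exact ⟨.zero, rfl⟩
    · obtain ⟨x, hx⟩ : ∃ x, x = (X - 4 * (1 - o)) / (4 * (1 - o) ^ 2) := ⟨_, rfl⟩
      obtain ⟨y, hy⟩ : ∃ y, y = (Y - 4 * (1 - o) ^ 3 * o ^ 2) / (8 * (1 - o) ^ 3) := ⟨_, rfl⟩
      have hX : 4 * (1 - o) ^ 2 * x + 4 * (1 - o) = X := by
        rw [hx]
        field_simp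
        ring
      have hY : 8 * (1 - o) ^ 3 * y + 4 * (1 - o) ^ 3 * o ^ 2 = Y := by
        rw [hy]
        field_simp
        ring
      have h1 : (TH.Ep o).toAffine.Equation x y := by
        rw [fe1_iff ho, hX, hY]
        exact (W_nonsingular (fe1_four ho) X Y).1 h
      have h2 : (TH.Ep o).toAffine.Nonsingular x y := by
        rw [WeierstrassCurve.Affine.nonsingular_iff]
        refine ⟨h1, ?_⟩
        by_contra hcon
        push Not at hcon
        obtain ⟨g1, g2⟩ := hcon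
        simp only [TH.Ep] at g1 g2
        have hY0 : Y = 0 := by
          rw [← hY]
          linear_combination 4 * (1 - o) ^ 3 * g2
        have hX0 : X = 0 := by
          have h5 : 3 * X ^ 2 = 0 := by
            rw [← hX]
            linear_combination (-16) * (1 - o) ^ 4 * g1 + ((-32) * o ^ 3 * x + (-16) * o ^ 3 +
              96 * o ^ 2 * x + 64 * o ^ 2 + (-96) * o * x + (-80) * o + 32 * x + 32) * ho
          exact pow_eq_zero_iff (two_ne_zero) |>.1 ((mul_eq_zero.1 h5).resolve_left three_ne_zero)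
        have h6 := (W_nonsingular (fe1_four ho) X Y).1 h
        rw [hX0, hY0] at h6
        exact fe1_four ho (by linear_combination -h6)
      refine ⟨.some x y h2, ?_⟩
      simp only [eFun, WeierstrassCurve.Affine.Point.some.injEq]
      exact ⟨hX, hY⟩

/-- The isomorphism of groups. -/
noncomputable def eE {L : Type} [Field L] [CharZero L] {o : L} (ho : o ^ 2 + o + 1 = 0) :
    (TH.Ep o).toAffine.Point ≃+ (W (48 * (4 - o))).toAffine.Point :=
  AddEquiv.mk' (Equiv.ofBijective (eFun ho) (eFun_bijective ho)) (eFun_add ho)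

theorem eE_some {L : Type} [Field L] [CharZero L] {o : L} (ho : o ^ 2 + o + 1 = 0) {x y : L}
    (h : (TH.Ep o).toAffine.Nonsingular x y) :
    eE ho (.some x y h) = .some (4 * (1 - o) ^ 2 * x + 4 * (1 - o))
      (8 * (1 - o) ^ 3 * y + 4 * (1 - o) ^ 3 * o ^ 2) (eE_nonsing ho h) := rfl

theorem Ep_map {L M : Type} [Field L] [Field M] (f : L →+* M) (o : L) :
    (TH.Ep o).map f = TH.Ep (f o) := by
  have h2 : f 2 = 2 := map_ofNat f 2
  simp [TH.Ep, WeierstrassCurve.map, h2]

theorem fe1_char {F : Type} [Field F] [CharZero F] (L : Type) [Field L] [Algebra F L] :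
    CharZero L := charZero_of_injective_algebraMap (algebraMap F L).injective

/-- the isomorphism over an extension -/
noncomputable def fe1_eqv {F : Type} [Field F] [CharZero F] {o : F} (ho : o ^ 2 + o + 1 = 0)
    (L : Type) [Field L] [Algebra F L] :
    SBSD.Pts (TH.Ep o) L ≃+ (W (algebraMap F L (48 * (4 - o)))).toAffine.Point :=
  haveI := fe1_char (F := F) L
  ((CM27.trEq (Ep_map (algebraMap F L) o)).trans (eE (am_om (L := L) ho))).trans
    (CM27.trEq (by
      congr 1
      rw [map_mul, map_sub, map_ofNat, map_ofNat]))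

theorem fe1_eqv_some {F : Type} [Field F] [CharZero F] {o : F} (ho : o ^ 2 + o + 1 = 0)
    (L : Type) [Field L] [Algebra F L] (x y : L)
    (h : ((TH.Ep o).baseChange L).toAffine.Nonsingular x y) :
    ∃ h', fe1_eqv ho L (.some x y h) =
      .some (4 * (1 - algebraMap F L o) ^ 2 * x + 4 * (1 - algebraMap F L o))
        (8 * (1 - algebraMap F L o) ^ 3 * y +
          4 * (1 - algebraMap F L o) ^ 3 * algebraMap F L o ^ 2) h' := by
  have := fe1_char (F := F) L
  have h2 := CM27.trEq_some (Ep_map (algebraMap F L) o) x y h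
  have h1 : fe1_eqv ho L (.some x y h) = CM27.trEq (by
      congr 1
      rw [map_mul, map_sub, map_ofNat, map_ofNat]) (eE (am_om (L := L) ho)
        (CM27.trEq (Ep_map (algebraMap F L) o) (.some x y h))) := rfl
  have h3 := h1.trans (congrArg (fun P => CM27.trEq (by
      congr 1
      rw [map_mul, map_sub, map_ofNat, map_ofNat]) (eE (am_om (L := L) ho) P)) h2)
  rw [h3, eE_some, CM27.trEq_some]
  exact ⟨_, rfl⟩

theorem fe1_nat {F : Type} [Field F] [CharZero F] {o : F} (ho : o ^ 2 + o + 1 = 0)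
    (L L' : Type) [Field L] [Algebra F L] [Field L'] [Algebra F L'] (f : L →ₐ[F] L')
    (P : SBSD.Pts (TH.Ep o) L) :
    fe1_eqv ho L' (WeierstrassCurve.Affine.Point.map (W' := TH.Ep o) f P) =
      ptW (f : L →+* L') (alg_comm f (48 * (4 - o))) (fe1_eqv ho L P) := by
  rcases P with _ | ⟨x, y, h⟩
  · have h1 : (WeierstrassCurve.Affine.Point.zero :
      ((TH.Ep o).baseChange L).toAffine.Point) = 0 := rfl
    rw [h1, map_zero, map_zero, map_zero]
    rfl
  · obtain ⟨h', h2⟩ := fe1_eqv_some ho L x y h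
    rw [h2, WeierstrassCurve.Affine.Point.map_some]
    obtain ⟨h'', h3⟩ := fe1_eqv_some ho L' (f x) (f y)
      ((WeierstrassCurve.Affine.baseChange_nonsingular (TH.Ep o).toAffine f.injective ..).mpr h)
    rw [h3]
    show WeierstrassCurve.Affine.Point.some _ _ _ = WeierstrassCurve.Affine.Point.some _ _ _
    rw [WeierstrassCurve.Affine.Point.some.injEq]
    have h4 : f (algebraMap F L o) = algebraMap F L' o := f.commutes o
    have h5 : f 4 = 4 := map_ofNat f 4
    have h8 : f 8 = 8 := map_ofNat f 8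
    constructor
    · show _ = f _
      simp only [map_add, map_mul, map_sub, map_pow, map_one, h4, h5]
    · show _ = f _
      simp only [map_add, map_mul, map_sub, map_pow, map_one, h4, h5, h8]

/-- [FE1d] PROOF. For an extension `L` of `F`, `(Ep o).baseChange L = Ep (algebraMap F L o)`
(`Ep_map`); `SB.trEq` (`MP_9ab903_nt/SB/FIN.lean`, used in `SB3.trW`) identifies the points, then `eE`,
and `W (48 * (4 - algebraMap F L o)) = W (algebraMap F L (48 * (4 - o)))` (again `trEq`, or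
`ptW (RingHom.id L)`). Naturality: on coordinates, as `SB3.trW_map` (`S3/FIN.lean`). -/
noncomputable def EpIso {F : Type} [Field F] [CharZero F] {o : F} (ho : o ^ 2 + o + 1 = 0) :
    NatIso (TH.Ep o) (48 * (4 - o)) := by
  exact
    { eqv := fun L _ _ => fe1_eqv ho L
      nat := fun L L' _ _ _ _ f P => fe1_nat ho L L' f P }

end THF
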