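import Pool.Agent.MP_9ab903_nt.TH.FG
import Pool.Agent.MP_ae0bd0_nt.B3.Q10

/-!
# [NG3-FG2] `θ` does not satisfy the condition at `λ`
-/

set_option autoImplicit false

open NumberField IsDedekindDomain
open scoped Classical

namespace THF

open WithZero BS3

/-- the case `j = 1` -/
theorem fg2_one {F : Type} [Field F] [CharZero F] (o : F) (ho : o ^ 2 + o + 1 = 0)
    (w : Valuation F (WithZero (Multiplicative ℤ))) (hδ : w (o - 4) = WithZero.exp (-1))
    (h3 : w 3 = WithZero.exp (-2)) : ¬ InU w (theta o) := by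
  rintro ⟨u, a, b, -, huab, ha, hb⟩
  obtain ⟨x, y⟩ := u
  have h3' : q10_eq w (3 : F) 2 := h3
  have hδ' : q10_eq w (o - 4) 1 := hδ
  have ha' : q10_eq w a 0 := by
    unfold q10_eq
    rw [ha, neg_zero, exp_zero]
  have hb' : q10_ge w b 1 := by
    rcases eq_or_ne b 0 with h0 | h0
    · rw [h0]; exact q10_ge_zero
    · obtain ⟨n, hn⟩ := q10_exists (w := w) h0
      have h1 : w b = exp (-n) := hn
      rw [h1, ← exp_zero, exp_lt_exp] at hb
      exact hn.ge.mono (by omega)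
  have h2' : q10_eq w (2 : F) 0 := by
    have h1 : (2 : F) = -1 + 3 := by norm_num
    rw [h1]
    exact q10_one.neg.add (h3'.ge.mono (by norm_num))
  have ho3 : o ^ 3 = 1 := by linear_combination (o - 1) * ho
  have ho1 : q10_eq w o 0 := by
    have h1 : w o ^ 3 = 1 := by rw [← map_pow, ho3, map_one]
    unfold q10_eq
    rw [neg_zero, exp_zero]
    exact (pow_eq_one_iff_of_nonneg zero_le (by norm_num)).1 h1
  have e1 := congrArg QuadraticAlgebra.re huab
  have e2 := congrArg QuadraticAlgebra.im huab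
  simp only [theta, pow_succ, pow_zero, one_mul, QuadraticAlgebra.im_mul,
    QuadraticAlgebra.re_mul] at e1 e2
  -- the norm of `u`
  have hN : (x ^ 2 - (o - 4) * y ^ 2) ^ 3 = a ^ 2 - (o - 4) * b ^ 2 := by
    rw [← e1, ← e2]
    linear_combination (-(x ^ 2 - (o - 4) * y ^ 2) ^ 3 * o * (o - 1) / 4) * ho
  have hN1 : q10_eq w (a ^ 2 - (o - 4) * b ^ 2) 0 := by
    rw [sub_eq_add_neg]
    have h1 : q10_eq w (a ^ 2) (0 + 0) := by rw [sq]; exact ha'.mul ha'
    have h2 : q10_ge w ((o - 4) * b ^ 2) (1 + (1 + 1)) := by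
      rw [sq]; exact hδ'.ge.mul (hb'.mul hb')
    exact h1.add (h2.neg.mono (by norm_num))
  have hN2 : q10_eq w (x ^ 2 - (o - 4) * y ^ 2) 0 := by
    rw [← hN] at hN1
    unfold q10_eq at hN1 ⊢
    rw [map_pow, neg_zero, exp_zero] at hN1
    rw [neg_zero, exp_zero]
    exact (pow_eq_one_iff_of_nonneg zero_le (by norm_num)).1 hN1
  have hx0 : x ≠ 0 := by
    rintro rfl
    have hy0 : y ≠ 0 := by
      rintro rfl
      have h1 : q10_ge w ((0 : F) ^ 2 - (o - 4) * 0 ^ 2) 1 := by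
        have h2 : (0 : F) ^ 2 - (o - 4) * 0 ^ 2 = 0 := by ring
        rw [h2]
        exact q10_ge_zero
      have := hN2.le h1
      omega
    obtain ⟨n, hn⟩ := q10_exists (w := w) hy0
    have h1 : q10_eq w ((0 : F) ^ 2 - (o - 4) * y ^ 2) (1 + (n + n)) := by
      have h2 : (0 : F) ^ 2 - (o - 4) * y ^ 2 = -((o - 4) * (y * y)) := by ring
      rw [h2]
      exact (hδ'.mul (hn.mul hn)).neg
    have := hN2.unique h1
    omega
  obtain ⟨m, hm⟩ := q10_exists (w := w) hx0
  have hx2 : q10_eq w (x ^ 2) (m + m) := by rw [sq]; exact hm.mul hm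
  have hmy : m = 0 ∧ q10_ge w y 0 := by
    rcases eq_or_ne y 0 with h0 | hy0
    · rw [h0] at hN2 ⊢
      have h1 : x ^ 2 - (o - 4) * 0 ^ 2 = x ^ 2 := by ring
      rw [h1] at hN2
      have := hN2.unique hx2
      exact ⟨by omega, q10_ge_zero⟩
    · obtain ⟨n, hn⟩ := q10_exists (w := w) hy0
      have h1 : q10_eq w (-((o - 4) * y ^ 2)) (1 + (n + n)) := by
        rw [sq]
        exact (hδ'.mul (hn.mul hn)).neg
      rw [sub_eq_add_neg] at hN2
      rcases lt_or_gt_of_ne (show m + m ≠ 1 + (n + n) by omega) with h2 | h2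
      · have := hN2.unique (hx2.add (h1.ge.mono (by omega)))
        exact ⟨by omega, hn.ge.mono (by omega)⟩
      · rw [add_comm] at hN2
        have := hN2.unique (h1.add (hx2.ge.mono (by omega)))
        omega
  obtain ⟨rfl, hy⟩ := hmy
  have hY : q10_ge w (3 * x ^ 2 * y + (o - 4) * y ^ 3) 1 := by
    apply q10_ge.add
    · have := (h3'.ge.mul hx2.ge).mul hy
      exact this.mono (by norm_num)
    · have := hδ'.ge.mul ((hy.mul hy).mul hy)
      have h1 : (o - 4) * y ^ 3 = (o - 4) * (y * y * y) := by ring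
      rw [h1]
      exact this.mono (by norm_num)
  have hX : q10_eq w (x ^ 3 + 3 * (o - 4) * x * y ^ 2) 0 := by
    have h1 : q10_eq w (x ^ 3) (0 + 0 + 0) := by
      have h2 : x ^ 3 = x * x * x := by ring
      rw [h2]
      exact (hm.mul hm).mul hm
    have h2 : q10_ge w (3 * (o - 4) * x * y ^ 2) (2 + 1 + 0 + (0 + 0)) := by
      rw [sq]
      exact ((h3'.ge.mul hδ'.ge).mul hm.ge).mul (hy.mul hy)
    exact q10_eq.add (n := 0) h1 (h2.mono (by norm_num))
  have hb2 : q10_eq w (2 * b) 0 := by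
    have h1 : 2 * b = (x ^ 3 + 3 * (o - 4) * x * y ^ 2) +
        o * o * (3 * x ^ 2 * y + (o - 4) * y ^ 3) := by
      rw [← e2]
      ring
    rw [h1]
    apply q10_eq.add hX
    have := (ho1.ge.mul ho1.ge).mul hY
    exact this.mono (by norm_num)
  have h5 := h2'.ge.mul hb'
  have := hb2.le h5
  omega


/-- [FGd] PROOF. `θ = (o² + √δ)/2`, `δ = o - 4`, `w o = w 2 = 1`. Suppose `θ u³ = a + b √δ`, `w a = 1`,
`w b < 1`, `u = x + y √δ`. Norms: `N(θ) = 1`, so `N(u)³ = a² - δ b²` has valuation `1`, hence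
`w (x² - δ y²) = 1`; the valuations `w (x²)` (even exponent) and `w (δ y²)` (odd exponent) are
different, so `w x = 1`, `w y ≤ 1` (as `w (y²) ≤ exp 1`). `u³ = X + Y √δ`, `X = x³ + 3 δ x y²`,
`Y = 3 x² y + δ y³`; `w Y < 1`, `w X = 1`, `b = (X + o² Y) / 2` has valuation `1`, contradiction.
For `θ²` (= `θ⁻¹` up to the cube `θ³`): if `InU w (θ²)`, then `InU w (θ⁴)` (`InU.mul`), and
`θ = θ⁴ (θ⁻¹)³`, so `InU w θ` (`InU.mul`, `InU.cube`). -/
theorem not_inU_theta {F : Type} [Field F] [CharZero F] (o : F) (ho : o ^ 2 + o + 1 = 0)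
    (w : Valuation F (WithZero (Multiplicative ℤ))) (hδ : w (o - 4) = WithZero.exp (-1))
    (h3 : w 3 = WithZero.exp (-2)) (j : ℕ) (hj : j = 1 ∨ j = 2) :
    ¬ InU w (theta o ^ j) := by
  rcases hj with rfl | rfl
  · rw [pow_one]
    exact fg2_one o ho w hδ h3
  · intro h
    have hδ1 : w (o - 4) ≤ 1 := by
      rw [hδ, ← exp_zero, exp_le_exp]
      norm_num
    have h1 := h.mul hδ1 h
    have hq := theta_quad o ho
    have ht : theta o * (algebraMap F (Q2 (o - 4)) (o ^ 2) - theta o) = 1 := by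
      linear_combination -hq
    have ht1 : IsUnit (algebraMap F (Q2 (o - 4)) (o ^ 2) - theta o) :=
      IsUnit.of_mul_eq_one _ (by rw [mul_comm]; exact ht)
    have h2 := h1.mul hδ1 (InU.cube w _ ht1)
    have h3' : theta o ^ 2 * theta o ^ 2 * (algebraMap F (Q2 (o - 4)) (o ^ 2) - theta o) ^ 3 =
        theta o := by
      have h4 : theta o ^ 2 * theta o ^ 2 * (algebraMap F (Q2 (o - 4)) (o ^ 2) - theta o) ^ 3 =
        theta o * (theta o * (algebraMap F (Q2 (o - 4)) (o ^ 2) - theta o)) ^ 3 := by ring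
      rw [h4, ht, one_pow, mul_one]
    rw [h3'] at h2
    exact fg2_one o ho w hδ h3 h2

end THF
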