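import Pool.Agent.MP_9ab903_nt.TH.F0

/-!
# [NG3-FU] `M(√δ) / K(√δ)` is unramified where `M / K` is
-/

set_option autoImplicit false
set_option linter.style.haveILetI false
set_option linter.unusedSectionVars false

open NumberField IsDedekindDomain
open scoped Classical

namespace THF

theorem fu_finrank (K : Type) [Field K] (δ : K) : Module.finrank K (Q2 δ) = 2 :=
  QuadraticAlgebra.finrank_eq_two δ 0

theorem fu_isGalois {K : Type} [Field K] [CharZero K] (δ : K) [Fact (NonSq δ)] :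
    IsGalois K (Q2 δ) := by
  haveI : Algebra.IsQuadraticExtension K (Q2 δ) := { finrank_eq_two' := fu_finrank K δ }
  exact Algebra.IsQuadraticExtension.isGalois K (Q2 δ)

section

variable {K M : Type} [Field K] [NumberField K] [Field M] [NumberField M] [Algebra K M]
    (δ : K) [Fact (NonSq δ)] [Fact (NonSq (algebraMap K M δ))]

theorem fu_scalarTower :
    letI : Algebra (Q2 δ) (Q2 (algebraMap K M δ)) :=
      (mapQ (algebraMap K M) (rfl : algebraMap K M δ = algebraMap K M δ)).toAlgebra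
    IsScalarTower K (Q2 δ) (Q2 (algebraMap K M δ)) := by
  letI : Algebra (Q2 δ) (Q2 (algebraMap K M δ)) :=
    (mapQ (algebraMap K M) (rfl : algebraMap K M δ = algebraMap K M δ)).toAlgebra
  refine IsScalarTower.of_algebraMap_eq fun x => ?_
  change algebraMap K (Q2 (algebraMap K M δ)) x = mapQ (algebraMap K M) rfl (algebraMap K (Q2 δ) x)
  rw [IsScalarTower.algebraMap_apply K M (Q2 (algebraMap K M δ)), algebraMap_Q2, algebraMap_Q2,
    mapQ_apply]
  simp

theorem fu_finrank_Q (n : ℕ) (hn : Module.finrank K M = 3 ^ n) :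
    letI : Algebra (Q2 δ) (Q2 (algebraMap K M δ)) :=
      (mapQ (algebraMap K M) (rfl : algebraMap K M δ = algebraMap K M δ)).toAlgebra
    Module.finrank (Q2 δ) (Q2 (algebraMap K M δ)) = 3 ^ n := by
  letI : Algebra (Q2 δ) (Q2 (algebraMap K M δ)) :=
    (mapQ (algebraMap K M) (rfl : algebraMap K M δ = algebraMap K M δ)).toAlgebra
  haveI : IsScalarTower K (Q2 δ) (Q2 (algebraMap K M δ)) := fu_scalarTower δ
  haveI : FiniteDimensional K (Q2 (algebraMap K M δ)) := Module.Finite.trans M _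
  haveI : Module.Finite (Q2 δ) (Q2 (algebraMap K M δ)) :=
    Module.Finite.of_restrictScalars_finite K (Q2 δ) (Q2 (algebraMap K M δ))
  have h1 := Module.finrank_mul_finrank K (Q2 δ) (Q2 (algebraMap K M δ))
  have h2 := Module.finrank_mul_finrank K M (Q2 (algebraMap K M δ))
  rw [fu_finrank] at h1
  rw [fu_finrank, hn, ← h1] at h2
  change Module.finrank (Q2 δ) (Q2 (algebraMap K M δ)) = 3 ^ n
  omega

theorem fu_comm {K M : Type} [Field K] [Field M] [Algebra K M] (σ : M ≃ₐ[K] M) (x : K) :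
    (σ : M →+* M) (algebraMap K M x) = algebraMap K M x := σ.commutes x

/-- The automorphism of `M(√δ)` over `K(√δ)`. -/
noncomputable def fu_aut (σ : M ≃ₐ[K] M) :
    letI : Algebra (Q2 δ) (Q2 (algebraMap K M δ)) :=
      (mapQ (algebraMap K M) (rfl : algebraMap K M δ = algebraMap K M δ)).toAlgebra
    Q2 (algebraMap K M δ) →ₐ[Q2 δ] Q2 (algebraMap K M δ) :=
  letI : Algebra (Q2 δ) (Q2 (algebraMap K M δ)) :=
    (mapQ (algebraMap K M) (rfl : algebraMap K M δ = algebraMap K M δ)).toAlgebra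
  { mapQ (σ : M →+* M) (fu_comm σ δ) with
    commutes' := fun z => by
      change mapQ (σ : M →+* M) (fu_comm σ δ) (mapQ (algebraMap K M) rfl z) =
        mapQ (algebraMap K M) rfl z
      rw [mapQ_apply (algebraMap K M), mapQ_apply]
      simp only [fu_comm] }

theorem fu_isGalois_Q [IsGalois K M] (n : ℕ) (hn : Module.finrank K M = 3 ^ n) :
    letI : Algebra (Q2 δ) (Q2 (algebraMap K M δ)) :=
      (mapQ (algebraMap K M) (rfl : algebraMap K M δ = algebraMap K M δ)).toAlgebra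
    IsGalois (Q2 δ) (Q2 (algebraMap K M δ)) := by
  letI : Algebra (Q2 δ) (Q2 (algebraMap K M δ)) :=
    (mapQ (algebraMap K M) (rfl : algebraMap K M δ = algebraMap K M δ)).toAlgebra
  haveI : IsScalarTower K (Q2 δ) (Q2 (algebraMap K M δ)) := fu_scalarTower δ
  haveI : FiniteDimensional K (Q2 (algebraMap K M δ)) := Module.Finite.trans M _
  haveI : Module.Finite (Q2 δ) (Q2 (algebraMap K M δ)) :=
    Module.Finite.of_restrictScalars_finite K (Q2 δ) (Q2 (algebraMap K M δ))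
  apply IsGalois.of_card_aut_eq_finrank
  have h1 : Module.finrank (Q2 δ) (Q2 (algebraMap K M δ)) = 3 ^ n := fu_finrank_Q δ n hn
  have h2 : Nat.card (Q2 (algebraMap K M δ) →ₐ[Q2 δ] Q2 (algebraMap K M δ)) ≤
      Module.finrank (Q2 δ) (Q2 (algebraMap K M δ)) :=
    card_algHom_le_finrank (Q2 δ) (Q2 (algebraMap K M δ)) (Q2 (algebraMap K M δ))
  have h3 : Nat.card Gal(M/K) = 3 ^ n := by rw [← hn, IsGalois.card_aut_eq_finrank]
  have h4 : Nat.card (Q2 (algebraMap K M δ) ≃ₐ[Q2 δ] Q2 (algebraMap K M δ)) =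
      Nat.card (Q2 (algebraMap K M δ) →ₐ[Q2 δ] Q2 (algebraMap K M δ)) :=
    Nat.card_congr (algEquivEquivAlgHom (Q2 δ) (Q2 (algebraMap K M δ))).toEquiv
  have hinj : Function.Injective (fu_aut (K := K) (M := M) δ) := by
    intro σ τ h
    ext x
    have h5 := congrArg (fun φ : Q2 (algebraMap K M δ) →ₐ[Q2 δ] Q2 (algebraMap K M δ) =>
      φ (algebraMap M (Q2 (algebraMap K M δ)) x)) h
    change mapQ (σ : M →+* M) (fu_comm σ δ) (algebraMap M (Q2 (algebraMap K M δ)) x) =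
      mapQ (τ : M →+* M) (fu_comm τ δ) (algebraMap M (Q2 (algebraMap K M δ)) x) at h5
    rw [mapQ_apply, mapQ_apply] at h5
    exact congrArg QuadraticAlgebra.re h5
  have h6 : Nat.card Gal(M/K) ≤
      Nat.card (Q2 (algebraMap K M δ) →ₐ[Q2 δ] Q2 (algebraMap K M δ)) := by
    haveI : Finite (Q2 (algebraMap K M δ) →ₐ[Q2 δ] Q2 (algebraMap K M δ)) := inferInstance
    exact Nat.card_le_card_of_injective _ hinj
  apply le_antisymm
  · rw [h4]; exact h2
  · rw [h4, h1, ← h3]; exact h6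

end

theorem fu_dvd {A B : Type} [Field A] [NumberField A] [Field B] [NumberField B] [Algebra A B]
    [IsGalois A B] (v : HeightOneSpectrum (𝓞 A)) (w : HeightOneSpectrum (𝓞 B))
    [w.asIdeal.LiesOver v.asIdeal] : w.asIdeal.ramificationIdx (𝓞 A) ∣ Module.finrank A B := by
  have h1 := Ideal.ncard_primesOver_mul_ramificationIdxIn_mul_inertiaDegIn v.asIdeal (𝓞 B)
    Gal(B/A)
  rw [Ideal.ramificationIdxIn_eq_ramificationIdx v.asIdeal w.asIdeal Gal(B/A),
    IsGalois.card_aut_eq_finrank] at h1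
  rw [← h1]
  exact dvd_mul_of_dvd_right (dvd_mul_right _ _) _

/-- [FU] PROOF. Port of `CF.unram_gal` (`MP_9ab903_nt/CF/SG2.lean`), with `R F` replaced by
`Q2 δ_M = M(√δ)`, `δ_M = algebraMap K M δ` (of degree `2` over `M` instead of `3`) and `2 ^ n` by `3 ^ n`:
make `Q2 δ_M` an algebra over `Q2 δ` by `mapQ (algebraMap K M) rfl`; `Q2 δ_M / Q2 δ` is Galois of degree
`3 ^ n` (automorphisms `mapQ σ (σ.commutes δ)`), `Q2 δ_M / M` is Galois of degree `2`
(`QuadraticAlgebra.finrank_eq_two`; characteristic zero and degree two). The ramification index of a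
prime `P` of `Q2 δ_M` over `Q2 δ` divides `3 ^ n` and (as `M / K` is unramified below) `2`, so it is `1`;
then `HeightOneSpectrum.valuation_liesOver`. -/
theorem unram_Q {K M : Type} [Field K] [NumberField K] [Field M] [NumberField M] [Algebra K M]
    [IsGalois K M] (n : ℕ) (hn : Module.finrank K M = 3 ^ n) (δ : K) [Fact (NonSq δ)]
    [Fact (NonSq (algebraMap K M δ))] (v : HeightOneSpectrum (𝓞 (Q2 δ)))
    (hu : ∀ (v₀ : HeightOneSpectrum (𝓞 K)) (P₀ : HeightOneSpectrum (𝓞 M)),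
      v₀.asIdeal = v.asIdeal.under (𝓞 K) → P₀.asIdeal.LiesOver v₀.asIdeal →
        P₀.asIdeal.ramificationIdx (𝓞 K) = 1) :
    ∃ P : HeightOneSpectrum (𝓞 (Q2 (algebraMap K M δ))), ∀ z : Q2 δ,
      P.valuation (Q2 (algebraMap K M δ)) (mapQ (algebraMap K M) rfl z) =
        v.valuation (Q2 δ) z := by
  letI : Algebra (Q2 δ) (Q2 (algebraMap K M δ)) :=
    (mapQ (algebraMap K M) (rfl : algebraMap K M δ = algebraMap K M δ)).toAlgebra
  haveI : IsScalarTower K (Q2 δ) (Q2 (algebraMap K M δ)) := fu_scalarTower δ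
  haveI : IsGalois (Q2 δ) (Q2 (algebraMap K M δ)) := fu_isGalois_Q δ n hn
  have hfr : Module.finrank (Q2 δ) (Q2 (algebraMap K M δ)) = 3 ^ n := fu_finrank_Q δ n hn
  haveI : IsGalois M (Q2 (algebraMap K M δ)) := fu_isGalois (algebraMap K M δ)
  have := v.isMaximal
  obtain ⟨Q, hQm, hQ⟩ := Ideal.exists_maximal_ideal_liesOver_of_isIntegral
    (S := 𝓞 (Q2 (algebraMap K M δ))) v.asIdeal
  have hQ0 : Q ≠ ⊥ := Ideal.ne_bot_of_liesOver_of_ne_bot v.ne_bot Q
  let P : HeightOneSpectrum (𝓞 (Q2 (algebraMap K M δ))) := ⟨Q, hQm.isPrime, hQ0⟩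
  haveI hP : P.asIdeal.LiesOver v.asIdeal := hQ
  -- the places below
  have hv0ne : v.asIdeal.under (𝓞 K) ≠ ⊥ := Ideal.IsIntegral.comap_ne_bot (𝓞 K) v.ne_bot
  have hP0ne : P.asIdeal.under (𝓞 M) ≠ ⊥ := Ideal.IsIntegral.comap_ne_bot (𝓞 M) P.ne_bot
  let v₀ : HeightOneSpectrum (𝓞 K) := ⟨v.asIdeal.under (𝓞 K), inferInstance, hv0ne⟩
  let P₀ : HeightOneSpectrum (𝓞 M) := ⟨P.asIdeal.under (𝓞 M), inferInstance, hP0ne⟩
  haveI hvv : v.asIdeal.LiesOver v₀.asIdeal := ⟨rfl⟩
  haveI hPP : P.asIdeal.LiesOver P₀.asIdeal := ⟨rfl⟩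
  haveI hPv : P.asIdeal.LiesOver v₀.asIdeal := Ideal.LiesOver.trans P.asIdeal v.asIdeal v₀.asIdeal
  haveI hP0v : P₀.asIdeal.LiesOver v₀.asIdeal := ⟨by
    rw [hPv.over]
    change _ = Ideal.under _ (Ideal.under _ _)
    rw [Ideal.under_under]⟩
  have e1 := Ideal.ramificationIdx_tower (R := 𝓞 K) v.asIdeal P.asIdeal
  have e2 := Ideal.ramificationIdx_tower (R := 𝓞 K) P₀.asIdeal P.asIdeal
  have e3 : P₀.asIdeal.ramificationIdx (𝓞 K) = 1 := hu v₀ P₀ rfl hP0v
  have d1 : P.asIdeal.ramificationIdx (𝓞 (Q2 δ)) ∣ 3 ^ n := by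
    rw [← hfr]; exact fu_dvd v P
  have d2 : P.asIdeal.ramificationIdx (𝓞 M) ∣ 2 := by
    rw [← fu_finrank M (algebraMap K M δ)]; exact fu_dvd P₀ P
  have d3 : P.asIdeal.ramificationIdx (𝓞 (Q2 δ)) ∣ 2 := by
    refine dvd_trans ?_ d2
    rw [e3, one_mul] at e2
    rw [← e2, e1]
    exact Dvd.intro_left _ rfl
  have h1 : P.asIdeal.ramificationIdx (𝓞 (Q2 δ)) = 1 := by
    have hc : Nat.Coprime (3 ^ n) 2 := Nat.Coprime.pow_left n (by norm_num)
    exact Nat.eq_one_of_dvd_coprimes hc d1 d3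
  refine ⟨P, fun z => ?_⟩
  have h2 := HeightOneSpectrum.valuation_liesOver (K := Q2 δ) (Q2 (algebraMap K M δ)) v P z
  rw [Ideal.ramificationIdx'_eq_ramificationIdx v.asIdeal P.asIdeal v.ne_bot, h1, pow_one] at h2
  exact h2.symm

end THF
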