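import Pool.Agent.MP_9ab903_nt.TH.FS0
import Pool.Agent.MP_9ab903_nt.TH.FU
import Pool.Agent.MP_9ab903_nt.TH.FD
import Pool.Agent.MP_9ab903_nt.TH.FB3
import Pool.Agent.MP_9ab903_nt.TH.FB4
import Pool.Agent.MP_9ab903_nt.TH.FG2

/-!
# [NG3-FS2] The Selmer group is trivial over a Galois extension `M / K` of 3-power degree
-/

set_option autoImplicit false

open NumberField IsDedekindDomain
open scoped Classical

namespace THF

/-- The action of the automorphisms of `M` on the units of `M(√δ)`. -/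
@[reducible] noncomputable def selAct (K M : Type) [Field K] [Field M] [Algebra K M] (δ : K) :
    MulDistribMulAction (M ≃ₐ[K] M) (Q2 (algebraMap K M δ))ˣ where
  smul σ z := Units.map ((mapQ (σ : M →+* M) (gal_comm σ δ) :
    Q2 (algebraMap K M δ) →+* Q2 (algebraMap K M δ)) :
    Q2 (algebraMap K M δ) →* Q2 (algebraMap K M δ)) z
  one_smul z := by
    ext1
    rfl
  mul_smul σ τ z := by
    ext1
    rfl
  smul_mul σ z z' := map_mul _ _ _
  smul_one σ := map_one _

/-- `6 (o - 4)` is a unit at the places of `K(√(o - 4))` where `2` and `d` are units -/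
theorem fs2_six (K : Type) [Field K] [NumberField K] [IsCyclotomicExtension {3} ℚ K] (o : K)
    (ho : o ^ 2 + o + 1 = 0) [Fact (NonSq (o - 4))] (d : 𝓞 K) (hd : (d : K) = o - 4)
    (v : HeightOneSpectrum (𝓞 (Q2 (o - 4)))) (v₀ : HeightOneSpectrum (𝓞 K))
    (hv : v₀.asIdeal = v.asIdeal.under (𝓞 K)) (h2 : (2 : 𝓞 K) ∉ v₀.asIdeal)
    (hd' : d ∉ v₀.asIdeal) :
    v.valuation (Q2 (o - 4)) (algebraMap K (Q2 (o - 4)) (6 * (o - 4))) = 1 := by
  have h3 : (3 : 𝓞 K) ∉ v₀.asIdeal := by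
    intro h3
    have e1 : (2 * d + 9) ^ 2 = (-1 : 𝓞 K) * 3 := by
      apply RingOfIntegers.coe_injective
      have e0 : algebraMap (𝓞 K) K d = o - 4 := hd
      rw [map_pow, map_add, map_mul, map_mul, map_neg, map_one, map_ofNat, map_ofNat, map_ofNat, e0]
      linear_combination 4 * ho
    have h4 : (2 * d + 9) ^ 2 ∈ v₀.asIdeal := by
      rw [e1]
      exact v₀.asIdeal.mul_mem_left _ h3
    have h5 : 2 * d + 9 ∈ v₀.asIdeal := v₀.isPrime.mem_of_pow_mem _ h4
    have h6 : 2 * d ∈ v₀.asIdeal := by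
      have h7 : 2 * d = (2 * d + 9) - 3 * 3 := by ring
      rw [h7]
      exact v₀.asIdeal.sub_mem h5 (v₀.asIdeal.mul_mem_left _ h3)
    rcases v₀.isPrime.mem_or_mem h6 with h7 | h7
    · exact h2 h7
    · exact hd' h7
  have h6 : (2 * 3 * d : 𝓞 K) ∉ v₀.asIdeal := by
    intro h
    rcases v₀.isPrime.mem_or_mem h with h7 | h7
    · rcases v₀.isPrime.mem_or_mem h7 with h8 | h8
      · exact h2 h8
      · exact h3 h8
    · exact hd' h7
  have e2 : algebraMap K (Q2 (o - 4)) (6 * (o - 4)) =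
      algebraMap (𝓞 (Q2 (o - 4))) (Q2 (o - 4))
        (algebraMap (𝓞 K) (𝓞 (Q2 (o - 4))) (2 * 3 * d)) := by
    have e3 : (6 * (o - 4) : K) = algebraMap (𝓞 K) K (2 * 3 * d) := by
      rw [map_mul, map_mul, map_ofNat, map_ofNat]
      change 6 * (o - 4) = 2 * 3 * (d : K)
      rw [hd]
      norm_num
    rw [e3]
    rfl
  rw [e2]
  refine le_antisymm (v.valuation_le_one _) (not_lt.1 fun h => ?_)
  rw [v.valuation_lt_one_iff_mem] at h
  apply h6
  rw [hv]
  exact h

/-- [FS2] PROOF. Port of `SB3.selmer_trivial3` (`MP_9ab903_nt/S3/SEL.lean`; see also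
`CF.selmer_trivial_gal` in `MP_9ab903_nt/CF/SG.lean`). `subst hδ`. Suppose `z` is not a cube.
`SB3.exists_fixed_mod3` (with the action `selAct K M (o - 4)` of `M ≃ₐ[K] M`, of order `3 ^ n`, on
the units of `Q2 (algebraMap K M (o - 4))`, and the subgroup of the `u` with `Good3 u`: `Good3.mul`,
`Good3.cube`, `Good3.inv`, `Good3.map` (FG)) gives `z1` good, not a cube, with `z1^σ = z1 u³`.
`descend_gal` (FD) gives `t ≠ 0` and `z0 : Q2 (o - 4)` over `K` with `mapQ z0 = z1 t³`, `N z0 = r³`.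
All valuations of `z0` are divisible by three: let `v` be a place of `Q2 (o - 4)` (over `K`),
`v₀` the place of `K` below. If `2 ∈ v₀`, `d ∈ v₀` or `d` is not a square modulo `v₀`:
`cube_nonsplit` (FB4). Otherwise all places `P₀` of `M` above `v₀` are unramified by `hu`, so
`unram_Q` (FU) gives `P` with `P (mapQ z0) = v z0`; `3 ∉ v₀` (as `3 ∈ v₀` implies `d ∈ v₀`:
`(d)(-(o+5)) = 21`... or: `(1+2o)² = -3`, `2 d = (1 + 2 o) - 9`), so
`P (6 (o - 4)) = v (6 (o - 4)) = 1` (apply the property of `P` to the elements `6 (o - 4)` of `K`)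
and `Good3.val` for `z1` gives the claim (`z1 t³ = mapQ z0`).
`base_class` (FB3): `z0 = θ ^ j s³`, `j < 3`. If `j = 0`, `z1 = (s / t)³` is a cube,
contradiction. Otherwise `InU w (θ_M ^ j)` for the place `w` of `exists_three` (FS0c): `z1` is good
(`Good3.three`) and `InU.mul`, `InU.cube` (FG), where `θ_M = mapQ θ`; contradiction to
`not_inU_theta` (FG2), with `mapQ_theta` (FB1; the types `Q2 (algebraMap K M (o - 4))` and
`Q2 (algebraMap K M o - 4)` differ: prove the statement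
`∀ δ' (h : algebraMap K M (o - 4) = δ'), ¬ InU w (mapQ (algebraMap K M) h (theta o ^ j))` by
`subst` of `δ' = algebraMap K M o - 4`). -/
theorem selmer_gal (K M : Type) [Field K] [NumberField K] [IsCyclotomicExtension {3} ℚ K]
    [Field M] [NumberField M] [Algebra K M] [IsGalois K M] (n : ℕ)
    (hn : Module.finrank K M = 3 ^ n) (o : K) (ho : o ^ 2 + o + 1 = 0) (d : 𝓞 K)
    (hd : (d : K) = o - 4) (hu : TH.UnrN K M d) (δ : M) (hδ : algebraMap K M (o - 4) = δ)
    [Fact (NonSq δ)] (z : Q2 δ) (hz : Good3 z) : ∃ t : Q2 δ, z = t ^ 3 := by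
  subst hδ
  have fK : Fact (NonSq (o - 4)) := ⟨base_nonsq K o ho⟩
  by_contra hsq
  let _ := selAct K M (o - 4)
  let A : Subgroup (Q2 (algebraMap K M (o - 4)))ˣ :=
    { carrier := {u | Good3 (u : Q2 (algebraMap K M (o - 4)))}
      mul_mem' := fun {a b} ha hb => by
        change Good3 ((a * b : (Q2 (algebraMap K M (o - 4)))ˣ) : Q2 (algebraMap K M (o - 4)))
        rw [Units.val_mul]
        exact Good3.mul ha hb
      one_mem' := by
        change Good3 ((1 : (Q2 (algebraMap K M (o - 4)))ˣ) : Q2 (algebraMap K M (o - 4)))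
        have := Good3.cube (1 : Q2 (algebraMap K M (o - 4))) one_ne_zero
        rwa [one_pow] at this
      inv_mem' := fun {a} ha => by
        change Good3 ((a⁻¹ : (Q2 (algebraMap K M (o - 4)))ˣ) : Q2 (algebraMap K M (o - 4)))
        rw [Units.val_inv_eq_inv_val]
        exact Good3.inv ha }
  obtain ⟨z1, hz1, hz1', hfix⟩ := SB3.exists_fixed_mod3
    (U := (Q2 (algebraMap K M (o - 4)))ˣ) (G := M ≃ₐ[K] M) n
    (by rw [IsGalois.card_aut_eq_finrank, hn]) A
    (fun σ u hu => Good3.map (hu : Good3 (u : Q2 (algebraMap K M (o - 4)))) (σ : M ≃+* M)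
      (gal_comm σ (o - 4)))
    (Units.mk0 z hz.ne) hz
    (by
      rintro ⟨u, hu⟩
      exact hsq ⟨u, by
        have := congrArg (Units.val) hu
        rw [Units.val_pow_eq_pow_val] at this
        exact this⟩)
  have hg1 : Good3 (z1 : Q2 (algebraMap K M (o - 4))) := hz1
  obtain ⟨y, hy⟩ := hg1.norm
  obtain ⟨t, ht, z0, hz0, r, hr⟩ := descend_gal o ho (o - 4)
    (z1 : Q2 (algebraMap K M (o - 4))) hg1.ne y hy
    (fun σ => by
      obtain ⟨u, hu⟩ := hfix σ
      exact ⟨u, by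
        have := congrArg (Units.val) hu
        rw [Units.val_mul, Units.val_pow_eq_pow_val] at this
        exact this⟩)
  have hz00 : z0 ≠ 0 := by
    rintro rfl
    rw [map_zero] at hz0
    exact mul_ne_zero hg1.ne (pow_ne_zero 3 ht) hz0.symm
  have heven : ∀ v : HeightOneSpectrum (𝓞 (Q2 (o - 4))), ∃ g,
      v.valuation (Q2 (o - 4)) z0 = g ^ 3 := by
    intro v
    let v₀ : HeightOneSpectrum (𝓞 K) :=
      ⟨v.asIdeal.under (𝓞 K), inferInstance, Ideal.IsIntegral.comap_ne_bot (𝓞 K) v.ne_bot⟩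
    by_cases hc : (2 : 𝓞 K) ∈ v₀.asIdeal ∨ d ∈ v₀.asIdeal ∨ ¬ ∃ x : 𝓞 K, x ^ 2 - d ∈ v₀.asIdeal
    · exact cube_nonsplit K o ho d hd z0 hz00 r hr v v₀ rfl hc
    · push Not at hc
      obtain ⟨h2, hd', hx⟩ := hc
      obtain ⟨P, hP⟩ := unram_Q n hn (o - 4) v (fun w₀ P₀ hw₀ hP₀ => hu w₀ P₀ hP₀ (by
        rw [hw₀]
        exact hx))
      have h6 := fs2_six K o ho d hd v v₀ rfl h2 hd'
      have h6' : P.valuation (Q2 (algebraMap K M (o - 4))) (algebraMap M
          (Q2 (algebraMap K M (o - 4))) (6 * algebraMap K M (o - 4))) = 1 := by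
        rw [← h6, ← hP, algebraMap_Q2, algebraMap_Q2, mapQ_apply, map_mul, map_zero, map_ofNat]
      obtain ⟨g, hg⟩ := hg1.val P h6'
      refine ⟨g * P.valuation (Q2 (algebraMap K M (o - 4))) t, ?_⟩
      rw [← hP, hz0, map_mul, map_pow, hg, mul_pow]
  have hcube : ∀ s : Q2 (o - 4), z0 ≠ s ^ 3 := by
    intro s hs
    apply hz1'
    have h1 : (z1 : Q2 (algebraMap K M (o - 4))) = (mapQ (algebraMap K M) rfl s * t⁻¹) ^ 3 := by
      rw [mul_pow, ← map_pow, ← hs, hz0, mul_assoc, ← mul_pow, mul_inv_cancel₀ ht, one_pow, mul_one]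
    have h2 : mapQ (algebraMap K M) rfl s * t⁻¹ ≠ 0 := by
      intro h0
      rw [h0, zero_pow (by norm_num)] at h1
      exact hg1.ne h1
    refine ⟨Units.mk0 _ h2, ?_⟩
    ext1
    rw [Units.val_pow_eq_pow_val, h1]
    rfl
  obtain ⟨j, s, hj, hs0, hs⟩ := base_class K o ho z0 hz00 ⟨r, hr⟩ heven
  have hj0 : j ≠ 0 := by
    rintro rfl
    rw [pow_zero, one_mul] at hs
    exact hcube s hs
  obtain ⟨v, hv1, hv3⟩ := exists_three K M o ho d hd hu
  have hoM : (algebraMap K M o) ^ 2 + algebraMap K M o + 1 = 0 := by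
    rw [← map_pow, ← map_add, ← map_one (algebraMap K M), ← map_add, ho, map_zero]
  have hv1' : v.valuation M (algebraMap K M o - 4) = WithZero.exp (-1) := by
    have h4 : algebraMap K M (o - 4) = algebraMap K M o - 4 := by rw [map_sub, map_ofNat]
    rw [← hv1, h4]
  have hI : InU (v.valuation M) (mapQ (algebraMap K M)
      (rfl : algebraMap K M (o - 4) = algebraMap K M (o - 4)) (theta o ^ j)) := by
    have h2 : mapQ (algebraMap K M) (rfl : algebraMap K M (o - 4) = algebraMap K M (o - 4)) s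
        ≠ 0 := by
      intro h0
      exact hs0 (mapQ_injective _ _ (by rw [h0, map_zero]))
    have h1 : mapQ (algebraMap K M)
        (rfl : algebraMap K M (o - 4) = algebraMap K M (o - 4)) (theta o ^ j) =
        (z1 : Q2 (algebraMap K M (o - 4))) * (t * (mapQ (algebraMap K M) rfl s)⁻¹) ^ 3 := by
      rw [mul_pow, ← mul_assoc, ← hz0, hs, map_mul, map_pow, map_pow, mul_assoc, ← mul_pow,
        mul_inv_cancel₀ h2, one_pow, mul_one]
    rw [h1]
    refine InU.mul ?_ (hg1.three v hv1 hv3) (InU.cube _ _ ?_)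
    · rw [hv1, ← WithZero.exp_zero, WithZero.exp_le_exp]
      norm_num
    · rw [isUnit_iff_ne_zero]
      exact mul_ne_zero ht (inv_ne_zero h2)
  have key : ∀ (δ' : M) (h : algebraMap K M (o - 4) = δ'), δ' = algebraMap K M o - 4 →
      InU (v.valuation M) (mapQ (algebraMap K M) h (theta o ^ j)) → False := by
    intro δ' h h' hI'
    subst h'
    rw [map_pow, mapQ_theta (algebraMap K M) o rfl h] at hI'
    exact not_inU_theta (algebraMap K M o) hoM (v.valuation M) hv1' hv3 j (by omega) hI'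
  exact key _ rfl (by rw [map_sub, map_ofNat]) hI

end THF
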