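import Pool.Agent.MP_9ab903_nt.TH.FS1
import Pool.Agent.MP_9ab903_nt.TH.FS2

/-!
# [NG3-FS3] The Selmer group is trivial over all fields of the class
-/

set_option autoImplicit false

open NumberField IsDedekindDomain
open scoped Classical

namespace THF

/-- [FS3a] the local conditions and field extensions. PROOF. As `NAB.locD_map`
(`MP_9ab903_nt/NAB/DS.lean`). The first alternative: `P ↦ ptW φ _ P`, `u ↦ mapQ φ _ u`, `zq_ptW`; the second:
`s ↦ φ s`, `g ↦ φ g`. -/
theorem locCond_map {F M : Type} [Field F] [Field M] (f : F →+* M) {k δ e : F} {k' δ' e' : M}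
    (hk : f k = k') (hδ : f δ = δ') (he : f e = e') {z : Q2 δ}
    {C C' : Type} [Field C] [Algebra F C] [Field C'] [Algebra M C'] (φ : C →+* C')
    (hφ : ∀ x : F, φ (algebraMap F C x) = algebraMap M C' (f x)) (h : LocCond k δ e z C) :
    LocCond k' δ' e' (mapQ f hδ z) C' := by
  subst hk hδ he
  rcases h with ⟨P, u, hu, hz⟩ | ⟨s, g, hs, hg, hz⟩
  · left
    have hk' : φ (-27 * algebraMap F C k) = -27 * algebraMap M C' (f k) := by
      rw [map_mul, hφ, map_neg, map_ofNat]
    refine ⟨ptW φ hk' P, mapQ φ (hφ δ) u, hu.map _, ?_⟩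
    have h1 := congrArg (mapQ φ (hφ δ)) hz
    rw [map_mul, map_pow, ← zq_ptW φ (hφ δ) (show φ (3 * algebraMap F C e) =
      3 * algebraMap M C' (f e) by rw [map_mul, hφ, map_ofNat]) hk' P] at h1
    rw [← h1]
    rw [mapQ_mapQ, mapQ_mapQ, mapQ_apply, mapQ_apply]
    simp only [RingHom.comp_apply, hφ]
  · right
    refine ⟨φ s, φ g, by rw [← map_mul, hs, hφ], (map_ne_zero φ).2 hg, ?_⟩
    have h1 := congrArg φ hz
    rw [lift2_apply, map_add, map_mul, hφ, hφ] at h1
    rw [lift2_apply, mapQ_apply]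
    simp only
    rw [h1]
    simp only [map_mul, map_pow, map_ofNat, hφ]

/-- [FS3b] PROOF. As `NAB.selmer_trivial_sub` (`MP_9ab903_nt/NAB/DS.lean`). `oM = algebraMap F M oF`,
`δM = algebraMap F M (oF - 4) = oM - 4 = algebraMap K M (o - 4)`, which is not a square in `M`
(`base_nonsq`, `nonSq_up`, FB1), so `oF - 4` is not a square in `F`. For each place `W` of `M`,
`CM27.exists_below F M W` (`MP_ae0bd0_nt/CM/Q6` or `MP_9ab903_nt/SB`) gives a place `v` of `F` and
`φ : v.adicCompletion F →+* W.adicCompletion M`; by FS3a the image of `z` in `M(√δM)` satisfies the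
local conditions, so it is good (`good3_of_loc`, FS1, with `o = oM`) and a cube (`selmer_gal`, FS2);
`cube_down` (FD) gives the claim. -/
theorem selmer_trivial (K F M : Type) [Field K] [NumberField K] [IsCyclotomicExtension {3} ℚ K]
    [Field F] [NumberField F] [Field M] [NumberField M] [Algebra K F] [Algebra F M] [Algebra K M]
    [IsScalarTower K F M] [IsGalois K M] (n : ℕ) (hn : Module.finrank K M = 3 ^ n)
    (o : K) (ho : o ^ 2 + o + 1 = 0) (d : 𝓞 K) (hd : (d : K) = o - 4) (hu : TH.UnrN K M d)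
    (oF : F) (hoF : algebraMap K F o = oF) (z : Q2 (oF - 4)) (hz : z ≠ 0)
    (hN : ∃ y : F, z.norm = y ^ 3)
    (hloc : ∀ v : HeightOneSpectrum (𝓞 F),
      LocCond (48 * (4 - oF)) (oF - 4) 12 z (v.adicCompletion F)) :
    ∃ t : Q2 (oF - 4), z = t ^ 3 := by
  have hgF : IsGalois F M := IsGalois.tower_top_of_isGalois K F M
  set oM : M := algebraMap F M oF with hoM
  have hδM : algebraMap F M (oF - 4) = oM - 4 := by rw [map_sub, map_ofNat]
  have hδK : algebraMap K M (o - 4) = oM - 4 := by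
    rw [IsScalarTower.algebraMap_apply K F M, map_sub, map_ofNat, hoF, hδM]
  have hoF' : oF ^ 2 + oF + 1 = 0 := by
    rw [← hoF, ← map_pow, ← map_add, ← map_one (algebraMap K F), ← map_add, ho, map_zero]
  have hoM' : oM ^ 2 + oM + 1 = 0 := by
    rw [hoM, ← map_pow, ← map_add, ← map_one (algebraMap F M), ← map_add, hoF', map_zero]
  have hns : NonSq (oM - 4) := by
    have := nonSq_up (K := K) (M := M) n hn (o - 4) (base_nonsq K o ho)
    rwa [hδK] at this
  have hf1 : Fact (NonSq (oM - 4)) := ⟨hns⟩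
  have hf2 : Fact (NonSq (algebraMap F M (oF - 4))) := ⟨by rw [hδM]; exact hns⟩
  have hinj := mapQ_injective (algebraMap F M) hδM
  have hz' : mapQ (algebraMap F M) hδM z ≠ 0 := by
    intro h0
    exact hz (hinj (by rw [h0, map_zero]))
  obtain ⟨y, hy⟩ := hN
  have hyM : (mapQ (algebraMap F M) hδM z).norm = algebraMap F M y ^ 3 := by
    rw [norm_mapQ, hy, map_pow]
  have hk : algebraMap F M (48 * (4 - oF)) = 48 * (4 - oM) := by
    rw [map_mul, map_sub, map_ofNat, map_ofNat]
  have he : algebraMap F M 12 = 12 := map_ofNat _ _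
  have hloc' : ∀ W : HeightOneSpectrum (𝓞 M),
      LocCond (48 * (4 - oM)) (oM - 4) 12 (mapQ (algebraMap F M) hδM z) (W.adicCompletion M) := by
    intro W
    obtain ⟨v, -, φ, hφ⟩ := CM27.exists_below F M W
    exact locCond_map (algebraMap F M) hk hδM he φ hφ (hloc v)
  have hgood := good3_of_loc oM hoM' _ hz' ⟨_, hyM⟩ hloc'
  obtain ⟨t, ht⟩ := selmer_gal K M n hn o ho d hd hu (oM - 4) hδK _ hgood
  -- down
  have key : ∀ (δ' : M) (h : algebraMap F M (oF - 4) = δ') (t : Q2 δ'),
      mapQ (algebraMap F M) h z = t ^ 3 → ∃ t0 : Q2 (oF - 4), z = t0 ^ 3 := by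
    intro δ' h t ht
    subst h
    exact cube_down oF hoF' (oF - 4) z hz ⟨y, hy⟩ t ht
  exact key _ hδM t ht

/-- The Selmer condition over `F`, as it is used below. -/
def SelTriv (F : Type) [Field F] [NumberField F] (k δ e : F) : Prop :=
  ∀ z : Q2 δ, z ≠ 0 → (∃ y : F, z.norm = y ^ 3) →
    (∀ v : HeightOneSpectrum (𝓞 F), LocCond k δ e z (v.adicCompletion F)) → ∃ t : Q2 δ, z = t ^ 3

end THF
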