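import Pool.Agent.MP_9ab903_nt.TH.FP
import Pool.Agent.MP_9ab903_nt.TH.FS3

/-!
# [NG3-FE2] If the Selmer group is trivial, `phi` is surjective on the points over `F`
-/

set_option autoImplicit false

open NumberField IsDedekindDomain
open scoped Classical

namespace THF

/-- [FE2a] PROOF. Let `P = (X, Y)` be a point of `W (-27 k)` with `zq δ (3 e) P = ⟨Y, -3 e⟩ = t³`,
`t = α + β √δ`. Norms: `(α² - δ β²)³ = Y² - 9 δ e² = Y² + 27 k = X³` (`-3 k = δ e²`), so
`(α² - δ β²) = ω^i X`; replace `t` by `ω^j t` so that `α² - δ β² = X` (if `X = 0`, then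
`N t = 0` and nothing has to be replaced; see `exists_norm_eq` in FD, or argue as in
`trivial_of_cube` in F11). The coordinates of `t³` (`s5_cube`, F5): `α³ + 3 δ α β² = Y`,
`3 α² β + δ β³ = -3 e`; `e ≠ 0` so `β ≠ 0`. Put `x = -e / β`, `y = α x`. Then
`α² = x - δ β² / 3`, `y² = x³ - δ e² / 3 = x³ + k`, so `(x, y) ∈ W k`, `x ≠ 0` (`e ≠ 0`),
`(x³ + 4 k) / x² = x - 4 δ β² / 3 = α² - δ β² = X`, and
`y (x³ - 8 k) / x³ = α x + 8 α δ β² / 3 = Y`. -/
theorem iso_of_cube {F : Type} [Field F] [CharZero F] {o : F} (ho : o ^ 2 + o + 1 = 0)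
    {k δ e : F} (hd : Dat k δ e) (P : (W (-27 * k)).toAffine.Point) (t : Q2 δ)
    (ht : zq δ (3 * e) P = t ^ 3) : ∃ Q : (W k).toAffine.Point, iso hd.ne Q = P := by
  cases P with
  | zero => exact ⟨.zero, rfl⟩
  | some X Y h =>
    have hXY := (W_nonsingular (n27_ne hd.ne) X Y).1 h
    have hke := hd.eq
    have he0 := hd.e_ne
    have hz : t ^ 3 = (⟨Y, -(3 * e)⟩ : Q2 δ) := ht.symm
    have hN : t.norm ^ 3 = X ^ 3 := by
      rw [← map_pow, hz, QuadraticAlgebra.norm_def]
      linear_combination hXY + 9 * hke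
    obtain ⟨u, hu3, hun⟩ := exists_norm_eq o ho t X hN
    obtain ⟨α, β⟩ := u
    rw [hz, s5_cube] at hu3
    have e1 : α ^ 3 + 3 * δ * α * β ^ 2 = Y := congrArg QuadraticAlgebra.re hu3
    have e2 : 3 * α ^ 2 * β + δ * β ^ 3 = -(3 * e) := congrArg QuadraticAlgebra.im hu3
    have e3 : α ^ 2 - δ * β ^ 2 = X := by
      rw [← hun, QuadraticAlgebra.norm_def]
      ring
    have hβ : β ≠ 0 := by
      rintro rfl
      apply he0
      have h3 : (3 : F) * e = 0 := by linear_combination e2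
      exact (mul_eq_zero.1 h3).resolve_left three_ne_zero
    obtain ⟨x, hx⟩ : ∃ x : F, x = -e / β := ⟨_, rfl⟩
    have hxb : x * β = -e := by rw [hx, div_mul_cancel₀ _ hβ]
    have hx0 : x ≠ 0 := by
      rintro rfl
      apply he0
      linear_combination hxb
    have hα : 3 * α ^ 2 = 3 * x - δ * β ^ 2 := by
      apply mul_left_cancel₀ hβ
      linear_combination e2 - 3 * hxb
    have hk3 : 3 * k = -(δ * (x * β) ^ 2) := by
      rw [hxb]
      linear_combination -hke
    have hne : (W k).toAffine.Nonsingular x (α * x) := by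
      rw [W_nonsingular hd.ne]
      have h3 : (3 : F) * ((α * x) ^ 2) = 3 * (x ^ 3 + k) := by
        linear_combination x ^ 2 * hα - hk3
      exact mul_left_cancel₀ three_ne_zero h3
    refine ⟨.some x (α * x) hne, ?_⟩
    rw [iso, dif_neg hx0, WeierstrassCurve.Affine.Point.some.injEq]
    constructor
    · rw [div_eq_iff (pow_ne_zero 2 hx0), ← e3]
      have h3 : (3 : F) * (x ^ 3 + 4 * k) = 3 * ((α ^ 2 - δ * β ^ 2) * x ^ 2) := by
        linear_combination -x ^ 2 * hα + 4 * hk3
      exact mul_left_cancel₀ three_ne_zero h3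
    · rw [div_eq_iff (pow_ne_zero 3 hx0), ← e1]
      have h3 : (3 : F) * (α * x * (x ^ 3 - 8 * k)) = 3 * ((α ^ 3 + 3 * δ * α * β ^ 2) * x ^ 3) := by
        linear_combination -α * x ^ 3 * hα - 8 * α * x * hk3
      exact mul_left_cancel₀ three_ne_zero h3

/-- [FE2b] PROOF. `P = (X, Y)` (the case `P = 0` is trivial): `z = zq δ (3 e) P = ⟨Y, -3 e⟩ ≠ 0`, its
norm is `X³` (see FE2a), and `LocCond` holds at all places with the first alternative:
`ptW (algebraMap F _) _ P`, `u = 1`, `zq_ptW` (F0). So `z` is a cube by `hsel`; FE2a. -/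
theorem iso_surj_of_sel {F : Type} [Field F] [NumberField F] {o : F} (ho : o ^ 2 + o + 1 = 0)
    {k δ e : F} (hd : Dat k δ e) (hsel : SelTriv F k δ e) (P : (W (-27 * k)).toAffine.Point) :
    ∃ Q : (W k).toAffine.Point, iso hd.ne Q = P := by
  cases P with
  | zero => exact ⟨.zero, rfl⟩
  | some X Y h =>
    have hXY := (W_nonsingular (n27_ne hd.ne) X Y).1 h
    have hke := hd.eq
    have he0 := hd.e_ne
    have hz : zq δ (3 * e) (.some X Y h : (W (-27 * k)).toAffine.Point) =
      (⟨Y, -(3 * e)⟩ : Q2 δ) := rfl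
    have g1 : zq δ (3 * e) (.some X Y h : (W (-27 * k)).toAffine.Point) ≠ 0 := by
      intro h0
      rw [hz] at h0
      have h1 : -(3 * e) = 0 := congrArg QuadraticAlgebra.im h0
      apply he0
      have h3 : (3 : F) * e = 0 := by linear_combination -h1
      exact (mul_eq_zero.1 h3).resolve_left three_ne_zero
    have g2 : ∃ y : F, (zq δ (3 * e) (.some X Y h : (W (-27 * k)).toAffine.Point)).norm =
        y ^ 3 := by
      refine ⟨X, ?_⟩
      rw [hz, QuadraticAlgebra.norm_def]
      linear_combination hXY + 9 * hke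
    have g3 : ∀ v : HeightOneSpectrum (𝓞 F),
        LocCond k δ e (zq δ (3 * e) (.some X Y h : (W (-27 * k)).toAffine.Point))
          (v.adicCompletion F) := by
      intro v
      left
      have hk' : algebraMap F (v.adicCompletion F) (-27 * k) =
          -27 * algebraMap F (v.adicCompletion F) k := by
        rw [map_mul, map_neg, map_ofNat]
      refine ⟨ptW (algebraMap F (v.adicCompletion F)) hk' (.some X Y h), 1, isUnit_one, ?_⟩
      rw [one_pow, mul_one]
      exact (zq_ptW (algebraMap F (v.adicCompletion F)) rfl (by rw [map_mul, map_ofNat]) hk' _).symm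
    obtain ⟨t, ht⟩ := hsel _ g1 g2 g3
    exact iso_of_cube ho hd _ t ht

/-- [FE2c] PROOF. FE2b and `scal_surj` (F1). -/
theorem phi_surj_of_sel {F : Type} [Field F] [NumberField F] {o : F} (ho : o ^ 2 + o + 1 = 0)
    {k δ e : F} (hd : Dat k δ e) (hsel : SelTriv F k δ e) (P : (W k).toAffine.Point) :
    ∃ Q : (W k).toAffine.Point, phi hd.ne ho Q = P := by
  obtain ⟨R, hR⟩ := scal_surj (1 + 2 * o)⁻¹ (inv_ne_zero (th_ne ho)) (th_inv ho k) P
  obtain ⟨Q, hQ⟩ := iso_surj_of_sel ho hd hsel R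
  refine ⟨Q, ?_⟩
  rw [phi, hQ, hR]

/-- [FE2d] PROOF. `phi` is surjective on the finite group, so injective; an element of order `3` (Cauchy:
`exists_prime_addOrderOf_dvd_card'`) satisfies `phi (phi P) = -(3 • P) = 0`, so `P = 0`. -/
theorem not_three_dvd {F : Type} [Field F] [CharZero F] {o : F} (ho : o ^ 2 + o + 1 = 0)
    {k : F} (hk : k ≠ 0) [Finite (W k).toAffine.Point]
    (h : ∀ P : (W k).toAffine.Point, ∃ Q : (W k).toAffine.Point, phi hk ho Q = P) :
    ¬ 3 ∣ Nat.card (W k).toAffine.Point := by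
  intro h3
  have hinj : Function.Injective (phi hk ho) :=
    Finite.injective_iff_surjective.2 h
  have : Fact (Nat.Prime 3) := ⟨Nat.prime_three⟩
  obtain ⟨P, hP⟩ := exists_prime_addOrderOf_dvd_card' 3 h3
  have h4 : phi hk ho (phi hk ho P) = 0 := by
    rw [phi_phi, ← hP, addOrderOf_nsmul_eq_zero, neg_zero]
  have h5 : phi hk ho P = 0 := hinj (h4.trans (phi_zero hk ho).symm)
  have h6 : P = 0 := hinj (h5.trans (phi_zero hk ho).symm)
  rw [h6, addOrderOf_zero] at hP
  omega

end THF
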