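import Pool.Agent.MP_9ab903_nt.TH.FE1
import Pool.Agent.MP_dfae13_nt.T.I1

/-!
# [NG3-FE3a] The kernel of the reduction of `Ep o` at a place above `3`
-/

set_option autoImplicit false

open NumberField IsDedekindDomain
open scoped Classical

namespace THF

/-- The points which reduce to the point at infinity. -/
def InK {F : Type} [Field F] {o : F} (w : Valuation F (WithZero (Multiplicative ℤ))) :
    (TH.Ep o).toAffine.Point → Prop
  | .zero => True
  | .some x _ _ => 1 < w x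

/-! ### Helper lemmas -/

section fe3a

theorem fe3a_eqn {F : Type} [Field F] (o : F) {x y : F}
    (h : (TH.Ep o).toAffine.Nonsingular x y) :
    y ^ 2 + o ^ 2 * y = x ^ 3 + (2 + o) * x ^ 2 + (1 + o) * x := by
  have h1 := (WeierstrassCurve.Affine.equation_iff (W := (TH.Ep o).toAffine) x y).1 h.1
  simp only [TH.Ep] at h1
  linear_combination h1

theorem fe3a_negY {F : Type} [Field F] (o x y : F) :
    (TH.Ep o).toAffine.negY x y = -y - o ^ 2 := by
  simp [WeierstrassCurve.Affine.negY, TH.Ep]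

theorem fe3a_addX {F : Type} [Field F] (o x₁ x₂ l : F) :
    (TH.Ep o).toAffine.addX x₁ x₂ l = l ^ 2 - (2 + o) - x₁ - x₂ := by
  simp [WeierstrassCurve.Affine.addX, TH.Ep]

theorem fe3a_slope_ne {F : Type} [Field F] (o : F) {x₁ x₂ y₁ y₂ : F} (hx : x₁ ≠ x₂) :
    (TH.Ep o).toAffine.slope x₁ x₂ y₁ y₂ = (y₁ - y₂) / (x₁ - x₂) :=
  WeierstrassCurve.Affine.slope_of_X_ne hx

theorem fe3a_slope_self {F : Type} [Field F] (o : F) {x y : F} (hy : 2 * y + o ^ 2 ≠ 0) :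
    (TH.Ep o).toAffine.slope x x y y =
      (3 * x ^ 2 + 2 * (2 + o) * x + (1 + o)) / (2 * y + o ^ 2) := by
  have h1 : y ≠ (TH.Ep o).toAffine.negY x y := by
    rw [fe3a_negY]
    intro h
    apply hy
    linear_combination h
  rw [WeierstrassCurve.Affine.slope_of_Y_ne rfl h1, fe3a_negY]
  have h2 : y - (-y - o ^ 2) = 2 * y + o ^ 2 := by ring
  rw [h2]
  simp [TH.Ep]

variable {F : Type} [Field F] {o : F} (w : Valuation F (WithZero (Multiplicative ℤ)))

theorem fe3a_two : w 2 ≤ 1 := by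
  have : (2 : F) = 1 + 1 := by norm_num
  rw [this]
  refine (w.map_add _ _).trans ?_
  simp

theorem fe3a_o (ho : o ^ 2 + o + 1 = 0) : w o = 1 := by
  have h1 : o ^ 3 = 1 := by linear_combination (o - 1) * ho
  have h2 : w o ^ 3 = 1 := by rw [← map_pow, h1, map_one]
  rcases lt_trichotomy (w o) 1 with h | h | h
  · exact absurd h2 (pow_lt_one₀ zero_le h (by norm_num)).ne
  · exact h
  · exact absurd h2 (one_lt_pow₀ h (by norm_num)).ne'

theorem fe3a_two_o (ho : o ^ 2 + o + 1 = 0) : w (2 + o) ≤ 1 :=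
  (w.map_add _ _).trans (max_le (fe3a_two w) (fe3a_o w ho).le)

theorem fe3a_one_o (ho : o ^ 2 + o + 1 = 0) : w (1 + o) ≤ 1 :=
  (w.map_add _ _).trans (max_le (map_one w).le (fe3a_o w ho).le)

theorem fe3a_la (ho : o ^ 2 + o + 1 = 0) (h3 : w 3 < 1) : w (1 - o) < 1 := by
  by_contra hc
  push Not at hc
  have h1 : (1 - o) ^ 2 = -(3 * o) := by linear_combination ho
  have h2 : w (1 - o) ^ 2 = w 3 := by
    rw [← map_pow, h1, Valuation.map_neg, map_mul, fe3a_o w ho, mul_one]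
  have h4 : 1 ≤ w (1 - o) ^ 2 := one_le_pow₀ hc
  rw [h2] at h4
  exact absurd h3 (not_lt.2 h4)

theorem fe3a_lhs_big (ho : o ^ 2 + o + 1 = 0) {y : F} (hy : 1 < w y) :
    w (y ^ 2 + o ^ 2 * y) = w y ^ 2 := by
  rw [CM27.r6_val_add_of_lt w, map_pow]
  rw [map_mul, map_pow, map_pow, fe3a_o w ho, one_pow, one_mul, pow_two]
  exact lt_mul_of_one_lt_left (zero_lt_one.trans hy) hy

theorem fe3a_rhs_big (ho : o ^ 2 + o + 1 = 0) {x : F} (hx : 1 < w x) :
    w (x ^ 3 + (2 + o) * x ^ 2 + (1 + o) * x) = w x ^ 3 := by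
  have h1 : x ^ 3 + (2 + o) * x ^ 2 + (1 + o) * x =
    x ^ 3 + ((2 + o) * x ^ 2 + (1 + o) * x) := by ring
  rw [h1, CM27.r6_val_add_of_lt w, map_pow]
  rw [map_pow]
  have h2 : w x ^ 2 < w x ^ 3 := pow_lt_pow_right₀ hx (by norm_num)
  refine (w.map_add _ _).trans_lt (max_lt ?_ ?_)
  · rw [map_mul, map_pow]
    calc w (2 + o) * w x ^ 2 ≤ 1 * w x ^ 2 := mul_le_mul_left (fe3a_two_o w ho) (w x ^ 2)
      _ = w x ^ 2 := one_mul _
      _ < w x ^ 3 := h2
  · rw [map_mul]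
    calc w (1 + o) * w x ≤ 1 * w x := mul_le_mul_left (fe3a_one_o w ho) (w x)
      _ = w x := one_mul _
      _ ≤ w x ^ 2 := by
        rw [pow_two]
        exact (lt_mul_of_one_lt_left (zero_lt_one.trans hx) hx).le
      _ < w x ^ 3 := h2

theorem fe3a_rhs_small (ho : o ^ 2 + o + 1 = 0) {x : F} (hx : w x ≤ 1) :
    w (x ^ 3 + (2 + o) * x ^ 2 + (1 + o) * x) ≤ 1 := by
  refine (w.map_add _ _).trans (max_le ((w.map_add _ _).trans (max_le ?_ ?_)) ?_)
  · rw [map_pow]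
    exact pow_le_one₀ zero_le hx
  · rw [map_mul, map_pow]
    exact mul_le_one' (fe3a_two_o w ho) (pow_le_one₀ zero_le hx)
  · rw [map_mul]
    exact mul_le_one' (fe3a_one_o w ho) hx

theorem fe3a_y_of_small (ho : o ^ 2 + o + 1 = 0) {x y : F}
    (h : y ^ 2 + o ^ 2 * y = x ^ 3 + (2 + o) * x ^ 2 + (1 + o) * x) (hx : w x ≤ 1) :
    w y ≤ 1 := by
  by_contra hy
  push Not at hy
  have h3 := fe3a_lhs_big w ho hy
  rw [h] at h3
  have h4 := fe3a_rhs_small w ho hx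
  rw [h3] at h4
  exact absurd (one_lt_pow₀ hy (by norm_num : (2 : ℕ) ≠ 0)) (not_lt.2 h4)

theorem fe3a_y_of_big (ho : o ^ 2 + o + 1 = 0) {x y : F}
    (h : y ^ 2 + o ^ 2 * y = x ^ 3 + (2 + o) * x ^ 2 + (1 + o) * x) (hx : 1 < w x) :
    1 < w y ∧ w y ^ 2 = w x ^ 3 := by
  have h2 : 1 < w y := by
    by_contra hy
    push Not at hy
    have h1 : 1 < w (x ^ 3 + (2 + o) * x ^ 2 + (1 + o) * x) := by
      rw [fe3a_rhs_big w ho hx]
      exact one_lt_pow₀ hx (by norm_num)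
    rw [← h] at h1
    have h3 : w (y ^ 2 + o ^ 2 * y) ≤ 1 := by
      refine (w.map_add _ _).trans (max_le ?_ ?_)
      · rw [map_pow]
        exact pow_le_one₀ zero_le hy
      · rw [map_mul, map_pow, fe3a_o w ho, one_pow, one_mul]
        exact hy
    exact absurd h1 (not_lt.2 h3)
  refine ⟨h2, ?_⟩
  rw [← fe3a_lhs_big w ho h2, h, fe3a_rhs_big w ho hx]

/-- The element `g`. -/
theorem fe3a_g (ho : o ^ 2 + o + 1 = 0) (h3 : w 3 < 1) {x₁ x₂ : F} (hx₁ : w x₁ ≤ 1)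
    (hx : w (x₁ - x₂) < 1) :
    w (x₁ ^ 2 + x₁ * x₂ + x₂ ^ 2 + (2 + o) * (x₁ + x₂) + (1 + o)) = 1 := by
  have h2 := fe3a_two w (F := F)
  have hla := fe3a_la w ho h3
  have e1 : x₁ ^ 2 + x₁ * x₂ + x₂ ^ 2 + (2 + o) * (x₁ + x₂) + (1 + o) =
      -1 + (3 * (x₁ ^ 2 - x₁ * (x₁ - x₂) + 2 * x₁ - (x₁ - x₂) + 1) + ((x₁ - x₂) ^ 2 +
        (-((1 - o) * (2 * x₁ - (x₁ - x₂))) - (1 - o)))) := by ring
  rw [e1, CM27.r6_val_add_of_lt w, Valuation.map_neg, map_one]
  rw [Valuation.map_neg, map_one]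
  have h4 : w (2 * x₁) ≤ 1 := by
    rw [map_mul]
    exact mul_le_one' h2 hx₁
  refine (w.map_add _ _).trans_lt (max_lt ?_ ((w.map_add _ _).trans_lt (max_lt ?_
    ((w.map_sub _ _).trans_lt (max_lt ?_ hla)))))
  · rw [map_mul]
    refine mul_lt_one_of_lt_of_le h3 ?_
    refine (w.map_add _ _).trans (max_le ((w.map_sub _ _).trans (max_le
      ((w.map_add _ _).trans (max_le ((w.map_sub _ _).trans (max_le ?_ ?_)) h4)) hx.le)) ?_)
    · rw [map_pow]
      exact pow_le_one₀ zero_le hx₁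
    · rw [map_mul]
      exact mul_le_one' hx₁ hx.le
    · rw [map_one]
  · rw [map_pow]
    exact pow_lt_one₀ zero_le hx (by norm_num)
  · rw [Valuation.map_neg, map_mul]
    exact mul_lt_one_of_lt_of_le hla ((w.map_sub _ _).trans (max_le h4 hx.le))

/-- The valuation of the first coordinate of a sum. -/
theorem fe3a_addX_big (ho : o ^ 2 + o + 1 = 0) {x₁ x₂ l : F} (hx₁ : w x₁ ≤ 1) (hx₂ : w x₂ ≤ 1)
    (hl : 1 < w l) : 1 < w (l ^ 2 - (2 + o) - x₁ - x₂) := by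
  have h7 : l ^ 2 - (2 + o) - x₁ - x₂ = l ^ 2 + (-(2 + o) - x₁ - x₂) := by ring
  have h8 : 1 < w (l ^ 2) := by
    rw [map_pow]
    exact one_lt_pow₀ hl (by norm_num)
  rw [h7, CM27.r6_val_add_of_lt w]
  · exact h8
  · refine lt_of_le_of_lt ?_ h8
    refine (w.map_sub _ _).trans (max_le ((w.map_sub _ _).trans (max_le ?_ hx₁)) hx₂)
    rw [Valuation.map_neg]
    exact fe3a_two_o w ho

end fe3a

section
variable {F : Type} [Field F] [CharZero F] {o : F} (ho : o ^ 2 + o + 1 = 0)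
  (w : Valuation F (WithZero (Multiplicative ℤ))) (h3 : w 3 < 1)

include ho h3 in
/-- [FE3a1] The difference of two integral points with the same reduction is in the kernel. PROOF. Adapt
`CMT.i1_sub_same` (`MP_dfae13_nt/T/I1.lean`). Here `-(x, y) = (x, -y - o²)`, `addX = l² - (2 + o) - x₁ - x₂`.
For all integral `x₁, x₂` with `w (x₁ - x₂) < 1` the element
`g = x₁² + x₁ x₂ + x₂² + (2 + o)(x₁ + x₂) + (1 + o)` has `w g = 1`: `w (1 - o) < 1`
(`(1 - o)² = -3 o`), modulo the maximal ideal `g = 3 x₁² + 6 x₁ + 2`, precisely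
`g = -1 + (terms of valuation < 1)` (write `x₂ = x₁ - (x₁ - x₂)`, `o = 1 - (1 - o)`).
The equations give `(y₁ - y₂) (y₁ + y₂ + o²) = (x₁ - x₂) g`. If `y₁ = y₂`, then `x₁ = x₂` and the
difference is `0`. Otherwise the slope of `P₁ - P₂ = (x₁, y₁) + (x₂, -y₂ - o²)` is
`(y₁ + y₂ + o²) / (x₁ - x₂) = g / (y₁ - y₂)` for `x₁ ≠ x₂`, and for `x₁ = x₂` (then
`y₁ + y₂ + o² = 0`, `P₂ = -P₁`, doubling of `P₁`) also
`(3 x₁² + 2 (2 + o) x₁ + (1 + o)) / (2 y₁ + o²) = g / (y₁ - y₂)`; its valuation is `> 1`, so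
`w (x (P₁ - P₂)) = w (slope)² > 1`. -/
theorem sub_same {x₁ y₁ x₂ y₂ : F} (h₁ : (TH.Ep o).toAffine.Nonsingular x₁ y₁)
    (h₂ : (TH.Ep o).toAffine.Nonsingular x₂ y₂) (hx₁ : w x₁ ≤ 1) (hx : w (x₁ - x₂) < 1)
    (hy : w (y₁ - y₂) < 1) :
    InK w ((WeierstrassCurve.Affine.Point.some x₁ y₁ h₁ : (TH.Ep o).toAffine.Point) -
      WeierstrassCurve.Affine.Point.some x₂ y₂ h₂) := by
  have he₁ := fe3a_eqn o h₁
  have he₂ := fe3a_eqn o h₂
  have hg := fe3a_g w ho h3 hx₁ hx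
  have hx₂ : w x₂ ≤ 1 := by
    have : x₂ = x₁ - (x₁ - x₂) := by ring
    rw [this]
    exact (w.map_sub _ _).trans (max_le hx₁ hx.le)
  have hg0 : x₁ ^ 2 + x₁ * x₂ + x₂ ^ 2 + (2 + o) * (x₁ + x₂) + (1 + o) ≠ 0 := by
    intro h0
    rw [h0, map_zero] at hg
    exact zero_ne_one hg
  have key : (y₁ - y₂) * (y₁ + y₂ + o ^ 2) =
      (x₁ - x₂) * (x₁ ^ 2 + x₁ * x₂ + x₂ ^ 2 + (2 + o) * (x₁ + x₂) + (1 + o)) := by
    linear_combination he₁ - he₂
  rw [sub_eq_add_neg, WeierstrassCurve.Affine.Point.neg_some]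
  by_cases hyy : y₁ = y₂
  · have hxx : x₁ = x₂ := by
      rw [hyy, sub_self, zero_mul] at key
      rcases mul_eq_zero.1 key.symm with h5 | h5
      · exact sub_eq_zero.1 h5
      · exact absurd h5 hg0
    subst hxx
    subst hyy
    rw [WeierstrassCurve.Affine.Point.add_of_Y_eq rfl
      (WeierstrassCurve.Affine.negY_negY x₁ y₁).symm]
    trivial
  · have hy0 : y₁ - y₂ ≠ 0 := sub_ne_zero.2 hyy
    have hl : 1 < w ((x₁ ^ 2 + x₁ * x₂ + x₂ ^ 2 + (2 + o) * (x₁ + x₂) + (1 + o)) /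
        (y₁ - y₂)) := by
      rw [map_div₀, hg, one_div]
      exact (one_lt_inv₀ (zero_lt_iff.2 ((Valuation.ne_zero_iff w).2 hy0))).2 hy
    by_cases hxx : x₁ = x₂
    · subst hxx
      have h4 : y₁ + y₂ + o ^ 2 = 0 := by
        rw [sub_self, zero_mul] at key
        rcases mul_eq_zero.1 key with h5 | h5
        · exact absurd h5 hy0
        · exact h5
      have h5 : (TH.Ep o).toAffine.negY x₁ y₂ = y₁ := by
        rw [fe3a_negY]
        linear_combination -h4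
      have h6 : y₁ ≠ (TH.Ep o).toAffine.negY x₁ y₁ := by
        rw [fe3a_negY]
        intro h6
        apply hy0
        linear_combination h6 - h4
      have h6' : y₁ ≠ (TH.Ep o).toAffine.negY x₁ ((TH.Ep o).toAffine.negY x₁ y₂) := by
        rw [h5]
        exact h6
      rw [WeierstrassCurve.Affine.Point.add_some (fun hxy => h6' hxy.2)]
      change 1 < w _
      have h7 : 2 * y₁ + o ^ 2 = y₁ - y₂ := by linear_combination h4
      have h8 : 3 * x₁ ^ 2 + 2 * (2 + o) * x₁ + (1 + o) =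
          x₁ ^ 2 + x₁ * x₁ + x₁ ^ 2 + (2 + o) * (x₁ + x₁) + (1 + o) := by ring
      rw [fe3a_addX, h5, fe3a_slope_self o (by rw [h7]; exact hy0), h7, h8]
      exact fe3a_addX_big w ho hx₁ hx₁ hl
    · rw [WeierstrassCurve.Affine.Point.add_of_X_ne hxx]
      change 1 < w _
      rw [fe3a_addX, fe3a_slope_ne o hxx, fe3a_negY]
      have h5 : x₁ - x₂ ≠ 0 := sub_ne_zero.2 hxx
      have h6 : (y₁ - (-y₂ - o ^ 2)) / (x₁ - x₂) =
          (x₁ ^ 2 + x₁ * x₂ + x₂ ^ 2 + (2 + o) * (x₁ + x₂) + (1 + o)) / (y₁ - y₂) := by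
        rw [div_eq_div_iff h5 hy0]
        linear_combination key
      rw [h6]
      exact fe3a_addX_big w ho hx₁ hx₂ hl

include ho in
/-- [FE3a2] integral + (nonzero element of the kernel of reduction) is not in the kernel of reduction. PROOF. Adapt
`CMT.i1_add_big` (`MP_dfae13_nt/T/I1.lean`): with `λ' = (y₁ - y) / (x₁ - x)`,
`λ'² - (2 + o) - x₁ - x = N / (x₁ - x)²`, where `N` is the polynomial
`y₁² - 2 y₁ y + y² - (2 + o + x₁ + x) (x₁ - x)²`; replacing `y²` and `y₁²` by the equations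
(`y² = x³ + (2 + o) x² + (1 + o) x - o² y`), `N = -2 y₁ y - o² y - o² y₁ + x₁ x² + x₁² x +
2 (2 + o) x₁ x + (1 + o) (x + x₁)`; each term has valuation `≤ w x ^ 2` (`w y ^ 2 = w x ^ 3`). -/
theorem add_big {x₁ y₁ x y : F} (h₁ : (TH.Ep o).toAffine.Nonsingular x₁ y₁)
    (h : (TH.Ep o).toAffine.Nonsingular x y) (hx₁ : w x₁ ≤ 1) (hx : 1 < w x) :
    ¬ InK w ((WeierstrassCurve.Affine.Point.some x₁ y₁ h₁ : (TH.Ep o).toAffine.Point) +
      WeierstrassCurve.Affine.Point.some x y h) := by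
  have he₁ := fe3a_eqn o h₁
  have he := fe3a_eqn o h
  have hne : x₁ ≠ x := by
    rintro rfl
    exact absurd hx (not_lt.2 hx₁)
  rw [WeierstrassCurve.Affine.Point.add_of_X_ne hne]
  change ¬ 1 < w _
  rw [not_lt, fe3a_addX, fe3a_slope_ne o hne]
  have hne' : x₁ - x ≠ 0 := sub_ne_zero.2 hne
  have h3 : ((y₁ - y) / (x₁ - x)) ^ 2 - (2 + o) - x₁ - x =
      (-(y * (o ^ 2 + 2 * y₁)) + (-(o ^ 2 * y₁) + (x₁ * x ^ 2 + (x₁ ^ 2 * x +
        (2 * (2 + o) * x₁ * x + ((1 + o) * x + (1 + o) * x₁)))))) / (x₁ - x) ^ 2 := by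
    rw [div_pow]
    field_simp
    linear_combination he + he₁
  obtain ⟨hy1, hy2⟩ := fe3a_y_of_big w ho he hx
  have hy₁ := fe3a_y_of_small w ho he₁ hx₁
  have hw0 : w (x₁ - x) = w x := by
    rw [Valuation.map_sub_swap, sub_eq_add_neg, CM27.r6_val_add_of_lt w]
    rw [Valuation.map_neg]
    exact hx₁.trans_lt hx
  have hpos : 0 < w x ^ 2 := pow_pos (zero_lt_one.trans hx) 2
  have hyx : w y ≤ w x ^ 2 := by
    by_contra hc
    push Not at hc
    have h5 : w x ^ 3 < w y ^ 2 := by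
      calc w x ^ 3 ≤ w x ^ 4 := pow_le_pow_right₀ hx.le (by norm_num)
        _ = (w x ^ 2) ^ 2 := by rw [← pow_mul]
        _ < w y ^ 2 := pow_lt_pow_left₀ hc zero_le (by norm_num)
    exact absurd hy2 h5.ne'
  have h1x : 1 ≤ w x ^ 2 := one_le_pow₀ hx.le
  have hxx : w x ≤ w x ^ 2 := by
    rw [pow_two]
    exact (lt_mul_of_one_lt_left (zero_lt_one.trans hx) hx).le
  have h2le := fe3a_two w (F := F)
  have ho1 := fe3a_o w ho
  rw [h3, map_div₀, map_pow, hw0]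
  refine div_le_one_of_le₀ ?_ zero_le
  refine (w.map_add _ _).trans (max_le ?_ ((w.map_add _ _).trans (max_le ?_
    ((w.map_add _ _).trans (max_le ?_ ((w.map_add _ _).trans (max_le ?_
      ((w.map_add _ _).trans (max_le ?_ ((w.map_add _ _).trans (max_le ?_ ?_)))))))))))
  · rw [Valuation.map_neg, map_mul]
    calc w y * w (o ^ 2 + 2 * y₁) ≤ w y * 1 := by
          refine mul_le_mul_right (?_ : w (o ^ 2 + 2 * y₁) ≤ 1) (w y)
          refine (w.map_add _ _).trans (max_le (by rw [map_pow, ho1, one_pow]) ?_)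
          rw [map_mul]
          exact mul_le_one' h2le hy₁
      _ ≤ w x ^ 2 := by rw [mul_one]; exact hyx
  · rw [Valuation.map_neg, map_mul, map_pow, ho1, one_pow, one_mul]
    exact hy₁.trans h1x
  · rw [map_mul, map_pow]
    calc w x₁ * w x ^ 2 ≤ 1 * w x ^ 2 := mul_le_mul_left hx₁ (w x ^ 2)
      _ = w x ^ 2 := one_mul _
  · rw [map_mul, map_pow]
    calc w x₁ ^ 2 * w x ≤ 1 * w x := mul_le_mul_left (pow_le_one₀ zero_le hx₁) (w x)
      _ = w x := one_mul _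
      _ ≤ w x ^ 2 := hxx
  · rw [map_mul, map_mul, map_mul]
    calc w 2 * w (2 + o) * w x₁ * w x ≤ 1 * w x :=
          mul_le_mul_left (mul_le_one' (mul_le_one' h2le (fe3a_two_o w ho)) hx₁) (w x)
      _ = w x := one_mul _
      _ ≤ w x ^ 2 := hxx
  · rw [map_mul]
    calc w (1 + o) * w x ≤ 1 * w x := mul_le_mul_left (fe3a_one_o w ho) (w x)
      _ = w x := one_mul _
      _ ≤ w x ^ 2 := hxx
  · rw [map_mul]
    exact (mul_le_one' (fe3a_one_o w ho) hx₁).trans h1x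

include ho in
/-- [FE3a3] PROOF. As `CMT.i1_y_of_small`. -/
theorem y_small {x y : F} (h : (TH.Ep o).toAffine.Nonsingular x y) (hx : w x ≤ 1) : w y ≤ 1 := by
  exact fe3a_y_of_small w ho (fe3a_eqn o h) hx

include ho in
/-- [FE3a4] The kernel of reduction is a subgroup. PROOF. As `CMT.i1_ker`. -/
theorem exists_ker_red : ∃ H : AddSubgroup (TH.Ep o).toAffine.Point, ∀ P, P ∈ H ↔ InK w P := by
  have hneg : ∀ P : (TH.Ep o).toAffine.Point, InK w P → InK w (-P) := by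
    rintro (_ | ⟨x, y, h⟩) hP
    · trivial
    · exact hP
  refine ⟨{ carrier := {P | InK w P}
            zero_mem' := trivial
            neg_mem' := fun {P} hP => hneg P hP
            add_mem' := ?_ }, fun P => Iff.rfl⟩
  intro P Q hP hQ
  by_contra hR
  have hP0 : P ≠ 0 := by
    rintro rfl
    rw [zero_add] at hR
    exact hR hQ
  have key : ∀ R S : (TH.Ep o).toAffine.Point, ¬ InK w R → InK w S → S ≠ 0 →
      ¬ InK w (R + S) := by
    rintro (_ | ⟨x₁, y₁, h₁⟩) (_ | ⟨x, y, h⟩) hR hS hS0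
    · exact absurd trivial hR
    · exact absurd trivial hR
    · exact absurd rfl hS0
    · exact add_big ho w h₁ h (not_lt.1 hR) hS
  refine key (P + Q) (-P) hR (hneg P hP) (neg_ne_zero.2 hP0) ?_
  have : P + Q + -P = Q := by abel
  rw [this]
  exact hQ

end

end THF
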