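import Pool.Agent.MP_9ab903_nt.TH.F3
import Pool.Agent.MP_9ab903_nt.TH.F4
import Pool.Agent.MP_9ab903_nt.TH.F5

/-!
# [NG3-FP] The endomorphism `√-3` of `y² = x³ + k`
-/

set_option autoImplicit false

open NumberField IsDedekindDomain
open scoped Classical

namespace THF

theorem th_ne {K : Type} [Field K] [CharZero K] {o : K} (ho : o ^ 2 + o + 1 = 0) :
    1 + 2 * o ≠ 0 := by
  intro h
  have h1 : (3 : K) = 0 := by linear_combination 4 * ho - (1 + 2 * o) * h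
  exact three_ne_zero h1

theorem th_six {K : Type} [Field K] {o : K} (ho : o ^ 2 + o + 1 = 0) :
    (1 + 2 * o) ^ 6 = -27 := by
  have h1 : (1 + 2 * o) ^ 2 = -3 := by linear_combination 4 * ho
  rw [show (6 : ℕ) = 2 * 3 from rfl, pow_mul, h1]
  norm_num

theorem th_inv {K : Type} [Field K] [CharZero K] {o : K} (ho : o ^ 2 + o + 1 = 0) (k : K) :
    k = ((1 + 2 * o)⁻¹) ^ 6 * (-27 * k) := by
  rw [inv_pow, th_six ho]
  field_simp

/-- `√-3 = 1 + 2 ω` (up to the sign) acting on `y² = x³ + k`: the isogeny `iso` followed by the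
isomorphism `W (-27 k) → W k`. -/
noncomputable def phi {K : Type} [Field K] [CharZero K] {k : K} (hk : k ≠ 0) {o : K}
    (ho : o ^ 2 + o + 1 = 0) (P : (W k).toAffine.Point) : (W k).toAffine.Point :=
  scal (1 + 2 * o)⁻¹ (inv_ne_zero (th_ne ho)) (th_inv ho k) (iso hk P)

section
variable {K : Type} [Field K] [CharZero K] {k : K} (hk : k ≠ 0) {o : K}
  (ho : o ^ 2 + o + 1 = 0)

/-- [FPa] PROOF. `iso_add` (F2), `scal_add` (F1). -/
theorem phi_add (P Q : (W k).toAffine.Point) : phi hk ho (P + Q) = phi hk ho P + phi hk ho Q := by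
  unfold phi
  rw [iso_add, scal_add]

theorem phi_zero : phi hk ho 0 = 0 := rfl

theorem phi_neg (P : (W k).toAffine.Point) : phi hk ho (-P) = -phi hk ho P :=
  map_neg (AddMonoidHom.mk' (phi hk ho) (phi_add hk ho)) P

theorem phi_sub (P Q : (W k).toAffine.Point) : phi hk ho (P - Q) = phi hk ho P - phi hk ho Q :=
  map_sub (AddMonoidHom.mk' (phi hk ho) (phi_add hk ho)) P Q

/-- the automorphism `ω` -/
theorem fp_o {o : K} (ho : o ^ 2 + o + 1 = 0) : o ≠ 0 := by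
  rintro rfl
  norm_num at ho

theorem fp_o3 {o : K} (ho : o ^ 2 + o + 1 = 0) : o ^ 3 = 1 := by linear_combination (o - 1) * ho

theorem fp_six {o : K} (ho : o ^ 2 + o + 1 = 0) (k : K) : k = o ^ 6 * k := by
  rw [show (6 : ℕ) = 3 * 2 from rfl, pow_mul, fp_o3 ho, one_pow, one_mul]

theorem fp_six' {o : K} (ho : o ^ 2 + o + 1 = 0) (k : K) : k = (o ^ 2) ^ 6 * k := by
  rw [← pow_mul, show 2 * 6 = 3 * 4 from rfl, pow_mul, fp_o3 ho, one_pow, one_mul]

theorem phi_eq (P : (W k).toAffine.Point) : phi hk ho P =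
    scal (o ^ 2) (pow_ne_zero 2 (fp_o ho)) (fp_six' ho k) P - scal o (fp_o ho) (fp_six ho k) P := by
  unfold phi
  rw [iso_eq_scal hk o ho (fp_o ho) (pow_ne_zero 2 (fp_o ho)) (fp_six ho k) (fp_six' ho k)
    (th_ne ho) (by rw [th_six ho])]
  have h1 : (1 + 2 * o)⁻¹ * (1 + 2 * o) = 1 := inv_mul_cancel₀ (th_ne ho)
  rw [scal_scal (k' := -27 * k) (1 + 2 * o) (1 + 2 * o)⁻¹ (th_ne ho) (inv_ne_zero (th_ne ho))
    (by rw [th_six ho]) (th_inv ho k) (by rw [h1]; exact one_ne_zero) (by rw [h1]; ring)]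
  rw [s3_congr h1 _ one_ne_zero _ (by ring)]
  exact scal_one _ _

/-- [FPb] PROOF. `iso_eq_scal` (F2): `phi P = scal (o²) P - scal o P` (cancel `scal (1 + 2 o)` by
`scal_scal`, `scal_one`); `phi (phi P) = scal (o⁴) P - 2 scal (o³) P + scal (o²) P
= scal o P + scal (o²) P - 2 P = -(3 • P)` by `scal_omega` (F1), `s3_congr` (F3) for `o⁴ = o`, `o³ = 1`.
(Compare `s3_core` in F3, which contains most of this computation; or use `iso_iso` (F3):
`iso (iso P) = scal 3 (3 • P)`, `iso` commutes with `scal` (check on coordinates), and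
`(1 + 2 o)⁻² * 3 = -1`, `scal_neg`.) -/
theorem phi_phi (P : (W k).toAffine.Point) : phi hk ho (phi hk ho P) = -(3 • P) := by
  have ho0 := fp_o ho
  have ho2 : o ^ 2 ≠ 0 := pow_ne_zero 2 ho0
  have h6 := fp_six ho k
  have h12 := fp_six' ho k
  rw [phi_eq hk ho (phi hk ho P), phi_eq hk ho P, s3_sub, s3_sub]
  have e1 : scal (o ^ 2) ho2 h12 (scal (o ^ 2) ho2 h12 P) = scal o ho0 h6 P := by
    have e : o ^ 2 * o ^ 2 = o := by linear_combination o * fp_o3 ho
    rw [scal_scal (o ^ 2) (o ^ 2) ho2 ho2 h12 h12 (by rw [e]; exact ho0) (by rw [e]; exact h6)]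
    exact s3_congr e _ _ _ _ _
  have e2 : scal (o ^ 2) ho2 h12 (scal o ho0 h6 P) = P := by
    have e : o ^ 2 * o = 1 := by linear_combination fp_o3 ho
    rw [scal_scal o (o ^ 2) ho0 ho2 h6 h12 (by rw [e]; exact one_ne_zero) (by rw [e]; ring),
      s3_congr e _ one_ne_zero _ (by ring)]
    exact scal_one _ _
  have e3 : scal o ho0 h6 (scal (o ^ 2) ho2 h12 P) = P := by
    have e : o * o ^ 2 = 1 := by linear_combination fp_o3 ho
    rw [scal_scal (o ^ 2) o ho2 ho0 h12 h6 (by rw [e]; exact one_ne_zero) (by rw [e]; ring),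
      s3_congr e _ one_ne_zero _ (by ring)]
    exact scal_one _ _
  have e4 : scal o ho0 h6 (scal o ho0 h6 P) = scal (o ^ 2) ho2 h12 P := by
    have e : o * o = o ^ 2 := by ring
    rw [scal_scal o o ho0 ho0 h6 h6 (by rw [e]; exact ho2) (by rw [e]; exact h12)]
    exact s3_congr e _ _ _ _ _
  rw [e1, e2, e3, e4]
  have h := scal_omega hk o ho ho0 ho2 h6 h12 P
  have h7 : scal o ho0 h6 P = -P - scal (o ^ 2) ho2 h12 P :=
    eq_sub_of_add_eq (eq_neg_of_add_eq_zero_right (by rw [← add_assoc]; exact h))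
  rw [h7]
  have h8 : (3 : ℕ) • P = P + P + P := by
    rw [show (3 : ℕ) = 2 + 1 from rfl, add_nsmul, two_nsmul, one_nsmul]
  rw [h8]
  abel

/-- [FPc] PROOF. `scal_injective`, `iso_eq_zero`. -/
theorem phi_eq_zero (P : (W k).toAffine.Point) : phi hk ho P = 0 ↔ Ker P := by
  rw [← iso_eq_zero hk]
  unfold phi
  constructor
  · intro h
    exact scal_injective _ (inv_ne_zero (th_ne ho)) (th_inv ho k) h
  · intro h
    rw [h]
    rfl

/-- [FPd] PROOF. `iso_surj` (F4), `scal_surj` (F1). -/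
theorem phi_surj [IsAlgClosed K] (Q : (W k).toAffine.Point) :
    ∃ P : (W k).toAffine.Point, phi hk ho P = Q := by
  obtain ⟨R, hR⟩ := scal_surj (1 + 2 * o)⁻¹ (inv_ne_zero (th_ne ho)) (th_inv ho k) Q
  obtain ⟨P, hP⟩ := iso_surj hk R
  exact ⟨P, by unfold phi; rw [hP, hR]⟩

/-- [FPe] PROOF. `iso_ptW` (F2), `scal_ptW` (F1). -/
theorem phi_ptW {L : Type} [Field L] [CharZero L] (f : K →+* L) {k' : L} (h : f k = k')
    (hk' : k' ≠ 0) {o' : L} (hoo : f o = o') (ho' : o' ^ 2 + o' + 1 = 0)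
    (P : (W k).toAffine.Point) : phi hk' ho' (ptW f h P) = ptW f h (phi hk ho P) := by
  unfold phi
  rw [iso_ptW f h hk hk']
  exact scal_ptW f (n27_map f h) h _ _ (by rw [map_inv₀, map_add, map_mul, map_one, map_ofNat, hoo])
    _ _ _ _ _

/-- [FPf] PROOF. Unfold: `P ≠ 0`, `x ≠ 0`; `(1 + 2 o)⁻² = -1/3`. -/
theorem phi_some {x y : K} (h : (W k).toAffine.Nonsingular x y) (hx : x ≠ 0) :
    ∃ y' h', phi hk ho (.some x y h) = .some (-(x ^ 3 + 4 * k) / (3 * x ^ 2)) y' h' := by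
  have h2 : (1 + 2 * o) ^ 2 = -3 := by linear_combination 4 * ho
  have e : (1 + 2 * o)⁻¹ ^ 2 * ((x ^ 3 + 4 * k) / x ^ 2) = -(x ^ 3 + 4 * k) / (3 * x ^ 2) := by
    rw [inv_pow, h2]
    field_simp
  unfold phi
  rw [s2_iso_some hk h hx]
  have h3 : ∀ (X Y X' : K) (hn : (W (-27 * k)).toAffine.Nonsingular X Y)
      (e : (1 + 2 * o)⁻¹ ^ 2 * X = X'), ∃ y' h',
      scal (1 + 2 * o)⁻¹ (inv_ne_zero (th_ne ho)) (th_inv ho k) (.some X Y hn) =
        .some X' y' h' := by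
    intro X Y X' hn e
    subst e
    exact ⟨_, scal_nonsing (1 + 2 * o)⁻¹ (inv_ne_zero (th_ne ho)) (th_inv ho k) hn, rfl⟩
  exact h3 _ _ _ _ e

end

end THF
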