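import Pool.Agent.MP_9ab903_nt.TH.FE3a
import Pool.Agent.MP_9ab903_nt.TH.FP

/-!
# [NG3-FE3b] `phi` raises the valuation on the kernel of reduction
-/

set_option autoImplicit false

open NumberField IsDedekindDomain
open scoped Classical

namespace THF

/-- `phi` on the points of `Ep o` -/
noncomputable def phiE {F : Type} [Field F] [CharZero F] {o : F} (ho : o ^ 2 + o + 1 = 0)
    (hk : 48 * (4 - o) ≠ 0) (P : (TH.Ep o).toAffine.Point) : (TH.Ep o).toAffine.Point :=
  (eE ho).symm (phi hk ho (eE ho P))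

/-! ### Helper lemmas -/

section fe3b

open WithZero

theorem fe3b_two {F : Type} [Field F] (w : Valuation F (WithZero (Multiplicative ℤ)))
    (h3 : w 3 < 1) : w 2 = 1 := by
  refine le_antisymm (fe3a_two w) ?_
  by_contra hc
  push Not at hc
  have h1 : w (3 - 2 : F) < 1 := (w.map_sub _ _).trans_lt (max_lt h3 hc)
  have h2 : (3 - 2 : F) = 1 := by norm_num
  rw [h2, map_one] at h1
  exact lt_irrefl _ h1

theorem fe3b_la {F : Type} [Field F] {o : F} (ho : o ^ 2 + o + 1 = 0)
    (w : Valuation F (WithZero (Multiplicative ℤ))) (h3 : w 3 = exp (-2)) :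
    w (1 - o) = exp (-1) := by
  have h1 : (1 - o) ^ 2 = -(3 * o) := by linear_combination ho
  have h2 : w (1 - o) ^ 2 = exp (-2) := by
    rw [← map_pow, h1, Valuation.map_neg, map_mul, fe3a_o w ho, mul_one, h3]
  have h0 : w (1 - o) ≠ 0 := by
    intro h0
    rw [h0, zero_pow two_ne_zero] at h2
    exact exp_ne_zero h2.symm
  have h6 : w (1 - o) = exp (log (w (1 - o))) := (exp_log h0).symm
  rw [h6, ← exp_nsmul, exp_inj] at h2
  rw [h6]
  congr 1
  simp only [nsmul_eq_mul] at h2
  push_cast at h2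
  omega

theorem phiE_zero {F : Type} [Field F] [CharZero F] {o : F} (ho : o ^ 2 + o + 1 = 0)
    (hk : 48 * (4 - o) ≠ 0) : phiE ho hk 0 = 0 := by
  rw [phiE, map_zero, phi_zero, map_zero]

theorem phiE_add {F : Type} [Field F] [CharZero F] {o : F} (ho : o ^ 2 + o + 1 = 0)
    (hk : 48 * (4 - o) ≠ 0) (P Q : (TH.Ep o).toAffine.Point) :
    phiE ho hk (P + Q) = phiE ho hk P + phiE ho hk Q := by
  rw [phiE, map_add, phi_add, map_add]
  rfl

/-- `phiE` as a homomorphism -/
noncomputable def phiEHom {F : Type} [Field F] [CharZero F] {o : F} (ho : o ^ 2 + o + 1 = 0)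
    (hk : 48 * (4 - o) ≠ 0) : (TH.Ep o).toAffine.Point →+ (TH.Ep o).toAffine.Point where
  toFun := phiE ho hk
  map_zero' := phiE_zero ho hk
  map_add' := phiE_add ho hk

end fe3b

/-- [FE3b1] PROOF. `w x > 1`: from the equation `w y ^ 2 = w x ^ 3` (as in `CMT.i1_y_of_big`; the other terms
have smaller valuation), so `w x = exp (2 m)`, `m ≥ 1`. `w (1 - o) = exp (-1)` (`(1 - o)² = -3 o`,
`w o = 1`). `X = 4 λ² x + 4 λ`: `w (4 λ² x) = exp (2 m - 2) ≥ 1 > exp (-1) = w (4 λ)` (`w 2 = 1`), so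
`w X = exp (2 m - 2)`. `k = 48 (4 - o)`: `w k = w 3 * w (4 - o) = exp (-3)`, `w (4 k) = exp (-3) <
w (X³) = exp (6 m - 6)`. `phi_some` (FP): `X' = -(X³ + 4 k) / (3 X²)`, `w X' = exp (6 m - 6 + 2 - (4 m - 4))
= exp (2 m)`. `X' = 4 λ² x' + 4 λ` with `w (4 λ) = exp (-1) < exp (2 m)`, so
`w (4 λ² x') = exp (2 m)`, `w x' = exp (2 m + 2)`. -/
theorem phiE_raise {F : Type} [Field F] [CharZero F] {o : F} (ho : o ^ 2 + o + 1 = 0)
    (hk : 48 * (4 - o) ≠ 0)
    (w : Valuation F (WithZero (Multiplicative ℤ))) (hδ : w (o - 4) = WithZero.exp (-1))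
    (h3 : w 3 = WithZero.exp (-2)) {x y : F} (h : (TH.Ep o).toAffine.Nonsingular x y)
    (hx : 1 < w x) : ∃ (x' y' : F) (h' : (TH.Ep o).toAffine.Nonsingular x' y'),
      phiE ho hk (.some x y h) = .some x' y' h' ∧ w x' = w x * WithZero.exp 2 := by
  have h3lt : w 3 < 1 := by
    rw [h3, ← WithZero.exp_zero, WithZero.exp_lt_exp]
    norm_num
  have hw2 := fe3b_two w h3lt
  have hw4 : w 4 = 1 := by
    have : (4 : F) = 2 ^ 2 := by norm_num
    rw [this, map_pow, hw2, one_pow]
  have hla := fe3b_la ho w h3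
  have hwk : w (4 * (48 * (4 - o))) = WithZero.exp (-3) := by
    have e1 : (4 * (48 * (4 - o)) : F) = 2 ^ 6 * (3 * -(o - 4)) := by ring
    rw [e1, map_mul, map_pow, hw2, one_pow, one_mul, map_mul, Valuation.map_neg, h3, hδ,
      ← WithZero.exp_add]
    norm_num
  obtain ⟨n, hn, hwx⟩ := CM27.r6_exp_of_big w hx
  have hn2 : 2 ≤ n := by
    obtain ⟨hy1, hy2⟩ := fe3a_y_of_big w ho (fe3a_eqn o h) hx
    obtain ⟨m, hm, hwy⟩ := CM27.r6_exp_of_big w hy1
    rw [hwy, hwx, ← WithZero.exp_nsmul, ← WithZero.exp_nsmul, WithZero.exp_inj] at hy2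
    simp only [nsmul_eq_mul] at hy2
    push_cast at hy2
    omega
  have hwla : w (4 * (1 - o)) = WithZero.exp (-1) := by
    rw [map_mul, hw4, one_mul, hla]
  have hw1 : w (4 * (1 - o) ^ 2 * x) = WithZero.exp ((n : ℤ) - 2) := by
    rw [map_mul, map_mul, hw4, one_mul, map_pow, hla, hwx, ← WithZero.exp_nsmul,
      ← WithZero.exp_add]
    have e9 : (2 • (-1 : ℤ)) + (n : ℤ) = (n : ℤ) - 2 := by
      simp only [nsmul_eq_mul]
      push_cast
      ring
    rw [e9]
  have hX : w (4 * (1 - o) ^ 2 * x + 4 * (1 - o)) = WithZero.exp ((n : ℤ) - 2) := by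
    rw [CM27.r6_val_add_of_lt w, hw1]
    rw [hw1, hwla, WithZero.exp_lt_exp]
    omega
  have hX0 : 4 * (1 - o) ^ 2 * x + 4 * (1 - o) ≠ 0 := by
    intro h0
    rw [h0, map_zero] at hX
    exact WithZero.exp_ne_zero hX.symm
  obtain ⟨Y', hY', e2⟩ := phi_some hk ho (eE_nonsing ho h) hX0
  have hX' : w (-((4 * (1 - o) ^ 2 * x + 4 * (1 - o)) ^ 3 + 4 * (48 * (4 - o))) /
      (3 * (4 * (1 - o) ^ 2 * x + 4 * (1 - o)) ^ 2)) = WithZero.exp (n : ℤ) := by
    have hX3 : w ((4 * (1 - o) ^ 2 * x + 4 * (1 - o)) ^ 3) = WithZero.exp (3 * (n : ℤ) - 6) := by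
      rw [map_pow, hX, ← WithZero.exp_nsmul]
      congr 1
      simp only [nsmul_eq_mul]
      push_cast
      ring
    have hX3' : w ((4 * (1 - o) ^ 2 * x + 4 * (1 - o)) ^ 3 + 4 * (48 * (4 - o))) =
        WithZero.exp (3 * (n : ℤ) - 6) := by
      rw [CM27.r6_val_add_of_lt w, hX3]
      rw [hX3, hwk, WithZero.exp_lt_exp]
      omega
    rw [map_div₀, Valuation.map_neg, hX3', map_mul, map_pow, h3, hX, ← WithZero.exp_nsmul,
      ← WithZero.exp_add, ← WithZero.exp_sub]
    congr 1
    simp only [nsmul_eq_mul]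
    push_cast
    ring
  have e3 : eE ho (phiE ho hk (.some x y h)) = .some _ Y' hY' := by
    rw [phiE, AddEquiv.apply_symm_apply, eE_some]
    exact e2
  rcases hP : phiE ho hk (.some x y h) with _ | ⟨x', y', h'⟩
  · rw [hP] at e3
    exfalso
    have e4 : eE ho (.zero : (TH.Ep o).toAffine.Point) = 0 := map_zero (eE ho)
    rw [e4] at e3
    exact WeierstrassCurve.Affine.Point.some_ne_zero hY' e3.symm
  · refine ⟨x', y', h', rfl, ?_⟩
    rw [hP, eE_some] at e3
    have e5 : 4 * (1 - o) ^ 2 * x' + 4 * (1 - o) =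
        -((4 * (1 - o) ^ 2 * x + 4 * (1 - o)) ^ 3 + 4 * (48 * (4 - o))) /
          (3 * (4 * (1 - o) ^ 2 * x + 4 * (1 - o)) ^ 2) := by
      injection e3
    have e6 : w (4 * (1 - o) ^ 2 * x') = WithZero.exp (n : ℤ) := by
      have : 4 * (1 - o) ^ 2 * x' =
          -((4 * (1 - o) ^ 2 * x + 4 * (1 - o)) ^ 3 + 4 * (48 * (4 - o))) /
          (3 * (4 * (1 - o) ^ 2 * x + 4 * (1 - o)) ^ 2) + -(4 * (1 - o)) := by
        rw [← e5]
        ring
      rw [this, CM27.r6_val_add_of_lt w, hX']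
      rw [Valuation.map_neg, hX', hwla, WithZero.exp_lt_exp]
      omega
    rw [map_mul, map_mul, hw4, one_mul, map_pow, hla, ← WithZero.exp_nsmul] at e6
    have e7 : w x' = WithZero.exp (2 : ℤ) * (WithZero.exp (2 • (-1 : ℤ)) * w x') := by
      rw [← mul_assoc, ← WithZero.exp_add]
      norm_num
    rw [e7, e6, hwx, mul_comm]

/-- [FE3b2] PROOF. Port of `CMT.finite_of_divisible` (`MP_dfae13_nt/T/I1.lean`), with `phiE` (an additive map, commuting
with everything: `phi_add`) in place of doubling, `w = v.valuation F`: the kernel of reduction `H`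
(`exists_ker_red`) has finite index (`sub_same`: finitely many residue classes), `phiE` induces a
surjective, hence injective, map of the finite group `E(F) / H` provided `phiE H ⊆ H`
(`phiE_raise`); so `phiE Q ∈ H` implies `Q ∈ H`; if `P ∈ H`, `P ≠ 0`, then `P = phiE^n Q_n`,
`Q_n ∈ H` for all `n`, and `w (x P) ≥ exp (2 n)` (`phiE_raise`), a contradiction. So `H = 0` and
`E(F)` is finite. -/
theorem finite_of_phi {F : Type} [Field F] [NumberField F] {o : F} (ho : o ^ 2 + o + 1 = 0)
    (hk : 48 * (4 - o) ≠ 0) (v : HeightOneSpectrum (𝓞 F))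
    (hδ : v.valuation F (o - 4) = WithZero.exp (-1)) (h3 : v.valuation F 3 = WithZero.exp (-2))
    (h : ∀ P : (W (48 * (4 - o))).toAffine.Point, ∃ Q, phi hk ho Q = P) :
    Finite (TH.Ep o).toAffine.Point := by
  set w : Valuation F (WithZero (Multiplicative ℤ)) := v.valuation F with hw
  have h3lt : w 3 < 1 := by
    rw [h3, ← WithZero.exp_zero, WithZero.exp_lt_exp]
    norm_num
  obtain ⟨H, hH⟩ := exists_ker_red ho w
  -- surjectivity
  have hsur : ∀ P : (TH.Ep o).toAffine.Point, ∃ Q, phiE ho hk Q = P := by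
    intro P
    obtain ⟨Q, hQ⟩ := h (eE ho P)
    refine ⟨(eE ho).symm Q, ?_⟩
    rw [phiE, AddEquiv.apply_symm_apply, hQ, AddEquiv.symm_apply_apply]
  -- finitely many residue classes
  have hfin : Finite (𝓞 F ⧸ v.asIdeal) := inferInstance
  have happ : ∀ x : F, ∃ a : 𝓞 F, w x ≤ 1 → w (algebraMap (𝓞 F) F a - x) < 1 := by
    intro x
    by_cases hx : w x ≤ 1
    · obtain ⟨a, ha⟩ := v.exists_valuation_sub_lt_of_integer hx 1
      exact ⟨a, fun _ => ha⟩
    · exact ⟨0, fun h => absurd h hx⟩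
  choose app happ using happ
  have hρ : ∀ a b : F, w a ≤ 1 → w b ≤ 1 →
      Ideal.Quotient.mk v.asIdeal (app a) = Ideal.Quotient.mk v.asIdeal (app b) →
        w (a - b) < 1 := by
    intro a b ha hb hab
    have h5 : w (algebraMap (𝓞 F) F (app a - app b)) < 1 := by
      rw [hw, v.valuation_lt_one_iff_mem]
      exact Ideal.Quotient.eq.1 hab
    have h6 : a - b = algebraMap (𝓞 F) F (app a - app b) -
        ((algebraMap (𝓞 F) F (app a) - a) - (algebraMap (𝓞 F) F (app b) - b)) := by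
      rw [map_sub]
      ring
    rw [h6]
    exact (w.map_sub _ _).trans_lt (max_lt h5 ((w.map_sub _ _).trans_lt
      (max_lt (happ a ha) (happ b hb))))
  let κ := 𝓞 F ⧸ v.asIdeal
  let f : (TH.Ep o).toAffine.Point → Option (κ × κ) := fun P =>
    match P with
    | .zero => none
    | .some x y _ => if w x ≤ 1 then Option.some (Ideal.Quotient.mk v.asIdeal (app x),
        Ideal.Quotient.mk v.asIdeal (app y)) else none
  have hf : ∀ P Q : (TH.Ep o).toAffine.Point, f P = f Q → P - Q ∈ H := by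
    intro P Q hPQ
    have hnone : ∀ P : (TH.Ep o).toAffine.Point, f P = none → P ∈ H := by
      rintro (_ | ⟨x, y, h⟩) hP
      · exact H.zero_mem
      · by_contra hc
        have hx : w x ≤ 1 := not_lt.1 (fun h' => hc ((hH _).2 h'))
        have : f (.some x y h) = Option.some (Ideal.Quotient.mk v.asIdeal (app x),
          Ideal.Quotient.mk v.asIdeal (app y)) := if_pos hx
        rw [this] at hP
        cases hP
    by_cases h1 : f P = none
    · exact H.sub_mem (hnone P h1) (hnone Q (hPQ.symm.trans h1))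
    · have h2' : f Q ≠ none := fun h => h1 (hPQ.trans h)
      rcases P with _ | ⟨x₁, y₁, k₁⟩
      · exact absurd rfl h1
      rcases Q with _ | ⟨x₂, y₂, k₂⟩
      · exact absurd rfl h2'
      have hx₁ : w x₁ ≤ 1 := by
        by_contra hc
        exact h1 (if_neg hc)
      have hx₂ : w x₂ ≤ 1 := by
        by_contra hc
        exact h2' (if_neg hc)
      have e1 : f (.some x₁ y₁ k₁) = Option.some (Ideal.Quotient.mk v.asIdeal (app x₁),
        Ideal.Quotient.mk v.asIdeal (app y₁)) := if_pos hx₁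
      have e2 : f (.some x₂ y₂ k₂) = Option.some (Ideal.Quotient.mk v.asIdeal (app x₂),
        Ideal.Quotient.mk v.asIdeal (app y₂)) := if_pos hx₂
      rw [e1, e2, Option.some.injEq, Prod.mk.injEq] at hPQ
      have hy₁ := y_small ho w k₁ hx₁
      have hy₂ := y_small ho w k₂ hx₂
      exact (hH _).2 (sub_same ho w h3lt k₁ k₂ hx₁ (hρ _ _ hx₁ hx₂ hPQ.1)
        (hρ _ _ hy₁ hy₂ hPQ.2))
  -- the quotient by the kernel of reduction is finite
  have hQ : Finite ((TH.Ep o).toAffine.Point ⧸ H) := by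
    refine Finite.of_injective (fun q => f q.out) fun q₁ q₂ hq => ?_
    have h5 := hf _ _ hq
    rw [← QuotientAddGroup.out_eq' q₁, ← QuotientAddGroup.out_eq' q₂]
    refine (QuotientAddGroup.eq.2 ?_).symm
    have h6 : -Quotient.out q₂ + Quotient.out q₁ = Quotient.out q₁ - Quotient.out q₂ := by abel
    rw [h6]
    exact h5
  -- `phiE` preserves the kernel
  have hpres : H ≤ H.comap (phiEHom ho hk) := by
    intro P hP
    change phiE ho hk P ∈ H
    rcases P with _ | ⟨x, y, k⟩
    · have : phiE ho hk (.zero : (TH.Ep o).toAffine.Point) = 0 := phiE_zero ho hk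
      rw [this]
      exact H.zero_mem
    · have hx : 1 < w x := (hH _).1 hP
      obtain ⟨x', y', h', h5, h6⟩ := phiE_raise ho hk w hδ h3 k hx
      rw [h5, hH]
      change 1 < w x'
      rw [h6]
      refine lt_of_lt_of_le hx ?_
      have h7 : (1 : WithZero (Multiplicative ℤ)) ≤ WithZero.exp 2 := by
        rw [← WithZero.exp_zero, WithZero.exp_le_exp]
        norm_num
      calc w x = w x * 1 := (mul_one _).symm
        _ ≤ w x * WithZero.exp 2 := mul_le_mul_right h7 (w x)
  -- preimages of elements of the kernel are in the kernel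
  have hhalf : ∀ Q : (TH.Ep o).toAffine.Point, phiE ho hk Q ∈ H → Q ∈ H := by
    have hsurj : Function.Surjective (QuotientAddGroup.map H H (phiEHom ho hk) hpres) := by
      intro q
      obtain ⟨P, rfl⟩ := QuotientAddGroup.mk_surjective q
      obtain ⟨Q, hQ⟩ := hsur P
      refine ⟨(Q : (TH.Ep o).toAffine.Point ⧸ H), ?_⟩
      rw [← hQ]
      rfl
    have hinj := Finite.injective_iff_surjective.2 hsurj
    intro Q hQ
    have h5 : QuotientAddGroup.map H H (phiEHom ho hk) hpres
        (Q : (TH.Ep o).toAffine.Point ⧸ H) = QuotientAddGroup.map H H (phiEHom ho hk) hpres 0 := by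
      rw [map_zero]
      exact (QuotientAddGroup.eq_zero_iff _).2 hQ
    exact (QuotientAddGroup.eq_zero_iff _).1 (hinj h5)
  -- the kernel is trivial
  have hker : ∀ n : ℕ, ∀ (x y : F) (k : (TH.Ep o).toAffine.Nonsingular x y), 1 < w x →
      w x = WithZero.exp (n : ℤ) → False := by
    intro n
    induction n using Nat.strong_induction_on with
    | _ n ih =>
      intro x y k hx hn
      obtain ⟨Q, hQ⟩ := hsur (.some x y k)
      have hQ1 : Q ∈ H := hhalf Q (by rw [hQ, hH]; exact hx)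
      rcases Q with _ | ⟨x', y', k'⟩
      · have : phiE ho hk (.zero : (TH.Ep o).toAffine.Point) = 0 := phiE_zero ho hk
        rw [this] at hQ
        exact WeierstrassCurve.Affine.Point.some_ne_zero k hQ.symm
      · have hx' : 1 < w x' := (hH _).1 hQ1
        obtain ⟨x'', y'', k'', h5, h6⟩ := phiE_raise ho hk w hδ h3 k' hx'
        obtain ⟨n', hn', hwx'⟩ := CM27.r6_exp_of_big w hx'
        rw [h5] at hQ
        have h7 : x'' = x := by
          injection hQ
        rw [h7, hn, hwx', ← WithZero.exp_add, WithZero.exp_inj] at h6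
        exact ih n' (by omega) x' y' k' hx' hwx'
  refine Finite.of_injective f fun P Q hPQ => ?_
  have h5 := hf P Q hPQ
  rcases hPQ' : P - Q with _ | ⟨x, y, k⟩
  · exact sub_eq_zero.1 hPQ'
  · rw [hPQ', hH] at h5
    obtain ⟨n, -, hn⟩ := CM27.r6_exp_of_big w (x := x) h5
    exact (hker n x y k h5 hn).elim

end THF
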