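import Pool.Agent.MP_9ab903_nt.TH.FB1
import Pool.Agent.MP_ae0bd0_nt.B3.Q10

/-!
# [NG3-FG] The groups `InU` and `Good3`
-/

set_option autoImplicit false

open NumberField IsDedekindDomain
open scoped Classical

namespace THF

section
variable {F : Type} [Field F] {δ : F} {w : Valuation F (WithZero (Multiplicative ℤ))}

/-- [FGa] PROOF. `(a + b √δ) (a' + b' √δ) = (a a' + b b' δ) + (a b' + a' b) √δ`; `w δ ≤ 1`.
(Port of `SB3.InU3.mul` in `S3/S14.lean`.) -/
theorem InU.mul (hδ : w δ ≤ 1) {z z' : Q2 δ} (h : InU w z) (h' : InU w z') : InU w (z * z') := by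
  obtain ⟨u, a, b, hu, hz, ha, hb⟩ := h
  obtain ⟨u', a', b', hu', hz', ha', hb'⟩ := h'
  refine ⟨u * u', a * a' + δ * (b * b'), a * b' + b * a', hu.mul hu', ?_, ?_, ?_⟩
  · have e : z * z' * (u * u') ^ 3 = z * u ^ 3 * (z' * u' ^ 3) := by ring
    rw [e, hz, hz']
    ext
    · simp only [QuadraticAlgebra.re_mul]
      ring
    · simp only [QuadraticAlgebra.im_mul]
      ring
  · have h1 : w (a * a') = 1 := by rw [map_mul, ha, ha', one_mul]
    rw [Valuation.map_add_eq_of_lt_left, h1]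
    rw [h1, map_mul, map_mul]
    calc w δ * (w b * w b') ≤ 1 * (w b * w b') := by
          gcongr
      _ = w b * w b' := one_mul _
      _ < 1 := mul_lt_one_of_nonneg_of_lt_one_left zero_le hb hb'.le
  · refine lt_of_le_of_lt (w.map_add _ _) (max_lt ?_ ?_)
    · rw [map_mul, ha, one_mul]; exact hb'
    · rw [map_mul, ha', mul_one]; exact hb

/-- [FGb] take `u = t⁻¹` (port of `SB3.InU3.cube`). -/
theorem InU.cube (w : Valuation F (WithZero (Multiplicative ℤ))) (t : Q2 δ) (ht : IsUnit t) :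
    InU w (t ^ 3) := by
  obtain ⟨t, rfl⟩ := ht
  refine ⟨↑t⁻¹, 1, 0, Units.isUnit _, ?_, map_one w, ?_⟩
  · rw [← mul_pow, Units.mul_inv, one_pow]
    ext
    · rw [QuadraticAlgebra.re_one]
    · rw [QuadraticAlgebra.im_one]
  · rw [map_zero]; exact zero_lt_one

/-- [FGc] port of `SB3.InU3.map`. -/
theorem InU.map {w w' : Valuation F (WithZero (Multiplicative ℤ))} (σ : F →+* F) (hσ : σ δ = δ)
    (hw : ∀ x, w' x = w (σ x)) {z : Q2 δ} (h : InU w' z) : InU w (mapQ σ hσ z) := by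
  obtain ⟨u, a, b, hu, hz, ha, hb⟩ := h
  refine ⟨mapQ σ hσ u, σ a, σ b, hu.map (mapQ σ hσ), ?_, ?_, ?_⟩
  · rw [← map_pow, ← map_mul, hz, mapQ_apply]
  · rw [← hw, ha]
  · rw [← hw]; exact hb

end

/-- the automorphism of `F(√δ)` induced by an automorphism of `F` fixing `δ` -/
def fg_equiv {F : Type} [Field F] {δ : F} (σ : F ≃+* F) (hσ : (σ : F →+* F) δ = δ) :
    Q2 δ ≃+* Q2 δ :=
  RingEquiv.ofRingHom (mapQ (σ : F →+* F) hσ) (mapQ (σ.symm : F →+* F) (by
      change σ.symm δ = δ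
      rw [RingEquiv.symm_apply_eq]
      exact hσ.symm))
    (RingHom.ext fun z => by
      rw [RingHom.comp_apply, RingHom.id_apply, mapQ_apply, mapQ_apply]
      simp)
    (RingHom.ext fun z => by
      rw [RingHom.comp_apply, RingHom.id_apply, mapQ_apply, mapQ_apply]
      simp)

/-- conjugate places (only the valuations) -/
theorem fg_conj (F : Type) [Field F] [NumberField F] (σ : F ≃+* F)
    (P : HeightOneSpectrum (𝓞 F)) :
    ∃ P' : HeightOneSpectrum (𝓞 F), ∀ x : F, P'.valuation F x = P.valuation F (σ x) := by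
  obtain ⟨P', h, -⟩ := CM27.exists_conj F σ P
  exact ⟨P', h⟩

section
variable {F : Type} [Field F] [NumberField F] {δ : F} [Fact (NonSq δ)]

/-- [FGe] port of `SB3.Good3.mul`, ... in `S3/S15.lean`. -/
theorem Good3.mul {z z' : Q2 δ} (h : Good3 z) (h' : Good3 z') : Good3 (z * z') := by
  refine ⟨mul_ne_zero h.ne h'.ne, ?_, ?_, ?_⟩
  · obtain ⟨n, hn⟩ := h.norm
    obtain ⟨n', hn'⟩ := h'.norm
    exact ⟨n * n', by rw [map_mul, hn, hn']; ring⟩
  · intro P hP
    obtain ⟨g, hg⟩ := h.val P hP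
    obtain ⟨g', hg'⟩ := h'.val P hP
    exact ⟨g * g', by rw [map_mul, hg, hg', mul_pow]⟩
  · intro v hv hv'
    refine InU.mul ?_ (h.three v hv hv') (h'.three v hv hv')
    rw [hv, ← WithZero.exp_zero, WithZero.exp_le_exp]
    omega

theorem Good3.cube (t : Q2 δ) (ht : t ≠ 0) : Good3 (t ^ 3) := by
  refine ⟨pow_ne_zero 3 ht, ⟨t.norm, map_pow _ _ _⟩, ?_, ?_⟩
  · intro P hP
    exact ⟨P.valuation (Q2 δ) t, map_pow _ _ _⟩
  · intro v hv hv'
    exact InU.cube _ t (isUnit_iff_ne_zero.2 ht)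

theorem Good3.inv {z : Q2 δ} (h : Good3 z) : Good3 z⁻¹ := by
  have h1 : z⁻¹ = z * z * (z⁻¹) ^ 3 := by
    have := h.ne
    field_simp
  rw [h1]
  exact (h.mul h).mul (Good3.cube _ (inv_ne_zero h.ne))

/-- [FGf] PROOF. As `SB3.Good3.map` with `CM27.exists_conj` (for `F` and for `Q2 δ`): only the
valuations of the conjugate places are used, `P'.valuation (6 δ) = P.valuation (σ (6 δ))`. -/
theorem Good3.map {z : Q2 δ} (h : Good3 z) (σ : F ≃+* F) (hσ : (σ : F →+* F) δ = δ) :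
    Good3 (mapQ (σ : F →+* F) hσ z) := by
  have hval : ∀ x : Q2 δ, fg_equiv σ hσ x = mapQ (σ : F →+* F) hσ x := fun x => rfl
  refine ⟨?_, ?_, ?_, ?_⟩
  · rw [← hval]
    exact (map_ne_zero_iff _ (fg_equiv σ hσ).injective).2 h.ne
  · obtain ⟨n, hn⟩ := h.norm
    exact ⟨σ n, by rw [norm_mapQ, hn]; simp⟩
  · intro P hP
    obtain ⟨P', hP1⟩ := fg_conj (Q2 δ) (fg_equiv σ hσ) P
    have h6 : P'.valuation (Q2 δ) (algebraMap F (Q2 δ) (6 * δ)) = 1 := by
      rw [hP1, hval, algebraMap_Q2, mapQ_apply]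
      have h7 : (⟨(σ : F →+* F) (6 * δ), (σ : F →+* F) 0⟩ : Q2 δ) =
          algebraMap F (Q2 δ) (6 * δ) := by
        rw [algebraMap_Q2, map_mul, hσ, map_zero, map_ofNat]
      rw [h7]
      exact hP
    obtain ⟨g, hg⟩ := h.val P' h6
    exact ⟨g, by rw [← hval, ← hP1, hg]⟩
  · intro v hv hv'
    obtain ⟨v', h1⟩ := fg_conj F σ v
    have hσ' : σ δ = δ := hσ
    have h4 : v'.valuation F δ = WithZero.exp (-1) := by rw [h1, hσ', hv]
    have h5 : v'.valuation F 3 = WithZero.exp (-2) := by rw [h1, map_ofNat, hv']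
    exact InU.map (σ : F →+* F) hσ h1 (h.three v' h4 h5)

end

end THF
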