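import Pool.Agent.MP_9ab903_nt.TH.FP
import Pool.Agent.MP_9ab903_nt.TH.F8
import Pool.Agent.MP_9ab903_nt.TH.F10
import Pool.Agent.MP_9ab903_nt.TH.F11
import Pool.Agent.MP_9ab903_nt.TH.FS3
import Pool.Agent.MP_9ab903_nt.SB.FIN
import Pool.Agent.MP_9ab903_nt.Defs

/-!
# [NG3-FH] The Tate–Shafarevich group has no element of order `3`
-/

set_option autoImplicit false

open NumberField IsDedekindDomain
open scoped Classical

namespace THF

theorem fh_loc_ptW {F L : Type} [Field F] [Field L] [Algebra F L] [Algebra.IsAlgebraic F L]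
    {k : F} (P : (W (algebraMap F L k)).toAffine.Point) :
    IsLocallyConstant fun σ : L ≃ₐ[F] L => ptW (σ : L →+* L) (gal_comm σ k) P := by
  rcases P with _ | ⟨x, y, h⟩
  · exact IsLocallyConstant.const _
  · rw [IsLocallyConstant.iff_exists_open]
    intro σ
    obtain ⟨U, hU, hσU, hU'⟩ := (IsLocallyConstant.iff_exists_open _).1
      (CM27.fin_loc_apply (F := F) x) σ
    obtain ⟨V, hV, hσV, hV'⟩ := (IsLocallyConstant.iff_exists_open _).1
      (CM27.fin_loc_apply (F := F) y) σ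
    refine ⟨U ∩ V, hU.inter hV, ⟨hσU, hσV⟩, fun τ hτ => ?_⟩
    have h1 : τ x = σ x := hU' τ hτ.1
    have h2 : τ y = σ y := hV' τ hτ.2
    simp only [ptW]
    congr 1

theorem fh_comp {F L : Type} [Field F] [Field L] [Algebra F L] {k : F} (σ τ : L ≃ₐ[F] L)
    (P : (W (algebraMap F L k)).toAffine.Point) :
    ptW ((σ * τ : L ≃ₐ[F] L) : L →+* L) (gal_comm (σ * τ) k) P =
      ptW (σ : L →+* L) (gal_comm σ k) (ptW (τ : L →+* L) (gal_comm τ k) P) := by
  rw [ptW_comp]
  rfl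

/-- [FHa] subtracting a coboundary. PROOF. Port of `SB3.Coc3.sub` (`S3/FIN.lean`); `ptW_add`,
`ptW_sub`, `ptW_comp`, `ptW_congr` (F1), `SB3.fin_loc_ptW` (to be ported: the map `σ ↦ ptW σ P` is locally constant). -/
theorem Coc.sub {F L : Type} [Field F] [CharZero F] [Field L] [Algebra F L]
    [Algebra.IsAlgebraic F L] {k : F}
    {c : (L ≃ₐ[F] L) → (W (algebraMap F L k)).toAffine.Point} (hc : Coc F L k c)
    (P : (W (algebraMap F L k)).toAffine.Point) :
    Coc F L k (fun σ => c σ - (ptW (σ : L →+* L) (gal_comm σ k) P - P)) := by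
  refine ⟨hc.loc.sub ((fh_loc_ptW (F := F) P).sub (IsLocallyConstant.const P)), fun σ τ => ?_⟩
  have h4 := hc.crossed σ τ
  change c (σ * τ) - (ptW ((σ * τ : L ≃ₐ[F] L) : L →+* L) (gal_comm (σ * τ) k) P - P) =
    (c σ - (ptW (σ : L →+* L) (gal_comm σ k) P - P)) +
      ptW (σ : L →+* L) (gal_comm σ k) (c τ - (ptW (τ : L →+* L) (gal_comm τ k) P - P))
  rw [h4, fh_comp, ptW_sub, ptW_sub]
  abel

/-- [FHb] PROOF. Port of `SB3.LocTriv.sub`. -/
theorem LocTriv.sub {F L : Type} [Field F] [CharZero F] [Field L] [Algebra F L] {k : F}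
    {c : (L ≃ₐ[F] L) → (W (algebraMap F L k)).toAffine.Point} {Fv Lv : Type} [Field Fv]
    [Algebra F Fv] [Field Lv] [Algebra Fv Lv] [Algebra F Lv] [IsScalarTower F Fv Lv]
    (h : LocTriv c Fv Lv) (P : (W (algebraMap F L k)).toAffine.Point) :
    LocTriv (fun σ => c σ - (ptW (σ : L →+* L) (gal_comm σ k) P - P)) Fv Lv := by
  intro ι
  obtain ⟨Q, hQ⟩ := h ι
  refine ⟨Q - ptW (ι : L →+* Lv) (alg_comm ι k) P, fun τ σ hστ => ?_⟩
  have h7 : (ι : L →+* Lv).comp (σ : L →+* L) = (τ : Lv →+* Lv).comp (ι : L →+* Lv) := by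
    ext x
    exact hστ x
  have h6 := hQ τ σ hστ
  have h8 : ptW (ι : L →+* Lv) (alg_comm ι k) (ptW (σ : L →+* L) (gal_comm σ k) P) =
      ptW (τ : Lv →+* Lv) (tau_comm F Fv Lv τ k) (ptW (ι : L →+* Lv) (alg_comm ι k) P) := by
    rw [ptW_comp, ptW_comp]
    exact ptW_congr h7 _ _ P
  change ptW (ι : L →+* Lv) (alg_comm ι k) (c σ - (ptW (σ : L →+* L) (gal_comm σ k) P - P)) = _
  rw [ptW_sub, ptW_sub, ptW_sub, h6, h8]
  abel

/-- `algebraMap F L k ≠ 0` -/
theorem am_ne {F L : Type} [Field F] [Field L] [Algebra F L] {k : F} (hk : k ≠ 0) :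
    algebraMap F L k ≠ 0 := (map_ne_zero _).2 hk

theorem am_om {F L : Type} [Field F] [Field L] [Algebra F L] {o : F} (ho : o ^ 2 + o + 1 = 0) :
    algebraMap F L o ^ 2 + algebraMap F L o + 1 = 0 := by
  rw [← map_pow, ← map_add, ← map_one (algebraMap F L), ← map_add, ho, map_zero]

/-- [FHc] PROOF. As `SB3.Coc3.iso`: `phi_add`, `phi_ptW` (with `gal_comm`). -/
theorem Coc.phi {F L : Type} [Field F] [Field L] [CharZero L] [Algebra F L] {k : F}
    (hk : k ≠ 0) {o : F} (ho : o ^ 2 + o + 1 = 0)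
    {c : (L ≃ₐ[F] L) → (W (algebraMap F L k)).toAffine.Point} (hc : Coc F L k c) :
    Coc F L k (fun σ => THF.phi (am_ne hk) (am_om ho) (c σ)) := by
  refine ⟨hc.loc.comp (THF.phi (am_ne hk) (am_om ho)), fun σ τ => ?_⟩
  rw [hc.crossed, phi_add, phi_ptW (am_ne hk) (am_om ho) (σ : L →+* L) (gal_comm σ k) (am_ne hk)
    (gal_comm σ o) (am_om ho)]

/-- [FHd] PROOF. As `SB3.LocTriv.iso`. -/
theorem LocTriv.phi {F L : Type} [Field F] [Field L] [CharZero L] [Algebra F L] {k : F}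
    (hk : k ≠ 0) {o : F} (ho : o ^ 2 + o + 1 = 0)
    {c : (L ≃ₐ[F] L) → (W (algebraMap F L k)).toAffine.Point} {Fv Lv : Type} [Field Fv]
    [Algebra F Fv] [Field Lv] [CharZero Lv] [Algebra Fv Lv] [Algebra F Lv]
    [IsScalarTower F Fv Lv] (h : LocTriv c Fv Lv) :
    LocTriv (fun σ => THF.phi (am_ne hk) (am_om ho) (c σ)) Fv Lv := by
  intro ι
  obtain ⟨Q, hQ⟩ := h ι
  refine ⟨THF.phi (am_ne hk) (am_om ho) Q, fun τ σ hστ => ?_⟩
  change ptW (ι : L →+* Lv) (alg_comm ι k) (THF.phi (am_ne hk) (am_om ho) (c σ)) =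
    ptW (τ : Lv →+* Lv) (tau_comm F Fv Lv τ k) (THF.phi (am_ne hk) (am_om ho) Q) -
      THF.phi (am_ne hk) (am_om ho) Q
  rw [← phi_ptW (am_ne hk) (am_om ho) (ι : L →+* Lv) (alg_comm ι k) (am_ne hk) (alg_comm ι o)
      (am_om ho),
    ← phi_ptW (am_ne hk) (am_om ho) (τ : Lv →+* Lv) (tau_comm F Fv Lv τ k) (am_ne hk)
      (tau_comm F Fv Lv τ o) (am_om ho), hQ τ σ hστ, phi_sub]

/-- [FHe] A cocycle with values in the kernel of `phi`, which is trivial at all finite places, is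
principal, if the Selmer group is trivial. PROOF. As `SB3.sha_step` (`S3/FIN.lean`): `hilbert90` (F8), `exists_class`
(F9), `locCond` (F10), `trivial_of_cube` (F11). -/
theorem sha_step {F : Type} [Field F] [NumberField F] {o : F} (ho : o ^ 2 + o + 1 = 0)
    {k δ e : F} (hd : Dat k δ e) (hsel : SelTriv F k δ e)
    (c : (AlgebraicClosure F ≃ₐ[F] AlgebraicClosure F) →
      (W (algebraMap F (AlgebraicClosure F) k)).toAffine.Point)
    (hc : Coc F (AlgebraicClosure F) k c) (hK : ∀ σ, Ker (c σ))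
    (hloc : ∀ v : HeightOneSpectrum (𝓞 F),
      LocTriv c (v.adicCompletion F) (AlgebraicClosure (v.adicCompletion F))) :
    ∃ T : (W (algebraMap F (AlgebraicClosure F) k)).toAffine.Point,
      ∀ σ, c σ = ptW (σ : AlgebraicClosure F →+* AlgebraicClosure F) (gal_comm σ k) T - T := by
  obtain ⟨S, hS, hSσ⟩ := hilbert90 hd c hc hK
  obtain ⟨z, hz0, hzN, hzS⟩ := exists_class hd c hK S hS hSσ
  have hloc' : ∀ v : HeightOneSpectrum (𝓞 F), LocCond k δ e z (v.adicCompletion F) := by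
    intro v
    let ι : AlgebraicClosure F →ₐ[F] AlgebraicClosure (v.adicCompletion F) := IsAlgClosed.lift
    obtain ⟨Q, hQ⟩ := hloc v ι
    exact locCond hd c hK S hS hSσ z hzS (v.adicCompletion F)
      (AlgebraicClosure (v.adicCompletion F)) ι Q hQ
  obtain ⟨t, ht⟩ := hsel z hz0 hzN hloc'
  exact trivial_of_cube o ho hd c hK S hS hSσ t (by rw [← map_pow, ← ht, hzS])

/-- [FHf] PROOF. As `SB3.sha_three_core` (`S3/FIN.lean`), with the endomorphism `phi` (`phi (phi P) = -(3 • P)`)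
in place of the two isogenies: `Q = -phi (phi (P'))`... : choose `P` with `3 • P = Q` (`phi_surj`
twice, `phi_phi`, and a sign); `c1 = c - ∂P`, `3 • c1 = 0`, so `phi (c1 σ)` is in the kernel of `phi`
(`phi_eq_zero`, `phi_phi`); `sha_step` for `phi ∘ c1`: `= ∂T`; `phi T' = T`; `c2 = c1 - ∂T'` has values in
the kernel; `sha_step`: `c2 = ∂T2`. -/
theorem sha_core {F : Type} [Field F] [NumberField F] {o : F} (ho : o ^ 2 + o + 1 = 0)
    {k δ e : F} (hd : Dat k δ e) (hsel : SelTriv F k δ e)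
    (c : (AlgebraicClosure F ≃ₐ[F] AlgebraicClosure F) →
      (W (algebraMap F (AlgebraicClosure F) k)).toAffine.Point)
    (hc : Coc F (AlgebraicClosure F) k c)
    (hloc : ∀ v : HeightOneSpectrum (𝓞 F),
      LocTriv c (v.adicCompletion F) (AlgebraicClosure (v.adicCompletion F)))
    (h3 : ∃ P : (W (algebraMap F (AlgebraicClosure F) k)).toAffine.Point, ∀ σ,
      3 • c σ = ptW (σ : AlgebraicClosure F →+* AlgebraicClosure F) (gal_comm σ k) P - P) :
    ∃ P : (W (algebraMap F (AlgebraicClosure F) k)).toAffine.Point, ∀ σ,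
      c σ = ptW (σ : AlgebraicClosure F →+* AlgebraicClosure F) (gal_comm σ k) P - P := by
  have hk := hd.ne
  have hkL : algebraMap F (AlgebraicClosure F) k ≠ 0 := am_ne hk
  have hoL : algebraMap F (AlgebraicClosure F) o ^ 2 + algebraMap F (AlgebraicClosure F) o + 1
      = 0 := am_om ho
  -- division by three
  obtain ⟨Q, hQ⟩ := h3
  obtain ⟨P', hP'⟩ := phi_surj hkL hoL Q
  obtain ⟨P'', hP''⟩ := phi_surj hkL hoL P'
  have hP3 : Q = 3 • (-P'') := by
    rw [← hP', ← hP'', phi_phi, smul_neg]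
  set P := -P'' with hPdef
  -- first step
  have hc1 := hc.sub P
  have hl1 := fun v => (hloc v).sub P
  set c1 : (AlgebraicClosure F ≃ₐ[F] AlgebraicClosure F) →
    (W (algebraMap F (AlgebraicClosure F) k)).toAffine.Point :=
    fun σ => c σ - (ptW (σ : AlgebraicClosure F →+* AlgebraicClosure F) (gal_comm σ k) P - P)
    with hc1def
  have h3c : ∀ σ, 3 • c1 σ = 0 := by
    intro σ
    rw [hc1def]
    simp only
    rw [nsmul_sub, hQ σ, hP3, ptW_nsmul, nsmul_sub, sub_self]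
  have hK' : ∀ σ, Ker (THF.phi hkL hoL (c1 σ)) := by
    intro σ
    rw [← phi_eq_zero hkL hoL, phi_phi, h3c, neg_zero]
  have hchar : ∀ v : HeightOneSpectrum (𝓞 F),
      CharZero (AlgebraicClosure (v.adicCompletion F)) := fun v =>
    charZero_of_injective_algebraMap
      (algebraMap F (AlgebraicClosure (v.adicCompletion F))).injective
  obtain ⟨T, hT⟩ := sha_step ho hd hsel (fun σ => THF.phi hkL hoL (c1 σ)) (hc1.phi hk ho) hK'
    (fun v => by
      have := hchar v
      exact (hl1 v).phi hk ho)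
  obtain ⟨T', hT'⟩ := phi_surj hkL hoL T
  -- second step
  have hc2 := hc1.sub T'
  have hl2 := fun v => (hl1 v).sub T'
  set c2 : (AlgebraicClosure F ≃ₐ[F] AlgebraicClosure F) →
    (W (algebraMap F (AlgebraicClosure F) k)).toAffine.Point :=
    fun σ => c1 σ -
      (ptW (σ : AlgebraicClosure F →+* AlgebraicClosure F) (gal_comm σ k) T' - T') with hc2def
  have hK : ∀ σ, Ker (c2 σ) := by
    intro σ
    have h5 : THF.phi hkL hoL (c1 σ) =
      ptW (σ : AlgebraicClosure F →+* AlgebraicClosure F) (gal_comm σ k) T - T := hT σ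
    have h8 : c2 σ = c1 σ -
      (ptW (σ : AlgebraicClosure F →+* AlgebraicClosure F) (gal_comm σ k) T' - T') := rfl
    rw [← phi_eq_zero hkL hoL, h8, phi_sub hkL hoL (c1 σ), h5, phi_sub,
      phi_ptW hkL hoL (σ : AlgebraicClosure F →+* AlgebraicClosure F) (gal_comm σ k) hkL
        (gal_comm σ o) hoL, hT', sub_self]
  obtain ⟨T2, hT2⟩ := sha_step ho hd hsel c2 hc2 hK hl2
  refine ⟨P + T' + T2, fun σ => ?_⟩
  have h6 : c σ - (ptW (σ : AlgebraicClosure F →+* AlgebraicClosure F) (gal_comm σ k) P - P) -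
      (ptW (σ : AlgebraicClosure F →+* AlgebraicClosure F) (gal_comm σ k) T' - T') =
      ptW (σ : AlgebraicClosure F →+* AlgebraicClosure F) (gal_comm σ k) T2 - T2 := hT2 σ
  have h7 : c σ =
      (ptW (σ : AlgebraicClosure F →+* AlgebraicClosure F) (gal_comm σ k) T2 - T2) +
      (ptW (σ : AlgebraicClosure F →+* AlgebraicClosure F) (gal_comm σ k) T' - T') +
      (ptW (σ : AlgebraicClosure F →+* AlgebraicClosure F) (gal_comm σ k) P - P) := by
    rw [← h6]
    abel
  rw [h7, ptW_add, ptW_add]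
  abel

/-- natural isomorphisms of the points of `V` with the points of `W k` over all extensions -/
structure NatIso {F : Type} [Field F] (V : WeierstrassCurve F) (k : F) where
  eqv : ∀ (L : Type) [Field L] [Algebra F L], SBSD.Pts V L ≃+ (W (algebraMap F L k)).toAffine.Point
  nat : ∀ (L L' : Type) [Field L] [Algebra F L] [Field L'] [Algebra F L'] (f : L →ₐ[F] L')
    (P : SBSD.Pts V L), eqv L' (WeierstrassCurve.Affine.Point.map (W' := V) f P) =
      ptW (f : L →+* L') (alg_comm f k) (eqv L P)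

theorem fh_gen {F : Type} [Field F] [NumberField F] {o : F} (ho : o ^ 2 + o + 1 = 0)
    {k δ e : F} (hd : Dat k δ e) (hsel : SelTriv F k δ e) (V : WeierstrassCurve F)
    (I : NatIso V k)
    (c : SBSD.AbsGal F → SBSD.Pts V (AlgebraicClosure F)) (hc : c ∈ SBSD.cocycles V)
    (hloc : ∀ v : HeightOneSpectrum (𝓞 F), SBSD.TrivialOver V (v.adicCompletion F) c)
    (h3 : ∃ P : SBSD.Pts V (AlgebraicClosure F), ∀ σ : SBSD.AbsGal F,
      3 • c σ = WeierstrassCurve.Affine.Point.map (W' := V) σ.toAlgHom P - P) :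
    c ∈ SBSD.coboundaries V := by
  obtain ⟨hc1, hc2⟩ := hc
  let L := AlgebraicClosure F
  let ee := I.eqv L
  have hgact : ∀ (σ : L ≃ₐ[F] L) (P : SBSD.Pts V (AlgebraicClosure F)),
      ee (WeierstrassCurve.Affine.Point.map (W' := V) σ.toAlgHom P) =
        ptW (σ : L →+* L) (gal_comm σ k) (ee P) := fun σ P => I.nat L L σ.toAlgHom P
  obtain ⟨Q, hQ⟩ := h3
  obtain ⟨P, hP⟩ := sha_core ho hd hsel (fun σ => ee (c σ))
    ⟨hc1.comp ee, fun σ τ => by
      rw [hc2 σ τ, map_add, hgact]⟩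
    (fun v ι => by
      obtain ⟨Q', hQ'⟩ := hloc v ι
      refine ⟨I.eqv (AlgebraicClosure (v.adicCompletion F)) Q', fun τ σ hστ => ?_⟩
      have h6 := congrArg (I.eqv (AlgebraicClosure (v.adicCompletion F))) (hQ' τ σ hστ)
      rw [I.nat, map_sub, I.nat] at h6
      exact h6)
    ⟨ee Q, fun σ => by
      change 3 • ee (c σ) = ptW (σ : L →+* L) (gal_comm σ k) (ee Q) - ee Q
      rw [← map_nsmul, hQ σ, map_sub, hgact]⟩
  refine ⟨ee.symm P, fun σ => ee.injective ?_⟩
  rw [map_sub, hgact, ee.apply_symm_apply]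
  exact hP σ

theorem fh_three_pow {A : Type} [AddCommGroup A] (h : ∀ x : A, 3 • x = 0 → x = 0) (k : ℕ) :
    ∀ x : A, 3 ^ k • x = 0 → x = 0 := by
  induction k with
  | zero =>
    intro x h2
    simpa using h2
  | succ k ih =>
    intro x h2
    refine ih x (h _ ?_)
    rw [smul_smul, ← pow_succ', h2]

/-- [FHg] PROOF. As `SB3.sha_three_gen` and `SB3.sha_three_pow` (`S3/FIN.lean`), with `I.eqv`, `I.nat` in
place of `trW`, `trW_map`. (The third argument of `TrivialOver` uses `σ.toAlgHom.restrictScalars F`.) -/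
theorem sha_pow {F : Type} [Field F] [NumberField F] {o : F} (ho : o ^ 2 + o + 1 = 0)
    {k δ e : F} (hd : Dat k δ e) (hsel : SelTriv F k δ e) (V : WeierstrassCurve F)
    (I : NatIso V k) (j : ℕ) (x : SBSD.Sha V) (h : 3 ^ j • x = 0) : x = 0 := by
  refine fh_three_pow (A := SBSD.Sha V) (fun x hx => ?_) j x h
  obtain ⟨c, rfl⟩ := QuotientAddGroup.mk_surjective x
  obtain ⟨hc1, hc2, -⟩ := c.2
  have h3 : 3 • c ∈ (SBSD.coboundaries V).addSubgroupOf (SBSD.locTrivial V) := by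
    rw [← QuotientAddGroup.eq_zero_iff]
    exact hx
  obtain ⟨P, hP⟩ := AddSubgroup.mem_addSubgroupOf.1 h3
  exact (QuotientAddGroup.eq_zero_iff _).2 (AddSubgroup.mem_addSubgroupOf.2
    (fh_gen ho hd hsel V I c.1 hc1 hc2 ⟨P, fun σ => hP σ⟩))

end THF
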