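import Pool.Agent.MP_9ab903_nt.TH.F0
import Pool.Agent.MP_ae0bd0_nt.B3.Q10

/-!
# [NG3-FL1] The local condition at the prime `λ` (above `3`)

`δ = o - 4`, `k = 48 (4 - o)`, `e = 12`, `-3 k = δ e²`; `-27 k = 36² δ`.
-/

set_option autoImplicit false

open NumberField IsDedekindDomain
open scoped Classical

namespace THF

section
open BS3

variable {C : Type} [Field C] {w : Valuation C (WithZero (Multiplicative ℤ))}

theorem fl1_pow {x : C} {n : ℤ} (h : q10_eq w x n) (k : ℕ) : q10_eq w (x ^ k) (k * n) := by
  induction k with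
  | zero => simpa using q10_one
  | succ k ih =>
    rw [pow_succ]
    have := ih.mul h
    have e : (k : ℤ) * n + n = ((k + 1 : ℕ) : ℤ) * n := by
      push_cast
      ring
    rwa [e] at this

/-- order at least `k` for all nonzero elements -/
theorem fl1_ge_of {x : C} {k : ℤ} (h : ∀ n, q10_eq w x n → k ≤ n) : q10_ge w x k := by
  by_cases h0 : x = 0
  · rw [h0]
    exact q10_ge_zero
  · obtain ⟨n, hn⟩ := q10_exists (w := w) h0
    exact hn.ge.mono (h n hn)

theorem fl1_div {x y : C} {n m : ℤ} (hx : q10_eq w x n) (hy : q10_eq w y m) :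
    q10_eq w (x / y) (n - m) := by
  unfold q10_eq at *
  rw [map_div₀, hx, hy, ← WithZero.exp_sub]
  congr 1
  ring

theorem fl1_div_ge {x y : C} {n m : ℤ} (hx : q10_ge w x n) (hy : q10_eq w y m) :
    q10_ge w (x / y) (n - m) := by
  by_cases h0 : x = 0
  · rw [h0, zero_div]
    exact q10_ge_zero
  · obtain ⟨j, hj⟩ := q10_exists (w := w) h0
    have h1 := hj.le hx
    exact (fl1_div hj hy).ge.mono (by omega)

theorem fl1_eq_one {x : C} (h : q10_eq w x 0) : w x = 1 := by
  have h1 : w x = WithZero.exp (-0) := h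
  rw [h1, neg_zero, WithZero.exp_zero]

theorem fl1_lt_one {x : C} (h : q10_ge w x 1) : w x < 1 := by
  have h1 : w x ≤ WithZero.exp (-1) := h
  refine lt_of_le_of_lt h1 ?_
  rw [← WithZero.exp_zero, WithZero.exp_lt_exp]
  omega

end

/-- [FLa] the points of `y² = x³ + 1296 δ`, `δ = o - 4`, over a field with a discrete valuation `w` such
that `δ` is a uniformizer and `w 3 = w (δ²)`. -/
theorem inU_zq {C : Type} [Field C] [CharZero C] (o : C) (ho : o ^ 2 + o + 1 = 0)
    (w : Valuation C (WithZero (Multiplicative ℤ))) (hδ : w (o - 4) = WithZero.exp (-1))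
    (h3 : w 3 = WithZero.exp (-2)) (k : C) (hk : k = 48 * (4 - o))
    (P : (W (-27 * k)).toAffine.Point) :
    ∃ (u : Q2 (o - 4)) (a b : C), IsUnit u ∧ zq (o - 4) (3 * 12) P * u ^ 3 = ⟨a, b⟩ ∧
      w a = 1 ∧ w b < 1 := by
  -- orders of the constants
  have e3 : BS3.q10_eq w 3 2 := h3
  have ed : BS3.q10_eq w (o - 4) 1 := hδ
  have e2 : BS3.q10_eq w 2 0 := by
    have h1 := BS3.q10_eq.add (w := w) BS3.q10_one.neg (e3.ge.mono (by norm_num : (0 : ℤ) + 1 ≤ 2))
    have e : (-1 : C) + 3 = 2 := by norm_num
    rwa [e] at h1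
  have ho0 : o ≠ 0 := by
    rintro rfl
    norm_num at ho
  have ho3 : o ^ 3 = 1 := by linear_combination (o - 1) * ho
  have eo : BS3.q10_eq w o 0 := by
    obtain ⟨n, hn⟩ := BS3.q10_exists (w := w) ho0
    have h1 := fl1_pow hn 3
    rw [ho3] at h1
    have h2 := h1.unique BS3.q10_one
    have h4 : n = 0 := by
      push_cast at h2
      omega
    rwa [h4] at hn
  obtain ⟨L, hL⟩ : ∃ L : C, L = 1 - o := ⟨_, rfl⟩
  have hL2 : L ^ 2 = -(3 * o) := by
    rw [hL]
    linear_combination ho
  have hL0 : L ≠ 0 := by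
    intro h
    rw [h] at hL2
    have : (3 : C) * o = 0 := by linear_combination hL2
    rcases mul_eq_zero.1 this with h | h
    · norm_num at h
    · exact ho0 h
  have eL : BS3.q10_eq w L 1 := by
    obtain ⟨n, hn⟩ := BS3.q10_exists (w := w) hL0
    have h1 := fl1_pow hn 2
    rw [hL2] at h1
    have h2 := h1.unique (e3.mul eo).neg
    have h4 : n = 1 := by
      push_cast at h2
      omega
    rwa [h4] at hn
  have hd0 : o - 4 ≠ 0 := by
    intro h
    rw [h] at hδ
    rw [map_zero] at hδ
    exact WithZero.exp_ne_zero hδ.symm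
  have e36 : BS3.q10_eq w 36 4 := by
    have h1 := (e2.mul e2).mul (e3.mul e3)
    have e : (2 : C) * 2 * (3 * 3) = 36 := by norm_num
    rw [e] at h1
    simpa using h1
  have eD : BS3.q10_eq w (1296 * (o - 4)) 9 := by
    have h1 := (e36.mul e36).mul ed
    have e : (36 : C) * 36 * (o - 4) = 1296 * (o - 4) := by norm_num
    rw [e] at h1
    simpa using h1
  rcases P with _ | ⟨x, y, hxy⟩
  · refine ⟨1, 1, 0, isUnit_one, ?_, map_one w, ?_⟩
    · rw [one_pow, mul_one]
      rfl
    · rw [map_zero]
      exact zero_lt_one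
  · have hk0 : -27 * k ≠ 0 := by
      rw [hk]
      intro h
      apply hd0
      linear_combination h / 1296
    have hE : y ^ 2 = x ^ 3 + 1296 * (o - 4) := by
      have h1 := (W_nonsingular hk0 x y).1 hxy
      rw [h1, hk]
      ring
    change ∃ (u : Q2 (o - 4)) (a b : C), IsUnit u ∧ (⟨y, -(3 * 12)⟩ : Q2 (o - 4)) * u ^ 3 = ⟨a, b⟩ ∧
      w a = 1 ∧ w b < 1
    -- no solution if `x³` has order at least `10`
    have hbig : BS3.q10_ge w (x ^ 3) 10 → False := by
      intro h
      have h1 : BS3.q10_eq w (y ^ 2) 9 := by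
        rw [hE, add_comm]
        exact eD.add (h.mono (by norm_num))
      have hy0 : y ≠ 0 := by
        rintro rfl
        have h2 : w ((0 : C) ^ 2) = WithZero.exp (-9) := h1
        rw [zero_pow two_ne_zero, map_zero] at h2
        exact WithZero.exp_ne_zero h2.symm
      obtain ⟨m, hm⟩ := BS3.q10_exists (w := w) hy0
      have h2 := (fl1_pow hm 2).unique h1
      push_cast at h2
      omega
    have hx0 : x ≠ 0 := by
      rintro rfl
      apply hbig
      rw [zero_pow (by norm_num)]
      exact BS3.q10_ge_zero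
    obtain ⟨n, hn⟩ := BS3.q10_exists (w := w) hx0
    have hn3 : BS3.q10_eq w (x ^ 3) (3 * n) := by
      have := fl1_pow hn 3
      exact_mod_cast this
    rcases lt_trichotomy n 3 with hlt | heq | hgt
    · -- `n ≤ 2`
      have h1 : BS3.q10_eq w (y ^ 2) (3 * n) := by
        rw [hE]
        exact hn3.add (eD.ge.mono (by omega))
      have hy0 : y ≠ 0 := by
        rintro rfl
        have h2 : w ((0 : C) ^ 2) = WithZero.exp (-(3 * n)) := h1
        rw [zero_pow two_ne_zero, map_zero] at h2
        exact WithZero.exp_ne_zero h2.symm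
      obtain ⟨m, hm⟩ := BS3.q10_exists (w := w) hy0
      have h2 := (fl1_pow hm 2).unique h1
      push_cast at h2
      obtain ⟨j, hj⟩ : ∃ j, n = 2 * j := ⟨n / 2, by omega⟩
      have hmj : m = 3 * j := by omega
      have hj1 : j ≤ 1 := by omega
      -- `δ ^ j`
      have edj : BS3.q10_eq w ((o - 4) ^ j) j := by
        change w ((o - 4) ^ j) = WithZero.exp (-j)
        rw [map_zpow₀, hδ, ← WithZero.exp_zsmul]
        congr 1
        simp
      have edj3 : BS3.q10_eq w (((o - 4) ^ j) ^ 3) (3 * j) := by
        have := fl1_pow edj 3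
        exact_mod_cast this
      have hdj : (o - 4) ^ j ≠ 0 := zpow_ne_zero _ hd0
      refine ⟨algebraMap C (Q2 (o - 4)) ((o - 4) ^ j)⁻¹, y / ((o - 4) ^ j) ^ 3,
        -36 / ((o - 4) ^ j) ^ 3, ?_, ?_, ?_, ?_⟩
      · exact (IsUnit.mk0 _ (inv_ne_zero hdj)).map _
      · rw [← map_pow, inv_pow, algebraMap_Q2]
        ext
        · simp [div_eq_mul_inv]
        · simp [div_eq_mul_inv]
          norm_num
      · have h5 := fl1_div hm edj3
        rw [hmj, sub_self] at h5
        exact fl1_eq_one h5
      · have h5 := fl1_div e36.neg edj3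
        exact fl1_lt_one (h5.ge.mono (by omega))
    · -- `n = 3`
      subst heq
      have hyge : BS3.q10_ge w (y ^ 2) 9 := by
        rw [hE]
        exact (hn3.ge.mono (by norm_num)).add eD.ge
      have hy5 : BS3.q10_ge w y 5 := by
        apply fl1_ge_of
        intro m hm
        have h2 := (fl1_pow hm 2).le hyge
        push_cast at h2
        omega
      obtain ⟨x₁, hx₁⟩ : ∃ x₁ : C, x₁ = x / L ^ 3 := ⟨_, rfl⟩
      obtain ⟨y₁, hy₁⟩ : ∃ y₁ : C, y₁ = y / L ^ 5 := ⟨_, rfl⟩
      have hx₁' : x = L ^ 3 * x₁ := by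
        rw [hx₁]
        field_simp
      have hy₁' : y = L ^ 5 * y₁ := by
        rw [hy₁]
        field_simp
      have ex₁ : BS3.q10_eq w x₁ 0 := by
        rw [hx₁]
        have := fl1_div hn (fl1_pow eL 3)
        simpa using this
      have ey₁ : BS3.q10_ge w y₁ 0 := by
        rw [hy₁]
        have := fl1_div_ge hy5 (fl1_pow eL 5)
        simpa using this
      have hkey : L * y₁ ^ 2 = x₁ ^ 3 - 64 + 48 * (2 + o) := by
        have h1 : L ^ 9 * (L * y₁ ^ 2) = L ^ 9 * (x₁ ^ 3 - 64 + 48 * (2 + o)) := by
          have h2 : L ^ 9 * (48 * (2 + o) - 64) = 1296 * (o - 4) := by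
            have h6 : L ^ 9 = 81 * o * (1 - o) := by
              have h7 : L ^ 9 = (L ^ 2) ^ 4 * L := by ring
              rw [h7, hL2, hL]
              linear_combination 81 * o * (1 - o) * ho3
            rw [h6]
            linear_combination -3888 * ho3 + 1296 * ho
          have h4 : L ^ 9 * (L * y₁ ^ 2) = y ^ 2 := by
            rw [hy₁']
            ring
          have h5 : L ^ 9 * x₁ ^ 3 = x ^ 3 := by
            rw [hx₁']
            ring
          rw [h4, hE, ← h5, ← h2]
          ring
        exact mul_left_cancel₀ (pow_ne_zero 9 hL0) h1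
      -- `48 (2 + o)` has order at least `3`
      have e48 : BS3.q10_ge w (48 * (2 + o)) 3 := by
        have h1 : (2 : C) + o = 3 - L := by
          rw [hL]
          ring
        have h2 : BS3.q10_ge w (2 + o) 1 := by
          rw [h1]
          exact (e3.ge.mono (by norm_num)).sub eL.ge
        have h4 : BS3.q10_eq w 48 2 := by
          have h5 := ((e2.mul e2).mul (e2.mul e2)).mul e3
          have e : (2 : C) * 2 * (2 * 2) * 3 = 48 := by norm_num
          rw [e] at h5
          simpa using h5
        have := h4.ge.mul h2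
        simpa using this
      have e12 : BS3.q10_eq w 12 2 := by
        have h5 := (e2.mul e2).mul e3
        have e : (2 : C) * 2 * 3 = 12 := by norm_num
        rw [e] at h5
        simpa using h5
      have e48' : BS3.q10_eq w 48 2 := by
        have h5 := ((e2.mul e2).mul (e2.mul e2)).mul e3
        have e : (2 : C) * 2 * (2 * 2) * 3 = 48 := by norm_num
        rw [e] at h5
        simpa using h5
      have hLy : BS3.q10_ge w (L * y₁ ^ 2) 1 := by
        have := eL.ge.mul (ey₁.mul ey₁)
        rw [← sq] at this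
        simpa using this
      have h64 : BS3.q10_ge w (x₁ ^ 3 - 64) 1 := by
        have h1 : x₁ ^ 3 - 64 = L * y₁ ^ 2 - 48 * (2 + o) := by
          rw [hkey]
          ring
        rw [h1]
        exact hLy.sub (e48.mono (by norm_num))
      have ht : BS3.q10_ge w (x₁ - 4) 1 := by
        apply fl1_ge_of
        intro m hm
        have h1 : BS3.q10_ge w ((x₁ - 4) ^ 3) 1 := by
          have h2 : (x₁ - 4) ^ 3 = (x₁ ^ 3 - 64) + (12 * x₁ * (4 - x₁)) := by ring
          rw [h2]
          refine h64.add ?_
          have e4 : BS3.q10_ge w (4 - x₁) 0 := by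
            have h4 : BS3.q10_eq w 4 0 := by
              have h5 := e2.mul e2
              have e : (2 : C) * 2 = 4 := by norm_num
              rw [e] at h5
              simpa using h5
            exact h4.ge.sub ex₁.ge
          have := (e12.ge.mul ex₁.ge).mul e4
          exact this.mono (by norm_num)
        have h2 := (fl1_pow hm 3).le h1
        push_cast at h2
        omega
      have h643 : BS3.q10_ge w (x₁ ^ 3 - 64) 3 := by
        have h2 : x₁ ^ 3 - 64 = (x₁ - 4) * (x₁ - 4) * (x₁ - 4) + (12 * (x₁ - 4) * (x₁ - 4) +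
            48 * (x₁ - 4)) := by ring
        rw [h2]
        have a1 := (ht.mul ht).mul ht
        have a2 := (e12.ge.mul ht).mul ht
        have a3 := e48'.ge.mul ht
        exact (a1.mono (by norm_num)).add ((a2.mono (by norm_num)).add (a3.mono (by norm_num)))
      have hy₁1 : BS3.q10_ge w y₁ 1 := by
        apply fl1_ge_of
        intro m hm
        have h1 := eL.mul (fl1_pow hm 2)
        rw [hkey] at h1
        have h2 := h1.le (h643.add e48)
        push_cast at h2
        omega
      have hy6 : BS3.q10_ge w y 6 := by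
        rw [hy₁']
        have := (fl1_pow eL 5).ge.mul hy₁1
        exact this.mono (by norm_num)
      have ed4 := fl1_pow ed 4
      have ed5 := fl1_pow ed 5
      refine ⟨⟨0, ((o - 4) ^ 2)⁻¹⟩, -36 / (o - 4) ^ 4, y / (o - 4) ^ 5, ?_, ?_, ?_, ?_⟩
      · rw [isUnit_iff_norm, QuadraticAlgebra.norm_def]
        simp only [mul_zero, zero_mul, add_zero, zero_sub, neg_ne_zero]
        exact mul_ne_zero (mul_ne_zero hd0 (inv_ne_zero (pow_ne_zero 2 hd0)))
          (inv_ne_zero (pow_ne_zero 2 hd0))
      · have hc3 : (⟨0, ((o - 4) ^ 2)⁻¹⟩ : Q2 (o - 4)) ^ 3 = ⟨0, ((o - 4) ^ 5)⁻¹⟩ := by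
          ext
          · simp [pow_succ]
          · simp only [pow_succ, pow_zero, one_mul, QuadraticAlgebra.im_mul,
              QuadraticAlgebra.re_mul, zero_mul, mul_zero, add_zero, zero_add]
            field_simp
        rw [hc3]
        ext
        · simp only [QuadraticAlgebra.re_mul, mul_zero, zero_add]
          field_simp
          ring
        · simp only [QuadraticAlgebra.im_mul, mul_zero, zero_mul, add_zero]
          field_simp
      · have h5 := fl1_div e36.neg ed4
        have e : (4 : ℤ) - ((4 : ℕ) : ℤ) * 1 = 0 := by norm_num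
        rw [e] at h5
        exact fl1_eq_one h5
      · have h5 := fl1_div_ge hy6 ed5
        exact fl1_lt_one (h5.mono (by norm_num))
    · exact (hbig (hn3.ge.mono (by omega))).elim

end THF
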