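import Pool.Agent.MP_9ab903_nt.TH.FL1
import Pool.Agent.MP_ae0bd0_nt.B3.Q10

/-!
# [NG3-FL2] Approximation: the local condition at the prime `λ` (above `3`)

`δ = o - 4`, `k = 48 (4 - o)`, `e = 12`, `-3 k = δ e²`; `-27 k = 36² δ`.
-/

set_option autoImplicit false

open NumberField IsDedekindDomain
open scoped Classical

namespace THF

theorem fl2_mul_cube {K : Type} [Field K] {D : K} (z1 z2 x1 x2 : K) :
    (⟨z1, z2⟩ : Q2 D) * (⟨x1, x2⟩ : Q2 D) ^ 3 =
      ⟨z1 * (x1 ^ 3 + 3 * D * x1 * x2 ^ 2) + D * z2 * (3 * x1 ^ 2 * x2 + D * x2 ^ 3),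
        z1 * (3 * x1 ^ 2 * x2 + D * x2 ^ 3) + z2 * (x1 ^ 3 + 3 * D * x1 * x2 ^ 2)⟩ := by
  ext
  · simp only [pow_succ, pow_zero, one_mul, QuadraticAlgebra.re_mul, QuadraticAlgebra.im_mul]
    ring
  · simp only [pow_succ, pow_zero, one_mul, QuadraticAlgebra.re_mul, QuadraticAlgebra.im_mul]
    ring

theorem fl2_sq {F : Type} [Field F] {w : Valuation F (WithZero (Multiplicative ℤ))} {y : F} {n : ℤ}
    (h : w (y * y) = WithZero.exp (-n)) : ∃ m, n = 2 * m := by
  have hy : w y ≠ 0 := by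
    intro h0
    rw [map_mul, h0, zero_mul] at h
    exact WithZero.exp_ne_zero h.symm
  have h1 : w y = WithZero.exp (WithZero.log (w y)) := (WithZero.exp_log hy).symm
  rw [map_mul, h1, ← WithZero.exp_add, WithZero.exp_inj] at h
  exact ⟨-WithZero.log (w y), by omega⟩

/-- FLa with free names -/
theorem fl2_zq {C : Type} [Field C] [CharZero C] (o : C) (ho : o ^ 2 + o + 1 = 0)
    (w : Valuation C (WithZero (Multiplicative ℤ))) (D k e : C) (hD : D = o - 4)
    (hk : k = 48 * (4 - o)) (he : e = 12) (hδ : w D = WithZero.exp (-1))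
    (h3 : w 3 = WithZero.exp (-2)) (P : (W (-27 * k)).toAffine.Point) :
    ∃ (u : Q2 D) (a b : C), IsUnit u ∧ zq D (3 * e) P * u ^ 3 = ⟨a, b⟩ ∧
      w a = 1 ∧ w b < 1 := by
  subst hD
  subst he
  exact inU_zq o ho w hδ h3 k hk P

/-- [FLb] PROOF. As `SB3.inU3_of_locCond3` (`S3/S13.lean`): by the first alternative of `LocCond` and
FLa (for `C = v.adicCompletion F`, `w = Valued.v`), `z_v * t³ = a + b √δ` for some `t` over the completion;
approximate `t` by an element of `Q2 (o - 4)` over `F`. The second alternative is impossible as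
`δ` has odd valuation. -/
theorem inU_of_locCond {F : Type} [Field F] [NumberField F] (o : F) (ho : o ^ 2 + o + 1 = 0)
    (z : Q2 (o - 4)) (v : HeightOneSpectrum (𝓞 F)) (hδ : v.valuation F (o - 4) = WithZero.exp (-1))
    (h3 : v.valuation F 3 = WithZero.exp (-2))
    (h : LocCond (48 * (4 - o)) (o - 4) 12 z (v.adicCompletion F)) : InU (v.valuation F) z := by
  have hval : ∀ k : F, Valued.v (algebraMap F (v.adicCompletion F) k) = v.valuation F k :=
    fun k => HeightOneSpectrum.valuedAdicCompletion_eq_valuation' v k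
  set i := algebraMap F (v.adicCompletion F) with hi
  have hw3 : Valued.v (3 : v.adicCompletion F) = WithZero.exp (-2) := by
    rw [← h3, ← hval, map_ofNat i 3]
  have hwδ : Valued.v (i (o - 4)) = WithZero.exp (-1) := by
    rw [hval, hδ]
  have hch : CharZero (v.adicCompletion F) :=
    charZero_of_injective_algebraMap (algebraMap F (v.adicCompletion F)).injective
  have ho' : i o ^ 2 + i o + 1 = 0 := by
    rw [← map_pow, ← map_add, ← map_one i, ← map_add, ho, map_zero]
  rcases h with ⟨P, u, ⟨u, rfl⟩, hz⟩ | ⟨s, g, hs, -, -⟩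
  · obtain ⟨u', a, b, hu', h1, ha, hb⟩ := fl2_zq (i o) ho'
      (Valued.v : Valuation (v.adicCompletion F) (WithZero (Multiplicative ℤ)))
      (i (o - 4)) (i (48 * (4 - o))) (i 12) (by rw [map_sub, map_ofNat])
      (by rw [map_mul, map_sub, map_ofNat, map_ofNat]) (by rw [map_ofNat]) hwδ hw3 P
    obtain ⟨⟨t1, t2⟩, ht⟩ : ∃ t : Q2 (i (o - 4)),
      (↑u⁻¹ : Q2 (i (o - 4))) * u' = t := ⟨_, rfl⟩
    obtain ⟨z1, z2⟩ := z
    have h4 : mapQ i rfl (⟨z1, z2⟩ : Q2 (o - 4)) *
        (⟨t1, t2⟩ : Q2 (i (o - 4))) ^ 3 = ⟨a, b⟩ := by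
      rw [← h1, hz, ← ht, mul_pow]
      have h5 : (↑u : Q2 (i (o - 4))) * ↑u⁻¹ = 1 := u.mul_inv
      linear_combination (zq (i (o - 4)) (3 * i 12) P * u' ^ 3 *
        ((↑u * ↑u⁻¹) ^ 2 + ↑u * ↑u⁻¹ + 1)) * h5
    rw [mapQ_apply, fl2_mul_cube] at h4
    have e1 := congrArg QuadraticAlgebra.re h4
    have e2 := congrArg QuadraticAlgebra.im h4
    simp only at e1 e2
    have hlt : IsOpen {x : v.adicCompletion F | Valued.v x < 1} := by
      have := Valued.isOpen_ball (v.adicCompletion F) 1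
      simpa only [Valuation.restrict_lt_one_iff] using this
    set D := o - 4 with hD
    have hopen : IsOpen {x : v.adicCompletion F × v.adicCompletion F |
        Valued.v (i z1 * (x.1 ^ 3 + 3 * i D * x.1 * x.2 ^ 2) +
          i D * i z2 * (3 * x.1 ^ 2 * x.2 + i D * x.2 ^ 3) - a) < 1 ∧
        Valued.v (i z1 * (3 * x.1 ^ 2 * x.2 + i D * x.2 ^ 3) +
          i z2 * (x.1 ^ 3 + 3 * i D * x.1 * x.2 ^ 2)) < 1} := by
      refine IsOpen.inter ?_ ?_
      · exact hlt.preimage (f := fun x : v.adicCompletion F × v.adicCompletion F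
          => i z1 * (x.1 ^ 3 + 3 * i D * x.1 * x.2 ^ 2) +
          i D * i z2 * (3 * x.1 ^ 2 * x.2 + i D * x.2 ^ 3) - a) (by fun_prop)
      · exact hlt.preimage (f := fun x : v.adicCompletion F × v.adicCompletion F
          => i z1 * (3 * x.1 ^ 2 * x.2 + i D * x.2 ^ 3) +
          i z2 * (x.1 ^ 3 + 3 * i D * x.1 * x.2 ^ 2)) (by fun_prop)
    have hd : DenseRange (i : F → v.adicCompletion F) :=
      HeightOneSpectrum.denseRange_algebraMap F v
    have hd2 := hd.prodMap hd
    obtain ⟨⟨x1, x2⟩, hx1, hx2⟩ := hd2.exists_mem_open hopen ⟨(t1, t2), by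
      constructor
      · rw [e1, sub_self, map_zero]
        exact zero_lt_one
      · rw [e2]
        exact hb⟩
    have hA : v.valuation F (z1 * (x1 ^ 3 + 3 * D * x1 * x2 ^ 2) +
        D * z2 * (3 * x1 ^ 2 * x2 + D * x2 ^ 3)) = 1 := by
      rw [← hval]
      have h6 : Valued.v (i (z1 * (x1 ^ 3 + 3 * D * x1 * x2 ^ 2) +
          D * z2 * (3 * x1 ^ 2 * x2 + D * x2 ^ 3)) - a) < 1 := by
        simpa only [map_add, map_mul, map_pow, map_ofNat, Prod.map_apply] using hx1
      have h7 : i (z1 * (x1 ^ 3 + 3 * D * x1 * x2 ^ 2) +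
          D * z2 * (3 * x1 ^ 2 * x2 + D * x2 ^ 3)) =
          a + (i (z1 * (x1 ^ 3 + 3 * D * x1 * x2 ^ 2) +
          D * z2 * (3 * x1 ^ 2 * x2 + D * x2 ^ 3)) - a) := by ring
      rw [h7, Valuation.map_add_eq_of_lt_left _ (by rw [ha]; exact h6)]
      exact ha
    have hB : v.valuation F (z1 * (3 * x1 ^ 2 * x2 + D * x2 ^ 3) +
        z2 * (x1 ^ 3 + 3 * D * x1 * x2 ^ 2)) < 1 := by
      rw [← hval]
      simpa only [map_add, map_mul, map_pow, map_ofNat, Prod.map_apply] using hx2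
    refine ⟨⟨x1, x2⟩, _, _, ?_, fl2_mul_cube z1 z2 x1 x2, hA, hB⟩
    have hu : IsUnit ((⟨z1, z2⟩ : Q2 D) * (⟨x1, x2⟩ : Q2 D) ^ 3) := by
      rw [isUnit_iff_norm, fl2_mul_cube, QuadraticAlgebra.norm_def]
      simp only [zero_mul, add_zero]
      set A := z1 * (x1 ^ 3 + 3 * D * x1 * x2 ^ 2) +
        D * z2 * (3 * x1 ^ 2 * x2 + D * x2 ^ 3) with hAd
      set B := z1 * (3 * x1 ^ 2 * x2 + D * x2 ^ 3) +
        z2 * (x1 ^ 3 + 3 * D * x1 * x2 ^ 2) with hBd
      intro h0
      have h8 : A * A = D * B * B := by linear_combination h0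
      have h9 := congrArg (v.valuation F) h8
      rw [map_mul, map_mul, map_mul, hA, one_mul, hδ] at h9
      have h10 : WithZero.exp (-1 : ℤ) * v.valuation F B * v.valuation F B < 1 := by
        have a1 : WithZero.exp (-1 : ℤ) ≤ 1 := by
          rw [← WithZero.exp_zero, WithZero.exp_le_exp]; omega
        calc WithZero.exp (-1 : ℤ) * v.valuation F B * v.valuation F B
            ≤ 1 * v.valuation F B * v.valuation F B := by gcongr
          _ = v.valuation F B * v.valuation F B := by rw [one_mul]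
          _ < 1 := mul_lt_one_of_nonneg_of_lt_one_left zero_le hB hB.le
      rw [← h9] at h10
      exact lt_irrefl _ h10
    exact isUnit_of_mul_isUnit_right hu |> fun h => (isUnit_pow_iff (by norm_num)).1 h
  · exfalso
    obtain ⟨m, hm⟩ := fl2_sq (w := (Valued.v :
      Valuation (v.adicCompletion F) (WithZero (Multiplicative ℤ)))) (y := s) (n := 1) (by
        rw [hs]
        exact hwδ)
    omega

end THF
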