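import Pool.Agent.MP_9ab903_nt.TH.FB4b
import Pool.Agent.MP_9ab903_nt.TH.TD
import Pool.Agent.MP_ae0bd0_nt.B3.Q10

/-!
# [NG3-FS0] Valuations of `ω - 4` and `3` in the class of fields
-/

set_option autoImplicit false

open NumberField IsDedekindDomain
open scoped Classical

namespace THF

/-! ### helper lemmas -/

theorem fs0_sq {x : WithZero (Multiplicative ℤ)} (h : x < 1) :
    x * x < WithZero.exp (-1 : ℤ) := by
  by_cases h0 : x = 0
  · rw [h0, zero_mul]
    exact zero_lt_iff.2 WithZero.exp_ne_zero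
  · rw [← WithZero.exp_log h0] at h ⊢
    rw [← WithZero.exp_zero, WithZero.exp_lt_exp] at h
    rw [← WithZero.exp_add, WithZero.exp_lt_exp]
    omega

section
variable {F : Type} [Field F] (w : Valuation F (WithZero (Multiplicative ℤ)))

theorem fs0_nat (n : ℕ) : w (n : F) ≤ 1 := by
  induction n with
  | zero => rw [Nat.cast_zero, map_zero]; exact zero_le_one
  | succ k ih => 
    rw [Nat.cast_succ]
    exact (w.map_add _ _).trans (max_le ih (map_one w).le)

/-- `w (1 + 3 n) = 1` if `w 3 < 1` -/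
theorem fs0_unit (h3 : w 3 < 1) (n : ℕ) : w (1 + 3 * (n : F)) = 1 := by
  rw [Valuation.map_add_eq_of_lt_left, map_one]
  rw [map_one, map_mul]
  calc w 3 * w (n : F) ≤ w 3 * 1 := by gcongr; exact fs0_nat w n
    _ < 1 := by rw [mul_one]; exact h3

theorem fs0_o {o : F} (ho : o ^ 2 + o + 1 = 0) : w o = 1 := by
  have h1 : o ^ 3 = 1 := by linear_combination (o - 1) * ho
  have h2 := congrArg w h1
  rw [map_pow, map_one] at h2
  exact (pow_eq_one_iff.1 h2).resolve_right (by norm_num)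

end

/-- [FS0a] PROOF. `(o - 4) (o² - 4) = 21` (`o³ = 1`, `o + o² = -1`), `o² - 4 = -(o - 4) - 9`. As
`w 3 < 1`, `w 7 = w (1 + 2 * 3) = 1`. Let `w 3 = exp (-t)`, `t ≥ 1` (`3 ≠ 0` because
`o - 4 ≠ 0`... : if `w 3 = 0` then `w 21 = 0`, but `w (o² - 4) = w (-(o - 4) - 9) = exp (-1)` as
`w 9 = w 3 ^ 2 < exp (-1)`); `w 9 = exp (-2 t) < exp (-1)`, so `w (o² - 4) = exp (-1)` and
`w 3 = w 21 = exp (-2)`. (`BS3.q10_eq` and its lemmas are useful.) -/
theorem val_three {F : Type} [Field F] (o : F) (ho : o ^ 2 + o + 1 = 0)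
    (w : Valuation F (WithZero (Multiplicative ℤ))) (hδ : w (o - 4) = WithZero.exp (-1))
    (h3 : w 3 < 1) : w 3 = WithZero.exp (-2) := by
  have h7 : w 7 = 1 := by
    have h := fs0_unit w h3 2
    have e : (1 : F) + 3 * ((2 : ℕ) : F) = 7 := by norm_num
    rwa [e] at h
  have e1 : (o - 4) * (o ^ 2 - 4) = 3 * 7 := by
    linear_combination (o - 5) * ho
  have e2 : o ^ 2 - 4 = -(o - 4) - 3 * 3 := by linear_combination ho
  have h4 : w (o ^ 2 - 4) = WithZero.exp (-1) := by
    rw [e2, sub_eq_add_neg, Valuation.map_add_eq_of_lt_left, Valuation.map_neg, hδ]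
    rw [Valuation.map_neg, Valuation.map_neg, hδ, map_mul]
    exact fs0_sq h3
  have h5 := congrArg w e1
  rw [map_mul, map_mul, hδ, h4, h7, mul_one, ← WithZero.exp_add] at h5
  rw [← h5]
  norm_num

section
variable (K M : Type) [Field K] [NumberField K] [IsCyclotomicExtension {3} ℚ K]
  [Field M] [NumberField M] [Algebra K M] (o : K) (ho : o ^ 2 + o + 1 = 0) (d : 𝓞 K)
  (hd : (d : K) = o - 4) (hu : TH.UnrN K M d)

include ho hd hu in
/-- [FS0b] PROOF. Let `v₀` be the place of `K` below `v`. `algebraMap K M (o - 4)` is the image of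
`d`, so `d ∈ v₀` (valuation `< 1`), `v₀ (o - 4) = exp (-1)` (`fb4b_val`, FB4b), and `v` is unramified over
`v₀` by `hu` (`x = 0`): `0 ^ 2 - d ∈ v₀`. Then `HeightOneSpectrum.valuation_liesOver`. -/
theorem val_d (v : HeightOneSpectrum (𝓞 M)) (h : v.valuation M (algebraMap K M (o - 4)) < 1) :
    v.valuation M (algebraMap K M (o - 4)) = WithZero.exp (-1) := by
  have hne : v.asIdeal.under (𝓞 K) ≠ ⊥ := Ideal.IsIntegral.comap_ne_bot (𝓞 K) v.ne_bot
  let v₀ : HeightOneSpectrum (𝓞 K) := ⟨v.asIdeal.under (𝓞 K), inferInstance, hne⟩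
  have hvv : v.asIdeal.LiesOver v₀.asIdeal := ⟨rfl⟩
  have hmap : algebraMap (𝓞 M) M (algebraMap (𝓞 K) (𝓞 M) d) = algebraMap K M (o - 4) := by
    rw [← IsScalarTower.algebraMap_apply (𝓞 K) (𝓞 M) M,
      IsScalarTower.algebraMap_apply (𝓞 K) K M]
    exact congrArg (algebraMap K M) hd
  have hd0 : d ∈ v₀.asIdeal := by
    change algebraMap (𝓞 K) (𝓞 M) d ∈ v.asIdeal
    rw [← v.valuation_lt_one_iff_mem (K := M)]
    change v.valuation M (algebraMap (𝓞 M) M (algebraMap (𝓞 K) (𝓞 M) d)) < 1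
    rw [hmap]
    exact h
  have h1 := fb4b_val ho d hd v₀ hd0
  have h2 : v.asIdeal.ramificationIdx (𝓞 K) = 1 := by
    refine hu v₀ v hvv ⟨0, ?_⟩
    have e : (0 : 𝓞 K) ^ 2 - d = -d := by ring
    rw [e]
    exact neg_mem hd0
  have h3 := HeightOneSpectrum.valuation_liesOver (K := K) M v₀ v (o - 4)
  rw [Ideal.ramificationIdx'_eq_ramificationIdx v₀.asIdeal v.asIdeal v₀.ne_bot, h2, pow_one,
    h1] at h3
  exact h3.symm

include ho hd hu in
/-- [FS0c] PROOF. Take a place `v` of `M` above `3` (`BS3.exists_place` in MP_ae0bd0_nt/B3, or an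
ideal of `𝓞 M` containing `3`), `w = v.valuation M`, `w 3 < 1`. `(1 + 2 o)² = -3` gives
`w (1 + 2 o) < 1`, `2 (o - 4) = (1 + 2 o) - 9`, `w 2 = 1` (`2 = 3 - 1`), so `w (o - 4) < 1`; FS0b and
FS0a. -/
theorem exists_three : ∃ v : HeightOneSpectrum (𝓞 M),
    v.valuation M (algebraMap K M (o - 4)) = WithZero.exp (-1) ∧
      v.valuation M 3 = WithZero.exp (-2) := by
  have hp : Prime (3 : ℤ) := Int.prime_three
  have h30 : Ideal.span {(3 : ℤ)} ≠ ⊥ := by
    rw [Ne, Ideal.span_singleton_eq_bot]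
    norm_num
  have : (Ideal.span {(3 : ℤ)}).IsMaximal :=
    ((Ideal.span_singleton_prime (by norm_num)).2 hp).isMaximal h30
  obtain ⟨Q, hQm, hQ⟩ := Ideal.exists_maximal_ideal_liesOver_of_isIntegral
    (S := 𝓞 M) (Ideal.span {(3 : ℤ)})
  have hQ0 : Q ≠ ⊥ := Ideal.ne_bot_of_liesOver_of_ne_bot h30 Q
  let v : HeightOneSpectrum (𝓞 M) := ⟨Q, hQm.isPrime, hQ0⟩
  have hv3 : (3 : 𝓞 M) ∈ v.asIdeal := by
    have h1 := (Ideal.mem_of_liesOver Q (Ideal.span {(3 : ℤ)}) 3).1
      (Ideal.mem_span_singleton_self 3)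
    have e : algebraMap ℤ (𝓞 M) 3 = 3 := by simp
    rw [e] at h1
    exact h1
  have hw3 : v.valuation M 3 < 1 := by
    have h1 : v.valuation M (algebraMap (𝓞 M) M 3) < 1 :=
      (v.valuation_lt_one_iff_mem (K := M) 3).2 hv3
    have e : algebraMap (𝓞 M) M 3 = 3 := map_ofNat _ 3
    rwa [e] at h1
  have hO : (algebraMap K M o) ^ 2 + algebraMap K M o + 1 = 0 := by
    rw [← map_pow, ← map_add, ← map_one (algebraMap K M), ← map_add, ho, map_zero]
  set O := algebraMap K M o with hOdef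
  have hmap : algebraMap K M (o - 4) = O - 4 := by
    rw [map_sub, map_ofNat]
  have h2 : v.valuation M 2 = 1 := by
    have e : (2 : M) = 3 + -1 := by norm_num
    rw [e, Valuation.map_add_eq_of_lt_right, Valuation.map_neg, map_one]
    rw [Valuation.map_neg, map_one]
    exact hw3
  have h4 : v.valuation M (1 + 2 * O) < 1 := by
    have e : (1 + 2 * O) ^ 2 = -3 := by linear_combination 4 * hO
    have h5 := congrArg (v.valuation M) e
    rw [map_pow, Valuation.map_neg] at h5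
    by_contra hcon
    rw [not_lt] at hcon
    have h6 := one_le_pow₀ hcon (n := 2)
    rw [h5] at h6
    exact absurd hw3 (not_lt.2 h6)
  have h5 : v.valuation M (O - 4) < 1 := by
    have e : 2 * (O - 4) = (1 + 2 * O) - 3 * 3 := by ring
    have h6 := congrArg (v.valuation M) e
    rw [map_mul, h2, one_mul] at h6
    rw [h6]
    refine lt_of_le_of_lt ((v.valuation M).map_sub _ _) (max_lt h4 ?_)
    rw [map_mul]
    calc v.valuation M 3 * v.valuation M 3 ≤ v.valuation M 3 * 1 := by gcongr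
      _ < 1 := by rw [mul_one]; exact hw3
  have h6 := val_d K M o ho d hd hu v (by rw [hmap]; exact h5)
  refine ⟨v, h6, ?_⟩
  rw [hmap] at h6
  exact val_three O hO (v.valuation M) h6 hw3

include ho hd hu in
/-- [FS0d] PROOF. Similar to FS0c: `o + 3` divides `o - 4` in the integers:
`o - 4 = -(1 - o) (o + 3)` (`ho`). If `w (o + 3) = 1` we are done. Otherwise `w (o + 3) < 1`,
`w (o - 4) < 1`, so `w (o - 4) = exp (-1)` (FS0b). `7 = (o + 3) (o² + 3)` so `w 7 < 1`,
`w 3 = 1` (`7 = 2 * 3 + 1`), `w (1 - o) = 1` (`(1 - o) (1 - o²) = 3`, both factors are integral); so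
`w (o + 3) = exp (-1)`. -/
theorem val_pi (v : HeightOneSpectrum (𝓞 M)) :
    v.valuation M (algebraMap K M o + 3) = 1 ∨
      v.valuation M (algebraMap K M o + 3) = WithZero.exp (-1) := by
  have hO : (algebraMap K M o) ^ 2 + algebraMap K M o + 1 = 0 := by
    rw [← map_pow, ← map_add, ← map_one (algebraMap K M), ← map_add, ho, map_zero]
  have hmap : algebraMap K M (o - 4) = algebraMap K M o - 4 := by
    rw [map_sub, map_ofNat]
  have hd' := val_d K M o ho d hd hu v
  rw [hmap] at hd'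
  generalize algebraMap K M o = O at hO hd' ⊢
  generalize v.valuation M = w at hd' ⊢
  have hwO : w O = 1 := fs0_o w hO
  have hw3 : w 3 ≤ 1 := by
    have h := fs0_nat w 3
    exact_mod_cast h
  have hle : w (O + 3) ≤ 1 := (w.map_add _ _).trans (max_le hwO.le hw3)
  rcases hle.lt_or_eq with hlt | heq
  · right
    have e1 : O - 4 = -((1 - O) * (O + 3)) := by linear_combination -hO
    have hw1 : w (1 - O) ≤ 1 := (w.map_sub _ _).trans (max_le (map_one w).le hwO.le)
    have hw2 : w (1 - O ^ 2) ≤ 1 := (w.map_sub _ _).trans (max_le (map_one w).le (by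
      rw [map_pow, hwO, one_pow]))
    have h4 : w (O - 4) < 1 := by
      rw [e1, Valuation.map_neg, map_mul]
      calc w (1 - O) * w (O + 3) ≤ 1 * w (O + 3) := by gcongr
        _ < 1 := by rw [one_mul]; exact hlt
    have h5 := hd' h4
    have h7 : w 7 < 1 := by
      have e : (7 : M) = (O + 3) * (O ^ 2 + 3) := by linear_combination (-O - 2) * hO
      rw [e, map_mul]
      have h8 : w (O ^ 2 + 3) ≤ 1 := (w.map_add _ _).trans (max_le (by
        rw [map_pow, hwO, one_pow]) hw3)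
      calc w (O + 3) * w (O ^ 2 + 3) ≤ w (O + 3) * 1 := by gcongr
        _ < 1 := by rw [mul_one]; exact hlt
    have h3 : w 3 = 1 := by
      rcases hw3.lt_or_eq with h | h
      · exfalso
        have h8 := fs0_unit w h 2
        have e : (1 : M) + 3 * ((2 : ℕ) : M) = 7 := by norm_num
        rw [e] at h8
        exact absurd h7 (not_lt.2 h8.ge)
      · exact h
    have h8 : w (1 - O) = 1 := by
      have e : (3 : M) = (1 - O) * (1 - O ^ 2) := by linear_combination (2 - O) * hO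
      rw [e, map_mul] at h3
      refine le_antisymm hw1 ?_
      calc (1 : WithZero (Multiplicative ℤ)) = w (1 - O) * w (1 - O ^ 2) := h3.symm
        _ ≤ w (1 - O) * 1 := by gcongr
        _ = w (1 - O) := mul_one _
    rw [e1, Valuation.map_neg, map_mul, h8, one_mul] at h5
    exact h5
  · left; exact heq

end

/-- [FS0e] `UnrN` for a subfield. PROOF. As `NAB.unr_sub` (`MP_9ab903_nt/NAB/DS.lean`):
`Ideal.ramificationIdx_below_dvd`. -/
theorem unrN_below (K F M : Type) [Field K] [NumberField K] [Field F] [NumberField F] [Field M]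
    [NumberField M] [Algebra K F] [Algebra F M] [Algebra K M] [IsScalarTower K F M] (d : 𝓞 K)
    (hu : TH.UnrN K M d) : TH.UnrN K F d := by
  intro v P hP hx
  have := P.isMaximal
  obtain ⟨Q, hQm, hQ⟩ := Ideal.exists_maximal_ideal_liesOver_of_isIntegral
    (S := 𝓞 M) P.asIdeal
  have hQ0 : Q ≠ ⊥ := Ideal.ne_bot_of_liesOver_of_ne_bot P.ne_bot Q
  let W : HeightOneSpectrum (𝓞 M) := ⟨Q, hQm.isPrime, hQ0⟩
  have hWP : W.asIdeal.LiesOver P.asIdeal := hQ
  have hWv : W.asIdeal.LiesOver v.asIdeal := Ideal.LiesOver.trans W.asIdeal P.asIdeal v.asIdeal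
  have h1 := hu v W hWv hx
  have h2 : P.asIdeal.ramificationIdx (𝓞 K) ∣ W.asIdeal.ramificationIdx (𝓞 K) :=
    Ideal.ramificationIdx_below_dvd (R := 𝓞 K) P.asIdeal W.asIdeal
  rw [h1] at h2
  exact Nat.dvd_one.1 h2

end THF
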