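import Pool.Agent.MP_9ab903_nt.TH.FV
import Pool.Agent.MP_9ab903_nt.TH.FL2
import Pool.Agent.MP_ae0bd0_nt.B3.Q10

/-!
# [NG3-FS1] Elements satisfying the local conditions are good
-/

set_option autoImplicit false

open NumberField IsDedekindDomain
open scoped Classical

namespace THF

theorem dat_main {F : Type} [Field F] [CharZero F] (o : F) (ho : o ^ 2 + o + 1 = 0) :
    Dat (48 * (4 - o)) (o - 4) 12 where
  eq := by ring
  ne := by
    intro h
    have h1 : o - 4 = 0 := by
      have h2 : (48 : F) * (o - 4) = 0 := by linear_combination -h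
      exact (mul_eq_zero.1 h2).resolve_left (by norm_num)
    have h2 : (21 : F) = 0 := by
      have h3 : (21 : F) = (o - 4) * (-(o + 5)) + (o ^ 2 + o + 1) := by ring
      rw [h3, h1, ho]
      ring
    norm_num at h2

theorem fs1_one {a b : WithZero (Multiplicative ℤ)} (ha : a ≤ 1) (hb : b ≤ 1) (h : a * b = 1) :
    a = 1 ∧ b = 1 := by
  constructor
  · refine le_antisymm ha ?_
    rw [← h]
    exact mul_le_of_le_one_right' hb
  · refine le_antisymm hb ?_
    rw [← h]
    exact mul_le_of_le_one_left' ha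

theorem fs1_int {F : Type} [Field F] (o : F) (ho : o ^ 2 + o + 1 = 0) : IsIntegral ℤ (o - 4) := by
  have h1 : IsIntegral ℤ o := by
    refine ⟨Polynomial.X ^ 2 + Polynomial.X + 1, ?_, ?_⟩
    · monicity!
    · simpa using ho
  have h4 : IsIntegral ℤ ((4 : ℤ) : F) := isIntegral_algebraMap
  have h5 : ((4 : ℤ) : F) = 4 := by norm_num
  rw [h5] at h4
  exact h1.sub h4

/-- [FS1] PROOF. `Good3.val`: if `P (6 (o - 4)) = 1`, then `P 6 = 1` and `P (o - 4) = 1` (both elements
are integral, so their valuations are `≤ 1`), hence `P 12 = 1` (`12 * 3 = 6 ^ 2`), and `val_of_locCond`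
(FV) applies with `dat_main`. `Good3.three`: `inU_of_locCond` (FL2). -/
theorem good3_of_loc {F : Type} [Field F] [NumberField F] (o : F) (ho : o ^ 2 + o + 1 = 0)
    [Fact (NonSq (o - 4))] (z : Q2 (o - 4)) (hz : z ≠ 0) (hn : ∃ n : F, z.norm = n ^ 3)
    (hloc : ∀ v : HeightOneSpectrum (𝓞 F),
      LocCond (48 * (4 - o)) (o - 4) 12 z (v.adicCompletion F)) : Good3 z := by
  have hle : ∀ (P : HeightOneSpectrum (𝓞 (Q2 (o - 4)))) (x : Q2 (o - 4)), IsIntegral ℤ x →
      P.valuation (Q2 (o - 4)) x ≤ 1 := by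
    intro P x hx
    exact P.valuation_le_one (⟨x, hx⟩ : 𝓞 (Q2 (o - 4)))
  have hnat : ∀ n : ℕ, IsIntegral ℤ ((n : ℕ) : Q2 (o - 4)) := fun n => by
    have h : IsIntegral ℤ ((n : ℤ) : Q2 (o - 4)) := isIntegral_algebraMap
    rwa [Int.cast_natCast] at h
  refine ⟨hz, hn, ?_, ?_⟩
  · intro P hP
    have h6i : IsIntegral ℤ (6 : Q2 (o - 4)) := by
      have := hnat 6
      exact_mod_cast this
    have h12i : IsIntegral ℤ (12 : Q2 (o - 4)) := by
      have := hnat 12
      exact_mod_cast this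
    have h3i : IsIntegral ℤ (3 : Q2 (o - 4)) := by
      have := hnat 3
      exact_mod_cast this
    have hδi : IsIntegral ℤ (algebraMap F (Q2 (o - 4)) (o - 4)) :=
      (fs1_int o ho).map (algebraMap F (Q2 (o - 4))).toIntAlgHom
    rw [map_mul, map_ofNat, map_mul] at hP
    obtain ⟨h6, hδ⟩ := fs1_one (hle P _ h6i) (hle P _ hδi) hP
    have h12 : P.valuation (Q2 (o - 4)) 12 * P.valuation (Q2 (o - 4)) 3 = 1 := by
      rw [← map_mul, show (12 : Q2 (o - 4)) * 3 = 6 * 6 by norm_num, map_mul, h6, one_mul]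
    have he := (fs1_one (hle P _ h12i) (hle P _ h3i) h12).1
    refine val_of_locCond (dat_main o ho) z hn hloc P h6 hδ ?_
    rw [map_ofNat]
    exact he
  · intro v h1 h3
    exact inU_of_locCond o ho z v h1 h3 (hloc v)

end THF
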