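import Pool.Agent.MP_9ab903_nt.NT.V4
import Pool.Agent.MP_9ab903_nt.TH.Defs

/-!
# [NG3-FT1] The Tamagawa number of `Ep o` over a discrete valuation ring
-/

set_option autoImplicit false

open NumberField IsDedekindDomain
open scoped Classical

namespace THF

/-- [FT1a] PROOF. Unfold `WeierstrassCurve.Δ`, `b₂, b₄, b₆, b₈`; both sides are `-5 + 3 o` modulo
`o² + o + 1`: `linear_combination (polynomial) * ho`. -/
theorem Ep_delta {A : Type} [CommRing A] (o : A) (ho : o ^ 2 + o + 1 = 0) :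
    (TH.Ep o).Δ = o * (o + 3) ^ 2 := by
  simp only [WeierstrassCurve.Δ, WeierstrassCurve.b₂, WeierstrassCurve.b₄, WeierstrassCurve.b₆,
    WeierstrassCurve.b₈, TH.Ep]
  linear_combination (-27 * o ^ 6 + 11 * o ^ 5 - 8 * o ^ 4 + 21 * o ^ 3 + 19 * o ^ 2 - 9 * o) * ho

theorem ft1_key {A : Type} [CommRing A] (o a b : A) (ho : o ^ 2 + o + 1 = 0)
    (heq : b ^ 2 + o ^ 2 * b = a ^ 3 + (2 + o) * a ^ 2 + (1 + o) * a) :
    16 * (1 - o) ^ 6 * (2 * b + o ^ 2) ^ 2 - 64 * (1 - o) ^ 3 * ((1 - o) * a + 1) ^ 3 =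
      48 * (1 - o) * (o + 3) := by
  linear_combination 64 * (1 - o) ^ 6 * heq + (16 * o ^ 8 - 112 * o ^ 7 + 336 * o ^ 6
    + 64 * o ^ 5 * a ^ 2 + 64 * o ^ 5 * a - 544 * o ^ 5 - 320 * o ^ 4 * a ^ 2 - 384 * o ^ 4 * a
    + 448 * o ^ 4 + 640 * o ^ 3 * a ^ 2 + 896 * o ^ 3 * a - 640 * o ^ 2 * a ^ 2
    - 1024 * o ^ 2 * a - 432 * o ^ 2 + 320 * o * a ^ 2 + 576 * o * a + 496 * o - 64 * a ^ 2
    - 128 * a - 208) * ho

theorem ft1_deriv {A : Type} [CommRing A] (o a : A) (ho : o ^ 2 + o + 1 = 0) :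
    3 * ((1 - o) * a + 1) ^ 2 = (1 - o) ^ 2 * (3 * a ^ 2 + 2 * (2 + o) * a + (1 + o)) := by
  linear_combination (-2 * o * a - o + 2 * a + 2) * ho

theorem ft1_seven {A : Type} [CommRing A] (o : A) (ho : o ^ 2 + o + 1 = 0) :
    (o + 3) * (o ^ 2 + 3) = 7 := by
  linear_combination (o + 2) * ho

theorem ft1_lam {A : Type} [CommRing A] (o : A) (ho : o ^ 2 + o + 1 = 0) :
    (1 - o) * (1 - o ^ 2) = 3 := by
  linear_combination (o - 2) * ho

/-- [FT1b] If `o + 3` is a prime element, all points have nonsingular reduction. PROOF. `NR` (NT/V2.lean): let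
`(x, y)` be a point with `x = a`, `y = b`, `a b : A`; `b² + o² b = a³ + (2 + o) a² + (1 + o) a`.
If the reduction of `(a, b)` is singular, then `2 b + o²` and `3 a² + 2 (2 + o) a + (1 + o)` are in
the maximal ideal `m` (`WeierstrassCurve.Affine.nonsingular_iff'`, `IsLocalRing.residue_eq_zero_iff`).
`7 = (o + 3) (o² + 3) ∈ m`, so `2`, `3`, `1 - o` are units (`3 = -o² (1 - o)²`, `7 = 2 * 3 + 1`).
With `λ = 1 - o`: `X = 4 λ² a + 4 λ`, `Y = 4 λ³ (2 b + o²)`: `Y ∈ m`, and
`3 (λ a + 1)² = λ² (3 a² + 2 (2 + o) a + (1 + o))` (`3 = (2 + o) λ`, `3 = (1 + o) λ²`), so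
`λ a + 1 ∈ m`, `X = 4 λ (λ a + 1) ∈ m`. `Y² - X³ = 48 (4 - o) = 48 (1 - o) (o + 3)`; the left side is in
`m²`, and `48 (1 - o)` is a unit (`48 = 2⁴ 3`), so `o + 3 ∈ m²`, contradiction to `Irreducible (o + 3)`
(`m = (o + 3)`). -/
theorem nr_Ep {A : Type} [CommRing A] [IsDomain A] [IsDiscreteValuationRing A]
    {K : Type} [Field K] [Algebra A K] [IsFractionRing A K] (o : A) (ho : o ^ 2 + o + 1 = 0)
    (h : Irreducible (o + 3)) (P : ((TH.Ep o).map (algebraMap A K)).toAffine.Point) :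
    VC63.NR (TH.Ep o) P := by
  have hinj : Function.Injective (algebraMap A K) := IsFractionRing.injective A K
  rcases P with _ | ⟨x, y, hP⟩
  · trivial
  · intro a b ha hb
    subst ha hb
    have h2 : (TH.Ep o).toAffine.Equation a b :=
      (WeierstrassCurve.Affine.map_equation _ hinj a b).1 hP.1
    have h3 := WeierstrassCurve.Affine.Equation.map (IsLocalRing.residue A) h2
    refine (WeierstrassCurve.Affine.nonsingular_iff' _ _).2 ⟨h3, ?_⟩
    by_contra hn
    rw [not_or, not_not, not_not] at hn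
    obtain ⟨hX, hY⟩ := hn
    have heq : b ^ 2 + o ^ 2 * b = a ^ 3 + (2 + o) * a ^ 2 + (1 + o) * a := by
      have h4 := (WeierstrassCurve.Affine.equation_iff' _ _).1 h2
      simp only [TH.Ep] at h4
      linear_combination h4
    have hX' : IsLocalRing.residue A (3 * a ^ 2 + 2 * (2 + o) * a + (1 + o)) = 0 := by
      simp only [WeierstrassCurve.map_a₁, WeierstrassCurve.map_a₂, WeierstrassCurve.map_a₄,
        TH.Ep, map_zero, map_add, map_one, map_ofNat] at hX
      simp only [map_add, map_mul, map_pow, map_ofNat, map_one]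
      linear_combination -hX
    have hY' : IsLocalRing.residue A (2 * b + o ^ 2) = 0 := by
      simp only [WeierstrassCurve.map_a₁, WeierstrassCurve.map_a₃,
        TH.Ep, map_zero, map_pow] at hY
      simp only [map_add, map_mul, map_pow, map_ofNat]
      linear_combination hY
    rw [IsLocalRing.residue_eq_zero_iff, h.maximalIdeal_eq, Ideal.mem_span_singleton] at hX' hY'
    have h7 := ft1_seven o ho
    have hl := ft1_lam o ho
    have hpr : Prime (o + 3) := h.prime
    have n3 : ¬ (o + 3) ∣ 3 := by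
      intro hd
      apply h.not_isUnit
      apply isUnit_of_dvd_one
      have h1 : (1 : A) = 5 * 3 - (o + 3) * ((o ^ 2 + 3) * 2) := by
        linear_combination (2 : A) * h7
      rw [h1]
      exact dvd_sub (Dvd.dvd.mul_left hd 5) (dvd_mul_right _ _)
    have n48 : ¬ (o + 3) ∣ 48 * (1 - o) := by
      intro hd
      apply h.not_isUnit
      apply isUnit_of_dvd_one
      have h1 : (1 : A) = 48 * (1 - o) * (2 * (1 - o ^ 2)) - (o + 3) * ((o ^ 2 + 3) * 41) := by
        linear_combination (41 : A) * h7 - 96 * hl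
      rw [h1]
      exact dvd_sub (Dvd.dvd.mul_right hd _) (dvd_mul_right _ _)
    have hsq : (o + 3) ∣ 3 * ((1 - o) * a + 1) ^ 2 := by
      rw [ft1_deriv o a ho]
      exact Dvd.dvd.mul_left hX' _
    have hlin : (o + 3) ∣ (1 - o) * a + 1 := by
      rcases hpr.dvd_or_dvd hsq with h5 | h5
      · exact absurd h5 n3
      · exact hpr.dvd_of_dvd_pow h5
    obtain ⟨c, hc⟩ := hlin
    obtain ⟨d, hd⟩ := hY'
    apply n48
    have h6 := ft1_key o a b ho heq
    rw [hc, hd] at h6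
    refine ⟨16 * (1 - o) ^ 6 * d ^ 2 - 64 * (1 - o) ^ 3 * (o + 3) * c ^ 3, ?_⟩
    apply mul_right_cancel₀ hpr.ne_zero
    rw [← h6]
    ring

/-- [FT1c] PROOF. `o` is a unit. If `o + 3` is a unit, so is the discriminant: `VC63.unit_of_good`,
`VC63.tamagawa_good`. If `o + 3` is irreducible: `VC63.unit_of_irreducible_pow` with `k = 2`, and
`VC63.tamagawa_eq`, FT1b as in the proof of `VC63.tamagawa_good` (NT/V4.lean). -/
theorem tamA {A : Type} [CommRing A] [IsDomain A] [IsDiscreteValuationRing A]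
    {K : Type} [Field K] [Algebra A K] [IsFractionRing A K] (o : A) (ho : o ^ 2 + o + 1 = 0)
    (h : IsUnit (o + 3) ∨ Irreducible (o + 3)) :
    (∀ T : WeierstrassCurve.VariableChange K,
      (T • (TH.Ep o).map (algebraMap A K)).IsMinimal A →
        (IsDiscreteValuationRing.maximalIdeal A).valuation K (T.u : K) = 1) ∧
      SBSD.tamagawa A ((TH.Ep o).map (algebraMap A K)) = 1 := by
  have hou : IsUnit o := by
    apply IsUnit.of_mul_eq_one (-(o + 1))
    linear_combination -ho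
  rcases h with h | h
  · have hΔ : IsUnit (TH.Ep o).Δ := by
      rw [Ep_delta o ho]
      exact hou.mul (h.pow 2)
    exact ⟨VC63.unit_of_good _ hΔ, VC63.tamagawa_good _ hΔ⟩
  · have hu := VC63.unit_of_irreducible_pow (K := K) (TH.Ep o) (o + 3) h o hou 2 (by norm_num)
      (Ep_delta o ho)
    refine ⟨hu, ?_⟩
    rw [VC63.tamagawa_eq (TH.Ep o) hu]
    have h1 : {P : ((TH.Ep o).map (algebraMap A K)).toAffine.Point | VC63.NR (TH.Ep o) P} =
        Set.univ := Set.eq_univ_of_forall (nr_Ep o ho h)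
    rw [h1, AddSubgroup.closure_univ, AddSubgroup.index_top]

end THF
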