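import Pool.Agent.MP_9ab903_nt.TH.FT1

/-!
# [NG3-FT2] Tamagawa numbers and Néron factors of `Ep o` over a number field
-/

set_option autoImplicit false

open NumberField IsDedekindDomain
open scoped Classical

namespace THF

theorem ft2_map {R S : Type} [CommRing R] [CommRing S] (f : R →+* S) (o : R) :
    (TH.Ep o).map f = TH.Ep (f o) := by
  have h2 : f 2 = 2 := map_ofNat f 2
  ext <;> simp [TH.Ep, WeierstrassCurve.map, h2]

/-- In the completion, an element of valuation `exp (-1)` is irreducible. -/
theorem ft2_irr {F : Type} [Field F] [NumberField F] (v : HeightOneSpectrum (𝓞 F))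
    (x : v.adicCompletionIntegers F)
    (h : Valued.v (x : v.adicCompletion F) = WithZero.exp (-1 : ℤ)) : Irreducible x := by
  have hlt : ∀ x : WithZero (Multiplicative ℤ), x < 1 → x ≤ WithZero.exp (-1 : ℤ) := by
    intro x hx
    rcases eq_or_ne x 0 with h0 | h0
    · rw [h0]
      exact zero_le
    · rw [← WithZero.exp_zero] at hx
      rw [← WithZero.log_le_iff_le_exp h0]
      have h1 := (WithZero.log_lt_iff_lt_exp h0).2 hx
      omega
  refine ⟨?_, ?_⟩
  · rw [HeightOneSpectrum.adicCompletionIntegers.isUnit_iff_valued_eq_one, h]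
    rw [← WithZero.exp_zero]
    intro h1
    have h2 := WithZero.exp_injective h1
    omega
  · intro a b hab
    by_contra hcon
    push Not at hcon
    obtain ⟨ha, hb⟩ := hcon
    rw [HeightOneSpectrum.adicCompletionIntegers.isUnit_iff_valued_eq_one] at ha hb
    have ha1 : Valued.v (a : v.adicCompletion F) ≤ 1 :=
      (HeightOneSpectrum.mem_adicCompletionIntegers (R := 𝓞 F) (K := F) v).1 a.2
    have hb1 : Valued.v (b : v.adicCompletion F) ≤ 1 :=
      (HeightOneSpectrum.mem_adicCompletionIntegers (R := 𝓞 F) (K := F) v).1 b.2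
    have ha2 := hlt _ (lt_of_le_of_ne ha1 ha)
    have hb2 := hlt _ (lt_of_le_of_ne hb1 hb)
    have h4 : Valued.v ((a * b : v.adicCompletionIntegers F) : v.adicCompletion F) =
        Valued.v (a : v.adicCompletion F) * Valued.v (b : v.adicCompletion F) := by
      rw [← map_mul]
      rfl
    rw [hab, h4] at h
    have h5 := mul_le_mul' ha2 hb2
    rw [h, ← WithZero.exp_add, WithZero.exp_le_exp] at h5
    omega

/-- [FT2] PROOF. `A = v.adicCompletionIntegers F`; `o` is integral, `oA : A` its image. `(Ep o).baseChange F_v =
(Ep oA).map (algebraMap A F_v)` (compare `TRS.t1_base`). `v (o + 3) = 1`: `oA + 3` is a unit;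
`v (o + 3) = exp (-1)`: `oA + 3` is irreducible (its valuation is `exp (-1)`; compare
`CM27.irreducible_completion`, `irreducible_completion` in MP_ae0bd0_nt/CM). FT1c, and for the
Néron factor the second half of the proof of `SB3.neron_one` (`MP_9ab903_nt/T3/TAM.lean`). -/
theorem tam_Ep {F : Type} [Field F] [NumberField F] (o : F) (ho : o ^ 2 + o + 1 = 0)
    (v : HeightOneSpectrum (𝓞 F))
    (h : v.valuation F (o + 3) = 1 ∨ v.valuation F (o + 3) = WithZero.exp (-1)) :
    SBSD.tam (TH.Ep o) v = 1 ∧ SBSD.neron (TH.Ep o) v = 1 := by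
  have hint : IsIntegral ℤ o := by
    refine ⟨Polynomial.X ^ 2 + Polynomial.X + 1, ?_, ?_⟩
    · monicity!
    · simp [ho]
  have hval : v.valuation F o ≤ 1 := v.valuation_le_one (⟨o, hint⟩ : 𝓞 F)
  have hmem : algebraMap F (v.adicCompletion F) o ∈ v.adicCompletionIntegers F := by
    rw [HeightOneSpectrum.mem_adicCompletionIntegers]
    exact (HeightOneSpectrum.valuedAdicCompletion_eq_valuation' v o).trans_le hval
  obtain ⟨oA, hoA⟩ : ∃ oA : v.adicCompletionIntegers F,
      algebraMap (v.adicCompletionIntegers F) (v.adicCompletion F) oA =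
        algebraMap F (v.adicCompletion F) o := ⟨⟨_, hmem⟩, rfl⟩
  have hinj : Function.Injective
      (algebraMap (v.adicCompletionIntegers F) (v.adicCompletion F)) :=
    IsFractionRing.injective _ _
  have ho' : oA ^ 2 + oA + 1 = 0 := by
    apply hinj
    rw [map_add, map_add, map_pow, hoA, map_one, map_zero, ← map_pow, ← map_add, ← map_one
      (algebraMap F (v.adicCompletion F)), ← map_add, ho, map_zero]
  have e : (TH.Ep o).baseChange (v.adicCompletion F) =
      (TH.Ep oA).map (algebraMap (v.adicCompletionIntegers F) (v.adicCompletion F)) := by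
    rw [WeierstrassCurve.baseChange, ft2_map, ft2_map, hoA]
  have hv3 : Valued.v ((oA + 3 : v.adicCompletionIntegers F) : v.adicCompletion F) =
      v.valuation F (o + 3) := by
    have h1 : ((oA + 3 : v.adicCompletionIntegers F) : v.adicCompletion F) =
        algebraMap F (v.adicCompletion F) (o + 3) := by
      have h2 : ((oA + 3 : v.adicCompletionIntegers F) : v.adicCompletion F) =
        algebraMap (v.adicCompletionIntegers F) (v.adicCompletion F) (oA + 3) := rfl
      rw [h2, map_add, map_add, hoA, map_ofNat, map_ofNat]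
    rw [h1]
    exact HeightOneSpectrum.valuedAdicCompletion_eq_valuation' v (o + 3)
  have hui : IsUnit (oA + 3) ∨ Irreducible (oA + 3) := by
    rcases h with h | h
    · left
      rw [HeightOneSpectrum.adicCompletionIntegers.isUnit_iff_valued_eq_one, hv3, h]
    · right
      exact ft2_irr v _ (hv3.trans h)
  obtain ⟨hT, ht⟩ := tamA (K := v.adicCompletion F) oA ho' hui
  refine ⟨?_, ?_⟩
  · rw [SBSD.tam, e]
    exact ht
  · have hu : (IsDiscreteValuationRing.maximalIdeal (v.adicCompletionIntegers F)).valuation
        (v.adicCompletion F) (((((TH.Ep o).baseChange (v.adicCompletion F)).exists_isMinimal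
          (v.adicCompletionIntegers F)).choose.u : (v.adicCompletion F)ˣ) : v.adicCompletion F)
          = 1 := by
      have hmin := (((TH.Ep o).baseChange (v.adicCompletion F)).exists_isMinimal
          (v.adicCompletionIntegers F)).choose_spec
      generalize (((TH.Ep o).baseChange (v.adicCompletion F)).exists_isMinimal
          (v.adicCompletionIntegers F)).choose = T at hmin ⊢
      rw [e] at hmin
      exact hT T hmin
    unfold SBSD.neron
    generalize (((((TH.Ep o).baseChange (v.adicCompletion F)).exists_isMinimal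
          (v.adicCompletionIntegers F)).choose.u : (v.adicCompletion F)ˣ) : v.adicCompletion F) = u
          at hu ⊢
    have hmem : u ∈ MonoidHom.mker ((IsDiscreteValuationRing.maximalIdeal
        (v.adicCompletionIntegers F)).valuation (v.adicCompletion F)) := hu
    rw [IsDiscreteValuationRing.mker_valuation_eq_isUnitSubmonoid] at hmem
    obtain ⟨u₀, hu₀, rfl⟩ := hmem
    have hu₀' : IsUnit u₀ := hu₀
    rw [HeightOneSpectrum.adicCompletionIntegers.isUnit_iff_valued_eq_one] at hu₀'
    rw [inv_eq_one]
    have h1 : algebraMap (v.adicCompletionIntegers F) (v.adicCompletion F) u₀ =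
        (u₀ : v.adicCompletion F) := rfl
    rw [h1, FinitePlace.norm_def, hu₀', map_one]
    rfl

end THF
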