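import Pool.Agent.MP_9ab903_nt.TH.F0
import Pool.Agent.MP_ae0bd0_nt.B3.Q6

/-!
# [NG3-FV] The valuations of a Selmer class outside `6 δ e`
-/

set_option autoImplicit false

open NumberField IsDedekindDomain
open scoped Classical

namespace THF

/-- [FV] PROOF. Port of `SB3.val_of_locCond3` (`S3/S12.lean`). -/
theorem val_of_locCond {F : Type} [Field F] [NumberField F] {k δ e : F} (hd : Dat k δ e)
    [Fact (NonSq δ)] (z : Q2 δ) (hn : ∃ n : F, z.norm = n ^ 3)
    (hz : ∀ v : HeightOneSpectrum (𝓞 F), LocCond k δ e z (v.adicCompletion F))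
    (P : HeightOneSpectrum (𝓞 (Q2 δ))) (h6 : P.valuation (Q2 δ) 6 = 1)
    (hδ : P.valuation (Q2 δ) (algebraMap F (Q2 δ) δ) = 1)
    (he : P.valuation (Q2 δ) (algebraMap F (Q2 δ) e) = 1) :
    ∃ g, P.valuation (Q2 δ) z = g ^ 3 := by
  obtain ⟨v, -, φ, hφ⟩ := CM27.exists_below F (Q2 δ) P
  set ι : Q2 δ →+* P.adicCompletion (Q2 δ) :=
    algebraMap (Q2 δ) (P.adicCompletion (Q2 δ)) with hι
  set w : Valuation (P.adicCompletion (Q2 δ)) (WithZero (Multiplicative ℤ)) := Valued.v with hw
  have hwv : ∀ x : Q2 δ, w (ι x) = P.valuation (Q2 δ) x :=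
    fun x => HeightOneSpectrum.valuedAdicCompletion_eq_valuation' P x
  have hφ' : ∀ a : F, φ (algebraMap F (v.adicCompletion F) a) = ι ⟨a, 0⟩ := fun a => hφ a
  set e' : P.adicCompletion (Q2 δ) := ι ⟨e, 0⟩ with he'
  set δ' : P.adicCompletion (Q2 δ) := ι ⟨δ, 0⟩ with hδ'
  have h6 : w (6 : P.adicCompletion (Q2 δ)) = 1 := by
    have h1 := hwv (6 : Q2 δ)
    rw [map_ofNat] at h1
    rw [h1]
    exact h6
  have hδw : w δ' = 1 := by rw [hδ', hwv]; exact hδ
  have hew : w e' = 1 := by rw [he', hwv]; exact he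
  set ρ : P.adicCompletion (Q2 δ) := ι ⟨0, 1⟩ with hρ
  have hρ2 : ρ * ρ = δ' := by
    have ho : (⟨0, 1⟩ : Q2 δ) * ⟨0, 1⟩ = ⟨δ, 0⟩ := by
      ext <;> simp
    rw [hρ, ← map_mul, ho]
  have hwρ : w ρ = 1 := by
    have h1 := congrArg w hρ2
    rw [map_mul, hδw, ← sq] at h1
    exact (pow_eq_one_iff_of_nonneg zero_le (by norm_num)).1 h1
  have hdec : ∀ y : Q2 δ, ι y = φ (algebraMap F (v.adicCompletion F) y.re) +
      φ (algebraMap F (v.adicCompletion F) y.im) * ρ := by
    intro y
    rw [hφ', hφ', hρ, ← map_mul, ← map_add]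
    congr 1
    ext <;> simp
  rw [← hwv]
  rcases hz v with ⟨Q, u, hu, hzu⟩ | ⟨s, g, hs, hg, hzg⟩
  · have hev : ι z = lift2 φ (hφ' δ) ρ hρ2 (mapQ (algebraMap F (v.adicCompletion F)) rfl z) :=
      hdec z
    rw [hev, hzu, map_mul, map_pow, map_mul, map_pow]
    suffices h : ∃ g, w (lift2 φ (hφ' δ) ρ hρ2
        (zq (algebraMap F (v.adicCompletion F) δ) (3 * algebraMap F (v.adicCompletion F) e) Q)) =
        g ^ 3 by
      obtain ⟨g, hg⟩ := h
      exact ⟨g * w (lift2 φ (hφ' δ) ρ hρ2 u), by rw [hg, mul_pow]⟩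
    cases Q with
    | zero =>
      refine ⟨1, ?_⟩
      simp [zq]
    | some x y h =>
      have h1 : lift2 φ (hφ' δ) ρ hρ2
          (zq (algebraMap F (v.adicCompletion F) δ) (3 * algebraMap F (v.adicCompletion F) e)
            (.some x y h)) = φ y - 3 * e' * ρ := by
        change φ y + φ (-(3 * algebraMap F (v.adicCompletion F) e)) * ρ = _
        rw [map_neg, map_mul, map_ofNat, hφ']
        ring
      rw [h1]
      have hne : -27 * k ≠ 0 := mul_ne_zero (by norm_num) hd.ne
      have h2 := (W_equation x y).1 h.1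
      have h3 := congrArg φ h2
      rw [map_pow, map_add, map_pow] at h3
      have h4 : φ (-27 * algebraMap F (v.adicCompletion F) k) = 9 * δ' * e' ^ 2 := by
        have h5 := hd.eq
        have h6 : -27 * k = 9 * δ * e ^ 2 := by linear_combination 9 * h5
        have h7 : -27 * algebraMap F (v.adicCompletion F) k =
            9 * algebraMap F (v.adicCompletion F) δ * algebraMap F (v.adicCompletion F) e ^ 2 := by
          have h8 := congrArg (algebraMap F (v.adicCompletion F)) h6
          simpa only [map_mul, map_neg, map_ofNat, map_pow] using h8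
        rw [h7, map_mul, map_mul, map_pow, map_ofNat, hφ', hφ']
      refine BS3.q6_cube_val w _ (φ y + 3 * e' * ρ) (φ x) ?_ ?_
      · rw [show φ y + 3 * e' * ρ - (φ y - 3 * e' * ρ) = 6 * e' * ρ by ring, map_mul, map_mul,
          h6, hew, hwρ]
        simp
      · rw [h4] at h3
        linear_combination h3 - 9 * e' ^ 2 * hρ2
  · have h1 : φ (algebraMap F (v.adicCompletion F) z.re) +
        φ (algebraMap F (v.adicCompletion F) z.im) * φ s = 6 * e' * φ s * φ g ^ 3 := by
      have h2 := congrArg φ hzg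
      rw [lift2_apply, map_add, map_mul, map_mul, map_pow, map_mul, map_mul, map_ofNat, hφ' e]
        at h2
      exact h2
    have h2 : φ s * φ s = ρ * ρ := by
      rw [← map_mul, hs, hφ', hρ2]
    have hφg : φ g ≠ 0 := (map_ne_zero φ).2 hg
    rcases mul_self_eq_mul_self_iff.1 h2 with h3 | h3
    · rw [h3] at h1
      rw [hdec z, h1, map_mul, map_mul, map_mul, map_pow, h6, hew, hwρ]
      exact ⟨w (φ g), by simp⟩
    · rw [h3] at h1
      obtain ⟨n, hn⟩ := hn
      have h4 : ι z * (6 * e' * ρ * φ g ^ 3) =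
          -(φ (algebraMap F (v.adicCompletion F) n)) ^ 3 := by
        have h5 : φ (algebraMap F (v.adicCompletion F) z.norm) =
            φ (algebraMap F (v.adicCompletion F) n) ^ 3 := by
          rw [hn, map_pow, map_pow]
        rw [QuadraticAlgebra.norm_def] at h5
        simp only [map_sub, map_mul, map_add, map_zero] at h5
        rw [hφ' δ, ← hδ'] at h5
        rw [← h5, hdec z]
        linear_combination (φ (algebraMap F (v.adicCompletion F) z.re) +
          φ (algebraMap F (v.adicCompletion F) z.im) * ρ) * h1 +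
          (φ (algebraMap F (v.adicCompletion F) z.im)) ^ 2 * hρ2
      have h5 := congrArg w h4
      rw [map_mul, map_mul, map_mul, map_mul, h6, hew, hwρ, Valuation.map_neg, map_pow,
        map_pow] at h5
      simp only [one_mul] at h5
      refine ⟨w (φ (algebraMap F (v.adicCompletion F) n)) / w (φ g), ?_⟩
      have h7 : w (φ g) ≠ 0 := (Valuation.ne_zero_iff w).2 hφg
      rw [div_pow, eq_div_iff (pow_ne_zero 3 h7)]
      exact h5

end THF
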