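import Pool.Agent.MP_9ab903_nt.TH.FS3
import Pool.Agent.MP_9ab903_nt.TH.FH
import Pool.Agent.MP_9ab903_nt.TH.FE1
import Pool.Agent.MP_9ab903_nt.TH.FE2
import Pool.Agent.MP_9ab903_nt.TH.FE3b
import Pool.Agent.MP_9ab903_nt.TH.FT2
import Pool.Agent.MP_9ab903_nt.TH.FA
import Pool.Agent.MP_9ab903_nt.TH.TD

/-!
# [NG3-FZ] Block F: the algebraic half over the class of fields
-/

set_option autoImplicit false

open NumberField IsDedekindDomain
open CM27 CMT NAB CF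
open scoped Classical

namespace TH

open THF

variable (F : IntermediateField ℚ ℂ) [NumberField F] (hw : w ∈ F)

theorem z_om : (⟨w, hw⟩ : F) ^ 2 + ⟨w, hw⟩ + 1 = 0 := by
  apply Subtype.ext
  have h := w_sq
  change w ^ 2 + w + 1 = 0
  rw [pow_two, h]
  ring

theorem fz_ne : (48 : F) * (4 - (⟨w, hw⟩ : F)) ≠ 0 := by
  have ho := z_om F hw
  intro h
  rcases mul_eq_zero.1 h with h1 | h1
  · norm_num at h1
  · have h2 : (21 : F) = 0 := by
      have h3 : (⟨w, hw⟩ : F) = 4 := by linear_combination -h1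
      rw [h3] at ho
      linear_combination ho
    norm_num at h2

theorem fz_dat : Dat (48 * (4 - (⟨w, hw⟩ : F))) ((⟨w, hw⟩ : F) - 4) 12 where
  eq := by ring
  ne := fz_ne F hw

/-- `Ep` is an elliptic curve -/
theorem hell_TT : (EpF F hw).IsElliptic := by
  have ho := z_om F hw
  have h1 : (EpF F hw).Δ = (⟨w, hw⟩ : F) * ((⟨w, hw⟩ : F) + 3) ^ 2 := by
    unfold EpF Ep
    simp only [WeierstrassCurve.Δ, WeierstrassCurve.b₂, WeierstrassCurve.b₄, WeierstrassCurve.b₆,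
      WeierstrassCurve.b₈]
    generalize (⟨w, hw⟩ : F) = o at ho
    linear_combination (-9 * o + 19 * o ^ 2 + 21 * o ^ 3 - 8 * o ^ 4 + 11 * o ^ 5 - 27 * o ^ 6) * ho
  refine ⟨?_⟩
  rw [h1, isUnit_iff_ne_zero]
  intro h
  rcases mul_eq_zero.1 h with h2 | h2
  · rw [h2] at ho
    norm_num at ho
  · have h3 : (⟨w, hw⟩ : F) + 3 = 0 := pow_eq_zero_iff (two_ne_zero) |>.1 h2
    have h4 : (⟨w, hw⟩ : F) = -3 := by linear_combination h3
    rw [h4] at ho
    norm_num at ho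

/-- the Selmer group is trivial -/
theorem sel_TT (hT : TT F hw) :
    SelTriv F (48 * (4 - (⟨w, hw⟩ : F))) ((⟨w, hw⟩ : F) - 4) 12 := by
  let := algK F hw
  obtain ⟨M, _, _, _, _, _, _, m, hm, hu⟩ := hT
  intro z hz hN hloc
  exact selmer_trivial KK F M m hm (⟨w, d2_w_mem⟩ : KK) (z_om KK d2_w_mem) dK
    (by
      apply Subtype.ext
      change emb dd = w - 4
      rw [emb_apply]
      simp [dd]
      ring) hu (⟨w, hw⟩ : F) rfl z hz hN hloc

theorem fz_dK : ((dK : 𝓞 KK) : KK) = (⟨w, d2_w_mem⟩ : KK) - 4 := by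
  apply Subtype.ext
  change emb dd = w - 4
  rw [emb_apply]
  simp [dd]
  ring

theorem fz_unr (hT : TT F hw) : letI := algK F hw; UnrN KK F dK := by
  let := algK F hw
  obtain ⟨M, _, _, _, _, _, _, m, hm, hu⟩ := hT
  exact unrN_below KK F M dK hu

/-- a place above `3` -/
theorem three_TT (hT : TT F hw) : ∃ v : HeightOneSpectrum (𝓞 F),
    v.valuation F ((⟨w, hw⟩ : F) - 4) = WithZero.exp (-1) ∧
      v.valuation F 3 = WithZero.exp (-2) := by
  let := algK F hw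
  have h := exists_three KK F (⟨w, d2_w_mem⟩ : KK) (z_om KK d2_w_mem) dK fz_dK (fz_unr F hw hT)
  exact h

theorem pi_TT (hT : TT F hw) (v : HeightOneSpectrum (𝓞 F)) :
    v.valuation F ((⟨w, hw⟩ : F) + 3) = 1 ∨
      v.valuation F ((⟨w, hw⟩ : F) + 3) = WithZero.exp (-1) := by
  let := algK F hw
  exact val_pi KK F (⟨w, d2_w_mem⟩ : KK) (z_om KK d2_w_mem) dK fz_dK (fz_unr F hw hT) v

theorem hfin_TT (hT : TT F hw) : Finite (EpF F hw).toAffine.Point := by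
  obtain ⟨v, hv1, hv2⟩ := three_TT F hw hT
  exact finite_of_phi (z_om F hw) (fz_ne F hw) v hv1 hv2
    (phi_surj_of_sel (z_om F hw) (fz_dat F hw) (sel_TT F hw hT))

theorem h3_TT (hT : TT F hw) : ¬ 3 ∣ Nat.card (EpF F hw).toAffine.Point := by
  have hfin := hfin_TT F hw hT
  have e : (EpF F hw).toAffine.Point ≃ (W (48 * (4 - (⟨w, hw⟩ : F)))).toAffine.Point :=
    Equiv.ofBijective (eFun (z_om F hw)) (eFun_bijective (z_om F hw))
  have hfin2 : Finite (W (48 * (4 - (⟨w, hw⟩ : F)))).toAffine.Point := Finite.of_equiv _ e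
  rw [Nat.card_congr e]
  exact not_three_dvd (z_om F hw) (fz_ne F hw)
    (phi_surj_of_sel (z_om F hw) (fz_dat F hw) (sel_TT F hw hT))

theorem hsha_TT (hT : TT F hw) (x : SBSD.Sha (EpF F hw)) (k : ℕ) (h : 3 ^ k • x = 0) : x = 0 :=
  sha_pow (z_om F hw) (fz_dat F hw) (sel_TT F hw hT) (EpF F hw) (EpIso (z_om F hw)) k x h

theorem htam_TT (hT : TT F hw) :
    ∏ᶠ v : HeightOneSpectrum (𝓞 F), SBSD.tam (EpF F hw) v = 1 :=
  finprod_eq_one_of_forall_eq_one fun v =>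
    (tam_Ep (⟨w, hw⟩ : F) (z_om F hw) v (pi_TT F hw hT v)).1

theorem hper_TT (hT : TT F hw) (c : ℝ) (hc : 0 < c) (hc6 : 7 * c ^ 6 = 729 * Om ^ 12) (n : ℕ)
    (hn : Module.finrank ℚ F = 2 * n) : SBSD.period (EpF F hw) = c ^ n := by
  have h2 : ∏ᶠ v : HeightOneSpectrum (𝓞 F), SBSD.neron (EpF F hw) v = 1 :=
    finprod_eq_one_of_forall_eq_one fun v =>
      (tam_Ep (⟨w, hw⟩ : F) (z_om F hw) v (pi_TT F hw hT v)).2
  unfold SBSD.period
  rw [h2, mul_one]
  exact arch_Ep (⟨w, hw⟩ : F) (z_om F hw) c hc hc6 n hn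

end TH
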