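import Pool.Agent.MP_9ab903_nt.TH.TD
import Pool.Agent.MP_9ab903_nt.NAB.UR

/-! ## [NG3-G] part 0: the Galois closure of `F(∛d)` over `K ∋ ω` -/

set_option autoImplicit false

open NumberField IsDedekindDomain Polynomial
open CM27 CMT CF TH
open scoped Classical

namespace THG

theorem cube_eq_iff {R : Type*} [Field R] (o a b : R) (ho : o ^ 2 + o + 1 = 0) (h : a ^ 3 = b ^ 3) :
    a = b ∨ a = o * b ∨ a = o ^ 2 * b := by
  have h1 : (a - b) * ((a - o * b) * (a - o ^ 2 * b)) = 0 := by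
    linear_combination h + (-a ^ 2 * b + a * b ^ 2 * o - b ^ 3 * (o - 1)) * ho
  rcases mul_eq_zero.1 h1 with h2 | h2
  · exact Or.inl (sub_eq_zero.1 h2)
  · rcases mul_eq_zero.1 h2 with h3 | h3
    · exact Or.inr (Or.inl (sub_eq_zero.1 h3))
    · exact Or.inr (Or.inr (sub_eq_zero.1 h3))

/-- a group of exponent `3` -/
theorem card_three_group (G : Type) [Group G] [Finite G] (h : ∀ g : G, g ^ 3 = 1) :
    ∃ k : ℕ, Nat.card G = 3 ^ k := by
  haveI : Fact (Nat.Prime 3) := ⟨Nat.prime_three⟩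
  have h1 : IsPGroup 3 G := fun g => ⟨1, by rw [pow_one, h g]⟩
  exact IsPGroup.iff_card.1 h1

section
variable (K F : Type) [Field K] [NumberField K] [Field F] [NumberField F] [Algebra K F]
  [IsGalois K F] (d : 𝓞 F)

/-- the polynomial `∏ (X³ - σ d)` -/
noncomputable def clo3 : K[X] := expand K 3 (minpoly K (d : F))

/-- the Galois closure of `F(∛d)` over `K` -/
abbrev CM3 : Type := ((clo3 K F d).map (algebraMap K F)).SplittingField

theorem clo3_root (z : CM3 K F d)
    (hz : z ∈ ((clo3 K F d).map (algebraMap K F)).rootSet (CM3 K F d)) :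
    ∃ σ : F ≃ₐ[K] F, z ^ 3 = algebraMap F (CM3 K F d) (σ (d : F)) := by
  have h1 : aeval z ((clo3 K F d).map (algebraMap K F)) = 0 := (mem_rootSet.1 hz).2
  rw [aeval_map_algebraMap] at h1
  have h10 : aeval z (clo3 K F d) = aeval (z ^ 3) (minpoly K (d : F)) := expand_aeval 3 _ z
  rw [h10] at h1
  haveI : FiniteDimensional K F := Module.Finite.of_restrictScalars_finite ℚ K F
  have hint : IsIntegral K (d : F) := IsIntegral.of_finite K _
  have hsp : ((minpoly K (d : F)).map (algebraMap K F)).Splits := IsGalois.splits K (d : F)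
  have h2 : z ^ 3 ∈ (algebraMap F (CM3 K F d)).range := by
    refine hsp.mem_range_of_isRoot ?_ ?_
    · exact (Polynomial.map_ne_zero_iff (algebraMap K F).injective).2 (minpoly.ne_zero hint)
    · rw [IsRoot.def, eval_map, ← aeval_def, aeval_map_algebraMap]
      exact h1
  obtain ⟨y, hy⟩ := h2
  have h3 : aeval y (minpoly K (d : F)) = 0 := by
    apply (algebraMap F (CM3 K F d)).injective
    rw [map_zero, ← aeval_algebraMap_apply, hy]
    exact h1
  have h4 : minpoly K y = minpoly K (d : F) :=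
    (minpoly.eq_of_irreducible_of_monic (minpoly.irreducible hint) h3 (minpoly.monic hint)).symm
  obtain ⟨σ, hσ⟩ := (Normal.minpoly_eq_iff_mem_orbit (F := K) F).1 h4
  exact ⟨σ, by rw [← hy, ← hσ]; rfl⟩

theorem clo3_splits : (((clo3 K F d).map (algebraMap K F)).map
    (algebraMap F (CM3 K F d))).Splits :=
  SplittingField.splits _

/-- `d` is a cube in `CM3` -/
theorem clo3_cbrt : ∃ δ : CM3 K F d, δ ^ 3 = algebraMap F (CM3 K F d) (d : F) := by
  haveI : FiniteDimensional K F := Module.Finite.of_restrictScalars_finite ℚ K F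
  have hint : IsIntegral K (d : F) := IsIntegral.of_finite K _
  have h30 : 0 < 3 := by norm_num
  have hne : (clo3 K F d).map (algebraMap K F) ≠ 0 := by
    rw [Polynomial.map_ne_zero_iff (algebraMap K F).injective]
    exact (expand_ne_zero h30).2 (minpoly.ne_zero hint)
  have hdvd : (X ^ 3 - C (d : F)) ∣ (clo3 K F d).map (algebraMap K F) := by
    have h1 : (X - C (d : F)) ∣ (minpoly K (d : F)).map (algebraMap K F) := by
      rw [dvd_iff_isRoot, IsRoot.def, eval_map, ← aeval_def]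
      exact minpoly.aeval K _
    obtain ⟨q, hq⟩ := h1
    refine ⟨expand F 3 q, ?_⟩
    rw [clo3, Polynomial.map_expand, hq, map_mul, map_sub, expand_X, expand_C]
  have h2 : ((X ^ 3 - C (d : F)).map (algebraMap F (CM3 K F d))).Splits := by
    refine (clo3_splits K F d).of_dvd ?_ (Polynomial.map_dvd _ hdvd)
    exact (Polynomial.map_ne_zero_iff (algebraMap F (CM3 K F d)).injective).2 hne
  have h3 : ((X ^ 3 - C (d : F)).map (algebraMap F (CM3 K F d))).degree ≠ 0 := by
    rw [degree_map, degree_X_pow_sub_C h30]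
    norm_num
  obtain ⟨δ, hδ⟩ := h2.exists_eval_eq_zero h3
  refine ⟨δ, ?_⟩
  rw [eval_map, eval₂_sub, eval₂_pow, eval₂_X, eval₂_C] at hδ
  exact sub_eq_zero.1 hδ

instance clo3_numberField : NumberField (CM3 K F d) where
  to_charZero := charZero_of_injective_algebraMap (algebraMap F (CM3 K F d)).injective
  to_finiteDimensional := by
    haveI : FiniteDimensional F (CM3 K F d) :=
      IsSplittingField.finiteDimensional _ ((clo3 K F d).map (algebraMap K F))
    haveI : CharZero (CM3 K F d) :=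
      charZero_of_injective_algebraMap (algebraMap F (CM3 K F d)).injective
    haveI : IsScalarTower ℚ F (CM3 K F d) := IsScalarTower.of_algebraMap_eq' (Subsingleton.elim _ _)
    exact Module.Finite.trans F (CM3 K F d)

theorem clo3_galois_F : IsGalois F (CM3 K F d) := by
  haveI : Normal F (CM3 K F d) := Normal.of_isSplittingField ((clo3 K F d).map (algebraMap K F))
  exact ⟨⟩

theorem clo3_galois_K : IsGalois K (CM3 K F d) := by
  haveI : FiniteDimensional K F := Module.Finite.of_restrictScalars_finite ℚ K F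
  obtain ⟨p, hp, hpF⟩ := IsGalois.is_separable_splitting_field K F
  have hint : IsIntegral K (d : F) := IsIntegral.of_finite K _
  have h1 : clo3 K F d ≠ 0 := (expand_ne_zero (by norm_num)).2 (minpoly.ne_zero hint)
  haveI : IsSplittingField K (CM3 K F d) (p * clo3 K F d) :=
    IsSplittingField.mul (K := F) (CM3 K F d) p (clo3 K F d) hp.ne_zero h1
  haveI : Normal K (CM3 K F d) := Normal.of_isSplittingField (p * clo3 K F d)
  exact ⟨⟩

/-- an automorphism which fixes the roots is trivial -/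
theorem clo3_ext (τ : CM3 K F d ≃ₐ[F] CM3 K F d)
    (h : ∀ z ∈ ((clo3 K F d).map (algebraMap K F)).rootSet (CM3 K F d), τ z = z) : τ = 1 := by
  have h1 : Algebra.adjoin F (((clo3 K F d).map (algebraMap K F)).rootSet (CM3 K F d)) = ⊤ :=
    IsSplittingField.adjoin_rootSet _ _
  have h2 : (τ : CM3 K F d →ₐ[F] CM3 K F d) = AlgHom.id F _ := by
    apply AlgHom.ext_of_adjoin_eq_top h1
    intro z hz
    exact h z hz
  ext x
  exact DFunLike.congr_fun h2 x

variable (om : 𝓞 K) (hom : om ^ 2 + om + 1 = 0)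

/-- `ω` in the closure -/
noncomputable def cw : CM3 K F d := algebraMap F (CM3 K F d) (algebraMap K F (om : K))

include hom in
theorem cw_quad : cw K F d om ^ 2 + cw K F d om + 1 = 0 := by
  have h1 : ((om : K)) ^ 2 + (om : K) + 1 = 0 := by
    have := congrArg (fun t : 𝓞 K => (t : K)) hom
    simpa using this
  have h2 := congrArg (fun t : K => algebraMap F (CM3 K F d) (algebraMap K F t)) h1
  simpa [cw] using h2

include hom in
theorem clo3_pm (τ : CM3 K F d ≃ₐ[F] CM3 K F d) (z : CM3 K F d)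
    (hz : z ∈ ((clo3 K F d).map (algebraMap K F)).rootSet (CM3 K F d)) :
    τ z = z ∨ τ z = cw K F d om * z ∨ τ z = cw K F d om ^ 2 * z := by
  obtain ⟨σ, hσ⟩ := clo3_root K F d z hz
  apply cube_eq_iff _ _ _ (cw_quad K F d om hom)
  rw [← map_pow, hσ, τ.commutes]

include hom in
theorem clo3_finrank (n : ℕ) (hn : Module.finrank K F = 3 ^ n) :
    ∃ m : ℕ, Module.finrank K (CM3 K F d) = 3 ^ m := by
  haveI := clo3_galois_F K F d
  haveI : FiniteDimensional F (CM3 K F d) :=
    IsSplittingField.finiteDimensional _ ((clo3 K F d).map (algebraMap K F))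
  have hw : ∀ τ : CM3 K F d ≃ₐ[F] CM3 K F d, τ (cw K F d om) = cw K F d om := fun τ => τ.commutes _
  have h3 : cw K F d om ^ 3 = 1 := by
    linear_combination (cw K F d om - 1) * cw_quad K F d om hom
  obtain ⟨k, hk⟩ := card_three_group (CM3 K F d ≃ₐ[F] CM3 K F d) (fun τ => by
    apply clo3_ext
    intro z hz
    change τ (τ (τ z)) = z
    rcases clo3_pm K F d om hom τ z hz with h | h | h
    · rw [h, h, h]
    · rw [h, map_mul, hw, h, map_mul, map_mul, hw, h]
      linear_combination z * h3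
    · rw [h, map_mul, map_pow, hw, h, map_mul, map_mul, map_pow, hw, h]
      linear_combination z * (cw K F d om ^ 3 + 1) * h3)
  rw [IsGalois.card_aut_eq_finrank] at hk
  exact ⟨n + k, by rw [← Module.finrank_mul_finrank K F (CM3 K F d), hn, hk, pow_add]⟩

include hom in
/-- ramification only at the primes modulo which `e` is not a square -/
theorem clo3_unr (e : 𝓞 K) (hu : UnrN K F e)
    (h4 : (algebraMap (𝓞 K) (𝓞 F) (1 - om)) ^ 3 ∣ d - 1)
    (hgood : ∀ v : HeightOneSpectrum (𝓞 F), d ∈ v.asIdeal →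
      ¬ ∃ x : 𝓞 K, algebraMap (𝓞 K) (𝓞 F) (x ^ 2 - e) ∈ v.asIdeal) : UnrN K (CM3 K F d) e := by
  intro v P hP hx0
  haveI := P.isPrime
  set v' : HeightOneSpectrum (𝓞 F) := ⟨P.asIdeal.under (𝓞 F), inferInstance,
    Ideal.under_ne_bot _ P.ne_bot⟩ with hv'
  have hPv' : P.asIdeal.LiesOver v'.asIdeal := ⟨rfl⟩
  have hv'v : v'.asIdeal.LiesOver v.asIdeal := Ideal.LiesOver.tower_bot P.asIdeal v'.asIdeal v.asIdeal
  have h1 : v'.asIdeal.ramificationIdx (𝓞 K) = 1 := hu v v' hv'v hx0
  have h2 : P.asIdeal.ramificationIdx (𝓞 F) = 1 := by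
    haveI := clo3_galois_F K F d
    refine NAB.ram_one_of_inertia F (CM3 K F d) v' P hPv' ?_
    intro τ hτ
    apply clo3_ext
    intro z hz
    by_contra hne
    have hcase := (clo3_pm K F d om hom τ z hz).resolve_left hne
    set W := cw K F d om with hW
    have hWq : W ^ 2 + W + 1 = 0 := cw_quad K F d om hom
    obtain ⟨σ, hσ⟩ := clo3_root K F d z hz
    set σ' : 𝓞 F ≃+* 𝓞 F := RingOfIntegers.mapRingEquiv (σ : F ≃+* F) with hσ'
    have hσd : ((σ' d : 𝓞 F) : F) = σ (d : F) := rfl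
    have hσK : ∀ x : 𝓞 K, σ' (algebraMap (𝓞 K) (𝓞 F) x) = algebraMap (𝓞 K) (𝓞 F) x := by
      intro x
      apply RingOfIntegers.ext
      exact σ.commutes (x : K)
    obtain ⟨c, hc⟩ := h4
    have hd' : σ' d = 1 + (algebraMap (𝓞 K) (𝓞 F) (1 - om)) ^ 3 * σ' c := by
      have h5 := congrArg σ' hc
      rw [map_sub, map_one, map_mul, map_pow, hσK] at h5
      linear_combination h5
    have hz3 : z ^ 3 = 1 + (1 - W) ^ 3 * algebraMap (𝓞 F) (CM3 K F d) (σ' c) := by
      rw [hσ, ← hσd, hd', IsScalarTower.algebraMap_apply (𝓞 F) F (CM3 K F d)]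
      simp only [map_add, map_mul, map_one, map_pow, map_sub]
      rfl
    have hW1 : (1 - W) ≠ 0 := by
      intro h0
      have h5 : W = 1 := (sub_eq_zero.1 h0).symm
      rw [h5] at hWq
      norm_num at hWq
    have hWi : IsIntegral ℤ W := by
      have : IsIntegral ℤ ((algebraMap (𝓞 F) (CM3 K F d)) (algebraMap (𝓞 K) (𝓞 F) om)) :=
        IsIntegral.algebraMap (RingOfIntegers.isIntegral _)
      exact this
    -- the integer `(z - 1) / λ`
    set c' : CM3 K F d := algebraMap (𝓞 F) (CM3 K F d) (σ' c) with hc'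
    have hc'i : IsIntegral ℤ c' := IsIntegral.algebraMap (RingOfIntegers.isIntegral _)
    have hx : IsIntegral ℤ ((z - 1) / (1 - W)) := by
      set o' : 𝓞 (CM3 K F d) := ⟨W, hWi⟩ with ho'
      set c'' : 𝓞 (CM3 K F d) := ⟨c', hc'i⟩ with hc''
      have hmon : IsIntegral (𝓞 (CM3 K F d)) ((z - 1) / (1 - W)) := by
        refine ⟨X ^ 3 + (C (-(o' ^ 2 * (1 - o'))) * X ^ 2 + (C (-o' ^ 2) * X - C c'')), ?_, ?_⟩
        · refine monic_X_pow_add ?_
          refine lt_of_le_of_lt (degree_add_le _ _) (max_lt ?_ ?_)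
          · exact lt_of_le_of_lt (degree_C_mul_X_pow_le 2 _) (by norm_num)
          · refine lt_of_le_of_lt (degree_sub_le _ _) (max_lt ?_ ?_)
            · exact lt_of_le_of_lt (degree_C_mul_X_le _) (by norm_num)
            · exact lt_of_le_of_lt degree_C_le (by norm_num)
        · have e1 : algebraMap (𝓞 (CM3 K F d)) (CM3 K F d) o' = W := rfl
          have e2 : algebraMap (𝓞 (CM3 K F d)) (CM3 K F d) c'' = c' := rfl
          simp only [eval₂_add, eval₂_sub, eval₂_mul, eval₂_pow, eval₂_X, eval₂_C]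
          simp only [map_neg, map_mul, map_pow, map_sub, map_one, e1, e2]
          obtain ⟨y0, hy0⟩ : ∃ y0 : CM3 K F d, y0 = (z - 1) / (1 - W) := ⟨_, rfl⟩
          have hz0 : z = 1 + (1 - W) * y0 := by
            rw [hy0, mul_div_cancel₀ _ hW1]
            ring
          rw [← hy0]
          rw [hz0] at hz3
          apply (mul_eq_zero.1 (_ : (1 - W) ^ 3 * _ = 0)).resolve_left (pow_ne_zero 3 hW1)
          linear_combination hz3 - ((1 - W) ^ 2 * y0 ^ 2 + (1 - W) * y0) * (W ^ 2 - 3 * W + 3) * hWq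
      exact isIntegral_trans (R := ℤ) (A := 𝓞 (CM3 K F d)) _ hmon
    have hz' : IsIntegral ℤ (τ ((z - 1) / (1 - W))) :=
      hx.map (τ : CM3 K F d →ₐ[F] CM3 K F d).toRingHom.toIntAlgHom
    have h6 := hτ ⟨(z - 1) / (1 - W), hx⟩ ⟨τ ((z - 1) / (1 - W)), hz'⟩ rfl
    set y : 𝓞 (CM3 K F d) := ⟨τ ((z - 1) / (1 - W)), hz'⟩ - ⟨(z - 1) / (1 - W), hx⟩ with hy
    have hτW : τ W = W := τ.commutes _
    have h8 : (y : CM3 K F d) = -z ∨ (y : CM3 K F d) = W ^ 2 * z := by
      rcases hcase with h | h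
      · refine Or.inl ?_
        change τ ((z - 1) / (1 - W)) - (z - 1) / (1 - W) = _
        rw [map_div₀, map_sub, map_sub, map_one, hτW, h, ← sub_div, div_eq_iff hW1]
        ring
      · refine Or.inr ?_
        change τ ((z - 1) / (1 - W)) - (z - 1) / (1 - W) = _
        rw [map_div₀, map_sub, map_sub, map_one, hτW, h, ← sub_div, div_eq_iff hW1]
        linear_combination z * (W - 1) * hWq
    have hW3 : W ^ 3 = 1 := by linear_combination (W - 1) * hWq
    have hz33 : z ^ 3 = ((algebraMap (𝓞 F) (𝓞 (CM3 K F d)) (σ' d) : 𝓞 (CM3 K F d)) :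
        CM3 K F d) := hσ
    have h9 : y ^ 3 = algebraMap (𝓞 F) (𝓞 (CM3 K F d)) (σ' d) ∨
        -y ^ 3 = algebraMap (𝓞 F) (𝓞 (CM3 K F d)) (σ' d) := by
      rcases h8 with h | h
      · refine Or.inr (RingOfIntegers.ext ?_)
        rw [← hz33]
        change -(y : CM3 K F d) ^ 3 = z ^ 3
        rw [h]
        ring
      · refine Or.inl (RingOfIntegers.ext ?_)
        rw [← hz33]
        change (y : CM3 K F d) ^ 3 = z ^ 3
        rw [h]
        linear_combination z ^ 3 * (W ^ 3 + 1) * hW3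
    have h99 : algebraMap (𝓞 F) (𝓞 (CM3 K F d)) (σ' d) ∈ P.asIdeal := by
      rcases h9 with h9 | h9
      · rw [← h9]
        exact Ideal.pow_mem_of_mem _ h6 3 (by norm_num)
      · rw [← h9]
        exact neg_mem (Ideal.pow_mem_of_mem _ h6 3 (by norm_num))
    have h10 : σ' d ∈ v'.asIdeal := h99
    -- transport by `σ`
    set u : HeightOneSpectrum (𝓞 F) := coPr (𝓞 F) σ' v' with hu'
    have hmem : ∀ x : 𝓞 F, x ∈ u.asIdeal ↔ σ' x ∈ v'.asIdeal := fun x => Iff.rfl
    apply hgood u ((hmem d).2 h10)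
    obtain ⟨x, hx⟩ := hx0
    refine ⟨x, ?_⟩
    rw [hmem, hσK]
    have h11 : x ^ 2 - e ∈ v'.asIdeal.under (𝓞 K) := by
      rw [← hv'v.over]
      exact hx
    exact h11
  rw [Ideal.ramificationIdx_tower (R := 𝓞 K) v'.asIdeal P.asIdeal, h1, h2]

end

/-- the condition on the ramification passes to subfields -/
theorem unrN_sub (K F M : Type) [Field K] [NumberField K] [Field F] [NumberField F] [Field M]
    [NumberField M] [Algebra K F] [Algebra F M] [Algebra K M] [IsScalarTower K F M] (e : 𝓞 K)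
    (hu : UnrN K M e) : UnrN K F e := by
  intro v P hP hx
  have := P.isMaximal
  obtain ⟨Q, hQm, hQ⟩ := Ideal.exists_maximal_ideal_liesOver_of_isIntegral
    (S := 𝓞 M) P.asIdeal
  have hQ0 : Q ≠ ⊥ := Ideal.ne_bot_of_liesOver_of_ne_bot P.ne_bot Q
  let W : HeightOneSpectrum (𝓞 M) := ⟨Q, hQm.isPrime, hQ0⟩
  have hWP : W.asIdeal.LiesOver P.asIdeal := hQ
  have hWv : W.asIdeal.LiesOver v.asIdeal := Ideal.LiesOver.trans W.asIdeal P.asIdeal v.asIdeal
  have h1 := hu v W hWv hx
  have h2 : P.asIdeal.ramificationIdx (𝓞 K) ∣ W.asIdeal.ramificationIdx (𝓞 K) :=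
    Ideal.ramificationIdx_below_dvd (R := 𝓞 K) P.asIdeal W.asIdeal
  rw [h1] at h2
  exact Nat.dvd_one.1 h2

/-- **The Galois closure of `F(∛d)`.** -/
theorem exists_closure3 (K F : Type) [Field K] [NumberField K] [Field F] [NumberField F]
    [Algebra K F] [IsGalois K F] (om : 𝓞 K) (hom : om ^ 2 + om + 1 = 0) (e : 𝓞 K) (n : ℕ)
    (hn : Module.finrank K F = 3 ^ n) (hu : UnrN K F e)
    (d : 𝓞 F) (h4 : (algebraMap (𝓞 K) (𝓞 F) (1 - om)) ^ 3 ∣ d - 1)
    (hgood : ∀ v : HeightOneSpectrum (𝓞 F), d ∈ v.asIdeal →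
      ¬ ∃ x : 𝓞 K, algebraMap (𝓞 K) (𝓞 F) (x ^ 2 - e) ∈ v.asIdeal) :
    ∃ (M : Type) (_ : Field M) (_ : NumberField M) (_ : Algebra F M) (_ : Algebra K M)
      (_ : IsScalarTower K F M) (_ : IsGalois K M) (m : ℕ), Module.finrank K M = 3 ^ m ∧
      UnrN K M e ∧ ∃ δ : M, δ ^ 3 = algebraMap F M (d : F) := by
  obtain ⟨m, hm⟩ := clo3_finrank K F d om hom n hn
  exact ⟨CM3 K F d, inferInstance, inferInstance, inferInstance, inferInstance, inferInstance,
    clo3_galois_K K F d, m, hm, clo3_unr K F d om hom e hu h4 hgood, clo3_cbrt K F d⟩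

end THG
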