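import Pool.Agent.MP_9ab903_nt.TH.G0
import Pool.Agent.MP_9ab903_nt.NGX.C
import Pool.Agent.MP_9ab903_nt.NAB.QR16

/-! ## [NG3-G] part 1: primes modulo which `ω - 4` is not a square -/

set_option autoImplicit false

open NumberField IsDedekindDomain Polynomial
open CM27 CMT CF NAB TH
open scoped Classical

namespace THG

theorem hom3 : (1 : ZMod 3) * 1 = -1 - 1 := by decide

theorem la_dvd_iff (a : Eis) : la ∣ a ↔ x4_hom 3 1 hom3 a = 0 := by
  constructor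
  · rintro ⟨c, rfl⟩
    rw [map_mul]
    have h1 : x4_hom 3 1 hom3 la = 0 := by
      rw [x4_hom_apply]
      decide
    rw [h1, zero_mul]
  · intro h
    rw [x4_hom_apply, mul_one, ← Int.cast_add, ZMod.intCast_zmod_eq_zero_iff_dvd] at h
    obtain ⟨k, hk⟩ := h
    push_cast at hk
    refine ⟨⟨a.re - k, k⟩, ?_⟩
    rw [la]
    ext
    · simp
    · simp
      omega

theorem la_prime : Prime la := by
  haveI : Fact (Nat.Prime 3) := ⟨Nat.prime_three⟩
  refine ⟨by decide, ?_, ?_⟩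
  · intro h
    have h1 : la ∣ 1 := h.dvd
    rw [la_dvd_iff, map_one] at h1
    exact one_ne_zero h1
  · intro a b h
    rw [la_dvd_iff, map_mul, mul_eq_zero] at h
    rcases h with h | h
    · exact Or.inl ((la_dvd_iff a).2 h)
    · exact Or.inr ((la_dvd_iff b).2 h)

theorem not_la_dvd (y : Eis) : ¬ la ∣ y * y + 1 := by
  rw [la_dvd_iff, map_add, map_mul, map_one]
  generalize x4_hom 3 1 hom3 y = t
  revert t
  decide

theorem dK_eq (φ : Eis ≃+* 𝓞 KK) (hφ : ∀ a, (((φ a : 𝓞 KK) : KK) : ℂ) = emb a) : dK = φ dd := by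
  apply RingOfIntegers.ext
  apply Subtype.ext
  rw [hφ, dK, eF_apply]

/-- the quadratic symbol `(-1 / λ)` -/
theorem Xg_la (φ : Eis ≃+* 𝓞 KK) : Xg (-1 : 𝓞 KK) (φ la) = -1 := by
  have hpr : Prime (φ la) := (MulEquiv.prime_iff φ.toMulEquiv).2 la_prime
  set v : HeightOneSpectrum (𝓞 KK) := ⟨Ideal.span {φ la},
    (Ideal.span_singleton_prime hpr.ne_zero).2 hpr, by
      rw [Ne, Ideal.span_singleton_eq_bot]
      exact hpr.ne_zero⟩ with hv
  have hmem : ∀ x : Eis, φ x ∈ v.asIdeal ↔ la ∣ x := by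
    intro x
    rw [hv, Ideal.mem_span_singleton]
    exact map_dvd_iff φ.toMulEquiv
  have h1 : Xg (-1 : 𝓞 KK) (φ la) = symb ((-1 : 𝓞 KK) : KK) v := cm_prime _ v
  have h2 : (2 : 𝓞 KK) ∉ v.asIdeal := by
    have h3 := hmem 2
    rw [map_ofNat] at h3
    rw [h3, la_dvd_iff, map_ofNat]
    decide
  have h3 : (-1 : 𝓞 KK) ∉ v.asIdeal := by
    intro h4
    exact v.isPrime.ne_top ((Ideal.eq_top_iff_one _).2 (by simpa using neg_mem h4))
  rw [h1, symb_odd _ v h2 h3, if_neg]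
  rintro ⟨y, hy⟩
  obtain ⟨y, rfl⟩ := Ideal.Quotient.mk_surjective y
  rw [← map_mul, Ideal.Quotient.eq] at hy
  obtain ⟨z, rfl⟩ := φ.surjective y
  apply not_la_dvd z
  rw [← hmem]
  have h5 := neg_mem hy
  have h6 : -(-1 - φ z * φ z) = φ (z * z + 1) := by
    rw [map_add, map_mul, map_one]
    ring
  rwa [h6] at h5

/-- `a ≡ x ^ N` modulo `42 P` with `N` odd and `x = 1 + 28 P²`: a prime modulo which `ω - 4` is not
a square divides `a`. -/
theorem nonsq_dvd (P : ℕ) (hP : Nat.Coprime P 42) (N : ℕ) (hN : Odd N) (a : 𝓞 KK)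
    (ha : ((42 * P : ℕ) : 𝓞 KK) ∣ a - ((1 + 28 * P ^ 2 : ℕ) : 𝓞 KK) ^ N) :
    ∃ v : HeightOneSpectrum (𝓞 KK), a ∈ v.asIdeal ∧ (¬ ∃ y : 𝓞 KK, y ^ 2 - dK ∈ v.asIdeal) ∧
      ((42 * P : ℕ) : 𝓞 KK) ∉ v.asIdeal := by
  obtain ⟨φ, hφ⟩ := exists_KK
  have hdK := dK_eq φ hφ
  obtain ⟨x, hx⟩ : ∃ x : ℕ, x = 1 + 28 * P ^ 2 := ⟨_, rfl⟩
  rw [← hx] at ha
  have hP3 : ¬ 3 ∣ P := fun h => by
    have := Nat.dvd_gcd h (show 3 ∣ 42 by norm_num)
    rw [hP] at this
    omega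
  -- congruences
  have c1 : ∀ m : ℕ, m ∣ 42 → (m : 𝓞 KK) ∣ a - (x : 𝓞 KK) ^ N := fun m hm =>
    (Nat.cast_dvd_cast (α := 𝓞 KK) (hm.trans (dvd_mul_right 42 P))).trans ha
  have c2 : ∀ m : ℕ, m ∣ 14 → (m : 𝓞 KK) ∣ a - 1 := by
    intro m hm
    have h1 : (m : 𝓞 KK) ∣ (x : 𝓞 KK) ^ N - 1 := by
      have h2 : ((x : 𝓞 KK) - 1) ∣ (x : 𝓞 KK) ^ N - 1 := by
        simpa using sub_dvd_pow_sub_pow (x : 𝓞 KK) 1 N
      refine dvd_trans ?_ h2
      have h3 : (x : 𝓞 KK) - 1 = ((28 * P ^ 2 : ℕ) : 𝓞 KK) := by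
        rw [hx]
        push_cast
        ring
      rw [h3]
      exact Nat.cast_dvd_cast ((hm.trans (by norm_num : 14 ∣ 28)).trans (dvd_mul_right 28 _))
    have h4 : a - 1 = (a - (x : 𝓞 KK) ^ N) + ((x : 𝓞 KK) ^ N - 1) := by ring
    rw [h4]
    exact dvd_add (c1 m (hm.trans (by norm_num))) h1
  have c3 : (3 : 𝓞 KK) ∣ a - (-1) := by
    have h1 : (3 : 𝓞 KK) ∣ (x : 𝓞 KK) ^ N + 1 := by
      have h2 : ((x : 𝓞 KK) + 1) ∣ (x : 𝓞 KK) ^ N + 1 := by
        simpa using hN.add_dvd_pow_add_pow (x : 𝓞 KK) 1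
      refine dvd_trans ?_ h2
      have h3 : (x : 𝓞 KK) + 1 = ((2 + 28 * P ^ 2 : ℕ) : 𝓞 KK) := by
        rw [hx]
        push_cast
        ring
      rw [h3]
      have h5 : 3 ∣ 2 + 28 * P ^ 2 := by
        rcases (show P % 3 = 1 ∨ P % 3 = 2 by omega) with h | h <;>
          simp [Nat.dvd_iff_mod_eq_zero, Nat.add_mod, Nat.mul_mod, Nat.pow_mod, h]
      exact_mod_cast Nat.cast_dvd_cast (α := 𝓞 KK) h5
    have h4 : a - (-1) = (a - (x : 𝓞 KK) ^ N) + ((x : 𝓞 KK) ^ N + 1) := by ring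
    rw [h4]
    exact dvd_add (by exact_mod_cast c1 3 (by norm_num)) h1
  -- coprimality
  have hxc : Nat.Coprime x (42 * P) := by
    have e : 42 * P = 3 * (14 * P) := by ring
    rw [e]
    refine Nat.Coprime.mul_right ?_ ?_
    · refine Nat.Coprime.symm ((Nat.Prime.coprime_iff_not_dvd Nat.prime_three).2 ?_)
      rw [hx]
      rcases (show P % 3 = 1 ∨ P % 3 = 2 by omega) with h | h <;>
        simp [Nat.dvd_iff_mod_eq_zero, Nat.add_mod, Nat.mul_mod, Nat.pow_mod, h]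
    · have e2 : x = 1 + (14 * P) * (2 * P) := by
        rw [hx]
        ring
      rw [e2, Nat.coprime_add_mul_left_left]
      exact Nat.coprime_one_left _
  have hcopa : ∀ v : HeightOneSpectrum (𝓞 KK), a ∈ v.asIdeal →
      ((42 * P : ℕ) : 𝓞 KK) ∉ v.asIdeal := by
    intro v hav h42
    obtain ⟨c, hc⟩ := ha
    have h1 : (x : 𝓞 KK) ^ N ∈ v.asIdeal := by
      have h2 : (x : 𝓞 KK) ^ N = a - ((42 * P : ℕ) : 𝓞 KK) * c := by
        rw [← hc]
        ring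
      rw [h2]
      exact sub_mem hav (Ideal.mul_mem_right _ _ h42)
    have h3 := v.isPrime.mem_of_pow_mem N h1
    obtain ⟨u, t, hut⟩ := (Nat.isCoprime_iff_coprime.2 hxc : IsCoprime (x : ℤ) ((42 * P : ℕ) : ℤ))
    apply v.isPrime.ne_top
    rw [Ideal.eq_top_iff_one]
    have h5 : ((u : 𝓞 KK)) * x + t * ((42 * P : ℕ) : 𝓞 KK) = 1 := by
      exact_mod_cast congrArg (Int.cast : ℤ → 𝓞 KK) hut
    rw [← h5]
    exact add_mem (Ideal.mul_mem_left _ _ h3) (Ideal.mul_mem_left _ _ h42)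
  have hm42 : ∀ (v : HeightOneSpectrum (𝓞 KK)) (m : ℕ), m ∣ 42 → (m : 𝓞 KK) ∈ v.asIdeal →
      ((42 * P : ℕ) : 𝓞 KK) ∈ v.asIdeal := fun v m hm h =>
    Ideal.mem_of_dvd _ (Nat.cast_dvd_cast (α := 𝓞 KK) (hm.trans (dvd_mul_right 42 P))) h
  have ha2 : Cop a 2 := fun v hav h2 => hcopa v hav (hm42 v 2 (by norm_num) (by exact_mod_cast h2))
  have ha0 : a ≠ 0 := ne_zero_of_cop_two ha2
  -- the element `D`
  set D : 𝓞 KK := φ om ^ 2 * dK with hD
  have hDe : D = φ ⟨5, 4⟩ := by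
    rw [hD, hdK, ← map_pow, ← map_mul]
    congr 1
  have hD21 : D * φ ⟨1, -4⟩ = 21 := by
    rw [hDe, ← map_mul]
    have e : (⟨5, 4⟩ : Eis) * ⟨1, -4⟩ = 21 := by decide
    rw [e, map_ofNat]
  have hD0 : D ≠ 0 := by
    intro h
    rw [h, zero_mul] at hD21
    norm_num at hD21
  have hDa : Cop D a := by
    intro v hDv hav
    apply hcopa v hav
    refine hm42 v 21 (by norm_num) ?_
    have := Ideal.mul_mem_right (φ ⟨1, -4⟩) _ hDv
    rw [hD21] at this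
    exact_mod_cast this
  have hDadm : Adm D := by
    apply adm_of_four
    refine ⟨φ ⟨1, 1⟩, ?_⟩
    rw [hDe]
    have e : (⟨5, 4⟩ : Eis) = 1 + 4 * ⟨1, 1⟩ := by decide
    rw [e, map_add, map_one, map_mul, map_ofNat]
    ring
  have hrec : Xg D a = Xg a D := RA_KK D a hD0 ha0 hDa hDadm (Or.inl trivial)
  have hXaD : Xg a D = -1 := by
    have e1 : D = φ (-om ^ 2) * (φ la * φ p7) := by
      rw [hDe, ← map_mul, ← map_mul]
      congr 1
    have hu : IsUnit (φ (-om ^ 2)) := by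
      refine IsUnit.of_mul_eq_one (φ (-om)) ?_
      rw [← map_mul]
      have e : (-om ^ 2) * (-om) = 1 := by decide
      rw [e, map_one]
    have hcl : ∀ v : HeightOneSpectrum (𝓞 KK), φ la ∈ v.asIdeal → ((3 : ℕ) : 𝓞 KK) ∈ v.asIdeal := by
      intro v hv
      have e : (3 : Eis) = la * (-om ^ 2 * la) := by decide
      have h1 : ((3 : ℕ) : 𝓞 KK) = φ la * φ (-om ^ 2 * la) := by
        rw [← map_mul, ← e, map_ofNat]
        rfl
      rw [h1]
      exact Ideal.mul_mem_right _ _ hv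
    have hcp : ∀ v : HeightOneSpectrum (𝓞 KK), φ p7 ∈ v.asIdeal → ((7 : ℕ) : 𝓞 KK) ∈ v.asIdeal := by
      intro v hv
      have e : (7 : Eis) = p7 * ⟨2, -1⟩ := by decide
      have h1 : ((7 : ℕ) : 𝓞 KK) = φ p7 * φ ⟨2, -1⟩ := by
        rw [← map_mul, ← e, map_ofNat]
        rfl
      rw [h1]
      exact Ideal.mul_mem_right _ _ hv
    have n2 : ∀ (v : HeightOneSpectrum (𝓞 KK)) (m : ℕ), Nat.Coprime m 2 → (m : 𝓞 KK) ∈ v.asIdeal →
        (2 : 𝓞 KK) ∉ v.asIdeal := by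
      intro v m hm h h2
      obtain ⟨u, t, hut⟩ := (Nat.isCoprime_iff_coprime.2 hm : IsCoprime (m : ℤ) ((2 : ℕ) : ℤ))
      apply v.isPrime.ne_top
      rw [Ideal.eq_top_iff_one]
      have h5 : ((u : 𝓞 KK)) * m + t * 2 = 1 := by
        exact_mod_cast congrArg (Int.cast : ℤ → 𝓞 KK) hut
      rw [← h5]
      exact add_mem (Ideal.mul_mem_left _ _ h) (Ideal.mul_mem_left _ _ h2)
    rw [e1, Xg_mul_right, Xg_mul_right, Xg_unit _ _ hu, one_mul]
    have h3 : Xg a (φ la) = Xg (-1) (φ la) := by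
      refine Xg_congr_left a (-1) (φ la) ?_ ?_ ?_
      · intro v hav hv
        exact hcopa v hav (hm42 v 3 (by norm_num) (hcl v hv))
      · intro v hv
        exact n2 v 3 (by norm_num) (hcl v hv)
      · refine dvd_trans ?_ c3
        have e : (3 : Eis) = la * (-om ^ 2 * la) := by decide
        refine ⟨φ (-om ^ 2 * la), ?_⟩
        rw [← map_mul, ← e, map_ofNat]
    have h7 : Xg a (φ p7) = Xg (1 ^ 2) (φ p7) := by
      refine Xg_congr_left a (1 ^ 2) (φ p7) ?_ ?_ ?_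
      · intro v hav hv
        exact hcopa v hav (hm42 v 7 (by norm_num) (hcp v hv))
      · intro v hv
        exact n2 v 7 (by norm_num) (hcp v hv)
      · rw [one_pow]
        refine dvd_trans ?_ (c2 7 (by norm_num))
        have e : (7 : Eis) = p7 * ⟨2, -1⟩ := by decide
        refine ⟨φ ⟨2, -1⟩, ?_⟩
        rw [← map_mul, ← e, map_ofNat]
        rfl
    have hp70 : φ p7 ≠ 0 := by
      rw [Ne, map_eq_zero_iff φ φ.injective]
      decide
    rw [h3, h7, Xg_la φ, Xg_square 1 _ one_ne_zero hp70, mul_one]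
  by_contra hcon
  push Not at hcon
  have hone : Xg D a = 1 := by
    refine Xg_eq_one D a ha0 fun v hav => ?_
    have h1 : ∃ y : 𝓞 KK, y ^ 2 - dK ∈ v.asIdeal := by
      by_contra h
      push Not at h
      exact hcopa v hav (hcon v hav h)
    obtain ⟨y, hy⟩ := h1
    rw [symb_odd D v (ha2 v hav) (hDa.symm v hav), if_pos]
    refine ⟨Ideal.Quotient.mk _ (φ om * y), ?_⟩
    rw [← map_mul, Ideal.Quotient.eq]
    have h2 : D - φ om * y * (φ om * y) = -(φ om ^ 2 * (y ^ 2 - dK)) := by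
      rw [hD]
      ring
    rw [h2]
    exact neg_mem (Ideal.mul_mem_left _ _ hy)
  rw [hrec, hXaD] at hone
  norm_num at hone

end THG
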