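import Pool.Agent.MP_9ab903_nt.TH.G1

/-! ## [NG3-G] part 2: primes with trivial decomposition group modulo which `ω - 4` is not a square -/

set_option autoImplicit false

open NumberField IsDedekindDomain Polynomial
open CM27 CMT CF NAB NGX TH
open scoped Classical

namespace THG

section
variable (F : Type) [Field F] [NumberField F] [Algebra KK F]

/-- the prime `P` of `F` above `p` has trivial decomposition group, and `ω - 4` is not a square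
modulo `P ∩ K` -/
def Sq3 (p : ℕ) (P : HeightOneSpectrum (𝓞 F)) : Prop :=
  p.Prime ∧ (p : 𝓞 F) ∈ P.asIdeal ∧
    (¬ ∃ x : 𝓞 KK, algebraMap (𝓞 KK) (𝓞 F) (x ^ 2 - dK) ∈ P.asIdeal) ∧
    ∀ τ : F ≃ₐ[KK] F, (∀ x ∈ P.asIdeal, act KK F τ x ∈ P.asIdeal) → τ = 1

/-- Such primes exist. -/
theorem split_prime3 [IsGalois KK F] (n : ℕ)
    (hn : Module.finrank KK F = 3 ^ n) (N : ℕ) (hN : N ≠ 0) :
    ∃ (p : ℕ) (P : HeightOneSpectrum (𝓞 F)), Sq3 F p P ∧ ¬ p ∣ N := by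
  haveI : FiniteDimensional KK F := Module.Finite.of_restrictScalars_finite ℚ KK F
  obtain ⟨θ, hθ⟩ := exists_prim KK F
  -- the discriminant
  set E : 𝓞 F := ∏ σ : F ≃ₐ[KK] F, ∏ τ ∈ Finset.univ.erase (1 : F ≃ₐ[KK] F),
    (act KK F σ θ - act KK F (τ * σ) θ) with hE
  have hE0 : E ≠ 0 := by
    rw [hE, Finset.prod_ne_zero_iff]
    intro σ _
    rw [Finset.prod_ne_zero_iff]
    intro τ hτ h
    have h1 : act KK F τ (act KK F σ θ) = act KK F σ θ := by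
      rw [← act_mul]
      exact (sub_eq_zero.1 h).symm
    have h2 : act KK F (σ⁻¹ * τ * σ) θ = θ := by
      rw [mul_assoc, act_mul, act_mul, h1, ← act_mul, inv_mul_cancel, act_one]
    have h3 := hθ _ h2
    have h4 : τ = 1 := by
      have h5 : σ * (σ⁻¹ * τ * σ) * σ⁻¹ = 1 := by rw [h3, mul_one, mul_inv_cancel]
      rw [← h5]
      group
    exact (Finset.mem_erase.1 hτ).1 h4
  set M1 : ℕ := Ideal.absNorm (Ideal.span {E}) with hM1
  have hM10 : M1 ≠ 0 := by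
    rw [hM1, Ne, Ideal.absNorm_eq_zero_iff, Ideal.span_singleton_eq_bot]
    exact hE0
  have hM1E : E ∣ (M1 : 𝓞 F) := by
    rw [← Ideal.mem_span_singleton]
    exact Ideal.absNorm_mem _
  -- the part prime to `42`
  obtain ⟨P, hP42, hPdvd⟩ : ∃ P : ℕ, Nat.Coprime P 42 ∧
      ∀ p : ℕ, p.Prime → p ∣ N * M1 → p ∣ 42 * P := by
    refine ⟨∏ p ∈ (N * M1).primeFactors.filter (fun p => ¬ p ∣ 42), p, ?_, ?_⟩
    · apply Nat.Coprime.prod_left
      intro p hp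
      rw [Finset.mem_filter] at hp
      exact (Nat.Prime.coprime_iff_not_dvd (Nat.prime_of_mem_primeFactors hp.1)).2 hp.2
    · intro p hp hpd
      by_cases h : p ∣ 42
      · exact h.mul_right _
      · refine Dvd.dvd.mul_left ?_ _
        apply Finset.dvd_prod_of_mem (fun p => p)
        rw [Finset.mem_filter, Nat.mem_primeFactors]
        exact ⟨⟨hp, hpd, mul_ne_zero hN hM10⟩, h⟩
  have hP0' : P ≠ 0 := by
    rintro rfl
    rw [Nat.coprime_zero_left] at hP42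
    omega
  set x : ℕ := 1 + 28 * P ^ 2 with hx
  set y : 𝓞 F := ((42 * P : ℕ) : 𝓞 F) with hy
  set α : 𝓞 F := (x : 𝓞 F) - y * θ with hα
  set a' : 𝓞 KK := RingOfIntegers.norm KK α with ha'
  have hprod : algebraMap (𝓞 KK) (𝓞 F) a' =
      ∏ σ : F ≃ₐ[KK] F, ((x : 𝓞 F) - y * act KK F σ θ) := by
    apply RingOfIntegers.ext
    rw [RingOfIntegers.coe_algebraMap_norm, Algebra.norm_eq_prod_automorphisms]
    have h0 : ((∏ σ : F ≃ₐ[KK] F, ((x : 𝓞 F) - y * act KK F σ θ) : 𝓞 F) : F) =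
        ∏ σ : F ≃ₐ[KK] F, (((x : 𝓞 F) - y * act KK F σ θ : 𝓞 F) : F) :=
      map_prod (algebraMap (𝓞 F) F) _ _
    refine Eq.trans ?_ h0.symm
    refine Finset.prod_congr rfl (fun σ _ => ?_)
    have h1 : act KK F σ α = (x : 𝓞 F) - y * act KK F σ θ := by
      rw [hα, map_sub, map_mul, hy, map_natCast, map_natCast]
    rw [← h1]
    rfl
  have hcard : (Finset.univ : Finset (F ≃ₐ[KK] F)).card = 3 ^ n := by
    rw [Finset.card_univ, ← Nat.card_eq_fintype_card, IsGalois.card_aut_eq_finrank, hn]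
  have hdvdF : y ∣ algebraMap (𝓞 KK) (𝓞 F) (a' - (x : 𝓞 KK) ^ 3 ^ n) := by
    rw [map_sub, hprod, map_pow, map_natCast, ← hcard]
    exact prod_dvd _ _ _ _
  have hdvdK : ((42 * P : ℕ) : 𝓞 KK) ∣ a' - (x : 𝓞 KK) ^ 3 ^ n := by
    obtain ⟨c, hc⟩ := hdvdF
    have hP0 : ((42 * P : ℕ) : KK) ≠ 0 := by
      rw [Nat.cast_ne_zero]
      omega
    have h1 : algebraMap KK F (((a' - (x : 𝓞 KK) ^ 3 ^ n : 𝓞 KK) : KK) / ((42 * P : ℕ) : KK)) =
        (c : F) := by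
      rw [map_div₀, map_natCast]
      have h2 : algebraMap KK F ((a' - (x : 𝓞 KK) ^ 3 ^ n : 𝓞 KK) : KK) =
          ((42 * P : ℕ) : F) * (c : F) := by
        have := congrArg (fun t : 𝓞 F => (t : F)) hc
        simp only [map_mul] at this
        rw [hy] at this
        push_cast at this ⊢
        exact this
      rw [h2]
      have hP0' : ((42 * P : ℕ) : F) ≠ 0 := by
        rw [Nat.cast_ne_zero]
        omega
      field_simp
    have h3 : IsIntegral ℤ (((a' - (x : 𝓞 KK) ^ 3 ^ n : 𝓞 KK) : KK) / ((42 * P : ℕ) : KK)) := by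
      rw [← isIntegral_algebraMap_iff (algebraMap KK F).injective, h1]
      exact c.isIntegral_coe
    refine ⟨⟨_, h3⟩, ?_⟩
    apply RingOfIntegers.ext
    change _ = ((42 * P : ℕ) : KK) * (((a' - (x : 𝓞 KK) ^ 3 ^ n : 𝓞 KK) : KK) / ((42 * P : ℕ) : KK))
    field_simp
  obtain ⟨v, hva, hvns, hv42⟩ := nonsq_dvd P hP42 (3 ^ n) (Odd.pow (by decide)) a' hdvdK
  haveI hvp := v.isPrime
  haveI hvm := v.isMaximal
  obtain ⟨Q, hQm, hQ⟩ := Ideal.exists_maximal_ideal_liesOver_of_isIntegral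
    (S := 𝓞 F) v.asIdeal
  have hmem : ∀ b : 𝓞 KK, algebraMap (𝓞 KK) (𝓞 F) b ∈ Q ↔ b ∈ v.asIdeal := by
    intro b
    rw [hQ.over]
    rfl
  have hQ0 : Q ≠ ⊥ := by
    intro h
    obtain ⟨b, hb, hb0⟩ := Submodule.exists_mem_ne_zero_of_ne_bot v.ne_bot
    have h1 := (hmem b).2 hb
    rw [h, Ideal.mem_bot, map_eq_zero_iff _ (FaithfulSMul.algebraMap_injective (𝓞 KK) (𝓞 F))] at h1
    exact hb0 h1
  -- the residue characteristic
  obtain ⟨p, hp, hpQ⟩ : ∃ p : ℕ, p.Prime ∧ (p : 𝓞 F) ∈ Q := by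
    have h1 : ((Ideal.absNorm Q : ℕ) : 𝓞 F) ∈ Q := Ideal.absNorm_mem Q
    have h2 : Ideal.absNorm Q ≠ 1 := by
      rw [Ne, Ideal.absNorm_eq_one_iff]
      exact hQm.ne_top
    have h4 : Ideal.absNorm Q ≠ 0 := by
      rw [Ne, Ideal.absNorm_eq_zero_iff]
      exact hQ0
    by_contra hcon
    push Not at hcon
    have h3 : ∀ m : ℕ, m ≠ 0 → (m : 𝓞 F) ∈ Q → False := by
      intro m
      induction m using Nat.recOnMul with
      | zero => exact fun h _ => h rfl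
      | one =>
        intro _ h
        rw [Nat.cast_one] at h
        exact hQm.ne_top ((Ideal.eq_top_iff_one Q).2 h)
      | prime q hq => exact fun _ h => hcon q hq h
      | mul a b ha hb =>
        intro hab h
        rw [Nat.cast_mul] at h
        rcases hQm.isPrime.mem_or_mem h with h | h
        · exact ha (left_ne_zero_of_mul hab) h
        · exact hb (right_ne_zero_of_mul hab) h
    exact h3 _ h4 h1
  have hyQ : y ∉ Q := by
    intro h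
    apply hv42
    rw [← hmem, map_natCast]
    exact h
  have hNM : ¬ p ∣ N * M1 := by
    intro h
    obtain ⟨c, hc⟩ := hPdvd p hp h
    apply hyQ
    rw [hy, hc, Nat.cast_mul]
    exact Ideal.mul_mem_right _ _ hpQ
  refine ⟨p, ⟨Q, hQm.isPrime, hQ0⟩, ⟨hp, hpQ, ?_, ?_⟩, fun h => hNM (h.mul_right _)⟩
  · rintro ⟨t, ht⟩
    exact hvns ⟨t, (hmem _).1 ht⟩
  intro τ hτ
  by_contra hτ1
  have h1 : algebraMap (𝓞 KK) (𝓞 F) a' ∈ Q := (hmem a').2 hva
  rw [hprod] at h1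
  have h2 := (Ideal.IsPrime.prod_mem_iff (hp := hQm.isPrime)).1 h1
  obtain ⟨σ, -, hσ⟩ := h2
  have h3 : (x : 𝓞 F) - y * act KK F (τ * σ) θ ∈ Q := by
    have h4 := hτ _ hσ
    rw [map_sub, map_mul, hy, map_natCast, map_natCast, ← act_mul] at h4
    exact h4
  have h4 : y * (act KK F σ θ - act KK F (τ * σ) θ) ∈ Q := by
    have h5 := Q.sub_mem h3 hσ
    have h7 : ((x : 𝓞 F) - y * act KK F (τ * σ) θ) - ((x : 𝓞 F) - y * act KK F σ θ) =
        y * (act KK F σ θ - act KK F (τ * σ) θ) := by ring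
    rw [← h7]
    exact h5
  have h5 := (hQm.isPrime.mem_or_mem h4).resolve_left hyQ
  have h6 : E ∈ Q := by
    rw [hE]
    refine Ideal.mem_of_dvd Q (Finset.dvd_prod_of_mem _ (Finset.mem_univ σ)) ?_
    exact Ideal.mem_of_dvd Q (Finset.dvd_prod_of_mem _
      (Finset.mem_erase.2 ⟨hτ1, Finset.mem_univ τ⟩)) h5
  have h7 : (M1 : 𝓞 F) ∈ Q := Ideal.mem_of_dvd Q hM1E h6
  -- `p ∣ M1`
  have h8 : ¬ p ∣ M1 := fun h => hNM (h.mul_left _)
  have h9 : IsCoprime ((M1 : ℕ) : ℤ) ((p : ℕ) : ℤ) := by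
    rw [Nat.isCoprime_iff_coprime]
    exact ((Nat.Prime.coprime_iff_not_dvd hp).2 h8).symm
  obtain ⟨u, v', huv⟩ := h9
  have h10 : (1 : 𝓞 F) ∈ Q := by
    have h3 : (1 : 𝓞 F) = (u : 𝓞 F) * (M1 : 𝓞 F) + (v' : 𝓞 F) * (p : 𝓞 F) := by
      exact_mod_cast congrArg (fun t : ℤ => (t : 𝓞 F)) huv.symm
    rw [h3]
    exact Q.add_mem (Q.mul_mem_left _ h7) (Q.mul_mem_left _ hpQ)
  exact hQm.ne_top ((Ideal.eq_top_iff_one Q).2 h10)

variable {F} in
theorem Sq3.ne {p q : ℕ} {P Q : HeightOneSpectrum (𝓞 F)} (hp : Sq3 F p P) (hq : Sq3 F q Q)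
    (hne : p ≠ q) : ¬ P.asIdeal ≤ Q.asIdeal := fun h =>
  hne (two_primes F Q p q hp.1 hq.1 (h hp.2.1) hq.2.1)

variable {F} in
theorem Sq3.not_la {p : ℕ} {P : HeightOneSpectrum (𝓞 F)} (hp : Sq3 F p P) (φ : Eis ≃+* 𝓞 KK)
    (hφ : ∀ a, (((φ a : 𝓞 KK) : KK) : ℂ) = emb a) :
    algebraMap (𝓞 KK) (𝓞 F) (φ la) ∉ P.asIdeal := by
  intro h2
  apply hp.2.2.1
  refine ⟨0, ?_⟩
  have e : (0 : 𝓞 KK) ^ 2 - dK = φ la * φ p7 := by
    rw [dK_eq φ hφ, ← map_mul]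
    have e1 : la * p7 = -dd := by decide
    rw [e1, map_neg]
    ring
  rw [e, map_mul]
  exact Ideal.mul_mem_right _ _ h2

theorem exists_triple [IsGalois KK F] (n : ℕ) (hn : Module.finrank KK F = 3 ^ n)
    (m : 𝓞 F) (hm : m ≠ 0) :
    ∃ (p₀ p₁ p₂ : ℕ) (P₀ P₁ P₂ : HeightOneSpectrum (𝓞 F)) (h : ℕ) (β₁ β₂ : 𝓞 F),
      Sq3 F p₀ P₀ ∧ Sq3 F p₁ P₁ ∧ Sq3 F p₂ P₂ ∧ p₁ ≠ p₀ ∧ p₁ ≠ p₂ ∧
      Ideal.span {β₁} = P₁.asIdeal * P₀.asIdeal ^ h ∧
      Ideal.span {β₂} = P₂.asIdeal * P₀.asIdeal ^ h ∧ m ∣ β₁ - β₂ := by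
  -- the infinite set of good primes
  set T : Set ℕ := {p | ∃ P, Sq3 F p P} with hT
  have hTinf : T.Infinite := by
    intro hfin
    obtain ⟨p, P, hP, hpN⟩ := split_prime3 F n hn
      (∏ q ∈ hfin.toFinset, (q + if q = 0 then 1 else 0)) (by
      rw [Finset.prod_ne_zero_iff]
      intro q _
      split_ifs with h
      · omega
      · omega)
    apply hpN
    have h1 : p ∈ hfin.toFinset := by
      rw [Set.Finite.mem_toFinset]
      exact ⟨P, hP⟩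
    have h2 := Finset.dvd_prod_of_mem (fun q => q + if q = 0 then 1 else 0) h1
    have h3 : (p + if p = 0 then 1 else 0) = p := by
      rw [if_neg hP.1.ne_zero, add_zero]
    simp only [h3] at h2
    exact h2
  haveI : Infinite T := hTinf.to_subtype
  choose Pf hPf using fun t : T => t.2
  -- the ideal classes
  have hmem : ∀ P : HeightOneSpectrum (𝓞 F), P.asIdeal ∈ nonZeroDivisors (Ideal (𝓞 F)) :=
    fun P => mem_nonZeroDivisors_of_ne_zero P.ne_bot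
  obtain ⟨y, hy⟩ := Finite.exists_infinite_fiber
    (fun t : T => ClassGroup.mk0 (⟨(Pf t).asIdeal, hmem _⟩ : nonZeroDivisors (Ideal (𝓞 F))))
  obtain ⟨t₀⟩ : Nonempty ((fun t : T => ClassGroup.mk0
    (⟨(Pf t).asIdeal, hmem _⟩ : nonZeroDivisors (Ideal (𝓞 F)))) ⁻¹' {y}) := inferInstance
  set h : ℕ := Fintype.card (ClassGroup (𝓞 F)) - 1 with hh
  have hprinc : ∀ t : T, ClassGroup.mk0 (⟨(Pf t).asIdeal, hmem _⟩ :
      nonZeroDivisors (Ideal (𝓞 F))) = y →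
      ∃ β : 𝓞 F, Ideal.span {β} = (Pf t).asIdeal * (Pf t₀).asIdeal ^ h := by
    intro t ht
    have h1 : ClassGroup.mk0 ((⟨(Pf t).asIdeal, hmem _⟩ : nonZeroDivisors (Ideal (𝓞 F))) *
        ⟨(Pf t₀).asIdeal, hmem _⟩ ^ h) = 1 := by
      rw [map_mul, map_pow, ht]
      have h2 : ClassGroup.mk0 (⟨(Pf t₀).asIdeal, hmem _⟩ :
        nonZeroDivisors (Ideal (𝓞 F))) = y := t₀.2
      rw [h2, ← pow_succ', hh, Nat.sub_add_cancel Fintype.card_pos, pow_card_eq_one]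
    rw [ClassGroup.mk0_eq_one_iff] at h1
    obtain ⟨β, hβ⟩ := h1
    exact ⟨β, hβ.symm⟩
  -- the fibre without `t₀`
  set U : Set ((fun t : T => ClassGroup.mk0
    (⟨(Pf t).asIdeal, hmem _⟩ : nonZeroDivisors (Ideal (𝓞 F)))) ⁻¹' {y}) := {t₀}ᶜ with hU
  have hUinf : U.Infinite := (Set.finite_singleton t₀).infinite_compl
  haveI : Infinite U := hUinf.to_subtype
  choose β hβ using fun u : U => hprinc u.1.1 u.1.2
  haveI : Finite (𝓞 F ⧸ Ideal.span {m}) :=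
    Ideal.finiteQuotientOfFreeOfNeBot _ (by
      rw [Ne, Ideal.span_singleton_eq_bot]
      exact hm)
  obtain ⟨u₁, u₂, hne, heq⟩ := Finite.exists_ne_map_eq_of_infinite
    (fun u : U => Ideal.Quotient.mk (Ideal.span {m}) (β u))
  refine ⟨t₀.1, u₁.1.1, u₂.1.1, Pf t₀, Pf u₁.1, Pf u₂.1, h, β u₁, β u₂, hPf _, hPf _, hPf _, ?_, ?_,
    hβ u₁, hβ u₂, ?_⟩
  · intro h1
    exact u₁.2 (Subtype.ext (Subtype.ext h1))
  · intro h1
    exact hne (Subtype.ext (Subtype.ext (Subtype.ext h1)))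
  · rw [← Ideal.mem_span_singleton, ← Ideal.Quotient.eq]
    exact heq

/-- **An element `d ≡ 1 mod λ³` with cubically independent conjugates, only divisible by primes
modulo which `ω - 4` is not a square.** -/
theorem exists_delta3 [IsGalois KK F] (φ : Eis ≃+* 𝓞 KK)
    (hφ : ∀ a, (((φ a : 𝓞 KK) : KK) : ℂ) = emb a) (n : ℕ)
    (hn : Module.finrank KK F = 3 ^ n) :
    ∃ d : 𝓞 F, (algebraMap (𝓞 KK) (𝓞 F) (1 - φ om)) ^ 3 ∣ d - 1 ∧
      (∀ v : HeightOneSpectrum (𝓞 F), d ∈ v.asIdeal →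
        ¬ ∃ x : 𝓞 KK, algebraMap (𝓞 KK) (𝓞 F) (x ^ 2 - dK) ∈ v.asIdeal) ∧
      (∀ y : 𝓞 F, d ≠ y ^ 3) ∧
      ∀ τ : F ≃ₐ[KK] F, τ ≠ 1 → ∀ y : 𝓞 F, d * act KK F τ d ^ 2 ≠ y ^ 3 := by
  set L : 𝓞 F := algebraMap (𝓞 KK) (𝓞 F) (1 - φ om) with hL
  have hLla : L = algebraMap (𝓞 KK) (𝓞 F) (φ la) := by
    rw [hL, la_eq, map_sub φ, map_one φ]
  have hL0 : L ≠ 0 := by
    rw [hLla, Ne, map_eq_zero_iff _ (FaithfulSMul.algebraMap_injective (𝓞 KK) (𝓞 F)),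
      map_eq_zero_iff φ φ.injective]
    decide
  obtain ⟨p₀, p₁, p₂, P₀, P₁, P₂, h, β₁, β₂, hP₀, hP₁, hP₂, h10, h12, hβ₁, hβ₂, h4⟩ :=
    exists_triple F n hn (L ^ 3) (pow_ne_zero 3 hL0)
  -- `β₂` is a unit modulo `L`
  have hcop2 : IsCoprime β₂ L := by
    rw [← Ideal.isCoprime_span_singleton_iff, Ideal.isCoprime_iff_sup_eq]
    by_contra hne
    obtain ⟨Q, hQm, hQ⟩ := Ideal.exists_le_maximal _ hne
    have h2' : L ∈ Q := hQ (Ideal.mem_sup_right (Ideal.mem_span_singleton_self L))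
    have h1 : P₂.asIdeal * P₀.asIdeal ^ h ≤ Q := by
      rw [← hβ₂]
      exact le_sup_left.trans hQ
    rcases hQm.isPrime.mul_le.1 h1 with h5 | h5
    · have h6 := P₂.isMaximal.eq_of_le hQm.ne_top h5
      exact hP₂.not_la φ hφ (by rw [h6, ← hLla]; exact h2')
    · have h6 := P₀.isMaximal.eq_of_le hQm.ne_top (hQm.isPrime.le_of_pow_le h5)
      exact hP₀.not_la φ hφ (by rw [h6, ← hLla]; exact h2')
  have hcop4 : IsCoprime β₂ (L ^ 3) := hcop2.pow_right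
  haveI hfin4 : Finite (𝓞 F ⧸ Ideal.span {L ^ 3}) :=
    Ideal.finiteQuotientOfFreeOfNeBot _ (by
      rw [Ne, Ideal.span_singleton_eq_bot]
      exact pow_ne_zero 3 hL0)
  obtain ⟨e, he, hpow⟩ : ∃ e : ℕ, 0 < e ∧ (L ^ 3) ∣ β₂ ^ (e + 1) - 1 := by
    obtain ⟨a, b, hab⟩ := hcop4
    have hu : IsUnit (Ideal.Quotient.mk (Ideal.span {L ^ 3}) β₂) := by
      refine IsUnit.of_mul_eq_one (Ideal.Quotient.mk _ a) ?_
      rw [← map_mul, ← map_one (Ideal.Quotient.mk _), Ideal.Quotient.eq,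
        Ideal.mem_span_singleton]
      exact ⟨-b, by linear_combination hab⟩
    obtain ⟨u, hu⟩ := hu
    have h1 : 0 < orderOf u := orderOf_pos u
    refine ⟨2 * orderOf u - 1, by omega, ?_⟩
    have h2 : 2 * orderOf u - 1 + 1 = orderOf u * 2 := by omega
    rw [h2, ← Ideal.mem_span_singleton, ← Ideal.Quotient.eq, map_pow, map_one, ← hu,
      pow_mul, ← Units.val_pow_eq_pow_val, pow_orderOf_eq_one, Units.val_one, one_pow]
  set d : 𝓞 F := β₁ * β₂ ^ e with hd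
  have hspan : Ideal.span {d} =
      P₁.asIdeal * (P₀.asIdeal ^ h * (P₂.asIdeal * P₀.asIdeal ^ h) ^ e) := by
    rw [hd, ← Ideal.span_singleton_mul_span_singleton, ← Ideal.span_singleton_pow, hβ₁, hβ₂]
    ring
  have hle : ∀ Q : Ideal (𝓞 F), Q.IsPrime → d ∈ Q → P₁.asIdeal ≤ Q ∨ P₀.asIdeal ≤ Q ∨
      P₂.asIdeal ≤ Q := by
    intro Q hQ hdQ
    have h1 : Ideal.span {d} ≤ Q := (Ideal.span_singleton_le_iff_mem Q).2 hdQ
    rw [hspan] at h1
    rcases hQ.mul_le.1 h1 with h2 | h2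
    · exact Or.inl h2
    · rcases hQ.mul_le.1 h2 with h3 | h3
      · exact Or.inr (Or.inl (hQ.le_of_pow_le h3))
      · rcases hQ.mul_le.1 (hQ.le_of_pow_le h3) with h4 | h4
        · exact Or.inr (Or.inr h4)
        · exact Or.inr (Or.inl (hQ.le_of_pow_le h4))
  have hdP : d ∈ P₁.asIdeal := by
    rw [← Ideal.span_singleton_le_iff_mem, hspan]
    exact Ideal.mul_le_left
  have hdP2 : ¬ P₁.asIdeal ^ 2 ∣ Ideal.span {d} := by
    rw [hspan, pow_two]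
    intro h1
    have h2 := (mul_dvd_mul_iff_left P₁.ne_bot).1 h1
    have h3 : P₀.asIdeal ≤ P₁.asIdeal ∨ P₂.asIdeal ≤ P₁.asIdeal := by
      have h4 := Ideal.dvd_iff_le.1 h2
      rcases P₁.isPrime.mul_le.1 h4 with h5 | h5
      · exact Or.inl (P₁.isPrime.le_of_pow_le h5)
      · rcases P₁.isPrime.mul_le.1 (P₁.isPrime.le_of_pow_le h5) with h6 | h6
        · exact Or.inr h6
        · exact Or.inl (P₁.isPrime.le_of_pow_le h6)
    rcases h3 with h3 | h3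
    · exact hP₀.ne hP₁ h10.symm h3
    · exact hP₂.ne hP₁ h12.symm h3
  have hy3 : ∀ y : 𝓞 F, y ∈ P₁.asIdeal → P₁.asIdeal ^ 2 ∣ Ideal.span {y ^ 3} := by
    intro y hy
    rw [← Ideal.span_singleton_pow]
    exact (pow_dvd_pow_of_dvd (Ideal.dvd_iff_le.2
      ((Ideal.span_singleton_le_iff_mem _).2 hy)) 2).trans (pow_dvd_pow _ (by norm_num))
  refine ⟨d, ?_, ?_, ?_, ?_⟩
  · obtain ⟨a, ha⟩ := h4
    obtain ⟨b, hb⟩ := hpow
    refine ⟨a * β₂ ^ e + b, ?_⟩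
    rw [hd]
    linear_combination β₂ ^ e * ha + hb
  · rintro v hv ⟨x, hx⟩
    rcases hle v.asIdeal v.isPrime hv with h1 | h1 | h1
    · have h2 := P₁.isMaximal.eq_of_le v.isPrime.ne_top h1
      exact hP₁.2.2.1 ⟨x, by rw [h2]; exact hx⟩
    · have h2 := P₀.isMaximal.eq_of_le v.isPrime.ne_top h1
      exact hP₀.2.2.1 ⟨x, by rw [h2]; exact hx⟩
    · have h2 := P₂.isMaximal.eq_of_le v.isPrime.ne_top h1
      exact hP₂.2.2.1 ⟨x, by rw [h2]; exact hx⟩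
  · intro y hy
    have h1 : y ∈ P₁.asIdeal := P₁.isPrime.mem_of_pow_mem 3 (by rw [← hy]; exact hdP)
    apply hdP2
    rw [hy]
    exact hy3 y h1
  · intro τ hτ y hy
    have hτd : act KK F τ d ∉ P₁.asIdeal := by
      intro h1
      have h2 : d ∈ P₁.asIdeal.comap (act KK F τ) := h1
      rcases hle _ (P₁.isPrime.comap _) h2 with h3 | h3 | h3
      · exact hτ (hP₁.2.2.2 τ (fun x hx => h3 hx))
      · have h4 : act KK F τ (p₀ : 𝓞 F) ∈ P₁.asIdeal := h3 hP₀.2.1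
        rw [map_natCast] at h4
        exact h10 (two_primes F P₁ p₁ p₀ hP₁.1 hP₀.1 hP₁.2.1 h4)
      · have h4 : act KK F τ (p₂ : 𝓞 F) ∈ P₁.asIdeal := h3 hP₂.2.1
        rw [map_natCast] at h4
        exact h12 (two_primes F P₁ p₁ p₂ hP₁.1 hP₂.1 hP₁.2.1 h4)
    have h1 : y ∈ P₁.asIdeal := P₁.isPrime.mem_of_pow_mem 3 (by
      rw [← hy]
      exact Ideal.mul_mem_right _ _ hdP)
    have h2 : P₁.asIdeal ^ 2 ∣ Ideal.span {d} * Ideal.span {act KK F τ d ^ 2} := by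
      rw [Ideal.span_singleton_mul_span_singleton, hy]
      exact hy3 y h1
    apply hdP2
    refine P₁.prime.pow_dvd_of_dvd_mul_right 2 ?_ h2
    intro h3
    exact hτd (P₁.isPrime.mem_of_pow_mem 2
      ((Ideal.span_singleton_le_iff_mem _).1 (Ideal.dvd_iff_le.1 h3)))

end

end THG
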