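import Pool.Agent.MP_9ab903_nt.TH.Defs

set_option autoImplicit false

open NumberField IsDedekindDomain
open CM27 CMT NAB CF TWR
open scoped Classical

namespace TH

/-! ## [TH-P1] the cubic residue symbol: definition; places prime to `3` (file TH/P1.lean)

`F` a number field, `e : ℤ[ω] → 𝓞 F`.  `od v x = - ord_v x` (`TWR.od`, PF1).  `nv v` = cardinality of the residue field.
`IsCs e v x ζ`: `ζ ∈ {1, ω, ω²}` is the cubic symbol of `x` at `v`: for `v ∤ 3`, `x u³ = a` is an integral unit at `v` and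
`a ^ ((N v - 1) / 3) ≡ ζ mod v`; for `v ∣ 3`: `x u³ = 1 - λ³ τ`, `τ ≡ t mod v`, `Tr(t mod v) = j ∈ 𝔽₃`, `ζ = ω ^ j`. -/

section
variable {F : Type} [Field F] [NumberField F] (e : Eis →+* 𝓞 F) (v : HeightOneSpectrum (𝓞 F))

/-- the order is divisible by three -/
def t3 (x : F) : Prop := (3 : ℤ) ∣ od v x

/-- the number of elements of the residue field -/
noncomputable def nv : ℕ := Nat.card (𝓞 F ⧸ v.asIdeal)

/-- the trace to `𝔽₃` of the residue class of `t` (at a place above `3`) -/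
noncomputable def tv (t : 𝓞 F) : 𝓞 F := ∑ i ∈ Finset.range (Nat.log 3 (nv v)), t ^ 3 ^ i

/-- `ζ` is the cubic symbol of `x` at `v` -/
def IsCs (x : F) (ζ : Eis) : Prop :=
  ζ ^ 3 = 1 ∧ ∃ u : F, u ≠ 0 ∧
    (((3 : 𝓞 F) ∉ v.asIdeal ∧ ∃ a : 𝓞 F, a ∉ v.asIdeal ∧ x * u ^ 3 = a ∧
        a ^ ((nv v - 1) / 3) - e ζ ∈ v.asIdeal) ∨
      ((3 : 𝓞 F) ∈ v.asIdeal ∧ ∃ (τ : F) (t : 𝓞 F) (j : ℕ),
        x * u ^ 3 = 1 - ((e la : 𝓞 F) : F) ^ 3 * τ ∧ v.valuation F (τ - t) < 1 ∧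
        tv v t - j ∈ v.asIdeal ∧ ζ = om ^ j))

/-- The cubic symbol, `0` if it is not defined. -/
noncomputable def cs (x : F) : Eis := if h : ∃ ζ, IsCs e v x ζ then h.choose else 0

/-- locally admissible: up to cubes congruent to `1` modulo `λ³` at `v` -/
def La (x : F) : Prop := ∃ u τ : F, u ≠ 0 ∧ x * u ^ 3 = 1 - ((e la : 𝓞 F) : F) ^ 3 * τ ∧
  v.valuation F τ ≤ 1

/-- the symbol is defined -/
def Cd (x : F) : Prop := x ≠ 0 ∧
  (((3 : 𝓞 F) ∉ v.asIdeal ∧ t3 v x) ∨ ((3 : 𝓞 F) ∈ v.asIdeal ∧ La e v x))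

theorem cube_one_cases {ζ : Eis} (h : ζ ^ 3 = 1) : ζ = 1 ∨ ζ = om ∨ ζ = om ^ 2 := by
  obtain ⟨x, y⟩ := ζ
  have h1 : (⟨x, y⟩ : Eis) ^ 3 = ⟨x ^ 3 - 3 * x * y ^ 2 + y ^ 3, 3 * (x * y * (x - y))⟩ := by
    rw [pow_succ, pow_two]
    ext
    · simp only [QuadraticAlgebra.re_mul, QuadraticAlgebra.im_mul]
      ring
    · simp only [QuadraticAlgebra.re_mul, QuadraticAlgebra.im_mul]
      ring
  rw [h1] at h
  have h2 : x ^ 3 - 3 * x * y ^ 2 + y ^ 3 = 1 := congrArg QuadraticAlgebra.re h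
  have h3 : 3 * (x * y * (x - y)) = 0 := congrArg QuadraticAlgebra.im h
  have h4 : x * y * (x - y) = 0 := by omega
  have hc : ∀ z : ℤ, z ^ 3 = 1 → z = 1 := by
    intro z hz
    have h5 : (z - 1) * (z ^ 2 + z + 1) = 0 := by linear_combination hz
    rcases mul_eq_zero.1 h5 with h6 | h6
    · omega
    · nlinarith [sq_nonneg (2 * z + 1)]
  rcases mul_eq_zero.1 h4 with h5 | h5
  · rcases mul_eq_zero.1 h5 with h6 | h6
    · subst h6
      have h7 : y = 1 := hc y (by linear_combination h2)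
      subst h7
      exact Or.inr (Or.inl rfl)
    · subst h6
      have h7 : x = 1 := hc x (by linear_combination h2)
      subst h7
      exact Or.inl rfl
  · have h6 : x = y := by omega
    subst h6
    have h7 : -x = 1 := hc (-x) (by linear_combination h2)
    have h8 : x = -1 := by omega
    subst h8
    right
    right
    decide

theorem t3_mul {x y : F} (hx : x ≠ 0) (hy : y ≠ 0) (h : t3 v x) (h' : t3 v y) : t3 v (x * y) := by
  rw [t3, od_mul v hx hy]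
  exact dvd_add h h'

theorem t3_cube (x : F) : t3 v (x ^ 3) := by
  rw [t3, od_pow]
  exact dvd_mul_right _ _

theorem t3_mul_cube {x u : F} (hx : x ≠ 0) (hu : u ≠ 0) : t3 v (x * u ^ 3) ↔ t3 v x := by
  rw [t3, t3, od_mul v hx (pow_ne_zero 3 hu), od_pow]
  exact dvd_add_left (dvd_mul_right _ _)

theorem t3_inv (x : F) : t3 v x⁻¹ ↔ t3 v x := by
  rw [t3, t3, od_inv, dvd_neg]

theorem t3_neg (x : F) : t3 v (-x) ↔ t3 v x := by
  rw [t3, t3, od_neg]

theorem t3_unit {a : 𝓞 F} (ha : a ∉ v.asIdeal) : t3 v (a : F) := by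
  rw [t3, od, val_unit a v ha]
  exact dvd_zero _

/-- an element of valuation at most one is a quotient with denominator prime to `v` -/
theorem p1_frac {y : F} (hyv : v.valuation F y ≤ 1) :
    ∃ c t : 𝓞 F, t ∉ v.asIdeal ∧ (c : F) = y * t := by
  by_cases hy0 : y = 0
  · refine ⟨0, 1, ?_, ?_⟩
    · exact fun h => v.isPrime.ne_top ((Ideal.eq_top_iff_one _).2 h)
    · rw [hy0, zero_mul]
      rfl
  obtain ⟨a, b, hb, hab⟩ := IsFractionRing.div_surjective (A := 𝓞 F) y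
  have hb0 : b ≠ 0 := nonZeroDivisors.ne_zero hb
  have hbF : (b : F) ≠ 0 := RingOfIntegers.coe_ne_zero_iff.2 hb0
  have hab' : (a : F) = y * b := by
    rw [← hab]
    field_simp
  have hval : v.intValuation a ≤ v.intValuation b := by
    have h1 : v.valuation F (a : F) ≤ v.valuation F (b : F) := by
      rw [hab', map_mul]
      exact mul_le_of_le_one_left' hyv
    rwa [HeightOneSpectrum.valuation_of_algebraMap, HeightOneSpectrum.valuation_of_algebraMap] at h1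
  obtain ⟨n, hn⟩ : ∃ n : ℕ, v.intValuation b = WithZero.exp (-(n : ℤ)) :=
    ⟨_, HeightOneSpectrum.intValuation_eq_exp_neg_multiplicity v hb0⟩
  have hbn : b ∈ v.asIdeal ^ n := by
    rw [← HeightOneSpectrum.intValuation_le_pow_iff_mem, hn]
  obtain ⟨J, hJ⟩ : v.asIdeal ^ n ∣ Ideal.span {b} := Ideal.dvd_span_singleton.2 hbn
  have hJv : ¬ J ≤ v.asIdeal := by
    intro hle
    have h1 : b ∈ v.asIdeal ^ (n + 1) := by
      rw [← Ideal.dvd_span_singleton, hJ, pow_succ]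
      exact mul_dvd_mul_left _ (Ideal.dvd_iff_le.2 hle)
    rw [← HeightOneSpectrum.intValuation_le_pow_iff_mem, hn, WithZero.exp_le_exp] at h1
    push_cast at h1
    omega
  obtain ⟨t, htJ, htv⟩ := SetLike.not_le_iff_exists.1 hJv
  have han : a ∈ v.asIdeal ^ n := by
    rw [← HeightOneSpectrum.intValuation_le_pow_iff_mem, ← hn]
    exact hval
  have hmem : a * t ∈ Ideal.span {b} := by
    rw [hJ]
    exact Ideal.mul_mem_mul han htJ
  obtain ⟨c, hc⟩ := Ideal.mem_span_singleton.1 hmem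
  refine ⟨c, t, htv, ?_⟩
  have h1 : (a : F) * t = b * c := by
    have := congrArg (fun r : 𝓞 F => (r : F)) hc
    exact this
  rw [hab'] at h1
  apply mul_left_cancel₀ hbF
  rw [← h1]
  ring

/-- an element of valuation one is a quotient of two elements prime to `v` -/
theorem p1_frac_unit {y : F} (hyv : v.valuation F y = 1) :
    ∃ c t : 𝓞 F, c ∉ v.asIdeal ∧ t ∉ v.asIdeal ∧ (c : F) = y * t := by
  obtain ⟨c, t, ht, hc⟩ := p1_frac v hyv.le
  refine ⟨c, t, ?_, ht, hc⟩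
  intro hmem
  have h1 := (val_lt_iff c v).2 hmem
  rw [hc, map_mul, hyv, one_mul, val_unit t v ht] at h1
  exact lt_irrefl _ h1

/-- representation by an integral unit (as `TWR.unit_rep`) -/
theorem unit_rep3 {x : F} (hx : x ≠ 0) (h : t3 v x) :
    ∃ (a : 𝓞 F) (s : F), a ∉ v.asIdeal ∧ s ≠ 0 ∧ x * s ^ 3 = a := by
  obtain ⟨k, hk⟩ := h
  obtain ⟨z, hz⟩ := v.valuation_surjective F (WithZero.exp k)
  have hz0 : z ≠ 0 := by
    rintro rfl
    rw [map_zero] at hz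
    exact WithZero.exp_ne_zero hz.symm
  obtain ⟨y, hy⟩ : ∃ y : F, y = x / z ^ 3 := ⟨_, rfl⟩
  have hyv : v.valuation F y = 1 := by
    have h3 : (3 : ℤ) * k = k + k + k := by ring
    rw [hy, map_div₀, map_pow, hz, val_eq_exp v hx, hk, h3, WithZero.exp_add, WithZero.exp_add,
      pow_succ, pow_two]
    exact div_self (mul_ne_zero (mul_ne_zero WithZero.exp_ne_zero WithZero.exp_ne_zero)
      WithZero.exp_ne_zero)
  obtain ⟨c, t, hc, ht, hct⟩ := p1_frac_unit v hyv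
  have ht0 : t ≠ 0 := by
    rintro rfl
    exact ht (Ideal.zero_mem _)
  have htF : (t : F) ≠ 0 := RingOfIntegers.coe_ne_zero_iff.2 ht0
  refine ⟨c * t ^ 2, t / z, ?_, div_ne_zero htF hz0, ?_⟩
  · intro hmem
    rcases v.isPrime.mem_or_mem hmem with h1 | h1
    · exact hc h1
    · exact ht (v.isPrime.mem_of_pow_mem 2 h1)
  · change x * (t / z) ^ 3 = (c : F) * (t : F) ^ 2
    rw [hct, hy]
    field_simp

/-- `e ω` is a primitive cube root of unity modulo `v ∤ 3` -/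
theorem e_inj_mod (h3 : (3 : 𝓞 F) ∉ v.asIdeal) {ζ ζ' : Eis} (h : ζ ^ 3 = 1) (h' : ζ' ^ 3 = 1)
    (hz : e ζ - e ζ' ∈ v.asIdeal) : ζ = ζ' := by
  have key : ∀ c : Eis, (3 : Eis) = c * (ζ - ζ') ^ 2 → False := by
    intro c hc
    apply h3
    have h4 : (3 : 𝓞 F) = e c * (e ζ - e ζ') ^ 2 := by
      rw [← map_sub, ← map_pow, ← map_mul, ← hc, map_ofNat]
    rw [h4]
    exact Ideal.mul_mem_left _ _ (Ideal.pow_mem_of_mem _ hz 2 (by norm_num))
  rcases cube_one_cases h with rfl | rfl | rfl <;> rcases cube_one_cases h' with rfl | rfl | rfl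
  · rfl
  · exact (key (-om ^ 2) (by decide)).elim
  · exact (key (-om) (by decide)).elim
  · exact (key (-om ^ 2) (by decide)).elim
  · rfl
  · exact (key (-1) (by decide)).elim
  · exact (key (-om) (by decide)).elim
  · exact (key (-1) (by decide)).elim
  · rfl

/-- `a ^ (N v - 1) ≡ 1` -/
theorem p1_pow {a : 𝓞 F} (ha : a ∉ v.asIdeal) : a ^ (nv v - 1) - 1 ∈ v.asIdeal := by
  haveI := finite_quot v
  haveI := v.isMaximal
  letI : Field (𝓞 F ⧸ v.asIdeal) := Ideal.Quotient.field v.asIdeal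
  letI := Fintype.ofFinite (𝓞 F ⧸ v.asIdeal)
  rw [← Ideal.Quotient.eq_zero_iff_mem, map_sub, map_pow, map_one, sub_eq_zero, nv,
    Nat.card_eq_fintype_card]
  apply FiniteField.pow_card_sub_one_eq_one
  rw [Ne, Ideal.Quotient.eq_zero_iff_mem]
  exact ha

theorem p1_nv_pos : 0 < nv v := by
  haveI := finite_quot v
  exact Nat.card_pos

include e in
theorem p1_dvd (h3 : (3 : 𝓞 F) ∉ v.asIdeal) : 3 ∣ nv v - 1 := by
  have h1 : e om ∉ v.asIdeal := by
    intro h2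
    have h4 : e om ^ 3 = 1 := by rw [← map_pow, om_cube, map_one]
    apply v.isPrime.ne_top
    rw [Ideal.eq_top_iff_one, ← h4]
    exact Ideal.pow_mem_of_mem _ h2 3 (by norm_num)
  have h2 := p1_pow v h1
  have h4 : om ^ (nv v - 1) = 1 := by
    apply e_inj_mod e v h3
    · rw [← pow_mul, mul_comm, pow_mul, om_cube, one_pow]
    · exact one_pow 3
    · rw [map_pow, map_one]
      exact h2
  have h5 : om ^ ((nv v - 1) % 3) = 1 := by
    have h6 := Nat.div_add_mod (nv v - 1) 3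
    rw [← h6, pow_add, pow_mul, om_cube, one_pow, one_mul] at h4
    exact h4
  have h6 : (nv v - 1) % 3 < 3 := Nat.mod_lt _ (by norm_num)
  rw [Nat.dvd_iff_mod_eq_zero]
  generalize (nv v - 1) % 3 = r at h5 h6
  interval_cases r
  · rfl
  · exact absurd h5 (by decide)
  · exact absurd h5 (by decide)

include e in
theorem nv_mod (h3 : (3 : 𝓞 F) ∉ v.asIdeal) : nv v % 3 = 1 := by
  have h1 := p1_dvd e v h3
  have h2 := p1_nv_pos v
  omega

/-- `a ^ (N v - 1) ≡ 1` -/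
theorem pow_nv_sub_one {a : 𝓞 F} (ha : a ∉ v.asIdeal) : a ^ (nv v - 1) - 1 ∈ v.asIdeal := by
  exact p1_pow v ha

theorem exists_zeta (h3 : (3 : 𝓞 F) ∉ v.asIdeal) {a : 𝓞 F} (ha : a ∉ v.asIdeal) :
    ∃ ζ : Eis, ζ ^ 3 = 1 ∧ a ^ ((nv v - 1) / 3) - e ζ ∈ v.asIdeal := by
  have h1 := p1_pow v ha
  rw [← Nat.div_mul_cancel (p1_dvd e v h3), pow_mul] at h1
  generalize a ^ ((nv v - 1) / 3) = b at h1 ⊢
  have h2 : b ^ 3 - 1 = (b - e 1) * ((b - e om) * (b - e (om ^ 2))) := by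
    have h4 : e om ^ 2 + e om + 1 = 0 := by
      rw [← map_pow, ← map_add, ← map_one e, ← map_add, om_quad, map_zero]
    rw [map_one, map_pow]
    linear_combination (b ^ 2 - b * e om + e om - 1) * h4
  rw [h2] at h1
  rcases v.isPrime.mem_or_mem h1 with h4 | h4
  · exact ⟨1, one_pow 3, h4⟩
  · rcases v.isPrime.mem_or_mem h4 with h5 | h5
    · exact ⟨om, om_cube, h5⟩
    · refine ⟨om ^ 2, ?_, h5⟩
      rw [← pow_mul, mul_comm, pow_mul, om_cube, one_pow]

/-- existence at the places prime to `3` -/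
theorem exists_IsCs_one (h3 : (3 : 𝓞 F) ∉ v.asIdeal) {x : F} (hx : x ≠ 0) (h : t3 v x) :
    ∃ ζ : Eis, IsCs e v x ζ := by
  obtain ⟨a, s, ha, hs, hxa⟩ := unit_rep3 v hx h
  obtain ⟨ζ, hζ, hm⟩ := exists_zeta e v h3 ha
  exact ⟨ζ, hζ, s, hs, Or.inl ⟨h3, a, ha, hxa, hm⟩⟩

/-- uniqueness at the places prime to `3`: `a' = a c³` with `c` a unit at `v` (write `c = p / q` with `p, q ∉ v`), and
`c ^ (N v - 1) ≡ 1`. -/
theorem IsCs_unique_one (h3 : (3 : 𝓞 F) ∉ v.asIdeal) {x : F} {ζ ζ' : Eis} (h : IsCs e v x ζ)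
    (h' : IsCs e v x ζ') : ζ = ζ' := by
  obtain ⟨hζ, u, hu, h1 | h1⟩ := h
  swap
  · exact absurd h1.1 h3
  obtain ⟨hζ', u', hu', h2 | h2⟩ := h'
  swap
  · exact absurd h2.1 h3
  obtain ⟨-, a, ha, hxa, hma⟩ := h1
  obtain ⟨-, a', ha', hxa', hma'⟩ := h2
  have haF : (a : F) ≠ 0 := by
    rw [RingOfIntegers.coe_ne_zero_iff]
    rintro rfl
    exact ha (Ideal.zero_mem _)
  have hx : x ≠ 0 := by
    rintro rfl
    rw [zero_mul] at hxa
    exact haF hxa.symm
  -- `c = u' / u` is a unit at `v`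
  have hc1 : v.valuation F (u' / u) = 1 := by
    have e1 : v.valuation F ((u' / u) ^ 3) = 1 := by
      have e2 : (u' / u) ^ 3 = (a' : F) / a := by
        rw [← hxa, ← hxa']
        field_simp
      rw [e2, map_div₀, val_unit a v ha, val_unit a' v ha', div_one]
    rw [map_pow] at e1
    exact (pow_eq_one_iff_of_nonneg zero_le (by norm_num)).1 e1
  obtain ⟨p, q, hp, hq, hpq⟩ := p1_frac_unit v hc1
  have h4 : a' * q ^ 3 = a * p ^ 3 := by
    apply RingOfIntegers.ext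
    change (a' : F) * (q : F) ^ 3 = (a : F) * (p : F) ^ 3
    rw [hpq, ← hxa, ← hxa']
    field_simp
  have hdiv := Nat.mul_div_cancel' (p1_dvd e v h3)
  obtain ⟨m, hm⟩ : ∃ m, m = (nv v - 1) / 3 := ⟨_, rfl⟩
  rw [← hm] at hdiv hma hma'
  have hpp := p1_pow v hp
  have hqq := p1_pow v hq
  rw [← hdiv, pow_mul] at hpp hqq
  have h5 : a' ^ m * (q ^ 3) ^ m = a ^ m * (p ^ 3) ^ m := by
    rw [← mul_pow, ← mul_pow, h4]
  have h6 : a' ^ m - a ^ m ∈ v.asIdeal := by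
    have e1 : a' ^ m - a ^ m = a ^ m * ((p ^ 3) ^ m - 1) - a' ^ m * ((q ^ 3) ^ m - 1) := by
      linear_combination h5
    rw [e1]
    exact Ideal.sub_mem _ (Ideal.mul_mem_left _ _ hpp) (Ideal.mul_mem_left _ _ hqq)
  apply e_inj_mod e v h3 hζ hζ'
  have e1 : e ζ - e ζ' = (a' ^ m - e ζ') - (a ^ m - e ζ) - (a' ^ m - a ^ m) := by ring
  rw [e1]
  exact Ideal.sub_mem _ (Ideal.sub_mem _ hma' hma) h6

/-- the order is divisible by three if the symbol is defined -/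
theorem t3_of_IsCs (h3 : (3 : 𝓞 F) ∉ v.asIdeal) {x : F} {ζ : Eis} (h : IsCs e v x ζ) :
    x ≠ 0 ∧ t3 v x := by
  obtain ⟨-, u, hu, h1 | h1⟩ := h
  swap
  · exact absurd h1.1 h3
  obtain ⟨-, a, ha, hxa, -⟩ := h1
  have haF : (a : F) ≠ 0 := by
    rw [RingOfIntegers.coe_ne_zero_iff]
    rintro rfl
    exact ha (Ideal.zero_mem _)
  have hx : x ≠ 0 := by
    rintro rfl
    rw [zero_mul] at hxa
    exact haF hxa.symm
  refine ⟨hx, ?_⟩
  rw [← t3_mul_cube v hx hu, hxa]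
  exact t3_unit v ha

end

end TH
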