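import Pool.Agent.MP_9ab903_nt.TH.P10c

set_option autoImplicit false

open NumberField IsDedekindDomain
open CM27 CMT NAB CF TWR
open scoped Classical

namespace TH

/-! ## [TH-P10] the product formula in a cubic extension, first steps (file TH/P10.lean)

`PF e` for `k`; `X ∈ F` admissible; `Or X y` iff `HH X y = 1`. (`Or_alg`) `y ∈ k`: `HH_norm` and `PF e`. (`Or_stein`) for `α ∈ k` admissible, `u ∈ F`,
`β = 1 - α X u³ ≠ 0`: `HH(α X u³, β) = 1` (Steinberg), `HH(α, β) = HH_k(α, N β) = 1`, cubes. -/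

section
variable {F : Type} [Field F] [NumberField F] {e : Eis →+* 𝓞 F}

theorem p10_val_lF_lt (hU : UL e) {w : HeightOneSpectrum (𝓞 F)} (h3 : (3 : 𝓞 F) ∈ w.asIdeal) :
    w.valuation F (lF e) < 1 := by
  rw [val_lF e hU h3, ← WithZero.exp_zero, WithZero.exp_lt_exp]
  norm_num

theorem p10_val_lt (hU : UL e) {w : HeightOneSpectrum (𝓞 F)} (h3 : (3 : 𝓞 F) ∈ w.asIdeal) {x : F}
    (hx : w.valuation F x < 1) : w.valuation F x ≤ w.valuation F (lF e) := by
  have h := (val_lt_iff_le e hU h3 x 0).1 (by rw [pow_zero]; exact hx)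
  rwa [zero_add, pow_one] at h

theorem p10_val_one_sub (hU : UL e) {w : HeightOneSpectrum (𝓞 F)} (h3 : (3 : 𝓞 F) ∈ w.asIdeal)
    {r : F} (hr : w.valuation F r ≤ 1) : w.valuation F (1 - lF e ^ 3 * r) = 1 := by
  have h1 : w.valuation F (lF e ^ 3 * r) < 1 := by
    rw [map_mul, map_pow]
    exact mul_lt_one_of_lt_of_le (pow_lt_one₀ zero_le (p10_val_lF_lt hU h3) (by norm_num)) hr
  have h2 := Valuation.map_one_sub_of_lt (w.valuation F) h1
  exact h2

/-- `X c³ ≡ 1 - λ³ r mod λ⁸` -/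
theorem p10_aux (hU : UL e) {τ r : F}
    (hr : ∀ w : HeightOneSpectrum (𝓞 F), (3 : 𝓞 F) ∈ w.asIdeal → w.valuation F r ≤ 1)
    (hrτ : ∀ w : HeightOneSpectrum (𝓞 F), (3 : 𝓞 F) ∈ w.asIdeal → w.valuation F (r - τ) < 1) :
    ∃ c : F, c ≠ 0 ∧ ∀ w : HeightOneSpectrum (𝓞 F), (3 : 𝓞 F) ∈ w.asIdeal →
      w.valuation F (1 - (1 - lF e ^ 3 * τ) * c ^ 3 - lF e ^ 3 * r) ≤
        w.valuation F (lF e) ^ 8 := by
  obtain ⟨c, hc0, hc⟩ := cube_approx e hU ((1 - lF e ^ 3 * τ) / (1 - lF e ^ 3 * r)) (by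
    intro w h3
    have h1 := p10_val_one_sub hU h3 (hr w h3)
    have h2 : (1 - lF e ^ 3 * r) ≠ 0 := by
      intro h
      rw [h, map_zero] at h1
      exact zero_ne_one h1
    have h4 : (1 - lF e ^ 3 * τ) / (1 - lF e ^ 3 * r) - 1 =
        lF e ^ 3 * (r - τ) / (1 - lF e ^ 3 * r) := by
      field_simp
      ring
    rw [h4, map_div₀, h1, div_one, map_mul, map_pow, show (4 : ℕ) = 3 + 1 from rfl,
      pow_add _ 3 1, pow_one]
    exact mul_le_mul_right (p10_val_lt hU h3 (hrτ w h3)) _) 8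
  refine ⟨c, hc0, fun w h3 => ?_⟩
  have h1 := p10_val_one_sub hU h3 (hr w h3)
  have h2 : (1 - lF e ^ 3 * r) ≠ 0 := by
    intro h
    rw [h, map_zero] at h1
    exact zero_ne_one h1
  have h4 : 1 - (1 - lF e ^ 3 * τ) * c ^ 3 - lF e ^ 3 * r =
      -((1 - lF e ^ 3 * r) * ((1 - lF e ^ 3 * τ) / (1 - lF e ^ 3 * r) * c ^ 3 - 1)) := by
    field_simp
    ring
  rw [h4, Valuation.map_neg, map_mul, h1, one_mul]
  exact hc w h3

/-- the valuation of `β` -/
theorem p10_val_beta (hU : UL e) {w : HeightOneSpectrum (𝓞 F)} (h3 : (3 : 𝓞 F) ∈ w.asIdeal)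
    {b r : F} (hb : w.valuation F (b - lF e ^ 3 * r) ≤ w.valuation F (lF e) ^ 8)
    (hr : w.valuation F (lF e) ≤ w.valuation F r) :
    w.valuation F (lF e) ^ 4 ≤ w.valuation F b := by
  have hq := p10_val_lF_lt hU h3
  have hq0 : 0 < w.valuation F (lF e) := zero_lt_iff.2 (val_ne w (lF_ne e))
  have h1 : w.valuation F (lF e) ^ 4 ≤ w.valuation F (lF e ^ 3 * r) := by
    rw [map_mul, map_pow, pow_succ]
    exact mul_le_mul_right hr _
  have h2 : w.valuation F (lF e) ^ 8 < w.valuation F (lF e) ^ 4 :=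
    pow_lt_pow_right_of_lt_one₀ hq0 hq (by norm_num)
  have h4 : w.valuation F (b - lF e ^ 3 * r) < w.valuation F (lF e ^ 3 * r) :=
    lt_of_le_of_lt hb (lt_of_lt_of_le h2 h1)
  have h5 := Valuation.map_add_eq_of_lt_right (w.valuation F) h4
  rw [sub_add_cancel] at h5
  rw [h5]
  exact h1

end

section
variable {k F : Type} [Field k] [NumberField k] [Field F] [NumberField F] [Algebra k F]
  (S : Cyc k F) (e : Eis →+* 𝓞 k)

include S in
/-- **Step 2.** From `y ≡ 1 mod λ` to `y ≡ 1 mod λ⁴`: choose (`approx`) `r' ∈ F` with `w(r' - τ) < 1` and `w(r') ≥ w(λ)` for all `w ∣ 3` (`r' ≡ τ mod λ²` if `w(τ) = 1`, `r' ≡ λ mod λ²`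
otherwise), `r = r' y`. `X / (1 - λ³ r') ≡ 1 mod λ⁴`: by `cube_approx` there is `u'` with `X u'³ ≡ 1 - λ³ r' mod λ^8`, and `u` with `X u³ ≡ 1 - λ³ r mod λ^8`;
`β' = 1 - X u'³ ≡ λ³ r'`, `β = 1 - X u³ ≡ λ³ r mod λ^8` are orthogonal to `X` (`Or_stein`, `α = 1`) and `y β' / β ≡ 1 mod λ⁴`. -/
theorem step2 (hU : UL (eu k F e)) (hP : PF e) {τ : F} (hτ : I3 τ) {y : F}
    (hy : ∀ w : HeightOneSpectrum (𝓞 F), (3 : 𝓞 F) ∈ w.asIdeal → w.valuation F (y - 1) < 1) :
    ∃ h : F, Or (eu k F e) (1 - lF (eu k F e) ^ 3 * τ) h ∧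
      ∀ w : HeightOneSpectrum (𝓞 F), (3 : 𝓞 F) ∈ w.asIdeal →
        w.valuation F (y * h - 1) ≤ w.valuation F (lF (eu k F e)) ^ 4 := by
  set L : F := lF (eu k F e) with hL
  have hX : AdG (eu k F e) (1 - L ^ 3 * τ) := AdG_one_sub _ hτ
  by_cases hex : ∃ w : HeightOneSpectrum (𝓞 F), (3 : 𝓞 F) ∈ w.asIdeal
  swap
  · refine ⟨1, ⟨one_ne_zero, HH_one_right _ _⟩, fun w h3 => (hex ⟨w, h3⟩).elim⟩
  obtain ⟨w₀, h₀⟩ := hex
  -- the element `r'`
  obtain ⟨r', hr'⟩ := approx (eu k F e) hU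
    (fun w => if w.valuation F τ = 1 then τ else L) (by
      intro w h3
      by_cases h : w.valuation F τ = 1
      · simp only [if_pos h]
        exact hτ w h3
      · simp only [if_neg h]
        exact (p10_val_lF_lt hU h3).le) 2
  have key : ∀ w : HeightOneSpectrum (𝓞 F), (3 : 𝓞 F) ∈ w.asIdeal →
      w.valuation F ((r' : F) - τ) < 1 ∧ w.valuation F L ≤ w.valuation F (r' : F) := by
    intro w h3
    have hq := p10_val_lF_lt hU h3
    have hq0 : 0 < w.valuation F L := zero_lt_iff.2 (val_ne w (lF_ne _))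
    have hq2 : w.valuation F L ^ 2 < w.valuation F L := by
      have := pow_lt_pow_right_of_lt_one₀ hq0 hq (show 1 < 2 by norm_num)
      rwa [pow_one] at this
    have h1 := hr' w h3
    by_cases h : w.valuation F τ = 1
    · simp only [if_pos h] at h1
      have h2 : w.valuation F ((r' : F) - τ) < 1 := lt_of_le_of_lt h1 (hq2.trans hq)
      refine ⟨h2, ?_⟩
      have h4 : w.valuation F ((r' : F) - τ) < w.valuation F τ := by rw [h]; exact h2
      have h5 := Valuation.map_add_eq_of_lt_right (w.valuation F) h4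
      rw [sub_add_cancel] at h5
      rw [h5, h]
      exact hq.le
    · simp only [if_neg h] at h1
      have hτ1 : w.valuation F τ < 1 := lt_of_le_of_ne (hτ w h3) h
      have h4 : w.valuation F ((r' : F) - L) < w.valuation F L := lt_of_le_of_lt h1 hq2
      have h5 := Valuation.map_add_eq_of_lt_right (w.valuation F) h4
      rw [sub_add_cancel] at h5
      refine ⟨?_, h5.ge⟩
      exact lt_of_le_of_lt (Valuation.map_sub _ _ _) (max_lt (by rw [h5]; exact hq) hτ1)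
  -- `y` is a unit
  have hyu : ∀ w : HeightOneSpectrum (𝓞 F), (3 : 𝓞 F) ∈ w.asIdeal → w.valuation F y = 1 := by
    intro w h3
    have h4 : w.valuation F (y - 1) < w.valuation F (1 : F) := by rw [map_one]; exact hy w h3
    have h5 := Valuation.map_add_eq_of_lt_right (w.valuation F) h4
    rwa [sub_add_cancel, map_one] at h5
  obtain ⟨u', hu'0, hu'⟩ := p10_aux (e := eu k F e) hU (τ := τ) (r := (r' : F))
    (fun w _ => HeightOneSpectrum.valuation_le_one w r') (fun w h3 => (key w h3).1)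
  obtain ⟨u, hu0, hu⟩ := p10_aux (e := eu k F e) hU (τ := τ) (r := (r' : F) * y)
    (fun w h3 => by rw [map_mul, hyu w h3, mul_one]; exact HeightOneSpectrum.valuation_le_one w r')
    (fun w h3 => by
      have h1 : (r' : F) * y - τ = (r' : F) * (y - 1) + ((r' : F) - τ) := by ring
      rw [h1]
      refine lt_of_le_of_lt (Valuation.map_add _ _ _) (max_lt ?_ (key w h3).1)
      rw [map_mul]
      exact mul_lt_one_of_nonneg_of_lt_one_right (HeightOneSpectrum.valuation_le_one w r') zero_le (hy w h3))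
  rw [← hL] at hu' hu
  set β' : F := 1 - (1 - L ^ 3 * τ) * u' ^ 3 with hβ'
  set β : F := 1 - (1 - L ^ 3 * τ) * u ^ 3 with hβ
  have v1 : ∀ w : HeightOneSpectrum (𝓞 F), (3 : 𝓞 F) ∈ w.asIdeal →
      w.valuation F L ^ 4 ≤ w.valuation F β' := fun w h3 =>
    p10_val_beta hU h3 (hu' w h3) (key w h3).2
  have v2 : ∀ w : HeightOneSpectrum (𝓞 F), (3 : 𝓞 F) ∈ w.asIdeal →
      w.valuation F L ^ 4 ≤ w.valuation F β := fun w h3 =>
    p10_val_beta hU h3 (hu w h3) (by rw [map_mul, hyu w h3, mul_one]; exact (key w h3).2)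
  have hq0 : ∀ w : HeightOneSpectrum (𝓞 F), 0 < w.valuation F L := fun w =>
    zero_lt_iff.2 (val_ne w (lF_ne _))
  have hβ'0 : β' ≠ 0 := by
    intro h
    have h1 := v1 w₀ h₀
    rw [h, map_zero] at h1
    exact absurd h1 (not_le.2 (pow_pos (hq0 w₀) 4))
  have hβ0 : β ≠ 0 := by
    intro h
    have h1 := v2 w₀ h₀
    rw [h, map_zero] at h1
    exact absurd h1 (not_le.2 (pow_pos (hq0 w₀) 4))
  have hO : ∀ c : F, c ≠ 0 → 1 - (1 - L ^ 3 * τ) * c ^ 3 ≠ 0 →
      Or (eu k F e) (1 - L ^ 3 * τ) (1 - (1 - L ^ 3 * τ) * c ^ 3) := by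
    intro c hc hne
    have h1 := Or_stein S e hU hP hX (α := 1) (AdG_one e) hc (by
      rw [map_one, one_mul]
      exact hne)
    rwa [map_one, one_mul] at h1
  refine ⟨β' * β⁻¹, (hO u' hu'0 hβ'0).mul _ hX ((hO u hu0 hβ0).inv _ hX), fun w h3 => ?_⟩
  have e1 : (y * (β' * β⁻¹) - 1) * β = y * (β' - L ^ 3 * (r' : F)) -
      (β - L ^ 3 * ((r' : F) * y)) := by
    field_simp
    ring
  have h1 : w.valuation F (y * (β' * β⁻¹) - 1) * w.valuation F β ≤
      w.valuation F L ^ 4 * w.valuation F β := by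
    rw [← map_mul, e1]
    refine le_trans (Valuation.map_sub _ _ _) (max_le ?_ ?_)
    · rw [map_mul, hyu w h3, one_mul]
      refine (hu' w h3).trans ?_
      rw [show (8 : ℕ) = 4 + 4 from rfl, pow_add]
      exact mul_le_mul_right (v2 w h3) _
    · refine (hu w h3).trans ?_
      rw [show (8 : ℕ) = 4 + 4 from rfl, pow_add]
      exact mul_le_mul_right (v2 w h3) _
  exact le_of_mul_le_mul_right h1 (lt_of_lt_of_le (pow_pos (hq0 w) 4) (v2 w h3))

end

end TH
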