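import Pool.Agent.MP_9ab903_nt.TH.P9a

set_option autoImplicit false

open NumberField IsDedekindDomain
open CM27 CMT NAB CF TWR
open scoped Classical

namespace TH

/-! ## [TH-P9] approximation above `3` (file TH/P9.lean) -/

section
variable {F : Type} [Field F] [NumberField F] (e : Eis →+* 𝓞 F)

theorem p9_exp_lt : (WithZero.exp (-1 : ℤ) : WithZero (Multiplicative ℤ)) < 1 := by
  rw [← WithZero.exp_zero]
  exact WithZero.exp_lt_exp.2 (by norm_num)

theorem p9_pow_nv (v : HeightOneSpectrum (𝓞 F)) (a : 𝓞 F) : a ^ nv v - a ∈ v.asIdeal := by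
  by_cases ha : a ∈ v.asIdeal
  · refine v.asIdeal.sub_mem (v.asIdeal.pow_mem_of_mem ha _ ?_) ha
    have : Finite (𝓞 F ⧸ v.asIdeal) := Ideal.finiteQuotientOfFreeOfNeBot _ v.ne_bot
    exact Nat.card_pos
  · have h1 := pow_nv_sub_one v ha
    have h0 : 0 < nv v := by
      have : Finite (𝓞 F ⧸ v.asIdeal) := Ideal.finiteQuotientOfFreeOfNeBot _ v.ne_bot
      exact Nat.card_pos
    have h2 : a ^ nv v - a = a * (a ^ (nv v - 1) - 1) := by
      obtain ⟨m, hm⟩ := Nat.exists_eq_succ_of_ne_zero h0.ne'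
      rw [hm]
      simp only [Nat.succ_eq_add_one, Nat.add_sub_cancel]
      ring
    rw [h2]
    exact v.asIdeal.mul_mem_left _ h1

theorem p9_pow_nv_pow (v : HeightOneSpectrum (𝓞 F)) (a : 𝓞 F) (j : ℕ) :
    a ^ (nv v ^ j) - a ∈ v.asIdeal := by
  induction j with
  | zero => simp
  | succ j ih =>
    have h1 : a ^ (nv v ^ (j + 1)) - a =
        ((a ^ (nv v ^ j)) ^ nv v - a ^ (nv v ^ j)) + (a ^ (nv v ^ j) - a) := by
      rw [← pow_mul, ← pow_succ]
      ring
    rw [h1]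
    exact v.asIdeal.add_mem (p9_pow_nv v _) ih

/-- cube roots modulo `λ` -/
theorem cube_root_mod (hU : UL e) (f : HeightOneSpectrum (𝓞 F) → F)
    (hf : ∀ v : HeightOneSpectrum (𝓞 F), (3 : 𝓞 F) ∈ v.asIdeal → v.valuation F (f v) ≤ 1) :
    ∃ x : 𝓞 F, ∀ v : HeightOneSpectrum (𝓞 F), (3 : 𝓞 F) ∈ v.asIdeal →
      v.valuation F ((x : F) ^ 3 - f v) < 1 := by
  obtain ⟨x0, hx0⟩ := approx e hU f hf 1
  have hfin := finite_three (F := F)
  set E : ℕ := ∏ v ∈ hfin.toFinset, Nat.log 3 (nv v) with hE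
  have hE0 : 0 < E := by
    refine Finset.prod_pos fun v hv => ?_
    have h3 : (3 : 𝓞 F) ∈ v.asIdeal := by simpa using hv
    exact (nv_three v h3).2
  refine ⟨x0 ^ 3 ^ (E - 1), fun v h3 => ?_⟩
  have hmem : v ∈ hfin.toFinset := by simpa using h3
  obtain ⟨j, hj⟩ := Finset.dvd_prod_of_mem (fun v => Nat.log 3 (nv v)) hmem
  have h4 : (x0 ^ 3 ^ (E - 1)) ^ 3 = x0 ^ (nv v ^ j) := by
    rw [← pow_mul, ← pow_succ, Nat.sub_add_cancel hE0]
    congr 1
    rw [(nv_three v h3).1, ← pow_mul]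
    congr 1
  have h5 : (x0 ^ 3 ^ (E - 1)) ^ 3 - x0 ∈ v.asIdeal := by
    rw [h4]
    exact p9_pow_nv_pow v x0 j
  have h6 : v.valuation F (((x0 ^ 3 ^ (E - 1)) ^ 3 - x0 : 𝓞 F) : F) < 1 :=
    (v.valuation_lt_one_iff_mem _).2 h5
  have h7 : v.valuation F ((x0 : F) - f v) < 1 := by
    refine lt_of_le_of_lt (hx0 v h3) ?_
    rw [pow_one, val_lF e hU h3]
    exact p9_exp_lt
  have h8 : ((x0 ^ 3 ^ (E - 1) : 𝓞 F) : F) ^ 3 - f v =
      (((x0 ^ 3 ^ (E - 1)) ^ 3 - x0 : 𝓞 F) : F) + ((x0 : F) - f v) := by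
    push_cast
    ring
  rw [h8]
  exact Valuation.map_add_lt _ h6 h7

theorem p9_exists_three : ∃ v : HeightOneSpectrum (𝓞 F), (3 : 𝓞 F) ∈ v.asIdeal := by
  have h1 : Ideal.span {(3 : 𝓞 F)} ≠ ⊤ := by
    intro h
    rw [Ideal.span_singleton_eq_top] at h
    have h2 : Ideal.absNorm (Ideal.span {((3 : ℕ) : 𝓞 F)}) = 1 := by
      rw [Ideal.absNorm_eq_one_iff, Ideal.span_singleton_eq_top]
      exact_mod_cast h
    rw [Ideal.absNorm_span_natCast] at h2
    have h3 : 0 < Module.finrank ℤ (𝓞 F) := Module.finrank_pos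
    have h4 := (Nat.pow_eq_one.1 h2)
    omega
  obtain ⟨P, hPm, hP⟩ := Ideal.exists_le_maximal _ h1
  have h2 : (3 : 𝓞 F) ∈ P := hP (Ideal.mem_span_singleton_self 3)
  refine ⟨⟨P, hPm.isPrime, ?_⟩, h2⟩
  rintro rfl
  rw [Ideal.mem_bot] at h2
  exact absurd h2 (by norm_num)

/-- **elements congruent to `1` modulo `λ⁴` are local cubes** -/
theorem cube_approx (hU : UL e) (z : F)
    (hz : ∀ v : HeightOneSpectrum (𝓞 F), (3 : 𝓞 F) ∈ v.asIdeal →
      v.valuation F (z - 1) ≤ v.valuation F (lF e) ^ 4) (N : ℕ) :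
    ∃ c : F, c ≠ 0 ∧ ∀ v : HeightOneSpectrum (𝓞 F), (3 : 𝓞 F) ∈ v.asIdeal →
      v.valuation F (z * c ^ 3 - 1) ≤ v.valuation F (lF e) ^ N := by
  have hl := lF_ne e
  have hl1 : ∀ v : HeightOneSpectrum (𝓞 F), (3 : 𝓞 F) ∈ v.asIdeal →
      v.valuation F (lF e) < 1 := by
    intro v h3
    rw [val_lF e hU h3]
    exact p9_exp_lt
  have key : ∀ m : ℕ, ∃ c : F, c ≠ 0 ∧ ∀ v : HeightOneSpectrum (𝓞 F), (3 : 𝓞 F) ∈ v.asIdeal →
      v.valuation F (z * c ^ 3 - 1) ≤ v.valuation F (lF e) ^ (m + 4) := by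
    intro m
    induction m with
    | zero => exact ⟨1, one_ne_zero, fun v h3 => by simpa using hz v h3⟩
    | succ m ih =>
      obtain ⟨c, hc0, hc⟩ := ih
      set l := lF e with hld
      set o : F := ((e om : 𝓞 F) : F) with ho
      set s := (z * c ^ 3 - 1) / l ^ (m + 4) with hs
      have hsI : I3 s := by
        intro v h3
        rw [hs, map_div₀, map_pow]
        exact div_le_one_of_le₀ (hc v h3) zero_le
      have hlI : I3 l := I3.int _
      have hoI : I3 o := I3.int _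
      have hpow : ∀ {x : F}, I3 x → ∀ n : ℕ, I3 (x ^ n) := by
        intro x hx n v h3
        rw [map_pow]
        exact pow_le_one₀ zero_le (hx v h3)
      have h1 : I3 (1 : F) := by
        intro v h3
        rw [map_one]
      have e1 : z * c ^ 3 = 1 + l ^ (m + 4) * s := by
        rw [hs]
        field_simp
        ring
      have h3F := three_lF e
      have e2 : z * (c * (1 + o * l ^ (m + 2) * s)) ^ 3 - 1 = l ^ (m + 1 + 4) *
          (-(l ^ (m + 3) * s ^ 2) + (1 + l ^ (m + 4) * s) *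
            (-(o * l ^ (m + 1) * s ^ 2) + l ^ (2 * m + 1) * s ^ 3)) := by
        have hom := om_F e
        rw [← ho] at hom
        have q1 : l ^ (m + 2) = l ^ m * l ^ 2 := pow_add _ _ _
        have q2 : l ^ (m + 1 + 4) = l ^ m * l ^ 5 := by ring
        have q3 : l ^ (m + 3) = l ^ m * l ^ 3 := pow_add _ _ _
        have q4 : l ^ (m + 4) = l ^ m * l ^ 4 := pow_add _ _ _
        have q5 : l ^ (m + 1) = l ^ m * l := pow_succ _ _
        have q6 : l ^ (2 * m + 1) = (l ^ m) ^ 2 * l := by ring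
        rw [q4] at e1
        rw [q1, q2, q3, q4, q5, q6]
        generalize l ^ m = P at e1 ⊢
        clear_value s
        linear_combination (1 + o * (P * l ^ 2) * s) ^ 3 * e1 +
          (1 + P * l ^ 4 * s) * (o * (P * l ^ 2) * s + (o * (P * l ^ 2) * s) ^ 2) * h3F +
          (1 + P * l ^ 4 * s) * (o - 1) *
            (-(P * l ^ 4 * s) - o * P ^ 2 * l ^ 6 * s ^ 2 + P ^ 3 * l ^ 6 * s ^ 3) * hom
      have e3 : ∀ v : HeightOneSpectrum (𝓞 F), (3 : 𝓞 F) ∈ v.asIdeal →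
          v.valuation F (z * (c * (1 + o * l ^ (m + 2) * s)) ^ 3 - 1) ≤
            v.valuation F l ^ (m + 1 + 4) := by
        intro v h3
        rw [e2, map_mul, map_pow]
        refine mul_le_of_le_one_right zero_le ?_
        refine I3.add ?_ ?_ v h3
        · exact I3.neg (I3.mul (hpow hlI _) (hpow hsI _))
        · refine I3.mul (I3.add h1 (I3.mul (hpow hlI _) hsI)) (I3.add (I3.neg ?_) ?_)
          · exact I3.mul (I3.mul hoI (hpow hlI _)) (hpow hsI _)
          · exact I3.mul (hpow hlI _) (hpow hsI _)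
      refine ⟨c * (1 + o * l ^ (m + 2) * s), ?_, e3⟩
      intro h0
      obtain ⟨v, h3⟩ := p9_exists_three (F := F)
      have h4 := e3 v h3
      rw [h0] at h4
      simp only [ne_eq, OfNat.ofNat_ne_zero, not_false_eq_true, zero_pow, mul_zero, zero_sub,
        Valuation.map_neg, map_one] at h4
      exact absurd h4 (not_le.2 (pow_lt_one₀ zero_le (hl1 v h3) (by omega)))
  obtain ⟨c, hc0, hc⟩ := key N
  refine ⟨c, hc0, fun v h3 => (hc v h3).trans ?_⟩
  exact pow_le_pow_right_of_le_one' (hl1 v h3).le (by omega)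

end

end TH
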