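import Pool.Agent.MP_9ab903_nt.TH.P8
import Pool.Agent.MP_9ab903_nt.TH.P9

set_option autoImplicit false

open NumberField IsDedekindDomain
open CM27 CMT NAB CF TWR
open scoped Classical

namespace TH

/-! ## [TH-P10a] the product formula in a cubic extension, first steps (file TH/P10a.lean)

`PF e` for `k`; `X ∈ F` admissible; `Or X y` iff `HH X y = 1`. (`Or_alg`) `y ∈ k`: `HH_norm` and `PF e`. (`Or_stein`) for `α ∈ k` admissible, `u ∈ F`,
`β = 1 - α X u³ ≠ 0`: `HH(α X u³, β) = 1` (Steinberg), `HH(α, β) = HH_k(α, N β) = 1`, cubes. -/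

section
variable {k F : Type} [Field k] [NumberField k] [Field F] [NumberField F] [Algebra k F]
  (S : Cyc k F) (e : Eis →+* 𝓞 k)

theorem p10a_alg_ne {y : k} (hy : y ≠ 0) : algebraMap k F y ≠ 0 := by
  rw [Ne, map_eq_zero]
  exact hy

theorem p10a_lF : lF (eu k F e) = algebraMap k F (lF e) := by
  change algebraMap (𝓞 F) F (algebraMap (𝓞 k) (𝓞 F) (e la)) =
    algebraMap k F (algebraMap (𝓞 k) k (e la))
  rw [← IsScalarTower.algebraMap_apply, ← IsScalarTower.algebraMap_apply]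

include S in
theorem Or_alg (hU : UL (eu k F e)) (hP : PF e) {X : F} (hX : AdG (eu k F e) X) {y : k}
    (hy : y ≠ 0) : Or (eu k F e) X (algebraMap k F y) := by
  refine ⟨p10a_alg_ne hy, ?_⟩
  rw [HH_norm S e hU hX hy]
  exact hP _ _ (AdG.norm S e hX) hy

include S in
theorem Or_stein (hU : UL (eu k F e)) (hP : PF e) {X : F} (hX : AdG (eu k F e) X) {α : k}
    (hα : AdG e α) {u : F} (hu : u ≠ 0) (hβ : 1 - algebraMap k F α * X * u ^ 3 ≠ 0) :
    Or (eu k F e) X (1 - algebraMap k F α * X * u ^ 3) := by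
  refine ⟨hβ, ?_⟩
  set β : F := 1 - algebraMap k F α * X * u ^ 3 with hβd
  have hαF : AdG (eu k F e) (algebraMap k F α) := AdG.alg e hα
  have h1 : AdG (eu k F e) (algebraMap k F α * X * u ^ 3) :=
    ((hαF.mul _ hX).mul _ (AdG_cube _ hu))
  have h2 : HH (eu k F e) (algebraMap k F α * X * u ^ 3) β = 1 :=
    HH_steinberg _ hU h1 hβ (by rw [hβd]; ring)
  rw [HH_cube_left _ (mul_ne_zero (hαF.ne_zero _) (hX.ne_zero _)) hβ hu, HH_mul_left _ hαF hX hβ,
    HH_alg S e hU hα hβ, hP _ _ hα (by rw [Ne, Algebra.norm_eq_zero_iff]; exact hβ), one_mul] at h2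
  exact h2

include S in
/-- the first argument in `k` -/
theorem Or_of_alg (hU : UL (eu k F e)) (hP : PF e) {x : k} (hx : AdG e x) {y : F} (hy : y ≠ 0) :
    Or (eu k F e) (algebraMap k F x) y := by
  refine ⟨hy, ?_⟩
  rw [HH_alg S e hU hx hy]
  exact hP _ _ hx (by rw [Ne, Algebra.norm_eq_zero_iff]; exact hy)

include S in
/-- `z + τ`, `X = 1 - λ³ τ`, `z ∈ k` integral above `3`: `α = (1 + λ³ z)⁻¹`, `1 - α X = λ³ (z + τ) / (1 + λ³ z)`. -/
theorem Or_add (hU : UL (eu k F e)) (hP : PF e) {τ : F} (hτ : I3 τ) {z : k} (hz : I3 z)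
    (h0 : algebraMap k F z + τ ≠ 0) :
    Or (eu k F e) (1 - lF (eu k F e) ^ 3 * τ) (algebraMap k F z + τ) := by
  have hX : AdG (eu k F e) (1 - lF (eu k F e) ^ 3 * τ) := AdG_one_sub _ hτ
  set X : F := 1 - lF (eu k F e) ^ 3 * τ with hXd
  have hα0 : AdG e (1 - lF e ^ 3 * (-z)) := AdG_one_sub e hz.neg
  have hα : AdG e (1 - lF e ^ 3 * (-z))⁻¹ := hα0.inv e
  have hne : (1 - lF e ^ 3 * (-z)) ≠ 0 := hα0.ne_zero e
  have hneF : algebraMap k F (1 - lF e ^ 3 * (-z)) ≠ 0 := p10a_alg_ne hne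
  have hl : lF (eu k F e) ≠ 0 := lF_ne _
  have h1 : 1 - algebraMap k F (1 - lF e ^ 3 * (-z))⁻¹ * X * 1 ^ 3 =
      (algebraMap k F z + τ) * (lF (eu k F e) ^ 3 * algebraMap k F (1 - lF e ^ 3 * (-z))⁻¹) := by
    rw [map_inv₀, one_pow, mul_one]
    have e1 : algebraMap k F (1 - lF e ^ 3 * (-z)) = 1 + lF (eu k F e) ^ 3 * algebraMap k F z := by
      rw [map_sub, map_one, map_mul, map_pow, map_neg, ← p10a_lF]
      ring
    have h2 : 1 + lF (eu k F e) ^ 3 * algebraMap k F z ≠ 0 := by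
      rw [← e1]
      exact hneF
    rw [e1, hXd]
    field_simp
    ring
  have h3 : (algebraMap k F z + τ) *
      (lF (eu k F e) ^ 3 * algebraMap k F (1 - lF e ^ 3 * (-z))⁻¹) ≠ 0 :=
    mul_ne_zero h0 (mul_ne_zero (pow_ne_zero 3 hl) (p10a_alg_ne (inv_ne_zero hne)))
  have h4 := Or_stein S e hU hP hX hα (u := 1) one_ne_zero (by rw [h1]; exact h3)
  rw [h1] at h4
  exact Or.of_mul _ hX h4
    ((Or_cube _ hX hl).mul _ hX (Or_alg S e hU hP hX (inv_ne_zero hne)))

/-- an element of `k` with order one at one place above `3` -/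
theorem exists_unif (hU : UL e) (v : HeightOneSpectrum (𝓞 k)) (h3 : (3 : 𝓞 k) ∈ v.asIdeal) :
    ∃ c : 𝓞 k, c ≠ 0 ∧ od v (c : k) = -1 ∧
      ∀ v' : HeightOneSpectrum (𝓞 k), (3 : 𝓞 k) ∈ v'.asIdeal → v' ≠ v → od v' (c : k) = 0 := by
  have hlt : ∀ w : HeightOneSpectrum (𝓞 k), (3 : 𝓞 k) ∈ w.asIdeal →
      w.valuation k (lF e) < 1 := fun w hw => by
    rw [val_lF e hU hw, ← WithZero.exp_zero, WithZero.exp_lt_exp]
    norm_num
  obtain ⟨c, hc⟩ := approx e hU (fun w => if w = v then lF e else 1) (fun w hw => by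
    by_cases h : w = v
    · simp only [if_pos h]
      exact (hlt w hw).le
    · simp only [if_neg h]
      rw [map_one]) 2
  have hcv : v.valuation k (c : k) = v.valuation k (lF e) := by
    have h1 := hc v h3
    simp only [if_true] at h1
    have h2 : v.valuation k ((c : k) - lF e) < v.valuation k (lF e) := by
      refine lt_of_le_of_lt h1 ?_
      rw [sq]
      calc v.valuation k (lF e) * v.valuation k (lF e) < v.valuation k (lF e) * 1 := by
            refine mul_lt_mul_of_pos_left (hlt v h3) ?_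
            exact zero_lt_iff.2 (val_ne v (lF_ne e))
        _ = v.valuation k (lF e) := mul_one _
    have h4 : (c : k) = lF e + ((c : k) - lF e) := by ring
    rw [h4]
    exact Valuation.map_add_eq_of_lt_left _ h2
  refine ⟨c, fun h => ?_, ?_, fun v' h3' hne => ?_⟩
  · rw [h] at hcv
    simp only [map_zero] at hcv
    exact val_ne v (lF_ne e) hcv.symm
  · rw [od_eq_of_val v hcv, od_lF e hU h3]
  · have h1 := hc v' h3'
    simp only [if_neg hne] at h1
    have h2 : v'.valuation k ((c : k) - 1) < v'.valuation k (1 : k) := by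
      rw [map_one]
      refine lt_of_le_of_lt h1 ?_
      exact pow_lt_one₀ zero_le (hlt v' h3') two_ne_zero
    have h4 : (c : k) = 1 + ((c : k) - 1) := by ring
    have h5 : v'.valuation k (c : k) = 1 := by
      rw [h4, Valuation.map_add_eq_of_lt_left _ h2, map_one]
    rw [od, h5, WithZero.log_one]

end

end TH
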