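import Pool.Agent.MP_9ab903_nt.TH.P10a

set_option autoImplicit false

open NumberField IsDedekindDomain
open CM27 CMT NAB CF TWR
open scoped Classical

namespace TH

/-! ## [TH-P10b] the product formula in a cubic extension, first steps (file TH/P10b.lean) -/

section
variable {k F : Type} [Field k] [NumberField k] [Field F] [NumberField F] [Algebra k F]
  (S : Cyc k F) (e : Eis →+* 𝓞 k)

theorem p10b_exp_lt : (WithZero.exp (-1 : ℤ) : WithZero (Multiplicative ℤ)) < 1 := by
  rw [← WithZero.exp_zero]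
  exact WithZero.exp_lt_exp.2 (by norm_num)

theorem p10b_res (w : HeightOneSpectrum (𝓞 F)) (h : nv w = nv (und k w)) (r : 𝓞 F) :
    ∃ t : 𝓞 k, algebraMap (𝓞 k) (𝓞 F) t - r ∈ w.asIdeal := by
  obtain ⟨y, hy⟩ := rmap_surjective w h (Ideal.Quotient.mk w.asIdeal r)
  obtain ⟨t, rfl⟩ := Ideal.Quotient.mk_surjective y
  refine ⟨t, ?_⟩
  rw [rmap_mk] at hy
  exact Ideal.Quotient.eq.1 hy

theorem p10b_approx (w : HeightOneSpectrum (𝓞 F)) (h : nv w = nv (und k w)) {τ : F}
    (hτ : w.valuation F τ ≤ 1) :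
    ∃ t : 𝓞 k, w.valuation F (algebraMap k F (t : k) + τ) < 1 := by
  obtain ⟨r, hr⟩ := approx_int τ w hτ
  obtain ⟨t, ht⟩ := p10b_res w h r
  refine ⟨-t, ?_⟩
  have h1 : w.valuation F ((algebraMap (𝓞 k) (𝓞 F) t - r : 𝓞 F) : F) < 1 :=
    (w.valuation_lt_one_iff_mem _).2 ht
  have h2 : algebraMap k F ((-t : 𝓞 k) : k) + τ =
      -((algebraMap (𝓞 k) (𝓞 F) t - r : 𝓞 F) : F) + (τ - r) := by
    have h3 : algebraMap k F ((-t : 𝓞 k) : k) = -((algebraMap (𝓞 k) (𝓞 F) t : 𝓞 F) : F) := by
      push_cast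
      rfl
    rw [h3]
    push_cast
    ring
  rw [h2]
  refine Valuation.map_add_lt _ ?_ hr
  rw [Valuation.map_neg]
  exact h1

include S in
/-- **Step 1a.** -/
theorem step1a (hU : UL (eu k F e)) (hP : PF e) {τ : F} (hτ : I3 τ)
    (w : HeightOneSpectrum (𝓞 F)) (h3 : (3 : 𝓞 F) ∈ w.asIdeal) :
    ∃ h : F, Or (eu k F e) (1 - lF (eu k F e) ^ 3 * τ) h ∧ (3 : ℤ) ∣ od w h + 1 ∧
      ∀ w' : HeightOneSpectrum (𝓞 F), (3 : 𝓞 F) ∈ w'.asIdeal → w' ≠ w → t3 w' h := by
  have hUk : UL e := UL.of_alg e hU
  have hX : AdG (eu k F e) (1 - lF (eu k F e) ^ 3 * τ) := AdG_one_sub (eu k F e) hτ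
  have hram := not_ram_three S e hU
  by_cases hsw : S.sw w = w
  · have h3v : (3 : 𝓞 k) ∈ (und k w).asIdeal := (three_und w).2 h3
    obtain ⟨c, hc0, hc1, hc2⟩ := exists_unif e hUk (und k w) h3v
    have hc0' : (c : k) ≠ 0 := fun h => hc0 (by exact_mod_cast h)
    refine ⟨algebraMap k F (c : k), Or_alg S e hU hP hX hc0', ?_, ?_⟩
    · have h4 : od w (algebraMap k F (c : k)) = od (und k w) (c : k) := by
        rw [od, od, hram w h3]
      rw [h4, hc1]
      norm_num
    · intro w' h3' hne
      have h4 : od w' (algebraMap k F (c : k)) = od (und k w') (c : k) := by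
        rw [od, od, hram w' h3']
      have h5 : und k w' ≠ und k w := by
        intro h
        rcases S.above w w' h with h | h | h
        · exact hne h
        · exact hne (h.trans hsw)
        · exact hne (h.trans (by rw [hsw, hsw]))
      rw [t3, h4, hc2 _ ((three_und w').2 h3') h5]
      exact dvd_zero 3
  · have hnv : nv w = nv (und k w) := by
      rcases kinds S w with h | h | h
      · exact h.2.1
      · exact absurd h.1 hsw
      · exact absurd h.1 hsw
    obtain ⟨t, ht⟩ := p10b_approx w hnv (hτ w h3)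
    set l := lF (eu k F e) with hl
    set o : F := (((eu k F e) om : 𝓞 F) : F) with ho
    have hlk : algebraMap k F (lF e) = l := rfl
    have hl1 : w.valuation F l < 1 := by
      rw [val_lF (eu k F e) hU h3]
      exact p10b_exp_lt
    have hl0 : l ≠ 0 := lF_ne (eu k F e)
    have hoI : I3 o := I3.int _
    have hlI : I3 l := I3.int _
    have hom : o ^ 2 + o + 1 = 0 := om_F (eu k F e)
    have h3F : (3 : F) = -o ^ 2 * l ^ 2 := three_lF (eu k F e)
    set T : F := algebraMap k F (t : k) with hT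
    have hTI : I3 T := I3.int (algebraMap (𝓞 k) (𝓞 F) t)
    set α : k := 1 - lF e ^ 3 * (t : k) with hα
    have hαA : AdG e α := AdG_one_sub e (I3.int t)
    have hαF : algebraMap k F α = 1 - l ^ 3 * T := by
      rw [hα, map_sub, map_one, map_mul, map_pow, hlk]
    set ρ : F := T + τ - l ^ 3 * T * τ with hρ
    have hαX : algebraMap k F α * (1 - l ^ 3 * τ) = 1 - l ^ 3 * ρ := by
      rw [hαF, hρ]
      ring
    have hρ1 : w.valuation F ρ < 1 := by
      have h4 : ρ = (T + τ) + -(l ^ 3 * T * τ) := by rw [hρ]; ring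
      rw [h4]
      refine Valuation.map_add_lt _ ht ?_
      rw [Valuation.map_neg, map_mul, map_mul, map_pow]
      refine mul_lt_one_of_lt_of_le (mul_lt_one_of_lt_of_le ?_ (hTI w h3)) (hτ w h3)
      exact pow_lt_one₀ zero_le hl1 (by norm_num)
    have hl0' : w.valuation F l ≠ 0 := (Valuation.ne_zero_iff _).2 hl0
    have hρ2 : w.valuation F ρ ≤ w.valuation F l := by
      have h4 := (val_lt_iff_le (eu k F e) hU h3 ρ 0).1 (by simpa using hρ1)
      simpa using h4
    obtain ⟨q, hq⟩ : ∃ q : F, ρ = l * q := ⟨ρ / l, by field_simp⟩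
    have hq1 : w.valuation F q ≤ 1 := by
      rw [hq, map_mul] at hρ2
      by_contra h4
      have h5 := mul_lt_mul_of_pos_left (not_le.1 h4) (zero_lt_iff.2 hl0')
      rw [mul_one] at h5
      exact absurd hρ2 (not_le.2 h5)
    have ho1 : w.valuation F o = 1 := by
      have h4 : o * o ^ 2 = 1 := by linear_combination (o - 1) * hom
      have h5 : w.valuation F o * w.valuation F (o ^ 2) = 1 := by
        rw [← map_mul, h4, map_one]
      refine le_antisymm (hoI w h3) ?_
      rw [← h5]
      refine mul_le_of_le_one_right zero_le ?_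
      rw [map_pow]
      exact pow_le_one₀ zero_le (hoI w h3)
    obtain ⟨s, hs, hqs⟩ : ∃ s : F, (s = 0 ∨ s = 1) ∧ w.valuation F (q + o ^ 2 * s) = 1 := by
      rcases hq1.eq_or_lt with h4 | h4
      · exact ⟨0, Or.inl rfl, by rw [mul_zero, add_zero, h4]⟩
      · refine ⟨1, Or.inr rfl, ?_⟩
        have h5 : w.valuation F (o ^ 2 * 1) = 1 := by
          rw [mul_one, map_pow, ho1, one_pow]
        rw [Valuation.map_add_eq_of_lt_right _ (by rw [h5]; exact h4), h5]
    have hsI : I3 s := by
      rcases hs with rfl | rfl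
      · intro v h4
        simp
      · intro v h4
        simp
    obtain ⟨u, hu⟩ := approx (eu k F e) hU (fun v => if v = w then 1 + l ^ 2 * s else 0)
      (by
        intro v h4
        by_cases hv : v = w
        · simp only [hv, if_true]
          refine I3.add ?_ (I3.mul ?_ hsI) w h3
          · intro v h4
            rw [map_one]
          · intro v h4
            rw [map_pow]
            exact pow_le_one₀ zero_le (hlI v h4)
        · simp [hv]) 5
    have huw := hu w h3
    simp only [if_true] at huw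
    rw [← hl] at huw
    obtain ⟨r, hr⟩ : ∃ r : F, (u : F) = 1 + l ^ 2 * s + l ^ 5 * r :=
      ⟨((u : F) - (1 + l ^ 2 * s)) / l ^ 5, by field_simp; ring⟩
    have hr1 : w.valuation F r ≤ 1 := by
      have h4 : (u : F) - (1 + l ^ 2 * s) = l ^ 5 * r := by rw [hr]; ring
      rw [h4, map_mul, map_pow] at huw
      by_contra h5
      have h6 := mul_lt_mul_of_pos_left (not_le.1 h5) (zero_lt_iff.2 (pow_ne_zero 5 hl0'))
      rw [mul_one] at h6
      exact absurd huw (not_le.2 h6)
    set X : F := 1 - l ^ 3 * τ with hXd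
    set β : F := 1 - algebraMap k F α * X * (u : F) ^ 3 with hβd
    set R1 : F := -(o ^ 2 * l ^ 2 * r) - o ^ 2 * l * (s + l ^ 3 * r) ^ 2 +
      l * (s + l ^ 3 * r) ^ 3 with hR1
    set R : F := -R1 + q * (-(o ^ 2 * l ^ 3 * s) + l ^ 4 * R1) with hR
    have hβ1 : β = l ^ 4 * (q + o ^ 2 * s) + l ^ 5 * R := by
      have h4 : (u : F) ^ 3 = 1 - o ^ 2 * l ^ 4 * s + l ^ 5 * R1 := by
        rw [hr, hR1]
        linear_combination ((l ^ 2 * s + l ^ 5 * r) + (l ^ 2 * s + l ^ 5 * r) ^ 2) * h3F
      rw [hβd, hαX, hq, h4, hR]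
      ring
    have hint : ∀ x : F, x ∈ (w.valuation F).integer ↔ w.valuation F x ≤ 1 := fun x => Iff.rfl
    have m1 : l ∈ (w.valuation F).integer := (hint _).2 (hlI w h3)
    have m2 : o ∈ (w.valuation F).integer := (hint _).2 (hoI w h3)
    have m3 : r ∈ (w.valuation F).integer := (hint _).2 hr1
    have m4 : s ∈ (w.valuation F).integer := (hint _).2 (hsI w h3)
    have m5 : q ∈ (w.valuation F).integer := (hint _).2 hq1
    have m6 : s + l ^ 3 * r ∈ (w.valuation F).integer :=
      add_mem m4 (mul_mem (pow_mem m1 3) m3)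
    have m7 : R1 ∈ (w.valuation F).integer := by
      rw [hR1]
      exact add_mem (sub_mem (neg_mem (mul_mem (mul_mem (pow_mem m2 2) (pow_mem m1 2)) m3))
        (mul_mem (mul_mem (pow_mem m2 2) m1) (pow_mem m6 2))) (mul_mem m1 (pow_mem m6 3))
    have m8 : R ∈ (w.valuation F).integer := by
      rw [hR]
      exact add_mem (neg_mem m7) (mul_mem m5 (add_mem (neg_mem (mul_mem (mul_mem (pow_mem m2 2)
        (pow_mem m1 3)) m4)) (mul_mem (pow_mem m1 4) m7)))
    have hβv : w.valuation F β = w.valuation F l ^ 4 := by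
      have h4 : w.valuation F (l ^ 4 * (q + o ^ 2 * s)) = w.valuation F l ^ 4 := by
        rw [map_mul, hqs, mul_one, map_pow]
      have h5 : w.valuation F (l ^ 5 * R) < w.valuation F (l ^ 4 * (q + o ^ 2 * s)) := by
        rw [h4, map_mul, map_pow]
        refine lt_of_le_of_lt (mul_le_of_le_one_right zero_le ((hint _).1 m8)) ?_
        rw [pow_succ]
        have h6 := mul_lt_mul_of_pos_left hl1 (zero_lt_iff.2 (pow_ne_zero 4 hl0'))
        rwa [mul_one] at h6
      rw [hβ1, Valuation.map_add_eq_of_lt_left _ h5, h4]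
    have hβ0 : β ≠ 0 := by
      intro h4
      rw [h4, map_zero] at hβv
      exact pow_ne_zero 4 hl0' hβv.symm
    have hu0 : (u : F) ≠ 0 := by
      intro h4
      rw [hβd, h4] at hβv
      simp only [ne_eq, OfNat.ofNat_ne_zero, not_false_eq_true, zero_pow, mul_zero, sub_zero,
        map_one] at hβv
      exact absurd hβv.symm (pow_lt_one₀ zero_le hl1 (by norm_num)).ne
    refine ⟨β, Or_stein S e hU hP hX hαA hu0 hβ0, ?_, ?_⟩
    · have h4 : od w β = 4 * od w l := by
        rw [od_eq_of_val w (hβv.trans (map_pow _ _ _).symm), od_pow]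
        norm_num
      rw [h4, od_lF (eu k F e) hU h3]
      norm_num
    · intro w' h3' hne
      have h4 := hu w' h3'
      simp only [if_neg hne, sub_zero] at h4
      have h5 : w'.valuation F ((u : F)) < 1 := by
        refine lt_of_le_of_lt h4 (pow_lt_one₀ zero_le ?_ (by norm_num))
        rw [val_lF (eu k F e) hU h3']
        exact p10b_exp_lt
      have h6 : w'.valuation F (algebraMap k F α * X * (u : F) ^ 3) < 1 := by
        rw [hαX, map_mul, map_pow]
        refine lt_of_le_of_lt (mul_le_of_le_one_left zero_le ?_)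
          (pow_lt_one₀ zero_le h5 (by norm_num))
        have hone : I3 (1 : F) := fun v _ => by rw [map_one]
        have hl3 : I3 (l ^ 3) := fun v h => by
          rw [map_pow]
          exact pow_le_one₀ zero_le (hlI v h)
        have hρI : I3 ρ := by
          have h7 : ρ = (T + τ) + -(l ^ 3 * T * τ) := by rw [hρ]; ring
          rw [h7]
          exact I3.add (I3.add hTI hτ) (I3.neg (I3.mul (I3.mul hl3 hTI) hτ))
        rw [sub_eq_add_neg]
        exact I3.add hone (I3.neg (I3.mul hl3 hρI)) w' h3'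
      have h7 : w'.valuation F β = 1 := Valuation.map_one_sub_of_lt _ h6
      rw [t3, od, h7, WithZero.log_one]
      exact dvd_zero 3

end

end TH
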