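import Pool.Agent.MP_9ab903_nt.TH.P10b

set_option autoImplicit false

open NumberField IsDedekindDomain
open CM27 CMT NAB CF TWR
open scoped Classical

namespace TH

/-! ## [TH-P10c] the product formula in a cubic extension, first steps (file TH/P10c.lean)

`PF e` for `k`; `X ∈ F` admissible; `Or X y` iff `HH X y = 1`. (`Or_alg`) `y ∈ k`: `HH_norm` and `PF e`. (`Or_stein`) for `α ∈ k` admissible, `u ∈ F`,
`β = 1 - α X u³ ≠ 0`: `HH(α X u³, β) = 1` (Steinberg), `HH(α, β) = HH_k(α, N β) = 1`, cubes. -/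

section
variable {F : Type} [Field F] [NumberField F] (e : Eis →+* 𝓞 F)

theorem p10c_or_one {X : F} (hX : AdG e X) : Or e X 1 := by
  have h := Or_cube e hX (u := (1 : F)) one_ne_zero
  rwa [one_pow] at h

theorem p10c_or_pow {X y : F} (hX : AdG e X) (h : Or e X y) (n : ℕ) : Or e X (y ^ n) := by
  induction n with
  | zero =>
    rw [pow_zero]
    exact p10c_or_one e hX
  | succ n ih =>
    rw [pow_succ]
    exact Or.mul e hX ih h

theorem p10c_lF_lt (hU : UL e) {v : HeightOneSpectrum (𝓞 F)} (h3 : (3 : 𝓞 F) ∈ v.asIdeal) :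
    v.valuation F (lF e) < 1 := by
  rw [val_lF e hU h3, ← WithZero.exp_zero]
  exact WithZero.exp_lt_exp.2 (by norm_num)

theorem p10c_val_one {v : HeightOneSpectrum (𝓞 F)} {x : F} (hx : x ≠ 0) (h : od v x = 0) :
    v.valuation F x = 1 := by
  rw [val_eq_exp v hx, h, WithZero.exp_zero]

/-- an element with prescribed orders above `3` -/
theorem p10c_orders (hU : UL e) (m : HeightOneSpectrum (𝓞 F) → ℤ)
    (hex : ∃ v : HeightOneSpectrum (𝓞 F), (3 : 𝓞 F) ∈ v.asIdeal) :
    ∃ c : F, c ≠ 0 ∧ ∀ v : HeightOneSpectrum (𝓞 F), (3 : 𝓞 F) ∈ v.asIdeal → od v c = -m v := by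
  obtain ⟨M, hM⟩ : ∃ M : ℕ, ∀ v : HeightOneSpectrum (𝓞 F), (3 : 𝓞 F) ∈ v.asIdeal →
      (m v).natAbs ≤ M := by
    refine ⟨∑ v ∈ (finite_three (F := F)).toFinset, (m v).natAbs, fun v hv => ?_⟩
    exact Finset.single_le_sum (f := fun v => (m v).natAbs) (fun _ _ => Nat.zero_le _)
      ((finite_three (F := F)).mem_toFinset.2 hv)
  have hl0 : lF e ≠ 0 := lF_ne e
  obtain ⟨x, hx⟩ := approx e hU (fun v => lF e ^ (M + m v).toNat) (fun v hv => by
    rw [map_pow]
    exact pow_le_one' (p10c_lF_lt e hU hv).le _) (2 * M + 1)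
  have hval : ∀ v : HeightOneSpectrum (𝓞 F), (3 : 𝓞 F) ∈ v.asIdeal →
      v.valuation F (x : F) = v.valuation F (lF e ^ (M + m v).toNat) := by
    intro v hv
    have h1 := hx v hv
    have h2 : v.valuation F (lF e) ^ (2 * M + 1) < v.valuation F (lF e) ^ (M + m v).toNat := by
      have h3 := hM v hv
      refine pow_lt_pow_right_of_lt_one₀ ?_ (p10c_lF_lt e hU hv) (by omega)
      exact zero_lt_iff.2 (val_ne v hl0)
    rw [← map_pow (v.valuation F) (lF e) (M + m v).toNat] at h2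
    have h3 := lt_of_le_of_lt h1 h2
    have h4 : (x : F) = ((x : F) - lF e ^ (M + m v).toNat) + lF e ^ (M + m v).toNat := by ring
    rw [h4]
    exact Valuation.map_add_eq_of_lt_right _ h3
  have hx0 : (x : F) ≠ 0 := by
    obtain ⟨v, hv⟩ := hex
    intro h0
    have h1 := hval v hv
    rw [h0, map_zero] at h1
    exact val_ne v (pow_ne_zero _ hl0) h1.symm
  refine ⟨(x : F) * (lF e ^ M)⁻¹, mul_ne_zero hx0 (inv_ne_zero (pow_ne_zero _ hl0)), ?_⟩
  intro v hv
  rw [od_mul v hx0 (inv_ne_zero (pow_ne_zero _ hl0)), od_inv, od_eq_of_val v (hval v hv), od_pow,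
    od_pow, od_lF e hU hv]
  have h3 := hM v hv
  omega

end

section
variable {k F : Type} [Field k] [NumberField k] [Field F] [NumberField F] [Algebra k F]
  (S : Cyc k F) (e : Eis →+* 𝓞 k)

include S in
/-- the orders above `3` may be assumed to be divisible by `3` -/
theorem p10c_step (hU : UL (eu k F e)) (hP : PF e) {τ : F} (hτ : I3 τ) {y : F} (hy : y ≠ 0)
    (s : Finset (HeightOneSpectrum (𝓞 F))) (hs : ∀ w ∈ s, (3 : 𝓞 F) ∈ w.asIdeal) :
    ∃ h : F, Or (eu k F e) (1 - lF (eu k F e) ^ 3 * τ) h ∧ ∀ w ∈ s, t3 w (y * h) := by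
  have hX : AdG (eu k F e) (1 - lF (eu k F e) ^ 3 * τ) := AdG_one_sub (eu k F e) hτ
  induction s using Finset.induction_on with
  | empty => exact ⟨1, p10c_or_one _ hX, fun w hw => absurd hw (Finset.notMem_empty w)⟩
  | insert w₀ s hw₀ ih =>
    obtain ⟨h, hO, ht⟩ := ih fun w hw => hs w (Finset.mem_insert_of_mem hw)
    have h3 : (3 : 𝓞 F) ∈ w₀.asIdeal := hs w₀ (Finset.mem_insert_self _ _)
    obtain ⟨g, hgO, hg1, hg2⟩ := step1a S e hU hP hτ w₀ h3
    have hh0 : h ≠ 0 := hO.1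
    have hg0 : g ≠ 0 := hgO.1
    have hyh : y * h ≠ 0 := mul_ne_zero hy hh0
    obtain ⟨n, hn⟩ : ∃ n : ℕ, (n : ℤ) = od w₀ (y * h) % 3 :=
      ⟨(od w₀ (y * h) % 3).toNat, Int.toNat_of_nonneg (Int.emod_nonneg _ (by norm_num))⟩
    refine ⟨h * g ^ n, Or.mul _ hX hO (p10c_or_pow _ hX hgO n), ?_⟩
    intro w hw
    have hod : od w (y * (h * g ^ n)) = od w (y * h) + n * od w g := by
      rw [← mul_assoc, od_mul w hyh (pow_ne_zero n hg0), od_pow]
    rw [t3, hod]
    rcases Finset.mem_insert.1 hw with rfl | hws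
    · obtain ⟨c, hc⟩ := hg1
      have h4 : od w g = 3 * c - 1 := by linarith
      rw [h4, hn]
      have h5 : od w (y * h) % 3 + 3 * (od w (y * h) / 3) = od w (y * h) :=
        Int.emod_add_mul_ediv _ _
      refine ⟨od w (y * h) / 3 + (od w (y * h) % 3) * c, ?_⟩
      linear_combination (-1) * h5
    · have hne : w ≠ w₀ := by
        rintro rfl
        exact hw₀ hws
      exact dvd_add (ht w hws) (Dvd.dvd.mul_left (hg2 w (hs w hw) hne) _)

include S in
/-- **Step 1b.** The orders above `3` may be assumed to be divisible by `3`, and then (multiply by a cube, `approx`; `cube_root_mod`) `y ≡ 1` modulo all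
places above `3`. -/
theorem step1b (hU : UL (eu k F e)) (hP : PF e) {τ : F} (hτ : I3 τ) {y : F} (hy : y ≠ 0) :
    ∃ h : F, Or (eu k F e) (1 - lF (eu k F e) ^ 3 * τ) h ∧
      ∀ w : HeightOneSpectrum (𝓞 F), (3 : 𝓞 F) ∈ w.asIdeal →
        w.valuation F (y * h - 1) < 1 := by
  have hX : AdG (eu k F e) (1 - lF (eu k F e) ^ 3 * τ) := AdG_one_sub (eu k F e) hτ
  by_cases hex : ∃ v : HeightOneSpectrum (𝓞 F), (3 : 𝓞 F) ∈ v.asIdeal
  · obtain ⟨h, hO, ht⟩ := p10c_step S e hU hP hτ hy (finite_three (F := F)).toFinset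
      (fun w hw => (finite_three (F := F)).mem_toFinset.1 hw)
    have ht' : ∀ w : HeightOneSpectrum (𝓞 F), (3 : 𝓞 F) ∈ w.asIdeal → t3 w (y * h) := fun w hw =>
      ht w ((finite_three (F := F)).mem_toFinset.2 hw)
    have hyh : y * h ≠ 0 := mul_ne_zero hy hO.1
    obtain ⟨c, hc0, hc⟩ := p10c_orders (eu k F e) hU (fun v => od v (y * h) / 3) hex
    have hy2 : y * h * c ^ 3 ≠ 0 := mul_ne_zero hyh (pow_ne_zero 3 hc0)
    have hval : ∀ w : HeightOneSpectrum (𝓞 F), (3 : 𝓞 F) ∈ w.asIdeal →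
        w.valuation F (y * h * c ^ 3) = 1 := by
      intro w hw
      refine p10c_val_one hy2 ?_
      rw [od_mul w hyh (pow_ne_zero 3 hc0), od_pow, hc w hw]
      obtain ⟨d, hd⟩ := ht' w hw
      rw [hd]
      have h5 : (3 : ℤ) * d / 3 = d := Int.mul_ediv_cancel_left d (by norm_num)
      rw [h5]
      push_cast
      ring
    obtain ⟨x, hx⟩ := cube_root_mod (eu k F e) hU (fun _ => (y * h * c ^ 3)⁻¹) (fun w hw => by
      rw [map_inv₀, hval w hw, inv_one])
    have hx0 : (x : F) ≠ 0 := by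
      obtain ⟨v, hv⟩ := hex
      intro h0
      have h1 := hx v hv
      rw [h0, zero_pow (by norm_num), zero_sub, Valuation.map_neg, map_inv₀, hval v hv,
        inv_one] at h1
      exact lt_irrefl _ h1
    refine ⟨h * (c * x) ^ 3, Or.mul _ hX hO (Or_cube _ hX (mul_ne_zero hc0 hx0)), ?_⟩
    intro w hw
    have h1 : y * (h * (c * x) ^ 3) - 1 =
        y * h * c ^ 3 * ((x : F) ^ 3 - (y * h * c ^ 3)⁻¹) := by
      rw [mul_sub, mul_inv_cancel₀ hy2]
      ring
    rw [h1, map_mul, hval w hw, one_mul]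
    exact hx w hw
  · push Not at hex
    exact ⟨1, p10c_or_one _ hX, fun w hw => absurd hw (hex w)⟩

end

end TH
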