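import Pool.Agent.MP_9ab903_nt.TH.P10

/-! ## [TH-P11a] the product formula in a cubic extension (file TH/P11a.lean)

`X = 1 - λ³ τ ∉ k`, so `τ ∉ k`. `φ z = Tr (z / ((τ - σ τ)(τ - σ² τ))) ∈ k` satisfies `φ 1 = φ τ = 0`, `φ τ² = 1`, `φ τ³ = Tr τ`, and an element `z` with
`φ z = 0` is in `k + k τ`: `z ∈ k + k τ` iff `φ z = 0` (Lagrange interpolation; `1, τ, τ²` is a basis of `F / k`). For `z ≠ 0`: `φ(z τ) - φ(z) τ` times `z` is in `k + k τ`.
`v(φ z) ≤ max_{w ∣ v} w(z) / w((τ - σ τ)(τ - σ² τ))`.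
**Step 3**: `y ≡ 1 mod λ⁴` above `3`. Choose `K ≥ 4` with `w(λ)^K < w((τ - στ)(τ - σ²τ))` for all `w ∣ 3`, and (by `cube_approx` for `(1 + λ^K τ²) / y`) `c` with
`y' = y c³ ≡ 1 + λ^K τ² mod λ^(3K)`. Then `φ(y') = λ^K (1 + small)`, `φ(y' τ) = λ^K (Tr τ + small)`, `φ(y'⁻¹) = - λ^K (1 + small)`, `φ(y'⁻¹ τ) = - λ^K (Tr τ + small)` (small: `v < 1`), so
`z₁ = - φ(y' τ) / φ(y')`, `z₂ = - φ(y'⁻¹ τ) / φ(y'⁻¹)` are integral above `3`, `y' (z₁ + τ) ∈ k + k τ` and it is a multiple (by an element of `k`) of `z₂ + τ`: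
indeed `y' (z₁ + τ) = a + b τ`, and `φ(y'⁻¹ (a + b τ)) = 0` gives `a φ(y'⁻¹) + b φ(y'⁻¹ τ) = 0`. Hence `y' = κ (z₂ + τ) / (z₁ + τ)`, `κ ∈ k`: `Or_add`, `Or_alg`. -/

set_option autoImplicit false

open NumberField IsDedekindDomain
open CM27 CMT NAB CF TWR
open scoped Classical

namespace TH

section
variable {F : Type} [Field F] [NumberField F]

/-- a `v`-integral element is a quotient with denominator prime to `v` -/
theorem p11a_frac (v : HeightOneSpectrum (𝓞 F)) {y : F} (hy : v.valuation F y ≤ 1) :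
    ∃ a m : 𝓞 F, m ∉ v.asIdeal ∧ y * (m : F) = (a : F) := by
  obtain ⟨a, b, hb, hab⟩ := IsFractionRing.div_surjective (A := 𝓞 F) y
  have hb0 : b ≠ 0 := nonZeroDivisors.ne_zero hb
  have hbF : (b : F) ≠ 0 := RingOfIntegers.coe_ne_zero_iff.2 hb0
  have hab' : (a : F) = y * b := by
    rw [← hab]
    field_simp
  have hval : v.intValuation a ≤ v.intValuation b := by
    have h1 : v.valuation F (a : F) ≤ v.valuation F (b : F) := by
      rw [hab', map_mul]
      calc v.valuation F y * v.valuation F (b : F) ≤ 1 * v.valuation F (b : F) :=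
            mul_le_mul_left hy _
        _ = _ := one_mul _
    rwa [HeightOneSpectrum.valuation_of_algebraMap, HeightOneSpectrum.valuation_of_algebraMap] at h1
  obtain ⟨n, hn⟩ : ∃ n : ℕ, v.intValuation b = WithZero.exp (-(n : ℤ)) :=
    ⟨_, HeightOneSpectrum.intValuation_eq_exp_neg_multiplicity v hb0⟩
  have hbn : b ∈ v.asIdeal ^ n := by
    rw [← HeightOneSpectrum.intValuation_le_pow_iff_mem, hn]
  obtain ⟨J, hJ⟩ : v.asIdeal ^ n ∣ Ideal.span {b} := Ideal.dvd_span_singleton.2 hbn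
  have hJv : ¬ J ≤ v.asIdeal := by
    intro hle
    have h1 : b ∈ v.asIdeal ^ (n + 1) := by
      rw [← Ideal.dvd_span_singleton, hJ, pow_succ]
      exact mul_dvd_mul_left _ (Ideal.dvd_iff_le.2 hle)
    rw [← HeightOneSpectrum.intValuation_le_pow_iff_mem, hn, WithZero.exp_le_exp] at h1
    push_cast at h1
    omega
  obtain ⟨t, htJ, htv⟩ := SetLike.not_le_iff_exists.1 hJv
  have han : a ∈ v.asIdeal ^ n := by
    rw [← HeightOneSpectrum.intValuation_le_pow_iff_mem, ← hn]
    exact hval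
  have hmem : a * t ∈ Ideal.span {b} := by
    rw [hJ]
    exact Ideal.mul_mem_mul han htJ
  obtain ⟨c, hc⟩ := Ideal.mem_span_singleton.1 hmem
  refine ⟨c, t, htv, ?_⟩
  have h1 : (a : F) * t = b * c := by
    have := congrArg (fun r : 𝓞 F => (r : F)) hc
    exact this
  rw [hab'] at h1
  apply mul_left_cancel₀ hbF
  rw [← h1]
  ring

end

section
variable {k F : Type} [Field k] [NumberField k] [Field F] [NumberField F] [Algebra k F]
  (S : Cyc k F) (e : Eis →+* 𝓞 k)

/-- the coefficient of `τ²` -/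
noncomputable def ph (τ z : F) : k :=
  Algebra.trace k F (z / ((τ - sF S τ) * (τ - sF S (sF S τ))))

theorem ph_add (τ y z : F) : ph S τ (y + z) = ph S τ y + ph S τ z := by
  unfold ph
  rw [add_div, map_add]

theorem ph_smul (τ : F) (a : k) (z : F) : ph S τ (algebraMap k F a * z) = a * ph S τ z := by
  unfold ph
  rw [mul_div_assoc, ← Algebra.smul_def, map_smul, smul_eq_mul]

theorem p11a_ne {τ : F} (hτ : sF S τ ≠ τ) : τ - sF S τ ≠ 0 ∧ sF S τ - sF S (sF S τ) ≠ 0 ∧
    τ - sF S (sF S τ) ≠ 0 := by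
  refine ⟨fun h => hτ (sub_eq_zero.1 h).symm, fun h => hτ ?_, fun h => hτ ?_⟩
  · exact (sF S).injective (sub_eq_zero.1 h).symm
  · have h1 := congrArg (sF S) (sub_eq_zero.1 h)
    rw [sF_cub] at h1
    exact h1

theorem p11a_alg (τ z : F) : algebraMap k F (ph S τ z) =
    z / ((τ - sF S τ) * (τ - sF S (sF S τ))) +
      sF S z / ((sF S τ - sF S (sF S τ)) * (sF S τ - τ)) +
      sF S (sF S z) / ((sF S (sF S τ) - τ) * (sF S (sF S τ) - sF S τ)) := by
  unfold ph
  rw [tr_sF S]
  simp only [map_div₀, map_mul, map_sub, sF_cub]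

theorem ph_one {τ : F} (hτ : sF S τ ≠ τ) : ph S τ 1 = 0 := by
  obtain ⟨h1, h2, h3⟩ := p11a_ne S hτ
  apply (algebraMap k F).injective
  rw [p11a_alg, map_zero, map_one, map_one]
  set a := τ with ha
  set b := sF S τ with hb
  set c := sF S (sF S τ) with hc
  have e1 : b - a = -(a - b) := by ring
  have e2 : c - a = -(a - c) := by ring
  have e3 : c - b = -(b - c) := by ring
  rw [e1, e2, e3]
  field_simp
  ring

theorem ph_tau {τ : F} (hτ : sF S τ ≠ τ) : ph S τ τ = 0 := by
  obtain ⟨h1, h2, h3⟩ := p11a_ne S hτ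
  apply (algebraMap k F).injective
  rw [p11a_alg, map_zero]
  set b := sF S τ with hb
  set c := sF S b with hc
  have e1 : b - τ = -(τ - b) := by ring
  have e2 : c - τ = -(τ - c) := by ring
  have e3 : c - b = -(b - c) := by ring
  rw [e1, e2, e3]
  field_simp
  ring

theorem ph_sq {τ : F} (hτ : sF S τ ≠ τ) : ph S τ (τ ^ 2) = 1 := by
  obtain ⟨h1, h2, h3⟩ := p11a_ne S hτ
  apply (algebraMap k F).injective
  rw [p11a_alg, map_one, map_pow, map_pow]
  set b := sF S τ with hb
  set c := sF S b with hc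
  have e1 : b - τ = -(τ - b) := by ring
  have e2 : c - τ = -(τ - c) := by ring
  have e3 : c - b = -(b - c) := by ring
  rw [e1, e2, e3]
  field_simp
  ring

theorem ph_cube {τ : F} (hτ : sF S τ ≠ τ) : ph S τ (τ ^ 3) = Algebra.trace k F τ := by
  obtain ⟨h1, h2, h3⟩ := p11a_ne S hτ
  apply (algebraMap k F).injective
  rw [p11a_alg, tr_sF S, map_pow, map_pow]
  set b := sF S τ with hb
  set c := sF S b with hc
  have e1 : b - τ = -(τ - b) := by ring
  have e2 : c - τ = -(τ - c) := by ring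
  have e3 : c - b = -(b - c) := by ring
  rw [e1, e2, e3]
  field_simp
  ring

theorem ph_zero {τ : F} (hτ : sF S τ ≠ τ) {z : F} (h : ph S τ z = 0) :
    ∃ a b : k, z = algebraMap k F a + algebraMap k F b * τ := by
  obtain ⟨h1, h2, h3⟩ := p11a_ne S hτ
  have h4 := congrArg (algebraMap k F) h
  rw [p11a_alg, map_zero] at h4
  set b := sF S τ with hb
  set c := sF S b with hc
  have e1 : b - τ = -(τ - b) := by ring
  have e2 : c - τ = -(τ - c) := by ring
  have e3 : c - b = -(b - c) := by ring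
  have hca : sF S c = τ := by rw [hc, hb, sF_cub]
  have h5 : (z - sF S z) / (τ - b) = (sF S z - sF S (sF S z)) / (b - c) := by
    rw [e1, e2, e3] at h4
    field_simp at h4
    rw [div_eq_div_iff h1 h2]
    linear_combination h4
  have h6 : sF S ((z - sF S z) / (τ - b)) = (z - sF S z) / (τ - b) := by
    rw [map_div₀, map_sub, map_sub, ← hb, ← hc]
    exact h5.symm
  obtain ⟨y, hy⟩ := fixed_sF S _ h6
  have h7 : sF S (z - algebraMap k F y * τ) = z - algebraMap k F y * τ := by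
    rw [map_sub, map_mul, sF_map, ← hb]
    have h8 : algebraMap k F y * (τ - b) = z - sF S z := by
      rw [hy, div_mul_cancel₀ _ h1]
    linear_combination h8
  obtain ⟨x, hx⟩ := fixed_sF S _ h7
  exact ⟨x, y, by rw [hx]; ring⟩

/-- the trace of an element which is integral above `v` -/
theorem p11a_int (v : HeightOneSpectrum (𝓞 k)) (z : F)
    (hz : ∀ w : HeightOneSpectrum (𝓞 F), und k w = v → w.valuation F z ≤ 1) :
    v.valuation k (Algebra.trace k F z) ≤ 1 := by
  -- the ideal of denominators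
  let D : Ideal (𝓞 F) :=
    { carrier := {d | ∃ x : 𝓞 F, z * (d : F) = (x : F)}
      add_mem' := by
        rintro d d' ⟨x, hx⟩ ⟨x', hx'⟩
        refine ⟨x + x', ?_⟩
        change z * ((d : F) + (d' : F)) = (x : F) + (x' : F)
        rw [mul_add, hx, hx']
      zero_mem' := ⟨0, by simp⟩
      smul_mem' := by
        rintro c d ⟨x, hx⟩
        refine ⟨c * x, ?_⟩
        change z * ((c : F) * (d : F)) = (c : F) * (x : F)
        rw [← hx]
        ring }
  have hD : ∀ d : 𝓞 F, d ∈ D ↔ ∃ x : 𝓞 F, z * (d : F) = (x : F) := fun d => Iff.rfl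
  have hnot : ¬ D.comap (algebraMap (𝓞 k) (𝓞 F)) ≤ v.asIdeal := by
    intro hle
    have hvp := v.isPrime
    obtain ⟨Q, hDQ, hQ, hQv⟩ := Ideal.exists_ideal_over_prime_of_isIntegral v.asIdeal D hle
    have hQ0 : Q ≠ ⊥ := by
      rintro rfl
      apply v.ne_bot
      rw [← hQv]
      exact Ideal.comap_bot_of_injective _ (FaithfulSMul.algebraMap_injective (𝓞 k) (𝓞 F))
    set w : HeightOneSpectrum (𝓞 F) := ⟨Q, hQ, hQ0⟩ with hw
    have hwv : und k w = v := by
      apply HeightOneSpectrum.ext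
      exact hQv
    obtain ⟨a, m, hm, ham⟩ := p11a_frac w (hz w hwv)
    exact hm (hDQ ((hD m).2 ⟨a, ham⟩))
  obtain ⟨m, hmD, hmv⟩ := SetLike.not_le_iff_exists.1 hnot
  obtain ⟨x, hx⟩ := (hD _).1 hmD
  have h1 : (m : k) * Algebra.trace k F z = Algebra.trace k F (x : F) := by
    have h2 : (x : F) = (m : k) • z := by
      rw [← hx, Algebra.smul_def, mul_comm]
      rfl
    rw [h2, map_smul, smul_eq_mul]
  have h2 : IsIntegral ℤ (Algebra.trace k F (x : F)) := Algebra.isIntegral_trace x.2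
  have h3 : v.valuation k (Algebra.trace k F (x : F)) ≤ 1 :=
    v.valuation_le_one (⟨_, h2⟩ : 𝓞 k)
  rw [← h1, map_mul, val_unit m v hmv, one_mul] at h3
  exact h3

theorem val_trace (v : HeightOneSpectrum (𝓞 k))
    (hv : ∀ w : HeightOneSpectrum (𝓞 F), und k w = v →
      ∀ x : k, w.valuation F (algebraMap k F x) = v.valuation k x) (z : F)
    (c : WithZero (Multiplicative ℤ))
    (hz : ∀ w : HeightOneSpectrum (𝓞 F), und k w = v → w.valuation F z ≤ c) :
    v.valuation k (Algebra.trace k F z) ≤ c := by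
  rcases eq_or_ne c 0 with hc | hc
  · -- there is a place above `v`
    have hvp := v.isPrime
    obtain ⟨Q, -, hQ, hQv⟩ := Ideal.exists_ideal_over_prime_of_isIntegral v.asIdeal (⊥ : Ideal (𝓞 F))
      (by
        rw [Ideal.comap_bot_of_injective _ (FaithfulSMul.algebraMap_injective (𝓞 k) (𝓞 F))]
        exact bot_le)
    have hQ0 : Q ≠ ⊥ := by
      rintro rfl
      apply v.ne_bot
      rw [← hQv]
      exact Ideal.comap_bot_of_injective _ (FaithfulSMul.algebraMap_injective (𝓞 k) (𝓞 F))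
    set w : HeightOneSpectrum (𝓞 F) := ⟨Q, hQ, hQ0⟩ with hw
    have hwv : und k w = v := by
      apply HeightOneSpectrum.ext
      exact hQv
    have h1 := hz w hwv
    rw [hc, le_zero_iff, Valuation.zero_iff] at h1
    rw [h1, map_zero, map_zero]
    exact zero_le
  · obtain ⟨y, hy⟩ := v.valuation_surjective k c
    have hy0 : y ≠ 0 := by
      rintro rfl
      rw [map_zero] at hy
      exact hc hy.symm
    have h1 := p11a_int v (y⁻¹ • z) (by
      intro w hw
      rw [Algebra.smul_def, map_mul, hv w hw, map_inv₀, hy]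
      calc c⁻¹ * w.valuation F z ≤ c⁻¹ * c := mul_le_mul_right (hz w hw) _
        _ = 1 := inv_mul_cancel₀ hc)
    rw [map_smul, smul_eq_mul, map_mul, map_inv₀, hy] at h1
    calc v.valuation k (Algebra.trace k F z) = c * (c⁻¹ * v.valuation k (Algebra.trace k F z)) := by
          rw [← mul_assoc, mul_inv_cancel₀ hc, one_mul]
      _ ≤ c * 1 := mul_le_mul_right h1 _
      _ = c := mul_one _

end

end TH
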