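import Pool.Agent.MP_9ab903_nt.TH.P5

set_option autoImplicit false

open NumberField IsDedekindDomain
open CM27 CMT NAB CF TWR
open scoped Classical

namespace TH

/-! ## [TH-P12] the product of the symbols at the places prime to `3` (file TH/P12.lean)

`T0 v x y = T v x y` for `v ∤ 3` and `1` otherwise, `cc x y = ∏_v T0 v x y`. All properties follow from those of `T` (P4) for `v ∤ 3` and the finiteness of the
support (`T_support`, P5), by `finprod_mul_distrib` etc. -/

section
variable {F : Type} [Field F] [NumberField F] (e : Eis →+* 𝓞 F)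

/-- the local symbol at the places prime to `3` -/
noncomputable def T0 (v : HeightOneSpectrum (𝓞 F)) (x y : F) : Eis :=
  if (3 : 𝓞 F) ∈ v.asIdeal then 1 else T e v x y

/-- the product of the symbols at the places prime to `3` -/
noncomputable def cc (x y : F) : Eis := ∏ᶠ v : HeightOneSpectrum (𝓞 F), T0 e v x y

theorem p12_od_one (v : HeightOneSpectrum (𝓞 F)) : od v (1 : F) = 0 := by
  unfold od
  rw [map_one, WithZero.log_one]

theorem T0_support {x y : F} (hx : x ≠ 0) (hy : y ≠ 0) :
    (Function.mulSupport fun v : HeightOneSpectrum (𝓞 F) => T0 e v x y).Finite := by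
  refine (T_support e hx hy).subset ?_
  intro v hv
  rw [Function.mem_mulSupport] at hv ⊢
  intro h
  apply hv
  unfold T0
  split_ifs
  · rfl
  · exact h

theorem cc_mul_right {x y z : F} (hx : x ≠ 0) (hy : y ≠ 0) (hz : z ≠ 0) :
    cc e x (y * z) = cc e x y * cc e x z := by
  unfold cc
  rw [← finprod_mul_distrib (T0_support e hx hy) (T0_support e hx hz)]
  refine finprod_congr fun v => ?_
  unfold T0
  split_ifs with h
  · exact (mul_one 1).symm
  · exact T_mul_right e v hx hy hz (Or.inl h)

theorem cc_mul_left {x x' y : F} (hx : x ≠ 0) (hx' : x' ≠ 0) (hy : y ≠ 0) :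
    cc e (x * x') y = cc e x y * cc e x' y := by
  unfold cc
  rw [← finprod_mul_distrib (T0_support e hx hy) (T0_support e hx' hy)]
  refine finprod_congr fun v => ?_
  unfold T0
  split_ifs with h
  · exact (mul_one 1).symm
  · exact T_mul_left e v hx hx' hy (Or.inl h)

theorem cc_antisymm {x y : F} (hx : x ≠ 0) (hy : y ≠ 0) : cc e x y * cc e y x = 1 := by
  unfold cc
  rw [← finprod_mul_distrib (T0_support e hx hy) (T0_support e hy hx)]
  rw [← finprod_one (α := HeightOneSpectrum (𝓞 F)) (M := Eis)]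
  refine finprod_congr fun v => ?_
  unfold T0
  split_ifs with h
  · exact mul_one 1
  · exact T_antisymm e v hx hy h

theorem cc_pow_three {x y : F} (hx : x ≠ 0) (hy : y ≠ 0) : cc e x y ^ 3 = 1 := by
  unfold cc
  rw [finprod_pow (T0_support e hx hy)]
  rw [← finprod_one (α := HeightOneSpectrum (𝓞 F)) (M := Eis)]
  refine finprod_congr fun v => ?_
  unfold T0
  split_ifs with h
  · exact one_pow 3
  · exact T_pow_three e v hx hy (Or.inl h)

theorem cc_cube_right {x y s : F} (hx : x ≠ 0) (hy : y ≠ 0) (hs : s ≠ 0) :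
    cc e x (y * s ^ 3) = cc e x y := by
  unfold cc
  refine finprod_congr fun v => ?_
  unfold T0
  rw [T_cube_right e v hx hy hs]

theorem cc_cube_left {x y s : F} (hx : x ≠ 0) (hy : y ≠ 0) (hs : s ≠ 0) :
    cc e (x * s ^ 3) y = cc e x y := by
  unfold cc
  refine finprod_congr fun v => ?_
  unfold T0
  rw [T_cube_left e v hx hy hs]

theorem p12_od_zero (v : HeightOneSpectrum (𝓞 F)) : od v (0 : F) = 0 := by
  unfold od
  rw [map_zero]
  rfl

theorem cc_neg_left {x : F} (y : F) (hx : x ≠ 0) : cc e (-x) y = cc e x y := by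
  by_cases hy : y = 0
  · subst hy
    unfold cc
    refine finprod_congr fun v => ?_
    unfold T0 T
    rw [od_neg, p12_od_zero, neg_zero, zpow_zero, zpow_zero]
  have h := cc_cube_left e (y := y) (s := (-1 : F)) hx hy (neg_ne_zero.mpr one_ne_zero)
  have h1 : x * (-1 : F) ^ 3 = -x := by ring
  rwa [h1] at h

theorem cc_neg_right (x : F) {y : F} (hy : y ≠ 0) : cc e x (-y) = cc e x y := by
  by_cases hx : x = 0
  · subst hx
    unfold cc
    refine finprod_congr fun v => ?_
    unfold T0 T
    rw [od_neg, p12_od_zero, zpow_zero, zpow_zero]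
  have h := cc_cube_right e (x := x) (s := (-1 : F)) hx hy (neg_ne_zero.mpr one_ne_zero)
  have h1 : y * (-1 : F) ^ 3 = -y := by ring
  rwa [h1] at h

theorem cc_self {x : F} (hx : x ≠ 0) : cc e x x = 1 := by
  rw [← cc_neg_right e x hx]
  unfold cc
  rw [← finprod_one (α := HeightOneSpectrum (𝓞 F)) (M := Eis)]
  refine finprod_congr fun v => ?_
  unfold T0
  split_ifs with h
  · rfl
  · exact T_neg_self e v hx (Or.inl h)

theorem cc_one_right (x : F) : cc e x 1 = 1 := by
  unfold cc
  rw [← finprod_one (α := HeightOneSpectrum (𝓞 F)) (M := Eis)]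
  refine finprod_congr fun v => ?_
  unfold T0
  split_ifs with h
  · rfl
  · unfold T
    rw [p12_od_one, neg_zero, zpow_zero, one_zpow, mul_one, cs_one]

theorem cc_one_left (x : F) : cc e 1 x = 1 := by
  unfold cc
  rw [← finprod_one (α := HeightOneSpectrum (𝓞 F)) (M := Eis)]
  refine finprod_congr fun v => ?_
  unfold T0
  split_ifs with h
  · rfl
  · unfold T
    rw [p12_od_one, one_zpow, zpow_zero, mul_one, cs_one]

theorem cc_inv_left {x y : F} (hx : x ≠ 0) (hy : y ≠ 0) : cc e x⁻¹ y * cc e x y = 1 := by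
  rw [← cc_mul_left e (inv_ne_zero hx) hx hy, inv_mul_cancel₀ hx, cc_one_left]

theorem cc_inv_right {x y : F} (hx : x ≠ 0) (hy : y ≠ 0) : cc e x y⁻¹ * cc e x y = 1 := by
  rw [← cc_mul_right e hx (inv_ne_zero hy) hy, inv_mul_cancel₀ hy, cc_one_right]

theorem cc_steinberg (hU : UL e) {a b : F} (ha : a ≠ 0) (hb : b ≠ 0) (hab : a + b = 1) :
    cc e a b = 1 := by
  unfold cc
  rw [← finprod_one (α := HeightOneSpectrum (𝓞 F)) (M := Eis)]
  refine finprod_congr fun v => ?_
  unfold T0
  split_ifs with h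
  · rfl
  · exact T_steinberg e v hU ha hb hab (Or.inl h)

theorem HH_eq_cc {x y : F} (hx : x ≠ 0) (hy : y ≠ 0) : HH e x y = cc e x y *
    ∏ᶠ v : HeightOneSpectrum (𝓞 F), if (3 : 𝓞 F) ∈ v.asIdeal then T e v x y else 1 := by
  have hfin : (Function.mulSupport fun v : HeightOneSpectrum (𝓞 F) =>
      if (3 : 𝓞 F) ∈ v.asIdeal then T e v x y else 1).Finite := by
    refine (T_support e hx hy).subset ?_
    intro v hv
    rw [Function.mem_mulSupport] at hv ⊢
    intro h
    apply hv
    split_ifs
    · exact h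
    · rfl
  unfold cc HH
  rw [← finprod_mul_distrib (T0_support e hx hy) hfin]
  refine finprod_congr fun v => ?_
  unfold T0
  split_ifs with h
  · exact (one_mul _).symm
  · exact (mul_one _).symm

/-- if there is only one place above `3` -/
theorem HH_eq_cc_one {x y : F} (hx : x ≠ 0) (hy : y ≠ 0) (v₀ : HeightOneSpectrum (𝓞 F))
    (h₀ : ∀ v : HeightOneSpectrum (𝓞 F), (3 : 𝓞 F) ∈ v.asIdeal ↔ v = v₀) :
    HH e x y = cc e x y * T e v₀ x y := by
  rw [HH_eq_cc e hx hy]
  congr 1
  rw [finprod_eq_single _ v₀]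
  · rw [if_pos ((h₀ v₀).mpr rfl)]
  · intro v hv
    rw [if_neg]
    intro h
    exact hv ((h₀ v).mp h)

end

end TH
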