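import Pool.Agent.MP_9ab903_nt.TH.P13a

set_option autoImplicit false

open NumberField IsDedekindDomain
open CM27 CMT NAB CF TWR
open scoped Classical

namespace TH

/-! ## [TH-P13] the places of `ℚ(ω)` and the symbols at them (file TH/P13.lean)

`eK : ℤ[ω] → 𝓞 K` is an isomorphism (`CF.exists_KK`; `eF KK d2_w_mem a` and `φ a` have the same image `emb a` in `ℂ`). The places of `K` are the `pv b`, `b` a prime
element (`KK_pid` or transport along `φ`); `nv (pv b) = |N b|` (`NAB.card_KK`). `3 ∈ pv b` iff `b` is associated to `λ`. -/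

theorem p13_three {b : Eis} {hb : Prime b} (h3 : ¬ b ∣ 3) :
    (3 : 𝓞 KK) ∉ (pv b hb).asIdeal := by
  rw [← map_ofNat eK 3, mem_pv]
  exact h3

theorem p13_not {b : Eis} {hb : Prime b} {a : Eis} (ha : ¬ b ∣ a) :
    eK a ∉ (pv b hb).asIdeal := fun h => ha ((mem_pv b hb a).1 h)

theorem p13_ne {b a : Eis} (ha : ¬ b ∣ a) : a ≠ 0 := by
  rintro rfl
  exact ha (dvd_zero b)

theorem p13_cd {b : Eis} {hb : Prime b} (h3 : ¬ b ∣ 3) {a : Eis} (ha : ¬ b ∣ a) :
    Cd eK (pv b hb) (kk a) :=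
  ⟨kk_ne (p13_ne ha), Or.inl ⟨p13_three h3, t3_unit _ (p13_not ha)⟩⟩

/-- the congruence of the symbol -/
theorem cs_pv (b : Eis) (hb : Prime b) (h3 : ¬ b ∣ 3) {a : Eis} (ha : ¬ b ∣ a) :
    b ∣ a ^ ((b.norm.natAbs - 1) / 3) - cs eK (pv b hb) (kk a) := by
  have h1 := cs_unit eK (pv b hb) (p13_three h3) (p13_not (hb := hb) ha)
  rw [nv_pv, ← map_pow, ← map_sub, mem_pv] at h1
  exact h1

theorem cs_pv_eq (b : Eis) (hb : Prime b) (h3 : ¬ b ∣ 3) {a ζ : Eis} (ha : ¬ b ∣ a)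
    (hζ : ζ ^ 3 = 1) (h : b ∣ a ^ ((b.norm.natAbs - 1) / 3) - ζ) :
    cs eK (pv b hb) (kk a) = ζ := by
  refine cs_unit_eq eK (pv b hb) (p13_three h3) (p13_not (hb := hb) ha) hζ ?_
  rw [nv_pv, ← map_pow, ← map_sub, mem_pv]
  exact h

/-- the symbol of the conjugates: `cs (star b) (star a) = star (cs b a)` -/
theorem cs_pv_star (b : Eis) (hb : Prime b) (hb' : Prime (star b)) (h3 : ¬ b ∣ 3) {a : Eis}
    (ha : ¬ b ∣ a) : cs eK (pv (star b) hb') (kk (star a)) = star (cs eK (pv b hb) (kk a)) := by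
  have hd : ∀ x : Eis, star b ∣ x → b ∣ star x := by
    rintro x ⟨c, rfl⟩
    exact ⟨star c, by rw [star_mul, star_star, mul_comm]⟩
  have h3' : ¬ star b ∣ 3 := fun h => h3 (by
    have := hd 3 h
    rwa [star_ofNat] at this)
  have ha' : ¬ star b ∣ star a := fun h => ha (by
    have := hd _ h
    rwa [star_star] at this)
  refine cs_pv_eq (star b) hb' h3' ha' ?_ ?_
  · rw [← star_pow, cs_pow_three eK _ (p13_cd h3 ha), star_one]
  · obtain ⟨c, hc⟩ := cs_pv b hb h3 ha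
    refine ⟨star c, ?_⟩
    have hn : (star b).norm = b.norm := QuadraticAlgebra.norm_star b
    rw [hn, ← star_pow, ← star_sub, hc, star_mul, mul_comm]

/-- the symbols at the other places are trivial -/
theorem p13_T0 {b : Eis} (hb : Prime b) {y : KK} (v : HeightOneSpectrum (𝓞 KK))
    (hv : v ≠ pv b hb) (h : (3 : 𝓞 KK) ∉ v.asIdeal → v.valuation KK y = 1) :
    T0 eK v (kk b) y = 1 := by
  have := eis_isDomain
  rw [T0]
  split_ifs with h3
  · rfl
  · refine T_units eK v ?_ (h h3)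
    obtain ⟨c, hc, rfl⟩ := exists_pv v
    refine val_unit _ _ (p13_not fun hcb => hv ?_)
    rw [pv_eq]
    exact hc.associated_of_dvd hb hcb

/-- the symbol at the place `b` -/
theorem p13_T0_self {b : Eis} (hb : Prime b) (h3 : ¬ b ∣ 3) {a : Eis} (ha : ¬ b ∣ a) :
    T0 eK (pv b hb) (kk b) (kk a) = cs eK (pv b hb) (kk a)⁻¹ := by
  rw [T0, if_neg (p13_three h3), T, od_pv_self, od_pv_zero b hb ha, neg_zero, zpow_zero, one_mul,
    zpow_neg_one]

theorem p13_cc {b : Eis} (hb : Prime b) (h3 : ¬ b ∣ 3) {a : Eis} (ha : ¬ b ∣ a)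
    (h : ∀ v : HeightOneSpectrum (𝓞 KK), (3 : 𝓞 KK) ∉ v.asIdeal → v.valuation KK (kk a) = 1) :
    cc eK (kk b) (kk a) * cs eK (pv b hb) (kk a) = 1 := by
  rw [cc, finprod_eq_single _ (pv b hb) fun v hv => p13_T0 hb v hv (h v), p13_T0_self hb h3 ha]
  exact cs_inv eK _ (p13_cd h3 ha)

/-- two different primes: `c(b, b') = cs_{b'}(b) / cs_b(b')` -/
theorem cc_primes {b b' : Eis} (hb : Prime b) (hb' : Prime b') (h3 : ¬ b ∣ 3) (h3' : ¬ b' ∣ 3)
    (h : ¬ b ∣ b') (h' : ¬ b' ∣ b) :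
    cc eK (kk b) (kk b') * cs eK (pv b hb) (kk b') = cs eK (pv b' hb') (kk b) := by
  have := eis_isDomain
  have hne : pv b hb ≠ pv b' hb' := by
    intro he
    rw [pv_eq] at he
    exact h he.dvd
  have hs : Function.mulSupport (fun v : HeightOneSpectrum (𝓞 KK) => T0 eK v (kk b) (kk b')) ⊆
      (({pv b hb, pv b' hb'} : Finset (HeightOneSpectrum (𝓞 KK))) : Set _) := by
    intro v hv
    by_contra hv2
    rw [Finset.coe_insert, Finset.coe_singleton, Set.mem_insert_iff, Set.mem_singleton_iff,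
      not_or] at hv2
    apply hv
    refine p13_T0 hb v hv2.1 fun _ => ?_
    obtain ⟨c, hc, rfl⟩ := exists_pv v
    refine val_unit _ _ (p13_not fun hcb => hv2.2 ?_)
    rw [pv_eq]
    exact hc.associated_of_dvd hb' hcb
  have h2 : T0 eK (pv b' hb') (kk b) (kk b') = cs eK (pv b' hb') (kk b) := by
    rw [T0, if_neg (p13_three h3'), T, od_pv_self, od_pv_zero b' hb' h', neg_neg, zpow_one,
      zpow_zero, mul_one]
  rw [cc, finprod_eq_prod_of_mulSupport_subset _ hs, Finset.prod_pair hne, h2,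
    p13_T0_self hb h3 h]
  calc _ = cs eK (pv b' hb') (kk b) * (cs eK (pv b hb) (kk b')⁻¹ * cs eK (pv b hb) (kk b')) := by
        ring
    _ = _ := by rw [cs_inv eK _ (p13_cd h3 h), mul_one]

/-- `c(b, ω) = ω^(- (N b - 1) / 3)` -/
theorem cc_om (b : Eis) (hb : Prime b) (h3 : ¬ b ∣ 3) :
    cc eK (kk b) (kk om) * om ^ ((b.norm.natAbs - 1) / 3) = 1 := by
  have hom : om * om ^ 2 = 1 := by decide
  have ha : ¬ b ∣ om := fun h => hb.not_isUnit
    (isUnit_of_dvd_unit h (IsUnit.of_mul_eq_one _ hom))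
  have h1 := p13_cc hb h3 ha fun v _ => by
    refine val_unit _ v fun h => v.isPrime.ne_top ((Ideal.eq_top_iff_one _).2 ?_)
    rw [← map_one eK, ← hom, map_mul]
    exact Ideal.mul_mem_right _ _ h
  have h2 : cs eK (pv b hb) (kk om) = om ^ ((b.norm.natAbs - 1) / 3) := by
    refine cs_pv_eq b hb h3 ha ?_ ?_
    · rw [← pow_mul, mul_comm, pow_mul, om_cube, one_pow]
    · rw [sub_self]
      exact dvd_zero b
  rw [h2] at h1
  exact h1

/-- `c(b, λ) = cs_b(λ)⁻¹` -/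
theorem cc_la (b : Eis) (hb : Prime b) (h3 : ¬ b ∣ 3) :
    cc eK (kk b) (kk la) * cs eK (pv b hb) (kk la) = 1 := by
  have hla : la ∣ 3 := by
    rw [three_eq]
    exact Dvd.dvd.mul_left (dvd_pow_self la two_ne_zero) _
  have ha : ¬ b ∣ la := fun h => h3 (h.trans hla)
  refine p13_cc hb h3 ha fun v hv => ?_
  refine val_unit _ v fun h => hv ?_
  obtain ⟨c, hc⟩ := hla
  rw [← map_ofNat eK 3, hc, map_mul]
  exact Ideal.mul_mem_right _ _ h

end TH
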