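import Pool.Agent.MP_9ab903_nt.TH.P12
import Pool.Agent.MP_9ab903_nt.CF.D2

set_option autoImplicit false

open NumberField IsDedekindDomain
open CM27 CMT NAB CF TWR
open scoped Classical

namespace TH

/-! ## [TH-P13a] the places of `ℚ(ω)` and the symbols at them (file TH/P13a.lean)

`eK : ℤ[ω] → 𝓞 K` is an isomorphism (`CF.exists_KK`; `eF KK d2_w_mem a` and `φ a` have the same image `emb a` in `ℂ`). The places of `K` are the `pv b`, `b` a prime
element (`KK_pid` or transport along `φ`); `nv (pv b) = |N b|` (`NAB.card_KK`). `3 ∈ pv b` iff `b` is associated to `λ`. -/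

/-- `ℤ[ω] → 𝓞 K` -/
noncomputable abbrev eK : Eis →+* 𝓞 KK := eF KK d2_w_mem

/-- `ℤ[ω] → K` -/
noncomputable abbrev kk (a : Eis) : KK := ((eK a : 𝓞 KK) : KK)

theorem p13a_iso : ∃ φ : Eis ≃+* 𝓞 KK, ∀ a, φ a = eK a := by
  obtain ⟨φ, hφ⟩ := exists_KK
  refine ⟨φ, fun a => ?_⟩
  apply RingOfIntegers.ext
  apply Subtype.ext
  rw [hφ]
  rfl

theorem eK_bij : Function.Bijective eK := by
  obtain ⟨φ, hφ⟩ := p13a_iso
  have h : (eK : Eis → 𝓞 KK) = φ := funext fun a => (hφ a).symm
  rw [h]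
  exact φ.bijective

/-- `eK` as an isomorphism -/
noncomputable def p13a_e : Eis ≃+* 𝓞 KK := RingEquiv.ofBijective eK eK_bij

theorem p13a_e_apply (a : Eis) : p13a_e a = eK a := rfl

theorem kk_ne {a : Eis} (ha : a ≠ 0) : kk a ≠ 0 := by
  intro h
  apply ha
  apply eK_bij.1
  rw [map_zero]
  exact (RingOfIntegers.coe_eq_zero_iff).1 h

theorem eK_dvd (a b : Eis) : eK a ∣ eK b ↔ a ∣ b := by
  rw [← p13a_e_apply, ← p13a_e_apply]
  exact map_dvd_iff p13a_e

theorem eK_prime {b : Eis} (hb : Prime b) : Prime (eK b) := by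
  rw [← p13a_e_apply]
  exact (MulEquiv.prime_iff p13a_e).2 hb

/-- the place of a prime element -/
noncomputable def pv (b : Eis) (hb : Prime b) : HeightOneSpectrum (𝓞 KK) :=
  ⟨Ideal.span {eK b}, (Ideal.span_singleton_prime (eK_prime hb).ne_zero).2 (eK_prime hb), by
    rw [Ne, Ideal.span_singleton_eq_bot]
    exact (eK_prime hb).ne_zero⟩

theorem mem_pv (b : Eis) (hb : Prime b) (a : Eis) : eK a ∈ (pv b hb).asIdeal ↔ b ∣ a := by
  change eK a ∈ Ideal.span {eK b} ↔ b ∣ a
  rw [Ideal.mem_span_singleton, eK_dvd]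

theorem exists_pv (v : HeightOneSpectrum (𝓞 KK)) : ∃ (b : Eis) (hb : Prime b), v = pv b hb := by
  have := eis_isDomain
  have := eis_pid
  obtain ⟨b, hb⟩ := (IsPrincipalIdealRing.principal (v.asIdeal.comap eK)).principal
  have hb' : v.asIdeal.comap eK = Ideal.span {b} := hb
  have hmem : ∀ a, eK a ∈ v.asIdeal ↔ b ∣ a := by
    intro a
    rw [← Ideal.mem_comap, hb', Ideal.mem_span_singleton]
  have hb0 : b ≠ 0 := by
    rintro rfl
    apply v.ne_bot
    rw [eq_bot_iff]
    intro x hx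
    obtain ⟨a, rfl⟩ := eK_bij.2 x
    rw [hmem, zero_dvd_iff] at hx
    rw [hx, map_zero]
    exact Ideal.zero_mem _
  have hprime : Prime b := by
    rw [← Ideal.span_singleton_prime hb0, ← hb']
    have := v.isPrime
    exact Ideal.comap_isPrime eK v.asIdeal
  refine ⟨b, hprime, ?_⟩
  apply HeightOneSpectrum.ext
  ext x
  obtain ⟨a, rfl⟩ := eK_bij.2 x
  rw [hmem, mem_pv]

theorem pv_eq {b b' : Eis} {hb : Prime b} {hb' : Prime b'} :
    pv b hb = pv b' hb' ↔ Associated b b' := by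
  have := eis_isDomain
  rw [HeightOneSpectrum.ext_iff]
  change Ideal.span {eK b} = Ideal.span {eK b'} ↔ _
  rw [Ideal.span_singleton_eq_span_singleton, ← dvd_dvd_iff_associated,
    ← dvd_dvd_iff_associated, eK_dvd, eK_dvd]

theorem nv_pv (b : Eis) (hb : Prime b) : nv (pv b hb) = b.norm.natAbs := by
  rw [← p4_card b]
  refine (Nat.card_congr (Ideal.quotientEquiv (Ideal.span {b}) (pv b hb).asIdeal p13a_e
    ?_).toEquiv).symm
  rw [Ideal.map_span, Set.image_singleton]
  rfl

theorem la_prime : Prime la := CM27.a3_prime_of_norm 3 Nat.prime_three la (by decide)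

theorem la_norm : la.norm = 3 := by decide

theorem three_mem_pv (b : Eis) (hb : Prime b) :
    (3 : 𝓞 KK) ∈ (pv b hb).asIdeal ↔ pv b hb = pv la la_prime := by
  have := eis_isDomain
  rw [pv_eq, ← map_ofNat eK 3, mem_pv, three_eq]
  constructor
  · intro h
    refine hb.associated_of_dvd la_prime ?_
    rcases hb.dvd_or_dvd h with h1 | h1
    · exfalso
      apply hb.not_isUnit
      apply isUnit_of_dvd_unit h1
      exact IsUnit.neg (IsUnit.pow 2 (IsUnit.of_mul_eq_one (om ^ 2) (by decide)))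
    · exact hb.dvd_of_dvd_pow h1
  · intro h
    exact Dvd.dvd.mul_left (h.dvd.trans (dvd_pow_self la two_ne_zero)) _

theorem three_mem_KK (v : HeightOneSpectrum (𝓞 KK)) :
    (3 : 𝓞 KK) ∈ v.asIdeal ↔ v = pv la la_prime := by
  obtain ⟨b, hb, rfl⟩ := exists_pv v
  exact three_mem_pv b hb

theorem UL_KK : UL eK := by
  have := eis_isDomain
  intro v hv h
  rw [(three_mem_KK v).1 hv] at h
  change eK la ∈ (Ideal.span {eK la}) ^ 2 at h
  rw [Ideal.span_singleton_pow, Ideal.mem_span_singleton, ← map_pow, eK_dvd] at h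
  obtain ⟨c, hc⟩ := h
  have h1 : la * 1 = la * (la * c) := by rw [mul_one, ← mul_assoc, ← pow_two]; exact hc
  have h2 := mul_left_cancel₀ la_prime.ne_zero h1
  exact la_prime.not_isUnit (IsUnit.of_mul_eq_one c h2.symm)

theorem od_pv_self (b : Eis) (hb : Prime b) : od (pv b hb) (kk b) = -1 := by
  have h : (pv b hb).valuation KK (kk b) = WithZero.exp (-1 : ℤ) := by
    rw [← (pv b hb).intValuation_singleton (eK_prime hb).ne_zero rfl]
    exact (pv b hb).valuation_of_algebraMap (eK b)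
  rw [od, h, WithZero.log_exp]

theorem od_pv_zero (b : Eis) (hb : Prime b) {a : Eis} (ha : ¬ b ∣ a) :
    od (pv b hb) (kk a) = 0 := by
  rw [od, val_unit (eK a) (pv b hb) (fun h => ha ((mem_pv b hb a).1 h)), WithZero.log_one]

end TH
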