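import Pool.Agent.MP_9ab903_nt.TH.P14a

set_option autoImplicit false

open NumberField IsDedekindDomain
open CM27 CMT NAB CF TWR
open scoped Classical ComplexConjugate

namespace TH

/-! ## [TH-P14] the cubic residue character and rational reciprocity (file TH/P14.lean)

`b` prime and primary (`b ≡ 1 mod 3`), `k = ℤ[ω] / b`, `q = N b` elements, `q ≡ 1 mod 3`. `χ_b(a) = emb (cs_b a)` is a multiplicative character of order `3`
(`a ^ ((q - 1)/3)` with values in the cube roots of unity of `k`, a cyclic group of order `q - 1`). By `CM27.jacobi_primary`, `J(χ, χ) = - emb b'` with `b'` primary of norm `q`.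
`b ∣ b'`: in `ℤ[ω] / b`: `- b' ≡ ∑_a (a (1 - a)) ^ ((q - 1)/3) = 0` (degree `2 (q-1)/3 < q - 1`, `FiniteField.sum_pow_lt_card_sub_one`), here all the values `χ(a)` are in the
image of `emb` and `emb` is injective. So `b' = b u`, `N u = 1`, `u` a unit `≡ 1 mod 3`, `u = 1`.
`cc_rat`: `BS3.recip_split`, `BS3.recip_inert`: `χ_b(ℓ) = kap ℓ b`; `ℓ ≡ 2 mod 3`: `ℓ` is prime in `ℤ[ω]`, `kap ℓ b = emb (cs_ℓ(b))` (`BS3.kap_eq`, `IsCub`), use `cc_primes`.
`ℓ ≡ 1 mod 3`: `ℓ = β star β`, `kap ℓ b = emb (cs_β(b) cs_(star β)(b))`: with `k = (ℓ-1)/3`: `b ^ k ≡ e (star b) ^ k` modulo `β` and modulo `star β`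
(`star b ^ k ≡ star (cs_(star β) b) mod β` by conjugation, and `z star z = 1` for cube roots of unity); `cc_primes` for `β` and `star β`, `cc_mul_right`. -/

theorem p14_kk_mul (a b : Eis) : kk (a * b) = kk a * kk b := by
  show ((eK (a * b) : 𝓞 KK) : KK) = _
  rw [map_mul]
  rfl

theorem p14_kk_one : kk 1 = 1 := by
  show ((eK 1 : 𝓞 KK) : KK) = _
  rw [map_one]
  rfl

theorem p14_kk_neg (a : Eis) : kk (-a) = -kk a := by
  show ((eK (-a) : 𝓞 KK) : KK) = _
  rw [map_neg]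
  rfl

theorem p14_three_not_mem {b : Eis} (hb : Prime b) (h3 : ¬ b ∣ 3) :
    (3 : 𝓞 KK) ∉ (pv b hb).asIdeal := by
  intro h
  apply h3
  rw [← mem_pv b hb 3, map_ofNat]
  exact h

theorem p14_cs_cube {b : Eis} (hb : Prime b) (h3 : ¬ b ∣ 3) {a : Eis} (ha : ¬ b ∣ a) :
    cs eK (pv b hb) (kk a) ^ 3 = 1 := by
  have h1 := p14_three_not_mem hb h3
  refine cs_pow_three eK (pv b hb) ⟨?_, Or.inl ⟨h1, ?_⟩⟩
  · refine kk_ne ?_
    rintro rfl
    exact ha (dvd_zero _)
  · refine t3_unit (pv b hb) ?_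
    rwa [mem_pv]

theorem p14_Cd {b : Eis} (hb : Prime b) (h3 : ¬ b ∣ 3) {a : Eis} (ha : ¬ b ∣ a) :
    Cd eK (pv b hb) (kk a) := by
  have h1 := p14_three_not_mem hb h3
  refine ⟨?_, Or.inl ⟨h1, ?_⟩⟩
  · refine kk_ne ?_
    rintro rfl
    exact ha (dvd_zero _)
  · refine t3_unit (pv b hb) ?_
    rwa [mem_pv]

theorem p14_C3 {z : Eis} (h : z ^ 3 = 1) : z ∈ BS3.C3 := by
  rw [BS3.z2_mem_C3]
  exact cube_one_cases h

/-- the value of the symbol at a rational prime -/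
theorem p14_kap (b : Eis) (hb : Prime b) (h3 : ¬ b ∣ 3) (hp : Primary b) (ℓ : ℕ)
    (hℓ : ℓ.Prime) (hℓ3 : ℓ ≠ 3) (h : ¬ b ∣ (ℓ : Eis)) :
    emb (cs eK (pv b hb) (kk (ℓ : Eis))) = BS3.kap ℓ b := by
  obtain ⟨k, hk1, hk2, r, hr, hrb, hcard⟩ := exists_residue b hb
  obtain ⟨χ, hχ, hχ1, hJ⟩ := exists_chi k r hr b hb h3 hp hrb
  have hnn : 0 ≤ b.norm := norm_nonneg' b
  have hmod : Nat.card k % 3 = 1 := by
    rw [hcard, ← nv_pv b hb]
    exact nv_mod eK (pv b hb) (p14_three_not_mem hb h3)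
  have hbn : b.norm = Nat.card k := by
    rw [hcard]
    omega
  have h0 : (ℓ : k) ≠ 0 := by
    intro h0
    apply h
    rw [← hrb, map_natCast]
    exact h0
  have h4 := hχ1 (ℓ : Eis) h
  rw [map_natCast] at h4
  rw [← h4]
  rcases BS3.z2_mod hℓ hℓ3 with hm | hm
  · exact BS3.recip_split k hmod χ hχ b hp hbn hJ ℓ hℓ hm h0
  · exact BS3.recip_inert k hmod χ hχ b hp hbn hJ ℓ hℓ hm h0

theorem p14_norm_nat (ℓ : ℕ) : ((ℓ : Eis).norm).natAbs = ℓ ^ 2 := by
  have h1 := a3_mul_star (ℓ : Eis)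
  rw [BS3.z2_star_nat] at h1
  have h2 : (ℓ : Eis).norm = (ℓ : ℤ) ^ 2 := by
    have h3 : (((ℓ : Eis).norm : ℤ) : Eis) = (((ℓ : ℤ) ^ 2 : ℤ) : Eis) := by
      rw [← h1]
      push_cast
      ring
    have h4 := congrArg emb h3
    rw [map_intCast, map_intCast] at h4
    exact_mod_cast h4
  rw [h2, Int.natAbs_pow, Int.natAbs_natCast]

theorem p14_star_prime {b : Eis} (hb : Prime b) : Prime (star b) := by
  have := eis_isDomain
  refine ⟨?_, ?_, ?_⟩
  · intro h
    apply hb.ne_zero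
    have := congrArg star h
    rwa [star_star, star_zero] at this
  · intro h
    apply hb.not_isUnit
    have h1 := IsUnit.map (starRingEnd Eis) h
    rwa [starRingEnd_apply, star_star] at h1
  · intro x y hxy
    have h1 : b ∣ star x * star y := by
      obtain ⟨c, hc⟩ := hxy
      refine ⟨star c, ?_⟩
      have := congrArg star hc
      rwa [star_mul', star_mul', star_star] at this
    rcases hb.dvd_or_dvd h1 with h2 | h2
    · left
      obtain ⟨c, hc⟩ := h2
      refine ⟨star c, ?_⟩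
      have := congrArg star hc
      rwa [star_mul', star_star] at this
    · right
      obtain ⟨c, hc⟩ := h2
      refine ⟨star c, ?_⟩
      have := congrArg star hc
      rwa [star_mul', star_star] at this

theorem p14_star_dvd {a b : Eis} (h : a ∣ b) : star a ∣ star b := by
  obtain ⟨c, hc⟩ := h
  refine ⟨star c, ?_⟩
  rw [hc, star_mul']

theorem p14_not_dvd {b b' : Eis} (hb : Prime b) (hb' : Prime b') (h : ¬ b ∣ b') : ¬ b' ∣ b := by
  have := eis_isDomain
  intro h1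
  exact h (hb'.irreducible.dvd_comm hb.irreducible |>.1 h1)

theorem p14_not_dvd_three {ℓ : ℕ} (hℓ : ℓ.Prime) (hℓ3 : ℓ ≠ 3) {β : Eis} (hβ : Prime β)
    (h : β ∣ (ℓ : Eis)) : ¬ β ∣ 3 := by
  intro h3
  have hc : IsCoprime (ℓ : ℤ) (3 : ℤ) := by
    have h1 : Nat.Coprime ℓ 3 := (Nat.coprime_primes hℓ Nat.prime_three).2 hℓ3
    exact_mod_cast Nat.isCoprime_iff_coprime.2 h1
  obtain ⟨m, n, hmn⟩ := hc
  apply hβ.not_isUnit
  apply isUnit_of_dvd_one
  have h4 : (1 : Eis) = (m : Eis) * (ℓ : Eis) + (n : Eis) * 3 := by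
    have := congrArg (fun z : ℤ => (z : Eis)) hmn
    push_cast at this
    exact this.symm
  rw [h4]
  exact dvd_add (dvd_mul_of_dvd_right h _) (dvd_mul_of_dvd_right h3 _)

theorem p14_cancel {x y : Eis} (hy : y ^ 3 = 1) (h : x * y = y) : x = 1 := by
  have h1 : x * y ^ 3 = y ^ 3 := by
    calc x * y ^ 3 = (x * y) * y ^ 2 := by ring
      _ = y ^ 3 := by rw [h]; ring
  rwa [hy, mul_one] at h1

theorem p14_cube_star {z : Eis} (h : z ^ 3 = 1) : z * star z = 1 :=
  BS3.z2_C3_mul_star (p14_C3 h)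

/-- `c(b, ℓ) = 1` for the rational primes `ℓ ≠ 3` -/
theorem cc_rat_prime (b : Eis) (hb : Prime b) (h3 : ¬ b ∣ 3) (hp : Primary b) (ℓ : ℕ)
    (hℓ : ℓ.Prime) (hℓ3 : ℓ ≠ 3) (h : ¬ b ∣ (ℓ : Eis)) : cc eK (kk b) (kk (ℓ : Eis)) = 1 := by
  have hdom := eis_isDomain
  have hkap := p14_kap b hb h3 hp ℓ hℓ hℓ3 h
  have hb0 : kk b ≠ 0 := kk_ne hb.ne_zero
  rcases BS3.z2_mod hℓ hℓ3 with hm | hm
  · obtain ⟨β, -, hβn⟩ := exists_primary_prime ℓ hℓ hm
    have hβ := a3_prime_of_norm ℓ hℓ β hβn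
    have hβ' := p14_star_prime hβ
    have hmul : β * star β = (ℓ : Eis) := by
      rw [a3_mul_star, hβn]
      push_cast
      rfl
    have hd1 : β ∣ (ℓ : Eis) := ⟨star β, hmul.symm⟩
    have hd2 : star β ∣ (ℓ : Eis) := ⟨β, by rw [mul_comm]; exact hmul.symm⟩
    have hβ3 := p14_not_dvd_three hℓ hℓ3 hβ hd1
    have hβ3' := p14_not_dvd_three hℓ hℓ3 hβ' hd2
    have n1 : ¬ b ∣ β := fun h1 => h (h1.trans hd1)
    have n2 : ¬ b ∣ star β := fun h1 => h (h1.trans hd2)
    have n1' := p14_not_dvd hb hβ n1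
    have n2' := p14_not_dvd hb hβ' n2
    have c1 := cc_primes hb hβ h3 hβ3 n1 n1'
    have c2 := cc_primes hb hβ' h3 hβ3' n2 n2'
    have e1 : cc eK (kk b) (kk (ℓ : Eis)) = cc eK (kk b) (kk β) * cc eK (kk b) (kk (star β)) := by
      rw [← hmul, p14_kk_mul]
      exact cc_mul_right eK hb0 (kk_ne hβ.ne_zero) (kk_ne hβ'.ne_zero)
    have e2 : cs eK (pv b hb) (kk (ℓ : Eis)) =
        cs eK (pv b hb) (kk β) * cs eK (pv b hb) (kk (star β)) := by
      rw [← hmul, p14_kk_mul]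
      exact cs_mul eK _ (p14_Cd hb h3 n1) (p14_Cd hb h3 n2)
    set x := cs eK (pv β hβ) (kk b) with hx
    set y := cs eK (pv (star β) hβ') (kk b) with hy
    have hx3 : x ^ 3 = 1 := p14_cs_cube hβ hβ3 n1'
    have hy3 : y ^ 3 = 1 := p14_cs_cube hβ' hβ3' n2'
    have hnb : β.norm.natAbs = ℓ := by rw [hβn, Int.natAbs_natCast]
    have hnb' : (star β).norm.natAbs = ℓ := by
      have h5 : (star β).norm = β.norm := by
        have h6 := a3_mul_star (star β)
        rw [star_star, mul_comm, a3_mul_star] at h6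
        have h7 := congrArg emb h6
        rw [map_intCast, map_intCast] at h7
        exact_mod_cast h7.symm
      rw [h5, hnb]
    set k := (ℓ - 1) / 3 with hk
    have d1 : β ∣ b ^ k - x := by
      have := cs_pv β hβ hβ3 n1'
      rwa [hnb] at this
    have d2 : star β ∣ b ^ k - y := by
      have := cs_pv (star β) hβ' hβ3' n2'
      rwa [hnb'] at this
    have d3 : star β ∣ star b ^ k - star x := by
      have := p14_star_dvd d1
      rwa [star_sub, star_pow] at this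
    have d4 : β ∣ star b ^ k - star y := by
      have := p14_star_dvd d2
      rwa [star_sub, star_pow, star_star] at this
    have hxs := p14_cube_star hx3
    have hys := p14_cube_star hy3
    have f1 : β ∣ b ^ k - (x * y) * star b ^ k := by
      have e3 : b ^ k - (x * y) * star b ^ k =
          (b ^ k - x) - (x * y) * (star b ^ k - star y) := by
        linear_combination (-x) * hys
      rw [e3]
      exact dvd_sub d1 (dvd_mul_of_dvd_right d4 _)
    have f2 : star β ∣ b ^ k - (x * y) * star b ^ k := by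
      have e3 : b ^ k - (x * y) * star b ^ k =
          (b ^ k - y) - (x * y) * (star b ^ k - star x) := by
        linear_combination (-y) * hxs
      rw [e3]
      exact dvd_sub d2 (dvd_mul_of_dvd_right d3 _)
    have hlco := i4_coprime_star ℓ hℓ hm β hβn
    have f3 : (ℓ : Eis) ∣ b ^ k - (x * y) * star b ^ k := by
      rw [← hmul]
      exact hlco.mul_dvd f1 f2
    have hxy3 : (x * y) ^ 3 = 1 := by rw [mul_pow, hx3, hy3, one_mul]
    have hcop : IsCoprime b (ℓ : Eis) := by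
      have := eis_pid
      rw [← hmul]
      refine IsCoprime.mul_right ?_ ?_
      · exact (hβ.irreducible.coprime_iff_not_dvd.2 n1').symm
      · exact (hβ'.irreducible.coprime_iff_not_dvd.2 n2').symm
    have hkv := BS3.kap_eq hℓ hℓ3 hcop (p14_C3 hxy3) ⟨fun _ => f3, fun h2 => by omega⟩
    have hfin : cs eK (pv b hb) (kk (ℓ : Eis)) = x * y := emb_injective (by rw [hkap, hkv])
    apply p14_cancel hxy3
    rw [e1, ← c1, ← c2]
    rw [e2, ← c1, ← c2] at hfin
    linear_combination (-(cc eK (kk b) (kk β) * cc eK (kk b) (kk (star β)))) * hfin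
  · have hℓp : Prime (ℓ : Eis) := a3_prime_inert ℓ hℓ hm
    have hℓ3' := p14_not_dvd_three hℓ hℓ3 hℓp dvd_rfl
    have n1' := p14_not_dvd hb hℓp h
    have c1 := cc_primes hb hℓp h3 hℓ3' h n1'
    have d1 := cs_pv (ℓ : Eis) hℓp hℓ3' n1'
    rw [p14_norm_nat] at d1
    have hx3 := p14_cs_cube hℓp hℓ3' n1'
    have hcop : IsCoprime b (ℓ : Eis) := by
      have := eis_pid
      exact (hℓp.irreducible.coprime_iff_not_dvd.2 n1').symm
    have hkv := BS3.kap_eq hℓ hℓ3 hcop (p14_C3 hx3) ⟨fun h2 => by omega, fun _ => d1⟩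
    have hfin : cs eK (pv b hb) (kk (ℓ : Eis)) = cs eK (pv (ℓ : Eis) hℓp) (kk b) :=
      emb_injective (by rw [hkap, hkv])
    rw [hfin] at c1
    exact p14_cancel hx3 c1

/-- `c(b, n) = 1` for the integers prime to `3 b` -/
theorem cc_rat (b : Eis) (hb : Prime b) (h3 : ¬ b ∣ 3) (hp : Primary b) (n : ℤ)
    (hn3 : ¬ (3 : ℤ) ∣ n) (h : ¬ b ∣ (n : Eis)) : cc eK (kk b) (kk (n : Eis)) = 1 := by
  have hb0 : kk b ≠ 0 := kk_ne hb.ne_zero
  have key : ∀ m : ℕ, ¬ 3 ∣ m → ¬ b ∣ (m : Eis) → cc eK (kk b) (kk (m : Eis)) = 1 := by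
    intro m
    induction m using Nat.recOnMul with
    | zero =>
      intro h1
      exact absurd (dvd_zero 3) h1
    | one =>
      intro _ _
      rw [Nat.cast_one, p14_kk_one]
      exact cc_one_right eK _
    | prime p hp' =>
      intro h1 h2
      refine cc_rat_prime b hb h3 hp p hp' ?_ h2
      rintro rfl
      exact h1 dvd_rfl
    | mul x y hx hy =>
      intro h1 h2
      have hx3 : ¬ 3 ∣ x := fun h4 => h1 (Dvd.dvd.mul_right h4 _)
      have hy3 : ¬ 3 ∣ y := fun h4 => h1 (Dvd.dvd.mul_left h4 _)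
      rw [Nat.cast_mul] at h2
      have hxb : ¬ b ∣ (x : Eis) := fun h4 => h2 (Dvd.dvd.mul_right h4 _)
      have hyb : ¬ b ∣ (y : Eis) := fun h4 => h2 (Dvd.dvd.mul_left h4 _)
      have hx0 : (x : Eis) ≠ 0 := fun h4 => hxb (h4 ▸ dvd_zero _)
      have hy0 : (y : Eis) ≠ 0 := fun h4 => hyb (h4 ▸ dvd_zero _)
      rw [Nat.cast_mul, p14_kk_mul, cc_mul_right eK hb0 (kk_ne hx0) (kk_ne hy0), hx hx3 hxb,
        hy hy3 hyb, one_mul]
  have hn0 : (n : Eis) ≠ 0 := fun h4 => h (h4 ▸ dvd_zero _)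
  have h5 : ¬ 3 ∣ n.natAbs := fun h6 => hn3 (by
    have := Int.natCast_dvd.2 h6
    exact_mod_cast this)
  rcases Int.natAbs_eq n with h6 | h6
  · have h7 : (n : Eis) = ((n.natAbs : ℕ) : Eis) := by
      conv_lhs => rw [h6]
      rw [Int.cast_natCast]
    rw [h7]
    refine key _ h5 ?_
    rwa [← h7]
  · have h7 : (n : Eis) = -((n.natAbs : ℕ) : Eis) := by
      conv_lhs => rw [h6]
      rw [Int.cast_neg, Int.cast_natCast]
    have h8 : ¬ b ∣ ((n.natAbs : ℕ) : Eis) := by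
      intro h9
      apply h
      rw [h7]
      exact (dvd_neg).2 h9
    have h10 : ((n.natAbs : ℕ) : Eis) ≠ 0 := fun h4 => h8 (h4 ▸ dvd_zero _)
    rw [h7, p14_kk_neg, cc_neg_right eK _ (kk_ne h10)]
    exact key _ h5 h8

end TH
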