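import Pool.Agent.MP_9ab903_nt.TH.P14

set_option autoImplicit false

open NumberField IsDedekindDomain
open CM27 CMT NAB CF TWR
open scoped Classical ComplexConjugate

namespace TH

/-! ## [TH-P15a] the product formula over `ℚ(ω)` (file TH/P15a.lean)

(1) `cc_prime_pair`: `b, b'` primary primes. If one of them is associated to a rational prime `ℓ ≡ 2 mod 3` (primary: `b = -ℓ`): `cc_rat`, `cc_neg_*`, `cc_antisymm`,
`cc_self`. Otherwise `b star b = p`, `b' star b' = p'` are rational primes `≡ 1 mod 3`. `p ≠ p'`: `c(b, b') c(b, star b') = c(b, p') = 1` (`cc_rat`), and the same with `star b`;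
`c(star b, star b') = star c(b, b')` (`cc_primes`, `cs_pv_star`). So `star c(b, b') = c(star b, star b') = c(star b, b')⁻¹ = c(b', star b) = c(b', b)⁻¹ = c(b, b')`
(`c(b', b) c(b', star b) = c(b', p) = 1`), so `c² = 1` (`c star c = 1`), `c = 1`. `p = p'`: `b' = b` (`cc_self`) or `b' = star b`: `a = b + star b` is a rational integer
`≡ 2 mod 3` not divisible by `b`; Steinberg for `b / a + star b / a = 1` gives `c(b, star b) = c(b, a) c(a, star b) c(a, a)⁻¹ = 1`.
(2) `cc_one_mod`: `x, y ≡ 1 mod 3`: induction on the factorisation (`exists_primary`, the unit is `≡ ± 1 mod 3`, i.e. it is `1`).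
(3) `cc_om_mod`: `x = 1 + λ² s`: `c(x, ω) ω^s = 1`: multiplicative in `x`, for primes `cc_om` and `(N x - 1)/3 ≡ s mod λ` (`λ² = -3 ω`,
`N(1 + λ² s) = 1 + Tr(λ² s) + 9 N s`, `Tr(λ² s)/3 = - Tr(ω s) ≡ s mod λ`).
(4) `cc_la_mod`: `X = 1 + λ³ t`: `c(X, λ) = ω^t`: Steinberg for `4 X` and `1 - 4 X = ω² λ² η`, `η = 1 - 4 ω λ t` (`3 = - ω² λ²`):
`1 = c(4X, ω)² c(4X, λ)² c(4X, η)`, `η = ω^t η'` with `η' ≡ 1 mod λ²`, `c(4X, η') = 1`, `4 X = 1 + λ² s`, `s ≡ - 1 mod λ`, so `c(4X, ω) = ω`,
`c(4X, λ)² = ω^(-2 - t)`, `c(4X, λ) = ω^(2 + t)`; the same for `X = 1`: `c(4, λ) = ω²`; so `c(X, λ) = ω^t`.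
(5) `PF_KK`: `x` admissible: up to a cube `x = kk X`, `X = 1 - λ³ τ`, `τ : ℤ[ω]` (clear denominators: multiply by `± n³`, `n` prime to `λ`);
`y = kk y₁ / kk y₂`, `y_i = ± ω^i λ^j y'`, `y' ≡ 1 mod 3`. `HH x y = cc x y · T_λ(x, y)`, `T_λ(x, y) = cs_λ(x)^(ord_λ y)`, `cs_λ(1 - λ³ τ) = ω^τ` (`cs_one_sub`, `tv v t = t` for
`nv = 3`), `cc(X, λ) = ω^(-τ)`. -/

theorem p15a_la_dvd_three : la ∣ (3 : Eis) := by
  rw [three_eq]
  exact Dvd.intro_left (-om ^ 2 * la) (by ring)

/-- elements of `ℤ[ω]` modulo `λ` -/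
theorem exists_mod_la (t : Eis) : ∃ j : ℕ, la ∣ t - j := by
  refine ⟨((t.re + t.im) % 3).toNat, ?_⟩
  have h0 : 0 ≤ (t.re + t.im) % 3 := Int.emod_nonneg _ (by norm_num)
  have h1 : (((t.re + t.im) % 3).toNat : ℤ) = (t.re + t.im) % 3 := Int.toNat_of_nonneg h0
  have h2 : (t.re + t.im) = 3 * ((t.re + t.im) / 3) + (t.re + t.im) % 3 :=
    (Int.mul_ediv_add_emod _ _).symm
  have h3 : t - ((((t.re + t.im) % 3).toNat : ℕ) : Eis) =
      3 * (((t.re + t.im) / 3 : ℤ) : Eis) - (t.im : Eis) * la := by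
    have h4 : ((((t.re + t.im) % 3).toNat : ℕ) : Eis) = (((t.re + t.im) % 3 : ℤ) : Eis) := by
      rw [← h1]
      exact (Int.cast_natCast _).symm
    have h5 : (3 : Eis).re = 3 := rfl
    have h6 : (3 : Eis).im = 0 := rfl
    rw [h4]
    ext
    · simp [la, h5, h6]
      omega
    · simp [la, h5, h6]
  rw [h3]
  exact dvd_sub (p15a_la_dvd_three.mul_right _) (Dvd.intro_left _ rfl)

theorem p15a_star_prime {b : Eis} (hb : Prime b) : Prime (star b) := by
  have h := MulEquiv.prime_iff (starRingAut : RingAut Eis) (p := b)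
  exact h.2 hb

theorem p15a_star_dvd {a b : Eis} (h : a ∣ b) : star a ∣ star b := by
  obtain ⟨c, rfl⟩ := h
  rw [star_mul]
  exact Dvd.intro_left _ rfl

theorem p15a_primary_ne {b : Eis} (hb : Primary b) : b ≠ 0 := by
  rintro rfl
  rw [primary_iff] at hb
  simp at hb

theorem p15a_norm_ne {b : Eis} (hb : b ≠ 0) : b.norm.natAbs ≠ 0 := by
  have := eis_isDomain
  rw [Ne, Int.natAbs_eq_zero]
  intro h
  have h1 := i4_mul_star b
  rw [h, Int.cast_zero] at h1
  rcases mul_eq_zero.1 h1 with h2 | h2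
  · exact hb h2
  · exact hb (star_eq_zero.1 h2)

theorem p15a_star_three (b : Eis) (h : ¬ b ∣ 3) : ¬ star b ∣ 3 := by
  intro h1
  have h2 := p15a_star_dvd h1
  rw [star_star] at h2
  have h3 : star (3 : Eis) = 3 := by decide
  rw [h3] at h2
  exact h h2

/-- the symbol is not zero -/
theorem p15a_cs_ne {b : Eis} (hb : Prime b) (h3 : ¬ b ∣ 3) {a : Eis} (ha : ¬ b ∣ a) :
    cs eK (pv b hb) (kk a) ≠ 0 := by
  intro h
  have h1 := cs_pv b hb h3 ha
  rw [h, sub_zero] at h1
  exact ha (hb.dvd_of_dvd_pow h1)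

/-- conjugation -/
theorem p15a_cc_star {b b' : Eis} (hb : Prime b) (hb' : Prime b') (h3 : ¬ b ∣ 3) (h3' : ¬ b' ∣ 3)
    (h : ¬ b ∣ b') (h' : ¬ b' ∣ b) :
    star (cc eK (kk b) (kk b')) = cc eK (kk (star b)) (kk (star b')) := by
  have := eis_isDomain
  have e1 := cc_primes hb hb' h3 h3' h h'
  have hs : ¬ star b ∣ star b' := fun h1 => h (by simpa using p15a_star_dvd h1)
  have hs' : ¬ star b' ∣ star b := fun h1 => h' (by simpa using p15a_star_dvd h1)
  have e2 := cc_primes (p15a_star_prime hb) (p15a_star_prime hb') (p15a_star_three b h3)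
    (p15a_star_three b' h3') hs hs'
  rw [cs_pv_star b hb _ h3 h, cs_pv_star b' hb' _ h3' h'] at e2
  have e3 := congrArg star e1
  rw [star_mul'] at e3
  have h0 : star (cs eK (pv b hb) (kk b')) ≠ 0 := by
    rw [star_ne_zero]
    exact p15a_cs_ne hb h3 h
  exact mul_right_cancel₀ h0 (e3.trans e2.symm)

theorem p15a_star_fix {z : Eis} (h : z ^ 3 = 1) (hs : star z = z) : z = 1 := by
  rcases cube_one_cases h with h1 | h1 | h1
  · exact h1
  · subst h1
    exact absurd hs (by decide)
  · subst h1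
    exact absurd hs (by decide)

/-- a rational integer divisible by three -/
theorem p15a_three_dvd {n : ℤ} (h : (3 : ℤ) ∣ n) : (3 : Eis) ∣ (n : Eis) := by
  obtain ⟨m, rfl⟩ := h
  rw [Int.cast_mul]
  exact Dvd.intro _ rfl

theorem p15a_norm_three {b : Eis} (hp : Primary b) : ¬ (3 : ℤ) ∣ b.norm := by
  rw [primary_iff] at hp
  obtain ⟨h1, h2⟩ := hp
  obtain ⟨k, hk⟩ : ∃ k, b.re = 3 * k + 1 := ⟨b.re / 3, by omega⟩
  obtain ⟨l, hl⟩ : ∃ l, b.im = 3 * l := ⟨b.im / 3, by omega⟩
  rw [norm_eq, hk, hl]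
  intro h
  have e : (3 * k + 1) ^ 2 - (3 * k + 1) * (3 * l) + (3 * l) ^ 2 =
      3 * (3 * k ^ 2 + 2 * k - 3 * k * l - l + 3 * l ^ 2) + 1 := by ring
  rw [e] at h
  omega

/-- the generic case -/
theorem p15a_generic (b b' : Eis) (hb : Prime b) (h3 : ¬ b ∣ 3) (hp : Primary b) (hb' : Prime b')
    (h3' : ¬ b' ∣ 3) (hp' : Primary b') (h1 : ¬ b ∣ b') (h1' : ¬ b' ∣ b) (h2 : ¬ b ∣ star b')
    (h2' : ¬ b' ∣ star b) : cc eK (kk b) (kk b') = 1 := by
  have hsb := p15a_star_prime hb
  have hsb' := p15a_star_prime hb'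
  have hne : kk b ≠ 0 := kk_ne hb.ne_zero
  have hne' : kk b' ≠ 0 := kk_ne hb'.ne_zero
  have hsne : kk (star b) ≠ 0 := kk_ne hsb.ne_zero
  have hsne' : kk (star b') ≠ 0 := kk_ne hsb'.ne_zero
  have kmul : ∀ x y : Eis, kk (x * y) = kk x * kk y := fun x y => by
    simp only [kk, map_mul]
  -- `c(b, n') = 1`
  have hbn : ¬ b ∣ ((b'.norm : ℤ) : Eis) := by
    rw [← i4_mul_star]
    intro h
    rcases hb.dvd_or_dvd h with h | h
    · exact h1 h
    · exact h2 h
  have hbn' : ¬ b' ∣ ((b.norm : ℤ) : Eis) := by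
    rw [← i4_mul_star]
    intro h
    rcases hb'.dvd_or_dvd h with h | h
    · exact h1' h
    · exact h2' h
  have hsn : ¬ star b ∣ ((b'.norm : ℤ) : Eis) := by
    intro h
    have := p15a_star_dvd h
    rw [star_star, star_intCast] at this
    exact hbn this
  have e1 := cc_rat b' hb' h3' hp' b.norm (p15a_norm_three hp) hbn'
  rw [← i4_mul_star, kmul, cc_mul_right eK hne' hne hsne] at e1
  have e2 := cc_rat (star b) hsb (p15a_star_three b h3) hp.star b'.norm (p15a_norm_three hp') hsn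
  rw [← i4_mul_star, kmul, cc_mul_right eK hsne hne' hsne'] at e2
  have e3 := cc_antisymm eK hne hne'
  have e4 := cc_antisymm eK hsne hne'
  have e5 := p15a_cc_star hb hb' h3 h3' h1 h1'
  have e6 := cc_pow_three eK hne hne'
  refine p15a_star_fix e6 ?_
  rw [e5]
  -- `C = c(b,b')`, `D = c(b',b)`, `P = c(b', star b)`, `Q = c(star b, b')`, `R = c(star b, star b')`
  generalize cc eK (kk b) (kk b') = C at *
  generalize cc eK (kk b') (kk b) = D at *
  generalize cc eK (kk b') (kk (star b)) = P at *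
  generalize cc eK (kk (star b)) (kk b') = Q at *
  generalize cc eK (kk (star b)) (kk (star b')) = R at *
  -- D P = 1, Q R = 1, C D = 1, Q P = 1
  have f1 : R = P := by
    calc R = R * (Q * P) := by rw [e4, mul_one]
      _ = (Q * R) * P := by ring
      _ = P := by rw [e2, one_mul]
  have f2 : C = P := by
    calc C = C * (D * P) := by rw [e1, mul_one]
      _ = (C * D) * P := by ring
      _ = P := by rw [e3, one_mul]
  rw [f1, f2]

/-- the case `b' = star b` -/
theorem p15a_conj (b : Eis) (hb : Prime b) (h3 : ¬ b ∣ 3) (hp : Primary b) (h : ¬ b ∣ star b) :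
    cc eK (kk b) (kk (star b)) = 1 := by
  have hsb := p15a_star_prime hb
  have hne : kk b ≠ 0 := kk_ne hb.ne_zero
  have hsne : kk (star b) ≠ 0 := kk_ne hsb.ne_zero
  have hab : ((2 * b.re - b.im : ℤ) : Eis) = b + star b := by
    have h5 : (2 : Eis).re = 2 := rfl
    have h6 : (2 : Eis).im = 0 := rfl
    ext
    · simp [h5, h6]
      ring
    · simp [h5, h6]
  set a : ℤ := 2 * b.re - b.im with ha
  have ha3 : ¬ (3 : ℤ) ∣ a := by
    have := (primary_iff b).1 hp
    omega
  have hba : ¬ b ∣ (a : Eis) := by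
    rw [hab]
    intro h1
    exact h ((dvd_add_right (dvd_refl b)).1 h1)
  have hsa : ¬ star b ∣ (a : Eis) := by
    intro h1
    have := p15a_star_dvd h1
    rw [star_star, star_intCast] at this
    exact hba this
  have ha0 : (a : Eis) ≠ 0 := by
    intro h0
    rw [h0] at hba
    exact hba (dvd_zero b)
  have hane : kk (a : Eis) ≠ 0 := kk_ne ha0
  have hsum : kk b * (kk (a : Eis))⁻¹ + kk (star b) * (kk (a : Eis))⁻¹ = 1 := by
    rw [← add_mul]
    have : kk b + kk (star b) = kk (a : Eis) := by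
      rw [hab]
      simp only [kk, map_add]
    rw [this, mul_inv_cancel₀ hane]
  have hinv : (kk (a : Eis))⁻¹ ≠ 0 := inv_ne_zero hane
  have e0 := cc_steinberg eK UL_KK (mul_ne_zero hne hinv) (mul_ne_zero hsne hinv) hsum
  rw [cc_mul_left eK hne hinv (mul_ne_zero hsne hinv), cc_mul_right eK hne hsne hinv,
    cc_mul_right eK hinv hsne hinv, cc_self eK hinv, mul_one] at e0
  have e1 : cc eK (kk b) (kk (a : Eis)) = 1 := cc_rat b hb h3 hp a ha3 hba
  have e2 : cc eK (kk (star b)) (kk (a : Eis)) = 1 :=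
    cc_rat (star b) hsb (p15a_star_three b h3) hp.star a ha3 hsa
  have e3 := cc_inv_right eK hne hane
  rw [e1, mul_one] at e3
  have e4 := cc_inv_left eK hane hsne
  have e5 := cc_antisymm eK hane hsne
  rw [e2, mul_one] at e5
  rw [e5, mul_one] at e4
  rw [e3, e4, mul_one, mul_one] at e0
  exact e0

theorem p15a_assoc_eq {b b' : Eis} (hp : Primary b) (hp' : Primary b') (h : Associated b b') :
    b = b' := by
  obtain ⟨u, hu⟩ := h
  have h1 : Primary ((u : Eis) * b) := by
    rw [mul_comm, hu]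
    exact hp'
  have h2 := primary_unique b u hp u.isUnit h1
  rw [h2, mul_one] at hu
  exact hu

/-- (1) reciprocity for primary primes -/
theorem cc_prime_pair (b b' : Eis) (hb : Prime b) (h3 : ¬ b ∣ 3) (hp : Primary b) (hb' : Prime b')
    (h3' : ¬ b' ∣ 3) (hp' : Primary b') : cc eK (kk b) (kk b') = 1 := by
  have := eis_isDomain
  by_cases h1 : b ∣ b'
  · have h2 := p15a_assoc_eq hp hp' ((hb.dvd_prime_iff_associated hb').1 h1)
    rw [← h2]
    exact cc_self eK (kk_ne hb.ne_zero)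
  have h1' : ¬ b' ∣ b := by
    intro h
    have h2 := p15a_assoc_eq hp' hp ((hb'.dvd_prime_iff_associated hb).1 h)
    rw [h2] at h1
    exact h1 (dvd_refl b)
  by_cases h2 : b ∣ star b'
  · have h4 := p15a_assoc_eq hp hp'.star
      ((hb.dvd_prime_iff_associated (p15a_star_prime hb')).1 h2)
    have h5 : b' = star b := by rw [h4, star_star]
    rw [h5] at h1 ⊢
    exact p15a_conj b hb h3 hp h1
  have h2' : ¬ b' ∣ star b := by
    intro h
    apply h2
    have h4 := p15a_assoc_eq hp' hp.star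
      ((hb'.dvd_prime_iff_associated (p15a_star_prime hb)).1 h)
    rw [h4, star_star]
  exact p15a_generic b b' hb h3 hp hb' h3' hp' h1 h1' h2 h2'

/-- induction over the primary elements -/
theorem p15a_induct (P : Eis → Prop) (h1 : P 1)
    (hprime : ∀ b : Eis, Prime b → ¬ b ∣ 3 → Primary b → P b)
    (hmul : ∀ a b : Eis, Primary a → Primary b → P a → P b → P (a * b)) (x : Eis)
    (hx : Primary x) : P x := by
  have := eis_isDomain
  have := eis_pid
  have key : ∀ n : ℕ, ∀ x : Eis, Primary x → x.norm.natAbs = n → P x := by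
    intro n
    induction n using Nat.strong_induction_on with
    | _ n ih =>
      intro x hx hn
      by_cases hu : IsUnit x
      · have h2 := primary_unique 1 x (by unfold Primary; simp) hu (by rwa [mul_one])
        rw [h2]
        exact h1
      · obtain ⟨b0, hb0, hb0x⟩ := WfDvdMonoid.exists_irreducible_factor hu (p15a_primary_ne hx)
        have hb0p : Prime b0 := hb0.prime
        have hb03 : ¬ b0 ∣ 3 := by
          intro h
          apply hb0p.not_isUnit
          apply isUnit_of_dvd_one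
          have h4 : b0 ∣ x - 1 := h.trans hx
          have := dvd_sub hb0x h4
          rwa [sub_sub_cancel] at this
        obtain ⟨b, hb, hbp, hass⟩ := exists_primary b0 hb0p hb03
        have hb3 : ¬ b ∣ 3 := CMT.not_dvd_three hbp hb
        obtain ⟨y, rfl⟩ : b ∣ x := hass.symm.dvd.trans hb0x
        have hy : Primary y := by
          unfold Primary at *
          have e : y - 1 = (b * y - 1) - y * (b - 1) := by ring
          rw [e]
          exact dvd_sub hx (hbp.mul_left y)
        have hy0 : y.norm.natAbs ≠ 0 := p15a_norm_ne (p15a_primary_ne hy)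
        have hlt : y.norm.natAbs < n := by
          rw [← hn, map_mul, Int.natAbs_mul]
          have hb1 : b.norm.natAbs ≠ 1 := by
            intro h5
            apply hb.not_isUnit
            rw [eis_isUnit_iff]
            have := norm_nonneg' b
            omega
          have hb2 : b.norm.natAbs ≠ 0 := p15a_norm_ne hb.ne_zero
          have hb4 : 2 ≤ b.norm.natAbs := by omega
          nlinarith [Nat.pos_of_ne_zero hy0]
        exact hmul b y hbp hy (hprime b hb hb3 hbp) (ih _ hlt y hy rfl)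
  exact key _ x hx rfl

/-- (2) **reciprocity** -/
theorem cc_one_mod (x y : Eis) (hx : Primary x) (hy : Primary y) : cc eK (kk x) (kk y) = 1 := by
  have kmul : ∀ x y : Eis, kk (x * y) = kk x * kk y := fun x y => by
    simp only [kk, map_mul]
  have kone : kk 1 = 1 := by simp only [kk, map_one]
  refine p15a_induct (fun x => ∀ y : Eis, Primary y → cc eK (kk x) (kk y) = 1) ?_ ?_ ?_ x hx y hy
  · intro y _
    rw [kone]
    exact cc_one_left eK _
  · intro b hb h3 hp y hy
    refine p15a_induct (fun y => cc eK (kk b) (kk y) = 1) ?_ ?_ ?_ y hy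
    · show cc eK (kk b) (kk 1) = 1
      rw [kone]
      exact cc_one_right eK _
    · intro b' hb' h3' hp'
      exact cc_prime_pair b b' hb h3 hp hb' h3' hp'
    · intro a c ha hc h1 h2
      show cc eK (kk b) (kk (a * c)) = 1
      rw [kmul, cc_mul_right eK (kk_ne hb.ne_zero) (kk_ne (p15a_primary_ne ha))
        (kk_ne (p15a_primary_ne hc)), h1, h2, one_mul]
  · intro a c ha hc h1 h2 y hy
    show cc eK (kk (a * c)) (kk y) = 1
    rw [kmul, cc_mul_left eK (kk_ne (p15a_primary_ne ha)) (kk_ne (p15a_primary_ne hc))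
      (kk_ne (p15a_primary_ne hy)), h1 y hy, h2 y hy, one_mul]

end TH
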