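import Pool.Agent.MP_9ab903_nt.TH.P15a

set_option autoImplicit false

open NumberField IsDedekindDomain
open CM27 CMT NAB CF TWR
open scoped Classical ComplexConjugate

namespace TH

/-! ## [TH-P15b] the product formula over `ℚ(ω)` (file TH/P15b.lean)

(1) `cc_prime_pair`: `b, b'` primary primes. If one of them is associated to a rational prime `ℓ ≡ 2 mod 3` (primary: `b = -ℓ`): `cc_rat`, `cc_neg_*`, `cc_antisymm`,
`cc_self`. Otherwise `b star b = p`, `b' star b' = p'` are rational primes `≡ 1 mod 3`. `p ≠ p'`: `c(b, b') c(b, star b') = c(b, p') = 1` (`cc_rat`), and the same with `star b`;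
`c(star b, star b') = star c(b, b')` (`cc_primes`, `cs_pv_star`). So `star c(b, b') = c(star b, star b') = c(star b, b')⁻¹ = c(b', star b) = c(b', b)⁻¹ = c(b, b')`
(`c(b', b) c(b', star b) = c(b', p) = 1`), so `c² = 1` (`c star c = 1`), `c = 1`. `p = p'`: `b' = b` (`cc_self`) or `b' = star b`: `a = b + star b` is a rational integer
`≡ 2 mod 3` not divisible by `b`; Steinberg for `b / a + star b / a = 1` gives `c(b, star b) = c(b, a) c(a, star b) c(a, a)⁻¹ = 1`.
(2) `cc_one_mod`: `x, y ≡ 1 mod 3`: induction on the factorisation (`exists_primary`, the unit is `≡ ± 1 mod 3`, i.e. it is `1`).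
(3) `cc_om_mod`: `x = 1 + λ² s`: `c(x, ω) ω^s = 1`: multiplicative in `x`, for primes `cc_om` and `(N x - 1)/3 ≡ s mod λ` (`λ² = -3 ω`,
`N(1 + λ² s) = 1 + Tr(λ² s) + 9 N s`, `Tr(λ² s)/3 = - Tr(ω s) ≡ s mod λ`).
(4) `cc_la_mod`: `X = 1 + λ³ t`: `c(X, λ) = ω^t`: Steinberg for `4 X` and `1 - 4 X = ω² λ² η`, `η = 1 - 4 ω λ t` (`3 = - ω² λ²`):
`1 = c(4X, ω)² c(4X, λ)² c(4X, η)`, `η = ω^t η'` with `η' ≡ 1 mod λ²`, `c(4X, η') = 1`, `4 X = 1 + λ² s`, `s ≡ - 1 mod λ`, so `c(4X, ω) = ω`,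
`c(4X, λ)² = ω^(-2 - t)`, `c(4X, λ) = ω^(2 + t)`; the same for `X = 1`: `c(4, λ) = ω²`; so `c(X, λ) = ω^t`.
(5) `PF_KK`: `x` admissible: up to a cube `x = kk X`, `X = 1 - λ³ τ`, `τ : ℤ[ω]` (clear denominators: multiply by `± n³`, `n` prime to `λ`);
`y = kk y₁ / kk y₂`, `y_i = ± ω^i λ^j y'`, `y' ≡ 1 mod 3`. `HH x y = cc x y · T_λ(x, y)`, `T_λ(x, y) = cs_λ(x)^(ord_λ y)`, `cs_λ(1 - λ³ τ) = ω^τ` (`cs_one_sub`, `tv v t = t` for
`nv = 3`), `cc(X, λ) = ω^(-τ)`. -/

theorem p15b_mul (a b : Eis) : kk (a * b) = kk a * kk b := by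
  show algebraMap (𝓞 KK) KK (eK (a * b)) = algebraMap (𝓞 KK) KK (eK a) * algebraMap (𝓞 KK) KK (eK b)
  rw [map_mul, map_mul]

theorem p15b_one : kk 1 = 1 := by
  show algebraMap (𝓞 KK) KK (eK 1) = 1
  rw [map_one, map_one]

theorem p15b_sub (a b : Eis) : kk (a - b) = kk a - kk b := by
  show algebraMap (𝓞 KK) KK (eK (a - b)) = algebraMap (𝓞 KK) KK (eK a) - algebraMap (𝓞 KK) KK (eK b)
  rw [map_sub, map_sub]

theorem p15b_om_mod {a b : ℕ} (h : a % 3 = b % 3) : om ^ a = om ^ b := by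
  rw [← Nat.div_add_mod a 3, ← Nat.div_add_mod b 3, h, pow_add, pow_add, pow_mul, pow_mul, om_cube,
    one_pow, one_pow]

theorem p15b_om_ne : om ≠ 0 := by decide

theorem p15b_la_ne : la ≠ 0 := by decide

theorem p15b_la_dvd {s : Eis} {j : ℕ} (h : la ∣ s - j) : ∃ k : ℤ, s.re + s.im = j + 3 * k := by
  obtain ⟨c, hc⟩ := h
  have hc' : s = (j : Eis) + la * c := by rw [← hc]; ring
  refine ⟨c.im, ?_⟩
  have h1 := congrArg QuadraticAlgebra.re hc'
  have h2 := congrArg QuadraticAlgebra.im hc'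
  have h3 : ((j : Eis)).re = j := by simp
  have h4 : ((j : Eis)).im = 0 := by simp
  have h5 : la.re = 1 := rfl
  have h6 : la.im = -1 := rfl
  simp only [QuadraticAlgebra.re_add, QuadraticAlgebra.im_add, QuadraticAlgebra.re_mul,
    QuadraticAlgebra.im_mul, h3, h4, h5, h6] at h1 h2
  omega

theorem p15b_primary_norm {x : Eis} (hx : Primary x) : ∃ k : ℕ, x.norm.natAbs = 3 * k + 1 := by
  obtain ⟨h1, h2⟩ := (primary_iff x).1 hx
  have h3 := norm_eq x
  have h4 := CM27.norm_nonneg' x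
  obtain ⟨a, ha⟩ : ∃ a, x.re = 3 * a + 1 := ⟨x.re / 3, by omega⟩
  obtain ⟨b, hb⟩ : ∃ b, x.im = 3 * b := ⟨x.im / 3, by omega⟩
  have h5 : x.norm = 3 * (3 * a ^ 2 + 2 * a - (3 * a + 1) * b + 3 * b ^ 2) + 1 := by
    rw [h3, ha, hb]
    ring
  refine ⟨(x.norm.natAbs - 1) / 3, ?_⟩
  omega

theorem p15b_primary_ne {x : Eis} (hx : Primary x) : x ≠ 0 := by
  rintro rfl
  obtain ⟨k, hk⟩ := p15b_primary_norm hx
  have h0 : (0 : Eis).norm = 0 := by decide
  rw [h0] at hk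
  simp at hk

theorem p15b_primary_one : Primary 1 := by
  show (3 : Eis) ∣ 1 - 1
  rw [sub_self]
  exact dvd_zero _

theorem p15b_primary_mul {x y : Eis} (hx : Primary x) (hy : Primary y) : Primary (x * y) := by
  show (3 : Eis) ∣ x * y - 1
  have h1 : x * y - 1 = (x - 1) * y + (y - 1) := by ring
  rw [h1]
  exact dvd_add (dvd_mul_of_dvd_left hx _) hy

theorem p15b_primary_cancel {x y : Eis} (hx : Primary x) (hy : Primary (x * y)) : Primary y := by
  show (3 : Eis) ∣ y - 1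
  have h1 : y - 1 = (x * y - 1) - (x - 1) * y := by ring
  rw [h1]
  exact dvd_sub hy (dvd_mul_of_dvd_left hx _)

theorem p15b_ind (P : Eis → Prop) (h1 : P 1)
    (hp : ∀ b : Eis, Prime b → ¬ b ∣ 3 → Primary b → P b)
    (hm : ∀ x y : Eis, Primary x → Primary y → P x → P y → P (x * y)) :
    ∀ (n : ℕ) (x : Eis), x.norm.natAbs = n → Primary x → P x := by
  have hdom := eis_isDomain
  have hpid := eis_pid
  intro n
  induction n using Nat.strong_induction_on with
  | _ n ih =>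
  intro x hn hx
  by_cases hu : IsUnit x
  · have h2 : x = 1 := primary_unique 1 x p15b_primary_one hu (by rwa [mul_one])
    rw [h2]
    exact h1
  · obtain ⟨b, hb, hbx⟩ := WfDvdMonoid.exists_irreducible_factor hu (p15b_primary_ne hx)
    have hb' : Prime b := hb.prime
    have h3 : ¬ b ∣ 3 := by
      intro h
      apply hb'.not_isUnit
      rw [isUnit_iff_dvd_one]
      have h4 : (1 : Eis) = x - (x - 1) := by ring
      rw [h4]
      exact dvd_sub hbx (h.trans hx)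
    obtain ⟨c, hc, hcp, hbc⟩ := exists_primary b hb' h3
    have hc3 : ¬ c ∣ 3 := fun h => h3 (hbc.dvd.trans h)
    obtain ⟨y, hy⟩ := hbc.dvd'.trans hbx
    have hyp : Primary y := p15b_primary_cancel hcp (hy ▸ hx)
    rw [hy]
    refine hm c y hcp hyp (hp c hc hc3 hcp) (ih y.norm.natAbs ?_ y rfl hyp)
    have h5 : x.norm.natAbs = c.norm.natAbs * y.norm.natAbs := by
      rw [hy, map_mul, Int.natAbs_mul]
    obtain ⟨k, hk⟩ := p15b_primary_norm hcp
    obtain ⟨l, hl⟩ := p15b_primary_norm hyp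
    have h6 : k ≠ 0 := by
      rintro rfl
      apply hc.not_isUnit
      rw [eis_isUnit_iff]
      have := CM27.norm_nonneg' c
      omega
    rw [← hn, h5, hk, hl]
    have : 1 ≤ k := Nat.one_le_iff_ne_zero.2 h6
    nlinarith

theorem p15b_om_primary (x : Eis) (hx : Primary x) :
    cc eK (kk x) (kk om) * om ^ ((x.norm.natAbs - 1) / 3) = 1 := by
  refine p15b_ind (fun x => cc eK (kk x) (kk om) * om ^ ((x.norm.natAbs - 1) / 3) = 1) ?_ ?_ ?_
    x.norm.natAbs x rfl hx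
  · show cc eK (kk 1) (kk om) * om ^ (((1 : Eis).norm.natAbs - 1) / 3) = 1
    rw [p15b_one, cc_one_left, map_one]
    norm_num
  · intro b hb h3 _
    exact cc_om b hb h3
  · intro x y hx hy h1 h2
    show cc eK (kk (x * y)) (kk om) * om ^ (((x * y).norm.natAbs - 1) / 3) = 1
    rw [p15b_mul, cc_mul_left eK (kk_ne (p15b_primary_ne hx)) (kk_ne (p15b_primary_ne hy))
      (kk_ne p15b_om_ne)]
    obtain ⟨k, hk⟩ := p15b_primary_norm hx
    obtain ⟨l, hl⟩ := p15b_primary_norm hy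
    have h5 : (x * y).norm.natAbs = 3 * (3 * (k * l) + k + l) + 1 := by
      rw [map_mul, Int.natAbs_mul, hk, hl]
      ring
    rw [hk] at h1
    rw [hl] at h2
    rw [h5]
    have e1 : (3 * k + 1 - 1) / 3 = k := by omega
    have e2 : (3 * l + 1 - 1) / 3 = l := by omega
    have e3 : (3 * (3 * (k * l) + k + l) + 1 - 1) / 3 = 3 * (k * l) + k + l := by omega
    rw [e1] at h1
    rw [e2] at h2
    rw [e3, pow_add, pow_add, pow_mul, om_cube, one_pow, one_mul]
    linear_combination cc eK (kk y) (kk om) * om ^ l * h1 + h2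

/-- (3) -/
theorem cc_om_mod (s : Eis) (j : ℕ) (hj : la ∣ s - j) :
    cc eK (kk (1 + la ^ 2 * s)) (kk om) * om ^ j = 1 := by
  have h0 : la ^ 2 = (3 : Eis) * (-om) := by decide
  have hx : Primary (1 + la ^ 2 * s) := by
    show (3 : Eis) ∣ 1 + la ^ 2 * s - 1
    rw [h0]
    exact ⟨-om * s, by ring⟩
  have h1 := p15b_om_primary _ hx
  obtain ⟨k, hk⟩ := p15b_la_dvd hj
  have hx1 : (1 + la ^ 2 * s) = ⟨1 + 3 * s.im, 3 * (s.im - s.re)⟩ := by
    have h2 : la ^ 2 = (⟨0, -3⟩ : Eis) := by decide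
    rw [h2]
    ext
    · simp only [QuadraticAlgebra.re_add, QuadraticAlgebra.re_mul, QuadraticAlgebra.re_one]
      ring
    · simp only [QuadraticAlgebra.im_add, QuadraticAlgebra.im_mul, QuadraticAlgebra.im_one]
      ring
  have h3 : (1 + la ^ 2 * s).norm = 1 + 3 * (s.re + s.im) + 9 * (s.im ^ 2 - s.im * (s.im - s.re) +
      (s.im - s.re) ^ 2) := by
    rw [hx1, norm_eq]
    ring
  have h4 := CM27.norm_nonneg' (1 + la ^ 2 * s)
  obtain ⟨l, hl⟩ := p15b_primary_norm hx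
  rw [hl] at h1
  have e1 : (3 * l + 1 - 1) / 3 = l := by omega
  rw [e1] at h1
  have h5 : om ^ j = om ^ l := p15b_om_mod (by omega)
  rw [h5]
  exact h1

theorem p15b_pow_sub_one (j : ℕ) : la ^ 2 ∣ om ^ j - (1 - j * la) := by
  induction j with
  | zero => simp
  | succ j ih =>
    obtain ⟨c, hc⟩ := ih
    refine ⟨c * om + j, ?_⟩
    have h1 : om ^ j = la ^ 2 * c + (1 - j * la) := by rw [← hc]; ring
    have h2 : om = 1 - la := by rw [la_eq]; ring
    rw [pow_succ, h1]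
    push_cast
    rw [h2]
    ring

theorem p15b_cc_pow {X : Eis} (hX : X ≠ 0) {a : Eis} (ha : a ≠ 0) (j : ℕ) :
    cc eK (kk X) (kk (a ^ j)) = cc eK (kk X) (kk a) ^ j := by
  have hdom := eis_isDomain
  induction j with
  | zero => rw [pow_zero, pow_zero, p15b_one, cc_one_right]
  | succ j ih =>
    rw [pow_succ, pow_succ, p15b_mul, cc_mul_right eK (kk_ne hX) (kk_ne (pow_ne_zero j ha)) (kk_ne ha),
      ih]

theorem p15b_four (t : Eis) (j : ℕ) (hj : la ∣ t - j) :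
    cc eK (kk (4 * (1 + la ^ 3 * t))) (kk la) = om ^ (2 + j) := by
  have hdom := eis_isDomain
  obtain ⟨c, hc⟩ := hj
  have ht : t = j + la * c := by rw [← hc]; ring
  set X : Eis := 4 * (1 + la ^ 3 * t) with hX
  set η : Eis := 1 - 4 * om * la * t with hη
  have hc3 := om_cube
  have h3 := three_eq
  have hom : om = 1 - la := by rw [la_eq]; ring
  have hR : la ^ 2 - 3 * la + 3 = 0 := by decide
  have h03 : la ^ 2 = (3 : Eis) * (-om) := by decide
  have hb : 1 - X = om ^ 2 * (la ^ 2 * η) := by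
    have e2 : om ^ 2 * (la ^ 2 * η) = om ^ 2 * la ^ 2 - om ^ 3 * (4 * la ^ 3 * t) := by rw [hη]; ring
    rw [e2, hc3, hX]
    linear_combination -h3
  obtain ⟨d, hd⟩ := p15b_pow_sub_one j
  have h1 : om ^ j = la ^ 2 * d + (1 - j * la) := by rw [← hd]; ring
  have hη1 : η = om ^ j + la ^ 2 * (j * (la + 1) - 4 * om * c - d) := by
    rw [h1, hη, ht, hom]
    linear_combination -(j * la) * hR
  have hw : om ^ (2 * j) * om ^ j = 1 := by
    rw [← pow_add, show 2 * j + j = 3 * j by ring, pow_mul, hc3, one_pow]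
  set η' : Eis := om ^ (2 * j) * η with hη'
  have hη2 : η = om ^ j * η' := by
    rw [hη', ← mul_assoc, mul_comm (om ^ j), hw, one_mul]
  have hp : Primary η' := by
    show (3 : Eis) ∣ η' - 1
    refine ⟨-om * (om ^ (2 * j) * (j * (la + 1) - 4 * om * c - d)), ?_⟩
    rw [hη', hη1, mul_add, hw]
    linear_combination (om ^ (2 * j) * (j * (la + 1) - 4 * om * c - d)) * h03
  have hXs : X = 1 + la ^ 2 * (-om ^ 2 + 4 * la * t) := by
    rw [hX]
    linear_combination h3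
  have hXp : Primary X := by
    show (3 : Eis) ∣ X - 1
    refine ⟨-om * (-om ^ 2 + 4 * la * t), ?_⟩
    rw [hXs]
    linear_combination (-om ^ 2 + 4 * la * t) * h03
  have hX0 : X ≠ 0 := p15b_primary_ne hXp
  have hη'0 : η' ≠ 0 := p15b_primary_ne hp
  have hη0 : η ≠ 0 := by rw [hη2]; exact mul_ne_zero (pow_ne_zero j p15b_om_ne) hη'0
  have hcom : cc eK (kk X) (kk om) = om := by
    have h4 := cc_om_mod (-om ^ 2 + 4 * la * t) 2 (by
      refine ⟨-1 + 4 * t, ?_⟩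
      push_cast
      rw [hom]
      linear_combination -hR)
    rw [← hXs] at h4
    calc cc eK (kk X) (kk om) = (cc eK (kk X) (kk om) * om ^ 2) * om := by
          rw [mul_assoc, ← pow_succ, hc3, mul_one]
      _ = om := by rw [h4, one_mul]
  have hst : cc eK (kk X) (kk (om ^ 2 * (la ^ 2 * η))) = 1 := by
    refine cc_steinberg eK UL_KK (kk_ne hX0) (kk_ne ?_) ?_
    · exact mul_ne_zero (pow_ne_zero 2 p15b_om_ne) (mul_ne_zero (pow_ne_zero 2 p15b_la_ne) hη0)
    · rw [← hb, p15b_sub, p15b_one]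
      ring
  rw [p15b_mul (om ^ 2), cc_mul_right eK (kk_ne hX0) (kk_ne (pow_ne_zero 2 p15b_om_ne))
      (kk_ne (mul_ne_zero (pow_ne_zero 2 p15b_la_ne) hη0)), p15b_mul (la ^ 2),
    cc_mul_right eK (kk_ne hX0) (kk_ne (pow_ne_zero 2 p15b_la_ne)) (kk_ne hη0), hη2,
    p15b_mul (om ^ j),
    cc_mul_right eK (kk_ne hX0) (kk_ne (pow_ne_zero j p15b_om_ne)) (kk_ne hη'0),
    p15b_cc_pow hX0 p15b_om_ne, p15b_cc_pow hX0 p15b_la_ne, p15b_cc_pow hX0 p15b_om_ne, hcom,
    cc_one_mod X η' hXp hp, mul_one] at hst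
  have hL3 := cc_pow_three eK (kk_ne hX0) (kk_ne p15b_la_ne)
  set L := cc eK (kk X) (kk la) with hL
  have hL2 : L ^ 2 = om ^ (1 + 2 * j) := by
    have e1 : om ^ (1 + 2 * j) = om ^ (1 + 2 * j) * (om ^ 2 * (L ^ 2 * om ^ j)) := by rw [hst, mul_one]
    rw [e1, pow_add, pow_one]
    have e2 : om * om ^ (2 * j) * (om ^ 2 * (L ^ 2 * om ^ j)) =
        om ^ 3 * ((om ^ (2 * j) * om ^ j) * L ^ 2) := by ring
    rw [e2, hc3, hw, one_mul, one_mul]
  have e3 : L = (L ^ 2) ^ 2 := by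
    calc L = L ^ 3 * L := by rw [hL3, one_mul]
      _ = (L ^ 2) ^ 2 := by ring
  rw [e3, hL2, ← pow_mul]
  exact p15b_om_mod (by omega)

/-- (4) -/
theorem cc_la_mod (t : Eis) (j : ℕ) (hj : la ∣ t - j) :
    cc eK (kk (1 + la ^ 3 * t)) (kk la) = om ^ j := by
  have h1 := p15b_four t j hj
  have h2 := p15b_four 0 0 (by simp)
  rw [mul_zero, add_zero, mul_one] at h2
  have hX : (1 + la ^ 3 * t) ≠ 0 := by
    apply p15b_primary_ne
    show (3 : Eis) ∣ 1 + la ^ 3 * t - 1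
    refine ⟨-om * la * t, ?_⟩
    have h0 : la ^ 2 = (3 : Eis) * (-om) := by decide
    linear_combination la * t * h0
  have h4 : (4 : Eis) ≠ 0 := by decide
  rw [p15b_mul, cc_mul_left eK (kk_ne h4) (kk_ne hX) (kk_ne p15b_la_ne), h2] at h1
  have h5 : om * om ^ 2 = 1 := by decide
  have h6 : cc eK (kk (1 + la ^ 3 * t)) (kk la) =
      om * (om ^ (2 + 0) * cc eK (kk (1 + la ^ 3 * t)) (kk la)) := by
    rw [← mul_assoc, add_zero, h5, one_mul]
  rw [h6, h1, pow_add, ← mul_assoc, h5, one_mul]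

end TH
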