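import Pool.Agent.MP_9ab903_nt.TH.P7
import Pool.Agent.MP_9ab903_nt.TH.P9

set_option autoImplicit false

open NumberField IsDedekindDomain
open CM27 CMT NAB CF TWR
open scoped Classical

namespace TH

/-! ## [TH-P17a] the Kummer generator of a cyclic cubic extension unramified above `3` (file TH/P17a.lean)

`F / k` cyclic cubic, `λ` a uniformiser at all places of `F` above `3` (`UL (eu k F e)`).
`exists_tr_unit`: for every place `v` of `k` above `3` there is `θ_v ∈ 𝓞 F` with `Tr θ_v ∉ v`: the places `w` above `v` are all split or inert (`not_ram_three` in P8; here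
directly from `kinds` and `UL`: `e = 3` would give `e la ∈ w³`); split: `θ ≡ 1 mod w`, `θ ≡ 0 mod σw, σ²w`; inert: the trace of the residue field extension is onto
(`σ` acts on the residue field as a generator of its Galois group over the residue field of `v`: `frob3`). Chinese remainder theorem: `θ` with `Tr θ ≡ 1 mod v` for all `v ∣ 3`
(multiply the `θ_v` by idempotent elements of `𝓞 k`).
`exists_kummer`: `δ = θ + ω² σθ + ω σ²θ`, `σ δ = σθ + ω² σ²θ + ω θ = ω δ`, `δ ≡ Tr θ ≡ 1` modulo all `w ∣ 3` (`ω ≡ 1`), i.e. `λ ∣ δ - 1` (`UL`), so `δ ≠ 0`, `δ = 1 - λ s`,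
`δ³ = 1 - λ³ (s³ - ω² s + ω² λ s²)`; `d = δ³` is fixed by `σ`, `d ∈ 𝓞 k`, `λ³ ∣ d - 1` in `𝓞 F`, hence in `𝓞 k` ((d-1)/λ³ is integral over and in `k`). -/

section
variable {k F : Type} [Field k] [NumberField k] [Field F] [NumberField F] [Algebra k F]
  (S : Cyc k F) (e : Eis →+* 𝓞 k)

/-- the polynomial `X + X^q + X^(q²)` does not vanish on a field with `q³` elements -/
theorem p17a_poly {κ : Type} [Field κ] [Finite κ] {q : ℕ} (hq : 2 ≤ q) (hc : Nat.card κ = q ^ 3)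
    (h : ∀ x : κ, x + x ^ q + x ^ (q ^ 2) = 0) : False := by
  have := Fintype.ofFinite κ
  let P : Polynomial κ := Polynomial.X + Polynomial.X ^ q + Polynomial.X ^ (q ^ 2)
  have hq2 : q < q ^ 2 := by nlinarith
  have hP1 : P.coeff 1 = 1 := by
    have h1 : q ≠ 1 := by omega
    have h2 : q ^ 2 ≠ 1 := by omega
    simp only [P, Polynomial.coeff_add, Polynomial.coeff_X_one, Polynomial.coeff_X_pow]
    rw [if_neg (Ne.symm h1), if_neg (Ne.symm h2)]
    ring
  have hP0 : P ≠ 0 := by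
    intro h0
    rw [h0, Polynomial.coeff_zero] at hP1
    exact zero_ne_one hP1
  have hdeg : P.natDegree ≤ q ^ 2 := by
    refine Polynomial.natDegree_add_le_of_degree_le (Polynomial.natDegree_add_le_of_degree_le ?_ ?_)
      ?_
    · rw [Polynomial.natDegree_X]; omega
    · rw [Polynomial.natDegree_X_pow]; omega
    · rw [Polynomial.natDegree_X_pow]
  have hcard : (Finset.univ : Finset κ).card ≤ P.natDegree := by
    refine Polynomial.card_le_degree_of_subset_roots ?_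
    intro x _
    rw [Polynomial.mem_roots hP0, Polynomial.IsRoot.def]
    simp only [P, Polynomial.eval_add, Polynomial.eval_X, Polynomial.eval_pow]
    exact h x
  rw [Finset.card_univ, ← Nat.card_eq_fintype_card, hc] at hcard
  have h3 : q ^ 3 ≤ q ^ 2 := hcard.trans hdeg
  have h4 : q ^ 2 < q ^ 3 := Nat.pow_lt_pow_right (by omega) (by norm_num)
  omega

theorem p17a_sg_om (x : Eis) : S.sg (eu k F e x) = eu k F e x := S.fix (e x)

theorem p17a_ideal {R : Type} [CommRing R] {I J K : Ideal R} (h1 : IsCoprime I J)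
    (h2 : IsCoprime I K) : ∃ b : R, b ∈ J ∧ b ∈ K ∧ 1 - b ∈ I := by
  have h3 := h1.mul_right h2
  rw [Ideal.isCoprime_iff_exists] at h3
  obtain ⟨a, ha, b, hb, hab⟩ := h3
  have hJ : J * K ≤ J := Ideal.mul_le_left
  have hK : J * K ≤ K := Ideal.mul_le_right
  refine ⟨b, hJ hb, hK hb, ?_⟩
  rw [← hab, add_sub_cancel_right]
  exact ha

theorem p17a_cop {w w' : HeightOneSpectrum (𝓞 F)} (h : w ≠ w') :
    IsCoprime w.asIdeal w'.asIdeal := by
  refine isCoprime_of_not_le _ _ fun h' => ?_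
  exact h (HeightOneSpectrum.ext (w.isMaximal.eq_of_le w'.isPrime.ne_top h'))

/-- traces of integers are not all in `v` -/
theorem p17a_local (hU : UL (eu k F e)) (v : HeightOneSpectrum (𝓞 k)) (h3 : (3 : 𝓞 k) ∈ v.asIdeal)
    (h : ∀ θ : 𝓞 F, ∀ t : 𝓞 k, algebraMap (𝓞 k) (𝓞 F) t = θ + S.sg θ + S.sg (S.sg θ) →
      t ∈ v.asIdeal) : False := by
  obtain ⟨w, hw⟩ := exists_above (F := F) v
  have h3w : (3 : 𝓞 F) ∈ w.asIdeal := by
    rw [← three_und (k := k), hw]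
    exact h3
  have hall : ∀ θ : 𝓞 F, θ + S.sg θ + S.sg (S.sg θ) ∈ w.asIdeal := by
    intro θ
    obtain ⟨t, ht⟩ := S.tr θ
    rw [← ht, ← mem_und, hw]
    exact h θ t ht
  rcases kinds S w with ⟨hne, -, -⟩ | ⟨-, -, hm, -⟩ | ⟨hsw, hcard, -, -⟩
  · obtain ⟨hne2, -⟩ := S.sw_ne hne
    have hcop1 : IsCoprime w.asIdeal (S.sw w).asIdeal := p17a_cop (Ne.symm hne)
    have hcop2 : IsCoprime w.asIdeal (S.sw (S.sw w)).asIdeal := p17a_cop (Ne.symm hne2)
    obtain ⟨b, hb1', hb2', hab⟩ := p17a_ideal hcop1 hcop2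
    have hb1 : S.sg b ∈ w.asIdeal := (S.mem_sw w b).1 hb1'
    have hb2 : S.sg (S.sg b) ∈ w.asIdeal :=
      (S.mem_sw w (S.sg b)).1 ((S.mem_sw (S.sw w) b).1 hb2')
    have h1 := hall b
    apply w.isPrime.ne_top
    rw [Ideal.eq_top_iff_one]
    have e1 : (1 : 𝓞 F) = (b + S.sg b + S.sg (S.sg b)) - S.sg b - S.sg (S.sg b) + (1 - b) := by
      ring
    rw [e1]
    exact Ideal.add_mem _ (Ideal.sub_mem _ (Ideal.sub_mem _ h1 hb1) hb2) hab
  · apply hU w h3w
    have h1 : e la ∈ v.asIdeal := (three_mem_iff e v).1 h3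
    have h2 : eu k F e la ∈ w.asIdeal ^ 3 := by
      rw [← hm, hw]
      exact Ideal.mem_map_of_mem _ h1
    exact Ideal.pow_le_pow_right (by norm_num) h2
  · obtain ⟨i, hi, hfr⟩ := frob3 S w hsw hcard
    set q := nv (und k w) with hq
    have hfinw : Finite (𝓞 F ⧸ w.asIdeal) := finite_quot _
    have hmaxw := w.isMaximal
    have hq2 : 2 ≤ q := by
      have h1 : (3 : 𝓞 k) ∈ (und k w).asIdeal := by rw [hw]; exact h3
      obtain ⟨h4, h5⟩ := nv_three (und k w) h1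
      rw [hq, h4]
      calc 2 ≤ 3 ^ 1 := by norm_num
        _ ≤ 3 ^ Nat.log 3 (nv (und k w)) := Nat.pow_le_pow_right (by norm_num) h5
    let _ : Field (𝓞 F ⧸ w.asIdeal) := Ideal.Quotient.field w.asIdeal
    have hc : Nat.card (𝓞 F ⧸ w.asIdeal) = q ^ 3 := hcard
    have hcyc : ∀ x : 𝓞 F ⧸ w.asIdeal, x ^ (q ^ 3) = x := by
      intro x
      have := Fintype.ofFinite (𝓞 F ⧸ w.asIdeal)
      rw [← hc, Nat.card_eq_fintype_card]
      exact FiniteField.pow_card x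
    refine p17a_poly (κ := 𝓞 F ⧸ w.asIdeal) hq2 hc ?_
    intro x
    obtain ⟨θ, rfl⟩ := Ideal.Quotient.mk_surjective x
    have h1 : Ideal.Quotient.mk w.asIdeal (S.sg θ) = Ideal.Quotient.mk w.asIdeal θ ^ (q ^ i) := by
      rw [← map_pow, Ideal.Quotient.eq]
      exact hfr θ
    have h2 : Ideal.Quotient.mk w.asIdeal (S.sg (S.sg θ)) =
        Ideal.Quotient.mk w.asIdeal θ ^ (q ^ i * q ^ i) := by
      rw [pow_mul, ← h1, ← map_pow, Ideal.Quotient.eq]
      exact hfr (S.sg θ)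
    have h4 : Ideal.Quotient.mk w.asIdeal θ + Ideal.Quotient.mk w.asIdeal (S.sg θ) +
        Ideal.Quotient.mk w.asIdeal (S.sg (S.sg θ)) = 0 := by
      rw [← map_add, ← map_add, Ideal.Quotient.eq_zero_iff_mem]
      exact hall θ
    rw [h1, h2] at h4
    rcases hi with rfl | rfl
    · rw [pow_one, ← pow_two] at h4
      exact h4
    · have h5 : q ^ 2 * q ^ 2 = q ^ 3 * q := by ring
      rw [h5, pow_mul, hcyc] at h4
      rw [← h4]
      ring

/-- the ideal of traces -/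
def p17a_T : Ideal (𝓞 k) where
  carrier := {t | ∃ θ : 𝓞 F, algebraMap (𝓞 k) (𝓞 F) t = θ + S.sg θ + S.sg (S.sg θ)}
  zero_mem' := ⟨0, by simp⟩
  add_mem' := by
    rintro a b ⟨θ, hθ⟩ ⟨η, hη⟩
    refine ⟨θ + η, ?_⟩
    rw [map_add, hθ, hη, map_add, map_add]
    ring
  smul_mem' := by
    rintro c a ⟨θ, hθ⟩
    refine ⟨algebraMap (𝓞 k) (𝓞 F) c * θ, ?_⟩
    rw [smul_eq_mul, map_mul, hθ, map_mul, map_mul, S.fix, S.fix]
    ring

/-- an element of trace `≡ 1` modulo `λ` -/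
theorem exists_tr_one (hU : UL (eu k F e)) : ∃ θ : 𝓞 F,
    eu k F e la ∣ θ + S.sg θ + S.sg (S.sg θ) - 1 := by
  have htop : p17a_T S ⊔ Ideal.span {e la} = ⊤ := by
    by_contra hne
    obtain ⟨Q, hQm, hQ⟩ := Ideal.exists_le_maximal _ hne
    have hla : e la ∈ Q := hQ (Ideal.mem_sup_right (Ideal.mem_span_singleton_self _))
    have hQ0 : Q ≠ ⊥ := by
      rintro rfl
      rw [Ideal.mem_bot] at hla
      have h1 : (3 : 𝓞 k) = 0 := by
        have h2 := congrArg e three_eq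
        rw [map_mul, map_pow e la, hla] at h2
        rw [map_ofNat] at h2
        rw [h2]
        ring
      norm_num at h1
    let v : HeightOneSpectrum (𝓞 k) := ⟨Q, hQm.isPrime, hQ0⟩
    have hv3 : (3 : 𝓞 k) ∈ v.asIdeal := (three_mem_iff e v).2 hla
    refine p17a_local S e hU v hv3 ?_
    intro θ t ht
    exact hQ (Ideal.mem_sup_left ⟨θ, ht⟩)
  have h1 : (1 : 𝓞 k) ∈ p17a_T S ⊔ Ideal.span {e la} := by rw [htop]; trivial
  obtain ⟨t, ⟨θ, hθ⟩, c, hc, htc⟩ := Submodule.mem_sup.1 h1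
  obtain ⟨b, rfl⟩ := Ideal.mem_span_singleton.1 hc
  refine ⟨θ, -algebraMap (𝓞 k) (𝓞 F) b, ?_⟩
  rw [← hθ]
  have h2 := congrArg (algebraMap (𝓞 k) (𝓞 F)) htc
  rw [map_add, map_mul, map_one] at h2
  have h3 : eu k F e la = algebraMap (𝓞 k) (𝓞 F) (e la) := rfl
  rw [h3]
  linear_combination h2

/-- **Kummer generator** -/
theorem exists_kummer (hU : UL (eu k F e)) : ∃ (d : 𝓞 k) (δ : 𝓞 F), d ≠ 0 ∧ δ ≠ 0 ∧
    e la ^ 3 ∣ d - 1 ∧ eu k F e la ∣ δ - 1 ∧ δ ^ 3 = algebraMap (𝓞 k) (𝓞 F) d ∧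
    S.sg δ = eu k F e om * δ := by
  obtain ⟨θ, c, hc⟩ := exists_tr_one S e hU
  have hinj : Function.Injective (algebraMap (𝓞 k) (𝓞 F)) :=
    FaithfulSMul.algebraMap_injective (𝓞 k) (𝓞 F)
  obtain ⟨o, ho⟩ : ∃ o : 𝓞 F, o = eu k F e om := ⟨_, rfl⟩
  have hsgo : S.sg o = o := by rw [ho]; exact p17a_sg_om S e om
  have hq : o ^ 2 + o + 1 = 0 := by
    rw [ho, ← map_pow, ← map_one (eu k F e), ← map_add, ← map_add, om_quad, map_zero]
  have hl : eu k F e la = 1 - o := by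
    rw [ho, la_eq, map_sub, map_one]
  rw [hl] at hc
  have ho3 : o ^ 3 = 1 := by linear_combination (o - 1) * hq
  have h3 : (3 : 𝓞 F) = -o ^ 2 * (1 - o) ^ 2 := by
    linear_combination (o ^ 2 - 3 * o + 3) * hq
  obtain ⟨δ, hδ⟩ : ∃ δ : 𝓞 F, δ = θ + o ^ 2 * S.sg θ + o * S.sg (S.sg θ) := ⟨_, rfl⟩
  have hsgδ : S.sg δ = o * δ := by
    rw [hδ, map_add, map_add, map_mul, map_mul, map_pow, hsgo, S.cub]
    linear_combination (-(S.sg θ)) * ho3
  obtain ⟨s, hs⟩ : ∃ s : 𝓞 F, δ = 1 - (1 - o) * s := by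
    refine ⟨-(c - (1 + o) * S.sg θ - S.sg (S.sg θ)), ?_⟩
    rw [hδ]
    linear_combination hc
  have hδ3 : δ ^ 3 - 1 = (1 - o) ^ 3 * -(s ^ 3 - o ^ 2 * s + o ^ 2 * (1 - o) * s ^ 2) := by
    rw [hs]
    linear_combination (-(1 - o) * s + (1 - o) ^ 2 * s ^ 2) * h3
  have hnu : ¬ IsUnit (1 - o) := by
    intro hu
    have h4 : IsUnit (3 : 𝓞 F) := by
      rw [h3]
      refine IsUnit.mul ?_ (hu.pow 2)
      have h5 : IsUnit o := IsUnit.of_mul_eq_one (o ^ 2) (by linear_combination ho3)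
      exact (h5.pow 2).neg
    have h6 := h4.map (Algebra.norm ℤ)
    have h7 : Algebra.norm ℤ (3 : 𝓞 F) = 3 ^ Module.finrank ℤ (𝓞 F) := by
      have := Algebra.norm_algebraMap_of_basis (Module.Free.chooseBasis ℤ (𝓞 F)) (3 : ℤ)
      rw [map_ofNat] at this
      rw [Module.finrank_eq_card_chooseBasisIndex]
      exact this
    rw [h7, Int.isUnit_iff] at h6
    have h8 : 0 < Module.finrank ℤ (𝓞 F) := by
      rw [NumberField.RingOfIntegers.rank]
      exact Module.finrank_pos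
    have h9 : (1 : ℤ) < 3 ^ Module.finrank ℤ (𝓞 F) := one_lt_pow₀ (by norm_num) h8.ne'
    omega
  have hδ0 : δ ≠ 0 := by
    intro h0
    apply hnu
    refine IsUnit.of_mul_eq_one s ?_
    rw [h0] at hs
    linear_combination hs
  obtain ⟨d, hd⟩ := S.inv (δ ^ 3) (by
    rw [map_pow, hsgδ]
    linear_combination δ ^ 3 * ho3)
  have hl0 : (1 - o) ≠ 0 := by
    intro h0
    rw [h0] at h3
    norm_num at h3
  refine ⟨d, δ, ?_, hδ0, ?_, ?_, hd.symm, ?_⟩
  · rintro rfl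
    rw [map_zero] at hd
    exact hδ0 (pow_eq_zero_iff (by norm_num) |>.1 hd.symm)
  · obtain ⟨b, hb⟩ : ∃ b : 𝓞 F, δ ^ 3 - 1 = (1 - o) ^ 3 * b := ⟨_, hδ3⟩
    have hfix : S.sg b = b := by
      have h5 := congrArg S.sg hb
      rw [map_sub, map_mul, map_pow, map_pow, map_sub, map_one, hsgo, ← map_pow, ← hd, S.fix, hd,
        hb] at h5
      exact (mul_left_cancel₀ (pow_ne_zero 3 hl0) h5).symm
    obtain ⟨b', hb'⟩ := S.inv b hfix
    refine ⟨b', hinj ?_⟩
    rw [map_sub, map_mul, map_pow, map_one, hd, hb']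
    have h6 : algebraMap (𝓞 k) (𝓞 F) (e la) = 1 - o := hl
    rw [h6]
    exact hb
  · rw [hl]
    exact ⟨-s, by rw [hs]; ring⟩
  · rw [← ho]
    exact hsgδ

variable {d : k} {δ : F} (hd : d ≠ 0) (h3 : δ ^ 3 = algebraMap k F d)
  (hs : sF S δ = ((eu k F e om : 𝓞 F) : F) * δ)

end

end TH
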