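import Pool.Agent.MP_9ab903_nt.TH.P2a

set_option autoImplicit false

open NumberField IsDedekindDomain
open CM27 CMT NAB CF TWR
open scoped Classical

namespace TH

/-! ## [TH-P2] the cubic residue symbol at the places above `3` (file TH/P2.lean)

Artin–Schreier theory in the residue field `κ` of characteristic `3`, `|κ| = 3 ^ f`: `Tr t = ∑_{i < f} t ^ (3 ^ i)`, additive, values in
`𝔽₃` (`(Tr t)³ = Tr t`), `Tr (s³ - s) = s ^ (3 ^ f) - s = 0`, and `s³ - s = t` is solvable iff `Tr t = 0` (the map `s ↦ s³ - s` has kernel `𝔽₃`, the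
polynomial `Tr` has degree `3 ^ (f - 1)`; compare `NAB/QR2.lean`, `as_iff`). Uniqueness of the symbol: if `x u³ = 1 - λ³ τ` and
`x u'³ = 1 - λ³ τ'` then `c = u' / u` satisfies `c³ ≡ 1 mod λ³`; as `c³ - 1 = (c - 1)(c - ω)(c - ω²)` one has `v(c - 1) ≤ v(λ)`:
`c = 1 - λ s`, `s` integral at `v`, and `(1 - λ s)³ = 1 - λ³ (s³ - ω² s + ω² λ s²)` (use `3 = - ω² λ²`), so `τ' ≡ τ + (s³ - s) mod v`. -/

section
variable {F : Type} [Field F] [NumberField F] (e : Eis →+* 𝓞 F) (v : HeightOneSpectrum (𝓞 F))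

theorem p2_val_int (a : 𝓞 F) : v.valuation F (a : F) ≤ 1 := v.valuation_le_one a

theorem p2_W : ((e om : 𝓞 F) : F) ^ 2 + ((e om : 𝓞 F) : F) + 1 = 0 := by
  have h : e om ^ 2 + e om + 1 = 0 := by
    rw [← map_pow, ← map_add, ← map_one e, ← map_add, om_quad, map_zero]
  have h2 := congrArg (algebraMap (𝓞 F) F) h
  rw [map_add, map_add, map_pow, map_one, map_zero] at h2
  exact h2

theorem p2_L : ((e la : 𝓞 F) : F) = 1 - ((e om : 𝓞 F) : F) := by
  have h : e la = 1 - e om := by rw [la_eq, map_sub, map_one]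
  have h2 := congrArg (algebraMap (𝓞 F) F) h
  rw [map_sub, map_one] at h2
  exact h2

variable {v} in
theorem p2_valL (h3 : (3 : 𝓞 F) ∈ v.asIdeal) : v.valuation F ((e la : 𝓞 F) : F) < 1 :=
  (val_lt_iff _ v).2 ((three_mem_iff e v).1 h3)

theorem p2_valW : v.valuation F ((e om : 𝓞 F) : F) = 1 := by
  refine val_unit _ v fun h => ?_
  have h1 : (e om) ^ 3 = 1 := by rw [← map_pow, om_cube, map_one]
  have h2 : (1 : 𝓞 F) ∈ v.asIdeal := by
    rw [← h1, pow_succ, pow_two]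
    exact Ideal.mul_mem_left _ _ h
  exact v.isPrime.ne_top ((Ideal.eq_top_iff_one _).2 h2)

theorem p2_Lne : ((e la : 𝓞 F) : F) ≠ 0 := by
  intro h
  have hW := p2_W e
  have hL := p2_L e
  rw [h] at hL
  have h1 : ((e om : 𝓞 F) : F) = 1 := by linear_combination hL
  rw [h1] at hW
  norm_num at hW

variable {v} in
/-- `1 - λ³ τ` is a unit -/
theorem p2_val_one_sub (h3 : (3 : 𝓞 F) ∈ v.asIdeal) {τ : F} (hτ : v.valuation F τ ≤ 1) :
    v.valuation F (1 - ((e la : 𝓞 F) : F) ^ 3 * τ) = 1 := by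
  have h1 : v.valuation F (((e la : 𝓞 F) : F) ^ 3 * τ) < v.valuation F (1 : F) := by
    rw [map_mul, map_one, map_pow]
    calc v.valuation F ((e la : 𝓞 F) : F) ^ 3 * v.valuation F τ
        ≤ v.valuation F ((e la : 𝓞 F) : F) ^ 3 * 1 := mul_le_mul_right hτ _
      _ < 1 := by
        rw [mul_one]
        exact pow_lt_one₀ zero_le (p2_valL e h3) three_ne_zero
  rw [Valuation.map_sub_eq_of_lt_left _ h1, map_one]

/-- two representations -/
theorem La_compare (h3 : (3 : 𝓞 F) ∈ v.asIdeal) {x u τ u' τ' : F} (hu : u ≠ 0) (hu' : u' ≠ 0)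
    (h : x * u ^ 3 = 1 - ((e la : 𝓞 F) : F) ^ 3 * τ)
    (h' : x * u' ^ 3 = 1 - ((e la : 𝓞 F) : F) ^ 3 * τ') (hτ : v.valuation F τ ≤ 1)
    (hτ' : v.valuation F τ' ≤ 1) :
    ∃ s : 𝓞 F, v.valuation F (τ' - τ - ((s : F) ^ 3 - s)) < 1 := by
  have hW := p2_W e
  have hL := p2_L e
  have hL0 := p2_Lne e
  have hvL := p2_valL e h3
  have hvW := p2_valW e v
  have hv1 := p2_val_one_sub e h3 hτ
  set W : F := ((e om : 𝓞 F) : F) with hWd
  set L : F := ((e la : 𝓞 F) : F) with hLd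
  have hvL0 : 0 < v.valuation F L := zero_lt_iff.2 ((Valuation.ne_zero_iff _).2 hL0)
  set c : F := u' / u with hc
  have hcu : u' = c * u := by rw [hc]; field_simp
  have hc3 : c ^ 3 * (1 - L ^ 3 * τ) = 1 - L ^ 3 * τ' := by
    rw [← h, ← h', hcu]
    ring
  -- the valuation of `c - 1`
  have hprod : (c - 1) * ((c - 1) + L) * ((c - 1) - W ^ 2 * L) * (1 - L ^ 3 * τ) =
      L ^ 3 * (τ - τ') := by
    have e1 : (c - 1) * ((c - 1) + L) * ((c - 1) - W ^ 2 * L) = c ^ 3 - 1 := by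
      rw [hL]
      linear_combination ((c - 1) * (c * (W - 2) - (W - 1) ^ 2)) * hW
    rw [e1]
    linear_combination hc3
  have hva : v.valuation F (c - 1) ≤ v.valuation F L := by
    by_contra hlt
    push Not at hlt
    have h1 : v.valuation F ((c - 1) + L) = v.valuation F (c - 1) :=
      Valuation.map_add_eq_of_lt_left _ hlt
    have h2 : v.valuation F ((c - 1) - W ^ 2 * L) = v.valuation F (c - 1) := by
      refine Valuation.map_sub_eq_of_lt_left _ ?_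
      rw [map_mul, map_pow, hvW, one_pow, one_mul]
      exact hlt
    have h3' := congrArg (v.valuation F) hprod
    rw [map_mul, map_mul, map_mul, h1, h2, hv1, mul_one, map_mul, map_pow] at h3'
    have h4 : v.valuation F (τ - τ') ≤ 1 :=
      (Valuation.map_sub _ _ _).trans (max_le hτ hτ')
    have h5 : v.valuation F (c - 1) * v.valuation F (c - 1) * v.valuation F (c - 1) ≤
        v.valuation F L ^ 3 := by
      rw [h3']
      calc v.valuation F L ^ 3 * v.valuation F (τ - τ') ≤ v.valuation F L ^ 3 * 1 :=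
            mul_le_mul_right h4 _
        _ = _ := mul_one _
    have h6 : v.valuation F L ^ 3 < v.valuation F (c - 1) ^ 3 :=
      pow_lt_pow_left₀ hlt zero_le three_ne_zero
    refine absurd h5 (not_le.2 ?_)
    calc v.valuation F L ^ 3 < v.valuation F (c - 1) ^ 3 := h6
      _ = _ := by rw [pow_succ, pow_two]
  set s₀ : F := -(c - 1) / L with hs₀
  have hcs : c = 1 - L * s₀ := by
    rw [hs₀]
    field_simp
    ring
  have hvs₀ : v.valuation F s₀ ≤ 1 := by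
    rw [hs₀, map_div₀, Valuation.map_neg]
    exact div_le_one_of_le₀ hva zero_le
  obtain ⟨s, hs⟩ := approx_int s₀ v hvs₀
  have hvs : v.valuation F (s : F) ≤ 1 := p2_val_int v s
  have h3F : (3 : F) = -W ^ 2 * L ^ 2 := by
    rw [hL]
    linear_combination (W ^ 2 - 3 * W + 3) * hW
  set w₀ : F := s₀ ^ 3 - W ^ 2 * s₀ + W ^ 2 * L * s₀ ^ 2 with hw₀
  have hw : (1 - L * s₀) ^ 3 = 1 - L ^ 3 * w₀ := by
    rw [hw₀]
    linear_combination (-L * s₀ + L ^ 2 * s₀ ^ 2) * h3F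
  have hτe : τ' = τ + w₀ - L ^ 3 * w₀ * τ := by
    rw [hcs, hw] at hc3
    have h7 : L ^ 3 * (τ' - (τ + w₀ - L ^ 3 * w₀ * τ)) = 0 := by linear_combination hc3
    rcases mul_eq_zero.1 h7 with h8 | h8
    · exact absurd h8 (pow_ne_zero 3 hL0)
    · linear_combination h8
  have hfin : τ' - τ - ((s : F) ^ 3 - s) = L * ((1 + W) * s₀ + W ^ 2 * s₀ ^ 2 - L ^ 2 * w₀ * τ) +
      (s₀ - s) * (s₀ ^ 2 + s₀ * s + (s : F) ^ 2 - 1) := by
    have h9 : 1 - W ^ 2 = L * (1 + W) := by rw [hL]; ring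
    rw [hτe, hw₀]
    linear_combination s₀ * h9
  have hmul : ∀ {a b : F}, v.valuation F a < 1 → v.valuation F b ≤ 1 →
      v.valuation F (a * b) < 1 := by
    intro a b ha hb
    rw [map_mul]
    exact mul_lt_one_of_lt_of_le ha hb
  have hml : ∀ {a b : F}, v.valuation F a ≤ 1 → v.valuation F b ≤ 1 →
      v.valuation F (a * b) ≤ 1 := by
    intro a b ha hb
    rw [map_mul]
    exact mul_le_one' ha hb
  have hpl : ∀ {a : F} (n : ℕ), v.valuation F a ≤ 1 → v.valuation F (a ^ n) ≤ 1 := by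
    intro a n ha
    rw [map_pow]
    exact pow_le_one₀ zero_le ha
  have hal : ∀ {a b : F}, v.valuation F a ≤ 1 → v.valuation F b ≤ 1 →
      v.valuation F (a + b) ≤ 1 := fun ha hb => (Valuation.map_add _ _ _).trans (max_le ha hb)
  have hsl : ∀ {a b : F}, v.valuation F a ≤ 1 → v.valuation F b ≤ 1 →
      v.valuation F (a - b) ≤ 1 := fun ha hb => (Valuation.map_sub _ _ _).trans (max_le ha hb)
  have h11 : v.valuation F (1 : F) ≤ 1 := by rw [map_one]
  have hvw₀ : v.valuation F w₀ ≤ 1 :=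
    hal (hsl (hpl 3 hvs₀) (hml (hpl 2 hvW.le) hvs₀)) (hml (hml (hpl 2 hvW.le) hvL.le) (hpl 2 hvs₀))
  refine ⟨s, ?_⟩
  rw [hfin]
  refine (Valuation.map_add _ _ _).trans_lt (max_lt (hmul hvL ?_) (hmul hs ?_))
  · exact hsl (hal (hml (hal h11 hvW.le) hvs₀) (hml (hpl 2 hvW.le) (hpl 2 hvs₀)))
      (hml (hml (hpl 2 hvL.le) hvw₀) hτ)
  · exact hsl (hal (hal (hpl 2 hvs₀) (hml hvs₀ hvs)) (hpl 2 hvs)) h11

theorem exists_IsCs_three (h3 : (3 : 𝓞 F) ∈ v.asIdeal) {x : F} (h : La e v x) :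
    ∃ ζ : Eis, IsCs e v x ζ := by
  obtain ⟨u, τ, hu, h1, h2⟩ := h
  obtain ⟨t, ht⟩ := approx_int τ v h2
  obtain ⟨j, hj, hj2⟩ := tv_values v h3 t
  refine ⟨om ^ j, ?_, u, hu, Or.inr ⟨h3, τ, t, j, h1, ht, hj2, rfl⟩⟩
  rw [← pow_mul, mul_comm, pow_mul, om_cube, one_pow]

variable {v} in
theorem p2_val_of_approx {τ : F} {t : 𝓞 F} (h : v.valuation F (τ - t) < 1) :
    v.valuation F τ ≤ 1 := by
  have e1 : τ = (τ - t) + t := by ring
  rw [e1]
  exact (Valuation.map_add _ _ _).trans (max_le h.le (p2_val_int v t))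

theorem IsCs_unique_three (h3 : (3 : 𝓞 F) ∈ v.asIdeal) {x : F} {ζ ζ' : Eis} (h : IsCs e v x ζ)
    (h' : IsCs e v x ζ') : ζ = ζ' := by
  obtain ⟨-, u, hu, h1 | ⟨-, τ, t, j, h1, h2, h4, h5⟩⟩ := h
  · exact absurd h3 h1.1
  obtain ⟨-, u', hu', h1' | ⟨-, τ', t', j', h1', h2', h4', h5'⟩⟩ := h'
  · exact absurd h3 h1'.1
  obtain ⟨s, hs⟩ := La_compare e v h3 hu hu' h1 h1' (p2_val_of_approx h2) (p2_val_of_approx h2')
  have h6 : t' - (t + (s ^ 3 - s)) ∈ v.asIdeal := by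
    refine (val_lt_iff _ v).1 ?_
    have e1 : ((t' - (t + (s ^ 3 - s)) : 𝓞 F) : F) =
        (τ' - τ - ((s : F) ^ 3 - s)) - (τ' - t') + (τ - t) := by
      change algebraMap (𝓞 F) F (t' - (t + (s ^ 3 - s))) = _
      rw [map_sub, map_add, map_sub, map_pow]
      change (t' : F) - ((t : F) + ((s : F) ^ 3 - (s : F))) = _
      ring
    rw [e1]
    exact (Valuation.map_add _ _ _).trans_lt (max_lt
      ((Valuation.map_sub _ _ _).trans_lt (max_lt hs h2')) h2)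
  have h7 := tv_congr v h6
  have h8 := tv_add v h3 t (s ^ 3 - s)
  have h9 := tv_wp v h3 s
  have h10 : ((j : 𝓞 F) - (j' : 𝓞 F)) ∈ v.asIdeal := by
    have e2 : ((j : 𝓞 F) - (j' : 𝓞 F)) = (tv v t' - j') - (tv v t - j) -
        ((tv v t' - tv v (t + (s ^ 3 - s))) + (tv v (t + (s ^ 3 - s)) -
          (tv v t + tv v (s ^ 3 - s))) + tv v (s ^ 3 - s)) := by ring
    rw [e2]
    exact Ideal.sub_mem _ (Ideal.sub_mem _ h4' h4)
      (Ideal.add_mem _ (Ideal.add_mem _ h7 h8) h9)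
  rw [h5, h5']
  exact om_pow_eq_of v h3 h10

/-- the order is divisible by three if the symbol is defined -/
theorem La_of_IsCs (h3 : (3 : 𝓞 F) ∈ v.asIdeal) {x : F} {ζ : Eis} (h : IsCs e v x ζ) :
    x ≠ 0 ∧ La e v x := by
  obtain ⟨-, u, hu, h1 | ⟨-, τ, t, j, h1, h2, h4, h5⟩⟩ := h
  · exact absurd h3 h1.1
  have hτ := p2_val_of_approx h2
  refine ⟨?_, u, τ, hu, h1, hτ⟩
  rintro rfl
  have h6 := p2_val_one_sub e h3 hτ
  rw [← h1, zero_mul, map_zero] at h6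
  exact zero_ne_one h6

theorem t3_of_La (h3 : (3 : 𝓞 F) ∈ v.asIdeal) {x : F} (h : La e v x) : t3 v x := by
  obtain ⟨u, τ, hu, h1, hτ⟩ := h
  have h6 := p2_val_one_sub e h3 hτ
  have hx : x ≠ 0 := by
    rintro rfl
    rw [← h1, zero_mul, map_zero] at h6
    exact zero_ne_one h6
  rw [← t3_mul_cube v hx hu, h1, t3, od, h6]
  simp

end

end TH
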