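import Pool.Agent.MP_9ab903_nt.TH.P1

set_option autoImplicit false

open NumberField IsDedekindDomain
open CM27 CMT NAB CF TWR
open scoped Classical

namespace TH

/-! ## [TH-P2a] the cubic residue symbol at the places above `3` (file TH/P2a.lean)

Artin–Schreier theory in the residue field `κ` of characteristic `3`, `|κ| = 3 ^ f`: `Tr t = ∑_{i < f} t ^ (3 ^ i)`, additive, values in
`𝔽₃` (`(Tr t)³ = Tr t`), `Tr (s³ - s) = s ^ (3 ^ f) - s = 0`, and `s³ - s = t` is solvable iff `Tr t = 0` (the map `s ↦ s³ - s` has kernel `𝔽₃`, the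
polynomial `Tr` has degree `3 ^ (f - 1)`; compare `NAB/QR2.lean`, `as_iff`). Uniqueness of the symbol: if `x u³ = 1 - λ³ τ` and
`x u'³ = 1 - λ³ τ'` then `c = u' / u` satisfies `c³ ≡ 1 mod λ³`; as `c³ - 1 = (c - 1)(c - ω)(c - ω²)` one has `v(c - 1) ≤ v(λ)`:
`c = 1 - λ s`, `s` integral at `v`, and `(1 - λ s)³ = 1 - λ³ (s³ - ω² s + ω² λ s²)` (use `3 = - ω² λ²`), so `τ' ≡ τ + (s³ - s) mod v`. -/

/-! ### Artin–Schreier theory over a finite field of characteristic three -/

section charThree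
open Finset Polynomial
variable (k : Type*) [Field k] [Finite k] (h3 : (3 : k) = 0) (n : ℕ) (hn : Nat.card k = 3 ^ n)

/-- the trace to `𝔽₃` -/
def T3 (n : ℕ) {k : Type*} [Field k] (c : k) : k := ∑ i ∈ range n, c ^ 3 ^ i

include h3 in
omit [Finite k] in
theorem charP_three : CharP k 3 :=
  (CharP.charP_iff_prime_eq_zero Nat.prime_three).2 (by exact_mod_cast h3)

include h3 in
omit [Finite k] in
theorem add_pow_three_pow (a b : k) (i : ℕ) : (a + b) ^ 3 ^ i = a ^ 3 ^ i + b ^ 3 ^ i := by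
  haveI : CharP k 3 := charP_three k h3
  haveI : Fact (Nat.Prime 3) := ⟨Nat.prime_three⟩
  exact add_pow_char_pow a b 3 i

omit [Finite k] in
theorem neg_pow_three_pow (a : k) (i : ℕ) : (-a) ^ 3 ^ i = -(a ^ 3 ^ i) :=
  Odd.neg_pow (Odd.pow (by decide)) a

include h3 in
omit [Finite k] in
theorem T3_add (a b : k) : T3 n (a + b) = T3 n a + T3 n b := by
  rw [T3, T3, T3, ← sum_add_distrib]
  exact sum_congr rfl fun i _ => add_pow_three_pow k h3 a b i

omit [Finite k] in
theorem T3_neg (a : k) : T3 n (-a) = - T3 n a := by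
  rw [T3, T3, ← sum_neg_distrib]
  exact sum_congr rfl fun i _ => neg_pow_three_pow k a i

include h3 in
omit [Finite k] in
theorem T3_wp (s : k) : T3 n (s ^ 3 - s) = s ^ 3 ^ n - s := by
  induction n with
  | zero =>
    rw [T3, range_zero, sum_empty, pow_zero, pow_one, sub_self]
  | succ n ih =>
    rw [T3, sum_range_succ, ← T3, ih, sub_eq_add_neg (s ^ 3) s, add_pow_three_pow k h3,
      neg_pow_three_pow, ← pow_mul, ← pow_succ']
    ring

include hn in
theorem frob_card3 (s : k) : s ^ 3 ^ n = s := by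
  letI := Fintype.ofFinite k
  rw [← hn, Nat.card_eq_fintype_card]
  exact FiniteField.pow_card s

include h3 hn

/-- Artin-Schreier -/
theorem as_iff_three (c : k) : (∃ s : k, s ^ 3 - s - c = 0) ↔ T3 n c = 0 := by
  haveI : CharP k 3 := charP_three k h3
  have hn0 : n ≠ 0 := by
    rintro rfl
    rw [pow_zero] at hn
    have := Finite.one_lt_card (α := k)
    omega
  -- the additive maps
  let wp : k →+ k :=
    { toFun := fun s => s ^ 3 - s
      map_zero' := by simp
      map_add' := fun a b => by linear_combination (a ^ 2 * b + a * b ^ 2) * h3 }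
  let T : k →+ k :=
    { toFun := fun s => T3 n s
      map_zero' := by
        rw [T3]
        exact sum_eq_zero fun i _ => by rw [zero_pow (by positivity)]
      map_add' := fun a b => T3_add k h3 n a b }
  have hle : wp.range ≤ T.ker := by
    rintro _ ⟨s, rfl⟩
    change T3 n (s ^ 3 - s) = 0
    rw [T3_wp k h3, frob_card3 k n hn, sub_self]
  have hker : Nat.card wp.ker ≤ 3 := by
    have h3 : (wp.ker : Set k) ⊆ ({0, 1, -1} : Finset k) := by
      intro s hs
      have h4 : s ^ 3 - s = 0 := hs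
      have h5 : s * ((s - 1) * (s + 1)) = 0 := by linear_combination h4
      rcases mul_eq_zero.1 h5 with h6 | h6
      · simp [h6]
      rcases mul_eq_zero.1 h6 with h7 | h7
      · simp [sub_eq_zero.1 h7]
      · simp [eq_neg_of_add_eq_zero_left h7]
    calc Nat.card wp.ker = Nat.card ((wp.ker : Set k)) := rfl
      _ ≤ Nat.card (({0, 1, -1} : Finset k) : Set k) := Nat.card_mono (Finset.finite_toSet _) h3
      _ ≤ 3 := by
        rw [Nat.card_eq_card_toFinset, Finset.toFinset_coe]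
        exact Finset.card_le_three
  have hrange : 3 ^ (n - 1) ≤ Nat.card wp.range := by
    have h3 := wp.ker.card_mul_index
    have h4 : Nat.card wp.range = wp.ker.index := (AddSubgroup.index_ker wp).symm
    rw [hn] at h3
    have h5 : 3 ^ n = 3 * 3 ^ (n - 1) := by
      rw [← pow_succ']
      congr 1
      omega
    rw [h4]
    by_contra hlt
    rw [not_le] at hlt
    have : Nat.card wp.ker * wp.ker.index < 3 * 3 ^ (n - 1) := by
      calc Nat.card wp.ker * wp.ker.index ≤ 3 * wp.ker.index := Nat.mul_le_mul_right _ hker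
        _ < 3 * 3 ^ (n - 1) := by omega
    omega
  have hT : Nat.card T.ker ≤ 3 ^ (n - 1) := by
    let P : k[X] := ∑ i ∈ range n, X ^ 3 ^ i
    have hP0 : P.coeff (3 ^ (n - 1)) = 1 := by
      rw [finset_sum_coeff]
      rw [sum_eq_single (n - 1)]
      · rw [coeff_X_pow, if_pos rfl]
      · intro i _ hi
        rw [coeff_X_pow, if_neg]
        intro h
        exact hi (Nat.pow_right_injective (by norm_num) h).symm
      · intro h
        exact absurd (mem_range.2 (by omega)) h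
    have hP : P ≠ 0 := by
      intro h
      rw [h, coeff_zero] at hP0
      exact zero_ne_one hP0
    have hdeg : P.natDegree ≤ 3 ^ (n - 1) := by
      refine natDegree_sum_le_of_forall_le _ _ fun i hi => ?_
      rw [natDegree_X_pow]
      exact Nat.pow_le_pow_right (by norm_num) (by rw [mem_range] at hi; omega)
    have hsub : (T.ker : Set k) ⊆ (P.roots.toFinset : Set k) := by
      intro s hs
      rw [Finset.mem_coe, Multiset.mem_toFinset, mem_roots hP, IsRoot, eval_finset_sum]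
      have h4 : T3 n s = 0 := hs
      rw [← h4, T3]
      exact sum_congr rfl fun i _ => by rw [eval_pow, eval_X]
    calc Nat.card T.ker = Nat.card ((T.ker : Set k)) := rfl
      _ ≤ Nat.card (P.roots.toFinset : Set k) := Nat.card_mono (Finset.finite_toSet _) hsub
      _ = P.roots.toFinset.card := by
        rw [Nat.card_eq_card_toFinset, Finset.toFinset_coe]
      _ ≤ P.roots.card := Multiset.toFinset_card_le _
      _ ≤ P.natDegree := card_roots' _
      _ ≤ _ := hdeg
  have heq : wp.range = T.ker := by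
    apply SetLike.coe_injective
    refine Set.eq_of_subset_of_ncard_le hle ?_ (Set.toFinite _)
    exact hT.trans hrange
  constructor
  · rintro ⟨s, hs⟩
    have h3 : c ∈ wp.range := ⟨s, by
      change s ^ 3 - s = c
      linear_combination hs⟩
    rw [heq] at h3
    exact h3
  · intro h
    have h3 : c ∈ T.ker := h
    rw [← heq] at h3
    obtain ⟨s, hs⟩ := h3
    refine ⟨s, ?_⟩
    have h4 : s ^ 3 - s = c := hs
    linear_combination h4

theorem T3_values (c : k) : T3 n c = 0 ∨ T3 n c = 1 ∨ T3 n c = 2 := by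
  have h3' : (T3 n c) ^ 3 = T3 n c := by
    have h4 : ∀ m : ℕ, (T3 m c) ^ 3 = T3 m (c ^ 3) := by
      intro m
      induction m with
      | zero => simp [T3]
      | succ m ih =>
        have e1 : ∀ x : k, T3 (m + 1) x = T3 m x + x ^ 3 ^ m := fun x => by
          rw [T3, sum_range_succ, ← T3]
        rw [e1, e1, ← ih, ← pow_mul, mul_comm 3 (3 ^ m), pow_mul]
        linear_combination ((T3 m c) ^ 2 * c ^ 3 ^ m + (T3 m c) * (c ^ 3 ^ m) ^ 2) * h3
    rw [h4]
    have h5 : T3 n (c ^ 3 - c) = 0 := by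
      rw [T3_wp k h3, frob_card3 k n hn, sub_self]
    rw [sub_eq_add_neg, T3_add k h3, T3_neg] at h5
    linear_combination h5
  have h4 : T3 n c * ((T3 n c - 1) * (T3 n c - 2)) = 0 := by
    linear_combination h3' + (T3 n c - (T3 n c) ^ 2) * h3
  rcases mul_eq_zero.1 h4 with h5 | h5
  · exact Or.inl h5
  rcases mul_eq_zero.1 h5 with h6 | h6
  · exact Or.inr (Or.inl (sub_eq_zero.1 h6))
  · exact Or.inr (Or.inr (sub_eq_zero.1 h6))

end charThree

section
variable {F : Type} [Field F] [NumberField F] (e : Eis →+* 𝓞 F) (v : HeightOneSpectrum (𝓞 F))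

/-- `3 ∈ v` iff `λ ∈ v` -/
theorem three_mem_iff : (3 : 𝓞 F) ∈ v.asIdeal ↔ e la ∈ v.asIdeal := by
  have h1 : (3 : 𝓞 F) = -(e om) ^ 2 * (e la) ^ 2 := by
    have := congrArg e three_eq
    rwa [map_ofNat, map_mul, map_neg, map_pow, map_pow] at this
  have h2 : (e om) ^ 3 = 1 := by rw [← map_pow, om_cube, map_one]
  constructor
  · intro h
    have h3 : (e la) ^ 2 ∈ v.asIdeal := by
      have h4 : (e la) ^ 2 = -(e om) * 3 := by
        linear_combination (-(e om)) * h1.symm - (e la) ^ 2 * h2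
      rw [h4]
      exact v.asIdeal.mul_mem_left _ h
    exact v.isPrime.mem_of_pow_mem _ h3
  · intro h
    rw [h1, pow_two (e la), ← mul_assoc]
    exact v.asIdeal.mul_mem_left _ h

theorem om_sub_one_mem (h3 : (3 : 𝓞 F) ∈ v.asIdeal) : e om - 1 ∈ v.asIdeal := by
  have h1 : e om - 1 = -(e la) := by
    rw [la_eq, map_sub, map_one]
    ring
  rw [h1]
  exact v.asIdeal.neg_mem ((three_mem_iff e v).1 h3)

theorem nv_three (h3 : (3 : 𝓞 F) ∈ v.asIdeal) : nv v = 3 ^ Nat.log 3 (nv v) ∧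
    0 < Nat.log 3 (nv v) := by
  have hmax := v.isMaximal
  let _ : Field (𝓞 F ⧸ v.asIdeal) := Ideal.Quotient.field _
  have hfin : Finite (𝓞 F ⧸ v.asIdeal) := Ideal.finiteQuotientOfFreeOfNeBot _ v.ne_bot
  letI := Fintype.ofFinite (𝓞 F ⧸ v.asIdeal)
  have h0 : (3 : 𝓞 F ⧸ v.asIdeal) = 0 := by
    have := Ideal.Quotient.eq_zero_iff_mem.2 h3
    rwa [map_ofNat] at this
  haveI : CharP (𝓞 F ⧸ v.asIdeal) 3 := charP_three _ h0
  obtain ⟨n, hp, hn⟩ := FiniteField.card (𝓞 F ⧸ v.asIdeal) 3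
  have h1 : nv v = 3 ^ (n : ℕ) := by rw [nv, Nat.card_eq_fintype_card, hn]
  have h2 : Nat.log 3 (nv v) = n := by rw [h1, Nat.log_pow (by norm_num)]
  rw [h2]
  exact ⟨h1, n.pos⟩

theorem mk_three_eq_zero (h3 : (3 : 𝓞 F) ∈ v.asIdeal) : (3 : 𝓞 F ⧸ v.asIdeal) = 0 := by
  have := Ideal.Quotient.eq_zero_iff_mem.2 h3
  rwa [map_ofNat] at this

theorem tv_add (h3 : (3 : 𝓞 F) ∈ v.asIdeal) (s t : 𝓞 F) :
    tv v (s + t) - (tv v s + tv v t) ∈ v.asIdeal := by
  have hmax := v.isMaximal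
  let _ : Field (𝓞 F ⧸ v.asIdeal) := Ideal.Quotient.field _
  rw [← Ideal.Quotient.eq_zero_iff_mem, map_sub, map_add, tv, tv, tv, map_sum, map_sum, map_sum,
    sub_eq_zero, ← Finset.sum_add_distrib]
  refine Finset.sum_congr rfl fun i _ => ?_
  rw [map_pow, map_pow, map_pow, map_add]
  exact add_pow_three_pow _ (mk_three_eq_zero v h3) _ _ i

theorem tv_neg (s : 𝓞 F) : tv v (-s) = - tv v s := by
  rw [tv, tv, ← Finset.sum_neg_distrib]
  exact Finset.sum_congr rfl fun i _ => Odd.neg_pow (Odd.pow (by decide)) s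

theorem tv_congr {s t : 𝓞 F} (h : s - t ∈ v.asIdeal) : tv v s - tv v t ∈ v.asIdeal := by
  rw [← Ideal.Quotient.eq_zero_iff_mem, map_sub, sub_eq_zero] at h ⊢
  rw [tv, tv, map_sum, map_sum]
  exact Finset.sum_congr rfl fun i _ => by rw [map_pow, map_pow, h]

theorem mk_tv (t : 𝓞 F) : letI := v.isMaximal
    letI : Field (𝓞 F ⧸ v.asIdeal) := Ideal.Quotient.field _
    Ideal.Quotient.mk v.asIdeal (tv v t) =
      T3 (Nat.log 3 (nv v)) (Ideal.Quotient.mk v.asIdeal t) := by
  rw [tv, T3, map_sum]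
  exact Finset.sum_congr rfl fun i _ => by rw [map_pow]

theorem tv_wp (h3 : (3 : 𝓞 F) ∈ v.asIdeal) (s : 𝓞 F) : tv v (s ^ 3 - s) ∈ v.asIdeal := by
  have hmax := v.isMaximal
  let _ : Field (𝓞 F ⧸ v.asIdeal) := Ideal.Quotient.field _
  have hfin : Finite (𝓞 F ⧸ v.asIdeal) := Ideal.finiteQuotientOfFreeOfNeBot _ v.ne_bot
  have h0 := mk_three_eq_zero v h3
  rw [← Ideal.Quotient.eq_zero_iff_mem]
  refine (mk_tv v _).trans ?_
  rw [map_sub, map_pow]
  refine (T3_wp _ h0 _ _).trans ?_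
  rw [frob_card3 _ _ (nv_three v h3).1, sub_self]

theorem tv_values (h3 : (3 : 𝓞 F) ∈ v.asIdeal) (t : 𝓞 F) :
    ∃ j : ℕ, j < 3 ∧ tv v t - j ∈ v.asIdeal := by
  have hmax := v.isMaximal
  let _ : Field (𝓞 F ⧸ v.asIdeal) := Ideal.Quotient.field _
  have hfin : Finite (𝓞 F ⧸ v.asIdeal) := Ideal.finiteQuotientOfFreeOfNeBot _ v.ne_bot
  have h0 := mk_three_eq_zero v h3
  have h1 := T3_values _ h0 _ (nv_three v h3).1 (Ideal.Quotient.mk v.asIdeal t)
  have h2 := mk_tv v t
  rcases h1 with h | h | h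
  · refine ⟨0, by norm_num, ?_⟩
    rw [← Ideal.Quotient.eq_zero_iff_mem, map_sub, map_natCast, sub_eq_zero]
    refine h2.trans (h.trans ?_)
    rw [Nat.cast_zero]
  · refine ⟨1, by norm_num, ?_⟩
    rw [← Ideal.Quotient.eq_zero_iff_mem, map_sub, map_natCast, sub_eq_zero]
    refine h2.trans (h.trans ?_)
    rw [Nat.cast_one]
  · refine ⟨2, by norm_num, ?_⟩
    rw [← Ideal.Quotient.eq_zero_iff_mem, map_sub, map_natCast, sub_eq_zero]
    refine h2.trans (h.trans ?_)
    rw [Nat.cast_ofNat]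

/-- Artin–Schreier -/
theorem as_iff3 (h3 : (3 : 𝓞 F) ∈ v.asIdeal) (t : 𝓞 F) :
    (∃ s : 𝓞 F, s ^ 3 - s - t ∈ v.asIdeal) ↔ tv v t ∈ v.asIdeal := by
  have hmax := v.isMaximal
  let _ : Field (𝓞 F ⧸ v.asIdeal) := Ideal.Quotient.field _
  have hfin : Finite (𝓞 F ⧸ v.asIdeal) := Ideal.finiteQuotientOfFreeOfNeBot _ v.ne_bot
  have h0 := mk_three_eq_zero v h3
  have h1 := as_iff_three _ h0 _ (nv_three v h3).1 (Ideal.Quotient.mk v.asIdeal t)
  have h2 := mk_tv v t
  rw [← Ideal.Quotient.eq_zero_iff_mem (a := tv v t)]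
  constructor
  · rintro ⟨s, hs⟩
    refine h2.trans (h1.1 ⟨Ideal.Quotient.mk v.asIdeal s, ?_⟩)
    rw [← Ideal.Quotient.eq_zero_iff_mem, map_sub, map_sub, map_pow] at hs
    exact hs
  · intro h
    obtain ⟨s, hs⟩ := h1.2 (h2.symm.trans h)
    obtain ⟨s, rfl⟩ := Ideal.Quotient.mk_surjective s
    refine ⟨s, ?_⟩
    rw [← Ideal.Quotient.eq_zero_iff_mem, map_sub, map_sub, map_pow]
    exact hs

theorem om_pow_eq_of (h3 : (3 : 𝓞 F) ∈ v.asIdeal) {i j : ℕ}
    (h : ((i : 𝓞 F) - (j : 𝓞 F)) ∈ v.asIdeal) : om ^ i = om ^ j := by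
  have hd : (3 : ℤ) ∣ (i : ℤ) - j := by
    by_contra hn
    have hc : IsCoprime (3 : ℤ) ((i : ℤ) - j) :=
      (Prime.coprime_iff_not_dvd Int.prime_three).2 hn
    obtain ⟨a, b, hab⟩ := hc
    have h1 : (1 : 𝓞 F) = (a : 𝓞 F) * 3 + (b : 𝓞 F) * ((i : 𝓞 F) - (j : 𝓞 F)) := by
      have := congrArg (Int.cast : ℤ → 𝓞 F) hab
      push_cast at this
      exact this.symm
    have h2 : (1 : 𝓞 F) ∈ v.asIdeal := by
      rw [h1]
      exact v.asIdeal.add_mem (v.asIdeal.mul_mem_left _ h3) (v.asIdeal.mul_mem_left _ h)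
    exact v.isPrime.ne_top ((Ideal.eq_top_iff_one _).2 h2)
  have hm : i % 3 = j % 3 := by omega
  rw [← Nat.div_add_mod i 3, ← Nat.div_add_mod j 3, pow_add, pow_add, pow_mul, pow_mul, om_cube,
    one_pow, one_pow, hm]

end

end TH
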