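import Pool.Agent.MP_9ab903_nt.TH.P2

set_option autoImplicit false

open NumberField IsDedekindDomain
open CM27 CMT NAB CF TWR
open scoped Classical

namespace TH

/-! ## [TH-P3] multiplicativity of the cubic symbol (file TH/P3.lean)

Everything follows from existence and uniqueness (P1, P2). `v ∤ 3`: `x u³ = a`, `y u'³ = b`, `x y (u u')³ = a b`.
`v ∣ 3`: `(1 - λ³ τ)(1 - λ³ τ') = 1 - λ³ (τ + τ' - λ³ τ τ')`, and `τ + τ' - λ³ τ τ' ≡ t + t' mod v`. Inverse: `x⁻¹ (x)³ = x²`. -/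

section
variable {F : Type} [Field F] [NumberField F] (e : Eis →+* 𝓞 F) (v : HeightOneSpectrum (𝓞 F))

theorem p3_Cd_of {x : F} {ζ : Eis} (h : IsCs e v x ζ) : Cd e v x := by
  by_cases h3 : (3 : 𝓞 F) ∈ v.asIdeal
  · obtain ⟨h1, h2⟩ := La_of_IsCs e v h3 h
    exact ⟨h1, Or.inr ⟨h3, h2⟩⟩
  · obtain ⟨h1, h2⟩ := t3_of_IsCs e v h3 h
    exact ⟨h1, Or.inl ⟨h3, h2⟩⟩

theorem p3_mul {x y : F} {ζ ζ' : Eis} (h : IsCs e v x ζ) (h' : IsCs e v y ζ') :
    IsCs e v (x * y) (ζ * ζ') := by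
  obtain ⟨hz, u, hu, h⟩ := h
  obtain ⟨hz', u', hu', h'⟩ := h'
  refine ⟨by rw [mul_pow, hz, hz', one_mul], u * u', mul_ne_zero hu hu', ?_⟩
  by_cases h3 : (3 : 𝓞 F) ∈ v.asIdeal
  · obtain ⟨τ, t, j, hx, hτ, ht, hj⟩ := (h.resolve_left (fun hh => hh.1 h3)).2
    obtain ⟨τ', t', j', hy, hτ', ht', hj'⟩ := (h'.resolve_left (fun hh => hh.1 h3)).2
    refine Or.inr ⟨h3, τ + τ' - ((e la : 𝓞 F) : F) ^ 3 * τ * τ', t + t', j + j', ?_, ?_, ?_, ?_⟩
    · calc x * y * (u * u') ^ 3 = (x * u ^ 3) * (y * u' ^ 3) := by ring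
        _ = _ := by rw [hx, hy]; ring
    · have hle : ∀ {σ : F} {s : 𝓞 F}, v.valuation F (σ - s) < 1 → v.valuation F σ ≤ 1 := by
        intro σ s hσ
        have h1 : σ = (σ - s) + s := by ring
        rw [h1]
        exact (Valuation.map_add _ _ _).trans (max_le hσ.le (v.valuation_le_one _))
      have h4 : τ + τ' - ((e la : 𝓞 F) : F) ^ 3 * τ * τ' - ((t + t' : 𝓞 F) : F) =
          ((τ - t) + (τ' - t')) - ((e la : 𝓞 F) : F) ^ 3 * τ * τ' := by
        have h5 : ((t + t' : 𝓞 F) : F) = (t : F) + t' := rfl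
        rw [h5]
        ring
      rw [h4]
      have hl : v.valuation F ((e la : 𝓞 F) : F) < 1 :=
        (val_lt_iff (e la) v).2 ((three_mem_iff e v).1 h3)
      refine lt_of_le_of_lt (Valuation.map_sub _ _ _) (max_lt (Valuation.map_add_lt _ hτ hτ') ?_)
      rw [map_mul, map_mul, map_pow]
      calc v.valuation F ((e la : 𝓞 F) : F) ^ 3 * v.valuation F τ * v.valuation F τ'
          ≤ v.valuation F ((e la : 𝓞 F) : F) ^ 3 * 1 * 1 :=
            mul_le_mul' (mul_le_mul' le_rfl (hle hτ)) (hle hτ')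
        _ < 1 := by
            rw [mul_one, mul_one]
            exact pow_lt_one₀ zero_le hl (by norm_num)
    · have h5 := tv_add v h3 t t'
      have h6 := add_mem h5 (add_mem ht ht')
      have h7 : tv v (t + t') - (tv v t + tv v t') + (tv v t - (j : 𝓞 F) + (tv v t' - (j' : 𝓞 F))) =
          tv v (t + t') - ((j + j' : ℕ) : 𝓞 F) := by
        push_cast
        ring
      rwa [h7] at h6
    · rw [hj, hj', pow_add]
  · obtain ⟨a, ha, hx, hq⟩ := (h.resolve_right (fun hh => h3 hh.1)).2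
    obtain ⟨a', ha', hy, hq'⟩ := (h'.resolve_right (fun hh => h3 hh.1)).2
    refine Or.inl ⟨h3, a * a', fun hm => ?_, ?_, ?_⟩
    · rcases v.isPrime.mem_or_mem hm with h4 | h4
      · exact ha h4
      · exact ha' h4
    · calc x * y * (u * u') ^ 3 = (x * u ^ 3) * (y * u' ^ 3) := by ring
        _ = _ := by rw [hx, hy]; rfl
    · have h4 : (a * a') ^ ((nv v - 1) / 3) - e (ζ * ζ') =
          a ^ ((nv v - 1) / 3) * (a' ^ ((nv v - 1) / 3) - e ζ') +
            e ζ' * (a ^ ((nv v - 1) / 3) - e ζ) := by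
        rw [map_mul, mul_pow]
        ring
      rw [h4]
      exact add_mem (Ideal.mul_mem_left _ _ hq') (Ideal.mul_mem_left _ _ hq)

theorem p3_tv_zero : tv v (0 : 𝓞 F) = 0 := by
  unfold tv
  apply Finset.sum_eq_zero
  intro i _
  exact zero_pow (pow_ne_zero _ (by norm_num))

theorem p3_cube {u : F} (hu : u ≠ 0) : IsCs e v (u ^ 3) 1 := by
  refine ⟨one_pow 3, u⁻¹, inv_ne_zero hu, ?_⟩
  have h1 : u ^ 3 * u⁻¹ ^ 3 = 1 := by
    field_simp
  by_cases h3 : (3 : 𝓞 F) ∈ v.asIdeal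
  · refine Or.inr ⟨h3, 0, 0, 0, ?_, ?_, ?_, ?_⟩
    · rw [h1]
      ring
    · have h2 : ((0 : 𝓞 F) : F) = 0 := rfl
      rw [h2, sub_zero, map_zero]
      exact zero_lt_one
    · rw [p3_tv_zero]
      simp
    · rw [pow_zero]
  · refine Or.inl ⟨h3, 1, ?_, ?_, ?_⟩
    · intro h
      exact v.isPrime.ne_top ((Ideal.eq_top_iff_one _).2 h)
    · rw [h1]
      rfl
    · rw [one_pow, map_one, sub_self]
      exact Ideal.zero_mem _

theorem IsCs_unique {x : F} {ζ ζ' : Eis} (h : IsCs e v x ζ) (h' : IsCs e v x ζ') : ζ = ζ' := by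
  by_cases h3 : (3 : 𝓞 F) ∈ v.asIdeal
  · exact IsCs_unique_three e v h3 h h'
  · exact IsCs_unique_one e v h3 h h'

theorem cs_of {x : F} {ζ : Eis} (h : IsCs e v x ζ) : cs e v x = ζ := by
  have hex : ∃ ζ, IsCs e v x ζ := ⟨ζ, h⟩
  unfold cs
  rw [dif_pos hex]
  exact IsCs_unique e v hex.choose_spec h

theorem cs_spec {x : F} (h : Cd e v x) : IsCs e v x (cs e v x) := by
  obtain ⟨hx, h⟩ := h
  have hex : ∃ ζ, IsCs e v x ζ := by
    rcases h with ⟨h3, h⟩ | ⟨h3, h⟩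
    · exact exists_IsCs_one e v h3 hx h
    · exact exists_IsCs_three e v h3 h
  unfold cs
  rw [dif_pos hex]
  exact hex.choose_spec

theorem cs_eq_zero {x : F} : cs e v x = 0 ↔ ¬ Cd e v x := by
  constructor
  · intro h0 hc
    have h1 := (cs_spec e v hc).1
    rw [h0] at h1
    exact absurd h1 (by decide)
  · intro h
    unfold cs
    rw [dif_neg]
    rintro ⟨ζ, hζ⟩
    exact h (p3_Cd_of e v hζ)

theorem cs_pow_three {x : F} (h : Cd e v x) : cs e v x ^ 3 = 1 := by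
  exact (cs_spec e v h).1

theorem Cd.t3 {x : F} (h : Cd e v x) : t3 v x := by
  rcases h.2 with ⟨h3, h'⟩ | ⟨h3, h'⟩
  · exact h'
  · exact t3_of_La e v h3 h'

theorem Cd.mul {x y : F} (h : Cd e v x) (h' : Cd e v y) : Cd e v (x * y) := by
  refine ⟨mul_ne_zero h.1 h'.1, ?_⟩
  by_cases h3 : (3 : 𝓞 F) ∈ v.asIdeal
  · obtain ⟨u, τ, hu, hxu, hτ⟩ := (h.2.resolve_left (fun hh => hh.1 h3)).2
    obtain ⟨u', τ', hu', hyu, hτ'⟩ := (h'.2.resolve_left (fun hh => hh.1 h3)).2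
    refine Or.inr ⟨h3, u * u', τ + τ' - ((e la : 𝓞 F) : F) ^ 3 * τ * τ', mul_ne_zero hu hu', ?_, ?_⟩
    · calc x * y * (u * u') ^ 3 = (x * u ^ 3) * (y * u' ^ 3) := by ring
        _ = _ := by rw [hxu, hyu]; ring
    · refine (Valuation.map_sub _ _ _).trans (max_le ?_ ?_)
      · exact (Valuation.map_add _ _ _).trans (max_le hτ hτ')
      · rw [map_mul, map_mul, map_pow]
        exact mul_le_one' (mul_le_one' (pow_le_one' (v.valuation_le_one _) 3) hτ) hτ'
  · refine Or.inl ⟨h3, ?_⟩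
    exact t3_mul v h.1 h'.1 (h.2.resolve_right (fun hh => h3 hh.1)).2
      (h'.2.resolve_right (fun hh => h3 hh.1)).2

theorem Cd_cube {u : F} (hu : u ≠ 0) : Cd e v (u ^ 3) := by
  refine ⟨pow_ne_zero 3 hu, ?_⟩
  by_cases h3 : (3 : 𝓞 F) ∈ v.asIdeal
  · refine Or.inr ⟨h3, u⁻¹, 0, inv_ne_zero hu, ?_, ?_⟩
    · field_simp
      ring
    · rw [map_zero]
      exact zero_le
  · exact Or.inl ⟨h3, t3_cube v u⟩

theorem Cd_one : Cd e v 1 := by
  have h := Cd_cube e v (one_ne_zero : (1 : F) ≠ 0)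
  rwa [one_pow] at h

theorem Cd.mul_cube {x u : F} (h : Cd e v x) (hu : u ≠ 0) : Cd e v (x * u ^ 3) :=
  h.mul e v (Cd_cube e v hu)

theorem Cd.inv {x : F} (h : Cd e v x) : Cd e v x⁻¹ := by
  have h1 := (h.mul e v h).mul_cube e v (inv_ne_zero h.1)
  have h2 : x * x * x⁻¹ ^ 3 = x⁻¹ := by
    have := h.1
    field_simp
  rwa [h2] at h1

theorem Cd.neg {x : F} (h : Cd e v x) : Cd e v (-x) := by
  have h1 := h.mul_cube e v (neg_ne_zero.2 one_ne_zero : (-1 : F) ≠ 0)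
  have h2 : x * (-1) ^ 3 = -x := by ring
  rwa [h2] at h1

theorem Cd.pow {x : F} (h : Cd e v x) (n : ℕ) : Cd e v (x ^ n) := by
  induction n with
  | zero => rw [pow_zero]; exact Cd_one e v
  | succ n ih => rw [pow_succ]; exact ih.mul e v h

theorem Cd.zpow {x : F} (h : Cd e v x) (n : ℤ) : Cd e v (x ^ n) := by
  obtain ⟨k, rfl | rfl⟩ := n.eq_nat_or_neg
  · rw [zpow_natCast]
    exact h.pow e v k
  · rw [zpow_neg, zpow_natCast]
    exact (h.pow e v k).inv e v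

/-- **multiplicativity** -/
theorem cs_mul {x y : F} (h : Cd e v x) (h' : Cd e v y) : cs e v (x * y) = cs e v x * cs e v y := by
  exact cs_of e v (p3_mul e v (cs_spec e v h) (cs_spec e v h'))

theorem cs_cube {u : F} (hu : u ≠ 0) : cs e v (u ^ 3) = 1 := by
  exact cs_of e v (p3_cube e v hu)

theorem cs_one : cs e v 1 = 1 := by
  have h := cs_cube e v (one_ne_zero : (1 : F) ≠ 0)
  rwa [one_pow] at h

theorem cs_mul_cube (x : F) {u : F} (hu : u ≠ 0) : cs e v (x * u ^ 3) = cs e v x := by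
  by_cases h : Cd e v x
  · rw [cs_mul e v h (Cd_cube e v hu), cs_cube e v hu, mul_one]
  · have h1 : ¬ Cd e v (x * u ^ 3) := by
      intro h2
      apply h
      have h4 := h2.mul_cube e v (inv_ne_zero hu)
      have h5 : x * u ^ 3 * u⁻¹ ^ 3 = x := by
        field_simp
      rwa [h5] at h4
    rw [(cs_eq_zero e v).2 h, (cs_eq_zero e v).2 h1]

theorem cs_neg (x : F) : cs e v (-x) = cs e v x := by
  have h1 := cs_mul_cube e v x (neg_ne_zero.2 one_ne_zero : (-1 : F) ≠ 0)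
  have h2 : x * (-1) ^ 3 = -x := by ring
  rwa [h2] at h1

theorem cs_pow {x : F} (h : Cd e v x) (n : ℕ) : cs e v (x ^ n) = cs e v x ^ n := by
  induction n with
  | zero => rw [pow_zero, pow_zero]; exact cs_one e v
  | succ n ih => rw [pow_succ, pow_succ, cs_mul e v (h.pow e v n) h, ih]

theorem cs_inv {x : F} (h : Cd e v x) : cs e v x⁻¹ * cs e v x = 1 := by
  rw [← cs_mul e v (h.inv e v) h, inv_mul_cancel₀ h.1]
  exact cs_one e v

theorem p3_unit (h3 : (3 : 𝓞 F) ∉ v.asIdeal) {a : 𝓞 F} (ha : a ∉ v.asIdeal) {ζ : Eis}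
    (hζ : ζ ^ 3 = 1) (h : a ^ ((nv v - 1) / 3) - e ζ ∈ v.asIdeal) : cs e v (a : F) = ζ := by
  refine cs_of e v ⟨hζ, 1, one_ne_zero, Or.inl ⟨h3, a, ha, ?_, h⟩⟩
  rw [one_pow, mul_one]

/-- integral units at the places prime to `3` -/
theorem cs_unit (h3 : (3 : 𝓞 F) ∉ v.asIdeal) {a : 𝓞 F} (ha : a ∉ v.asIdeal) :
    a ^ ((nv v - 1) / 3) - e (cs e v (a : F)) ∈ v.asIdeal := by
  obtain ⟨ζ, hζ, h⟩ := exists_zeta e v h3 ha
  rw [p3_unit e v h3 ha hζ h]
  exact h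

theorem cs_unit_eq (h3 : (3 : 𝓞 F) ∉ v.asIdeal) {a : 𝓞 F} (ha : a ∉ v.asIdeal) {ζ : Eis}
    (hζ : ζ ^ 3 = 1) (h : a ^ ((nv v - 1) / 3) - e ζ ∈ v.asIdeal) : cs e v (a : F) = ζ := by
  exact p3_unit e v h3 ha hζ h

/-- elements congruent to `1` at the places prime to `3` -/
theorem cs_of_lt (h3 : (3 : 𝓞 F) ∉ v.asIdeal) {x : F} (h : v.valuation F (x - 1) < 1) :
    cs e v x = 1 := by
  have hv1 : v.valuation F x = 1 := by
    have h1 : x = 1 + (x - 1) := by ring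
    rw [h1]
    exact Valuation.map_one_add_of_lt _ h
  have hx : x ≠ 0 := by
    rintro rfl
    rw [map_zero] at hv1
    exact zero_ne_one hv1
  have ht : t3 v x := by
    unfold t3 od
    rw [hv1]
    exact ⟨0, rfl⟩
  obtain ⟨a, s, ha, hs, hxs⟩ := unit_rep3 v hx ht
  have hs3 : v.valuation F s ^ 3 = 1 := by
    have h1 := congrArg (v.valuation F) hxs
    rwa [map_mul, map_pow, hv1, one_mul, val_unit a v ha] at h1
  have hs1 : v.valuation F s = 1 := by
    rcases lt_trichotomy (v.valuation F s) 1 with h1 | h1 | h1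
    · exact absurd hs3 (pow_lt_one₀ zero_le h1 (by norm_num)).ne
    · exact h1
    · exact absurd hs3 (one_lt_pow₀ h1 (by norm_num)).ne'
  obtain ⟨r, hr⟩ := approx_int s v hs1.le
  have h5 : a - r ^ 3 ∈ v.asIdeal := by
    rw [← val_lt_iff (a - r ^ 3) v]
    have h6 : ((a - r ^ 3 : 𝓞 F) : F) = s ^ 3 * (x - 1) + (s - r) * (s ^ 2 + s * r + r ^ 2) := by
      change algebraMap (𝓞 F) F (a - r ^ 3) = _
      rw [map_sub, map_pow]
      change (a : F) - (r : F) ^ 3 = _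
      rw [← hxs]
      ring
    rw [h6]
    refine Valuation.map_add_lt _ ?_ ?_
    · rw [map_mul, map_pow, hs1, one_pow, one_mul]
      exact h
    · rw [map_mul]
      refine lt_of_le_of_lt (mul_le_mul_right (b := v.valuation F (s ^ 2 + s * r + r ^ 2)) (c := 1) ?_ _) ?_
      · refine (Valuation.map_add _ _ _).trans (max_le ((Valuation.map_add _ _ _).trans (max_le ?_ ?_)) ?_)
        · rw [map_pow, hs1, one_pow]
        · rw [map_mul, hs1, one_mul]
          exact v.valuation_le_one _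
        · rw [map_pow]
          exact pow_le_one' (v.valuation_le_one _) 2
      · rw [mul_one]
        exact hr
  have hrv : r ∉ v.asIdeal := by
    intro hr'
    apply ha
    have h7 : a = (a - r ^ 3) + r ^ 3 := by ring
    rw [h7]
    exact add_mem h5 (Ideal.pow_mem_of_mem _ hr' 3 (by norm_num))
  have h8 : a ^ ((nv v - 1) / 3) - e 1 ∈ v.asIdeal := by
    have h9 : (r ^ 3) ^ ((nv v - 1) / 3) = r ^ (nv v - 1) := by
      rw [← pow_mul]
      congr 1
      have := nv_mod e v h3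
      omega
    have h10 : a ^ ((nv v - 1) / 3) - (r ^ 3) ^ ((nv v - 1) / 3) ∈ v.asIdeal :=
      Ideal.mem_of_dvd _ (sub_dvd_pow_sub_pow _ _ _) h5
    have h11 := add_mem h10 (pow_nv_sub_one v hrv)
    rw [h9] at h11
    rw [map_one]
    have h12 : a ^ ((nv v - 1) / 3) - r ^ (nv v - 1) + (r ^ (nv v - 1) - 1) =
        a ^ ((nv v - 1) / 3) - 1 := by ring
    rwa [h12] at h11
  have h13 := p3_unit e v h3 ha (one_pow 3) h8
  rw [← cs_mul_cube e v x hs, hxs]
  exact h13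

/-- elements congruent to `1` modulo `λ³ v` at the places above `3` -/
theorem cs_of_lt_three (h3 : (3 : 𝓞 F) ∈ v.asIdeal) {x : F}
    (h : v.valuation F (x - 1) < v.valuation F ((e la : 𝓞 F) : F) ^ 3) : cs e v x = 1 := by
  have hl : ((e la : 𝓞 F) : F) ≠ 0 := by
    intro h0
    rw [h0, map_zero, zero_pow (by norm_num)] at h
    exact absurd h not_lt_zero
  refine cs_of e v ⟨one_pow 3, 1, one_ne_zero, Or.inr ⟨h3, (1 - x) / ((e la : 𝓞 F) : F) ^ 3, 0, 0,
    ?_, ?_, ?_, ?_⟩⟩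
  · field_simp
    ring
  · have h1 : ((0 : 𝓞 F) : F) = 0 := rfl
    rw [h1, sub_zero, map_div₀, map_pow, Valuation.map_sub_swap]
    exact (div_lt_one₀ (pow_pos (zero_lt_iff.2 (val_ne v hl)) 3)).2 h
  · have h1 : tv v (0 : 𝓞 F) = 0 := by
      unfold tv
      apply Finset.sum_eq_zero
      intro i _
      exact zero_pow (pow_ne_zero _ (by norm_num))
    rw [h1]
    simp
  · rw [pow_zero]

/-- the symbol of `1 - λ³ t` at the places above `3` -/
theorem cs_one_sub (h3 : (3 : 𝓞 F) ∈ v.asIdeal) {τ : F} {t : 𝓞 F} {j : ℕ}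
    (h : v.valuation F (τ - t) < 1) (hj : tv v t - j ∈ v.asIdeal) :
    cs e v (1 - ((e la : 𝓞 F) : F) ^ 3 * τ) = om ^ j := by
  refine cs_of e v ⟨?_, 1, one_ne_zero, Or.inr ⟨h3, τ, t, j, ?_, h, hj, rfl⟩⟩
  · rw [← pow_mul, mul_comm, pow_mul, om_cube, one_pow]
  · ring

end

end TH
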