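import Pool.Agent.MP_9ab903_nt.TH.P4a

set_option autoImplicit false

open NumberField IsDedekindDomain
open CM27 CMT NAB CF TWR
open scoped Classical

namespace TH

/-! ## [TH-P4] the local cubic Hilbert symbol (file TH/P4.lean)

`T v x y` = cubic symbol of `x ^ ord(y) y ^ (- ord(x))` (tame symbol up to sign, and `-1` is a cube); at the places above `3` it is only used for
`x` admissible (`AdG`: up to cubes `1 - λ³ τ`, `τ` integral above `3`): then `3 ∣ ord x`, so `T v x y = (x / v) ^ ord(y)`.
Bilinearity: `x ^ (a + b) ..`, the two factors have `Cd`. (`3 ∤ v`: `x ^ ord(y) y ^ (- ord(x))` has order `0`.)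
`T_steinberg`, `a + b = 1`: `v ∤ 3`: if `ord a > 0` then `b ≡ 1`, `T = (b / v) ^ (- ord a) = 1` (`cs_of_lt`), same for `ord b > 0`; if `ord a < 0` then
`ord b = ord a = - n`, the element is `(a / b) ^ (- n)` and `a / b = - 1 + 1 / b`, so `- a / b ≡ 1`. `v ∣ 3`, `a` admissible: if `ord a ≠ 0`: `3 ∣ ord b`
(`ord a > 0`: `ord b = 0`; `ord a < 0`: `ord b = ord a`). If `ord a = 0`: `b = 1 - a`; `a u³ = 1 - λ³ τ`, `u` a unit at `v`. If `ord b = 0` fine;
otherwise `a ≡ 1 mod v`, so `u³ ≡ 1`, `u ≡ 1 mod v`; hypothesis `UL`: `λ` is a uniformiser at `v`, so `v(u - 1) ≤ v(λ)`, `u³ ≡ 1 mod λ³`, `b = 1 - a ≡ 0 mod λ³`;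
`ord b = 3` fine; `ord b > 3`: `a ≡ 1 mod λ⁴`, `(a / v) = 1` (`cs_of_lt_three`). -/

section
variable {F : Type} [Field F] [NumberField F] (e : Eis →+* 𝓞 F) (v : HeightOneSpectrum (𝓞 F))

/-- `λ` is a uniformiser -/
theorem p4_val_la (hU : UL e) {v : HeightOneSpectrum (𝓞 F)} (h3 : (3 : 𝓞 F) ∈ v.asIdeal) :
    v.valuation F ((e la : 𝓞 F) : F) = WithZero.exp (-1 : ℤ) := by
  have h1 : e la ∈ v.asIdeal ^ 1 := by
    rw [pow_one]
    exact (three_mem_iff e v).1 h3
  have h2 := hU v h3
  rw [← HeightOneSpectrum.intValuation_le_pow_iff_mem] at h1 h2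
  have e1 : v.valuation F ((e la : 𝓞 F) : F) = v.intValuation (e la) :=
    HeightOneSpectrum.valuation_of_algebraMap v (e la)
  have hne : ((e la : 𝓞 F) : F) ≠ 0 := by
    intro h0
    apply h2
    rw [← e1, h0, map_zero]
    exact zero_le
  have e2 := val_eq_exp v hne
  rw [← e1, e2, WithZero.exp_le_exp] at h1 h2
  rw [e2]
  congr 1
  push_cast at h1 h2
  omega

theorem p4_val_three {v : HeightOneSpectrum (𝓞 F)} :
    v.valuation F (3 : F) ≤ v.valuation F ((e la : 𝓞 F) : F) ^ 2 := by
  have e1 : (3 : F) = -((e om : 𝓞 F) : F) ^ 2 * ((e la : 𝓞 F) : F) ^ 2 := by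
    have h1 := congrArg e three_eq
    rw [map_ofNat, map_mul, map_neg, map_pow, map_pow] at h1
    have h2 := congrArg (algebraMap (𝓞 F) F) h1
    rw [map_ofNat, map_mul, map_neg, map_pow, map_pow] at h2
    exact h2
  rw [e1, map_mul, Valuation.map_neg, map_pow, map_pow]
  calc v.valuation F ((e om : 𝓞 F) : F) ^ 2 * v.valuation F ((e la : 𝓞 F) : F) ^ 2
      ≤ 1 * v.valuation F ((e la : 𝓞 F) : F) ^ 2 :=
        mul_le_mul_left (pow_le_one' (v.valuation_le_one _) 2) _
    _ = _ := one_mul _

theorem p4_T_three {a b : F} (h1 : (3 : ℤ) ∣ od v a) (h2 : (3 : ℤ) ∣ od v b)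
    (ha : a ≠ 0) (hb : b ≠ 0) : T e v a b = 1 := by
  obtain ⟨k, hk⟩ := h1
  obtain ⟨l, hl⟩ := h2
  have e1 : a ^ (-od v b) * b ^ (od v a) = (a ^ (-l) * b ^ k) ^ 3 := by
    rw [hk, hl, mul_pow, ← zpow_natCast (a ^ (-l)) 3, ← zpow_natCast (b ^ k) 3, ← zpow_mul,
      ← zpow_mul]
    congr 2
    · push_cast
      ring
    · push_cast
      ring
  rw [T, e1, cs_cube e v (mul_ne_zero (zpow_ne_zero _ ha) (zpow_ne_zero _ hb))]

/-- `v(x) < 1` implies `v(x) ≤ v(λ)` -/
theorem p4_le_la (hU : UL e) {v : HeightOneSpectrum (𝓞 F)} (h3 : (3 : 𝓞 F) ∈ v.asIdeal) {x : F}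
    (hx : v.valuation F x < 1) : v.valuation F x ≤ v.valuation F ((e la : 𝓞 F) : F) := by
  by_cases hx0 : x = 0
  · rw [hx0, map_zero]
    exact zero_le
  · rw [p4_val_la e hU h3, val_eq_exp v hx0, WithZero.exp_le_exp]
    rw [val_eq_exp v hx0, ← WithZero.exp_zero, WithZero.exp_lt_exp] at hx
    omega

/-- **Steinberg relation.** -/
theorem T_steinberg (hU : UL e) {a b : F} (ha : a ≠ 0) (hb : b ≠ 0) (hab : a + b = 1)
    (h : (3 : 𝓞 F) ∉ v.asIdeal ∨ AdG e a) : T e v a b = 1 := by
  have hb1 : b = 1 + -a := by linear_combination hab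
  by_cases h3 : (3 : 𝓞 F) ∈ v.asIdeal
  · have had := h.resolve_left (fun h => h h3)
    have hc := had.cd e v h3
    have hta : (3 : ℤ) ∣ od v a := hc.t3 e v
    rcases lt_trichotomy (v.valuation F a) 1 with h5 | h5 | h5
    · have h6 : v.valuation F b = 1 := by
        rw [hb1, Valuation.map_add_eq_of_lt_left _ (by rw [map_one, Valuation.map_neg]; exact h5),
          map_one]
      refine p4_T_three e v hta ?_ ha hb
      rw [p4a_od_of_val_one v h6]
      exact dvd_zero _
    · rcases lt_trichotomy (v.valuation F b) 1 with h6 | h6 | h6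
      · obtain ⟨u, τ, hu, h1, h2⟩ := had
        have hτ := h2 v h3
        have hu1 : v.valuation F u = 1 := by
          have h7 := p4a_val_one_sub e h3 hτ
          rw [← h1, map_mul, h5, one_mul, map_pow] at h7
          have h7' : od v (u ^ 3) = 0 := p4a_od_of_val_one v (by rw [map_pow]; exact h7)
          rw [od_pow] at h7'
          have h7'' : od v u = 0 := by
            push_cast at h7'
            omega
          rw [val_eq_exp v hu, h7'', WithZero.exp_zero]
        set l := v.valuation F ((e la : 𝓞 F) : F) with hl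
        have hl1 : l < 1 := p4a_la_lt e h3
        have hlt : v.valuation F (((e la : 𝓞 F) : F) ^ 3 * τ) ≤ l ^ 3 := by
          rw [map_mul, map_pow]
          calc l ^ 3 * v.valuation F τ ≤ l ^ 3 * 1 := mul_le_mul_right hτ _
            _ = _ := mul_one _
        have hl31 : l ^ 3 < 1 := pow_lt_one₀ zero_le hl1 (by norm_num)
        have hbu : v.valuation F (b * u ^ 3) = v.valuation F b := by
          rw [map_mul, map_pow, hu1, one_pow, mul_one]
        have e1 : u ^ 3 - 1 = b * u ^ 3 - ((e la : 𝓞 F) : F) ^ 3 * τ := by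
          rw [hb1]
          linear_combination h1
        have h8 : v.valuation F (u ^ 3 - 1) < 1 := by
          rw [e1]
          refine (Valuation.map_sub _ _ _).trans_lt (max_lt ?_ (hlt.trans_lt hl31))
          rw [hbu]
          exact h6
        have h30 : v.valuation F (3 : F) ≤ l ^ 2 := p4_val_three e
        have hl21 : l ^ 2 < 1 := pow_lt_one₀ zero_le hl1 (by norm_num)
        have hum1 : v.valuation F (u - 1) ≤ 1 :=
          (Valuation.map_sub _ _ _).trans (max_le hu1.le (by rw [map_one]))
        have h9 : v.valuation F (u - 1) < 1 := by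
          have e2 : (u - 1) ^ 3 = (u ^ 3 - 1) - 3 * (u * (u - 1)) := by ring
          have h10 : v.valuation F ((u - 1) ^ 3) < 1 := by
            rw [e2]
            refine (Valuation.map_sub _ _ _).trans_lt (max_lt h8 ?_)
            rw [map_mul, map_mul, hu1, one_mul]
            calc v.valuation F 3 * v.valuation F (u - 1) ≤ l ^ 2 * 1 := mul_le_mul' h30 hum1
              _ < 1 := by rw [mul_one]; exact hl21
          rw [map_pow] at h10
          by_contra hcon
          push Not at hcon
          exact absurd (one_le_pow₀ hcon (n := 3)) (not_le.2 h10)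
        have h11 : v.valuation F (u - 1) ≤ l := p4_le_la e hU h3 h9
        have h12 : v.valuation F (u ^ 3 - 1) ≤ l ^ 3 := by
          have e2 : u ^ 3 - 1 = (u - 1) ^ 3 + 3 * (u * (u - 1)) := by ring
          rw [e2]
          refine (Valuation.map_add _ _ _).trans (max_le ?_ ?_)
          · rw [map_pow]
            exact pow_le_pow_left₀ zero_le h11 3
          · rw [map_mul, map_mul, hu1, one_mul]
            calc v.valuation F 3 * v.valuation F (u - 1) ≤ l ^ 2 * l := mul_le_mul' h30 h11
              _ = l ^ 3 := by rw [← pow_succ]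
        have h13 : v.valuation F b ≤ l ^ 3 := by
          rw [← hbu]
          have e2 : b * u ^ 3 = (u ^ 3 - 1) + ((e la : 𝓞 F) : F) ^ 3 * τ := by
            rw [e1]
            ring
          rw [e2]
          exact (Valuation.map_add _ _ _).trans (max_le h12 hlt)
        rcases h13.eq_or_lt with h14 | h14
        · refine p4_T_three e v hta ?_ ha hb
          have h15 : od v b = -3 := by
            have h16 : WithZero.exp (od v b) = WithZero.exp (-3 : ℤ) := by
              rw [← val_eq_exp v hb, h14, hl, p4_val_la e hU h3, ← WithZero.exp_nsmul]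
              norm_num
            exact WithZero.exp_injective h16
          rw [h15]
          norm_num
        · have h15 : v.valuation F (a - 1) < l ^ 3 := by
            have e2 : a - 1 = -b := by linear_combination hab
            rw [e2, Valuation.map_neg]
            exact h14
          have h16 : cs e v a = 1 := cs_of_lt_three e v h3 h15
          have h17 : od v b ≤ 0 := by
            rw [val_eq_exp v hb, ← WithZero.exp_zero, WithZero.exp_lt_exp] at h6
            exact h6.le
          obtain ⟨n, hn⟩ := Int.eq_ofNat_of_zero_le (show (0 : ℤ) ≤ -od v b by omega)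
          rw [T_of_cd e v hc hb n (by omega), h16, one_pow]
      · exact T_units e v h5 h6
      · exfalso
        have h7 : v.valuation F b ≤ 1 := by
          rw [hb1]
          refine (Valuation.map_add _ _ _).trans (max_le (by rw [map_one]) ?_)
          rw [Valuation.map_neg]
          exact h5.le
        exact absurd h7 (not_le.2 h6)
    · have h6 : v.valuation F b = v.valuation F a := by
        rw [hb1, add_comm, Valuation.map_add_eq_of_lt_left _
          (by rw [map_one, Valuation.map_neg]; exact h5), Valuation.map_neg]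
      refine p4_T_three e v hta ?_ ha hb
      rw [od_eq_of_val v h6]
      exact hta
  · rcases lt_trichotomy (v.valuation F a) 1 with h5 | h5 | h5
    · apply T_of_one e v ha h3
      have e1 : b - 1 = -a := by linear_combination hab
      rw [e1, Valuation.map_neg]
      exact h5
    · rcases lt_trichotomy (v.valuation F b) 1 with h6 | h6 | h6
      · have h7 : T e v b a = 1 := by
          apply T_of_one e v hb h3
          have e1 : a - 1 = -b := by linear_combination hab
          rw [e1, Valuation.map_neg]
          exact h6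
        have h8 := T_antisymm e v ha hb h3
        rwa [h7, mul_one] at h8
      · exact T_units e v h5 h6
      · exfalso
        have h7 : v.valuation F b ≤ 1 := by
          rw [hb1]
          refine (Valuation.map_add _ _ _).trans (max_le (by rw [map_one]) ?_)
          rw [Valuation.map_neg]
          exact h5.le
        exact absurd h7 (not_le.2 h6)
    · have hna : -a ≠ 0 := neg_ne_zero.2 ha
      have hc0 : -b / a ≠ 0 := div_ne_zero (neg_ne_zero.2 hb) ha
      have e1 : b = -a * (-b / a) := by field_simp
      have h6 : T e v a (-b / a) = 1 := by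
        apply T_of_one e v ha h3
        have e2 : -b / a - 1 = -a⁻¹ := by
          rw [hb1]
          field_simp
          ring
        rw [e2, Valuation.map_neg, map_inv₀]
        exact inv_lt_one_of_one_lt₀ h5
      rw [e1, T_mul_right e v ha hna hc0 (Or.inl h3), h6, T_neg_self e v ha (Or.inl h3), one_mul]

end

end TH
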