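import Pool.Agent.MP_9ab903_nt.TH.P4

set_option autoImplicit false

open NumberField IsDedekindDomain
open CM27 CMT NAB CF TWR
open scoped Classical

namespace TH

/-! ## [TH-P5] the product of the local symbols (file TH/P5.lean)

As `TWR/PF4.lean`. `H` is the subgroup of the `y` with `HH X y = 1` (used in P10 - P12). -/

section
variable {F : Type} [Field F] [NumberField F] (e : Eis →+* 𝓞 F)

/-- the product of the local symbols -/
noncomputable def HH (x y : F) : Eis := ∏ᶠ v : HeightOneSpectrum (𝓞 F), T e v x y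

theorem p5_val_support {x : F} (hx : x ≠ 0) :
    {v : HeightOneSpectrum (𝓞 F) | v.valuation F x ≠ 1}.Finite := by
  have h1 := HeightOneSpectrum.Support.finite (𝓞 F) x
  have h2 := HeightOneSpectrum.Support.finite (𝓞 F) x⁻¹
  refine (h1.union h2).subset fun v hv => ?_
  rcases lt_or_gt_of_ne hv with h3 | h3
  · right
    change 1 < v.valuation F x⁻¹
    rw [map_inv₀]
    exact (one_lt_inv₀ (zero_lt_iff.2 (val_ne v hx))).2 h3
  · left
    exact h3

theorem T_support {x y : F} (hx : x ≠ 0) (hy : y ≠ 0) :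
    (Function.mulSupport fun v : HeightOneSpectrum (𝓞 F) => T e v x y).Finite := by
  refine ((p5_val_support hx).union (p5_val_support hy)).subset fun v hv => ?_
  by_contra hcon
  rw [Set.mem_union, not_or] at hcon
  apply hv
  exact T_units e v (not_not.1 hcon.1) (not_not.1 hcon.2)

theorem HH_mul_right {x y z : F} (hx : AdG e x) (hy : y ≠ 0) (hz : z ≠ 0) :
    HH e x (y * z) = HH e x y * HH e x z := by
  rw [HH, HH, HH, ← finprod_mul_distrib (T_support e hx.ne_zero hy) (T_support e hx.ne_zero hz)]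
  exact finprod_congr fun v => T_mul_right e v hx.ne_zero hy hz (Or.inr hx)

theorem HH_mul_left {x x' y : F} (hx : AdG e x) (hx' : AdG e x') (hy : y ≠ 0) :
    HH e (x * x') y = HH e x y * HH e x' y := by
  rw [HH, HH, HH, ← finprod_mul_distrib (T_support e hx.ne_zero hy) (T_support e hx'.ne_zero hy)]
  exact finprod_congr fun v => T_mul_left e v hx.ne_zero hx'.ne_zero hy (Or.inr ⟨hx, hx'⟩)

theorem HH_cube_right {x y s : F} (hx : x ≠ 0) (hy : y ≠ 0) (hs : s ≠ 0) :
    HH e x (y * s ^ 3) = HH e x y :=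
  finprod_congr fun v => T_cube_right e v hx hy hs

theorem HH_cube_left {x y s : F} (hx : x ≠ 0) (hy : y ≠ 0) (hs : s ≠ 0) :
    HH e (x * s ^ 3) y = HH e x y :=
  finprod_congr fun v => T_cube_left e v hx hy hs

theorem HH_neg_self {x : F} (hx : AdG e x) : HH e x (-x) = 1 := by
  rw [HH]
  exact finprod_eq_one_of_forall_eq_one fun v => T_neg_self e v hx.ne_zero (Or.inr hx)

theorem HH_one_right (x : F) : HH e x 1 = 1 := by
  rw [HH]
  refine finprod_eq_one_of_forall_eq_one fun v => ?_
  rw [T, p4a_od_one, neg_zero, zpow_zero, one_zpow, mul_one, cs_one]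

theorem HH_pow_three {x y : F} (hx : AdG e x) (hy : y ≠ 0) : HH e x y ^ 3 = 1 := by
  rw [HH, finprod_pow (T_support e hx.ne_zero hy)]
  exact finprod_eq_one_of_forall_eq_one fun v => T_pow_three e v hx.ne_zero hy (Or.inr hx)

theorem HH_steinberg (hU : UL e) {a b : F} (ha : AdG e a) (hb : b ≠ 0) (hab : a + b = 1) :
    HH e a b = 1 := by
  rw [HH]
  exact finprod_eq_one_of_forall_eq_one fun v =>
    T_steinberg e v hU ha.ne_zero hb hab (Or.inr ha)

/-- **The product formula.** -/
def PF : Prop := ∀ x y : F, AdG e x → y ≠ 0 → HH e x y = 1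

/-- the `y` orthogonal to `X` -/
def Or (X y : F) : Prop := y ≠ 0 ∧ HH e X y = 1

theorem Or.mul {X y z : F} (hX : AdG e X) (h : Or e X y) (h' : Or e X z) : Or e X (y * z) :=
  ⟨mul_ne_zero h.1 h'.1, by rw [HH_mul_right e hX h.1 h'.1, h.2, h'.2, one_mul]⟩

theorem Or.inv {X y : F} (hX : AdG e X) (h : Or e X y) : Or e X y⁻¹ := by
  have h1 := inv_ne_zero h.1
  refine ⟨h1, ?_⟩
  have h2 := HH_mul_right e hX h.1 h1
  rw [mul_inv_cancel₀ h.1, HH_one_right, h.2, one_mul] at h2
  exact h2.symm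

theorem Or.of_mul {X y z : F} (hX : AdG e X) (h : Or e X (y * z)) (h' : Or e X z) : Or e X y := by
  have hy : y ≠ 0 := left_ne_zero_of_mul h.1
  refine ⟨hy, ?_⟩
  have h2 := HH_mul_right e hX hy h'.1
  rw [h.2, h'.2, mul_one] at h2
  exact h2.symm

theorem Or_cube {X u : F} (hX : AdG e X) (hu : u ≠ 0) : Or e X (u ^ 3) := by
  refine ⟨pow_ne_zero 3 hu, ?_⟩
  have h := HH_cube_right e hX.ne_zero (one_ne_zero (α := F)) hu
  rw [one_mul] at h
  rw [h, HH_one_right]

end

end TH
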