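import Pool.Agent.MP_9ab903_nt.TH.P6a
import Pool.Agent.MP_9ab903_nt.NAB.QR8

set_option autoImplicit false

open NumberField IsDedekindDomain
open CM27 CMT NAB CF TWR
open scoped Classical

namespace TH

/-! ## [TH-P6] cyclic cubic extensions: automorphism, primes (file TH/P6.lean)

As `NAB/QR5 - QR7`, `TWR/PF5`. `exists_Cyc`: `F / k` Galois of degree `3`: `σ` a generator of the Galois group,
`RingOfIntegers.mapRingEquiv`; `Algebra.norm_eq_prod_automorphisms`, `Algebra.trace_eq_sum_automorphisms`. `kinds`: `e f g = 3`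
(`Ideal.ncard_primesOver_mul_ramificationIdxIn_mul_inertiaDegIn` or by the norm: `w σw σ²w = N(w) 𝓞 F = v^f 𝓞 F`, `relNorm_prime`). -/

section
variable {k F : Type} [Field k] [NumberField k] [Field F] [NumberField F] [Algebra k F]


variable (S : Cyc k F)

/-- the ideal is a power of the only prime that contains it -/
theorem p6_pow (w : HeightOneSpectrum (𝓞 F)) (I : Ideal (𝓞 F)) (hI : I ≠ ⊥)
    (h : ∀ w' : HeightOneSpectrum (𝓞 F), I ≤ w'.asIdeal → w' = w) : ∃ e : ℕ, I = w.asIdeal ^ e := by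
  have hfin : FiniteMultiplicity w.asIdeal I :=
    FiniteMultiplicity.of_not_isUnit w.prime.not_unit hI
  obtain ⟨J, hJ, hndvd⟩ := hfin.exists_eq_pow_mul_and_not_dvd
  refine ⟨multiplicity w.asIdeal I, ?_⟩
  have hJ1 : J = ⊤ := by
    by_contra hne
    obtain ⟨Q, hQm, hQ⟩ := Ideal.exists_le_maximal J hne
    have hIQ : I ≤ Q := by
      rw [hJ]
      exact Ideal.mul_le_right.trans hQ
    have hQ0 : Q ≠ ⊥ := by
      rintro rfl
      exact hI (le_bot_iff.1 hIQ)
    have h1 := h ⟨Q, hQm.isPrime, hQ0⟩ hIQ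
    apply hndvd
    rw [Ideal.dvd_iff_le, ← h1]
    exact hQ
  rw [hJ1, Ideal.mul_top] at hJ
  exact hJ

/-- the three kinds of primes: split, ramified, inert -/
theorem kinds (w : HeightOneSpectrum (𝓞 F)) :
    (S.sw w ≠ w ∧ nv w = nv (und k w) ∧
      ∀ x : k, w.valuation F (algebraMap k F x) = (und k w).valuation k x) ∨
    (S.sw w = w ∧ nv w = nv (und k w) ∧
      Ideal.map (algebraMap (𝓞 k) (𝓞 F)) (und k w).asIdeal = w.asIdeal ^ 3 ∧
      ∀ x : k, w.valuation F (algebraMap k F x) = (und k w).valuation k x ^ 3) ∨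
    (S.sw w = w ∧ nv w = nv (und k w) ^ 3 ∧
      Ideal.map (algebraMap (𝓞 k) (𝓞 F)) (und k w).asIdeal = w.asIdeal ∧
      ∀ x : k, w.valuation F (algebraMap k F x) = (und k w).valuation k x) := by
  obtain ⟨f, hf, h1, h2⟩ := relNorm_prime (k := k) w
  set p := und k w with hp
  have hp0 : p.asIdeal ≠ 0 := p.ne_bot
  have hpu := p.prime.not_unit
  have hrank : Module.finrank (𝓞 k) (𝓞 F) = 3 := by
    rw [← IsFractionRing.finrank_eq (𝓞 k) k (𝓞 F) F]
    exact S.rank
  set I := Ideal.map (algebraMap (𝓞 k) (𝓞 F)) p.asIdeal with hI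
  have hN : Ideal.relNorm (𝓞 k) I = p.asIdeal ^ 3 := by
    rw [hI, Ideal.relNorm_algebraMap, hrank]
  have hI0 : I ≠ ⊥ := by
    intro h
    rw [h, Ideal.relNorm_bot] at hN
    exact pow_ne_zero 3 hp0 hN.symm
  have hle : ∀ w' : HeightOneSpectrum (𝓞 F), und k w' = p → I ≤ w'.asIdeal := by
    intro w' h'
    rw [hI, ← h']
    exact Ideal.map_comap_le
  have hle' : ∀ w' : HeightOneSpectrum (𝓞 F), I ≤ w'.asIdeal → und k w' = p := by
    intro w' h'
    apply HeightOneSpectrum.ext
    refine (p.isMaximal.eq_of_le (und k w').isPrime.ne_top ?_).symm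
    intro x hx
    rw [mem_und]
    exact h' (Ideal.mem_map_of_mem _ hx)
  haveI : w.asIdeal.LiesOver (und k w).asIdeal := ⟨rfl⟩
  have hval := fun x : k => HeightOneSpectrum.valuation_liesOver F (und k w) w x
  have hw0 : w.asIdeal ≠ 0 := w.ne_bot
  have hstrict : ∀ n : ℕ, ¬ w.asIdeal ^ n ≤ w.asIdeal ^ (n + 1) := by
    intro n h
    have h1 := Ideal.dvd_iff_le.2 h
    have h2 := (pow_dvd_pow_iff hw0 w.prime.not_unit).1 h1
    omega
  by_cases hsw : S.sw w = w
  · right
    have honly : ∀ w' : HeightOneSpectrum (𝓞 F), I ≤ w'.asIdeal → w' = w := by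
      intro w' h'
      rcases S.above w w' (hle' w' h') with h3 | h3 | h3
      · exact h3
      · rw [h3, hsw]
      · rw [h3, hsw, hsw]
    obtain ⟨e, he⟩ := p6_pow w I hI0 honly
    have hef : f * e = 3 := by
      have h3 := congrArg (Ideal.relNorm (𝓞 k)) he
      rw [hN, map_pow, h1, ← pow_mul] at h3
      have h4 := (pow_dvd_pow_iff hp0 hpu).1 (dvd_of_eq h3)
      have h5 := (pow_dvd_pow_iff hp0 hpu).1 (dvd_of_eq h3.symm)
      omega
    have hram : (und k w).asIdeal.ramificationIdx' w.asIdeal = e := by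
      refine Ideal.ramificationIdx'_spec ?_ ?_
      · rw [← he]
      · have h3 := hstrict e
        rw [← he] at h3
        exact h3
    have hfd : f ∣ 3 := ⟨e, hef.symm⟩
    rcases (Nat.dvd_prime Nat.prime_three).1 hfd with rfl | rfl
    · left
      have he3 : e = 3 := by omega
      subst he3
      refine ⟨hsw, by unfold nv; rw [h2, pow_one], he, fun x => ?_⟩
      rw [← hval x, hram]
    · right
      have he1 : e = 1 := by omega
      subst he1
      refine ⟨hsw, h2, by rw [he, pow_one], fun x => ?_⟩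
      rw [← hval x, hram, pow_one]
  · left
    obtain ⟨hsw1, hsw2⟩ := S.sw_ne hsw
    obtain ⟨f1, hf1, h11, -⟩ := relNorm_prime (k := k) (S.sw w)
    obtain ⟨f2, hf2, h21, -⟩ := relNorm_prime (k := k) (S.sw (S.sw w))
    rw [S.und_sw] at h11
    rw [S.und_sw, S.und_sw] at h21
    have hprime : ∀ v v' : HeightOneSpectrum (𝓞 F), v.asIdeal ∣ v'.asIdeal → v = v' := by
      intro v v' h3
      rw [Ideal.dvd_iff_le] at h3
      exact (HeightOneSpectrum.ext (v'.isMaximal.eq_of_le v.isPrime.ne_top h3)).symm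
    obtain ⟨J1, hJ1⟩ := Ideal.dvd_iff_le.2 (hle w rfl)
    have h3 : (S.sw w).asIdeal ∣ J1 := by
      have h4 : (S.sw w).asIdeal ∣ I := Ideal.dvd_iff_le.2 (hle _ (S.und_sw w))
      rw [hJ1] at h4
      rcases (S.sw w).prime.dvd_or_dvd h4 with h5 | h5
      · exact absurd (hprime _ _ h5) hsw
      · exact h5
    obtain ⟨J2, hJ2⟩ := h3
    have h3 : (S.sw (S.sw w)).asIdeal ∣ J2 := by
      have h4 : (S.sw (S.sw w)).asIdeal ∣ I :=
        Ideal.dvd_iff_le.2 (hle _ (by rw [S.und_sw, S.und_sw]))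
      rw [hJ1, hJ2] at h4
      rcases (S.sw (S.sw w)).prime.dvd_or_dvd h4 with h5 | h5
      · exact absurd (hprime _ _ h5) hsw1
      · rcases (S.sw (S.sw w)).prime.dvd_or_dvd h5 with h6 | h6
        · exact absurd (hprime _ _ h6) hsw2
        · exact h6
    obtain ⟨J3, hJ3⟩ := h3
    have hf1' : f = 1 := by
      have h5 := congrArg (Ideal.relNorm (𝓞 k)) hJ1
      rw [hN, hJ2, hJ3, map_mul, map_mul, map_mul, h1, h11, h21] at h5
      have h6 : p.asIdeal ^ (f + f1 + f2) ∣ p.asIdeal ^ 3 := by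
        rw [h5]
        exact ⟨Ideal.relNorm (𝓞 k) J3, by ring⟩
      have h7 := (pow_dvd_pow_iff hp0 hpu).1 h6
      omega
    have hram : (und k w).asIdeal.ramificationIdx' w.asIdeal = 1 := by
      refine Ideal.ramificationIdx'_spec ?_ ?_
      · rw [pow_one]
        exact hle w rfl
      · intro h5
        have h6 := Ideal.dvd_iff_le.2 h5
        change w.asIdeal ^ (1 + 1) ∣ I at h6
        rw [hJ1, pow_succ, pow_one] at h6
        have h7 := (mul_dvd_mul_iff_left hw0).1 h6
        have h8 : Ideal.relNorm (𝓞 k) w.asIdeal ∣ Ideal.relNorm (𝓞 k) J1 := by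
          obtain ⟨J4, hJ4⟩ := h7
          rw [hJ4, map_mul]
          exact dvd_mul_right _ _
        -- compare the norms
        obtain ⟨J4, hJ4⟩ := h7
        rw [hJ2] at hJ4
        have h9 : (S.sw w).asIdeal ∣ J4 := by
          have h10 : (S.sw w).asIdeal ∣ w.asIdeal * J4 := by
            rw [← hJ4]
            exact dvd_mul_right _ _
          rcases (S.sw w).prime.dvd_or_dvd h10 with h11 | h11
          · exact absurd (hprime _ _ h11) hsw
          · exact h11
        obtain ⟨J5, hJ5⟩ := h9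
        have h10 : J2 = w.asIdeal * J5 := by
          rw [hJ5] at hJ4
          have h12 : (S.sw w).asIdeal * J2 = (S.sw w).asIdeal * (w.asIdeal * J5) := by
            rw [hJ4]
            ring
          exact mul_left_cancel₀ (S.sw w).ne_bot h12
        have h11' : (S.sw (S.sw w)).asIdeal ∣ J5 := by
          have h12 : (S.sw (S.sw w)).asIdeal ∣ w.asIdeal * J5 := by
            rw [← h10, hJ3]
            exact dvd_mul_right _ _
          rcases (S.sw (S.sw w)).prime.dvd_or_dvd h12 with h13 | h13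
          · exact absurd (hprime _ _ h13) hsw1
          · exact h13
        obtain ⟨J6, hJ6⟩ := h11'
        have h12 := congrArg (Ideal.relNorm (𝓞 k)) hJ1
        rw [hN, hJ2, h10, hJ6, map_mul, map_mul, map_mul, map_mul, h1, h11, h21] at h12
        have h13 : p.asIdeal ^ (f + f1 + f + f2) ∣ p.asIdeal ^ 3 := by
          rw [h12]
          exact ⟨Ideal.relNorm (𝓞 k) J6, by ring⟩
        have h14 := (pow_dvd_pow_iff hp0 hpu).1 h13
        omega
    refine ⟨hsw, by unfold nv; rw [h2, hf1', pow_one], fun x => ?_⟩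
    rw [← hval x, hram, pow_one]

/-- the local factor at `w` and its conjugates -/
noncomputable def lf {M : Type*} [CommMonoid M] (f : HeightOneSpectrum (𝓞 F) → M)
    (w : HeightOneSpectrum (𝓞 F)) : M :=
  if S.sw w = w then f w else f w * f (S.sw w) * f (S.sw (S.sw w))

theorem prod_above {M : Type*} [CommMonoid M] (f : HeightOneSpectrum (𝓞 F) → M)
    (g : HeightOneSpectrum (𝓞 k) → M)
    (hf : (Function.mulSupport f).Finite) (hg : (Function.mulSupport g).Finite)
    (h : ∀ w, lf S f w = g (und k w)) : ∏ᶠ w, f w = ∏ᶠ v, g v := by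
  choose up hup using fun v : HeightOneSpectrum (𝓞 k) => exists_above (F := F) v
  set t : Finset (HeightOneSpectrum (𝓞 k)) := hf.toFinset.image (und k) ∪ hg.toFinset with ht
  set s : Finset (HeightOneSpectrum (𝓞 F)) := t.image up ∪ (t.image (fun v => S.sw (up v)) ∪
    t.image (fun v => S.sw (S.sw (up v)))) with hs
  have hst : ∀ w, w ∈ s ↔ und k w ∈ t := by
    intro w
    rw [hs, Finset.mem_union, Finset.mem_union, Finset.mem_image, Finset.mem_image,
      Finset.mem_image]
    constructor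
    · rintro (⟨v, hv, rfl⟩ | ⟨v, hv, rfl⟩ | ⟨v, hv, rfl⟩)
      · rwa [hup]
      · rwa [S.und_sw, hup]
      · rwa [S.und_sw, S.und_sw, hup]
    · intro hw
      rcases S.above (up (und k w)) w (by rw [hup]) with h1 | h1 | h1
      · exact Or.inl ⟨_, hw, h1.symm⟩
      · exact Or.inr (Or.inl ⟨_, hw, h1.symm⟩)
      · exact Or.inr (Or.inr ⟨_, hw, h1.symm⟩)
  rw [finprod_eq_prod_of_mulSupport_subset f (s := s), finprod_eq_prod_of_mulSupport_subset g (s := t)]
  · rw [← Finset.prod_fiberwise_of_maps_to (s := s) (t := t) (g := und k) (fun w hw => (hst w).1 hw)]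
    refine Finset.prod_congr rfl fun v hv => ?_
    have h2 := h (up v)
    rw [hup] at h2
    rw [← h2, lf]
    have h3 : s.filter (fun w => und k w = v) = {up v, S.sw (up v), S.sw (S.sw (up v))} := by
      ext w
      rw [Finset.mem_filter, hst, Finset.mem_insert, Finset.mem_insert, Finset.mem_singleton]
      constructor
      · rintro ⟨-, h4⟩
        exact S.above (up v) w (by rw [hup, h4])
      · rintro (rfl | rfl | rfl)
        · rw [hup]; exact ⟨hv, rfl⟩
        · rw [S.und_sw, hup]; exact ⟨hv, rfl⟩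
        · rw [S.und_sw, S.und_sw, hup]; exact ⟨hv, rfl⟩
    rw [h3]
    split_ifs with h4
    · rw [h4, h4, Finset.pair_eq_singleton, Finset.pair_eq_singleton, Finset.prod_singleton]
    · obtain ⟨h5, h6⟩ := S.sw_ne h4
      rw [Finset.prod_insert, Finset.prod_pair (Ne.symm h6), mul_assoc]
      rw [Finset.mem_insert, Finset.mem_singleton, not_or]
      exact ⟨Ne.symm h4, Ne.symm h5⟩
  · intro v hv
    rw [ht, Finset.coe_union]
    right
    simpa using hv
  · intro w hw
    rw [Finset.mem_coe, hst, ht, Finset.mem_union, Finset.mem_image]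
    left
    exact ⟨w, by simpa using hw, rfl⟩

end

end TH
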