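import Pool.Agent.MP_9ab903_nt.TH.P5
import Pool.Agent.MP_9ab903_nt.NAB.QR8

set_option autoImplicit false

open NumberField IsDedekindDomain
open CM27 CMT NAB CF TWR
open scoped Classical

namespace TH

/-! ## [TH-P6a] cyclic cubic extensions: automorphism, primes (file TH/P6a.lean)

As `NAB/QR5 - QR7`, `TWR/PF5`. `exists_Cyc`: `F / k` Galois of degree `3`: `σ` a generator of the Galois group,
`RingOfIntegers.mapRingEquiv`; `Algebra.norm_eq_prod_automorphisms`, `Algebra.trace_eq_sum_automorphisms`. `kinds`: `e f g = 3`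
(`Ideal.ncard_primesOver_mul_ramificationIdxIn_mul_inertiaDegIn` or by the norm: `w σw σ²w = N(w) 𝓞 F = v^f 𝓞 F`, `relNorm_prime`). -/

theorem p6a_ne {k F : Type} [Field k] [Field F] [Algebra k F] (σ : F ≃ₐ[k] F) (hσ : σ ≠ 1)
    (h3 : σ * (σ * σ) = 1) : (1 : F ≃ₐ[k] F) ≠ σ ∧ (1 : F ≃ₐ[k] F) ≠ σ * σ ∧ σ ≠ σ * σ := by
  refine ⟨hσ.symm, ?_, ?_⟩
  · intro h
    rw [← h, mul_one] at h3
    exact hσ h3
  · intro h
    exact hσ (mul_left_cancel ((mul_one σ).trans h)).symm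

theorem p6a_div {F : Type} [Field F] [NumberField F] (x : F) :
    ∃ a b : 𝓞 F, b ≠ 0 ∧ x = (a : F) / b := by
  obtain ⟨a, b, hb, hab⟩ := IsFractionRing.div_surjective (A := 𝓞 F) x
  exact ⟨a, b, nonZeroDivisors.ne_zero hb, hab.symm⟩

theorem p6a_io {k F : Type} [Field k] [NumberField k] [Field F] [NumberField F] [Algebra k F]
    (x : 𝓞 k) : ((io k F x : 𝓞 F) : F) = algebraMap k F (x : k) := rfl

theorem p6a_univ {k F : Type} [Field k] [Field F] [Algebra k F] [Fintype (F ≃ₐ[k] F)]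
    (σ : F ≃ₐ[k] F) (hσ : σ ≠ 1) (h3 : σ * (σ * σ) = 1) (hc : Fintype.card (F ≃ₐ[k] F) ≤ 3) :
    (Finset.univ : Finset (F ≃ₐ[k] F)) = {1, σ, σ * σ} := by
  obtain ⟨n1, n2, n3⟩ := p6a_ne σ hσ h3
  have hcard : ({1, σ, σ * σ} : Finset (F ≃ₐ[k] F)).card = 3 := by
    rw [Finset.card_insert_of_notMem (by
      simp only [Finset.mem_insert, Finset.mem_singleton, not_or]; exact ⟨n1, n2⟩),
      Finset.card_pair n3]
  symm
  apply Finset.eq_univ_of_card
  apply le_antisymm (Finset.card_le_univ _)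
  rw [hcard]
  exact hc

theorem p6a_fixed {k F : Type} [Field k] [Field F] [Algebra k F] [FiniteDimensional k F]
    [IsGalois k F] [Fintype (F ≃ₐ[k] F)]
    (σ : F ≃ₐ[k] F) (huniv : (Finset.univ : Finset (F ≃ₐ[k] F)) = {1, σ, σ * σ}) (x : F)
    (hx : σ x = x) : ∃ y : k, algebraMap k F y = x := by
  have h1 : ∀ τ : F ≃ₐ[k] F, τ x = x := by
    intro τ
    have h2 : τ ∈ (Finset.univ : Finset (F ≃ₐ[k] F)) := Finset.mem_univ _
    rw [huniv, Finset.mem_insert, Finset.mem_insert, Finset.mem_singleton] at h2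
    rcases h2 with rfl | rfl | rfl
    · rfl
    · exact hx
    · rw [AlgEquiv.mul_apply, hx, hx]
  exact (IsGalois.mem_range_algebraMap_iff_fixed x).2 h1

section
variable (k F : Type) [Field k] [NumberField k] [Field F] [NumberField F] [Algebra k F]

/-- a generator of the automorphism group of a cyclic cubic extension -/
structure Cyc where
  sg : 𝓞 F ≃+* 𝓞 F
  fix : ∀ x : 𝓞 k, sg (algebraMap (𝓞 k) (𝓞 F) x) = algebraMap (𝓞 k) (𝓞 F) x
  cub : ∀ β, sg (sg (sg β)) = β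
  norm : ∀ β, algebraMap (𝓞 k) (𝓞 F) (Nm k F β) = β * sg β * sg (sg β)
  tr : ∀ β, ∃ t : 𝓞 k, algebraMap (𝓞 k) (𝓞 F) t = β + sg β + sg (sg β)
  rank : Module.finrank k F = 3
  inv : ∀ β : 𝓞 F, sg β = β → ∃ x : 𝓞 k, algebraMap (𝓞 k) (𝓞 F) x = β

theorem exists_Cyc [IsGalois k F] (h : Module.finrank k F = 3) : Nonempty (Cyc k F) := by
  have hcard : Fintype.card (F ≃ₐ[k] F) = 3 := by
    rw [← Nat.card_eq_fintype_card, IsGalois.card_aut_eq_finrank, h]
  obtain ⟨σ, hσ⟩ : ∃ σ : F ≃ₐ[k] F, σ ≠ 1 := by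
    have : Nontrivial (F ≃ₐ[k] F) := Fintype.one_lt_card_iff_nontrivial.1 (by rw [hcard]; norm_num)
    exact exists_ne 1
  have hσ3 : σ * (σ * σ) = 1 := by
    have h1 : σ ^ 3 = 1 := by
      rw [← hcard]
      exact pow_card_eq_one
    rw [← h1, pow_succ, pow_succ, pow_one, mul_assoc]
  have huniv := p6a_univ σ hσ hσ3 hcard.le
  obtain ⟨n1, n2, n3⟩ := p6a_ne σ hσ hσ3
  set sg : 𝓞 F ≃+* 𝓞 F := RingOfIntegers.mapRingEquiv σ.toRingEquiv with hsg
  have hcoe : ∀ β : 𝓞 F, ((sg β : 𝓞 F) : F) = σ (β : F) := fun β => rfl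
  refine ⟨⟨sg, ?_, ?_, ?_, ?_, h, ?_⟩⟩
  · intro x
    ext
    rw [hcoe]
    exact σ.commutes (x : k)
  · intro β
    ext
    rw [hcoe, hcoe, hcoe, ← AlgEquiv.mul_apply, ← AlgEquiv.mul_apply, mul_assoc, hσ3]
    rfl
  · intro β
    ext
    have h1 : ((algebraMap (𝓞 k) (𝓞 F) (Nm k F β) : 𝓞 F) : F) =
        algebraMap k F ((Nm k F β : 𝓞 k) : k) := rfl
    rw [h1, coe_Nm, Algebra.norm_eq_prod_automorphisms, huniv, Finset.prod_insert (by
      simp only [Finset.mem_insert, Finset.mem_singleton, not_or]; exact ⟨n1, n2⟩),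
      Finset.prod_pair n3, ← mul_assoc]
    rfl
  · intro β
    refine ⟨⟨Algebra.trace k F (β : F), Algebra.isIntegral_trace (RingOfIntegers.isIntegral_coe β)⟩, ?_⟩
    ext
    have h1 : ((algebraMap (𝓞 k) (𝓞 F) ⟨Algebra.trace k F (β : F),
        Algebra.isIntegral_trace (RingOfIntegers.isIntegral_coe β)⟩ : 𝓞 F) : F) =
        algebraMap k F (Algebra.trace k F (β : F)) := rfl
    rw [h1, trace_eq_sum_automorphisms, huniv, Finset.sum_insert (by
      simp only [Finset.mem_insert, Finset.mem_singleton, not_or]; exact ⟨n1, n2⟩),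
      Finset.sum_pair n3, ← add_assoc]
    rfl
  · intro β hβ
    have h1 : σ (β : F) = (β : F) := by
      rw [← hcoe, hβ]
    obtain ⟨y, hy⟩ := p6a_fixed σ huniv (β : F) h1
    have hy2 : IsIntegral ℤ y := by
      have h2 : IsIntegral ℤ (algebraMap k F y) := by
        rw [hy]
        exact RingOfIntegers.isIntegral_coe β
      exact (isIntegral_algebraMap_iff (algebraMap k F).injective).1 h2
    refine ⟨⟨y, hy2⟩, ?_⟩
    ext
    exact hy

variable {k F} (S : Cyc k F)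

/-- the conjugate prime -/
noncomputable def Cyc.sw (w : HeightOneSpectrum (𝓞 F)) : HeightOneSpectrum (𝓞 F) :=
  ⟨w.asIdeal.comap S.sg, w.isPrime.comap _, by
    intro h
    obtain ⟨β, hβ, hβ0⟩ := Submodule.exists_mem_ne_zero_of_ne_bot w.ne_bot
    have h1 : S.sg (S.sg β) ∈ w.asIdeal.comap S.sg := by
      rw [Ideal.mem_comap]
      change S.sg (S.sg (S.sg β)) ∈ w.asIdeal
      rw [S.cub]
      exact hβ
    rw [h, Ideal.mem_bot] at h1
    exact hβ0 ((map_eq_zero_iff S.sg S.sg.injective).1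
      ((map_eq_zero_iff S.sg S.sg.injective).1 h1))⟩

theorem Cyc.mem_sw (w : HeightOneSpectrum (𝓞 F)) (β : 𝓞 F) :
    β ∈ (S.sw w).asIdeal ↔ S.sg β ∈ w.asIdeal := Iff.rfl

theorem Cyc.sw_three (w : HeightOneSpectrum (𝓞 F)) : S.sw (S.sw (S.sw w)) = w := by
  apply HeightOneSpectrum.ext
  ext β
  rw [S.mem_sw, S.mem_sw, S.mem_sw, S.cub]

theorem Cyc.und_sw (w : HeightOneSpectrum (𝓞 F)) : und k (S.sw w) = und k w := by
  apply HeightOneSpectrum.ext
  ext x
  rw [mem_und, mem_und, S.mem_sw, S.fix]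

theorem Cyc.above (w w' : HeightOneSpectrum (𝓞 F)) (h : und k w' = und k w) :
    w' = w ∨ w' = S.sw w ∨ w' = S.sw (S.sw w) := by
  have hsub : (w'.asIdeal : Set (𝓞 F)) ⊆ ⋃ i ∈ (↑(Finset.univ : Finset (Fin 3)) : Set (Fin 3)),
      ((![w, S.sw w, S.sw (S.sw w)] i).asIdeal : Set (𝓞 F)) := by
    intro β hβ
    have hβ' : β ∈ w'.asIdeal := hβ
    have h1 : Nm k F β ∈ (und k w').asIdeal := by
      rw [mem_und, S.norm]
      exact Ideal.mul_mem_right _ _ (Ideal.mul_mem_right _ _ hβ')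
    rw [h, mem_und, S.norm] at h1
    simp only [Set.mem_iUnion]
    rcases w.isPrime.mem_or_mem h1 with h2 | h2
    · rcases w.isPrime.mem_or_mem h2 with h3 | h3
      · exact ⟨0, Finset.mem_univ _, h3⟩
      · exact ⟨1, Finset.mem_univ _, h3⟩
    · exact ⟨2, Finset.mem_univ _, h2⟩
  obtain ⟨i, -, hi⟩ := (Ideal.subset_union_prime (s := (Finset.univ : Finset (Fin 3)))
    (f := fun i => (![w, S.sw w, S.sw (S.sw w)] i).asIdeal) 0 0
    (fun i _ _ _ => (![w, S.sw w, S.sw (S.sw w)] i).isPrime)).1 hsub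
  have heq : w' = ![w, S.sw w, S.sw (S.sw w)] i := by
    apply HeightOneSpectrum.ext
    exact w'.isMaximal.eq_of_le (![w, S.sw w, S.sw (S.sw w)] i).isPrime.ne_top hi
  fin_cases i
  · exact Or.inl heq
  · exact Or.inr (Or.inl heq)
  · exact Or.inr (Or.inr heq)

theorem Cyc.sw_ne {w : HeightOneSpectrum (𝓞 F)} (h : S.sw w ≠ w) : S.sw (S.sw w) ≠ w ∧
    S.sw (S.sw w) ≠ S.sw w := by
  constructor
  · intro h1
    apply h
    have h2 := S.sw_three w
    rw [h1] at h2
    exact h2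
  · intro h1
    apply h
    have h2 : S.sw (S.sw (S.sw w)) = S.sw (S.sw w) := by rw [h1, h1]
    rw [S.sw_three] at h2
    exact (h2.trans h1).symm

/-- the extension of the automorphism to `F` -/
noncomputable def sF : F ≃+* F := IsFractionRing.ringEquivOfRingEquiv (K := F) (L := F) S.sg

theorem sF_coe (β : 𝓞 F) : sF S (β : F) = ((S.sg β : 𝓞 F) : F) := by
  exact IsFractionRing.ringEquivOfRingEquiv_algebraMap (K := F) (L := F) S.sg β

theorem sF_map (x : k) : sF S (algebraMap k F x) = algebraMap k F x := by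
  obtain ⟨a, b, hb, rfl⟩ := p6a_div x
  rw [map_div₀, ← p6a_io, ← p6a_io, map_div₀, sF_coe, sF_coe]
  rw [show S.sg (io k F a) = io k F a from S.fix a, show S.sg (io k F b) = io k F b from S.fix b]

theorem sF_cub (x : F) : sF S (sF S (sF S x)) = x := by
  obtain ⟨a, b, hb, rfl⟩ := p6a_div x
  rw [map_div₀, map_div₀, map_div₀, sF_coe, sF_coe, sF_coe, sF_coe, sF_coe, sF_coe, S.cub, S.cub]

/-- the automorphism over `k` and the Galois group -/
theorem p6a_sigma : ∃ σ : F ≃ₐ[k] F, (∀ x, σ x = sF S x) ∧ IsGalois k F ∧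
    (Finset.univ : Finset (F ≃ₐ[k] F)) = {1, σ, σ * σ} ∧ (1 : F ≃ₐ[k] F) ≠ σ ∧
    (1 : F ≃ₐ[k] F) ≠ σ * σ ∧ σ ≠ σ * σ := by
  have hsF3 : ∀ x : F, sF S (sF S (sF S x)) = x := sF_cub S
  let σ : F ≃ₐ[k] F := AlgEquiv.ofRingEquiv (f := sF S) (sF_map S)
  have hσs : ∀ x, σ x = sF S x := fun x => rfl
  have h3 : σ * (σ * σ) = 1 := by
    ext x
    rw [AlgEquiv.mul_apply, AlgEquiv.mul_apply, hσs, hσs, hσs, hsF3]
    rfl
  have hσ : σ ≠ 1 := by
    intro h
    have h1 : ∀ x : F, sF S x = x := by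
      intro x
      rw [← hσs, h]
      rfl
    have h2 : Function.Surjective (algebraMap k F) := by
      intro x
      obtain ⟨a, b, hb, rfl⟩ := p6a_div x
      have h4 : ∀ c : 𝓞 F, S.sg c = c := by
        intro c
        ext
        rw [← sF_coe, h1]
      obtain ⟨a', ha'⟩ := S.inv a (h4 a)
      obtain ⟨b', hb'⟩ := S.inv b (h4 b)
      refine ⟨(a' : k) / (b' : k), ?_⟩
      rw [map_div₀, ← p6a_io, ← p6a_io]
      rw [show io k F a' = a from ha', show io k F b' = b from hb']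
    have h5 : Module.finrank k F = 1 := by
      have e : k ≃ₗ[k] F := LinearEquiv.ofBijective (Algebra.linearMap k F)
        ⟨(algebraMap k F).injective, h2⟩
      rw [← e.finrank_eq, Module.finrank_self]
    rw [S.rank] at h5
    omega
  have hle : Fintype.card (F ≃ₐ[k] F) ≤ 3 := by
    rw [← S.rank]
    exact AlgEquiv.card_le
  have huniv := p6a_univ σ hσ h3 hle
  obtain ⟨n1, n2, n3⟩ := p6a_ne σ hσ h3
  refine ⟨σ, hσs, ?_, huniv, n1, n2, n3⟩
  apply IsGalois.of_card_aut_eq_finrank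
  rw [Nat.card_eq_fintype_card, S.rank, ← Finset.card_univ, huniv,
    Finset.card_insert_of_notMem (by
      simp only [Finset.mem_insert, Finset.mem_singleton, not_or]; exact ⟨n1, n2⟩),
      Finset.card_pair n3]

theorem norm_sF (x : F) : algebraMap k F (Algebra.norm k x) = x * sF S x * sF S (sF S x) := by
  have hint : ∀ β : 𝓞 F, algebraMap k F (Algebra.norm k (β : F)) =
      (β : F) * sF S (β : F) * sF S (sF S (β : F)) := by
    intro β
    rw [← coe_Nm, ← p6a_io, sF_coe, sF_coe]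
    have h := congrArg (fun t : 𝓞 F => (t : F)) (S.norm β)
    exact h
  obtain ⟨a, b, hb, rfl⟩ := p6a_div x
  have hbF : (b : F) ≠ 0 := RingOfIntegers.coe_ne_zero_iff.2 hb
  have hsb : sF S (b : F) ≠ 0 := (map_ne_zero_iff _ (sF S).injective).2 hbF
  have hsb2 : sF S (sF S (b : F)) ≠ 0 := (map_ne_zero_iff _ (sF S).injective).2 hsb
  have h1 : algebraMap k F (Algebra.norm k ((a : F) / b)) *
      ((b : F) * sF S b * sF S (sF S b)) = (a : F) * sF S a * sF S (sF S a) := by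
    rw [← hint b, ← map_mul, ← map_mul (Algebra.norm k), div_mul_cancel₀ _ hbF, hint]
  rw [map_div₀ (sF S), map_div₀ (sF S), div_mul_div_comm, div_mul_div_comm, ← h1,
    mul_div_cancel_right₀ _ (mul_ne_zero (mul_ne_zero hbF hsb) hsb2)]

theorem tr_sF (x : F) : algebraMap k F (Algebra.trace k F x) = x + sF S x + sF S (sF S x) := by
  obtain ⟨σ, hσs, hgal, huniv, n1, n2, n3⟩ := p6a_sigma S
  have := hgal
  rw [trace_eq_sum_automorphisms, huniv, Finset.sum_insert (by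
      simp only [Finset.mem_insert, Finset.mem_singleton, not_or]; exact ⟨n1, n2⟩),
      Finset.sum_pair n3, ← add_assoc, AlgEquiv.mul_apply, hσs, hσs]
  rfl

theorem fixed_sF (x : F) (h : sF S x = x) : ∃ y : k, algebraMap k F y = x := by
  obtain ⟨σ, hσs, hgal, huniv, n1, n2, n3⟩ := p6a_sigma S
  have := hgal
  exact p6a_fixed σ huniv x ((hσs x).trans h)

theorem val_sF (w : HeightOneSpectrum (𝓞 F)) (x : F) :
    w.valuation F (sF S x) = (S.sw w).valuation F x := by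
  have hpow : ∀ n : ℕ, ∀ β : 𝓞 F, S.sg β ∈ w.asIdeal ^ n ↔ β ∈ (S.sw w).asIdeal ^ n := by
    intro n β
    have e1 : (S.sw w).asIdeal = w.asIdeal.map (S.sg.symm : 𝓞 F ≃+* 𝓞 F) := by
      change w.asIdeal.comap S.sg = _
      exact (Ideal.map_symm S.sg).symm
    rw [e1, ← Ideal.map_pow, Ideal.map_symm S.sg]
    rfl
  have hint : ∀ β : 𝓞 F, w.intValuation (S.sg β) = (S.sw w).intValuation β := by
    intro β
    by_cases hβ : β = 0
    · rw [hβ, map_zero, map_zero, map_zero]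
    · have hβ' : S.sg β ≠ 0 := fun h => hβ ((map_eq_zero_iff S.sg S.sg.injective).1 h)
      obtain ⟨n, hn⟩ : ∃ n : ℕ, w.intValuation (S.sg β) = WithZero.exp (-(n : ℤ)) :=
        ⟨_, HeightOneSpectrum.intValuation_eq_exp_neg_multiplicity w hβ'⟩
      obtain ⟨m, hm⟩ : ∃ m : ℕ, (S.sw w).intValuation β = WithZero.exp (-(m : ℤ)) :=
        ⟨_, HeightOneSpectrum.intValuation_eq_exp_neg_multiplicity (S.sw w) hβ⟩
      apply le_antisymm
      · rw [hm, HeightOneSpectrum.intValuation_le_pow_iff_mem, hpow,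
          ← HeightOneSpectrum.intValuation_le_pow_iff_mem, hm]
      · rw [hn, HeightOneSpectrum.intValuation_le_pow_iff_mem, ← hpow,
          ← HeightOneSpectrum.intValuation_le_pow_iff_mem, hn]
  obtain ⟨a, b, hb, rfl⟩ := p6a_div x
  rw [map_div₀, map_div₀, map_div₀, sF_coe, sF_coe, HeightOneSpectrum.valuation_of_algebraMap,
    HeightOneSpectrum.valuation_of_algebraMap, HeightOneSpectrum.valuation_of_algebraMap,
    HeightOneSpectrum.valuation_of_algebraMap, hint, hint]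

end

end TH
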