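import Pool.Agent.MP_9ab903_nt.TH.P7a

set_option autoImplicit false

open NumberField IsDedekindDomain
open CM27 CMT NAB CF TWR
open scoped Classical

namespace TH

/-! ## [TH-P7] the cubic symbol in a cyclic cubic extension, local part (file TH/P7.lean)

`eu e = io ∘ e : ℤ[ω] → 𝓞 F`. Compare `NAB/QR9`, `TWR/PF6`.
Degree one (`nv w = nv (und k w)`), `x ∈ k`: `v ∤ 3`: `x u³ = a`, the same `a`; `v ∣ 3`: the same `τ, t` (`tv` is the same sum; in the case `3 ∣ v` the
valuation `w(τ - t) < 1` iff `v(τ - t) < 1`). For `Cd` at `w` and ramified `w` (then `v ∤ 3` if `F / k` is unramified above `3`) use `hx : Cd` at `v`.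
Inert, `y ∈ F` with `Cd` at `w`: `sg` acts on the residue field as `x ↦ x ^ (q ^ i)`, `q = nv v`, `i = 1` or `2` (as `NAB.frob`: the automorphism induced by `sg` is
nontrivial of order `3` on the residue field, because `w` is inert), so `N(a) ≡ a ^ (1 + q + q²)`, `(q³ - 1)/3 = (1 + q + q²) (q - 1)/3`; above `3`:
`N(1 - λ³ τ) ≡ 1 - λ³ Tr τ mod λ⁴` and `∑_{i<3f} t^(3^i) = ∑_{i<f} (t + t^q + t^(q²))^(3^i)` modulo `w`. `Cd` of the norm: the valuation of the norm at `v` is
`w(y)³`, the norm of `1 - λ³ τ`. Ramified, `w² ∤ ..`: `σ y / y ≡ ζ` with `ζ` a cube root of unity (`σ` acts trivially on the residue field, `y = ϖ^n y₀`, `σ ϖ / ϖ` is a unit,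
its class `ζ` satisfies `ζ · σζ · σ²ζ = 1`, i.e. `ζ³ = 1`), so `N y ≡ y³` (`w(N y - y³) < w(y³)`) -- `T_ram` below. -/

/-- an automorphism of order three of a cubic extension of finite fields -/
theorem p7_res {A K : Type*} [Field A] [Field K] [Finite A] [Finite K] (r : A →+* K)
    (hc : Nat.card K = Nat.card A ^ 3) (s : K →+* K) (hs : ∀ x, s (s (s x)) = x)
    (h1 : ∀ x, x + s x + s (s x) ∈ Set.range r)
    (h2 : ∀ x, x * s x + x * s (s x) + s x * s (s x) ∈ Set.range r)
    (h3 : ∀ x, x * s x * s (s x) ∈ Set.range r) :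
    (∀ x, s x = x ^ Nat.card A ∧ s (s x) = x ^ Nat.card A ^ 2) ∨
      (∀ x, s x = x ^ Nat.card A ^ 2 ∧ s (s x) = x ^ Nat.card A) := by
  set q := Nat.card A with hq
  have hq1 : 1 < q := Finite.one_lt_card
  have hfix : ∀ y ∈ Set.range r, y ^ q = y := by
    rintro _ ⟨y, rfl⟩
    have := Fintype.ofFinite A
    rw [← map_pow, hq, Nat.card_eq_fintype_card, FiniteField.pow_card]
  have hcube : ∀ x : K, x ^ q ^ 3 = x := by
    intro x
    have := Fintype.ofFinite K
    rw [← hc, Nat.card_eq_fintype_card, FiniteField.pow_card]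
  obtain ⟨p, hp⟩ := CharP.exists A
  have hpprime : p.Prime := (CharP.char_is_prime A p)
  have : Fact p.Prime := ⟨hpprime⟩
  have : CharP K p := (RingHom.charP_iff _ r.injective p).1 hp
  obtain ⟨m, hm⟩ : ∃ m : ℕ, q = p ^ m := by
    have := Fintype.ofFinite A
    obtain ⟨m, -, hm⟩ := FiniteField.card A p
    exact ⟨m, by rw [hq, Nat.card_eq_fintype_card, hm]⟩
  have hadd : ∀ a b : K, (a + b) ^ q = a ^ q + b ^ q := by
    intro a b
    rw [hm]
    exact add_pow_char_pow a b p m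
  have hq0 : q ≠ 0 := by omega
  have hneg : ∀ a : K, (-a) ^ q = -a ^ q := by
    intro a
    have h1 := hadd a (-a)
    rw [add_neg_cancel, zero_pow hq0] at h1
    linear_combination -h1
  obtain ⟨g, hg⟩ := IsCyclic.exists_monoid_generator (α := Kˣ)
  have hgo : orderOf g = q ^ 3 - 1 := by
    rw [orderOf_eq_card_of_forall_mem_powers hg, Nat.card_units, hc]
  have hgq : (g : K) ^ q ≠ g := by
    intro h
    have h4 : g ^ (q - 1) = 1 := by
      have h5 : g ^ q = g := Units.ext (by rw [Units.val_pow_eq_pow_val]; exact h)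
      have h6 : g ^ (q - 1) * g = g := by
        rw [← pow_succ, Nat.sub_add_cancel (by omega), h5]
      exact mul_eq_right.1 h6
    have h5 := orderOf_dvd_of_pow_eq_one h4
    rw [hgo] at h5
    have h6 := Nat.le_of_dvd (by omega) h5
    have h7 : q < q ^ 3 := by
      calc q = q ^ 1 := (pow_one q).symm
        _ < q ^ 3 := Nat.pow_lt_pow_right hq1 (by norm_num)
    omega
  have hpoly : ((g : K) ^ q - g) * ((g : K) ^ q - s g) * ((g : K) ^ q - s (s g)) = 0 := by
    have e0 : (g : K) ^ 3 + -(((g : K) + s g + s (s g)) * (g : K) ^ 2) +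
        ((g : K) * s g + (g : K) * s (s g) + s g * s (s g)) * g + -((g : K) * s g * s (s g)) = 0 := by
      ring
    have e1 := congrArg (fun z => z ^ q) e0
    simp only [zero_pow hq0] at e1
    rw [hadd, hadd, hadd, hneg, hneg, mul_pow, mul_pow, hfix _ (h1 _), hfix _ (h2 _), hfix _ (h3 _),
      pow_right_comm (g : K) 3 q, pow_right_comm (g : K) 2 q] at e1
    linear_combination e1
  have hgen : ∀ x : K, x ≠ 0 → ∃ n : ℕ, x = (g : K) ^ n := by
    intro x hx
    obtain ⟨n, hn⟩ := hg (Units.mk0 x hx)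
    refine ⟨n, ?_⟩
    have := congrArg (fun u : Kˣ => (u : K)) hn
    simpa using this.symm
  rcases mul_eq_zero.1 hpoly with h4 | h4
  · rcases mul_eq_zero.1 h4 with h5 | h5
    · exact absurd (sub_eq_zero.1 h5) hgq
    · left
      have h6 : ∀ x, s x = x ^ q := by
        intro x
        by_cases hx : x = 0
        · rw [hx, map_zero, zero_pow hq0]
        · obtain ⟨n, rfl⟩ := hgen x hx
          rw [map_pow, ← sub_eq_zero.1 h5, pow_right_comm]
      intro x
      refine ⟨h6 x, ?_⟩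
      rw [h6, h6, ← pow_mul, pow_two]
  · right
    have h6 : ∀ x, s (s x) = x ^ q := by
      intro x
      by_cases hx : x = 0
      · rw [hx, map_zero, map_zero, zero_pow hq0]
      · obtain ⟨n, rfl⟩ := hgen x hx
        rw [map_pow, map_pow, ← sub_eq_zero.1 h4, pow_right_comm]
    intro x
    refine ⟨?_, h6 x⟩
    have h7 : s x = s (s (s (s x))) := (hs (s x)).symm
    rw [h7, h6, h6, ← pow_mul, pow_two]

section
variable {k F : Type} [Field k] [NumberField k] [Field F] [NumberField F] [Algebra k F]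


variable (S : Cyc k F) (e : Eis →+* 𝓞 k) (w : HeightOneSpectrum (𝓞 F))

theorem p7_mem_sg (hsw : S.sw w = w) {β : 𝓞 F} : S.sg β ∈ w.asIdeal ↔ β ∈ w.asIdeal := by
  rw [← S.mem_sw, hsw]

theorem p7_frob_pair (hsw : S.sw w = w) (hc : nv w = nv (und k w) ^ 3) :
    (∀ β : 𝓞 F, S.sg β - β ^ nv (und k w) ∈ w.asIdeal ∧
      S.sg (S.sg β) - β ^ nv (und k w) ^ 2 ∈ w.asIdeal) ∨
    (∀ β : 𝓞 F, S.sg β - β ^ nv (und k w) ^ 2 ∈ w.asIdeal ∧
      S.sg (S.sg β) - β ^ nv (und k w) ∈ w.asIdeal) := by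
  have := finite_quot w
  have := finite_quot (und k w)
  have := w.isMaximal
  have := (und k w).isMaximal
  letI : Field (𝓞 F ⧸ w.asIdeal) := Ideal.Quotient.field w.asIdeal
  letI : Field (𝓞 k ⧸ (und k w).asIdeal) := Ideal.Quotient.field (und k w).asIdeal
  have hle : w.asIdeal ≤ Ideal.comap (S.sg : 𝓞 F →+* 𝓞 F) w.asIdeal := by
    intro β hβ
    exact (p7_mem_sg S w hsw).2 hβ
  let s : 𝓞 F ⧸ w.asIdeal →+* 𝓞 F ⧸ w.asIdeal :=
    Ideal.quotientMap w.asIdeal (S.sg : 𝓞 F →+* 𝓞 F) hle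
  have hsmk : ∀ β : 𝓞 F, s (Ideal.Quotient.mk w.asIdeal β) = Ideal.Quotient.mk w.asIdeal (S.sg β) :=
    fun β => Ideal.quotientMap_mk
  have h := p7_res (rmap k w) hc s
    (by
      intro x
      obtain ⟨β, rfl⟩ := Ideal.Quotient.mk_surjective x
      rw [hsmk, hsmk, hsmk, S.cub])
    (by
      intro x
      obtain ⟨β, rfl⟩ := Ideal.Quotient.mk_surjective x
      obtain ⟨t, ht⟩ := S.tr β
      refine ⟨Ideal.Quotient.mk _ t, ?_⟩
      rw [rmap_mk, ht, hsmk, hsmk, map_add, map_add])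
    (by
      intro x
      obtain ⟨β, rfl⟩ := Ideal.Quotient.mk_surjective x
      obtain ⟨t, ht⟩ := S.inv (β * S.sg β + β * S.sg (S.sg β) + S.sg β * S.sg (S.sg β)) (by
        rw [map_add, map_add, map_mul, map_mul, map_mul, S.cub]
        ring)
      refine ⟨Ideal.Quotient.mk _ t, ?_⟩
      rw [rmap_mk, ht, hsmk, hsmk, map_add, map_add, map_mul, map_mul, map_mul])
    (by
      intro x
      obtain ⟨β, rfl⟩ := Ideal.Quotient.mk_surjective x
      refine ⟨Ideal.Quotient.mk _ (Nm k F β), ?_⟩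
      rw [rmap_mk, S.norm, hsmk, hsmk, map_mul, map_mul])
  rcases h with h | h
  · left
    intro β
    obtain ⟨h1, h2⟩ := h (Ideal.Quotient.mk _ β)
    rw [hsmk, ← map_pow, Ideal.Quotient.eq] at h1
    rw [hsmk, hsmk, ← map_pow, Ideal.Quotient.eq] at h2
    exact ⟨h1, h2⟩
  · right
    intro β
    obtain ⟨h1, h2⟩ := h (Ideal.Quotient.mk _ β)
    rw [hsmk, ← map_pow, Ideal.Quotient.eq] at h1
    rw [hsmk, hsmk, ← map_pow, Ideal.Quotient.eq] at h2
    exact ⟨h1, h2⟩

/-- inert places: Frobenius -/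
theorem frob3 (hsw : S.sw w = w) (hc : nv w = nv (und k w) ^ 3) : ∃ i : ℕ, (i = 1 ∨ i = 2) ∧
    ∀ β : 𝓞 F, S.sg β - β ^ nv (und k w) ^ i ∈ w.asIdeal := by
  rcases p7_frob_pair S w hsw hc with h | h
  · refine ⟨1, Or.inl rfl, fun β => ?_⟩
    rw [pow_one]
    exact (h β).1
  · exact ⟨2, Or.inr rfl, fun β => (h β).1⟩

/-- the symmetric functions of the conjugates at an inert place -/
theorem p7_sum (hsw : S.sw w = w) (hc : nv w = nv (und k w) ^ 3) (β : 𝓞 F) :
    (β + S.sg β + S.sg (S.sg β)) - (β + β ^ nv (und k w) + β ^ nv (und k w) ^ 2) ∈ w.asIdeal := by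
  rcases p7_frob_pair S w hsw hc with h | h
  · obtain ⟨h1, h2⟩ := h β
    have e : (β + S.sg β + S.sg (S.sg β)) - (β + β ^ nv (und k w) + β ^ nv (und k w) ^ 2)
      = (S.sg β - β ^ nv (und k w)) + (S.sg (S.sg β) - β ^ nv (und k w) ^ 2) := by ring
    rw [e]
    exact Ideal.add_mem _ h1 h2
  · obtain ⟨h1, h2⟩ := h β
    have e : (β + S.sg β + S.sg (S.sg β)) - (β + β ^ nv (und k w) + β ^ nv (und k w) ^ 2)
      = (S.sg β - β ^ nv (und k w) ^ 2) + (S.sg (S.sg β) - β ^ nv (und k w)) := by ring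
    rw [e]
    exact Ideal.add_mem _ h1 h2

theorem p7_prod (hsw : S.sw w = w) (hc : nv w = nv (und k w) ^ 3) (β : 𝓞 F) :
    (β * S.sg β * S.sg (S.sg β)) - (β * β ^ nv (und k w) * β ^ nv (und k w) ^ 2) ∈ w.asIdeal := by
  rcases p7_frob_pair S w hsw hc with h | h
  · obtain ⟨h1, h2⟩ := h β
    have e : (β * S.sg β * S.sg (S.sg β)) - (β * β ^ nv (und k w) * β ^ nv (und k w) ^ 2)
      = β * S.sg (S.sg β) * (S.sg β - β ^ nv (und k w)) +
        β * β ^ nv (und k w) * (S.sg (S.sg β) - β ^ nv (und k w) ^ 2) := by ring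
    rw [e]
    exact Ideal.add_mem _ (Ideal.mul_mem_left _ _ h1) (Ideal.mul_mem_left _ _ h2)
  · obtain ⟨h1, h2⟩ := h β
    have e : (β * S.sg β * S.sg (S.sg β)) - (β * β ^ nv (und k w) * β ^ nv (und k w) ^ 2)
      = β * S.sg (S.sg β) * (S.sg β - β ^ nv (und k w) ^ 2) +
        β * β ^ nv (und k w) ^ 2 * (S.sg (S.sg β) - β ^ nv (und k w)) := by ring
    rw [e]
    exact Ideal.add_mem _ (Ideal.mul_mem_left _ _ h1) (Ideal.mul_mem_left _ _ h2)

/-- congruences are preserved by powers -/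
theorem p7_pow_congr {a b : 𝓞 F} (h : a - b ∈ w.asIdeal) (n : ℕ) : a ^ n - b ^ n ∈ w.asIdeal := by
  rw [← Ideal.Quotient.eq] at h ⊢
  rw [map_pow, map_pow, h]

/-- the trace of the residue fields -/
theorem p7_tv (hsw : S.sw w = w) (hc : nv w = nv (und k w) ^ 3) (h3 : (3 : 𝓞 F) ∈ w.asIdeal)
    (t : 𝓞 F) (t' : 𝓞 k) (ht : algebraMap (𝓞 k) (𝓞 F) t' = t + S.sg t + S.sg (S.sg t)) :
    algebraMap (𝓞 k) (𝓞 F) (tv (und k w) t') - tv w t ∈ w.asIdeal := by
  have h3k : (3 : 𝓞 k) ∈ (und k w).asIdeal := (three_und w).2 h3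
  obtain ⟨hq, hf⟩ := nv_three (und k w) h3k
  set f := Nat.log 3 (nv (und k w)) with hfdef
  have hlog : Nat.log 3 (nv w) = f + f + f := by
    rw [hc, hq, ← pow_mul, Nat.log_pow (by norm_num)]
    ring
  have := w.isMaximal
  letI : Field (𝓞 F ⧸ w.asIdeal) := Ideal.Quotient.field w.asIdeal
  have : Fact (Nat.Prime 3) := ⟨Nat.prime_three⟩
  have h3z : ((3 : ℕ) : 𝓞 F ⧸ w.asIdeal) = 0 := by
    have h4 : Ideal.Quotient.mk w.asIdeal (3 : 𝓞 F) = 0 := Ideal.Quotient.eq_zero_iff_mem.2 h3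
    rw [map_ofNat] at h4
    exact_mod_cast h4
  have : CharP (𝓞 F ⧸ w.asIdeal) 3 := by
    refine (CharP.charP_iff_prime_eq_zero Nat.prime_three).2 h3z
  rw [← Ideal.Quotient.eq]
  unfold tv
  rw [hlog, map_sum, map_sum, map_sum, Finset.sum_range_add, Finset.sum_range_add,
    ← Finset.sum_add_distrib, ← Finset.sum_add_distrib]
  apply Finset.sum_congr rfl
  intro i _
  have h5 : Ideal.Quotient.mk w.asIdeal (algebraMap (𝓞 k) (𝓞 F) t') =
      Ideal.Quotient.mk w.asIdeal t + Ideal.Quotient.mk w.asIdeal t ^ 3 ^ f +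
        Ideal.Quotient.mk w.asIdeal t ^ 3 ^ (f + f) := by
    have h6 := p7_sum S w hsw hc t
    rw [← Ideal.Quotient.eq, ← ht, map_add, map_add, map_pow, map_pow, hq, ← pow_mul, mul_two] at h6
    exact h6
  rw [map_pow, map_pow, h5, add_pow_char_pow, add_pow_char_pow, ← pow_mul, ← pow_mul, ← pow_add,
    ← pow_add, map_pow, map_pow, map_pow]

theorem p7_IsCs_inert (hsw : S.sw w = w) (hc : nv w = nv (und k w) ^ 3)
    {y : F} {ζ : Eis} (h : IsCs (eu k F e) w y ζ) : IsCs e (und k w) (Algebra.norm k y) ζ := by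
  obtain ⟨hζ, u, hu, h1⟩ := h
  refine ⟨hζ, Algebra.norm k u, p7a_norm_ne hu, ?_⟩
  rcases h1 with ⟨h3, a, ha, hya, hmem⟩ | ⟨h3, τ, t, j, hyτ, hτt, htj, hj⟩
  · left
    have h3k : (3 : 𝓞 k) ∉ (und k w).asIdeal := fun h => h3 ((three_und w).1 h)
    have ha1 : S.sg a ∉ w.asIdeal := fun h => ha ((p7_mem_sg S w hsw).1 h)
    have ha2 : S.sg (S.sg a) ∉ w.asIdeal := fun h => ha1 ((p7_mem_sg S w hsw).1 h)
    refine ⟨h3k, Nm k F a, ?_, ?_, ?_⟩
    · intro h4
      rw [mem_und, S.norm] at h4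
      rcases w.isPrime.mem_or_mem h4 with h5 | h5
      · rcases w.isPrime.mem_or_mem h5 with h6 | h6
        · exact ha h6
        · exact ha1 h6
      · exact ha2 h5
    · rw [← map_pow, ← map_mul, hya, coe_Nm]
    · rw [mem_und, map_sub, map_pow, S.norm]
      have h5 := p7_pow_congr w (p7_prod S w hsw hc a) ((nv (und k w) - 1) / 3)
      have h6 : (a * a ^ nv (und k w) * a ^ nv (und k w) ^ 2) ^ ((nv (und k w) - 1) / 3)
          = a ^ ((nv w - 1) / 3) := by
        have hmod := nv_mod e (und k w) h3k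
        obtain ⟨m, hm⟩ : ∃ m, nv (und k w) = 3 * m + 1 := ⟨nv (und k w) / 3, by omega⟩
        have e1 : (nv (und k w) - 1) / 3 = m := by omega
        have e2 : (nv w - 1) / 3 = (1 + nv (und k w) + nv (und k w) ^ 2) * m := by
          rw [hc]
          have e3 : nv (und k w) ^ 3 - 1 = 3 * ((1 + nv (und k w) + nv (und k w) ^ 2) * m) := by
            rw [hm]
            apply Nat.sub_eq_of_eq_add
            ring
          rw [e3, Nat.mul_div_cancel_left _ (by norm_num)]
        rw [e1, e2, pow_mul]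
        congr 1
        rw [pow_add, pow_add, pow_one]
      rw [h6] at h5
      have h7 := Ideal.add_mem _ h5 hmem
      have e4 : (a * S.sg a * S.sg (S.sg a)) ^ ((nv (und k w) - 1) / 3) - a ^ ((nv w - 1) / 3) +
          (a ^ ((nv w - 1) / 3) - eu k F e ζ) =
          (a * S.sg a * S.sg (S.sg a)) ^ ((nv (und k w) - 1) / 3) -
            algebraMap (𝓞 k) (𝓞 F) (e ζ) := by
        rw [sub_add_sub_cancel]
        rfl
      rw [e4] at h7
      exact h7
  · right
    have h3k : (3 : 𝓞 k) ∈ (und k w).asIdeal := (three_und w).2 h3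
    obtain ⟨t', ht'⟩ := S.tr t
    obtain ⟨r, hr⟩ : ∃ r : k, algebraMap k F r =
        τ * sF S τ + τ * sF S (sF S τ) + sF S τ * sF S (sF S τ) := by
      apply fixed_sF S
      rw [map_add, map_add, map_mul, map_mul, map_mul, sF_cub]
      ring
    have htr := tr_sF S τ
    have h4 : ((eu k F e la : 𝓞 F) : F) = algebraMap k F ((e la : 𝓞 k) : k) := rfl
    refine ⟨h3k, Algebra.trace k F τ - ((e la : 𝓞 k) : k) ^ 3 * r
      + ((e la : 𝓞 k) : k) ^ 6 * Algebra.norm k τ, t', j, ?_, ?_, ?_, hj⟩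
    · apply (algebraMap k F).injective
      rw [← map_pow (Algebra.norm k), ← map_mul (Algebra.norm k), hyτ, norm_sF S, h4]
      rw [map_sub (sF S), map_one (sF S), map_mul (sF S), map_pow (sF S), sF_map, map_sub (sF S),
        map_one (sF S), map_mul (sF S), map_pow (sF S), sF_map]
      rw [map_sub, map_mul, map_add, map_sub, map_mul, map_mul, map_one, map_pow, map_pow, htr, hr,
        norm_sF S]
      ring
    · rw [← p7a_val_alg_lt (F := F) w]
      have hval : ∀ z : F, w.valuation F (sF S z) = w.valuation F z := by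
        intro z
        rw [val_sF, hsw]
      have hτ1 : w.valuation F τ ≤ 1 := by
        have h5 : τ = (τ - t) + (t : F) := by ring
        rw [h5]
        exact (Valuation.map_add _ _ _).trans (max_le hτt.le (w.valuation_le_one t))
      have hla : w.valuation F (algebraMap k F ((e la : 𝓞 k) : k)) < 1 := by
        rw [← h4]
        exact (val_lt_iff _ w).2 ((three_mem_iff (eu k F e) w).1 h3)
      have e1 : algebraMap k F (Algebra.trace k F τ - ((e la : 𝓞 k) : k) ^ 3 * r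
          + ((e la : 𝓞 k) : k) ^ 6 * Algebra.norm k τ - (t' : k)) =
          ((τ - t) + sF S (τ - t) + sF S (sF S (τ - t))) -
          algebraMap k F ((e la : 𝓞 k) : k) * (algebraMap k F ((e la : 𝓞 k) : k) ^ 2 *
            (τ * sF S τ + τ * sF S (sF S τ) + sF S τ * sF S (sF S τ)) -
            algebraMap k F ((e la : 𝓞 k) : k) ^ 5 * (τ * sF S τ * sF S (sF S τ))) := by
        have e2 : algebraMap k F (t' : k) = (t : F) + sF S (t : F) + sF S (sF S (t : F)) := by
          rw [sF_coe, sF_coe]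
          have := congrArg (fun z : 𝓞 F => (z : F)) ht'
          exact this
        rw [map_sub, map_add, map_sub, map_mul, map_mul, map_pow, map_pow, htr, hr, norm_sF S, e2]
        simp only [map_sub]
        ring
      rw [e1]
      have hs1 : w.valuation F (sF S τ) ≤ 1 := by rw [hval]; exact hτ1
      have hs2 : w.valuation F (sF S (sF S τ)) ≤ 1 := by rw [hval]; exact hs1
      have hA : w.valuation F ((τ - t) + sF S (τ - t) + sF S (sF S (τ - t))) < 1 := by
        refine (Valuation.map_add _ _ _).trans_lt (max_lt ((Valuation.map_add _ _ _).trans_lt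
          (max_lt hτt ?_)) ?_)
        · rw [hval]; exact hτt
        · rw [hval, hval]; exact hτt
      have hB : w.valuation F (algebraMap k F ((e la : 𝓞 k) : k) ^ 2 *
            (τ * sF S τ + τ * sF S (sF S τ) + sF S τ * sF S (sF S τ)) -
            algebraMap k F ((e la : 𝓞 k) : k) ^ 5 * (τ * sF S τ * sF S (sF S τ))) ≤ 1 := by
        refine (Valuation.map_sub _ _ _).trans (max_le ?_ ?_)
        · rw [map_mul, map_pow]
          refine mul_le_one' (pow_le_one' hla.le 2) ?_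
          refine (Valuation.map_add _ _ _).trans (max_le ((Valuation.map_add _ _ _).trans
            (max_le ?_ ?_)) ?_)
          · rw [map_mul]; exact mul_le_one' hτ1 hs1
          · rw [map_mul]; exact mul_le_one' hτ1 hs2
          · rw [map_mul]; exact mul_le_one' hs1 hs2
        · rw [map_mul, map_pow, map_mul, map_mul]
          exact mul_le_one' (pow_le_one' hla.le 5) (mul_le_one' (mul_le_one' hτ1 hs1) hs2)
      refine (Valuation.map_sub _ _ _).trans_lt (max_lt hA ?_)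
      rw [map_mul]
      exact mul_lt_one_of_lt_of_le hla hB
    · have h5 := p7_tv S w hsw hc h3 t t' ht'
      rw [mem_und, map_sub, map_natCast]
      have h6 := Ideal.add_mem _ h5 htj
      rwa [sub_add_sub_cancel] at h6

/-- inert places, elements of `F` -/
theorem cs_inert (hsw : S.sw w = w) (hc : nv w = nv (und k w) ^ 3)
    (hv : ∀ x : k, w.valuation F (algebraMap k F x) = (und k w).valuation k x) {y : F}
    (hy : Cd (eu k F e) w y) (ha : (3 : 𝓞 F) ∉ w.asIdeal ∨ AdG (eu k F e) y) :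
    Cd e (und k w) (Algebra.norm k y) ∧
      cs (eu k F e) w y = cs e (und k w) (Algebra.norm k y) := by
  have hI := p7_IsCs_inert S e w hsw hc (cs_spec (eu k F e) w hy)
  refine ⟨?_, (cs_of _ _ hI).symm⟩
  by_cases h3 : (3 : 𝓞 k) ∈ (und k w).asIdeal
  · have h4 := La_of_IsCs e (und k w) h3 hI
    exact ⟨h4.1, Or.inr ⟨h3, h4.2⟩⟩
  · have h4 := t3_of_IsCs e (und k w) h3 hI
    exact ⟨h4.1, Or.inl ⟨h3, h4.2⟩⟩

theorem p7_od_sF (hsw : S.sw w = w) (z : F) : od w (sF S z) = od w z := by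
  rw [od, od, val_sF, hsw]

theorem p7_od_norm (hsw : S.sw w = w) {y : F} (hy : y ≠ 0) :
    od w (algebraMap k F (Algebra.norm k y)) = 3 * od w y := by
  have hy1 := p7a_sF_ne S hy
  have hy2 := p7a_sF_ne S hy1
  rw [norm_sF S, od_mul w (mul_ne_zero hy hy1) hy2, od_mul w hy hy1, p7_od_sF S w hsw,
    p7_od_sF S w hsw, p7_od_sF S w hsw]
  ring

theorem od_norm_inert (hsw : S.sw w = w)
    (hv : ∀ x : k, w.valuation F (algebraMap k F x) = (und k w).valuation k x) {y : F}
    (hy : y ≠ 0) : od (und k w) (Algebra.norm k y) = 3 * od w y := by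
  rw [← p7_od_norm S w hsw hy, od, od, hv]

/-- the automorphism is trivial modulo `w` if the residue fields are equal -/
theorem p7_sF_congr (hsw : S.sw w = w) (hc : nv w = nv (und k w)) {z : F}
    (hz : w.valuation F z ≤ 1) : w.valuation F (sF S z - z) < 1 := by
  obtain ⟨b, hb⟩ := approx_int z w hz
  obtain ⟨r, hr⟩ := rmap_surjective (k := k) w hc (Ideal.Quotient.mk _ b)
  obtain ⟨r, rfl⟩ := Ideal.Quotient.mk_surjective r
  rw [rmap_mk, Ideal.Quotient.eq] at hr
  have hr2 : algebraMap (𝓞 k) (𝓞 F) r - S.sg b ∈ w.asIdeal := by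
    rw [← S.fix r, ← map_sub]
    exact (p7_mem_sg S w hsw).2 hr
  have h1 : S.sg b - b ∈ w.asIdeal := by
    have e1 : S.sg b - b = (algebraMap (𝓞 k) (𝓞 F) r - b) - (algebraMap (𝓞 k) (𝓞 F) r - S.sg b) := by
      ring
    rw [e1]
    exact Ideal.sub_mem _ hr hr2
  have h2 : w.valuation F (((S.sg b - b : 𝓞 F)) : F) < 1 := (val_lt_iff _ w).2 h1
  have h3 : w.valuation F (sF S (z - b)) < 1 := by
    rw [val_sF, hsw]
    exact hb
  have e2 : sF S z - z = (sF S (z - b) - (z - b)) + ((S.sg b - b : 𝓞 F) : F) := by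
    have e3 : ((S.sg b - b : 𝓞 F) : F) = sF S (b : F) - (b : F) := by
      rw [sF_coe]
      exact map_sub (algebraMap (𝓞 F) F) _ _
    rw [e3, map_sub]
    ring
  rw [e2]
  exact (Valuation.map_add _ _ _).trans_lt (max_lt ((Valuation.map_sub _ _ _).trans_lt
    (max_lt h3 hb)) h2)

/-- ramified places: `N y / y³ ≡ 1` -/
theorem p7_norm_ratio (hsw : S.sw w = w) (hc : nv w = nv (und k w)) {y : F} (hy : y ≠ 0) :
    w.valuation F (algebraMap k F (Algebra.norm k y) / y ^ 3 - 1) < 1 := by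
  set ρ : F := sF S y / y with hρ
  have hval : ∀ z : F, w.valuation F (sF S z) = w.valuation F z := by
    intro z
    rw [val_sF, hsw]
  have hy1 := p7a_sF_ne S hy
  have hy2 := p7a_sF_ne S hy1
  have hρv : w.valuation F ρ = 1 := by
    rw [hρ, map_div₀, hval]
    exact div_self (val_ne w hy)
  have hρ1 : w.valuation F (sF S ρ) = 1 := by rw [hval, hρv]
  have h1 := p7_sF_congr S w hsw hc hρv.le
  have h2 := p7_sF_congr S w hsw hc hρ1.le
  have hN : ρ * sF S ρ * sF S (sF S ρ) = 1 := by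
    rw [hρ, map_div₀, map_div₀, sF_cub]
    field_simp
  have e1 : algebraMap k F (Algebra.norm k y) / y ^ 3 = ρ ^ 2 * sF S ρ := by
    rw [norm_sF S, hρ, map_div₀]
    field_simp
  have e2 : algebraMap k F (Algebra.norm k y) / y ^ 3 - 1 =
      -(ρ * sF S ρ * ((sF S (sF S ρ) - sF S ρ) + (sF S ρ - ρ))) := by
    rw [e1]
    linear_combination hN
  rw [e2, Valuation.map_neg, map_mul, map_mul, hρv, hρ1, one_mul, one_mul]
  exact (Valuation.map_add _ _ _).trans_lt (max_lt h2 h1)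

/-- ramified places: `N y ≡ y³` -/
theorem norm_ram (hsw : S.sw w = w) (hc : nv w = nv (und k w))
    (hv : ∀ x : k, w.valuation F (algebraMap k F x) = (und k w).valuation k x ^ 3) {y : F}
    (hy : y ≠ 0) :
    w.valuation F (algebraMap k F (Algebra.norm k y) - y ^ 3) < w.valuation F (y ^ 3) := by
  have h1 := p7_norm_ratio S w hsw hc hy
  have hy3 : y ^ 3 ≠ 0 := pow_ne_zero 3 hy
  have e1 : algebraMap k F (Algebra.norm k y) - y ^ 3 =
      (algebraMap k F (Algebra.norm k y) / y ^ 3 - 1) * y ^ 3 := by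
    field_simp
  rw [e1, map_mul]
  calc w.valuation F (algebraMap k F (Algebra.norm k y) / y ^ 3 - 1) * w.valuation F (y ^ 3)
      < 1 * w.valuation F (y ^ 3) :=
        mul_lt_mul_of_pos_right h1 (zero_lt_iff.2 (val_ne w hy3))
    _ = w.valuation F (y ^ 3) := one_mul _

theorem od_norm_ram (hsw : S.sw w = w)
    (hv : ∀ x : k, w.valuation F (algebraMap k F x) = (und k w).valuation k x ^ 3) {y : F}
    (hy : y ≠ 0) : od (und k w) (Algebra.norm k y) = od w y := by
  have h1 := p7_od_norm S w hsw hy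
  have h2 : od w (algebraMap k F (Algebra.norm k y)) = 3 * od (und k w) (Algebra.norm k y) := by
    rw [od, od, hv, WithZero.log_pow, nsmul_eq_mul]
    rfl
  omega

/-- ramified places -/
theorem T_ram (hsw : S.sw w = w) (hc : nv w = nv (und k w))
    (hv : ∀ x : k, w.valuation F (algebraMap k F x) = (und k w).valuation k x ^ 3)
    (h3 : (3 : 𝓞 F) ∉ w.asIdeal) {x : k} {y : F} (hx : x ≠ 0) (hy : y ≠ 0) :
    T (eu k F e) w (algebraMap k F x) y = T e (und k w) x (Algebra.norm k y) := by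
  have hNy := p7a_norm_ne (k := k) hy
  have hAx := p7a_alg_ne (F := F) hx
  have hAN := p7a_alg_ne (F := F) hNy
  have h3k : (3 : 𝓞 k) ∉ (und k w).asIdeal := fun h => h3 ((three_und w).1 h)
  have hodx : od w (algebraMap k F x) = 3 * od (und k w) x := by
    rw [od, od, hv, WithZero.log_pow, nsmul_eq_mul]
    rfl
  have hodN := od_norm_ram S w hsw hv hy
  set n : ℤ := od (und k w) x with hn
  set m : ℤ := od w y with hm
  set ρ : F := algebraMap k F (Algebra.norm k y) / y ^ 3 with hρ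
  have hy3 : y ^ 3 ≠ 0 := pow_ne_zero 3 hy
  have hρ0 : ρ ≠ 0 := div_ne_zero hAN hy3
  have hρ1 := p7_norm_ratio S w hsw hc hy
  have hρval : w.valuation F ρ = 1 := by
    have h4 : ρ = 1 + (ρ - 1) := by ring
    rw [h4, Valuation.map_add_eq_of_lt_left, map_one]
    rw [map_one]
    exact hρ1
  have hρcd : Cd (eu k F e) w ρ := by
    refine ⟨hρ0, Or.inl ⟨h3, ?_⟩⟩
    unfold t3
    rw [od, hρval]
    exact ⟨0, rfl⟩
  have hρcs : cs (eu k F e) w ρ = 1 := cs_of_lt (eu k F e) w h3 hρ1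
  have hρn : Cd (eu k F e) w (ρ ^ n) ∧ cs (eu k F e) w (ρ ^ n) = 1 := by
    refine ⟨hρcd.zpow (eu k F e) w n, ?_⟩
    obtain ⟨j, hj | hj⟩ := Int.eq_nat_or_neg n
    · rw [hj, zpow_natCast, cs_pow _ _ hρcd, hρcs, one_pow]
    · rw [hj, zpow_neg, zpow_natCast]
      have h5 := cs_inv (eu k F e) w (hρcd.pow (eu k F e) w j)
      rw [cs_pow _ _ hρcd, hρcs, one_pow, mul_one] at h5
      exact h5
  -- the argument above
  have hz : Cd (eu k F e) w ((algebraMap k F x) ^ (-m) * y ^ (3 * n)) := by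
    have h4 := T_cd (eu k F e) w hAx hy (Or.inl h3)
    rw [hodx] at h4
    exact h4
  -- the argument below
  have hzk : Cd e (und k w) (x ^ (-m) * (Algebra.norm k y) ^ n) := by
    have h4 := T_cd e (und k w) hx hNy (Or.inl h3k)
    rw [hodN] at h4
    exact h4
  have h5 := (cs_deg1 e w hc hzk).2
  have e1 : algebraMap k F (x ^ (-m) * (Algebra.norm k y) ^ n) =
      ((algebraMap k F x) ^ (-m) * y ^ (3 * n)) * ρ ^ n := by
    rw [map_mul, map_zpow₀, map_zpow₀, hρ, div_zpow, zpow_mul, mul_assoc]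
    congr 1
    have h7 : y ^ (3 : ℤ) = y ^ 3 := zpow_ofNat y 3
    have h6 : (y ^ (3 : ℤ)) ^ n = (y ^ 3) ^ n := by rw [h7]
    rw [h6, mul_div_cancel₀ _ (zpow_ne_zero n hy3)]
  rw [e1, cs_mul _ _ hz hρn.1, hρn.2, mul_one] at h5
  unfold T
  rw [hodx, hodN]
  exact h5

end

end TH
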