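import Pool.Agent.MP_9ab903_nt.TH.P8a

set_option autoImplicit false

open NumberField IsDedekindDomain
open CM27 CMT NAB CF TWR
open scoped Classical

namespace TH

/-! ## [TH-P8] the product of the symbols and the norm (file TH/P8.lean)

As `TWR/PF7.lean`. (N1) local identity for `x ∈ k`, `y ∈ F`: split: `y ↦ ` each of the three factors `T_{σ^i w}(x, y) = T_w(x, σ^i y)`, the product is
`T_w(x, N y) = T_v(x, N y)` (`T_split`); inert: `T_w(x,y) = cs_w(x^b y^(-a))`, `N(x^b y^(-a)) = x^(3b) N(y)^(-a)`, `cs_inert`; ramified: `T_ram`; the ramified case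
does not occur above `3` (`UL`). (N3) `x ∈ F` admissible, `y ∈ k`: away from `3` from (N1) and `T_antisymm`; above `3` split or inert:
`T_w(x, y) = cs_w(x)^ord_w(y)`, `cs_inert` or `cs_sF`, `cs_deg1`-like: `∏_i cs_w(σ^i x) = cs_v(N x)`: `N(1 - λ³ τ) ≡ 1 - λ³ Tr τ`. -/

theorem p8_cancel {M : Type*} [CommMonoid M] {a b c : M} (h : a * b = 1) (h' : c * b = 1) :
    a = c := by
  calc a = a * (c * b) := by rw [h', mul_one]
    _ = (a * b) * c := by rw [mul_comm c b, ← mul_assoc]
    _ = c := by rw [h, one_mul]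

theorem p8_T_one {F : Type} [Field F] [NumberField F] (e : Eis →+* 𝓞 F)
    (v : HeightOneSpectrum (𝓞 F)) (x : F) : T e v x 1 = 1 := by
  have h1 : od v (1 : F) = 0 := by
    rw [od, map_one]
    exact WithZero.log_one
  rw [T, h1, neg_zero, zpow_zero, one_zpow, mul_one, cs_one]

theorem p8_T_inv {F : Type} [Field F] [NumberField F] (e : Eis →+* 𝓞 F)
    (v : HeightOneSpectrum (𝓞 F)) {x y : F} (hx : x ≠ 0) (hy : y ≠ 0)
    (h : (3 : 𝓞 F) ∉ v.asIdeal ∨ AdG e x) : T e v x y * T e v x y⁻¹ = 1 := by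
  rw [← T_mul_right e v hx hy (inv_ne_zero hy) h, mul_inv_cancel₀ hy, p8_T_one]

theorem p8_alg_ne {k F : Type} [Field k] [Field F] [Algebra k F] {y : k} (hy : y ≠ 0) :
    algebraMap k F y ≠ 0 := (map_ne_zero _).2 hy

theorem p8_norm_ne {k F : Type} [Field k] [NumberField k] [Field F] [NumberField F] [Algebra k F]
    {y : F} (hy : y ≠ 0) : Algebra.norm k y ≠ 0 := by
  rw [Ne, Algebra.norm_eq_zero_iff]
  exact hy

section
variable {k F : Type} [Field k] [NumberField k] [Field F] [NumberField F] [Algebra k F]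
  (S : Cyc k F) (e : Eis →+* 𝓞 k)

theorem p8_AdG_conj {x : F} (h : AdG (eu k F e) x) : AdG (eu k F e) (sF S x) := by
  obtain ⟨u, τ, hu, hx, hτ⟩ := h
  refine ⟨sF S u, sF S τ, (map_ne_zero _).2 hu, ?_, I3.conj S hτ⟩
  rw [← map_pow, ← map_mul, hx, map_sub, map_one, map_mul, map_pow, sF_coe]
  have h1 : S.sg ((eu k F e) la) = (eu k F e) la := S.fix (e la)
  rw [h1]

theorem p8_three_sw (w : HeightOneSpectrum (𝓞 F)) :
    (3 : 𝓞 F) ∈ (S.sw w).asIdeal ↔ (3 : 𝓞 F) ∈ w.asIdeal := by
  rw [S.mem_sw, map_ofNat]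

/-- an inert place above three -/
theorem p8_inert (w : HeightOneSpectrum (𝓞 F)) (h3 : (3 : 𝓞 F) ∈ w.asIdeal) {x : F} {y : k}
    (hx : AdG (eu k F e) x) (hy : y ≠ 0) (hsw : S.sw w = w) (hc : nv w = nv (und k w) ^ 3)
    (hv : ∀ x : k, w.valuation F (algebraMap k F x) = (und k w).valuation k x) :
    T (eu k F e) w x (algebraMap k F y) = T e (und k w) (Algebra.norm k x) y := by
  have hx0 := hx.ne_zero
  have hxc := AdG.cd (eu k F e) w hx h3
  obtain ⟨hN, he⟩ := cs_inert S e w hsw hc hv hxc (Or.inr hx)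
  have hod : ∀ z : k, od w (algebraMap k F z) = od (und k w) z := fun z => by rw [od, od, hv]
  have key : ∀ z : k, z ≠ 0 → ∀ n : ℕ, od (und k w) z = -(n : ℤ) →
      T (eu k F e) w x (algebraMap k F z) = T e (und k w) (Algebra.norm k x) z := by
    intro z hz n hn
    rw [T_of_cd (eu k F e) w hxc (p8_alg_ne hz) n (by rw [hod, hn]),
      T_of_cd e (und k w) hN hz n hn, he]
  rcases le_or_gt (od (und k w) y) 0 with hle | hlt
  · exact key y hy (od (und k w) y).natAbs (by omega)
  · have h1 := key y⁻¹ (inv_ne_zero hy) (od (und k w) y).natAbs (by rw [od_inv]; omega)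
    have h2 := p8_T_inv (eu k F e) w hx0 (p8_alg_ne (F := F) hy) (Or.inr hx)
    have h3' := p8_T_inv e (und k w) (x := Algebra.norm k x) (p8_norm_ne hx0) hy
      (Or.inr (AdG.norm S e hx))
    rw [← map_inv₀, h1] at h2
    exact p8_cancel h2 h3'

end

section
variable {k F : Type} [Field k] [NumberField k] [Field F] [NumberField F] [Algebra k F]
  (S : Cyc k F) (e : Eis →+* 𝓞 k)

/-- (N3) -/
theorem lf_T_norm (hU : UL (eu k F e)) (w : HeightOneSpectrum (𝓞 F)) {x : F} {y : k}
    (hx : AdG (eu k F e) x) (hy : y ≠ 0) :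
    lf S (fun w => T (eu k F e) w x (algebraMap k F y)) w =
      T e (und k w) (Algebra.norm k x) y := by
  have hx0 := hx.ne_zero
  have hN : Algebra.norm k x ≠ 0 := p8_norm_ne hx0
  have hyF : algebraMap k F y ≠ 0 := p8_alg_ne hy
  have hsx : sF S x ≠ 0 := (map_ne_zero _).2 hx0
  have hssx : sF S (sF S x) ≠ 0 := (map_ne_zero _).2 hsx
  by_cases h3 : (3 : 𝓞 F) ∈ w.asIdeal
  · have hval := not_ram_three S e hU w h3
    rw [lf]
    rcases kinds S w with ⟨hsw, hc, hv⟩ | ⟨hsw, hc, hm, hv⟩ | ⟨hsw, hc, hm, hv⟩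
    · rw [if_neg hsw]
      change T (eu k F e) w x (algebraMap k F y) * T (eu k F e) (S.sw w) x (algebraMap k F y) *
        T (eu k F e) (S.sw (S.sw w)) x (algebraMap k F y) = _
      have a1 := p8_AdG_conj S e hx
      have a2 := p8_AdG_conj S e a1
      rw [← T_sF S e (S.sw w), sF_map, ← T_sF S e w (sF S x), sF_map, ← T_sF S e w x, sF_map,
        ← T_mul_left (eu k F e) w hx0 hsx hyF (Or.inr ⟨hx, a1⟩),
        ← T_mul_left (eu k F e) w (mul_ne_zero hx0 hsx) hssx hyF
          (Or.inr ⟨AdG.mul (eu k F e) hx a1, a2⟩), ← norm_sF S]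
      exact T_split e w hc hv hN hy (Or.inr (AdG.norm S e hx))
    · exfalso
      have h3k : (3 : 𝓞 k) ∈ (und k w).asIdeal := (three_und w).2 h3
      have e1 := (hval (3 : k)).symm.trans (hv 3)
      have h30 : (und k w).valuation k (3 : k) ≠ 0 := (Valuation.ne_zero_iff _).2 (by norm_num)
      have h31 : (und k w).valuation k (3 : k) < 1 := by
        have h33 := ((und k w).valuation_lt_one_iff_mem (K := k) (3 : 𝓞 k)).2 h3k
        have h34 : algebraMap (𝓞 k) k 3 = 3 := map_ofNat (algebraMap (𝓞 k) k) 3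
        exact lt_of_eq_of_lt (congrArg _ h34.symm) h33
      have h32 : (und k w).valuation k (3 : k) ^ 3 < (und k w).valuation k (3 : k) := by
        calc (und k w).valuation k (3 : k) ^ 3 =
              (und k w).valuation k (3 : k) ^ 2 * (und k w).valuation k (3 : k) := by
                rw [← pow_succ]
          _ < 1 * (und k w).valuation k (3 : k) :=
              mul_lt_mul_of_pos_right (pow_lt_one₀ zero_le h31 two_ne_zero) (zero_lt_iff.2 h30)
          _ = _ := one_mul _
      exact h32.ne e1.symm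
    · rw [if_pos hsw]
      exact p8_inert S e w h3 hx hy hsw hc hv
  · have h3s : (3 : 𝓞 F) ∉ (S.sw w).asIdeal := fun h => h3 ((p8_three_sw S w).1 h)
    have h3ss : (3 : 𝓞 F) ∉ (S.sw (S.sw w)).asIdeal := fun h => h3s ((p8_three_sw S _).1 h)
    have h3k : (3 : 𝓞 k) ∉ (und k w).asIdeal := fun h => h3 ((three_und w).1 h)
    have e1 := lf_T_alg S e hU w hy hx0 (Or.inl h3)
    have e2 := T_antisymm e (und k w) hN hy h3k
    have e3 : lf S (fun w => T (eu k F e) w x (algebraMap k F y)) w *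
        lf S (fun w => T (eu k F e) w (algebraMap k F y) x) w = 1 := by
      rw [lf, lf]
      split_ifs
      · exact T_antisymm (eu k F e) w hx0 hyF h3
      · have b1 := T_antisymm (eu k F e) w hx0 hyF h3
        have b2 := T_antisymm (eu k F e) (S.sw w) hx0 hyF h3s
        have b3 := T_antisymm (eu k F e) (S.sw (S.sw w)) hx0 hyF h3ss
        calc _ = (T (eu k F e) w x (algebraMap k F y) * T (eu k F e) w (algebraMap k F y) x) *
              (T (eu k F e) (S.sw w) x (algebraMap k F y) *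
                T (eu k F e) (S.sw w) (algebraMap k F y) x) *
              (T (eu k F e) (S.sw (S.sw w)) x (algebraMap k F y) *
                T (eu k F e) (S.sw (S.sw w)) (algebraMap k F y) x) := by ring
          _ = 1 := by rw [b1, b2, b3, one_mul, one_mul]
    rw [e1] at e3
    exact p8_cancel e3 e2

include S in
theorem HH_alg (hU : UL (eu k F e)) {x : k} {y : F} (hx : AdG e x) (hy : y ≠ 0) :
    HH (eu k F e) (algebraMap k F x) y = HH e x (Algebra.norm k y) :=
  prod_above S _ _ (T_support (eu k F e) (p8_alg_ne hx.ne_zero) hy)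
    (T_support e hx.ne_zero (p8_norm_ne hy))
    fun w => lf_T_alg S e hU w hx.ne_zero hy (Or.inr hx)

include S in
theorem HH_norm (hU : UL (eu k F e)) {x : F} {y : k} (hx : AdG (eu k F e) x) (hy : y ≠ 0) :
    HH (eu k F e) x (algebraMap k F y) = HH e (Algebra.norm k x) y :=
  prod_above S _ _ (T_support (eu k F e) hx.ne_zero (p8_alg_ne hy))
    (T_support e (p8_norm_ne hx.ne_zero) hy)
    fun w => lf_T_norm S e hU w hx hy

end

end TH
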