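import Pool.Agent.MP_9ab903_nt.TH.P7

set_option autoImplicit false

open NumberField IsDedekindDomain
open CM27 CMT NAB CF TWR
open scoped Classical

namespace TH

/-! ## [TH-P8a] the product of the symbols and the norm (file TH/P8a.lean)

As `TWR/PF7.lean`. (N1) local identity for `x ∈ k`, `y ∈ F`: split: `y ↦ ` each of the three factors `T_{σ^i w}(x, y) = T_w(x, σ^i y)`, the product is
`T_w(x, N y) = T_v(x, N y)` (`T_split`); inert: `T_w(x,y) = cs_w(x^b y^(-a))`, `N(x^b y^(-a)) = x^(3b) N(y)^(-a)`, `cs_inert`; ramified: `T_ram`; the ramified case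
does not occur above `3` (`UL`). (N3) `x ∈ F` admissible, `y ∈ k`: away from `3` from (N1) and `T_antisymm`; above `3` split or inert:
`T_w(x, y) = cs_w(x)^ord_w(y)`, `cs_inert` or `cs_sF`, `cs_deg1`-like: `∏_i cs_w(σ^i x) = cs_v(N x)`: `N(1 - λ³ τ) ≡ 1 - λ³ Tr τ`. -/

section
variable {k F : Type} [Field k] [NumberField k] [Field F] [NumberField F] [Algebra k F]
  (S : Cyc k F) (e : Eis →+* 𝓞 k)

omit [NumberField k] [NumberField F] in
theorem p8a_alg_ne {x : k} (hx : x ≠ 0) : algebraMap k F x ≠ 0 :=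
  (map_ne_zero_iff _ (algebraMap k F).injective).2 hx

theorem p8a_norm_ne {x : F} (hx : x ≠ 0) : Algebra.norm k x ≠ 0 := by
  have : FiniteDimensional k F := Module.Finite.of_restrictScalars_finite ℚ k F
  rwa [Ne, Algebra.norm_eq_zero_iff]

omit [NumberField k] [NumberField F] in
theorem p8a_norm_inv {z : F} (hz : z ≠ 0) : Algebra.norm k z⁻¹ = (Algebra.norm k z)⁻¹ := by
  have h1 : Algebra.norm k z * Algebra.norm k z⁻¹ = 1 := by
    rw [← map_mul, mul_inv_cancel₀ hz, map_one]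
  exact eq_inv_of_mul_eq_one_right h1

omit [NumberField k] [NumberField F] in
theorem p8a_norm_zpow {z : F} (hz : z ≠ 0) (n : ℤ) :
    Algebra.norm k (z ^ n) = (Algebra.norm k z) ^ n := by
  rcases Int.eq_nat_or_neg n with ⟨m, rfl | rfl⟩
  · rw [zpow_natCast, zpow_natCast, map_pow]
  · rw [zpow_neg, zpow_neg, zpow_natCast, zpow_natCast, p8a_norm_inv (pow_ne_zero m hz), map_pow]

theorem p8a_sF_ne {x : F} (hx : x ≠ 0) : sF S x ≠ 0 :=
  (map_ne_zero_iff _ (sF S).injective).2 hx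

theorem p8a_AdG_zpow {K : Type} [Field K] [NumberField K] (e' : Eis →+* 𝓞 K) {x : K}
    (hx : AdG e' x) (n : ℤ) : AdG e' (x ^ n) := by
  have hnat : ∀ m : ℕ, AdG e' (x ^ m) := by
    intro m
    induction m with
    | zero =>
      rw [pow_zero]
      exact AdG_one e'
    | succ m ih =>
      rw [pow_succ]
      exact AdG.mul e' ih hx
  rcases Int.eq_nat_or_neg n with ⟨m, rfl | rfl⟩
  · rw [zpow_natCast]
    exact hnat m
  · rw [zpow_neg, zpow_natCast]
    exact AdG.inv e' (hnat m)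

/-- the ramified case does not occur above `3` -/
theorem p8a_not_ram (hU : UL (eu k F e)) (w : HeightOneSpectrum (𝓞 F))
    (h3 : (3 : 𝓞 F) ∈ w.asIdeal)
    (hm : Ideal.map (algebraMap (𝓞 k) (𝓞 F)) (und k w).asIdeal = w.asIdeal ^ 3) : False := by
  have h1 : (3 : 𝓞 k) ∈ (und k w).asIdeal := (three_und w).2 h3
  have h2 : e la ∈ (und k w).asIdeal := (three_mem_iff e (und k w)).1 h1
  have h4 : algebraMap (𝓞 k) (𝓞 F) (e la) ∈ w.asIdeal ^ 3 := by
    rw [← hm]
    exact Ideal.mem_map_of_mem _ h2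
  exact hU w h3 (Ideal.pow_le_pow_right (by norm_num) h4)

include S in
/-- `F / k` is not ramified above `3` -/
theorem not_ram_three (hU : UL (eu k F e)) (w : HeightOneSpectrum (𝓞 F))
    (h3 : (3 : 𝓞 F) ∈ w.asIdeal) :
    ∀ x : k, w.valuation F (algebraMap k F x) = (und k w).valuation k x := by
  rcases kinds S w with ⟨-, -, hv⟩ | ⟨-, -, hm, -⟩ | ⟨-, -, -, hv⟩
  · exact hv
  · exact (p8a_not_ram e hU w h3 hm).elim
  · exact hv

/-- (N1) -/
theorem lf_T_alg (hU : UL (eu k F e)) (w : HeightOneSpectrum (𝓞 F)) {x : k} {y : F} (hx : x ≠ 0)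
    (hy : y ≠ 0) (h : (3 : 𝓞 F) ∉ w.asIdeal ∨ AdG e x) :
    lf S (fun w => T (eu k F e) w (algebraMap k F x) y) w =
      T e (und k w) x (Algebra.norm k y) := by
  have hxF : algebraMap k F x ≠ 0 := p8a_alg_ne hx
  have hN : Algebra.norm k y ≠ 0 := p8a_norm_ne hy
  have hsy : sF S y ≠ 0 := p8a_sF_ne S hy
  have hssy : sF S (sF S y) ≠ 0 := p8a_sF_ne S hsy
  have hF : (3 : 𝓞 F) ∉ w.asIdeal ∨ AdG (eu k F e) (algebraMap k F x) :=
    h.imp_right fun h1 => AdG.alg e h1
  rw [lf]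
  rcases kinds S w with ⟨hsw, hc, hv⟩ | ⟨hsw, hc, hm, hv⟩ | ⟨hsw, hc, hm, hv⟩
  · rw [if_neg hsw]
    have h1 : T (eu k F e) (S.sw w) (algebraMap k F x) y =
        T (eu k F e) w (algebraMap k F x) (sF S y) := by
      rw [← T_sF, sF_map]
    have h2 : T (eu k F e) (S.sw (S.sw w)) (algebraMap k F x) y =
        T (eu k F e) w (algebraMap k F x) (sF S (sF S y)) := by
      rw [← T_sF, sF_map, ← T_sF, sF_map]
    rw [h1, h2, ← T_mul_right (eu k F e) w hxF hy hsy hF,
      ← T_mul_right (eu k F e) w hxF (mul_ne_zero hy hsy) hssy hF, ← norm_sF S]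
    exact T_split e w hc hv hx hN h
  · rw [if_pos hsw]
    have h3 : (3 : 𝓞 F) ∉ w.asIdeal := fun h3 => p8a_not_ram e hU w h3 hm
    exact T_ram S e w hsw hc hv h3 hx hy
  · rw [if_pos hsw]
    obtain ⟨z, hz⟩ : ∃ z : F, z = (algebraMap k F x) ^ (-od w y) * y ^ (od w (algebraMap k F x)) :=
      ⟨_, rfl⟩
    have hcd : Cd (eu k F e) w z := by
      rw [hz]
      exact T_cd (eu k F e) w hxF hy hF
    have hoda : od w (algebraMap k F x) = od (und k w) x := by
      rw [od, od, hv]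
    have had : (3 : 𝓞 F) ∉ w.asIdeal ∨ AdG (eu k F e) z := by
      by_cases h3 : (3 : 𝓞 F) ∈ w.asIdeal
      · right
        have h4 : AdG (eu k F e) (algebraMap k F x) := hF.resolve_left (fun h5 => h5 h3)
        have h5 : t3 w (algebraMap k F x) := Cd.t3 (eu k F e) w (AdG.cd (eu k F e) w h4 h3)
        obtain ⟨c, hc'⟩ := h5
        rw [hz, hc', mul_comm 3 c, zpow_mul]
        refine AdG.mul _ (p8a_AdG_zpow _ h4 _) ?_
        have h6 : (y ^ c) ^ (3 : ℤ) = (y ^ c) ^ 3 := zpow_ofNat _ 3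
        rw [h6]
        exact AdG_cube _ (zpow_ne_zero c hy)
      · exact Or.inl h3
    have hinert := (cs_inert S e w hsw hc hv hcd had).2
    have hnz : Algebra.norm k z = x ^ (-od (und k w) (Algebra.norm k y)) *
        (Algebra.norm k y) ^ (od (und k w) x) := by
      rw [hz, map_mul, p8a_norm_zpow hxF, p8a_norm_zpow hy, Algebra.norm_algebraMap, S.rank,
        od_norm_inert S w hsw hv hy, hoda, ← zpow_natCast x 3, ← zpow_mul]
      congr 2
      push_cast
      ring
    show T (eu k F e) w (algebraMap k F x) y = _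
    rw [T, T, ← hz, hinert, hnz]

end

end TH
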