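import Pool.Agent.MP_9ab903_nt.TH.P5

set_option autoImplicit false

open NumberField IsDedekindDomain
open CM27 CMT NAB CF TWR
open scoped Classical

namespace TH

/-! ## [TH-P9a] approximation above `3` (file TH/P9a.lean)

`UL e`: `λ` is a uniformiser at all places above `3`. `approx`: Chinese remainder theorem modulo `w ^ (N + 1)` for integers (`IsDedekindDomain.exists_forall_sub_mem_ideal` or
`Ideal.quotientInfRingEquivPiQuotient`), after approximating each `f w` (integral at `w`) by an algebraic integer (write `f w = p / q`, `q ∉ w` possible, invert `q`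
modulo `w ^ (N+1)`).
`cube_approx`: induction on `n ≥ 4`: if `v(z c³ - 1) ≤ v(λ)^n` for all `v ∣ 3`, put `s = (z c³ - 1) / λ^n` (integral above `3`) and `c' = c (1 + ω λ^(n-2) s)`:
`(1 + ω λ^(n-2) s)³ = 1 + 3 ω λ^(n-2) s + 3 ω² λ^(2n-4) s² + λ^(3n-6) s³ = 1 - λ^n s - ω λ^(2n-2) s² + λ^(3n-6) s³` (`3 = - ω² λ²`), so `z c'³ ≡ 1 mod λ^(n+1)`. -/

section
variable {F : Type} [Field F] [NumberField F] (e : Eis →+* 𝓞 F)

/-- `λ` in `F` -/
noncomputable abbrev lF : F := ((e la : 𝓞 F) : F)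

theorem p9a_W : ((e om : 𝓞 F) : F) ^ 2 + ((e om : 𝓞 F) : F) + 1 = 0 := by
  have h : e om ^ 2 + e om + 1 = 0 := by
    rw [← map_pow, ← map_add, ← map_one e, ← map_add, om_quad, map_zero]
  have h2 := congrArg (algebraMap (𝓞 F) F) h
  rw [map_add, map_add, map_pow, map_one, map_zero] at h2
  exact h2

theorem p9a_L : lF e = 1 - ((e om : 𝓞 F) : F) := by
  have h : e la = 1 - e om := by rw [la_eq, map_sub, map_one]
  have h2 := congrArg (algebraMap (𝓞 F) F) h
  rw [map_sub, map_one] at h2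
  exact h2

theorem three_lF : (3 : F) = -((e om : 𝓞 F) : F) ^ 2 * lF e ^ 2 := by
  have hW := p9a_W e
  rw [p9a_L e]
  linear_combination (((e om : 𝓞 F) : F) ^ 2 - 3 * ((e om : 𝓞 F) : F) + 3) * hW

theorem lF_ne : lF e ≠ 0 := by
  intro h
  have h3 := three_lF e
  rw [h] at h3
  norm_num at h3

theorem om_F : ((e om : 𝓞 F) : F) ^ 2 + ((e om : 𝓞 F) : F) + 1 = 0 := p9a_W e

theorem lF_eq : lF e = 1 - ((e om : 𝓞 F) : F) := p9a_L e

theorem finite_three : {v : HeightOneSpectrum (𝓞 F) | (3 : 𝓞 F) ∈ v.asIdeal}.Finite :=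
  finite_primes 3 (OfNat.ofNat_ne_zero 3)

/-- `λ` is a uniformiser -/
theorem val_lF (hU : UL e) {v : HeightOneSpectrum (𝓞 F)} (h3 : (3 : 𝓞 F) ∈ v.asIdeal) :
    v.valuation F (lF e) = WithZero.exp (-1 : ℤ) := by
  have h1 : v.valuation F (lF e) < 1 := (val_lt_iff _ v).2 ((three_mem_iff e v).1 h3)
  have h2 : ¬ v.valuation F (lF e) ≤ WithZero.exp (-2 : ℤ) := by
    intro h
    apply hU v h3
    rw [← v.intValuation_le_pow_iff_mem (e la) 2, ← v.valuation_of_algebraMap (K := F)]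
    exact h
  rw [val_eq_exp v (lF_ne e)] at h1 h2 ⊢
  rw [← WithZero.exp_zero, WithZero.exp_lt_exp] at h1
  rw [WithZero.exp_le_exp] at h2
  congr 1
  omega

theorem od_lF (hU : UL e) {v : HeightOneSpectrum (𝓞 F)} (h3 : (3 : 𝓞 F) ∈ v.asIdeal) :
    od v (lF e) = -1 := by
  rw [od, val_lF e hU h3, WithZero.log_exp]

/-- valuations of elements of `v` -/
theorem val_lt_iff_le (hU : UL e) {v : HeightOneSpectrum (𝓞 F)} (h3 : (3 : 𝓞 F) ∈ v.asIdeal)
    (x : F) (n : ℕ) : v.valuation F x < v.valuation F (lF e) ^ n ↔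
      v.valuation F x ≤ v.valuation F (lF e) ^ (n + 1) := by
  rw [val_lF e hU h3, ← WithZero.exp_nsmul, ← WithZero.exp_nsmul]
  by_cases hx : x = 0
  · rw [hx, map_zero]
    exact iff_of_true (WithZero.exp_pos) zero_le
  · rw [val_eq_exp v hx, WithZero.exp_lt_exp, WithZero.exp_le_exp]
    simp only [nsmul_eq_mul, Nat.cast_add, Nat.cast_one]
    constructor <;> intro h <;> linarith

/-- **approximation** -/
theorem approx (hU : UL e) (f : HeightOneSpectrum (𝓞 F) → F)
    (hf : ∀ v : HeightOneSpectrum (𝓞 F), (3 : 𝓞 F) ∈ v.asIdeal → v.valuation F (f v) ≤ 1) (N : ℕ) :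
    ∃ x : 𝓞 F, ∀ v : HeightOneSpectrum (𝓞 F), (3 : 𝓞 F) ∈ v.asIdeal →
      v.valuation F ((x : F) - f v) ≤ v.valuation F (lF e) ^ N := by
  have hex : ∀ v : HeightOneSpectrum (𝓞 F), ∃ a : 𝓞 F, (3 : 𝓞 F) ∈ v.asIdeal →
      v.valuation F ((a : F) - f v) < v.valuation F (lF e) ^ N := by
    intro v
    by_cases h3 : (3 : 𝓞 F) ∈ v.asIdeal
    · have hne : v.valuation F (lF e) ^ N ≠ 0 :=
        pow_ne_zero _ ((Valuation.ne_zero_iff _).2 (lF_ne e))
      obtain ⟨a, ha⟩ := v.exists_valuation_sub_lt_of_integer (K := F) (hf v h3)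
        (Units.mk0 _ hne)
      exact ⟨a, fun _ => ha⟩
    · exact ⟨0, fun h => absurd h h3⟩
  choose a ha using hex
  obtain ⟨x, hx⟩ := IsDedekindDomain.exists_forall_sub_mem_ideal
    (s := (finite_three (F := F)).toFinset)
    (fun v : HeightOneSpectrum (𝓞 F) => v.asIdeal) (fun _ => N)
    (fun v _ => v.prime) (fun v _ w _ hvw h => hvw (HeightOneSpectrum.ext h)) (fun v => a v)
  refine ⟨x, fun v h3 => ?_⟩
  have h1 := hx v ((Set.Finite.mem_toFinset _).2 h3)
  rw [← v.intValuation_le_pow_iff_mem, ← v.valuation_of_algebraMap (K := F)] at h1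
  replace h1 : v.valuation F ((x : F) - (a v : F)) ≤ WithZero.exp (-(N : ℤ)) := by
    rw [← map_sub (algebraMap (𝓞 F) F)]
    exact h1
  have h2 : (WithZero.exp (-(N : ℤ)) : WithZero (Multiplicative ℤ)) =
      v.valuation F (lF e) ^ N := by
    rw [val_lF e hU h3, ← WithZero.exp_nsmul]
    congr 1
    simp
  rw [h2] at h1
  have h4 : (x : F) - f v = ((x : F) - (a v : F)) + ((a v : F) - f v) := by ring
  rw [h4]
  exact (Valuation.map_add _ _ _).trans (max_le h1 (ha v h3).le)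

end

end TH
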