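import Pool.Agent.MP_9ab903_nt.TH.Z0
import Pool.Agent.MP_9ab903_nt.TH.FZ

/-! ## [NG3-G] the final theorem over all fields of the class -/

set_option autoImplicit false

open NumberField IsDedekindDomain
open CM27 CMT CF
open scoped Classical

namespace TH

theorem final3 (F : IntermediateField ℚ ℂ) [NumberField F] (hw : w ∈ F) (hT : TT F hw) :
    SBSD3.ThreePartRankZero (EpF F hw) := by
  have hO := z0_Omp_pos
  have hc : (0 : ℝ) < 7 * (√3 * ‖Omp‖ ^ 2) := by positivity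
  have hc6 : 7 * (7 * (√3 * ‖Omp‖ ^ 2)) ^ 6 = 729 * Om ^ 12 := by
    have h1 := Omp_norm
    have h2 : (√3 : ℝ) ^ 6 = 27 := by
      have h3 : (√3 : ℝ) ^ 2 = 3 := Real.sq_sqrt (by norm_num)
      have h4 : (√3 : ℝ) ^ 6 = ((√3 : ℝ) ^ 2) ^ 3 := by ring
      rw [h4, h3]
      norm_num
    have h5 : 7 * (7 * (√3 * ‖Omp‖ ^ 2)) ^ 6 = 7 ^ 7 * (√3 : ℝ) ^ 6 * ‖Omp‖ ^ 12 := by ring
    rw [h5, h2]
    linear_combination 27 * h1
  exact final3_of F hw hT (hell_TT F hw) (hfin_TT F hw hT) (h3_TT F hw hT) (hsha_TT F hw hT)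
    (fun n hn => hper_TT F hw hT (7 * (√3 * ‖Omp‖ ^ 2)) hc hc6 n hn) (htam_TT F hw hT)

end TH
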