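import Pool.Agent.MP_9ab903_nt.TH.E8
import Pool.Agent.MP_9ab903_nt.TH.C17
import Pool.Agent.MP_9ab903_nt.FinalDefs3

/-! ## [NG3-G] assembly of the 3-part of the conjecture from the two halves -/

set_option autoImplicit false

open NumberField IsDedekindDomain
open CM27 CMT CF
open scoped Classical ComplexConjugate

namespace TH

/-- `Omp` is not zero. -/
theorem z0_Omp_pos : 0 < ‖Omp‖ := by
  have h := Omp_norm
  have h1 : ‖Omp‖ ≠ 0 := by
    intro h0
    rw [h0, zero_pow (by norm_num), zero_mul] at h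
    have h2 : (0 : ℝ) < 27 * Om ^ 12 := by
      have := Om_pos
      positivity
    linarith
  exact lt_of_le_of_ne (norm_nonneg _) (Ne.symm h1)

theorem z0_padic_three_not_dvd (m : ℕ) (h : ¬ 3 ∣ m) :
    padicValRat 3 (m : ℚ) = 0 := by
  rw [padicValRat.of_nat, padicValNat.eq_zero_of_not_dvd h]
  rfl

theorem z0_finrank_zero (A : Type) [AddCommGroup A] [Finite A] : Module.finrank ℤ A = 0 := by
  rw [Module.finrank_eq_zero_iff_isTorsion]
  intro x
  refine ⟨⟨(addOrderOf x : ℤ), ?_⟩, ?_⟩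
  · rw [mem_nonZeroDivisors_iff_ne_zero]
    exact_mod_cast (addOrderOf_pos x).ne'
  · change ((addOrderOf x : ℤ)) • x = 0
    rw [natCast_zsmul, addOrderOf_nsmul_eq_zero]

/-- the two halves give the theorem -/
theorem z0_of {K : Type} [Field K] [NumberField K] (W : WeierstrassCurve K) (P : ℝ) (hP : 0 < P)
    (n : ℕ) (L : ℂ → ℂ) (hL : SBSD2.IsEntireLSeries W L) (hL1 : L 1 ≠ 0) (q : ℚ) (hq0 : 0 < q)
    (hq3 : padicValRat 3 q = 0)
    (hq : L 1 * ((√|(discr K : ℝ)| : ℝ) : ℂ) = q * ((P ^ n : ℝ) : ℂ))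
    (hell : W.IsElliptic) (hfin : Finite W.toAffine.Point)
    (h3 : ¬ 3 ∣ Nat.card W.toAffine.Point)
    (hsha : ∀ (x : SBSD.Sha W) (k : ℕ), 3 ^ k • x = 0 → x = 0)
    (hper : SBSD.period W = (7 * P) ^ n)
    (htam : ∏ᶠ v : HeightOneSpectrum (𝓞 K), SBSD.tam W v = 1) :
    SBSD3.ThreePartRankZero W := by
  have htor : Nat.card (AddCommGroup.torsion W.toAffine.Point) = Nat.card W.toAffine.Point := by
    have h1 : (AddCommGroup.torsion W.toAffine.Point) = ⊤ := by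
      rw [eq_top_iff]
      intro x _
      exact isOfFinAddOrder_of_finite x
    rw [h1]
    exact Nat.card_congr AddSubgroup.topEquiv.toEquiv
  obtain ⟨T, hTdef⟩ : ∃ T : ℕ, T = Nat.card W.toAffine.Point := ⟨_, rfl⟩
  rw [← hTdef] at h3 htor
  have hT0 : T ≠ 0 := by
    rw [hTdef]
    exact Nat.card_pos.ne'
  have hTq : ((T : ℚ)) ≠ 0 := by exact_mod_cast hT0
  refine ⟨hell, hfin, L, hL, ?_, hL1, hsha, q * (T : ℚ) ^ 2 / 7 ^ n, ?_, ?_, ?_⟩
  · rw [z0_finrank_zero, Nat.cast_zero, AnalyticAt.analyticOrderAt_eq_zero]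
    · exact hL1
    · exact (hL.1.analyticAt 1)
  · positivity
  · have h7 : (7 : ℚ) ^ n ≠ 0 := pow_ne_zero _ (by norm_num)
    haveI : Fact (Nat.Prime 3) := ⟨Nat.prime_three⟩
    rw [padicValRat.div (mul_ne_zero hq0.ne' (pow_ne_zero 2 hTq)) h7,
      padicValRat.mul hq0.ne' (pow_ne_zero 2 hTq), padicValRat.pow, padicValRat.pow, hq3,
      z0_padic_three_not_dvd T h3]
    have h73 : padicValRat 3 (7 : ℚ) = 0 := by
      have := z0_padic_three_not_dvd 7 (by norm_num)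
      exact_mod_cast this
    rw [h73]
    norm_num
  · rw [SBSD2.bsdQuotient, htam, hper, htor, hq]
    have h5 : ((P : ℂ)) ≠ 0 := by exact_mod_cast hP.ne'
    push_cast
    rw [mul_pow]
    field_simp

/-- the two halves give the theorem -/
theorem final3_of (F : IntermediateField ℚ ℂ) [NumberField F] (hw : w ∈ F) (hT : TT F hw)
    (hell : (EpF F hw).IsElliptic) (hfin : Finite (EpF F hw).toAffine.Point)
    (h3 : ¬ 3 ∣ Nat.card (EpF F hw).toAffine.Point)
    (hsha : ∀ (x : SBSD.Sha (EpF F hw)) (k : ℕ), 3 ^ k • x = 0 → x = 0)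
    (hper : ∀ n : ℕ, Module.finrank ℚ F = 2 * n →
      SBSD.period (EpF F hw) = (7 * (√3 * ‖Omp‖ ^ 2)) ^ n)
    (htam : ∏ᶠ v : HeightOneSpectrum (𝓞 F), SBSD.tam (EpF F hw) v = 1) :
    SBSD3.ThreePartRankZero (EpF F hw) := by
  obtain ⟨n, L, hn, hn0, hL, hL1, q, hq0, hq3, hq⟩ := analytic3 F hw hT
  have hOmp := z0_Omp_pos
  exact z0_of (EpF F hw) (√3 * ‖Omp‖ ^ 2) (by positivity) n L hL hL1 q hq0 hq3 hq hell hfin h3 hsha
    (hper n hn) htam

end TH
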